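import Pool.Agent.Work.MP_dd5692_pr.POT

/-! # MP_dd5692_pr: PL1 (a left-right 8-path and a bottom-top 4-path of a box meet) -/

set_option autoImplicit false

namespace MPdd5692

namespace PL1

/-- indicator -/
noncomputable def ind (P : Prop) : ZMod 2 := open Classical in if P then 1 else 0

theorem ind_pos {P : Prop} (h : P) : ind P = 1 := by
  classical
  unfold ind; rw [if_pos h]

theorem ind_neg {P : Prop} (h : ¬ P) : ind P = 0 := by
  classical
  unfold ind; rw [if_neg h]

/-- a mod 2 chain in `W` with boundary `p + q` -/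
def Ch (W : Set Site) (p q : Site) : Prop :=
  ∃ h v : ℤ → ℤ → ZMod 2,
    (∀ x y, h x y ≠ 0 → (x, y) ∈ W ∧ (x + 1, y) ∈ W) ∧
    (∀ x y, v x y ≠ 0 → (x, y) ∈ W ∧ (x, y + 1) ∈ W) ∧
    ∀ x y, h x y + h (x - 1) y + v x y + v x (y - 1) = ind (p = (x, y)) + ind (q = (x, y))

theorem Ch.zero {W : Set Site} (p : Site) : Ch W p p := by
  refine ⟨fun _ _ => 0, fun _ _ => 0, ?_, ?_, ?_⟩
  · intro x y h; exact absurd rfl h
  · intro x y h; exact absurd rfl h
  · intro x y
    have := zmod2_add_self (ind (p = (x, y)))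
    rw [this]; simp

theorem Ch.edge {W : Set Site} {p q r : Site} (hc : Ch W p q) (hq : q ∈ W) (hr : r ∈ W) (hqr : Adj4 q r) :
    Ch W p r := by
  obtain ⟨h, v, h1, h2, h3⟩ := hc
  obtain ⟨a, b⟩ := q
  obtain ⟨c, d⟩ := r
  rw [adj4_iff] at hqr
  simp only at hqr
  have add2 : ∀ x y z : ZMod 2, x + y + (y + z) = x + z := by decide
  rcases hqr with ⟨e, e' | e'⟩ | ⟨e, e' | e'⟩
  · subst e e'
    refine ⟨h, fun x y => v x y + ind (x = a ∧ y = b), h1, ?_, ?_⟩
    · intro x y hne
      by_cases hxy : x = a ∧ y = b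
      · obtain ⟨rfl, rfl⟩ := hxy
        exact ⟨hq, hr⟩
      · beta_reduce at hne
        rw [ind_neg hxy, add_zero] at hne
        exact h2 x y hne
    · intro x y
      have e1 : ind (x = a ∧ y = b) = ind (((a, b) : Site) = (x, y)) := by
        congr 1; rw [Prod.mk.injEq]; apply propext; constructor <;> rintro ⟨rfl, rfl⟩ <;> exact ⟨rfl, rfl⟩
      have e2 : ind (x = a ∧ y - 1 = b) = ind (((a, b + 1) : Site) = (x, y)) := by
        congr 1; rw [Prod.mk.injEq]; apply propext; constructor
        · rintro ⟨rfl, rfl⟩; exact ⟨rfl, by ring⟩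
        · rintro ⟨rfl, rfl⟩; exact ⟨rfl, by ring⟩
      beta_reduce
      rw [e1, e2]
      have := h3 x y
      calc h x y + h (x - 1) y + (v x y + ind (((a, b) : Site) = (x, y))) +
            (v x (y - 1) + ind (((a, b + 1) : Site) = (x, y)))
          = (h x y + h (x - 1) y + v x y + v x (y - 1)) + (ind (((a, b) : Site) = (x, y)) +
            ind (((a, b + 1) : Site) = (x, y))) := by ring
        _ = _ := by rw [this, add2]
  · obtain rfl : b = d + 1 := by omega
    subst e
    refine ⟨h, fun x y => v x y + ind (x = a ∧ y = d), h1, ?_, ?_⟩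
    · intro x y hne
      by_cases hxy : x = a ∧ y = d
      · obtain ⟨rfl, rfl⟩ := hxy
        exact ⟨hr, hq⟩
      · beta_reduce at hne
        rw [ind_neg hxy, add_zero] at hne
        exact h2 x y hne
    · intro x y
      have e1 : ind (x = a ∧ y = d) = ind (((a, d) : Site) = (x, y)) := by
        congr 1; rw [Prod.mk.injEq]; apply propext; constructor <;> rintro ⟨rfl, rfl⟩ <;> exact ⟨rfl, rfl⟩
      have e2 : ind (x = a ∧ y - 1 = d) = ind (((a, d + 1) : Site) = (x, y)) := by
        congr 1; rw [Prod.mk.injEq]; apply propext; constructor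
        · rintro ⟨rfl, rfl⟩; exact ⟨rfl, by ring⟩
        · rintro ⟨rfl, rfl⟩; exact ⟨rfl, by ring⟩
      beta_reduce
      rw [e1, e2]
      have := h3 x y
      calc h x y + h (x - 1) y + (v x y + ind (((a, d) : Site) = (x, y))) +
            (v x (y - 1) + ind (((a, d + 1) : Site) = (x, y)))
          = (h x y + h (x - 1) y + v x y + v x (y - 1)) + (ind (((a, d + 1) : Site) = (x, y)) +
            ind (((a, d) : Site) = (x, y))) := by ring
        _ = _ := by rw [this, add2]
  · subst e e'
    refine ⟨fun x y => h x y + ind (x = a ∧ y = b), v, ?_, h2, ?_⟩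
    · intro x y hne
      by_cases hxy : x = a ∧ y = b
      · obtain ⟨rfl, rfl⟩ := hxy
        exact ⟨hq, hr⟩
      · beta_reduce at hne
        rw [ind_neg hxy, add_zero] at hne
        exact h1 x y hne
    · intro x y
      have e1 : ind (x = a ∧ y = b) = ind (((a, b) : Site) = (x, y)) := by
        congr 1; rw [Prod.mk.injEq]; apply propext; constructor <;> rintro ⟨rfl, rfl⟩ <;> exact ⟨rfl, rfl⟩
      have e2 : ind (x - 1 = a ∧ y = b) = ind (((a + 1, b) : Site) = (x, y)) := by
        congr 1; rw [Prod.mk.injEq]; apply propext; constructor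
        · rintro ⟨rfl, rfl⟩; exact ⟨by ring, rfl⟩
        · rintro ⟨rfl, rfl⟩; exact ⟨by ring, rfl⟩
      beta_reduce
      rw [e1, e2]
      have := h3 x y
      calc h x y + ind (((a, b) : Site) = (x, y)) + (h (x - 1) y + ind (((a + 1, b) : Site) = (x, y))) +
            v x y + v x (y - 1)
          = (h x y + h (x - 1) y + v x y + v x (y - 1)) + (ind (((a, b) : Site) = (x, y)) +
            ind (((a + 1, b) : Site) = (x, y))) := by ring
        _ = _ := by rw [this, add2]
  · obtain rfl : a = c + 1 := by omega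
    subst e
    refine ⟨fun x y => h x y + ind (x = c ∧ y = b), v, ?_, h2, ?_⟩
    · intro x y hne
      by_cases hxy : x = c ∧ y = b
      · obtain ⟨rfl, rfl⟩ := hxy
        exact ⟨hr, hq⟩
      · beta_reduce at hne
        rw [ind_neg hxy, add_zero] at hne
        exact h1 x y hne
    · intro x y
      have e1 : ind (x = c ∧ y = b) = ind (((c, b) : Site) = (x, y)) := by
        congr 1; rw [Prod.mk.injEq]; apply propext; constructor <;> rintro ⟨rfl, rfl⟩ <;> exact ⟨rfl, rfl⟩
      have e2 : ind (x - 1 = c ∧ y = b) = ind (((c + 1, b) : Site) = (x, y)) := by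
        congr 1; rw [Prod.mk.injEq]; apply propext; constructor
        · rintro ⟨rfl, rfl⟩; exact ⟨by ring, rfl⟩
        · rintro ⟨rfl, rfl⟩; exact ⟨by ring, rfl⟩
      beta_reduce
      rw [e1, e2]
      have := h3 x y
      calc h x y + ind (((c, b) : Site) = (x, y)) + (h (x - 1) y + ind (((c + 1, b) : Site) = (x, y))) +
            v x y + v x (y - 1)
          = (h x y + h (x - 1) y + v x y + v x (y - 1)) + (ind (((c + 1, b) : Site) = (x, y)) +
            ind (((c, b) : Site) = (x, y))) := by ring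
        _ = _ := by rw [this, add2]

theorem ch_of_linked {W : Set Site} {p q : Site} (h : Linked Adj4 W p q) : Ch W p q := by
  refine h.ind (P := fun z => Ch W p z) (Ch.zero p) ?_
  intro z w hz ih hzw hw
  exact ih.edge hz.right hw hzw

theorem seg_const (g : ℤ → ZMod 2) {p q : ℤ} (hpq : p ≤ q) (h : ∀ i, p ≤ i → i < q → g i + g (i + 1) = 0) :
    g p = g q := by
  obtain ⟨k, rfl⟩ : ∃ k : ℕ, q = p + k := ⟨(q - p).toNat, by omega⟩
  clear hpq
  induction k with
  | zero => simp
  | succ k ih =>
    rw [ih (fun i h1 h2 => h i h1 (by push_cast; omega))]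
    have := h (p + k) (by omega) (by push_cast; omega)
    rw [CharTwo.add_eq_zero.1 this]
    congr 1
    push_cast; ring

end PL1

open PL1

theorem blk_PL1 : Stmt_PL1 := by
  intro X Y a b c d hX hY
  by_contra hno
  obtain ⟨y0, y1, hX⟩ := hX
  obtain ⟨x0, x1, hY⟩ := hY
  have hx0 := hY.left.2
  have hx1 := hY.right.2
  have hy0 := hX.left.2
  have hy1 := hX.right.2
  rw [mem_Box] at hx0 hx1 hy0 hy1
  simp only at hx0 hx1 hy0 hy1
  obtain ⟨h, v, h1, h2, h3⟩ := ch_of_linked hY
  -- the closed chain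
  set v' : ℤ → ℤ → ZMod 2 := fun x y => v x y + ind (x = x0 ∧ y < c) + ind (x = x1 ∧ d ≤ y) with hv'
  set D : Set Site := (Y ∩ Box a b c d) ∪ {z | z.1 = x0 ∧ z.2 < c} ∪ {z | z.1 = x1 ∧ d < z.2} with hD
  have hh : ∀ x y, h x y ≠ 0 → ((x, y) : Site) ∈ D ∧ ((x + 1, y) : Site) ∈ D := by
    intro x y hne
    have := h1 x y hne
    exact ⟨Or.inl (Or.inl this.1), Or.inl (Or.inl this.2)⟩
  have hvv : ∀ x y, v' x y ≠ 0 → ((x, y) : Site) ∈ D ∧ ((x, y + 1) : Site) ∈ D := by
    intro x y hne
    by_cases e1 : v x y ≠ 0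
    · have := h2 x y e1
      exact ⟨Or.inl (Or.inl this.1), Or.inl (Or.inl this.2)⟩
    · by_cases e2 : x = x0 ∧ y < c
      · obtain ⟨rfl, e2⟩ := e2
        refine ⟨Or.inl (Or.inr ⟨rfl, e2⟩), ?_⟩
        by_cases e3 : y + 1 < c
        · exact Or.inl (Or.inr ⟨rfl, e3⟩)
        · have : y + 1 = c := by omega
          rw [this]
          exact Or.inl (Or.inl hY.left)
      · by_cases e3 : x = x1 ∧ d ≤ y
        · obtain ⟨rfl, e3⟩ := e3
          refine ⟨?_, Or.inr ⟨rfl, by show d < y + 1; omega⟩⟩
          by_cases e4 : d < y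
          · exact Or.inr ⟨rfl, e4⟩
          · have : y = d := by omega
            rw [this]
            exact Or.inl (Or.inl hY.right)
        · exfalso
          apply hne
          simp only [hv']
          push Not at e1
          rw [e1, ind_neg e2, ind_neg e3]
          simp
  have hbd : ∀ x y, h x y + h (x - 1) y + v' x y + v' x (y - 1) = 0 := by
    intro x y
    have e := h3 x y
    have e1 : ind (x = x0 ∧ y < c) + ind (x = x0 ∧ y - 1 < c) = ind (((x0, c) : Site) = (x, y)) := by
      by_cases q1 : x = x0 ∧ y = c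
      · obtain ⟨rfl, rfl⟩ := q1
        rw [ind_neg (by omega), ind_pos ⟨rfl, by omega⟩, ind_pos rfl, zero_add]
      · rw [ind_neg (P := ((x0, c) : Site) = (x, y)) (by
          rw [Prod.mk.injEq]; rintro ⟨rfl, rfl⟩; exact q1 ⟨rfl, rfl⟩)]
        by_cases q2 : x = x0
        · by_cases q3 : y < c
          · rw [ind_pos ⟨q2, q3⟩, ind_pos ⟨q2, by omega⟩]; decide
          · rw [ind_neg (fun h => q3 h.2), ind_neg (fun h => by
              have : y ≠ c := fun hc => q1 ⟨q2, hc⟩
              omega)]; simp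
        · rw [ind_neg (fun h => q2 h.1), ind_neg (fun h => q2 h.1)]; simp
    have e2 : ind (x = x1 ∧ d ≤ y) + ind (x = x1 ∧ d ≤ y - 1) = ind (((x1, d) : Site) = (x, y)) := by
      by_cases q1 : x = x1 ∧ y = d
      · obtain ⟨rfl, rfl⟩ := q1
        rw [ind_pos ⟨rfl, le_rfl⟩, ind_neg (by omega), ind_pos rfl, add_zero]
      · rw [ind_neg (P := ((x1, d) : Site) = (x, y)) (by
          rw [Prod.mk.injEq]; rintro ⟨rfl, rfl⟩; exact q1 ⟨rfl, rfl⟩)]
        by_cases q2 : x = x1
        · by_cases q3 : d ≤ y - 1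
          · rw [ind_pos ⟨q2, by omega⟩, ind_pos ⟨q2, q3⟩]; decide
          · rw [ind_neg (fun h => by
              have : y ≠ d := fun hc => q1 ⟨q2, hc⟩
              omega), ind_neg (fun h => q3 h.2)]; simp
        · rw [ind_neg (fun h => q2 h.1), ind_neg (fun h => q2 h.1)]; simp
    simp only [hv']
    calc h x y + h (x - 1) y + (v x y + ind (x = x0 ∧ y < c) + ind (x = x1 ∧ d ≤ y)) +
          (v x (y - 1) + ind (x = x0 ∧ y - 1 < c) + ind (x = x1 ∧ d ≤ y - 1))
        = (h x y + h (x - 1) y + v x y + v x (y - 1)) + (ind (x = x0 ∧ y < c) + ind (x = x0 ∧ y - 1 < c)) +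
          (ind (x = x1 ∧ d ≤ y) + ind (x = x1 ∧ d ≤ y - 1)) := by ring
      _ = (ind (((x0, c) : Site) = (x, y)) + ind (((x1, d) : Site) = (x, y))) +
          ind (((x0, c) : Site) = (x, y)) + ind (((x1, d) : Site) = (x, y)) := by rw [e, e1, e2]
      _ = 0 := by
        have : ∀ p q : ZMod 2, p + q + p + q = 0 := by decide
        exact this _ _
  obtain ⟨n, hn1, hn2⟩ := blk_POT (fun x y => v' x (y - 1)) (fun x y => h (x - 1) y) (by
    intro x y
    have := hbd x y
    have e : ∀ p q r s : ZMod 2, p + q + r + s = 0 → s + p + r + q = 0 := by decide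
    have e2 := e _ _ _ _ this
    simp only [add_sub_cancel_right]
    exact e2)
  -- steps
  have hzero : ∀ p q : ZMod 2, p + q = 0 → p = q := fun p q h => CharTwo.add_eq_zero.1 h
  have sH : ∀ i j : ℤ, ((i, j) : Site) ∉ D → n i j = n (i + 1) j := by
    intro i j hD
    apply hzero
    rw [hn1]
    by_contra hne
    have := (hvv i (j - 1) hne).2
    rw [sub_add_cancel] at this
    exact hD this
  have sV : ∀ i j : ℤ, ((i, j) : Site) ∉ D → n i j = n i (j + 1) := by
    intro i j hD
    apply hzero
    rw [hn2]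
    by_contra hne
    have := (hh (i - 1) j hne).2
    rw [sub_add_cancel] at this
    exact hD this
  have sV' : ∀ i j : ℤ, ((i, j) : Site) ∉ D → n (i + 1) j = n (i + 1) (j + 1) := by
    intro i j hD
    apply hzero
    rw [hn2]
    by_contra hne
    rw [add_sub_cancel_right] at hne
    exact hD (hh i j hne).1
  have sV'' : ∀ i j : ℤ, ((i + 1, j) : Site) ∉ D → n (i + 1) j = n (i + 1) (j + 1) := by
    intro i j hD
    exact sV _ _ hD
  have step : ∀ z w : Site, z ∈ Dᶜ → w ∈ Dᶜ → Adj8 z w → n z.1 z.2 = n w.1 w.2 := by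
    have half : ∀ i j k l : ℤ, ((i, j) : Site) ∉ D → ((k, l) : Site) ∉ D → Adj8 (i, j) (k, l) →
        (k = i + 1 ∨ (k = i ∧ l = j + 1)) → n i j = n k l := by
      intro i j k l hz hw hzw hk
      rw [adj8_iff] at hzw
      simp only [abs_le] at hzw
      rcases hk with rfl | ⟨rfl, rfl⟩
      · have hl : l = j ∨ l = j + 1 ∨ j = l + 1 := by omega
        rcases hl with rfl | rfl | rfl
        · exact sH _ _ hz
        · exact (sH _ _ hz).trans (sV' _ _ hz)
        · exact (sH _ _ hz).trans (sV'' _ _ hw).symm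
      · exact sV _ _ hz
    rintro ⟨i, j⟩ ⟨k, l⟩ hz hw hzw
    have h8 := hzw
    rw [adj8_iff] at h8
    simp only [abs_le] at h8
    obtain ⟨hne, hb1, hb2⟩ := h8
    by_cases hk : k = i + 1 ∨ (k = i ∧ l = j + 1)
    · exact half i j k l hz hw hzw hk
    · refine (half k l i j hw hz hzw.symm ?_).symm
      by_cases hki : k = i
      · subst hki
        have hlj : j ≠ l := fun h => hne (by rw [h])
        right
        refine ⟨rfl, ?_⟩
        have : ¬ (l = j + 1) := fun h => hk (Or.inr ⟨rfl, h⟩)
        omega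
      · left
        have : ¬ (k = i + 1) := fun h => hk (Or.inl h)
        omega
  -- the horizontal path
  have hXD : X ∩ Box a b c d ⊆ Dᶜ := by
    rintro z ⟨hz, hzB⟩ hzD
    rcases hzD with (hzD | hzD) | hzD
    · exact hno ⟨z, hzB, hz, hzD.1⟩
    · have := hzB.2.2.1
      have h2 := hzD.2
      omega
    · have := hzB.2.2.2
      have h2 := hzD.2
      omega
  have k1 : n a y0 = n b y1 := (hX.mono hXD).const (fun z => n z.1 z.2) step
  have colL : ∀ j : ℤ, ((a - 1, j) : Site) ∉ D := by
    intro j hj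
    rcases hj with (hj | hj) | hj
    · have := hj.2.1
      simp only at this
      omega
    · have := hj.1
      simp only at this
      omega
    · have := hj.1
      simp only at this
      omega
  have colR : ∀ j : ℤ, ((b + 1, j) : Site) ∉ D := by
    intro j hj
    rcases hj with (hj | hj) | hj
    · have := hj.2.2.1
      simp only at this
      omega
    · have := hj.1
      simp only at this
      omega
    · have := hj.1
      simp only at this
      omega
  have k2 : n (a - 1) y0 = n a y0 := by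
    have := sH (a - 1) y0 (colL _)
    rwa [sub_add_cancel] at this
  have k3 : n b y1 = n (b + 1) y1 := sH b y1 (hXD hX.right)
  have k4 : n (a - 1) (c - 1) = n (a - 1) y0 := by
    apply seg_const (fun t => n (a - 1) t) (by omega)
    intro i _ _
    rw [sV (a - 1) i (colL _)]
    exact zmod2_add_self _
  have k5 : n (b + 1) (c - 1) = n (b + 1) y1 := by
    apply seg_const (fun t => n (b + 1) t) (by omega)
    intro i _ _
    rw [sV (b + 1) i (colR _)]
    exact zmod2_add_self _
  have hrow : ∀ i : ℤ, n i (c - 1) + n (i + 1) (c - 1) = ind (i = x0) := by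
    intro i
    rw [hn1]
    simp only [hv']
    have e1 : v i (c - 1 - 1) = 0 := by
      by_contra hne
      have := (h2 i _ hne).1.2
      have := this.2.2.1
      simp only at this
      omega
    rw [e1, ind_neg (P := i = x1 ∧ d ≤ c - 1 - 1) (by omega), zero_add, add_zero]
    congr 1
    apply propext
    constructor
    · rintro ⟨h, -⟩; exact h
    · intro h; exact ⟨h, by omega⟩
  have k6 : n (a - 1) (c - 1) = n x0 (c - 1) := by
    apply seg_const (fun t => n t (c - 1)) (by omega)
    intro i _ hi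
    rw [hrow, ind_neg (by omega)]
  have k7 : n (x0 + 1) (c - 1) = n (b + 1) (c - 1) := by
    apply seg_const (fun t => n t (c - 1)) (by omega)
    intro i hi _
    rw [hrow, ind_neg (by omega)]
  have k8 := hrow x0
  rw [ind_pos rfl, k7, k5, ← k3, ← k1, ← k2, ← k4, k6, zmod2_add_self] at k8
  exact absurd k8 (by decide)

end MPdd5692
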