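import Pool.Agent.Work.MP_dd5692_pr.EB4

/-! # MP_dd5692_pr: PL2 (the left boundary of an explored set contains a bottom-top 4-path) -/

set_option autoImplicit false

namespace MPdd5692

theorem blk_PL2 : Stmt_PL2 := by
  intro u a b c d hab hcd hu hub
  set W : Set Site := u ∪ {z | z.1 < a} with hW
  set A : Set Site := cl Adj8 W (a - 1, c) with hAdef
  have hAW : A ⊆ W := cl_subset
  have hA : ∀ s ∈ A, ∀ s' ∈ A, Linked Adj8 A s s' := fun s hs s' hs' =>
    (Linked.in_cl hs).symm8.trans (Linked.in_cl hs')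
  have cl_step : ∀ s z : Site, s ∈ A → Adj8 s z → z ∈ W → z ∈ A := fun s z hs hsz hz =>
    Linked.step hs hsz hz
  have hWlt : ∀ z ∈ W, z.1 < b := by
    rintro z (hz | hz)
    · exact hub z hz
    · exact lt_of_lt_of_le hz hab
  -- the column `b` is free
  have hcolb : ∀ t : ℤ, ((b, t) : Site) ∈ Aᶜ := by
    intro t ht
    exact absurd (hWlt _ (hAW ht)) (lt_irrefl _)
  -- rows outside of the box are free to the right of column `a`
  have hrow : ∀ t y : ℤ, a ≤ t → (y < c ∨ d < y) → ((t, y) : Site) ∈ Aᶜ := by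
    intro t y ht hy hmem
    rcases hAW hmem with h | h
    · have := hu h
      rw [mem_Box] at this
      simp only at this
      omega
    · have h' : t < a := h
      omega
  -- the column `a - 1` is in `A`
  have hcola : ∀ t : ℤ, ((a - 1, t) : Site) ∈ A := by
    intro t
    have hmem : ∀ s : ℤ, ((a - 1, s) : Site) ∈ W := fun s => Or.inr (by show a - 1 < a; omega)
    rcases le_total c t with h | h
    · exact (lnk_vseg h (fun s _ _ => hmem s)).to8
    · exact (lnk_vseg h (fun s _ _ => hmem s)).symm4.to8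
  have hadj : ∀ t : ℤ, Adj8 ((a - 1, t) : Site) (a, t) := by
    intro t
    rw [adj8_iff]
    refine ⟨?_, ?_, ?_⟩
    · intro h
      have := congrArg Prod.fst h
      simp only at this
      omega
    · simp
    · simp
  have ht : ((a, c - 2) : Site) ∈ extB4 A (b, c) := by
    refine ⟨?_, _, hcola (c - 2), hadj _⟩
    have h1 : Linked Adj4 Aᶜ (b, c - 2) (b, c) := lnk_vseg (by omega) (fun s _ _ => hcolb s)
    have h2 : Linked Adj4 Aᶜ (a, c - 2) (b, c - 2) :=
      lnk_hseg hab (fun s hs _ => hrow s _ hs (Or.inl (by omega)))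
    exact (h2.trans h1).symm4
  have ht' : ((a, d + 2) : Site) ∈ extB4 A (b, c) := by
    refine ⟨?_, _, hcola (d + 2), hadj _⟩
    have h1 : Linked Adj4 Aᶜ (b, c) (b, d + 2) := lnk_vseg (by omega) (fun s _ _ => hcolb s)
    have h2 : Linked Adj4 Aᶜ (a, d + 2) (b, d + 2) :=
      lnk_hseg hab (fun s hs _ => hrow s _ hs (Or.inr (by omega)))
    exact h1.trans h2.symm4
  have hpath := blk_EB4 A (b, c) hA _ ht _ ht'
  have hX : ∀ z ∈ extB4 A (b, c), a ≤ z.1 ∧ z.1 ≤ b := by
    rintro z ⟨hz, s, hs, hsz⟩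
    have hzA : z ∉ A := hz.right
    have h1 := abs_le.1 hsz.fst
    have h2 := hWlt s (hAW hs)
    refine ⟨?_, by omega⟩
    by_contra hlt
    push Not at hlt
    exact hzA (cl_step s z hs hsz (Or.inr hlt))
  obtain ⟨x, x', h⟩ := subV (fun _ _ h => h.adj8) hpath hX (show (c - 2 : ℤ) ≤ c by omega) hcd
    (show d ≤ d + 2 by omega)
  refine ⟨x, x', h.mono ?_⟩
  rintro z ⟨⟨hz, s, hs, hsz⟩, hzB⟩
  have hzA : z ∉ A := hz.right
  refine ⟨⟨hzB, fun hzu => hzA (cl_step s z hs hsz (Or.inl hzu)), ?_⟩, hzB⟩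
  rcases hAW hs with h | h
  · exact Or.inr ⟨s, h, hsz.symm⟩
  · left
    have h1 := abs_le.1 hsz.fst
    have h2 : s.1 < a := h
    have h3 := hzB.1
    omega

end MPdd5692
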