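import Pool.Agent.Work.MP_dd5692_pr.Basic80

/-!
# MP_dd5692_pr: the planar lemmas (statements; proofs in PL1.lean, PL2.lean, EB4.lean, EB8.lean)

See PARTA80.md for the proofs.
-/

set_option autoImplicit false

namespace MPdd5692

/-- **PL1**: a left-right 8-path and a bottom-top 4-path of a box share a site -/
def Stmt_PL1 : Prop := ∀ (X Y : Set Site) (a b c d : ℤ),
  HC Adj8 X a b c d → VC Adj4 Y a b c d → ∃ z ∈ Box a b c d, z ∈ X ∧ z ∈ Y

/-- the left part of the boundary of an explored set `u` of the box: sites of the box outside `u`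
which are in the left column or 8-adjacent to `u` -/
def bdL (u : Set Site) (a b c d : ℤ) : Set Site :=
  {z | z ∈ Box a b c d ∧ z ∉ u ∧ (z.1 = a ∨ ∃ w ∈ u, Adj8 z w)}

/-- **PL2**: if the set `u` of sites of the box does not meet the right column, then its left
boundary contains a bottom-top 4-path -/
def Stmt_PL2 : Prop := ∀ (u : Set Site) (a b c d : ℤ), a ≤ b → c ≤ d → u ⊆ Box a b c d →
  (∀ z ∈ u, z.1 < b) → VC Adj4 (bdL u a b c d) a b c d

/-- **POT**: a curl-free `ZMod 2` function on the edges of `ℤ²` is a gradient.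
`h x y` = value on the edge `(x,y) - (x+1,y)`, `v x y` = value on the edge `(x,y) - (x,y+1)` -/
def Stmt_POT : Prop := ∀ (h v : ℤ → ℤ → ZMod 2),
  (∀ x y : ℤ, h x y + v (x + 1) y + h x (y + 1) + v x y = 0) →
  ∃ n : ℤ → ℤ → ZMod 2, (∀ x y, n x y + n (x + 1) y = h x y) ∧
    (∀ x y, n x y + n x (y + 1) = v x y)

/-- the part of the boundary of `A` visible from `x0` through 4-paths: sites of the 4-component of
`x0` in `Aᶜ` which are 8-adjacent to `A` -/
def extB4 (A : Set Site) (x0 : Site) : Set Site :=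
  {z | Linked Adj4 Aᶜ x0 z ∧ ∃ s ∈ A, Adj8 s z}

/-- **EB4**: it is 4-connected if `A` is 8-connected (`A` finite or not) -/
def Stmt_PEB4 : Prop := ∀ (A : Set Site) (x0 : Site), (∀ s ∈ A, ∀ s' ∈ A, Linked Adj8 A s s') →
  ∀ t ∈ extB4 A x0, ∀ t' ∈ extB4 A x0, Linked Adj4 (extB4 A x0) t t'

/-- the part of the boundary of `A` visible from `x0` through 8-paths: sites of the 8-component of
`x0` in `Aᶜ` which are 4-adjacent to `A` -/
def extB8 (A : Set Site) (x0 : Site) : Set Site :=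
  {z | Linked Adj8 Aᶜ x0 z ∧ ∃ s ∈ A, Adj4 s z}

/-- **EB8**: it is 8-connected if `A` is 4-connected (`A` finite or not) -/
def Stmt_PEB8 : Prop := ∀ (A : Set Site) (x0 : Site), (∀ s ∈ A, ∀ s' ∈ A, Linked Adj4 A s s') →
  ∀ t ∈ extB8 A x0, ∀ t' ∈ extB8 A x0, Linked Adj8 (extB8 A x0) t t'

/-- **PL1'**: PL1 with the coordinates exchanged -/
def Stmt_PL1' : Prop := ∀ (X Y : Set Site) (a b c d : ℤ),
  VC Adj8 X a b c d → HC Adj4 Y a b c d → ∃ z ∈ Box a b c d, z ∈ X ∧ z ∈ Y

/-- **PL2'**: no left-right 8-crossing of the complement => bottom-top 4-crossing of the set, and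
vice versa (duality in a box), both orientations -/
def Stmt_DUAL : Prop := ∀ (W : Set Site) (a b c d : ℤ), a ≤ b → c ≤ d →
  (VC Adj4 W a b c d ↔ ¬ HC Adj8 Wᶜ a b c d) ∧ (HC Adj4 W a b c d ↔ ¬ VC Adj8 Wᶜ a b c d)

theorem stmt_PL1' (h : Stmt_PL1) : Stmt_PL1' := by
  intro X Y a b c d hX hY
  rw [VC_iff_swp (A := Adj8) (fun _ _ h => adj8_swp h)] at hX
  rw [HC_iff_swp (A := Adj4) (fun _ _ h => adj4_swp h)] at hY
  obtain ⟨z, hz, h1, h2⟩ := h _ _ c d a b hX hY
  exact ⟨swp z, ⟨hz.2.2.1, hz.2.2.2, hz.1, hz.2.1⟩, h1, h2⟩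

theorem stmt_DUAL (h1 : Stmt_PL1) (h2 : Stmt_PL2) : Stmt_DUAL := by
  have key : ∀ (W : Set Site) (a b c d : ℤ), a ≤ b → c ≤ d →
      (VC Adj4 W a b c d ↔ ¬ HC Adj8 Wᶜ a b c d) := by
    intro W a b c d hab hcd
    constructor
    · intro hv hh
      obtain ⟨z, -, hz1, hz2⟩ := h1 _ _ a b c d hh hv
      exact hz1 hz2
    · intro hno
      set u : Set Site := {z | ∃ y : ℤ, Linked Adj8 (Wᶜ ∩ Box a b c d) (a, y) z} with hu
      have hub : u ⊆ Box a b c d := by
        rintro z ⟨y, hy⟩; exact hy.right.2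
      have hur : ∀ z ∈ u, z.1 < b := by
        rintro z ⟨y, hy⟩
        by_contra hlt
        push Not at hlt
        have hzb : z.1 = b := le_antisymm hy.right.2.2.1 hlt
        apply hno
        refine ⟨y, z.2, ?_⟩
        have : ((b, z.2) : Site) = z := by rw [← hzb]
        rw [this]; exact hy
      refine (h2 u a b c d hab hcd hub hur).mono ?_
      rintro z ⟨hz, hzu, hz'⟩
      by_contra hzW
      apply hzu
      rcases hz' with h | ⟨w, ⟨y, hy⟩, hw⟩
      · refine ⟨z.2, ?_⟩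
        have : ((a, z.2) : Site) = z := by rw [← h]
        rw [this]
        exact Linked.refl ⟨hzW, hz⟩
      · exact ⟨y, hy.step hw.symm ⟨hzW, hz⟩⟩
  intro W a b c d hab hcd
  refine ⟨key W a b c d hab hcd, ?_⟩
  rw [HC_iff_swp (A := Adj4) (fun _ _ h => adj4_swp h), VC_iff_swp (A := Adj8) (fun _ _ h => adj8_swp h)]
  exact key _ c d a b hcd hab

end MPdd5692
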