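import Pool.Agent.Work.MP_dd5692_pr.Iface98

/-!
# MP_dd5692_pr: basic facts about paths, boxes, crossings (all proved)
-/

set_option autoImplicit false

namespace MPdd5692

open MeasureTheory

/-! ### definitions -/

/-- the `A`-cluster of `u` in `W` -/
def cl (A : Site → Site → Prop) (W : Set Site) (u : Site) : Set Site := {v | Linked A W u v}

/-- the closed box `[a,b] × [c,d]` -/
def Box (a b c d : ℤ) : Set Site := {z | a ≤ z.1 ∧ z.1 ≤ b ∧ c ≤ z.2 ∧ z.2 ≤ d}

/-- the box as a finite set -/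
noncomputable def boxF (a b c d : ℤ) : Finset Site := Finset.Icc a b ×ˢ Finset.Icc c d

/-- the box of half side `a` around `z` -/
def Bx (z : Site) (a : ℤ) : Set Site := Box (z.1 - a) (z.1 + a) (z.2 - a) (z.2 + a)

/-- crossing from the left column to the right column of the box -/
def HC (A : Site → Site → Prop) (W : Set Site) (a b c d : ℤ) : Prop :=
  ∃ y y' : ℤ, Linked A (W ∩ Box a b c d) (a, y) (b, y')

/-- crossing from the bottom row to the top row of the box -/
def VC (A : Site → Site → Prop) (W : Set Site) (a b c d : ℤ) : Prop :=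
  ∃ x x' : ℤ, Linked A (W ∩ Box a b c d) (x, c) (x', d)

/-! ### adjacency -/

theorem Adj4.symm {z w : Site} (h : Adj4 z w) : Adj4 w z := by
  unfold Adj4 at *
  rw [abs_sub_comm w.1, abs_sub_comm w.2]; exact h

theorem Adj8.symm {z w : Site} (h : Adj8 z w) : Adj8 w z := by
  unfold Adj8 at *
  rw [abs_sub_comm w.1, abs_sub_comm w.2]; exact h

theorem adj8_iff {z w : Site} : Adj8 z w ↔ z ≠ w ∧ |z.1 - w.1| ≤ 1 ∧ |z.2 - w.2| ≤ 1 := by
  unfold Adj8
  constructor
  · intro h
    refine ⟨?_, ?_, ?_⟩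
    · rintro rfl; simp at h
    · rw [← h]; exact le_max_left _ _
    · rw [← h]; exact le_max_right _ _
  · rintro ⟨h, h1, h2⟩
    apply le_antisymm (max_le h1 h2)
    by_contra hlt
    push Not at hlt
    have h3 := lt_of_le_of_lt (le_max_left _ _) hlt
    have h4 := lt_of_le_of_lt (le_max_right _ _) hlt
    apply h
    have h5 : z.1 - w.1 = 0 := by rw [← abs_nonpos_iff]; omega
    have h6 : z.2 - w.2 = 0 := by rw [← abs_nonpos_iff]; omega
    exact Prod.ext (by omega) (by omega)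

theorem Adj4.adj8 {z w : Site} (h : Adj4 z w) : Adj8 z w := by
  unfold Adj4 at h
  rw [adj8_iff]
  refine ⟨?_, ?_, ?_⟩
  · rintro rfl; simp at h
  · have := abs_nonneg (z.2 - w.2); omega
  · have := abs_nonneg (z.1 - w.1); omega

theorem Adj8.fst {z w : Site} (h : Adj8 z w) : |z.1 - w.1| ≤ 1 := (adj8_iff.1 h).2.1
theorem Adj8.snd {z w : Site} (h : Adj8 z w) : |z.2 - w.2| ≤ 1 := (adj8_iff.1 h).2.2

/-- the two adjacencies used: symmetric, steps of size at most one -/
structure Small (A : Site → Site → Prop) : Prop where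
  symm : ∀ z w, A z w → A w z
  adj8 : ∀ z w, A z w → Adj8 z w

theorem small4 : Small Adj4 := ⟨fun _ _ h => h.symm, fun _ _ h => h.adj8⟩
theorem small8 : Small Adj8 := ⟨fun _ _ h => h.symm, fun _ _ h => h⟩

/-- the four nearest neighbours, spelled out -/
theorem adj4_iff {z w : Site} : Adj4 z w ↔
    (z.1 = w.1 ∧ (w.2 = z.2 + 1 ∨ w.2 = z.2 - 1)) ∨ (z.2 = w.2 ∧ (w.1 = z.1 + 1 ∨ w.1 = z.1 - 1)) := by
  unfold Adj4
  constructor
  · intro h
    rcases abs_cases (z.1 - w.1) with ⟨h1, h1'⟩ | ⟨h1, h1'⟩ <;>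
    rcases abs_cases (z.2 - w.2) with ⟨h2, h2'⟩ | ⟨h2, h2'⟩ <;> omega
  · rintro (⟨h, h' | h'⟩ | ⟨h, h' | h'⟩)
    · rw [h, h']; simp
    · rw [h, h']; simp
    · rw [h, h']; simp
    · rw [h, h']; simp

/-! ### boxes -/

theorem mem_Box {a b c d : ℤ} {z : Site} :
    z ∈ Box a b c d ↔ a ≤ z.1 ∧ z.1 ≤ b ∧ c ≤ z.2 ∧ z.2 ≤ d := Iff.rfl

theorem mem_boxF {a b c d : ℤ} {z : Site} : z ∈ boxF a b c d ↔ z ∈ Box a b c d := by
  unfold boxF Box
  simp only [Finset.mem_product, Finset.mem_Icc, Set.mem_ofPred_eq]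
  tauto

theorem coe_boxF (a b c d : ℤ) : (boxF a b c d : Set Site) = Box a b c d := by
  ext z; exact mem_boxF

theorem Box_mono {a b c d a' b' c' d' : ℤ} (h1 : a' ≤ a) (h2 : b ≤ b') (h3 : c' ≤ c) (h4 : d ≤ d') :
    Box a b c d ⊆ Box a' b' c' d' := by
  intro z hz
  rw [mem_Box] at *
  omega

/-! ### linked sites -/

section Linked

variable {A : Site → Site → Prop} {W W' : Set Site} {u v w : Site}

theorem Linked.left (h : Linked A W u v) : u ∈ W := h.1

theorem Linked.right (h : Linked A W u v) : v ∈ W := by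
  obtain ⟨hu, h⟩ := h
  rcases h.cases_tail with rfl | ⟨c, -, hc⟩
  · exact hu
  · exact hc.2

theorem Linked.refl (h : u ∈ W) : Linked A W u u := ⟨h, Relation.ReflTransGen.refl⟩

theorem Linked.trans (h : Linked A W u v) (h' : Linked A W v w) : Linked A W u w := ⟨h.1, h.2.trans h'.2⟩

theorem Linked.step (h : Linked A W u v) (ha : A v w) (hw : w ∈ W) : Linked A W u w :=
  ⟨h.1, h.2.tail ⟨ha, hw⟩⟩

theorem Linked.single (hu : u ∈ W) (hv : v ∈ W) (ha : A u v) : Linked A W u v :=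
  (Linked.refl hu).step ha hv

theorem Linked.mono (hW : W ⊆ W') (h : Linked A W u v) : Linked A W' u v :=
  ⟨hW h.1, Relation.ReflTransGen.mono (fun _ _ hxy => ⟨hxy.1, hW hxy.2⟩) _ _ h.2⟩

/-- induction along the path from its first end -/
theorem Linked.ind {P : Site → Prop} (h : Linked A W u v) (h0 : P u)
    (hs : ∀ x y, Linked A W u x → P x → A x y → y ∈ W → P y) : P v := by
  obtain ⟨hu, h⟩ := h
  induction h with
  | refl => exact h0
  | tail h1 h2 ih => exact hs _ _ ⟨hu, h1⟩ ih h2.1 h2.2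

theorem Linked.symm (hA : ∀ z w, A z w → A w z) (h : Linked A W u v) : Linked A W v u := by
  refine h.ind (P := fun x => Linked A W x u) (Linked.refl h.1) ?_
  intro x y hx ih hxy hy
  exact (Linked.single hy hx.right (hA _ _ hxy)).trans ih

theorem Linked.symm4 (h : Linked Adj4 W u v) : Linked Adj4 W v u := h.symm (fun _ _ => Adj4.symm)
theorem Linked.symm8 (h : Linked Adj8 W u v) : Linked Adj8 W v u := h.symm (fun _ _ => Adj8.symm)

/-- change of the adjacency relation -/
theorem Linked.monoA {A' : Site → Site → Prop} (hA : ∀ z w, A z w → A' z w) (h : Linked A W u v) :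
    Linked A' W u v :=
  ⟨h.1, Relation.ReflTransGen.mono (fun _ _ hxy => ⟨hA _ _ hxy.1, hxy.2⟩) _ _ h.2⟩

theorem Linked.to8 (h : Linked Adj4 W u v) : Linked Adj8 W u v := h.monoA (fun _ _ => Adj4.adj8)

/-- the path stays in the cluster -/
theorem Linked.in_cl (h : Linked A W u v) : Linked A (cl A W u) u v := by
  refine h.ind (P := fun x => Linked A (cl A W u) u x) (Linked.refl (Linked.refl h.1)) ?_
  intro x y hx ih hxy hy
  exact ih.step hxy (hx.step hxy hy)

theorem cl_subset : cl A W u ⊆ W := fun _ h => Linked.right h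

theorem mem_cl : v ∈ cl A W u ↔ Linked A W u v := Iff.rfl

/-- a linked set containing `u` and not contained in `C` (`u ∈ C`) leaves `C`: there is a step from
a site `x ∈ C` linked to `u` inside `C` to a site `y ∉ C` -/
theorem Linked.exit {C : Set Site} (h : Linked A W u v) (hu : u ∈ C) (hv : v ∉ C) :
    ∃ x y, Linked A (W ∩ C) u x ∧ A x y ∧ y ∈ W ∧ y ∉ C ∧ Linked A W u y := by
  by_contra hcon
  push Not at hcon
  have : Linked A (W ∩ C) u v := by
    refine h.ind (P := fun x => Linked A (W ∩ C) u x) (Linked.refl ⟨h.1, hu⟩) ?_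
    intro x y hx ih hxy hy
    by_cases hyC : y ∈ C
    · exact ih.step hxy ⟨hy, hyC⟩
    · exact absurd (hx.step hxy hy) (hcon x y ih hxy hy hyC)
  exact hv this.right.2

/-- either the path stays in `C` or it has a first exit -/
theorem Linked.stay_or_exit {C : Set Site} (h : Linked A W u v) (hu : u ∈ C) :
    Linked A (W ∩ C) u v ∨ ∃ x y, Linked A (W ∩ C) u x ∧ A x y ∧ y ∈ W ∧ y ∉ C ∧ Linked A W u y := by
  by_cases hc : ∃ x y, Linked A (W ∩ C) u x ∧ A x y ∧ y ∈ W ∧ y ∉ C ∧ Linked A W u y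
  · exact Or.inr hc
  · left
    push Not at hc
    refine h.ind (P := fun x => Linked A (W ∩ C) u x) (Linked.refl ⟨h.1, hu⟩) ?_
    intro x y hx ih hxy hy
    by_cases hyC : y ∈ C
    · exact ih.step hxy ⟨hy, hyC⟩
    · exact absurd (hx.step hxy hy) (hc x y ih hxy hy hyC)

/-- image of a path under a map respecting the adjacency -/
theorem Linked.map {A' : Site → Site → Prop} (g : Site → Site) (hA : ∀ z w, A z w → A' (g z) (g w))
    (hW : ∀ z ∈ W, g z ∈ W') (h : Linked A W u v) : Linked A' W' (g u) (g v) := by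
  refine h.ind (P := fun x => Linked A' W' (g u) (g x)) (Linked.refl (hW _ h.1)) ?_
  intro x y hx ih hxy hy
  exact ih.step (hA _ _ hxy) (hW _ hy)

end Linked

/-! ### crossings -/

theorem HC.mono {A : Site → Site → Prop} {W W' : Set Site} {a b c d : ℤ} (hW : W ⊆ W')
    (h : HC A W a b c d) : HC A W' a b c d := by
  obtain ⟨y, y', h⟩ := h
  exact ⟨y, y', h.mono (Set.inter_subset_inter_left _ hW)⟩

theorem VC.mono {A : Site → Site → Prop} {W W' : Set Site} {a b c d : ℤ} (hW : W ⊆ W')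
    (h : VC A W a b c d) : VC A W' a b c d := by
  obtain ⟨y, y', h⟩ := h
  exact ⟨y, y', h.mono (Set.inter_subset_inter_left _ hW)⟩

theorem HC.to8 {W : Set Site} {a b c d : ℤ} (h : HC Adj4 W a b c d) : HC Adj8 W a b c d := by
  obtain ⟨y, y', h⟩ := h
  exact ⟨y, y', h.to8⟩

theorem VC.to8 {W : Set Site} {a b c d : ℤ} (h : VC Adj4 W a b c d) : VC Adj8 W a b c d := by
  obtain ⟨y, y', h⟩ := h
  exact ⟨y, y', h.to8⟩

theorem HC.tall {A : Site → Site → Prop} {W : Set Site} {a b c d c' d' : ℤ} (h1 : c' ≤ c)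
    (h2 : d ≤ d') (h : HC A W a b c d) : HC A W a b c' d' := by
  obtain ⟨y, y', h⟩ := h
  exact ⟨y, y', h.mono (Set.inter_subset_inter_right _ (Box_mono le_rfl le_rfl h1 h2))⟩

theorem VC.wide {A : Site → Site → Prop} {W : Set Site} {a b c d a' b' : ℤ} (h1 : a' ≤ a)
    (h2 : b ≤ b') (h : VC A W a b c d) : VC A W a' b' c d := by
  obtain ⟨y, y', h⟩ := h
  exact ⟨y, y', h.mono (Set.inter_subset_inter_right _ (Box_mono h1 h2 le_rfl le_rfl))⟩

/-- SUB, vertical: a path in a vertical strip from below row `c` to above row `d` contains a crossing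
of the box between the two rows -/
theorem subV {A : Site → Site → Prop} (hA : ∀ z w, A z w → Adj8 z w) {X : Set Site} {u v : Site}
    {a b c d : ℤ} (h : Linked A X u v) (hX : ∀ z ∈ X, a ≤ z.1 ∧ z.1 ≤ b) (hu : u.2 ≤ c) (hcd : c ≤ d)
    (hv : d ≤ v.2) : VC A X a b c d := by
  by_contra hno
  have key : v.2 ≤ d ∧ (c ≤ v.2 → ∃ x : ℤ, Linked A (X ∩ Box a b c d) (x, c) v) := by
    refine h.ind (P := fun z => z.2 ≤ d ∧ (c ≤ z.2 → ∃ x : ℤ, Linked A (X ∩ Box a b c d) (x, c) z))
      ?_ ?_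
    · refine ⟨hu.trans hcd, fun hc => ?_⟩
      have h2 : u.2 = c := le_antisymm hu hc
      refine ⟨u.1, ?_⟩
      have : ((u.1, c) : Site) = u := by rw [← h2]
      rw [this]
      exact Linked.refl ⟨h.1, (hX _ h.1).1, (hX _ h.1).2, h2.ge, by omega⟩
    · rintro x y hx ⟨ih1, ih2⟩ hxy hy
      have h8 := hA _ _ hxy
      have hs := abs_le.1 h8.snd
      have hxX := hX _ hx.right
      have hyX := hX _ hy
      by_cases hxd : x.2 = d
      · exfalso
        obtain ⟨t, ht⟩ := ih2 (by omega)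
        exact hno ⟨t, x.1, by
          have : ((x.1, d) : Site) = x := by rw [← hxd]
          rw [this]; exact ht⟩
      · refine ⟨by omega, fun hcy => ?_⟩
        by_cases hcx : c ≤ x.2
        · obtain ⟨t, ht⟩ := ih2 hcx
          exact ⟨t, ht.step hxy ⟨hy, hyX.1, hyX.2, hcy, by omega⟩⟩
        · have h2 : y.2 = c := by omega
          refine ⟨y.1, ?_⟩
          have : ((y.1, c) : Site) = y := by rw [← h2]
          rw [this]
          exact Linked.refl ⟨hy, hyX.1, hyX.2, hcy, by omega⟩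
  have h2 : v.2 = d := le_antisymm key.1 hv
  obtain ⟨t, ht⟩ := key.2 (by omega)
  exact hno ⟨t, v.1, by
    have : ((v.1, d) : Site) = v := by rw [← h2]
    rw [this]; exact ht⟩

/-- exchange of the coordinates -/
def swp (z : Site) : Site := (z.2, z.1)

theorem swp_swp (z : Site) : swp (swp z) = z := rfl

theorem adj4_swp {z w : Site} (h : Adj4 z w) : Adj4 (swp z) (swp w) := by
  unfold Adj4 swp at *; simp only; omega

theorem adj8_swp {z w : Site} (h : Adj8 z w) : Adj8 (swp z) (swp w) := by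
  rw [adj8_iff] at *
  refine ⟨?_, h.2.2, h.2.1⟩
  intro he
  apply h.1
  have := congrArg swp he
  simpa [swp_swp] using this

/-- HC and VC are exchanged by `swp` -/
theorem HC_iff_swp {A : Site → Site → Prop} (hA : ∀ z w, A z w → A (swp z) (swp w)) {W : Set Site}
    {a b c d : ℤ} : HC A W a b c d ↔ VC A (swp ⁻¹' W) c d a b := by
  constructor
  · rintro ⟨y, y', h⟩
    refine ⟨y, y', ?_⟩
    have := h.map (W' := swp ⁻¹' W ∩ Box c d a b) swp hA ?_
    · exact this
    · rintro z ⟨hz, h1, h2, h3, h4⟩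
      exact ⟨hz, h3, h4, h1, h2⟩
  · rintro ⟨y, y', h⟩
    refine ⟨y, y', ?_⟩
    have := h.map (W' := W ∩ Box a b c d) swp hA ?_
    · exact this
    · rintro z ⟨hz, h1, h2, h3, h4⟩
      exact ⟨hz, h3, h4, h1, h2⟩

theorem VC_iff_swp {A : Site → Site → Prop} (hA : ∀ z w, A z w → A (swp z) (swp w)) {W : Set Site}
    {a b c d : ℤ} : VC A W a b c d ↔ HC A (swp ⁻¹' W) c d a b := by
  rw [HC_iff_swp hA]
  rfl

/-- SUB, horizontal -/
theorem subH {A : Site → Site → Prop} (hA : ∀ z w, A z w → Adj8 z w)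
    (hA' : ∀ z w, A z w → A (swp z) (swp w)) {X : Set Site} {u v : Site}
    {a b c d : ℤ} (h : Linked A X u v) (hX : ∀ z ∈ X, c ≤ z.2 ∧ z.2 ≤ d) (hu : u.1 ≤ a) (hab : a ≤ b)
    (hv : b ≤ v.1) : HC A X a b c d := by
  rw [HC_iff_swp hA']
  have := h.map (W' := swp ⁻¹' X) swp hA' (fun z hz => hz)
  exact subV hA this (fun z hz => hX _ hz) hu hab hv

theorem HC.shrink {A : Site → Site → Prop} (hA : ∀ z w, A z w → Adj8 z w)
    (hA' : ∀ z w, A z w → A (swp z) (swp w)) {W : Set Site} {a b c d a' b' : ℤ} (h1 : a ≤ a')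
    (h12 : a' ≤ b') (h2 : b' ≤ b) (h : HC A W a b c d) : HC A W a' b' c d := by
  obtain ⟨y, y', h⟩ := h
  exact (subH hA hA' h (fun z hz => ⟨hz.2.2.2.1, hz.2.2.2.2⟩) h1 h12 h2).mono
    Set.inter_subset_left

theorem VC.shrink {A : Site → Site → Prop} (hA : ∀ z w, A z w → Adj8 z w)
    {W : Set Site} {a b c d c' d' : ℤ} (h1 : c ≤ c')
    (h12 : c' ≤ d') (h2 : d' ≤ d) (h : VC A W a b c d) : VC A W a b c' d' := by
  obtain ⟨y, y', h⟩ := h
  exact (subV hA h (fun z hz => ⟨hz.2.1, hz.2.2.1⟩) h1 h12 h2).mono Set.inter_subset_left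

/-- horizontal segment -/
theorem lnk_hseg {X : Set Site} {x x' y : ℤ} (hx : x ≤ x') (h : ∀ t, x ≤ t → t ≤ x' → ((t, y) : Site) ∈ X) :
    Linked Adj4 X (x, y) (x', y) := by
  obtain ⟨n, rfl⟩ : ∃ n : ℕ, x' = x + n := ⟨(x' - x).toNat, by omega⟩
  clear hx
  induction n with
  | zero => simpa using Linked.refl (A := Adj4) (h x le_rfl (by simp))
  | succ n ih =>
    refine (ih (fun t h1 h2 => h t h1 (by push_cast; omega))).step ?_ (h _ (by push_cast; omega) le_rfl)
    rw [adj4_iff]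
    right
    refine ⟨rfl, Or.inl ?_⟩
    push_cast; ring

/-- vertical segment -/
theorem lnk_vseg {X : Set Site} {x y y' : ℤ} (hy : y ≤ y') (h : ∀ t, y ≤ t → t ≤ y' → ((x, t) : Site) ∈ X) :
    Linked Adj4 X (x, y) (x, y') := by
  obtain ⟨n, rfl⟩ : ∃ n : ℕ, y' = y + n := ⟨(y' - y).toNat, by omega⟩
  clear hy
  induction n with
  | zero => simpa using Linked.refl (A := Adj4) (h y le_rfl (by simp))
  | succ n ih =>
    refine (ih (fun t h1 h2 => h t h1 (by push_cast; omega))).step ?_ (h _ (by push_cast; omega) le_rfl)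
    rw [adj4_iff]
    left
    refine ⟨rfl, Or.inl ?_⟩
    push_cast; ring

end MPdd5692
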