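import Mathlib
import Pool.Agent.Work.MP_dd5692_pr.Basic80

/-!
# Link98 : basic facts on `Linked` (helper98)
-/

open Set

namespace MPdd5692

variable {adj : Site → Site → Prop} {S S' : Set Site} {x y z : Site}

lemma Adj8.abs_fst {z w : Site} (h : Adj8 z w) : |z.1 - w.1| ≤ 1 := by
  unfold Adj8 at h; rw [← h]; exact le_max_left _ _

lemma Adj8.abs_snd {z w : Site} (h : Adj8 z w) : |z.2 - w.2| ≤ 1 := by
  unfold Adj8 at h; rw [← h]; exact le_max_right _ _

lemma Linked.left_mem (h : Linked adj S x y) : x ∈ S := h.1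

lemma Linked.right_mem (h : Linked adj S x y) : y ∈ S := by
  obtain ⟨hx, h⟩ := h
  induction h with
  | refl => exact hx
  | tail _ h _ => exact h.2

lemma Linked.tail (h : Linked adj S x y) (hz : z ∈ S) (hyz : adj y z) : Linked adj S x z :=
  ⟨h.1, h.2.tail ⟨hyz, hz⟩⟩

lemma Linked.mono_adj {adj' : Site → Site → Prop} (ha : ∀ x y, adj x y → adj' x y)
    (h : Linked adj S x y) : Linked adj' S x y :=
  ⟨h.1, Relation.ReflTransGen.mono (fun _ _ h => ⟨ha _ _ h.1, h.2⟩) _ _ h.2⟩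

/-- transport along a map -/
lemma Linked.mapE {f : Site → Site} (hf : ∀ x y, adj x y → adj (f x) (f y))
    (hS : ∀ x ∈ S, f x ∈ S') (h : Linked adj S x y) : Linked adj S' (f x) (f y) := by
  obtain ⟨hx, h⟩ := h
  induction h with
  | refl => exact Linked.refl (hS _ hx)
  | tail hab hbc ih => exact ih.tail (hS _ hbc.2) (hf _ _ hbc.1)

/-- induction principle -/
lemma Linked.rec_on {p : Site → Prop} (h : Linked adj S x y) (hx : p x)
    (hstep : ∀ u v, u ∈ S → v ∈ S → adj u v → p u → p v) : p y := by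
  obtain ⟨hxS, h⟩ := h
  have : y ∈ S ∧ p y := by
    induction h with
    | refl => exact ⟨hxS, hx⟩
    | tail _ hbc ih => exact ⟨hbc.2, hstep _ _ ih.1 hbc.2 hbc.1 ih.2⟩
  exact this.2

/-- The link between two sites whose coordinates differ by at most one. -/
lemma linked_of_near {z w : Site} (hz : z ∈ S) (hw : w ∈ S) (hm : (w.1, z.2) ∈ S)
    (h1 : |z.1 - w.1| ≤ 1) (h2 : |z.2 - w.2| ≤ 1) : Linked Adj4 S z w := by
  have a : Linked Adj4 S z (w.1, z.2) := by
    rcases eq_or_ne z.1 w.1 with h | h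
    · have : (w.1, z.2) = z := by rw [← h]
      rw [this]; exact Linked.refl hz
    · refine Linked.single hz hm ?_
      unfold Adj4
      have : |z.1 - w.1| ≠ 0 := by rw [abs_ne_zero]; exact sub_ne_zero.2 h
      have := abs_nonneg (z.1 - w.1)
      simp only [sub_self, abs_zero, add_zero]
      omega
  have b : Linked Adj4 S (w.1, z.2) w := by
    rcases eq_or_ne z.2 w.2 with h | h
    · have : (w.1, z.2) = w := by rw [h]
      rw [this]; exact Linked.refl hw
    · refine Linked.single hm hw ?_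
      unfold Adj4
      have : |z.2 - w.2| ≠ 0 := by rw [abs_ne_zero]; exact sub_ne_zero.2 h
      have := abs_nonneg (z.2 - w.2)
      simp only [sub_self, abs_zero, zero_add]
      omega
  exact a.trans b

lemma linked_of_chain (n : ℕ) (f : ℕ → Site) (hf : ∀ i ≤ n, f i ∈ S)
    (hm : ∀ i < n, ((f (i + 1)).1, (f i).2) ∈ S)
    (hd : ∀ i < n, |(f i).1 - (f (i + 1)).1| ≤ 1 ∧ |(f i).2 - (f (i + 1)).2| ≤ 1) :
    Linked Adj4 S (f 0) (f n) := by
  induction n with
  | zero => exact Linked.refl (hf 0 le_rfl)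
  | succ n ih =>
    have h1 := ih (fun i hi => hf i (by omega)) (fun i hi => hm i (by omega))
      (fun i hi => hd i (by omega))
    exact h1.trans (linked_of_near (hf n (by omega)) (hf (n + 1) le_rfl) (hm n (by omega))
      (hd n (by omega)).1 (hd n (by omega)).2)

/-- Strip extraction: a path from `{x.1 ≤ a}` to `{x.1 ≥ b}` contains a path from `{x.1 = a}`
to `{x.1 = b}` inside the strip. -/
lemma Linked.strip (hadj : ∀ x y, adj x y → |x.1 - y.1| ≤ 1) {a b : ℤ} (hab : a ≤ b)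
    (h : Linked adj S x y) (hx : x.1 ≤ a) (hy : b ≤ y.1) :
    ∃ x' y' : Site, x'.1 = a ∧ y'.1 = b ∧
      Linked adj (S ∩ {z | a ≤ z.1 ∧ z.1 ≤ b}) x' y' := by
  have key : (∃ x' y' : Site, x'.1 = a ∧ y'.1 = b ∧
      Linked adj (S ∩ {z | a ≤ z.1 ∧ z.1 ≤ b}) x' y') ∨
      (y.1 ≤ b ∧ (a ≤ y.1 → ∃ x' : Site, x'.1 = a ∧
        Linked adj (S ∩ {z | a ≤ z.1 ∧ z.1 ≤ b}) x' y)) := by
    obtain ⟨hxS, h⟩ := h
    have hstrong : y ∈ S ∧ ((∃ x' y' : Site, x'.1 = a ∧ y'.1 = b ∧
      Linked adj (S ∩ {z | a ≤ z.1 ∧ z.1 ≤ b}) x' y') ∨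
      (y.1 ≤ b ∧ (a ≤ y.1 → ∃ x' : Site, x'.1 = a ∧
        Linked adj (S ∩ {z | a ≤ z.1 ∧ z.1 ≤ b}) x' y))) := by
      clear hy
      induction h with
      | refl =>
        refine ⟨hxS, Or.inr ⟨hx.trans hab, fun h => ⟨x, le_antisymm hx h, Linked.refl ⟨hxS, h, hx.trans hab⟩⟩⟩⟩
      | @tail u v _ huv ih =>
        obtain ⟨huS, ih⟩ := ih
        refine ⟨huv.2, ?_⟩
        rcases ih with ih | ⟨hub, ih⟩
        · exact Or.inl ih
        · have hd := hadj _ _ huv.1
          rw [abs_le] at hd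
          rcases lt_or_ge b v.1 with hvb | hvb
          · -- then u.1 = b
            have hu : u.1 = b := by omega
            obtain ⟨x', hx', hl⟩ := ih (by omega)
            exact Or.inl ⟨x', u, hx', hu, hl⟩
          · right
            refine ⟨hvb, fun hav => ?_⟩
            rcases lt_or_ge u.1 a with hua | hua
            · have hva : v.1 = a := by omega
              exact ⟨v, hva, Linked.refl ⟨huv.2, hav, hvb⟩⟩
            · obtain ⟨x', hx', hl⟩ := ih hua
              exact ⟨x', hx', hl.tail ⟨huv.2, hav, hvb⟩ huv.1⟩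
    exact hstrong.2
  rcases key with h' | ⟨hyb, h'⟩
  · exact h'
  · have hyb' : y.1 = b := le_antisymm hyb hy
    obtain ⟨x', hx', hl⟩ := h' (by omega)
    exact ⟨x', y, hx', hyb', hl⟩

end MPdd5692
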