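import Mathlib

/-!
# MP_dd5692_pr, d = 2 : the objects of the final statement (helper98)

Everything the final theorem mentions is defined here; nothing is proved.
-/

open MeasureTheory ProbabilityTheory Set
open scoped ENNReal NNReal

namespace MPdd5692

/-- The Euclidean plane. -/
abbrev Plane := EuclideanSpace ℝ (Fin 2)

/-- Trajectories of nodes: continuous maps `[0,∞) → ℝ²`, with the `σ`-algebra generated by the
evaluations (`MeasurableSpace.pi` restricted to the continuous functions). -/
abbrev Traj := {f : ℝ≥0 → Plane // Continuous f}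

/-- `W` is the law of a standard planar Brownian motion started at the origin: the two coordinates
are independent, and each of them has the finite-dimensional laws of the real Brownian motion
(the paths are continuous by the definition of `Traj`). -/
structure IsWiener (W : Measure Traj) : Prop where
  coord : ∀ i : Fin 2, IsPreBrownianReal (fun (t : ℝ≥0) (w : Traj) => w.1 t i) W
  indep : IndepFun (fun (w : Traj) (t : ℝ≥0) => w.1 t 0) (fun (w : Traj) (t : ℝ≥0) => w.1 t 1) W

/-- The trajectory `w` started at `x`. -/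
def shift (p : Plane × Traj) : Traj := ⟨fun t => p.1 + p.2.1 t, continuous_const.add p.2.2⟩

/-- The intensity measure of the node process of density `l`: `l` times the image of
(Lebesgue measure) ⊗ (Wiener measure) under `(x, w) ↦ x + w`. -/
noncomputable def nodeIntensity (W : Measure Traj) (l : ℝ≥0) : Measure Traj :=
  (l : ℝ≥0∞) • ((volume : Measure Plane).prod W).map shift

/-- The random set `N` is a Poisson process with intensity measure `μ`: for disjoint measurable
sets `A i` of finite measure the numbers of points of `N` in the `A i` are independent Poisson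
variables with means `μ (A i)` (the case of no set says that `P` is a probability measure). -/
structure IsPoissonProcess {E Ω : Type*} [MeasurableSpace E] [MeasurableSpace Ω]
    (P : Measure Ω) (μ : Measure E) (N : Ω → Set E) : Prop where
  meas : ∀ A : Set E, MeasurableSet A → ∀ k : ℕ, MeasurableSet {ω | (N ω ∩ A).encard = k}
  law : ∀ (n : ℕ) (A : Fin n → Set E) (k : Fin n → ℕ),
    (∀ i, MeasurableSet (A i)) → (∀ i, μ (A i) < ∞) → Pairwise (fun i j => Disjoint (A i) (A j)) →
    P {ω | ∀ i, (N ω ∩ A i).encard = k i} = ∏ i, poissonMeasure (μ (A i)).toNNReal {k i}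

/-- The node process of density `l`: a Poisson process of Brownian trajectories. -/
def IsNodeProcess {Ω : Type*} [MeasurableSpace Ω] (W : Measure Traj) (P : Measure Ω) (l : ℝ≥0)
    (N : Ω → Set Traj) : Prop :=
  IsPoissonProcess P (nodeIntensity W l) N

/-- The vacant set at time `t`: points at distance `> r` from all nodes. -/
def vacant (r : ℝ) (S : Set Traj) (t : ℝ≥0) : Set Plane := {y | ∀ ζ ∈ S, r < dist y (ζ.1 t)}

/-- The vacant set (at time `0`) has an unbounded connected component. -/
def Percolates (r : ℝ) (S : Set Traj) : Prop :=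
  ∃ y ∈ vacant r S 0, ¬ Bornology.IsBounded (connectedComponentIn (vacant r S 0) y)

/-- The trajectory `h` is undetected up to time `t`. -/
def Undetected (r : ℝ) (S : Set Traj) (h : ℝ≥0 → Plane) (t : ℝ≥0) : Prop :=
  ∀ s ≤ t, ∀ ζ ∈ S, r < dist (h s) (ζ.1 s)

/-- The event that some continuous trajectory started at the origin is undetected up to time `t`. -/
def Escapes (r : ℝ) (S : Set Traj) (t : ℝ≥0) : Prop :=
  ∃ h : ℝ≥0 → Plane, Continuous h ∧ h 0 = 0 ∧ Undetected r S h t

section thresholds

variable {Ω : ℝ≥0 → Type*} [∀ l, MeasurableSpace (Ω l)]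

/-- `ρ_t(l)`. -/
noncomputable def rhoT (r : ℝ) (P : ∀ l, Measure (Ω l)) (N : ∀ l, Ω l → Set Traj) (l t : ℝ≥0) :
    ℝ≥0∞ := P l {ω | Escapes r (N l ω) t}

/-- `ρ(l) = lim ρ_t(l) = inf ρ_t(l)`. -/
noncomputable def rho (r : ℝ) (P : ∀ l, Measure (Ω l)) (N : ∀ l, Ω l → Set Traj) (l : ℝ≥0) :
    ℝ≥0∞ := ⨅ t : ℝ≥0, rhoT r P N l t

/-- `λ_det = inf {λ > 0 : ρ(λ) = 0}` (in `[0,∞]`). -/
noncomputable def lamDet (r : ℝ) (P : ∀ l, Measure (Ω l)) (N : ∀ l, Ω l → Set Traj) : ℝ≥0∞ :=
  sInf ((↑) '' {l : ℝ≥0 | 0 < l ∧ rho r P N l = 0})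

/-- `λ_crit`: the infimum of the intensities at which the vacant set has almost surely no
unbounded connected component. -/
noncomputable def lamCrit (r : ℝ) (P : ∀ l, Measure (Ω l)) (N : ∀ l, Ω l → Set Traj) : ℝ≥0∞ :=
  sInf ((↑) '' {l : ℝ≥0 | 0 < l ∧ P l {ω | Percolates r (N l ω)} = 0})

end thresholds

/-- The final statement (d = 2). -/
def Statement : Prop :=
  ∀ (r : ℝ), 0 < r → ∀ (W : Measure Traj), IsWiener W →
  ∀ (Ω : ℝ≥0 → Type) (_ : ∀ l, MeasurableSpace (Ω l)) (P : ∀ l, Measure (Ω l))
    (N : ∀ l, Ω l → Set Traj), (∀ l, 0 < l → IsNodeProcess W (P l) l (N l)) →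
    lamCrit r P N < lamDet r P N

end MPdd5692
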