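import Mathlib
import Pool.Agent.Work.MP_dd5692_pr.Defs98

/-!
# MP_dd5692_pr, d = 2 : the discrete interface (helper98)

`EV`, `EO` : easy crossings of both colours at `λ_crit` (output of the wrapper, input of part (A)).
`Core`     : what parts (A)-(E) have to prove (input of the wrapper).
The wrapper proves `Core → Statement`.
-/

open MeasureTheory ProbabilityTheory Set
open scoped ENNReal NNReal

namespace MPdd5692

/-- Sites of the mesh, and indices of its cells (the site `z` stands for the point `κ z`,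
the cell `v` for the square `κ (v + [-1/2,1/2)²)` around it, `κ = 2⁻ʲ`). -/
abbrev Site := ℤ × ℤ

/-- Distance (in mesh units) from `0` to the closed interval `[a - 1/2, a + 1/2]`. -/
noncomputable def offd (a : ℤ) : ℝ := max (|(a : ℝ)| - 1 / 2) 0

/-- Offsets of the cells whose closure meets the closed disc of radius `ρ` (mesh units) around
the site `0`. Invariant under the symmetries of the square. -/
def offs (ρ : ℝ) : Set Site := {v | offd v.1 ^ 2 + offd v.2 ^ 2 ≤ ρ ^ 2}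

/-- The mesh `κ = 2⁻ʲ`. -/
noncomputable def mesh (j : ℕ) : ℝ := (1 / 2) ^ j

/-- The range in mesh units: `κ ρ = r + 3 κ`. -/
noncomputable def range (r : ℝ) (j : ℕ) : ℝ := r / mesh j + 3

/-- Vacant sites, given the set `occ` of the cells that contain particles. -/
def vacSites (ρ : ℝ) (occ : Set Site) : Set Site := {z | ∀ v ∈ occ, v - z ∉ offs ρ}

def Adj4 (z w : Site) : Prop := |z.1 - w.1| + |z.2 - w.2| = 1
def Adj8 (z w : Site) : Prop := max |z.1 - w.1| |z.2 - w.2| = 1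

/-- `x` and `y` are joined by an `adj`-path in `S`. -/
def Linked (adj : Site → Site → Prop) (S : Set Site) (x y : Site) : Prop :=
  x ∈ S ∧ Relation.ReflTransGen (fun u v => adj u v ∧ v ∈ S) x y

/-- Left-right crossing of `[0,a] × [0,b]` in `S`. -/
def CrossLR (adj : Site → Site → Prop) (S : Set Site) (a b : ℤ) : Prop :=
  ∃ x y : Site, x.1 = 0 ∧ y.1 = a ∧
    Linked adj (S ∩ {z | 0 ≤ z.1 ∧ z.1 ≤ a ∧ 0 ≤ z.2 ∧ z.2 ≤ b}) x y

/-- Law of the numbers of particles in the cells at a fixed time. -/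
noncomputable def stat (l : ℝ≥0) (j : ℕ) : Measure (Site → ℕ) :=
  Measure.infinitePi (fun _ : Site => poissonMeasure (l * (1 / 4) ^ j))

def occ (η : Site → ℕ) : Set Site := {v | η v ≠ 0}

/-- Probability of an easy crossing (distance `n` in width `3n`), vacant colour. -/
noncomputable def easyV (r : ℝ) (l : ℝ≥0) (j n : ℕ) : ℝ≥0∞ :=
  stat l j {η | CrossLR Adj4 (vacSites (range r j) (occ η)) (n * 2 ^ j) (3 * n * 2 ^ j)}

/-- The same for the occupied colour. -/
noncomputable def easyO (r : ℝ) (l : ℝ≥0) (j n : ℕ) : ℝ≥0∞ :=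
  stat l j {η | CrossLR Adj8 (vacSites (range r j) (occ η))ᶜ (n * 2 ^ j) (3 * n * 2 ^ j)}

/-- Output of the wrapper at `l = λ_crit`, vacant colour. -/
def EV (r : ℝ) (l : ℝ≥0) : Prop :=
  ∃ n₁ : ℕ, ∀ n ≥ n₁, ∃ j₀ : ℕ, ∀ j ≥ j₀, ENNReal.ofReal (1 / 1024) ≤ easyV r l j n

/-- Output of the wrapper at `l = λ_crit`, occupied colour. -/
def EO (r : ℝ) (l : ℝ≥0) : Prop :=
  ∃ n₁ : ℕ, ∀ n ≥ n₁, ∀ j : ℕ, ENNReal.ofReal (1 / 512) ≤ easyO r l j n

/-! ### the moving particles -/

/-- Mark of a particle for the times `0, T, ..., K T`: the cells visited at these times, and the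
integers `b k = ⌈ sup |bridge| on [kT, (k+1)T] ⌉`. -/
abbrev Mark (K : ℕ) := (Fin (K + 1) → Site) × (Fin K → ℕ)

/-- The cell `v` of mesh `2⁻ʲ`. -/
def cell (j : ℕ) (v : Site) : Set Plane :=
  {x | (v.1 - 1 / 2 : ℝ) * mesh j ≤ x 0 ∧ x 0 < (v.1 + 1 / 2 : ℝ) * mesh j ∧
       (v.2 - 1 / 2 : ℝ) * mesh j ≤ x 1 ∧ x 1 < (v.2 + 1 / 2 : ℝ) * mesh j}

/-- The heat kernel of the plane. -/
noncomputable def heat (T : ℝ) (x : Plane) : ℝ := (2 * Real.pi * T)⁻¹ * Real.exp (-‖x‖ ^ 2 / (2 * T))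

/-- Intensity (for density one) of the particles with mark `m`; `β` is the law of the `b k`. -/
noncomputable def markMass (T : ℝ) (β : Measure ℕ) (j K : ℕ) (m : Mark K) : ℝ≥0∞ :=
  (∫⁻ x in {x : Fin (K + 1) → Plane | ∀ k, x k ∈ cell j (m.1 k)},
      ∏ k : Fin K, ENNReal.ofReal (heat T (x k.succ - x k.castSucc))) * ∏ k : Fin K, β {m.2 k}

/-- Law of the numbers of particles with the different marks, at density `l`. -/
noncomputable def markLaw (l : ℝ≥0) (T : ℝ) (β : Measure ℕ) (j K : ℕ) : Measure (Mark K → ℕ) :=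
  Measure.infinitePi (fun m : Mark K => poissonMeasure (l * (markMass T β j K m).toNNReal))

/-- Cells occupied at time `k T`. -/
def occAt {K : ℕ} (F : Mark K → ℕ) (k : Fin (K + 1)) : Set Site := {v | ∃ m, F m ≠ 0 ∧ m.1 k = v}

/-- Euclidean norm of a site in mesh units. -/
noncomputable def siteNorm (z : Site) : ℝ := Real.sqrt ((z.1 : ℝ) ^ 2 + (z.2 : ℝ) ^ 2)

/-- Sup norm of a site in mesh units. -/
noncomputable def supN (z : Site) : ℝ := max |(z.1 : ℝ)| |(z.2 : ℝ)|

/-- The site `z` is safe during the `k`-th time step: no particle can come within distance `r`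
of it during `[kT, (k+1)T]`. -/
def Safe (r : ℝ) (j : ℕ) {K : ℕ} (F : Mark K → ℕ) (k : Fin K) (z : Site) : Prop :=
  ∀ m, F m ≠ 0 → mesh j * supN (m.1 k.castSucc - m.1 k.succ) + m.2 k + r + 5 * mesh j
    < mesh j * supN (m.1 k.castSucc - z)

/-- The target can survive until time `K T`: it starts at the site `0`, at time `k T` it moves along
vacant sites from `z k` to `z (k+1)`, and stays there during `[kT, (k+1)T]`. -/
def Survives (r : ℝ) (j : ℕ) {K : ℕ} (F : Mark K → ℕ) : Prop :=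
  ∃ z : Fin (K + 1) → Site, z 0 = 0 ∧ ∀ k : Fin K,
    Linked Adj4 (vacSites (range r j) (occAt F k.castSucc)) (z k.castSucc) (z k.succ) ∧
    Safe r j F k (z k.succ)

/-- What parts (A)-(E) have to prove. -/
def Core : Prop :=
  ∀ (r : ℝ) (l : ℝ≥0) (β : ℝ → Measure ℕ), 0 < r → 0 < l →
    (∀ T, 0 < T → IsProbabilityMeasure (β T)) →
    (∀ T, 0 < T → ∀ B : ℕ, 1 ≤ B →
      β T {b | B ≤ b} ≤ ENNReal.ofReal (8 * Real.exp (-((B : ℝ) - 1) ^ 2 / (16 * T)))) →
    EV r l → EO r l →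
    ∃ (T : ℝ) (j : ℕ) (l' : ℝ≥0), 0 < T ∧ l < l' ∧
      ∀ x : ℝ≥0, 0 < x → x ≤ l' → ∃ δ : ℝ≥0∞, 0 < δ ∧
        ∀ K : ℕ, δ ≤ markLaw x T (β T) j K {F | Survives r j F}

end MPdd5692
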