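import Mathlib
import Pool.Agent.Work.MP_dd5692_pr.Iface98

/-!
# Stat98 : product Poisson measures: coupling, Lipschitz continuity, monotonicity, finite
dependence, independence, reindexing (helper98).  W5 of WRAPPER98.md.
-/

open MeasureTheory ProbabilityTheory Set
open scoped ENNReal NNReal

namespace MPdd5692

section poisson

variable {ι : Type*}

/-- product of Poisson laws -/
noncomputable def prodPoisson (a : ι → ℝ≥0) : Measure (ι → ℕ) :=
  Measure.infinitePi (fun i => poissonMeasure (a i))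

instance (a : ι → ℝ≥0) : IsProbabilityMeasure (prodPoisson a) := by
  unfold prodPoisson; infer_instance

lemma poisson_prod_map_add (a b : ℝ≥0) :
    ((poissonMeasure a).prod (poissonMeasure b)).map (fun p : ℕ × ℕ => p.1 + p.2)
      = poissonMeasure (a + b) := by
  rw [← poissonMeasure_conv_poissonMeasure]
  rfl

/-- coupling of the product Poisson measures with intensities `a`, `b`, `a + b`. -/
theorem poisson_coupling (a b : ι → ℝ≥0) :
    ∃ Q : Measure (ι → ℕ × ℕ), IsProbabilityMeasure Q ∧
      Q.map (fun ω i => (ω i).1) = prodPoisson a ∧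
      Q.map (fun ω i => (ω i).2) = prodPoisson b ∧
      Q.map (fun ω i => (ω i).1 + (ω i).2) = prodPoisson (a + b) := by
  refine ⟨Measure.infinitePi (fun i => (poissonMeasure (a i)).prod (poissonMeasure (b i))),
    inferInstance, ?_, ?_, ?_⟩
  · rw [Measure.infinitePi_map_pi (f := fun _ p => p.1)
      (μ := fun i => (poissonMeasure (a i)).prod (poissonMeasure (b i))) (fun i => measurable_fst)]
    unfold prodPoisson
    congr 1; ext1 i
    exact Measure.map_fst_prod.trans (by simp)
  · rw [Measure.infinitePi_map_pi (f := fun _ p => p.2)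
      (μ := fun i => (poissonMeasure (a i)).prod (poissonMeasure (b i))) (fun i => measurable_snd)]
    unfold prodPoisson
    congr 1; ext1 i
    exact Measure.map_snd_prod.trans (by simp)
  · rw [Measure.infinitePi_map_pi (f := fun _ p => p.1 + p.2)
      (μ := fun i => (poissonMeasure (a i)).prod (poissonMeasure (b i)))
      (fun i => measurable_fst.add measurable_snd)]
    unfold prodPoisson
    congr 1; ext1 i
    exact poisson_prod_map_add _ _

/-- `E` depends only on the coordinates in `F`. -/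
def Dep (E : Set (ι → ℕ)) (F : Set ι) : Prop :=
  ∀ η η' : ι → ℕ, (∀ i ∈ F, η i = η' i) → (η ∈ E ↔ η' ∈ E)

lemma Dep.mono {E : Set (ι → ℕ)} {F F' : Set ι} (h : Dep E F) (hF : F ⊆ F') : Dep E F' :=
  fun η η' hη => h η η' fun i hi => hη i (hF hi)

lemma Dep.inter {E E' : Set (ι → ℕ)} {F F' : Set ι} (h : Dep E F) (h' : Dep E' F') :
    Dep (E ∩ E') (F ∪ F') := fun η η' hη => by
  simp only [Set.mem_inter_iff]
  rw [h η η' fun i hi => hη i (Or.inl hi), h' η η' fun i hi => hη i (Or.inr hi)]

lemma Dep.measurable {E : Set (ι → ℕ)} {F : Set ι} (hF : F.Finite) (h : Dep E F) :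
    MeasurableSet E := by
  have : Finite F := hF
  have h1 : E = (F.domRestrict : (ι → ℕ) → (F → ℕ)) ⁻¹' (F.domRestrict '' E) := by
    ext η
    constructor
    · intro hη; exact ⟨η, hη, rfl⟩
    · rintro ⟨η', hη', he⟩
      exact (h η' η fun i hi => congrFun he ⟨i, hi⟩).1 hη'
  rw [h1]
  exact (measurable_restrict F) (Set.to_countable _).measurableSet

lemma poisson_ne_zero_le (a : ℝ≥0) : poissonMeasure a {n | n ≠ 0} ≤ a := by
  have h1 : {n : ℕ | n ≠ 0} = {0}ᶜ := by ext n; simp
  rw [h1, prob_compl_eq_one_sub (measurableSet_singleton _), poissonMeasure_singleton]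
  simp only [pow_zero, Nat.factorial_zero, Nat.cast_one, mul_one, div_one]
  rw [tsub_le_iff_right, ← ENNReal.ofReal_coe_nnreal, ← ENNReal.ofReal_add (by positivity)
    (by positivity), ← ENNReal.ofReal_one]
  apply ENNReal.ofReal_le_ofReal
  have := Real.add_one_le_exp (-(a : ℝ))
  linarith

lemma prodPoisson_exists_ne_zero_le [Countable ι] (b : ι → ℝ≥0) (F : Set ι) :
    prodPoisson b {η | ∃ i ∈ F, η i ≠ 0} ≤ ∑' i : F, (b i : ℝ≥0∞) := by
  have h1 : {η : ι → ℕ | ∃ i ∈ F, η i ≠ 0} = ⋃ i : F, (fun η : ι → ℕ => η i) ⁻¹' {n | n ≠ 0} := by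
    ext η; simp
  rw [h1]
  refine (measure_iUnion_le _).trans ?_
  refine ENNReal.tsum_le_tsum fun i => ?_
  rw [← Measure.map_apply (measurable_pi_apply _) (Set.to_countable _).measurableSet]
  unfold prodPoisson
  rw [Measure.infinitePi_map_eval]
  exact poisson_ne_zero_le _

/-- (W5) Lipschitz continuity in the intensity, upper bound for the larger intensity. -/
theorem prodPoisson_add_le [Countable ι] (a b : ι → ℝ≥0) {E : Set (ι → ℕ)} (hE : MeasurableSet E)
    {F : Set ι} (hF : Dep E F) :
    prodPoisson (a + b) E ≤ prodPoisson a E + ∑' i : F, (b i : ℝ≥0∞) := by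
  obtain ⟨Q, hQ, h1, h2, h3⟩ := poisson_coupling a b
  rw [← h3, Measure.map_apply (by fun_prop) hE]
  have hsub : (fun (ω : ι → ℕ × ℕ) i => (ω i).1 + (ω i).2) ⁻¹' E ⊆
      (fun (ω : ι → ℕ × ℕ) i => (ω i).1) ⁻¹' E ∪
      (fun (ω : ι → ℕ × ℕ) i => (ω i).2) ⁻¹' {η | ∃ i ∈ F, η i ≠ 0} := by
    intro ω hω
    by_cases hc : ∃ i ∈ F, (ω i).2 ≠ 0
    · exact Or.inr hc
    · left
      push Not at hc
      exact (hF _ _ fun i hi => by simp [hc i hi]).1 hω
  refine (measure_mono hsub).trans ((measure_union_le _ _).trans ?_)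
  gcongr
  · rw [← h1, Measure.map_apply (by fun_prop) hE]
  · have hm : MeasurableSet {η : ι → ℕ | ∃ i ∈ F, η i ≠ 0} := by
      have : {η : ι → ℕ | ∃ i ∈ F, η i ≠ 0} = ⋃ i ∈ F, (fun η : ι → ℕ => η i) ⁻¹' {n | n ≠ 0} := by
        ext η; simp
      rw [this]
      exact MeasurableSet.biUnion F.to_countable fun i _ =>
        (measurable_pi_apply i) (Set.to_countable _).measurableSet
    rw [← Measure.map_apply (μ := Q) (f := fun (ω : ι → ℕ × ℕ) i => (ω i).2) (by fun_prop) hm, h2]
    exact prodPoisson_exists_ne_zero_le b F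

/-- (W5) Lipschitz continuity in the intensity, upper bound for the smaller intensity. -/
theorem prodPoisson_le_add [Countable ι] (a b : ι → ℝ≥0) {E : Set (ι → ℕ)} (hE : MeasurableSet E)
    {F : Set ι} (hF : Dep E F) :
    prodPoisson a E ≤ prodPoisson (a + b) E + ∑' i : F, (b i : ℝ≥0∞) := by
  obtain ⟨Q, hQ, h1, h2, h3⟩ := poisson_coupling a b
  rw [← h1, Measure.map_apply (by fun_prop) hE]
  have hsub : (fun (ω : ι → ℕ × ℕ) i => (ω i).1) ⁻¹' E ⊆
      (fun (ω : ι → ℕ × ℕ) i => (ω i).1 + (ω i).2) ⁻¹' E ∪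
      (fun (ω : ι → ℕ × ℕ) i => (ω i).2) ⁻¹' {η | ∃ i ∈ F, η i ≠ 0} := by
    intro ω hω
    by_cases hc : ∃ i ∈ F, (ω i).2 ≠ 0
    · exact Or.inr hc
    · left
      push Not at hc
      exact (hF _ _ fun i hi => by simp [hc i hi]).1 hω
  refine (measure_mono hsub).trans ((measure_union_le _ _).trans ?_)
  gcongr
  · rw [← h3, Measure.map_apply (by fun_prop) hE]
  · have hm : MeasurableSet {η : ι → ℕ | ∃ i ∈ F, η i ≠ 0} := by
      have : {η : ι → ℕ | ∃ i ∈ F, η i ≠ 0} = ⋃ i ∈ F, (fun η : ι → ℕ => η i) ⁻¹' {n | n ≠ 0} := by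
        ext η; simp
      rw [this]
      exact MeasurableSet.biUnion F.to_countable fun i _ =>
        (measurable_pi_apply i) (Set.to_countable _).measurableSet
    rw [← Measure.map_apply (μ := Q) (f := fun (ω : ι → ℕ × ℕ) i => (ω i).2) (by fun_prop) hm, h2]
    exact prodPoisson_exists_ne_zero_le b F

/-- decreasing events have decreasing probabilities -/
theorem prodPoisson_anti (a b : ι → ℝ≥0) {E : Set (ι → ℕ)} (hE : MeasurableSet E)
    (hdec : ∀ η η' : ι → ℕ, η ≤ η' → η' ∈ E → η ∈ E) :
    prodPoisson (a + b) E ≤ prodPoisson a E := by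
  obtain ⟨Q, hQ, h1, h2, h3⟩ := poisson_coupling a b
  rw [← h3, ← h1, Measure.map_apply (by fun_prop) hE, Measure.map_apply (by fun_prop) hE]
  refine measure_mono fun ω hω => hdec _ _ (fun i => ?_) hω
  simp

end poisson

section iid

variable {ι : Type*} (ν : Measure ℕ) [IsProbabilityMeasure ν]

/-- independence of events depending on disjoint finite sets of coordinates -/
theorem iid_indep {E E' : Set (ι → ℕ)} {F F' : Set ι} (hF : F.Finite) (hF' : F'.Finite)
    (h : Dep E F) (h' : Dep E' F') (hd : Disjoint F F') :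
    Measure.infinitePi (fun _ : ι => ν) (E ∩ E') =
      Measure.infinitePi (fun _ : ι => ν) E * Measure.infinitePi (fun _ : ι => ν) E' := by
  classical
  have hind : iIndepFun (fun (i : ι) (ω : ι → ℕ) => ω i) (Measure.infinitePi (fun _ : ι => ν)) :=
    iIndepFun_infinitePi (X := fun _ x => x) (fun _ => measurable_id)
  have h1 := iIndepFun.indepFun_finset hF.toFinset hF'.toFinset
    (by rw [Set.Finite.disjoint_toFinset]; exact hd) hind (fun i => measurable_pi_apply i)
  have key : ∀ (G : Finset ι) (A : Set (ι → ℕ)), Dep A (G : Set ι) →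
      A = (fun (ω : ι → ℕ) (i : G) => ω i) ⁻¹' ((fun (ω : ι → ℕ) (i : G) => ω i) '' A) := by
    intro G A hA
    ext η
    constructor
    · intro hη; exact ⟨η, hη, rfl⟩
    · rintro ⟨η', hη', he⟩
      exact (hA η' η fun i hi => congrFun he ⟨i, hi⟩).1 hη'
  rw [key hF.toFinset E (by simpa using h), key hF'.toFinset E' (by simpa using h')]
  exact h1.measure_inter_preimage_eq_mul _ _ (Set.to_countable _).measurableSet
    (Set.to_countable _).measurableSet

/-- reindexing -/
theorem iid_reindex (e : ι ≃ ι) {E : Set (ι → ℕ)} (hE : MeasurableSet E) :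
    Measure.infinitePi (fun _ : ι => ν) {η | (fun i => η (e i)) ∈ E} =
      Measure.infinitePi (fun _ : ι => ν) E := by
  have h : (Measure.infinitePi (fun _ : ι => ν)).map (fun (η : ι → ℕ) i => η (e i)) =
      Measure.infinitePi (fun _ : ι => ν) := by
    apply Measure.eq_infinitePi
    intro s t ht
    classical
    have hte : ∀ i, t (e.symm (e i)) = t i := fun i => congrArg (fun k => (t k : Set ℕ)) (e.symm_apply_apply i)
    rw [Measure.map_apply (by fun_prop) (MeasurableSet.pi s.countable_toSet fun i _ => ht i)]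
    have : (fun (η : ι → ℕ) i => η (e i)) ⁻¹' (Set.pi (↑s) t) =
        Set.pi (↑(s.map e.toEmbedding)) (fun i => t (e.symm i)) := by
      ext η
      simp only [Set.mem_preimage, Set.mem_pi, Finset.mem_coe, Finset.mem_map,
        Equiv.coe_toEmbedding]
      constructor
      · rintro hη _ ⟨i, hi, rfl⟩; rw [hte]; exact hη i hi
      · intro hη i hi; have := hη (e i) ⟨i, hi, rfl⟩; rwa [hte] at this
    rw [this, Measure.infinitePi_pi _ (fun i _ => ht _)]
    rw [Finset.prod_map]
    exact Finset.prod_congr rfl fun i _ => by rw [Equiv.coe_toEmbedding, hte]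
  conv_rhs => rw [← h, Measure.map_apply (by fun_prop) hE]
  rfl

end iid

end MPdd5692
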