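import Mathlib
import Pool.Agent.Work.MP_dd5692_pr.Link98
import Pool.Agent.Work.MP_dd5692_pr.Stat98

/-!
# FSC98 : the finite size criterion, colour blind (helper98).  W10 of WRAPPER98.md.
-/

open MeasureTheory ProbabilityTheory Set
open scoped ENNReal NNReal

namespace MPdd5692

/-- the two colours -/
inductive Col
  | vac
  | occ

def Col.adj : Col → Site → Site → Prop
  | .vac => Adj4
  | .occ => Adj8

/-- the sites of the given colour -/
def Col.set : Col → ℝ → Set Site → Set Site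
  | .vac => vacSites
  | .occ => fun ρ O => (vacSites ρ O)ᶜ

lemma Col.adj_symm (c : Col) (x y : Site) (h : c.adj x y) : c.adj y x := by
  cases c
  · exact Adj4.symm h
  · exact Adj8.symm h

lemma Col.adj_adj8 (c : Col) (x y : Site) (h : c.adj x y) : Adj8 x y := by
  cases c
  · exact Adj4.adj8 h
  · exact h

/-- The event that some site of `A` is linked to some site of `B` in `R`, by sites of colour `c`. -/
def LE (c : Col) (ρ : ℝ) (R A B : Set Site) : Set (Site → ℕ) :=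
  {η | ∃ x ∈ A, ∃ y ∈ B, Linked c.adj (c.set ρ (occ η) ∩ R) x y}

lemma LE_mono {c : Col} {ρ : ℝ} {R R' A A' B B' : Set Site} (hR : R ⊆ R') (hA : A ⊆ A')
    (hB : B ⊆ B') : LE c ρ R A B ⊆ LE c ρ R' A' B' := by
  rintro η ⟨x, hx, y, hy, h⟩
  exact ⟨x, hA hx, y, hB hy, h.mono (Set.inter_subset_inter_right _ hR)⟩

/-- cells that influence the sites of `R` -/
def nbhd (ρ : ℝ) (R : Set Site) : Set Site := {v | ∃ z ∈ R, v - z ∈ offs ρ}

lemma Col.set_local (c : Col) {ρ : ℝ} {R : Set Site} {η η' : Site → ℕ}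
    (h : ∀ v ∈ nbhd ρ R, η v = η' v) {z : Site} (hz : z ∈ R) :
    z ∈ c.set ρ (MPdd5692.occ η) ↔ z ∈ c.set ρ (MPdd5692.occ η') := by
  have key : z ∈ vacSites ρ (MPdd5692.occ η) ↔ z ∈ vacSites ρ (MPdd5692.occ η') := by
    constructor
    · intro hv v hv' hmem
      exact hv v (by simp only [MPdd5692.occ, Set.mem_ofPred_eq]; rw [h v ⟨z, hz, hmem⟩]; exact hv') hmem
    · intro hv v hv' hmem
      exact hv v (by simp only [MPdd5692.occ, Set.mem_ofPred_eq]; rw [← h v ⟨z, hz, hmem⟩]; exact hv') hmem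
  cases c
  · exact key
  · exact not_congr key

lemma LE_dep (c : Col) (ρ : ℝ) (R A B : Set Site) : Dep (LE c ρ R A B) (nbhd ρ R) := by
  intro η η' h
  have hs : c.set ρ (occ η) ∩ R = c.set ρ (occ η') ∩ R := by
    ext z
    constructor
    · rintro ⟨h1, h2⟩; exact ⟨(c.set_local h h2).1 h1, h2⟩
    · rintro ⟨h1, h2⟩; exact ⟨(c.set_local h h2).2 h1, h2⟩
  simp only [LE, Set.mem_ofPred_eq, hs]

lemma abs_le_of_offd_le {ρ : ℝ} {a : ℤ} (h : offd a ≤ ρ) : |a| ≤ ⌈ρ⌉ + 1 := by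
  have h1 : (|(a : ℝ)| - 1 / 2) ≤ ρ := (le_max_left _ _).trans h
  have h2 := Int.le_ceil ρ
  have h3 : ((|a| : ℤ) : ℝ) ≤ ((⌈ρ⌉ + 1 : ℤ) : ℝ) := by push_cast; linarith
  exact_mod_cast h3

lemma offs_bound {ρ : ℝ} (hρ : 0 ≤ ρ) {v : Site} (hv : v ∈ offs ρ) :
    |v.1| ≤ ⌈ρ⌉ + 1 ∧ |v.2| ≤ ⌈ρ⌉ + 1 := by
  simp only [offs, Set.mem_ofPred_eq] at hv
  have h1 : 0 ≤ offd v.1 := le_max_right _ _
  have h2 : 0 ≤ offd v.2 := le_max_right _ _
  exact ⟨abs_le_of_offd_le (by nlinarith), abs_le_of_offd_le (by nlinarith)⟩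

lemma offs_finite (ρ : ℝ) (hρ : 0 ≤ ρ) : (offs ρ).Finite := by
  refine ((Set.finite_Icc (-(⌈ρ⌉ + 1)) (⌈ρ⌉ + 1)).prod (Set.finite_Icc (-(⌈ρ⌉ + 1)) (⌈ρ⌉ + 1))).subset ?_
  intro v hv
  have := offs_bound hρ hv
  exact ⟨abs_le.1 this.1, abs_le.1 this.2⟩

lemma nbhd_finite {ρ : ℝ} (hρ : 0 ≤ ρ) {R : Set Site} (hR : R.Finite) : (nbhd ρ R).Finite := by
  refine (hR.add (offs_finite ρ hρ)).subset ?_
  rintro v ⟨z, hz, hv⟩
  exact ⟨z, hz, v - z, hv, by simp⟩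

lemma LE_measurable (c : Col) {ρ : ℝ} (hρ : 0 ≤ ρ) {R : Set Site} (hR : R.Finite) (A B : Set Site) :
    MeasurableSet (LE c ρ R A B) := (LE_dep c ρ R A B).measurable (nbhd_finite hρ hR)

/-- a symmetry of the model -/
structure Sym (e : Site ≃ Site) : Prop where
  adj4 : ∀ x y, Adj4 (e x) (e y) ↔ Adj4 x y
  adj8 : ∀ x y, Adj8 (e x) (e y) ↔ Adj8 x y
  offs : ∀ (ρ : ℝ) (v z : Site), e v - e z ∈ offs ρ ↔ v - z ∈ offs ρ

lemma Sym.adj {e : Site ≃ Site} (he : Sym e) (c : Col) (x y : Site) :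
    c.adj (e x) (e y) ↔ c.adj x y := by
  cases c
  · exact he.adj4 x y
  · exact he.adj8 x y

lemma Sym.symm {e : Site ≃ Site} (he : Sym e) : Sym e.symm where
  adj4 x y := by rw [← he.adj4]; simp
  adj8 x y := by rw [← he.adj8]; simp
  offs ρ v z := by rw [← he.offs]; simp

lemma Sym.set {e : Site ≃ Site} (he : Sym e) (c : Col) (ρ : ℝ) (η : Site → ℕ) (z : Site) :
    z ∈ c.set ρ (occ (fun i => η (e i))) ↔ e z ∈ c.set ρ (occ η) := by
  have key : z ∈ vacSites ρ (occ (fun i => η (e i))) ↔ e z ∈ vacSites ρ (occ η) := by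
    constructor
    · intro h v hv hmem
      refine h (e.symm v) (by simpa [occ] using hv) ?_
      rw [← he.offs]; simpa using hmem
    · intro h v hv hmem
      refine h (e v) (by simpa [occ] using hv) ?_
      rw [he.offs]; exact hmem
  cases c
  · exact key
  · exact not_congr key

lemma LE_sym_iff {e : Site ≃ Site} (he : Sym e) (c : Col) (ρ : ℝ) (R A B : Set Site)
    (η : Site → ℕ) :
    (fun i => η (e i)) ∈ LE c ρ (e ⁻¹' R) (e ⁻¹' A) (e ⁻¹' B) ↔ η ∈ LE c ρ R A B := by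
  constructor
  · rintro ⟨x, hx, y, hy, h⟩
    refine ⟨e x, hx, e y, hy, ?_⟩
    refine h.mapE (fun u v => (he.adj c u v).2) ?_
    rintro z ⟨hz1, hz2⟩
    exact ⟨(he.set c ρ η z).1 hz1, hz2⟩
  · rintro ⟨x, hx, y, hy, h⟩
    refine ⟨e.symm x, by simpa using hx, e.symm y, by simpa using hy, ?_⟩
    refine h.mapE (fun u v => (he.symm.adj c u v).2) ?_
    rintro z ⟨hz1, hz2⟩
    refine ⟨(he.set c ρ η _).2 (by simpa using hz1), by simpa using hz2⟩

variable (ν : Measure ℕ) [IsProbabilityMeasure ν]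

theorem LE_sym {e : Site ≃ Site} (he : Sym e) (c : Col) {ρ : ℝ} (hρ : 0 ≤ ρ) {R : Set Site}
    (hR : R.Finite) (A B : Set Site) :
    Measure.infinitePi (fun _ : Site => ν) (LE c ρ (e ⁻¹' R) (e ⁻¹' A) (e ⁻¹' B)) =
      Measure.infinitePi (fun _ : Site => ν) (LE c ρ R A B) := by
  have hR' : (e ⁻¹' R).Finite := hR.preimage e.injective.injOn
  rw [← iid_reindex ν e (LE_measurable c hρ hR' _ _)]
  congr 1
  ext η
  exact LE_sym_iff he c ρ R A B η

/-- translation -/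
def trE (t : Site) : Site ≃ Site := Equiv.addRight t

lemma trE_sym (t : Site) : Sym (trE t) where
  adj4 x y := by simp [trE, Adj4]
  adj8 x y := by simp [trE, Adj8]
  offs ρ v z := by simp [trE]

/-- transposition -/
def swE : Site ≃ Site := Equiv.prodComm ℤ ℤ

lemma swE_sym : Sym swE where
  adj4 x y := by simp [swE, Adj4, add_comm]
  adj8 x y := by simp [swE, Adj8, max_comm]
  offs ρ v z := by
    simp only [swE, Equiv.prodComm_apply, MPdd5692.offs, Set.mem_ofPred_eq, Prod.fst_sub,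
      Prod.snd_sub, Prod.fst_swap, Prod.snd_swap]
    rw [add_comm]

/-- rectangles -/
def Rect (a b c d : ℤ) : Set Site := {z | a ≤ z.1 ∧ z.1 ≤ b ∧ c ≤ z.2 ∧ z.2 ≤ d}

lemma Rect_finite (a b c d : ℤ) : (Rect a b c d).Finite := by
  refine ((Set.finite_Icc a b).prod (Set.finite_Icc c d)).subset ?_
  rintro z ⟨h1, h2, h3, h4⟩
  exact ⟨⟨h1, h2⟩, ⟨h3, h4⟩⟩

/-- horizontal crossing -/
def HEv (c : Col) (ρ : ℝ) (a b u v : ℤ) : Set (Site → ℕ) :=
  LE c ρ (Rect a b u v) {z | z.1 = a} {z | z.1 = b}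

/-- vertical crossing -/
def VEv (c : Col) (ρ : ℝ) (a b u v : ℤ) : Set (Site → ℕ) :=
  LE c ρ (Rect a b u v) {z | z.2 = u} {z | z.2 = v}

lemma HEv_translate (c : Col) {ρ : ℝ} (hρ : 0 ≤ ρ) (a b u v : ℤ) (t : Site) :
    Measure.infinitePi (fun _ : Site => ν) (HEv c ρ (a + t.1) (b + t.1) (u + t.2) (v + t.2)) =
      Measure.infinitePi (fun _ : Site => ν) (HEv c ρ a b u v) := by
  unfold HEv
  rw [← LE_sym ν (trE_sym t) c hρ (Rect_finite _ _ _ _)]
  congr 2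
  · ext z; simp only [Rect, trE, Set.mem_preimage, Equiv.coe_addRight, Set.mem_ofPred_eq,
      Prod.fst_add, Prod.snd_add, add_le_add_iff_right]
  · ext z; simp [trE]
  · ext z; simp [trE]

lemma VEv_eq_HEv (c : Col) {ρ : ℝ} (hρ : 0 ≤ ρ) (a b u v : ℤ) :
    Measure.infinitePi (fun _ : Site => ν) (VEv c ρ a b u v) =
      Measure.infinitePi (fun _ : Site => ν) (HEv c ρ u v a b) := by
  unfold HEv VEv
  rw [← LE_sym ν swE_sym c hρ (Rect_finite _ _ _ _)]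
  congr 2
  · ext z
    simp only [Rect, swE, Set.mem_preimage, Equiv.prodComm_apply, Set.mem_ofPred_eq,
      Prod.fst_swap, Prod.snd_swap]
    tauto

/-- probability of a horizontal crossing of `[0,a] × [0,b]` -/
noncomputable def cr (c : Col) (ρ : ℝ) (a b : ℤ) : ℝ≥0∞ :=
  Measure.infinitePi (fun _ : Site => ν) (HEv c ρ 0 a 0 b)

lemma prob_HEv (c : Col) {ρ : ℝ} (hρ : 0 ≤ ρ) (a b u v : ℤ) :
    Measure.infinitePi (fun _ : Site => ν) (HEv c ρ a b u v) = cr ν c ρ (b - a) (v - u) := by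
  unfold cr
  rw [← HEv_translate ν c hρ 0 (b - a) 0 (v - u) (a, u)]
  simp

lemma prob_VEv (c : Col) {ρ : ℝ} (hρ : 0 ≤ ρ) (a b u v : ℤ) :
    Measure.infinitePi (fun _ : Site => ν) (VEv c ρ a b u v) = cr ν c ρ (v - u) (b - a) := by
  rw [VEv_eq_HEv ν c hρ, prob_HEv ν c hρ]

omit [IsProbabilityMeasure ν] in
lemma cr_mono (c : Col) (ρ : ℝ) (a : ℤ) {b b' : ℤ} (hb : b ≤ b') :
    cr ν c ρ a b ≤ cr ν c ρ a b' := by
  unfold cr HEv
  apply measure_mono
  apply LE_mono _ le_rfl le_rfl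
  rintro z ⟨h1, h2, h3, h4⟩
  exact ⟨h1, h2, h3, h4.trans hb⟩

lemma linked_component {adj : Site → Site → Prop} {S : Set Site} {x y z : Site}
    (hy : Linked adj S x y) (hz : Linked adj S x z) (hsymm : ∀ x y, adj x y → adj y x) :
    Linked adj {w | Linked adj S x w} y z := by
  have h : ∀ w, Linked adj S x w → Linked adj {w | Linked adj S x w} x w := by
    intro w hw
    obtain ⟨hx, hw⟩ := hw
    induction hw with
    | refl => exact Linked.refl (Linked.refl hx)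
    | tail hab hbc ih => exact ih.tail (⟨hx, hab.tail hbc⟩) hbc.1
  exact ((h y hy).symm hsymm).trans (h z hz)

lemma Linked.map' {adj adj' : Site → Site → Prop} {S S' : Set Site} {x y : Site} {f : Site → Site}
    (hf : ∀ x y, adj x y → adj' (f x) (f y)) (hS : ∀ x ∈ S, f x ∈ S') (h : Linked adj S x y) :
    Linked adj' S' (f x) (f y) := by
  obtain ⟨hx, h⟩ := h
  induction h with
  | refl => exact Linked.refl (hS _ hx)
  | tail hab hbc ih => exact ih.tail (hS _ hbc.2) (hf _ _ hbc.1)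

/-- Strip extraction in the vertical direction. -/
lemma Linked.stripV {adj : Site → Site → Prop} {S : Set Site} {x y : Site}
    (hadj : ∀ x y, adj x y → |x.2 - y.2| ≤ 1) {a b : ℤ} (hab : a ≤ b)
    (h : Linked adj S x y) (hx : x.2 ≤ a) (hy : b ≤ y.2) :
    ∃ x' y' : Site, x'.2 = a ∧ y'.2 = b ∧
      Linked adj (S ∩ {z | a ≤ z.2 ∧ z.2 ≤ b}) x' y' := by
  have h1 : Linked (fun x y => adj x.swap y.swap) (Prod.swap ⁻¹' S) x.swap y.swap :=
    h.map' (f := Prod.swap) (by simp) (by simp)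
  obtain ⟨x', y', hx', hy', h2⟩ := h1.strip (fun x y hxy => hadj _ _ hxy) hab
    (by simpa using hx) (by simpa using hy)
  refine ⟨x'.swap, y'.swap, by simpa using hx', by simpa using hy', ?_⟩
  exact h2.map' (f := Prod.swap) (fun u v huv => huv) (fun z hz => hz)

/-- Window lemma. -/
lemma strip_cover (c : Col) (ρ : ℝ) {a : ℤ} (ha : 0 < a) :
    HEv c ρ 0 a 0 (9 * a) ⊆
      (⋃ j : Fin 7, HEv c ρ 0 a (j * a) ((j + 3) * a)) ∪
      (⋃ j : Fin 7, VEv c ρ 0 a ((j + 1) * a) ((j + 2) * a)) := by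
  rintro η ⟨x, hx, y, hy, h⟩
  set S := c.set ρ (MPdd5692.occ η) with hS
  set C := {w | Linked c.adj (S ∩ Rect 0 a 0 (9 * a)) x w} with hC
  have hxC : x ∈ C := Linked.refl h.left_mem
  have hyC : y ∈ C := h
  have hsub : C ⊆ S ∩ Rect 0 a 0 (9 * a) := fun w hw => Linked.right_mem hw
  -- a window containing C
  have hwin : ∀ j : Fin 7, (∀ w ∈ C, (j : ℤ) * a ≤ w.2 ∧ w.2 ≤ ((j : ℤ) + 3) * a) →
      η ∈ HEv c ρ 0 a (j * a) ((j + 3) * a) := by
    intro j hj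
    refine ⟨x, hx, y, hy, ?_⟩
    refine (linked_component (Linked.refl h.left_mem) h c.adj_symm).mono ?_
    intro w hw
    have h1 := hsub hw
    exact ⟨h1.1, h1.2.1, h1.2.2.1, (hj w hw).1, (hj w hw).2⟩
  by_cases hall : ∀ w ∈ C, 6 * a ≤ w.2
  · left
    refine Set.mem_iUnion.2 ⟨6, hwin 6 fun w hw => ⟨by simpa using hall w hw, ?_⟩⟩
    have := (hsub hw).2.2.2.2
    simp only [show ((6 : Fin 7) : ℕ) = 6 from rfl]
    push_cast; linarith
  · push Not at hall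
    obtain ⟨w₀, hw₀, hw₀'⟩ := hall
    have hex : ∃ j : ℕ, ∃ w ∈ C, w.2 < ((j : ℤ) + 1) * a :=
      ⟨5, w₀, hw₀, by push_cast; linarith⟩
    classical
    let j := Nat.find hex
    obtain ⟨w₁, hw₁, hw₁'⟩ := Nat.find_spec hex
    have hj5 : j ≤ 5 := Nat.find_min' hex ⟨w₀, hw₀, by push_cast; linarith⟩
    have hlow : ∀ w ∈ C, (j : ℤ) * a ≤ w.2 := by
      intro w hw
      rcases Nat.eq_zero_or_pos j with h0 | h0
      · rw [h0]; simpa using (hsub hw).2.2.2.1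
      · by_contra hcon
        push Not at hcon
        have := Nat.find_min hex (m := j - 1) (by omega)
        apply this
        refine ⟨w, hw, ?_⟩
        have e : ((j - 1 : ℕ) : ℤ) + 1 = j := by omega
        rw [e]; exact hcon
    by_cases hup : ∀ w ∈ C, w.2 ≤ ((j : ℤ) + 3) * a
    · left
      refine Set.mem_iUnion.2 ⟨⟨j, by omega⟩, hwin ⟨j, by omega⟩ fun w hw => ⟨hlow w hw, hup w hw⟩⟩
    · right
      push Not at hup
      obtain ⟨w₂, hw₂, hw₂'⟩ := hup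
      refine Set.mem_iUnion.2 ⟨⟨j, by omega⟩, ?_⟩
      have hl : Linked c.adj (S ∩ Rect 0 a 0 (9 * a)) w₁ w₂ :=
        (Linked.symm c.adj_symm hw₁).trans hw₂
      have hw₁'' : w₁.2 ≤ ((j : ℤ) + 1) * a := hw₁'.le
      obtain ⟨x', y', hx', hy', h3⟩ := hl.stripV
        (fun u v huv => (c.adj_adj8 u v huv).abs_snd)
        (a := ((j : ℤ) + 1) * a) (b := ((j : ℤ) + 2) * a) (by nlinarith) hw₁'' (by nlinarith)
      refine ⟨x', hx', y', hy', h3.mono ?_⟩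
      rintro z ⟨⟨hz1, hz2⟩, hz3⟩
      exact ⟨hz1, hz2.1, hz2.2.1, hz3.1, hz3.2⟩

lemma strip_prob (c : Col) {ρ : ℝ} (hρ : 0 ≤ ρ) {a : ℤ} (ha : 0 < a) :
    cr ν c ρ a (9 * a) ≤ 16 * cr ν c ρ a (3 * a) := by
  have h1 : cr ν c ρ a (9 * a) ≤ _ := (measure_mono (strip_cover c ρ ha)).trans
    ((measure_union_le _ _).trans (add_le_add (measure_iUnion_fintype_le _ _)
      (measure_iUnion_fintype_le _ _)))
  refine h1.trans ?_
  have h2 : ∀ j : Fin 7, Measure.infinitePi (fun _ : Site => ν)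
      (HEv c ρ 0 a (j * a) ((j + 3) * a)) ≤ cr ν c ρ a (3 * a) := by
    intro j
    rw [prob_HEv ν c hρ]
    apply le_of_eq
    congr 1 <;> ring
  have h3 : ∀ j : Fin 7, Measure.infinitePi (fun _ : Site => ν)
      (VEv c ρ 0 a ((j + 1) * a) ((j + 2) * a)) ≤ cr ν c ρ a (3 * a) := by
    intro j
    rw [prob_VEv ν c hρ]
    have e1 : ((j : ℤ) + 2) * a - ((j : ℤ) + 1) * a = a := by ring
    rw [e1]
    exact cr_mono ν c ρ a (by linarith)
  refine (add_le_add (Finset.sum_le_sum fun j _ => h2 j) (Finset.sum_le_sum fun j _ => h3 j)).trans ?_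
  simp only [Finset.sum_const, Finset.card_univ, Fintype.card_fin, nsmul_eq_mul]
  rw [← add_mul]
  gcongr
  norm_num

/-- (W10) the finite size criterion -/
theorem finite_size (c : Col) {ρ : ℝ} (hρ : 0 ≤ ρ) {a : ℤ} (ha : 2 * (⌈ρ⌉ + 1) < a) :
    cr ν c ρ (3 * a) (9 * a) ≤ 256 * cr ν c ρ a (3 * a) ^ 2 := by
  have hc : 0 ≤ ⌈ρ⌉ := Int.ceil_nonneg hρ
  have ha0 : 0 < a := by omega
  have hsub : HEv c ρ 0 (3 * a) 0 (9 * a) ⊆ HEv c ρ 0 a 0 (9 * a) ∩ HEv c ρ (2 * a) (3 * a) 0 (9 * a) := by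
    rintro η ⟨x, hx, y, hy, h⟩
    simp only [Set.mem_ofPred_eq] at hx hy
    constructor
    · obtain ⟨x', y', hx', hy', h3⟩ := h.strip (fun u v huv => (c.adj_adj8 u v huv).abs_fst)
        (a := 0) (b := a) ha0.le hx.le (by omega)
      refine ⟨x', hx', y', hy', h3.mono ?_⟩
      rintro z ⟨⟨hz1, hz2⟩, hz3⟩
      exact ⟨hz1, hz3.1, hz3.2, hz2.2.2⟩
    · obtain ⟨x', y', hx', hy', h3⟩ := h.strip (fun u v huv => (c.adj_adj8 u v huv).abs_fst)
        (a := 2 * a) (b := 3 * a) (by omega) (by omega) hy.ge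
      refine ⟨x', hx', y', hy', h3.mono ?_⟩
      rintro z ⟨⟨hz1, hz2⟩, hz3⟩
      exact ⟨hz1, hz3.1, hz3.2, hz2.2.2⟩
  have hdisj : Disjoint (nbhd ρ (Rect 0 a 0 (9 * a))) (nbhd ρ (Rect (2 * a) (3 * a) 0 (9 * a))) := by
    rw [Set.disjoint_left]
    rintro v ⟨z, hz, hvz⟩ ⟨w, hw, hvw⟩
    have h1 := abs_le.1 (offs_bound hρ hvz).1
    have h2 := abs_le.1 (offs_bound hρ hvw).1
    simp only [Prod.fst_sub] at h1 h2
    obtain ⟨-, hz2, -, -⟩ := hz
    obtain ⟨hw1, -, -, -⟩ := hw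
    omega
  have hind := iid_indep ν (nbhd_finite hρ (Rect_finite _ _ _ _)) (nbhd_finite hρ (Rect_finite _ _ _ _))
    (LE_dep c ρ (Rect 0 a 0 (9 * a)) {z | z.1 = 0} {z | z.1 = a})
    (LE_dep c ρ (Rect (2 * a) (3 * a) 0 (9 * a)) {z | z.1 = 2 * a} {z | z.1 = 3 * a}) hdisj
  calc cr ν c ρ (3 * a) (9 * a)
      ≤ Measure.infinitePi (fun _ : Site => ν)
        (HEv c ρ 0 a 0 (9 * a) ∩ HEv c ρ (2 * a) (3 * a) 0 (9 * a)) := measure_mono hsub
    _ = cr ν c ρ a (9 * a) * cr ν c ρ (3 * a - 2 * a) (9 * a - 0) := by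
        rw [← prob_HEv ν c hρ (2 * a) (3 * a) 0 (9 * a)]; exact hind
    _ = cr ν c ρ a (9 * a) * cr ν c ρ a (9 * a) := by congr 2 <;> ring
    _ ≤ (16 * cr ν c ρ a (3 * a)) * (16 * cr ν c ρ a (3 * a)) := by
        gcongr <;> exact strip_prob ν c hρ ha0
    _ = 256 * cr ν c ρ a (3 * a) ^ 2 := by ring

/-- iteration of the finite size criterion -/
theorem finite_size_iterate (c : Col) {ρ : ℝ} (hρ : 0 ≤ ρ) {a : ℤ} (ha : 2 * (⌈ρ⌉ + 1) < a)
    (k : ℕ) : 256 * cr ν c ρ (3 ^ k * a) (3 * (3 ^ k * a)) ≤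
      (256 * cr ν c ρ a (3 * a)) ^ (2 ^ k) := by
  have hc : 0 ≤ ⌈ρ⌉ := Int.ceil_nonneg hρ
  induction k with
  | zero => simp
  | succ k ih =>
    have h1 : a ≤ 3 ^ k * a := by
      have : (1 : ℤ) ≤ 3 ^ k := one_le_pow₀ (by norm_num)
      nlinarith
    have h2 := finite_size ν c hρ (a := 3 ^ k * a) (by omega)
    have e1 : (3 : ℤ) ^ (k + 1) * a = 3 * (3 ^ k * a) := by ring
    have e2 : 3 * ((3 : ℤ) ^ (k + 1) * a) = 9 * (3 ^ k * a) := by ring
    rw [e2, e1]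
    calc 256 * cr ν c ρ (3 * (3 ^ k * a)) (9 * (3 ^ k * a))
        ≤ 256 * (256 * cr ν c ρ (3 ^ k * a) (3 * (3 ^ k * a)) ^ 2) := by gcongr
      _ = (256 * cr ν c ρ (3 ^ k * a) (3 * (3 ^ k * a))) ^ 2 := by ring
      _ ≤ ((256 * cr ν c ρ a (3 * a)) ^ (2 ^ k)) ^ 2 := by gcongr
      _ = (256 * cr ν c ρ a (3 * a)) ^ (2 ^ (k + 1)) := by rw [← pow_mul, pow_succ]

end MPdd5692
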