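import Mathlib
import Pool.Agent.Work.MP_dd5692_pr.Stat98
import Pool.Agent.Work.MP_dd5692_pr.Defs98

/-!
# W1 : law of the counts of a Poisson process in countably many disjoint sets (helper98)
-/

open MeasureTheory ProbabilityTheory Set
open scoped ENNReal NNReal

namespace MPdd5692

variable {E Ω : Type*} [MeasurableSpace E] [MeasurableSpace Ω] {P : Measure Ω} {μ : Measure E}
  {N : Ω → Set E}

/-- number of points in `A` (`0` if infinite) -/
noncomputable def cnt (N : Ω → Set E) (A : Set E) (ω : Ω) : ℕ := (N ω ∩ A).encard.toNat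

lemma IsPoissonProcess.isProbabilityMeasure (h : IsPoissonProcess P μ N) :
    IsProbabilityMeasure P := by
  have := h.law 0 (fun i => i.elim0) (fun i => i.elim0) (fun i => i.elim0) (fun i => i.elim0)
    (fun i => i.elim0)
  constructor
  simpa using this

lemma IsPoissonProcess.law_one (h : IsPoissonProcess P μ N) {A : Set E} (hA : MeasurableSet A)
    (hfin : μ A < ∞) (k : ℕ) :
    P {ω | (N ω ∩ A).encard = k} = poissonMeasure (μ A).toNNReal {k} := by
  have := h.law 1 (fun _ => A) (fun _ => k) (fun _ => hA) (fun _ => hfin)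
    (fun i j hij => absurd (Subsingleton.elim i j) hij)
  simpa using this

lemma IsPoissonProcess.ae_finite (h : IsPoissonProcess P μ N) {A : Set E} (hA : MeasurableSet A)
    (hfin : μ A < ∞) : ∀ᵐ ω ∂P, (N ω ∩ A).Finite := by
  have := h.isProbabilityMeasure
  have h1 : P (⋃ k : ℕ, {ω | (N ω ∩ A).encard = k}) = 1 := by
    rw [measure_iUnion]
    · simp_rw [h.law_one hA hfin]
      have h2 : (⋃ k : ℕ, {k}) = (Set.univ : Set ℕ) := by ext; simp
      rw [← measure_iUnion (by intro i j hij; simpa using hij) (fun i => measurableSet_singleton i),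
        h2, measure_univ]
    · intro i j hij
      rw [Function.onFun, Set.disjoint_left]
      intro ω hi hj
      simp only [Set.mem_ofPred_eq] at hi hj
      rw [hi] at hj
      exact hij (by exact_mod_cast hj)
    · exact fun k => h.meas A hA k
  have hms : MeasurableSet (⋃ k : ℕ, {ω | (N ω ∩ A).encard = k}) :=
    MeasurableSet.iUnion fun k => h.meas A hA k
  have h3 : ∀ᵐ ω ∂P, ω ∈ ⋃ k : ℕ, {ω | (N ω ∩ A).encard = k} := by
    rw [← prob_compl_eq_zero_iff hms] at h1
    exact h1
  filter_upwards [h3] with ω hω
  obtain ⟨k, hk⟩ := Set.mem_iUnion.1 hω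
  exact Set.finite_of_encard_eq_coe hk

lemma IsPoissonProcess.measurable_cnt (h : IsPoissonProcess P μ N) {A : Set E}
    (hA : MeasurableSet A) : Measurable (cnt N A) := by
  apply measurable_to_countable'
  intro k
  have hk : ∀ k : ℕ, MeasurableSet {ω | (N ω ∩ A).encard = k} := fun k => h.meas A hA k
  by_cases h0 : k = 0
  · subst h0
    have : cnt N A ⁻¹' {0} = {ω | (N ω ∩ A).encard = (0 : ℕ)} ∪
        (⋃ k : ℕ, {ω | (N ω ∩ A).encard = k})ᶜ := by
      ext ω
      simp only [cnt, Set.mem_preimage, Set.mem_singleton_iff, Set.mem_union, Set.mem_ofPred_eq,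
        Set.mem_compl_iff, Set.mem_iUnion, not_exists]
      rw [ENat.toNat_eq_zero]
      constructor
      · rintro (h1 | h1)
        · left; rw [h1]; rfl
        · right; intro k hk; rw [h1] at hk; exact (ENat.natCast_ne_top k) hk.symm
      · rintro (h1 | h1)
        · left; rw [h1]; rfl
        · right
          by_contra hcon
          exact h1 _ (ENat.natCast_toNat hcon).symm
    rw [this]
    exact (hk 0).union (MeasurableSet.iUnion fun k => hk k).compl
  · have : cnt N A ⁻¹' {k} = {ω | (N ω ∩ A).encard = k} := by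
      ext ω
      simp only [cnt, Set.mem_preimage, Set.mem_singleton_iff, Set.mem_ofPred_eq]
      rw [ENat.toNat_eq_iff h0]
    rw [this]
    exact hk k

/-- (W1) -/
theorem IsPoissonProcess.map_cnt (h : IsPoissonProcess P μ N) {ι : Type*} [Countable ι]
    (A : ι → Set E) (hA : ∀ i, MeasurableSet (A i)) (hfin : ∀ i, μ (A i) < ∞)
    (hd : Pairwise fun i j => Disjoint (A i) (A j)) :
    P.map (fun ω i => cnt N (A i) ω) = prodPoisson (fun i => (μ (A i)).toNNReal) := by
  have := h.isProbabilityMeasure
  have hmeas : Measurable (fun ω i => cnt N (A i) ω) :=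
    measurable_pi_iff.2 fun i => h.measurable_cnt (hA i)
  have hae : ∀ᵐ ω ∂P, ∀ i, (N ω ∩ A i).Finite := by
    rw [ae_all_iff]; exact fun i => h.ae_finite (hA i) (hfin i)
  unfold prodPoisson
  refine (Measure.isProjectiveLimit_infinitePi _).unique (fun I => ?_) |>.symm
  rw [Measure.map_map (by fun_prop) hmeas]
  apply Measure.ext_of_singleton
  intro k
  rw [Measure.map_apply ((Finset.measurable_restrict I).comp hmeas) (measurableSet_singleton k),
    Measure.pi_singleton]
  -- the event
  have e1 : P ((I.restrict ∘ fun ω i => cnt N (A i) ω) ⁻¹' {k}) =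
      P {ω | ∀ i : I, (N ω ∩ A i).encard = k i} := by
    apply measure_congr
    filter_upwards [hae] with ω hω
    apply propext
    show (I.restrict (fun i => cnt N (A i) ω) = k) ↔ ∀ i : I, (N ω ∩ A i).encard = k i
    constructor
    · intro hk i
      rw [← hk]
      simp only [Finset.restrict, cnt]
      exact (ENat.natCast_toNat (by rw [Set.encard_ne_top_iff]; exact hω i)).symm
    · intro hk
      ext i
      simp only [Finset.restrict, cnt]
      rw [hk i]; rfl
  rw [e1]
  have e2 := h.law I.card (fun i => A (I.equivFin.symm i)) (fun i => k (I.equivFin.symm i))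
    (fun i => hA _) (fun i => hfin _) (fun i j hij => hd (by
      intro hc
      apply hij
      exact I.equivFin.symm.injective (Subtype.ext hc)))
  have e3 : {ω | ∀ i : Fin I.card, (N ω ∩ A (I.equivFin.symm i)).encard = k (I.equivFin.symm i)} =
      {ω | ∀ i : I, (N ω ∩ A i).encard = k i} := by
    ext ω
    simp only [Set.mem_ofPred_eq]
    constructor
    · intro hω i
      have := hω (I.equivFin i)
      simpa using this
    · intro hω i; exact hω _
  rw [e3] at e2
  rw [e2]
  exact Fintype.prod_equiv I.equivFin.symm _ _ (fun i => rfl)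

end MPdd5692
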