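import Mathlib
import Pool.Agent.Work.MP_dd5692_pr.Iface98

/-!
# W9a : free space-time set, motion lemma (helper98)
-/

open MeasureTheory ProbabilityTheory Set
open scoped ENNReal NNReal

namespace MPdd5692

/-- Local finiteness of a family of trajectories: only finitely many visit a ball during a bounded
time interval. -/
def LocFin (S : Set Traj) : Prop :=
  ∀ R t : ℕ, {ζ | ζ ∈ S ∧ ∃ s : ℝ≥0, s ≤ t ∧ ‖ζ.1 s‖ ≤ R}.Finite

/-- The free (undetected) space-time points. -/
def Free (r : ℝ) (S : Set Traj) : Set (ℝ≥0 × Plane) := {q | ∀ ζ ∈ S, r < dist q.2 (ζ.1 q.1)}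

lemma isOpen_Free {r : ℝ} {S : Set Traj} (hS : LocFin S) : IsOpen (Free r S) := by
  rw [isOpen_iff_mem_nhds]
  rintro ⟨s, y⟩ hq
  obtain ⟨R, hR⟩ := exists_nat_ge (‖y‖ + r + 2)
  obtain ⟨t, ht⟩ := exists_nat_ge (s + 1)
  have hfin := hS R t
  set S' := {ζ | ζ ∈ S ∧ ∃ s : ℝ≥0, s ≤ t ∧ ‖ζ.1 s‖ ≤ R} with hS'
  have h1 : ∀ᶠ q : ℝ≥0 × Plane in nhds (s, y), ∀ ζ ∈ S', r < dist q.2 (ζ.1 q.1) := by
    rw [Set.Finite.eventually_all hfin]
    intro ζ hζ
    have hc : Continuous (fun q : ℝ≥0 × Plane => dist q.2 (ζ.1 q.1)) :=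
      continuous_snd.dist (ζ.2.comp continuous_fst)
    exact hc.continuousAt.eventually_const_lt (hq ζ hζ.1)
  have h2 : ∀ᶠ q : ℝ≥0 × Plane in nhds (s, y), q.1 < s + 1 ∧ dist q.2 y < 1 := by
    have a1 : ∀ᶠ q : ℝ≥0 × Plane in nhds (s, y), q.1 < s + 1 :=
      continuous_fst.continuousAt.eventually_lt_const (by simp)
    have a2 : ∀ᶠ q : ℝ≥0 × Plane in nhds (s, y), dist q.2 y < 1 := by
      have : Continuous (fun q : ℝ≥0 × Plane => dist q.2 y) := continuous_snd.dist continuous_const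
      exact this.continuousAt.eventually_lt_const (by simp)
    exact a1.and a2
  filter_upwards [h1, h2] with q hq1 hq2
  intro ζ hζ
  by_cases hmem : ζ ∈ S'
  · exact hq1 ζ hmem
  · have h3 : (R : ℝ) < ‖ζ.1 q.1‖ := by
      by_contra hcon
      push Not at hcon
      exact hmem ⟨hζ, q.1, (hq2.1.le.trans ht), hcon⟩
    have h4 : ‖q.2‖ < ‖y‖ + 1 := by
      have := norm_le_norm_add_norm_sub' q.2 y
      rw [dist_eq_norm] at hq2
      linarith [hq2.2]
    have h5 : ‖ζ.1 q.1‖ - ‖q.2‖ ≤ dist q.2 (ζ.1 q.1) := by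
      rw [dist_comm, dist_eq_norm]
      exact norm_sub_norm_le _ _
    linarith

/-- The target can be at `p` at time `t`, undetected. -/
def Reach (r : ℝ) (S : Set Traj) (t : ℝ≥0) (p : Plane) : Prop :=
  ∃ h : ℝ≥0 → Plane, Continuous h ∧ h 0 = 0 ∧ (∀ s ≤ t, (s, h s) ∈ Free r S) ∧ h t = p

lemma Reach.escapes {r : ℝ} {S : Set Traj} {t : ℝ≥0} {p : Plane} (h : Reach r S t p) :
    Escapes r S t := by
  obtain ⟨h, hc, h0, hf, -⟩ := h
  exact ⟨h, hc, h0, fun s hs ζ hζ => hf s hs ζ hζ⟩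

/-- Motion lemma. -/
lemma Reach.step {r : ℝ} {S : Set Traj} (hS : LocFin S) {t t' : ℝ≥0} (htt' : t < t') {p q : Plane}
    (h : Reach r S t p) (hj : JoinedIn (vacant r S t) p q)
    (hw : ∀ s : ℝ≥0, t ≤ s → s ≤ t' → (s, q) ∈ Free r S) : Reach r S t' q := by
  obtain ⟨f, hf, f0, hfree, hft⟩ := h
  obtain ⟨γ, hγ⟩ := hj
  -- extend γ to all of ℝ
  have hopen := isOpen_Free (r := r) hS
  -- time during which the whole path stays free
  have hcov : ∀ u : unitInterval, ∀ᶠ s : ℝ≥0 in nhds t, ∀ᶠ u' in nhds u, (s, γ u') ∈ Free r S := by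
    intro u
    have h1 : (t, γ u) ∈ Free r S := fun ζ hζ => hγ u ζ hζ
    have hc : Continuous (fun q : ℝ≥0 × unitInterval => (q.1, γ q.2)) :=
      continuous_fst.prodMk (γ.continuous.comp continuous_snd)
    have h2 : ∀ᶠ q : ℝ≥0 × unitInterval in nhds (t, u), (q.1, γ q.2) ∈ Free r S :=
      hc.continuousAt.eventually (hopen.mem_nhds h1)
    rw [nhds_prod_eq] at h2
    exact h2.curry
  have hunif : ∀ᶠ s : ℝ≥0 in nhds t, ∀ u : unitInterval, (s, γ u) ∈ Free r S := by
    have hK : IsCompact (Set.univ : Set unitInterval) := isCompact_univ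
    have h3 : ∀ᶠ q : ℝ≥0 × unitInterval in nhds t ×ˢ nhdsSet (Set.univ : Set unitInterval),
        (q.1, γ q.2) ∈ Free r S := by
      rw [hK.prod_nhdsSet_eq_biSup]
      simp only [Set.mem_univ, iSup_pos, Filter.eventually_iSup]
      intro u
      have h1 : (t, γ u) ∈ Free r S := fun ζ hζ => hγ u ζ hζ
      have hc : Continuous (fun q : ℝ≥0 × unitInterval => (q.1, γ q.2)) :=
        continuous_fst.prodMk (γ.continuous.comp continuous_snd)
      have h2 : ∀ᶠ q : ℝ≥0 × unitInterval in nhds (t, u), (q.1, γ q.2) ∈ Free r S :=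
        hc.continuousAt.eventually (hopen.mem_nhds h1)
      rwa [nhds_prod_eq] at h2
    have h4 := h3.curry
    filter_upwards [h4] with s hs
    have := hs.self_of_nhdsSet
    simpa using this
  obtain ⟨ε, hε, hball⟩ := Metric.eventually_nhds_iff.1 hunif
  -- choose τ
  obtain ⟨τ, hτ0, hτt, hτε⟩ : ∃ τ : ℝ≥0, 0 < τ ∧ t + τ ≤ t' ∧ (τ : ℝ) < ε := by
    refine ⟨min (t' - t) (ε / 2).toNNReal, ?_, ?_, ?_⟩
    · exact lt_min (tsub_pos_of_lt htt') (by simpa using hε)
    · calc t + min (t' - t) (ε / 2).toNNReal ≤ t + (t' - t) := by gcongr; exact min_le_left _ _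
        _ = t' := by rw [add_tsub_cancel_of_le htt'.le]
    · calc ((min (t' - t) (ε / 2).toNNReal : ℝ≥0) : ℝ) ≤ ((ε / 2).toNNReal : ℝ) := by
            exact_mod_cast min_le_right _ _
        _ = ε / 2 := by rw [Real.coe_toNNReal _ (by positivity)]
        _ < ε := by linarith
  -- the new trajectory
  let g : ℝ≥0 → Plane := fun s => if s ≤ t then f s else γ.extend (((s : ℝ) - t) / τ)
  have hτ0' : (0 : ℝ) < τ := by exact_mod_cast hτ0
  refine ⟨g, ?_, ?_, ?_, ?_⟩
  · refine Continuous.if_le hf ?_ continuous_id continuous_const ?_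
    · exact γ.continuous_extend.comp (by fun_prop)
    · intro s hs
      subst hs
      simp [hft]
  · simp [g, f0]
  · intro s hs
    by_cases h1 : s ≤ t
    · simp only [g, if_pos h1]; exact hfree s h1
    · simp only [g, if_neg h1]
      push Not at h1
      by_cases h2 : s ≤ t + τ
      · have hd : dist s t < ε := by
          rw [NNReal.dist_eq]
          have e1 : (t : ℝ) < s := by exact_mod_cast h1
          have e2 : (s : ℝ) ≤ t + τ := by exact_mod_cast h2
          rw [abs_of_nonneg (by linarith)]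
          linarith
        have hmem := hball hd
        have hin : ((s : ℝ) - t) / τ ∈ unitInterval := by
          have e1 : (t : ℝ) < s := by exact_mod_cast h1
          have e2 : (s : ℝ) ≤ t + τ := by exact_mod_cast h2
          constructor
          · apply div_nonneg <;> linarith
          · rw [div_le_one hτ0']; linarith
        rw [_root_.Path.extend_apply _ hin]
        exact hmem ⟨_, hin⟩
      · push Not at h2
        have e2 : (t : ℝ) + τ < s := by exact_mod_cast h2
        have : (1 : ℝ) ≤ ((s : ℝ) - t) / τ := by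
          rw [le_div_iff₀ hτ0']; linarith
        rw [_root_.Path.extend_of_one_le _ this]
        exact hw s h1.le hs
  · have h1 : ¬ t' ≤ t := not_le.2 htt'
    simp only [g, if_neg h1]
    have e2 : (t : ℝ) + τ ≤ t' := by exact_mod_cast hτt
    have : (1 : ℝ) ≤ ((t' : ℝ) - t) / τ := by
      rw [le_div_iff₀ hτ0']; linarith
    rw [_root_.Path.extend_of_one_le _ this]

end MPdd5692
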