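import Mathlib
import Pool.Agent.Work.MP_dd5692_pr.W9a

/-!
# W6 : the sandwich between mesh vacancy and continuum vacancy (helper98)
-/

open MeasureTheory ProbabilityTheory Set
open scoped ENNReal NNReal

namespace MPdd5692

lemma mesh_pos (j : ℕ) : 0 < mesh j := by unfold mesh; positivity

/-- The index of the cell that contains `x`. -/
noncomputable def cellIdx (j : ℕ) (x : Plane) : Site := (round (x 0 / mesh j), round (x 1 / mesh j))

/-- The point of the plane represented by the site `z`. -/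
noncomputable def pt (j : ℕ) (z : Site) : Plane := !₂[mesh j * z.1, mesh j * z.2]

@[simp] lemma pt_zero' (j : ℕ) (z : Site) : pt j z 0 = mesh j * z.1 := by simp [pt]
@[simp] lemma pt_one' (j : ℕ) (z : Site) : pt j z 1 = mesh j * z.2 := by simp [pt]

lemma pt_origin (j : ℕ) : pt j 0 = 0 := by
  ext i; fin_cases i <;> simp [pt]

lemma mem_cell_iff (j : ℕ) (v : Site) (x : Plane) : x ∈ cell j v ↔ cellIdx j x = v := by
  have hk := mesh_pos j
  unfold cell cellIdx
  rw [Prod.ext_iff]
  simp only [Set.mem_ofPred_eq, round_eq, Int.floor_eq_iff]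
  rw [← sub_le_iff_le_add, ← lt_sub_iff_add_lt, ← sub_le_iff_le_add, ← lt_sub_iff_add_lt,
    le_div_iff₀ hk, div_lt_iff₀ hk, le_div_iff₀ hk, div_lt_iff₀ hk]
  have e1 : ((v.1 : ℝ) + 1 - 1 / 2) = v.1 + 1 / 2 := by ring
  have e2 : ((v.2 : ℝ) + 1 - 1 / 2) = v.2 + 1 / 2 := by ring
  rw [e1, e2]
  tauto

lemma mem_cell_cellIdx (j : ℕ) (x : Plane) : x ∈ cell j (cellIdx j x) :=
  (mem_cell_iff j _ x).2 rfl

lemma offd_nonneg (a : ℤ) : 0 ≤ offd a := le_max_right _ _

/-- one coordinate: `|x - z| ≥ offd (round x - z)`. -/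
lemma offd_le_abs (x : ℝ) (z : ℤ) : offd (round x - z) ≤ |x - z| := by
  unfold offd
  apply max_le
  · have h := abs_sub_round x
    have : |((round x - z : ℤ) : ℝ)| ≤ |x - z| + |x - round x| := by
      push_cast
      have e : (round x : ℝ) - z = (x - z) - (x - round x) := by ring
      rw [e]; exact abs_sub _ _
    linarith
  · exact abs_nonneg _

lemma abs_le_offd (x : ℝ) (z : ℤ) : |x - z| ≤ offd (round x - z) + 1 := by
  have h := abs_sub_round x
  have h1 : |x - z| ≤ |((round x - z : ℤ) : ℝ)| + |x - round x| := by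
    push_cast
    have e : x - z = ((round x : ℝ) - z) + (x - round x) := by ring
    rw [e]; exact abs_add_le _ _
  have h2 : |((round x - z : ℤ) : ℝ)| - 1 / 2 ≤ offd (round x - z) := le_max_left _ _
  linarith

lemma dist_pt (j : ℕ) (z : Site) (p : Plane) :
    dist (pt j z) p = mesh j * Real.sqrt ((p 0 / mesh j - z.1) ^ 2 + (p 1 / mesh j - z.2) ^ 2) := by
  have hk := mesh_pos j
  rw [EuclideanSpace.dist_eq]
  simp only [Fin.sum_univ_two, pt_zero', pt_one', Real.dist_eq, sq_abs]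
  have e1 : (mesh j * z.1 - p 0) ^ 2 + (mesh j * z.2 - p 1) ^ 2 =
      (mesh j) ^ 2 * ((p 0 / mesh j - z.1) ^ 2 + (p 1 / mesh j - z.2) ^ 2) := by
    field_simp
    ring
  rw [e1, Real.sqrt_mul (by positivity), Real.sqrt_sq hk.le]

/-- (S1) -/
lemma S1 {r : ℝ} (hr : 0 < r) {j : ℕ} {A : Set Plane} {z : Site}
    (hz : z ∈ vacSites (range r j) (cellIdx j '' A)) {p : Plane} (hp : p ∈ A) {y : Plane}
    (hy : dist y (pt j z) ≤ 3 * mesh j) : r < dist y p := by
  have hk := mesh_pos j
  have h1 := hz (cellIdx j p) ⟨p, hp, rfl⟩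
  have hρ : 0 < range r j := by unfold range; positivity
  simp only [offs, Set.mem_ofPred_eq, not_le] at h1
  have h2 : range r j < Real.sqrt ((p 0 / mesh j - z.1) ^ 2 + (p 1 / mesh j - z.2) ^ 2) := by
    apply Real.lt_sqrt_of_sq_lt
    refine h1.trans_le ?_
    have a1 := offd_le_abs (p 0 / mesh j) z.1
    have a2 := offd_le_abs (p 1 / mesh j) z.2
    have b1 := offd_nonneg (round (p 0 / mesh j) - z.1)
    have b2 := offd_nonneg (round (p 1 / mesh j) - z.2)
    have c1 := pow_le_pow_left₀ b1 a1 2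
    have c2 := pow_le_pow_left₀ b2 a2 2
    rw [sq_abs] at c1 c2
    simp only [cellIdx, Prod.fst_sub, Prod.snd_sub]
    linarith
  have h3 : r + 3 * mesh j < dist (pt j z) p := by
    rw [dist_pt]
    calc r + 3 * mesh j = mesh j * range r j := by unfold range; field_simp
      _ < _ := by gcongr
  have h4 := dist_triangle (pt j z) y p
  rw [dist_comm (pt j z) y] at h4
  linarith

/-- (S2) -/
lemma S2 {r : ℝ} (hr : 0 < r) {j : ℕ} {A : Set Plane} {z : Site}
    (h : ∀ p ∈ A, r + 5 * mesh j < dist (pt j z) p) :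
    z ∈ vacSites (range r j) (cellIdx j '' A) := by
  have hk := mesh_pos j
  rintro v ⟨p, hp, rfl⟩ hmem
  have h1 := h p hp
  simp only [offs, Set.mem_ofPred_eq, cellIdx, Prod.fst_sub, Prod.snd_sub] at hmem
  have hρ : 0 < range r j := by unfold range; positivity
  have a1 := abs_le_offd (p 0 / mesh j) z.1
  have a2 := abs_le_offd (p 1 / mesh j) z.2
  set u := offd (round (p 0 / mesh j) - z.1) with hu
  set w := offd (round (p 1 / mesh j) - z.2) with hw
  have b1 : (0 : ℝ) ≤ u := by rw [hu]; exact offd_nonneg _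
  have b2 : (0 : ℝ) ≤ w := by rw [hw]; exact offd_nonneg _
  have c1 := pow_le_pow_left₀ (abs_nonneg _) a1 2
  have c2 := pow_le_pow_left₀ (abs_nonneg _) a2 2
  rw [sq_abs] at c1 c2
  have h2 : Real.sqrt ((p 0 / mesh j - z.1) ^ 2 + (p 1 / mesh j - z.2) ^ 2) ≤ range r j + 2 := by
    rw [Real.sqrt_le_left (by positivity)]
    have d1 : u ≤ range r j := by nlinarith
    have d2 : w ≤ range r j := by nlinarith
    nlinarith
  have h3 : dist (pt j z) p ≤ r + 5 * mesh j := by
    rw [dist_pt]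
    calc mesh j * _ ≤ mesh j * (range r j + 2) := by gcongr
      _ = r + 5 * mesh j := by unfold range; field_simp; ring
  linarith

lemma dist_pt_pt (j : ℕ) (z w : Site) : dist (pt j z) (pt j w) = mesh j * siteNorm (z - w) := by
  have hk := mesh_pos j
  rw [dist_pt]
  simp only [pt_zero', pt_one', siteNorm]
  congr 2
  field_simp
  push_cast
  simp only [Prod.fst_sub, Prod.snd_sub]
  push_cast
  ring

lemma siteNorm_adj4 {z w : Site} (h : Adj4 z w) : siteNorm (z - w) = 1 := by
  unfold Adj4 at h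
  unfold siteNorm
  rw [Real.sqrt_eq_one]
  simp only [Prod.fst_sub, Prod.snd_sub]
  have h1 : (z.1 - w.1) ^ 2 + (z.2 - w.2) ^ 2 = 1 := by
    have e1 : (z.1 - w.1) ^ 2 = |z.1 - w.1| ^ 2 := (sq_abs _).symm
    have e2 : (z.2 - w.2) ^ 2 = |z.2 - w.2| ^ 2 := (sq_abs _).symm
    rw [e1, e2]
    have n1 := abs_nonneg (z.1 - w.1)
    have n2 := abs_nonneg (z.2 - w.2)
    have : |z.1 - w.1| = 0 ∧ |z.2 - w.2| = 1 ∨ |z.1 - w.1| = 1 ∧ |z.2 - w.2| = 0 := by omega
    rcases this with ⟨a, b⟩ | ⟨a, b⟩ <;> rw [a, b] <;> norm_num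
  exact_mod_cast h1

/-- the segment between two neighbouring vacant sites is in the vacant set -/
lemma segment_vacant {r : ℝ} (hr : 0 < r) {j : ℕ} {S : Set Traj} {t : ℝ≥0} {z w : Site}
    (hz : z ∈ vacSites (range r j) (cellIdx j '' ((fun ζ : Traj => ζ.1 t) '' S)))
    (hzw : Adj4 z w) : segment ℝ (pt j z) (pt j w) ⊆ vacant r S t := by
  have hk := mesh_pos j
  intro y hy ζ hζ
  refine S1 hr hz ⟨ζ, hζ, rfl⟩ ?_
  have h1 : dist y (pt j z) ≤ dist (pt j w) (pt j z) := by
    have : y ∈ Metric.closedBall (pt j z) (dist (pt j w) (pt j z)) := by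
      apply (convex_closedBall (pt j z) (dist (pt j w) (pt j z))).segment_subset _ _ hy
      · simp
      · simp
    simpa using this
  rw [dist_comm (pt j w), dist_pt_pt, siteNorm_adj4 hzw] at h1
  linarith

/-- linked vacant sites are joined in the vacant set -/
lemma joinedIn_of_linked {r : ℝ} (hr : 0 < r) {j : ℕ} {S : Set Traj} {t : ℝ≥0} {z w : Site}
    (h : Linked Adj4 (vacSites (range r j) (cellIdx j '' ((fun ζ : Traj => ζ.1 t) '' S))) z w) :
    JoinedIn (vacant r S t) (pt j z) (pt j w) := by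
  have hk := mesh_pos j
  obtain ⟨hz, hzw⟩ := h
  have hpt : ∀ u, u ∈ vacSites (range r j) (cellIdx j '' ((fun ζ : Traj => ζ.1 t) '' S)) →
      pt j u ∈ vacant r S t := by
    intro u hu ζ hζ
    exact S1 hr hu ⟨ζ, hζ, rfl⟩ (by simp [hk.le])
  have key : ∀ w, Relation.ReflTransGen (fun u v => Adj4 u v ∧
      v ∈ vacSites (range r j) (cellIdx j '' ((fun ζ : Traj => ζ.1 t) '' S))) z w →
      w ∈ vacSites (range r j) (cellIdx j '' ((fun ζ : Traj => ζ.1 t) '' S)) ∧
      JoinedIn (vacant r S t) (pt j z) (pt j w) := by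
    intro w hw
    induction hw with
    | refl => exact ⟨hz, JoinedIn.refl (hpt z hz)⟩
    | tail _ hab ih =>
      refine ⟨hab.2, ih.2.trans ?_⟩
      exact JoinedIn.of_segment_subset (segment_vacant hr ih.1 hab.1)
  exact (key w hzw).2

end MPdd5692
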