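import Mathlib
import Pool.Agent.Work.MP_dd5692_pr.W6
import Pool.Agent.Work.MP_dd5692_pr.Link98

/-!
# W7 : a continuum crossing gives mesh crossings for all fine meshes (helper98)
-/

open MeasureTheory ProbabilityTheory Set
open scoped ENNReal NNReal

namespace MPdd5692

/-- Local finiteness of a set of points of the plane. -/
def PtsLocFin (A : Set Plane) : Prop := ∀ R : ℕ, {p | p ∈ A ∧ ‖p‖ ≤ R}.Finite

/-- Points at distance `> r` from all the points of `A`. -/
def vacPts (r : ℝ) (A : Set Plane) : Set Plane := {y | ∀ p ∈ A, r < dist y p}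

lemma tendsto_mesh : Filter.Tendsto mesh Filter.atTop (nhds 0) := by
  unfold mesh
  exact tendsto_pow_atTop_nhds_zero_of_lt_one (by norm_num) (by norm_num)

/-- uniform margin along a path -/
lemma margin {r : ℝ} {A : Set Plane} (hA : PtsLocFin A) {γ : ℝ → Plane} (hγ : Continuous γ)
    (hv : ∀ u ∈ Set.Icc (0 : ℝ) 1, γ u ∈ vacPts r A) :
    ∃ ε > 0, ∀ u ∈ Set.Icc (0 : ℝ) 1, ∀ p ∈ A, r + ε ≤ dist (γ u) p := by
  have hK : IsCompact (Set.Icc (0 : ℝ) 1) := isCompact_Icc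
  obtain ⟨M, hM⟩ : ∃ M : ℝ, ∀ u ∈ Set.Icc (0 : ℝ) 1, ‖γ u‖ ≤ M := by
    obtain ⟨M, hM⟩ := hK.exists_bound_of_continuousOn (f := γ) hγ.continuousOn
    exact ⟨M, hM⟩
  obtain ⟨R, hR⟩ := exists_nat_ge (M + r + 1)
  have hfin := hA R
  have h1 : ∀ᶠ ε : ℝ in nhdsWithin 0 (Set.Ioi 0), ∀ p ∈ {p | p ∈ A ∧ ‖p‖ ≤ (R : ℝ)},
      ∀ u ∈ Set.Icc (0 : ℝ) 1, r + ε ≤ dist (γ u) p := by
    rw [Set.Finite.eventually_all hfin]
    intro p hp
    obtain ⟨u0, hu0, hmin⟩ := hK.exists_isMinOn (f := fun u => dist (γ u) p)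
      ⟨0, by simp⟩ (hγ.dist continuous_const).continuousOn
    have hlt : r < dist (γ u0) p := hv u0 hu0 p hp.1
    have : ∀ᶠ ε : ℝ in nhdsWithin 0 (Set.Ioi 0), ε < dist (γ u0) p - r := by
      apply Filter.Eventually.filter_mono nhdsWithin_le_nhds
      exact eventually_lt_nhds (by linarith)
    filter_upwards [this] with ε hε u hu
    have := hmin hu
    simp only [Set.mem_ofPred_eq] at this
    linarith
  have h2 : ∀ᶠ ε : ℝ in nhdsWithin 0 (Set.Ioi 0), ε < 1 := by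
    apply Filter.Eventually.filter_mono nhdsWithin_le_nhds
    exact eventually_lt_nhds (by norm_num)
  have h3 : ∀ᶠ ε : ℝ in nhdsWithin 0 (Set.Ioi 0), 0 < ε := eventually_mem_nhdsWithin
  obtain ⟨ε, ⟨h1, h2⟩, h3⟩ := ((h1.and h2).and h3).exists
  refine ⟨ε, h3, fun u hu p hp => ?_⟩
  by_cases hpR : ‖p‖ ≤ R
  · exact h1 p ⟨hp, hpR⟩ u hu
  · push Not at hpR
    have := hM u hu
    have h4 : ‖p‖ - ‖γ u‖ ≤ dist (γ u) p := by
      rw [dist_comm, dist_eq_norm]; exact norm_sub_norm_le _ _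
    linarith

lemma abs_coord_sub_le (x y : Plane) (i : Fin 2) : |x i - y i| ≤ dist x y := by
  rw [dist_eq_norm]
  have := PiLp.norm_apply_le (x - y) i
  simpa using this

lemma abs_round_sub_round_le {x y : ℝ} (h : |x - y| < 1) : |round x - round y| ≤ 1 := by
  have h1 := abs_sub_round x
  have h2 := abs_sub_round y
  have h3 : (|round x - round y| : ℝ) < 2 := by
    have e : ((round x : ℝ) - round y) = (x - y) - (x - round x) + (y - round y) := by ring
    rw [e]
    calc _ ≤ |x - y - (x - round x)| + |y - round y| := abs_add_le _ _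
      _ ≤ |x - y| + |x - round x| + |y - round y| := by gcongr; exact abs_sub _ _
      _ < _ := by linarith
  have h4 : |round x - round y| < 2 := by exact_mod_cast h3
  omega

lemma le_round_of_le {a : ℤ} {x : ℝ} (h : (a : ℝ) ≤ x) : a ≤ round x := by
  rw [round_eq, Int.le_floor]; linarith

lemma round_le_of_le {a : ℤ} {x : ℝ} (h : x ≤ (a : ℝ)) : round x ≤ a := by
  rw [round_eq]
  have : ⌊x + 1 / 2⌋ < a + 1 := by rw [Int.floor_lt]; push_cast; linarith
  omega

theorem discrete_crossing {r : ℝ} (hr : 0 < r) {A : Set Plane} (hA : PtsLocFin A) {γ : ℝ → Plane}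
    (hγ : Continuous γ) (hv : ∀ u ∈ Set.Icc (0 : ℝ) 1, γ u ∈ vacPts r A) {a b c d : ℝ}
    (hbox : ∀ u ∈ Set.Icc (0 : ℝ) 1, a ≤ γ u 0 ∧ γ u 0 ≤ b ∧ c ≤ γ u 1 ∧ γ u 1 ≤ d)
    (h0 : γ 0 0 = a) (h1 : γ 1 0 = b) :
    ∃ j₀ : ℕ, ∀ j ≥ j₀, ∀ a' b' c' d' : ℤ, mesh j * a' = a → mesh j * b' = b →
      mesh j * c' = c → mesh j * d' = d → ∃ x y : Site, x.1 = a' ∧ y.1 = b' ∧
      Linked Adj4 (vacSites (range r j) (cellIdx j '' A) ∩
        {z | a' ≤ z.1 ∧ z.1 ≤ b' ∧ c' ≤ z.2 ∧ z.2 ≤ d'}) x y := by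
  obtain ⟨ε, hε, hmar⟩ := margin hA hγ hv
  have hev : ∀ᶠ j in Filter.atTop, mesh j < ε / 7 := tendsto_mesh.eventually_lt_const (by positivity)
  obtain ⟨j₀, hj₀⟩ := Filter.eventually_atTop.1 hev
  refine ⟨j₀, fun j hj a' b' c' d' ha' hb' hc' hd' => ?_⟩
  have hκ := hj₀ j hj
  have hk := mesh_pos j
  -- uniform continuity
  have huc : UniformContinuousOn γ (Set.Icc 0 1) :=
    isCompact_Icc.uniformContinuousOn_of_continuous hγ.continuousOn
  rw [Metric.uniformContinuousOn_iff] at huc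
  obtain ⟨δ, hδ, hδ'⟩ := huc (mesh j) hk
  obtain ⟨N, hN⟩ := exists_nat_gt (1 / δ)
  have hN0 : 0 < N := by
    rcases Nat.eq_zero_or_pos N with h | h
    · exfalso
      rw [h] at hN
      have : 0 < 1 / δ := by positivity
      simp at hN
      linarith
    · exact h
  have hN0' : (0 : ℝ) < N := by exact_mod_cast hN0
  let u : ℕ → ℝ := fun i => (i : ℝ) / N
  have hu : ∀ i ≤ N, u i ∈ Set.Icc (0 : ℝ) 1 := by
    intro i hi
    refine ⟨by positivity, ?_⟩
    rw [div_le_one hN0']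
    exact_mod_cast hi
  have hud : ∀ i < N, dist (γ (u i)) (γ (u (i + 1))) < mesh j := by
    intro i hi
    apply hδ' _ (hu i hi.le) _ (hu (i + 1) (by omega))
    rw [Real.dist_eq]
    have : u i - u (i + 1) = -(1 / N) := by
      simp only [u]; push_cast; field_simp; ring
    rw [this, abs_neg, abs_of_pos (by positivity)]
    rw [div_lt_iff₀ hN0']
    rw [div_lt_iff₀ hδ] at hN
    linarith
  let f : ℕ → Site := fun i => (round (γ (u i) 0 / mesh j), round (γ (u i) 1 / mesh j))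
  set V := vacSites (range r j) (cellIdx j '' A) ∩
        {z | a' ≤ z.1 ∧ z.1 ≤ b' ∧ c' ≤ z.2 ∧ z.2 ≤ d'} with hV
  have hr0 : ∀ x : ℝ, |mesh j * (round (x / mesh j) : ℝ) - x| ≤ mesh j / 2 := by
    intro x
    have := abs_sub_round (x / mesh j)
    have e : mesh j * (round (x / mesh j) : ℝ) - x = -(mesh j * (x / mesh j - round (x / mesh j))) := by
      field_simp; ring
    rw [e, abs_neg, abs_mul, abs_of_pos hk]
    calc _ ≤ mesh j * (1 / 2) := by gcongr
      _ = _ := by ring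
  have hdiff : ∀ i < N, |(f i).1 - (f (i + 1)).1| ≤ 1 ∧ |(f i).2 - (f (i + 1)).2| ≤ 1 := by
    intro i hi
    have h2 := hud i hi
    have q0 := (abs_coord_sub_le (γ (u i)) (γ (u (i + 1))) 0).trans_lt h2
    have q1 := (abs_coord_sub_le (γ (u i)) (γ (u (i + 1))) 1).trans_lt h2
    constructor
    · apply abs_round_sub_round_le
      rw [← sub_div, abs_div, abs_of_pos hk, div_lt_one hk]; exact q0
    · apply abs_round_sub_round_le
      rw [← sub_div, abs_div, abs_of_pos hk, div_lt_one hk]; exact q1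
  have hrange : ∀ i ≤ N, a' ≤ (f i).1 ∧ (f i).1 ≤ b' ∧ c' ≤ (f i).2 ∧ (f i).2 ≤ d' := by
    intro i hi
    obtain ⟨q1, q2, q3, q4⟩ := hbox _ (hu i hi)
    refine ⟨?_, ?_, ?_, ?_⟩
    · apply le_round_of_le; rw [le_div_iff₀ hk, mul_comm, ha']; exact q1
    · apply round_le_of_le; rw [div_le_iff₀ hk, mul_comm (b' : ℝ), hb']; exact q2
    · apply le_round_of_le; rw [le_div_iff₀ hk, mul_comm, hc']; exact q3
    · apply round_le_of_le; rw [div_le_iff₀ hk, mul_comm (d' : ℝ), hd']; exact q4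
  have hvac : ∀ i ≤ N, ∀ z : Site, |mesh j * z.1 - γ (u i) 0| ≤ 3 / 2 * mesh j →
      |mesh j * z.2 - γ (u i) 1| ≤ mesh j / 2 → z ∈ vacSites (range r j) (cellIdx j '' A) := by
    intro i hi z hz1 hz2
    apply S2 hr
    intro p hp
    have h3 := hmar _ (hu i hi) p hp
    have h4 : dist (pt j z) (γ (u i)) ≤ 2 * mesh j := by
      rw [EuclideanSpace.dist_eq]
      simp only [Fin.sum_univ_two, pt_zero', pt_one', Real.dist_eq]
      rw [Real.sqrt_le_left (by positivity)]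
      have c1 := pow_le_pow_left₀ (abs_nonneg _) hz1 2
      have c2 := pow_le_pow_left₀ (abs_nonneg _) hz2 2
      nlinarith
    have h5 := dist_triangle (γ (u i)) (pt j z) p
    rw [dist_comm (γ (u i)) (pt j z)] at h5
    linarith
  have hmem : ∀ i ≤ N, f i ∈ V := by
    intro i hi
    refine ⟨hvac i hi _ ?_ ?_, hrange i hi⟩
    · exact (hr0 _).trans (by linarith)
    · exact hr0 _
  have hmid : ∀ i < N, ((f (i + 1)).1, (f i).2) ∈ V := by
    intro i hi
    obtain ⟨q1, q2, -, -⟩ := hrange (i + 1) (by omega)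
    obtain ⟨-, -, q3, q4⟩ := hrange i hi.le
    refine ⟨hvac i hi.le _ ?_ ?_, q1, q2, q3, q4⟩
    · have w1 := hr0 (γ (u (i + 1)) 0)
      have w2 := (abs_coord_sub_le (γ (u i)) (γ (u (i + 1))) 0).trans (hud i hi).le
      simp only [f]
      have e : mesh j * (round (γ (u (i + 1)) 0 / mesh j) : ℝ) - γ (u i) 0 =
          (mesh j * (round (γ (u (i + 1)) 0 / mesh j) : ℝ) - γ (u (i + 1)) 0) -
          (γ (u i) 0 - γ (u (i + 1)) 0) := by ring
      rw [e]
      refine (abs_sub _ _).trans ?_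
      linarith
    · exact hr0 _
  have hlink := linked_of_chain (S := V) N f hmem hmid hdiff
  refine ⟨f 0, f N, ?_, ?_, hlink⟩
  · have : u 0 = 0 := by simp [u]
    simp only [f, this, h0]
    rw [← ha']
    rw [mul_div_cancel_left₀ _ hk.ne']
    exact round_intCast a'
  · have : u N = 1 := by simp only [u]; field_simp
    simp only [f, this, h1]
    rw [← hb']
    rw [mul_div_cancel_left₀ _ hk.ne']
    exact round_intCast b'

end MPdd5692
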