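import Mathlib
import Pool.Agent.Work.MP_dd5692_pr.W7

/-!
# W8 : an unbounded component of the vacant set crosses large rectangles (helper98)
-/

open MeasureTheory ProbabilityTheory Set
open scoped ENNReal NNReal

namespace MPdd5692

lemma last_exit {f : ℝ → ℝ} (hf : Continuous f) {a b c : ℝ} (hab : a ≤ b) (ha : f a ≤ c)
    (hb : c ≤ f b) : ∃ t ∈ Set.Icc a b, f t = c ∧ ∀ u ∈ Set.Icc t b, c ≤ f u := by
  set K := {u | u ∈ Set.Icc a b ∧ f u ≤ c} with hK
  have hKc : IsCompact K :=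
    isCompact_Icc.inter_right (isClosed_le hf continuous_const)
  have hne : K.Nonempty := ⟨a, ⟨⟨le_rfl, hab⟩, ha⟩⟩
  have ht := hKc.sSup_mem hne
  set t := sSup K with htdef
  have hub : ∀ u ∈ K, u ≤ t := fun u hu => le_csSup hKc.bddAbove hu
  have hft : c ≤ f t := by
    by_contra hcon
    push Not at hcon
    have h1 := intermediate_value_Icc ht.1.2 hf.continuousOn (f := f)
    obtain ⟨t', ht', he⟩ := h1 ⟨hcon.le, hb⟩
    have h2 : t' ∈ K := ⟨⟨ht.1.1.trans ht'.1, ht'.2⟩, he.le⟩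
    have h3 := hub t' h2
    have h4 : t' = t := le_antisymm h3 ht'.1
    rw [h4] at he
    linarith
  refine ⟨t, ht.1, le_antisymm ht.2 hft, fun u hu => ?_⟩
  rcases eq_or_lt_of_le hu.1 with h | h
  · rw [← h]; exact hft
  · by_contra hcon
    push Not at hcon
    have := hub u ⟨⟨ht.1.1.trans hu.1, hu.2⟩, hcon.le⟩
    linarith

lemma first_entry {f : ℝ → ℝ} (hf : Continuous f) {a b c : ℝ} (hab : a ≤ b) (ha : f a ≤ c)
    (hb : c ≤ f b) : ∃ t ∈ Set.Icc a b, f t = c ∧ ∀ u ∈ Set.Icc a t, f u ≤ c := by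
  have hg : Continuous (fun u => - f (-u)) := by fun_prop
  obtain ⟨t, ht, h1, h2⟩ := last_exit hg (a := -b) (b := -a) (c := -c) (by linarith)
    (by simp [hb]) (by simp [ha])
  refine ⟨-t, ⟨by linarith [ht.2], by linarith [ht.1]⟩, by linarith, fun u hu => ?_⟩
  have := h2 (-u) ⟨by linarith [hu.2], by linarith [hu.1]⟩
  rw [neg_neg] at this
  linarith

/-- the four symmetries used to turn the exit side to the right -/
noncomputable def sgm : Fin 4 → Plane → Plane
  | 0 => fun x => x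
  | 1 => fun x => !₂[-x 0, x 1]
  | 2 => fun x => !₂[x 1, x 0]
  | 3 => fun x => !₂[-x 1, x 0]

lemma sgm_dist (i : Fin 4) (x y : Plane) : dist (sgm i x) (sgm i y) = dist x y := by
  rw [EuclideanSpace.dist_eq, EuclideanSpace.dist_eq]
  congr 1
  simp only [Fin.sum_univ_two, Real.dist_eq, sq_abs]
  fin_cases i <;> simp [sgm] <;> ring

lemma sgm_isometry (i : Fin 4) : Isometry (sgm i) := Isometry.of_dist_eq (sgm_dist i)

lemma sgm_continuous (i : Fin 4) : Continuous (sgm i) := (sgm_isometry i).continuous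

lemma isOpen_vacPts {r : ℝ} {A : Set Plane} (hA : PtsLocFin A) : IsOpen (vacPts r A) := by
  rw [isOpen_iff_mem_nhds]
  intro y hy
  obtain ⟨R, hR⟩ := exists_nat_ge (‖y‖ + r + 2)
  have hfin := hA R
  have h1 : ∀ᶠ q : Plane in nhds y, ∀ p ∈ {p | p ∈ A ∧ ‖p‖ ≤ (R : ℝ)}, r < dist q p := by
    rw [Set.Finite.eventually_all hfin]
    intro p hp
    have hc : Continuous (fun q : Plane => dist q p) := continuous_id.dist continuous_const
    exact hc.continuousAt.eventually_const_lt (hy p hp.1)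
  have h2 : ∀ᶠ q : Plane in nhds y, dist q y < 1 := by
    have : Continuous (fun q : Plane => dist q y) := continuous_id.dist continuous_const
    exact this.continuousAt.eventually_lt_const (by simp)
  filter_upwards [h1, h2] with q hq1 hq2
  intro p hp
  by_cases hpR : ‖p‖ ≤ R
  · exact hq1 p ⟨hp, hpR⟩
  · push Not at hpR
    have h4 : ‖q‖ < ‖y‖ + 1 := by
      have := norm_le_norm_add_norm_sub' q y
      rw [dist_eq_norm] at hq2
      linarith
    have h5 : ‖p‖ - ‖q‖ ≤ dist q p := by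
      rw [dist_comm, dist_eq_norm]; exact norm_sub_norm_le _ _
    linarith

/-- An unbounded component crosses, after one of the four symmetries, the rectangle
`[n,3n] × [-3n,3n]`. -/
theorem component_crossing {r : ℝ} {A : Set Plane} (hA : PtsLocFin A) {y : Plane}
    (hy : y ∈ vacPts r A) (hunb : ¬ Bornology.IsBounded (connectedComponentIn (vacPts r A) y))
    {n : ℝ} (hn : 0 < n) (hyn : ‖y‖ ≤ n) :
    ∃ i : Fin 4, ∃ γ : ℝ → Plane, Continuous γ ∧
      (∀ u ∈ Set.Icc (0 : ℝ) 1, γ u ∈ vacPts r (sgm i '' A)) ∧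
      (∀ u ∈ Set.Icc (0 : ℝ) 1, n ≤ γ u 0 ∧ γ u 0 ≤ 3 * n ∧ -(3 * n) ≤ γ u 1 ∧ γ u 1 ≤ 3 * n) ∧
      γ 0 0 = n ∧ γ 1 0 = 3 * n := by
  have hopen := isOpen_vacPts (r := r) hA
  set C := connectedComponentIn (vacPts r A) y with hC
  have hCo : IsOpen C := hopen.connectedComponentIn
  have hCc : IsConnected C := isConnected_connectedComponentIn_iff.2 hy
  have hCp : IsPathConnected C := (hCo.isConnected_iff_isPathConnected).1 hCc
  have hyC : y ∈ C := mem_connectedComponentIn hy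
  -- a far point
  obtain ⟨y', hy'C, hy'⟩ : ∃ y' ∈ C, 3 * n ≤ max |y' 0| |y' 1| := by
    by_contra hcon
    push Not at hcon
    apply hunb
    rw [isBounded_iff_forall_norm_le]
    refine ⟨3 * n * 2, fun x hx => ?_⟩
    have h1 := hcon x hx
    rw [max_lt_iff] at h1
    rw [EuclideanSpace.norm_eq, Real.sqrt_le_left (by positivity)]
    simp only [Fin.sum_univ_two, Real.norm_eq_abs]
    have c1 := pow_le_pow_left₀ (abs_nonneg _) h1.1.le 2
    have c2 := pow_le_pow_left₀ (abs_nonneg _) h1.2.le 2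
    nlinarith
  obtain ⟨γ₀, hγ₀⟩ := hCp.joinedIn y hyC y' hy'C
  have hCV : C ⊆ vacPts r A := connectedComponentIn_subset _ _
  let γ₁ : ℝ → Plane := γ₀.extend
  have hγ₁c : Continuous γ₁ := γ₀.continuous_extend
  have hγ₁V : ∀ u, γ₁ u ∈ vacPts r A := by
    intro u
    have : γ₁ u ∈ Set.range γ₁ := ⟨u, rfl⟩
    rw [show Set.range γ₁ = Set.range γ₀ from γ₀.extend_range] at this
    obtain ⟨v, hv⟩ := this
    rw [← hv]
    exact hCV (hγ₀ v)
  have h10 : γ₁ 0 = y := γ₀.extend_zero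
  have h11 : γ₁ 1 = y' := γ₀.extend_one
  have hcoord : ∀ i : Fin 2, Continuous (fun u => γ₁ u i) := by
    intro i; fun_prop
  have hgc : Continuous (fun u => max |γ₁ u 0| |γ₁ u 1|) := by
    have h0 := hcoord 0
    have h1 := hcoord 1
    fun_prop
  have hycoord : ∀ i : Fin 2, |y i| ≤ n := by
    intro i
    have := PiLp.norm_apply_le y i
    rw [Real.norm_eq_abs] at this
    exact this.trans hyn
  obtain ⟨t1, ht1, hg1, hle⟩ := first_entry hgc (a := 0) (b := 1) (c := 3 * n) zero_le_one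
    (by
      simp only [h10]
      exact max_le ((hycoord 0).trans (by linarith)) ((hycoord 1).trans (by linarith)))
    (by simp only [h11]; exact hy')
  -- the symmetry
  obtain ⟨i, hi⟩ : ∃ i : Fin 4, sgm i (γ₁ t1) 0 = 3 * n := by
    rcases max_choice |γ₁ t1 0| |γ₁ t1 1| with h | h
    · rw [h] at hg1
      rcases abs_eq (by positivity : (0 : ℝ) ≤ 3 * n) |>.1 hg1 with h' | h'
      · exact ⟨0, by simp [sgm, h']⟩
      · exact ⟨1, by simp [sgm, h']⟩
    · rw [h] at hg1
      rcases abs_eq (by positivity : (0 : ℝ) ≤ 3 * n) |>.1 hg1 with h' | h'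
      · exact ⟨2, by simp [sgm, h']⟩
      · exact ⟨3, by simp [sgm, h']⟩
  have habs : ∀ x : Plane, |sgm i x 0| ≤ max |x 0| |x 1| ∧ |sgm i x 1| ≤ max |x 0| |x 1| := by
    intro x
    fin_cases i <;> simp [sgm]
  have hsc : Continuous (fun u => sgm i (γ₁ u)) := (sgm_continuous i).comp hγ₁c
  have hsc0 : Continuous (fun u => sgm i (γ₁ u) 0) := by fun_prop
  obtain ⟨t0, ht0, he0, hge⟩ := last_exit hsc0 (a := 0) (b := t1) (c := n) ht1.1
    (by
      simp only [h10]
      exact (le_abs_self _).trans (((habs y).1).trans (max_le (hycoord 0) (hycoord 1))))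
    (by simp only [hi]; linarith)
  refine ⟨i, fun u => sgm i (γ₁ (t0 + u * (t1 - t0))), ?_, ?_, ?_, ?_, ?_⟩
  · exact hsc.comp (by fun_prop)
  · rintro u hu _ ⟨p, hp, rfl⟩
    rw [sgm_dist]
    exact hγ₁V _ p hp
  · intro u hu
    have hin : t0 + u * (t1 - t0) ∈ Set.Icc t0 t1 := by
      have : 0 ≤ t1 - t0 := by linarith [ht0.2]
      constructor
      · nlinarith [hu.1]
      · nlinarith [hu.2]
    have h1 := hge _ hin
    have h2 := hle (t0 + u * (t1 - t0)) ⟨ht0.1.trans hin.1, hin.2⟩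
    have h3 := habs (γ₁ (t0 + u * (t1 - t0)))
    have h4 := abs_le.1 (h3.1.trans h2)
    have h5 := abs_le.1 (h3.2.trans h2)
    exact ⟨h1, h4.2, h5.1, h5.2⟩
  · simp only [zero_mul, add_zero]; exact he0
  · simp only [one_mul, add_sub_cancel]; exact hi

end MPdd5692
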