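import Mathlib
import Pool.Agent.Work.MP_dd5692_pr.W1
import Pool.Agent.Work.MP_dd5692_pr.W8

/-!
# W2 : one time marginals of the node process, the static law (helper98)
-/

open MeasureTheory ProbabilityTheory Set
open scoped ENNReal NNReal

namespace MPdd5692

lemma IsWiener.isProbabilityMeasure {W : Measure Traj} (hW : IsWiener W) :
    IsProbabilityMeasure W := (hW.coord 0).isGaussianProcess.isProbabilityMeasure

lemma measurable_eval (t : ℝ≥0) : Measurable (fun ζ : Traj => ζ.1 t) :=
  (measurable_pi_apply t).comp measurable_subtype_coe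

lemma measurable_shift : Measurable shift := by
  unfold shift
  apply Measurable.subtype_mk
  rw [measurable_pi_iff]
  intro t
  exact measurable_fst.add ((measurable_eval t).comp measurable_snd)

lemma nodeIntensity_apply (W : Measure Traj) (l : ℝ≥0) {A : Set Traj} (hA : MeasurableSet A) :
    nodeIntensity W l A = l * ((volume : Measure Plane).prod W) (shift ⁻¹' A) := by
  unfold nodeIntensity
  rw [Measure.smul_apply, Measure.map_apply measurable_shift hA, smul_eq_mul]

theorem nodeIntensity_eval (W : Measure Traj) [IsProbabilityMeasure W] (l t : ℝ≥0)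
    {σ : Plane → Plane} (hσ : MeasurePreserving σ volume volume) {B : Set Plane}
    (hB : MeasurableSet B) :
    nodeIntensity W l {ζ | σ (ζ.1 t) ∈ B} = l * volume B := by
  have hm : MeasurableSet {ζ : Traj | σ (ζ.1 t) ∈ B} :=
    (hσ.measurable.comp (measurable_eval t)) hB
  rw [nodeIntensity_apply W l hm, Measure.prod_apply_symm (measurable_shift hm)]
  congr 1
  have : ∀ w : Traj, volume ((fun x : Plane => (x, w)) ⁻¹' (shift ⁻¹' {ζ | σ (ζ.1 t) ∈ B})) =
      volume B := by
    intro w
    have e : ((fun x : Plane => (x, w)) ⁻¹' (shift ⁻¹' {ζ | σ (ζ.1 t) ∈ B})) =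
        (fun x => x + w.1 t) ⁻¹' (σ ⁻¹' B) := by
      ext x; simp [shift]
    rw [e, measure_preimage_add_right, hσ.measure_preimage hB.nullMeasurableSet]
  rw [lintegral_congr this, lintegral_const, measure_univ, mul_one]

/-- the symmetries are linear isometries -/
noncomputable def sgmL (i : Fin 4) : Plane →ₗᵢ[ℝ] Plane where
  toFun := sgm i
  map_add' x y := by
    ext k; fin_cases i <;> fin_cases k <;> simp [sgm] <;> ring
  map_smul' c x := by
    ext k; fin_cases i <;> fin_cases k <;> simp [sgm]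
  norm_map' x := by
    have h0 : sgm i 0 = 0 := by
      ext k; fin_cases i <;> fin_cases k <;> simp [sgm]
    have := sgm_dist i x 0
    rw [h0, dist_zero_right, dist_zero_right] at this
    exact this

lemma sgm_measurePreserving (i : Fin 4) :
    MeasurePreserving (sgm i) (volume : Measure Plane) volume := by
  have h := ((sgmL i).toLinearIsometryEquiv rfl).measurePreserving
  exact h

lemma measurableSet_cell (j : ℕ) (v : Site) : MeasurableSet (cell j v) := by
  have h0 : Measurable (fun x : Plane => x 0) := (by fun_prop : Continuous fun x : Plane => x 0).measurable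
  have h1 : Measurable (fun x : Plane => x 1) := (by fun_prop : Continuous fun x : Plane => x 1).measurable
  have : cell j v = {x : Plane | (v.1 - 1 / 2 : ℝ) * mesh j ≤ x 0} ∩
      {x : Plane | x 0 < (v.1 + 1 / 2 : ℝ) * mesh j} ∩
      ({x : Plane | (v.2 - 1 / 2 : ℝ) * mesh j ≤ x 1} ∩
      {x : Plane | x 1 < (v.2 + 1 / 2 : ℝ) * mesh j}) := by
    ext x; simp only [cell, Set.mem_ofPred_eq, Set.mem_inter_iff]; tauto
  rw [this]
  exact ((measurableSet_le measurable_const h0).inter (measurableSet_lt h0 measurable_const)).inter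
    ((measurableSet_le measurable_const h1).inter (measurableSet_lt h1 measurable_const))

lemma volume_cell (j : ℕ) (v : Site) : (volume : Measure Plane) (cell j v) = ((1 / 4 : ℝ≥0) ^ j : ℝ≥0) := by
  have hk := mesh_pos j
  have e : cell j v = (MeasurableEquiv.toLp 2 (Fin 2 → ℝ)).symm ⁻¹'
      (Set.pi Set.univ (fun i : Fin 2 => Set.Ico
        (((![v.1, v.2] i : ℤ) : ℝ) * mesh j - mesh j / 2) (((![v.1, v.2] i : ℤ) : ℝ) * mesh j + mesh j / 2))) := by
    ext x
    simp only [cell, Set.mem_ofPred_eq, Set.mem_preimage, Set.mem_pi, Set.mem_univ, forall_true_left,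
      Fin.forall_fin_two, Set.mem_Ico]
    simp only [MeasurableEquiv.toLp_symm_apply]
    have a1 : (v.1 - 1 / 2 : ℝ) * mesh j = v.1 * mesh j - mesh j / 2 := by ring
    have a2 : (v.1 + 1 / 2 : ℝ) * mesh j = v.1 * mesh j + mesh j / 2 := by ring
    have a3 : (v.2 - 1 / 2 : ℝ) * mesh j = v.2 * mesh j - mesh j / 2 := by ring
    have a4 : (v.2 + 1 / 2 : ℝ) * mesh j = v.2 * mesh j + mesh j / 2 := by ring
    rw [a1, a2, a3, a4]
    simp only [Matrix.cons_val_zero, Matrix.cons_val_one]
    tauto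
  have hmp : MeasurePreserving (MeasurableEquiv.toLp 2 (Fin 2 → ℝ)).symm :=
    (EuclideanSpace.volume_preserving_symm_measurableEquiv_toLp (Fin 2))
  rw [e, hmp.measure_preimage (MeasurableSet.univ_pi fun i => measurableSet_Ico).nullMeasurableSet,
    Real.volume_pi_Ico]
  simp only [Fin.prod_univ_two]
  have e2 : ∀ i : Fin 2, (((![v.1, v.2] i : ℤ) : ℝ) * mesh j + mesh j / 2) -
      (((![v.1, v.2] i : ℤ) : ℝ) * mesh j - mesh j / 2) = mesh j := by intro i; ring
  rw [e2, e2, ← ENNReal.ofReal_mul hk.le]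
  have e3 : mesh j * mesh j = ((1 / 4 : ℝ≥0) ^ j : ℝ≥0) := by
    unfold mesh
    rw [← mul_pow]
    push_cast
    norm_num
  rw [e3, ENNReal.ofReal_coe_nnreal]

/-- the set of trajectories that are in the cell `v` at time `t`, after the symmetry `sgm i` -/
def inCell (i : Fin 4) (j : ℕ) (t : ℝ≥0) (v : Site) : Set Traj := {ζ | sgm i (ζ.1 t) ∈ cell j v}

lemma measurableSet_inCell (i : Fin 4) (j : ℕ) (t : ℝ≥0) (v : Site) :
    MeasurableSet (inCell i j t v) :=
  ((sgm_measurePreserving i).measurable.comp (measurable_eval t)) (measurableSet_cell j v)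

lemma disjoint_inCell (i : Fin 4) (j : ℕ) (t : ℝ≥0) :
    Pairwise fun v w => Disjoint (inCell i j t v) (inCell i j t w) := by
  intro v w hvw
  rw [Set.disjoint_left]
  intro ζ hv hw
  exact hvw (((mem_cell_iff j v _).1 hv).symm.trans ((mem_cell_iff j w _).1 hw))

variable {Ω : Type*} [MeasurableSpace Ω] {W : Measure Traj} {P : Measure Ω} {l : ℝ≥0}
  {N : Ω → Set Traj}

/-- numbers of particles in the cells -/
noncomputable def cellCnt (N : Ω → Set Traj) (i : Fin 4) (j : ℕ) (t : ℝ≥0) (ω : Ω) : Site → ℕ :=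
  fun v => cnt N (inCell i j t v) ω

/-- the static law -/
theorem map_cellCnt (hW : IsWiener W) (hN : IsNodeProcess W P l N) (i : Fin 4) (j : ℕ) (t : ℝ≥0) :
    P.map (cellCnt N i j t) = stat l j := by
  have := hW.isProbabilityMeasure
  have h1 : ∀ v, nodeIntensity W l (inCell i j t v) = ((l * (1 / 4) ^ j : ℝ≥0) : ℝ≥0∞) := by
    intro v
    have := nodeIntensity_eval W l t (sgm_measurePreserving i) (measurableSet_cell j v)
    unfold inCell
    rw [this, volume_cell]
    push_cast; rfl
  have h2 := IsPoissonProcess.map_cnt hN (ι := Site) (inCell i j t)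
    (measurableSet_inCell i j t) (fun v => by rw [h1]; exact ENNReal.coe_lt_top)
    (disjoint_inCell i j t)
  unfold cellCnt stat
  rw [h2]
  unfold prodPoisson
  congr 1
  ext1 v
  show poissonMeasure ((nodeIntensity W l) (inCell i j t v)).toNNReal = _
  rw [h1, ENNReal.toNNReal_coe]

lemma measurable_cellCnt (hN : IsNodeProcess W P l N) (i : Fin 4) (j : ℕ) (t : ℝ≥0) :
    Measurable (cellCnt N i j t) :=
  measurable_pi_iff.2 fun v => IsPoissonProcess.measurable_cnt hN (measurableSet_inCell i j t v)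

/-- positions at time `t` -/
def posAt (S : Set Traj) (t : ℝ≥0) : Set Plane := (fun ζ : Traj => ζ.1 t) '' S

omit [MeasurableSpace Ω] in
lemma occ_cellCnt {i : Fin 4} {j : ℕ} {t : ℝ≥0} {ω : Ω}
    (hfin : ∀ v, (N ω ∩ inCell i j t v).Finite) :
    occ (cellCnt N i j t ω) = cellIdx j '' (sgm i '' (posAt (N ω) t)) := by
  ext v
  simp only [occ, cellCnt, cnt, Set.mem_ofPred_eq, Set.mem_image]
  have h1 : (N ω ∩ inCell i j t v).encard ≠ ⊤ := by
    rw [Set.encard_ne_top_iff]; exact hfin v
  rw [Ne, ENat.toNat_eq_zero, not_or]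
  constructor
  · rintro ⟨h2, -⟩
    have h3 : (N ω ∩ inCell i j t v).Nonempty := by
      rw [← Set.encard_ne_zero]; exact h2
    obtain ⟨ζ, hζ, hc⟩ := h3
    exact ⟨_, ⟨_, ⟨ζ, hζ, rfl⟩, rfl⟩, (mem_cell_iff j v _).1 hc⟩
  · rintro ⟨_, ⟨_, ⟨ζ, hζ, rfl⟩, rfl⟩, hv⟩
    refine ⟨?_, h1⟩
    intro h0
    rw [Set.encard_eq_zero] at h0
    have : ζ ∈ N ω ∩ inCell i j t v := ⟨hζ, (mem_cell_iff j v _).2 hv⟩
    rw [h0] at this
    exact this

lemma vacant_eq_vacPts (r : ℝ) (S : Set Traj) (t : ℝ≥0) : vacant r S t = vacPts r (posAt S t) := by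
  ext y
  constructor
  · rintro h _ ⟨ζ, hζ, rfl⟩; exact h ζ hζ
  · intro h ζ hζ; exact h _ ⟨ζ, hζ, rfl⟩

end MPdd5692
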