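import Mathlib
import Pool.Agent.Work.MP_dd5692_pr.W2
import Pool.Agent.Work.MP_dd5692_pr.FSC98

/-!
# W11 : small easy crossings of the vacant colour => no percolation (helper98)
-/

open MeasureTheory ProbabilityTheory Set
open scoped ENNReal NNReal

namespace MPdd5692

lemma two_pow_mesh (j : ℕ) : mesh j * 2 ^ j = 1 := by
  unfold mesh; rw [← mul_pow]; norm_num

lemma range_nonneg {r : ℝ} (hr : 0 ≤ r) (j : ℕ) : 0 ≤ range r j := by
  have := mesh_pos j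
  unfold range; positivity

lemma range_eq (r : ℝ) (j : ℕ) : range r j = r * 2 ^ j + 3 := by
  have h := two_pow_mesh j
  have hk := mesh_pos j
  unfold range
  rw [div_eq_iff hk.ne' |>.2]
  rw [mul_assoc, mul_comm ((2 : ℝ) ^ j), h, mul_one]

lemma easyV_eq (r : ℝ) (l : ℝ≥0) (j n : ℕ) :
    easyV r l j n = cr (poissonMeasure (l * (1 / 4) ^ j)) .vac (range r j) (n * 2 ^ j)
      (3 * (n * 2 ^ j)) := by
  unfold easyV cr stat
  congr 1
  ext η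
  simp only [CrossLR, HEv, LE, Rect, Set.mem_ofPred_eq, Col.adj, Col.set]
  rw [← mul_assoc (3 : ℤ)]
  constructor
  · rintro ⟨x, y, hx, hy, h⟩; exact ⟨x, hx, y, hy, h⟩
  · rintro ⟨x, hx, y, hy, h⟩; exact ⟨x, y, hx, hy, h⟩

lemma easyO_eq (r : ℝ) (l : ℝ≥0) (j n : ℕ) :
    easyO r l j n = cr (poissonMeasure (l * (1 / 4) ^ j)) .occ (range r j) (n * 2 ^ j)
      (3 * (n * 2 ^ j)) := by
  unfold easyO cr stat
  congr 1
  ext η
  simp only [CrossLR, HEv, LE, Rect, Set.mem_ofPred_eq, Col.adj, Col.set]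
  rw [← mul_assoc (3 : ℤ)]
  constructor
  · rintro ⟨x, y, hx, hy, h⟩; exact ⟨x, hx, y, hy, h⟩
  · rintro ⟨x, hx, y, hy, h⟩; exact ⟨x, y, hx, hy, h⟩

lemma scale_ok {r : ℝ} {n : ℕ} (hn : 2 * r + 10 < n) (j : ℕ) :
    2 * (⌈range r j⌉ + 1) < (n : ℤ) * 2 ^ j := by
  have h1 := Int.ceil_lt_add_one (range r j)
  rw [range_eq] at h1
  have h2 : (1 : ℝ) ≤ 2 ^ j := one_le_pow₀ (by norm_num)
  have h3 : (2 * ((⌈range r j⌉ : ℝ) + 1)) < (n : ℝ) * 2 ^ j := by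
    rw [range_eq]
    nlinarith
  exact_mod_cast h3

lemma cr_small (ν : Measure ℕ) [IsProbabilityMeasure ν] (c : Col) {ρ : ℝ} (hρ : 0 ≤ ρ) {a : ℤ}
    (ha : 2 * (⌈ρ⌉ + 1) < a) (hs : cr ν c ρ a (3 * a) < ENNReal.ofReal (1 / 512)) (k : ℕ) :
    256 * cr ν c ρ (3 ^ k * a) (3 * (3 ^ k * a)) ≤ (1 / 2) ^ k := by
  have h1 := finite_size_iterate ν c hρ ha k
  refine h1.trans ?_
  have h2 : 256 * cr ν c ρ a (3 * a) ≤ 1 / 2 := by
    calc 256 * cr ν c ρ a (3 * a) ≤ 256 * ENNReal.ofReal (1 / 512) := by gcongr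
      _ = ENNReal.ofReal 256 * ENNReal.ofReal (1 / 512) := by norm_num
      _ = ENNReal.ofReal (256 * (1 / 512)) := by rw [← ENNReal.ofReal_mul (by norm_num)]
      _ = ENNReal.ofReal (1 / 2) := by norm_num
      _ = 1 / 2 := by rw [ENNReal.ofReal_div_of_pos (by norm_num)]; norm_num
  calc (256 * cr ν c ρ a (3 * a)) ^ (2 ^ k) ≤ (1 / 2) ^ (2 ^ k) := by gcongr
    _ ≤ (1 / 2) ^ k := by
      apply pow_le_pow_of_le_one (by simp) (by
        rw [ENNReal.div_le_iff (by norm_num) (by norm_num)]; norm_num)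
      exact (Nat.lt_two_pow_self).le

variable {Ω : Type*} [MeasurableSpace Ω] {W : Measure Traj} {P : Measure Ω} {l : ℝ≥0}
  {N : Ω → Set Traj}

lemma ae_ptsLocFin (hW : IsWiener W) (hN : IsNodeProcess W P l N) (t : ℝ≥0) :
    ∀ᵐ ω ∂P, PtsLocFin (posAt (N ω) t) := by
  have := hW.isProbabilityMeasure
  unfold PtsLocFin
  rw [ae_all_iff]
  intro R
  have h1 : nodeIntensity W l {ζ : Traj | (fun x : Plane => x) (ζ.1 t) ∈ Metric.closedBall (0 : Plane) R} < ∞ := by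
    rw [nodeIntensity_eval W l t (σ := fun x : Plane => x) (MeasurePreserving.id _)
      measurableSet_closedBall]
    exact ENNReal.mul_lt_top ENNReal.coe_lt_top measure_closedBall_lt_top
  have hm : MeasurableSet {ζ : Traj | (fun x : Plane => x) (ζ.1 t) ∈ Metric.closedBall (0 : Plane) R} :=
    (measurable_eval t) measurableSet_closedBall
  filter_upwards [IsPoissonProcess.ae_finite hN hm h1] with ω hω
  refine (hω.image (fun ζ : Traj => ζ.1 t)).subset ?_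
  rintro p ⟨⟨ζ, hζ, rfl⟩, hp⟩
  exact ⟨ζ, ⟨hζ, by simpa using hp⟩, rfl⟩

lemma ae_inCell_finite (hW : IsWiener W) (hN : IsNodeProcess W P l N) (t : ℝ≥0) :
    ∀ᵐ ω ∂P, ∀ (i : Fin 4) (j : ℕ) (v : Site), (N ω ∩ inCell i j t v).Finite := by
  have := hW.isProbabilityMeasure
  simp only [ae_all_iff]
  intro i j v
  refine IsPoissonProcess.ae_finite hN (measurableSet_inCell i j t v) ?_
  have := nodeIntensity_eval W l t (sgm_measurePreserving i) (measurableSet_cell j v)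
  unfold inCell
  rw [this, volume_cell]
  exact ENNReal.mul_lt_top ENNReal.coe_lt_top ENNReal.coe_lt_top

/-- the mesh event of a crossing of `[m/2, 3m/2] × [-3m/2, 3m/2]`, `m = 3^k n`, at mesh `j+1` -/
def DE (r : ℝ) (N : Ω → Set Traj) (n : ℕ) (i : Fin 4) (j k : ℕ) : Set Ω :=
  {ω | cellCnt N i (j + 1) 0 ω ∈ HEv .vac (range r (j + 1)) (3 ^ k * n * 2 ^ j)
    (3 * (3 ^ k * n * 2 ^ j)) (-(3 * (3 ^ k * n * 2 ^ j))) (3 * (3 ^ k * n * 2 ^ j))}

lemma prob_DE (hW : IsWiener W) (hN : IsNodeProcess W P l N) {r : ℝ} (hr : 0 ≤ r) (n : ℕ)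
    (i : Fin 4) (j k : ℕ) :
    P (DE r N n i j k) = cr (poissonMeasure (l * (1 / 4) ^ (j + 1))) .vac (range r (j + 1))
      (3 ^ k * (n * 2 ^ (j + 1))) (3 * (3 ^ k * (n * 2 ^ (j + 1)))) := by
  have hm := measurable_cellCnt hN i (j + 1) 0
  unfold DE
  have h1 : MeasurableSet (HEv .vac (range r (j + 1)) (3 ^ k * n * 2 ^ j)
    (3 * (3 ^ k * n * 2 ^ j)) (-(3 * (3 ^ k * n * 2 ^ j))) (3 * (3 ^ k * n * 2 ^ j))) :=
    LE_measurable _ (range_nonneg hr _) (Rect_finite _ _ _ _) _ _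
  have h2 : P {ω | cellCnt N i (j + 1) 0 ω ∈ HEv .vac (range r (j + 1)) (3 ^ k * n * 2 ^ j)
    (3 * (3 ^ k * n * 2 ^ j)) (-(3 * (3 ^ k * n * 2 ^ j))) (3 * (3 ^ k * n * 2 ^ j))} =
    (P.map (cellCnt N i (j + 1) 0)) (HEv .vac (range r (j + 1)) (3 ^ k * n * 2 ^ j)
    (3 * (3 ^ k * n * 2 ^ j)) (-(3 * (3 ^ k * n * 2 ^ j))) (3 * (3 ^ k * n * 2 ^ j))) := by
    rw [Measure.map_apply hm h1]; rfl
  rw [h2, map_cellCnt hW hN]
  unfold stat
  rw [prob_HEv _ _ (range_nonneg hr _)]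
  congr 1 <;> ring

/-- (W11) -/
theorem null_of_easyV (hW : IsWiener W) (hN : IsNodeProcess W P l N) {r : ℝ} (hr : 0 < r) {n : ℕ}
    (hn : 2 * r + 10 < n)
    (hJ : ∀ j₀ : ℕ, ∃ j ≥ j₀, easyV r l j n < ENNReal.ofReal (1 / 512)) :
    P {ω | Percolates r (N ω)} = 0 := by
  have hP := IsPoissonProcess.isProbabilityMeasure hN
  have hn0 : (0 : ℝ) < n := by linarith
  -- the events
  let A : ℕ → Set Ω := fun k => ⋃ i : Fin 4, ⋃ j₀ : ℕ, ⋂ j : ℕ, ⋂ (_ : j₀ ≤ j), DE r N n i j k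
  have hA : ∀ k, P (A k) ≤ 4 * (1 / 2) ^ k := by
    intro k
    refine (measure_iUnion_fintype_le _ _).trans ?_
    have h1 : ∀ i : Fin 4, P (⋃ j₀ : ℕ, ⋂ j : ℕ, ⋂ (_ : j₀ ≤ j), DE r N n i j k) ≤ (1 / 2) ^ k := by
      intro i
      have hmono : Monotone (fun j₀ : ℕ => ⋂ j : ℕ, ⋂ (_ : j₀ ≤ j), DE r N n i j k) := by
        intro a b hab ω hω
        simp only [Set.mem_iInter] at hω ⊢
        intro j hj
        exact hω j (hab.trans hj)
      rw [hmono.measure_iUnion]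
      refine iSup_le fun j₀ => ?_
      obtain ⟨j, hj, hs⟩ := hJ (j₀ + 1)
      obtain ⟨j', rfl⟩ : ∃ j', j = j' + 1 := ⟨j - 1, by omega⟩
      have h2 : (⋂ j : ℕ, ⋂ (_ : j₀ ≤ j), DE r N n i j k) ⊆ DE r N n i j' k := by
        intro ω hω
        simp only [Set.mem_iInter] at hω
        exact hω j' (by omega)
      refine (measure_mono h2).trans ?_
      rw [prob_DE hW hN hr.le]
      rw [easyV_eq] at hs
      have h3 := cr_small _ .vac (range_nonneg hr.le _) (scale_ok hn (j' + 1)) hs k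
      refine le_trans ?_ h3
      exact le_mul_of_one_le_left (by simp) (by norm_num)
    calc ∑ i : Fin 4, _ ≤ ∑ i : Fin 4, ((1 / 2 : ℝ≥0∞)) ^ k := Finset.sum_le_sum fun i _ => h1 i
      _ = 4 * (1 / 2) ^ k := by simp
  have hB : ∀ m, P (⋂ k : ℕ, ⋂ (_ : m ≤ k), A k) = 0 := by
    intro m
    have h1 : ∀ k, m ≤ k → P (⋂ k : ℕ, ⋂ (_ : m ≤ k), A k) ≤ 4 * (1 / 2) ^ k := by
      intro k hk
      refine (measure_mono ?_).trans (hA k)
      intro ω hω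
      simp only [Set.mem_iInter] at hω
      exact hω k hk
    have h2 : Filter.Tendsto (fun k : ℕ => 4 * (1 / 2 : ℝ≥0∞) ^ k) Filter.atTop (nhds (4 * 0)) := by
      apply ENNReal.Tendsto.const_mul
      · apply ENNReal.tendsto_pow_atTop_nhds_zero_of_lt_one
        rw [ENNReal.div_lt_iff (by norm_num) (by norm_num)]; norm_num
      · right; norm_num
    rw [mul_zero] at h2
    have h3 := ge_of_tendsto h2 (Filter.eventually_atTop.2 ⟨m, fun k hk => h1 k hk⟩)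
    exact le_antisymm h3 (by simp)
  have hC : P (⋃ m : ℕ, ⋂ k : ℕ, ⋂ (_ : m ≤ k), A k) = 0 := by
    rw [measure_iUnion_null_iff]; exact hB
  -- almost sure inclusion
  rw [← nonpos_iff_eq_zero, ← hC]
  apply measure_mono_ae
  filter_upwards [ae_ptsLocFin hW hN 0, ae_inCell_finite hW hN 0] with ω hω1 hω2
  intro hperc
  change Percolates r (N ω) at hperc
  obtain ⟨y, hy, hunb⟩ := hperc
  rw [vacant_eq_vacPts] at hy hunb
  -- choose m with ‖y‖ ≤ 3^k n / 2 for k ≥ m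
  obtain ⟨m, hm⟩ : ∃ m : ℕ, ∀ k ≥ m, ‖y‖ ≤ 3 ^ k * n / 2 := by
    obtain ⟨m, hm⟩ := pow_unbounded_of_one_lt (2 * ‖y‖ / n) (by norm_num : (1 : ℝ) < 3)
    refine ⟨m, fun k hk => ?_⟩
    have h1 : (3 : ℝ) ^ m ≤ 3 ^ k := pow_le_pow_right₀ (by norm_num) hk
    rw [div_lt_iff₀ hn0] at hm
    nlinarith
  show ω ∈ ⋃ m : ℕ, ⋂ k : ℕ, ⋂ (_ : m ≤ k), A k
  refine Set.mem_iUnion.2 ⟨m, ?_⟩
  simp only [Set.mem_iInter]
  intro k hk
  obtain ⟨i, γ, hγc, hγV, hγbox, hγ0, hγ1⟩ := component_crossing hω1 hy hunb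
    (n := 3 ^ k * n / 2) (by positivity) (hm k hk)
  have hloc : PtsLocFin (sgm i '' posAt (N ω) 0) := by
    intro R
    refine ((hω1 R).image (sgm i)).subset ?_
    rintro _ ⟨⟨p, hp, rfl⟩, hR⟩
    refine ⟨p, ⟨hp, ?_⟩, rfl⟩
    have : ‖sgm i p‖ = ‖p‖ := (sgmL i).norm_map p
    rwa [this] at hR
  obtain ⟨j₀, hj₀⟩ := discrete_crossing hr hloc hγc hγV hγbox hγ0 hγ1
  refine Set.mem_iUnion.2 ⟨i, Set.mem_iUnion.2 ⟨j₀, ?_⟩⟩
  simp only [Set.mem_iInter]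
  intro j hj
  have hmul : mesh (j + 1) * ((3 ^ k * n * 2 ^ j : ℤ) : ℝ) = 3 ^ k * n / 2 := by
    have := two_pow_mesh (j + 1)
    push_cast
    calc mesh (j + 1) * (3 ^ k * n * 2 ^ j) = (mesh (j + 1) * 2 ^ (j + 1)) * (3 ^ k * n / 2) := by ring
      _ = _ := by rw [this, one_mul]
  obtain ⟨x, y', hx, hy', hl⟩ := hj₀ (j + 1) (by omega) (3 ^ k * n * 2 ^ j)
    (3 * (3 ^ k * n * 2 ^ j)) (-(3 * (3 ^ k * n * 2 ^ j))) (3 * (3 ^ k * n * 2 ^ j)) hmul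
    (by rw [← hmul]; push_cast; ring) (by rw [← hmul]; push_cast; ring)
    (by rw [← hmul]; push_cast; ring)
  refine ⟨x, hx, y', hy', ?_⟩
  show Linked Adj4 (vacSites (range r (j + 1)) (occ (cellCnt N i (j + 1) 0 ω)) ∩ Rect _ _ _ _) x y'
  rw [occ_cellCnt (hω2 i (j + 1))]
  exact hl

end MPdd5692
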