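import Mathlib
import Pool.Agent.Work.MP_dd5692_pr.W11
import Pool.Agent.Work.MP_dd5692_pr.Planar

/-!
# W12 : small easy crossings of the occupied colour => percolation (helper98)
-/

open MeasureTheory ProbabilityTheory Set
open scoped ENNReal NNReal

namespace MPdd5692

/-- planar lemma: no occupied left-right crossing => vacant bottom-top crossing -/
def PLa : Prop := ∀ (S : Set Site) (a b : ℤ), 0 ≤ a → 0 ≤ b →
  (¬ ∃ x y : Site, x.1 = 0 ∧ y.1 = a ∧ Linked Adj8 (Sᶜ ∩ Rect 0 a 0 b) x y) →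
  ∃ x y : Site, x.2 = 0 ∧ y.2 = b ∧ Linked Adj4 (S ∩ Rect 0 a 0 b) x y

/-- planar lemma: a left-right crossing and a bottom-top crossing meet -/
def PLb : Prop := ∀ (A B : Set Site) (a b : ℤ), 0 ≤ a → 0 ≤ b →
  (∃ x y : Site, x.1 = 0 ∧ y.1 = a ∧ Linked Adj4 (A ∩ Rect 0 a 0 b) x y) →
  (∃ x y : Site, x.2 = 0 ∧ y.2 = b ∧ Linked Adj4 (B ∩ Rect 0 a 0 b) x y) →
  (A ∩ B).Nonempty

lemma Linked.swap4 {S : Set Site} {x y : Site} (h : Linked Adj4 S x y) :
    Linked Adj4 (Prod.swap ⁻¹' S) x.swap y.swap :=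
  h.map' (f := Prod.swap) (fun u v huv => by unfold Adj4 at *; simpa [add_comm] using huv)
    (fun z hz => by simpa using hz)

lemma Linked.swap8 {S : Set Site} {x y : Site} (h : Linked Adj8 S x y) :
    Linked Adj8 (Prod.swap ⁻¹' S) x.swap y.swap :=
  h.map' (f := Prod.swap) (fun u v huv => by unfold Adj8 at *; simpa [max_comm] using huv)
    (fun z hz => by simpa using hz)

/-- transposed version of `PLa` -/
lemma PLa.swap (h : PLa) (S : Set Site) (a b : ℤ) (ha : 0 ≤ a) (hb : 0 ≤ b)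
    (hn : ¬ ∃ x y : Site, x.2 = 0 ∧ y.2 = b ∧ Linked Adj8 (Sᶜ ∩ Rect 0 a 0 b) x y) :
    ∃ x y : Site, x.1 = 0 ∧ y.1 = a ∧ Linked Adj4 (S ∩ Rect 0 a 0 b) x y := by
  have h1 := h (Prod.swap ⁻¹' S) b a hb ha (by
    rintro ⟨x, y, hx, hy, hl⟩
    refine hn ⟨x.swap, y.swap, by simpa using hx, by simpa using hy, hl.swap8.mono ?_⟩
    rintro z ⟨hz1, hz2, hz3, hz4, hz5⟩
    exact ⟨by simpa using hz1, hz4, hz5, hz2, hz3⟩)
  obtain ⟨x, y, hx, hy, hl⟩ := h1
  refine ⟨x.swap, y.swap, by simpa using hx, by simpa using hy, hl.swap4.mono ?_⟩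
  rintro z ⟨hz1, hz2, hz3, hz4, hz5⟩
  exact ⟨by simpa using hz1, hz4, hz5, hz2, hz3⟩

/-- the planar lemmas from the common file `Planar.lean` -/
lemma PLa_of (h : Stmt_DUAL) : PLa := by
  intro S a b ha hb hn
  obtain ⟨x, x', hx⟩ := ((h S 0 a 0 b ha hb).1).2 (by
    rintro ⟨y, y', hl⟩
    exact hn ⟨_, _, rfl, rfl, hl⟩)
  exact ⟨_, _, rfl, rfl, hx⟩

lemma PLb_of (h : Stmt_PL1) : PLb := by
  rintro A B a b _ _ ⟨x, y, hx, hy, hl⟩ ⟨x', y', hx', hy', hl'⟩
  obtain ⟨z, -, hz1, hz2⟩ := h A B 0 a 0 b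
    ⟨x.2, y.2, by
      have e1 : ((0, x.2) : Site) = x := by rw [← hx]
      have e2 : ((a, y.2) : Site) = y := by rw [← hy]
      rw [e1, e2]; exact hl.to8⟩
    ⟨x'.1, y'.1, by
      have e1 : ((x'.1, 0) : Site) = x' := by rw [← hx']
      have e2 : ((y'.1, b) : Site) = y' := by rw [← hy']
      rw [e1, e2]; exact hl'⟩
  exact ⟨z, hz1, hz2⟩

/-- chain of long crossings -/
lemma chain_linked (h2 : PLb) (S : Set Site) (a : ℤ) (ha : 0 < a)
    (x y u v : ℕ → Site)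
    (hH : ∀ k, (x k).1 = 0 ∧ (y k).1 = 3 * (3 ^ k * a) ∧
      Linked Adj4 (S ∩ Rect 0 (3 * (3 ^ k * a)) 0 (3 ^ k * a)) (x k) (y k))
    (hV : ∀ k, (u k).2 = 0 ∧ (v k).2 = 3 * (3 ^ k * a) ∧
      Linked Adj4 (S ∩ Rect 0 (3 ^ k * a) 0 (3 * (3 ^ k * a))) (u k) (v k)) (k : ℕ) :
    Linked Adj4 S (x 0) (y k) := by
  have hpos : ∀ k : ℕ, 0 < 3 ^ k * a := fun k => by positivity
  have hadj1 : ∀ x y, Adj4 x y → |x.1 - y.1| ≤ 1 := fun x y h => h.adj8.abs_fst
  have hadj2 : ∀ x y, Adj4 x y → |x.2 - y.2| ≤ 1 := fun x y h => h.adj8.abs_snd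
  have hsym : ∀ x y, Adj4 x y → Adj4 y x := fun x y h => h.symm
  -- general step
  have step : ∀ (R R' : Set Site) (p q p' q' : Site) (A B : ℤ), 0 ≤ A → 0 ≤ B →
      Linked Adj4 (S ∩ R) p q → Linked Adj4 (S ∩ R') p' q' →
      (∀ z ∈ R, 0 ≤ z.2 ∧ z.2 ≤ B ∧ 0 ≤ z.1) → (∀ z ∈ R', 0 ≤ z.1 ∧ z.1 ≤ A ∧ 0 ≤ z.2) →
      p.1 = 0 → A ≤ q.1 → p'.2 = 0 → B ≤ q'.2 → Linked Adj4 S p p' := by
    intro R R' p q p' q' A B hA hB h1 h1' hR hR' hp hq hp' hq'
    -- the components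
    have c1 := linked_component (Linked.refl h1.left_mem) h1 hsym
    have c1' := linked_component (Linked.refl h1'.left_mem) h1' hsym
    obtain ⟨a1, b1, ha1, hb1, hl1⟩ := c1.strip hadj1 (a := 0) (b := A) hA hp.le hq
    obtain ⟨a2, b2, ha2, hb2, hl2⟩ := c1'.stripV hadj2 (a := 0) (b := B) hB hp'.le hq'
    obtain ⟨w, hw1, hw2⟩ := h2 {w | Linked Adj4 (S ∩ R) p w} {w | Linked Adj4 (S ∩ R') p' w} A B hA hB
      ⟨a1, b1, ha1, hb1, hl1.mono (by
        rintro z ⟨hz1, hz2, hz3⟩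
        have := hR z (Linked.right_mem hz1).2
        exact ⟨hz1, hz2, hz3, this.1, this.2.1⟩)⟩
      ⟨a2, b2, ha2, hb2, hl2.mono (by
        rintro z ⟨hz1, hz2, hz3⟩
        have := hR' z (Linked.right_mem hz1).2
        exact ⟨hz1, this.1, this.2.1, hz2, hz3⟩)⟩
    have e1 : Linked Adj4 S p w := Linked.mono Set.inter_subset_left hw1
    have e2 : Linked Adj4 S p' w := Linked.mono Set.inter_subset_left hw2
    exact e1.trans (e2.symm hsym)
  have hxu : ∀ k, Linked Adj4 S (x k) (u k) := by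
    intro k
    have := hpos k
    refine step _ _ (x k) (y k) (u k) (v k) (3 ^ k * a) (3 ^ k * a) this.le this.le
      (hH k).2.2 (hV k).2.2 ?_ ?_ (hH k).1 ?_ (hV k).1 ?_
    · rintro z ⟨h1, h2, h3, h4⟩; exact ⟨h3, h4, h1⟩
    · rintro z ⟨h1, h2, h3, h4⟩; exact ⟨h1, h2, h3⟩
    · rw [(hH k).2.1]; linarith
    · rw [(hV k).2.1]; linarith
  have hux : ∀ k, Linked Adj4 S (u k) (x (k + 1)) := by
    intro k
    have h1 := hpos k
    have e : (3 : ℤ) ^ (k + 1) * a = 3 * (3 ^ k * a) := by ring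
    refine Linked.symm hsym ?_
    refine step _ _ (x (k + 1)) (y (k + 1)) (u k) (v k) (3 ^ k * a) (3 * (3 ^ k * a)) h1.le
      (by linarith) (hH (k + 1)).2.2 (hV k).2.2 ?_ ?_ (hH (k + 1)).1 ?_ (hV k).1 ?_
    · rintro z ⟨h1, h2, h3, h4⟩; rw [e] at h4; exact ⟨h3, h4, h1⟩
    · rintro z ⟨h1, h2, h3, h4⟩; exact ⟨h1, h2, h3⟩
    · rw [(hH (k + 1)).2.1, e]; linarith
    · rw [(hV k).2.1]
  have hx : ∀ k, Linked Adj4 S (x 0) (x k) := by
    intro k
    induction k with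
    | zero => exact Linked.refl ((hH 0).2.2.left_mem.1)
    | succ k ih => exact (ih.trans (hxu k)).trans (hux k)
  exact (hx k).trans ((hH k).2.2.mono Set.inter_subset_left)

variable {Ω : Type*} [MeasurableSpace Ω] {W : Measure Traj} {P : Measure Ω} {l : ℝ≥0}
  {N : Ω → Set Traj}

/-- (W12) -/
theorem perc_of_easyO (h1 : PLa) (h2 : PLb) (hW : IsWiener W) (hN : IsNodeProcess W P l N) {r : ℝ}
    (hr : 0 < r) {n : ℕ} (hn : 2 * r + 10 < n) (j : ℕ)
    (hs : easyO r l j n < ENNReal.ofReal (1 / 512)) :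
    P {ω | Percolates r (N ω)} ≠ 0 := by
  have hP := IsPoissonProcess.isProbabilityMeasure hN
  have hn0 : (0 : ℝ) < n := by linarith
  have hn0' : 0 < n := by exact_mod_cast hn0
  have hρ := range_nonneg hr.le j
  set ρ := range r j with hρdef
  set a : ℤ := n * 2 ^ j with ha
  have ha0 : 0 < a := by positivity
  set ν := poissonMeasure (l * (1 / 4) ^ j) with hν
  rw [easyO_eq] at hs
  have hsm := cr_small ν .occ hρ (scale_ok hn j) hs
  have hm := measurable_cellCnt hN 0 j 0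
  -- bad events
  let BH : ℕ → Set (Site → ℕ) := fun k => VEv .occ ρ 0 (3 * (3 ^ k * a)) 0 (3 ^ k * a)
  let BV : ℕ → Set (Site → ℕ) := fun k => HEv .occ ρ 0 (3 ^ k * a) 0 (3 * (3 ^ k * a))
  have hBHm : ∀ k, MeasurableSet (BH k) := fun k => LE_measurable _ hρ (Rect_finite _ _ _ _) _ _
  have hBVm : ∀ k, MeasurableSet (BV k) := fun k => LE_measurable _ hρ (Rect_finite _ _ _ _) _ _
  have hbound : ∀ k, 256 * (stat l j (BH k ∪ BV k)) ≤ 2 * (1 / 2) ^ k := by
    intro k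
    have e1 : stat l j (BH k) = cr ν .occ ρ (3 ^ k * a) (3 * (3 ^ k * a)) := by
      show Measure.infinitePi (fun _ : Site => ν) (VEv _ _ _ _ _ _) = _
      rw [prob_VEv ν _ hρ]; simp
    have e2 : stat l j (BV k) = cr ν .occ ρ (3 ^ k * a) (3 * (3 ^ k * a)) := by
      show Measure.infinitePi (fun _ : Site => ν) (HEv _ _ _ _ _ _) = _
      rw [prob_HEv ν _ hρ]; simp
    calc 256 * (stat l j (BH k ∪ BV k)) ≤ 256 * (stat l j (BH k) + stat l j (BV k)) := by
          gcongr; exact measure_union_le _ _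
      _ = 256 * cr ν .occ ρ (3 ^ k * a) (3 * (3 ^ k * a)) +
          256 * cr ν .occ ρ (3 ^ k * a) (3 * (3 ^ k * a)) := by rw [e1, e2]; ring
      _ ≤ (1 / 2) ^ k + (1 / 2) ^ k := add_le_add (hsm k) (hsm k)
      _ = 2 * (1 / 2) ^ k := by ring
  have hBmeas : MeasurableSet (⋃ k, (BH k ∪ BV k)) := MeasurableSet.iUnion fun k => (hBHm k).union (hBVm k)
  have htot : stat l j (⋃ k, (BH k ∪ BV k)) < 1 := by
    have h3 : 256 * stat l j (⋃ k, (BH k ∪ BV k)) ≤ 4 := by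
      calc 256 * stat l j (⋃ k, (BH k ∪ BV k)) ≤ 256 * ∑' k, stat l j (BH k ∪ BV k) := by
            gcongr; exact measure_iUnion_le _
        _ = ∑' k, 256 * stat l j (BH k ∪ BV k) := by rw [ENNReal.tsum_mul_left]
        _ ≤ ∑' k : ℕ, 2 * (1 / 2) ^ k := ENNReal.tsum_le_tsum hbound
        _ = 2 * 2 := by
            rw [ENNReal.tsum_mul_left, ENNReal.tsum_geometric]
            congr 1
            rw [one_div, ENNReal.one_sub_inv_two, inv_inv]
        _ = 4 := by norm_num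
    by_contra hcon
    push Not at hcon
    have : (256 : ℝ≥0∞) ≤ 4 := by
      calc (256 : ℝ≥0∞) = 256 * 1 := by ring
        _ ≤ 256 * stat l j (⋃ k, (BH k ∪ BV k)) := by gcongr
        _ ≤ 4 := h3
    norm_num at this
  have hprob : P (cellCnt N 0 j 0 ⁻¹' (⋃ k, (BH k ∪ BV k))) < 1 := by
    rw [← Measure.map_apply hm hBmeas, map_cellCnt hW hN]; exact htot
  -- conclusion
  intro hzero
  have hae : ∀ᵐ ω ∂P, ω ∈ cellCnt N 0 j 0 ⁻¹' (⋃ k, (BH k ∪ BV k)) := by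
    have hz : ∀ᵐ ω ∂P, ¬ Percolates r (N ω) := by
      rw [ae_iff]; simpa using hzero
    filter_upwards [hz, ae_inCell_finite hW hN 0] with ω hω hfin
    by_contra hcon
    apply hω
    simp only [Set.mem_preimage, Set.mem_iUnion, Set.mem_union, not_exists, not_or] at hcon
    set η := cellCnt N 0 j 0 ω with hη
    set S := vacSites ρ (occ η) with hS
    have hocc : occ η = cellIdx j '' (posAt (N ω) 0) := by
      rw [hη, occ_cellCnt (hfin 0 j)]
      congr 1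
      show sgm 0 '' _ = _
      simp [sgm]
    have hHk : ∀ k, ∃ x y : Site, x.1 = 0 ∧ y.1 = 3 * (3 ^ k * a) ∧
        Linked Adj4 (S ∩ Rect 0 (3 * (3 ^ k * a)) 0 (3 ^ k * a)) x y := by
      intro k
      have hk : 0 < 3 ^ k * a := by positivity
      refine h1.swap S _ _ (by linarith) hk.le ?_
      rintro ⟨x, y, hx, hy, hl⟩
      exact (hcon k).1 ⟨x, hx, y, hy, hl⟩
    have hVk : ∀ k, ∃ x y : Site, x.2 = 0 ∧ y.2 = 3 * (3 ^ k * a) ∧
        Linked Adj4 (S ∩ Rect 0 (3 ^ k * a) 0 (3 * (3 ^ k * a))) x y := by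
      intro k
      have hk : 0 < 3 ^ k * a := by positivity
      refine h1 S _ _ hk.le (by linarith) ?_
      rintro ⟨x, y, hx, hy, hl⟩
      exact (hcon k).2 ⟨x, hx, y, hy, hl⟩
    choose x y hxy using hHk
    choose u v huv using hVk
    have hlink := chain_linked h2 S a ha0 x y u v hxy huv
    have hjoin : ∀ k, JoinedIn (vacant r (N ω) 0) (pt j (x 0)) (pt j (y k)) := by
      intro k
      apply joinedIn_of_linked hr
      have := hlink k
      rw [hS, hocc] at this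
      exact this
    refine ⟨pt j (x 0), (hjoin 0).mem.1, ?_⟩
    intro hbdd
    obtain ⟨M, hM⟩ := isBounded_iff_forall_norm_le.1 hbdd
    have hmem : ∀ k, pt j (y k) ∈ connectedComponentIn (vacant r (N ω) 0) (pt j (x 0)) := by
      intro k
      obtain ⟨γ, hγ⟩ := hjoin k
      have hc : IsPreconnected (Set.range γ) := isPreconnected_range γ.continuous
      have hsub : Set.range γ ⊆ vacant r (N ω) 0 := by rintro _ ⟨t, rfl⟩; exact hγ t
      exact hc.subset_connectedComponentIn ⟨0, by simp⟩ hsub ⟨1, by simp⟩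
    obtain ⟨k, hk⟩ := pow_unbounded_of_one_lt (M / (mesh j * a)) (by norm_num : (1 : ℝ) < 3)
    have hmj := mesh_pos j
    have ha0' : (0 : ℝ) < a := by exact_mod_cast ha0
    rw [div_lt_iff₀ (by positivity)] at hk
    have h4 := hM _ (hmem k)
    have h5 : |pt j (y k) 0| ≤ ‖pt j (y k)‖ := by
      have := PiLp.norm_apply_le (pt j (y k)) 0
      simpa using this
    rw [pt_zero', (hxy k).2.1] at h5
    have h6 : (0 : ℝ) < 3 ^ k * (mesh j * a) := by positivity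
    rw [abs_of_nonneg (by push_cast; positivity)] at h5
    push_cast at h5
    nlinarith
  have : P (cellCnt N 0 j 0 ⁻¹' (⋃ k, (BH k ∪ BV k))) = 1 := by
    rw [← prob_compl_eq_zero_iff (hm hBmeas)]
    exact hae
  rw [this] at hprob
  exact lt_irrefl _ hprob

end MPdd5692
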