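import Mathlib
import Pool.Agent.Work.MP_dd5692_pr.W12

/-!
# W13 : `0 < λ_crit < ∞`, and `EV`, `EO` at `λ_crit` (helper98).  W13-W15 of WRAPPER98.md.
-/

open MeasureTheory ProbabilityTheory Set
open scoped ENNReal NNReal

namespace MPdd5692

lemma stat_eq (l : ℝ≥0) (j : ℕ) :
    stat l j = prodPoisson (fun _ : Site => l * (1 / 4) ^ j) := rfl

instance (l : ℝ≥0) (j : ℕ) : IsProbabilityMeasure (stat l j) := by
  rw [stat_eq]; infer_instance

/-! ### large intensities -/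

lemma stat_block_empty (l : ℝ≥0) (j : ℕ) (F : Finset Site) :
    stat l j {η | ∀ v ∈ F, η v = 0} = ENNReal.ofReal (Real.exp (-(l * (1 / 4) ^ j * F.card))) := by
  have h1 : {η : Site → ℕ | ∀ v ∈ F, η v = 0} = Set.pi (↑F) (fun _ => {0}) := by
    ext η; simp [Set.mem_pi]
  rw [h1]
  unfold stat
  rw [Measure.infinitePi_pi _ (fun _ _ => measurableSet_singleton 0)]
  simp only [poissonMeasure_singleton, pow_zero, Nat.factorial_zero, Nat.cast_one, mul_one, div_one,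
    Finset.prod_const]
  rw [← ENNReal.ofReal_pow (Real.exp_pos _).le, ← Real.exp_nat_mul]
  congr 2
  push_cast
  ring

lemma easyV_large (r : ℝ) (hr : 0 < r) (n : ℕ) :
    ∃ L : ℝ≥0, 0 < L ∧ ∀ j₀ : ℕ, ∃ j ≥ j₀, easyV r L j n < ENNReal.ofReal (1 / 512) := by
  -- q with mesh q ≤ r / 2
  obtain ⟨q, hq⟩ : ∃ q : ℕ, mesh q < r / 2 := by
    have := (tendsto_mesh.eventually_lt_const (show (0 : ℝ) < r / 2 by positivity)).exists
    exact this
  set C : ℕ := (n * 2 ^ q + 1) * (3 * n * 2 ^ q + 1) with hC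
  have hC0 : 0 < C := by positivity
  -- L
  obtain ⟨L, hL0, hL⟩ : ∃ L : ℝ≥0, 0 < L ∧ (C : ℝ) * Real.exp (-((L : ℝ) * (1 / 4) ^ q)) < 1 / 512 := by
    have h1 : Filter.Tendsto (fun x : ℝ => (C : ℝ) * Real.exp (-(x * (1 / 4) ^ q))) Filter.atTop
        (nhds (C * 0)) := by
      apply Filter.Tendsto.const_mul
      apply Real.tendsto_exp_neg_atTop_nhds_zero.comp
      exact Filter.tendsto_id.atTop_mul_const (by positivity)
    rw [mul_zero] at h1
    obtain ⟨x, hx, hx0⟩ := ((h1.eventually_lt_const (show (0 : ℝ) < 1 / 512 by norm_num)).and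
      (Filter.eventually_gt_atTop 0)).exists
    exact ⟨⟨x, hx0.le⟩, by exact_mod_cast hx0, hx⟩
  refine ⟨L, hL0, fun j₀ => ⟨max j₀ q, le_max_left _ _, ?_⟩⟩
  set j := max j₀ q with hj
  have hqj : q ≤ j := le_max_right _ _
  obtain ⟨p, hp⟩ : ∃ p, j = q + p := ⟨j - q, by omega⟩
  set m : ℤ := 2 ^ p with hm
  have hm0 : 0 < m := by positivity
  let block : Site → Finset Site := fun u =>
    Finset.Ico (u.1 * m) (u.1 * m + m) ×ˢ Finset.Ico (u.2 * m) (u.2 * m + m)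
  have hcard : ∀ u, (block u).card = 4 ^ p := by
    intro u
    simp only [block, Finset.card_product, Int.card_Ico]
    have : (u.1 * m + m - u.1 * m).toNat = 2 ^ p := by
      rw [add_sub_cancel_left, hm]; norm_cast
    have h' : (u.2 * m + m - u.2 * m).toNat = 2 ^ p := by
      rw [add_sub_cancel_left, hm]; norm_cast
    rw [this, h', ← mul_pow]; norm_num
  let U : Finset Site := Finset.Icc 0 ((n : ℤ) * 2 ^ q) ×ˢ Finset.Icc 0 (3 * (n : ℤ) * 2 ^ q)
  have hU : U.card = C := by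
    simp only [U, Finset.card_product, Int.card_Icc, hC]
    congr 1
  -- the crossing event is contained in the union of the empty blocks
  have hsub : {η | CrossLR Adj4 (vacSites (range r j) (occ η)) (n * 2 ^ j) (3 * n * 2 ^ j)} ⊆
      ⋃ u ∈ U, {η | ∀ v ∈ block u, η v = 0} := by
    rintro η ⟨x, y, hx, hy, hl⟩
    obtain ⟨hxv, hx1, hx2, hx3, hx4⟩ := hl.left_mem
    refine Set.mem_biUnion (x := (x.1 / m, x.2 / m)) ?_ ?_
    · have e1 : ((n : ℤ) * 2 ^ j) = (n * 2 ^ q) * m := by rw [hp, hm, pow_add]; ring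
      have e2 : (3 * (n : ℤ) * 2 ^ j) = (3 * n * 2 ^ q) * m := by rw [hp, hm, pow_add]; ring
      simp only [U, Finset.coe_product, Set.mem_prod, Finset.coe_Icc, Set.mem_Icc]
      rw [e1] at hx2
      rw [e2] at hx4
      refine ⟨⟨Int.ediv_nonneg hx1 hm0.le, ?_⟩, ⟨Int.ediv_nonneg hx3 hm0.le, ?_⟩⟩
      · exact Int.ediv_le_of_le_mul hm0 hx2
      · exact Int.ediv_le_of_le_mul hm0 hx4
    · intro v hv
      by_contra hne
      have hv' : v ∈ occ η := hne
      have h1 := hxv v hv'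
      apply h1
      simp only [block, Finset.mem_product, Finset.mem_Ico] at hv
      obtain ⟨⟨v1, v2⟩, v3, v4⟩ := hv
      have a1 := Int.emod_nonneg x.1 hm0.ne'
      have a2 := Int.emod_lt_of_pos x.1 hm0
      have a3 := Int.emod_add_mul_ediv x.1 m
      have b1 := Int.emod_nonneg x.2 hm0.ne'
      have b2 := Int.emod_lt_of_pos x.2 hm0
      have b3 := Int.emod_add_mul_ediv x.2 m
      have c1 : |v.1 - x.1| ≤ m := by rw [abs_le]; constructor <;> nlinarith
      have c2 : |v.2 - x.2| ≤ m := by rw [abs_le]; constructor <;> nlinarith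
      have o : ∀ a : ℤ, |a| ≤ m → offd a ≤ m := by
        intro a ha
        apply max_le
        · have : ((|a| : ℤ) : ℝ) ≤ (m : ℝ) := by exact_mod_cast ha
          push_cast at this
          linarith
        · exact_mod_cast hm0.le
      have o1 := o _ c1
      have o2 := o _ c2
      have n1 : 0 ≤ offd (v.1 - x.1) := le_max_right _ _
      have n2 : 0 ≤ offd (v.2 - x.2) := le_max_right _ _
      simp only [offs, Set.mem_ofPred_eq, Prod.fst_sub, Prod.snd_sub]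
      have hmr : (m : ℝ) ≤ r / 2 * 2 ^ j := by
        have e3 : (m : ℝ) = mesh q * 2 ^ j := by
          rw [hp, hm, pow_add, ← mul_assoc, two_pow_mesh, one_mul]; push_cast; rfl
        rw [e3]
        gcongr
      have hρ : r * 2 ^ j ≤ range r j := by rw [range_eq]; linarith
      have p1 : offd (v.1 - x.1) ^ 2 ≤ (m : ℝ) ^ 2 := pow_le_pow_left₀ n1 o1 2
      have p2 : offd (v.2 - x.2) ^ 2 ≤ (m : ℝ) ^ 2 := pow_le_pow_left₀ n2 o2 2
      have hm0' : (0 : ℝ) ≤ m := by exact_mod_cast hm0.le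
      have p3 : (m : ℝ) ^ 2 ≤ (r / 2 * 2 ^ j) ^ 2 := pow_le_pow_left₀ hm0' hmr 2
      have p4 : (r * 2 ^ j) ^ 2 ≤ (range r j) ^ 2 := pow_le_pow_left₀ (by positivity) hρ 2
      have p5 : 0 ≤ (r * 2 ^ j) ^ 2 := by positivity
      nlinarith
  calc easyV r L j n ≤ stat L j (⋃ u ∈ U, {η | ∀ v ∈ block u, η v = 0}) := measure_mono hsub
    _ ≤ ∑ u ∈ U, stat L j {η | ∀ v ∈ block u, η v = 0} := measure_biUnion_finset_le _ _
    _ = ∑ u ∈ U, ENNReal.ofReal (Real.exp (-((L : ℝ) * (1 / 4) ^ q))) := by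
        apply Finset.sum_congr rfl
        intro u _
        rw [stat_block_empty, hcard]
        congr 3
        rw [hp, pow_add]
        push_cast
        have : ((1 : ℝ) / 4) ^ p * 4 ^ p = 1 := by rw [← mul_pow]; norm_num
        rw [mul_assoc, mul_assoc, this, mul_one]
    _ = (C : ℝ≥0∞) * ENNReal.ofReal (Real.exp (-((L : ℝ) * (1 / 4) ^ q))) := by
        rw [Finset.sum_const, hU, nsmul_eq_mul]
    _ = ENNReal.ofReal (C * Real.exp (-((L : ℝ) * (1 / 4) ^ q))) := by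
        rw [ENNReal.ofReal_mul (by positivity), ENNReal.ofReal_natCast]
    _ < ENNReal.ofReal (1 / 512) := by
        rw [ENNReal.ofReal_lt_ofReal_iff (by norm_num)]; exact hL

/-! ### continuity in the intensity -/

/-- bound on the number of relevant cells -/
lemma nbhd_card {r : ℝ} (hr : 0 ≤ r) (j n : ℕ) :
    ∑' _ : nbhd (range r j) (Rect 0 (n * 2 ^ j) 0 (3 * (n * 2 ^ j))), (((1 / 4 : ℝ≥0) ^ j : ℝ≥0) : ℝ≥0∞) ≤
      ENNReal.ofReal ((n + 2 * r + 11) * (3 * n + 2 * r + 11)) := by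
  set ρ := range r j with hρ
  have hρ0 : 0 ≤ ρ := range_nonneg hr j
  set R : ℤ := ⌈ρ⌉ + 1 with hR
  have hR0 : 0 ≤ R := by have := Int.ceil_nonneg hρ0; omega
  let G : Finset Site := Finset.Icc (-R) (n * 2 ^ j + R) ×ˢ Finset.Icc (-R) (3 * (n * 2 ^ j) + R)
  have hsub : nbhd ρ (Rect 0 (n * 2 ^ j) 0 (3 * (n * 2 ^ j))) ⊆ (G : Set Site) := by
    rintro v ⟨z, ⟨h1, h2, h3, h4⟩, hv⟩
    obtain ⟨a, b⟩ := offs_bound hρ0 hv
    rw [abs_le] at a b
    simp only [Prod.fst_sub, Prod.snd_sub] at a b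
    simp only [G, Finset.coe_product, Finset.coe_Icc, Set.mem_prod, Set.mem_Icc]
    refine ⟨⟨?_, ?_⟩, ?_, ?_⟩ <;> omega
  have hfin := nbhd_finite hρ0 (Rect_finite 0 (n * 2 ^ j) 0 (3 * (n * 2 ^ j)))
  have hcard : hfin.toFinset.card ≤ G.card := by
    apply Finset.card_le_card
    intro v hv
    exact hsub (by simpa using hv)
  have : Fintype (nbhd ρ (Rect 0 (n * 2 ^ j) 0 (3 * (n * 2 ^ j)))) := hfin.fintype
  rw [tsum_fintype, Finset.sum_const, Finset.card_univ]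
  have e1 : Fintype.card (nbhd ρ (Rect 0 (n * 2 ^ j) 0 (3 * (n * 2 ^ j)))) = hfin.toFinset.card := by
    rw [← Set.toFinset_card]; congr 1; ext; simp
  rw [e1, nsmul_eq_mul]
  have hGcard : (G.card : ℝ) = (n * 2 ^ j + 2 * R + 1) * (3 * (n * 2 ^ j) + 2 * R + 1) := by
    simp only [G, Finset.card_product, Int.card_Icc]
    push_cast
    have t1 : ((((n : ℤ) * 2 ^ j + R + 1 - -R).toNat : ℤ) : ℝ) = n * 2 ^ j + 2 * R + 1 := by
      rw [Int.toNat_of_nonneg (by have : (0 : ℤ) ≤ n * 2 ^ j := by positivity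
                                  linarith)]; push_cast; ring
    have t2 : (((3 * ((n : ℤ) * 2 ^ j) + R + 1 - -R).toNat : ℤ) : ℝ) = 3 * (n * 2 ^ j) + 2 * R + 1 := by
      rw [Int.toNat_of_nonneg (by have : (0 : ℤ) ≤ n * 2 ^ j := by positivity
                                  linarith)]; push_cast; ring
    simp only [Int.cast_natCast] at t1 t2
    rw [t1, t2]
  have h2j : (1 : ℝ) ≤ 2 ^ j := one_le_pow₀ (by norm_num)
  have hRr : (R : ℝ) ≤ r * 2 ^ j + 5 * 2 ^ j := by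
    have := (Int.ceil_lt_add_one ρ).le
    rw [hR]; push_cast
    rw [hρ, range_eq] at this ⊢
    linarith
  have hR0' : (0 : ℝ) ≤ R := by exact_mod_cast hR0
  calc (hfin.toFinset.card : ℝ≥0∞) * (((1 / 4 : ℝ≥0) ^ j : ℝ≥0) : ℝ≥0∞)
      ≤ (G.card : ℝ≥0∞) * (((1 / 4 : ℝ≥0) ^ j : ℝ≥0) : ℝ≥0∞) := by gcongr
    _ = ENNReal.ofReal (G.card * (1 / 4) ^ j) := by
        rw [ENNReal.ofReal_mul (by positivity), ENNReal.ofReal_natCast]
        congr 1
        rw [← ENNReal.ofReal_coe_nnreal]; push_cast; rfl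
    _ ≤ _ := by
        apply ENNReal.ofReal_le_ofReal
        rw [hGcard]
        have e4 : ((1 : ℝ) / 4) ^ j * (2 ^ j * 2 ^ j) = 1 := by
          rw [← mul_pow, ← mul_pow]; norm_num
        have u1 : (n * 2 ^ j + 2 * R + 1 : ℝ) ≤ (n + 2 * r + 11) * 2 ^ j := by nlinarith
        have u2 : (3 * (n * 2 ^ j) + 2 * R + 1 : ℝ) ≤ (3 * n + 2 * r + 11) * 2 ^ j := by nlinarith
        have u3 : (0 : ℝ) ≤ n * 2 ^ j + 2 * R + 1 := by positivity
        have u4 : (0 : ℝ) ≤ 3 * (n * 2 ^ j) + 2 * R + 1 := by positivity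
        calc (n * 2 ^ j + 2 * R + 1 : ℝ) * (3 * (n * 2 ^ j) + 2 * R + 1) * (1 / 4) ^ j
            ≤ ((n + 2 * r + 11) * 2 ^ j) * ((3 * n + 2 * r + 11) * 2 ^ j) * (1 / 4) ^ j := by
              gcongr
          _ = (n + 2 * r + 11) * (3 * n + 2 * r + 11) * ((1 / 4) ^ j * (2 ^ j * 2 ^ j)) := by ring
          _ = _ := by rw [e4, mul_one]

/-- the area bound (see `nbhd_card`) -/
noncomputable def areaB (r : ℝ) (n : ℕ) : ℝ := (n + 2 * r + 11) * (3 * n + 2 * r + 11)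

lemma areaB_pos {r : ℝ} (hr : 0 ≤ r) (n : ℕ) : 0 < areaB r n := by unfold areaB; positivity

lemma stat_cr (l : ℝ≥0) (c : Col) (r : ℝ) (j n : ℕ) :
    cr (poissonMeasure (l * (1 / 4) ^ j)) c (range r j) (n * 2 ^ j) (3 * (n * 2 ^ j)) =
      stat l j (HEv c (range r j) 0 (n * 2 ^ j) 0 (3 * (n * 2 ^ j))) := rfl

/-- Lipschitz bounds for the crossing probabilities -/
lemma cr_lipschitz (l d : ℝ≥0) (c : Col) {r : ℝ} (hr : 0 ≤ r) (j n : ℕ) :
    stat (l + d) j (HEv c (range r j) 0 (n * 2 ^ j) 0 (3 * (n * 2 ^ j))) ≤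
      stat l j (HEv c (range r j) 0 (n * 2 ^ j) 0 (3 * (n * 2 ^ j))) + d * ENNReal.ofReal (areaB r n) ∧
    stat l j (HEv c (range r j) 0 (n * 2 ^ j) 0 (3 * (n * 2 ^ j))) ≤
      stat (l + d) j (HEv c (range r j) 0 (n * 2 ^ j) 0 (3 * (n * 2 ^ j))) +
        d * ENNReal.ofReal (areaB r n) := by
  have hE : MeasurableSet (HEv c (range r j) 0 (n * 2 ^ j) 0 (3 * (n * 2 ^ j))) :=
    LE_measurable _ (range_nonneg hr _) (Rect_finite _ _ _ _) _ _
  have hD : Dep (HEv c (range r j) 0 (n * 2 ^ j) 0 (3 * (n * 2 ^ j)))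
      (nbhd (range r j) (Rect 0 (n * 2 ^ j) 0 (3 * (n * 2 ^ j)))) := LE_dep _ _ _ _ _
  have e1 : stat (l + d) j = prodPoisson ((fun _ : Site => l * (1 / 4) ^ j) +
      (fun _ : Site => d * (1 / 4) ^ j)) := by
    rw [stat_eq]; congr 1; ext1 v; simp only [Pi.add_apply]; ring
  have hsum : ∑' _ : nbhd (range r j) (Rect 0 (n * 2 ^ j) 0 (3 * (n * 2 ^ j))),
      ((d * (1 / 4) ^ j : ℝ≥0) : ℝ≥0∞) ≤ d * ENNReal.ofReal (areaB r n) := by
    push_cast
    rw [ENNReal.tsum_mul_left]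
    gcongr
    have := nbhd_card hr j n
    push_cast at this
    exact this
  rw [e1, stat_eq]
  exact ⟨(prodPoisson_add_le _ _ hE hD).trans (by gcongr), (prodPoisson_le_add _ _ hE hD).trans (by gcongr)⟩

/-! ### small intensities -/

lemma easyO_small {r : ℝ} (hr : 0 ≤ r) (n : ℕ) (l : ℝ≥0) :
    easyO r l 0 n ≤ l * ENNReal.ofReal (areaB r n) := by
  rw [easyO_eq, stat_cr]
  have h := (cr_lipschitz 0 l .occ hr 0 n).1
  rw [zero_add] at h
  refine h.trans ?_
  have h0 : stat 0 0 (HEv .occ (range r 0) 0 (n * 2 ^ 0) 0 (3 * (n * 2 ^ 0))) = 0 := by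
    have hall : ∀ᵐ η ∂(stat 0 0), ∀ v : Site, η v = 0 := by
      rw [ae_all_iff]
      intro v
      rw [ae_iff]
      have h1 := prodPoisson_exists_ne_zero_le (fun _ : Site => (0 : ℝ≥0) * (1 / 4) ^ 0) {v}
      rw [← stat_eq] at h1
      have h2 : {η : Site → ℕ | ¬ η v = 0} = {η | ∃ i ∈ ({v} : Set Site), η i ≠ 0} := by
        ext η; simp
      rw [h2]
      exact le_antisymm (h1.trans (by simp)) (by simp)
    have hnot : ∀ᵐ η ∂(stat 0 0), η ∉ HEv .occ (range r 0) 0 (n * 2 ^ 0) 0 (3 * (n * 2 ^ 0)) := by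
      filter_upwards [hall] with η hη
      rintro ⟨x, hx, y, hy, hl⟩
      have h3 := hl.left_mem.1
      change x ∉ vacSites (range r 0) (occ η) at h3
      apply h3
      intro v hv
      exact absurd (hη v) hv
    rw [measure_eq_zero_iff_ae_notMem]
    exact hnot
  rw [h0, zero_add]

end MPdd5692
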