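import Mathlib
import Pool.Agent.Work.MP_dd5692_pr.W13

/-!
# W14 : `0 < λ_crit < ∞`, `EV` and `EO` at `λ_crit` (helper98)
-/

open MeasureTheory ProbabilityTheory Set
open scoped ENNReal NNReal

namespace MPdd5692

section

variable {Ω : ℝ≥0 → Type*} [∀ l, MeasurableSpace (Ω l)] {W : Measure Traj}
  {P : ∀ l, Measure (Ω l)} {N : ∀ l, Ω l → Set Traj} {r : ℝ}

/-- intensities at which there is no percolation -/
def zeroSet (r : ℝ) (P : ∀ l, Measure (Ω l)) (N : ∀ l, Ω l → Set Traj) : Set ℝ≥0 :=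
  {l : ℝ≥0 | 0 < l ∧ P l {ω | Percolates r (N l ω)} = 0}

lemma lamCrit_eq : lamCrit r P N = sInf ((↑) '' zeroSet r P N) := rfl

lemma exists_scale (r : ℝ) : ∃ n : ℕ, 2 * r + 10 < n := exists_nat_gt _

lemma zeroSet_nonempty (hr : 0 < r) (hW : IsWiener W)
    (hN : ∀ l, 0 < l → IsNodeProcess W (P l) l (N l)) : (zeroSet r P N).Nonempty := by
  obtain ⟨n, hn⟩ := exists_scale r
  obtain ⟨L, hL0, hL⟩ := easyV_large r hr n
  exact ⟨L, hL0, null_of_easyV hW (hN L hL0) hr hn hL⟩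

lemma easyO_of_mem (h1 : PLa) (h2 : PLb) (hr : 0 < r) (hW : IsWiener W)
    (hN : ∀ l, 0 < l → IsNodeProcess W (P l) l (N l)) {l : ℝ≥0} (hl : l ∈ zeroSet r P N) {n : ℕ}
    (hn : 2 * r + 10 < n) (j : ℕ) : ENNReal.ofReal (1 / 512) ≤ easyO r l j n := by
  by_contra hcon
  push Not at hcon
  exact perc_of_easyO h1 h2 hW (hN l hl.1) hr hn j hcon hl.2

/-- `λ_crit` is finite and positive -/
theorem lamCrit_pos_finite (h1 : PLa) (h2 : PLb) (hr : 0 < r) (hW : IsWiener W)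
    (hN : ∀ l, 0 < l → IsNodeProcess W (P l) l (N l)) :
    ∃ lc : ℝ≥0, 0 < lc ∧ lamCrit r P N = lc ∧ (∀ l : ℝ≥0, 0 < l → l < lc → l ∉ zeroSet r P N) ∧
      ∀ ε : ℝ≥0, 0 < ε → ∃ l ∈ zeroSet r P N, lc ≤ l ∧ l < lc + ε := by
  have hne := zeroSet_nonempty (P := P) (N := N) hr hW hN
  set Z := zeroSet r P N with hZ
  have hlt : lamCrit r P N < ∞ := by
    obtain ⟨l, hl⟩ := hne
    rw [lamCrit_eq]
    exact (sInf_le (Set.mem_image_of_mem _ hl)).trans_lt ENNReal.coe_lt_top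
  obtain ⟨lc, hlc⟩ : ∃ lc : ℝ≥0, lamCrit r P N = lc := ⟨(lamCrit r P N).toNNReal, (ENNReal.coe_toNNReal hlt.ne).symm⟩
  have hle : ∀ l ∈ Z, lc ≤ l := by
    intro l hl
    have : lamCrit r P N ≤ (l : ℝ≥0∞) := by
      rw [lamCrit_eq]; exact sInf_le ⟨l, hl, rfl⟩
    rw [hlc] at this
    exact_mod_cast this
  have happ : ∀ ε : ℝ≥0, 0 < ε → ∃ l ∈ Z, lc ≤ l ∧ l < lc + ε := by
    intro ε hε
    have h3 : sInf ((↑) '' Z : Set ℝ≥0∞) < ((lc + ε : ℝ≥0) : ℝ≥0∞) := by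
      have : sInf ((↑) '' Z : Set ℝ≥0∞) = lc := by rw [← hlc]; rfl
      rw [this]
      exact_mod_cast lt_add_of_pos_right lc hε
    obtain ⟨_, ⟨l, hl, rfl⟩, hlt'⟩ := sInf_lt_iff.1 h3
    exact ⟨l, hl, hle l hl, by exact_mod_cast hlt'⟩
  refine ⟨lc, ?_, hlc, ?_, happ⟩
  · -- positivity
    rw [pos_iff_ne_zero]
    intro h0
    obtain ⟨n, hn⟩ := exists_scale r
    have hA := areaB_pos hr.le n
    obtain ⟨l, hl, -, hlt'⟩ := happ (⟨1 / 1024 / areaB r n, by positivity⟩) (by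
      show (0 : ℝ) < _; positivity)
    rw [h0, zero_add] at hlt'
    have h3 := easyO_of_mem h1 h2 hr hW hN hl hn 0
    have h4 := easyO_small hr.le n l
    have h5 : (l : ℝ≥0∞) * ENNReal.ofReal (areaB r n) ≤ ENNReal.ofReal (1 / 1024) := by
      rw [← ENNReal.ofReal_coe_nnreal, ← ENNReal.ofReal_mul (by positivity)]
      apply ENNReal.ofReal_le_ofReal
      have h6 : (l : ℝ) < 1 / 1024 / areaB r n := by exact_mod_cast hlt'
      rw [lt_div_iff₀ hA] at h6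
      exact h6.le
    have h7 := (h3.trans h4).trans h5
    rw [ENNReal.ofReal_le_ofReal_iff (by norm_num)] at h7
    norm_num at h7
  · intro l hl0 hl hmem
    exact absurd (hle l hmem) (not_le.2 hl)

/-- (W14) -/
theorem EV_of_lamCrit (hr : 0 < r) (hW : IsWiener W)
    (hN : ∀ l, 0 < l → IsNodeProcess W (P l) l (N l)) {lc : ℝ≥0} (hlc0 : 0 < lc)
    (hbelow : ∀ l : ℝ≥0, 0 < l → l < lc → l ∉ zeroSet r P N) : EV r lc := by
  obtain ⟨n₁, hn₁⟩ := exists_scale r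
  refine ⟨n₁, fun n hn => ?_⟩
  have hn' : 2 * r + 10 < n := hn₁.trans_le (by exact_mod_cast hn)
  by_contra hcon
  push Not at hcon
  have hA := areaB_pos hr.le n
  -- choose l
  set d₀ : ℝ≥0 := ⟨1 / 1024 / areaB r n, by positivity⟩ with hd₀
  set d : ℝ≥0 := min d₀ (lc / 2) with hd
  have hd0 : 0 < d := lt_min (by show (0 : ℝ) < _; positivity) (half_pos hlc0)
  have hdl : d < lc := (min_le_right _ _).trans_lt (half_lt_self_iff.2 hlc0)
  obtain ⟨l, hl⟩ : ∃ l : ℝ≥0, lc = l + d := ⟨lc - d, (tsub_add_cancel_of_le hdl.le).symm⟩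
  have hl0 : 0 < l := by
    rw [pos_iff_ne_zero]; rintro rfl
    rw [zero_add] at hl
    rw [hl] at hdl
    exact lt_irrefl _ hdl
  have hllc : l < lc := by rw [hl]; exact lt_add_of_pos_right l hd0
  apply hbelow l hl0 hllc
  refine ⟨hl0, null_of_easyV hW (hN l hl0) hr hn' ?_⟩
  intro j₀
  obtain ⟨j, hj, hlt⟩ := hcon j₀
  refine ⟨j, hj, ?_⟩
  rw [easyV_eq, stat_cr] at hlt ⊢
  rw [hl] at hlt
  have h3 := (cr_lipschitz l d .vac hr.le j n).2
  refine h3.trans_lt ?_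
  have h5 : (d : ℝ≥0∞) * ENNReal.ofReal (areaB r n) ≤ ENNReal.ofReal (1 / 1024) := by
    rw [← ENNReal.ofReal_coe_nnreal, ← ENNReal.ofReal_mul (by positivity)]
    apply ENNReal.ofReal_le_ofReal
    have h6 : (d : ℝ) ≤ 1 / 1024 / areaB r n := by
      have : d ≤ d₀ := min_le_left _ _
      exact_mod_cast this
    rw [le_div_iff₀ hA] at h6
    exact h6
  have e : ENNReal.ofReal (1 / 512) = ENNReal.ofReal (1 / 1024) + ENNReal.ofReal (1 / 1024) := by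
    rw [← ENNReal.ofReal_add (by norm_num) (by norm_num)]; norm_num
  rw [e]
  exact ENNReal.add_lt_add_of_lt_of_le (ne_top_of_le_ne_top ENNReal.ofReal_ne_top h5) hlt h5

/-- (W15) -/
theorem EO_of_lamCrit (h1 : PLa) (h2 : PLb) (hr : 0 < r) (hW : IsWiener W)
    (hN : ∀ l, 0 < l → IsNodeProcess W (P l) l (N l)) {lc : ℝ≥0}
    (happ : ∀ ε : ℝ≥0, 0 < ε → ∃ l ∈ zeroSet r P N, lc ≤ l ∧ l < lc + ε) : EO r lc := by
  obtain ⟨n₁, hn₁⟩ := exists_scale r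
  refine ⟨n₁, fun n hn j => ?_⟩
  have hn' : 2 * r + 10 < n := hn₁.trans_le (by exact_mod_cast hn)
  have hA := areaB_pos hr.le n
  rw [easyO_eq, stat_cr]
  apply ENNReal.le_of_forall_pos_le_add
  intro ε hε _
  obtain ⟨l, hl, hle, hlt⟩ := happ (ε / ⟨areaB r n, hA.le⟩) (div_pos hε (by exact_mod_cast hA))
  have h3 := easyO_of_mem h1 h2 hr hW hN hl hn' j
  rw [easyO_eq, stat_cr] at h3
  obtain ⟨d, hd⟩ : ∃ d : ℝ≥0, l = lc + d := ⟨l - lc, (add_tsub_cancel_of_le hle).symm⟩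
  rw [hd] at h3
  have h4 := (cr_lipschitz lc d .occ hr.le j n).1
  refine (h3.trans h4).trans ?_
  gcongr
  rw [hd] at hlt
  have hdlt : d < ε / ⟨areaB r n, hA.le⟩ := lt_of_add_lt_add_left hlt
  have h6 : (d : ℝ) < ε / areaB r n := by exact_mod_cast hdlt
  rw [lt_div_iff₀ hA] at h6
  rw [← ENNReal.ofReal_coe_nnreal, ← ENNReal.ofReal_mul (by positivity),
    ← ENNReal.ofReal_coe_nnreal]
  exact ENNReal.ofReal_le_ofReal h6.le

end

end MPdd5692
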