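import Mathlib

/-!
# W3a : laws and independence for real Brownian motion (helper98)
-/

open MeasureTheory ProbabilityTheory Set
open scoped ENNReal NNReal

namespace MPdd5692

section rearr

variable {α₁ α₂ β₁ β₂ : Type*} [MeasurableSpace α₁] [MeasurableSpace α₂] [MeasurableSpace β₁]
  [MeasurableSpace β₂]

/-- exchange of the two middle factors -/
def rearr (p : (α₁ × α₂) × (β₁ × β₂)) : (α₁ × β₁) × (α₂ × β₂) := ((p.1.1, p.2.1), (p.1.2, p.2.2))

lemma measurable_rearr : Measurable (rearr : (α₁ × α₂) × (β₁ × β₂) → (α₁ × β₁) × (α₂ × β₂)) := by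
  unfold rearr; fun_prop

lemma rearr_map (a₁ : Measure α₁) (a₂ : Measure α₂) (b₁ : Measure β₁) (b₂ : Measure β₂)
    [IsProbabilityMeasure a₁] [IsProbabilityMeasure a₂] [IsProbabilityMeasure b₁]
    [IsProbabilityMeasure b₂] :
    ((a₁.prod a₂).prod (b₁.prod b₂)).map rearr = (a₁.prod b₁).prod (a₂.prod b₂) := by
  have h1 := measurePreserving_prodAssoc a₁ a₂ (b₁.prod b₂)
  have h2 := (MeasurePreserving.id a₁).prod ((measurePreserving_prodAssoc a₂ b₁ b₂).symm _)
  have h3 := (MeasurePreserving.id a₁).prod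
    ((Measure.measurePreserving_swap (μ := a₂) (ν := b₁)).prod (MeasurePreserving.id b₂))
  have h4 := (MeasurePreserving.id a₁).prod (measurePreserving_prodAssoc b₁ a₂ b₂)
  have h5 := (measurePreserving_prodAssoc a₁ b₁ (a₂.prod b₂)).symm _
  have h := (((h5.comp h4).comp h3).comp h2).comp h1
  exact h.map_eq

end rearr

/-- independence of four variables from two independent pairs -/
theorem indep4 {Ω α₁ α₂ β₁ β₂ : Type*} [MeasurableSpace Ω] [MeasurableSpace α₁]
    [MeasurableSpace α₂] [MeasurableSpace β₁] [MeasurableSpace β₂] {μ : Measure Ω}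
    [IsProbabilityMeasure μ] {F₁ : Ω → α₁} {F₂ : Ω → α₂} {G₁ : Ω → β₁} {G₂ : Ω → β₂}
    (hF₁ : Measurable F₁) (hF₂ : Measurable F₂) (hG₁ : Measurable G₁) (hG₂ : Measurable G₂)
    (h : IndepFun (fun ω => (F₁ ω, F₂ ω)) (fun ω => (G₁ ω, G₂ ω)) μ)
    (h₁ : IndepFun F₁ F₂ μ) (h₂ : IndepFun G₁ G₂ μ) :
    IndepFun (fun ω => (F₁ ω, G₁ ω)) (fun ω => (F₂ ω, G₂ ω)) μ := by
  have i1 : IsProbabilityMeasure (μ.map F₁) := Measure.isProbabilityMeasure_map hF₁.aemeasurable
  have i2 : IsProbabilityMeasure (μ.map F₂) := Measure.isProbabilityMeasure_map hF₂.aemeasurable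
  have i3 : IsProbabilityMeasure (μ.map G₁) := Measure.isProbabilityMeasure_map hG₁.aemeasurable
  have i4 : IsProbabilityMeasure (μ.map G₂) := Measure.isProbabilityMeasure_map hG₂.aemeasurable
  have e := (indepFun_iff_map_prod_eq_prod_map_map (by fun_prop) (by fun_prop)).1 h
  have e1 := (indepFun_iff_map_prod_eq_prod_map_map (by fun_prop) (by fun_prop)).1 h₁
  have e2 := (indepFun_iff_map_prod_eq_prod_map_map (by fun_prop) (by fun_prop)).1 h₂
  rw [e1, e2] at e
  have e3 := rearr_map (μ.map F₁) (μ.map F₂) (μ.map G₁) (μ.map G₂)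
  rw [← e, Measure.map_map measurable_rearr (by fun_prop)] at e3
  rw [indepFun_iff_map_prod_eq_prod_map_map (by fun_prop) (by fun_prop)]
  have m1 : μ.map (fun ω => (F₁ ω, G₁ ω)) = (μ.map F₁).prod (μ.map G₁) := by
    have := congrArg (fun ν => Measure.map Prod.fst ν) e3
    simp only [Measure.map_fst_prod, measure_univ, one_smul] at this
    rw [Measure.map_map measurable_fst (measurable_rearr.comp (by fun_prop))] at this
    exact this
  have m2 : μ.map (fun ω => (F₂ ω, G₂ ω)) = (μ.map F₂).prod (μ.map G₂) := by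
    have := congrArg (fun ν => Measure.map Prod.snd ν) e3
    simp only [Measure.map_snd_prod, measure_univ, one_smul] at this
    rw [Measure.map_map measurable_snd (measurable_rearr.comp (by fun_prop))] at this
    exact this
  rw [m1, m2]
  exact e3

section real

variable {Ω Ω' : Type*} {mΩ : MeasurableSpace Ω} {mΩ' : MeasurableSpace Ω'} {B : ℝ≥0 → Ω → ℝ}
  {B' : ℝ≥0 → Ω' → ℝ} {P : Measure Ω} {P' : Measure Ω'}

lemma isProjectiveLimit_of_preBrownian (hB : IsPreBrownianReal B P) (hm : ∀ t, Measurable (B t)) :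
    IsProjectiveLimit (P.map (fun ω t => B t ω)) BrownianReal.projectiveFamily := by
  intro I
  rw [Measure.map_map (by fun_prop) (measurable_pi_iff.2 hm)]
  exact (hB.hasLaw I).map_eq

/-- the law of the process is determined -/
theorem law_unique (hB : IsPreBrownianReal B P) (hB' : IsPreBrownianReal B' P')
    (hm : ∀ t, Measurable (B t)) (hm' : ∀ t, Measurable (B' t)) :
    P.map (fun ω t => B t ω) = P'.map (fun ω t => B' t ω) := by
  have h1 := isProjectiveLimit_of_preBrownian hB hm
  have h2 := isProjectiveLimit_of_preBrownian hB' hm'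
  exact h1.unique h2

/-- the end point is independent of the bridge -/
theorem indep_bridge (hB : IsPreBrownianReal B P) {T : ℝ≥0} (hT : 0 < T) :
    IndepFun (fun ω (_ : Unit) => B T ω) (fun ω (s : Set.Iic T) => B s ω - (s / T : ℝ) * B T ω) P := by
  have hT' : (T : ℝ) ≠ 0 := by exact_mod_cast hT.ne'
  have hp := hB.isGaussianProcess.isProbabilityMeasure
  have mX t := hB.aemeasurable t
  apply IsGaussianProcess.indepFun_of_covariance_eq_zero (X := fun (_ : Unit) ω => B T ω)
    (Y := fun (s : Set.Iic T) ω => B s ω - (s / T : ℝ) * B T ω)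
  · apply hB.isGaussianProcess.of_isGaussianProcess
    rintro (t | ⟨s, hs⟩)
    · exact ⟨{T},
        { toFun x := x ⟨T, by simp⟩
          map_add' x y := by simp
          map_smul' c x := by simp }, by simp⟩
    · exact ⟨{s, T},
        { toFun x := x ⟨s, by simp⟩ - (s / T : ℝ) * x ⟨T, by simp⟩
          map_add' x y := by simp; ring
          map_smul' c x := by simp; ring }, by simp⟩
  · intro _; exact mX T
  · intro s; exact (mX s).sub ((mX T).const_mul _)
  · rintro _ ⟨s, hs : s ≤ T⟩
    have L := fun t => (hB.isGaussianProcess.hasGaussianLaw_eval t).memLp_two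
    show cov[fun ω => B T ω, fun ω => B s ω - (s / T : ℝ) * B T ω; P] = 0
    rw [covariance_fun_sub_right (L T) (L s) ((L T).const_mul _), covariance_const_mul_right,
      hB.covariance_fun_eval, hB.covariance_fun_eval, min_eq_right hs, min_self]
    field_simp
    ring

end real

end MPdd5692
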