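import Mathlib

/-!
# MaxB : maximal inequality for the real Brownian motion (helper98)
-/

open MeasureTheory ProbabilityTheory Set
open scoped ENNReal NNReal

namespace MPdd5692

variable {Ω : Type*} {mΩ : MeasurableSpace Ω} {B : ℝ≥0 → Ω → ℝ} {P : Measure Ω}

lemma gaussian_ge_zero (v : ℝ≥0) : 1 / 2 ≤ gaussianReal 0 v {x | 0 ≤ x} := by
  have h1 : gaussianReal 0 v {x | 0 ≤ x} = gaussianReal 0 v {x | x ≤ 0} := by
    have h2 := gaussianReal_map_neg (μ := 0) (v := v)
    rw [neg_zero] at h2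
    have hm : MeasurableSet {x : ℝ | 0 ≤ x} := measurableSet_Ici
    conv_lhs => rw [← h2]
    rw [Measure.map_apply (by fun_prop) hm]
    congr 1
    ext x; simp
  have h3 : (1 : ℝ≥0∞) ≤ gaussianReal 0 v {x | 0 ≤ x} + gaussianReal 0 v {x | x ≤ 0} := by
    rw [← measure_univ (μ := gaussianReal 0 v)]
    refine le_trans (measure_mono ?_) (measure_union_le _ _)
    intro x _
    exact le_total 0 x
  rw [← h1, ← two_mul] at h3
  rw [ENNReal.div_le_iff (by norm_num) (by norm_num), mul_comm]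
  exact h3

lemma gaussian_tail {v : ℝ≥0} (hv : 0 < v) {a : ℝ} (ha : 0 ≤ a) :
    gaussianReal 0 v {x | a ≤ x} ≤ ENNReal.ofReal (Real.exp (-a ^ 2 / (2 * v))) := by
  have hv' : (0 : ℝ) < v := by exact_mod_cast hv
  have h1 := measure_ge_le_exp_mul_mgf (μ := gaussianReal 0 v) (X := id) (t := a / v) a
    (by positivity) (by
      have := integrable_exp_mul_gaussianReal (μ := 0) (v := v) (a / v)
      simpa using this)
  rw [mgf_gaussianReal (μ := 0) (v := v) (by simp)] at h1
  rw [← ENNReal.ofReal_toReal (measure_ne_top (gaussianReal 0 v) {x | a ≤ x})]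
  apply ENNReal.ofReal_le_ofReal
  refine h1.trans (le_of_eq ?_)
  rw [← Real.exp_add]
  congr 1
  field_simp
  ring

/-- discrete maximal inequality by first passage -/
theorem max_ineq_discrete (hB : IsPreBrownianReal B P) (n : ℕ) (t : ℕ → ℝ≥0) (T : ℝ≥0)
    (hmono : Monotone t) (htT : ∀ k ≤ n, t k ≤ T) (a : ℝ) (hmeas : ∀ s, Measurable (B s)) :
    P {ω | ∃ k ≤ n, a ≤ B (t k) ω} ≤ 2 * P {ω | a ≤ B T ω} := by
  classical
  -- first passage events
  let A : ℕ → Set Ω := fun k => {ω | a ≤ B (t k) ω ∧ ∀ i < k, B (t i) ω < a}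
  have hA : {ω | ∃ k ≤ n, a ≤ B (t k) ω} = ⋃ k ∈ Finset.range (n + 1), A k := by
    ext ω
    simp only [Set.mem_ofPred_eq, Set.mem_iUnion, Finset.mem_range, exists_prop, A]
    constructor
    · rintro ⟨k, hk, hak⟩
      have hex : ∃ k, a ≤ B (t k) ω := ⟨k, hak⟩
      refine ⟨Nat.find hex, ?_, Nat.find_spec hex, fun i hi => ?_⟩
      · have := Nat.find_min' hex hak; omega
      · have := Nat.find_min hex hi; exact not_le.1 this
    · rintro ⟨k, hk, hak, -⟩; exact ⟨k, by omega, hak⟩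
  have hAm : ∀ k, MeasurableSet (A k) := by
    intro k
    have : A k = {ω | a ≤ B (t k) ω} ∩ ⋂ i ∈ Finset.range k, {ω | B (t i) ω < a} := by
      ext ω; simp [A]
    rw [this]
    exact (measurableSet_le measurable_const (hmeas _)).inter
      (Finset.measurableSet_biInter _ fun i _ => measurableSet_lt (hmeas _) measurable_const)
  have hdisj : Pairwise (Function.onFun Disjoint A) := by
    intro i j hij
    rw [Function.onFun, Set.disjoint_left]
    rintro ω ⟨hi1, hi2⟩ ⟨hj1, hj2⟩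
    rcases lt_or_gt_of_ne hij with h | h
    · exact absurd hi1 (not_le.2 (hj2 i h))
    · exact absurd hj1 (not_le.2 (hi2 j h))
  have key : ∀ k ≤ n, P (A k) ≤ 2 * P (A k ∩ {ω | a ≤ B T ω}) := by
    intro k hk
    have hind := hB.indepFun_shift (t k)
    -- the increment is non negative with probability at least 1/2
    have hTk : t k + (T - t k) = T := add_tsub_cancel_of_le (htT k hk)
    let f : (ℝ≥0 → ℝ) → ℝ := fun w => w (T - t k)
    have hE : P (A k ∩ {ω | 0 ≤ B T ω - B (t k) ω}) = P (A k) * P {ω | 0 ≤ B T ω - B (t k) ω} := by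
      have e1 : A k = (fun ω (s : Set.Iic (t k)) => B s ω) ⁻¹'
          {w | a ≤ w ⟨t k, Set.mem_Iic.2 le_rfl⟩ ∧ ∀ i, (hi : i < k) → w ⟨t i, Set.mem_Iic.2 (hmono hi.le)⟩ < a} := by
        ext ω; rfl
      have e2 : {ω | 0 ≤ B T ω - B (t k) ω} = (fun ω s => B (t k + s) ω - B (t k) ω) ⁻¹'
          {w | 0 ≤ w (T - t k)} := by
        ext ω
        simp only [Set.mem_ofPred_eq, Set.mem_preimage, hTk]
      rw [e1, e2, Set.inter_comm, mul_comm]
      apply hind.measure_inter_preimage_eq_mul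
      · exact measurableSet_le measurable_const (measurable_pi_apply _)
      · have : {w : Set.Iic (t k) → ℝ | a ≤ w ⟨t k, Set.mem_Iic.2 le_rfl⟩ ∧
            ∀ i, (hi : i < k) → w ⟨t i, Set.mem_Iic.2 (hmono hi.le)⟩ < a} =
            {w | a ≤ w ⟨t k, Set.mem_Iic.2 le_rfl⟩} ∩ ⋂ i : ℕ, ⋂ hi : i < k,
              {w | w ⟨t i, Set.mem_Iic.2 (hmono hi.le)⟩ < a} := by
          ext w; simp
        rw [this]
        exact (measurableSet_le measurable_const (measurable_pi_apply _)).inter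
          (MeasurableSet.iInter fun i => MeasurableSet.iInter fun hi =>
            measurableSet_lt (measurable_pi_apply _) measurable_const)
    have hhalf : 1 / 2 ≤ P {ω | 0 ≤ B T ω - B (t k) ω} := by
      have hl := hB.hasLaw_sub T (t k)
      have : P {ω | 0 ≤ B T ω - B (t k) ω} = gaussianReal 0 (nndist T.1 (t k).1) {x | 0 ≤ x} := by
        have hm : MeasurableSet {x : ℝ | 0 ≤ x} := measurableSet_Ici
        rw [← hl.map_eq, Measure.map_apply ((hmeas T).sub (hmeas (t k))) hm]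
        rfl
      rw [this]
      exact gaussian_ge_zero _
    calc P (A k) = 2 * (P (A k) * (1 / 2)) := by
          rw [one_div, mul_comm (P (A k)), ← mul_assoc, ENNReal.mul_inv_cancel (by norm_num) (by norm_num),
            one_mul]
      _ ≤ 2 * (P (A k) * P {ω | 0 ≤ B T ω - B (t k) ω}) := by gcongr
      _ = 2 * P (A k ∩ {ω | 0 ≤ B T ω - B (t k) ω}) := by rw [hE]
      _ ≤ 2 * P (A k ∩ {ω | a ≤ B T ω}) := by
          gcongr 2 * P ?_
          rintro ω ⟨h1, h2⟩
          refine ⟨h1, ?_⟩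
          have := h1.1
          simp only [Set.mem_ofPred_eq] at h2 ⊢
          linarith
  rw [hA]
  calc P (⋃ k ∈ Finset.range (n + 1), A k) ≤ ∑ k ∈ Finset.range (n + 1), P (A k) :=
        measure_biUnion_finset_le _ _
    _ ≤ ∑ k ∈ Finset.range (n + 1), 2 * P (A k ∩ {ω | a ≤ B T ω}) :=
        Finset.sum_le_sum fun k hk => key k (by simpa [Nat.lt_succ_iff] using hk)
    _ = 2 * ∑ k ∈ Finset.range (n + 1), P (A k ∩ {ω | a ≤ B T ω}) := by rw [Finset.mul_sum]
    _ = 2 * P (⋃ k ∈ Finset.range (n + 1), (A k ∩ {ω | a ≤ B T ω})) := by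
        rw [measure_biUnion_finset]
        · intro i _ j _ hij
          exact (hdisj hij).mono Set.inter_subset_left Set.inter_subset_left
        · exact fun k _ => (hAm k).inter (measurableSet_le measurable_const (hmeas T))
    _ ≤ 2 * P {ω | a ≤ B T ω} := by
        gcongr 2 * P ?_
        intro ω hω
        simp only [Set.mem_iUnion] at hω
        obtain ⟨k, -, -, h⟩ := hω
        exact h

/-- continuous maximal inequality -/
theorem max_ineq (hB : IsPreBrownianReal B P) (hmeas : ∀ s, Measurable (B s))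
    (hcont : ∀ ω, Continuous (fun s => B s ω)) {T : ℝ≥0} (hT : 0 < T) {a : ℝ} (ha : 0 ≤ a) :
    P {ω | ∃ s ≤ T, a < B s ω} ≤ ENNReal.ofReal (2 * Real.exp (-a ^ 2 / (2 * T))) := by
  have hT' : (0 : ℝ) < T := by exact_mod_cast hT
  let E : ℕ → Set Ω := fun m => {ω | ∃ k : ℕ, k ≤ 2 ^ m ∧ a ≤ B ((k : ℝ≥0) * T / 2 ^ m) ω}
  have hEmono : Monotone E := by
    apply monotone_nat_of_le_succ
    rintro m ω ⟨k, hk, h⟩
    refine ⟨2 * k, by rw [pow_succ]; omega, ?_⟩
    have : ((2 * k : ℕ) : ℝ≥0) * T / 2 ^ (m + 1) = (k : ℝ≥0) * T / 2 ^ m := by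
      rw [pow_succ]; push_cast
      field_simp
    rw [this]; exact h
  have hsub : {ω | ∃ s ≤ T, a < B s ω} ⊆ ⋃ m, E m := by
    rintro ω ⟨s, hs, hlt⟩
    have hc := hcont ω
    have hnh : ∀ᶠ s' in nhds s, a < B s' ω := hc.continuousAt.eventually_const_lt hlt
    obtain ⟨ε, hε, hball⟩ := Metric.eventually_nhds_iff.1 hnh
    obtain ⟨m, hm⟩ : ∃ m : ℕ, (T : ℝ) / 2 ^ m < ε := by
      obtain ⟨m, hm⟩ := pow_unbounded_of_one_lt ((T : ℝ) / ε) (by norm_num : (1 : ℝ) < 2)
      refine ⟨m, ?_⟩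
      rw [div_lt_iff₀ hε] at hm
      rw [div_lt_iff₀ (by positivity)]
      linarith
    refine Set.mem_iUnion.2 ⟨m, ?_⟩
    -- k = floor (s 2^m / T)
    set k := ⌊(s : ℝ) * 2 ^ m / T⌋₊ with hk
    have hk1 : (k : ℝ) ≤ (s : ℝ) * 2 ^ m / T := Nat.floor_le (by positivity)
    have hk2 : (s : ℝ) * 2 ^ m / T < k + 1 := Nat.lt_floor_add_one _
    have hsT : (s : ℝ) ≤ T := by exact_mod_cast hs
    refine ⟨k, ?_, ?_⟩
    · have : (k : ℝ) ≤ 2 ^ m := by
        refine hk1.trans ?_
        rw [div_le_iff₀ hT']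
        nlinarith [show (0 : ℝ) < 2 ^ m by positivity]
      exact_mod_cast this
    · apply le_of_lt
      apply hball
      rw [NNReal.dist_eq]
      push_cast
      rw [abs_sub_lt_iff]
      rw [le_div_iff₀ hT'] at hk1
      rw [div_lt_iff₀ hT'] at hk2
      have h2m : (0 : ℝ) < 2 ^ m := by positivity
      constructor
      · have : (k : ℝ) * T / 2 ^ m ≤ s := by rw [div_le_iff₀ h2m]; exact hk1
        linarith
      · have : (s : ℝ) < k * T / 2 ^ m + T / 2 ^ m := by
          rw [← add_div, lt_div_iff₀ h2m]; linarith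
        linarith
  refine (measure_mono hsub).trans ?_
  rw [hEmono.measure_iUnion]
  refine iSup_le fun m => ?_
  have h1 := max_ineq_discrete hB (2 ^ m) (fun k => (k : ℝ≥0) * T / 2 ^ m) T (by
    intro i j hij
    show (i : ℝ≥0) * T / 2 ^ m ≤ (j : ℝ≥0) * T / 2 ^ m
    gcongr) (by
    intro k hk
    show (k : ℝ≥0) * T / 2 ^ m ≤ T
    rw [div_le_iff₀ (by positivity)]
    rw [mul_comm]
    gcongr
    exact_mod_cast hk) a hmeas
  refine h1.trans ?_
  have h2 : P {ω | a ≤ B T ω} = gaussianReal 0 T {x | a ≤ x} := by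
    have hm : MeasurableSet {x : ℝ | a ≤ x} := measurableSet_Ici
    rw [← (hB.hasLaw_eval T).map_eq, Measure.map_apply (hmeas T) hm]
    rfl
  rw [h2, ENNReal.ofReal_mul (by norm_num)]
  gcongr
  · norm_num
  · exact gaussian_tail hT ha

end MPdd5692
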