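import Mathlib
import Pool.Agent.Work.MP_dd5692_pr.W6

/-!
# W9 : a surviving chain of sites gives an undetected trajectory (helper98)
-/

open MeasureTheory ProbabilityTheory Set
open scoped ENNReal NNReal

namespace MPdd5692

/-- The bridge of `ζ` over `[kT, (k+1)T]` at time `kT + s`. -/
noncomputable def bridge (T : ℝ≥0) (ζ : ℝ≥0 → Plane) (k : ℕ) (s : ℝ≥0) : Plane :=
  ζ (k * T + s) - ζ (k * T) - ((s : ℝ) / T) • (ζ ((k + 1 : ℕ) * T) - ζ (k * T))

/-- Its supremum. -/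
noncomputable def bsup (T : ℝ≥0) (ζ : ℝ≥0 → Plane) (k : ℕ) : ℝ :=
  ⨆ s : Set.Iic T, ‖bridge T ζ k s‖

noncomputable def bnat (T : ℝ≥0) (ζ : ℝ≥0 → Plane) (k : ℕ) : ℕ := ⌈bsup T ζ k⌉₊

/-- The mark of a trajectory. -/
noncomputable def markOf (T : ℝ≥0) (j K : ℕ) (ζ : Traj) : Mark K :=
  (fun k => cellIdx j (ζ.1 ((k : ℕ) * T)), fun k => bnat T ζ.1 k)

lemma continuous_bridge (T : ℝ≥0) {ζ : ℝ≥0 → Plane} (hζ : Continuous ζ) (k : ℕ) :
    Continuous (bridge T ζ k) := by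
  unfold bridge
  fun_prop

lemma norm_bridge_le (T : ℝ≥0) {ζ : ℝ≥0 → Plane} (hζ : Continuous ζ) (k : ℕ) {s : ℝ≥0}
    (hs : s ≤ T) : ‖bridge T ζ k s‖ ≤ bsup T ζ k := by
  have hc : Continuous (fun s : ℝ≥0 => ‖bridge T ζ k s‖) := (continuous_bridge T hζ k).norm
  have hK : IsCompact (Set.Iic T) := by
    have : Set.Iic T = Set.Icc 0 T := by ext x; simp
    rw [this]; exact isCompact_Icc
  have hb : BddAbove (Set.range (fun s : Set.Iic T => ‖bridge T ζ k s‖)) := by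
    have := hK.bddAbove_image (f := fun s : ℝ≥0 => ‖bridge T ζ k s‖) hc.continuousOn
    rw [Set.image_eq_range] at this
    exact this
  exact le_ciSup hb (⟨s, hs⟩ : Set.Iic T)

lemma norm_bridge_le_bnat (T : ℝ≥0) {ζ : ℝ≥0 → Plane} (hζ : Continuous ζ) (k : ℕ) {s : ℝ≥0}
    (hs : s ≤ T) : ‖bridge T ζ k s‖ ≤ bnat T ζ k :=
  (norm_bridge_le T hζ k hs).trans (Nat.le_ceil _)

lemma dist_pt_cellIdx (j : ℕ) (x : Plane) : dist (pt j (cellIdx j x)) x ≤ 3 / 2 * mesh j := by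
  have hk := mesh_pos j
  rw [dist_pt, mul_comm]
  gcongr
  rw [Real.sqrt_le_left (by norm_num)]
  simp only [cellIdx]
  have a1 := abs_sub_round (x 0 / mesh j)
  have a2 := abs_sub_round (x 1 / mesh j)
  have c1 := pow_le_pow_left₀ (abs_nonneg _) a1 2
  have c2 := pow_le_pow_left₀ (abs_nonneg _) a2 2
  rw [sq_abs] at c1 c2
  nlinarith

/-- coordinates of a point and of its cell -/
lemma abs_coord_cellIdx (j : ℕ) (x : Plane) :
    |x 0 - mesh j * (cellIdx j x).1| ≤ mesh j / 2 ∧ |x 1 - mesh j * (cellIdx j x).2| ≤ mesh j / 2 := by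
  have hk := mesh_pos j
  have key : ∀ a : ℝ, |a - mesh j * (round (a / mesh j) : ℝ)| ≤ mesh j / 2 := by
    intro a
    have h := abs_sub_round (a / mesh j)
    have e : a - mesh j * (round (a / mesh j) : ℝ) = mesh j * (a / mesh j - round (a / mesh j)) := by
      field_simp
    rw [e, abs_mul, abs_of_pos hk]
    calc _ ≤ mesh j * (1 / 2) := by gcongr
      _ = _ := by ring
  exact ⟨key _, key _⟩

lemma abs_coord_le_norm (x : Plane) (i : Fin 2) : |x i| ≤ ‖x‖ := by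
  have := PiLp.norm_apply_le x i
  simpa using this

/-- one coordinate of the safety estimate -/
lemma safe_coord {κ a b c p q e : ℝ} {v w z : ℝ} (hκ : 0 < κ) (h1 : |a - κ * v| ≤ κ / 2)
    (h2 : |b - κ * w| ≤ κ / 2) (ht0 : 0 ≤ p) (ht1 : p ≤ 1) (hc : c = a + p * (b - a) + e)
    (he : |e| ≤ q) : κ * |v - z| - κ * |v - w| - q - 3 / 2 * κ ≤ |κ * z - c| := by
  have e1 : |b - a| ≤ κ * |v - w| + κ := by
    have : b - a = (b - κ * w) - (a - κ * v) - κ * (v - w) := by ring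
    rw [this]
    calc _ ≤ |(b - κ * w) - (a - κ * v)| + |κ * (v - w)| := abs_sub _ _
      _ ≤ |b - κ * w| + |a - κ * v| + |κ * (v - w)| := by gcongr; exact abs_sub _ _
      _ ≤ κ / 2 + κ / 2 + κ * |v - w| := by rw [abs_mul, abs_of_pos hκ]; gcongr
      _ = _ := by ring
  have e2 : κ * |v - z| ≤ |κ * z - c| + |p * (b - a)| + |e| + |a - κ * v| := by
    have : κ * |v - z| = |κ * (v - z)| := by rw [abs_mul, abs_of_pos hκ]
    rw [this]
    have : κ * (v - z) = -(κ * z - c) - p * (b - a) - e - (a - κ * v) := by rw [hc]; ring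
    rw [this]
    calc _ ≤ |-(κ * z - c) - p * (b - a) - e| + |a - κ * v| := abs_sub _ _
      _ ≤ |-(κ * z - c) - p * (b - a)| + |e| + |a - κ * v| := by gcongr; exact abs_sub _ _
      _ ≤ |-(κ * z - c)| + |p * (b - a)| + |e| + |a - κ * v| := by gcongr; exact abs_sub _ _
      _ = _ := by rw [abs_neg]
  have e3 : |p * (b - a)| ≤ |b - a| := by
    rw [abs_mul, abs_of_nonneg ht0]
    exact mul_le_of_le_one_left (abs_nonneg _) ht1
  linarith

/-- a safe site is free during the whole time step -/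
lemma safe_free {r : ℝ} {T : ℝ≥0} (hT : 0 < T) {j K : ℕ} {S : Set Traj} {F : Mark K → ℕ}
    (hF : ∀ ζ ∈ S, F (markOf T j K ζ) ≠ 0) {k : Fin K} {z : Site} (hsafe : Safe r j F k z)
    {s : ℝ≥0} (h1 : (k : ℕ) * T ≤ s) (h2 : s ≤ ((k : ℕ) + 1 : ℕ) * T) :
    (s, pt j z) ∈ Free r S := by
  intro ζ hζ
  have hk := mesh_pos j
  have h3 := hsafe _ (hF ζ hζ)
  simp only [markOf, Fin.val_castSucc, Fin.val_succ] at h3
  set x := ζ.1 ((k : ℕ) * T) with hx
  set y := ζ.1 (((k : ℕ) + 1 : ℕ) * T) with hy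
  obtain ⟨u, hu⟩ : ∃ u : ℝ≥0, s = (k : ℕ) * T + u := ⟨s - (k : ℕ) * T, (add_tsub_cancel_of_le h1).symm⟩
  have huT : u ≤ T := by
    rw [hu] at h2
    push_cast at h2
    have : ((k : ℕ) : ℝ≥0) * T + u ≤ (k : ℕ) * T + T := by
      calc _ ≤ _ := h2
        _ = _ := by ring
    exact (add_le_add_iff_left _).1 this
  have hb := norm_bridge_le_bnat T ζ.2 k huT
  have hdec : ζ.1 s = x + ((u : ℝ) / T) • (y - x) + bridge T ζ.1 k u := by
    unfold bridge
    rw [← hu, ← hx, ← hy]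
    abel
  have hT' : (0 : ℝ) < T := by exact_mod_cast hT
  have huT' : (u : ℝ) / T ≤ 1 := by
    rw [div_le_one hT']; exact_mod_cast huT
  have huT0 : 0 ≤ (u : ℝ) / T := by positivity
  set β := bridge T ζ.1 k u with hβ
  have hc0 : ζ.1 s 0 = x 0 + (u : ℝ) / T * (y 0 - x 0) + β 0 := by rw [hdec]; simp
  have hc1 : ζ.1 s 1 = x 1 + (u : ℝ) / T * (y 1 - x 1) + β 1 := by rw [hdec]; simp
  have hβ0 : |β 0| ≤ bnat T ζ.1 k := (abs_coord_le_norm β 0).trans hb
  have hβ1 : |β 1| ≤ bnat T ζ.1 k := (abs_coord_le_norm β 1).trans hb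
  obtain ⟨cx0, cx1⟩ := abs_coord_cellIdx j x
  obtain ⟨cy0, cy1⟩ := abs_coord_cellIdx j y
  have k0 := safe_coord (z := (z.1 : ℝ)) hk cx0 cy0 huT0 huT' hc0 hβ0
  have k1 := safe_coord (z := (z.2 : ℝ)) hk cx1 cy1 huT0 huT' hc1 hβ1
  have d0 : |mesh j * z.1 - ζ.1 s 0| ≤ dist (pt j z) (ζ.1 s) := by
    rw [dist_eq_norm]
    have := abs_coord_le_norm (pt j z - ζ.1 s) 0
    simpa using this
  have d1 : |mesh j * z.2 - ζ.1 s 1| ≤ dist (pt j z) (ζ.1 s) := by
    rw [dist_eq_norm]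
    have := abs_coord_le_norm (pt j z - ζ.1 s) 1
    simpa using this
  show r < dist (pt j z) (ζ.1 s)
  simp only [supN, Prod.fst_sub, Prod.snd_sub] at h3
  push_cast at h3
  have m0 := le_max_left |((cellIdx j x).1 : ℝ) - (cellIdx j y).1| |((cellIdx j x).2 : ℝ) - (cellIdx j y).2|
  have m1 := le_max_right |((cellIdx j x).1 : ℝ) - (cellIdx j y).1| |((cellIdx j x).2 : ℝ) - (cellIdx j y).2|
  have m0' := mul_le_mul_of_nonneg_left m0 hk.le
  have m1' := mul_le_mul_of_nonneg_left m1 hk.le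
  rcases max_choice |((cellIdx j x).1 : ℝ) - z.1| |((cellIdx j x).2 : ℝ) - z.2| with hm | hm
  · rw [hm] at h3
    linarith
  · rw [hm] at h3
    linarith

theorem survives_escapes {r : ℝ} (hr : 0 < r) {T : ℝ≥0} (hT : 0 < T) {j K : ℕ} (hK : 0 < K)
    {S : Set Traj} (hS : LocFin S) {F : Mark K → ℕ}
    (hF : ∀ m, F m ≠ 0 ↔ ∃ ζ ∈ S, markOf T j K ζ = m) (h : Survives r j F) :
    Escapes r S (K * T) := by
  obtain ⟨z, hz0, hz⟩ := h
  have hocc : ∀ k : Fin (K + 1), occAt F k =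
      cellIdx j '' ((fun ζ : Traj => ζ.1 ((k : ℕ) * T)) '' S) := by
    intro k
    ext v
    simp only [occAt, Set.mem_image, Set.mem_ofPred_eq]
    constructor
    · rintro ⟨m, hm, rfl⟩
      obtain ⟨ζ, hζ, rfl⟩ := (hF m).1 hm
      exact ⟨_, ⟨ζ, hζ, rfl⟩, rfl⟩
    · rintro ⟨x, ⟨ζ, hζ, rfl⟩, rfl⟩
      exact ⟨markOf T j K ζ, (hF _).2 ⟨ζ, hζ, rfl⟩, rfl⟩
  have hF' : ∀ ζ ∈ S, F (markOf T j K ζ) ≠ 0 := fun ζ hζ => (hF _).2 ⟨ζ, hζ, rfl⟩
  have key : ∀ k : ℕ, (hk : k < K + 1) → Reach r S (k * T) (pt j (z ⟨k, hk⟩)) := by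
    intro k
    induction k with
    | zero =>
      intro hk
      have h0 := (hz ⟨0, hK⟩).1
      have hz00 : z (Fin.castSucc ⟨0, hK⟩) = 0 := by
        rw [← hz0]; rfl
      rw [hocc] at h0
      have h1 := h0.1
      rw [hz00] at h1
      refine ⟨fun _ => 0, continuous_const, rfl, ?_, ?_⟩
      · intro s hs ζ hζ
        have hs0 : s = 0 := by simpa using hs
        subst hs0
        have h2 := S1 hr h1 (p := ζ.1 0) ⟨ζ, hζ, by simp⟩ (y := 0) (by
          rw [pt_origin]; simp [(mesh_pos j).le])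
        exact h2
      · have : z ⟨0, hk⟩ = 0 := hz0
        rw [this, pt_origin]
    | succ k ih =>
      intro hk
      have hkK : k < K := by omega
      have h1 := ih (by omega)
      obtain ⟨h2, h3⟩ := hz ⟨k, hkK⟩
      rw [hocc] at h2
      have h4 := joinedIn_of_linked hr h2
      refine Reach.step (t := k * T) hS ?_ h1 h4 ?_
      · push_cast
        rw [add_mul, one_mul]
        exact lt_add_of_pos_right _ hT
      · intro s hs1 hs2
        exact safe_free hT hF' h3 hs1 hs2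
  exact (key K (by omega)).escapes

end MPdd5692
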