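import Mathlib
import Pool.Agent.Work.MP_dd5692_pr.MaxB
import Pool.Agent.Work.MP_dd5692_pr.W2
import Pool.Agent.Work.MP_dd5692_pr.W9

/-!
# W4 : tails of planar Brownian motion, tail of the bridge, local finiteness (helper98)
-/

open MeasureTheory ProbabilityTheory Set
open scoped ENNReal NNReal

namespace MPdd5692

lemma coord_cont (w : Traj) (i : Fin 2) : Continuous (fun s : ℝ≥0 => w.1 s i) := by
  have := w.2
  fun_prop

lemma coord_meas (s : ℝ≥0) (i : Fin 2) : Measurable (fun w : Traj => w.1 s i) :=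
  (by fun_prop : Continuous fun x : Plane => x i).measurable.comp (measurable_eval s)

/-- sup of the norm of planar Brownian motion -/
theorem sup_norm_tail {W : Measure Traj} (hW : IsWiener W) {T : ℝ≥0} (hT : 0 < T) {a : ℝ}
    (ha : 0 ≤ a) :
    W {w : Traj | ∃ s ≤ T, a < ‖w.1 s‖} ≤ ENNReal.ofReal (8 * Real.exp (-a ^ 2 / (4 * T))) := by
  have hT' : (0 : ℝ) < T := by exact_mod_cast hT
  set b := a / Real.sqrt 2 with hb
  have hb0 : 0 ≤ b := by positivity
  have hb2 : b ^ 2 = a ^ 2 / 2 := by rw [hb, div_pow, Real.sq_sqrt (by norm_num)]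
  have hone : ∀ i : Fin 2, W {w : Traj | ∃ s ≤ T, b < w.1 s i} ≤
      ENNReal.ofReal (2 * Real.exp (-a ^ 2 / (4 * T))) := by
    intro i
    have h := max_ineq (hW.coord i) (fun s => coord_meas s i) (fun w => coord_cont w i) hT hb0
    rw [hb2] at h
    refine h.trans (le_of_eq ?_)
    congr 3
    field_simp
    ring
  have htwo : ∀ i : Fin 2, W {w : Traj | ∃ s ≤ T, b < -w.1 s i} ≤
      ENNReal.ofReal (2 * Real.exp (-a ^ 2 / (4 * T))) := by
    intro i
    have h := max_ineq (hW.coord i).neg (fun s => (coord_meas s i).neg)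
      (fun w => (coord_cont w i).neg) hT hb0
    rw [hb2] at h
    refine le_trans (le_of_eq ?_) (h.trans (le_of_eq ?_))
    · rfl
    · congr 3
      field_simp
      ring
  have hsub : {w : Traj | ∃ s ≤ T, a < ‖w.1 s‖} ⊆
      ({w : Traj | ∃ s ≤ T, b < w.1 s 0} ∪ {w : Traj | ∃ s ≤ T, b < -w.1 s 0}) ∪
      ({w : Traj | ∃ s ≤ T, b < w.1 s 1} ∪ {w : Traj | ∃ s ≤ T, b < -w.1 s 1}) := by
    rintro w ⟨s, hs, hlt⟩
    by_contra hcon
    simp only [Set.mem_union, Set.mem_ofPred_eq, not_or, not_exists, not_and, not_lt] at hcon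
    obtain ⟨⟨h1, h2⟩, h3, h4⟩ := hcon
    have q0 : |w.1 s 0| ≤ b := abs_le.2 ⟨by linarith [h2 s hs], h1 s hs⟩
    have q1 : |w.1 s 1| ≤ b := abs_le.2 ⟨by linarith [h4 s hs], h3 s hs⟩
    have c0 := pow_le_pow_left₀ (abs_nonneg _) q0 2
    have c1 := pow_le_pow_left₀ (abs_nonneg _) q1 2
    have : ‖w.1 s‖ ≤ a := by
      rw [EuclideanSpace.norm_eq, Real.sqrt_le_left ha]
      simp only [Fin.sum_univ_two, Real.norm_eq_abs]
      rw [hb2] at c0 c1
      linarith
    linarith
  refine (measure_mono hsub).trans ((measure_union_le _ _).trans ?_)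
  refine (add_le_add (measure_union_le _ _) (measure_union_le _ _)).trans ?_
  refine (add_le_add (add_le_add (hone 0) (htwo 0)) (add_le_add (hone 1) (htwo 1))).trans ?_
  rw [← ENNReal.ofReal_add (by positivity) (by positivity),
    ← ENNReal.ofReal_add (by positivity) (by positivity)]
  apply ENNReal.ofReal_le_ofReal
  linarith

/-! ### the bridge -/

lemma measurable_bridge (T : ℝ≥0) (k : ℕ) (s : ℝ≥0) :
    Measurable (fun w : Traj => bridge T w.1 k s) := by
  unfold bridge
  have h : ∀ t : ℝ≥0, Measurable (fun w : Traj => w.1 t) := measurable_eval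
  exact ((h _).sub (h _)).sub (((h _).sub (h _)).const_smul ((s : ℝ) / T))

lemma bsup_le_iff (T : ℝ≥0) {ζ : ℝ≥0 → Plane} (hζ : Continuous ζ) (k : ℕ) (c : ℝ) :
    bsup T ζ k ≤ c ↔ ∀ s ≤ T, ‖bridge T ζ k s‖ ≤ c := by
  constructor
  · intro h s hs
    exact (norm_bridge_le T hζ k hs).trans h
  · intro h
    have : Nonempty (Set.Iic T) := ⟨⟨T, Set.mem_Iic.2 le_rfl⟩⟩
    exact ciSup_le fun s => h s s.2

/-- a dense sequence in `[0,T]` -/
noncomputable def dsq (T : ℝ≥0) (n : ℕ) : ℝ≥0 := min (TopologicalSpace.denseSeq ℝ≥0 n) T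

lemma dsq_le (T : ℝ≥0) (n : ℕ) : dsq T n ≤ T := min_le_right _ _

/-- closed conditions on `[0,T]` need to be checked on a dense sequence only -/
lemma forall_le_iff_dense {T : ℝ≥0} {f : ℝ≥0 → ℝ} (hf : Continuous f) (c : ℝ) :
    (∀ s ≤ T, f s ≤ c) ↔ ∀ n : ℕ, f (dsq T n) ≤ c := by
  constructor
  · intro h n
    exact h _ (dsq_le T n)
  · intro h s hs
    have hcl : IsClosed {x : ℝ≥0 | f (min x T) ≤ c} :=
      isClosed_le (hf.comp (continuous_id.min continuous_const)) continuous_const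
    have hd : Dense (Set.range (TopologicalSpace.denseSeq ℝ≥0)) :=
      TopologicalSpace.denseRange_denseSeq ℝ≥0
    have hsub : Set.range (TopologicalSpace.denseSeq ℝ≥0) ⊆ {x : ℝ≥0 | f (min x T) ≤ c} := by
      rintro _ ⟨n, rfl⟩
      exact h n
    have := hcl.closure_subset_iff.2 hsub (hd s)
    simp only [Set.mem_ofPred_eq] at this
    rwa [min_eq_left hs] at this

/-- open conditions on `[0,T]` can be checked on a dense sequence -/
lemma exists_lt_iff_dense {T : ℝ≥0} {f : ℝ≥0 → ℝ} (hf : Continuous f) (c : ℝ) :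
    (∃ s ≤ T, c < f s) ↔ ∃ n : ℕ, c < f (dsq T n) := by
  have h := forall_le_iff_dense (T := T) hf c
  constructor
  · intro h1
    by_contra hcon
    push Not at hcon
    obtain ⟨s, hs, hlt⟩ := h1
    exact absurd (h.2 hcon s hs) (not_le.2 hlt)
  · rintro ⟨n, hn⟩
    exact ⟨_, dsq_le T n, hn⟩

lemma measurable_bsup (T : ℝ≥0) (k : ℕ) : Measurable (fun w : Traj => bsup T w.1 k) := by
  apply measurable_of_Iic
  intro c
  have : (fun w : Traj => bsup T w.1 k) ⁻¹' Set.Iic c =
      ⋂ n : ℕ, {w : Traj | ‖bridge T w.1 k (dsq T n)‖ ≤ c} := by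
    ext w
    simp only [Set.mem_preimage, Set.mem_Iic, Set.mem_iInter, Set.mem_ofPred_eq]
    rw [bsup_le_iff T w.2, forall_le_iff_dense (continuous_bridge T w.2 k).norm]
  rw [this]
  exact MeasurableSet.iInter fun n =>
    measurableSet_le (measurable_bridge T k _).norm measurable_const

lemma measurable_bnat (T : ℝ≥0) (k : ℕ) : Measurable (fun w : Traj => bnat T w.1 k) := by
  unfold bnat
  exact (measurable_bsup T k).nat_ceil

/-- law of the size of the bridge -/
noncomputable def betaT (W : Measure Traj) (T : ℝ≥0) : Measure ℕ := W.map (fun w => bnat T w.1 0)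

lemma betaT_prob {W : Measure Traj} (hW : IsWiener W) (T : ℝ≥0) :
    IsProbabilityMeasure (betaT W T) := by
  have := hW.isProbabilityMeasure
  exact Measure.isProbabilityMeasure_map (measurable_bnat T 0).aemeasurable

lemma ae_zero {W : Measure Traj} (hW : IsWiener W) : ∀ᵐ w ∂W, w.1 0 = 0 := by
  filter_upwards [(hW.coord 0).eval_zero_ae_eq_zero, (hW.coord 1).eval_zero_ae_eq_zero] with w h0 h1
  ext i
  fin_cases i
  · exact h0
  · exact h1

/-- (W3') tail of the bridge -/
theorem betaT_tail {W : Measure Traj} (hW : IsWiener W) {T : ℝ≥0} (hT : 0 < T) {B : ℕ}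
    (hB : 1 ≤ B) :
    betaT W T {b | B ≤ b} ≤ ENNReal.ofReal (8 * Real.exp (-((B : ℝ) - 1) ^ 2 / (16 * T))) := by
  have hB' : (1 : ℝ) ≤ B := by exact_mod_cast hB
  have hT' : (0 : ℝ) < T := by exact_mod_cast hT
  unfold betaT
  rw [Measure.map_apply (measurable_bnat T 0) (Set.to_countable _).measurableSet]
  have hsub : ∀ᵐ w ∂W, w ∈ (fun w : Traj => bnat T w.1 0) ⁻¹' {b | B ≤ b} →
      w ∈ {w : Traj | ∃ s ≤ T, ((B : ℝ) - 1) / 2 < ‖w.1 s‖} := by
    filter_upwards [ae_zero hW] with w hw0 hw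
    by_contra hcon
    simp only [Set.mem_ofPred_eq, not_exists, not_and, not_lt] at hcon
    have h1 : bsup T w.1 0 ≤ (B : ℝ) - 1 := by
      rw [bsup_le_iff T w.2]
      intro s hs
      unfold bridge
      simp only [Nat.cast_zero, zero_mul, zero_add, hw0, sub_zero, Nat.cast_one, one_mul]
      have hsT : (s : ℝ) / T ≤ 1 := by rw [div_le_one hT']; exact_mod_cast hs
      have hsT0 : 0 ≤ (s : ℝ) / T := by positivity
      refine (norm_sub_le _ _).trans ?_
      rw [norm_smul, Real.norm_of_nonneg hsT0]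
      have e1 := hcon s hs
      have e2 := hcon T le_rfl
      have e3 : (s : ℝ) / T * ‖w.1 T‖ ≤ 1 * ‖w.1 T‖ := by gcongr
      linarith
    have h2 : bnat T w.1 0 ≤ B - 1 := by
      unfold bnat
      rw [Nat.ceil_le]
      rw [Nat.cast_sub hB]
      simpa using h1
    simp only [Set.mem_preimage, Set.mem_ofPred_eq] at hw
    omega
  refine (measure_mono_ae hsub).trans ?_
  refine (sup_norm_tail hW hT (by linarith)).trans (le_of_eq ?_)
  congr 3
  field_simp
  ring

/-! ### local finiteness -/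

/-- (W4) -/
theorem ae_locFin {Ω : Type*} [MeasurableSpace Ω] {W : Measure Traj} {P : Measure Ω} {l : ℝ≥0}
    {N : Ω → Set Traj} (hW : IsWiener W) (hN : IsNodeProcess W P l N) :
    ∀ᵐ ω ∂P, LocFin (N ω) := by
  have hWp := hW.isProbabilityMeasure
  unfold LocFin
  simp only [ae_all_iff]
  intro R t₀
  -- replace t₀ by t > 0
  set t : ℝ≥0 := t₀ + 1 with ht
  have ht0 : 0 < t := by positivity
  have ht0' : (0 : ℝ) < t := by exact_mod_cast ht0
  set c : ℝ := R + 1 with hc
  have hc0 : 0 < c := by positivity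
  let A : Set Traj := {ζ | ∃ s ≤ t, -c < -‖ζ.1 s‖}
  have hA : A = ⋃ n : ℕ, {ζ : Traj | ‖ζ.1 (dsq t n)‖ < c} := by
    ext ζ
    simp only [A, Set.mem_ofPred_eq, Set.mem_iUnion]
    rw [exists_lt_iff_dense (f := fun s => -‖ζ.1 s‖) ζ.2.norm.neg]
    simp
  have hAm : MeasurableSet A := by
    rw [hA]
    exact MeasurableSet.iUnion fun n => measurableSet_lt (measurable_eval _).norm measurable_const
  have hfin : nodeIntensity W l A < ∞ := by
    rw [nodeIntensity_apply W l hAm, Measure.prod_apply (measurable_shift hAm)]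
    refine ENNReal.mul_lt_top ENNReal.coe_lt_top ?_
    have hbound : ∀ x : Plane, W (Prod.mk x ⁻¹' (shift ⁻¹' A)) ≤
        ENNReal.ofReal (8 * Real.exp (c ^ 2 / (4 * t)) * Real.exp (-(1 / (8 * t)) * ‖x‖ ^ 2)) := by
      intro x
      have hsub : Prod.mk x ⁻¹' (shift ⁻¹' A) ⊆ {w : Traj | ∃ s ≤ t, ‖x‖ - c < ‖w.1 s‖} := by
        rintro w ⟨s, hs, hlt⟩
        refine ⟨s, hs, ?_⟩
        simp only [shift] at hlt
        have := norm_sub_norm_le x (-w.1 s)
        rw [norm_neg, sub_neg_eq_add] at this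
        linarith
      rcases le_or_gt ‖x‖ c with hxc | hxc
      · refine prob_le_one.trans ?_
        rw [← ENNReal.ofReal_one]
        apply ENNReal.ofReal_le_ofReal
        rw [mul_assoc, ← Real.exp_add]
        have : 0 ≤ c ^ 2 / (4 * t) + -(1 / (8 * t)) * ‖x‖ ^ 2 := by
          have h1 : ‖x‖ ^ 2 ≤ c ^ 2 := pow_le_pow_left₀ (norm_nonneg _) hxc 2
          have e : c ^ 2 / (4 * t) + -(1 / (8 * t)) * ‖x‖ ^ 2 = (2 * c ^ 2 - ‖x‖ ^ 2) / (8 * t) := by
            field_simp; ring
          rw [e]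
          apply div_nonneg _ (by positivity)
          nlinarith [sq_nonneg c]
        have := Real.one_le_exp this
        linarith
      · refine (measure_mono hsub).trans ((sup_norm_tail hW ht0 (by linarith)).trans ?_)
        apply ENNReal.ofReal_le_ofReal
        rw [mul_assoc, ← Real.exp_add]
        gcongr
        have e : c ^ 2 / (4 * t) + -(1 / (8 * t)) * ‖x‖ ^ 2 - (-(‖x‖ - c) ^ 2 / (4 * t)) =
            (‖x‖ - 2 * c) ^ 2 / (8 * t) := by
          field_simp; ring
        have : 0 ≤ (‖x‖ - 2 * c) ^ 2 / (8 * t) := by positivity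
        linarith
    refine (lintegral_mono hbound).trans_lt ?_
    have hint : Integrable (fun x : Plane =>
        8 * Real.exp (c ^ 2 / (4 * t)) * Real.exp (-(1 / (8 * t)) * ‖x‖ ^ 2)) := by
      apply Integrable.const_mul
      have h := (GaussianFourier.integrable_cexp_neg_mul_sq_norm_add (V := Plane)
        (b := ((1 / (8 * t) : ℝ) : ℂ)) (by simp; positivity) 0 0).norm
      refine h.congr (Filter.Eventually.of_forall fun x => ?_)
      simp only [inner_zero_left, Complex.ofReal_zero, mul_zero, add_zero]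
      rw [Complex.norm_exp]
      congr 1
      norm_cast
    have h2 := hint.lintegral_lt_top
    exact h2
  filter_upwards [IsPoissonProcess.ae_finite hN hAm hfin] with ω hω
  refine hω.subset ?_
  rintro ζ ⟨hζ, s, hs, hR⟩
  refine ⟨hζ, s, hs.trans (by rw [ht]; exact le_self_add), ?_⟩
  rw [hc]
  linarith

end MPdd5692
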