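import Mathlib
import Pool.Agent.Work.MP_dd5692_pr.W3a
import Pool.Agent.Work.MP_dd5692_pr.W4

/-!
# W3b : independence of displacement and bridge, and of the past, for planar Brownian motion
(helper98)
-/

open MeasureTheory ProbabilityTheory Set
open scoped ENNReal NNReal

namespace MPdd5692

/-- pairs of real processes -/
abbrev PP2 := (ℝ≥0 → ℝ) × (ℝ≥0 → ℝ)

/-- increments after time `t` -/
noncomputable def fut (t : ℝ≥0) (w : Traj) : PP2 :=
  (fun s => w.1 (t + s) 0 - w.1 t 0, fun s => w.1 (t + s) 1 - w.1 t 1)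

/-- the past until time `t` -/
noncomputable def past (t : ℝ≥0) (w : Traj) : (Set.Iic t → ℝ) × (Set.Iic t → ℝ) :=
  (fun s => w.1 s 0, fun s => w.1 s 1)

lemma measurable_fut (t : ℝ≥0) : Measurable (fut t) := by
  unfold fut
  apply Measurable.prodMk
  · rw [measurable_pi_iff]; intro s; exact (coord_meas _ 0).sub (coord_meas _ 0)
  · rw [measurable_pi_iff]; intro s; exact (coord_meas _ 1).sub (coord_meas _ 1)

lemma measurable_past (t : ℝ≥0) : Measurable (past t) := by
  unfold past
  apply Measurable.prodMk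
  · rw [measurable_pi_iff]; intro s; exact coord_meas _ 0
  · rw [measurable_pi_iff]; intro s; exact coord_meas _ 1

/-- end point at time `T` -/
noncomputable def endP (T : ℝ≥0) (p : PP2) : Plane := !₂[p.1 T, p.2 T]

/-- the bridge of a pair -/
noncomputable def brP (T : ℝ≥0) (p : PP2) (s : ℝ≥0) : Plane :=
  !₂[p.1 s - (s / T : ℝ) * p.1 T, p.2 s - (s / T : ℝ) * p.2 T]

/-- the size of the bridge, through a dense sequence -/
noncomputable def bP (T : ℝ≥0) (p : PP2) : ℕ := ⌈⨆ n : ℕ, ‖brP T p (dsq T n)‖⌉₊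

lemma measurable_mk2 {α : Type*} [MeasurableSpace α] {f g : α → ℝ} (hf : Measurable f)
    (hg : Measurable g) : Measurable (fun x => (!₂[f x, g x] : Plane)) := by
  have h : Measurable (fun x => (WithLp.toLp 2 (![f x, g x]) : Plane)) := by
    apply (WithLp.measurable_toLp 2 (Fin 2 → ℝ)).comp
    rw [measurable_pi_iff]
    intro i
    fin_cases i
    · exact hf
    · exact hg
  exact h

lemma measurable_endP (T : ℝ≥0) : Measurable (endP T) := by
  unfold endP
  exact measurable_mk2 ((measurable_pi_apply T).comp measurable_fst)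
    ((measurable_pi_apply T).comp measurable_snd)

lemma measurable_bP (T : ℝ≥0) : Measurable (bP T) := by
  unfold bP
  apply Measurable.nat_ceil
  apply Measurable.iSup
  intro n
  apply Measurable.norm
  unfold brP
  exact measurable_mk2
    (((measurable_pi_apply _).comp measurable_fst).sub
      (((measurable_pi_apply T).comp measurable_fst).const_mul _))
    (((measurable_pi_apply _).comp measurable_snd).sub
      (((measurable_pi_apply T).comp measurable_snd).const_mul _))

/-- displacement of the `k`-th step -/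
lemma endP_fut (T : ℝ≥0) (k : ℕ) (w : Traj) :
    endP T (fut (k * T) w) = w.1 ((k + 1 : ℕ) * T) - w.1 (k * T) := by
  have e : (k : ℝ≥0) * T + T = (k + 1 : ℕ) * T := by push_cast; ring
  ext i
  fin_cases i <;> simp [endP, fut, e]

lemma brP_fut (T : ℝ≥0) (k : ℕ) (w : Traj) (s : ℝ≥0) :
    brP T (fut (k * T) w) s = bridge T w.1 k s := by
  have e : (k : ℝ≥0) * T + T = (k + 1 : ℕ) * T := by push_cast; ring
  ext i
  fin_cases i <;> simp [brP, fut, bridge, e]

lemma bP_fut (T : ℝ≥0) (k : ℕ) (w : Traj) : bP T (fut (k * T) w) = bnat T w.1 k := by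
  unfold bP bnat
  congr 1
  simp only [brP_fut]
  have hc := (continuous_bridge T w.2 k).norm
  have hbdd : BddAbove (Set.range fun n : ℕ => ‖bridge T w.1 k (dsq T n)‖) := by
    refine ⟨bsup T w.1 k, ?_⟩
    rintro _ ⟨n, rfl⟩
    exact norm_bridge_le T w.2 k (dsq_le T n)
  apply le_antisymm
  · exact ciSup_le fun n => norm_bridge_le T w.2 k (dsq_le T n)
  · rw [bsup_le_iff T w.2, forall_le_iff_dense hc]
    intro n
    exact le_ciSup hbdd n

section

variable {W : Measure Traj}

/-- the law of the two coordinates -/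
lemma coord_law (hW : IsWiener W) (t : ℝ≥0) :
    W.map (fut t) = W.map (fut 0) := by
  have hp := hW.isProbabilityMeasure
  have hpre : ∀ (i : Fin 2) (t : ℝ≥0),
      IsPreBrownianReal (fun s (w : Traj) => w.1 (t + s) i - w.1 t i) W := fun i t => (hW.coord i).shift t
  have hm : ∀ (i : Fin 2) (t s : ℝ≥0), Measurable (fun w : Traj => w.1 (t + s) i - w.1 t i) :=
    fun i t s => (coord_meas _ i).sub (coord_meas _ i)
  have hind : ∀ t : ℝ≥0, IndepFun (fun (w : Traj) (s : ℝ≥0) => w.1 (t + s) 0 - w.1 t 0)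
      (fun (w : Traj) (s : ℝ≥0) => w.1 (t + s) 1 - w.1 t 1) W := by
    intro t
    have hφ : Measurable (fun (f : ℝ≥0 → ℝ) (s : ℝ≥0) => f (t + s) - f t) := by fun_prop
    exact hW.indep.comp hφ hφ
  have key : ∀ t : ℝ≥0, W.map (fut t) = (W.map (fun (w : Traj) (s : ℝ≥0) => w.1 (t + s) 0 - w.1 t 0)).prod
      (W.map (fun (w : Traj) (s : ℝ≥0) => w.1 (t + s) 1 - w.1 t 1)) := by
    intro t
    exact (indepFun_iff_map_prod_eq_prod_map_map (measurable_pi_iff.2 (hm 0 t)).aemeasurable
      (measurable_pi_iff.2 (hm 1 t)).aemeasurable).1 (hind t)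
  rw [key t, key 0]
  congr 1
  · exact law_unique (hpre 0 t) (hpre 0 0) (hm 0 t) (hm 0 0)
  · exact law_unique (hpre 1 t) (hpre 1 0) (hm 1 t) (hm 1 0)

/-- past and future increments are independent -/
theorem indep_past_fut (hW : IsWiener W) (t : ℝ≥0) : IndepFun (past t) (fut t) W := by
  have hp := hW.isProbabilityMeasure
  have m1 : ∀ i : Fin 2, Measurable (fun (w : Traj) (s : Set.Iic t) => w.1 s i) :=
    fun i => measurable_pi_iff.2 fun s => coord_meas _ i
  have m2 : ∀ i : Fin 2, Measurable (fun (w : Traj) (s : ℝ≥0) => w.1 (t + s) i - w.1 t i) :=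
    fun i => measurable_pi_iff.2 fun s => (coord_meas _ i).sub (coord_meas _ i)
  have h : IndepFun (fun w : Traj => ((fun s : Set.Iic t => w.1 s 0), (fun s : ℝ≥0 => w.1 (t + s) 0 - w.1 t 0)))
      (fun w : Traj => ((fun s : Set.Iic t => w.1 s 1), (fun s : ℝ≥0 => w.1 (t + s) 1 - w.1 t 1))) W := by
    have hφ : Measurable (fun (f : ℝ≥0 → ℝ) => ((fun s : Set.Iic t => f s), (fun s : ℝ≥0 => f (t + s) - f t))) := by
      fun_prop
    exact hW.indep.comp hφ hφ
  exact indep4 (m1 0) (m2 0) (m1 1) (m2 1) h ((hW.coord 0).indepFun_shift t).symm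
    ((hW.coord 1).indepFun_shift t).symm

/-- displacement and bridge are independent -/
theorem indep_end_bridge (hW : IsWiener W) {T : ℝ≥0} (hT : 0 < T) (t : ℝ≥0) :
    IndepFun (fun w => endP T (fut t w)) (fun w => bP T (fut t w)) W := by
  have hp := hW.isProbabilityMeasure
  have hpre : ∀ (i : Fin 2),
      IsPreBrownianReal (fun s (w : Traj) => w.1 (t + s) i - w.1 t i) W := fun i => (hW.coord i).shift t
  have h1 : ∀ i : Fin 2, IndepFun (fun (w : Traj) (_ : Unit) => w.1 (t + T) i - w.1 t i)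
      (fun (w : Traj) (s : Set.Iic T) => (w.1 (t + s) i - w.1 t i) - (s / T : ℝ) * (w.1 (t + T) i - w.1 t i)) W :=
    fun i => indep_bridge (hpre i) hT
  have m1 : ∀ i : Fin 2, Measurable (fun (w : Traj) (_ : Unit) => w.1 (t + T) i - w.1 t i) :=
    fun i => measurable_pi_iff.2 fun _ => (coord_meas _ i).sub (coord_meas _ i)
  have m2 : ∀ i : Fin 2, Measurable (fun (w : Traj) (s : Set.Iic T) =>
      (w.1 (t + s) i - w.1 t i) - (s / T : ℝ) * (w.1 (t + T) i - w.1 t i)) :=
    fun i => measurable_pi_iff.2 fun s => ((coord_meas _ i).sub (coord_meas _ i)).sub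
      (((coord_meas _ i).sub (coord_meas _ i)).const_mul _)
  have h : IndepFun
      (fun w : Traj => ((fun _ : Unit => w.1 (t + T) 0 - w.1 t 0),
        (fun s : Set.Iic T => (w.1 (t + s) 0 - w.1 t 0) - (s / T : ℝ) * (w.1 (t + T) 0 - w.1 t 0))))
      (fun w : Traj => ((fun _ : Unit => w.1 (t + T) 1 - w.1 t 1),
        (fun s : Set.Iic T => (w.1 (t + s) 1 - w.1 t 1) - (s / T : ℝ) * (w.1 (t + T) 1 - w.1 t 1)))) W := by
    have hφ : Measurable (fun (f : ℝ≥0 → ℝ) => ((fun _ : Unit => f (t + T) - f t),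
        (fun s : Set.Iic T => (f (t + s) - f t) - (s / T : ℝ) * (f (t + T) - f t)))) := by
      fun_prop
    exact hW.indep.comp hφ hφ
  have h4 := indep4 (m1 0) (m2 0) (m1 1) (m2 1) h (h1 0) (h1 1)
  -- functions of the two pairs
  let φ : (Unit → ℝ) × (Unit → ℝ) → Plane := fun q => !₂[q.1 (), q.2 ()]
  have hφ : Measurable φ := measurable_mk2 (by fun_prop) (by fun_prop)
  let ψ : (Set.Iic T → ℝ) × (Set.Iic T → ℝ) → ℕ := fun q =>
    ⌈⨆ n : ℕ, ‖(!₂[q.1 ⟨dsq T n, dsq_le T n⟩, q.2 ⟨dsq T n, dsq_le T n⟩] : Plane)‖⌉₊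
  have hψ : Measurable ψ := by
    apply Measurable.nat_ceil
    apply Measurable.iSup
    intro n
    apply Measurable.norm
    exact measurable_mk2 (by fun_prop) (by fun_prop)
  exact h4.comp hφ hψ

/-- joint law of displacement and size of the bridge -/
theorem joint_law (hW : IsWiener W) {T : ℝ≥0} (hT : 0 < T) (k : ℕ) :
    W.map (fun w : Traj => (w.1 ((k + 1 : ℕ) * T) - w.1 (k * T), bnat T w.1 k)) =
      (W.map (fun w : Traj => w.1 T - w.1 0)).prod (betaT W T) := by
  have hp := hW.isProbabilityMeasure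
  have m1 : Measurable (fun w : Traj => endP T (fut (k * T) w)) :=
    (measurable_endP T).comp (measurable_fut _)
  have m2 : Measurable (fun w : Traj => bP T (fut (k * T) w)) :=
    (measurable_bP T).comp (measurable_fut _)
  have h := (indepFun_iff_map_prod_eq_prod_map_map m1.aemeasurable m2.aemeasurable).1
    (indep_end_bridge hW hT (k * T))
  have e1 : (fun w : Traj => (w.1 ((k + 1 : ℕ) * T) - w.1 (k * T), bnat T w.1 k)) =
      fun w => (endP T (fut (k * T) w), bP T (fut (k * T) w)) := by
    ext1 w; rw [endP_fut, bP_fut]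
  rw [e1, h]
  congr 1
  · have : W.map (fun w : Traj => endP T (fut (k * T) w)) = (W.map (fut (k * T))).map (endP T) := by
      rw [Measure.map_map (measurable_endP T) (measurable_fut _)]; rfl
    rw [this, coord_law hW, Measure.map_map (measurable_endP T) (measurable_fut _)]
    congr 1
    ext1 w
    have := endP_fut T 0 w
    simpa using this
  · have : W.map (fun w : Traj => bP T (fut (k * T) w)) = (W.map (fut (k * T))).map (bP T) := by
      rw [Measure.map_map (measurable_bP T) (measurable_fut _)]; rfl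
    rw [this, coord_law hW, Measure.map_map (measurable_bP T) (measurable_fut _)]
    unfold betaT
    congr 1
    ext1 w
    have := bP_fut T 0 w
    simpa using this

end

end MPdd5692
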