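import Mathlib
import Pool.Agent.Work.MP_dd5692_pr.W3b

/-!
# W3c : the joint law of positions and bridges: `markMass` (helper98)
-/

open MeasureTheory ProbabilityTheory Set
open scoped ENNReal NNReal

namespace MPdd5692

lemma measurable_heat (T : ℝ) : Measurable (heat T) := by
  unfold heat
  fun_prop

lemma lintegral_plane (G : Plane → ℝ≥0∞) (hG : Measurable G) :
    ∫⁻ x : Plane, G x = ∫⁻ p : ℝ × ℝ, G (!₂[p.1, p.2]) := by
  have h1 : MeasurePreserving (MeasurableEquiv.toLp 2 (Fin 2 → ℝ)) :=
    (EuclideanSpace.volume_preserving_symm_measurableEquiv_toLp (Fin 2)).symm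
  have h2 : MeasurePreserving (MeasurableEquiv.finTwoArrow (α := ℝ)).symm :=
    (volume_preserving_finTwoArrow ℝ).symm
  have h3 := h1.comp h2
  rw [← h3.lintegral_comp hG]
  apply lintegral_congr
  intro p
  congr 1

lemma heat_eq {T : ℝ≥0} (hT : 0 < T) (a b : ℝ) :
    ENNReal.ofReal (heat T (!₂[a, b])) = gaussianPDF 0 T a * gaussianPDF 0 T b := by
  have hT' : (0 : ℝ) < T := by exact_mod_cast hT
  rw [gaussianPDF_def, ← ENNReal.ofReal_mul (gaussianPDFReal_nonneg 0 T a)]
  congr 1
  rw [gaussianPDFReal_def]
  simp only [sub_zero]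
  unfold heat
  have e1 : ‖(!₂[a, b] : Plane)‖ ^ 2 = a ^ 2 + b ^ 2 := by
    rw [EuclideanSpace.norm_sq_eq]; simp [Fin.sum_univ_two]
  rw [e1]
  have e2 : (2 * Real.pi * T)⁻¹ = (√(2 * Real.pi * T))⁻¹ * (√(2 * Real.pi * T))⁻¹ := by
    rw [← mul_inv, Real.mul_self_sqrt (by positivity)]
  rw [e2]
  have e3 : Real.exp (-(a ^ 2 + b ^ 2) / (2 * T)) = Real.exp (-a ^ 2 / (2 * T)) * Real.exp (-b ^ 2 / (2 * T)) := by
    rw [← Real.exp_add]; congr 1; ring
  rw [e3]
  ring

/-- the displacement over time `T` has density `heat T` -/
theorem lintegral_disp {W : Measure Traj} (hW : IsWiener W) {T : ℝ≥0} (hT : 0 < T)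
    (G : Plane → ℝ≥0∞) (hG : Measurable G) :
    ∫⁻ d, G d ∂(W.map (fun w : Traj => w.1 T - w.1 0)) = ∫⁻ x, G x * ENNReal.ofReal (heat T x) := by
  have hp := hW.isProbabilityMeasure
  have hmw : Measurable (fun w : Traj => w.1 T - w.1 0) := (measurable_eval T).sub (measurable_eval 0)
  have hm : ∀ i : Fin 2, Measurable (fun w : Traj => w.1 (0 + T) i - w.1 0 i) :=
    fun i => (coord_meas _ i).sub (coord_meas _ i)
  have hlaw : ∀ i : Fin 2, W.map (fun w : Traj => w.1 (0 + T) i - w.1 0 i) = gaussianReal 0 T :=
    fun i => (((hW.coord i).shift 0).hasLaw_eval T).map_eq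
  have hind : IndepFun (fun w : Traj => w.1 (0 + T) 0 - w.1 0 0) (fun w : Traj => w.1 (0 + T) 1 - w.1 0 1) W := by
    have hφ : Measurable (fun (f : ℝ≥0 → ℝ) => f (0 + T) - f 0) := by fun_prop
    exact hW.indep.comp hφ hφ
  have hjoint := (indepFun_iff_map_prod_eq_prod_map_map (hm 0).aemeasurable (hm 1).aemeasurable).1 hind
  rw [hlaw, hlaw] at hjoint
  have hG2 : Measurable (fun p : ℝ × ℝ => G (!₂[p.1, p.2])) :=
    hG.comp (measurable_mk2 measurable_fst measurable_snd)
  have e1 : ∫⁻ d, G d ∂(W.map (fun w : Traj => w.1 T - w.1 0)) =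
      ∫⁻ p, G (!₂[p.1, p.2]) ∂((gaussianReal 0 T).prod (gaussianReal 0 T)) := by
    rw [← hjoint, lintegral_map hG2 ((hm 0).prodMk (hm 1)), lintegral_map hG hmw]
    apply lintegral_congr
    intro w
    congr 1
    ext i
    fin_cases i <;> simp
  have hT0 : T ≠ 0 := hT.ne'
  rw [e1, lintegral_plane (fun x => G x * ENNReal.ofReal (heat T x))
    (hG.mul (measurable_heat T).ennreal_ofReal)]
  have hpdf : Measurable (gaussianPDF 0 T) := measurable_gaussianPDF 0 T
  have e2 : (gaussianReal 0 T).prod (gaussianReal 0 T) =
      (volume : Measure (ℝ × ℝ)).withDensity (fun p => gaussianPDF 0 T p.1 * gaussianPDF 0 T p.2) := by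
    rw [gaussianReal_of_var_ne_zero 0 hT0, prod_withDensity hpdf hpdf]
    rfl
  have hpd : Measurable (fun p : ℝ × ℝ => gaussianPDF 0 T p.1 * gaussianPDF 0 T p.2) :=
    (hpdf.comp measurable_fst).mul (hpdf.comp measurable_snd)
  rw [e2, lintegral_withDensity_eq_lintegral_mul _ hpd hG2]
  apply lintegral_congr
  intro p
  rw [heat_eq hT]
  simp only [Pi.mul_apply]
  rw [mul_comm]

/-- positions at the times `0, T, ..., K T` of the trajectory `x + w` -/
noncomputable def posK (K : ℕ) (T : ℝ≥0) (x : Plane) (w : Traj) : Fin (K + 1) → Plane :=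
  fun k => x + w.1 ((k : ℕ) * T)

lemma measurable_posK (K : ℕ) (T : ℝ≥0) : Measurable (fun p : Plane × Traj => posK K T p.1 p.2) := by
  unfold posK
  rw [measurable_pi_iff]
  intro k
  exact measurable_fst.add ((measurable_eval _).comp measurable_snd)

lemma measurable_posK' (K : ℕ) (T : ℝ≥0) (x : Plane) : Measurable (fun w : Traj => posK K T x w) :=
  (measurable_posK K T).comp (measurable_const.prodMk measurable_id)

/-- append a last point -/
noncomputable def app (K : ℕ) (z : Fin (K + 1) → Plane) (y : Plane) : Fin (K + 2) → Plane :=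
  (MeasurableEquiv.piFinSuccAbove (fun _ => Plane) (Fin.last (K + 1))).symm (y, z)

lemma app_castSucc (K : ℕ) (z : Fin (K + 1) → Plane) (y : Plane) (k : Fin (K + 1)) :
    app K z y k.castSucc = z k := by
  unfold app
  have := Fin.insertNth_apply_succAbove (α := fun _ => Plane) (Fin.last (K + 1)) y z k
  rw [Fin.succAbove_last] at this
  exact this

lemma app_last (K : ℕ) (z : Fin (K + 1) → Plane) (y : Plane) :
    app K z y (Fin.last (K + 1)) = y := by
  unfold app
  exact Fin.insertNth_apply_same (α := fun _ => Plane) (Fin.last (K + 1)) y z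

lemma measurable_app (K : ℕ) : Measurable (fun p : (Fin (K + 1) → Plane) × Plane => app K p.1 p.2) := by
  unfold app
  exact (MeasurableEquiv.measurable _).comp (measurable_snd.prodMk measurable_fst)

lemma posK_succ (K : ℕ) (T : ℝ≥0) (x : Plane) (w : Traj) :
    posK (K + 1) T x w = app K (posK K T x w)
      (posK K T x w (Fin.last K) + (w.1 ((K + 1 : ℕ) * T) - w.1 (K * T))) := by
  ext1 k
  refine Fin.lastCases ?_ (fun k => ?_) k
  · rw [app_last]
    simp only [posK, Fin.val_last]
    abel
  · rw [app_castSucc]
    simp only [posK, Fin.val_castSucc]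

/-- the density of the positions -/
noncomputable def dens (K : ℕ) (T : ℝ≥0) (y : Fin (K + 1) → Plane) : ℝ≥0∞ :=
  ∏ k : Fin K, ENNReal.ofReal (heat T (y k.succ - y k.castSucc))

lemma measurable_dens (K : ℕ) (T : ℝ≥0) : Measurable (dens K T) := by
  unfold dens
  apply Finset.measurable_prod
  intro k _
  have h : ∀ k, Measurable (fun y : Fin (K + 1) → Plane => y k) := fun k => measurable_pi_apply k
  exact ((measurable_heat T).comp ((h _).sub (h _))).ennreal_ofReal

lemma dens_app (K : ℕ) (T : ℝ≥0) (z : Fin (K + 1) → Plane) (y : Plane) :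
    dens (K + 1) T (app K z y) = dens K T z * ENNReal.ofReal (heat T (y - z (Fin.last K))) := by
  unfold dens
  rw [Fin.prod_univ_castSucc]
  congr 1
  · apply Finset.prod_congr rfl
    intro k _
    rw [Fin.succ_castSucc, app_castSucc, app_castSucc]
  · rw [Fin.succ_last, app_last, app_castSucc]

lemma lintegral_app (K : ℕ) (G : (Fin (K + 2) → Plane) → ℝ≥0∞) (hG : Measurable G) :
    ∫⁻ y, G y = ∫⁻ z : Fin (K + 1) → Plane, ∫⁻ y : Plane, G (app K z y) := by
  have h := (volume_preserving_piFinSuccAbove (fun _ : Fin (K + 2) => Plane) (Fin.last (K + 1))).symm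
  rw [← h.lintegral_comp hG]
  rw [Measure.volume_eq_prod, lintegral_prod_symm
    (fun a : Plane × (Fin (K + 1) → Plane) =>
      G ((MeasurableEquiv.piFinSuccAbove (fun _ => Plane) (Fin.last (K + 1))).symm a))
    (hG.comp (MeasurableEquiv.measurable _)).aemeasurable]
  rfl

/-- the past data up to step `K` -/
noncomputable def pdata (K : ℕ) (T : ℝ≥0) (w : Traj) : (Fin (K + 1) → Plane) × (Fin K → ℕ) :=
  (fun k => w.1 ((k : ℕ) * T), fun k => bnat T w.1 k)

lemma measurable_pdata (K : ℕ) (T : ℝ≥0) : Measurable (pdata K T) := by
  unfold pdata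
  apply Measurable.prodMk
  · rw [measurable_pi_iff]; exact fun k => measurable_eval _
  · rw [measurable_pi_iff]; exact fun k => measurable_bnat T k

/-- the past data are independent of the next step -/
theorem indep_pdata {W : Measure Traj} (hW : IsWiener W) (K : ℕ) (T : ℝ≥0) :
    IndepFun (pdata K T)
      (fun w : Traj => (w.1 ((K + 1 : ℕ) * T) - w.1 (K * T), bnat T w.1 K)) W := by
  have hle : ∀ k : Fin (K + 1), ((k : ℕ) : ℝ≥0) * T ≤ K * T := by
    intro k
    gcongr
    exact_mod_cast Nat.lt_succ_iff.1 k.2
  have hle2 : ∀ (k : Fin K) (n : ℕ), ((k : ℕ) : ℝ≥0) * T + dsq T n ≤ K * T := by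
    intro k n
    calc ((k : ℕ) : ℝ≥0) * T + dsq T n ≤ ((k : ℕ) : ℝ≥0) * T + T := by gcongr; exact dsq_le T n
      _ = ((k : ℕ) + 1 : ℕ) * T := by push_cast; ring
      _ ≤ K * T := by
        gcongr
        exact_mod_cast Nat.succ_le_of_lt k.2
  have hle3 : ∀ k : Fin K, (((k : ℕ) + 1 : ℕ) : ℝ≥0) * T ≤ K * T := by
    intro k
    gcongr
    exact_mod_cast Nat.succ_le_of_lt k.2
  have hle4 : ∀ k : Fin K, ((k : ℕ) : ℝ≥0) * T ≤ K * T := by
    intro k
    gcongr
    exact_mod_cast k.2.le
  -- functions of the past
  let at' : (s : ℝ≥0) → s ≤ K * T → ((Set.Iic ((K : ℝ≥0) * T) → ℝ) × (Set.Iic ((K : ℝ≥0) * T) → ℝ)) → Plane :=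
    fun s hs q => !₂[q.1 ⟨s, hs⟩, q.2 ⟨s, hs⟩]
  have hat : ∀ s hs, Measurable (at' s hs) := fun s hs => measurable_mk2 (by fun_prop) (by fun_prop)
  let Φ : ((Set.Iic ((K : ℝ≥0) * T) → ℝ) × (Set.Iic ((K : ℝ≥0) * T) → ℝ)) → (Fin (K + 1) → Plane) × (Fin K → ℕ) :=
    fun q => (fun k => at' _ (hle k) q, fun k => ⌈⨆ n : ℕ, ‖at' _ (hle2 k n) q - at' _ (hle4 k) q -
      ((dsq T n : ℝ) / T) • (at' _ (hle3 k) q - at' _ (hle4 k) q)‖⌉₊)
  have hΦ : Measurable Φ := by
    apply Measurable.prodMk
    · rw [measurable_pi_iff]; exact fun k => hat _ _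
    · rw [measurable_pi_iff]; intro k
      apply Measurable.nat_ceil
      apply Measurable.iSup
      intro n
      apply Measurable.norm
      exact ((hat _ (hle2 k n)).sub (hat _ (hle4 k))).sub
        (((hat _ (hle3 k)).sub (hat _ (hle4 k))).const_smul ((dsq T n : ℝ) / T))
  let Ψ : PP2 → Plane × ℕ := fun p => (endP T p, bP T p)
  have hΨ : Measurable Ψ := (measurable_endP T).prodMk (measurable_bP T)
  have h := (indep_past_fut hW (K * T)).comp hΦ hΨ
  have e1 : Φ ∘ past (K * T) = pdata K T := by
    have hat' : ∀ s hs w, at' s hs (past (K * T) w) = w.1 s := by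
      intro s hs w
      ext i
      fin_cases i <;> simp [at', past]
    ext1 w
    simp only [Function.comp, Φ, pdata, hat']
    congr 1
    ext1 k
    rw [← bP_fut]
    unfold bP
    congr 2
    ext1 n
    rw [brP_fut]
    rfl
  have e2 : Ψ ∘ fut (K * T) = fun w : Traj => (w.1 ((K + 1 : ℕ) * T) - w.1 (K * T), bnat T w.1 K) := by
    ext1 w
    simp only [Function.comp, Ψ, endP_fut, bP_fut]
  rw [e1, e2] at h
  exact h

open Classical in
/-- (W3) -/
theorem lintegral_positions {W : Measure Traj} (hW : IsWiener W) {T : ℝ≥0} (hT : 0 < T) (K : ℕ) :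
    ∀ (F : (Fin (K + 1) → Plane) → ℝ≥0∞), Measurable F → ∀ β : Fin K → ℕ,
    ∫⁻ x : Plane, ∫⁻ w, F (posK K T x w) * (if (∀ k : Fin K, bnat T w.1 k = β k) then 1 else 0) ∂W =
      (∫⁻ y, F y * dens K T y) * ∏ k, betaT W T {β k} := by
  have hp := hW.isProbabilityMeasure
  induction K with
  | zero =>
    intro F hF β
    simp only [IsEmpty.forall_iff, if_true, mul_one, Finset.univ_eq_empty, Finset.prod_empty, dens]
    -- swap the integrals and use translation invariance
    rw [lintegral_lintegral_swap (f := fun x w => F (posK 0 T x w))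
      (hF.comp (measurable_posK 0 T)).aemeasurable]
    have h1 : ∀ w : Traj, ∫⁻ x : Plane, F (posK 0 T x w) = ∫⁻ y, F y := by
      intro w
      have h2 : ∫⁻ x : Plane, F (posK 0 T x w) = ∫⁻ x : Plane, F (fun _ => x) := by
        have : ∀ x : Plane, F (posK 0 T x w) = (fun x => F (fun _ => x)) (x + w.1 0) := by
          intro x
          simp only
          congr 1
          ext1 k
          have : (k : ℕ) = 0 := by have := k.2; omega
          simp [posK, this]
        rw [lintegral_congr this]
        exact lintegral_add_right_eq_self (fun x => F (fun _ => x)) (w.1 0)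
      rw [h2]
      have h3 := (volume_preserving_funUnique (Fin 1) Plane).symm
      have h4 := h3.lintegral_comp (f := (F : (Fin 1 → Plane) → ℝ≥0∞)) hF
      refine Eq.trans ?_ h4
      apply lintegral_congr
      intro x
      congr 1
    rw [lintegral_congr h1, lintegral_const, measure_univ, mul_one]
  | succ K ih =>
    intro F hF β
    -- the function after integration of the last step
    let F' : (Fin (K + 1) → Plane) → ℝ≥0∞ := fun z =>
      ∫⁻ y : Plane, F (app K z y) * ENNReal.ofReal (heat T (y - z (Fin.last K)))
    have hF'0 : Measurable (fun p : (Fin (K + 1) → Plane) × Plane =>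
        F (app K p.1 p.2) * ENNReal.ofReal (heat T (p.2 - p.1 (Fin.last K)))) := by
      apply (hF.comp (measurable_app K)).mul
      have h1 : Measurable (fun p : (Fin (K + 1) → Plane) × Plane => p.2) := measurable_snd
      have h2 : Measurable (fun p : (Fin (K + 1) → Plane) × Plane => p.1 (Fin.last K)) :=
        (measurable_pi_apply (Fin.last K)).comp measurable_fst
      exact ((measurable_heat T).comp (h1.sub h2)).ennreal_ofReal
    have hF' : Measurable F' := hF'0.lintegral_prod_right'
    have hinner : ∀ x : Plane, ∫⁻ w, F (posK (K + 1) T x w) *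
        (if (∀ k : Fin (K + 1), bnat T w.1 k = β k) then 1 else 0) ∂W =
        betaT W T {β (Fin.last K)} * ∫⁻ w, F' (posK K T x w) *
          (if (∀ k : Fin K, bnat T w.1 k = β k.castSucc) then 1 else 0) ∂W := by
      intro x
      let H : ((Fin (K + 1) → Plane) × (Fin K → ℕ)) × (Plane × ℕ) → ℝ≥0∞ := fun q =>
        F (app K (fun k => x + q.1.1 k) (x + q.1.1 (Fin.last K) + q.2.1)) *
          (if q.1.2 = (fun k => β k.castSucc) then 1 else 0) * (if q.2.2 = β (Fin.last K) then 1 else 0)
      have hH : Measurable H := by
        apply Measurable.mul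
        · apply Measurable.mul
          · apply hF.comp
            have := (measurable_app K).comp (f := fun q : ((Fin (K + 1) → Plane) × (Fin K → ℕ)) × (Plane × ℕ) =>
              ((fun k => x + q.1.1 k : Fin (K + 1) → Plane), x + q.1.1 (Fin.last K) + q.2.1)) (by fun_prop)
            exact this
          · exact Measurable.ite ((measurable_snd.comp measurable_fst) (measurableSet_singleton _))
              measurable_const measurable_const
        · exact Measurable.ite ((measurable_snd.comp measurable_snd) (measurableSet_singleton _))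
              measurable_const measurable_const
      have hX : Measurable (fun w : Traj => (w.1 ((K + 1 : ℕ) * T) - w.1 (K * T), bnat T w.1 K)) :=
        ((measurable_eval _).sub (measurable_eval _)).prodMk (measurable_bnat T K)
      have hlaw := (indepFun_iff_map_prod_eq_prod_map_map (measurable_pdata K T).aemeasurable
        hX.aemeasurable).1 (indep_pdata hW K T)
      have e0 : ∫⁻ w, F (posK (K + 1) T x w) *
        (if (∀ k : Fin (K + 1), bnat T w.1 k = β k) then 1 else 0) ∂W =
          ∫⁻ w, H (pdata K T w, (w.1 ((K + 1 : ℕ) * T) - w.1 (K * T), bnat T w.1 K)) ∂W := by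
        apply lintegral_congr
        intro w
        simp only [H, posK_succ]
        rw [mul_assoc]
        congr 1
        by_cases h1 : ∀ k : Fin (K + 1), bnat T w.1 k = β k
        · rw [if_pos h1, if_pos, if_pos, mul_one]
          · exact h1 (Fin.last K)
          · ext1 k; exact h1 k.castSucc
        · rw [if_neg h1]
          by_cases h2 : (pdata K T w).2 = fun k => β k.castSucc
          · rw [if_pos h2, if_neg, mul_zero]
            intro h3
            apply h1
            intro k
            refine Fin.lastCases h3 (fun k => ?_) k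
            exact congrFun h2 k
          · rw [if_neg h2, zero_mul]
      have e1 : ∫⁻ w, H (pdata K T w, (w.1 ((K + 1 : ℕ) * T) - w.1 (K * T), bnat T w.1 K)) ∂W =
          ∫⁻ w, ∫⁻ b, H (pdata K T w, b) ∂((W.map (fun w : Traj => w.1 T - w.1 0)).prod (betaT W T)) ∂W := by
        rw [← joint_law hW hT K]
        have : ∫⁻ w, H (pdata K T w, (w.1 ((K + 1 : ℕ) * T) - w.1 (K * T), bnat T w.1 K)) ∂W =
          ∫⁻ q, H q ∂(W.map (fun w => (pdata K T w, (w.1 ((K + 1 : ℕ) * T) - w.1 (K * T), bnat T w.1 K)))) := by
          rw [lintegral_map hH ((measurable_pdata K T).prodMk hX)]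
        rw [this, hlaw]
        have hpm : IsProbabilityMeasure (W.map (fun w : Traj => (w.1 ((K + 1 : ℕ) * T) - w.1 (K * T), bnat T w.1 K))) :=
          Measure.isProbabilityMeasure_map hX.aemeasurable
        rw [lintegral_prod _ hH.aemeasurable, lintegral_map hH.lintegral_prod_right' (measurable_pdata K T)]
      rw [e0, e1, ← lintegral_const_mul]
      · apply lintegral_congr
        intro w
        have hbp := betaT_prob hW T
        have hdp : IsProbabilityMeasure (W.map (fun w : Traj => w.1 T - w.1 0)) :=
          Measure.isProbabilityMeasure_map ((measurable_eval T).sub (measurable_eval 0)).aemeasurable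
        have hHw : Measurable (fun b : Plane × ℕ => H (pdata K T w, b)) :=
          hH.comp (measurable_const.prodMk measurable_id)
        rw [lintegral_prod _ hHw.aemeasurable]
        set c : ℝ≥0∞ := (if (pdata K T w).2 = (fun k => β k.castSucc) then 1 else 0) with hc
        have e2 : ∀ d : Plane, ∫⁻ n, H (pdata K T w, (d, n)) ∂(betaT W T) =
            (F (app K (posK K T x w) (posK K T x w (Fin.last K) + d)) * c) * betaT W T {β (Fin.last K)} := by
          intro d
          have : ∀ n : ℕ, H (pdata K T w, (d, n)) =
              (F (app K (posK K T x w) (posK K T x w (Fin.last K) + d)) * c) *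
                (Set.indicator {β (Fin.last K)} 1 n) := by
            intro n
            simp only [H, hc]
            have e3 : (fun k => x + (pdata K T w).1 k) = posK K T x w := rfl
            have e4 : x + (pdata K T w).1 (Fin.last K) = posK K T x w (Fin.last K) := rfl
            rw [e3, e4]
            congr 1
            by_cases hn : n = β (Fin.last K)
            · simp [hn]
            · simp [hn]
          rw [lintegral_congr this, lintegral_const_mul]
          · rw [lintegral_indicator_one (measurableSet_singleton _)]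
          · exact measurable_const.indicator (measurableSet_singleton _)
        rw [lintegral_congr e2, lintegral_mul_const]
        · rw [lintegral_mul_const]
          · have hG : Measurable (fun d : Plane => F (app K (posK K T x w) (posK K T x w (Fin.last K) + d))) := by
              apply hF.comp
              exact (measurable_app K).comp (measurable_const.prodMk (measurable_const.add measurable_id))
            rw [lintegral_disp hW hT _ hG]
            have e5 : ∫⁻ d : Plane, F (app K (posK K T x w) (posK K T x w (Fin.last K) + d)) *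
                ENNReal.ofReal (heat T d) = F' (posK K T x w) := by
              have := lintegral_add_left_eq_self (μ := (volume : Measure Plane))
                (fun y => F (app K (posK K T x w) y) *
                  ENNReal.ofReal (heat T (y - posK K T x w (Fin.last K)))) (posK K T x w (Fin.last K))
              simp only [add_sub_cancel_left] at this
              exact this
            rw [e5]
            have e6 : c = (if (∀ k : Fin K, bnat T w.1 k = β k.castSucc) then 1 else 0) := by
              rw [hc]
              congr 1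
              apply propext
              constructor
              · intro h k; exact congrFun h k
              · intro h; ext1 k; exact h k
            rw [e6]
            ring
          · apply hF.comp
            exact (measurable_app K).comp (measurable_const.prodMk (measurable_const.add measurable_id))
        · apply Measurable.mul_const
          apply hF.comp
          exact (measurable_app K).comp (measurable_const.prodMk (measurable_const.add measurable_id))
      · apply (hF'.comp (measurable_posK' K T x)).mul
        apply Measurable.ite _ measurable_const measurable_const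
        have : {w : Traj | ∀ k : Fin K, bnat T w.1 k = β k.castSucc} =
            ⋂ k : Fin K, (fun w : Traj => bnat T w.1 k) ⁻¹' {β k.castSucc} := by
          ext w; simp
        rw [this]
        exact MeasurableSet.iInter fun k => measurable_bnat T k (measurableSet_singleton _)
    rw [lintegral_congr hinner, lintegral_const_mul']
    · rw [ih F' hF' (fun k => β k.castSucc), Fin.prod_univ_castSucc]
      have e7 : ∫⁻ z, F' z * dens K T z = ∫⁻ y, F y * dens (K + 1) T y := by
        rw [lintegral_app K (fun y => F y * dens (K + 1) T y) (hF.mul (measurable_dens (K + 1) T))]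
        apply lintegral_congr
        intro z
        simp only [F']
        rw [← lintegral_mul_const]
        · apply lintegral_congr
          intro y
          rw [dens_app]
          ring
        · exact hF'0.comp (measurable_const.prodMk measurable_id)
      rw [e7]
      ring
    · have := betaT_prob hW T
      exact measure_ne_top _ _

end MPdd5692
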