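import Mathlib
import Pool.Agent.Work.MP_dd5692_pr.W3c
import Pool.Agent.Work.MP_dd5692_pr.W14
import Pool.Agent.Work.MP_dd5692_pr.PL1
import Pool.Agent.Work.MP_dd5692_pr.PL2

/-!
# W16 : `Core → Statement` (helper98)
-/

open MeasureTheory ProbabilityTheory Set
open scoped ENNReal NNReal

namespace MPdd5692

/-! ### intensity of the marks -/

lemma bridge_shift (T : ℝ≥0) (x : Plane) (w : Traj) (k : ℕ) (s : ℝ≥0) :
    bridge T (shift (x, w)).1 k s = bridge T w.1 k s := by
  simp only [bridge, shift]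
  congr 1
  · abel
  · congr 1; abel

lemma bnat_shift (T : ℝ≥0) (x : Plane) (w : Traj) (k : ℕ) :
    bnat T (shift (x, w)).1 k = bnat T w.1 k := by
  unfold bnat bsup
  simp only [bridge_shift]

lemma markOf_shift (T : ℝ≥0) (j K : ℕ) (x : Plane) (w : Traj) (m : Mark K) :
    markOf T j K (shift (x, w)) = m ↔
      (∀ k, posK K T x w k ∈ cell j (m.1 k)) ∧ ∀ k : Fin K, bnat T w.1 k = m.2 k := by
  simp only [mem_cell_iff]
  unfold markOf
  simp only [bnat_shift]
  rw [Prod.ext_iff]
  constructor
  · rintro ⟨h1, h2⟩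
    exact ⟨fun k => congrFun h1 k, fun k => congrFun h2 k⟩
  · rintro ⟨h1, h2⟩
    exact ⟨funext h1, funext h2⟩

/-- trajectories with mark `m` -/
def markSet (T : ℝ≥0) (j K : ℕ) (m : Mark K) : Set Traj := {ζ | markOf T j K ζ = m}

lemma measurableSet_markSet (T : ℝ≥0) (j K : ℕ) (m : Mark K) : MeasurableSet (markSet T j K m) := by
  have : markSet T j K m = (⋂ k : Fin (K + 1), (fun ζ : Traj => ζ.1 ((k : ℕ) * T)) ⁻¹' (cell j (m.1 k))) ∩
      ⋂ k : Fin K, (fun ζ : Traj => bnat T ζ.1 k) ⁻¹' {m.2 k} := by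
    ext ζ
    simp only [markSet, Set.mem_ofPred_eq, Set.mem_inter_iff, Set.mem_iInter, Set.mem_preimage,
      Set.mem_singleton_iff, mem_cell_iff]
    unfold markOf
    rw [Prod.ext_iff]
    constructor
    · rintro ⟨h1, h2⟩
      exact ⟨fun k => congrFun h1 k, fun k => congrFun h2 k⟩
    · rintro ⟨h1, h2⟩
      exact ⟨funext h1, funext h2⟩
  rw [this]
  exact (MeasurableSet.iInter fun k => measurable_eval _ (measurableSet_cell j _)).inter
    (MeasurableSet.iInter fun k => measurable_bnat T k (measurableSet_singleton _))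

lemma measurableSet_boxes (j K : ℕ) (v : Fin (K + 1) → Site) :
    MeasurableSet {x : Fin (K + 1) → Plane | ∀ k, x k ∈ cell j (v k)} := by
  have : {x : Fin (K + 1) → Plane | ∀ k, x k ∈ cell j (v k)} =
      ⋂ k, (fun x : Fin (K + 1) → Plane => x k) ⁻¹' (cell j (v k)) := by
    ext x; simp
  rw [this]
  exact MeasurableSet.iInter fun k => measurable_pi_apply k (measurableSet_cell j _)

open Classical in
/-- (W3) the intensity of the trajectories with mark `m` -/
theorem nodeIntensity_markSet {W : Measure Traj} (hW : IsWiener W) (l : ℝ≥0) {T : ℝ≥0}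
    (hT : 0 < T) (j K : ℕ) (m : Mark K) :
    nodeIntensity W l (markSet T j K m) = l * markMass T (betaT W T) j K m := by
  have hp := hW.isProbabilityMeasure
  have hm := measurableSet_markSet T j K m
  rw [nodeIntensity_apply W l hm, Measure.prod_apply (measurable_shift hm)]
  congr 1
  set C : Set (Fin (K + 1) → Plane) := {x | ∀ k, x k ∈ cell j (m.1 k)} with hC
  have hCm : MeasurableSet C := measurableSet_boxes j K m.1
  have h := lintegral_positions hW hT K (C.indicator 1) (measurable_const.indicator hCm) m.2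
  have e1 : ∀ x : Plane, W (Prod.mk x ⁻¹' (shift ⁻¹' markSet T j K m)) =
      ∫⁻ w, (C.indicator 1 (posK K T x w)) *
        (if (∀ k : Fin K, bnat T w.1 k = m.2 k) then 1 else 0) ∂W := by
    intro x
    have hs : MeasurableSet (Prod.mk x ⁻¹' (shift ⁻¹' markSet T j K m)) :=
      measurable_prodMk_left (measurable_shift hm)
    rw [← lintegral_indicator_one hs]
    apply lintegral_congr
    intro w
    by_cases hw : w ∈ Prod.mk x ⁻¹' (shift ⁻¹' markSet T j K m)
    · have hw' := (markOf_shift T j K x w m).1 hw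
      rw [Set.indicator_of_mem hw, Set.indicator_of_mem (show posK K T x w ∈ C from hw'.1),
        if_pos hw'.2]
      simp
    · rw [Set.indicator_of_notMem hw]
      by_cases h1 : posK K T x w ∈ C
      · rw [if_neg, mul_zero]
        intro h2
        exact hw ((markOf_shift T j K x w m).2 ⟨h1, h2⟩)
      · rw [Set.indicator_of_notMem h1, zero_mul]
  rw [lintegral_congr e1, h]
  unfold markMass
  congr 1
  rw [← lintegral_indicator hCm]
  apply lintegral_congr
  intro y
  by_cases hy : y ∈ C
  · rw [Set.indicator_of_mem hy, Set.indicator_of_mem hy]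
    simp [dens]
  · rw [Set.indicator_of_notMem hy, Set.indicator_of_notMem hy, zero_mul]

variable {Ω : Type*} [MeasurableSpace Ω] {W : Measure Traj} {P : Measure Ω} {l : ℝ≥0}
  {N : Ω → Set Traj}

lemma markSet_lt_top (hW : IsWiener W) (l T : ℝ≥0) (j K : ℕ) (m : Mark K) :
    nodeIntensity W l (markSet T j K m) < ∞ := by
  have hp := hW.isProbabilityMeasure
  have hsub : markSet T j K m ⊆ {ζ : Traj | (fun x : Plane => x) (ζ.1 0) ∈ cell j (m.1 0)} := by
    intro ζ hζ
    have h1 : markOf T j K ζ = m := hζ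
    show ζ.1 0 ∈ cell j (m.1 0)
    rw [mem_cell_iff, ← h1]
    simp [markOf]
  refine (measure_mono hsub).trans_lt ?_
  rw [nodeIntensity_eval W l 0 (σ := fun x : Plane => x) (MeasurePreserving.id _)
    (measurableSet_cell j _), volume_cell]
  exact ENNReal.mul_lt_top ENNReal.coe_lt_top ENNReal.coe_lt_top

lemma disjoint_markSet (T : ℝ≥0) (j K : ℕ) :
    Pairwise fun m m' => Disjoint (markSet T j K m) (markSet T j K m') := by
  intro m m' hmm
  rw [Set.disjoint_left]
  intro ζ h1 h2
  exact hmm (h1.symm.trans h2)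

/-- numbers of particles with the different marks -/
noncomputable def markCnt (N : Ω → Set Traj) (T : ℝ≥0) (j K : ℕ) (ω : Ω) : Mark K → ℕ :=
  fun m => cnt N (markSet T j K m) ω

lemma measurable_markCnt (hN : IsNodeProcess W P l N) (T : ℝ≥0) (j K : ℕ) :
    Measurable (markCnt N T j K) :=
  measurable_pi_iff.2 fun m => IsPoissonProcess.measurable_cnt hN (measurableSet_markSet T j K m)

theorem map_markCnt (hW : IsWiener W) (hN : IsNodeProcess W P l N) {T : ℝ≥0} (hT : 0 < T)
    (j K : ℕ) : P.map (markCnt N T j K) = markLaw l T (betaT W T) j K := by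
  have h2 := IsPoissonProcess.map_cnt hN (ι := Mark K) (markSet T j K)
    (measurableSet_markSet T j K) (fun m => markSet_lt_top hW l T j K m) (disjoint_markSet T j K)
  unfold markCnt markLaw
  rw [h2]
  unfold prodPoisson
  congr 1
  ext1 m
  show poissonMeasure ((nodeIntensity W l) (markSet T j K m)).toNNReal = _
  rw [nodeIntensity_markSet hW l hT, ENNReal.toNNReal_mul, ENNReal.toNNReal_coe]

/-! ### measurability of survival -/

lemma measurable_apply_eq {ι : Type*} (i : ι) (k : ℕ) :
    MeasurableSet {F : ι → ℕ | F i = k} := by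
  have h : Measurable (fun F : ι → ℕ => F i) := measurable_pi_apply i
  exact h (measurableSet_singleton k)

lemma measurable_vac {K : ℕ} (ρ : ℝ) (k : Fin (K + 1)) (z : Site) :
    MeasurableSet {F : Mark K → ℕ | z ∈ vacSites ρ (occAt F k)} := by
  have : {F : Mark K → ℕ | z ∈ vacSites ρ (occAt F k)} =
      ⋂ m : Mark K, ⋂ (_ : m.1 k - z ∈ offs ρ), {F | F m = 0} := by
    ext F
    simp only [vacSites, occAt, Set.mem_ofPred_eq, Set.mem_iInter]
    constructor
    · intro h m hm
      by_contra hne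
      exact h _ ⟨m, hne, rfl⟩ hm
    · rintro h v ⟨m, hne, rfl⟩ hm
      exact hne (h m hm)
  rw [this]
  exact MeasurableSet.iInter fun m => MeasurableSet.iInter fun _ => measurable_apply_eq m 0

/-- `n`-step links -/
def stepN (R : Site → Site → Prop) : ℕ → Site → Site → Prop
  | 0 => fun x y => x = y
  | n + 1 => fun x y => ∃ u, stepN R n x u ∧ R u y

lemma reflTransGen_iff_stepN (R : Site → Site → Prop) (x y : Site) :
    Relation.ReflTransGen R x y ↔ ∃ n, stepN R n x y := by
  constructor
  · intro h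
    induction h with
    | refl => exact ⟨0, rfl⟩
    | tail _ hbc ih => obtain ⟨n, hn⟩ := ih; exact ⟨n + 1, _, hn, hbc⟩
  · rintro ⟨n, hn⟩
    induction n generalizing y with
    | zero => rw [show x = y from hn]
    | succ n ih => obtain ⟨u, hu, huy⟩ := hn; exact (ih u hu).tail huy

lemma measurable_linked {K : ℕ} (ρ : ℝ) (k : Fin (K + 1)) (x y : Site) :
    MeasurableSet {F : Mark K → ℕ | Linked Adj4 (vacSites ρ (occAt F k)) x y} := by
  have hstep : ∀ (n : ℕ) (y : Site), MeasurableSet {F : Mark K → ℕ |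
      stepN (fun u v => Adj4 u v ∧ v ∈ vacSites ρ (occAt F k)) n x y} := by
    intro n
    induction n with
    | zero => intro y; exact MeasurableSet.const _
    | succ n ih =>
      intro y
      have : {F : Mark K → ℕ | stepN (fun u v => Adj4 u v ∧ v ∈ vacSites ρ (occAt F k)) (n + 1) x y} =
          ⋃ u : Site, {F : Mark K → ℕ | stepN (fun u v => Adj4 u v ∧ v ∈ vacSites ρ (occAt F k)) n x u} ∩
            ({F : Mark K → ℕ | Adj4 u y} ∩ {F : Mark K → ℕ | y ∈ vacSites ρ (occAt F k)}) := by
        ext F; simp [stepN]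
      rw [this]
      exact MeasurableSet.iUnion fun u => (ih u).inter ((MeasurableSet.const _).inter
        (measurable_vac ρ k y))
  have : {F : Mark K → ℕ | Linked Adj4 (vacSites ρ (occAt F k)) x y} =
      {F : Mark K → ℕ | x ∈ vacSites ρ (occAt F k)} ∩ ⋃ n : ℕ, {F : Mark K → ℕ |
        stepN (fun u v => Adj4 u v ∧ v ∈ vacSites ρ (occAt F k)) n x y} := by
    ext F
    simp only [Linked, Set.mem_ofPred_eq, Set.mem_inter_iff, Set.mem_iUnion, reflTransGen_iff_stepN]
  rw [this]
  exact (measurable_vac ρ k x).inter (MeasurableSet.iUnion fun n => hstep n y)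

lemma measurable_safe (r : ℝ) (j : ℕ) {K : ℕ} (k : Fin K) (z : Site) :
    MeasurableSet {F : Mark K → ℕ | Safe r j F k z} := by
  have : {F : Mark K → ℕ | Safe r j F k z} = ⋂ m : Mark K,
      ⋂ (_ : ¬ (mesh j * supN (m.1 k.castSucc - m.1 k.succ) + m.2 k + r + 5 * mesh j
        < mesh j * supN (m.1 k.castSucc - z))), {F | F m = 0} := by
    ext F
    simp only [Safe, Set.mem_ofPred_eq, Set.mem_iInter]
    constructor
    · intro h m hm
      by_contra hne
      exact hm (h m hne)
    · intro h m hne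
      by_contra hcon
      exact hne (h m hcon)
  rw [this]
  exact MeasurableSet.iInter fun m => MeasurableSet.iInter fun _ => measurable_apply_eq m 0

lemma measurable_survives (r : ℝ) (j K : ℕ) : MeasurableSet {F : Mark K → ℕ | Survives r j F} := by
  have : {F : Mark K → ℕ | Survives r j F} = ⋃ z : Fin (K + 1) → Site, ⋃ (_ : z 0 = 0),
      ⋂ k : Fin K, ({F : Mark K → ℕ | Linked Adj4 (vacSites (range r j) (occAt F k.castSucc))
        (z k.castSucc) (z k.succ)} ∩ {F : Mark K → ℕ | Safe r j F k (z k.succ)}) := by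
    ext F
    simp only [Survives, Set.mem_ofPred_eq, Set.mem_iUnion, Set.mem_iInter, Set.mem_inter_iff,
      exists_prop]
  rw [this]
  exact MeasurableSet.iUnion fun z => MeasurableSet.iUnion fun _ => MeasurableSet.iInter fun k =>
    (measurable_linked _ _ _ _).inter (measurable_safe r j k _)

/-! ### survival of the marks gives an escape -/

theorem escape_prob (hW : IsWiener W) (hN : IsNodeProcess W P l N) {r : ℝ} (hr : 0 < r) {T : ℝ≥0}
    (hT : 0 < T) (j : ℕ) {K : ℕ} (hK : 0 < K) :
    markLaw l T (betaT W T) j K {F | Survives r j F} ≤ P {ω | Escapes r (N ω) (K * T)} := by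
  rw [← map_markCnt hW hN hT j K, Measure.map_apply (measurable_markCnt hN T j K)
    (measurable_survives r j K)]
  have hfin : ∀ᵐ ω ∂P, ∀ m, (N ω ∩ markSet T j K m).Finite := by
    rw [ae_all_iff]
    exact fun m => IsPoissonProcess.ae_finite hN (measurableSet_markSet T j K m)
      (markSet_lt_top hW l T j K m)
  apply measure_mono_ae
  filter_upwards [hfin, ae_locFin hW hN] with ω h1 h2 h3
  refine survives_escapes hr hT hK h2 (F := markCnt N T j K ω) ?_ h3
  intro m
  simp only [markCnt, cnt]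
  have ht : (N ω ∩ markSet T j K m).encard ≠ ⊤ := by
    rw [Set.encard_ne_top_iff]; exact h1 m
  rw [Ne, ENat.toNat_eq_zero, not_or]
  constructor
  · rintro ⟨h4, -⟩
    have h5 : (N ω ∩ markSet T j K m).Nonempty := by
      rw [← Set.encard_ne_zero]; exact h4
    obtain ⟨ζ, hζ, hm⟩ := h5
    exact ⟨ζ, hζ, hm⟩
  · rintro ⟨ζ, hζ, hm⟩
    refine ⟨?_, ht⟩
    intro h0
    rw [Set.encard_eq_zero] at h0
    have : ζ ∈ N ω ∩ markSet T j K m := ⟨hζ, hm⟩
    rw [h0] at this
    exact this

lemma Escapes.anti {r : ℝ} {S : Set Traj} {t t' : ℝ≥0} (htt : t ≤ t') (h : Escapes r S t') :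
    Escapes r S t := by
  obtain ⟨h, hc, h0, hu⟩ := h
  exact ⟨h, hc, h0, fun s hs ζ hζ => hu s (hs.trans htt) ζ hζ⟩

/-- (W16) the wrapper: the discrete core implies the final statement. -/
theorem statement_of_core (hcore : Core) : Statement := by
  intro r hr W hW Ω _ P N hN
  have hP1 : PLa := PLa_of (stmt_DUAL blk_PL1 blk_PL2)
  have hP2 : PLb := PLb_of blk_PL1
  obtain ⟨lc, hlc0, hlc, hbelow, happ⟩ := lamCrit_pos_finite (P := P) (N := N) hP1 hP2 hr hW hN
  have hEV : EV r lc := EV_of_lamCrit hr hW hN hlc0 hbelow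
  have hEO : EO r lc := EO_of_lamCrit hP1 hP2 hr hW hN happ
  obtain ⟨T, j, l', hT, hl', hsurv⟩ := hcore r lc (fun T => betaT W T.toNNReal) hr hlc0
    (fun T _ => betaT_prob hW _)
    (fun T hT B hB => by
      have h := betaT_tail hW (T := T.toNNReal) (by simpa using hT) hB
      rwa [Real.coe_toNNReal T hT.le] at h)
    hEV hEO
  set T' : ℝ≥0 := T.toNNReal with hT'
  have hT'0 : 0 < T' := by simpa [hT'] using hT
  have hTT : (T' : ℝ) = T := Real.coe_toNNReal T hT.le
  have hrho : ∀ x : ℝ≥0, 0 < x → x ≤ l' → rho r P N x ≠ 0 := by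
    intro x hx hxl
    obtain ⟨δ, hδ, hK⟩ := hsurv x hx hxl
    have hle : δ ≤ rho r P N x := by
      unfold rho
      refine le_iInf fun t => ?_
      obtain ⟨K, hKt⟩ : ∃ K : ℕ, t ≤ ((K + 1 : ℕ) : ℝ≥0) * T' := by
        obtain ⟨K, hK⟩ := exists_nat_ge (t / T')
        refine ⟨K, ?_⟩
        rw [div_le_iff₀ hT'0] at hK
        refine hK.trans ?_
        gcongr
        exact le_self_add
      have h1 := hK (K + 1)
      have h2 := escape_prob (P := P x) (N := N x) hW (hN x hx) hr hT'0 j (K := K + 1) (by omega)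
      rw [hTT] at h2
      refine (h1.trans h2).trans ?_
      unfold rhoT
      apply measure_mono
      intro ω hω
      exact Escapes.anti hKt hω
    intro h0
    rw [h0] at hle
    exact absurd hδ (not_lt.2 hle)
  have hdet : (l' : ℝ≥0∞) ≤ lamDet r P N := by
    unfold lamDet
    apply le_sInf
    rintro _ ⟨x, ⟨hx0, hx⟩, rfl⟩
    by_contra hcon
    push Not at hcon
    have : x < l' := by exact_mod_cast hcon
    exact hrho x hx0 this.le hx
  rw [hlc]
  exact lt_of_lt_of_le (by exact_mod_cast hl') hdet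

end MPdd5692
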