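import Pool.Agent.Work.MP_dd5692_pr.InterfaceE

/-! Block CIND (helper94): given the exposed marks, `Success` depends only on `U_{m'}`. -/

open MeasureTheory ProbabilityTheory Set
open scoped ENNReal NNReal BigOperators

namespace MPdd5692

set_option linter.unusedSectionVars false

namespace CIND

variable {q H : ℕ} [NeZero q]

/-- complete an exposed position by the hidden ones -/
def cmp (e : Fin (H + 1) → Bool) (U : HV q H) (c : CMark q H) (i : ℕ)
    (u : Fin (H + 1) → Pos q) : Fin (H + 1) → Pos q :=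
  fun k => if e k then u k else U k ((c, mask e u), i)

lemma mask_cmp (e : Fin (H + 1) → Bool) (U : HV q H) (c : CMark q H) (i : ℕ)
    (u : Fin (H + 1) → Pos q) : mask e (cmp e U c i u) = mask e u := by
  funext k
  unfold mask cmp
  by_cases h : e k = true
  · simp [h]
  · simp [h]

lemma cmp_hid {e : Fin (H + 1) → Bool} {U : HV q H} {c : CMark q H} {i : ℕ}
    {u : Fin (H + 1) → Pos q} {k : Fin (H + 1)} (h : e k = false) :
    cmp e U c i u k = U k ((c, mask e u), i) := by
  unfold cmp; simp [h]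

lemma cmp_exp {e : Fin (H + 1) → Bool} {U : HV q H} {c : CMark q H} {i : ℕ}
    {u : Fin (H + 1) → Pos q} {k : Fin (H + 1)} (h : e k = true) :
    cmp e U c i u k = u k := by
  unfold cmp; simp [h]

/-- the basic property of a particle -/
def Good (e : Fin (H + 1) → Bool) (M : Conf q H) (U : HV q H) (c : CMark q H)
    (u : Fin (H + 1) → Pos q) (i : ℕ) : Prop :=
  i < M (c, mask e u) ∧ ∀ k, e k = false → U k ((c, mask e u), i) = u k

lemma asmE_ne {e : Fin (H + 1) → Bool} {M : Conf q H} {U : HV q H} {c : CMark q H}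
    {u : Fin (H + 1) → Pos q} : asmE e M U (c, u) ≠ 0 ↔ ∃ i, Good e M U c u i := by
  unfold asmE Good
  rw [Finset.card_ne_zero]
  constructor
  · rintro ⟨i, hi⟩
    rw [Finset.mem_filter, Finset.mem_range] at hi
    exact ⟨i, hi⟩
  · rintro ⟨i, hi⟩
    exact ⟨i, by rw [Finset.mem_filter, Finset.mem_range]; exact hi⟩

lemma good_cmp {e : Fin (H + 1) → Bool} {M : Conf q H} {U : HV q H} (U' : HV q H) {c : CMark q H}
    {u : Fin (H + 1) → Pos q} {i : ℕ} (h : Good e M U c u i) :
    Good e M U' c (cmp e U' c i u) i := by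
  unfold Good
  rw [mask_cmp]
  exact ⟨h.1, fun k hk => (cmp_hid hk).symm⟩

lemma cmp_cmp {e : Fin (H + 1) → Bool} {M : Conf q H} {U : HV q H} (U' : HV q H) {c : CMark q H}
    {u : Fin (H + 1) → Pos q} {i : ℕ} (h : Good e M U c u i) :
    cmp e U c i (cmp e U' c i u) = u := by
  funext k
  by_cases hk : e k = true
  · rw [cmp_exp hk, cmp_exp hk]
  · have hk' : e k = false := by simpa using hk
    rw [cmp_hid hk', mask_cmp]
    exact h.2 k hk'

lemma site_congr {c : CMark q H} {u v : Fin (H + 1) → Pos q} {k : Fin (H + 1)} (h : u k = v k) :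
    FMark.site ((c, u) : FMark q H) k = FMark.site ((c, v) : FMark q H) k := by
  unfold FMark.site FMark.loc
  simp only [h]

/-- the occupied set at an exposed or common time -/
lemma et_sub {e : Fin (H + 1) → Bool} {M : Conf q H} {U U' : HV q H} {k : ℕ}
    (hk : ∀ h : k < H + 1, e ⟨k, h⟩ = false → U ⟨k, h⟩ = U' ⟨k, h⟩) :
    et (asmE e M U) k ⊆ et (asmE e M U') k := by
  rintro x ⟨⟨c, u⟩, hθ, h, hx⟩
  obtain ⟨i, hi⟩ := asmE_ne.1 hθ
  refine ⟨(c, cmp e U' c i u), asmE_ne.2 ⟨i, good_cmp U' hi⟩, h, ?_⟩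
  rw [← hx]
  apply site_congr
  by_cases he : e ⟨k, h⟩ = true
  · exact cmp_exp he
  · have he' : e ⟨k, h⟩ = false := by simpa using he
    rw [cmp_hid he', ← hk h he']
    exact hi.2 _ he'

lemma et_eq {e : Fin (H + 1) → Bool} {M : Conf q H} {U U' : HV q H} {k : ℕ}
    (hk : ∀ h : k < H + 1, e ⟨k, h⟩ = false → U ⟨k, h⟩ = U' ⟨k, h⟩) :
    et (asmE e M U) k = et (asmE e M U') k :=
  Set.Subset.antisymm (et_sub hk) (et_sub fun h h' => (hk h h').symm)

lemma hole_imp {e : Fin (H + 1) → Bool} {M : Conf q H} {U U' : HV q H} {m m' : ℕ} {b : Site}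
    (h : HoleC (asmE e M U) m m' b) : HoleC (asmE e M U') m m' b := by
  intro k h1 h2
  rintro ⟨c, u⟩ hθ
  obtain ⟨i, hi⟩ := asmE_ne.1 hθ
  exact h k h1 h2 (c, cmp e U c i u) (asmE_ne.2 ⟨i, good_cmp U hi⟩)

lemma inn_asm (k : ℕ) (y : Site) (R : ℕ) (e : Fin (H + 1) → Bool) (M : Conf q H) (U : HV q H) :
    inn k y R (asmE e M U) = asmE e (inn k y R M) U := by
  funext θ
  unfold inn asmE
  by_cases h : ∃ h : k < H + 1, nrm (θ.1.c ⟨k, h⟩ - y) ≤ R
  · simp only [h, if_true]
  · simp only [h, if_false, Finset.range_zero, Finset.filter_empty, Finset.card_empty]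

lemma proj_asm {m m' : ℕ} (h : m' < H + 1) (hne : m ≠ m') {M : Conf q H} {U U' : HV q H}
    (hU : U ⟨m', h⟩ = U' ⟨m', h⟩) :
    projE (expo H m') (asmE (expo H m) M U) = projE (expo H m') (asmE (expo H m) M U') := by
  have hem : expo H m ⟨m', h⟩ = false := by
    unfold expo
    simp only [decide_eq_false_iff_not]
    exact fun h' => hne h'.symm
  funext θ
  unfold projE
  by_cases hm : mask (expo H m') θ.2 = θ.2
  · simp only [hm, if_true]
    -- masks at time m'
    have hmask : ∀ u v : Fin (H + 1) → Pos q, u ⟨m', h⟩ = v ⟨m', h⟩ →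
        mask (expo H m') u = mask (expo H m') v := by
      intro u v huv
      funext k
      unfold mask
      by_cases hk : expo H m' k = true
      · have hk' : k = ⟨m', h⟩ := by
          unfold expo at hk
          simp only [decide_eq_true_eq] at hk
          exact Fin.ext hk
        rw [hk']
        simp only [huv]
      · simp [hk]
    have hcmp : ∀ (V W : HV q H) (u : Fin (H + 1) → Pos q) (i : ℕ), V ⟨m', h⟩ = W ⟨m', h⟩ →
        Good (expo H m) M V θ.1 u i →
        mask (expo H m') (cmp (expo H m) W θ.1 i u) = mask (expo H m') u := by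
      intro V W u i hVW hg
      apply hmask
      rw [cmp_hid hem, ← hVW]
      exact hg.2 _ hem
    unfold asmE
    rw [← Finset.card_sigma, ← Finset.card_sigma]
    refine Finset.card_nbij' (fun x => ⟨cmp (expo H m) U' θ.1 x.2 x.1, x.2⟩)
      (fun x => ⟨cmp (expo H m) U θ.1 x.2 x.1, x.2⟩) ?_ ?_ ?_ ?_
    · rintro ⟨u, i⟩ hx
      have hx' := Finset.mem_sigma.1 (Finset.mem_coe.1 hx)
      rw [Finset.mem_filter, Finset.mem_filter, Finset.mem_range] at hx'
      have hg : Good (expo H m) M U θ.1 u i := hx'.2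
      apply Finset.mem_coe.2
      rw [Finset.mem_sigma, Finset.mem_filter, Finset.mem_filter, Finset.mem_range]
      exact ⟨⟨Finset.mem_univ _, (hcmp U U' u i hU hg).trans hx'.1.2⟩, good_cmp U' hg⟩
    · rintro ⟨u, i⟩ hx
      have hx' := Finset.mem_sigma.1 (Finset.mem_coe.1 hx)
      rw [Finset.mem_filter, Finset.mem_filter, Finset.mem_range] at hx'
      have hg : Good (expo H m) M U' θ.1 u i := hx'.2
      apply Finset.mem_coe.2
      rw [Finset.mem_sigma, Finset.mem_filter, Finset.mem_filter, Finset.mem_range]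
      exact ⟨⟨Finset.mem_univ _, (hcmp U' U u i hU.symm hg).trans hx'.1.2⟩, good_cmp U hg⟩
    · rintro ⟨u, i⟩ hx
      have hx' := Finset.mem_sigma.1 (Finset.mem_coe.1 hx)
      rw [Finset.mem_filter, Finset.mem_filter, Finset.mem_range] at hx'
      have hg : Good (expo H m) M U θ.1 u i := hx'.2
      show (⟨cmp (expo H m) U θ.1 i (cmp (expo H m) U' θ.1 i u), i⟩ : Σ _, ℕ) = ⟨u, i⟩
      rw [cmp_cmp U' hg]
    · rintro ⟨u, i⟩ hx
      have hx' := Finset.mem_sigma.1 (Finset.mem_coe.1 hx)
      rw [Finset.mem_filter, Finset.mem_filter, Finset.mem_range] at hx'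
      have hg : Good (expo H m) M U' θ.1 u i := hx'.2
      show (⟨cmp (expo H m) U' θ.1 i (cmp (expo H m) U θ.1 i u), i⟩ : Σ _, ℕ) = ⟨u, i⟩
      rw [cmp_cmp U hg]
  · simp only [hm, if_false]

end CIND

open CIND in
theorem stmt_CIND : Stmt_CIND := by
  intro q H _ a δ Λ L lam ρ p uh M U U' m m' h y X' hne _ hU
  have key : ∀ V V' : HV q H, V ⟨m', h⟩ = V' ⟨m', h⟩ →
      SuccE L lam ρ p uh (asmE (expo H m) M V) m m' y X' →
      SuccE L lam ρ p uh (asmE (expo H m) M V') m m' y X' := by
    intro V V' hV hS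
    have hetm : ∀ N : Conf q H, et (asmE (expo H m) N V) m = et (asmE (expo H m) N V') m := by
      intro N
      apply et_eq
      intro hm he
      exfalso
      unfold expo at he
      simp at he
    have hetm' : ∀ N : Conf q H, et (asmE (expo H m) N V) m' = et (asmE (expo H m) N V') m' := by
      intro N
      apply et_eq
      intro _ _
      exact hV
    obtain ⟨⟨hL, hVE⟩, hW, hN⟩ := hS
    refine ⟨⟨?_, ?_⟩, ?_, ?_⟩
    · rw [inn_asm] at hL ⊢
      obtain ⟨h1, h2, b, hb, hh, h3, h4⟩ := hL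
      refine ⟨?_, ?_, b, hb, hole_imp hh, ?_, ?_⟩
      · rw [← hetm]; exact h1
      · rw [← hetm']; exact h2
      · rw [← hetm]; exact h3
      · rw [← hetm']; exact h4
    · rw [← hetm']; exact hVE
    · rw [← hetm']; exact hW
    · unfold NNE at hN ⊢
      obtain ⟨y', hy', hn, h1, h2⟩ := hN
      refine ⟨y', hy', ?_, ?_, ?_⟩
      · unfold niceE at hn ⊢
        rw [← proj_asm h hne hV]
        exact hn
      · rw [← hetm']; exact h1
      · rw [← hetm']; exact h2
  exact ⟨key U U' hU, key U' U hU.symm⟩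

end MPdd5692
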