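import Mathlib

/-! Chebyshev for counts of independent events on a finite product (helper44, for FFP) -/

open MeasureTheory ProbabilityTheory Set

namespace MPdd5692.FFP

variable {β : Type} [MeasurableSpace β] {n : ℕ}

open Classical in
lemma cheb (ν : Fin n → Measure β) [∀ k, IsProbabilityMeasure (ν k)] (s : Finset ℕ)
    (g : ℕ → Fin n) (hg : Set.InjOn g s) (A : ℕ → Set (Fin n → β))
    (hA : ∀ k ∈ s, MeasurableSet (A k))
    (hdep : ∀ k ∈ s, ∀ U U' : Fin n → β, U (g k) = U' (g k) → (U ∈ A k ↔ U' ∈ A k))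
    (a : ℝ) (ha : 0 < a) (hsum : 2 * a ≤ ∑ k ∈ s, (Measure.pi ν).real (A k)) :
    (Measure.pi ν).real {U | ((s.filter fun k => U ∈ A k).card : ℝ) < a} ≤ 2 / a := by
  set μ := Measure.pi ν with hμ
  have : IsProbabilityMeasure μ := by rw [hμ]; infer_instance
  obtain ⟨U0⟩ : Nonempty (Fin n → β) := by
    by_contra hne
    rw [not_nonempty_iff] at hne
    have h1 : μ Set.univ = 1 := measure_univ
    have h2 : (Set.univ : Set (Fin n → β)) = ∅ := Set.eq_empty_of_isEmpty _
    rw [h2, measure_empty] at h1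
    exact zero_ne_one h1
  -- one-coordinate events
  set A' : ℕ → Set β := fun k => {v | Function.update U0 (g k) v ∈ A k} with hA'
  have hA'm : ∀ k ∈ s, MeasurableSet (A' k) := by
    intro k hk
    exact (measurable_update U0 (a := g k)) (hA k hk)
  have hmem : ∀ k ∈ s, ∀ U : Fin n → β, U ∈ A k ↔ U (g k) ∈ A' k := by
    intro k hk U
    rw [hA']
    simp only [Set.mem_ofPred_eq]
    exact hdep k hk _ _ (by rw [Function.update_self])
  set X : ℕ → (Fin n → β) → ℝ := fun k U => (A k).indicator (fun _ => (1 : ℝ)) U with hX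
  have hXm : ∀ k ∈ s, Measurable (X k) := fun k hk =>
    measurable_const.indicator (hA k hk)
  have hX01 : ∀ k U, 0 ≤ X k U ∧ X k U ≤ 1 := by
    intro k U
    simp only [hX, Set.indicator_apply]
    split_ifs <;> norm_num
  have hXL : ∀ k ∈ s, MemLp (X k) 2 μ := by
    intro k hk
    refine MemLp.of_bound (hXm k hk).aestronglyMeasurable 1 (Filter.Eventually.of_forall fun U => ?_)
    rw [Real.norm_eq_abs, abs_of_nonneg (hX01 k U).1]
    exact (hX01 k U).2
  have hint : ∀ k ∈ s, ∫ U, X k U ∂μ = μ.real (A k) := by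
    intro k hk
    simp only [hX]
    rw [integral_indicator_const _ (hA k hk), smul_eq_mul, mul_one]
  have hind : Set.Pairwise (↑s : Set ℕ) fun i j => IndepFun (X i) (X j) μ := by
    intro i hi j hj hij
    have hne : g i ≠ g j := fun h => hij (hg hi hj h)
    have h0 : iIndepFun (fun (k : Fin n) (U : Fin n → β) => U k) μ := by
      have := iIndepFun_pi (μ := ν) (X := fun k => (id : β → β)) (fun k => aemeasurable_id)
      simpa using this
    have h1 := h0.indepFun hne
    have m1 : Measurable (fun v => (A' i).indicator (fun _ => (1 : ℝ)) v) :=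
      measurable_const.indicator (hA'm i hi)
    have m2 : Measurable (fun v => (A' j).indicator (fun _ => (1 : ℝ)) v) :=
      measurable_const.indicator (hA'm j hj)
    have h2 := h1.comp m1 m2
    have e1 : X i = (fun v => (A' i).indicator (fun _ => (1 : ℝ)) v) ∘ (fun U : Fin n → β => U (g i)) := by
      funext U
      simp only [hX, Function.comp, Set.indicator_apply, hmem i hi U]
    have e2 : X j = (fun v => (A' j).indicator (fun _ => (1 : ℝ)) v) ∘ (fun U : Fin n → β => U (g j)) := by
      funext U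
      simp only [hX, Function.comp, Set.indicator_apply, hmem j hj U]
    rw [e1, e2]
    exact h2
  set Z : (Fin n → β) → ℝ := ∑ k ∈ s, X k with hZ
  have hZL : MemLp Z 2 μ := memLp_finset_sum' s hXL
  have hEZ : ∫ U, Z U ∂μ = ∑ k ∈ s, μ.real (A k) := by
    have : ∀ U, Z U = ∑ k ∈ s, X k U := fun U => by rw [hZ, Finset.sum_apply]
    simp_rw [this]
    rw [integral_finset_sum _ fun k hk => (hXL k hk).integrable (by norm_num)]
    exact Finset.sum_congr rfl hint
  set σ : ℝ := ∑ k ∈ s, μ.real (A k) with hσ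
  have hσpos : 0 < σ := by linarith
  have hVar : variance Z μ ≤ σ := by
    rw [hZ, IndepFun.variance_sum hXL hind, hσ]
    refine Finset.sum_le_sum fun k hk => ?_
    refine (variance_le_expectation_sq (hXm k hk).aestronglyMeasurable).trans ?_
    rw [← hint k hk]
    refine integral_mono ((hXL k hk).integrable_sq) ((hXL k hk).integrable (by norm_num)) ?_
    intro U
    show (X k ^ 2) U ≤ X k U
    simp only [Pi.pow_apply]
    nlinarith [(hX01 k U).1, (hX01 k U).2]
  have hsub : {U : Fin n → β | ((s.filter fun k => U ∈ A k).card : ℝ) < a} ⊆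
      {U | σ / 2 ≤ |Z U - ∫ U, Z U ∂μ|} := by
    intro U hU
    simp only [Set.mem_ofPred_eq] at hU ⊢
    have hZU : Z U = ((s.filter fun k => U ∈ A k).card : ℝ) := by
      rw [hZ, Finset.sum_apply, Finset.card_filter]
      push_cast
      refine Finset.sum_congr rfl fun k _ => ?_
      simp only [hX, Set.indicator_apply]
    rw [hEZ, hZU, abs_sub_comm]
    refine le_trans ?_ (le_abs_self _)
    linarith
  have hch := meas_ge_le_variance_div_sq hZL (c := σ / 2) (by linarith)
  have h3 : μ.real {U : Fin n → β | ((s.filter fun k => U ∈ A k).card : ℝ) < a} ≤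
      μ.real {U | σ / 2 ≤ |Z U - ∫ U, Z U ∂μ|} := measureReal_mono hsub
  have h4 : μ.real {U | σ / 2 ≤ |Z U - ∫ U, Z U ∂μ|} ≤ variance Z μ / (σ / 2) ^ 2 := by
    rw [Measure.real]
    refine ENNReal.toReal_le_of_le_ofReal (by positivity [variance_nonneg Z μ]) hch
  have h5 : variance Z μ / (σ / 2) ^ 2 ≤ σ / (σ / 2) ^ 2 := by
    gcongr
  have h6 : σ / (σ / 2) ^ 2 = 4 / σ := by field_simp; ring
  have h7 : 4 / σ ≤ 2 / a := by
    rw [div_le_div_iff₀ hσpos ha]; linarith
  linarith

end MPdd5692.FFP
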