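import Pool.Agent.Work.MP_dd5692_pr.InterfaceE
import Pool.Agent.Work.MP_dd5692_pr.FFP_cheb44

/-! General lemmas for FFP (helper44) -/

open MeasureTheory ProbabilityTheory Set
open scoped ENNReal NNReal BigOperators

namespace MPdd5692.FFP

section gen

variable {α β : Type} [MeasurableSpace α] [MeasurableSpace β]

lemma measurable_sec (ν : Measure β) [IsProbabilityMeasure ν] {T : Set (α × β)}
    (hT : MeasurableSet T) : Measurable fun x => ν.real {y | (x, y) ∈ T} :=
  (measurable_measure_prodMk_left hT).ennreal_toReal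

lemma real_sec (μ : Measure α) (ν : Measure β) [IsProbabilityMeasure μ] [IsProbabilityMeasure ν]
    {T : Set (α × β)} (hT : MeasurableSet T) :
    (μ.prod ν).real T = ∫ x, ν.real {y | (x, y) ∈ T} ∂μ := by
  have h1 : (μ.prod ν) T = ∫⁻ x, ν (Prod.mk x ⁻¹' T) ∂μ := Measure.prod_apply hT
  have h2 := integral_toReal (μ := μ) (f := fun x => ν (Prod.mk x ⁻¹' T))
    (measurable_measure_prodMk_left hT).aemeasurable
    (Filter.Eventually.of_forall fun x => measure_lt_top ν _)
  rw [Measure.real, h1, ← h2]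
  rfl

lemma markov (μ : Measure α) [IsProbabilityMeasure μ] {f : α → ℝ} (hf : Integrable f μ)
    (h0 : ∀ x, 0 ≤ f x) {a : ℝ} (ha : 0 < a) : μ.real {x | a ≤ f x} ≤ (∫ x, f x ∂μ) / a := by
  have := mul_meas_ge_le_integral_of_nonneg (μ := μ) (Filter.Eventually.of_forall h0) hf a
  rw [le_div_iff₀ ha, mul_comm]
  exact this

lemma markov2 (μ : Measure α) [IsProbabilityMeasure μ] (s : Finset ℕ) (f : ℕ → α → ℝ)
    (hf : ∀ k ∈ s, Measurable (f k)) (hb : ∀ k x, |f k x| ≤ 1) {ε a : ℝ}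
    (hε : ∀ k ∈ s, ∫ x, f k x ^ 2 ∂μ ≤ ε) (ha : 0 < a) :
    μ.real {x | a ≤ ∑ k ∈ s, |f k x|} ≤ (s.card : ℝ) ^ 2 * ε / a ^ 2 := by
  have hi : ∀ k ∈ s, Integrable (fun x => f k x ^ 2) μ := by
    intro k hk
    refine Integrable.of_bound ((hf k hk).pow_const 2).aestronglyMeasurable 1
      (Filter.Eventually.of_forall fun x => ?_)
    rw [Real.norm_eq_abs, abs_pow]
    exact pow_le_one₀ (abs_nonneg _) (hb k x)
  have hsub : {x | a ≤ ∑ k ∈ s, |f k x|} ⊆ {x | a ^ 2 ≤ (s.card : ℝ) * ∑ k ∈ s, f k x ^ 2} := by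
    intro x hx
    simp only [Set.mem_ofPred_eq] at hx ⊢
    have h1 : a ^ 2 ≤ (∑ k ∈ s, |f k x|) ^ 2 := pow_le_pow_left₀ ha.le hx 2
    have h2 := sq_sum_le_card_mul_sum_sq (s := s) (f := fun k => |f k x|)
    simp only [sq_abs] at h2
    exact h1.trans h2
  have hI : Integrable (fun x => (s.card : ℝ) * ∑ k ∈ s, f k x ^ 2) μ :=
    (integrable_finsetSum s hi).const_mul _
  refine (measureReal_mono hsub).trans ?_
  refine (markov μ hI (fun x => by positivity) (by positivity)).trans ?_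
  rw [integral_const_mul, integral_finsetSum s hi]
  have h3 : ∑ k ∈ s, ∫ x, f k x ^ 2 ∂μ ≤ s.card * ε := by
    calc ∑ k ∈ s, ∫ x, f k x ^ 2 ∂μ ≤ ∑ k ∈ s, ε := Finset.sum_le_sum hε
      _ = s.card * ε := by rw [Finset.sum_const, nsmul_eq_mul]
  have h4 : (s.card : ℝ) * ∑ k ∈ s, ∫ x, f k x ^ 2 ∂μ ≤ (s.card : ℝ) ^ 2 * ε := by
    calc (s.card : ℝ) * ∑ k ∈ s, ∫ x, f k x ^ 2 ∂μ ≤ (s.card : ℝ) * (s.card * ε) :=
          mul_le_mul_of_nonneg_left h3 (by positivity)
      _ = (s.card : ℝ) ^ 2 * ε := by ring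
  gcongr

open Classical in
lemma meas_card (s : Finset ℕ) (Q : ℕ → α → Prop) (hQ : ∀ k ∈ s, MeasurableSet {x | Q k x}) :
    Measurable (fun x => ((s.filter fun k => Q k x).card : ℝ)) := by
  have h : (fun x => ((s.filter fun k => Q k x).card : ℝ)) =
      fun x => ∑ k ∈ s, ({x | Q k x}.indicator (fun _ => (1 : ℝ)) x) := by
    funext x
    rw [Finset.card_filter]
    push_cast
    refine Finset.sum_congr rfl fun k _ => ?_
    simp only [Set.indicator_apply, Set.mem_ofPred_eq]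
  rw [h]
  exact Finset.measurable_fun_sum s fun k hk => measurable_const.indicator (hQ k hk)

end gen

instance cmark_countable (q H : ℕ) : Countable (CMark q H) := by
  have hinj : Function.Injective
      (fun ξ : CMark q H => (ξ.c, ξ.g, ξ.b, ξ.r)) := by
    intro ξ ξ' h
    simp only [Prod.mk.injEq] at h
    obtain ⟨h1, h2, h3, h4⟩ := h
    cases ξ; cases ξ'
    simp_all
  exact hinj.countable

instance unif_prob (q : ℕ) [NeZero q] : IsProbabilityMeasure (unif q) := by
  unfold unif; infer_instance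

instance hm_prob (q H : ℕ) [NeZero q] : IsProbabilityMeasure (hm q H) := by
  unfold hm; infer_instance

variable {q H : ℕ} [NeZero q]

/-- the exposed configuration is supported on the masked marks -/
def Sup (e : Fin (H + 1) → Bool) (M : Conf q H) : Prop := ∀ θ, mask e θ.2 ≠ θ.2 → M θ = 0

lemma real_eq (hS : Stmt_SPLIT) {a δ Λ : ℝ} (L : MarkLaw q H a δ Λ) (lam : ℝ≥0)
    (e : Fin (H + 1) → Bool) {S : Set (Conf q H)} (hm' : MeasurableSet S) :
    (L.PP lam).real S =
      ((pois (muE L lam e)).prod (hm q H)).real {r | asmE e r.1 r.2 ∈ S} := by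
  obtain ⟨h1, h2, _⟩ := hS q H a δ Λ L lam e
  rw [← h2, Measure.real, Measure.map_apply h1 hm']
  rfl

lemma ae_sup (hS : Stmt_SPLIT) {a δ Λ : ℝ} (L : MarkLaw q H a δ Λ) (lam : ℝ≥0)
    (e : Fin (H + 1) → Bool) : ∀ᵐ M ∂(pois (muE L lam e)), Sup e M :=
  (hS q H a δ Λ L lam e).2.2.2.1

lemma ae_sup2 (hS : Stmt_SPLIT) {a δ Λ : ℝ} (L : MarkLaw q H a δ Λ) (lam : ℝ≥0)
    (e : Fin (H + 1) → Bool) :
    ∀ᵐ r ∂((pois (muE L lam e)).prod (hm q H)), Sup e r.1 :=
  Measure.quasiMeasurePreserving_fst.ae (ae_sup hS L lam e)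

/-- at an exposed time the occupied set is determined by the exposed configuration -/
lemma et_asm (e : Fin (H + 1) → Bool) {M : Conf q H} (hM : Sup e M) (U : HV q H) {k : ℕ}
    (h : k < H + 1) (hk : e ⟨k, h⟩ = true) : et (asmE e M U) k = et M k := by
  have hloc : ∀ (c : CMark q H) (u : Fin (H + 1) → Pos q),
      FMark.site (c, mask e u) ⟨k, h⟩ = FMark.site (c, u) ⟨k, h⟩ := by
    intro c u
    have h1 : FMark.loc (c, mask e u) ⟨k, h⟩ = FMark.loc (c, u) ⟨k, h⟩ := by
      unfold FMark.loc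
      have h2 : mask e u ⟨k, h⟩ = u ⟨k, h⟩ := by unfold mask; rw [if_pos hk]
      simp only [h2]
    unfold FMark.site
    rw [h1]
  ext x
  constructor
  · rintro ⟨θ, hθ, h', hx⟩
    refine ⟨(θ.1, mask e θ.2), ?_, h', ?_⟩
    · intro h0
      apply hθ
      unfold asmE
      rw [h0]
      simp
    · rw [← hx]
      exact hloc θ.1 θ.2
  · rintro ⟨θ, hθ, h', hx⟩
    have hmask : mask e θ.2 = θ.2 := by
      by_contra hne
      exact hθ (hM θ hne)
    set v : Fin (H + 1) → Pos q := fun j => if e j then θ.2 j else U j (θ, 0) with hv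
    have hmv : mask e v = θ.2 := by
      rw [← hmask]
      funext j
      unfold mask
      by_cases hj : e j = true
      · rw [if_pos hj, if_pos hj, hv]; simp [hj]
      · rw [if_neg hj, if_neg hj]
    refine ⟨(θ.1, v), ?_, h', ?_⟩
    · intro h0
      unfold asmE at h0
      rw [Finset.card_eq_zero, Finset.filter_eq_empty_iff] at h0
      have hmv' : mask e ((θ.1, v) : FMark q H).2 = θ.2 := hmv
      have hpos : 0 < M (θ.1, mask e ((θ.1, v) : FMark q H).2) := by
        rw [hmv']; exact Nat.pos_of_ne_zero hθ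
      apply h0 (Finset.mem_range.2 hpos)
      intro j hj
      rw [hmv']
      show U j ((θ.1, θ.2), 0) = v j
      simp [hv, hj]
    · rw [← hx, ← hloc]
      show FMark.site (θ.1, mask e v) ⟨k, h⟩ = FMark.site θ ⟨k, h⟩
      rw [hmv]

/-- `mixC` is measurable -/
lemma meas_mix (k : ℕ) (y : Site) (R : ℕ) :
    Measurable fun r : Conf q H × Conf q H => mixC k y R r.1 r.2 := by
  classical
  refine measurable_pi_iff.2 fun θ => ?_
  unfold mixC
  by_cases hθ : ∃ h : k < H + 1, nrm (θ.1.c ⟨k, h⟩ - y) ≤ R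
  · simp only [hθ, if_true]
    exact (measurable_pi_apply θ).comp measurable_fst
  · simp only [hθ, if_false]
    exact (measurable_pi_apply θ).comp measurable_snd

end MPdd5692.FFP
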