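import Mathlib
import Pool.Agent.Work.MP_dd5692_pr.Iface98

/-!
# MP_dd5692_pr, d = 2: common discrete definitions for (A)-(D)  (see PLAN.md), helper14

Built on helper98's `Iface98.lean` (sites, `Adj4`, `Adj8`, `Linked`, `vacSites`, `stat`, `occ`).
An s-cell is a block of `q x q` cells / sites.
-/

open MeasureTheory ProbabilityTheory Set
open scoped ENNReal NNReal BigOperators

namespace MPdd5692

/-- sup norm on `Site` -/
def nrm (x : Site) : ℤ := max |x.1| |x.2|

/-- some site of `A` is linked to some site of `B` inside `S`. -/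
def LinkedS (adj : Site → Site → Prop) (S A B : Set Site) : Prop :=
  ∃ a ∈ A, ∃ b ∈ B, Linked adj S a b

/-- `A` and `B` are linked inside `S`, the two terminals `A`, `B` being wired. -/
def Wired (adj : Site → Site → Prop) (S A B : Set Site) : Prop :=
  LinkedS adj (S ∪ A ∪ B) A B

/-- sup-norm ball of radius `a` -/
def box (z : Site) (a : ℕ) : Set Site := {x | nrm (x - z) ≤ a}

/-- index of the s-cell of a site or cell -/
def cidx (q : ℕ) (x : Site) : Site := (x.1 / (q : ℤ), x.2 / (q : ℤ))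

/-- union of the s-cells with index in `box z a` -/
def cbox (q : ℕ) (z : Site) (a : ℕ) : Set Site := {x | cidx q x ∈ box z a}

/-- vacant arm from the block `cbox z a` to the outside of `cbox z' b`;
`S` = set of occupied mesh cells, `ρ` = range -/
def Arm (ρ : ℝ) (q : ℕ) (S : Set Site) (z : Site) (a : ℕ) (z' : Site) (b : ℕ) : Prop :=
  Wired Adj4 (vacSites ρ S) (cbox q z a) (cbox q z' b)ᶜ

/-- no occupied crossing of the ring (= a vacant circuit in it) -/
def UU (ρ : ℝ) (q : ℕ) (S : Set Site) (z : Site) (a b : ℕ) : Prop :=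
  ¬ Wired Adj8 (vacSites ρ S)ᶜ (cbox q z a) (cbox q z b)ᶜ

/-- no vacant crossing of the ring (= an occupied circuit in it) -/
def NV (ρ : ℝ) (q : ℕ) (S : Set Site) (z : Site) (a b : ℕ) : Prop :=
  ¬ Wired Adj4 (vacSites ρ S) (cbox q z a) (cbox q z b)ᶜ

/-- probability of an event of the set of occupied mesh cells under the static law -/
noncomputable def SP (l : ℝ≥0) (j : ℕ) (E : Set Site → Prop) : ℝ :=
  (stat l j).real {η | E (occ η)}

/-- one-arm probability `alpha(a,b)` in units of s-cells -/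
noncomputable def alpha (ρ : ℝ) (q : ℕ) (l : ℝ≥0) (j : ℕ) (a b : ℕ) : ℝ :=
  SP l j (fun S => Arm ρ q S 0 a 0 b)

/-- the constants delivered by the static part (A), in units of s-cells: `c` for circuits,
exponent `1 - e` for arms. -/
structure StaticOK (c e : ℝ) (nmax : ℕ) (ρ : ℝ) (q : ℕ) (l : ℝ≥0) (j : ℕ) : Prop where
  c_pos : 0 < c
  e_pos : 0 < e
  e_lt : e < 1
  ρ_pos : 1 ≤ ρ
  /-- the range is shorter than a cell -/
  short : 20 * (ρ + 2) ≤ q
  U_ge : ∀ a b : ℕ, 11 * (2 * a + 1) ≤ 10 * (2 * b + 1) → b ≤ nmax →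
    c ≤ SP l j (fun S => UU ρ q S 0 a b)
  NV_ge : ∀ a b : ℕ, 11 * (2 * a + 1) ≤ 10 * (2 * b + 1) → b ≤ nmax →
    c ≤ SP l j (fun S => NV ρ q S 0 a b)
  arm_ge : ∀ a b : ℕ, a ≤ b → b ≤ nmax →
    c * ((2 * (a : ℝ) + 1) / (2 * b + 1)) ^ (1 - e) ≤ alpha ρ q l j a b

/-! ## Marks and the particle family -/

/-- coarse mark over the times `0..H`: s-cell, flag of each step (`true` = type G),
size of the bridge, revealed position inside the s-cell. -/
structure CMark (q H : ℕ) where
  c : Fin (H + 1) → Site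
  g : Fin H → Bool
  b : Fin H → ℕ
  r : Fin (H + 1) → Fin q × Fin q

/-- fine mark = coarse mark + hidden position for each time -/
abbrev FMark (q H : ℕ) := CMark q H × (Fin (H + 1) → Fin q × Fin q)

variable {q H : ℕ}

/-- time `k` is hidden: all the steps adjacent to `k` are of type G -/
def CMark.hid (ξ : CMark q H) (k : Fin (H + 1)) : Prop :=
  ∀ i : Fin H, (i.castSucc = k ∨ i.succ = k) → ξ.g i = true

/-- `D_k` = displacement of step `k` + size of the bridge + safety, in units of s-cells -/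
def CMark.D (ξ : CMark q H) (k : Fin H) : ℕ :=
  (nrm (ξ.c k.succ - ξ.c k.castSucc)).toNat + ξ.b k + 12

/-- total displacement over the steps `k1 ≤ k < k2` -/
def CMark.tot (ξ : CMark q H) (k1 k2 : ℕ) : ℕ :=
  ∑ k : Fin H, if k1 ≤ (k : ℕ) ∧ (k : ℕ) < k2 then ξ.D k else 0

open Classical in
/-- position inside the s-cell at time `k` -/
noncomputable def FMark.loc (θ : FMark q H) (k : Fin (H + 1)) : Fin q × Fin q :=
  if θ.1.hid k then θ.2 k else θ.1.r k

/-- mesh cell at time `k` -/
noncomputable def FMark.site (θ : FMark q H) (k : Fin (H + 1)) : Site :=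
  ((q : ℤ) * (θ.1.c k).1 + ((FMark.loc θ k).1 : ℕ),
    (q : ℤ) * (θ.1.c k).2 + ((FMark.loc θ k).2 : ℕ))

/-- particle configurations: number of particles with a given fine mark -/
abbrev Conf (q H : ℕ) := FMark q H → ℕ

/-- set of occupied mesh cells at time `k` -/
def eta (ω : Conf q H) (k : Fin (H + 1)) : Set Site :=
  {x | ∃ θ : FMark q H, ω θ ≠ 0 ∧ FMark.site θ k = x}

/-- the s-cell `z` is safe during step `k` (time `kT` to `(k+1)T`) -/
def SafeC (ω : Conf q H) (k : Fin H) (z : Site) : Prop :=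
  ∀ θ : FMark q H, ω θ ≠ 0 → ((θ.1.D k : ℕ) : ℤ) < nrm (θ.1.c k.castSucc - z)

/-- the s-cell `z` is a hole for the steps `m ≤ k < m'` -/
def HoleC (ω : Conf q H) (m m' : ℕ) (z : Site) : Prop :=
  ∀ k : Fin H, m ≤ (k : ℕ) → (k : ℕ) < m' → SafeC ω k z

/-- events decreasing in the particles -/
def Decr (E : Set (Conf q H)) : Prop := ∀ ω ω' : Conf q H, ω ≤ ω' → ω' ∈ E → ω ∈ E

/-- fine intensity attached to a coarse intensity -/
noncomputable def fineOf (m : CMark q H → ℝ≥0) (θ : FMark q H) : ℝ≥0 :=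
  m θ.1 / ((q : ℝ≥0) ^ 2) ^ (H + 1)

/-- intensity of coarse marks (density one), with the facts used in (B), (C), (D)
(PLAN.md, section 1).  `a` = kappa^2, `δ` = lower bound for the fraction of hidden particles
(THEOREM B' of helper35), `Λ` = exponential moment of one step (exponent 1 in units of s-cells). -/
structure MarkLaw (q H : ℕ) (a δ Λ : ℝ) where
  m : CMark q H → ℝ≥0
  /-- static: for every time and mesh cell the total intensity of the marks there is `a` -/
  static : ∀ (k : Fin (H + 1)) (x : Site),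
    HasSum (fun θ : {θ : FMark q H // FMark.site θ k = x} => (fineOf m θ.1 : ℝ)) a
  /-- a fixed fraction of the particles is hidden -/
  many : ∀ (k : Fin (H + 1)) (c : Site),
    δ * (a * q ^ 2) ≤ ∑' ξ : {ξ : CMark q H // ξ.c k = c ∧ ξ.hid k}, (m ξ.1 : ℝ)
  /-- exponential moments over a window of steps, started at any time -/
  expm : ∀ (i : Fin (H + 1)) (c : Site) (k1 k2 : ℕ), k1 ≤ k2 → k2 ≤ H →
    Summable (fun ξ : {ξ : CMark q H // ξ.c i = c} =>
      (m ξ.1 : ℝ) * Real.exp (ξ.1.tot k1 k2)) ∧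
    ∑' ξ : {ξ : CMark q H // ξ.c i = c}, (m ξ.1 : ℝ) * Real.exp (ξ.1.tot k1 k2)
        ≤ a * q ^ 2 * Λ ^ (k2 - k1)
  /-- invariance under translations by s-cells -/
  trans : ∀ (t : Site) (ξ : CMark q H), m { ξ with c := fun k => ξ.c k + t } = m ξ

/-- fine intensity -/
noncomputable def MarkLaw.fine {a δ Λ : ℝ} (L : MarkLaw q H a δ Λ) (θ : FMark q H) : ℝ≥0 :=
  fineOf L.m θ

/-- the particle family: independent Poisson numbers with intensity `lam * fine` -/
noncomputable def MarkLaw.PP {a δ Λ : ℝ} (L : MarkLaw q H a δ Λ) (lam : ℝ≥0) :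
    Measure (Conf q H) :=
  Measure.infinitePi (fun θ => poissonMeasure (lam * L.fine θ))

/-! ## Discrete survival (in terms of s-cells) -/

/-- there is a discrete undetected trajectory from time `m0` to the horizon `H`, starting in the
s-cell `z0`: it sits in the safe s-cell `z k` during step `k` and moves at time `k` along vacant
sites from the s-cell `z (k-1)` to the s-cell `z k`. -/
def SurvC (ρ : ℝ) (ω : Conf q H) (m0 : ℕ) (z0 : Site) : Prop :=
  ∃ z : ℕ → Site, z m0 = z0 ∧ (∀ k : Fin H, m0 ≤ (k : ℕ) → SafeC ω k (z k)) ∧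
    ∀ k : Fin H, m0 < (k : ℕ) → (z (k - 1) = z k ∨
      LinkedS Adj4 (vacSites ρ (eta ω k.castSucc)) (cbox q (z (k - 1)) 0) (cbox q (z k) 0))

end MPdd5692
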