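import Mathlib
import Pool.Agent.Work.MP_dd5692_pr.Defs

/-!
# MP_dd5692_pr: InterfaceP (helper14): Poisson families, two-stage representation, elementary facts
about the particle family.  Every `Stmt_X` is one block; the proof on paper is in the docstring.
-/

open MeasureTheory ProbabilityTheory Set
open scoped ENNReal NNReal BigOperators

namespace MPdd5692

section Poisson

/-- product of Poisson measures -/
noncomputable def pois {ι : Type} (μ : ι → ℝ≥0) : Measure (ι → ℕ) :=
  Measure.infinitePi fun i => poissonMeasure (μ i)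

instance {ι : Type} (μ : ι → ℝ≥0) : IsProbabilityMeasure (pois μ) := by
  unfold pois; infer_instance

/-- decreasing events -/
def DecrS {ι : Type} (E : Set (ι → ℕ)) : Prop :=
  ∀ ω ω' : ι → ℕ, ω ≤ ω' → ω' ∈ E → ω ∈ E

/-- `E` depends only on the coordinates in `A` -/
def DepOn {ι : Type} (A : Set ι) (E : Set (ι → ℕ)) : Prop :=
  ∀ ω ω' : ι → ℕ, (∀ i ∈ A, ω i = ω' i) → (ω ∈ E ↔ ω' ∈ E)

/-- HARRISF: Harris inequality for antitone functions with values in `[0,1]`.
Proof: finite index set by induction (one variable: Chebyshev's association inequality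
`∫∫ (f x - f y)(g x - g y) ≥ 0`); countable index set: `f_n = E[f | first n coordinates]`
(= integrate out the others) is antitone in the first `n` coordinates, `f_n → f` in `L²`/a.e.
(Levy's upward theorem), pass to the limit. -/
def Stmt_HARRISF : Prop :=
  ∀ (ι : Type) [Countable ι] (μ : ι → ℝ≥0) (f g : (ι → ℕ) → ℝ), Measurable f → Measurable g →
    Antitone f → Antitone g → (∀ ω, 0 ≤ f ω ∧ f ω ≤ 1) → (∀ ω, 0 ≤ g ω ∧ g ω ≤ 1) →
    (∫ ω, f ω ∂(pois μ)) * (∫ ω, g ω ∂(pois μ)) ≤ ∫ ω, f ω * g ω ∂(pois μ)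

/-- HARRIS: for decreasing events (from HARRISF with indicators), both directions. -/
def Stmt_HARRIS : Prop :=
  ∀ (ι : Type) [Countable ι] (μ : ι → ℝ≥0) (E F : Set (ι → ℕ)), MeasurableSet E → MeasurableSet F →
    DecrS E → DecrS F →
    (pois μ).real E * (pois μ).real F ≤ (pois μ).real (E ∩ F) ∧
    (pois μ).real (E ∩ Fᶜ) ≤ (pois μ).real E * (pois μ).real Fᶜ

/-- HARRISN: for a finite family of decreasing events. Induction from HARRIS. -/
def Stmt_HARRISN : Prop :=
  ∀ (ι : Type) [Countable ι] (μ : ι → ℝ≥0) (κ : Type) (s : Finset κ) (E : κ → Set (ι → ℕ)),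
    (∀ k, MeasurableSet (E k)) → (∀ k, DecrS (E k)) →
    ∏ k ∈ s, (pois μ).real (E k) ≤ (pois μ).real (⋂ k ∈ s, E k)

/-- INDEP: events depending on disjoint sets of coordinates are independent (finite family of
pairwise disjoint coordinate sets). -/
def Stmt_INDEP : Prop :=
  ∀ (ι : Type) [Countable ι] (μ : ι → ℝ≥0) (κ : Type) (s : Finset κ) (A : κ → Set ι)
    (E : κ → Set (ι → ℕ)), (∀ k ∈ s, MeasurableSet (E k)) → (∀ k ∈ s, DepOn (A k) (E k)) →
    (∀ k ∈ s, ∀ k' ∈ s, k ≠ k' → Disjoint (A k) (A k')) →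
    (pois μ).real (⋂ k ∈ s, E k) = ∏ k ∈ s, (pois μ).real (E k)

/-- INDEPF: product form for functions: `f` depends on the coordinates in `A`, `g` on those in
`Aᶜ`; moreover (Fubini for the splitting `A`, `Aᶜ`) integrating `F(ω)` is the same as integrating
`F(ω on A, ω' on Aᶜ)` with respect to two independent copies. -/
def Stmt_MIX : Prop :=
  ∀ (ι : Type) [Countable ι] (μ : ι → ℝ≥0) (A : Set ι) [DecidablePred (· ∈ A)]
    (F : (ι → ℕ) → ℝ), Measurable F → (∀ ω, |F ω| ≤ 1) →
    ∫ ω, F ω ∂(pois μ) =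
      ∫ ω, ∫ ω', F (fun i => if i ∈ A then ω i else ω' i) ∂(pois μ) ∂(pois μ)

/-- VOID: probability that there is no particle in `A`. -/
def Stmt_VOID : Prop :=
  ∀ (ι : Type) [Countable ι] (μ : ι → ℝ≥0) (A : Set ι), Summable (fun i : A => (μ i : ℝ)) →
    MeasurableSet {ω : ι → ℕ | ∀ i ∈ A, ω i = 0} ∧
    (pois μ).real {ω | ∀ i ∈ A, ω i = 0} = Real.exp (-∑' i : A, (μ i : ℝ))

/-- LAPL: exponential functionals: for `w ≥ 0` with `Σ μ_i (e^{w_i} - 1) < ∞`,
`E exp(Σ ω_i w_i) = exp(Σ μ_i (e^{w_i} - 1))`; only `≤` for finite sub-families is used.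
Here `Z ω = Σ_{i} ω_i w_i` may be infinite: state for the indicator of `{Σ over a finite set F of
ω_i w_i ≥ x for some finite F}`: Chernoff. -/
def Stmt_CHERN : Prop :=
  ∀ (ι : Type) [Countable ι] (μ : ι → ℝ≥0) (w : ι → ℝ), (∀ i, 0 ≤ w i) →
    Summable (fun i => (μ i : ℝ) * (Real.exp (w i) - 1)) → ∀ x : ℝ,
    (pois μ).real {ω | ∃ F : Finset ι, x ≤ ∑ i ∈ F, (ω i : ℝ) * w i} ≤
      Real.exp (-x + ∑' i, (μ i : ℝ) * (Real.exp (w i) - 1))

/-- LIP: Lipschitz dependence on the intensity and monotonicity (W5 of WRAPPER98). -/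
def Stmt_LIP : Prop :=
  ∀ (ι : Type) [Countable ι] (μ : ι → ℝ≥0) (A : Set ι) (E : Set (ι → ℕ)), MeasurableSet E →
    DepOn A E → Summable (fun i : A => (μ i : ℝ)) → ∀ l l' : ℝ≥0,
    |(pois fun i => l * μ i).real E - (pois fun i => l' * μ i).real E|
      ≤ |(l : ℝ) - l'| * ∑' i : A, (μ i : ℝ)

def Stmt_MONO : Prop :=
  ∀ (ι : Type) [Countable ι] (μ : ι → ℝ≥0) (E : Set (ι → ℕ)), MeasurableSet E →
    DecrS E → ∀ l l' : ℝ≥0, l ≤ l' →
    (pois fun i => l' * μ i).real E ≤ (pois fun i => l * μ i).real E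

end Poisson

/-! ## Two-stage representation -/

abbrev Pos (q : ℕ) := Fin q × Fin q

variable {q H : ℕ} [NeZero q]

/-- forget the hidden positions at the times that are not exposed (`e k = false`) -/
def mask (e : Fin (H + 1) → Bool) (u : Fin (H + 1) → Pos q) : Fin (H + 1) → Pos q :=
  fun k => if e k then u k else (0, 0)

/-- intensity of the exposed marks (coarse mark, positions at the exposed times) -/
noncomputable def muE {a δ Λ : ℝ} (L : MarkLaw q H a δ Λ) (lam : ℝ≥0) (e : Fin (H + 1) → Bool)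
    (θ : FMark q H) : ℝ≥0 :=
  if mask e θ.2 = θ.2 then lam * L.m θ.1 / ((q : ℝ≥0) ^ 2) ^ (Finset.univ.filter fun k => e k).card
  else 0

/-- the uniform law on the positions -/
noncomputable def unif (q : ℕ) [NeZero q] : Measure (Pos q) := (PMF.uniformOfFintype (Pos q)).toMeasure

/-- hidden positions: for each time and each particle `(θ, i)` -/
abbrev HV (q H : ℕ) := Fin (H + 1) → (FMark q H × ℕ → Pos q)

noncomputable def hm (q H : ℕ) [NeZero q] : Measure (HV q H) :=
  Measure.pi fun _ => Measure.infinitePi fun _ => unif q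

/-- assemble the fine configuration from the exposed one and the hidden positions -/
noncomputable def asmE (e : Fin (H + 1) → Bool) (M : Conf q H) (U : HV q H) : Conf q H :=
  fun θ => ((Finset.range (M (θ.1, mask e θ.2))).filter fun i =>
    ∀ k, e k = false → U k ((θ.1, mask e θ.2), i) = θ.2 k).card

/-- the exposed configuration of a fine configuration -/
noncomputable def projE (e : Fin (H + 1) → Bool) (ω : Conf q H) : Conf q H :=
  fun θ => if mask e θ.2 = θ.2 then
    ∑ u ∈ Finset.univ.filter (fun u : Fin (H + 1) → Pos q => mask e u = θ.2), ω (θ.1, u) else 0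

/-- SPLIT: the assembled configuration is the particle family.
Proof: it is enough to compare the laws on finite sets of fine marks; the marks with different
exposed parts are independent in both; for one exposed mark `θ₀` with Poisson(μ) particles each
choosing independently a uniform completion `u` of the hidden times among `(q²)^{#hidden times}`
(the map `(U_k)_k -> completion` of particle `i` is uniform and independent over `i`) the numbers
are independent Poisson (thinning: multinomial formula). -/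
def Stmt_SPLIT : Prop :=
  ∀ (q H : ℕ) [NeZero q] (a δ Λ : ℝ) (L : MarkLaw q H a δ Λ) (lam : ℝ≥0)
    (e : Fin (H + 1) → Bool),
    Measurable (fun p : Conf q H × HV q H => asmE e p.1 p.2) ∧
    ((pois (muE L lam e)).prod (hm q H)).map (fun p => asmE e p.1 p.2) = L.PP lam ∧
    (∀ M : Conf q H, (∀ θ, mask e θ.2 ≠ θ.2 → M θ = 0) → ∀ U, projE e (asmE e M U) = M) ∧
    (∀ᵐ M ∂(pois (muE L lam e)), ∀ θ, mask e θ.2 ≠ θ.2 → M θ = 0) ∧
    (L.PP lam).map (projE e) = pois (muE L lam e)

/-- occupation set at time `k : ℕ` (empty if `k > H`) -/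
def et (ω : Conf q H) (k : ℕ) : Set Site :=
  {x | ∃ θ : FMark q H, ω θ ≠ 0 ∧ ∃ h : k < H + 1, FMark.site θ ⟨k, h⟩ = x}

/-- the particles which at time `k` are in an s-cell at distance `≤ R` from `y` -/
noncomputable def inn (k : ℕ) (y : Site) (R : ℕ) (ω : Conf q H) : Conf q H := by
  classical
  exact fun θ => if ∃ h : k < H + 1, nrm (θ.1.c ⟨k, h⟩ - y) ≤ R then ω θ else 0

/-- STATIC: at every time the occupied set has the static law (for events `E` of the occupied set
whose indicator is a measurable function of the occupation variables).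
Proof: `{x ∈ et ω k}` = some mark at site `x` present; disjoint sets of marks for different `x`,
total intensity `lam * a` each; `a = 4^{-j}`. -/
def Stmt_STATIC : Prop :=
  ∀ (q H j : ℕ) [NeZero q] (δ Λ : ℝ) (L : MarkLaw q H ((1 / 4) ^ j) δ Λ) (lam : ℝ≥0) (k : ℕ), k ≤ H →
    ∀ E : Set Site → Prop, MeasurableSet {η : Site → ℕ | E (occ η)} →
    MeasurableSet {ω : Conf q H | E (et ω k)} ∧
    (L.PP lam).real {ω | E (et ω k)} = SP lam j E

/-- SLICE: for a non exposed time `k` the occupied set of the assembled configuration depends only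
on `(M, U_k)`; for an exposed time it depends only on `M`. -/
def Stmt_SLICE : Prop :=
  ∀ (q H : ℕ) [NeZero q] (e : Fin (H + 1) → Bool) (M : Conf q H) (U U' : HV q H) (k : ℕ) (h : k < H + 1),
    (e ⟨k, h⟩ = false → U ⟨k, h⟩ = U' ⟨k, h⟩ → et (asmE e M U) k = et (asmE e M U') k) ∧
    (e ⟨k, h⟩ = true → (∀ θ, mask e θ.2 ≠ θ.2 → M θ = 0) → et (asmE e M U) k = et M k) ∧
    (∀ c : CMark q H, (∃ u, asmE e M U (c, u) ≠ 0) ↔ (∃ u, mask e u = u ∧ M (c, u) ≠ 0))

end MPdd5692
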