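import Mathlib
import Pool.Agent.Work.MP_dd5692_pr.InterfaceP

/-!
# MP_dd5692_pr: InterfaceD (helper14): planar links, Lipschitz percolation, decoupling
-/

open MeasureTheory ProbabilityTheory Set
open scoped ENNReal NNReal BigOperators

namespace MPdd5692

/-! ## Planar part (PLAN.md 3.1), on top of helper80's EB4 -/

/-- EB4 (helper80): the external boundary of an 8-connected set is 4-connected. -/
def Stmt_EB4 : Prop :=
  ∀ (A : Set Site), (∀ x ∈ A, ∀ y ∈ A, Linked Adj8 A x y) → ∀ x0 : Site,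
    ∀ x y : Site, (Linked Adj4 Aᶜ x0 x ∧ ∃ w ∈ A, Adj8 x w) →
      (Linked Adj4 Aᶜ x0 y ∧ ∃ w ∈ A, Adj8 y w) →
      Linked Adj4 {z | Linked Adj4 Aᶜ x0 z ∧ ∃ w ∈ A, Adj8 z w} x y

/-- EB8 (helper80): the external boundary of a 4-connected set is 8-connected. -/
def Stmt_EB8 : Prop :=
  ∀ (A : Set Site), (∀ x ∈ A, ∀ y ∈ A, Linked Adj4 A x y) → ∀ x0 : Site,
    ∀ x y : Site, (Linked Adj8 Aᶜ x0 x ∧ ∃ w ∈ A, Adj4 x w) →
      (Linked Adj8 Aᶜ x0 y ∧ ∃ w ∈ A, Adj4 y w) →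
      Linked Adj8 {z | Linked Adj8 Aᶜ x0 z ∧ ∃ w ∈ A, Adj4 z w} x y

/-- inner box together with the occupied sites of `cbox z b` 8-linked to it -/
def KS (ρ : ℝ) (q : ℕ) (S : Set Site) (z : Site) (a b : ℕ) : Set Site :=
  cbox q z a ∪ {x | ∃ y ∈ cbox q z a, Linked Adj8 (cbox q z a ∪ ((vacSites ρ S)ᶜ ∩ cbox q z b)) y x}

/-- the vacant circuit of `UU ρ q S z a b`: external boundary of `KS` -/
def GamS (ρ : ℝ) (q : ℕ) (S : Set Site) (z : Site) (a b : ℕ) : Set Site :=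
  {x | x ∉ KS ρ q S z a b ∧ (∃ y ∈ KS ρ q S z a b, Adj8 x y) ∧
    ∃ w ∈ (cbox q z b)ᶜ, Linked Adj4 (KS ρ q S z a b)ᶜ w x}

/-- CIRC: on `UU` the set `GamS` is a vacant circuit.
Proof: `KS` is 8-connected, does not meet nor touch the complement of `cbox z b` (else an occupied
crossing); every site of `GamS` is in `cbox z b`, hence vacant (else it would be in `KS`);
4-connected: EB4; a path from `cbox z a` to the outside: (first part) the first site which is joined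
to the outside off `KS` (all the earlier ones are in `cbox z b`); (second part) the site just after
the last visit to `KS`: it is 4-adjacent to `KS`, and joined to the outside off `KS`. -/
def Stmt_CIRC : Prop :=
  ∀ (ρ : ℝ) (q : ℕ) (S : Set Site) (z : Site) (a b : ℕ), 0 < q → a < b → UU ρ q S z a b →
    (GamS ρ q S z a b ⊆ vacSites ρ S ∩ (cbox q z b \ cbox q z a)) ∧
    (∀ x ∈ GamS ρ q S z a b, ∀ y ∈ GamS ρ q S z a b,
      Linked Adj4 (GamS ρ q S z a b) x y) ∧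
    (∀ (P : Set Site) (x y : Site), x ∈ cbox q z a → y ∉ cbox q z b → Linked Adj4 P x y →
      (∃ g ∈ GamS ρ q S z a b, Linked Adj4 (P ∩ cbox q z b) x g) ∧
      (∃ g ∈ GamS ρ q S z a b, Linked Adj4 (P \ cbox q z a) g y))

/-- LINK (3.1(b)): two circuits are linked. Proof: `cbox z a` is 4-connected and meets
`cbox y p` and the complement of `cbox y r`, so it contains a site `u` of `Gam_y` (CIRC);
`u ∈ KS_z`.  If `Gam_y` (4-connected) does not meet `Gam_z`, nor is 4-adjacent to it, it stays in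
the union of `KS_z` and of the bounded components of its complement, which lies in `cbox z b`;
but every 4-path from `cbox y p` to infinity meets `Gam_y`; a site of `cbox y p` outside
`cbox z b` (exists) is joined to infinity outside `cbox z b`: contradiction. -/
def Stmt_LINK : Prop :=
  ∀ (ρ : ℝ) (q : ℕ) (S : Set Site) (z y : Site) (a b p r : ℕ), 0 < q → a < b → p < r →
    UU ρ q S z a b → UU ρ q S y p r →
    nrm (z - y) ≤ a + p → (r : ℤ) < nrm (z - y) + a → (b : ℤ) < nrm (z - y) + p →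
    ∃ g ∈ GamS ρ q S z a b, ∃ g' ∈ GamS ρ q S y p r, Linked Adj4 (vacSites ρ S) g g'

/-! ## Lipschitz percolation (4.5) -/

/-- LIPPERC, see PLAN.md 4.5. -/
def Stmt_LIPPERC : Prop :=
  ∃ p1 : ℝ, 0 < p1 ∧ ∀ (Ω : Type) [MeasurableSpace Ω] (P : Measure Ω) [IsProbabilityMeasure P]
    (bad : Ω → Set (ℕ × ℤ)), (∀ x, MeasurableSet {ω | x ∈ bad ω}) →
    ∀ N : ℕ, (∀ S : Finset (ℕ × ℤ), (∀ X ∈ S, X.1 ≤ N) →
      P.real {ω | ∀ x ∈ S, x ∈ bad ω} ≤ p1 ^ S.card) →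
    3 / 4 ≤ P.real {ω | ∃ F : ℕ → ℤ, F 0 = 1 ∧ (∀ M < N, |F (M + 1) - F M| ≤ 1) ∧
      ∀ M ≤ N, (M, F M) ∉ bad ω}

/-! ## Decoupling (4.3, 4.4) -/

/-- centre of the macro-block `X = (M, i)`, in units of s-cells -/
def xX (A : ℕ) (X : ℕ × ℤ) : Site := ((A : ℤ) * X.1, (A : ℤ) * X.2)

/-- coarse marks which can influence the window of the macro-block `X` (time blocks of length `J`,
`M J - 1 ≤ k ≤ (M+3) J`; spatial window = ball of radius `6 A`). -/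
def Infl (q H A J : ℕ) (X : ℕ × ℤ) : Set (CMark q H) :=
  {ξ | ∃ k : Fin H, X.1 * J ≤ (k : ℕ) + 1 ∧ (k : ℕ) ≤ (X.1 + 3) * J ∧
    nrm (ξ.c k.castSucc - xX A X) ≤ 6 * A + ξ.D k}

/-- number of windows of `S` influenced by `ξ` -/
noncomputable def sig (A J : ℕ) {q H : ℕ} (S : Finset (ℕ × ℤ)) (ξ : CMark q H) : ℕ := by
  classical exact (S.filter fun X => ξ ∈ Infl q H A J X).card

/-- NOFOLLOW (4.3): `X ∈ S`, `S` 40-separated: the integral over the marks influencing `X` and at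
least one other window of `S` of `exp(t |σ|)` is small, for `A ≥ A0(I, Λ, J, t)`. -/
def Stmt_NOFOLLOW : Prop :=
  ∀ (I Λ t ε : ℝ) (J : ℕ), 0 < ε → 0 < t → 1 ≤ J → ∃ A0 : ℕ, ∀ A ≥ A0,
    ∀ (q H : ℕ) [NeZero q] (a δ : ℝ) (L : MarkLaw q H a δ Λ) (lam : ℝ≥0),
    (lam : ℝ) * (a * q ^ 2) ≤ I → ∀ S : Finset (ℕ × ℤ),
    (∀ X ∈ S, ∀ Y ∈ S, X ≠ Y → 40 ≤ max |(X.1 : ℤ) - Y.1| |X.2 - Y.2|) →
    (∀ X ∈ S, (X.1 + 3) * J + 1 ≤ H) → ∀ X ∈ S,
    Summable (fun ξ : {ξ : CMark q H // ξ ∈ Infl q H A J X ∧ 2 ≤ sig A J S ξ} =>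
      (lam : ℝ) * L.m ξ.1 * Real.exp (t * sig A J S ξ.1)) ∧
    ∑' ξ : {ξ : CMark q H // ξ ∈ Infl q H A J X ∧ 2 ≤ sig A J S ξ},
      (lam : ℝ) * L.m ξ.1 * Real.exp (t * sig A J S ξ.1) ≤ ε

/-- DECOUP (4.4): small probability of each bad event implies `P(all of S bad) ≤ p1^|S|`.
(Pass to a 40-separated subset of size `≥ |S|/81²`: p0, t from p1.) -/
def Stmt_DECOUP : Prop :=
  ∀ p1 : ℝ, 0 < p1 → ∃ p0 : ℝ, 0 < p0 ∧ ∀ (I Λ : ℝ) (J : ℕ), 1 ≤ J → ∃ A0 : ℕ, ∀ A ≥ A0,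
    ∀ (q H : ℕ) [NeZero q] (a δ : ℝ) (L : MarkLaw q H a δ Λ) (lam : ℝ≥0),
    (lam : ℝ) * (a * q ^ 2) ≤ I →
    ∀ Bad : ℕ × ℤ → Set (Conf q H), (∀ X, MeasurableSet (Bad X)) →
    (∀ X, DepOn {θ : FMark q H | θ.1 ∈ Infl q H A J X} (Bad X)) →
    (∀ X, (X.1 + 3) * J + 1 ≤ H → (L.PP lam).real (Bad X) ≤ p0) →
    ∀ S : Finset (ℕ × ℤ), (∀ X ∈ S, (X.1 + 3) * J + 1 ≤ H) →
    (L.PP lam).real (⋂ X ∈ S, Bad X) ≤ p1 ^ S.card

/-- finite mass of the influencing marks (4.2), used with LIP for the continuity in `lam` -/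
def Stmt_INFLMASS : Prop :=
  ∀ (Λ : ℝ) (J A : ℕ), ∃ C : ℝ, ∀ (q H : ℕ) [NeZero q] (a δ : ℝ) (L : MarkLaw q H a δ Λ)
    (X : ℕ × ℤ), Summable (fun ξ : {ξ : CMark q H // ξ ∈ Infl q H A J X} => (L.m ξ.1 : ℝ)) ∧
    ∑' ξ : {ξ : CMark q H // ξ ∈ Infl q H A J X}, (L.m ξ.1 : ℝ) ≤ C * (a * q ^ 2)

end MPdd5692
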