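import Mathlib
import Pool.Agent.Work.MP_dd5692_pr.InterfaceD

/-!
# MP_dd5692_pr: InterfaceC (helper14): the block event (PLAN.md section 3)
-/

open MeasureTheory ProbabilityTheory Set
open scoped ENNReal NNReal BigOperators

namespace MPdd5692

variable {q H : ℕ} [NeZero q]

/-! ## 3A -/

/-- two-time connection through a hole (`Lam_{m,m'}(z,l)`) -/
def LamE (ρ : ℝ) (ω : Conf q H) (m m' : ℕ) (z : Site) (l : ℕ) : Prop :=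
  UU ρ q (et ω m) z l (2 * l) ∧ UU ρ q (et ω m') z l (2 * l) ∧
  ∃ b ∈ box z l, HoleC ω m m' b ∧ Arm ρ q (et ω m) b 0 z (2 * l) ∧ Arm ρ q (et ω m') b 0 z (2 * l)

/-- an environment: all the data and the facts about them (static part (A) at `lam`). -/
structure Env (c e : ℝ) (I δ Λ : ℝ) (nmax : ℕ) where
  q : ℕ
  H : ℕ
  j : ℕ
  ρ : ℝ
  lam : ℝ≥0
  [nz : NeZero q]
  L : MarkLaw q H ((1 / 4) ^ j) δ Λ
  ok : StaticOK c e nmax ρ q lam j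
  inten : (lam : ℝ) * ((1 / 4) ^ j * q ^ 2) ≤ I

attribute [instance] Env.nz

variable {c e I δ Λ : ℝ} {nmax : ℕ}

/-- the law of the particle family of an environment -/
noncomputable def Env.P (E : Env c e I δ Λ nmax) : Measure (Conf E.q E.H) := E.L.PP E.lam

noncomputable def Env.al (E : Env c e I δ Λ nmax) (a b : ℕ) : ℝ := alpha E.ρ E.q E.lam E.j a b

/-- decorrelation of arms (a consequence of Theorem B'): covariance at two different times `≤ κ0`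
for ratio `11/10 ≤ b/a ≤ R`, `a ≥ a0`. -/
def Env.ArmDec (E : Env c e I δ Λ nmax) (κ0 : ℝ) (R a0 : ℕ) : Prop :=
  ∀ (m m' : ℕ), m ≤ E.H → m' ≤ E.H → m ≠ m' → ∀ (z : Site) (a b : ℕ), a0 ≤ a → 11 * a ≤ 10 * b →
    b ≤ R * a → b ≤ nmax →
    E.P.real {ω | Arm E.ρ E.q (et ω m) z a z b ∧ Arm E.ρ E.q (et ω m') z a z b}
      ≤ (E.al a b) ^ 2 + κ0

/-- QM: quasi-multiplicativity (PLAN (A5)), from Harris and the circuits. -/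
def Stmt_QM : Prop :=
  ∀ c e : ℝ, 0 < c → ∃ C : ℝ, 0 < C ∧ ∀ (nmax : ℕ) (ρ : ℝ) (q : ℕ) (l : ℝ≥0) (j : ℕ),
    StaticOK c e nmax ρ q l j → ∀ a b b' d : ℕ, 1 ≤ a → a < b → b ≤ b' → b' ≤ 20 * b → b' < d →
    2 * d ≤ nmax → alpha ρ q l j a b * alpha ρ q l j b' d ≤ C * alpha ρ q l j a d

/-- WILD: probability of a particle that influences `box z (C R)` and moves by more than `R/100`
in total during a window of `N` steps. -/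
def Stmt_WILD : Prop :=
  ∀ (I Λ : ℝ) (N C : ℕ) (ε : ℝ), 0 < ε → ∃ R0 : ℕ, ∀ R ≥ R0,
    ∀ (q H : ℕ) [NeZero q] (a δ : ℝ) (L : MarkLaw q H a δ Λ) (lam : ℝ≥0),
    (lam : ℝ) * (a * q ^ 2) ≤ I → ∀ (k1 k2 : ℕ) (z : Site), k1 ≤ k2 → k2 ≤ H → k2 ≤ k1 + N →
    (L.PP lam).real {ω | ∃ θ : FMark q H, ω θ ≠ 0 ∧ R < 100 * θ.1.tot k1 k2 ∧
      ∃ k : ℕ, k1 ≤ k ∧ k ≤ k2 ∧ ∃ h : k < H + 1,
        nrm (θ.1.c ⟨k, h⟩ - z) ≤ C * R + θ.1.tot k1 k2} ≤ ε / (R : ℝ) ^ 10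

/-- HOLEP: positive probability of a hole. -/
def Stmt_HOLEP : Prop :=
  ∀ (I Λ : ℝ) (N : ℕ), ∃ g : ℝ, 0 < g ∧
    ∀ (q H : ℕ) [NeZero q] (a δ : ℝ) (L : MarkLaw q H a δ Λ) (lam : ℝ≥0),
    (lam : ℝ) * (a * q ^ 2) ≤ I → ∀ (m m' : ℕ) (z : Site), m' ≤ m + N → m' ≤ H →
    g ≤ (L.PP lam).real {ω | HoleC ω m m' z}

/-- TAMEI (tame independence): the events `F i` (i in a finite family) are decreasing, `F i`
depends on the particles through those which influence `cbox`-region `B i` ... the form used in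
3A: regions `Reg i ⊂ Site` (s-cells) at mutual distance `> R/10`; for the particles that are tame
in the window `[m,m']`, `F i` depends only on the marks with `c_m ∈ Reg i` enlarged by `R/25`.
Statement: joint probability `≤` product of `(P(F i) + ε)` `+ 0` for the tame family. -/
def Stmt_TAMEI : Prop :=
  ∀ (q H : ℕ) [NeZero q] (a δ Λ : ℝ) (L : MarkLaw q H a δ Λ) (lam : ℝ≥0) (T : Set (FMark q H))
    (κ : Type) (s : Finset κ) (A : κ → Set (FMark q H)) (F : κ → Set (Conf q H)) (w : κ → ℝ),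
    (∀ k ∈ s, MeasurableSet (F k)) → (∀ k ∈ s, Decr (F k)) →
    -- restricted to the tame marks `T`, `F k` depends only on `A k`
    (∀ k ∈ s, ∀ ω ω' : Conf q H, (∀ θ, θ ∉ T → ω θ = 0) → (∀ θ, θ ∉ T → ω' θ = 0) →
      (∀ θ ∈ A k, ω θ = ω' θ) → (ω ∈ F k ↔ ω' ∈ F k)) →
    (∀ k ∈ s, ∀ k' ∈ s, k ≠ k' → Disjoint (A k) (A k')) →
    -- `w k` bounds the probability that there is a non-tame particle on which `F k` depends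
    (∀ k ∈ s, ∃ B : Set (FMark q H), DepOn B (F k) ∧
      (L.PP lam).real {ω | ∃ θ ∈ B, θ ∉ T ∧ ω θ ≠ 0} ≤ w k) →
    (L.PP lam).real (⋂ k ∈ s, F k) ≤ ∏ k ∈ s, ((L.PP lam).real (F k) + w k)

/-- translation invariance of the particle family (by s-cells) and of the static law -/
def shiftC (t : Site) (ω : Conf q H) : Conf q H :=
  fun θ => ω ({ θ.1 with c := fun k => θ.1.c k + t }, θ.2)

/-- TRANS. `shiftC` preserves `PP`; the occupied sets are translated by `-q t`. -/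
def Stmt_TRANS : Prop :=
  ∀ (q H : ℕ) [NeZero q] (a δ Λ : ℝ) (L : MarkLaw q H a δ Λ) (lam : ℝ≥0) (t : Site),
    (L.PP lam).map (shiftC t) = L.PP lam ∧
    (∀ (ω : Conf q H) (k : ℕ), et (shiftC t ω) k =
      {x | (x.1 + q * t.1, x.2 + q * t.2) ∈ et ω k}) ∧
    (∀ (ρ : ℝ) (ω : Conf q H) (m m' : ℕ) (z : Site) (l : ℕ),
      LamE ρ (shiftC t ω) m m' z l ↔ LamE ρ ω m m' (z + t) l) ∧
    (∀ (ρ : ℝ) (ω : Conf q H) (m : ℕ) (z z' : Site) (a b : ℕ),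
      (Arm ρ q (et (shiftC t ω) m) z a z' b ↔ Arm ρ q (et ω m) (z + t) a (z' + t) b) ∧
      (UU ρ q (et (shiftC t ω) m) z a b ↔ UU ρ q (et ω m) (z + t) a b))

/-- MEAS. Measurability and monotonicity of the basic events. -/
def Stmt_MEAS : Prop :=
  ∀ (q H : ℕ) [NeZero q] (ρ : ℝ) (m m' : ℕ) (z z' : Site) (a b : ℕ),
    (MeasurableSet {ω : Conf q H | Arm ρ q (et ω m) z a z' b} ∧
      Decr {ω : Conf q H | Arm ρ q (et ω m) z a z' b}) ∧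
    (MeasurableSet {ω : Conf q H | UU ρ q (et ω m) z a b} ∧
      Decr {ω : Conf q H | UU ρ q (et ω m) z a b}) ∧
    (MeasurableSet {ω : Conf q H | HoleC ω m m' z} ∧ Decr {ω : Conf q H | HoleC ω m m' z}) ∧
    (MeasurableSet {ω : Conf q H | LamE ρ ω m m' z a} ∧ Decr {ω : Conf q H | LamE ρ ω m m' z a}) ∧
    (MeasurableSet {η : Site → ℕ | Arm ρ q (occ η) z a z' b}) ∧
    (MeasurableSet {η : Site → ℕ | UU ρ q (occ η) z a b}) ∧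
    (MeasurableSet {η : Site → ℕ | NV ρ q (occ η) z a b})

/-- the event counted by `N'` in 3A -/
def TwoE (ρ : ℝ) (K : ℕ) (ω : Conf q H) (m m' : ℕ) (z : Site) (l : ℕ) : Prop :=
  LamE ρ ω m m' z l ∧ Arm ρ q (et ω m) z l 0 (2 * K * l) ∧ Arm ρ q (et ω m') z l 0 (2 * K * l)

/-- RDET: deterministic inclusion of 3A. (CIRC: the arm of `b` and the arm of `cbox z l` both meet
the circuit `GamS z l 2l`.) -/
def Stmt_RDET : Prop :=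
  ∀ (q H : ℕ) [NeZero q] (ρ : ℝ) (K : ℕ) (ω : Conf q H) (m m' l : ℕ) (z : Site), 8 ≤ K → 1 ≤ l →
    2 * nrm z ≤ K * l → TwoE ρ K ω m m' z l →
    UU ρ q (et ω m) 0 (K * l) (2 * (K * l)) → UU ρ q (et ω m') 0 (K * l) (2 * (K * l)) →
    LamE ρ ω m m' 0 (K * l)

/-- RLOW: first moment of 3A (Harris). -/
def Stmt_RLOW : Prop :=
  ∀ (c e I δ Λ : ℝ) (nmax : ℕ) (E : Env c e I δ Λ nmax) (K m m' l : ℕ) (z : Site), 8 ≤ K → 1 ≤ l →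
    m < m' → m' ≤ E.H → 2 * nrm z ≤ K * l →
    E.P.real {ω | LamE E.ρ ω m m' 0 l} * (E.al l (3 * K * l)) ^ 2
      ≤ E.P.real {ω | TwoE E.ρ K ω m m' z l}

/-- RUP1: the diagonal terms (`C` does not depend on `K`). Here and in RUP2: WILD with radius `l`,
TAMEI, ArmDec, QM (factors with ratio `< 11/10` are bounded by one). -/
def Stmt_RUP1 : Prop :=
  ∀ c e : ℝ, 0 < c → 0 < e → e < 1 → ∃ C : ℝ, 0 < C ∧ ∀ K : ℕ, 8 ≤ K → ∃ κ0 : ℝ, 0 < κ0 ∧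
    ∀ (I Λ : ℝ) (N : ℕ), ∃ R0 : ℕ, ∀ (δ : ℝ) (nmax : ℕ) (E : Env c e I δ Λ nmax),
    ∀ (m m' l : ℕ) (z : Site), E.ArmDec κ0 (100 * K) l → m < m' → m' ≤ E.H → m' ≤ m + N → R0 ≤ l →
    10 * K * l ≤ nmax → 2 * nrm z ≤ K * l →
    (1 / (l : ℝ) ^ 9 ≤ E.P.real {ω | LamE E.ρ ω m m' 0 l}) →
    E.P.real {ω | TwoE E.ρ K ω m m' z l}
      ≤ C * E.P.real {ω | LamE E.ρ ω m m' 0 l} * (E.al l (3 * K * l)) ^ 2

/-- RUP2: the pairs. -/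
def Stmt_RUP2 : Prop :=
  ∀ c e : ℝ, 0 < c → 0 < e → e < 1 → ∃ C : ℝ, 0 < C ∧ ∀ K : ℕ, 8 ≤ K → ∃ κ0 : ℝ, 0 < κ0 ∧
    ∀ (I Λ : ℝ) (N : ℕ), ∃ R0 : ℕ, ∀ (δ : ℝ) (nmax : ℕ) (E : Env c e I δ Λ nmax),
    ∀ (m m' l : ℕ) (z z' : Site), E.ArmDec κ0 (100 * K) l → m < m' → m' ≤ E.H → m' ≤ m + N → R0 ≤ l →
    10 * K * l ≤ nmax → 2 * nrm z ≤ K * l → 2 * nrm z' ≤ K * l → 10 * l ≤ nrm (z - z') →
    (1 / (l : ℝ) ^ 9 ≤ E.P.real {ω | LamE E.ρ ω m m' 0 l}) →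
    E.P.real {ω | TwoE E.ρ K ω m m' z l ∧ TwoE E.ρ K ω m m' z' l}
      ≤ C * (E.P.real {ω | LamE E.ρ ω m m' 0 l}) ^ 2 * (E.al l (3 * K * l)) ^ 4
        * ((K : ℝ) * l / (nrm (z - z') : ℝ)) ^ (2 - 2 * e)

/-- RSUM: numerical: differences of points of the grid of step `10 l` in the box of radius
`K l / 2`. -/
def Stmt_RSUM : Prop :=
  ∀ e : ℝ, 0 < e → e < 1 → ∃ C : ℝ, 0 < C ∧ ∀ K : ℕ, 40 ≤ K → 20 ∣ K →
    ∑ x ∈ Finset.Icc (-(K / 10 : ℤ)) (K / 10) ×ˢ Finset.Icc (-(K / 10 : ℤ)) (K / 10),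
      (if x = 0 then 0 else ((K : ℝ) / (10 * (nrm x : ℝ))) ^ (2 - 2 * e)) ≤ C * (K : ℝ) ^ 2

/-- REC (one step of the recursion of 3A, second moment method). From RDET, RLOW, RUP1, RUP2, RSUM,
Harris: `K` is chosen from `c, e`. -/
def Stmt_REC : Prop :=
  ∀ c e : ℝ, 0 < c → 0 < e → e < 1 → ∃ (K : ℕ) (c1 κ0 : ℝ), 2 ≤ K ∧ 10 ∣ K ∧ 0 < c1 ∧ 0 < κ0 ∧
    ∀ (I Λ : ℝ) (N : ℕ), ∃ R0 : ℕ, ∀ (δ : ℝ) (nmax : ℕ) (E : Env c e I δ Λ nmax),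
    ∀ (m m' l : ℕ), E.ArmDec κ0 (100 * K) l → m < m' → m' ≤ E.H → m' ≤ m + N → R0 ≤ l →
    10 * K * l ≤ nmax →
    (1 / (l : ℝ) ^ 9 ≤ E.P.real {ω | LamE E.ρ ω m m' 0 l}) →
    min c1 (2 * E.P.real {ω | LamE E.ρ ω m m' 0 l}) ≤ E.P.real {ω | LamE E.ρ ω m m' 0 (K * l)}

/-- START (first scale): polynomial lower bound. -/
def Stmt_LAM0 : Prop :=
  ∀ c e : ℝ, 0 < c → 0 < e → e < 1 → ∀ (I Λ : ℝ) (N : ℕ), ∃ R0 : ℕ, ∀ (δ : ℝ) (nmax : ℕ)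
    (E : Env c e I δ Λ nmax) (m m' l : ℕ), m < m' → m' ≤ E.H → m' ≤ m + N → R0 ≤ l → 10 * l ≤ nmax →
    1 / (l : ℝ) ^ 9 ≤ E.P.real {ω | LamE E.ρ ω m m' 0 l}

/-- C1: the conclusion of 3A (from REC, LAM0; induction on the scale). -/
def Stmt_C1 : Prop :=
  ∀ c e : ℝ, 0 < c → 0 < e → e < 1 → ∃ (K : ℕ) (c1 κ0 : ℝ), 2 ≤ K ∧ 0 < c1 ∧ 0 < κ0 ∧
    ∀ (I Λ : ℝ) (N R1 : ℕ), ∃ l0 l : ℕ, R1 ≤ l0 ∧ l0 ≤ l ∧ 10 ∣ l ∧ ∀ (δ : ℝ) (nmax : ℕ)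
    (E : Env c e I δ Λ nmax), E.ArmDec κ0 (100 * K) l0 → 10 * K * l ≤ nmax →
    ∀ m m' : ℕ, m < m' → m' ≤ E.H → m' ≤ m + N →
    c1 ≤ E.P.real {ω | LamE E.ρ ω m m' 0 l}

end MPdd5692
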