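import Mathlib
import Pool.Agent.Work.MP_dd5692_pr.InterfaceC

/-!
# MP_dd5692_pr: InterfaceE (helper14): the block event 3B, PLAN.md
`u` = unit of length in s-cells, n = 10 u; all links are centred at points of `(8u) Z^2`,
sub-blocks at points `= (u,0) mod 8u`.
-/

open MeasureTheory ProbabilityTheory Set
open scoped ENNReal NNReal BigOperators

namespace MPdd5692

/-- the parameters of the block construction; sub-blocks of the macro-block at the origin: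
`u • y`, `y ∈ Y`; macro-blocks at distance `A1 * u`. -/
structure Par where
  u : ℕ
  J : ℕ
  A1 : ℕ
  Y : Finset Site

/-- geometry of the parameters (independent of the scale `u`) -/
structure Geo (A1 : ℕ) (Y : Finset Site) : Prop where
  div : 8 ∣ A1
  ne : Y.Nonempty
  mod : ∀ y ∈ Y, (8 : ℤ) ∣ y.1 - 1 ∧ (8 : ℤ) ∣ y.2
  small : ∀ y ∈ Y, 8 * nrm y ≤ A1
  sep : ∀ y ∈ Y, ∀ y' ∈ Y, y ≠ y' → 400 ≤ nrm (y - y')
  big : 4000 ≤ A1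

def Par.A (p : Par) : ℕ := p.A1 * p.u

/-- `u • y` -/
def sm (u : ℕ) (y : Site) : Site := ((u : ℤ) * y.1, (u : ℤ) * y.2)

/-- sub-blocks of the macro-block with integer coordinates `(M, i)` -/
def Par.sub (p : Par) (M i : ℤ) : Set Site :=
  {y | ∃ y0 ∈ p.Y, y = sm p.u y0 + ((p.A : ℤ) * M, (p.A : ℤ) * i)}

/-- sub-blocks of `X` and of its in-neighbours -/
def Par.sub2 (p : Par) (X : ℕ × ℤ) : Set Site :=
  p.sub X.1 X.2 ∪ p.sub (X.1 - 1) (X.2 - 1) ∪ p.sub (X.1 - 1) X.2 ∪ p.sub (X.1 - 1) (X.2 + 1)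

variable {q H : ℕ} [NeZero q]

/-- links from the ring `10u..20u` of `y` to the ring `50u..60u` -/
def VE (ρ : ℝ) (q : ℕ) (S : Set Site) (y : Site) (u : ℕ) : Prop :=
  (∀ i : ℕ, i < 6 → UU ρ q S (y.1 + 15 * u + 8 * u * i, y.2) (6 * u) (12 * u)) ∧
    UU ρ q S y (50 * u) (60 * u)

/-- `HatLam_{m,m'}(y)` -/
def HatE (ρ : ℝ) (ω : Conf q H) (m m' : ℕ) (y : Site) (u : ℕ) : Prop :=
  LamE ρ (inn m' y (25 * u) ω) m m' y (10 * u) ∧ VE ρ q (et ω m') y u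

/-- only time `m` is exposed -/
def expo (H m : ℕ) : Fin (H + 1) → Bool := fun k => decide ((k : ℕ) = m)

/-- marks in `box y R` at time `k` from `M`, the others from `M'` -/
noncomputable def mixC (k : ℕ) (y : Site) (R : ℕ) (M M' : Conf q H) : Conf q H := by
  classical
  exact fun θ => if ∃ h : k < H + 1, nrm (θ.1.c ⟨k, h⟩ - y) ≤ R then M θ else M' θ

/-- conditional probability of `HatE` given the exposed marks which at time `m'` are in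
`box y (27u)` -/
noncomputable def hcp {a δ Λ : ℝ} (L : MarkLaw q H a δ Λ) (lam : ℝ≥0) (ρ : ℝ) (u m m' : ℕ)
    (y : Site) (M : Conf q H) : ℝ :=
  ((pois (muE L lam (expo H m))).prod (hm q H)).real
    {p | HatE ρ (asmE (expo H m) (mixC m' y (27 * u) M p.1) p.2) m m' y u}

/-- the times of the block after the one of `m` -/
def nxt (J m : ℕ) : Finset ℕ := Finset.Ico ((m / J + 1) * J) ((m / J + 2) * J)

/-- `nice_m(y)` -/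
def niceE {a δ Λ : ℝ} (L : MarkLaw q H a δ Λ) (lam : ℝ≥0) (ρ : ℝ) (u J : ℕ) (uh : ℝ)
    (ω : Conf q H) (m : ℕ) (y : Site) : Prop :=
  uh / 2 * J ≤ ∑ m' ∈ nxt J m, hcp L lam ρ u m m' y (projE (expo H m) ω)

/-- `W_t(X)` -/
def WWE (ρ : ℝ) (q : ℕ) (S : Set Site) (p : Par) (X : ℕ × ℤ) : Prop :=
  ∀ z : Site, ((8 * p.u : ℕ) : ℤ) ∣ z.1 → ((8 * p.u : ℕ) : ℤ) ∣ z.2 →
    nrm (z - xX p.A X) + 12 * p.u ≤ 3 * p.A →
    (∀ y ∈ p.sub2 X, 52 * (p.u : ℤ) < nrm (z - y)) → UU ρ q S z (6 * p.u) (12 * p.u)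

/-- `N_m(X)` -/
def NNE {a δ Λ : ℝ} (L : MarkLaw q H a δ Λ) (lam : ℝ≥0) (ρ : ℝ) (p : Par) (uh : ℝ)
    (ω : Conf q H) (m : ℕ) (X : ℕ × ℤ) : Prop :=
  ∃ y ∈ p.sub X.1 X.2, niceE L lam ρ p.u p.J uh ω m y ∧ UU ρ q (et ω m) y (10 * p.u) (20 * p.u) ∧
    VE ρ q (et ω m) y p.u

/-- `Success_{m,m'}(y,X')` -/
def SuccE {a δ Λ : ℝ} (L : MarkLaw q H a δ Λ) (lam : ℝ≥0) (ρ : ℝ) (p : Par) (uh : ℝ)
    (ω : Conf q H) (m m' : ℕ) (y : Site) (X' : ℕ × ℤ) : Prop :=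
  HatE ρ ω m m' y p.u ∧ WWE ρ q (et ω m') p X' ∧ NNE L lam ρ p uh ω m' X'

open Classical in
/-- `F_m(X)` -/
def FFE {a δ Λ : ℝ} (L : MarkLaw q H a δ Λ) (lam : ℝ≥0) (ρ : ℝ) (p : Par) (uh τ : ℝ)
    (ω : Conf q H) (m : ℕ) (X : ℕ × ℤ) : Prop :=
  ∀ d : ℤ, |d| ≤ 1 → ∀ y ∈ p.sub X.1 X.2, niceE L lam ρ p.u p.J uh ω m y →
    τ * p.J ≤ (((nxt p.J m).filter fun m' =>
      SuccE L lam ρ p uh ω m m' y (X.1 + 1, X.2 + d)).card : ℝ)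

/-- no wild particle influences the window -/
def NWE (ω : Conf q H) (p : Par) (X : ℕ × ℤ) : Prop :=
  ∀ θ : FMark q H, ω θ ≠ 0 → θ.1 ∈ Infl q H p.A p.J X →
    θ.1.tot (X.1 * p.J - 1) ((X.1 + 3) * p.J + 1) ≤ p.u

open Classical in
/-- `GOOD(X)` -/
def GOODE {a δ Λ : ℝ} (L : MarkLaw q H a δ Λ) (lam : ℝ≥0) (ρ : ℝ) (p : Par) (uh τ : ℝ)
    (ω : Conf q H) (X : ℕ × ℤ) : Prop :=
  NWE ω p X ∧
    (((Finset.Ico (X.1 * p.J) ((X.1 + 1) * p.J)).filter fun m =>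
      WWE ρ q (et ω m) p X ∧ ¬ FFE L lam ρ p uh τ ω m X).card : ℝ) ≤ τ * p.J / 2

/-- sites where the target can be at time `m` (starting at any time `< J`, in an s-cell of
`box 0 B`); everything for `m < J`. -/
def Rch (ρ : ℝ) (ω : Conf q H) (J B m : ℕ) : Set Site :=
  {x | m < J ∨ ∃ (m0 : ℕ) (z : ℕ → Site), m0 < J ∧ nrm (z m0) ≤ B ∧
    (∀ k : Fin H, m0 ≤ (k : ℕ) → (k : ℕ) < m → SafeC ω k (z k)) ∧
    (∀ k : ℕ, m0 < k → k < m → (z (k - 1) = z k ∨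
      LinkedS Adj4 (vacSites ρ (et ω k)) (cbox q (z (k - 1)) 0) (cbox q (z k) 0))) ∧
    LinkedS Adj4 (vacSites ρ (et ω m)) (cbox q (z (m - 1)) 0) {x}}

open Classical in
/-- `OCC(X)` -/
def OCCE {a δ Λ : ℝ} (L : MarkLaw q H a δ Λ) (lam : ℝ≥0) (ρ : ℝ) (p : Par) (uh τ : ℝ)
    (ω : Conf q H) (X : ℕ × ℤ) : Prop :=
  τ * p.J ≤ (((Finset.Ico (X.1 * p.J) ((X.1 + 1) * p.J)).filter fun m =>
      WWE ρ q (et ω m) p X ∧ ∃ y ∈ p.sub X.1 X.2, niceE L lam ρ p.u p.J uh ω m y ∧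
        UU ρ q (et ω m) y (10 * p.u) (20 * p.u) ∧ VE ρ q (et ω m) y p.u ∧
        ∃ x ∈ Rch ρ ω p.J (2 * p.A) m, ∃ g ∈ GamS ρ q (et ω m) y (10 * p.u) (20 * p.u),
          Linked Adj4 (vacSites ρ (et ω m)) x g).card : ℝ)

open Classical in
/-- start event at `X = (0, i)` -/
def OCC0 {a δ Λ : ℝ} (L : MarkLaw q H a δ Λ) (lam : ℝ≥0) (ρ : ℝ) (p : Par) (uh τ : ℝ)
    (ω : Conf q H) (X : ℕ × ℤ) : Prop :=
  τ * p.J ≤ (((Finset.Ico 0 p.J).filter fun m =>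
      WWE ρ q (et ω m) p X ∧ NNE L lam ρ p uh ω m X).card : ℝ)

/-! ### deterministic blocks -/

/-- LOC: without wild particles the local event is the true one.  (`tot ≤ u`: a particle which at
time `m'` is outside `box y (25u)` is outside `box y (23u)` during the whole window.) -/
def Stmt_LOC : Prop :=
  ∀ (q H : ℕ) [NeZero q] (ρ : ℝ) (p : Par) (ω : Conf q H) (X : ℕ × ℤ) (m m' : ℕ) (y : Site),
    0 ≤ ρ → 20 * (ρ + 2) ≤ q → 1 ≤ p.J → 100 ≤ p.u → Geo p.A1 p.Y → NWE ω p X →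
    X.1 * p.J ≤ m → m < m' → m' < (X.1 + 2) * p.J → m' ≤ H → y ∈ p.sub X.1 X.2 →
    LamE ρ (inn m' y (25 * p.u) ω) m m' y (10 * p.u) → LamE ρ ω m m' y (10 * p.u)

/-- CHAIN: the network: if `W_t(X)` holds and `y, y'` are sub-blocks in `sub2 X` with `V`, `UU`,
then the circuits of `y` and `y'` are linked by vacant sites. (LINK along the grid points.) -/
def Stmt_CHAIN : Prop :=
  ∀ (ρ : ℝ) (q : ℕ) (S : Set Site) (p : Par) (X : ℕ × ℤ) (y y' : Site), 0 < q → 0 < p.u →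
    Geo p.A1 p.Y → WWE ρ q S p X → y ∈ p.sub2 X → y' ∈ p.sub2 X →
    VE ρ q S y p.u → VE ρ q S y' p.u → UU ρ q S y (10 * p.u) (20 * p.u) →
    UU ρ q S y' (10 * p.u) (20 * p.u) →
    ∀ g ∈ GamS ρ q S y (10 * p.u) (20 * p.u), ∀ g' ∈ GamS ρ q S y' (10 * p.u) (20 * p.u),
      Linked Adj4 (vacSites ρ S) g g'

/-- HOP: one successful try: from the circuit at time `m` to the circuit at time `m'`. (For
`m < J` start at the hole `b` at time `m`.) -/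
def Stmt_HOP : Prop :=
  ∀ (q H : ℕ) [NeZero q] (ρ : ℝ) (ω : Conf q H) (J B m m' l : ℕ) (y : Site), 0 ≤ ρ →
    20 * (ρ + 2) ≤ q → m < m' → m' ≤ H → J ≤ m' → 1 ≤ l → (m < J → nrm y + l ≤ B) →
    LamE ρ ω m m' y l → (∃ x ∈ Rch ρ ω J B m, ∃ g ∈ GamS ρ q (et ω m) y l (2 * l),
      Linked Adj4 (vacSites ρ (et ω m)) x g) →
    ∃ x ∈ Rch ρ ω J B m', ∃ g ∈ GamS ρ q (et ω m') y l (2 * l),
      Linked Adj4 (vacSites ρ (et ω m')) x g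

/-- REACH (Lemma 3.3), from LOC, CHAIN, HOP, CIRC. -/
def Stmt_REACH : Prop :=
  ∀ (q H : ℕ) [NeZero q] (a δ Λ : ℝ) (L : MarkLaw q H a δ Λ) (lam : ℝ≥0) (ρ : ℝ) (p : Par)
    (uh τ : ℝ) (ω : Conf q H) (X : ℕ × ℤ) (d : ℤ), 0 ≤ ρ → 20 * (ρ + 2) ≤ q → 1 ≤ p.J →
    100 ≤ p.u → Geo p.A1 p.Y → 0 < τ → 0 < uh → |d| ≤ 1 → (X.1 + 3) * p.J + 1 ≤ H →
    (X.1 = 0 → X.2 = 1) → GOODE L lam ρ p uh τ ω X → OCCE L lam ρ p uh τ ω X →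
    OCCE L lam ρ p uh τ ω (X.1 + 1, X.2 + d)

/-- DEPG: `GOOD(X)` depends only on the influencing marks, and is measurable; the same for `OCC0`. -/
def Stmt_DEPG : Prop :=
  ∀ (q H : ℕ) [NeZero q] (a δ Λ : ℝ) (L : MarkLaw q H a δ Λ) (lam : ℝ≥0) (ρ : ℝ) (p : Par)
    (uh τ : ℝ) (X : ℕ × ℤ), 0 ≤ ρ → 20 * (ρ + 2) ≤ q → 1 ≤ p.J → 100 ≤ p.u → Geo p.A1 p.Y →
    (X.1 + 3) * p.J + 1 ≤ H →
    MeasurableSet {ω : Conf q H | GOODE L lam ρ p uh τ ω X} ∧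
    DepOn {θ : FMark q H | θ.1 ∈ Infl q H p.A p.J X} {ω : Conf q H | GOODE L lam ρ p uh τ ω X} ∧
    (X.1 = 0 → MeasurableSet {ω : Conf q H | OCC0 L lam ρ p uh τ ω X} ∧
      DepOn {θ : FMark q H | θ.1 ∈ Infl q H p.A p.J X} {ω : Conf q H | OCC0 L lam ρ p uh τ ω X})

/-! ### probabilistic blocks -/

variable {c e I δ Λ : ℝ} {nmax : ℕ}

/-- MEASE: measurability / monotonicity of `HatE`, `niceE`, `WWE`, `NNE`. -/
def Stmt_MEASE : Prop :=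
  ∀ (q H : ℕ) [NeZero q] (a δ Λ : ℝ) (L : MarkLaw q H a δ Λ) (lam : ℝ≥0) (ρ : ℝ) (p : Par)
    (uh : ℝ) (m m' : ℕ) (y : Site) (X : ℕ × ℤ),
    (MeasurableSet {ω : Conf q H | HatE ρ ω m m' y p.u} ∧ Decr {ω : Conf q H | HatE ρ ω m m' y p.u}) ∧
    (MeasurableSet {ω : Conf q H | niceE L lam ρ p.u p.J uh ω m y} ∧
      Decr {ω : Conf q H | niceE L lam ρ p.u p.J uh ω m y}) ∧
    (MeasurableSet {ω : Conf q H | WWE ρ q (et ω m) p X} ∧ Decr {ω : Conf q H | WWE ρ q (et ω m) p X}) ∧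
    (MeasurableSet {ω : Conf q H | NNE L lam ρ p uh ω m X} ∧
      Decr {ω : Conf q H | NNE L lam ρ p uh ω m X}) ∧
    (Measurable (hcp L lam ρ p.u m m' y) ∧ Antitone (hcp L lam ρ p.u m m' y))

/-- HATP: `P(HatE) ≥ c1 * c^7` from `P(LamE) ≥ c1` (Harris, fewer particles, translation). -/
def Stmt_HATP : Prop :=
  ∀ (c e I δ Λ : ℝ) (nmax : ℕ) (E : Env c e I δ Λ nmax) (u m m' : ℕ) (y : Site) (c1 : ℝ),
    0 < c1 → 1 ≤ u → 60 * u ≤ nmax → m < m' → m' ≤ E.H →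
    c1 ≤ E.P.real {ω | LamE E.ρ ω m m' 0 (10 * u)} →
    c1 * c ^ 7 ≤ E.P.real {ω | HatE E.ρ ω m m' y u}

/-- NICEP: `P(nice) ≥ uh/2`, and `P(nice, UU, V) ≥ c^8 uh/2` (mean of the conditional
probabilities is `≥ uh`; SPLIT; Harris). -/
def Stmt_NICEP : Prop :=
  ∀ (c e I δ Λ : ℝ) (nmax : ℕ) (E : Env c e I δ Λ nmax) (u J m : ℕ) (y : Site) (uh : ℝ),
    0 < uh → 1 ≤ u → 1 ≤ J → 60 * u ≤ nmax → (m / J + 2) * J ≤ E.H →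
    (∀ m' ∈ nxt J m, uh ≤ E.P.real {ω | HatE E.ρ ω m m' y u}) →
    uh / 2 * c ^ 8 ≤ E.P.real {ω | niceE E.L E.lam E.ρ u J uh ω m y ∧
      UU E.ρ E.q (et ω m) y (10 * u) (20 * u) ∧ VE E.ρ E.q (et ω m) y u}

/-- NNP: many sub-blocks: `P(N_m(X)^c)` is small (tame particles: independence; WILD). -/
def Stmt_NNP : Prop :=
  ∀ (I Λ ε : ℝ) (J A1 : ℕ) (Y : Finset Site), 0 < ε → 1 ≤ J → Geo A1 Y → ∃ u0 : ℕ, ∀ u ≥ u0,
    ∀ (c e δ : ℝ) (nmax : ℕ) (E : Env c e I δ Λ nmax) (m : ℕ) (X : ℕ × ℤ) (uh v : ℝ),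
    0 < v → (m / J + 2) * J ≤ E.H → 60 * u ≤ nmax →
    (∀ y : Site, v ≤ E.P.real {ω | niceE E.L E.lam E.ρ u J uh ω m y ∧
      UU E.ρ E.q (et ω m) y (10 * u) (20 * u) ∧ VE E.ρ E.q (et ω m) y u}) →
    E.P.real {ω | ¬ NNE E.L E.lam E.ρ ⟨u, J, A1, Y⟩ uh ω m X} ≤ (1 - v) ^ Y.card + ε

/-- WLOW: `w ≥ c^{#links}`, the number of links being at most `(A1+1)^2`; `w` does not depend on
time and position. -/
noncomputable def Env.w (E : Env c e I δ Λ nmax) (p : Par) : ℝ :=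
  SP E.lam E.j (fun S => WWE E.ρ E.q S p (0, 0))

def Stmt_WLOW : Prop :=
  ∀ (c e I δ Λ : ℝ) (nmax : ℕ) (E : Env c e I δ Λ nmax) (p : Par), 1 ≤ p.u → Geo p.A1 p.Y →
    12 * p.u ≤ nmax →
    c ^ ((p.A1 + 1) ^ 2) ≤ E.w p ∧ ∀ (m : ℕ) (X : ℕ × ℤ), m ≤ E.H →
      E.P.real {ω | WWE E.ρ E.q (et ω m) p X} = E.w p

/-- `phi` and `psi` of 3.4 -/
noncomputable def Env.phi (E : Env c e I δ Λ nmax) (p : Par) (m m' : ℕ) (y : Site) (X' : ℕ × ℤ)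
    (M : Conf E.q E.H) : ℝ :=
  (hm E.q E.H).real {U | HatE E.ρ (asmE (expo E.H m) M U) m m' y p.u ∧
    WWE E.ρ E.q (et (asmE (expo E.H m) M U) m') p X'}

noncomputable def Env.psi (E : Env c e I δ Λ nmax) (p : Par) (m m' : ℕ) (y : Site) (X' : ℕ × ℤ)
    (M : Conf E.q E.H) : ℝ :=
  ((pois (muE E.L E.lam (expo E.H m))).prod (hm E.q E.H)).real
    {r | HatE E.ρ (asmE (expo E.H m) (mixC m' y (27 * p.u) M r.1) r.2) m m' y p.u ∧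
      WWE E.ρ E.q (et (asmE (expo E.H m) (mixC m' y (27 * p.u) M r.1) r.2) m') p X'}

/-- PSI: conditional Harris for the particles outside `box y (27u)` at time `m'`. -/
def Stmt_PSI : Prop :=
  ∀ (c e I δ Λ : ℝ) (nmax : ℕ) (E : Env c e I δ Λ nmax) (p : Par) (m m' : ℕ) (y : Site)
    (X' : ℕ × ℤ) (M : Conf E.q E.H), 100 ≤ p.u → Geo p.A1 p.Y → m < m' → m' ≤ E.H →
    y ∈ p.sub2 X' → E.w p * hcp E.L E.lam E.ρ p.u m m' y M ≤ E.psi p m m' y X' M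

/-- consequences of Theorem B: `phi` is close to `psi`, and the `W`'s at different times
decorrelate. -/
structure Env.Dec (E : Env c e I δ Λ nmax) (p : Par) (ε : ℝ) : Prop where
  phi : ∀ (m m' : ℕ) (y : Site) (X' : ℕ × ℤ), m < m' → m' ≤ E.H → y ∈ p.sub2 X' →
    ∫ M, (E.phi p m m' y X' M - E.psi p m m' y X' M) ^ 2 ∂(pois (muE E.L E.lam (expo E.H m))) ≤ ε
  w : ∀ (m m' : ℕ) (X X' : ℕ × ℤ), m ≤ E.H → m' ≤ E.H → m ≠ m' →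
    E.P.real {ω | WWE E.ρ E.q (et ω m) p X ∧ WWE E.ρ E.q (et ω m') p X'} ≤ (E.w p) ^ 2 + ε

/-- CIND: given the exposed marks (time `m` exposed), `Success_{m,m'}` depends only on `U_{m'}`. -/
def Stmt_CIND : Prop :=
  ∀ (q H : ℕ) [NeZero q] (a δ Λ : ℝ) (L : MarkLaw q H a δ Λ) (lam : ℝ≥0) (ρ : ℝ) (p : Par)
    (uh : ℝ) (M : Conf q H) (U U' : HV q H) (m m' : ℕ) (h : m' < H + 1) (y : Site) (X' : ℕ × ℤ),
    m ≠ m' → (∀ θ, mask (expo H m) θ.2 ≠ θ.2 → M θ = 0) → U ⟨m', h⟩ = U' ⟨m', h⟩ →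
    (SuccE L lam ρ p uh (asmE (expo H m) M U) m m' y X' ↔
      SuccE L lam ρ p uh (asmE (expo H m) M U') m m' y X')

/-- FFP: `P(W_m(X), not F_m(X))` (PLAN 3.4). `η` = extra error, `→ 0` by the choice `J`, then `ε`. -/
def Stmt_FFP : Prop :=
  ∀ (c e I δ Λ : ℝ) (nmax : ℕ) (E : Env c e I δ Λ nmax) (p : Par) (uh ε ε1 : ℝ) (X : ℕ × ℤ) (m : ℕ),
    0 < uh → uh ≤ 1 → 0 < ε → 100 ≤ p.u → 1 ≤ p.J → Geo p.A1 p.Y → (X.1 + 3) * p.J + 1 ≤ E.H →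
    X.1 * p.J ≤ m → m < (X.1 + 1) * p.J → 12 * p.u ≤ nmax → E.Dec p ε → ε ≤ (E.w p) ^ 2 →
    (∀ m' < (X.1 + 2) * p.J, ∀ X' : ℕ × ℤ,
      E.P.real {ω | ¬ NNE E.L E.lam E.ρ p uh ω m' X'} ≤ ε1) →
    E.P.real {ω | WWE E.ρ E.q (et ω m) p X ∧
        ¬ FFE E.L E.lam E.ρ p uh (uh * E.w p / 8) ω m X}
      ≤ 48 * ε1 * E.w p / uh +
        3 * p.Y.card * (10 ^ 6 * ε / (uh * E.w p) ^ 3 + 100 / (uh * E.w p * p.J))

/-- GOODP: probability of the block event (from FFP, Markov, WILD). -/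
def Stmt_GOODP : Prop :=
  ∀ (I Λ η : ℝ) (J A1 : ℕ) (Y : Finset Site), 0 < η → 1 ≤ J → Geo A1 Y → ∃ u0 : ℕ, ∀ u ≥ u0,
    ∀ (c e δ : ℝ) (nmax : ℕ) (E : Env c e I δ Λ nmax) (uh ε ε1 : ℝ) (X : ℕ × ℤ),
    0 < uh → uh ≤ 1 → 0 < ε → 0 < c → (X.1 + 3) * J + 1 ≤ E.H → 12 * u ≤ nmax →
    E.Dec ⟨u, J, A1, Y⟩ ε → ε ≤ (E.w ⟨u, J, A1, Y⟩) ^ 2 →
    (∀ m' < (X.1 + 2) * J, ∀ X' : ℕ × ℤ,
      E.P.real {ω | ¬ NNE E.L E.lam E.ρ ⟨u, J, A1, Y⟩ uh ω m' X'} ≤ ε1) →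
    E.P.real {ω | ¬ GOODE E.L E.lam E.ρ ⟨u, J, A1, Y⟩ uh (uh * E.w ⟨u, J, A1, Y⟩ / 8) ω X}
      ≤ 768 * ε1 / uh ^ 2 + 16 * (3 * Y.card * (10 ^ 6 * ε / (uh * E.w ⟨u, J, A1, Y⟩) ^ 3 +
        100 / (uh * E.w ⟨u, J, A1, Y⟩ * J))) / (uh * E.w ⟨u, J, A1, Y⟩) + η

/-- OCC0P: the start (4.6), Chebyshev. -/
def Stmt_OCC0P : Prop :=
  ∀ (c e I δ Λ : ℝ) (nmax : ℕ) (E : Env c e I δ Λ nmax) (p : Par) (uh ε ε1 : ℝ) (X : ℕ × ℤ),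
    0 < uh → uh ≤ 1 → 0 < ε → X.1 = 0 → 100 ≤ p.u → 1 ≤ p.J → Geo p.A1 p.Y → p.J ≤ E.H →
    12 * p.u ≤ nmax → E.Dec p ε →
    (∀ m' < p.J, E.P.real {ω | ¬ NNE E.L E.lam E.ρ p uh ω m' X} ≤ ε1) →
    E.P.real {ω | ¬ OCC0 E.L E.lam E.ρ p uh (uh * E.w p / 8) ω X}
      ≤ 4 * ε1 + 4 / (E.w p * p.J) + 4 * ε / (E.w p) ^ 2

end MPdd5692
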