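import Mathlib
import Pool.Agent.Work.MP_dd5692_pr.InterfaceE

/-!
# MP_dd5692_pr: InterfaceB (helper35): Theorem B' (decorrelation by Schramm-Steif)

Proved: `Anova.lean`, `SS.lean`, `CoreB.lean` (abstract part).  Per cell: `PerCell.lean` (helper93).
Here: explorations, revealment, blob (deterministic / static blocks), transfer to the particle
family, and the two final statements.
-/

open MeasureTheory ProbabilityTheory Set
open scoped ENNReal NNReal BigOperators

namespace MPdd5692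

namespace B35

/-- the sites of the ring -/
def ringS (q : ℕ) (z : Site) (a b : ℕ) : Set Site :=
  {x | (a : ℤ) < nrm (cidx q x - z) ∧ nrm (cidx q x - z) ≤ b}

/-- the circle of radius `t` (one layer of s-cells) -/
def circS (q : ℕ) (z : Site) (t : ℕ) : Set Site := {x | nrm (cidx q x - z) = t}

/-- the explored sites: the circle and everything joined to it in `C ∩ ring` -/
def Expl (adj : Site → Site → Prop) (C : Set Site) (q : ℕ) (z : Site) (a b t : ℕ) : Set Site :=
  {x | x ∈ circS q z t ∨ ∃ s ∈ circS q z t, Linked adj (C ∩ ringS q z a b) s x}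

/-- revealed s-cells, exploring the occupied clusters of the circle -/
def JJ8 (ρ : ℝ) (q : ℕ) (S : Set Site) (z : Site) (a b t : ℕ) : Set Site :=
  {c | ∃ x ∈ Expl Adj8 (vacSites ρ S)ᶜ q z a b t, nrm (cidx q x - c) ≤ 1}

/-- revealed s-cells, exploring the vacant clusters of the circle -/
def JJ4 (ρ : ℝ) (q : ℕ) (S : Set Site) (z : Site) (a b t : ℕ) : Set Site :=
  {c | ∃ x ∈ Expl Adj4 (vacSites ρ S) q z a b t, nrm (cidx q x - c) ≤ 1}

/-- `S` and `S'` agree in the s-cells of `C` -/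
def AgreeC (q : ℕ) (C S S' : Set Site) : Prop := ∀ v, cidx q v ∈ C → (v ∈ S ↔ v ∈ S')

/-- `S0` in the s-cells of `B`, `S` in the others -/
def mixS (q : ℕ) (B S0 S : Set Site) : Set Site :=
  {v | (cidx q v ∈ B ∧ v ∈ S0) ∨ (cidx q v ∉ B ∧ v ∈ S)}

/-- STOP8 (deterministic). `JJ8` is a stopping set which determines `UU`.
Proof: a site `x` is vacant for `S` iff no `v ∈ S` with `v - x ∈ offs ρ`; such a `v` is within
`ρ + 1 < q` of `x` (sup norm), so `nrm (cidx v - cidx x) ≤ 1`.  Hence the status of every site at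
distance `≤ 1` from an explored site... precisely: the status of `x` is determined by the cells
within 1 of `cidx x`; walk along a path from the circle: if the sites up to `u` are explored for
`S` and for `S'`, and the next site `v` is occupied for `S` then `v` is explored for `S`, so all
cells within 1 of `cidx v` are revealed and `v` is occupied for `S'` too; conversely (a site
`v ∈ C(S') \ C(S)` adjacent to an explored `u`): `v` is influenced only by cells within `ρ+1` of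
`v`, i.e. within `ρ + 2 < q` of `u`: these cells are within 1 of `cidx u`, hence revealed.
`UU`: an occupied wired path from `cbox z a` to the outside of `cbox z b`: cut it at the last visit
to `cbox z a` and the first visit to the outside afterwards: the piece lies in the ring, is
occupied, and meets the circle `t` (the index norm changes by at most 1 per step), so it consists
of explored sites. -/
def Stmt_STOP8 : Prop :=
  ∀ (ρ : ℝ) (q : ℕ) (z : Site) (a b t : ℕ) (S S' : Set Site), 0 ≤ ρ → 20 * (ρ + 2) ≤ q →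
    a < t → t ≤ b → AgreeC q (JJ8 ρ q S z a b t) S S' →
    JJ8 ρ q S' z a b t = JJ8 ρ q S z a b t ∧ (UU ρ q S z a b ↔ UU ρ q S' z a b)

/-- STOP4: the same for vacant arms. -/
def Stmt_STOP4 : Prop :=
  ∀ (ρ : ℝ) (q : ℕ) (z : Site) (a b t : ℕ) (S S' : Set Site), 0 ≤ ρ → 20 * (ρ + 2) ≤ q →
    a < t → t ≤ b → AgreeC q (JJ4 ρ q S z a b t) S S' →
    JJ4 ρ q S' z a b t = JJ4 ρ q S z a b t ∧
      (Arm ρ q S z a z b ↔ Arm ρ q S' z a z b)

/-- the blob of the s-cell `c`: mesh cells near its centre -/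
def blobS (q : ℕ) (c : Site) : Set Site :=
  {v | cidx q v = c ∧ 20 * |2 * (v.1 - q * c.1) - q| ≤ 2 * q ∧
    20 * |2 * (v.2 - q * c.2) - q| ≤ 2 * q}

/-- BLOB8 (deterministic): particles in the blob of a cell which is otherwise empty do not matter
for `UU`.  Proof: the sites occupied because of the blob lie within `q/20 + ρ + 1 ≤ q/10` of the
centre of the cell; the sites of the cell at distance between `q/10 + 1` and `q/2 - ρ - 2` from the
centre are vacant for both sets: an 8-path of occupied sites (the terminals are unions of cells)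
cannot enter.  If the cell belongs to a terminal: nothing changes, the sites are wired anyway. -/
def Stmt_BLOB8 : Prop :=
  ∀ (ρ : ℝ) (q : ℕ) (z c : Site) (a b : ℕ) (S S' : Set Site), 0 ≤ ρ → 20 * (ρ + 2) ≤ q →
    a < b → (∀ v ∈ S, cidx q v ≠ c) → S ⊆ S' → (∀ v ∈ S', v ∈ S ∨ v ∈ blobS q c) →
    (UU ρ q S z a b ↔ UU ρ q S' z a b)

/-- BLOB4: the same for vacant arms; the vacant path is rerouted along a square ring round the
blob. -/
def Stmt_BLOB4 : Prop :=
  ∀ (ρ : ℝ) (q : ℕ) (z c : Site) (a b : ℕ) (S S' : Set Site), 0 ≤ ρ → 20 * (ρ + 2) ≤ q →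
    a < b → (∀ v ∈ S, cidx q v ≠ c) → S ⊆ S' → (∀ v ∈ S', v ∈ S ∨ v ∈ blobS q c) →
    (Arm ρ q S z a z b ↔ Arm ρ q S' z a z b)

/-- BLOBC: the blob is a fixed fraction of the cell. -/
def Stmt_BLOBC : Prop :=
  ∀ (q : ℕ) (c : Site), 40 ≤ q → ∃ B : Finset (Fin q × Fin q), (q ^ 2 : ℝ) ≤ 400 * B.card ∧
    ∀ u ∈ B, ((q : ℤ) * c.1 + ((u.1 : ℕ) : ℤ), (q : ℤ) * c.2 + ((u.2 : ℕ) : ℤ)) ∈ blobS q c

/-- REV8 (static): revealment, the configuration being fixed (= `S0`) in the cells of `B`.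
Proof: `x ∈ JJ8` gives an occupied path from `cbox x 1` to the circle, which is outside
`cbox x (d+1)`; so for every `i < n` the ring `(x; 4^i, 2*4^i)` is crossed by an occupied path:
`¬ UU ρ q (mixS..) x (4^i) (2*4^i)`.  The sites of this ring depend on the cells `c` with
`4^i ≤ nrm (c - x) ≤ 2*4^i + 1 ≤ d`: these are not in `B`, and the sets for different `i` are
disjoint.  So the probability is at most `(1-c)^n` (product measure, `U_ge`:
`11 (2*4^i+1) ≤ 10 (4*4^i+1)`). -/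
def Stmt_REV8 : Prop :=
  ∀ (c e : ℝ) (nmax : ℕ) (ρ : ℝ) (q : ℕ) (l : ℝ≥0) (j : ℕ), StaticOK c e nmax ρ q l j →
    ∀ (B S0 : Set Site) (x z : Site) (a b t d n : ℕ), (∀ c' ∈ B, (d : ℤ) < nrm (c' - x)) →
    (d : ℤ) + 3 ≤ |nrm (x - z) - t| → 4 ^ n ≤ d → d ≤ nmax →
    SP l j (fun S => x ∈ JJ8 ρ q (mixS q B S0 S) z a b t) ≤ (1 - c) ^ n

/-- REV4: the same for the vacant exploration, with `NV_ge`. -/
def Stmt_REV4 : Prop :=
  ∀ (c e : ℝ) (nmax : ℕ) (ρ : ℝ) (q : ℕ) (l : ℝ≥0) (j : ℕ), StaticOK c e nmax ρ q l j →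
    ∀ (B S0 : Set Site) (x z : Site) (a b t d n : ℕ), (∀ c' ∈ B, (d : ℤ) < nrm (c' - x)) →
    (d : ℤ) + 3 ≤ |nrm (x - z) - t| → 4 ^ n ≤ d → d ≤ nmax →
    SP l j (fun S => x ∈ JJ4 ρ q (mixS q B S0 S) z a b t) ≤ (1 - c) ^ n

/-! ### transfer to the particle family -/

variable {q H : ℕ} [NeZero q]

/-- number of hidden particles which at time `k` are in the s-cell `c` -/
noncomputable def nH (k : Fin (H + 1)) (M : Conf q H) (c : Site) : ℕ :=
  ∑' θ : {θ : FMark q H // θ.1.c k = c ∧ θ.1.hid k}, M θ.1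

/-- number of non-hidden particles which at time `k` are in the mesh cell `v` of the s-cell `c` -/
noncomputable def nR (k : Fin (H + 1)) (M : Conf q H) (c : Site) (v : Pos q) : ℕ :=
  ∑' θ : {θ : FMark q H // θ.1.c k = c ∧ ¬ θ.1.hid k ∧ θ.1.r k = v}, M θ.1

/-- occupied positions in the s-cell `c` -/
noncomputable def posIn (q : ℕ) (S : Set Site) (c : Site) : Finset (Pos q) := by
  classical
  exact Finset.univ.filter fun u =>
    ((q : ℤ) * c.1 + ((u.1 : ℕ) : ℤ), (q : ℤ) * c.2 + ((u.2 : ℕ) : ℤ)) ∈ S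

/-- occupied positions in a cell, from the number of hidden particles, the numbers of non-hidden
ones and the hidden positions -/
noncomputable def OO {Q : Type} [Fintype Q] [DecidableEq Q] (Y : ℕ × (Q → ℕ)) (V : ℕ → Q) :
    Finset Q :=
  (Finset.range Y.1).image V ∪ Finset.univ.filter fun v => Y.2 v ≠ 0

/-- law of `Y = (H, r)` for one cell -/
noncomputable def muY (Q : Type) [Fintype Q] (ah ar : ℝ≥0) : Measure (ℕ × (Q → ℕ)) :=
  (poissonMeasure (Fintype.card Q * ah)).prod (Measure.pi fun _ => poissonMeasure ar)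

/-- TRF1 (Poisson superposition): law of the numbers of hidden / revealed particles of the cells
of a finite set `Λ0` at a non-exposed time `k`.  Here `ah` (hidden intensity per mesh cell) is
`≥ δ lam a`, from `MarkLaw.many`; the hidden intensity is uniform in the cell, the total is
uniform (`static`), hence so is the revealed one. -/
def Stmt_TRF1 : Prop :=
  ∀ (q H : ℕ) [NeZero q] (a δ Λ : ℝ) (L : MarkLaw q H a δ Λ) (lam : ℝ≥0) (e : Fin (H + 1) → Bool)
    (k : Fin (H + 1)), e k = false → 0 ≤ δ → ∃ ah ar : ℝ≥0, ((ah + ar : ℝ≥0) : ℝ) = lam * a ∧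
    δ * (lam * a) ≤ ah ∧ ∀ Λ0 : Finset Site,
    Measurable (fun (M : Conf q H) (c : Λ0) => (nH k M c.1, fun v => nR k M c.1 v)) ∧
    (pois (muE L lam e)).map (fun M (c : Λ0) => (nH k M c.1, fun v => nR k M c.1 v)) =
      Measure.pi fun _ : Λ0 => muY (Pos q) ah ar

/-- TRF2 (relabelling): given the exposed configuration `M` (almost surely finitely many particles
in each cell), the occupied positions at the non-exposed time `k` in the cells of `Λ0` are
distributed as if the hidden particles of each cell were numbered `0, 1, .., nH - 1`. -/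
def Stmt_TRF2 : Prop :=
  ∀ (q H : ℕ) [NeZero q] (a δ Λ : ℝ) (L : MarkLaw q H a δ Λ) (lam : ℝ≥0) (e : Fin (H + 1) → Bool)
    (k : Fin (H + 1)), e k = false → ∀ Λ0 : Finset Site,
    ∀ᵐ M ∂(pois (muE L lam e)), ∀ F : (Λ0 → Finset (Pos q)) → ℝ, (∀ x, |F x| ≤ 1) →
    ∫ U, F (fun c => posIn q (et (asmE e M U) k) c.1) ∂(hm q H) =
      ∫ V : Λ0 → ℕ → Pos q, F (fun c => OO (nH k M c.1, fun v => nR k M c.1 v) (V c))
        ∂(Measure.pi fun _ => Measure.infinitePi fun _ => unif q)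

/-- PCELL (helper93's `perCell`). -/
def Stmt_PCELL : Prop :=
  ∀ (Q : Type) [Fintype Q] [DecidableEq Q] [Nonempty Q] [MeasurableSpace Q]
    [MeasurableSingletonClass Q] (h : Finset Q → ℝ) (B : Finset Q) (β : ℝ) (ah ar : ℝ≥0) (N : ℕ),
    (∀ x, 0 ≤ h x ∧ h x ≤ 1) → (∀ x ⊆ B, h x = h ∅) → 0 < β → β * Fintype.card Q ≤ B.card →
    0 < ah →
    let U : Measure (ℕ → Q) := Measure.infinitePi fun _ => (PMF.uniformOfFintype Q).toMeasure
    let φ : ℕ × (Q → ℕ) → ℝ := fun Y => ∫ V, h (OO Y V) ∂U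
    ∫ Y, (φ Y - ∫ Y', φ Y' ∂(muY Q ah ar)) ^ 2 ∂(muY Q ah ar) ≤
      (((ah + ar : ℝ≥0) : ℝ) / (ah * β)) ^ N *
        ∫ Y, ∫ V, (h (OO Y V) - φ Y) ^ 2 ∂U ∂(muY Q ah ar) +
      (poissonMeasure (Fintype.card Q * (ah + ar))).real {k | N < k}

/-- PTAIL: Poisson tail: `P(Poi(I) > N) ≤ (e I / (N+1))^(N+1)`, in the form used. -/
def Stmt_PTAIL : Prop :=
  ∀ (I K η : ℝ), 0 < η → 1 ≤ K → ∃ T0 : ℕ, ∀ T ≥ T0, ∃ N : ℕ, K ^ N ≤ (T : ℝ) ^ η ∧
    ∀ x : ℝ≥0, (x : ℝ) ≤ I → (poissonMeasure x).real {k | N < k} ≤ 1 / (T : ℝ) ^ 3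

/-! ### Theorem B' for ring events and arms, in the particle family -/

/-- conjunction of ring events -/
def Rings (ρ : ℝ) (q : ℕ) (R : Finset (Site × ℕ × ℕ)) (S : Set Site) : Prop :=
  ∀ r ∈ R, UU ρ q S r.1 r.2.1 r.2.2

/-- VRING (= Theorem B' for products of ring events, with the occupied set fixed (`S0`) in
`box y r0` and the cells outside `box y r1` resampled; `D = true`), or no fixed region and
everything resampled (`D = false`).  `C` bounds the number of rings, `r/T`, and `T ≤ b - a`. -/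
def Stmt_VRING : Prop :=
  ∀ (c e I δ Λ : ℝ) (C : ℕ) (ε : ℝ), 0 < c → c ≤ 1 → 0 < δ → 0 < ε → ∃ T0 : ℕ, ∀ T ≥ T0,
    ∀ (nmax : ℕ) (E : Env c e I δ Λ nmax) (ex : Fin (E.H + 1) → Bool) (k : ℕ) (hk : k < E.H + 1),
    ex ⟨k, hk⟩ = false →
    ∀ R : Finset (Site × ℕ × ℕ), R.card ≤ C →
    (∀ r ∈ R, r.2.1 + T ≤ r.2.2 ∧ r.2.2 ≤ C * T ∧ r.2.2 ≤ nmax) →
    ∀ (y : Site) (r0 r1 : ℕ) (S0 : Set Site), r0 + T ≤ r1 →
    (let b : Conf E.q E.H → ℝ := fun M => (hm E.q E.H).real
        {U | Rings E.ρ E.q R (mixS E.q (box y r0) S0 (et (asmE ex M U) k))}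
     ∫ M, (b M - ∫ M', b (mixC k y r1 M M') ∂(pois (muE E.L E.lam ex))) ^ 2
        ∂(pois (muE E.L E.lam ex)) ≤ ε) ∧
    (let b : Conf E.q E.H → ℝ := fun M => (hm E.q E.H).real
        {U | Rings E.ρ E.q R (et (asmE ex M U) k)}
     ∫ M, (b M - ∫ M', b M' ∂(pois (muE E.L E.lam ex))) ^ 2 ∂(pois (muE E.L E.lam ex)) ≤ ε)

/-- VARM (Theorem B' for vacant arms). -/
def Stmt_VARM : Prop :=
  ∀ (c e I δ Λ : ℝ) (R : ℕ) (ε : ℝ), 0 < c → c ≤ 1 → 0 < δ → 0 < ε → ∃ a0 : ℕ, ∀ a ≥ a0,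
    ∀ (nmax : ℕ) (E : Env c e I δ Λ nmax) (ex : Fin (E.H + 1) → Bool) (k : ℕ) (hk : k < E.H + 1),
    ex ⟨k, hk⟩ = false → ∀ (z : Site) (b : ℕ), 11 * a ≤ 10 * b → b ≤ R * a → b ≤ nmax →
    (let p : Conf E.q E.H → ℝ := fun M => (hm E.q E.H).real
        {U | Arm E.ρ E.q (et (asmE ex M U) k) z a z b}
     ∫ M, (p M - ∫ M', p M' ∂(pois (muE E.L E.lam ex))) ^ 2 ∂(pois (muE E.L E.lam ex)) ≤ ε)

end B35

/-- ARMDEC (final, arms): from VARM with nothing exposed, SPLIT, SLICE, STATIC: given `M` the two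
occupied sets `et m`, `et m'` are independent, so the covariance is the covariance of
`p_m(M)`, `p_{m'}(M)`, at most the square root of the product of the variances. -/
def Stmt_ARMDEC : Prop :=
  ∀ (c e I δ Λ κ0 : ℝ) (R : ℕ), 0 < c → c ≤ 1 → 0 < δ → 0 < κ0 → ∃ a0 : ℕ,
    ∀ (nmax : ℕ) (E : Env c e I δ Λ nmax), E.ArmDec κ0 R a0

/-- DEC (final): `phi`: VRING (fixed region `box y (25u)`, resampled outside `box y (27u)`), with
`T = 2u` (the rings of `VE`, `WWE` have `b - a ≥ 6u`); integrate over the hidden positions and the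
marks in `box y (25u)` (Jensen).  `w`: VRING second form as for ARMDEC. -/
def Stmt_DEC : Prop :=
  ∀ (c e I δ Λ ε : ℝ) (J A1 : ℕ) (Y : Finset Site), 0 < c → c ≤ 1 → 0 < δ → 0 < ε → Geo A1 Y →
    ∃ u0 : ℕ, ∀ u ≥ u0, ∀ (nmax : ℕ) (E : Env c e I δ Λ nmax), 60 * u ≤ nmax →
    E.Dec ⟨u, J, A1, Y⟩ ε

end MPdd5692
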