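import Pool.Agent.Work.MP_dd5692_pr.HARRIS

/-!
# MP_dd5692_pr, block MIX: splitting of the coordinates (two independent copies).
-/

open MeasureTheory ProbabilityTheory Set
open scoped ENNReal NNReal BigOperators

namespace MPdd5692

namespace MIX

variable {ι : Type}

/-- `ω` on `A`, `ω'` off `A` -/
def mx (A : Set ι) [DecidablePred (· ∈ A)] (p : (ι → ℕ) × (ι → ℕ)) : ι → ℕ :=
  fun i => if i ∈ A then p.1 i else p.2 i

theorem mx_meas (A : Set ι) [DecidablePred (· ∈ A)] : Measurable (mx A) := by
  refine measurable_pi_lambda _ fun i => ?_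
  by_cases h : i ∈ A
  · simp only [mx, h, if_true]; fun_prop
  · simp only [mx, h, if_false]; fun_prop

/-- the law of the two copies -/
theorem map_pair (μ : ι → ℝ≥0) :
    (HARRIS.P2 μ).map (fun w => (fun i => w (true, i), fun i => w (false, i))) =
      (pois μ).prod (pois μ) := by
  have h2 : (HARRIS.P2 μ).map (MeasurableEquiv.curry Bool ι ℕ) =
      Measure.infinitePi fun _ : Bool => pois μ := by
    unfold HARRIS.P2 pois
    exact Measure.infinitePi_map_curry (fun (_ : Bool) (i : ι) => poissonMeasure (μ i))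
  have h3 := Measure.infinitePi_map_eval_prod (P := fun _ : Bool => pois μ)
    (i := true) (j := false) (by decide)
  rw [← h2, Measure.map_map (by fun_prop) (by fun_prop)] at h3
  rw [← h3]
  rfl

/-- mixing two independent copies gives the same law -/
theorem mp (μ : ι → ℝ≥0) (A : Set ι) [DecidablePred (· ∈ A)] :
    MeasurePreserving (mx A) ((pois μ).prod (pois μ)) (pois μ) := by
  refine ⟨mx_meas A, ?_⟩
  rw [← map_pair μ, Measure.map_map (mx_meas A) (by fun_prop)]
  have h1 := HARRIS.map_inj (fun p : Bool × ι => μ p.2)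
    (e := fun i : ι => (decide (i ∈ A), i)) (fun _ _ h => (Prod.mk.inj h).2)
  have h2 : (mx A ∘ fun w : Bool × ι → ℕ => (fun i => w (true, i), fun i => w (false, i))) =
      fun w i => w (decide (i ∈ A), i) := by
    funext w i
    by_cases h : i ∈ A <;> simp [mx, h]
  rw [h2]
  exact h1

end MIX

theorem stmt_MIX : Stmt_MIX := by
  intro ι _ μ A _ F hF hb
  have h1 : ∫ ω, F ω ∂(pois μ) = ∫ p, F (MIX.mx A p) ∂((pois μ).prod (pois μ)) := by
    have h2 := integral_map (μ := (pois μ).prod (pois μ)) (φ := MIX.mx A) (f := F)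
      (MIX.mx_meas A).aemeasurable hF.aestronglyMeasurable
    rwa [(MIX.mp μ A).map_eq] at h2
  rw [h1, integral_prod]
  · rfl
  · exact Integrable.of_bound (hF.comp (MIX.mx_meas A)).aestronglyMeasurable 1
      (Filter.Eventually.of_forall fun p => hb _)

end MPdd5692
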