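import Pool.Agent.Work.MP_dd5692_pr.InterfaceE

/-!
# MP_dd5692_pr, block PSI: conditional Harris inequality for the particles outside
`box y (27 u)` at time `m'` (helper90).
-/

open MeasureTheory ProbabilityTheory Set
open scoped ENNReal NNReal BigOperators

namespace MPdd5692

namespace PSI

/-! ### elementary facts on the lattice -/

theorem nrm_tri (a b c : Site) : nrm (a - c) ≤ nrm (a - b) + nrm (b - c) := by
  unfold nrm
  simp only [Prod.fst_sub, Prod.snd_sub]
  have h1 : |a.1 - c.1| ≤ |a.1 - b.1| + |b.1 - c.1| := abs_sub_le _ _ _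
  have h2 : |a.2 - c.2| ≤ |a.2 - b.2| + |b.2 - c.2| := abs_sub_le _ _ _
  have h3 := le_max_left |a.1 - b.1| |a.2 - b.2|
  have h4 := le_max_right |a.1 - b.1| |a.2 - b.2|
  have h5 := le_max_left |b.1 - c.1| |b.2 - c.2|
  have h6 := le_max_right |b.1 - c.1| |b.2 - c.2|
  apply max_le <;> linarith

theorem div_near {q : ℤ} (hq : 0 < q) {a b : ℤ} (h : |a - b| < q) : |a / q - b / q| ≤ 1 := by
  have h1 := Int.emod_def a q
  have h2 := Int.emod_def b q
  have h3 := Int.emod_nonneg a hq.ne'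
  have h4 := Int.emod_nonneg b hq.ne'
  have h5 := Int.emod_lt_of_pos a hq
  have h6 := Int.emod_lt_of_pos b hq
  rw [abs_lt] at h
  rw [abs_le]
  constructor
  · by_contra hc
    push Not at hc
    have : a / q - b / q ≤ -2 := by omega
    nlinarith [h.1, h.2]
  · by_contra hc
    push Not at hc
    have : 2 ≤ a / q - b / q := by omega
    nlinarith [h.1, h.2]

theorem offs_near {ρ : ℝ} (hρ : 0 ≤ ρ) {q : ℕ} (hq : 20 * (ρ + 2) ≤ q) {v x : Site}
    (h : v - x ∈ offs ρ) : nrm (cidx q v - cidx q x) ≤ 1 := by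
  have key : ∀ a : ℤ, offd a ^ 2 ≤ ρ ^ 2 → |a| < (q : ℤ) := by
    intro a ha
    have h1 : offd a ≤ ρ := by
      have h2 : 0 ≤ offd a := le_max_right _ _
      exact abs_le_of_sq_le_sq' ha hρ |>.2
    have h3 : |(a : ℝ)| - 1 / 2 ≤ offd a := le_max_left _ _
    have h4 : |(a : ℝ)| < q := by linarith
    have h5 : ((|a| : ℤ) : ℝ) < ((q : ℤ) : ℝ) := by push_cast; exact h4
    exact_mod_cast h5
  have h0 : offd (v - x).1 ^ 2 + offd (v - x).2 ^ 2 ≤ ρ ^ 2 := h
  have hq0 : (0 : ℤ) < q := by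
    have : (0 : ℝ) < q := by linarith
    exact_mod_cast this
  have h1 := key (v - x).1 (by nlinarith [sq_nonneg (offd (v - x).2)])
  have h2 := key (v - x).2 (by nlinarith [sq_nonneg (offd (v - x).1)])
  simp only [Prod.fst_sub, Prod.snd_sub] at h1 h2
  unfold nrm cidx
  simp only [Prod.fst_sub, Prod.snd_sub]
  exact max_le (div_near hq0 h1) (div_near hq0 h2)

theorem cidx_site {q H : ℕ} [NeZero q] (θ : FMark q H) (k : Fin (H + 1)) :
    cidx q (FMark.site θ k) = θ.1.c k := by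
  have hq : (0 : ℤ) < q := by exact_mod_cast Nat.pos_of_ne_zero (NeZero.ne q)
  unfold cidx FMark.site
  have key : ∀ (c : ℤ) (l : Fin q), ((q : ℤ) * c + ((l : ℕ) : ℤ)) / (q : ℤ) = c := by
    intro c l
    rw [Int.mul_add_ediv_left _ _ hq.ne', Int.ediv_eq_zero_of_lt (by positivity)
      (by exact_mod_cast l.2), add_zero]
  refine Prod.ext ?_ ?_
  · exact key _ _
  · exact key _ _

/-! ### locality of `UU` -/

theorem UU_congr {ρ : ℝ} {q : ℕ} {S S' : Set Site} {z : Site} {a b : ℕ}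
    (h : ∀ x ∈ cbox q z b, (x ∈ vacSites ρ S ↔ x ∈ vacSites ρ S')) :
    UU ρ q S z a b ↔ UU ρ q S' z a b := by
  have : (vacSites ρ S)ᶜ ∪ cbox q z a ∪ (cbox q z b)ᶜ =
      (vacSites ρ S')ᶜ ∪ cbox q z a ∪ (cbox q z b)ᶜ := by
    ext x
    by_cases hx : x ∈ cbox q z b
    · simp only [Set.mem_union, Set.mem_compl_iff, h x hx]
    · simp only [Set.mem_union, Set.mem_compl_iff, hx, not_false_eq_true, or_true]
  unfold UU Wired
  rw [this]

theorem WWE_congr {ρ : ℝ} (hρ : 0 ≤ ρ) {q : ℕ} (hq : 20 * (ρ + 2) ≤ q) {S S' : Set Site}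
    {p : Par} {X : ℕ × ℤ} {y : Site} (hu : 100 ≤ p.u) (hy : y ∈ p.sub2 X)
    (h : ∀ v : Site, ((27 * p.u : ℕ) : ℤ) < nrm (cidx q v - y) → (v ∈ S ↔ v ∈ S')) :
    WWE ρ q S p X ↔ WWE ρ q S' p X := by
  unfold WWE
  refine forall_congr' fun z => forall_congr' fun h1 => forall_congr' fun h2 =>
    forall_congr' fun h3 => forall_congr' fun h4 => ?_
  refine UU_congr fun x hx => ?_
  have hx' : nrm (cidx q x - z) ≤ ((12 * p.u : ℕ) : ℤ) := hx
  have h5 := h4 y hy
  have key : ∀ v : Site, v - x ∈ offs ρ → (v ∈ S ↔ v ∈ S') := by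
    intro v hv
    refine h v ?_
    have h6 := offs_near hρ hq hv
    have h7 := nrm_tri z (cidx q x) y
    have h8 := nrm_tri (cidx q x) (cidx q v) y
    have h9 : nrm (z - cidx q x) = nrm (cidx q x - z) := by
      unfold nrm; simp only [Prod.fst_sub, Prod.snd_sub, abs_sub_comm]
    have h10 : nrm (cidx q x - cidx q v) = nrm (cidx q v - cidx q x) := by
      unfold nrm; simp only [Prod.fst_sub, Prod.snd_sub, abs_sub_comm]
    have hu' : (100 : ℤ) ≤ p.u := by exact_mod_cast hu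
    push_cast at *
    linarith
  unfold vacSites
  simp only [Set.mem_ofPred_eq]
  constructor
  · intro h6 v hv hvo
    exact h6 v ((key v hvo).2 hv) hvo
  · intro h6 v hv hvo
    exact h6 v ((key v hvo).1 hv) hvo

theorem et_mixC {q H : ℕ} [NeZero q] (k : ℕ) (y : Site) (R : ℕ) (A B : Conf q H) (v : Site)
    (hv : (R : ℤ) < nrm (cidx q v - y)) : v ∈ et (mixC k y R A B) k ↔ v ∈ et B k := by
  unfold et
  simp only [Set.mem_ofPred_eq]
  refine exists_congr fun θ => ?_
  constructor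
  · rintro ⟨h1, h2, h3⟩
    refine ⟨?_, h2, h3⟩
    unfold mixC at h1
    rw [if_neg] at h1
    · exact h1
    · rintro ⟨h4, h5⟩
      rw [← h3, cidx_site] at hv
      exact absurd h5 (not_le.2 hv)
  · rintro ⟨h1, h2, h3⟩
    refine ⟨?_, h2, h3⟩
    unfold mixC
    rw [if_neg]
    · exact h1
    · rintro ⟨h4, h5⟩
      rw [← h3, cidx_site] at hv
      exact absurd h5 (not_le.2 hv)

/-! ### measurability -/

/-- chain of length `n` -/
def ch (adj : Site → Site → Prop) (S : Set Site) : ℕ → Site → Site → Prop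
  | 0, x, y => x = y
  | n + 1, x, y => ∃ z, ch adj S n x z ∧ adj z y ∧ y ∈ S

theorem ch_iff (adj : Site → Site → Prop) (S : Set Site) (x y : Site) :
    Relation.ReflTransGen (fun u v => adj u v ∧ v ∈ S) x y ↔ ∃ n, ch adj S n x y := by
  constructor
  · intro h
    induction h with
    | refl => exact ⟨0, rfl⟩
    | tail _ h2 ih =>
      obtain ⟨n, hn⟩ := ih
      exact ⟨n + 1, _, hn, h2⟩
  · rintro ⟨n, hn⟩
    induction n generalizing y with
    | zero => obtain rfl : x = y := hn; exact Relation.ReflTransGen.refl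
    | succ n ih =>
      obtain ⟨z, h1, h2⟩ := hn
      exact (ih z h1).tail h2

theorem meas_ch {Ω : Type*} [MeasurableSpace Ω] (adj : Site → Site → Prop) (S : Ω → Set Site)
    (hS : ∀ z, MeasurableSet {ω | z ∈ S ω}) (n : ℕ) (x y : Site) :
    MeasurableSet {ω | ch adj (S ω) n x y} := by
  induction n generalizing y with
  | zero => exact MeasurableSet.const _
  | succ n ih =>
    have : {ω | ch adj (S ω) (n + 1) x y} =
        ⋃ z, ({ω | ch adj (S ω) n x z} ∩ ({ω | adj z y} ∩ {ω | y ∈ S ω})) := by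
      ext ω
      simp [ch]
    rw [this]
    exact MeasurableSet.iUnion fun z => (ih z).inter ((MeasurableSet.const _).inter (hS y))

theorem meas_linked {Ω : Type*} [MeasurableSpace Ω] (adj : Site → Site → Prop) (S : Ω → Set Site)
    (hS : ∀ z, MeasurableSet {ω | z ∈ S ω}) (x y : Site) :
    MeasurableSet {ω | Linked adj (S ω) x y} := by
  have : {ω | Linked adj (S ω) x y} = {ω | x ∈ S ω} ∩ ⋃ n, {ω | ch adj (S ω) n x y} := by
    ext ω
    simp only [Linked, Set.mem_ofPred_eq, Set.mem_inter_iff, Set.mem_iUnion, ch_iff]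
  rw [this]
  exact (hS x).inter (MeasurableSet.iUnion fun n => meas_ch adj S hS n x y)

theorem meas_UU {Ω : Type*} [MeasurableSpace Ω] (S : Ω → Set Site)
    (hS : ∀ z, MeasurableSet {ω | z ∈ S ω}) (ρ : ℝ) (q : ℕ) (z : Site) (a b : ℕ) :
    MeasurableSet {ω | UU ρ q (S ω) z a b} := by
  have hv : ∀ x, MeasurableSet {ω | x ∈ (vacSites ρ (S ω))ᶜ ∪ cbox q z a ∪ (cbox q z b)ᶜ} := by
    intro x
    have h1 : MeasurableSet {ω | x ∈ vacSites ρ (S ω)} := by
      have : {ω | x ∈ vacSites ρ (S ω)} = ⋂ v, ({ω | v ∈ S ω}ᶜ ∪ {ω | v - x ∉ offs ρ}) := by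
        ext ω
        simp only [vacSites, Set.mem_ofPred_eq, Set.mem_iInter, Set.mem_union, Set.mem_compl_iff]
        exact forall_congr' fun v => by tauto
      rw [this]
      exact MeasurableSet.iInter fun v => (hS v).compl.union (MeasurableSet.const _)
    exact ((h1.compl).union (MeasurableSet.const _)).union (MeasurableSet.const _)
  have : {ω | UU ρ q (S ω) z a b} =
      (⋃ x ∈ cbox q z a, ⋃ y ∈ (cbox q z b)ᶜ,
        {ω | Linked Adj8 ((vacSites ρ (S ω))ᶜ ∪ cbox q z a ∪ (cbox q z b)ᶜ) x y})ᶜ := by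
    ext ω
    simp [UU, Wired, LinkedS]
  rw [this]
  exact (MeasurableSet.biUnion (Set.to_countable _) fun x _ =>
    MeasurableSet.biUnion (Set.to_countable _) fun y _ => meas_linked _ _ hv x y).compl

theorem meas_WWE {Ω : Type*} [MeasurableSpace Ω] (S : Ω → Set Site)
    (hS : ∀ z, MeasurableSet {ω | z ∈ S ω}) (ρ : ℝ) (q : ℕ) (p : Par) (X : ℕ × ℤ) :
    MeasurableSet {ω | WWE ρ q (S ω) p X} := by
  unfold WWE
  simp only [Set.ofPred_forall]
  exact MeasurableSet.iInter fun z => MeasurableSet.iInter fun _ => MeasurableSet.iInter fun _ =>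
    MeasurableSet.iInter fun _ => MeasurableSet.iInter fun _ => meas_UU S hS ρ q z _ _

/-! ### translations -/

theorem linked_tr (adj : Site → Site → Prop) (f : Site → Site)
    (hf : ∀ x y, adj x y → adj (f x) (f y)) (S : Set Site) {x y : Site}
    (h : Linked adj (f ⁻¹' S) x y) : Linked adj S (f x) (f y) := by
  refine ⟨h.1, ?_⟩
  have h2 : Relation.ReflTransGen (fun u v => adj u v ∧ v ∈ f ⁻¹' S) x y := h.2
  exact Relation.ReflTransGen.lift (p := fun u v => adj u v ∧ v ∈ S) f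
    (fun a b hab => ⟨hf a b hab.1, hab.2⟩) _ _ h2

theorem adj8_tr (t x y : Site) (h : Adj8 x y) : Adj8 (x + t) (y + t) := by
  unfold Adj8 at *
  simpa using h

theorem cidx_add (q : ℕ) (hq : 0 < q) (x t : Site) :
    cidx q (x + ((q : ℤ) * t.1, (q : ℤ) * t.2)) = cidx q x + t := by
  have hq' : (q : ℤ) ≠ 0 := by exact_mod_cast hq.ne'
  unfold cidx
  refine Prod.ext ?_ ?_
  · show (x.1 + (q : ℤ) * t.1) / (q : ℤ) = x.1 / (q : ℤ) + t.1
    rw [Int.add_mul_ediv_left _ _ hq']
  · show (x.2 + (q : ℤ) * t.2) / (q : ℤ) = x.2 / (q : ℤ) + t.2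
    rw [Int.add_mul_ediv_left _ _ hq']

theorem mem_cbox_add (q : ℕ) (hq : 0 < q) (x t z : Site) (a : ℕ) :
    x + ((q : ℤ) * t.1, (q : ℤ) * t.2) ∈ cbox q (z + t) a ↔ x ∈ cbox q z a := by
  unfold cbox box
  simp only [Set.mem_ofPred_eq, cidx_add q hq, add_sub_add_right_eq_sub]

theorem UU_tr (ρ : ℝ) (q : ℕ) (hq : 0 < q) (S : Set Site) (t z : Site) (a b : ℕ) :
    UU ρ q {x | x + ((q : ℤ) * t.1, (q : ℤ) * t.2) ∈ S} z a b ↔ UU ρ q S (z + t) a b := by
  set s : Site := ((q : ℤ) * t.1, (q : ℤ) * t.2) with hs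
  have hset : (vacSites ρ {x | x + s ∈ S})ᶜ ∪ cbox q z a ∪ (cbox q z b)ᶜ =
      (fun x => x + s) ⁻¹' ((vacSites ρ S)ᶜ ∪ cbox q (z + t) a ∪ (cbox q (z + t) b)ᶜ) := by
    ext x
    simp only [Set.mem_union, Set.mem_compl_iff, Set.mem_preimage]
    rw [hs, mem_cbox_add q hq x t z a, mem_cbox_add q hq x t z b, ← hs]
    have : x ∈ vacSites ρ {x | x + s ∈ S} ↔ x + s ∈ vacSites ρ S := by
      unfold vacSites
      simp only [Set.mem_ofPred_eq]
      constructor
      · intro h v hv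
        have := h (v - s) (by simpa using hv)
        rwa [show v - s - x = v - (x + s) by abel] at this
      · intro h v hv
        have := h (v + s) hv
        rwa [show v + s - (x + s) = v - x by abel] at this
    rw [this]
  have hset2 : (vacSites ρ S)ᶜ ∪ cbox q (z + t) a ∪ (cbox q (z + t) b)ᶜ =
      (fun x => x + -s) ⁻¹' ((vacSites ρ {x | x + s ∈ S})ᶜ ∪ cbox q z a ∪ (cbox q z b)ᶜ) := by
    rw [hset, ← Set.preimage_comp]
    ext x
    simp
  unfold UU Wired LinkedS
  refine not_congr ⟨?_, ?_⟩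
  · rintro ⟨x, hx, y, hy, h⟩
    refine ⟨x + s, (mem_cbox_add q hq x t z a).2 hx, y + s, fun h' => hy
      ((mem_cbox_add q hq y t z b).1 h'), ?_⟩
    rw [hset] at h
    exact linked_tr Adj8 _ (fun _ _ => adj8_tr s _ _) _ h
  · rintro ⟨x, hx, y, hy, h⟩
    refine ⟨x + -s, ?_, y + -s, fun h' => hy ?_, ?_⟩
    · rw [← mem_cbox_add q hq _ t z a, ← hs]
      simpa using hx
    · rw [← mem_cbox_add q hq _ t z b, ← hs] at h'
      simpa using h'
    · rw [hset2] at h
      exact linked_tr Adj8 _ (fun _ _ => adj8_tr (-s) _ _) _ h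

theorem mem_sub_tr (p : Par) (M i M0 i0 : ℤ) (y : Site) :
    y + ((p.A : ℤ) * M0, (p.A : ℤ) * i0) ∈ p.sub (M0 + M) (i0 + i) ↔ y ∈ p.sub M i := by
  unfold Par.sub
  simp only [Set.mem_ofPred_eq]
  refine exists_congr fun y0 => and_congr_right fun _ => ?_
  have : sm p.u y0 + ((p.A : ℤ) * (M0 + M), (p.A : ℤ) * (i0 + i)) =
      sm p.u y0 + ((p.A : ℤ) * M, (p.A : ℤ) * i) + ((p.A : ℤ) * M0, (p.A : ℤ) * i0) := by
    refine Prod.ext ?_ ?_
    · show (sm p.u y0).1 + (p.A : ℤ) * (M0 + M) = (sm p.u y0).1 + (p.A : ℤ) * M + (p.A : ℤ) * M0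
      ring
    · show (sm p.u y0).2 + (p.A : ℤ) * (i0 + i) = (sm p.u y0).2 + (p.A : ℤ) * i + (p.A : ℤ) * i0
      ring
  rw [this, add_left_inj]

theorem mem_sub2_tr (p : Par) (X : ℕ × ℤ) (y : Site) :
    y + xX p.A X ∈ p.sub2 X ↔ y ∈ p.sub2 (0, 0) := by
  unfold Par.sub2 xX
  simp only [Set.mem_union]
  have h := fun M i => mem_sub_tr p M i X.1 X.2 y
  have h1 := h 0 0
  have h2 := h (-1) (-1)
  have h3 := h (-1) 0
  have h4 := h (-1) 1
  simp only [add_zero, ← sub_eq_add_neg] at h1 h2 h3 h4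
  rw [h1, h2, h3, h4]
  simp

theorem WWE_tr (ρ : ℝ) (q : ℕ) (hq : 0 < q) (S : Set Site) (p : Par) (X : ℕ × ℤ) (hA : 8 ∣ p.A1) :
    WWE ρ q {x | x + ((q : ℤ) * (xX p.A X).1, (q : ℤ) * (xX p.A X).2) ∈ S} p (0, 0) ↔
      WWE ρ q S p X := by
  set t := xX p.A X with ht
  have hd : ((8 * p.u : ℕ) : ℤ) ∣ t.1 ∧ ((8 * p.u : ℕ) : ℤ) ∣ t.2 := by
    have h8 : ((8 * p.u : ℕ) : ℤ) ∣ (p.A : ℤ) := by
      unfold Par.A
      exact_mod_cast Nat.mul_dvd_mul hA dvd_rfl
    exact ⟨h8.mul_right _, h8.mul_right _⟩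
  have h00 : xX p.A (0, 0) = 0 := by unfold xX; simp
  constructor
  · intro h z h1 h2 h3 h4
    have := h (z - t) (h1.sub hd.1) (h2.sub hd.2) (by rw [h00, sub_zero]; exact h3) ?_
    · rw [UU_tr ρ q hq, sub_add_cancel] at this
      exact this
    · intro y hy
      have := h4 (y + t) ((mem_sub2_tr p X y).2 hy)
      rwa [show z - (y + t) = z - t - y by abel] at this
  · intro h z h1 h2 h3 h4
    rw [UU_tr ρ q hq]
    refine h (z + t) (h1.add hd.1) (h2.add hd.2) ?_ ?_
    · rw [h00, sub_zero] at h3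
      rw [← ht, add_sub_cancel_right]
      exact h3
    · intro y hy
      have := h4 (y - t) (by rw [← mem_sub2_tr p X, ← ht, sub_add_cancel]; exact hy)
      rwa [show z - (y - t) = z + t - y by abel] at this

theorem stat_tr (l : ℝ≥0) (j : ℕ) (s : Site) :
    (stat l j).map (fun η x => η (x + s)) = stat l j := by
  unfold stat
  exact Measure.map_infinitePi_infinitePi_of_inj
    (P := fun _ : Site => poissonMeasure (l * (1 / 4) ^ j)) (add_left_injective s)

theorem meas_WWE_occ (ρ : ℝ) (q : ℕ) (p : Par) (X : ℕ × ℤ) :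
    MeasurableSet {η : Site → ℕ | WWE ρ q (occ η) p X} := by
  refine meas_WWE (fun η => occ η) (fun z => ?_) ρ q p X
  have h1 : Measurable fun η : Site → ℕ => η z := measurable_pi_apply z
  exact h1 (MeasurableSet.singleton (0 : ℕ)).compl

theorem SP_tr (l : ℝ≥0) (j : ℕ) (ρ : ℝ) (q : ℕ) (hq : 0 < q) (p : Par) (X : ℕ × ℤ)
    (hA : 8 ∣ p.A1) :
    SP l j (fun S => WWE ρ q S p X) = SP l j (fun S => WWE ρ q S p (0, 0)) := by
  unfold SP
  have hm : Measurable (fun (η : Site → ℕ) x =>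
      η (x + ((q : ℤ) * (xX p.A X).1, (q : ℤ) * (xX p.A X).2))) := by fun_prop
  conv_rhs => rw [← stat_tr l j ((q : ℤ) * (xX p.A X).1, (q : ℤ) * (xX p.A X).2)]
  rw [map_measureReal_apply hm (meas_WWE_occ ρ q p (0, 0))]
  congr 1
  ext η
  simp only [Set.mem_ofPred_eq, Set.mem_preimage]
  exact (WWE_tr ρ q hq (occ η) p X hA).symm

/-! ### mixing of the hidden positions -/

/-- mixing of two families of coordinates -/
def mxg {ι α : Type} (A : Set ι) [DecidablePred (· ∈ A)] (p : (ι → α) × (ι → α)) : ι → α :=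
  fun i => if i ∈ A then p.1 i else p.2 i

theorem mxg_meas {ι α : Type} [MeasurableSpace α] (A : Set ι) [DecidablePred (· ∈ A)] :
    Measurable (mxg (α := α) A) := by
  refine measurable_pi_lambda _ fun i => ?_
  by_cases h : i ∈ A
  · simp only [mxg, h, if_true]; fun_prop
  · simp only [mxg, h, if_false]; fun_prop

theorem mxg_mp {ι α : Type} [MeasurableSpace α] (μ : ι → Measure α)
    [∀ i, IsProbabilityMeasure (μ i)] (A : Set ι) [DecidablePred (· ∈ A)] :
    MeasurePreserving (mxg (α := α) A)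
      ((Measure.infinitePi μ).prod (Measure.infinitePi μ)) (Measure.infinitePi μ) := by
  refine ⟨mxg_meas A, ?_⟩
  refine Measure.eq_infinitePi μ fun s t ht => ?_
  rw [Measure.map_apply (mxg_meas A) (MeasurableSet.pi (Finset.countable_toSet s) fun i _ => ht i)]
  have : mxg (α := α) A ⁻¹' ((s : Set ι).pi t) =
      (((s.filter (· ∈ A) : Finset ι) : Set ι).pi t) ×ˢ
        (((s.filter (fun i => ¬ i ∈ A) : Finset ι) : Set ι).pi t) := by
    ext p
    simp only [Set.mem_preimage, Set.mem_pi, Set.mem_prod, Finset.mem_coe, Finset.mem_filter]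
    constructor
    · intro h
      refine ⟨fun i hi => ?_, fun i hi => ?_⟩
      · have := h i hi.1
        simpa [mxg, hi.2] using this
      · have := h i hi.1
        simpa [mxg, hi.2] using this
    · rintro ⟨h1, h2⟩ i hi
      by_cases hA : i ∈ A
      · have := h1 i ⟨hi, hA⟩
        simpa [mxg, hA] using this
      · have := h2 i ⟨hi, hA⟩
        simpa [mxg, hA] using this
  rw [this, Measure.prod_prod, Measure.infinitePi_pi μ (fun i _ => ht i),
    Measure.infinitePi_pi μ (fun i _ => ht i), Finset.prod_filter_mul_prod_filter_not]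

/-- mixing of the hidden positions -/
def mixU {q H : ℕ} (A : Set (FMark q H × ℕ)) [DecidablePred (· ∈ A)] (r : HV q H × HV q H) :
    HV q H := fun k => mxg A (r.1 k, r.2 k)

theorem mixU_mp {q H : ℕ} [NeZero q] (A : Set (FMark q H × ℕ)) [DecidablePred (· ∈ A)] :
    MeasurePreserving (mixU A) ((hm q H).prod (hm q H)) (hm q H) := by
  have hP : IsProbabilityMeasure (unif q) := by unfold unif; infer_instance
  unfold hm
  have h1 := (measurePreserving_arrowProdEquivProdArrow (FMark q H × ℕ → Pos q)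
    (FMark q H × ℕ → Pos q) (Fin (H + 1)) (fun _ => Measure.infinitePi fun _ => unif q)
    (fun _ => Measure.infinitePi fun _ => unif q)).symm
  have h2 := measurePreserving_pi (ι := Fin (H + 1))
    (fun _ => (Measure.infinitePi fun _ : FMark q H × ℕ => unif q).prod
      (Measure.infinitePi fun _ : FMark q H × ℕ => unif q))
    (fun _ => Measure.infinitePi fun _ : FMark q H × ℕ => unif q)
    (f := fun _ => mxg A) (fun _ => mxg_mp (fun _ => unif q) A)
  exact h2.comp h1

/-! ### assembling and mixing commute -/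

/-- indices of the hidden positions of the inner marks -/
def inA {q H : ℕ} (k : ℕ) (hk : k < H + 1) (y : Site) (R : ℕ) : Set (FMark q H × ℕ) :=
  {x | nrm (x.1.1.c ⟨k, hk⟩ - y) ≤ R}

theorem mixC_pos {q H : ℕ} {k : ℕ} (hk : k < H + 1) {y : Site} {R : ℕ} (M M' : Conf q H)
    {θ : FMark q H} (h : nrm (θ.1.c ⟨k, hk⟩ - y) ≤ R) : mixC k y R M M' θ = M θ := by
  unfold mixC
  exact if_pos ⟨hk, h⟩

theorem mixC_neg {q H : ℕ} {k : ℕ} (hk : k < H + 1) {y : Site} {R : ℕ} (M M' : Conf q H)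
    {θ : FMark q H} (h : ¬ nrm (θ.1.c ⟨k, hk⟩ - y) ≤ R) : mixC k y R M M' θ = M' θ := by
  unfold mixC
  exact if_neg fun ⟨_, h'⟩ => h h'

theorem asm_mix {q H : ℕ} [NeZero q] (e : Fin (H + 1) → Bool) (k : ℕ) (hk : k < H + 1) (y : Site)
    (R : ℕ) [DecidablePred (· ∈ (inA k hk y R : Set (FMark q H × ℕ)))]
    (M M' : Conf q H) (U1 U2 : HV q H) :
    asmE e (mixC k y R M M') (mixU (inA k hk y R) (U1, U2)) =
      mixC k y R (asmE e M U1) (asmE e M' U2) := by
  funext θ
  by_cases h : nrm (θ.1.c ⟨k, hk⟩ - y) ≤ R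
  · rw [mixC_pos hk _ _ h]
    unfold asmE
    have h2 : mixC k y R M M' (θ.1, mask e θ.2) = M (θ.1, mask e θ.2) := mixC_pos hk _ _ h
    rw [h2]
    congr 1
    refine Finset.filter_congr fun i _ => forall_congr' fun l => ?_
    have h3 : (((θ.1, mask e θ.2), i) : FMark q H × ℕ) ∈ (inA k hk y R : Set (FMark q H × ℕ)) := h
    simp only [mixU, mxg, h3, if_true]
  · rw [mixC_neg hk _ _ h]
    unfold asmE
    have h2 : mixC k y R M M' (θ.1, mask e θ.2) = M' (θ.1, mask e θ.2) := mixC_neg hk _ _ h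
    rw [h2]
    congr 1
    refine Finset.filter_congr fun i _ => forall_congr' fun l => ?_
    have h3 : (((θ.1, mask e θ.2), i) : FMark q H × ℕ) ∉ (inA k hk y R : Set (FMark q H × ℕ)) := h
    simp only [mixU, mxg, h3, if_false]

theorem mixC_meas {q H : ℕ} (k : ℕ) (y : Site) (R : ℕ) :
    Measurable fun p : Conf q H × Conf q H => mixC k y R p.1 p.2 := by
  refine measurable_pi_lambda _ fun θ => ?_
  unfold mixC
  split
  · fun_prop
  · fun_prop

theorem mixC_mono {q H : ℕ} (k : ℕ) (y : Site) (R : ℕ) (M : Conf q H) {A B : Conf q H}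
    (h : A ≤ B) : mixC k y R M A ≤ mixC k y R M B := by
  intro θ
  unfold mixC
  split
  · exact le_rfl
  · exact h θ

instance cmark_countable (q H : ℕ) : Countable (CMark q H) := by
  refine Function.Injective.countable
    (f := fun ξ : CMark q H => ((ξ.c, ξ.g), (ξ.b, ξ.r))) ?_
  intro ξ ξ' h
  cases ξ
  cases ξ'
  simp only [Prod.mk.injEq] at h
  obtain ⟨⟨rfl, rfl⟩, rfl, rfl⟩ := h
  rfl

section main

variable {q H : ℕ} [NeZero q]

instance : IsProbabilityMeasure (hm q H) := by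
  have hP : IsProbabilityMeasure (unif q) := by unfold unif; infer_instance
  unfold hm
  infer_instance

/-- change of variables: the law of the mixture -/
theorem law (h3 : Stmt_SPLIT) {a δ Λ : ℝ} (L : MarkLaw q H a δ Λ) (lam : ℝ≥0)
    (e : Fin (H + 1) → Bool) (k : ℕ) (hk : k < H + 1) (y : Site) (R : ℕ) (M : Conf q H)
    (S : Set (Conf q H)) (hS : MeasurableSet S) :
    ((pois (muE L lam e)).prod (hm q H)).real {p | asmE e (mixC k y R M p.1) p.2 ∈ S} =
      ((hm q H).prod (L.PP lam)).real {r | mixC k y R (asmE e M r.1) r.2 ∈ S} := by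
  classical
  obtain ⟨hm1, hm2, -, -, -⟩ := h3 q H a δ Λ L lam e
  set A : Set (FMark q H × ℕ) := inA k hk y R with hA
  have hPP : IsProbabilityMeasure (L.PP lam) := by unfold MarkLaw.PP; infer_instance
  -- the two measure preserving maps
  have mpA : MeasurePreserving (fun p : Conf q H × HV q H => asmE e p.1 p.2)
      ((pois (muE L lam e)).prod (hm q H)) (L.PP lam) := ⟨hm1, hm2⟩
  have mp1 : MeasurePreserving
      (fun r : HV q H × (Conf q H × HV q H) => (r.2.1, mixU A (r.1, r.2.2)))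
      ((hm q H).prod ((pois (muE L lam e)).prod (hm q H)))
      ((pois (muE L lam e)).prod (hm q H)) := by
    have f1 := (measurePreserving_prodAssoc (hm q H) (pois (muE L lam e)) (hm q H)).symm
    have f2 := (Measure.measurePreserving_swap (μ := hm q H) (ν := pois (muE L lam e))).prod
      (MeasurePreserving.id (hm q H))
    have f3 := measurePreserving_prodAssoc (pois (muE L lam e)) (hm q H) (hm q H)
    have f4 := (MeasurePreserving.id (pois (muE L lam e))).prod (mixU_mp (q := q) (H := H) A)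
    exact f4.comp (f3.comp (f2.comp f1))
  have mp2 : MeasurePreserving
      (fun r : HV q H × (Conf q H × HV q H) => (r.1, asmE e r.2.1 r.2.2))
      ((hm q H).prod ((pois (muE L lam e)).prod (hm q H))) ((hm q H).prod (L.PP lam)) :=
    (MeasurePreserving.id (hm q H)).prod mpA
  have mS1 : MeasurableSet {p : Conf q H × HV q H | asmE e (mixC k y R M p.1) p.2 ∈ S} := by
    have : Measurable fun p : Conf q H × HV q H => asmE e (mixC k y R M p.1) p.2 :=
      hm1.comp (((mixC_meas k y R).comp (measurable_const.prodMk measurable_fst)).prodMk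
        measurable_snd)
    exact this hS
  have mS2 : MeasurableSet {r : HV q H × Conf q H | mixC k y R (asmE e M r.1) r.2 ∈ S} := by
    have : Measurable fun r : HV q H × Conf q H => mixC k y R (asmE e M r.1) r.2 :=
      (mixC_meas k y R).comp ((hm1.comp (measurable_const.prodMk measurable_fst)).prodMk
        measurable_snd)
    exact this hS
  rw [← mp1.measureReal_preimage mS1.nullMeasurableSet,
    ← mp2.measureReal_preimage mS2.nullMeasurableSet]
  congr 1
  ext r
  simp only [Set.mem_preimage, Set.mem_ofPred_eq]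
  rw [hA, asm_mix]

end main

end PSI

theorem stmt_PSI (h1 : Stmt_HARRIS) (_h2 : Stmt_MIX) (h3 : Stmt_SPLIT) (h4 : Stmt_STATIC)
    (h5 : Stmt_MEASE) : Stmt_PSI := by
  intro c e I δ Λ nmax E p m m' y X' M hu hG hmm hmH hy
  have hk : m' < E.H + 1 := Nat.lt_succ_of_le hmH
  have hρ : 0 ≤ E.ρ := le_trans zero_le_one E.ok.ρ_pos
  have hq := E.ok.short
  have hq0 : 0 < E.q := Nat.pos_of_ne_zero (NeZero.ne E.q)
  obtain ⟨⟨mHat, dHat⟩, -, -, -, -⟩ :=
    h5 E.q E.H _ δ Λ E.L E.lam E.ρ p 0 m m' y X'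
  obtain ⟨-, -, ⟨mW, dW⟩, -, -⟩ := h5 E.q E.H _ δ Λ E.L E.lam E.ρ p 0 m' m' y X'
  have hPP : IsProbabilityMeasure (E.L.PP E.lam) := by unfold MarkLaw.PP; infer_instance
  have hw : (E.L.PP E.lam).real {ω | WWE E.ρ E.q (et ω m') p X'} = E.w p := by
    have := (h4 E.q E.H E.j δ Λ E.L E.lam m' hmH (fun S => WWE E.ρ E.q S p X')
      (PSI.meas_WWE_occ E.ρ E.q p X')).2
    rw [this, PSI.SP_tr E.lam E.j E.ρ E.q hq0 p X' hG.div]
    rfl
  set ex := expo E.H m with hex
  set R := 27 * p.u with hR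
  -- the two sides
  have hl : hcp E.L E.lam E.ρ p.u m m' y M = ((hm E.q E.H).prod (E.L.PP E.lam)).real
      {r | mixC m' y R (asmE ex M r.1) r.2 ∈ {ω : Conf E.q E.H | HatE E.ρ ω m m' y p.u}} :=
    PSI.law h3 E.L E.lam ex m' hk y R M _ mHat
  have hr : E.psi p m m' y X' M = ((hm E.q E.H).prod (E.L.PP E.lam)).real
      {r | mixC m' y R (asmE ex M r.1) r.2 ∈ {ω : Conf E.q E.H | HatE E.ρ ω m m' y p.u} ∩
        {ω | WWE E.ρ E.q (et ω m') p X'}} :=
    PSI.law h3 E.L E.lam ex m' hk y R M _ (mHat.inter mW)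
  rw [hl, hr]
  obtain ⟨hm1, -, -, -, -⟩ := h3 E.q E.H _ δ Λ E.L E.lam ex
  have mT : Measurable fun r : HV E.q E.H × Conf E.q E.H => mixC m' y R (asmE ex M r.1) r.2 :=
    (PSI.mixC_meas m' y R).comp ((hm1.comp (measurable_const.prodMk measurable_fst)).prodMk
      measurable_snd)
  have mS1 : MeasurableSet {r : HV E.q E.H × Conf E.q E.H | mixC m' y R (asmE ex M r.1) r.2 ∈
      {ω : Conf E.q E.H | HatE E.ρ ω m m' y p.u}} := mT mHat
  have mS2 : MeasurableSet {r : HV E.q E.H × Conf E.q E.H | mixC m' y R (asmE ex M r.1) r.2 ∈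
      {ω : Conf E.q E.H | HatE E.ρ ω m m' y p.u} ∩ {ω | WWE E.ρ E.q (et ω m') p X'}} :=
    mT (mHat.inter mW)
  have hw0 : 0 ≤ E.w p := by rw [← hw]; exact measureReal_nonneg
  have key : ENNReal.ofReal (E.w p) * ((hm E.q E.H).prod (E.L.PP E.lam))
      {r | mixC m' y R (asmE ex M r.1) r.2 ∈ {ω : Conf E.q E.H | HatE E.ρ ω m m' y p.u}} ≤
      ((hm E.q E.H).prod (E.L.PP E.lam))
      {r | mixC m' y R (asmE ex M r.1) r.2 ∈ {ω : Conf E.q E.H | HatE E.ρ ω m m' y p.u} ∩
        {ω | WWE E.ρ E.q (et ω m') p X'}} := by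
    rw [Measure.prod_apply mS1, Measure.prod_apply mS2,
      ← lintegral_const_mul _ (measurable_measure_prodMk_left mS1)]
    refine lintegral_mono fun U => ?_
    have hsec : Measurable fun ω' : Conf E.q E.H => mixC m' y R (asmE ex M U) ω' :=
      (PSI.mixC_meas m' y R).comp (measurable_const.prodMk measurable_id)
    have mE : MeasurableSet {ω' : Conf E.q E.H |
        HatE E.ρ (mixC m' y R (asmE ex M U) ω') m m' y p.u} := hsec mHat
    have dE : DecrS {ω' : Conf E.q E.H |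
        HatE E.ρ (mixC m' y R (asmE ex M U) ω') m m' y p.u} := by
      intro ω ω' hle h
      exact dHat _ _ (PSI.mixC_mono m' y R (asmE ex M U) hle) h
    have hH := (h1 (FMark E.q E.H) (fun θ => E.lam * E.L.fine θ) _ _ mE mW dE dW).1
    have hH' : (E.L.PP E.lam).real {ω' : Conf E.q E.H |
        HatE E.ρ (mixC m' y R (asmE ex M U) ω') m m' y p.u} * E.w p ≤
        (E.L.PP E.lam).real ({ω' : Conf E.q E.H |
        HatE E.ρ (mixC m' y R (asmE ex M U) ω') m m' y p.u} ∩
          {ω | WWE E.ρ E.q (et ω m') p X'}) := by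
      rw [← hw]
      exact hH
    have hset : Prod.mk U ⁻¹' {r : HV E.q E.H × Conf E.q E.H |
        mixC m' y R (asmE ex M r.1) r.2 ∈
        {ω : Conf E.q E.H | HatE E.ρ ω m m' y p.u} ∩ {ω | WWE E.ρ E.q (et ω m') p X'}} =
        {ω' : Conf E.q E.H | HatE E.ρ (mixC m' y R (asmE ex M U) ω') m m' y p.u} ∩
          {ω | WWE E.ρ E.q (et ω m') p X'} := by
      ext ω'
      simp only [Set.mem_preimage, Set.mem_ofPred_eq, Set.mem_inter_iff]
      refine and_congr_right fun _ => ?_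
      exact PSI.WWE_congr hρ hq hu hy fun v hv => PSI.et_mixC m' y R _ _ v hv
    rw [hset]
    have hset1 : Prod.mk U ⁻¹' {r : HV E.q E.H × Conf E.q E.H |
        mixC m' y R (asmE ex M r.1) r.2 ∈ {ω : Conf E.q E.H | HatE E.ρ ω m m' y p.u}} =
        {ω' : Conf E.q E.H | HatE E.ρ (mixC m' y R (asmE ex M U) ω') m m' y p.u} := rfl
    rw [hset1, ← ofReal_measureReal (μ := E.L.PP E.lam), ← ofReal_measureReal (μ := E.L.PP E.lam),
      ← ENNReal.ofReal_mul hw0]
    refine ENNReal.ofReal_le_ofReal ?_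
    rw [mul_comm]
    exact hH'
  have key2 := ENNReal.toReal_mono (measure_ne_top _ _) key
  rw [ENNReal.toReal_mul, ENNReal.toReal_ofReal hw0] at key2
  exact key2

end MPdd5692
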