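import Pool.Agent.Work.MP_dd5692_pr.InterfaceC

/-!
# MP_dd5692_pr, block TRANS (helper29): translation invariance of the particle family.
-/

open MeasureTheory ProbabilityTheory Set
open scoped ENNReal NNReal BigOperators

namespace MPdd5692

namespace TRANS

variable {q H : ℕ}

/-- shift of fine marks -/
def sh (t : Site) (θ : FMark q H) : FMark q H := ({ θ.1 with c := fun k => θ.1.c k + t }, θ.2)

lemma sh_neg (t : Site) (θ : FMark q H) : sh (-t) (sh t θ) = θ := by
  obtain ⟨⟨c, g, b, r⟩, u⟩ := θ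
  simp [sh]

lemma sh_neg' (t : Site) (θ : FMark q H) : sh t (sh (-t) θ) = θ := by
  have := sh_neg (-t) θ
  rwa [neg_neg] at this

/-- the shift as an equivalence -/
def she (t : Site) : FMark q H ≃ FMark q H where
  toFun := sh t
  invFun := sh (-t)
  left_inv := sh_neg t
  right_inv := sh_neg' t

lemma fine_sh {a δ Λ : ℝ} (L : MarkLaw q H a δ Λ) (t : Site) (θ : FMark q H) :
    L.fine (sh t θ) = L.fine θ := by
  unfold MarkLaw.fine fineOf
  have := L.trans t θ.1
  show L.m { θ.1 with c := fun k => θ.1.c k + t } / _ = _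
  rw [this]

lemma meas_shiftC (t : Site) : Measurable (shiftC (q := q) (H := H) t) :=
  measurable_pi_lambda _ fun _ => measurable_pi_apply _

lemma map_shift {a δ Λ : ℝ} (L : MarkLaw q H a δ Λ) (lam : ℝ≥0) (t : Site) :
    (L.PP lam).map (shiftC t) = L.PP lam := by
  classical
  unfold MarkLaw.PP
  refine Measure.eq_infinitePi _ fun s A hA => ?_
  rw [Measure.map_apply (meas_shiftC t) (MeasurableSet.pi s.countable_toSet fun i _ => hA i)]
  have hpre : shiftC (q := q) (H := H) t ⁻¹' (Set.pi (s : Set (FMark q H)) A)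
      = Set.pi ((s.map (she t).toEmbedding : Finset (FMark q H)) : Set (FMark q H))
          (fun θ => A ((she t).symm θ)) := by
    ext ω
    simp only [Set.mem_preimage, Set.mem_pi, Finset.mem_coe, Finset.mem_map_equiv]
    constructor
    · intro h θ hθ
      have h1 := h _ hθ
      have h2 : shiftC t ω ((she t).symm θ) = ω θ := by
        show ω (sh t (sh (-t) θ)) = ω θ
        rw [sh_neg']
      rw [← h2]; exact h1
    · intro h θ hθ
      have h1 := h (she t θ) (by simpa using hθ)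
      simp only [Equiv.symm_apply_apply] at h1
      exact h1
  rw [hpre, Measure.infinitePi_pi _ (fun i _ => hA _), Finset.prod_map]
  refine Finset.prod_congr rfl fun θ _ => ?_
  simp only [Equiv.coe_toEmbedding, Equiv.symm_apply_apply]
  have : L.fine ((she t) θ) = L.fine θ := fine_sh L t θ
  rw [this]

/-- the translation of sites by `q t` -/
def tau (q : ℕ) (t : Site) (x : Site) : Site := (x.1 + q * t.1, x.2 + q * t.2)

lemma tau_neg (q : ℕ) (t x : Site) : tau q (-t) (tau q t x) = x := by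
  unfold tau; ext <;> simp

lemma tau_neg' (q : ℕ) (t x : Site) : tau q t (tau q (-t) x) = x := by
  unfold tau; ext <;> simp

lemma tau_sub (q : ℕ) (t x y : Site) : tau q t x - tau q t y = x - y := by
  unfold tau; ext <;> simp

lemma site_sh (t : Site) (θ : FMark q H) (k : Fin (H + 1)) :
    FMark.site (sh t θ) k = tau q t (FMark.site θ k) := by
  have hloc : FMark.loc (sh t θ) k = FMark.loc θ k := rfl
  unfold FMark.site tau
  rw [hloc]
  have h1 : (sh t θ).1.c k = θ.1.c k + t := rfl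
  rw [h1]
  ext
  · simp only [Prod.fst_add]; ring
  · simp only [Prod.snd_add]; ring

lemma et_shift (t : Site) (ω : Conf q H) (k : ℕ) :
    et (shiftC t ω) k = tau q t ⁻¹' (et ω k) := by
  ext x
  constructor
  · rintro ⟨θ, hθ, h, hx⟩
    refine ⟨sh t θ, hθ, h, ?_⟩
    rw [site_sh, hx]
  · rintro ⟨θ, hθ, h, hx⟩
    refine ⟨sh (-t) θ, ?_, h, ?_⟩
    · show ω (sh t (sh (-t) θ)) ≠ 0
      rw [sh_neg']; exact hθ
    · rw [site_sh, hx, tau_neg]

lemma vac_tau (ρ : ℝ) (q : ℕ) (t : Site) (S : Set Site) :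
    vacSites ρ (tau q t ⁻¹' S) = tau q t ⁻¹' (vacSites ρ S) := by
  ext z
  constructor
  · intro h v hv
    have h1 := h (tau q (-t) v) (by
      show tau q t (tau q (-t) v) ∈ S
      rw [tau_neg']; exact hv)
    have h2 : v - tau q t z = tau q (-t) v - z := by
      have := tau_sub q t (tau q (-t) v) z
      rw [tau_neg'] at this
      exact this
    rw [h2]; exact h1
  · intro h v hv
    have h1 := h (tau q t v) hv
    rw [tau_sub] at h1
    exact h1

lemma box_tau {q : ℕ} [NeZero q] (t z : Site) (a : ℕ) :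
    cbox q z a = tau q t ⁻¹' (cbox q (z + t) a) := by
  have hq : (q : ℤ) ≠ 0 := by exact_mod_cast NeZero.ne q
  have hc : ∀ x : Site, cidx q (tau q t x) = cidx q x + t := by
    intro x
    unfold cidx tau
    ext
    · show (x.1 + q * t.1) / (q : ℤ) = x.1 / q + t.1
      rw [Int.add_mul_ediv_left _ _ hq]
    · show (x.2 + q * t.2) / (q : ℤ) = x.2 / q + t.2
      rw [Int.add_mul_ediv_left _ _ hq]
  ext x
  show cidx q x ∈ box z a ↔ cidx q (tau q t x) ∈ box (z + t) a
  rw [hc]
  show nrm (cidx q x - z) ≤ a ↔ nrm (cidx q x + t - (z + t)) ≤ a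
  rw [add_sub_add_right_eq_sub]

lemma linked_tau {adj : Site → Site → Prop} (hadj : ∀ (v x y : Site), adj x y → adj (x + v) (y + v))
    (q : ℕ) (t : Site) (S : Set Site) (x y : Site) (h : Linked adj (tau q t ⁻¹' S) x y) :
    Linked adj S (tau q t x) (tau q t y) := by
  have hstep : ∀ u v, adj u v → adj (tau q t u) (tau q t v) := by
    intro u v huv
    have h1 : ∀ x : Site, tau q t x = x + ((q : ℤ) * t.1, (q : ℤ) * t.2) := fun x => rfl
    rw [h1, h1]; exact hadj _ _ _ huv
  obtain ⟨hx, h⟩ := h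
  refine ⟨hx, ?_⟩
  induction h with
  | refl => exact Relation.ReflTransGen.refl
  | tail _ huv ih => exact ih.tail ⟨hstep _ _ huv.1, huv.2⟩

lemma linkedS_tau {adj : Site → Site → Prop} (hadj : ∀ (v x y : Site), adj x y → adj (x + v) (y + v))
    (q : ℕ) (t : Site) (S A B : Set Site) :
    LinkedS adj (tau q t ⁻¹' S) (tau q t ⁻¹' A) (tau q t ⁻¹' B) ↔ LinkedS adj S A B := by
  constructor
  · rintro ⟨a, ha, b, hb, h⟩
    exact ⟨tau q t a, ha, tau q t b, hb, linked_tau hadj q t S a b h⟩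
  · rintro ⟨a, ha, b, hb, h⟩
    have hS : tau q (-t) ⁻¹' (tau q t ⁻¹' S) = S := by
      ext x
      show tau q t (tau q (-t) x) ∈ S ↔ x ∈ S
      rw [tau_neg']
    refine ⟨tau q (-t) a, ?_, tau q (-t) b, ?_, ?_⟩
    · show tau q t (tau q (-t) a) ∈ A
      rw [tau_neg']; exact ha
    · show tau q t (tau q (-t) b) ∈ B
      rw [tau_neg']; exact hb
    · exact linked_tau hadj q (-t) (tau q t ⁻¹' S) a b (by rw [hS]; exact h)

lemma adj4_add (v x y : Site) (h : Adj4 x y) : Adj4 (x + v) (y + v) := by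
  unfold Adj4 at *
  simpa using h

lemma adj8_add (v x y : Site) (h : Adj8 x y) : Adj8 (x + v) (y + v) := by
  unfold Adj8 at *
  simpa using h

lemma arm_tau {q : ℕ} [NeZero q] (ρ : ℝ) (t : Site) (S : Set Site) (z z' : Site) (a b : ℕ) :
    Arm ρ q (tau q t ⁻¹' S) z a z' b ↔ Arm ρ q S (z + t) a (z' + t) b := by
  unfold Arm Wired
  rw [vac_tau, box_tau t z a, box_tau t z' b]
  exact linkedS_tau adj4_add q t (vacSites ρ S ∪ cbox q (z + t) a ∪ (cbox q (z' + t) b)ᶜ)
    (cbox q (z + t) a) (cbox q (z' + t) b)ᶜ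

lemma uu_tau {q : ℕ} [NeZero q] (ρ : ℝ) (t : Site) (S : Set Site) (z : Site) (a b : ℕ) :
    UU ρ q (tau q t ⁻¹' S) z a b ↔ UU ρ q S (z + t) a b := by
  unfold UU Wired
  rw [vac_tau, box_tau t z a, box_tau t z b]
  exact not_congr (linkedS_tau adj8_add q t
    ((vacSites ρ S)ᶜ ∪ cbox q (z + t) a ∪ (cbox q (z + t) b)ᶜ)
    (cbox q (z + t) a) (cbox q (z + t) b)ᶜ)

lemma safe_shift (t : Site) (ω : Conf q H) (k : Fin H) (z : Site) :
    SafeC (shiftC t ω) k z ↔ SafeC ω k (z + t) := by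
  have hD : ∀ θ : FMark q H, (sh t θ).1.D k = θ.1.D k := by
    intro θ
    unfold CMark.D
    show (nrm (θ.1.c k.succ + t - (θ.1.c k.castSucc + t))).toNat + θ.1.b k + 12 = _
    rw [add_sub_add_right_eq_sub]
  have hc : ∀ θ : FMark q H, (sh t θ).1.c k.castSucc - (z + t) = θ.1.c k.castSucc - z := by
    intro θ
    show θ.1.c k.castSucc + t - (z + t) = _
    rw [add_sub_add_right_eq_sub]
  constructor
  · intro h θ hθ
    have h1 := h (sh (-t) θ) (by
      show ω (sh t (sh (-t) θ)) ≠ 0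
      rw [sh_neg']; exact hθ)
    rw [← hD, ← hc, sh_neg'] at h1
    exact h1
  · intro h θ hθ
    have h1 := h (sh t θ) hθ
    rw [hD, hc] at h1
    exact h1

lemma hole_shift (t : Site) (ω : Conf q H) (m m' : ℕ) (z : Site) :
    HoleC (shiftC t ω) m m' z ↔ HoleC ω m m' (z + t) := by
  unfold HoleC
  simp only [safe_shift]

lemma lam_shift [NeZero q] (ρ : ℝ) (t : Site) (ω : Conf q H) (m m' : ℕ) (z : Site) (l : ℕ) :
    LamE ρ (shiftC t ω) m m' z l ↔ LamE ρ ω m m' (z + t) l := by
  unfold LamE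
  rw [et_shift, et_shift, uu_tau, uu_tau]
  refine and_congr Iff.rfl (and_congr Iff.rfl ?_)
  constructor
  · rintro ⟨b, hb, hh, h1, h2⟩
    refine ⟨b + t, ?_, (hole_shift t ω m m' b).1 hh, (arm_tau ρ t _ b z 0 _).1 h1,
      (arm_tau ρ t _ b z 0 _).1 h2⟩
    show nrm (b + t - (z + t)) ≤ l
    rw [add_sub_add_right_eq_sub]; exact hb
  · rintro ⟨b, hb, hh, h1, h2⟩
    have e : b - t + t = b := sub_add_cancel b t
    refine ⟨b - t, ?_, (hole_shift t ω m m' (b - t)).2 (by rw [e]; exact hh),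
      (arm_tau ρ t _ (b - t) z 0 _).2 (by rw [e]; exact h1),
      (arm_tau ρ t _ (b - t) z 0 _).2 (by rw [e]; exact h2)⟩
    show nrm (b - t - z) ≤ l
    have : b - t - z = b - (z + t) := by abel
    rw [this]; exact hb

end TRANS

open TRANS in
theorem stmt_TRANS : Stmt_TRANS := by
  intro q H _ a δ Λ L lam t
  refine ⟨map_shift L lam t, fun ω k => et_shift t ω k, fun ρ ω m m' z l => lam_shift ρ t ω m m' z l,
    fun ρ ω m z z' a b => ⟨?_, ?_⟩⟩
  · rw [et_shift]; exact arm_tau ρ t _ z z' a b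
  · rw [et_shift]; exact uu_tau ρ t _ z a b

end MPdd5692
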