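import Mathlib
import Pool.Agent.Work.MP_dd5692_pr.InterfaceE
import Pool.Agent.Work.MP_dd5692_pr.Stat98
import Pool.Agent.Work.MP_dd5692_pr.Link98

/-!
# MP_dd5692_pr: block WLOW (helper33)
-/

open MeasureTheory ProbabilityTheory Set
open scoped ENNReal NNReal BigOperators

namespace MPdd5692
namespace WLOW

/-- translation of a site by `q t` -/
def tr (q : ℕ) (t : Site) (x : Site) : Site := (x.1 + q * t.1, x.2 + q * t.2)

/-- `S` translated by `- q t` -/
def shS (q : ℕ) (t : Site) (S : Set Site) : Set Site := {x | tr q t x ∈ S}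

lemma tr_neg (q : ℕ) (t x : Site) : tr q t (tr q (-t) x) = x := by
  unfold tr
  ext <;> simp

lemma tr_neg' (q : ℕ) (t x : Site) : tr q (-t) (tr q t x) = x := by
  unfold tr
  ext <;> simp

lemma adj8_tr (q : ℕ) (t : Site) {x y : Site} (h : Adj8 x y) : Adj8 (tr q t x) (tr q t y) := by
  unfold Adj8 tr at *
  simpa using h

lemma vac_tr (ρ : ℝ) (q : ℕ) (t : Site) (S : Set Site) (x : Site) :
    x ∈ vacSites ρ (shS q t S) ↔ tr q t x ∈ vacSites ρ S := by
  unfold vacSites shS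
  simp only [Set.mem_ofPred_eq]
  constructor
  · intro h v hv
    have h1 := h (tr q (-t) v) (by rw [tr_neg]; exact hv)
    have h2 : tr q (-t) v - x = v - tr q t x := by
      unfold tr
      ext <;> simp <;> ring
    rw [h2] at h1
    exact h1
  · intro h v hv
    have h1 := h (tr q t v) hv
    have h2 : tr q t v - tr q t x = v - x := by
      unfold tr
      ext <;> simp
    rw [h2] at h1
    exact h1

lemma cbox_tr {q : ℕ} (hq : 0 < q) (t z x : Site) (a : ℕ) :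
    x ∈ cbox q z a ↔ tr q t x ∈ cbox q (z + t) a := by
  have hq' : (q : ℤ) ≠ 0 := by exact_mod_cast hq.ne'
  unfold cbox cidx box tr
  simp only [Set.mem_ofPred_eq]
  rw [Int.add_mul_ediv_left _ _ hq', Int.add_mul_ediv_left _ _ hq']
  have : ((x.1 / (q:ℤ) + t.1, x.2 / (q:ℤ) + t.2) : Site) - (z + t) =
      (x.1 / (q:ℤ), x.2 / (q:ℤ)) - z := by
    ext <;> simp
  rw [this]

lemma UU_tr {q : ℕ} (hq : 0 < q) (ρ : ℝ) (t z : Site) (S : Set Site) (a b : ℕ) :
    UU ρ q (shS q t S) z a b ↔ UU ρ q S (z + t) a b := by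
  unfold UU Wired LinkedS
  rw [not_iff_not]
  constructor
  · rintro ⟨x, hx, y, hy, h⟩
    refine ⟨tr q t x, (cbox_tr hq t z x a).1 hx, tr q t y, ?_, ?_⟩
    · intro h'; exact hy ((cbox_tr hq t z y b).2 h')
    · refine Linked.map (tr q t) (fun _ _ h => adj8_tr q t h) ?_ h
      rintro u ((hu | hu) | hu)
      · exact Or.inl (Or.inl fun h' => hu ((vac_tr ρ q t S u).2 h'))
      · exact Or.inl (Or.inr ((cbox_tr hq t z u a).1 hu))
      · exact Or.inr fun h' => hu ((cbox_tr hq t z u b).2 h')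
  · rintro ⟨x, hx, y, hy, h⟩
    have hc : ∀ u c, tr q (-t) u ∈ cbox q z c ↔ u ∈ cbox q (z + t) c := by
      intro u c
      rw [cbox_tr hq t z, tr_neg]
    refine ⟨tr q (-t) x, (hc x a).2 hx, tr q (-t) y, ?_, ?_⟩
    · intro h'; exact hy ((hc y b).1 h')
    · refine Linked.map (tr q (-t)) (fun _ _ h => adj8_tr q (-t) h) ?_ h
      rintro u ((hu | hu) | hu)
      · refine Or.inl (Or.inl fun h' => hu ?_)
        have := (vac_tr ρ q t S (tr q (-t) u)).1 h'
        rwa [tr_neg] at this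
      · exact Or.inl (Or.inr ((hc u a).2 hu))
      · exact Or.inr fun h' => hu ((hc u b).1 h')

/-- `UU` is decreasing in the occupied set -/
lemma UU_anti {ρ : ℝ} {q : ℕ} {S S' : Set Site} {z : Site} {a b : ℕ} (h : S ⊆ S')
    (h' : UU ρ q S' z a b) : UU ρ q S z a b := by
  unfold UU Wired LinkedS at *
  intro ⟨x, hx, y, hy, hl⟩
  refine h' ⟨x, hx, y, hy, hl.mono ?_⟩
  have : (vacSites ρ S)ᶜ ⊆ (vacSites ρ S')ᶜ := by
    intro u hu hu'
    exact hu fun v hv => hu' v (h hv)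
  exact Set.union_subset_union_left _ (Set.union_subset_union_left _ this)

lemma sub_tr (p : Par) (X : ℕ × ℤ) (y : Site) :
    y + xX p.A X ∈ p.sub2 X ↔ y ∈ p.sub2 (0, 0) := by
  have key : ∀ (M i M' i' : ℤ), M = X.1 + M' → i = X.2 + i' →
      (y + xX p.A X ∈ p.sub M i ↔ y ∈ p.sub M' i') := by
    intro M i M' i' hM hi
    subst hM hi
    unfold Par.sub xX
    simp only [Set.mem_ofPred_eq]
    constructor
    · rintro ⟨y0, h0, h⟩
      refine ⟨y0, h0, ?_⟩
      have h1 := congrArg Prod.fst h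
      have h2 := congrArg Prod.snd h
      simp only [Prod.fst_add, Prod.snd_add] at h1 h2
      ext
      · simp only [Prod.fst_add]; linarith [mul_add (p.A : ℤ) X.1 M']
      · simp only [Prod.snd_add]; linarith [mul_add (p.A : ℤ) X.2 i']
    · rintro ⟨y0, h0, h⟩
      refine ⟨y0, h0, ?_⟩
      have h1 := congrArg Prod.fst h
      have h2 := congrArg Prod.snd h
      simp only [Prod.fst_add, Prod.snd_add] at h1 h2
      ext
      · simp only [Prod.fst_add]; linarith [mul_add (p.A : ℤ) X.1 M']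
      · simp only [Prod.snd_add]; linarith [mul_add (p.A : ℤ) X.2 i']
  unfold Par.sub2
  simp only [Set.mem_union]
  rw [key X.1 X.2 0 0 (by simp) (by simp), key (X.1 - 1) (X.2 - 1) (0 - 1) (0 - 1) (by ring) (by ring),
    key (X.1 - 1) X.2 (0 - 1) 0 (by ring) (by ring), key (X.1 - 1) (X.2 + 1) (0 - 1) (0 + 1) (by ring) (by ring)]
  simp

lemma WWE_tr {q : ℕ} (hq : 0 < q) (ρ : ℝ) (p : Par) (h8 : 8 ∣ p.A1) (S : Set Site) (X : ℕ × ℤ) :
    WWE ρ q (shS q (xX p.A X) S) p (0, 0) ↔ WWE ρ q S p X := by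
  have hd : ((8 * p.u : ℕ) : ℤ) ∣ (p.A : ℤ) := by
    obtain ⟨k, hk⟩ := h8
    refine ⟨k, ?_⟩
    unfold Par.A
    rw [hk]; push_cast; ring
  have hd1 : ((8 * p.u : ℕ) : ℤ) ∣ (xX p.A X).1 := Dvd.dvd.mul_right hd _
  have hd2 : ((8 * p.u : ℕ) : ℤ) ∣ (xX p.A X).2 := Dvd.dvd.mul_right hd _
  have h0 : xX p.A (0, 0) = 0 := by unfold xX; simp
  have hsub : ∀ z y : Site, z + xX p.A X - (y + xX p.A X) = z - y := fun z y => by abel
  unfold WWE
  constructor
  · intro h z hz1 hz2 hn hy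
    have h1 := h (z - xX p.A X) (by simpa using (Int.dvd_sub hz1 hd1))
      (by simpa using (Int.dvd_sub hz2 hd2)) (by rw [h0, sub_zero]; exact hn) ?_
    · rw [UU_tr hq] at h1
      simpa using h1
    · intro y hy0
      have h2 := hy (y + xX p.A X) ((sub_tr p X y).2 hy0)
      rwa [show z - (y + xX p.A X) = z - xX p.A X - y by abel] at h2
  · intro h z hz1 hz2 hn hy
    rw [UU_tr hq]
    refine h (z + xX p.A X) ?_ ?_ ?_ ?_
    · simpa using Int.dvd_add hz1 hd1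
    · simpa using Int.dvd_add hz2 hd2
    · rw [h0, sub_zero] at hn
      simpa using hn
    · intro y hyX
      have h2 := hy (y - xX p.A X) ((sub_tr p X _).1 (by simpa using hyX))
      rwa [show z - (y - xX p.A X) = z + xX p.A X - y by abel] at h2

/-- the static law is invariant -/
lemma SP_tr (l : ℝ≥0) (j q : ℕ) (t : Site) (E E' : Set Site → Prop)
    (hE : MeasurableSet {η : Site → ℕ | E (occ η)}) (h : ∀ S, E (shS q t S) ↔ E' S) :
    SP l j E' = SP l j E := by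
  let e : Site ≃ Site := ⟨tr q t, tr q (-t), fun x => tr_neg' q t x, fun x => tr_neg q t x⟩
  have := iid_reindex (poissonMeasure (l * (1 / 4) ^ j)) e hE
  unfold SP
  have h2 : {η : Site → ℕ | (fun i => η (e i)) ∈ {η : Site → ℕ | E (occ η)}} =
      {η : Site → ℕ | E' (occ η)} := by
    ext η
    simp only [Set.mem_ofPred_eq]
    rw [← h (occ η)]
    rfl
  rw [h2] at this
  unfold Measure.real stat
  rw [this]

lemma meas_WWE (hM : Stmt_MEAS) {q : ℕ} [NeZero q] (ρ : ℝ) (p : Par) (X : ℕ × ℤ) :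
    MeasurableSet {η : Site → ℕ | WWE ρ q (occ η) p X} := by
  have : {η : Site → ℕ | WWE ρ q (occ η) p X} =
      ⋂ z : Site, {η : Site → ℕ | ((8 * p.u : ℕ) : ℤ) ∣ z.1 → ((8 * p.u : ℕ) : ℤ) ∣ z.2 →
        nrm (z - xX p.A X) + 12 * p.u ≤ 3 * p.A →
        (∀ y ∈ p.sub2 X, 52 * (p.u : ℤ) < nrm (z - y)) →
          UU ρ q (occ η) z (6 * p.u) (12 * p.u)} := by
    ext η; simp only [Set.mem_ofPred_eq, Set.mem_iInter]; rfl
  rw [this]
  refine MeasurableSet.iInter fun z => ?_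
  by_cases h : ((8 * p.u : ℕ) : ℤ) ∣ z.1 ∧ ((8 * p.u : ℕ) : ℤ) ∣ z.2 ∧
        nrm (z - xX p.A X) + 12 * p.u ≤ 3 * p.A ∧
        (∀ y ∈ p.sub2 X, 52 * (p.u : ℤ) < nrm (z - y))
  · have h2 : {η : Site → ℕ | ((8 * p.u : ℕ) : ℤ) ∣ z.1 → ((8 * p.u : ℕ) : ℤ) ∣ z.2 →
        nrm (z - xX p.A X) + 12 * p.u ≤ 3 * p.A →
        (∀ y ∈ p.sub2 X, 52 * (p.u : ℤ) < nrm (z - y)) →
          UU ρ q (occ η) z (6 * p.u) (12 * p.u)} =
        {η : Site → ℕ | UU ρ q (occ η) z (6 * p.u) (12 * p.u)} := by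
      ext η
      simp only [Set.mem_ofPred_eq]
      exact ⟨fun h' => h' h.1 h.2.1 h.2.2.1 h.2.2.2, fun h' _ _ _ _ => h'⟩
    rw [h2]
    exact (hM q 1 ρ 0 0 z z (6 * p.u) (12 * p.u)).2.2.2.2.2.1
  · have h2 : {η : Site → ℕ | ((8 * p.u : ℕ) : ℤ) ∣ z.1 → ((8 * p.u : ℕ) : ℤ) ∣ z.2 →
        nrm (z - xX p.A X) + 12 * p.u ≤ 3 * p.A →
        (∀ y ∈ p.sub2 X, 52 * (p.u : ℤ) < nrm (z - y)) →
          UU ρ q (occ η) z (6 * p.u) (12 * p.u)} = Set.univ := by
      ext η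
      simp only [Set.mem_ofPred_eq, Set.mem_univ, iff_true]
      intro h1 h2 h3 h4
      exact absurd ⟨h1, h2, h3, h4⟩ h
    rw [h2]
    exact MeasurableSet.univ

end WLOW

open WLOW in
theorem stmt_WLOW (h1 : Stmt_HARRISN) (h2 : Stmt_STATIC) (h4 : Stmt_MEAS) : Stmt_WLOW := by
  intro c e I δ Λ nmax E p hu hG hn
  have hq : 0 < E.q := Nat.pos_of_ne_zero (NeZero.ne E.q)
  have hc := E.ok.c_pos
  have hU0 : c ≤ SP E.lam E.j (fun S => UU E.ρ E.q S 0 (6 * p.u) (12 * p.u)) :=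
    E.ok.U_ge _ _ (by omega) hn
  have hc1 : c ≤ 1 := hU0.trans (by unfold SP stat; exact measureReal_le_one)
  constructor
  · -- lower bound
    set k : ℤ := ((3 * p.A1 / 8 : ℕ) : ℤ) with hk
    let f : Site → Site := fun y => (((8 * p.u : ℕ) : ℤ) * y.1, ((8 * p.u : ℕ) : ℤ) * y.2)
    let s : Finset Site := (Finset.Icc (-k) k ×ˢ Finset.Icc (-k) k).image f
    have hcard : s.card ≤ (p.A1 + 1) ^ 2 := by
      refine le_trans Finset.card_image_le ?_
      rw [Finset.card_product, Int.card_Icc]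
      have : (k + 1 - -k).toNat ≤ p.A1 + 1 := by omega
      rw [sq]
      exact Nat.mul_le_mul this this
    have hpr : ∀ z : Site, SP E.lam E.j (fun S => UU E.ρ E.q S z (6 * p.u) (12 * p.u)) =
        SP E.lam E.j (fun S => UU E.ρ E.q S 0 (6 * p.u) (12 * p.u)) := by
      intro z
      refine SP_tr E.lam E.j E.q z _ _ ((h4 E.q 1 E.ρ 0 0 0 0 (6 * p.u) (12 * p.u)).2.2.2.2.2.1) ?_
      intro S
      rw [UU_tr hq, zero_add]
    have hH := h1 Site (fun _ => E.lam * (1 / 4) ^ E.j) Site s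
      (fun z => {η : Site → ℕ | UU E.ρ E.q (occ η) z (6 * p.u) (12 * p.u)})
      (fun z => (h4 E.q 1 E.ρ 0 0 z z (6 * p.u) (12 * p.u)).2.2.2.2.2.1)
      (fun z ω ω' hω h' => UU_anti (fun i hi => by
        have h1 : ω i ≤ ω' i := hω i
        have h2 : ω i ≠ 0 := hi
        have h3 : ω' i ≠ 0 := fun h3 => h2 (Nat.le_zero.mp (h3 ▸ h1))
        exact h3) h')
    have hle : c ^ ((p.A1 + 1) ^ 2) ≤ ∏ z ∈ s, (pois fun _ : Site => E.lam * (1 / 4) ^ E.j).real
        {η : Site → ℕ | UU E.ρ E.q (occ η) z (6 * p.u) (12 * p.u)} := by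
      calc c ^ ((p.A1 + 1) ^ 2) ≤ c ^ s.card := pow_le_pow_of_le_one hc.le hc1 hcard
        _ = ∏ z ∈ s, c := by rw [Finset.prod_const]
        _ ≤ _ := by
          refine Finset.prod_le_prod (fun _ _ => hc.le) fun z _ => ?_
          exact hU0.trans (hpr z).symm.le
    refine hle.trans (hH.trans ?_)
    unfold Env.w SP
    refine measureReal_mono ?_ (measure_ne_top (pois fun _ : Site => E.lam * (1 / 4) ^ E.j) _)
    intro η hη z hz1 hz2 hnz hy
    simp only [Set.mem_iInter, Set.mem_ofPred_eq] at hη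
    refine hη z ?_
    obtain ⟨i1, hi1⟩ := hz1
    obtain ⟨i2, hi2⟩ := hz2
    have h0 : xX p.A (0, 0) = 0 := by unfold xX; simp
    rw [h0, sub_zero] at hnz
    have hnz' : nrm z + 12 * p.u ≤ 3 * ((p.A1 : ℤ) * p.u) := by
      have : (p.A : ℤ) = (p.A1 : ℤ) * p.u := by unfold Par.A; push_cast; ring
      rw [← this]; exact hnz
    have hz1' : |z.1| ≤ nrm z := le_max_left _ _
    have hz2' : |z.2| ≤ nrm z := le_max_right _ _
    have hup : (0:ℤ) < p.u := by exact_mod_cast hu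
    have bound : ∀ i z' : ℤ, z' = ((8 * p.u : ℕ) : ℤ) * i → |z'| ≤ nrm z → i ∈ Finset.Icc (-k) k := by
      intro i z' hz' hle'
      have h3 : 8 * (p.u : ℤ) * |i| ≤ 3 * ((p.A1 : ℤ) * p.u) := by
        have : |z'| = 8 * (p.u : ℤ) * |i| := by
          rw [hz', abs_mul]; push_cast
          rw [abs_of_nonneg (by positivity : (0:ℤ) ≤ 8 * p.u)]
        linarith
      have h4 : 8 * |i| ≤ 3 * (p.A1 : ℤ) := by
        by_contra hcon
        push Not at hcon
        nlinarith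
      rw [Finset.mem_Icc]
      have h5 : |i| ≤ k := by omega
      exact abs_le.mp h5
    refine Finset.mem_image.mpr ⟨(i1, i2), ?_, ?_⟩
    · rw [Finset.mem_product]
      exact ⟨bound i1 _ hi1 hz1', bound i2 _ hi2 hz2'⟩
    · ext
      · exact hi1.symm
      · exact hi2.symm
  · intro m X hm
    have h5 := (h2 E.q E.H E.j δ Λ E.L E.lam m hm (fun S => WWE E.ρ E.q S p X)
      (meas_WWE h4 E.ρ p X)).2
    have h6 : E.P.real {ω | WWE E.ρ E.q (et ω m) p X} =
        SP E.lam E.j (fun S => WWE E.ρ E.q S p X) := h5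
    rw [h6]
    unfold Env.w
    exact SP_tr E.lam E.j E.q (xX p.A X) _ _ (meas_WWE h4 E.ρ p (0, 0))
      (fun S => WWE_tr hq E.ρ p hG.div S X)

end MPdd5692
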