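import Mathlib
import Pool.Agent.Work.MP_dd5692_pr.InterfaceB
import Pool.Agent.Work.MP_dd5692_pr.PSI
import Pool.Agent.Work.MP_dd5692_pr.CIND
import Pool.Agent.Work.MP_dd5692_pr.FFP_gen44
import Pool.Agent.Work.MP_dd5692_pr.MIX
import Pool.Agent.Work.MP_dd5692_pr.WLOW
import Pool.Agent.Work.MP_dd5692_pr.TRANS

/-!
# MP_dd5692_pr: library for ARMDEC and DEC (helper63)
-/

open MeasureTheory ProbabilityTheory Set
open scoped ENNReal NNReal BigOperators

namespace MPdd5692.Dec63

section gen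

variable {Ω : Type} [MeasurableSpace Ω] (P : Measure Ω) [IsProbabilityMeasure P]

lemma int_bdd {f : Ω → ℝ} (hf : Measurable f) (h : ∀ x, |f x| ≤ 1) : Integrable f P :=
  Integrable.of_bound hf.aestronglyMeasurable 1 (Filter.Eventually.of_forall h)

/-- covariance bound -/
lemma cov_bound {f g : Ω → ℝ} (hf : Measurable f) (hg : Measurable g) (hf1 : ∀ x, |f x| ≤ 1)
    (hg1 : ∀ x, |g x| ≤ 1) {ε : ℝ} (h1 : ∫ x, (f x - ∫ y, f y ∂P) ^ 2 ∂P ≤ ε)
    (h2 : ∫ x, (g x - ∫ y, g y ∂P) ^ 2 ∂P ≤ ε) :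
    ∫ x, f x * g x ∂P ≤ (∫ x, f x ∂P) * (∫ x, g x ∂P) + ε := by
  set a := ∫ x, f x ∂P with ha
  set b := ∫ x, g x ∂P with hb
  have If := int_bdd P hf hf1
  have Ig := int_bdd P hg hg1
  have Ifg : Integrable (fun x => f x * g x) P := by
    refine int_bdd P (hf.mul hg) fun x => ?_
    rw [abs_mul]
    exact mul_le_one₀ (hf1 x) (abs_nonneg _) (hg1 x)
  have Iff : Integrable (fun x => f x * f x) P := by
    refine int_bdd P (hf.mul hf) fun x => ?_
    rw [abs_mul]
    exact mul_le_one₀ (hf1 x) (abs_nonneg _) (hf1 x)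
  have Igg : Integrable (fun x => g x * g x) P := by
    refine int_bdd P (hg.mul hg) fun x => ?_
    rw [abs_mul]
    exact mul_le_one₀ (hg1 x) (abs_nonneg _) (hg1 x)
  have hsq : ∀ (h : Ω → ℝ) (c : ℝ), Integrable h P → Integrable (fun x => h x * h x) P →
      Integrable (fun x => (h x - c) ^ 2) P := by
    intro h c i1 i2
    have : (fun x => (h x - c) ^ 2) = fun x => (h x * h x - 2 * c * h x) + c ^ 2 := by
      funext x; ring
    rw [this]
    exact (i2.sub (i1.const_mul _)).add (integrable_const _)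
  have hpt : ∀ x, f x * g x ≤ (f x - a) ^ 2 / 2 + (g x - b) ^ 2 / 2 + (b * f x + a * g x - a * b) := by
    intro x
    nlinarith [sq_nonneg ((f x - a) - (g x - b))]
  have i1 : Integrable (fun x => (f x - a) ^ 2 / 2) P := (hsq f a If Iff).div_const 2
  have i2 : Integrable (fun x => (g x - b) ^ 2 / 2) P := (hsq g b Ig Igg).div_const 2
  have i3 : Integrable (fun x => (f x - a) ^ 2 / 2 + (g x - b) ^ 2 / 2) P := i1.add i2
  have i4 : Integrable (fun x => b * f x) P := If.const_mul b
  have i5 : Integrable (fun x => a * g x) P := Ig.const_mul a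
  have i6 : Integrable (fun x => b * f x + a * g x) P := i4.add i5
  have i7 : Integrable (fun _ : Ω => a * b) P := integrable_const _
  have i8 : Integrable (fun x => b * f x + a * g x - a * b) P := i6.sub i7
  have i9 : Integrable (fun x => (f x - a) ^ 2 / 2 + (g x - b) ^ 2 / 2 +
      (b * f x + a * g x - a * b)) P := i3.add i8
  refine (integral_mono Ifg i9 hpt).trans ?_
  rw [integral_add i3 i8, integral_add i1 i2, integral_sub i6 i7, integral_add i4 i5,
    integral_const_mul, integral_const_mul, integral_div, integral_div, integral_const]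
  simp only [probReal_univ, one_smul]
  rw [← ha, ← hb]
  nlinarith

/-- Jensen -/
lemma jensen {f : Ω → ℝ} (hf : Measurable f) (hf1 : ∀ x, |f x| ≤ 1) :
    (∫ x, f x ∂P) ^ 2 ≤ ∫ x, f x ^ 2 ∂P := by
  set a := ∫ x, f x ∂P with ha
  have If := int_bdd P hf hf1
  have Iff : Integrable (fun x => f x ^ 2) P := by
    refine int_bdd P (hf.pow_const 2) fun x => ?_
    rw [abs_pow]
    exact pow_le_one₀ (abs_nonneg _) (hf1 x)
  have h0 : 0 ≤ ∫ x, (f x - a) ^ 2 ∂P := integral_nonneg fun x => sq_nonneg _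
  have h1 : ∫ x, (f x - a) ^ 2 ∂P = ∫ x, (f x ^ 2 - 2 * a * f x + a ^ 2) ∂P := by
    congr 1; funext x; ring
  have i1 : Integrable (fun x => 2 * a * f x) P := If.const_mul _
  have i2 : Integrable (fun x => f x ^ 2 - 2 * a * f x) P := Iff.sub i1
  have i3 : Integrable (fun _ : Ω => a ^ 2) P := integrable_const _
  rw [h1, integral_add i2 i3, integral_sub Iff i1, integral_const_mul, integral_const] at h0
  simp only [probReal_univ, one_smul] at h0
  rw [← ha] at h0
  nlinarith

end gen

variable {q H : ℕ} [NeZero q]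

/-- two events of the hidden positions at different times are independent -/
lemma hm_indep {m m' : Fin (H + 1)} (hne : m ≠ m') {A B : Set (HV q H)} (hA : MeasurableSet A)
    (hB : MeasurableSet B) (dA : ∀ U U' : HV q H, U m = U' m → (U ∈ A ↔ U' ∈ A))
    (dB : ∀ U U' : HV q H, U m' = U' m' → (U ∈ B ↔ U' ∈ B)) :
    (hm q H).real (A ∩ B) = (hm q H).real A * (hm q H).real B := by
  have hP : IsProbabilityMeasure (unif q) := by unfold unif; infer_instance
  have hc : Measurable (fun (x : FMark q H × ℕ → Pos q) => ((fun _ => x) : HV q H)) := by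
    fun_prop
  have hind := (iIndepFun_pi (μ := fun _ : Fin (H + 1) =>
    (Measure.infinitePi fun _ : FMark q H × ℕ => unif q)) (X := fun _ x => x)
    (fun _ => aemeasurable_id)).indepFun hne
  have h1 := hind.measure_inter_preimage_eq_mul _ _ (hc hA) (hc hB)
  have eA : (fun U : HV q H => U m) ⁻¹' ((fun (x : FMark q H × ℕ → Pos q) =>
      ((fun _ => x) : HV q H)) ⁻¹' A) = A := by
    ext U
    simp only [Set.mem_preimage]
    exact dA _ _ rfl
  have eB : (fun U : HV q H => U m') ⁻¹' ((fun (x : FMark q H × ℕ → Pos q) =>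
      ((fun _ => x) : HV q H)) ⁻¹' B) = B := by
    ext U
    simp only [Set.mem_preimage]
    exact dB _ _ rfl
  rw [eA, eB] at h1
  unfold Measure.real
  rw [← ENNReal.toReal_mul]
  congr 1

/-- given the exposed configuration, the occupied sets at two non-exposed times are independent -/
lemma two_times (hS : Stmt_SPLIT) {a δ Λ : ℝ} (L : MarkLaw q H a δ Λ) (lam : ℝ≥0)
    (e : Fin (H + 1) → Bool) {m m' : ℕ} (hm1 : m < H + 1) (hm2 : m' < H + 1) (hne : m ≠ m')
    (Q Q' : Set Site → Prop) (mQ : MeasurableSet {ω : Conf q H | Q (et ω m)})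
    (mQ' : MeasurableSet {ω : Conf q H | Q' (et ω m')}) :
    (L.PP lam).real {ω | Q (et ω m) ∧ Q' (et ω m')} =
      ∫ M, (hm q H).real {U | Q (et (asmE e M U) m)} * (hm q H).real {U | Q' (et (asmE e M U) m')}
        ∂(pois (muE L lam e)) := by
  have hasm := (hS q H a δ Λ L lam e).1
  have mB : MeasurableSet {ω : Conf q H | Q (et ω m) ∧ Q' (et ω m')} := mQ.inter mQ'
  rw [FFP.real_eq hS L lam e mB]
  refine (FFP.real_sec _ _ (hasm mB)).trans ?_
  congr 1
  funext M
  have hsec : Measurable (fun U : HV q H => asmE e M U) :=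
    hasm.comp (measurable_const.prodMk measurable_id)
  have h := hm_indep (q := q) (H := H) (m := ⟨m, hm1⟩) (m' := ⟨m', hm2⟩)
    (fun h' => hne (Fin.mk.inj h')) (hsec mQ) (hsec mQ')
    (fun U U' hU => by
      show Q (et (asmE e M U) m) ↔ Q (et (asmE e M U') m)
      rw [CIND.et_eq (U := U) (U' := U') fun _ _ => hU])
    (fun U U' hU => by
      show Q' (et (asmE e M U) m') ↔ Q' (et (asmE e M U') m')
      rw [CIND.et_eq (U := U) (U' := U') fun _ _ => hU])
  exact h

/-- mean of the conditional probabilities -/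
lemma one_time (hS : Stmt_SPLIT) {a δ Λ : ℝ} (L : MarkLaw q H a δ Λ) (lam : ℝ≥0)
    (e : Fin (H + 1) → Bool) {S : Set (Conf q H)} (mS : MeasurableSet S) :
    (L.PP lam).real S = ∫ M, (hm q H).real {U | asmE e M U ∈ S} ∂(pois (muE L lam e)) := by
  have hasm := (hS q H a δ Λ L lam e).1
  rw [FFP.real_eq hS L lam e mS]
  exact FFP.real_sec _ _ (hasm mS)

/-- decorrelation of two times from the two variances -/
lemma dec_two (hS : Stmt_SPLIT) {a δ Λ : ℝ} (L : MarkLaw q H a δ Λ) (lam : ℝ≥0)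
    (e : Fin (H + 1) → Bool) {m m' : ℕ} (hm1 : m < H + 1) (hm2 : m' < H + 1) (hne : m ≠ m')
    (Q Q' : Set Site → Prop) (mQ : MeasurableSet {ω : Conf q H | Q (et ω m)})
    (mQ' : MeasurableSet {ω : Conf q H | Q' (et ω m')}) {w ε : ℝ}
    (hw : (L.PP lam).real {ω | Q (et ω m)} = w) (hw' : (L.PP lam).real {ω | Q' (et ω m')} = w)
    (h1 : ∫ M, ((hm q H).real {U | Q (et (asmE e M U) m)} -
      ∫ M', (hm q H).real {U | Q (et (asmE e M' U) m)} ∂(pois (muE L lam e))) ^ 2
        ∂(pois (muE L lam e)) ≤ ε)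
    (h2 : ∫ M, ((hm q H).real {U | Q' (et (asmE e M U) m')} -
      ∫ M', (hm q H).real {U | Q' (et (asmE e M' U) m')} ∂(pois (muE L lam e))) ^ 2
        ∂(pois (muE L lam e)) ≤ ε) :
    (L.PP lam).real {ω | Q (et ω m) ∧ Q' (et ω m')} ≤ w ^ 2 + ε := by
  have hasm := (hS q H a δ Λ L lam e).1
  rw [two_times hS L lam e hm1 hm2 hne Q Q' mQ mQ']
  have e1 := one_time hS L lam e mQ
  have e2 := one_time hS L lam e mQ'
  simp only [Set.mem_ofPred_eq] at e1 e2
  rw [hw] at e1
  rw [hw'] at e2
  have mf : Measurable (fun M : Conf q H => (hm q H).real {U | Q (et (asmE e M U) m)}) :=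
    FFP.measurable_sec (hm q H) (hasm mQ)
  have mg : Measurable (fun M : Conf q H => (hm q H).real {U | Q' (et (asmE e M U) m')}) :=
    FFP.measurable_sec (hm q H) (hasm mQ')
  have h := cov_bound (pois (muE L lam e)) mf mg
    (fun x => by rw [abs_of_nonneg measureReal_nonneg]; exact measureReal_le_one)
    (fun x => by rw [abs_of_nonneg measureReal_nonneg]; exact measureReal_le_one) h1 h2
  rw [← e1, ← e2] at h
  rw [sq]
  exact h

end MPdd5692.Dec63
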