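import Mathlib
import Pool.Agent.Work.MP_dd5692_pr.InterfaceB
import Pool.Agent.Work.MP_dd5692_pr.Dec63

/-!
# MP_dd5692_pr: block ARMDEC (helper63)
-/

open MeasureTheory ProbabilityTheory Set
open scoped ENNReal NNReal BigOperators

namespace MPdd5692

/-- decorrelation of arms at different times, from Theorem B' for arms -/
theorem stmt_ARMDEC (h1 : B35.Stmt_VARM) (h2 : Stmt_SPLIT) (h3 : Stmt_STATIC) (h4 : Stmt_MEAS) :
    Stmt_ARMDEC := by
  intro c e I δ Λ κ0 R hc hc1 hδ hκ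
  obtain ⟨a0, ha0⟩ := h1 c e I δ Λ R κ0 hc hc1 hδ hκ
  refine ⟨a0, ?_⟩
  intro nmax E m m' hmH hmH' hne z a b ha hab hbR hbn
  set ex : Fin (E.H + 1) → Bool := fun _ => false with hex
  have hV : ∀ k : ℕ, ∀ hk : k < E.H + 1,
      ∫ M, ((hm E.q E.H).real {U | Arm E.ρ E.q (et (asmE ex M U) k) z a z b} -
        ∫ M', (hm E.q E.H).real {U | Arm E.ρ E.q (et (asmE ex M' U) k) z a z b}
          ∂(pois (muE E.L E.lam ex))) ^ 2 ∂(pois (muE E.L E.lam ex)) ≤ κ0 := by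
    intro k hk
    exact ha0 a ha nmax E ex k hk rfl z b hab hbR hbn
  have hmeas : ∀ k : ℕ, MeasurableSet {ω : Conf E.q E.H | Arm E.ρ E.q (et ω k) z a z b} :=
    fun k => (h4 E.q E.H E.ρ k k z z a b).1.1
  have hst : ∀ k : ℕ, k ≤ E.H → (E.L.PP E.lam).real {ω | Arm E.ρ E.q (et ω k) z a z b} =
      E.al a b := by
    intro k hk
    have h5 := (h3 E.q E.H E.j δ Λ E.L E.lam k hk (fun S => Arm E.ρ E.q S z a z b)
      (h4 E.q E.H E.ρ k k z z a b).2.2.2.2.1).2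
    rw [h5]
    unfold Env.al alpha
    refine WLOW.SP_tr E.lam E.j E.q z _ _ (h4 E.q E.H E.ρ k k 0 0 a b).2.2.2.2.1 ?_
    intro S
    have h6 := TRANS.arm_tau (q := E.q) E.ρ z S 0 0 a b
    rw [zero_add] at h6
    exact h6
  exact Dec63.dec_two h2 E.L E.lam ex (Nat.lt_succ_of_le hmH) (Nat.lt_succ_of_le hmH') hne
    (fun S => Arm E.ρ E.q S z a z b) (fun S => Arm E.ρ E.q S z a z b) (hmeas m) (hmeas m')
    (hst m hmH) (hst m' hmH') (hV m (Nat.lt_succ_of_le hmH)) (hV m' (Nat.lt_succ_of_le hmH'))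

end MPdd5692
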