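import Mathlib

/-!
# MP_dd5692_pr, part (B'), abstract part: averaging operators on a finite product of probability
spaces, ANOVA (Efron-Stein) decomposition over blocks of coordinates  (helper35)
-/

set_option autoImplicit false
set_option linter.unusedSectionVars false

open MeasureTheory Function Finset

namespace MPdd5692.B35

/-- bounded measurable real functions -/
def BM {α : Type*} [MeasurableSpace α] (f : α → ℝ) : Prop :=
  Measurable f ∧ ∃ C : ℝ, ∀ x, |f x| ≤ C

namespace BM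

variable {α : Type*} [MeasurableSpace α] {f g : α → ℝ}

theorem meas (h : BM f) : Measurable f := h.1

theorem integrable (h : BM f) (μ : Measure α) [IsFiniteMeasure μ] : Integrable f μ := by
  obtain ⟨hm, C, hC⟩ := h
  exact Integrable.of_bound hm.aestronglyMeasurable C (Filter.Eventually.of_forall fun x => by
    simpa [Real.norm_eq_abs] using hC x)

theorem add (hf : BM f) (hg : BM g) : BM (fun x => f x + g x) := by
  obtain ⟨hm, C, hC⟩ := hf
  obtain ⟨hm', D, hD⟩ := hg
  exact ⟨hm.add hm', C + D, fun x => (abs_add_le _ _).trans (add_le_add (hC x) (hD x))⟩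

theorem mul (hf : BM f) (hg : BM g) : BM (fun x => f x * g x) := by
  obtain ⟨hm, C, hC⟩ := hf
  obtain ⟨hm', D, hD⟩ := hg
  refine ⟨hm.mul hm', C * D, fun x => ?_⟩
  rw [abs_mul]
  exact mul_le_mul (hC x) (hD x) (abs_nonneg _) ((abs_nonneg _).trans (hC x))

theorem const (c : ℝ) : BM (fun _ : α => c) := ⟨measurable_const, |c|, fun _ => le_rfl⟩

theorem cmul (c : ℝ) (hf : BM f) : BM (fun x => c * f x) := (BM.const c).mul hf

theorem neg (hf : BM f) : BM (fun x => - f x) := by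
  simpa using hf.cmul (-1)

theorem sub (hf : BM f) (hg : BM g) : BM (fun x => f x - g x) := by
  simpa [sub_eq_add_neg] using hf.add hg.neg

theorem sum {β : Type*} (s : Finset β) {F : β → α → ℝ} (h : ∀ b ∈ s, BM (F b)) :
    BM (fun x => ∑ b ∈ s, F b x) := by
  classical
  induction s using Finset.induction_on with
  | empty => simpa using BM.const (α := α) 0
  | insert b s hb ih =>
      simp only [Finset.sum_insert hb]
      exact (h b (mem_insert_self _ _)).add (ih fun c hc => h c (mem_insert_of_mem hc))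

theorem sq (hf : BM f) : BM (fun x => f x ^ 2) := by
  simpa [pow_two] using hf.mul hf

theorem comp {β : Type*} [MeasurableSpace β] (hf : BM f) {φ : β → α} (hφ : Measurable φ) :
    BM (fun x => f (φ x)) := by
  obtain ⟨hm, C, hC⟩ := hf
  exact ⟨hm.comp hφ, C, fun x => hC _⟩

theorem ind {s : Set α} (hs : MeasurableSet s) : BM (s.indicator (fun _ => (1 : ℝ))) := by
  refine ⟨measurable_const.indicator hs, 1, fun x => ?_⟩
  by_cases h : x ∈ s <;> simp [h]

theorem integral_right {β : Type*} [MeasurableSpace β] {F : α × β → ℝ} (hF : BM F)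
    (ν : Measure β) [IsProbabilityMeasure ν] : BM (fun x => ∫ y, F (x, y) ∂ν) := by
  obtain ⟨hm, C, hC⟩ := hF
  refine ⟨(StronglyMeasurable.integral_prod_right (f := fun x y => F (x, y)) (ν := ν)
    hm.stronglyMeasurable).measurable, C, fun x => ?_⟩
  have h := norm_integral_le_of_norm_le_const (μ := ν) (f := fun y => F (x, y)) (C := C)
    (Filter.Eventually.of_forall fun y => by simpa [Real.norm_eq_abs] using hC (x, y))
  simpa [Real.norm_eq_abs] using h

end BM

variable {κ : Type*} [Fintype κ] [DecidableEq κ] {Ω : κ → Type*} [∀ i, MeasurableSpace (Ω i)]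

/-- integrate out the coordinates outside `T` -/
noncomputable def EE (μ : ∀ i, Measure (Ω i)) (T : Finset κ) (f : (∀ i, Ω i) → ℝ)
    (ω : ∀ i, Ω i) : ℝ :=
  ∫ ω', f (T.piecewise ω ω') ∂(Measure.pi μ)

/-- `f` depends only on the coordinates in `T` -/
def Dep (T : Finset κ) (f : (∀ i, Ω i) → ℝ) : Prop :=
  ∀ ω ω' : (∀ i, Ω i), (∀ i ∈ T, ω i = ω' i) → f ω = f ω'

section
variable (μ : ∀ i, Measure (Ω i)) [∀ i, IsProbabilityMeasure (μ i)]

omit [Fintype κ] in
theorem measurable_pw (T : Finset κ) :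
    Measurable (fun p : (∀ i, Ω i) × (∀ i, Ω i) => T.piecewise p.1 p.2) := by
  refine measurable_pi_lambda _ fun i => ?_
  by_cases h : i ∈ T
  · simp only [Finset.piecewise, h, if_true]
    exact (measurable_pi_apply i).comp measurable_fst
  · simp only [Finset.piecewise, h, if_false]
    exact (measurable_pi_apply i).comp measurable_snd

theorem mp_pw (T : Finset κ) :
    MeasurePreserving (fun p : (∀ i, Ω i) × (∀ i, Ω i) => T.piecewise p.1 p.2)
      ((Measure.pi μ).prod (Measure.pi μ)) (Measure.pi μ) := by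
  refine ⟨measurable_pw T, ?_⟩
  symm
  refine Measure.pi_eq fun s hs => ?_
  rw [Measure.map_apply (measurable_pw T) (MeasurableSet.univ_pi hs)]
  have h : (fun p : (∀ i, Ω i) × (∀ i, Ω i) => T.piecewise p.1 p.2) ⁻¹' (Set.univ.pi s) =
      (Set.univ.pi (fun i => if i ∈ T then s i else Set.univ)) ×ˢ
      (Set.univ.pi (fun i => if i ∈ T then Set.univ else s i)) := by
    ext p
    simp only [Set.mem_preimage, Set.mem_pi, Set.mem_univ, true_implies, Set.mem_prod]
    constructor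
    · intro h
      refine ⟨fun i => ?_, fun i => ?_⟩ <;> have := h i <;> by_cases hi : i ∈ T <;>
        simp_all [Finset.piecewise]
    · rintro ⟨h1, h2⟩ i
      have := h1 i
      have := h2 i
      by_cases hi : i ∈ T <;> simp_all [Finset.piecewise]
  rw [h, Measure.prod_prod, Measure.pi_pi, Measure.pi_pi, ← Finset.prod_mul_distrib]
  refine Finset.prod_congr rfl fun i _ => ?_
  by_cases hi : i ∈ T <;> simp [hi]

variable {μ}

theorem BM.EE {f : (∀ i, Ω i) → ℝ} (hf : BM f) (T : Finset κ) : BM (EE μ T f) :=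
  BM.integral_right (hf.comp (measurable_pw T)) (Measure.pi μ)

theorem integral_pw {f : (∀ i, Ω i) → ℝ} (hf : BM f) (T : Finset κ) :
    ∫ p, f (T.piecewise p.1 p.2) ∂((Measure.pi μ).prod (Measure.pi μ)) =
      ∫ ω, f ω ∂(Measure.pi μ) := by
  rw [← (mp_pw μ T).map_eq, integral_map (measurable_pw T).aemeasurable
    hf.meas.aestronglyMeasurable, (mp_pw μ T).map_eq]

theorem integral_EE {f : (∀ i, Ω i) → ℝ} (hf : BM f) (T : Finset κ) :
    ∫ ω, EE μ T f ω ∂(Measure.pi μ) = ∫ ω, f ω ∂(Measure.pi μ) := by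
  unfold MPdd5692.B35.EE
  rw [← integral_pw hf T, integral_prod]
  exact (hf.comp (measurable_pw T)).integrable _

theorem EE_EE {f : (∀ i, Ω i) → ℝ} (hf : BM f) (S T : Finset κ) :
    EE μ S (EE μ T f) = EE μ (S ∩ T) f := by
  funext ω
  unfold MPdd5692.B35.EE
  have h1 : BM (fun ω' => f ((S ∩ T).piecewise ω ω')) := by
    refine hf.comp ?_
    exact (measurable_pw (S ∩ T)).comp (measurable_const.prodMk measurable_id)
  rw [← integral_pw h1 T, integral_prod]
  · refine integral_congr_ae (Filter.Eventually.of_forall fun ω' => ?_)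
    refine integral_congr_ae (Filter.Eventually.of_forall fun ω'' => ?_)
    refine congrArg f ?_
    funext i
    by_cases hS : i ∈ S <;> by_cases hT : i ∈ T <;> simp [Finset.piecewise, hS, hT]
  · exact (h1.comp (measurable_pw T)).integrable _

omit [∀ i, IsProbabilityMeasure (μ i)] in
theorem EE_dep (T : Finset κ) (f : (∀ i, Ω i) → ℝ) : Dep T (EE μ T f) := by
  intro ω ω' h
  unfold MPdd5692.B35.EE
  refine integral_congr_ae (Filter.Eventually.of_forall fun ω'' => congrArg f ?_)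
  funext i
  by_cases hT : i ∈ T
  · simp [Finset.piecewise, hT, h i hT]
  · simp [Finset.piecewise, hT]

/-- take out what is known -/
theorem EE_mul {T : Finset κ} {h : (∀ i, Ω i) → ℝ} (hh : Dep T h) (f : (∀ i, Ω i) → ℝ) :
    EE μ T (fun ω => h ω * f ω) = fun ω => h ω * EE μ T f ω := by
  funext ω
  unfold MPdd5692.B35.EE
  rw [← integral_const_mul]
  refine integral_congr_ae (Filter.Eventually.of_forall fun ω' => ?_)
  have h1 : h (T.piecewise ω ω') = h ω := by
    refine hh _ _ fun i hi => ?_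
    simp [Finset.piecewise, hi]
  simp only [h1]

theorem EE_of_dep {T : Finset κ} {h : (∀ i, Ω i) → ℝ} (hh : Dep T h) : EE μ T h = h := by
  have := EE_mul (μ := μ) hh (fun _ => 1)
  simp only [mul_one] at this
  rw [this]
  funext ω
  simp [MPdd5692.B35.EE]

theorem Dep.mono {S T : Finset κ} (hST : S ⊆ T) {h : (∀ i, Ω i) → ℝ} (hh : Dep S h) : Dep T h :=
  fun ω ω' H => hh ω ω' fun i hi => H i (hST hi)

theorem EE_add {f g : (∀ i, Ω i) → ℝ} (hf : BM f) (hg : BM g) (T : Finset κ) :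
    EE μ T (fun ω => f ω + g ω) = fun ω => EE μ T f ω + EE μ T g ω := by
  funext ω
  unfold MPdd5692.B35.EE
  have hm : Measurable (fun ω' : (∀ i, Ω i) => T.piecewise ω ω') :=
    (measurable_pw T).comp (measurable_const.prodMk measurable_id)
  exact integral_add ((hf.comp hm).integrable _) ((hg.comp hm).integrable _)

theorem EE_sub {f g : (∀ i, Ω i) → ℝ} (hf : BM f) (hg : BM g) (T : Finset κ) :
    EE μ T (fun ω => f ω - g ω) = fun ω => EE μ T f ω - EE μ T g ω := by
  funext ω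
  unfold MPdd5692.B35.EE
  have hm : Measurable (fun ω' : (∀ i, Ω i) => T.piecewise ω ω') :=
    (measurable_pw T).comp (measurable_const.prodMk measurable_id)
  exact integral_sub ((hf.comp hm).integrable _) ((hg.comp hm).integrable _)

theorem EE_cmul (c : ℝ) (f : (∀ i, Ω i) → ℝ) (T : Finset κ) :
    EE μ T (fun ω => c * f ω) = fun ω => c * EE μ T f ω := by
  funext ω
  unfold MPdd5692.B35.EE
  exact integral_const_mul _ _

theorem EE_sum {β : Type*} (s : Finset β) {F : β → (∀ i, Ω i) → ℝ} (h : ∀ b ∈ s, BM (F b))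
    (T : Finset κ) :
    EE μ T (fun ω => ∑ b ∈ s, F b ω) = fun ω => ∑ b ∈ s, EE μ T (F b) ω := by
  funext ω
  unfold MPdd5692.B35.EE
  have hm : Measurable (fun ω' : (∀ i, Ω i) => T.piecewise ω ω') :=
    (measurable_pw T).comp (measurable_const.prodMk measurable_id)
  exact integral_finsetSum _ fun b hb => ((h b hb).comp hm).integrable _

theorem EE_nonneg {f : (∀ i, Ω i) → ℝ} (hf : ∀ ω, 0 ≤ f ω) (T : Finset κ) (ω : ∀ i, Ω i) :
    0 ≤ EE μ T f ω := integral_nonneg fun _ => hf _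

theorem EE_mono {f g : (∀ i, Ω i) → ℝ} (hf : BM f) (hg : BM g) (h : ∀ ω, f ω ≤ g ω)
    (T : Finset κ) (ω : ∀ i, Ω i) : EE μ T f ω ≤ EE μ T g ω := by
  have hm : Measurable (fun ω' : (∀ i, Ω i) => T.piecewise ω ω') :=
    (measurable_pw T).comp (measurable_const.prodMk measurable_id)
  exact integral_mono ((hf.comp hm).integrable _) ((hg.comp hm).integrable _) fun _ => h _

/-- `E[E_T f * h] = E[f * h]` if `h` depends only on `T`. -/
theorem integral_EE_mul {f h : (∀ i, Ω i) → ℝ} (hf : BM f) (hh : BM h) {T : Finset κ}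
    (hd : Dep T h) :
    ∫ ω, h ω * EE μ T f ω ∂(Measure.pi μ) = ∫ ω, h ω * f ω ∂(Measure.pi μ) := by
  rw [← integral_EE (hh.mul hf) T, EE_mul hd]

/-- Jensen: `E (E_T f)^2 <= E f^2`. -/
theorem integral_EE_sq_le {f : (∀ i, Ω i) → ℝ} (hf : BM f) (T : Finset κ) :
    ∫ ω, EE μ T f ω ^ 2 ∂(Measure.pi μ) ≤ ∫ ω, f ω ^ 2 ∂(Measure.pi μ) := by
  have h1 : ∫ ω, EE μ T f ω * EE μ T f ω ∂(Measure.pi μ) =
      ∫ ω, EE μ T f ω * f ω ∂(Measure.pi μ) := integral_EE_mul hf (hf.EE T) (EE_dep T f)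
  have h2 : 0 ≤ ∫ ω, (f ω - EE μ T f ω) ^ 2 ∂(Measure.pi μ) := integral_nonneg fun _ => sq_nonneg _
  have h3 : ∫ ω, (f ω - EE μ T f ω) ^ 2 ∂(Measure.pi μ) =
      ∫ ω, f ω ^ 2 ∂(Measure.pi μ) - 2 * ∫ ω, EE μ T f ω * f ω ∂(Measure.pi μ) +
        ∫ ω, EE μ T f ω * EE μ T f ω ∂(Measure.pi μ) := by
    rw [← integral_const_mul, ← integral_sub (hf.sq.integrable _)
      ((((hf.EE T).mul hf).cmul 2).integrable _), ← integral_add
      ((hf.sq.sub (((hf.EE T).mul hf).cmul 2)).integrable _)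
      (((hf.EE T).mul (hf.EE T)).integrable _)]
    refine integral_congr_ae (Filter.Eventually.of_forall fun ω => ?_)
    simp only
    ring
  have h4 : ∫ ω, EE μ T f ω ^ 2 ∂(Measure.pi μ) =
      ∫ ω, EE μ T f ω * EE μ T f ω ∂(Measure.pi μ) := by simp only [pow_two]
  rw [h4]
  linarith

/-! ### blocks of coordinates -/

variable {ι : Type*} [Fintype ι] [DecidableEq ι] (π : κ → ι)

/-- coordinates of the cells in `S` -/
def pre (S : Finset ι) : Finset κ := Finset.univ.filter (fun k => π k ∈ S)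

omit [Fintype ι] in
theorem pre_inter (S T : Finset ι) : pre π (S ∩ T) = pre π S ∩ pre π T := by
  ext k; simp [pre]

omit [Fintype ι] in
theorem pre_mono {S T : Finset ι} (h : S ⊆ T) : pre π S ⊆ pre π T := by
  intro k hk
  simp only [pre, mem_filter, mem_univ, true_and] at hk ⊢
  exact h hk

theorem pre_univ : pre π (Finset.univ : Finset ι) = Finset.univ := by
  ext k; simp [pre]

theorem moebius (F : Finset ι → ℝ) (A : Finset ι) :
    ∑ S ∈ A.powerset, ∑ T ∈ S.powerset, (-1 : ℝ) ^ (S.card + T.card) * F T = F A := by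
  induction A using Finset.induction_on generalizing F with
  | empty => simp
  | insert i A hi ih =>
      rw [Finset.sum_powerset_insert hi]
      have h2 : ∀ S ∈ A.powerset,
          ∑ T ∈ (insert i S).powerset, (-1 : ℝ) ^ ((insert i S).card + T.card) * F T =
          - (∑ T ∈ S.powerset, (-1 : ℝ) ^ (S.card + T.card) * F T) +
          ∑ T ∈ S.powerset, (-1 : ℝ) ^ (S.card + T.card) * F (insert i T) := by
        intro S hS
        have hiS : i ∉ S := fun h => hi (mem_powerset.1 hS h)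
        rw [Finset.sum_powerset_insert hiS, ← Finset.sum_neg_distrib]
        refine congrArg₂ (· + ·) (sum_congr rfl fun T hT => ?_) (sum_congr rfl fun T hT => ?_)
        · rw [card_insert_of_notMem hiS]; ring
        · have hiT : i ∉ T := fun h => hiS (mem_powerset.1 hT h)
          rw [card_insert_of_notMem hiS, card_insert_of_notMem hiT]; ring
      rw [sum_congr rfl h2, sum_add_distrib, Finset.sum_neg_distrib, ih F,
        ih (fun T => F (insert i T))]
      ring

/-- ANOVA component -/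
noncomputable def ac (μ : ∀ i, Measure (Ω i)) (f : (∀ i, Ω i) → ℝ) (S : Finset ι)
    (ω : ∀ i, Ω i) : ℝ :=
  ∑ T ∈ S.powerset, (-1 : ℝ) ^ (S.card + T.card) * EE μ (pre π T) f ω

variable {π}

theorem BM.ac {f : (∀ i, Ω i) → ℝ} (hf : BM f) (S : Finset ι) :
    BM (MPdd5692.B35.ac π μ f S) :=
  BM.sum _ fun T _ => (hf.EE (pre π T)).cmul _

theorem ac_dep (f : (∀ i, Ω i) → ℝ) (S : Finset ι) : Dep (pre π S) (ac π μ f S) := by
  intro ω ω' h
  unfold MPdd5692.B35.ac
  refine sum_congr rfl fun T hT => ?_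
  rw [EE_dep (pre π T) f ω ω' fun i hi => h i (pre_mono π (mem_powerset.1 hT) hi)]

theorem EE_ac {f : (∀ i, Ω i) → ℝ} (hf : BM f) {A S : Finset ι} (h : ¬ S ⊆ A) :
    EE μ (pre π A) (ac π μ f S) = fun _ => 0 := by
  obtain ⟨i, hiS, hiA⟩ := Finset.not_subset.1 h
  have h1 : EE μ (pre π A) (ac π μ f S) =
      fun ω => ∑ T ∈ S.powerset, (-1 : ℝ) ^ (S.card + T.card) * EE μ (pre π (A ∩ T)) f ω := by
    unfold MPdd5692.B35.ac
    rw [EE_sum _ (fun T _ => (hf.EE (pre π T)).cmul _)]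
    funext ω
    refine sum_congr rfl fun T _ => ?_
    rw [EE_cmul, EE_EE hf, pre_inter]
  rw [h1]
  funext ω
  have h2 : S = insert i (S.erase i) := (insert_erase hiS).symm
  have hn : i ∉ S.erase i := notMem_erase i S
  rw [h2, Finset.sum_powerset_insert hn, ← h2, ← sum_add_distrib]
  refine sum_eq_zero fun T hT => ?_
  have hiT : i ∉ T := fun h => hn (mem_powerset.1 hT h)
  have h3 : A ∩ insert i T = A ∩ T := by
    ext x
    simp only [mem_inter, mem_insert]
    constructor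
    · rintro ⟨hx, rfl | hx'⟩
      · exact absurd hx hiA
      · exact ⟨hx, hx'⟩
    · rintro ⟨hx, hx'⟩
      exact ⟨hx, Or.inr hx'⟩
  rw [h3, card_insert_of_notMem hiT]
  ring

theorem sum_ac (f : (∀ i, Ω i) → ℝ) (A : Finset ι) (ω : ∀ i, Ω i) :
    ∑ S ∈ A.powerset, ac π μ f S ω = EE μ (pre π A) f ω := by
  unfold MPdd5692.B35.ac
  exact moebius (fun T => EE μ (pre π T) f ω) A

theorem EE_univ (f : (∀ i, Ω i) → ℝ) : EE μ (Finset.univ : Finset κ) f = f :=
  EE_of_dep fun ω ω' h => by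
    have : ω = ω' := funext fun i => h i (mem_univ i)
    rw [this]

theorem sum_ac_univ (f : (∀ i, Ω i) → ℝ) (ω : ∀ i, Ω i) :
    ∑ S : Finset ι, ac π μ f S ω = f ω := by
  have := sum_ac (π := π) (μ := μ) f Finset.univ ω
  rw [pre_univ, EE_univ] at this
  rw [← this, Finset.powerset_univ]

/-- orthogonality -/
theorem ortho {f h : (∀ i, Ω i) → ℝ} (hf : BM f) (hh : BM h) {S T : Finset ι}
    (hd : Dep (pre π T) h) (hST : ¬ S ⊆ T) :
    ∫ ω, h ω * ac π μ f S ω ∂(Measure.pi μ) = 0 := by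
  rw [← integral_EE_mul (hf.ac S) hh hd, EE_ac hf hST]
  simp

theorem ortho2 {f g : (∀ i, Ω i) → ℝ} (hf : BM f) (hg : BM g) {S T : Finset ι} (hST : S ≠ T) :
    ∫ ω, ac π μ g T ω * ac π μ f S ω ∂(Measure.pi μ) = 0 := by
  by_cases h : S ⊆ T
  · have h' : ¬ T ⊆ S := fun h' => hST (Subset.antisymm h h')
    have := ortho (π := π) (μ := μ) hg (BM.ac (π := π) (μ := μ) hf S) (ac_dep f S) h'
    simpa only [mul_comm] using this
  · exact ortho hf (hg.ac T) (ac_dep g T) h

/-- integral of a product with a finite sum -/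
theorem int_mul_sum {β : Type*} (s : Finset β) {F : β → (∀ i, Ω i) → ℝ} {h : (∀ i, Ω i) → ℝ}
    (hh : BM h) (hF : ∀ b ∈ s, BM (F b)) :
    ∫ ω, h ω * ∑ b ∈ s, F b ω ∂(Measure.pi μ) = ∑ b ∈ s, ∫ ω, h ω * F b ω ∂(Measure.pi μ) := by
  simp only [mul_sum]
  exact integral_finsetSum _ fun b hb => (hh.mul (hF b hb)).integrable _

/-- `E [g * sum over the family]`, only the diagonal survives -/
theorem int_sum_sq {f : (∀ i, Ω i) → ℝ} (hf : BM f) (𝒯 : Finset (Finset ι)) :
    ∫ ω, (∑ S ∈ 𝒯, ac π μ f S ω) ^ 2 ∂(Measure.pi μ) =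
      ∑ S ∈ 𝒯, ∫ ω, ac π μ f S ω ^ 2 ∂(Measure.pi μ) := by
  have hG : BM (fun ω => ∑ S ∈ 𝒯, ac π μ f S ω) := BM.sum _ fun S _ => hf.ac S
  have h1 : ∫ ω, (∑ S ∈ 𝒯, ac π μ f S ω) ^ 2 ∂(Measure.pi μ) =
      ∑ S ∈ 𝒯, ∫ ω, (∑ S ∈ 𝒯, ac π μ f S ω) * ac π μ f S ω ∂(Measure.pi μ) := by
    rw [← int_mul_sum 𝒯 hG fun S _ => hf.ac S]
    simp only [pow_two]
  rw [h1]
  refine sum_congr rfl fun S hS => ?_
  have h2 : ∀ ω, (∑ S' ∈ 𝒯, ac π μ f S' ω) * ac π μ f S ω =
      ac π μ f S ω * ∑ S' ∈ 𝒯, ac π μ f S' ω := fun ω => mul_comm _ _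
  simp only [h2]
  rw [int_mul_sum 𝒯 (hf.ac S) fun S _ => hf.ac S]
  rw [sum_eq_single_of_mem S hS]
  · simp only [pow_two]
  · intro S' _ hne
    exact ortho2 hf hf hne

theorem int_mul_ac {f : (∀ i, Ω i) → ℝ} (hf : BM f) (S : Finset ι) :
    ∫ ω, f ω * ac π μ f S ω ∂(Measure.pi μ) = ∫ ω, ac π μ f S ω ^ 2 ∂(Measure.pi μ) := by
  have h : ∀ ω, f ω * ac π μ f S ω = ac π μ f S ω * ∑ T : Finset ι, ac π μ f T ω :=
    fun ω => by rw [sum_ac_univ, mul_comm]
  simp only [h]
  rw [int_mul_sum _ (hf.ac S) fun S _ => hf.ac S, sum_eq_single_of_mem S (mem_univ S)]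
  · simp only [pow_two]
  · intro S' _ hne
    exact ortho2 hf hf hne

/-- `V(g, W) = E (g - E[g | cells off W])^2` in terms of the components -/
theorem var_eq {g : (∀ i, Ω i) → ℝ} (hg : BM g) (W : Finset ι) :
    ∫ ω, (g ω - EE μ (pre π Wᶜ) g ω) ^ 2 ∂(Measure.pi μ) =
      ∑ S ∈ (Finset.univ : Finset (Finset ι)).filter (fun S => (S ∩ W).Nonempty),
        ∫ ω, ac π μ g S ω ^ 2 ∂(Measure.pi μ) := by
  rw [← int_sum_sq hg]
  refine integral_congr_ae (Filter.Eventually.of_forall fun ω => ?_)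
  simp only
  congr 1
  have h1 := sum_ac_univ (π := π) (μ := μ) g ω
  have h2 := sum_ac (π := π) (μ := μ) g Wᶜ ω
  rw [← h1, ← h2, ← Finset.sum_filter_add_sum_filter_not Finset.univ
    (fun S : Finset ι => (S ∩ W).Nonempty) (fun S => ac π μ g S ω)]
  have h3 : (Finset.univ : Finset (Finset ι)).filter (fun S => ¬ (S ∩ W).Nonempty) =
      Wᶜ.powerset := by
    ext S
    simp only [mem_filter, mem_univ, true_and, mem_powerset, not_nonempty_iff_eq_empty]
    rw [← Finset.disjoint_iff_inter_eq_empty, Finset.subset_compl_iff_disjoint_right]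
  rw [h3]
  ring

/-- Efron-Stein with a cut at degree `m` -/
theorem var_le {g : (∀ i, Ω i) → ℝ} (hg : BM g) (W : Finset ι) (m : ℕ) (hm : 0 < m) :
    ∫ ω, (g ω - EE μ (pre π Wᶜ) g ω) ^ 2 ∂(Measure.pi μ) ≤
      ∑ S ∈ (Finset.univ : Finset (Finset ι)).filter
          (fun S => (S ∩ W).Nonempty ∧ S.card ≤ m),
        ∫ ω, ac π μ g S ω ^ 2 ∂(Measure.pi μ) +
      (1 / m : ℝ) * ∑ c : ι, ∫ ω, (g ω - EE μ (pre π {c}ᶜ) g ω) ^ 2 ∂(Measure.pi μ) := by
  have hm' : (0 : ℝ) < m := by exact_mod_cast hm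
  have hn : ∀ S : Finset ι, 0 ≤ ∫ ω, ac π μ g S ω ^ 2 ∂(Measure.pi μ) :=
    fun S => integral_nonneg fun _ => sq_nonneg _
  have h1 : ∑ c : ι, ∫ ω, (g ω - EE μ (pre π {c}ᶜ) g ω) ^ 2 ∂(Measure.pi μ) =
      ∑ S : Finset ι, (S.card : ℝ) * ∫ ω, ac π μ g S ω ^ 2 ∂(Measure.pi μ) := by
    have h2 : ∀ c : ι, ∫ ω, (g ω - EE μ (pre π {c}ᶜ) g ω) ^ 2 ∂(Measure.pi μ) =
        ∑ S : Finset ι, if c ∈ S then ∫ ω, ac π μ g S ω ^ 2 ∂(Measure.pi μ) else 0 := by
      intro c
      rw [var_eq hg, ← Finset.sum_filter]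
      refine sum_congr ?_ fun _ _ => rfl
      ext S
      simp only [mem_filter, mem_univ, true_and]
      constructor
      · rintro ⟨x, hx⟩
        rw [mem_inter, mem_singleton] at hx
        exact hx.2 ▸ hx.1
      · intro h
        exact ⟨c, by simp [h]⟩
    rw [sum_congr rfl fun c _ => h2 c, sum_comm]
    refine sum_congr rfl fun S _ => ?_
    rw [← Finset.sum_filter, Finset.sum_const, nsmul_eq_mul]
    congr 2
    congr 1
    ext c
    simp
  rw [var_eq hg, h1, mul_sum]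
  have h3 : ∑ S ∈ (Finset.univ : Finset (Finset ι)).filter (fun S => (S ∩ W).Nonempty),
        ∫ ω, ac π μ g S ω ^ 2 ∂(Measure.pi μ) =
      ∑ S ∈ (Finset.univ : Finset (Finset ι)).filter
          (fun S => (S ∩ W).Nonempty ∧ S.card ≤ m),
        ∫ ω, ac π μ g S ω ^ 2 ∂(Measure.pi μ) +
      ∑ S ∈ (Finset.univ : Finset (Finset ι)).filter
          (fun S => (S ∩ W).Nonempty ∧ ¬ S.card ≤ m),
        ∫ ω, ac π μ g S ω ^ 2 ∂(Measure.pi μ) := by
    rw [← Finset.sum_filter_add_sum_filter_not _ (fun S : Finset ι => S.card ≤ m),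
      Finset.filter_filter, Finset.filter_filter]
  rw [h3]
  gcongr
  calc ∑ S ∈ (Finset.univ : Finset (Finset ι)).filter
          (fun S => (S ∩ W).Nonempty ∧ ¬ S.card ≤ m),
        ∫ ω, ac π μ g S ω ^ 2 ∂(Measure.pi μ)
      ≤ ∑ S ∈ (Finset.univ : Finset (Finset ι)).filter
          (fun S => (S ∩ W).Nonempty ∧ ¬ S.card ≤ m),
        (1 / m : ℝ) * ((S.card : ℝ) * ∫ ω, ac π μ g S ω ^ 2 ∂(Measure.pi μ)) := by
        refine sum_le_sum fun S hS => ?_
        simp only [mem_filter, mem_univ, true_and, not_le] at hS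
        have h4 : (m : ℝ) ≤ S.card := by exact_mod_cast hS.2.le
        have h5 : (1 : ℝ) ≤ 1 / m * S.card := by
          rw [one_div, inv_mul_eq_div, le_div_iff₀ hm']
          linarith
        calc ∫ ω, ac π μ g S ω ^ 2 ∂(Measure.pi μ)
            = 1 * ∫ ω, ac π μ g S ω ^ 2 ∂(Measure.pi μ) := (one_mul _).symm
          _ ≤ (1 / m * S.card) * ∫ ω, ac π μ g S ω ^ 2 ∂(Measure.pi μ) :=
              mul_le_mul_of_nonneg_right h5 (hn S)
          _ = _ := by ring
    _ ≤ _ := Finset.sum_le_sum_of_subset_of_nonneg (Finset.filter_subset _ _)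
        fun S _ _ => mul_nonneg (by positivity) (mul_nonneg (by positivity) (hn S))

end

end MPdd5692.B35
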