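import Pool.Agent.Work.MP_dd5692_pr.BLOB8

/-! Block BLOB4 (helper88): `MPdd5692.B35.stmt_BLOB4` is proved in `BLOB8.lean`. -/
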