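import Mathlib
import Pool.Agent.Work.MP_dd5692_pr.InterfaceD

/-!
# MP_dd5692_pr: block CIRC (helper13)
-/

open MeasureTheory ProbabilityTheory Set
open scoped ENNReal NNReal BigOperators

namespace MPdd5692.CIRC

open MPdd5692

section basic

variable {adj : Site → Site → Prop} {S S' : Set Site} {x y z : Site}

lemma rfl' (hx : x ∈ S) : Linked adj S x x := ⟨hx, Relation.ReflTransGen.refl⟩

lemma right_mem (h : Linked adj S x y) : y ∈ S := by
  obtain ⟨hx, h⟩ := h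
  induction h with
  | refl => exact hx
  | tail _ h _ => exact h.2

lemma single (hx : x ∈ S) (hy : y ∈ S) (h : adj x y) : Linked adj S x y :=
  ⟨hx, Relation.ReflTransGen.single ⟨h, hy⟩⟩

lemma trans' (h : Linked adj S x y) (h' : Linked adj S y z) : Linked adj S x z :=
  ⟨h.1, h.2.trans h'.2⟩

lemma tail' (h : Linked adj S x y) (hz : z ∈ S) (hyz : adj y z) : Linked adj S x z :=
  ⟨h.1, h.2.tail ⟨hyz, hz⟩⟩

lemma mono' (hS : S ⊆ S') (h : Linked adj S x y) : Linked adj S' x y :=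
  ⟨hS h.1, Relation.ReflTransGen.mono (fun _ _ h => ⟨h.1, hS h.2⟩) _ _ h.2⟩

lemma mono_adj {adj' : Site → Site → Prop} (ha : ∀ x y, adj x y → adj' x y)
    (h : Linked adj S x y) : Linked adj' S x y :=
  ⟨h.1, Relation.ReflTransGen.mono (fun _ _ h => ⟨ha _ _ h.1, h.2⟩) _ _ h.2⟩

lemma symm' (hadj : ∀ x y, adj x y → adj y x) (h : Linked adj S x y) : Linked adj S y x := by
  obtain ⟨hx, h⟩ := h
  induction h with
  | refl => exact rfl' hx
  | tail hab hbc ih =>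
    exact trans' (single hbc.2 (ih.1) (hadj _ _ hbc.1)) ih

lemma a4symm {z w : Site} (h : Adj4 z w) : Adj4 w z := by
  unfold Adj4 at *; rw [abs_sub_comm w.1, abs_sub_comm w.2]; exact h

lemma a8symm {z w : Site} (h : Adj8 z w) : Adj8 w z := by
  unfold Adj8 at *; rw [abs_sub_comm w.1, abs_sub_comm w.2]; exact h

lemma a48 {z w : Site} (h : Adj4 z w) : Adj8 z w := by
  unfold Adj4 at h; unfold Adj8
  have := abs_nonneg (z.1 - w.1)
  have := abs_nonneg (z.2 - w.2)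
  rw [max_def]; split_ifs <;> omega

end basic

/-- horizontal segment -/
lemma hseg {X : Set Site} {x x' y : ℤ} (hx : x ≤ x')
    (h : ∀ t, x ≤ t → t ≤ x' → ((t, y) : Site) ∈ X) : Linked Adj4 X (x, y) (x', y) := by
  obtain ⟨n, rfl⟩ : ∃ n : ℕ, x' = x + n := ⟨(x' - x).toNat, by omega⟩
  clear hx
  induction n with
  | zero => simpa using rfl' (adj := Adj4) (h x le_rfl (by simp))
  | succ n ih =>
    refine tail' (ih (fun t h1 h2 => h t h1 (by push_cast; omega)))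
      (h _ (by push_cast; omega) le_rfl) ?_
    unfold Adj4
    push_cast
    simp

/-- vertical segment -/
lemma vseg {X : Set Site} {x y y' : ℤ} (hy : y ≤ y')
    (h : ∀ t, y ≤ t → t ≤ y' → ((x, t) : Site) ∈ X) : Linked Adj4 X (x, y) (x, y') := by
  obtain ⟨n, rfl⟩ : ∃ n : ℕ, y' = y + n := ⟨(y' - y).toNat, by omega⟩
  clear hy
  induction n with
  | zero => simpa using rfl' (adj := Adj4) (h y le_rfl (by simp))
  | succ n ih =>
    refine tail' (ih (fun t h1 h2 => h t h1 (by push_cast; omega)))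
      (h _ (by push_cast; omega) le_rfl) ?_
    unfold Adj4
    push_cast
    simp

/-- a product of two order-connected sets is 4-connected -/
lemma prod_conn {X : Set Site} {A B : Set ℤ} (hA : A.OrdConnected) (hB : B.OrdConnected)
    (hX : ∀ a ∈ A, ∀ b ∈ B, ((a, b) : Site) ∈ X) {x y : Site} (hx1 : x.1 ∈ A) (hx2 : x.2 ∈ B)
    (hy1 : y.1 ∈ A) (hy2 : y.2 ∈ B) : Linked Adj4 X x y := by
  have h1 : Linked Adj4 X (x.1, x.2) (y.1, x.2) := by
    rcases le_total x.1 y.1 with h | h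
    · exact hseg h fun t ht ht' => hX _ (hA.out hx1 hy1 ⟨ht, ht'⟩) _ hx2
    · exact symm' (fun _ _ => a4symm) (hseg h fun t ht ht' => hX _ (hA.out hy1 hx1 ⟨ht, ht'⟩) _ hx2)
  have h2 : Linked Adj4 X (y.1, x.2) (y.1, y.2) := by
    rcases le_total x.2 y.2 with h | h
    · exact vseg h fun t ht ht' => hX _ hy1 _ (hB.out hx2 hy2 ⟨ht, ht'⟩)
    · exact symm' (fun _ _ => a4symm) (vseg h fun t ht ht' => hX _ hy1 _ (hB.out hy2 hx2 ⟨ht, ht'⟩))
  exact trans' h1 h2

/-- description of `cbox` by coordinates -/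
lemma mem_cbox {q : ℕ} (hq : 0 < q) {z x : Site} {a : ℕ} :
    x ∈ cbox q z a ↔ (q : ℤ) * (z.1 - a) ≤ x.1 ∧ x.1 < q * (z.1 + a + 1) ∧
      (q : ℤ) * (z.2 - a) ≤ x.2 ∧ x.2 < q * (z.2 + a + 1) := by
  have hq' : (0 : ℤ) < q := by exact_mod_cast hq
  have key : ∀ s t : ℤ, (|s / (q : ℤ) - t| ≤ (a : ℤ)) ↔
      ((q : ℤ) * (t - a) ≤ s ∧ s < q * (t + a + 1)) := by
    intro s t
    rw [abs_le]
    constructor
    · rintro ⟨h1, h2⟩
      have e1 : t - a ≤ s / (q : ℤ) := by omega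
      have e2 : s / (q : ℤ) < t + a + 1 := by omega
      refine ⟨?_, ?_⟩
      · have := (Int.le_ediv_iff_mul_le hq').1 e1
        linarith [mul_comm (q : ℤ) (t - a)]
      · have := (Int.ediv_lt_iff_lt_mul hq').1 e2
        linarith [mul_comm (q : ℤ) (t + a + 1)]
    · rintro ⟨h1, h2⟩
      have e1 : t - a ≤ s / (q : ℤ) :=
        (Int.le_ediv_iff_mul_le hq').2 (by linarith [mul_comm (q : ℤ) (t - a)])
      have e2 : s / (q : ℤ) < t + a + 1 :=
        (Int.ediv_lt_iff_lt_mul hq').2 (by linarith [mul_comm (q : ℤ) (t + a + 1)])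
      constructor <;> omega
  have : x ∈ cbox q z a ↔ (|x.1 / (q : ℤ) - z.1| ≤ (a : ℤ)) ∧ (|x.2 / (q : ℤ) - z.2| ≤ (a : ℤ)) := by
    show max |(cidx q x - z).1| |(cidx q x - z).2| ≤ (a : ℤ) ↔ _
    rw [max_le_iff]
    rfl
  rw [this, key, key]
  tauto

lemma cbox_conn {q : ℕ} (hq : 0 < q) {z : Site} {a : ℕ} {x y : Site} (hx : x ∈ cbox q z a)
    (hy : y ∈ cbox q z a) : Linked Adj4 (cbox q z a) x y := by
  have hx' := (mem_cbox hq).1 hx
  have hy' := (mem_cbox hq).1 hy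
  refine prod_conn (A := Set.Ico ((q : ℤ) * (z.1 - a)) (q * (z.1 + a + 1)))
    (B := Set.Ico ((q : ℤ) * (z.2 - a)) (q * (z.2 + a + 1))) Set.ordConnected_Ico
    Set.ordConnected_Ico ?_ ⟨hx'.1, hx'.2.1⟩ ⟨hx'.2.2.1, hx'.2.2.2⟩ ⟨hy'.1, hy'.2.1⟩
    ⟨hy'.2.2.1, hy'.2.2.2⟩
  intro s hs t ht
  exact (mem_cbox hq).2 ⟨hs.1, hs.2, ht.1, ht.2⟩

/-- the complement of a box is 4-connected -/
lemma compl_conn {X : Set Site} {a b c d : ℤ}
    (hX : ∀ x : Site, (x.1 < a ∨ b ≤ x.1 ∨ x.2 < c ∨ d ≤ x.2) → x ∈ X)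
    {x y : Site} (hx : x.1 < a ∨ b ≤ x.1 ∨ x.2 < c ∨ d ≤ x.2)
    (hy : y.1 < a ∨ b ≤ y.1 ∨ y.2 < c ∨ d ≤ y.2) : Linked Adj4 X x y := by
  -- every site is linked to the far corner `(min.., ..)`
  have hL : ∀ u v : Site, u.1 < a → v.1 < a → Linked Adj4 X u v := fun u v hu hv =>
    prod_conn (A := Set.Iio a) (B := Set.univ) Set.ordConnected_Iio Set.ordConnected_univ
      (fun s hs t _ => hX _ (Or.inl hs)) hu trivial hv trivial
  have hR : ∀ u v : Site, b ≤ u.1 → b ≤ v.1 → Linked Adj4 X u v := fun u v hu hv =>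
    prod_conn (A := Set.Ici b) (B := Set.univ) Set.ordConnected_Ici Set.ordConnected_univ
      (fun s hs t _ => hX _ (Or.inr (Or.inl hs))) hu trivial hv trivial
  have hB : ∀ u v : Site, u.2 < c → v.2 < c → Linked Adj4 X u v := fun u v hu hv =>
    prod_conn (A := Set.univ) (B := Set.Iio c) Set.ordConnected_univ Set.ordConnected_Iio
      (fun s _ t ht => hX _ (Or.inr (Or.inr (Or.inl ht)))) trivial hu trivial hv
  have hT : ∀ u v : Site, d ≤ u.2 → d ≤ v.2 → Linked Adj4 X u v := fun u v hu hv =>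
    prod_conn (A := Set.univ) (B := Set.Ici d) Set.ordConnected_univ Set.ordConnected_Ici
      (fun s _ t ht => hX _ (Or.inr (Or.inr (Or.inr ht)))) trivial hu trivial hv
  -- link everything to the corner `(a-1, c-1)`
  have key : ∀ u : Site, (u.1 < a ∨ b ≤ u.1 ∨ u.2 < c ∨ d ≤ u.2) → Linked Adj4 X u (a - 1, c - 1) := by
    rintro u (h | h | h | h)
    · exact hL _ _ h (by simp)
    · exact trans' (hR u (b, c - 1) h le_rfl) (hB _ _ (by simp) (by simp))
    · exact hB _ _ h (by simp)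
    · exact trans' (hT u (a - 1, d) h le_rfl) (hL _ _ (by simp) (by simp))
  exact trans' (key x hx) (symm' (fun _ _ => a4symm) (key y hy))

lemma cbox_compl_conn {q : ℕ} (hq : 0 < q) {z : Site} {b : ℕ} {x y : Site} (hx : x ∉ cbox q z b)
    (hy : y ∉ cbox q z b) : Linked Adj4 (cbox q z b)ᶜ x y := by
  have key : ∀ u : Site, u ∉ cbox q z b ↔ (u.1 < (q : ℤ) * (z.1 - b) ∨ q * (z.1 + b + 1) ≤ u.1 ∨
      u.2 < (q : ℤ) * (z.2 - b) ∨ q * (z.2 + b + 1) ≤ u.2) := by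
    intro u
    rw [mem_cbox hq]
    constructor
    · intro h
      by_contra hc
      push Not at hc
      exact h ⟨hc.1, hc.2.1, hc.2.2.1, hc.2.2.2⟩
    · rintro h ⟨h1, h2, h3, h4⟩
      omega
  exact compl_conn (fun u hu => (key u).2 hu) ((key x).1 hx) ((key y).1 hy)

lemma cbox_mono {q : ℕ} {z : Site} {a b : ℕ} (h : a ≤ b) : cbox q z a ⊆ cbox q z b := by
  intro x hx
  show nrm (cidx q x - z) ≤ (b : ℤ)
  have : nrm (cidx q x - z) ≤ (a : ℤ) := hx
  have h' : (a : ℤ) ≤ b := by exact_mod_cast h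
  linarith

lemma exists_not_mem_cbox {q : ℕ} (hq : 0 < q) (z : Site) (b : ℕ) : ∃ w : Site, w ∉ cbox q z b := by
  refine ⟨(q * (z.1 + b + 1), 0), ?_⟩
  rw [mem_cbox hq]
  rintro ⟨-, h, -⟩
  exact lt_irrefl _ h

lemma cbox_nonempty {q : ℕ} (hq : 0 < q) (z : Site) (a : ℕ) : ∃ w : Site, w ∈ cbox q z a := by
  have hq' : (0 : ℤ) < q := by exact_mod_cast hq
  refine ⟨(q * z.1, q * z.2), ?_⟩
  rw [mem_cbox hq]
  refine ⟨?_, ?_, ?_, ?_⟩ <;> nlinarith [Int.natCast_nonneg a]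

section KS

variable {ρ : ℝ} {q : ℕ} {S : Set Site} {z : Site} {a b : ℕ}

lemma subset_KS : cbox q z a ⊆ KS ρ q S z a b := fun _ h => Or.inl h

lemma KS_linked_cbox {x : Site} (hx : x ∈ KS ρ q S z a b) :
    ∃ y ∈ cbox q z a, Linked Adj8 (cbox q z a ∪ ((vacSites ρ S)ᶜ ∩ cbox q z b)) y x := by
  rcases hx with h | h
  · exact ⟨x, h, rfl' (Or.inl h)⟩
  · exact h

lemma KS_subset (hab : a ≤ b) : KS ρ q S z a b ⊆ cbox q z b := by
  intro x hx
  obtain ⟨y, -, h⟩ := KS_linked_cbox hx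
  rcases right_mem h with h' | h'
  · exact cbox_mono hab h'
  · exact h'.2

/-- a site 8-adjacent to `KS` lies in `cbox z b` -/
lemma adj_KS (hU : UU ρ q S z a b) {x y : Site} (hy : y ∈ KS ρ q S z a b) (hxy : Adj8 y x) :
    x ∈ cbox q z b := by
  by_contra hx
  apply hU
  obtain ⟨w, hw, h⟩ := KS_linked_cbox hy
  refine ⟨w, hw, x, hx, ?_⟩
  refine tail' (mono' ?_ h) (Or.inr hx) hxy
  rintro u (hu | hu)
  · exact Or.inl (Or.inr hu)
  · exact Or.inl (Or.inl hu.1)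

/-- an occupied site of `cbox z b` adjacent to `KS` is in `KS` -/
lemma mem_KS_of_adj {x y : Site} (hy : y ∈ KS ρ q S z a b) (hxy : Adj8 y x)
    (hx : x ∈ cbox q z b) (hxv : x ∉ vacSites ρ S) : x ∈ KS ρ q S z a b := by
  obtain ⟨w, hw, h⟩ := KS_linked_cbox hy
  exact Or.inr ⟨w, hw, tail' h (Or.inr ⟨hxv, hx⟩) hxy⟩

/-- the path from `cbox z a` stays in `KS` -/
lemma KS_inner {x y : Site} (hy : y ∈ cbox q z a)
    (h : Linked Adj8 (cbox q z a ∪ ((vacSites ρ S)ᶜ ∩ cbox q z b)) y x) :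
    Linked Adj8 (KS ρ q S z a b) y x := by
  obtain ⟨h0, h⟩ := h
  have : Linked Adj8 (cbox q z a ∪ ((vacSites ρ S)ᶜ ∩ cbox q z b)) y x ∧
      Linked Adj8 (KS ρ q S z a b) y x := by
    induction h with
    | refl => exact ⟨rfl' h0, rfl' (Or.inl hy)⟩
    | tail hab hbc ih =>
      have h1 := tail' ih.1 hbc.2 hbc.1
      exact ⟨h1, tail' ih.2 (Or.inr ⟨y, hy, h1⟩) hbc.1⟩
  exact this.2

lemma KS_conn (hq : 0 < q) {x y : Site} (hx : x ∈ KS ρ q S z a b) (hy : y ∈ KS ρ q S z a b) :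
    Linked Adj8 (KS ρ q S z a b) x y := by
  obtain ⟨u, hu, hux⟩ := KS_linked_cbox hx
  obtain ⟨v, hv, hvy⟩ := KS_linked_cbox hy
  have h1 := symm' (fun _ _ => a8symm) (KS_inner hu hux)
  have h2 := KS_inner hv hvy
  have h3 : Linked Adj8 (KS ρ q S z a b) u v :=
    mono_adj (fun _ _ => a48) (mono' subset_KS (cbox_conn hq hu hv))
  exact trans' h1 (trans' h3 h2)

lemma GamS_subset (hU : UU ρ q S z a b) :
    GamS ρ q S z a b ⊆ vacSites ρ S ∩ (cbox q z b \ cbox q z a) := by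
  rintro x ⟨hx, ⟨y, hy, hxy⟩, -⟩
  have hxb := adj_KS hU hy (a8symm hxy)
  refine ⟨?_, hxb, fun h => hx (Or.inl h)⟩
  by_contra hv
  exact hx (mem_KS_of_adj hy (a8symm hxy) hxb hv)

lemma GamS_conn (hq : 0 < q) (hab : a ≤ b) (h4 : Stmt_EB4) {x y : Site}
    (hx : x ∈ GamS ρ q S z a b) (hy : y ∈ GamS ρ q S z a b) :
    Linked Adj4 (GamS ρ q S z a b) x y := by
  obtain ⟨x0, hx0⟩ := exists_not_mem_cbox hq z b
  have hsub : (cbox q z b)ᶜ ⊆ (KS ρ q S z a b)ᶜ := Set.compl_subset_compl.2 (KS_subset hab)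
  have key : GamS ρ q S z a b =
      {t | Linked Adj4 (KS ρ q S z a b)ᶜ x0 t ∧ ∃ w ∈ KS ρ q S z a b, Adj8 t w} := by
    ext t
    constructor
    · rintro ⟨-, h1, w, hw, h2⟩
      exact ⟨trans' (mono' hsub (cbox_compl_conn hq hx0 hw)) h2, h1⟩
    · rintro ⟨h1, h2⟩
      exact ⟨right_mem h1, h2, x0, hx0, h1⟩
  have := h4 (KS ρ q S z a b) (fun x hx y hy => KS_conn hq hx hy) x0 x y
    (by rw [key] at hx; exact hx) (by rw [key] at hy; exact hy)
  rw [← key] at this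
  exact this

lemma GamS_met (hab : a ≤ b) {P : Set Site} {x y : Site} (hx : x ∈ cbox q z a)
    (hy : y ∉ cbox q z b) (h : Linked Adj4 P x y) :
    ∃ g ∈ GamS ρ q S z a b, Linked Adj4 P x g := by
  obtain ⟨hxP, h⟩ := h
  have hyK : y ∉ KS ρ q S z a b := fun h => hy (KS_subset hab h)
  have key : (x ∈ P → ∃ g ∈ GamS ρ q S z a b, Linked Adj4 P x g) ∨
      (x ∉ KS ρ q S z a b ∧ ∃ w ∈ (cbox q z b)ᶜ, Linked Adj4 (KS ρ q S z a b)ᶜ w x) := by
    clear hx hxP
    induction h using Relation.ReflTransGen.head_induction_on with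
    | refl => exact Or.inr ⟨hyK, y, hy, rfl' hyK⟩
    | @head u v huv _ ih =>
      by_cases hu : u ∈ KS ρ q S z a b
      · left
        intro huP
        rcases ih with ih | ⟨hv, w, hw, hwv⟩
        · obtain ⟨g, hg, h'⟩ := ih huv.2
          exact ⟨g, hg, trans' (single huP huv.2 huv.1) h'⟩
        · exact ⟨v, ⟨hv, ⟨u, hu, a48 (a4symm huv.1)⟩, w, hw, hwv⟩, single huP huv.2 huv.1⟩
      · rcases ih with ih | ⟨hv, w, hw, hwv⟩
        · left
          intro huP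
          obtain ⟨g, hg, h'⟩ := ih huv.2
          exact ⟨g, hg, trans' (single huP huv.2 huv.1) h'⟩
        · exact Or.inr ⟨hu, w, hw, tail' hwv hu (a4symm huv.1)⟩
  rcases key with h | ⟨h, -⟩
  · exact h hxP
  · exact absurd (Or.inl hx) h

/-- the piece before the first exit of `cbox z b` meets `GamS` -/
lemma GamS_first (hU : UU ρ q S z a b) (hab : a ≤ b) {P : Set Site} {x y : Site}
    (hx : x ∈ cbox q z a) (hy : y ∉ cbox q z b) (h : Linked Adj4 P x y) :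
    ∃ g ∈ GamS ρ q S z a b, Linked Adj4 (P ∩ cbox q z b) x g := by
  set C : Set Site := {t | Linked Adj4 (P ∩ cbox q z b) x t} with hC
  have hx0P : x ∈ P ∩ cbox q z b := ⟨h.1, cbox_mono hab hx⟩
  have hexit : ∃ u ∈ C, ∃ v, v ∉ cbox q z b ∧ Adj4 u v := by
    by_contra hcon
    push Not at hcon
    obtain ⟨hx0', hlink'⟩ := h
    have : y ∈ C := by
      clear hy
      induction hlink' with
      | refl => exact rfl' hx0P
      | @tail u v _ huv ih =>
        by_cases hvb : v ∈ cbox q z b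
        · exact tail' ih ⟨huv.2, hvb⟩ huv.1
        · exact absurd huv.1 (hcon u ih v hvb)
    exact hy (right_mem this).2
  obtain ⟨u, hu, v, hv', huv⟩ := hexit
  have hCin : ∀ t ∈ C, Linked Adj4 C x t := by
    rintro t ⟨h0, ht⟩
    have : t ∈ C ∧ Linked Adj4 C x t := by
      induction ht with
      | refl => exact ⟨rfl' h0, rfl' (rfl' h0)⟩
      | @tail a c _ hac ih =>
        have hc : c ∈ C := tail' ih.1 hac.2 hac.1
        exact ⟨hc, tail' ih.2 hc hac.1⟩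
    exact this.2
  have hL : Linked Adj4 (C ∪ {v}) x v :=
    tail' (mono' Set.subset_union_left (hCin u hu)) (Or.inr rfl) huv
  obtain ⟨g, hg, hxg⟩ := GamS_met (ρ := ρ) (S := S) hab hx hv' hL
  refine ⟨g, hg, ?_⟩
  rcases right_mem hxg with h | h
  · exact h
  · exfalso
    have hgv : g = v := h
    apply hv'
    rw [← hgv]
    exact (GamS_subset hU hg).2.1

/-- the piece after the last visit to `KS` starts in `GamS` -/
lemma GamS_last (hab : a ≤ b) {P : Set Site} {x y : Site}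
    (hx : x ∈ cbox q z a) (hy : y ∉ cbox q z b) (h : Linked Adj4 P x y) :
    ∃ g ∈ GamS ρ q S z a b, Linked Adj4 (P \ cbox q z a) g y := by
  have hyP : y ∈ P := right_mem h
  obtain ⟨hxP, h⟩ := h
  have hyK : y ∉ KS ρ q S z a b := fun h => hy (KS_subset hab h)
  have key : (∃ g ∈ GamS ρ q S z a b, Linked Adj4 (P \ cbox q z a) g y) ∨
      (x ∉ KS ρ q S z a b ∧ (x ∈ P → Linked Adj4 (P \ KS ρ q S z a b) x y)) := by
    clear hx hxP
    induction h using Relation.ReflTransGen.head_induction_on with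
    | refl => exact Or.inr ⟨hyK, fun _ => rfl' ⟨hyP, hyK⟩⟩
    | @head u v huv _ ih =>
      rcases ih with ih | ⟨hv, ih⟩
      · exact Or.inl ih
      · have hvy := ih huv.2
        by_cases hu : u ∈ KS ρ q S z a b
        · left
          refine ⟨v, ⟨hv, ⟨u, hu, a48 (a4symm huv.1)⟩, y, hy, ?_⟩, ?_⟩
          · exact symm' (fun _ _ => a4symm) (mono' (fun t ht => ht.2) hvy)
          · exact mono' (fun t ht => ⟨ht.1, fun h => ht.2 (Or.inl h)⟩) hvy
        · right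
          exact ⟨hu, fun huP => trans' (single ⟨huP, hu⟩ hvy.1 huv.1) hvy⟩
  rcases key with h | ⟨h, -⟩
  · exact h
  · exact absurd (Or.inl hx) h

end KS

end MPdd5692.CIRC

namespace MPdd5692

theorem stmt_CIRC (h1 : Stmt_EB4) : Stmt_CIRC := by
  intro ρ q S z a b hq hab hU
  refine ⟨CIRC.GamS_subset hU, fun x hx y hy => CIRC.GamS_conn hq hab.le h1 hx hy, ?_⟩
  intro P x y hx hy h
  exact ⟨CIRC.GamS_first hU hab.le hx hy h, CIRC.GamS_last hab.le hx hy h⟩

end MPdd5692
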