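import Mathlib
import Pool.Agent.Work.MP_dd5692_pr.InterfaceE
import Pool.Agent.Work.MP_dd5692_pr.CIRC

/-!
# MP_dd5692_pr: helper13's small API for HOP, LOC: sup norm, s-cells, displacement of a particle
-/

open MeasureTheory ProbabilityTheory Set
open scoped ENNReal NNReal BigOperators

namespace MPdd5692.N13

open MPdd5692

/-! ### the sup norm -/

lemma nrm_le {x : Site} {a : ℤ} : nrm x ≤ a ↔ |x.1| ≤ a ∧ |x.2| ≤ a := by
  unfold nrm; exact max_le_iff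

lemma nrm_add_le (x y : Site) : nrm (x + y) ≤ nrm x + nrm y := by
  rw [nrm_le]
  have h1 : |x.1| ≤ nrm x := le_max_left _ _
  have h2 : |x.2| ≤ nrm x := le_max_right _ _
  have h3 : |y.1| ≤ nrm y := le_max_left _ _
  have h4 : |y.2| ≤ nrm y := le_max_right _ _
  constructor
  · exact (abs_add_le x.1 y.1).trans (add_le_add h1 h3)
  · exact (abs_add_le x.2 y.2).trans (add_le_add h2 h4)

lemma nrm_tri (x y z : Site) : nrm (x - z) ≤ nrm (x - y) + nrm (y - z) := by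
  have := nrm_add_le (x - y) (y - z)
  rwa [sub_add_sub_cancel] at this

lemma nrm_symm (x y : Site) : nrm (x - y) = nrm (y - x) := by
  unfold nrm
  simp only [Prod.fst_sub, Prod.snd_sub]
  rw [abs_sub_comm, abs_sub_comm x.2]

lemma nrm_nonneg (x : Site) : 0 ≤ nrm x := (abs_nonneg _).trans (le_max_left _ _)

@[simp] lemma nrm_zero : nrm (0 : Site) = 0 := by simp [nrm]

/-! ### s-cells -/

lemma ediv_near {q : ℤ} (hq : 0 < q) {s t : ℤ} (h : |s - t| < q) : |s / q - t / q| ≤ 1 := by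
  have h1 := Int.ediv_mul_le s hq.ne'
  have h2 := Int.lt_ediv_add_one_mul_self s hq
  have h3 := Int.ediv_mul_le t hq.ne'
  have h4 := Int.lt_ediv_add_one_mul_self t hq
  rw [abs_lt] at h
  rw [abs_le]
  constructor
  · by_contra hc
    push Not at hc
    have : (s / q + 1 + 1) * q ≤ (t / q) * q := by
      apply mul_le_mul_of_nonneg_right _ hq.le
      omega
    nlinarith
  · by_contra hc
    push Not at hc
    have : (t / q + 1 + 1) * q ≤ (s / q) * q := by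
      apply mul_le_mul_of_nonneg_right _ hq.le
      omega
    nlinarith

lemma offs_abs {ρ : ℝ} (hρ : 0 ≤ ρ) {v : Site} (h : v ∈ offs ρ) :
    (|(v.1 : ℝ)| ≤ ρ + 1 / 2) ∧ |(v.2 : ℝ)| ≤ ρ + 1 / 2 := by
  have h' : offd v.1 ^ 2 + offd v.2 ^ 2 ≤ ρ ^ 2 := h
  have h1 : offd v.1 ≤ ρ := by
    apply le_of_sq_le_sq _ hρ
    nlinarith [sq_nonneg (offd v.2)]
  have h2 : offd v.2 ≤ ρ := by
    apply le_of_sq_le_sq _ hρ
    nlinarith [sq_nonneg (offd v.1)]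
  have h3 : |(v.1 : ℝ)| - 1 / 2 ≤ offd v.1 := le_max_left _ _
  have h4 : |(v.2 : ℝ)| - 1 / 2 ≤ offd v.2 := le_max_left _ _
  constructor <;> linarith

lemma near {q : ℕ} {ρ : ℝ} (hρ : 0 ≤ ρ) (hq : 20 * (ρ + 2) ≤ q) {v x : Site}
    (h : v - x ∈ offs ρ) : nrm (cidx q v - cidx q x) ≤ 1 := by
  obtain ⟨h1, h2⟩ := offs_abs hρ h
  have hq0 : (0 : ℤ) < q := by
    have : (0 : ℝ) < q := by linarith
    exact_mod_cast this
  have e1 : |v.1 - x.1| < (q : ℤ) := by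
    have : |((v.1 : ℝ) - x.1)| < q := by
      have h1' : |(((v - x).1 : ℤ) : ℝ)| ≤ ρ + 1 / 2 := h1
      rw [Prod.fst_sub] at h1'
      push_cast at h1'
      linarith
    exact_mod_cast this
  have e2 : |v.2 - x.2| < (q : ℤ) := by
    have : |((v.2 : ℝ) - x.2)| < q := by
      have h1' : |(((v - x).2 : ℤ) : ℝ)| ≤ ρ + 1 / 2 := h2
      rw [Prod.snd_sub] at h1'
      push_cast at h1'
      linarith
    exact_mod_cast this
  rw [nrm_le]
  exact ⟨ediv_near hq0 e1, ediv_near hq0 e2⟩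

variable {q H : ℕ}

lemma cidx_site (hq : 0 < q) (θ : FMark q H) (k : Fin (H + 1)) :
    cidx q (FMark.site θ k) = θ.1.c k := by
  have hq' : (0 : ℤ) < q := by exact_mod_cast hq
  have key : ∀ (c : ℤ) (l : Fin q), ((q : ℤ) * c + ((l : ℕ) : ℤ)) / (q : ℤ) = c := by
    intro c l
    rw [add_comm, Int.add_mul_ediv_left _ _ hq'.ne']
    have : (((l : ℕ) : ℤ)) / (q : ℤ) = 0 := by
      apply Int.ediv_eq_zero_of_lt (by positivity)
      exact_mod_cast l.2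
    rw [this, zero_add]
  unfold cidx FMark.site
  exact Prod.ext (key _ _) (key _ _)

/-! ### displacement of a particle -/

lemma D_ge (ξ : CMark q H) (k : Fin H) :
    nrm (ξ.c k.succ - ξ.c k.castSucc) + 12 ≤ ((ξ.D k : ℕ) : ℤ) := by
  unfold CMark.D
  push_cast
  have := nrm_nonneg (ξ.c k.succ - ξ.c k.castSucc)
  have h2 : (0 : ℤ) ≤ (ξ.b k : ℤ) := by positivity
  rw [Int.toNat_of_nonneg this]
  linarith

lemma tot_mono (ξ : CMark q H) {k1 k2 l1 l2 : ℕ} (h1 : l1 ≤ k1) (h2 : k2 ≤ l2) :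
    ξ.tot k1 k2 ≤ ξ.tot l1 l2 := by
  unfold CMark.tot
  apply Finset.sum_le_sum
  intro k _
  split_ifs with h h'
  · exact le_rfl
  · exact absurd ⟨h1.trans h.1, h.2.trans_le h2⟩ h'
  · exact Nat.zero_le _
  · exact le_rfl

lemma D_le_tot (ξ : CMark q H) {k1 k2 : ℕ} (k : Fin H) (h1 : k1 ≤ (k : ℕ)) (h2 : (k : ℕ) < k2) :
    ξ.D k ≤ ξ.tot k1 k2 := by
  unfold CMark.tot
  have := Finset.single_le_sum (f := fun k : Fin H => if k1 ≤ (k : ℕ) ∧ (k : ℕ) < k2 then ξ.D k else 0)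
    (fun i _ => Nat.zero_le _) (Finset.mem_univ k)
  simpa [h1, h2] using this

lemma tot_succ (ξ : CMark q H) {k1 k2 : ℕ} (h1 : k1 ≤ k2) (h2 : k2 < H) :
    ξ.tot k1 k2 + ξ.D ⟨k2, h2⟩ ≤ ξ.tot k1 (k2 + 1) := by
  unfold CMark.tot
  have hz : ∀ k : Fin H, (if k1 ≤ (k : ℕ) ∧ (k : ℕ) < k2 then ξ.D k else 0) +
      (if k = ⟨k2, h2⟩ then ξ.D ⟨k2, h2⟩ else 0) ≤
      (if k1 ≤ (k : ℕ) ∧ (k : ℕ) < k2 + 1 then ξ.D k else 0) := by
    intro k
    by_cases hk : k = ⟨k2, h2⟩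
    · subst hk
      simp [h1]
    · have hk' : (k : ℕ) ≠ k2 := fun h => hk (Fin.ext h)
      rw [if_neg hk, add_zero]
      split_ifs with h h' h'
      · exact le_rfl
      · exact absurd ⟨h.1, by omega⟩ h'
      · exact Nat.zero_le _
      · exact le_rfl
  have := Finset.sum_le_sum (s := Finset.univ) fun k _ => hz k
  rw [Finset.sum_add_distrib, Finset.sum_ite_eq' Finset.univ (⟨k2, h2⟩ : Fin H)] at this
  simpa using this

lemma disp (ξ : CMark q H) {t : ℕ} (ht : t < H + 1) (n : ℕ) (hn : t + n < H + 1) :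
    nrm (ξ.c ⟨t + n, hn⟩ - ξ.c ⟨t, ht⟩) ≤ ((ξ.tot t (t + n) : ℕ) : ℤ) := by
  induction n with
  | zero => simp
  | succ n ih =>
    have h0 := ih (by omega)
    have h1 := tot_succ ξ (k1 := t) (k2 := t + n) (by omega) (by omega)
    have h2 := D_ge ξ ⟨t + n, by omega⟩
    have h3 := nrm_tri (ξ.c ⟨t + (n + 1), hn⟩) (ξ.c ⟨t + n, by omega⟩) (ξ.c ⟨t, ht⟩)
    have h2' : nrm (ξ.c ⟨t + (n + 1), hn⟩ - ξ.c ⟨t + n, by omega⟩) + 12 ≤
        ((ξ.D ⟨t + n, by omega⟩ : ℕ) : ℤ) := h2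
    have h1' : ((ξ.tot t (t + n) : ℕ) : ℤ) + ((ξ.D ⟨t + n, by omega⟩ : ℕ) : ℤ) ≤
        ((ξ.tot t (t + (n + 1)) : ℕ) : ℤ) := by exact_mod_cast h1
    linarith

/-- displacement between two times -/
lemma disp' (ξ : CMark q H) {t t' : ℕ} (ht : t < H + 1) (ht' : t' < H + 1) (h : t ≤ t') :
    nrm (ξ.c ⟨t', ht'⟩ - ξ.c ⟨t, ht⟩) ≤ ((ξ.tot t t' : ℕ) : ℤ) := by
  obtain ⟨n, rfl⟩ := Nat.exists_eq_add_of_le h
  exact disp ξ ht n ht'

/-! ### vacancy -/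

/-- if all particles are in s-cells at distance `≥ 2` from the s-cell of `x` at time `t` then `x` is
vacant -/
lemma vac_of_far [NeZero q] {ρ : ℝ} (hρ : 0 ≤ ρ) (hq : 20 * (ρ + 2) ≤ q) {ω : Conf q H} {t : ℕ}
    {x : Site} (h : ∀ θ : FMark q H, ω θ ≠ 0 → ∀ ht : t < H + 1,
      1 < nrm (θ.1.c ⟨t, ht⟩ - cidx q x)) : x ∈ vacSites ρ (et ω t) := by
  rintro v ⟨θ, hθ, ht, rfl⟩ hv
  have h1 := near hρ hq hv
  rw [cidx_site (Nat.pos_of_ne_zero (NeZero.ne q))] at h1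
  exact absurd (h θ hθ ht) (not_lt.2 h1)

/-- the s-cell of a hole is vacant at all times of the window -/
lemma hole_vac [NeZero q] {ρ : ℝ} (hρ : 0 ≤ ρ) (hq : 20 * (ρ + 2) ≤ q) {ω : Conf q H} {m m' t : ℕ}
    {b x : Site} (hm : m < m') (hm' : m' ≤ H) (hole : HoleC ω m m' b) (h1 : m ≤ t) (h2 : t ≤ m')
    (hx : x ∈ cbox q b 0) : x ∈ vacSites ρ (et ω t) := by
  have hxb : cidx q x = b := by
    have : nrm (cidx q x - b) ≤ ((0 : ℕ) : ℤ) := hx
    rw [nrm_le] at this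
    obtain ⟨h1, h2⟩ := this
    have e1 : (cidx q x).1 - b.1 = 0 := by
      have := abs_nonneg (cidx q x - b).1
      have h3 : |(cidx q x - b).1| = 0 := le_antisymm (by simpa using h1) this
      exact abs_eq_zero.1 h3
    have e2 : (cidx q x).2 - b.2 = 0 := by
      have := abs_nonneg (cidx q x - b).2
      have h3 : |(cidx q x - b).2| = 0 := le_antisymm (by simpa using h2) this
      exact abs_eq_zero.1 h3
    exact Prod.ext (by linarith) (by linarith)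
  apply vac_of_far hρ hq
  intro θ hθ ht
  rw [hxb]
  rcases Nat.lt_or_ge t m' with h | h
  · have := hole ⟨t, by omega⟩ h1 h θ hθ
    have h3 := D_ge θ.1 ⟨t, by omega⟩
    have h4 := nrm_nonneg (θ.1.c (Fin.succ ⟨t, by omega⟩) - θ.1.c (Fin.castSucc ⟨t, by omega⟩))
    have h5 : ((θ.1.D ⟨t, by omega⟩ : ℕ) : ℤ) < nrm (θ.1.c ⟨t, ht⟩ - b) := this
    linarith
  · have htt : t = m' := le_antisymm h2 h
    subst htt
    obtain ⟨s, rfl⟩ : ∃ s, t = s + 1 := ⟨t - 1, by omega⟩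
    have := hole ⟨s, by omega⟩ (by simp only; omega) (by simp only; omega) θ hθ
    have h3 := D_ge θ.1 ⟨s, by omega⟩
    have h5 : ((θ.1.D ⟨s, by omega⟩ : ℕ) : ℤ) < nrm (θ.1.c ⟨s, by omega⟩ - b) := this
    have h6 : nrm (θ.1.c ⟨s + 1, ht⟩ - θ.1.c ⟨s, by omega⟩) + 12 ≤
        ((θ.1.D ⟨s, by omega⟩ : ℕ) : ℤ) := h3
    have h7 := nrm_tri (θ.1.c ⟨s, by omega⟩) (θ.1.c ⟨s + 1, ht⟩) b
    rw [nrm_symm (θ.1.c ⟨s, by omega⟩) (θ.1.c ⟨s + 1, ht⟩)] at h7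
    linarith

end MPdd5692.N13
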