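import Mathlib
import Pool.Agent.Work.MP_dd5692_pr.InterfaceB
import Pool.Agent.Work.MP_dd5692_pr.Basic80
import Pool.Agent.Work.MP_dd5692_pr.N13

/-!
# MP_dd5692_pr: blocks BLOB8, BLOB4 (helper88)
-/

open Set

namespace MPdd5692

namespace B35

namespace Blob88

/-- lower corner of the inner box, relative to the cell -/
def lo (q : ℕ) : ℤ := 2 * (q : ℤ) / 5 + 1

/-- the inner box -/
def inB (q : ℕ) (c : Site) : Set Site :=
  {x | lo q ≤ x.1 - q * c.1 ∧ x.1 - q * c.1 ≤ q - lo q ∧
    lo q ≤ x.2 - q * c.2 ∧ x.2 - q * c.2 ≤ q - lo q}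

/-- the outer box -/
def ouB (q : ℕ) (c : Site) : Set Site :=
  {x | lo q - 1 ≤ x.1 - q * c.1 ∧ x.1 - q * c.1 ≤ q - lo q + 1 ∧
    lo q - 1 ≤ x.2 - q * c.2 ∧ x.2 - q * c.2 ≤ q - lo q + 1}

theorem off_int {ρ : ℝ} {q : ℕ} (hρ : 0 ≤ ρ) (hq : 20 * (ρ + 2) ≤ q) {v x : Site}
    (h : v - x ∈ offs ρ) : 20 * |v.1 - x.1| ≤ (q : ℤ) - 30 ∧ 20 * |v.2 - x.2| ≤ (q : ℤ) - 30 := by
  obtain ⟨h1, h2⟩ := N13.offs_abs hρ h
  rw [Prod.fst_sub] at h1
  rw [Prod.snd_sub] at h2
  have e1 : (20 * |((v.1 - x.1 : ℤ) : ℝ)|) ≤ (q : ℝ) - 30 := by linarith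
  have e2 : (20 * |((v.2 - x.2 : ℤ) : ℝ)|) ≤ (q : ℝ) - 30 := by linarith
  constructor
  · exact_mod_cast e1
  · exact_mod_cast e2

theorem q_ge {ρ : ℝ} {q : ℕ} (hρ : 0 ≤ ρ) (hq : 20 * (ρ + 2) ≤ q) : 40 ≤ q := by
  have : (40 : ℝ) ≤ q := by linarith
  exact_mod_cast this

/-- cell of a point given by its relative coordinates -/
theorem cidx_eq {q : ℕ} {c x : Site} (h1 : 0 ≤ x.1 - q * c.1) (h2 : x.1 - q * c.1 < q)
    (h3 : 0 ≤ x.2 - q * c.2) (h4 : x.2 - q * c.2 < q) : cidx q x = c := by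
  have hq : (0 : ℤ) < q := by linarith
  have e : ∀ s t : ℤ, 0 ≤ s - q * t → s - q * t < q → s / q = t := by
    intro s t ha hb
    have : s = (s - q * t) + q * t := by ring
    rw [this, Int.add_mul_ediv_left _ _ hq.ne', Int.ediv_eq_zero_of_lt ha hb, zero_add]
  exact Prod.ext (e _ _ h1 h2) (e _ _ h3 h4)

theorem cidx_ouB {q : ℕ} (hq : 40 ≤ q) {c x : Site} (h : x ∈ ouB q c) : cidx q x = c := by
  obtain ⟨h1, h2, h3, h4⟩ := h
  unfold lo at h1 h2 h3 h4
  apply cidx_eq <;> omega

theorem inB_ouB {q : ℕ} {c : Site} : inB q c ⊆ ouB q c := by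
  rintro x ⟨h1, h2, h3, h4⟩
  exact ⟨by omega, by omega, by omega, by omega⟩

/-- the outer box is vacant if the cell is empty -/
theorem ouB_vac {ρ : ℝ} {q : ℕ} (hρ : 0 ≤ ρ) (hq : 20 * (ρ + 2) ≤ q) {c : Site} {S : Set Site}
    (hS : ∀ v ∈ S, cidx q v ≠ c) : ouB q c ⊆ vacSites ρ S := by
  intro x hx v hv hvx
  obtain ⟨h1, h2, h3, h4⟩ := hx
  obtain ⟨e1, e2⟩ := off_int hρ hq hvx
  have hq40 := q_ge hρ hq
  apply hS v hv
  have e1' : |v.1 - x.1| ≤ |v.1 - x.1| := le_rfl
  have a1 := (abs_le.1 e1').1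
  have a2 := (abs_le.1 e1').2
  have e2' : |v.2 - x.2| ≤ |v.2 - x.2| := le_rfl
  have b1 := (abs_le.1 e2').1
  have b2 := (abs_le.1 e2').2
  unfold lo at h1 h2 h3 h4
  apply cidx_eq <;> omega

/-- new occupied sites are in the inner box -/
theorem new_inB {ρ : ℝ} {q : ℕ} (hρ : 0 ≤ ρ) (hq : 20 * (ρ + 2) ≤ q) {c : Site} {S S' : Set Site}
    (hS' : ∀ v ∈ S', v ∈ S ∨ v ∈ blobS q c) {x : Site} (hx : x ∈ vacSites ρ S)
    (hx' : x ∉ vacSites ρ S') : x ∈ inB q c := by
  have hx'' : ∃ v ∈ S', v - x ∈ offs ρ := by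
    by_contra hc
    push Not at hc
    exact hx' hc
  obtain ⟨v, hv, hvx⟩ := hx''
  rcases hS' v hv with h | h
  · exact absurd hvx (hx v h)
  · obtain ⟨hc, hb1, hb2⟩ := h
    obtain ⟨e1, e2⟩ := off_int hρ hq hvx
    have hq40 := q_ge hρ hq
    have a := abs_le.1 (le_refl |v.1 - x.1|)
    have b := abs_le.1 (le_refl |v.2 - x.2|)
    have a' := abs_le.1 (le_refl |2 * (v.1 - q * c.1) - q|)
    have b' := abs_le.1 (le_refl |2 * (v.2 - q * c.2) - q|)
    unfold inB lo
    simp only [mem_ofPred_eq]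
    refine ⟨?_, ?_, ?_, ?_⟩ <;> omega

theorem adj8_ouB {q : ℕ} {c x y : Site} (h : Adj8 x y) (hy : y ∈ inB q c) : x ∈ ouB q c := by
  have h1 := abs_le.1 h.fst
  have h2 := abs_le.1 h.snd
  obtain ⟨y1, y2, y3, y4⟩ := hy
  exact ⟨by omega, by omega, by omega, by omega⟩

/-- the ring -/
def ring88 (q : ℕ) (c : Site) : Set Site := ouB q c \ inB q c

theorem corner {q : ℕ} (hq : 40 ≤ q) {c x : Site} (hx : x ∈ ring88 q c) :
    Linked Adj4 (ring88 q c) (q * c.1 + (lo q - 1), q * c.2 + (lo q - 1)) x := by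
  obtain ⟨⟨x1, x2, x3, x4⟩, hxn⟩ := hx
  have hl : 2 * lo q + 2 ≤ q := by unfold lo; omega
  -- membership in the ring from a coordinate on the border
  have hmem : ∀ s t : ℤ, lo q - 1 ≤ s - q * c.1 → s - q * c.1 ≤ q - lo q + 1 →
      lo q - 1 ≤ t - q * c.2 → t - q * c.2 ≤ q - lo q + 1 →
      (s - q * c.1 = lo q - 1 ∨ s - q * c.1 = q - lo q + 1 ∨ t - q * c.2 = lo q - 1 ∨
        t - q * c.2 = q - lo q + 1) → ((s, t) : Site) ∈ ring88 q c := by
    intro s t h1 h2 h3 h4 h5
    refine ⟨⟨h1, h2, h3, h4⟩, ?_⟩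
    rintro ⟨k1, k2, k3, k4⟩
    simp only at k1 k2 k3 k4
    omega
  obtain ⟨s, t⟩ := x
  simp only at x1 x2 x3 x4
  have hcase : s - q * c.1 = lo q - 1 ∨ s - q * c.1 = q - lo q + 1 ∨ t - q * c.2 = lo q - 1 ∨
        t - q * c.2 = q - lo q + 1 := by
    by_contra hc
    push Not at hc
    obtain ⟨n1, n2, n3, n4⟩ := hc
    exact hxn ⟨by simp only; omega, by simp only; omega, by simp only; omega, by simp only; omega⟩
  rcases hcase with h | h | h | h
  · -- left side
    have hs : s = q * c.1 + (lo q - 1) := by omega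
    subst hs
    exact lnk_vseg (by omega) (fun r h1 h2 => hmem _ _ (by omega) (by omega) (by omega) (by omega)
      (by omega))
  · -- right side: bottom row, then up
    have e1 : Linked Adj4 (ring88 q c) (q * c.1 + (lo q - 1), q * c.2 + (lo q - 1))
        (s, q * c.2 + (lo q - 1)) :=
      lnk_hseg (by omega) (fun r h1 h2 => hmem _ _ (by omega) (by omega) (by omega) (by omega)
        (by omega))
    have e2 : Linked Adj4 (ring88 q c) (s, q * c.2 + (lo q - 1)) (s, t) :=
      lnk_vseg (by omega) (fun r h1 h2 => hmem _ _ (by omega) (by omega) (by omega) (by omega)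
        (by omega))
    exact e1.trans e2
  · have ht : t = q * c.2 + (lo q - 1) := by omega
    subst ht
    exact lnk_hseg (by omega) (fun r h1 h2 => hmem _ _ (by omega) (by omega) (by omega) (by omega)
      (by omega))
  · -- top side: left column, then right
    have e1 : Linked Adj4 (ring88 q c) (q * c.1 + (lo q - 1), q * c.2 + (lo q - 1))
        (q * c.1 + (lo q - 1), t) :=
      lnk_vseg (by omega) (fun r h1 h2 => hmem _ _ (by omega) (by omega) (by omega) (by omega)
        (by omega))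
    have e2 : Linked Adj4 (ring88 q c) (q * c.1 + (lo q - 1), t) (s, t) :=
      lnk_hseg (by omega) (fun r h1 h2 => hmem _ _ (by omega) (by omega) (by omega) (by omega)
        (by omega))
    exact e1.trans e2

theorem vac_anti {ρ : ℝ} {S S' : Set Site} (h : S ⊆ S') : vacSites ρ S' ⊆ vacSites ρ S :=
  fun _ hx v hv => hx v (h hv)

end Blob88

open Blob88

theorem stmt_BLOB8 : Stmt_BLOB8 := by
  intro ρ q z c a b S S' hρ hq hab hS hSS' hS'
  have hq40 := q_ge hρ hq
  unfold UU
  refine not_congr ?_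
  constructor
  · rintro ⟨x, hx, y, hy, h⟩
    refine ⟨x, hx, y, hy, h.mono ?_⟩
    rintro u ((hu | hu) | hu)
    · exact Or.inl (Or.inl fun h => hu (vac_anti hSS' h))
    · exact Or.inl (Or.inr hu)
    · exact Or.inr hu
  · rintro ⟨x, hx, y, hy, h⟩
    refine ⟨x, hx, y, hy, ?_⟩
    set T : Set Site := (vacSites ρ S)ᶜ ∪ cbox q z a ∪ (cbox q z b)ᶜ with hT
    set T' : Set Site := (vacSites ρ S')ᶜ ∪ cbox q z a ∪ (cbox q z b)ᶜ with hT'
    by_cases hc : c ∈ box z a ∨ c ∉ box z b
    · -- the cell belongs to a terminal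
      refine h.mono ?_
      rintro u ((hu | hu) | hu)
      · by_cases hu' : u ∈ vacSites ρ S
        · have h1 := new_inB hρ hq hS' hu' hu
          have h2 := cidx_ouB hq40 (inB_ouB h1)
          rcases hc with hc | hc
          · left; right
            show cidx q u ∈ box z a
            rw [h2]; exact hc
          · right
            show ¬ cidx q u ∈ box z b
            rw [h2]; exact hc
        · exact Or.inl (Or.inl hu')
      · exact Or.inl (Or.inr hu)
      · exact Or.inr hu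
    · push Not at hc
      have hout : ∀ u ∈ ouB q c, u ∉ T := by
        rintro u hu ((h1 | h1) | h1)
        · exact h1 (ouB_vac hρ hq hS hu)
        · have : cidx q u ∈ box z a := h1
          rw [cidx_ouB hq40 hu] at this
          exact hc.1 this
        · have : ¬ cidx q u ∈ box z b := h1
          rw [cidx_ouB hq40 hu] at this
          exact this hc.2
      refine h.ind (P := fun w => Linked Adj8 T x w) (Linked.refl (Or.inl (Or.inr hx))) ?_
      intro u v _ ih huv hv
      refine ih.step huv ?_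
      rcases hv with (hv | hv) | hv
      · by_cases hv' : v ∈ vacSites ρ S
        · exfalso
          have h1 := new_inB hρ hq hS' hv' hv
          exact hout u (adj8_ouB huv h1) ih.right
        · exact Or.inl (Or.inl hv')
      · exact Or.inl (Or.inr hv)
      · exact Or.inr hv

theorem stmt_BLOB4 : Stmt_BLOB4 := by
  intro ρ q z c a b S S' hρ hq hab hS hSS' hS'
  have hq40 := q_ge hρ hq
  unfold Arm
  constructor
  · rintro ⟨x, hx, y, hy, h⟩
    refine ⟨x, hx, y, hy, ?_⟩
    set T : Set Site := vacSites ρ S ∪ cbox q z a ∪ (cbox q z b)ᶜ with hT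
    set T' : Set Site := vacSites ρ S' ∪ cbox q z a ∪ (cbox q z b)ᶜ with hT'
    by_cases hc : c ∈ box z a ∨ c ∉ box z b
    · refine h.mono ?_
      rintro u ((hu | hu) | hu)
      · by_cases hu' : u ∈ vacSites ρ S'
        · exact Or.inl (Or.inl hu')
        · have h1 := new_inB hρ hq hS' hu hu'
          have h2 := cidx_ouB hq40 (inB_ouB h1)
          rcases hc with hc | hc
          · left; right
            show cidx q u ∈ box z a
            rw [h2]; exact hc
          · right
            show ¬ cidx q u ∈ box z b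
            rw [h2]; exact hc
      · exact Or.inl (Or.inr hu)
      · exact Or.inr hu
    · push Not at hc
      have hterm : ∀ u ∈ ouB q c, u ∉ cbox q z a ∧ u ∉ (cbox q z b)ᶜ := by
        intro u hu
        constructor
        · intro h1
          have : cidx q u ∈ box z a := h1
          rw [cidx_ouB hq40 hu] at this
          exact hc.1 this
        · intro h1
          have : ¬ cidx q u ∈ box z b := h1
          rw [cidx_ouB hq40 hu] at this
          exact this hc.2
      have hring : ring88 q c ⊆ T' := by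
        rintro u ⟨h1, h2⟩
        left; left
        by_contra h3
        exact h2 (new_inB hρ hq hS' (ouB_vac hρ hq hS h1) h3)
      have hTT' : ∀ u ∈ T, u ∉ inB q c → u ∈ T' := by
        rintro u ((hu | hu) | hu) hn
        · left; left
          by_contra h3
          exact hn (new_inB hρ hq hS' hu h3)
        · exact Or.inl (Or.inr hu)
        · exact Or.inr hu
      have hlink : ∀ r ∈ ring88 q c, ∀ s ∈ ring88 q c, Linked Adj4 T' r s := fun r hr s hs =>
        ((corner hq40 hr).symm4.trans (corner hq40 hs)).mono hring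
      have key : (y ∉ inB q c → Linked Adj4 T' x y) ∧
          (y ∈ inB q c → ∀ r ∈ ring88 q c, Linked Adj4 T' x r) := by
        have hxn : x ∉ inB q c := fun h1 => (hterm x (inB_ouB h1)).1 hx
        refine h.ind (P := fun w => (w ∉ inB q c → Linked Adj4 T' x w) ∧
          (w ∈ inB q c → ∀ r ∈ ring88 q c, Linked Adj4 T' x r)) ?_ ?_
        · exact ⟨fun _ => Linked.refl (Or.inl (Or.inr hx)), fun h1 => absurd h1 hxn⟩
        · intro u v _ ih huv hv
          by_cases hu : u ∈ inB q c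
          · by_cases hv' : v ∈ inB q c
            · exact ⟨fun h1 => absurd hv' h1, fun _ => ih.2 hu⟩
            · refine ⟨fun _ => ih.2 hu v ⟨adj8_ouB huv.symm.adj8 hu, hv'⟩, fun h1 => absurd h1 hv'⟩
          · have h1 := ih.1 hu
            by_cases hv' : v ∈ inB q c
            · refine ⟨fun h2 => absurd hv' h2, fun _ r hr => ?_⟩
              exact h1.trans (hlink u ⟨adj8_ouB huv.adj8 hv', hu⟩ r hr)
            · exact ⟨fun _ => h1.step huv (hTT' v hv hv'), fun h2 => absurd h2 hv'⟩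
      have hyn : y ∉ inB q c := fun h1 => (hterm y (inB_ouB h1)).2 hy
      exact key.1 hyn
  · rintro ⟨x, hx, y, hy, h⟩
    refine ⟨x, hx, y, hy, h.mono ?_⟩
    rintro u ((hu | hu) | hu)
    · exact Or.inl (Or.inl (vac_anti hSS' hu))
    · exact Or.inl (Or.inr hu)
    · exact Or.inr hu

end B35

end MPdd5692
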