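import Mathlib
import Pool.Agent.Work.MP_dd5692_pr.InterfaceB

/-!
# MP_dd5692_pr: block BLOBC (helper88)
-/

open Set

namespace MPdd5692

namespace B35

theorem stmt_BLOBC : Stmt_BLOBC := by
  intro q c hq
  set m : ℕ := (q + 19) / 20 with hm
  set s : ℕ := (9 * q + 19) / 20 with hs
  have h1 : s + m ≤ q := by omega
  let g : Fin m → Fin q := fun j => ⟨s + j, by have := j.2; omega⟩
  have hg : Function.Injective g := by
    intro i j h
    have : s + (i : ℕ) = s + j := congrArg Fin.val h
    exact Fin.ext (by omega)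
  let f : Fin m × Fin m ↪ Fin q × Fin q := ⟨Prod.map g g, hg.prodMap hg⟩
  refine ⟨Finset.univ.map f, ?_, ?_⟩
  · rw [Finset.card_map, Finset.card_univ, Fintype.card_prod, Fintype.card_fin]
    have h2 : q ≤ 20 * m := by omega
    have h3 : q ^ 2 ≤ 400 * (m * m) := by nlinarith
    exact_mod_cast h3
  · intro u hu
    obtain ⟨v, _, rfl⟩ := Finset.mem_map.1 hu
    have hq0 : (0 : ℤ) < q := by omega
    have key : ∀ (i : Fin m) (x : ℤ), ((q : ℤ) * x + (((g i : Fin q) : ℕ) : ℤ)) / q = x ∧
        20 * |2 * ((q : ℤ) * x + (((g i : Fin q) : ℕ) : ℤ) - q * x) - q| ≤ 2 * q := by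
      intro i x
      have hi := i.2
      have hgi : ((g i : Fin q) : ℕ) = s + i := rfl
      rw [hgi]
      push_cast
      constructor
      · rw [Int.add_comm, Int.add_mul_ediv_left _ _ hq0.ne',
          Int.ediv_eq_zero_of_lt (by positivity) (by omega), zero_add]
      · rw [show 2 * ((q : ℤ) * x + ((s : ℤ) + (i : ℕ)) - q * x) - q =
          2 * ((s : ℤ) + (i : ℕ)) - q by ring]
        have : |2 * ((s : ℤ) + (i : ℕ)) - q| * 20 ≤ 2 * q := by
          rw [← abs_of_pos (show (0 : ℤ) < 20 by norm_num), ← abs_mul, abs_le]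
          constructor <;> omega
        linarith
    obtain ⟨a1, a2⟩ := key v.1 c.1
    obtain ⟨b1, b2⟩ := key v.2 c.2
    exact ⟨Prod.ext a1 b1, a2, b2⟩

end B35

end MPdd5692
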