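import Mathlib
import Pool.Agent.Work.MP_dd5692_pr.InterfaceB

/-!
# MP_dd5692_pr: InterfaceF (helper14): assembly
-/

open MeasureTheory ProbabilityTheory Set
open scoped ENNReal NNReal BigOperators

namespace MPdd5692

/-- A (helper80): the static part at an intensity where both easy crossing bounds hold. -/
def Stmt_A : Prop :=
  ∀ (r : ℝ) (l : ℝ≥0), 0 < r → 0 < l → EV r l → EO r l →
    ∃ (c e : ℝ), 0 < c ∧ 0 < e ∧ e < 1 ∧ ∃ s0 : ℕ, ∀ s ≥ s0, ∀ nmax : ℕ, ∃ j0 : ℕ, ∀ j ≥ j0,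
      StaticOK c e nmax (range r j) (s * 2 ^ j) l j

/-- the tail bound for the laws of the bridges in `Core` -/
def TailOK (β : ℝ → Measure ℕ) : Prop :=
  (∀ T, 0 < T → IsProbabilityMeasure (β T)) ∧
    (∀ T, 0 < T → ∀ B : ℕ, 1 ≤ B →
      β T {b | B ≤ b} ≤ ENNReal.ofReal (8 * Real.exp (-((B : ℝ) - 1) ^ 2 / (16 * T))))

/-- MARKREF: refinement of the marks by the flags: a `MarkLaw` (with constants independent of the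
mesh `j` and of the horizon `H`) whose projection to the marks of `Iface98` is `markMass`; `T = 1`.
`m(ξ) = (q²)^{-#hidden} * ∫ over x_k in (mesh cell q c_k + r_k if k revealed; s-cell c_k if hidden)
∏ (g_k ? m(c_k,c_{k+1}) : heat - m(c_k,c_{k+1})) dx * ∏ β(b_k)`, `m(c,c') = inf heat` over the two
s-cells. -/
def Stmt_MARKREF : Prop :=
  ∀ (β : ℝ → Measure ℕ), TailOK β → ∀ s : ℕ, 1 ≤ s → ∃ δ Λ : ℝ, 0 < δ ∧ 1 ≤ Λ ∧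
    ∀ (j H : ℕ), ∃ L : MarkLaw (s * 2 ^ j) H ((1 / 4) ^ j) δ Λ,
      ∀ (v : Fin (H + 1) → Site) (b : Fin H → ℕ),
        HasSum (fun θ : {θ : FMark (s * 2 ^ j) H // FMark.site θ = v ∧ θ.1.b = b} => (L.fine θ.1 : ℝ))
          (markMass 1 (β 1) j H (v, b)).toReal

variable {c e I δ Λ : ℝ} {nmax : ℕ}

/- ARMDEC, DEC (from Theorem B'): see `InterfaceB.lean` (helper35). -/

/-- BLOCK: choice of the constants: the block event has probability close to one. -/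
def Stmt_BLOCK : Prop :=
  ∀ (c e p0 : ℝ), 0 < c → 0 < e → e < 1 → 0 < p0 → ∃ uh : ℝ, 0 < uh ∧ uh ≤ 1 ∧
    ∀ (I δ Λ : ℝ), 0 < δ → 1 ≤ Λ → ∃ (J A1 : ℕ) (Y : Finset Site), 1 ≤ J ∧ Geo A1 Y ∧
    ∀ u1 : ℕ, ∃ u : ℕ, u1 ≤ u ∧ 100 ≤ u ∧ ∃ nmax : ℕ,
    ∀ (E : Env c e I δ Λ nmax) (X : ℕ × ℤ), (X.1 + 3) * J + 1 ≤ E.H →
      0 < E.w ⟨u, J, A1, Y⟩ ∧
      E.P.real {ω | ¬ GOODE E.L E.lam E.ρ ⟨u, J, A1, Y⟩ uh (uh * E.w ⟨u, J, A1, Y⟩ / 8) ω X} ≤ p0 ∧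
      (X.1 = 0 →
        E.P.real {ω | ¬ OCC0 E.L E.lam E.ρ ⟨u, J, A1, Y⟩ uh (uh * E.w ⟨u, J, A1, Y⟩ / 8) ω X} ≤ p0)

/-- discrete undetected trajectory from `(m0, z0)` up to time `N ≤ H` (in terms of s-cells) -/
def SurvT {q H : ℕ} [NeZero q] (ρ : ℝ) (ω : Conf q H) (m0 : ℕ) (z0 : Site) (N : ℕ) : Prop :=
  ∃ z : ℕ → Site, z m0 = z0 ∧ (∀ k : Fin H, m0 ≤ (k : ℕ) → (k : ℕ) < N → SafeC ω k (z k)) ∧
    ∀ k : ℕ, m0 < k → k < N → (z (k - 1) = z k ∨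
      LinkedS Adj4 (vacSites ρ (et ω k)) (cbox q (z (k - 1)) 0) (cbox q (z k) 0))

/-- SURVD: survival with probability 1/2 for all slightly larger intensities (BLOCK, DECOUP,
LIPPERC, REACH, DEPG, LIP, INFLMASS). -/
def Stmt_SURVD : Prop :=
  ∀ (c e : ℝ), 0 < c → 0 < e → e < 1 → ∀ (I δ Λ : ℝ), 0 < δ → 1 ≤ Λ →
    ∃ (nmax J B : ℕ) (ε : ℝ), 0 < ε ∧ 1 ≤ J ∧
    ∀ (q j : ℕ) [NeZero q] (ρ : ℝ) (lam : ℝ≥0), StaticOK c e nmax ρ q lam j →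
      (lam : ℝ) * ((1 / 4) ^ j * q ^ 2) ≤ I → ((1 / 4 : ℝ) ^ j * q ^ 2) ≤ I →
    ∀ (lam' : ℝ≥0), lam ≤ lam' → (lam' : ℝ) ≤ lam + ε →
    ∀ (N H : ℕ) (L : MarkLaw q H ((1 / 4) ^ j) δ Λ), (N + 4) * J + 1 ≤ H → J ≤ N * J →
      1 / 2 ≤ (L.PP lam').real {ω | ∃ m0 < J, ∃ z0 : Site, nrm z0 ≤ B ∧ SurvT ρ ω m0 z0 (N * J)}

/-- START: from some start to a start at time `0` in the s-cell `0` (Harris, HOLEP, TRANS). -/
def Stmt_START : Prop :=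
  ∀ (J B : ℕ) (I δ Λ : ℝ), ∃ g : ℝ, 0 < g ∧
    ∀ (q H : ℕ) [NeZero q] (a ρ : ℝ) (lam : ℝ≥0) (L : MarkLaw q H a δ Λ) (N : ℕ),
      (lam : ℝ) * (a * q ^ 2) ≤ I → J ≤ N → N ≤ H →
      1 / 2 ≤ (L.PP lam).real {ω | ∃ m0 < J, ∃ z0 : Site, nrm z0 ≤ B ∧ SurvT ρ ω m0 z0 N} →
      g ≤ (L.PP lam).real {ω | SurvT ρ ω 0 0 N}

/-- BRIDGE98: from the fine family and `SurvT` to `markLaw` and `Survives` (`q = s 2^j`, T = 1):
superposition of the fine marks (finite fibres), then restriction of the marks from the horizon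
`H` to the horizon `K` (presence of marks only), `s ≥ 20 (r + 5)`. -/
def Stmt_BRIDGE : Prop :=
  ∀ (r : ℝ) (β : ℝ → Measure ℕ) (s j H K : ℕ) (δ Λ : ℝ) (x : ℝ≥0)
    [NeZero (s * 2 ^ j)] (L : MarkLaw (s * 2 ^ j) H ((1 / 4) ^ j) δ Λ), 0 < r → TailOK β →
    20 * (r + 5) ≤ s → K ≤ H →
    (∀ (v : Fin (H + 1) → Site) (b : Fin H → ℕ),
        HasSum (fun θ : {θ : FMark (s * 2 ^ j) H // FMark.site θ = v ∧ θ.1.b = b} => (L.fine θ.1 : ℝ))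
          (markMass 1 (β 1) j H (v, b)).toReal) →
    (L.PP x) {ω | SurvT (range r j) ω 0 0 K} ≤ markLaw x 1 (β 1) j K {F | Survives r j F}

/-- CORE from A, MARKREF, SURVD, START, BRIDGE, MONO. -/
def Stmt_CORE : Prop := Core

end MPdd5692
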