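import Mathlib
import Pool.Agent.Work.MP_dd5692_pr.InterfaceF

/-!
# MP_dd5692_pr: BLOCK (helper14): choice of the constants
-/

open MeasureTheory ProbabilityTheory Set
open scoped ENNReal NNReal BigOperators

namespace MPdd5692
namespace BLOCK

/-- `N` sub-blocks -/
def YN (N : ℕ) : Finset Site := (Finset.range N).image fun k : ℕ => ((400 * (k : ℤ) + 1, 0) : Site)

lemma YN_card (N : ℕ) : (YN N).card = N := by
  rw [YN, Finset.card_image_of_injective, Finset.card_range]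
  intro a b h
  have h1 := congrArg Prod.fst h
  simp only at h1
  omega

lemma mem_YN {N : ℕ} {y : Site} : y ∈ YN N ↔ ∃ k : ℕ, k < N ∧ ((400 * (k : ℤ) + 1, 0) : Site) = y := by
  simp [YN]

lemma geo (N : ℕ) (hN : 1 ≤ N) : Geo (8 * (400 * N + 501)) (YN N) where
  div := ⟨_, rfl⟩
  ne := ⟨_, mem_YN.2 ⟨0, hN, rfl⟩⟩
  mod := by
    intro y hy
    obtain ⟨k, hk, rfl⟩ := mem_YN.1 hy
    refine ⟨⟨50 * k, by simp only; ring⟩, ⟨0, by simp⟩⟩
  small := by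
    intro y hy
    obtain ⟨k, hk, rfl⟩ := mem_YN.1 hy
    have hk' : (k : ℤ) + 1 ≤ N := by exact_mod_cast hk
    have : nrm ((400 * (k : ℤ) + 1, 0) : Site) = 400 * (k : ℤ) + 1 := by
      simp only [nrm]
      rw [abs_of_nonneg (by positivity)]
      simp
      positivity
    rw [this]; push_cast; linarith
  sep := by
    intro y hy y' hy' hne
    obtain ⟨k, hk, rfl⟩ := mem_YN.1 hy
    obtain ⟨k', hk', rfl⟩ := mem_YN.1 hy'
    have hkk : (k : ℤ) ≠ k' := by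
      intro h
      apply hne
      rw [h]
    simp only [nrm, Prod.fst_sub, Prod.snd_sub]
    refine le_max_of_le_left ?_
    have h1 : (400 * (k : ℤ) + 1 - (400 * (k' : ℤ) + 1)) = 400 * ((k : ℤ) - k') := by ring
    rw [h1, abs_mul]
    have h2 : 1 ≤ |(k : ℤ) - k'| := Int.one_le_abs (sub_ne_zero.2 hkk)
    have h3 : |(400 : ℤ)| = 400 := by norm_num
    rw [h3]; linarith
  big := by omega

lemma armdec_mono {c e I δ Λ : ℝ} {nmax : ℕ} (E : Env c e I δ Λ nmax) {κ0 : ℝ} {R a0 a1 : ℕ}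
    (h : E.ArmDec κ0 R a0) (h01 : a0 ≤ a1) : E.ArmDec κ0 R a1 :=
  fun m m' hm hm' hne z a b ha hab hb hn => h m m' hm hm' hne z a b (h01.trans ha) hab hb hn

/-- numerical choice of `J` and `ε` -/
lemma choose (p0 uh w0 : ℝ) (N : ℕ) (hp : 0 < p0) (hu : 0 < uh) (hw : 0 < w0) :
    ∃ J : ℕ, 1 ≤ J ∧ ∃ ε : ℝ, 0 < ε ∧ ∀ w : ℝ, w0 ≤ w →
      ε ≤ w ^ 2 ∧ 4 / (w * J) + 4 * ε / w ^ 2 ≤ p0 / 2 ∧
      16 * (3 * N * (10 ^ 6 * ε / (uh * w) ^ 3 + 100 / (uh * w * J))) / (uh * w) ≤ p0 / 4 := by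
  obtain ⟨J, hJ⟩ := exists_nat_gt (16 / (w0 * p0) + 38400 * N / (uh ^ 2 * w0 ^ 2 * p0))
  have hA : 0 ≤ 16 / (w0 * p0) := by positivity
  have hB : 0 ≤ 38400 * N / (uh ^ 2 * w0 ^ 2 * p0) := by positivity
  have hJ0 : (0 : ℝ) < J := lt_of_le_of_lt (by positivity) hJ
  have hJ1 : 1 ≤ J := by
    have : 0 < J := by exact_mod_cast hJ0
    exact this
  have e1 : 4 / (w0 * J) ≤ p0 / 4 := by
    rw [div_le_div_iff₀ (by positivity) (by norm_num)]
    have h : 16 / (w0 * p0) ≤ J := by linarith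
    rw [div_le_iff₀ (by positivity)] at h
    nlinarith
  have e2 : 4800 * N / (uh ^ 2 * w0 ^ 2 * J) ≤ p0 / 8 := by
    rw [div_le_div_iff₀ (by positivity) (by norm_num)]
    have h : 38400 * N / (uh ^ 2 * w0 ^ 2 * p0) ≤ J := by linarith
    rw [div_le_iff₀ (by positivity)] at h
    nlinarith
  set D : ℝ := 48 * 10 ^ 6 * N / (uh ^ 4 * w0 ^ 4) + 1 with hD
  have hDpos : 0 < D := by positivity
  set ε : ℝ := min (w0 ^ 2) (min (p0 * w0 ^ 2 / 16) (p0 / (8 * D))) with hε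
  have hεpos : 0 < ε := by
    rw [hε]; refine lt_min (by positivity) (lt_min (by positivity) (by positivity))
  have f1 : ε ≤ w0 ^ 2 := min_le_left _ _
  have f2 : ε ≤ p0 * w0 ^ 2 / 16 := (min_le_right _ _).trans (min_le_left _ _)
  have f3 : ε ≤ p0 / (8 * D) := (min_le_right _ _).trans (min_le_right _ _)
  have e3 : 4 * ε / w0 ^ 2 ≤ p0 / 4 := by
    rw [div_le_div_iff₀ (by positivity) (by norm_num)]
    linarith
  have e4 : 48 * 10 ^ 6 * N * ε / (uh ^ 4 * w0 ^ 4) ≤ p0 / 8 := by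
    have h : D * ε ≤ p0 / 8 := by
      calc D * ε ≤ D * (p0 / (8 * D)) := by gcongr
        _ = p0 / 8 := by field_simp
    have h2 : 48 * 10 ^ 6 * N * ε / (uh ^ 4 * w0 ^ 4) ≤ D * ε := by
      have : 48 * 10 ^ 6 * N * ε / (uh ^ 4 * w0 ^ 4) =
        (48 * 10 ^ 6 * N / (uh ^ 4 * w0 ^ 4)) * ε := by ring
      rw [this]
      apply mul_le_mul_of_nonneg_right _ hεpos.le
      rw [hD]; linarith
    linarith
  refine ⟨J, hJ1, ε, hεpos, fun w hw' => ?_⟩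
  have hwpos : 0 < w := lt_of_lt_of_le hw hw'
  have g0 : w0 ^ 2 ≤ w ^ 2 := pow_le_pow_left₀ hw.le hw' 2
  refine ⟨f1.trans g0, ?_, ?_⟩
  · have g1 : 4 / (w * J) ≤ 4 / (w0 * J) := by gcongr
    have g2 : 4 * ε / w ^ 2 ≤ 4 * ε / w0 ^ 2 := by gcongr
    linarith
  · have g1 : 16 * (3 * N * (10 ^ 6 * ε / (uh * w) ^ 3 + 100 / (uh * w * J))) / (uh * w) =
        48 * 10 ^ 6 * N * ε / (uh ^ 4 * w ^ 4) + 4800 * N / (uh ^ 2 * w ^ 2 * J) := by
      field_simp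
      ring
    rw [g1]
    have g2 : 48 * 10 ^ 6 * N * ε / (uh ^ 4 * w ^ 4) ≤ 48 * 10 ^ 6 * N * ε / (uh ^ 4 * w0 ^ 4) := by
      gcongr
    have g3 : 4800 * N / (uh ^ 2 * w ^ 2 * J) ≤ 4800 * N / (uh ^ 2 * w0 ^ 2 * J) := by
      gcongr
    linarith

end BLOCK

open BLOCK in
theorem stmt_BLOCK (h1 : Stmt_C1) (h2 : Stmt_HATP) (h3 : Stmt_NICEP) (h4 : Stmt_NNP)
    (h5 : Stmt_WLOW) (h6 : Stmt_GOODP) (h7 : Stmt_OCC0P) (h8 : Stmt_ARMDEC) (h9 : Stmt_DEC) :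
    Stmt_BLOCK := by
  intro c e p0 hc he he1 hp0
  by_cases hc1' : c ≤ 1
  swap
  · -- no environment
    refine ⟨1, one_pos, le_rfl, fun I δ Λ hδ hΛ => ⟨1, 8 * (400 * 1 + 501), YN 1, le_rfl,
      geo 1 le_rfl, fun u1 => ⟨u1 + 100, by omega, by omega, 1, fun E X hX => ?_⟩⟩⟩
    exfalso
    have h := E.ok.U_ge 0 1 (by norm_num) le_rfl
    have h2 : SP E.lam E.j (fun S => UU E.ρ E.q S 0 0 1) ≤ 1 := by
      unfold SP
      have : IsProbabilityMeasure (stat E.lam E.j) := by unfold stat; infer_instance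
      exact measureReal_le_one
    linarith
  obtain ⟨K, c1, κ0, hK, hc1, hκ0, hC1⟩ := h1 c e hc he he1
  set uh : ℝ := min 1 (c1 * c ^ 7) with huh
  have huh0 : 0 < uh := by rw [huh]; exact lt_min one_pos (by positivity)
  have huh1 : uh ≤ 1 := min_le_left _ _
  have huh2 : uh ≤ c1 * c ^ 7 := min_le_right _ _
  refine ⟨uh, huh0, huh1, ?_⟩
  intro I δ Λ hδ hΛ
  set v : ℝ := min (uh / 2 * c ^ 8) (1 / 2) with hv
  have hv0 : 0 < v := by rw [hv]; exact lt_min (by positivity) (by norm_num)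
  have hv1 : v ≤ 1 / 2 := min_le_right _ _
  have hv2 : v ≤ uh / 2 * c ^ 8 := min_le_left _ _
  set ε1 : ℝ := min (p0 * uh ^ 2 / 3072) (p0 / 16) with hε1
  have hε10 : 0 < ε1 := by rw [hε1]; exact lt_min (by positivity) (by positivity)
  have hε1a : ε1 ≤ p0 * uh ^ 2 / 3072 := min_le_left _ _
  have hε1b : ε1 ≤ p0 / 16 := min_le_right _ _
  obtain ⟨N0, hN0⟩ := exists_pow_lt_of_lt_one (show (0 : ℝ) < ε1 / 2 by positivity)
    (show 1 - v < 1 by linarith)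
  set N : ℕ := N0 + 1 with hN
  have hNv : (1 - v) ^ N ≤ ε1 / 2 := by
    have : (1 - v) ^ N ≤ (1 - v) ^ N0 :=
      pow_le_pow_of_le_one (by linarith) (by linarith) (by omega)
    linarith
  set A1 : ℕ := 8 * (400 * N + 501) with hA1
  set Y : Finset Site := YN N with hY
  have hGeo : Geo A1 Y := geo N (by omega)
  have hcard : Y.card = N := YN_card N
  set w0 : ℝ := c ^ ((A1 + 1) ^ 2) with hw0
  have hw0pos : 0 < w0 := by positivity
  obtain ⟨J, hJ, ε, hε, hnum⟩ := choose p0 uh w0 N hp0 huh0 hw0pos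
  refine ⟨J, A1, Y, hJ, hGeo, ?_⟩
  intro u1
  obtain ⟨a0, ha0⟩ := h8 c e I δ Λ κ0 (100 * K) hc hc1' hδ hκ0
  obtain ⟨un, hun⟩ := h4 I Λ (ε1 / 2) J A1 Y (by positivity) hJ hGeo
  obtain ⟨ug, hug⟩ := h6 I Λ (p0 / 4) J A1 Y (by positivity) hJ hGeo
  obtain ⟨ud, hud⟩ := h9 c e I δ Λ ε J A1 Y hc hc1' hδ hε hGeo
  obtain ⟨l0, l, hl0, hl, hdiv, hL⟩ := hC1 I Λ (2 * J) (a0 + 10 * (u1 + un + ug + ud + 100))
  obtain ⟨u, rfl⟩ := hdiv
  have hu1 : u1 ≤ u := by omega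
  have hun' : un ≤ u := by omega
  have hug' : ug ≤ u := by omega
  have hud' : ud ≤ u := by omega
  have hu100 : 100 ≤ u := by omega
  refine ⟨u, hu1, hu100, 10 * K * (10 * u) + 60 * u + 10 * A1 * u, ?_⟩
  set nmax : ℕ := 10 * K * (10 * u) + 60 * u + 10 * A1 * u with hnmax
  have hn1 : 10 * K * (10 * u) ≤ nmax := by omega
  have hn2 : 60 * u ≤ nmax := by omega
  have hn3 : 10 * A1 * u ≤ nmax := by omega
  have hn4 : 12 * u ≤ nmax := by omega
  intro E X hX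
  obtain ⟨hwlow, -⟩ := h5 c e I δ Λ nmax E ⟨u, J, A1, Y⟩ (by simp only; omega) hGeo hn4
  have hw : w0 ≤ E.w ⟨u, J, A1, Y⟩ := hwlow
  set w : ℝ := E.w ⟨u, J, A1, Y⟩ with hwdef
  have hwpos : 0 < w := lt_of_lt_of_le hw0pos hw
  obtain ⟨q1, q2, q3⟩ := hnum w hw
  have hdec : E.Dec ⟨u, J, A1, Y⟩ ε := hud u hud' nmax E hn2
  -- the two time connection
  have hlam : ∀ m m' : ℕ, m < m' → m' ≤ E.H → m' ≤ m + 2 * J →
      c1 ≤ E.P.real {ω | LamE E.ρ ω m m' 0 (10 * u)} :=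
    hL δ nmax E (armdec_mono E (ha0 nmax E) (by omega)) hn1
  have hhat : ∀ m m' : ℕ, m < m' → m' ≤ E.H → m' ≤ m + 2 * J → ∀ y : Site,
      uh ≤ E.P.real {ω | HatE E.ρ ω m m' y u} := fun m m' h h' h'' y =>
    huh2.trans (h2 c e I δ Λ nmax E u m m' y c1 hc1 (by omega) hn2 h h' (hlam m m' h h' h''))
  have hnice : ∀ m : ℕ, (m / J + 2) * J ≤ E.H → ∀ y : Site,
      v ≤ E.P.real {ω | niceE E.L E.lam E.ρ u J uh ω m y ∧
        UU E.ρ E.q (et ω m) y (10 * u) (20 * u) ∧ VE E.ρ E.q (et ω m) y u} := by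
    intro m hm y
    refine hv2.trans (h3 c e I δ Λ nmax E u J m y uh huh0 (by omega) hJ hn2 hm ?_)
    intro m' hm'
    rw [nxt, Finset.mem_Ico] at hm'
    have hmJ : m / J * J ≤ m := Nat.div_mul_le_self m J
    have hmJ' : m < (m / J + 1) * J := by
      have := Nat.lt_div_mul_add (a := m) (b := J) (by omega)
      calc m < m / J * J + J := this
        _ = (m / J + 1) * J := by ring
    have h3' : (m / J + 2) * J = m / J * J + 2 * J := by ring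
    exact hhat m m' (by omega) (by omega) (by omega) y
  have hNN : ∀ m : ℕ, (m / J + 2) * J ≤ E.H → ∀ X' : ℕ × ℤ,
      E.P.real {ω | ¬ NNE E.L E.lam E.ρ ⟨u, J, A1, Y⟩ uh ω m X'} ≤ ε1 := by
    intro m hm X'
    have h := hun u hun' c e δ nmax E m X' uh v hv0 hm hn2 (hnice m hm)
    rw [hcard] at h
    linarith
  have hblock : ∀ M : ℕ, (M + 1) * J ≤ E.H → ∀ m < M * J, (m / J + 2) * J ≤ E.H := by
    intro M hM m hm
    have h1 : m / J < M := (Nat.div_lt_iff_lt_mul (by omega)).2 hm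
    calc (m / J + 2) * J ≤ (M + 1) * J := Nat.mul_le_mul_right _ (by omega)
      _ ≤ E.H := hM
  refine ⟨hwpos, ?_, ?_⟩
  · have h := hug u hug' c e δ nmax E uh ε ε1 X huh0 huh1 hε hc hX hn4 hdec q1
      (fun m' hm' X' => hNN m' (hblock (X.1 + 2) (by
        have : (X.1 + 2 + 1) * J = (X.1 + 3) * J := by ring
        omega) m' hm') X')
    rw [hcard] at h
    have h768 : 768 * ε1 / uh ^ 2 ≤ p0 / 4 := by
      rw [div_le_div_iff₀ (by positivity) (by norm_num)]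
      linarith
    refine h.trans ?_
    linarith
  · intro hX0
    have hXJ : (X.1 + 3) * J = X.1 * J + 3 * J := by ring
    have h := h7 c e I δ Λ nmax E ⟨u, J, A1, Y⟩ uh ε ε1 X huh0 huh1 hε hX0 hu100 hJ hGeo
      (by simp only; omega) hn4 hdec
      (fun m' hm' => hNN m' (hblock 1 (by omega) m' (by simpa using hm')) X)
    refine h.trans ?_
    simp only at h ⊢
    have : 4 * ε1 ≤ p0 / 4 := by linarith
    linarith

end MPdd5692
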