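import Mathlib
import Pool.Agent.Work.MP_dd5692_pr.InterfaceD
import Pool.Agent.Work.MP_dd5692_pr.Link98

/-!
# LINK (helper11): two circuits whose inner boxes meet, none inside the other, have a common site.
-/

open Set

namespace MPdd5692

namespace LINK

/-- rectangle -/
def rect (a b c d : ℤ) : Set Site := {x | a ≤ x.1 ∧ x.1 ≤ b ∧ c ≤ x.2 ∧ x.2 ≤ d}

lemma adj_h (x : Site) : Adj4 x (x.1 + 1, x.2) := by
  unfold Adj4; simp

lemma adj_v (x : Site) : Adj4 x (x.1, x.2 + 1) := by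
  unfold Adj4; simp

lemma hor {a b c d : ℤ} (n : ℕ) (x : Site) (hx : x ∈ rect a b c d)
    (hn : ((x.1 + n, x.2) : Site) ∈ rect a b c d) :
    Linked Adj4 (rect a b c d) x (x.1 + n, x.2) := by
  induction n with
  | zero =>
    have : ((x.1 + ((0:ℕ):ℤ), x.2) : Site) = x := by simp
    rw [this]; exact Linked.refl hx
  | succ n ih =>
    unfold rect at hx hn ⊢
    simp only [mem_ofPred_eq] at hx hn
    push_cast at hn
    have h1 : ((x.1 + (n:ℤ), x.2) : Site) ∈ {x : Site | a ≤ x.1 ∧ x.1 ≤ b ∧ c ≤ x.2 ∧ x.2 ≤ d} := by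
      simp only [mem_ofPred_eq]; omega
    refine (ih h1).tail ?_ ?_
    · push_cast; exact ⟨by omega, by omega, by omega, by omega⟩
    · have h2 := adj_h (x.1 + (n:ℤ), x.2)
      have h3 : ((x.1 + ((n + 1 : ℕ) : ℤ), x.2) : Site) = (x.1 + (n:ℤ) + 1, x.2) := by
        push_cast; rw [add_assoc]
      rw [h3]; exact h2

lemma ver {a b c d : ℤ} (n : ℕ) (x : Site) (hx : x ∈ rect a b c d)
    (hn : ((x.1, x.2 + n) : Site) ∈ rect a b c d) :
    Linked Adj4 (rect a b c d) x (x.1, x.2 + n) := by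
  induction n with
  | zero =>
    have : ((x.1, x.2 + ((0:ℕ):ℤ)) : Site) = x := by simp
    rw [this]; exact Linked.refl hx
  | succ n ih =>
    unfold rect at hx hn ⊢
    simp only [mem_ofPred_eq] at hx hn
    push_cast at hn
    have h1 : ((x.1, x.2 + (n:ℤ)) : Site) ∈ {x : Site | a ≤ x.1 ∧ x.1 ≤ b ∧ c ≤ x.2 ∧ x.2 ≤ d} := by
      simp only [mem_ofPred_eq]; omega
    refine (ih h1).tail ?_ ?_
    · push_cast; exact ⟨by omega, by omega, by omega, by omega⟩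
    · have h2 := adj_v (x.1, x.2 + (n:ℤ))
      have h3 : ((x.1, x.2 + ((n + 1 : ℕ) : ℤ)) : Site) = (x.1, x.2 + (n:ℤ) + 1) := by
        push_cast; rw [add_assoc]
      rw [h3]; exact h2

lemma hor' {a b c d : ℤ} (x y : Site) (hx : x ∈ rect a b c d) (hy : y ∈ rect a b c d)
    (h : x.2 = y.2) : Linked Adj4 (rect a b c d) x y := by
  rcases le_total x.1 y.1 with h1 | h1
  · obtain ⟨n, hn⟩ := Int.eq_ofNat_of_zero_le (sub_nonneg.2 h1)
    have hy' : y = (x.1 + (n:ℤ), x.2) := by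
      ext
      · simp; omega
      · simp [h]
    rw [hy'] at hy ⊢
    exact hor n x hx hy
  · obtain ⟨n, hn⟩ := Int.eq_ofNat_of_zero_le (sub_nonneg.2 h1)
    have hx' : x = (y.1 + (n:ℤ), y.2) := by
      ext
      · simp; omega
      · simp [h]
    rw [hx'] at hx ⊢
    exact (hor n y hy hx).symm fun _ _ => Adj4.symm

lemma ver' {a b c d : ℤ} (x y : Site) (hx : x ∈ rect a b c d) (hy : y ∈ rect a b c d)
    (h : x.1 = y.1) : Linked Adj4 (rect a b c d) x y := by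
  rcases le_total x.2 y.2 with h1 | h1
  · obtain ⟨n, hn⟩ := Int.eq_ofNat_of_zero_le (sub_nonneg.2 h1)
    have hy' : y = (x.1, x.2 + (n:ℤ)) := by
      ext
      · simp [h]
      · simp; omega
    rw [hy'] at hy ⊢
    exact ver n x hx hy
  · obtain ⟨n, hn⟩ := Int.eq_ofNat_of_zero_le (sub_nonneg.2 h1)
    have hx' : x = (y.1, y.2 + (n:ℤ)) := by
      ext
      · simp [h]
      · simp; omega
    rw [hx'] at hx ⊢
    exact (ver n y hy hx).symm fun _ _ => Adj4.symm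

lemma rect_linked {a b c d : ℤ} (x y : Site) (hx : x ∈ rect a b c d) (hy : y ∈ rect a b c d) :
    Linked Adj4 (rect a b c d) x y := by
  have hm : ((y.1, x.2) : Site) ∈ rect a b c d := by
    unfold rect at *
    simp only [mem_ofPred_eq] at *
    omega
  exact (hor' x (y.1, x.2) hx hm rfl).trans (ver' (y.1, x.2) y hm hy rfl)

lemma univ_linked (x y : Site) : Linked Adj4 univ x y := by
  have h := rect_linked (a := min x.1 y.1) (b := max x.1 y.1) (c := min x.2 y.2)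
    (d := max x.2 y.2) x y
    ⟨min_le_left _ _, le_max_left _ _, min_le_left _ _, le_max_left _ _⟩
    ⟨min_le_right _ _, le_max_right _ _, min_le_right _ _, le_max_right _ _⟩
  exact h.mono (subset_univ _)

lemma cbox_eq {q : ℕ} (hq : 0 < q) (z : Site) (a : ℕ) :
    cbox q z a = rect (q * (z.1 - a)) (q * (z.1 + a + 1) - 1) (q * (z.2 - a))
      (q * (z.2 + a + 1) - 1) := by
  have hq' : (0:ℤ) < q := by exact_mod_cast hq
  ext x
  unfold cbox box rect cidx nrm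
  simp only [mem_ofPred_eq, max_le_iff, Prod.fst_sub, Prod.snd_sub, abs_le]
  have key : ∀ u w : ℤ, (-(a:ℤ) ≤ u / q - w ∧ u / q - w ≤ a) ↔
      (q * (w - a) ≤ u ∧ u ≤ q * (w + a + 1) - 1) := by
    intro u w
    have e1 : (-(a:ℤ) ≤ u / q - w) ↔ (w - a ≤ u / q) := by omega
    have e2 : (u / q - w ≤ a) ↔ (u / q < w + a + 1) := by omega
    rw [e1, e2, Int.le_ediv_iff_mul_le hq', Int.ediv_lt_iff_lt_mul hq', mul_comm (w - (a:ℤ)),
      mul_comm (w + (a:ℤ) + 1)]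
    constructor
    · rintro ⟨h1, h2⟩; exact ⟨h1, by omega⟩
    · rintro ⟨h1, h2⟩; exact ⟨h1, by omega⟩
  rw [key, key]
  tauto

lemma cbox_linked {q : ℕ} (hq : 0 < q) (z : Site) (a : ℕ) (x y : Site) (hx : x ∈ cbox q z a)
    (hy : y ∈ cbox q z a) : Linked Adj4 (cbox q z a) x y := by
  rw [cbox_eq hq] at *
  exact rect_linked x y hx hy

lemma cidx_mul {q : ℕ} (hq : 0 < q) (c : Site) : cidx q ((q:ℤ) * c.1, (q:ℤ) * c.2) = c := by
  have hq' : (q:ℤ) ≠ 0 := by exact_mod_cast hq.ne'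
  unfold cidx
  simp [Int.mul_ediv_cancel_left _ hq']

lemma exists_meet {q : ℕ} (hq : 0 < q) (z y : Site) (a p : ℕ) (h : nrm (z - y) ≤ a + p) :
    ∃ x, x ∈ cbox q z a ∧ x ∈ cbox q y p := by
  refine ⟨((q:ℤ) * max (z.1 - a) (y.1 - p), (q:ℤ) * max (z.2 - a) (y.2 - p)), ?_, ?_⟩
  all_goals
    have h1 := cidx_mul hq (max (z.1 - a) (y.1 - p), max (z.2 - a) (y.2 - p))
    simp only at h1
    unfold cbox box
    simp only [mem_ofPred_eq]
    rw [h1]
    unfold nrm at *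
    simp only [Prod.fst_sub, Prod.snd_sub] at *
    rw [max_le_iff, abs_le, abs_le] at *
    omega

lemma exists_out {q : ℕ} (hq : 0 < q) (z y : Site) (a r : ℕ) (h : (r:ℤ) < nrm (z - y) + a) :
    ∃ x, x ∈ cbox q z a ∧ x ∉ cbox q y r := by
  unfold nrm at h
  simp only [Prod.fst_sub, Prod.snd_sub] at h
  obtain ⟨c, hc1, hc2⟩ : ∃ c : Site, nrm (c - z) ≤ a ∧ ¬ nrm (c - y) ≤ r := by
    rcases le_total |z.2 - y.2| |z.1 - y.1| with h1 | h1
    · rw [max_eq_left h1] at h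
      rcases le_total 0 (z.1 - y.1) with h2 | h2
      · refine ⟨(z.1 + a, z.2), ?_, ?_⟩
        · unfold nrm; simp
        · unfold nrm
          simp only [Prod.fst_sub, Prod.snd_sub, max_le_iff, abs_le, not_and_or, not_le]
          rw [abs_of_nonneg h2] at h
          omega
      · refine ⟨(z.1 - a, z.2), ?_, ?_⟩
        · unfold nrm; simp
        · unfold nrm
          simp only [Prod.fst_sub, Prod.snd_sub, max_le_iff, abs_le, not_and_or, not_le]
          rw [abs_of_nonpos h2] at h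
          omega
    · rw [max_eq_right h1] at h
      rcases le_total 0 (z.2 - y.2) with h2 | h2
      · refine ⟨(z.1, z.2 + a), ?_, ?_⟩
        · unfold nrm; simp
        · unfold nrm
          simp only [Prod.fst_sub, Prod.snd_sub, max_le_iff, abs_le, not_and_or, not_le]
          rw [abs_of_nonneg h2] at h
          omega
      · refine ⟨(z.1, z.2 - a), ?_, ?_⟩
        · unfold nrm; simp
        · unfold nrm
          simp only [Prod.fst_sub, Prod.snd_sub, max_le_iff, abs_le, not_and_or, not_le]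
          rw [abs_of_nonpos h2] at h
          omega
  refine ⟨((q:ℤ) * c.1, (q:ℤ) * c.2), ?_, ?_⟩
  · unfold cbox box
    simp only [mem_ofPred_eq]
    rw [cidx_mul hq]; exact hc1
  · unfold cbox box
    simp only [mem_ofPred_eq]
    rw [cidx_mul hq]; exact hc2

lemma exists_far {q : ℕ} (hq : 0 < q) (z y : Site) (b r : ℕ) :
    ∃ w, w ∉ cbox q z b ∧ w ∉ cbox q y r := by
  refine ⟨((q:ℤ) * (|z.1| + |y.1| + b + r + 1), (q:ℤ) * 0), ?_, ?_⟩
  all_goals
    have h1 := cidx_mul hq (|z.1| + |y.1| + b + r + 1, 0)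
    simp only at h1
    unfold cbox box
    simp only [mem_ofPred_eq]
    rw [h1]
    unfold nrm
    simp only [Prod.fst_sub, Prod.snd_sub, max_le_iff, abs_le, not_and_or, not_le]
    have e1 := le_abs_self z.1
    have e2 := le_abs_self y.1
    have e3 := abs_nonneg z.1
    have e4 := abs_nonneg y.1
    omega

/-- abstract form: `Γ` is a circuit around `A` inside `B` -/
structure Circ (Γ A B : Set Site) : Prop where
  sub : Γ ⊆ B
  conn : ∀ x ∈ Γ, ∀ y ∈ Γ, Linked Adj4 Γ x y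
  cut : ∀ (P : Set Site) (x y : Site), x ∈ A → y ∉ B → Linked Adj4 P x y →
    ∃ g ∈ Γ, Linked Adj4 P x g

/-- the exterior of `Γ`, with respect to the far site `w` -/
def ext (Γ : Set Site) (w : Site) : Set Site := {x | Linked Adj4 Γᶜ x w}

lemma ext_step {Γ : Set Site} {w u v : Site} (hu : u ∈ ext Γ w) (hv : v ∉ Γ) (h : Adj4 u v) :
    v ∈ ext Γ w := by
  unfold ext at *
  have h1 : Linked Adj4 Γᶜ v u := Linked.single hv (Linked.left_mem hu) h.symm
  exact h1.trans hu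

lemma not_ext {Γ A B : Set Site} (hC : Circ Γ A B) {w : Site} (hw : w ∉ B) {x : Site}
    (hx : x ∈ A) : x ∉ ext Γ w := by
  intro h
  obtain ⟨g, hg, hl⟩ := hC.cut Γᶜ x w hx hw h
  exact hl.right_mem hg

/-- `Γ2` is not outside `Γ1` -/
lemma caseA {Γ1 A1 B1 Γ2 A2 B2 : Set Site} (h1 : Circ Γ1 A1 B1) (h2 : Circ Γ2 A2 B2)
    (hconn : ∀ x ∈ A1, ∀ y ∈ A1, Linked Adj4 A1 x y)
    (hm : ∃ x, x ∈ A1 ∧ x ∈ A2) (ho : ∃ x, x ∈ A1 ∧ x ∉ B2) (w : Site) (hw : w ∉ B1)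
    (hd : Disjoint Γ1 Γ2) : ∀ g ∈ Γ2, g ∉ ext Γ1 w := by
  intro g hg hgE
  obtain ⟨x, hx1, hx2⟩ := hm
  obtain ⟨x', hx1', hx2'⟩ := ho
  obtain ⟨g', hg', hl⟩ := h2.cut A1 x x' hx2 hx2' (hconn x hx1 x' hx1')
  have h3 : g' ∈ A1 := hl.right_mem
  have h4 : Linked Adj4 Γ1ᶜ g' g :=
    (h2.conn g' hg' g hg).mono fun v hv hv1 => Set.disjoint_left.1 hd hv1 hv
  exact not_ext h1 hw h3 (h4.trans hgE)

lemma meet {Γ1 A1 B1 Γ2 A2 B2 : Set Site} (h1 : Circ Γ1 A1 B1) (h2 : Circ Γ2 A2 B2)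
    (hconn1 : ∀ x ∈ A1, ∀ y ∈ A1, Linked Adj4 A1 x y)
    (hconn2 : ∀ x ∈ A2, ∀ y ∈ A2, Linked Adj4 A2 x y)
    (hm : ∃ x, x ∈ A1 ∧ x ∈ A2) (ho1 : ∃ x, x ∈ A1 ∧ x ∉ B2) (ho2 : ∃ x, x ∈ A2 ∧ x ∉ B1)
    (hw : ∃ w, w ∉ B1 ∧ w ∉ B2) : ∃ g, g ∈ Γ1 ∧ g ∈ Γ2 := by
  by_contra hcon
  push Not at hcon
  have hd : Disjoint Γ1 Γ2 := Set.disjoint_left.2 hcon
  obtain ⟨w, hw1, hw2⟩ := hw
  have c1 := caseA h1 h2 hconn1 hm ho1 w hw1 hd
  have c2 := caseA h2 h1 hconn2 (by obtain ⟨x, a, b⟩ := hm; exact ⟨x, b, a⟩) ho2 w hw2 hd.symm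
  -- `ext Γ2 ⊆ ext Γ1`
  have hsub : ∀ x ∈ ext Γ2 w, x ∈ ext Γ1 w := by
    intro x hx
    have hx' : Linked Adj4 Γ2ᶜ w x := Linked.symm (fun _ _ => Adj4.symm) hx
    have hww : w ∈ ext Γ1 w := Linked.refl fun h => hw1 (h1.sub h)
    have hww2 : w ∈ ext Γ2 w := Linked.refl fun h => hw2 (h2.sub h)
    have := hx'.rec_on (p := fun v => v ∈ ext Γ2 w ∧ v ∈ ext Γ1 w) ⟨hww2, hww⟩ (by
      intro u v _ hv huv hp
      have hv2 : v ∈ ext Γ2 w := ext_step hp.1 hv huv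
      refine ⟨hv2, ext_step hp.2 ?_ huv⟩
      intro hv1
      exact c2 v hv1 hv2)
    exact this.2
  obtain ⟨x0, hx01, hx02⟩ := hm
  have hx0 : x0 ∉ ext Γ2 w := not_ext h2 hw2 hx02
  have hww2 : w ∈ ext Γ2 w := Linked.refl fun h => hw2 (h2.sub h)
  apply hx0
  refine (univ_linked w x0).rec_on (p := fun v => v ∈ ext Γ2 w) hww2 ?_
  intro u v _ _ huv hu
  by_contra hv
  have hvΓ : v ∈ Γ2 := by
    by_contra h
    exact hv (ext_step hu h huv)
  have hv1 : v ∉ Γ1 := fun h => hcon v h hvΓ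
  exact c1 v hvΓ (ext_step (hsub u hu) hv1 huv)

end LINK

open LINK in
theorem stmt_LINK (h1 : Stmt_CIRC) (_h2 : Stmt_EB4) : Stmt_LINK := by
  intro ρ q S z y a b p r hq hab hpr hz hy hm ho hi
  obtain ⟨z1, z2, z3⟩ := h1 ρ q S z a b hq hab hz
  obtain ⟨y1, y2, y3⟩ := h1 ρ q S y p r hq hpr hy
  have cz : Circ (GamS ρ q S z a b) (cbox q z a) (cbox q z b) :=
    ⟨fun x hx => (z1 hx).2.1, z2, fun P x w hx hw hl => by
      obtain ⟨g, hg, h⟩ := (z3 P x w hx hw hl).1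
      exact ⟨g, hg, h.mono inter_subset_left⟩⟩
  have cy : Circ (GamS ρ q S y p r) (cbox q y p) (cbox q y r) :=
    ⟨fun x hx => (y1 hx).2.1, y2, fun P x w hx hw hl => by
      obtain ⟨g, hg, h⟩ := (y3 P x w hx hw hl).1
      exact ⟨g, hg, h.mono inter_subset_left⟩⟩
  have hsymm : nrm (z - y) = nrm (y - z) := by
    unfold nrm
    simp only [Prod.fst_sub, Prod.snd_sub]
    rw [abs_sub_comm z.1, abs_sub_comm z.2]
  obtain ⟨g, hg1, hg2⟩ := meet cz cy (fun x hx y hy => cbox_linked hq z a x y hx hy)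
    (fun x hx y' hy' => cbox_linked hq y p x y' hx hy')
    (exists_meet hq z y a p hm) (exists_out hq z y a r ho)
    (exists_out hq y z p b (by rw [← hsymm]; exact hi)) (exists_far hq z y b r)
  exact ⟨g, hg1, g, hg2, Linked.refl (z1 hg1).1⟩

end MPdd5692
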