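import Mathlib
import Pool.Agent.Work.MP_dd5692_pr.InterfaceC

/-!
# MP_dd5692_pr: locality lemmas (helper42): on which marks do `UU`, `Arm`, `HoleC`, `LamE` depend
-/

open MeasureTheory ProbabilityTheory Set
open scoped ENNReal NNReal BigOperators

namespace MPdd5692
namespace LocLib

/-! ### sup norm -/

theorem nrm_le {x : Site} {t : ℤ} : nrm x ≤ t ↔ |x.1| ≤ t ∧ |x.2| ≤ t := by
  unfold nrm; exact max_le_iff

theorem nrm_nonneg (x : Site) : 0 ≤ nrm x := le_trans (abs_nonneg _) (le_max_left _ _)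

theorem nrm_zero : nrm (0 : Site) = 0 := by simp [nrm]

theorem nrm_neg (x : Site) : nrm (-x) = nrm x := by simp [nrm]

theorem nrm_add (x y : Site) : nrm (x + y) ≤ nrm x + nrm y := by
  rw [nrm_le]
  constructor
  · exact (abs_add_le _ _).trans (add_le_add (le_max_left _ _) (le_max_left _ _))
  · exact (abs_add_le _ _).trans (add_le_add (le_max_right _ _) (le_max_right _ _))

theorem nrm_sub_comm (x y : Site) : nrm (x - y) = nrm (y - x) := by
  rw [← nrm_neg, neg_sub]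

theorem nrm_tri (x y z : Site) : nrm (x - z) ≤ nrm (x - y) + nrm (y - z) := by
  have := nrm_add (x - y) (y - z)
  rwa [sub_add_sub_cancel] at this

/-! ### s-cells -/

variable {q H : ℕ}

theorem cidx_site [NeZero q] (θ : FMark q H) (k : Fin (H + 1)) :
    cidx q (FMark.site θ k) = θ.1.c k := by
  have hq : (0 : ℤ) < q := by exact_mod_cast Nat.pos_of_ne_zero (NeZero.ne q)
  have key : ∀ (c : ℤ) (i : Fin q), ((q : ℤ) * c + ((i : ℕ) : ℤ)) / (q : ℤ) = c := by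
    intro c i
    rw [Int.add_comm, Int.add_mul_ediv_left _ _ hq.ne']
    have : (((i : ℕ) : ℤ)) / (q : ℤ) = 0 :=
      Int.ediv_eq_zero_of_lt (by positivity) (by exact_mod_cast i.2)
    rw [this, zero_add]
  unfold cidx FMark.site
  ext
  · exact key _ _
  · exact key _ _

theorem ediv_diff {q : ℕ} (hq : 0 < q) {a b : ℤ} (h : |a - b| < q) : |a / q - b / q| ≤ 1 := by
  have hq' : (0 : ℤ) < q := by exact_mod_cast hq
  have h1 := Int.mul_ediv_add_emod a q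
  have h2 := Int.mul_ediv_add_emod b q
  have h3 := Int.emod_nonneg a hq'.ne'
  have h4 := Int.emod_lt_of_pos a hq'
  have h5 := Int.emod_nonneg b hq'.ne'
  have h6 := Int.emod_lt_of_pos b hq'
  rw [abs_lt] at h
  rw [abs_le]
  constructor
  · by_contra hc
    push Not at hc
    have : a / q - b / q ≤ -2 := by omega
    nlinarith
  · by_contra hc
    push Not at hc
    have : 2 ≤ a / q - b / q := by omega
    nlinarith

/-- the range is shorter than an s-cell -/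
theorem nrm_cidx_le {ρ : ℝ} (hρ : 0 ≤ ρ) (hq : 20 * (ρ + 2) ≤ q) {x v : Site}
    (h : v - x ∈ offs ρ) : nrm (cidx q v - cidx q x) ≤ 1 := by
  have hq0 : 0 < q := by
    have : (0 : ℝ) < q := by linarith
    exact_mod_cast this
  have h' : offd (v - x).1 ^ 2 + offd (v - x).2 ^ 2 ≤ ρ ^ 2 := h
  have key : ∀ t : ℤ, offd t ≤ ρ → |t| < q := by
    intro t ht
    have : |(t : ℝ)| - 1 / 2 ≤ ρ := le_trans (le_max_left _ _) ht
    have h2 : |(t : ℝ)| < q := by linarith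
    exact_mod_cast h2
  have h1 : offd (v - x).1 ≤ ρ := by
    have := sq_nonneg (offd (v - x).2)
    exact le_of_sq_le_sq (by linarith) hρ |> fun h => h
  have h2 : offd (v - x).2 ≤ ρ := by
    have := sq_nonneg (offd (v - x).1)
    exact le_of_sq_le_sq (by linarith) hρ |> fun h => h
  rw [nrm_le]
  exact ⟨ediv_diff hq0 (key _ h1), ediv_diff hq0 (key _ h2)⟩

theorem vac_congr {ρ : ℝ} (hρ : 0 ≤ ρ) (hq : 20 * (ρ + 2) ≤ q) {S S' : Set Site} {x : Site}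
    (h : ∀ v, nrm (cidx q v - cidx q x) ≤ 1 → (v ∈ S ↔ v ∈ S')) :
    x ∈ vacSites ρ S ↔ x ∈ vacSites ρ S' := by
  unfold vacSites
  simp only [mem_ofPred_eq]
  constructor
  · intro hx v hv ho
    exact hx v ((h v (nrm_cidx_le hρ hq ho)).2 hv) ho
  · intro hx v hv ho
    exact hx v ((h v (nrm_cidx_le hρ hq ho)).1 hv) ho

theorem UU_congr {ρ : ℝ} (hρ : 0 ≤ ρ) (hq : 20 * (ρ + 2) ≤ q) {S S' : Set Site} {z : Site}
    {a b : ℕ} (h : ∀ v, nrm (cidx q v - z) ≤ b + 1 → (a : ℤ) ≤ nrm (cidx q v - z) →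
      (v ∈ S ↔ v ∈ S')) :
    UU ρ q S z a b ↔ UU ρ q S' z a b := by
  have : (vacSites ρ S)ᶜ ∪ cbox q z a ∪ (cbox q z b)ᶜ =
      (vacSites ρ S')ᶜ ∪ cbox q z a ∪ (cbox q z b)ᶜ := by
    ext x
    simp only [mem_union, mem_compl_iff]
    by_cases h1 : x ∈ cbox q z a
    · simp [h1]
    by_cases h2 : x ∈ cbox q z b
    · have hc : x ∈ vacSites ρ S ↔ x ∈ vacSites ρ S' := by
        apply vac_congr hρ hq
        intro v hv
        have e1 : nrm (cidx q x - z) ≤ b := h2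
        have e2 : (a : ℤ) < nrm (cidx q x - z) := not_le.mp h1
        have e3 := nrm_tri (cidx q v) (cidx q x) z
        have e4 := nrm_tri (cidx q x) (cidx q v) z
        rw [nrm_sub_comm (cidx q x) (cidx q v)] at e4
        exact h v (by omega) (by omega)
      rw [hc]
    · simp [h2]
  unfold UU Wired LinkedS
  rw [this]

theorem Arm_congr {ρ : ℝ} (hρ : 0 ≤ ρ) (hq : 20 * (ρ + 2) ≤ q) {S S' : Set Site} {z z' : Site}
    {a b : ℕ} (h : ∀ v, nrm (cidx q v - z') ≤ b + 1 → (a : ℤ) ≤ nrm (cidx q v - z) →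
      (v ∈ S ↔ v ∈ S')) :
    Arm ρ q S z a z' b ↔ Arm ρ q S' z a z' b := by
  have : (vacSites ρ S) ∪ cbox q z a ∪ (cbox q z' b)ᶜ =
      (vacSites ρ S') ∪ cbox q z a ∪ (cbox q z' b)ᶜ := by
    ext x
    simp only [mem_union, mem_compl_iff]
    by_cases h1 : x ∈ cbox q z a
    · simp [h1]
    by_cases h2 : x ∈ cbox q z' b
    · have hc : x ∈ vacSites ρ S ↔ x ∈ vacSites ρ S' := by
        apply vac_congr hρ hq
        intro v hv
        have e1 : nrm (cidx q x - z') ≤ b := h2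
        have e2 : (a : ℤ) < nrm (cidx q x - z) := not_le.mp h1
        have e3 := nrm_tri (cidx q v) (cidx q x) z'
        have e4 := nrm_tri (cidx q x) (cidx q v) z
        rw [nrm_sub_comm (cidx q x) (cidx q v)] at e4
        exact h v (by omega) (by omega)
      rw [hc]
    · simp [h2]
  unfold Arm Wired
  rw [this]

theorem LinkedS_mono {adj : Site → Site → Prop} {S S' A A' B B' : Set Site} (hS : S ⊆ S')
    (hA : A ⊆ A') (hB : B ⊆ B') (h : LinkedS adj S A B) : LinkedS adj S' A' B' := by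
  obtain ⟨a, ha, b, hb, h1, h2⟩ := h
  exact ⟨a, hA ha, b, hB hb, hS h1, Relation.ReflTransGen.mono (fun u v huv => ⟨huv.1, hS huv.2⟩) _ _ h2⟩

theorem Wired_mono {adj : Site → Site → Prop} {S S' A A' B B' : Set Site} (hS : S ⊆ S')
    (hA : A ⊆ A') (hB : B ⊆ B') (h : Wired adj S A B) : Wired adj S' A' B' :=
  LinkedS_mono (union_subset_union (union_subset_union hS hA) hB) hA hB h

theorem cbox_mono {z z' : Site} {a b : ℕ} (h : (nrm (z - z') : ℤ) + a ≤ b) :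
    cbox q z a ⊆ cbox q z' b := by
  intro x hx
  have h1 : nrm (cidx q x - z) ≤ a := hx
  have := nrm_tri (cidx q x) z z'
  show nrm (cidx q x - z') ≤ b
  omega

/-- larger start, smaller target -/
theorem Arm_mono {ρ : ℝ} {S : Set Site} {z z' w w' : Site} {a b a' b' : ℕ}
    (h1 : nrm (z - w) + a ≤ a') (h2 : nrm (w' - z') + b' ≤ b)
    (h : Arm ρ q S z a z' b) : Arm ρ q S w a' w' b' :=
  Wired_mono (le_refl _) (cbox_mono h1) (compl_subset_compl.2 (cbox_mono h2)) h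

/-! ### marks -/

theorem et_congr [NeZero q] {ω ω' : Conf q H} {k : ℕ} {v : Site}
    (h : ∀ θ : FMark q H, ∀ hk : k < H + 1, θ.1.c ⟨k, hk⟩ = cidx q v → ω θ = ω' θ) :
    v ∈ et ω k ↔ v ∈ et ω' k := by
  unfold et
  simp only [mem_ofPred_eq]
  constructor
  · rintro ⟨θ, h1, hk, h2⟩
    refine ⟨θ, ?_, hk, h2⟩
    rwa [← h θ hk (by rw [← h2, cidx_site])]
  · rintro ⟨θ, h1, hk, h2⟩
    refine ⟨θ, ?_, hk, h2⟩
    rwa [h θ hk (by rw [← h2, cidx_site])]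

/-- `UU` at time `k` depends on the marks which at time `k` are in the ring (fattened by 1) -/
theorem UU_et_congr [NeZero q] {ρ : ℝ} (hρ : 0 ≤ ρ) (hq : 20 * (ρ + 2) ≤ q) {ω ω' : Conf q H}
    {k : ℕ} {z : Site} {a b : ℕ}
    (h : ∀ θ : FMark q H, ∀ hk : k < H + 1, nrm (θ.1.c ⟨k, hk⟩ - z) ≤ b + 1 →
      (a : ℤ) ≤ nrm (θ.1.c ⟨k, hk⟩ - z) → ω θ = ω' θ) :
    UU ρ q (et ω k) z a b ↔ UU ρ q (et ω' k) z a b := by
  apply UU_congr hρ hq
  intro v h1 h2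
  apply et_congr
  intro θ hk hθ
  exact h θ hk (by rw [hθ]; exact h1) (by rw [hθ]; exact h2)

theorem Arm_et_congr [NeZero q] {ρ : ℝ} (hρ : 0 ≤ ρ) (hq : 20 * (ρ + 2) ≤ q) {ω ω' : Conf q H}
    {k : ℕ} {z z' : Site} {a b : ℕ}
    (h : ∀ θ : FMark q H, ∀ hk : k < H + 1, nrm (θ.1.c ⟨k, hk⟩ - z') ≤ b + 1 →
      (a : ℤ) ≤ nrm (θ.1.c ⟨k, hk⟩ - z) → ω θ = ω' θ) :
    Arm ρ q (et ω k) z a z' b ↔ Arm ρ q (et ω' k) z a z' b := by
  apply Arm_congr hρ hq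
  intro v h1 h2
  apply et_congr
  intro θ hk hθ
  exact h θ hk (by rw [hθ]; exact h1) (by rw [hθ]; exact h2)

theorem HoleC_congr {ω ω' : Conf q H} {m m' : ℕ} {b : Site}
    (h : ∀ θ : FMark q H, ∀ k : Fin H, m ≤ (k : ℕ) → (k : ℕ) < m' →
      nrm (θ.1.c k.castSucc - b) ≤ θ.1.D k → ω θ = ω' θ) :
    HoleC ω m m' b ↔ HoleC ω' m m' b := by
  unfold HoleC SafeC
  constructor
  · intro hh k h1 h2 θ hθ
    by_contra hc
    exact hc (hh k h1 h2 θ (by rwa [h θ k h1 h2 (not_lt.mp hc)]))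
  · intro hh k h1 h2 θ hθ
    by_contra hc
    exact hc (hh k h1 h2 θ (by rwa [← h θ k h1 h2 (not_lt.mp hc)]))

/-- the marks which influence `LamE ρ ω m m' z l` -/
def LInf (m m' : ℕ) (z : Site) (l : ℕ) (θ : FMark q H) : Prop :=
  (∃ hk : m < H + 1, nrm (θ.1.c ⟨m, hk⟩ - z) ≤ 2 * l + 1) ∨
  (∃ hk : m' < H + 1, nrm (θ.1.c ⟨m', hk⟩ - z) ≤ 2 * l + 1) ∨
  (∃ k : Fin H, m ≤ (k : ℕ) ∧ (k : ℕ) < m' ∧ nrm (θ.1.c k.castSucc - z) ≤ l + θ.1.D k)

theorem LamE_congr [NeZero q] {ρ : ℝ} (hρ : 0 ≤ ρ) (hq : 20 * (ρ + 2) ≤ q) {ω ω' : Conf q H}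
    {m m' : ℕ} {z : Site} {l : ℕ} (h : ∀ θ : FMark q H, LInf m m' z l θ → ω θ = ω' θ) :
    LamE ρ ω m m' z l ↔ LamE ρ ω' m m' z l := by
  have e1 : UU ρ q (et ω m) z l (2 * l) ↔ UU ρ q (et ω' m) z l (2 * l) := by
    apply UU_et_congr hρ hq
    intro θ hk h1 _
    exact h θ (Or.inl ⟨hk, by push_cast at h1; exact h1⟩)
  have e2 : UU ρ q (et ω m') z l (2 * l) ↔ UU ρ q (et ω' m') z l (2 * l) := by
    apply UU_et_congr hρ hq
    intro θ hk h1 _
    exact h θ (Or.inr (Or.inl ⟨hk, by push_cast at h1; exact h1⟩))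
  have e3 : ∀ b, b ∈ box z l → (HoleC ω m m' b ↔ HoleC ω' m m' b) := by
    intro b hb
    apply HoleC_congr
    intro θ k h1 h2 h3
    refine h θ (Or.inr (Or.inr ⟨k, h1, h2, ?_⟩))
    have := nrm_tri (θ.1.c k.castSucc) b z
    have hb' : nrm (b - z) ≤ l := hb
    omega
  have e4 : ∀ b, (Arm ρ q (et ω m) b 0 z (2 * l) ↔ Arm ρ q (et ω' m) b 0 z (2 * l)) := by
    intro b
    apply Arm_et_congr hρ hq
    intro θ hk h1 _
    exact h θ (Or.inl ⟨hk, by push_cast at h1; exact h1⟩)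
  have e5 : ∀ b, (Arm ρ q (et ω m') b 0 z (2 * l) ↔ Arm ρ q (et ω' m') b 0 z (2 * l)) := by
    intro b
    apply Arm_et_congr hρ hq
    intro θ hk h1 _
    exact h θ (Or.inr (Or.inl ⟨hk, by push_cast at h1; exact h1⟩))
  unfold LamE
  rw [e1, e2]
  constructor
  · rintro ⟨h1, h2, b, hb, h3, h4, h5⟩
    exact ⟨h1, h2, b, hb, (e3 b hb).1 h3, (e4 b).1 h4, (e5 b).1 h5⟩
  · rintro ⟨h1, h2, b, hb, h3, h4, h5⟩
    exact ⟨h1, h2, b, hb, (e3 b hb).2 h3, (e4 b).2 h4, (e5 b).2 h5⟩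

/-! ### total displacement -/

theorem D_le_tot (ξ : CMark q H) {k1 k2 : ℕ} (k : Fin H) (h1 : k1 ≤ (k : ℕ)) (h2 : (k : ℕ) < k2) :
    ξ.D k ≤ ξ.tot k1 k2 := by
  unfold CMark.tot
  have := Finset.single_le_sum (f := fun k : Fin H =>
    if k1 ≤ (k : ℕ) ∧ (k : ℕ) < k2 then ξ.D k else 0) (fun _ _ => Nat.zero_le _) (Finset.mem_univ k)
  simpa [h1, h2] using this

theorem tot_mono (ξ : CMark q H) {k1 k2 k1' k2' : ℕ} (h1 : k1' ≤ k1) (h2 : k2 ≤ k2') :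
    ξ.tot k1 k2 ≤ ξ.tot k1' k2' := by
  unfold CMark.tot
  apply Finset.sum_le_sum
  intro k _
  split_ifs with h3 h4
  · exact le_refl _
  · exact absurd ⟨h1.trans h3.1, h3.2.trans_le h2⟩ h4
  · exact Nat.zero_le _
  · exact le_refl _

theorem tot_add (ξ : CMark q H) {k1 k2 k3 : ℕ} (h1 : k1 ≤ k2) (h2 : k2 ≤ k3) :
    ξ.tot k1 k3 = ξ.tot k1 k2 + ξ.tot k2 k3 := by
  unfold CMark.tot
  rw [← Finset.sum_add_distrib]
  apply Finset.sum_congr rfl
  intro k _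
  by_cases h : (k : ℕ) < k2
  · by_cases h' : k1 ≤ (k : ℕ)
    · simp [h', h, h.trans_le h2, not_le.2 h]
    · simp [h', not_le.2 h]
  · have hk : k2 ≤ (k : ℕ) := not_lt.mp h
    simp [h, hk, h1.trans hk]

/-- a particle moves by at most `tot` -/
theorem move_le_tot (ξ : CMark q H) {k1 : ℕ} : ∀ {k2 : ℕ} (_ : k1 ≤ k2) (hk : k2 < H + 1),
    nrm (ξ.c ⟨k2, hk⟩ - ξ.c ⟨k1, by omega⟩) ≤ ξ.tot k1 k2 := by
  intro k2 h
  induction k2, h using Nat.le_induction with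
  | base => intro hk; simp [nrm_zero]
  | succ k2 h ih =>
    intro hk
    have h1 := ih (by omega)
    have h2 : ξ.tot k1 (k2 + 1) = ξ.tot k1 k2 + ξ.tot k2 (k2 + 1) := tot_add ξ h (by omega)
    have h3 : ξ.D ⟨k2, by omega⟩ ≤ ξ.tot k2 (k2 + 1) :=
      D_le_tot ξ ⟨k2, by omega⟩ (le_refl _) (Nat.lt_succ_self _)
    have h4 : nrm (ξ.c ⟨k2 + 1, hk⟩ - ξ.c ⟨k2, by omega⟩) ≤ ξ.D ⟨k2, by omega⟩ := by
      unfold CMark.D
      have e1 : (⟨k2, by omega⟩ : Fin H).succ = ⟨k2 + 1, hk⟩ := rfl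
      have e2 : (⟨k2, by omega⟩ : Fin H).castSucc = ⟨k2, by omega⟩ := rfl
      rw [e1, e2]
      push_cast
      rw [Int.toNat_of_nonneg (nrm_nonneg _)]
      omega
    have h5 := nrm_tri (ξ.c ⟨k2 + 1, hk⟩) (ξ.c ⟨k2, by omega⟩) (ξ.c ⟨k1, by omega⟩)
    omega

end LocLib
end MPdd5692
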