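import Pool.Agent.Work.MP_dd5692_pr.InterfaceC

/-!
# MP_dd5692_pr: block MEAS (helper61): measurability and monotonicity of the basic events
Reusable: `MEAS.RS` (random sets of sites), `MEAS.RS.vac`, `MEAS.RS.compl`, `MEAS.linked_meas`,
`MEAS.wired_meas`, `MEAS.arm_meas`, `MEAS.uu_meas`, `MEAS.nv_meas`, `MEAS.et_rs`, `MEAS.occ_rs`,
`MEAS.linked_mono`, `MEAS.wired_mono`, `MEAS.vac_anti`, `MEAS.et_mono`.
-/

open MeasureTheory ProbabilityTheory Set
open scoped ENNReal NNReal BigOperators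

namespace MPdd5692
namespace MEAS

/-- countability of the marks -/
instance cmarkCountable (q H : ℕ) : Countable (CMark q H) := by
  have hi : Function.Injective (fun ξ : CMark q H => (ξ.c, ξ.g, ξ.b, ξ.r)) := by
    intro ξ ξ' h
    cases ξ
    cases ξ'
    simp only [Prod.mk.injEq] at h
    obtain ⟨h1, h2, h3, h4⟩ := h
    subst h1 h2 h3 h4
    rfl
  exact hi.countable

section random

variable {Ω : Type*} [MeasurableSpace Ω]

/-- random sets of sites: the membership events are measurable -/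
def RS (S : Ω → Set Site) : Prop := ∀ x, MeasurableSet {ω | x ∈ S ω}

lemma RS.compl {S : Ω → Set Site} (h : RS S) : RS (fun ω => (S ω)ᶜ) := by
  intro x
  exact (h x).compl

lemma RS.const (A : Set Site) : RS (fun _ : Ω => A) := by
  intro x
  exact MeasurableSet.const _

lemma RS.union {S S' : Ω → Set Site} (h : RS S) (h' : RS S') : RS (fun ω => S ω ∪ S' ω) := by
  intro x
  exact (h x).union (h' x)

lemma RS.inter {S S' : Ω → Set Site} (h : RS S) (h' : RS S') : RS (fun ω => S ω ∩ S' ω) := by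
  intro x
  exact (h x).inter (h' x)

lemma RS.vac {S : Ω → Set Site} (h : RS S) (ρ : ℝ) : RS (fun ω => vacSites ρ (S ω)) := by
  intro z
  have : {ω | z ∈ vacSites ρ (S ω)} = ⋂ v : Site, {ω | v ∈ S ω → v - z ∉ offs ρ} := by
    ext ω
    simp only [vacSites, mem_ofPred_eq, mem_iInter]
  rw [this]
  refine MeasurableSet.iInter fun v => ?_
  exact (h v).imp (MeasurableSet.const _)

/-- paths of length `n` -/
def Pth (adj : Site → Site → Prop) (S : Set Site) (x : Site) : ℕ → Site → Prop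
  | 0, y => x = y
  | n + 1, y => ∃ w, Pth adj S x n w ∧ adj w y ∧ y ∈ S

lemma pth_iff (adj : Site → Site → Prop) (S : Set Site) (x y : Site) :
    Relation.ReflTransGen (fun u v => adj u v ∧ v ∈ S) x y ↔ ∃ n, Pth adj S x n y := by
  constructor
  · intro h
    induction h with
    | refl => exact ⟨0, rfl⟩
    | tail _ hbc ih =>
      obtain ⟨n, hn⟩ := ih
      exact ⟨n + 1, _, hn, hbc.1, hbc.2⟩
  · rintro ⟨n, hn⟩
    induction n generalizing y with
    | zero =>
      cases hn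
      exact Relation.ReflTransGen.refl
    | succ n ih =>
      obtain ⟨w, hw, ha, hy⟩ := hn
      exact (ih w hw).tail ⟨ha, hy⟩

lemma pth_meas (adj : Site → Site → Prop) {S : Ω → Set Site} (h : RS S) (x : Site) (n : ℕ) :
    ∀ y, MeasurableSet {ω | Pth adj (S ω) x n y} := by
  induction n with
  | zero =>
    intro y
    exact MeasurableSet.const _
  | succ n ih =>
    intro y
    have : {ω | Pth adj (S ω) x (n + 1) y} =
        ⋃ w : Site, ({ω | Pth adj (S ω) x n w} ∩ ({ω | adj w y} ∩ {ω | y ∈ S ω})) := by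
      ext ω
      simp only [Pth, mem_ofPred_eq, mem_iUnion, mem_inter_iff]
    rw [this]
    exact MeasurableSet.iUnion fun w => (ih w).inter ((MeasurableSet.const _).inter (h y))

lemma linked_meas (adj : Site → Site → Prop) {S : Ω → Set Site} (h : RS S) (x y : Site) :
    MeasurableSet {ω | Linked adj (S ω) x y} := by
  have : {ω | Linked adj (S ω) x y} = {ω | x ∈ S ω} ∩ ⋃ n, {ω | Pth adj (S ω) x n y} := by
    ext ω
    simp only [Linked, pth_iff, mem_ofPred_eq, mem_iUnion, mem_inter_iff]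
  rw [this]
  exact (h x).inter (MeasurableSet.iUnion fun n => pth_meas adj h x n y)

lemma linkedS_meas (adj : Site → Site → Prop) {S A B : Ω → Set Site} (h : RS S) (hA : RS A)
    (hB : RS B) : MeasurableSet {ω | LinkedS adj (S ω) (A ω) (B ω)} := by
  have : {ω | LinkedS adj (S ω) (A ω) (B ω)} = ⋃ a : Site, ⋃ b : Site,
      ({ω | a ∈ A ω} ∩ ({ω | b ∈ B ω} ∩ {ω | Linked adj (S ω) a b})) := by
    ext ω
    simp only [LinkedS, mem_ofPred_eq, mem_iUnion, mem_inter_iff]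
    constructor
    · rintro ⟨a, ha, b, hb, hl⟩
      exact ⟨a, b, ha, hb, hl⟩
    · rintro ⟨a, b, ha, hb, hl⟩
      exact ⟨a, ha, b, hb, hl⟩
  rw [this]
  exact MeasurableSet.iUnion fun a => MeasurableSet.iUnion fun b =>
    (hA a).inter ((hB b).inter (linked_meas adj h a b))

lemma wired_meas (adj : Site → Site → Prop) {S : Ω → Set Site} (h : RS S) (A B : Set Site) :
    MeasurableSet {ω | Wired adj (S ω) A B} :=
  linkedS_meas adj ((h.union (RS.const A)).union (RS.const B)) (RS.const A) (RS.const B)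

lemma arm_meas {S : Ω → Set Site} (h : RS S) (ρ : ℝ) (q : ℕ) (z : Site) (a : ℕ) (z' : Site)
    (b : ℕ) : MeasurableSet {ω | Arm ρ q (S ω) z a z' b} :=
  wired_meas Adj4 (h.vac ρ) _ _

lemma uu_meas {S : Ω → Set Site} (h : RS S) (ρ : ℝ) (q : ℕ) (z : Site) (a b : ℕ) :
    MeasurableSet {ω | UU ρ q (S ω) z a b} :=
  (wired_meas Adj8 (h.vac ρ).compl _ _).compl

lemma nv_meas {S : Ω → Set Site} (h : RS S) (ρ : ℝ) (q : ℕ) (z : Site) (a b : ℕ) :
    MeasurableSet {ω | NV ρ q (S ω) z a b} :=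
  (wired_meas Adj4 (h.vac ρ) _ _).compl

end random

/-! ### the occupied sets -/

lemma ne_zero_meas {ι : Type*} (i : ι) : MeasurableSet {ω : ι → ℕ | ω i ≠ 0} := by
  have h1 : Measurable (fun ω : ι → ℕ => ω i) := measurable_pi_apply i
  exact h1 (MeasurableSet.of_discrete (s := {n : ℕ | n ≠ 0}))

lemma et_rs (q H : ℕ) (k : ℕ) : RS (fun ω : Conf q H => et ω k) := by
  intro x
  have : {ω : Conf q H | x ∈ et ω k} = ⋃ θ : FMark q H, ({ω : Conf q H | ω θ ≠ 0} ∩
      {ω | ∃ h : k < H + 1, FMark.site θ ⟨k, h⟩ = x}) := by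
    ext ω
    simp only [et, mem_ofPred_eq, mem_iUnion, mem_inter_iff]
  rw [this]
  exact MeasurableSet.iUnion fun θ => (ne_zero_meas θ).inter (MeasurableSet.const _)

lemma occ_rs : RS (fun η : Site → ℕ => occ η) := by
  intro x
  exact ne_zero_meas x

lemma eta_rs (q H : ℕ) (k : Fin (H + 1)) : RS (fun ω : Conf q H => eta ω k) := by
  intro x
  have : {ω : Conf q H | x ∈ eta ω k} = ⋃ θ : FMark q H, ({ω : Conf q H | ω θ ≠ 0} ∩
      {ω | FMark.site θ k = x}) := by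
    ext ω
    simp only [eta, mem_ofPred_eq, mem_iUnion, mem_inter_iff]
  rw [this]
  exact MeasurableSet.iUnion fun θ => (ne_zero_meas θ).inter (MeasurableSet.const _)

lemma safe_meas (q H : ℕ) (k : Fin H) (z : Site) : MeasurableSet {ω : Conf q H | SafeC ω k z} := by
  have : {ω : Conf q H | SafeC ω k z} = ⋂ θ : FMark q H,
      {ω : Conf q H | ω θ ≠ 0 → ((θ.1.D k : ℕ) : ℤ) < nrm (θ.1.c k.castSucc - z)} := by
    ext ω
    simp only [SafeC, mem_ofPred_eq, mem_iInter]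
  rw [this]
  exact MeasurableSet.iInter fun θ => (ne_zero_meas θ).imp (MeasurableSet.const _)

lemma hole_meas (q H m m' : ℕ) (z : Site) : MeasurableSet {ω : Conf q H | HoleC ω m m' z} := by
  have : {ω : Conf q H | HoleC ω m m' z} = ⋂ k : Fin H,
      {ω : Conf q H | m ≤ (k : ℕ) → (k : ℕ) < m' → SafeC ω k z} := by
    ext ω
    simp only [HoleC, mem_ofPred_eq, mem_iInter]
  rw [this]
  exact MeasurableSet.iInter fun k =>
    (MeasurableSet.const _).imp ((MeasurableSet.const _).imp (safe_meas q H k z))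

/-! ### monotonicity -/

lemma linked_mono {adj : Site → Site → Prop} {S S' : Set Site} (h : S ⊆ S') {x y : Site}
    (hl : Linked adj S x y) : Linked adj S' x y :=
  ⟨h hl.1, Relation.ReflTransGen.mono (fun _ _ hh => ⟨hh.1, h hh.2⟩) _ _ hl.2⟩

lemma wired_mono {adj : Site → Site → Prop} {S S' : Set Site} (h : S ⊆ S') {A B : Set Site}
    (hl : Wired adj S A B) : Wired adj S' A B := by
  obtain ⟨a, ha, b, hb, hab⟩ := hl
  exact ⟨a, ha, b, hb, linked_mono (union_subset_union_left _ (union_subset_union_left _ h)) hab⟩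

lemma vac_anti (ρ : ℝ) {S S' : Set Site} (h : S ⊆ S') : vacSites ρ S' ⊆ vacSites ρ S :=
  fun _ hz v hv => hz v (h hv)

lemma arm_anti {ρ : ℝ} {q : ℕ} {S S' : Set Site} (h : S ⊆ S') {z z' : Site} {a b : ℕ}
    (hA : Arm ρ q S' z a z' b) : Arm ρ q S z a z' b :=
  wired_mono (vac_anti ρ h) hA

lemma uu_anti {ρ : ℝ} {q : ℕ} {S S' : Set Site} (h : S ⊆ S') {z : Site} {a b : ℕ}
    (hA : UU ρ q S' z a b) : UU ρ q S z a b :=
  fun hw => hA (wired_mono (compl_subset_compl.2 (vac_anti ρ h)) hw)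

lemma ne_of_le {ι : Type*} {ω ω' : ι → ℕ} (h : ω ≤ ω') {i : ι} (hi : ω i ≠ 0) : ω' i ≠ 0 := by
  have h1 : ω i ≤ ω' i := h i
  intro h2
  exact hi (Nat.le_zero.1 (h2 ▸ h1))

lemma et_mono {q H : ℕ} {ω ω' : Conf q H} (h : ω ≤ ω') (k : ℕ) : et ω k ⊆ et ω' k := by
  rintro x ⟨θ, h0, h1⟩
  exact ⟨θ, ne_of_le h h0, h1⟩

lemma eta_mono {q H : ℕ} {ω ω' : Conf q H} (h : ω ≤ ω') (k : Fin (H + 1)) :
    eta ω k ⊆ eta ω' k := by
  rintro x ⟨θ, h0, h1⟩
  exact ⟨θ, ne_of_le h h0, h1⟩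

lemma safe_anti {q H : ℕ} {ω ω' : Conf q H} (h : ω ≤ ω') {k : Fin H} {z : Site}
    (hs : SafeC ω' k z) : SafeC ω k z :=
  fun θ h0 => hs θ (ne_of_le h h0)

lemma hole_anti {q H : ℕ} {ω ω' : Conf q H} (h : ω ≤ ω') {m m' : ℕ} {z : Site}
    (hs : HoleC ω' m m' z) : HoleC ω m m' z :=
  fun k h1 h2 => safe_anti h (hs k h1 h2)

lemma lam_anti {q H : ℕ} [NeZero q] {ρ : ℝ} {ω ω' : Conf q H} (h : ω ≤ ω') {m m' : ℕ} {z : Site}
    {l : ℕ} (hs : LamE ρ ω' m m' z l) : LamE ρ ω m m' z l := by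
  obtain ⟨h1, h2, b, hb, h3, h4, h5⟩ := hs
  exact ⟨uu_anti (et_mono h m) h1, uu_anti (et_mono h m') h2, b, hb, hole_anti h h3,
    arm_anti (et_mono h m) h4, arm_anti (et_mono h m') h5⟩

lemma lam_meas (q H : ℕ) [NeZero q] (ρ : ℝ) (m m' : ℕ) (z : Site) (l : ℕ) :
    MeasurableSet {ω : Conf q H | LamE ρ ω m m' z l} := by
  have : {ω : Conf q H | LamE ρ ω m m' z l} =
      {ω : Conf q H | UU ρ q (et ω m) z l (2 * l)} ∩ ({ω : Conf q H | UU ρ q (et ω m') z l (2 * l)} ∩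
      ⋃ b : Site, ({ω | b ∈ box z l} ∩ ({ω : Conf q H | HoleC ω m m' b} ∩
        ({ω : Conf q H | Arm ρ q (et ω m) b 0 z (2 * l)} ∩
          {ω : Conf q H | Arm ρ q (et ω m') b 0 z (2 * l)})))) := by
    ext ω
    simp only [LamE, mem_ofPred_eq, mem_iUnion, mem_inter_iff]
  rw [this]
  exact (uu_meas (et_rs q H m) ρ q z l (2 * l)).inter ((uu_meas (et_rs q H m') ρ q z l (2 * l)).inter
    (MeasurableSet.iUnion fun b => (MeasurableSet.const _).inter ((hole_meas q H m m' b).inter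
      ((arm_meas (et_rs q H m) ρ q b 0 z (2 * l)).inter
        (arm_meas (et_rs q H m') ρ q b 0 z (2 * l))))))

end MEAS

theorem stmt_MEAS : Stmt_MEAS := by
  intro q H _ ρ m m' z z' a b
  refine ⟨⟨MEAS.arm_meas (MEAS.et_rs q H m) ρ q z a z' b, ?_⟩,
    ⟨MEAS.uu_meas (MEAS.et_rs q H m) ρ q z a b, ?_⟩, ⟨MEAS.hole_meas q H m m' z, ?_⟩,
    ⟨MEAS.lam_meas q H ρ m m' z a, ?_⟩, MEAS.arm_meas MEAS.occ_rs ρ q z a z' b,
    MEAS.uu_meas MEAS.occ_rs ρ q z a b, MEAS.nv_meas MEAS.occ_rs ρ q z a b⟩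
  · intro ω ω' h hE
    exact MEAS.arm_anti (MEAS.et_mono h m) hE
  · intro ω ω' h hE
    exact MEAS.uu_anti (MEAS.et_mono h m) hE
  · intro ω ω' h hE
    exact MEAS.hole_anti h hE
  · intro ω ω' h hE
    exact MEAS.lam_anti h hE

end MPdd5692
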