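import Pool.Agent.Work.MP_dd5692_pr.MIX

/-!
# MP_dd5692_pr, block INDEP: events depending on disjoint sets of coordinates are independent.
-/

open MeasureTheory ProbabilityTheory Set
open scoped ENNReal NNReal BigOperators

namespace MPdd5692

namespace INDEP

variable {ι : Type}

/-- two events -/
theorem two (μ : ι → ℝ≥0) (A : Set ι) {E F : Set (ι → ℕ)} (hE : MeasurableSet E)
    (hF : MeasurableSet F) (dE : DepOn A E) (dF : DepOn Aᶜ F) :
    (pois μ).real (E ∩ F) = (pois μ).real E * (pois μ).real F := by
  classical
  rw [← (MIX.mp μ A).measureReal_preimage (hE.inter hF).nullMeasurableSet,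
    ← measureReal_prod_prod]
  congr 1
  ext p
  have h1 : MIX.mx A p ∈ E ↔ p.1 ∈ E := dE _ _ fun i hi => by simp [MIX.mx, hi]
  have h2 : MIX.mx A p ∈ F ↔ p.2 ∈ F := dF _ _ fun i hi => by
    have : i ∉ A := hi
    simp [MIX.mx, this]
  simp only [Set.mem_preimage, Set.mem_inter_iff, Set.mem_prod, h1, h2]

end INDEP

theorem stmt_INDEP : Stmt_INDEP := by
  classical
  intro ι _ μ κ s A E hE dE hA
  induction s using Finset.induction_on with
  | empty => simp
  | insert k s hk ih =>
    have ih' := ih (fun l hl => hE l (Finset.mem_insert_of_mem hl))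
      (fun l hl => dE l (Finset.mem_insert_of_mem hl))
      (fun l hl l' hl' => hA l (Finset.mem_insert_of_mem hl) l' (Finset.mem_insert_of_mem hl'))
    rw [Finset.prod_insert hk, Finset.set_biInter_insert, ← ih']
    refine INDEP.two μ (A k) (hE k (Finset.mem_insert_self k s))
      (Finset.measurableSet_biInter s fun l hl => hE l (Finset.mem_insert_of_mem hl))
      (dE k (Finset.mem_insert_self k s)) ?_
    intro ω ω' h
    simp only [Set.mem_iInter]
    refine forall₂_congr fun l hl => dE l (Finset.mem_insert_of_mem hl) ω ω' fun i hi => ?_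
    refine h i fun hi' => ?_
    have hkl : k ≠ l := fun h' => hk (h' ▸ hl)
    exact Set.disjoint_left.1 (hA k (Finset.mem_insert_self k s) l (Finset.mem_insert_of_mem hl) hkl)
      hi' hi

end MPdd5692
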