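import Pool.Agent.Work.MP_dd5692_pr.InterfaceP
import Pool.Agent.Work.MP_dd5692_pr.INDEP

/-!
# MP_dd5692_pr, block STATIC: at every time the occupied set has the static law. helper66
-/

open MeasureTheory ProbabilityTheory Set
open scoped ENNReal NNReal BigOperators

namespace MPdd5692

namespace STATIC

theorem cntC (q H : ℕ) : Countable (CMark q H) := by
  refine Function.Injective.countable
    (f := fun ξ : CMark q H => ((ξ.c, ξ.g), (ξ.b, ξ.r))) ?_
  rintro ⟨c, g, b, r⟩ ⟨c', g', b', r'⟩ h
  simp only [Prod.mk.injEq] at h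
  obtain ⟨⟨rfl, rfl⟩, rfl, rfl⟩ := h
  rfl

theorem cntF (q H : ℕ) : Countable (FMark q H) := by
  have := cntC q H
  infer_instance

/-- indicator of occupation -/
def bb (n : ℕ) : ℕ := if n = 0 then 0 else 1

theorem bb_meas : Measurable bb := measurable_from_nat

open Classical in
/-- occupation variables at time `k` -/
noncomputable def NN {q H : ℕ} (k : ℕ) (ω : Conf q H) : Site → ℕ :=
  fun x => if x ∈ et ω k then 1 else 0

theorem occ_NN {q H : ℕ} (k : ℕ) (ω : Conf q H) : occ (NN k ω) = et ω k := by
  ext x; simp [occ, NN]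

theorem occ_bb (η : Site → ℕ) : occ (fun x => bb (η x)) = occ η := by
  ext x; simp [occ, bb]

theorem mem_et_meas {q H : ℕ} (k : ℕ) (x : Site) : MeasurableSet {ω : Conf q H | x ∈ et ω k} := by
  have := cntF q H
  have : {ω : Conf q H | x ∈ et ω k}
      = ⋃ θ : FMark q H, {ω | ω θ ≠ 0 ∧ ∃ h : k < H + 1, FMark.site θ ⟨k, h⟩ = x} := by
    ext ω; simp [et]
  rw [this]
  refine MeasurableSet.iUnion fun θ => ?_
  by_cases hx : ∃ h : k < H + 1, FMark.site θ ⟨k, h⟩ = x
  · have : {ω : Conf q H | ω θ ≠ 0 ∧ ∃ h : k < H + 1, FMark.site θ ⟨k, h⟩ = x}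
        = (fun ω : Conf q H => ω θ) ⁻¹' {n | n ≠ 0} := by
      ext ω; simp only [mem_setOf_eq, mem_preimage, hx, and_true]
    rw [this]
    exact (measurable_pi_apply θ) trivial
  · have : {ω : Conf q H | ω θ ≠ 0 ∧ ∃ h : k < H + 1, FMark.site θ ⟨k, h⟩ = x} = ∅ := by
      ext ω; simp only [mem_setOf_eq, mem_empty_iff_false, hx, and_false]
    rw [this]
    exact MeasurableSet.empty

theorem NN_meas {q H : ℕ} (k : ℕ) : Measurable (NN (q := q) (H := H) k) := by
  refine measurable_pi_iff.2 fun x => ?_
  unfold NN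
  exact Measurable.ite (mem_et_meas k x) measurable_const measurable_const

/-- two probability measures on `ℕ` which do not charge the numbers `≥ 2` and agree on `0` -/
theorem nat_eq (μ ν : Measure ℕ) [IsProbabilityMeasure μ] [IsProbabilityMeasure ν]
    (hμ : μ {0, 1}ᶜ = 0) (hν : ν {0, 1}ᶜ = 0) (h0 : μ {0} = ν {0}) : μ = ν := by
  have key : ∀ (ρ : Measure ℕ) [IsProbabilityMeasure ρ], ρ {0, 1}ᶜ = 0 → ρ {1} = 1 - ρ {0} := by
    intro ρ _ hρ
    have h1 : ρ {0, 1} = 1 := by
      have := prob_compl_eq_zero_iff (μ := ρ) (s := {0, 1}) (by measurability)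
      exact this.1 hρ
    have h2 : ρ {0, 1} = ρ {0} + ρ {1} := by
      rw [show ({0, 1} : Set ℕ) = {0} ∪ {1} from rfl]
      exact measure_union (by simp) (by measurability)
    rw [h2] at h1
    rw [← h1]
    exact (ENNReal.add_sub_cancel_left (measure_ne_top _ _)).symm
  refine Measure.ext_of_singleton fun n => ?_
  by_cases hn0 : n = 0
  · rw [hn0, h0]
  by_cases hn1 : n = 1
  · rw [hn1, key μ hμ, key ν hν, h0]
  · have hsub : ({n} : Set ℕ) ⊆ {0, 1}ᶜ := by
      intro m hm
      simp only [mem_singleton_iff] at hm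
      subst hm
      simp [hn0, hn1]
    rw [measure_mono_null hsub hμ, measure_mono_null hsub hν]

end STATIC

open STATIC

theorem stmt_STATIC (h1 : Stmt_VOID) : Stmt_STATIC := by
  intro q H j _ δ Λ L lam k hk E hE
  have := cntF q H
  have := cntC q H
  have hk1 : k < H + 1 := by omega
  set A : Set (Site → ℕ) := {η : Site → ℕ | E (occ η)} with hA
  have hpre : {ω : Conf q H | E (et ω k)} = NN k ⁻¹' A := by
    ext ω
    simp only [mem_setOf_eq, mem_preimage, hA, occ_NN]
  have hmeas : MeasurableSet {ω : Conf q H | E (et ω k)} := by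
    rw [hpre]; exact NN_meas k hE
  refine ⟨hmeas, ?_⟩
  set l0 : ℝ≥0 := lam * (1 / 4) ^ j with hl0
  have hpreA : A = (fun η : Site → ℕ => fun x => bb (η x)) ⁻¹' A := by
    ext η
    simp only [mem_preimage, hA, mem_setOf_eq, occ_bb]
  have hbm : Measurable (fun η : Site → ℕ => fun x => bb (η x)) :=
    measurable_pi_iff.2 fun x => bb_meas.comp (measurable_pi_apply x)
  -- the law of the occupation variables
  set ν : Measure ℕ := (poissonMeasure l0).map bb with hν
  have : IsProbabilityMeasure ν := Measure.isProbabilityMeasure_map bb_meas.aemeasurable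
  have e1 : (stat lam j).map (fun η : Site → ℕ => fun x => bb (η x))
      = Measure.infinitePi (fun _ : Site => ν) := by
    unfold stat
    exact Measure.infinitePi_map_pi _ fun _ => bb_meas
  have hν0 : ν {0} = ENNReal.ofReal (Real.exp (-(l0 : ℝ))) := by
    rw [hν, Measure.map_apply bb_meas (measurableSet_singleton 0)]
    have : bb ⁻¹' {0} = {0} := by
      ext n; simp [bb]
    rw [this, poissonMeasure_singleton]
    simp
  have hνc : ν {0, 1}ᶜ = 0 := by
    rw [hν, Measure.map_apply bb_meas (by measurability)]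
    have : bb ⁻¹' {0, 1}ᶜ = ∅ := by
      ext n
      by_cases hn : n = 0 <;> simp [bb, hn]
    rw [this, measure_empty]
  -- the law of one occupation variable at time `k`
  have hPP : L.PP lam = pois (fun θ : FMark q H => lam * L.fine θ) := rfl
  have e2 : ∀ x : Site, (L.PP lam).map (fun ω => NN k ω x) = ν := by
    intro x
    have hm : Measurable (fun ω : Conf q H => NN k ω x) :=
      (measurable_pi_apply x).comp (NN_meas k)
    have : IsProbabilityMeasure (L.PP lam) := by rw [hPP]; infer_instance
    have : IsProbabilityMeasure ((L.PP lam).map (fun ω => NN k ω x)) :=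
      Measure.isProbabilityMeasure_map hm.aemeasurable
    refine nat_eq _ _ ?_ hνc ?_
    · rw [Measure.map_apply hm (by measurability)]
      have : (fun ω : Conf q H => NN k ω x) ⁻¹' {0, 1}ᶜ = ∅ := by
        ext ω
        by_cases hx : x ∈ et ω k <;> simp [NN, hx]
      rw [this, measure_empty]
    · rw [Measure.map_apply hm (measurableSet_singleton 0), hν0]
      have hset : (fun ω : Conf q H => NN k ω x) ⁻¹' {0}
          = {ω : Conf q H | ∀ θ ∈ {θ : FMark q H | FMark.site θ ⟨k, hk1⟩ = x}, ω θ = 0} := by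
        ext ω
        simp only [mem_preimage, NN, mem_singleton_iff, mem_setOf_eq, et]
        constructor
        · intro h θ hθ
          by_contra hne
          rw [if_pos ⟨θ, hne, hk1, hθ⟩] at h
          exact one_ne_zero h
        · intro h
          rw [if_neg]
          rintro ⟨θ, hne, h', hθ⟩
          exact hne (h θ hθ)
      have hs := L.static ⟨k, hk1⟩ x
      have hs' : HasSum (fun θ : {θ : FMark q H | FMark.site θ ⟨k, hk1⟩ = x} =>
          (((lam * L.fine θ.1 : ℝ≥0)) : ℝ)) ((lam : ℝ) * (1 / 4) ^ j) := by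
        have h := hs.mul_left (lam : ℝ)
        have e : (fun θ : {θ : FMark q H | FMark.site θ ⟨k, hk1⟩ = x} =>
            (((lam * L.fine θ.1 : ℝ≥0)) : ℝ)) = fun θ => (lam : ℝ) * (fineOf L.m θ.1 : ℝ) := by
          funext θ; simp only [MarkLaw.fine, NNReal.coe_mul]
        rw [e]; exact h
      obtain ⟨-, hv⟩ := h1 (FMark q H) (fun θ => lam * L.fine θ)
        {θ : FMark q H | FMark.site θ ⟨k, hk1⟩ = x} hs'.summable
      rw [hset, hPP, ← ENNReal.ofReal_toReal (measure_ne_top _ _)]
      congr 1
      rw [← measureReal_def, hv, hs'.tsum_eq]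
      congr 2
  -- independence
  have e3 : (L.PP lam).map (NN k) = Measure.infinitePi (fun _ : Site => ν) := by
    have : IsProbabilityMeasure (L.PP lam) := by rw [hPP]; infer_instance
    refine Measure.eq_infinitePi _ fun s t ht => ?_
    rw [Measure.map_apply (NN_meas k) (.pi s.countable_toSet fun _ _ => ht _)]
    have hset : NN (q := q) (H := H) k ⁻¹' Set.pi s t
        = ⋂ x ∈ s, {ω : Conf q H | NN k ω x ∈ t x} := by
      ext ω; simp [Set.mem_pi]
    have hI := stmt_INDEP (FMark q H) (fun θ => lam * L.fine θ) Site s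
      (fun x => {θ : FMark q H | FMark.site θ ⟨k, hk1⟩ = x})
      (fun x => {ω : Conf q H | NN k ω x ∈ t x})
      (fun x _ => (measurable_pi_apply x).comp (NN_meas k) (ht x))
      (by
        intro x _ ω ω' h
        have : x ∈ et ω k ↔ x ∈ et ω' k := by
          simp only [et, mem_setOf_eq]
          constructor
          · rintro ⟨θ, hne, h', hθ⟩
            exact ⟨θ, by rw [← h θ hθ]; exact hne, h', hθ⟩
          · rintro ⟨θ, hne, h', hθ⟩
            exact ⟨θ, by rw [h θ hθ]; exact hne, h', hθ⟩
        have h2 : NN k ω x = NN k ω' x := by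
          unfold NN
          by_cases hx : x ∈ et ω k
          · rw [if_pos hx, if_pos (this.1 hx)]
          · rw [if_neg hx, if_neg fun h' => hx (this.2 h')]
        simp only [mem_setOf_eq, h2])
      (by
        intro x _ y _ hxy
        refine Set.disjoint_left.2 fun θ hθ hθ' => hxy ?_
        exact hθ.symm.trans hθ')
    rw [← hPP] at hI
    rw [hset, ← ENNReal.ofReal_toReal (measure_ne_top (L.PP lam) _), ← measureReal_def, hI,
      ENNReal.ofReal_prod_of_nonneg fun _ _ => measureReal_nonneg]
    refine Finset.prod_congr rfl fun x _ => ?_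
    have hm : Measurable (fun ω : Conf q H => NN k ω x) :=
      (measurable_pi_apply x).comp (NN_meas k)
    rw [measureReal_def, ENNReal.ofReal_toReal (measure_ne_top _ _), ← e2 x,
      Measure.map_apply hm (ht x)]
    rfl
  rw [hpre, measureReal_def, ← Measure.map_apply (NN_meas k) hE, e3, ← e1,
    Measure.map_apply hbm hE, ← hpreA]
  rfl

end MPdd5692
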