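import Pool.Agent.Work.MP_dd5692_pr.InterfaceP

/-!
# MP_dd5692_pr, block VOID: probability that there is no particle in a set of indices.
-/

open MeasureTheory ProbabilityTheory Set
open scoped ENNReal NNReal BigOperators

namespace MPdd5692

theorem stmt_VOID : Stmt_VOID := by
  intro ι _ μ A hA
  have hset : {ω : ι → ℕ | ∀ i ∈ A, ω i = 0} = Set.pi A (fun _ => ({0} : Set ℕ)) := by
    ext ω
    simp [Set.mem_pi]
  have hprod : HasProd (fun i : A => ENNReal.ofReal (Real.exp (-(μ i : ℝ))))
      (ENNReal.ofReal (Real.exp (-∑' i : A, (μ i : ℝ)))) := by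
    have h := hA.hasSum
    unfold HasSum at h
    unfold HasProd
    have hc : Continuous fun x : ℝ => ENNReal.ofReal (Real.exp (-x)) :=
      ENNReal.continuous_ofReal.comp (Real.continuous_exp.comp continuous_neg)
    refine ((hc.tendsto _).comp h).congr fun s => ?_
    show ENNReal.ofReal (Real.exp (-∑ i ∈ s, (μ i : ℝ))) = _
    rw [← Finset.sum_neg_distrib, Real.exp_sum, ENNReal.ofReal_prod_of_nonneg]
    exact fun i _ => (Real.exp_pos _).le
  refine ⟨?_, ?_⟩
  · rw [hset]
    exact MeasurableSet.pi (Set.to_countable A) fun i _ => measurableSet_singleton 0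
  · rw [measureReal_def, hset, pois,
      Measure.infinitePi_pi_of_countable _ (Set.to_countable A).to_subtype
        (fun i _ => measurableSet_singleton 0)]
    have h0 : ∀ i : A, poissonMeasure (μ i) ({0} : Set ℕ) =
        ENNReal.ofReal (Real.exp (-(μ i : ℝ))) := by
      intro i
      rw [poissonMeasure_singleton]
      simp
    rw [show (fun i : A => poissonMeasure (μ i) ({0} : Set ℕ)) =
      fun i : A => ENNReal.ofReal (Real.exp (-(μ i : ℝ))) from funext h0, hprod.tprod_eq,
      ENNReal.toReal_ofReal (Real.exp_pos _).le]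

end MPdd5692
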