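import Mathlib
import Pool.Agent.Work.MP_dd5692_pr.InterfaceF
import Pool.Agent.Work.MP_dd5692_pr.LocLib42
import Pool.Agent.Work.MP_dd5692_pr.LINK
import Pool.Agent.Work.MP_dd5692_pr.MEAS
import Pool.Agent.Work.MP_dd5692_pr.STATIC
import Pool.Agent.Work.MP_dd5692_pr.VOID
import Pool.Agent.Work.MP_dd5692_pr.W2
import Pool.Agent.Work.MP_dd5692_pr.W6

/-!
# MP_dd5692_pr, block BRIDGE (helper11): from the fine family and `SurvT` to `markLaw`, `Survives`.
-/

open MeasureTheory ProbabilityTheory Set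
open scoped ENNReal NNReal BigOperators

namespace MPdd5692
namespace BRIDGE

/-! ### the presence map -/

section det

variable {q H K : ℕ}

/-- mark (in the sense of `Iface98`, up to time `K`) of a fine mark -/
noncomputable def proj (h : K ≤ H) (θ : FMark q H) : Mark K :=
  (fun k => FMark.site θ (Fin.castLE (Nat.succ_le_succ h) k), fun k => θ.1.b (Fin.castLE h k))

open Classical in
/-- presence of the marks -/
noncomputable def pres (h : K ≤ H) (ω : Conf q H) : Mark K → ℕ :=
  fun m => if ∃ θ, proj h θ = m ∧ ω θ ≠ 0 then 1 else 0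

theorem pres_ne (h : K ≤ H) (ω : Conf q H) (m : Mark K) :
    pres h ω m ≠ 0 ↔ ∃ θ, proj h θ = m ∧ ω θ ≠ 0 := by
  unfold pres
  by_cases hx : ∃ θ, proj h θ = m ∧ ω θ ≠ 0
  · rw [if_pos hx]; simp only [ne_eq, one_ne_zero, not_false_eq_true, true_iff]; exact hx
  · rw [if_neg hx]; simp only [ne_eq, not_true_eq_false, false_iff]; exact hx

theorem occAt_pres (h : K ≤ H) (ω : Conf q H) (k : Fin (K + 1)) :
    occAt (pres h ω) k = et ω (k : ℕ) := by
  ext v
  simp only [occAt, et, mem_ofPred_eq]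
  constructor
  · rintro ⟨m, hm, rfl⟩
    obtain ⟨θ, rfl, hθ⟩ := (pres_ne h ω m).1 hm
    exact ⟨θ, hθ, by omega, rfl⟩
  · rintro ⟨θ, hθ, hk, rfl⟩
    exact ⟨proj h θ, (pres_ne h ω _).2 ⟨θ, rfl, hθ⟩, rfl⟩

theorem div_up {q : ℕ} (hq : 0 < q) (a b : ℤ) : |a - b| ≤ q * (|a / q - b / q| + 1) := by
  have hq' : (0 : ℤ) < q := by exact_mod_cast hq
  have h1 := Int.mul_ediv_add_emod a q
  have h2 := Int.mul_ediv_add_emod b q
  have h3 := Int.emod_nonneg a hq'.ne'
  have h4 := Int.emod_lt_of_pos a hq'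
  have h5 := Int.emod_nonneg b hq'.ne'
  have h6 := Int.emod_lt_of_pos b hq'
  have e : a - b = q * (a / q - b / q) + (a % q - b % q) := by linarith
  rw [e]
  refine (abs_add_le _ _).trans ?_
  rw [abs_mul, abs_of_pos hq', mul_add, mul_one]
  have : |a % (q : ℤ) - b % q| ≤ q := by rw [abs_le]; constructor <;> linarith
  linarith

theorem div_lo {q : ℕ} (hq : 0 < q) (a b : ℤ) : q * (|a / q - b / q| - 1) ≤ |a - b| := by
  have hq' : (0 : ℤ) < q := by exact_mod_cast hq
  have h1 := Int.mul_ediv_add_emod a q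
  have h2 := Int.mul_ediv_add_emod b q
  have h3 := Int.emod_nonneg a hq'.ne'
  have h4 := Int.emod_lt_of_pos a hq'
  have h5 := Int.emod_nonneg b hq'.ne'
  have h6 := Int.emod_lt_of_pos b hq'
  have e : (q : ℤ) * (a / q - b / q) = (a - b) - (a % q - b % q) := by linarith
  have e2 : (q : ℤ) * |a / q - b / q| = |(a - b) - (a % q - b % q)| := by
    rw [← e, abs_mul, abs_of_pos hq']
  rw [mul_sub, mul_one, e2]
  have e3 := abs_sub (a - b) (a % q - b % q)
  have : |a % (q : ℤ) - b % q| ≤ q := by rw [abs_le]; constructor <;> linarith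
  linarith

/-- `nrm` as a real number -/
theorem supN_eq (x : Site) : supN x = (nrm x : ℝ) := by
  unfold supN nrm
  push_cast
  rfl

theorem nrm_up {q : ℕ} (hq : 0 < q) (x y : Site) :
    nrm (x - y) ≤ q * (nrm (cidx q x - cidx q y) + 1) := by
  have hq' : (0 : ℤ) < q := by exact_mod_cast hq
  rw [LocLib.nrm_le]
  constructor
  · refine (div_up hq x.1 y.1).trans ?_
    gcongr
    exact le_max_left _ _
  · refine (div_up hq x.2 y.2).trans ?_
    gcongr
    exact le_max_right _ _

theorem nrm_lo {q : ℕ} (hq : 0 < q) (x y : Site) :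
    q * (nrm (cidx q x - cidx q y) - 1) ≤ nrm (x - y) := by
  rcases le_total |(cidx q x - cidx q y).2| |(cidx q x - cidx q y).1| with h | h
  · have : nrm (cidx q x - cidx q y) = |(cidx q x - cidx q y).1| := max_eq_left h
    rw [this]
    exact (div_lo hq x.1 y.1).trans (le_max_left _ _)
  · have : nrm (cidx q x - cidx q y) = |(cidx q x - cidx q y).2| := max_eq_right h
    rw [this]
    exact (div_lo hq x.2 y.2).trans (le_max_right _ _)

/-- safe s-cells give safe sites -/
theorem safe_of_safeC {s j : ℕ} {r : ℝ} (hr : 0 < r) (hs : 20 * (r + 5) ≤ s) [NeZero (s * 2 ^ j)]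
    (h : K ≤ H) (ω : Conf (s * 2 ^ j) H) (k : Fin K) (y : Site)
    (hC : SafeC ω (Fin.castLE h k) (cidx (s * 2 ^ j) y)) : Safe r j (pres h ω) k y := by
  intro m hm
  obtain ⟨θ, rfl, hθ⟩ := (pres_ne h ω m).1 hm
  have hq : 0 < s * 2 ^ j := Nat.pos_of_ne_zero (NeZero.ne _)
  have h1 := hC θ hθ
  set k' : Fin H := Fin.castLE h k with hk'
  set X := FMark.site θ k'.castSucc with hX
  set Y := FMark.site θ k'.succ with hY
  have e1 : cidx (s * 2 ^ j) X = θ.1.c k'.castSucc := LocLib.cidx_site θ _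
  have e2 : cidx (s * 2 ^ j) Y = θ.1.c k'.succ := LocLib.cidx_site θ _
  have g1 : (proj h θ).1 k.castSucc = X := rfl
  have g2 : (proj h θ).1 k.succ = Y := rfl
  have g3 : (proj h θ).2 k = θ.1.b k' := rfl
  rw [g1, g2, g3, supN_eq, supN_eq]
  have u1 := nrm_up hq X Y
  have u2 := nrm_lo hq X y
  rw [e1, e2] at u1
  rw [e1] at u2
  set d : ℤ := nrm (θ.1.c k'.castSucc - θ.1.c k'.succ) with hd
  have hd0 : 0 ≤ d := LocLib.nrm_nonneg _
  have h2 : d + θ.1.b k' + 12 < nrm (θ.1.c k'.castSucc - cidx (s * 2 ^ j) y) := by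
    unfold CMark.D at h1
    push_cast at h1
    rw [Int.toNat_of_nonneg (LocLib.nrm_nonneg _), LocLib.nrm_sub_comm, ← hd] at h1
    exact h1
  have hm : mesh j * ((s * 2 ^ j : ℕ) : ℝ) = s := by
    unfold mesh
    push_cast
    rw [mul_left_comm, ← mul_pow]
    norm_num
  have hmp := mesh_pos j
  have hm1 : mesh j ≤ 1 := by
    unfold mesh
    exact pow_le_one₀ (by norm_num) (by norm_num)
  have hb : (0 : ℝ) ≤ θ.1.b k' := Nat.cast_nonneg _
  have v1 : mesh j * (nrm (X - Y) : ℝ) ≤ s * (d + 1) := by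
    rw [← hm, mul_assoc]
    gcongr
    exact_mod_cast u1
  have v2 : (s : ℝ) * (d + θ.1.b k' + 12) ≤ mesh j * (nrm (X - y) : ℝ) := by
    rw [← hm, mul_assoc]
    gcongr
    have : ((s * 2 ^ j : ℕ) : ℤ) * (d + θ.1.b k' + 12)
        ≤ (s * 2 ^ j : ℕ) * (nrm (θ.1.c k'.castSucc - cidx (s * 2 ^ j) y) - 1) := by
      gcongr
      omega
    exact_mod_cast this.trans u2
  have hs100 : (100 : ℝ) ≤ s := by linarith
  have v3 : (θ.1.b k' : ℝ) ≤ s * θ.1.b k' := by nlinarith
  nlinarith

theorem q_ge {s j : ℕ} {r : ℝ} (hs : 20 * (r + 5) ≤ s) :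
    20 * (range r j + 2) ≤ ((s * 2 ^ j : ℕ) : ℝ) := by
  have h2 : (1 : ℝ) ≤ 2 ^ j := one_le_pow₀ (by norm_num)
  have e : range r j = r * 2 ^ j + 3 := by
    unfold range mesh
    rw [one_div, inv_pow, div_inv_eq_mul]
  rw [e]
  push_cast
  nlinarith

theorem range_nn {j : ℕ} {r : ℝ} (hr : 0 < r) : 0 ≤ range r j := by
  unfold range mesh
  positivity

/-- all the sites of an s-cell without particle nearby are vacant -/
theorem vac_of_far {ρ : ℝ} [NeZero q] (hρ : 0 ≤ ρ) (hq : 20 * (ρ + 2) ≤ q) (ω : Conf q H)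
    {k : ℕ} (hk : k < H + 1) (x : Site)
    (hfar : ∀ θ : FMark q H, ω θ ≠ 0 → 1 < nrm (θ.1.c ⟨k, hk⟩ - cidx q x)) :
    x ∈ vacSites ρ (et ω k) := by
  rintro v ⟨θ, hθ, hk', rfl⟩ ho
  have h1 := LocLib.nrm_cidx_le hρ hq ho
  rw [LocLib.cidx_site] at h1
  exact absurd (hfar θ hθ) (not_lt.2 h1)

/-- at the beginning of the step -/
theorem vac_before {ρ : ℝ} [NeZero q] (hρ : 0 ≤ ρ) (hq : 20 * (ρ + 2) ≤ q) (ω : Conf q H)
    (k : Fin H) (x : Site) (hC : SafeC ω k (cidx q x)) : x ∈ vacSites ρ (et ω (k : ℕ)) := by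
  refine vac_of_far hρ hq ω (k := (k : ℕ)) (by omega) x fun θ hθ => ?_
  have h1 := hC θ hθ
  have e : (⟨(k : ℕ), by omega⟩ : Fin (H + 1)) = k.castSucc := rfl
  rw [e]
  unfold CMark.D at h1
  push_cast at h1
  omega

/-- at the end of the step -/
theorem vac_after {ρ : ℝ} [NeZero q] (hρ : 0 ≤ ρ) (hq : 20 * (ρ + 2) ≤ q) (ω : Conf q H)
    (k : Fin H) (x : Site) (hC : SafeC ω k (cidx q x)) :
    x ∈ vacSites ρ (et ω ((k : ℕ) + 1)) := by
  refine vac_of_far hρ hq ω (k := (k : ℕ) + 1) (by omega) x fun θ hθ => ?_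
  have h1 := hC θ hθ
  have e : (⟨(k : ℕ) + 1, by omega⟩ : Fin (H + 1)) = k.succ := rfl
  rw [e]
  unfold CMark.D at h1
  push_cast at h1
  rw [Int.toNat_of_nonneg (LocLib.nrm_nonneg _)] at h1
  have h2 := LocLib.nrm_tri (θ.1.c k.castSucc) (θ.1.c k.succ) (cidx q x)
  rw [LocLib.nrm_sub_comm (θ.1.c k.castSucc) (θ.1.c k.succ)] at h2
  omega

theorem mem_cbox_zero (w x : Site) : x ∈ cbox q w 0 ↔ cidx q x = w := by
  unfold cbox box
  simp only [mem_ofPred_eq, Nat.cast_zero]
  constructor
  · intro h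
    have h1 := (LocLib.nrm_le.1 h).1
    have h2 := (LocLib.nrm_le.1 h).2
    have h3 := abs_nonpos_iff.1 h1
    have h4 := abs_nonpos_iff.1 h2
    exact Prod.ext (sub_eq_zero.1 h3) (sub_eq_zero.1 h4)
  · intro h
    rw [h, sub_self, LocLib.nrm_zero]

/-- the chain of sites -/
theorem chain {ρ : ℝ} [NeZero q] (hρ : 0 ≤ ρ) (hq : 20 * (ρ + 2) ≤ q) (h : K ≤ H) (ω : Conf q H)
    (z : ℕ → Site) (hz0 : z 0 = 0)
    (hsafe : ∀ k : Fin H, (k : ℕ) < K → SafeC ω k (z k))
    (hlink : ∀ k : ℕ, 0 < k → k < K → (z (k - 1) = z k ∨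
      LinkedS Adj4 (vacSites ρ (et ω k)) (cbox q (z (k - 1)) 0) (cbox q (z k) 0))) :
    ∀ n ≤ K, ∃ y : ℕ → Site, y 0 = 0 ∧ ∀ k < n, cidx q (y (k + 1)) = z k ∧
      Linked Adj4 (vacSites ρ (et ω k)) (y k) (y (k + 1)) := by
  have hq0 : 0 < q := Nat.pos_of_ne_zero (NeZero.ne _)
  intro n
  induction n with
  | zero => intro _; exact ⟨fun _ => 0, rfl, fun k hk => absurd hk (Nat.not_lt_zero _)⟩
  | succ n ih =>
    intro hn
    obtain ⟨y, hy0, hy⟩ := ih (by omega)
    -- the next site
    obtain ⟨w, hw1, hw2⟩ : ∃ w : Site, cidx q w = z n ∧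
        Linked Adj4 (vacSites ρ (et ω n)) (y n) w := by
      have hS := hsafe ⟨n, by omega⟩ hn
      simp only at hS
      rcases Nat.eq_zero_or_pos n with rfl | hn0
      · have e : cidx q (0 : Site) = z 0 := by
          rw [hz0]; unfold cidx; simp
        refine ⟨0, e, ?_⟩
        rw [hy0]
        refine Linked.refl ?_
        exact vac_before hρ hq ω ⟨0, by omega⟩ 0 (by rw [e]; exact hS)
      · obtain ⟨hc, -⟩ := hy (n - 1) (by omega)
        rw [Nat.sub_add_cancel hn0] at hc
        rcases hlink n hn0 (by omega) with heq | hL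
        · refine ⟨y n, hc.trans heq, Linked.refl ?_⟩
          exact vac_before hρ hq ω ⟨n, by omega⟩ (y n) (by rw [hc, heq]; exact hS)
        · obtain ⟨a, ha, b, hb, hl⟩ := hL
          have hS' := hsafe ⟨n - 1, by omega⟩ (by simp only; omega)
          simp only at hS'
          refine ⟨b, (mem_cbox_zero _ _).1 hb, Linked.trans ?_ hl⟩
          refine (LINK.cbox_linked hq0 (z (n - 1)) 0 (y n) a ((mem_cbox_zero _ _).2 hc) ha).mono ?_
          intro x hx
          have := vac_after hρ hq ω ⟨n - 1, by omega⟩ x (by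
            rw [(mem_cbox_zero _ _).1 hx]; exact hS')
          simp only [Nat.sub_add_cancel hn0] at this
          exact this
    refine ⟨Function.update y (n + 1) w, ?_, ?_⟩
    · rw [Function.update_of_ne (by omega)]; exact hy0
    · intro k hk
      rcases Nat.lt_succ_iff_lt_or_eq.1 hk with hk1 | rfl
      · rw [Function.update_of_ne (by omega), Function.update_of_ne (by omega)]
        exact hy k hk1
      · rw [Function.update_self, Function.update_of_ne (by omega)]
        exact ⟨hw1, hw2⟩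

/-- the deterministic inclusion -/
theorem survives {s j : ℕ} {r : ℝ} (hr : 0 < r) (hs : 20 * (r + 5) ≤ s) [NeZero (s * 2 ^ j)]
    (h : K ≤ H) (ω : Conf (s * 2 ^ j) H) (hS : SurvT (range r j) ω 0 0 K) :
    Survives r j (pres h ω) := by
  obtain ⟨z, hz0, hsafe, hlink⟩ := hS
  obtain ⟨y, hy0, hy⟩ := chain (range_nn hr) (q_ge hs) h ω z hz0
    (fun k hk => hsafe k (Nat.zero_le _) hk) hlink K le_rfl
  refine ⟨fun k => y k, hy0, fun k => ⟨?_, ?_⟩⟩
  · rw [occAt_pres]
    exact (hy k k.2).2
  · refine safe_of_safeC hr hs h ω k _ ?_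
    have h1 := (hy k k.2).1
    have h2 := hsafe (Fin.castLE h k) (Nat.zero_le _) k.2
    simp only [Fin.val_succ]
    rw [h1]
    exact h2

end det

/-! ### the masses -/

section mass

lemma heat_meas (T : ℝ) : Measurable (fun x : Plane => ENNReal.ofReal (heat T x)) := by
  unfold heat
  refine ENNReal.measurable_ofReal.comp (Continuous.measurable ?_)
  fun_prop

lemma heat_nonneg {T : ℝ} (hT : 0 < T) (x : Plane) : 0 ≤ heat T x := by
  unfold heat
  positivity

lemma heat_int {T : ℝ} (hT : 0 < T) : ∫⁻ y : Plane, ENNReal.ofReal (heat T y) = 1 := by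
  have hb : 0 < 1 / (2 * T) := by positivity
  have h1 := GaussianFourier.integral_rexp_neg_mul_sq_norm (V := Plane) hb
  have hfin : Module.finrank ℝ Plane = 2 := by simp
  have h2 : ∫ v : Plane, Real.exp (-(1 / (2 * T)) * ‖v‖ ^ 2) = 2 * Real.pi * T := by
    rw [h1, hfin]
    norm_num
    field_simp
  have h3 : ∫ v : Plane, heat T v = 1 := by
    unfold heat
    rw [integral_const_mul]
    have : (fun v : Plane => Real.exp (-‖v‖ ^ 2 / (2 * T)))
        = fun v => Real.exp (-(1 / (2 * T)) * ‖v‖ ^ 2) := by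
      funext v; congr 1; ring
    rw [this, h2]
    have := Real.pi_pos
    field_simp
  have hI : Integrable (heat T) (volume : Measure Plane) := by
    by_contra h
    rw [integral_undef h] at h3
    exact zero_ne_one h3
  rw [← ofReal_integral_eq_lintegral_ofReal hI (ae_of_all _ (heat_nonneg hT)), h3,
    ENNReal.ofReal_one]

lemma cell_disj (j : ℕ) : Pairwise (Function.onFun Disjoint (cell j)) := by
  intro v w hvw
  rw [Function.onFun, Set.disjoint_left]
  intro x hx hx'
  exact hvw (((mem_cell_iff j v x).1 hx).symm.trans ((mem_cell_iff j w x).1 hx'))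

/-- the integrand of `markMass` -/
noncomputable def Fk (T : ℝ) (K : ℕ) (x : Fin (K + 1) → Plane) : ℝ≥0∞ :=
  ∏ k : Fin K, ENNReal.ofReal (heat T (x k.succ - x k.castSucc))

/-- the domain of integration of `markMass` -/
def Dom (j K : ℕ) (v : Fin (K + 1) → Site) : Set (Fin (K + 1) → Plane) :=
  {x | ∀ k, x k ∈ cell j (v k)}

lemma markMass_eq (T : ℝ) (β : Measure ℕ) (j K : ℕ) (m : Mark K) :
    markMass T β j K m = (∫⁻ x in Dom j K m.1, Fk T K x) * ∏ k : Fin K, β {m.2 k} := rfl

lemma Fk_meas (T : ℝ) (K : ℕ) : Measurable (Fk T K) := by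
  unfold Fk
  refine Finset.measurable_fun_prod _ fun k _ => ?_
  exact (heat_meas T).comp ((measurable_pi_apply _).sub (measurable_pi_apply _))

lemma Dom_meas (j K : ℕ) (v : Fin (K + 1) → Site) : MeasurableSet (Dom j K v) := by
  have : Dom j K v = ⋂ k, (fun x : Fin (K + 1) → Plane => x k) ⁻¹' cell j (v k) := by
    ext x; simp [Dom]
  rw [this]
  exact MeasurableSet.iInter fun k => (measurable_pi_apply k) (measurableSet_cell j _)

lemma Dom_snoc (j K : ℕ) (v : Fin (K + 1) → Site) (w : Site) (x : Fin (K + 2) → Plane) :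
    x ∈ Dom j (K + 1) (Fin.snoc (α := fun _ => Site) v w) ↔
      (∀ k : Fin (K + 1), x k.castSucc ∈ cell j (v k)) ∧ x (Fin.last (K + 1)) ∈ cell j w := by
  unfold Dom
  simp only [mem_ofPred_eq]
  constructor
  · intro h
    refine ⟨fun k => ?_, ?_⟩
    · have := h k.castSucc
      rwa [Fin.snoc_castSucc] at this
    · have := h (Fin.last (K + 1))
      rwa [Fin.snoc_last] at this
  · rintro ⟨h1, h2⟩ k
    refine Fin.lastCases ?_ (fun k => ?_) k
    · rw [Fin.snoc_last]; exact h2
    · rw [Fin.snoc_castSucc]; exact h1 k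

lemma Fk_succ (T : ℝ) (K : ℕ) (x : Fin (K + 2) → Plane) :
    Fk T (K + 1) x = Fk T K (fun k => x k.castSucc) *
      ENNReal.ofReal (heat T (x (Fin.last (K + 1)) - x (Fin.last K).castSucc)) := by
  unfold Fk
  rw [Fin.prod_univ_castSucc]
  rfl

/-- integrating out the last point -/
lemma sum_last {T : ℝ} (hT : 0 < T) (j K : ℕ) (v : Fin (K + 1) → Site) :
    ∑' w : Site, ∫⁻ x in Dom j (K + 1) (Fin.snoc (α := fun _ => Site) v w), Fk T (K + 1) x
      = ∫⁻ x in Dom j K v, Fk T K x := by
  rw [← lintegral_iUnion (fun w => Dom_meas j (K + 1) _)]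
  · set S : Set (Fin (K + 2) → Plane) := ⋃ w : Site, Dom j (K + 1) (Fin.snoc (α := fun _ => Site) v w)
      with hS
    have hSm : MeasurableSet S := MeasurableSet.iUnion fun w => Dom_meas j (K + 1) _
    have hSx : ∀ x, x ∈ S ↔ ∀ k : Fin (K + 1), x k.castSucc ∈ cell j (v k) := by
      intro x
      rw [hS, mem_iUnion]
      constructor
      · rintro ⟨w, hw⟩
        exact ((Dom_snoc j K v w x).1 hw).1
      · intro h
        exact ⟨cellIdx j (x (Fin.last (K + 1))), (Dom_snoc j K v _ x).2 ⟨h, mem_cell_cellIdx j _⟩⟩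
    rw [← lintegral_indicator hSm, ← lintegral_indicator (Dom_meas j K v)]
    set e := MeasurableEquiv.piFinSuccAbove (fun _ : Fin (K + 2) => Plane) (Fin.last (K + 1)) with he
    have hmp := (volume_preserving_piFinSuccAbove (fun _ : Fin (K + 2) => Plane)
      (Fin.last (K + 1))).symm
    rw [← hmp.lintegral_comp_emb (MeasurableEquiv.measurableEmbedding _)]
    have key : ∀ p : Plane × (Fin (K + 1) → Plane),
        S.indicator (Fk T (K + 1)) (e.symm p) = (Dom j K v).indicator (Fk T K) p.2 *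
          ENNReal.ofReal (heat T (p.1 - p.2 (Fin.last K))) := by
      intro p
      have h0 := e.apply_symm_apply p
      have h1 : (e.symm p) (Fin.last (K + 1)) = p.1 := congrArg Prod.fst h0
      have h2 : ∀ k : Fin (K + 1), (e.symm p) k.castSucc = p.2 k := by
        intro k
        have := congrFun (congrArg Prod.snd h0) k
        rw [← this]
        show _ = (e.symm p) ((Fin.last (K + 1)).succAbove k)
        rw [Fin.succAbove_last]
      have h3 : (fun k : Fin (K + 1) => (e.symm p) k.castSucc) = p.2 := funext h2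
      by_cases hp : p.2 ∈ Dom j K v
      · have hp' : e.symm p ∈ S := (hSx _).2 fun k => by rw [h2]; exact hp k
        rw [indicator_of_mem hp', indicator_of_mem hp, Fk_succ, h3, h1, h2]
      · have hp' : e.symm p ∉ S := fun h => hp fun k => by rw [← h2]; exact (hSx _).1 h k
        rw [indicator_of_notMem hp', indicator_of_notMem hp, zero_mul]
    have key2 : (fun p : Plane × (Fin (K + 1) → Plane) =>
        S.indicator (Fk T (K + 1)) (e.symm p)) = fun p => (Dom j K v).indicator (Fk T K) p.2 *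
          ENNReal.ofReal (heat T (p.1 - p.2 (Fin.last K))) := funext key
    have hmeas : Measurable (fun p : Plane × (Fin (K + 1) → Plane) =>
        (Dom j K v).indicator (Fk T K) p.2 * ENNReal.ofReal (heat T (p.1 - p.2 (Fin.last K)))) := by
      refine Measurable.mul (((Fk_meas T K).indicator (Dom_meas j K v)).comp measurable_snd) ?_
      exact (heat_meas T).comp (measurable_fst.sub ((measurable_pi_apply _).comp measurable_snd))
    calc ∫⁻ p : Plane × (Fin (K + 1) → Plane), S.indicator (Fk T (K + 1)) (e.symm p)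
        = ∫⁻ p : Plane × (Fin (K + 1) → Plane), (Dom j K v).indicator (Fk T K) p.2 *
          ENNReal.ofReal (heat T (p.1 - p.2 (Fin.last K))) := by rw [key2]
      _ = ∫⁻ x' : Fin (K + 1) → Plane, ∫⁻ y : Plane, (Dom j K v).indicator (Fk T K) x' *
          ENNReal.ofReal (heat T (y - x' (Fin.last K))) :=
          lintegral_prod_symm _ hmeas.aemeasurable
      _ = ∫⁻ x' : Fin (K + 1) → Plane, (Dom j K v).indicator (Fk T K) x' := by
          refine lintegral_congr fun x' => ?_
          have hm : Measurable fun y : Plane => ENNReal.ofReal (heat T (y - x' (Fin.last K))) :=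
            (heat_meas T).comp (measurable_id.sub_const _)
          rw [lintegral_const_mul _ hm,
            lintegral_sub_right_eq_self (fun y : Plane => ENNReal.ofReal (heat T y)) _,
            heat_int hT, mul_one]
  · intro w w' hww
    rw [Function.onFun, Set.disjoint_left]
    intro x hx hx'
    have h1 := ((Dom_snoc j K v w x).1 hx).2
    have h2 := ((Dom_snoc j K v w' x).1 hx').2
    exact hww (((mem_cell_iff j w _).1 h1).symm.trans ((mem_cell_iff j w' _).1 h2))

lemma sum_prob (β : Measure ℕ) [IsProbabilityMeasure β] : ∑' b : ℕ, β {b} = 1 := by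
  rw [← measure_iUnion (fun a b hab => by
    rw [Function.onFun, Set.disjoint_singleton]; exact hab) fun b => measurableSet_singleton b]
  have : (⋃ b : ℕ, ({b} : Set ℕ)) = univ := by ext; simp
  rw [this, measure_univ]

lemma markMass_snoc {T : ℝ} (hT : 0 < T) (β : Measure ℕ) [IsProbabilityMeasure β] (j K : ℕ)
    (m : Mark K) : ∑' p : Site × ℕ, markMass T β j (K + 1)
      (Fin.snoc (α := fun _ => Site) m.1 p.1, Fin.snoc (α := fun _ => ℕ) m.2 p.2)
        = markMass T β j K m := by
  have h1 : ∀ p : Site × ℕ, markMass T β j (K + 1)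
      (Fin.snoc (α := fun _ => Site) m.1 p.1, Fin.snoc (α := fun _ => ℕ) m.2 p.2)
      = (∫⁻ x in Dom j (K + 1) (Fin.snoc (α := fun _ => Site) m.1 p.1), Fk T (K + 1) x) *
        (∏ k : Fin K, β {m.2 k}) * β {p.2} := by
    intro p
    rw [markMass_eq, Fin.prod_univ_castSucc]
    simp only [Fin.snoc_castSucc, Fin.snoc_last]
    rw [mul_assoc]
  rw [tsum_congr h1, ENNReal.tsum_prod (f := fun (w : Site) (b : ℕ) =>
    (∫⁻ x in Dom j (K + 1) (Fin.snoc (α := fun _ => Site) m.1 w), Fk T (K + 1) x) *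
        (∏ k : Fin K, β {m.2 k}) * β {b})]
  simp only [ENNReal.tsum_mul_left, ENNReal.tsum_mul_right, sum_prob, mul_one]
  rw [sum_last hT, ← markMass_eq]

lemma markMass_ne_top {T : ℝ} (hT : 0 < T) (β : Measure ℕ) [IsProbabilityMeasure β] (j : ℕ) :
    ∀ (K : ℕ) (m : Mark K), markMass T β j K m ≠ ⊤ := by
  intro K
  induction K with
  | zero =>
    intro m
    rw [markMass_eq]
    have h1 : ∀ x, Fk T 0 x = 1 := fun x => by unfold Fk; simp
    simp only [h1, lintegral_const, Measure.restrict_apply MeasurableSet.univ, univ_inter, one_mul,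
      Finset.univ_eq_empty, Finset.prod_empty, mul_one]
    have h2 : Dom j 0 m.1 = Set.pi univ fun k => cell j (m.1 k) := by
      ext x; simp [Dom]
    rw [h2, volume_pi_pi]
    exact ENNReal.prod_ne_top fun k _ => by rw [volume_cell]; exact ENNReal.coe_ne_top
  | succ K ih =>
    intro m
    have h1 := markMass_snoc hT β j K (Fin.init (α := fun _ => Site) m.1, Fin.init (α := fun _ => ℕ) m.2)
    have h2 := ih (Fin.init (α := fun _ => Site) m.1, Fin.init (α := fun _ => ℕ) m.2)
    rw [← h1] at h2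
    have h3 := ENNReal.ne_top_of_tsum_ne_top h2 (m.1 (Fin.last (K + 1)), m.2 (Fin.last K))
    simp only [Fin.snoc_init_self] at h3
    exact h3

/-- restriction of a mark -/
def rst {K H : ℕ} (h : K ≤ H) (m : Mark H) : Mark K :=
  (fun k => m.1 (Fin.castLE (Nat.succ_le_succ h) k), fun k => m.2 (Fin.castLE h k))

/-- adding the last step -/
def app (H : ℕ) : Mark H × (Site × ℕ) ≃ Mark (H + 1) where
  toFun p := (Fin.snoc (α := fun _ => Site) p.1.1 p.2.1, Fin.snoc (α := fun _ => ℕ) p.1.2 p.2.2)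
  invFun m := ((Fin.init (α := fun _ => Site) m.1, Fin.init (α := fun _ => ℕ) m.2),
    (m.1 (Fin.last (H + 1)), m.2 (Fin.last H)))
  left_inv p := by
    simp only [Fin.init_snoc, Fin.snoc_last]
  right_inv m := by
    simp only [Fin.snoc_init_self]

lemma rst_app {K H : ℕ} (h : K ≤ H) (m : Mark H) (p : Site × ℕ) :
    rst (h.trans (Nat.le_succ H)) (app H (m, p)) = rst h m := by
  refine Prod.ext ?_ ?_
  · funext k
    show Fin.snoc (α := fun _ => Site) m.1 p.1 (Fin.castSucc (Fin.castLE (Nat.succ_le_succ h) k)) = _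
    rw [Fin.snoc_castSucc]
    rfl
  · funext k
    show Fin.snoc (α := fun _ => ℕ) m.2 p.2 (Fin.castSucc (Fin.castLE h k)) = _
    rw [Fin.snoc_castSucc]
    rfl

open Classical in
lemma markMass_rst {T : ℝ} (hT : 0 < T) (β : Measure ℕ) [IsProbabilityMeasure β] (j K : ℕ)
    (m : Mark K) : ∀ (H : ℕ) (h : K ≤ H),
      ∑' m' : Mark H, (if rst h m' = m then markMass T β j H m' else 0) = markMass T β j K m := by
  intro H h
  induction H, h using Nat.le_induction with
  | base =>
    rw [tsum_eq_single m]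
    · exact if_pos rfl
    · intro m' hm'
      rw [if_neg]
      intro h
      exact hm' h
  | succ H h ih =>
    rw [← Equiv.tsum_eq (app H), ENNReal.tsum_prod', ← ih]
    refine tsum_congr fun m'' => ?_
    have h1 : ∀ p : Site × ℕ, (if rst (h.trans (Nat.le_succ H)) (app H (m'', p)) = m then
        markMass T β j (H + 1) (app H (m'', p)) else 0)
        = if rst h m'' = m then markMass T β j (H + 1) (app H (m'', p)) else 0 := by
      intro p
      rw [rst_app h]
    rw [tsum_congr h1]
    by_cases hm : rst h m'' = m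
    · simp only [if_pos hm]
      exact markMass_snoc hT β j H m''
    · simp only [if_neg hm, tsum_zero]

end mass

/-! ### the law of the presence map -/

section law

variable {q H K : ℕ} {a δ Λ : ℝ}

open Classical in
theorem fine_sum {T : ℝ} (hT : 0 < T) (β : Measure ℕ) [IsProbabilityMeasure β] (j : ℕ)
    (h : K ≤ H) (L : MarkLaw q H a δ Λ)
    (hL : ∀ (v : Fin (H + 1) → Site) (b : Fin H → ℕ),
        HasSum (fun θ : {θ : FMark q H // FMark.site θ = v ∧ θ.1.b = b} => (L.fine θ.1 : ℝ))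
          (markMass T β j H (v, b)).toReal) (m : Mark K) :
    ∑' θ : FMark q H, (if proj h θ = m then (L.fine θ : ℝ≥0∞) else 0) = markMass T β j K m := by
  have hfin := markMass_ne_top hT β j H
  let f : FMark q H → Mark H := fun θ => (FMark.site θ, θ.1.b)
  have hfib : ∀ m' : Mark H, ∑' θ : {θ // f θ = m'}, (L.fine θ.1 : ℝ≥0∞) = markMass T β j H m' := by
    rintro ⟨v, b⟩
    have h1 := hL v b
    have h2 : HasSum (fun θ : {θ : FMark q H // FMark.site θ = v ∧ θ.1.b = b} => L.fine θ.1)
        (markMass T β j H (v, b)).toNNReal := by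
      rw [← NNReal.hasSum_coe]; exact h1
    have h3 := (ENNReal.hasSum_coe.2 h2).tsum_eq
    rw [ENNReal.coe_toNNReal (hfin _)] at h3
    rw [← h3]
    let E : {θ // f θ = (v, b)} ≃ {θ : FMark q H // FMark.site θ = v ∧ θ.1.b = b} :=
      Equiv.subtypeEquivRight fun θ => by simp only [f, Prod.mk.injEq]
    rw [← Equiv.tsum_eq E]
    rfl
  rw [← markMass_rst hT β j K m H h, ← Equiv.tsum_eq (Equiv.sigmaFiberEquiv f),
    ENNReal.tsum_sigma']
  refine tsum_congr fun m' => ?_
  have h4 : ∀ θ : {θ // f θ = m'}, (if proj h ((Equiv.sigmaFiberEquiv f) ⟨m', θ⟩) = m then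
      (L.fine ((Equiv.sigmaFiberEquiv f) ⟨m', θ⟩) : ℝ≥0∞) else 0)
      = if rst h m' = m then (L.fine θ.1 : ℝ≥0∞) else 0 := by
    rintro ⟨θ, rfl⟩
    rfl
  rw [tsum_congr h4]
  by_cases hm : rst h m' = m
  · simp only [if_pos hm]; exact hfib m'
  · simp only [if_neg hm, tsum_zero]

theorem fine_hasSum {T : ℝ} (hT : 0 < T) (β : Measure ℕ) [IsProbabilityMeasure β] (j : ℕ)
    (h : K ≤ H) (L : MarkLaw q H a δ Λ)
    (hL : ∀ (v : Fin (H + 1) → Site) (b : Fin H → ℕ),
        HasSum (fun θ : {θ : FMark q H // FMark.site θ = v ∧ θ.1.b = b} => (L.fine θ.1 : ℝ))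
          (markMass T β j H (v, b)).toReal) (x : ℝ≥0) (m : Mark K) :
    HasSum (fun θ : {θ : FMark q H | proj h θ = m} => (((x * L.fine θ.1 : ℝ≥0)) : ℝ))
      ((x * (markMass T β j K m).toNNReal : ℝ≥0) : ℝ) := by
  classical
  have h1 := fine_sum hT β j h L hL m
  have h2 : ∑' θ : {θ : FMark q H | proj h θ = m}, (L.fine θ.1 : ℝ≥0∞) = markMass T β j K m := by
    rw [← h1, tsum_subtype {θ : FMark q H | proj h θ = m} (fun θ => (L.fine θ : ℝ≥0∞))]
    refine tsum_congr fun θ => ?_
    by_cases hθ : proj h θ = m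
    · rw [if_pos hθ, indicator_of_mem (show θ ∈ {θ : FMark q H | proj h θ = m} from hθ)]
    · rw [if_neg hθ, indicator_of_notMem (show θ ∉ {θ : FMark q H | proj h θ = m} from hθ)]
  have hfin := markMass_ne_top hT β j K m
  have h3 : Summable (fun θ : {θ : FMark q H | proj h θ = m} => L.fine θ.1) := by
    rw [← ENNReal.tsum_coe_ne_top_iff_summable, h2]; exact hfin
  have h4 : ∑' θ : {θ : FMark q H | proj h θ = m}, L.fine θ.1 = (markMass T β j K m).toNNReal := by
    rw [← h2, ← ENNReal.coe_tsum h3, ENNReal.toNNReal_coe]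
  have h5 : HasSum (fun θ : {θ : FMark q H | proj h θ = m} => L.fine θ.1)
      (markMass T β j K m).toNNReal := by
    rw [← h4]; exact h3.hasSum
  rw [NNReal.hasSum_coe]
  exact h5.mul_left x

theorem pres_meas (h : K ≤ H) : Measurable (pres (q := q) h) := by
  have := STATIC.cntF q H
  refine measurable_pi_iff.2 fun m => ?_
  unfold pres
  refine Measurable.ite ?_ measurable_const measurable_const
  have e : {ω : Conf q H | ∃ θ, proj h θ = m ∧ ω θ ≠ 0}
      = ⋃ θ : {θ : FMark q H // proj h θ = m}, (fun ω : Conf q H => ω θ.1) ⁻¹' {n | n ≠ 0} := by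
    ext ω
    simp only [mem_ofPred_eq, mem_iUnion, mem_preimage, Subtype.exists, exists_prop]
  rw [e]
  exact MeasurableSet.iUnion fun θ => (measurable_pi_apply θ.1) trivial

theorem law_pres {T : ℝ} (hT : 0 < T) (β : Measure ℕ) [IsProbabilityMeasure β] (j : ℕ)
    (h : K ≤ H) (L : MarkLaw q H a δ Λ)
    (hL : ∀ (v : Fin (H + 1) → Site) (b : Fin H → ℕ),
        HasSum (fun θ : {θ : FMark q H // FMark.site θ = v ∧ θ.1.b = b} => (L.fine θ.1 : ℝ))
          (markMass T β j H (v, b)).toReal) (x : ℝ≥0) :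
    (L.PP x).map (pres h)
      = (markLaw x T β j K).map (fun (F : Mark K → ℕ) (m : Mark K) => STATIC.bb (F m)) := by
  have := STATIC.cntF q H
  set lam : Mark K → ℝ≥0 := fun m => x * (markMass T β j K m).toNNReal with hlam
  have hPP : L.PP x = pois (fun θ : FMark q H => x * L.fine θ) := rfl
  have : IsProbabilityMeasure (L.PP x) := by rw [hPP]; infer_instance
  have hν : ∀ m : Mark K, IsProbabilityMeasure ((poissonMeasure (lam m)).map STATIC.bb) :=
    fun m => Measure.isProbabilityMeasure_map STATIC.bb_meas.aemeasurable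
  have e1 : (markLaw x T β j K).map (fun (F : Mark K → ℕ) (m : Mark K) => STATIC.bb (F m))
      = Measure.infinitePi (fun m : Mark K => (poissonMeasure (lam m)).map STATIC.bb) := by
    unfold markLaw
    exact Measure.infinitePi_map_pi _ fun _ => STATIC.bb_meas
  have hν0 : ∀ m : Mark K, ((poissonMeasure (lam m)).map STATIC.bb) {0}
      = ENNReal.ofReal (Real.exp (-(lam m : ℝ))) := by
    intro m
    rw [Measure.map_apply STATIC.bb_meas (measurableSet_singleton 0)]
    have : STATIC.bb ⁻¹' {0} = {0} := by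
      ext n; simp [STATIC.bb]
    rw [this, poissonMeasure_singleton]
    simp
  have hνc : ∀ m : Mark K, ((poissonMeasure (lam m)).map STATIC.bb) {0, 1}ᶜ = 0 := by
    intro m
    rw [Measure.map_apply STATIC.bb_meas (by measurability)]
    have : STATIC.bb ⁻¹' {0, 1}ᶜ = ∅ := by
      ext n
      by_cases hn : n = 0 <;> simp [STATIC.bb, hn]
    rw [this, measure_empty]
  -- the law of one variable
  have e2 : ∀ m : Mark K, (L.PP x).map (fun ω => pres h ω m)
      = (poissonMeasure (lam m)).map STATIC.bb := by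
    intro m
    have hm : Measurable (fun ω : Conf q H => pres h ω m) :=
      (measurable_pi_apply m).comp (pres_meas h)
    have : IsProbabilityMeasure ((L.PP x).map (fun ω => pres h ω m)) :=
      Measure.isProbabilityMeasure_map hm.aemeasurable
    refine STATIC.nat_eq _ _ ?_ (hνc m) ?_
    · rw [Measure.map_apply hm (by measurability)]
      have : (fun ω : Conf q H => pres h ω m) ⁻¹' {0, 1}ᶜ = ∅ := by
        ext ω
        by_cases hx : ∃ θ, proj h θ = m ∧ ω θ ≠ 0
        · simp only [mem_preimage, pres, if_pos hx]; simp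
        · simp only [mem_preimage, pres, if_neg hx]; simp
      rw [this, measure_empty]
    · rw [Measure.map_apply hm (measurableSet_singleton 0), hν0]
      have hset : (fun ω : Conf q H => pres h ω m) ⁻¹' {0}
          = {ω : Conf q H | ∀ θ ∈ {θ : FMark q H | proj h θ = m}, ω θ = 0} := by
        ext ω
        simp only [mem_preimage, mem_singleton_iff, mem_ofPred_eq]
        rw [← not_iff_not]
        rw [show (¬ pres h ω m = 0) ↔ pres h ω m ≠ 0 from Iff.rfl, pres_ne]
        push Not
        exact Iff.rfl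
      have hs' := fine_hasSum hT β j h L hL x m
      obtain ⟨-, hv⟩ := stmt_VOID (FMark q H) (fun θ => x * L.fine θ)
        {θ : FMark q H | proj h θ = m} hs'.summable
      rw [hset, hPP, ← ENNReal.ofReal_toReal (measure_ne_top _ _)]
      congr 1
      rw [← measureReal_def, hv, hs'.tsum_eq]
  -- independence
  rw [e1]
  refine Measure.eq_infinitePi _ fun s t ht => ?_
  rw [Measure.map_apply (pres_meas h) (.pi s.countable_toSet fun _ _ => ht _)]
  have hset : pres (q := q) h ⁻¹' Set.pi s t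
      = ⋂ m ∈ s, {ω : Conf q H | pres h ω m ∈ t m} := by
    ext ω; simp [Set.mem_pi]
  have hI := stmt_INDEP (FMark q H) (fun θ => x * L.fine θ) (Mark K) s
    (fun m => {θ : FMark q H | proj h θ = m})
    (fun m => {ω : Conf q H | pres h ω m ∈ t m})
    (fun m _ => (measurable_pi_apply m).comp (pres_meas h) (ht m))
    (by
      intro m _ ω ω' hω
      have h1 : (∃ θ, proj h θ = m ∧ ω θ ≠ 0) ↔ ∃ θ, proj h θ = m ∧ ω' θ ≠ 0 := by
        constructor
        · rintro ⟨θ, hθ, hne⟩
          exact ⟨θ, hθ, by rw [← hω θ hθ]; exact hne⟩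
        · rintro ⟨θ, hθ, hne⟩
          exact ⟨θ, hθ, by rw [hω θ hθ]; exact hne⟩
      have h2 : pres h ω m = pres h ω' m := by
        unfold pres
        by_cases hx : ∃ θ, proj h θ = m ∧ ω θ ≠ 0
        · rw [if_pos hx, if_pos (h1.1 hx)]
        · rw [if_neg hx, if_neg fun h' => hx (h1.2 h')]
      simp only [mem_ofPred_eq, h2])
    (by
      intro m _ m' _ hmm
      refine Set.disjoint_left.2 fun θ hθ hθ' => hmm ?_
      exact hθ.symm.trans hθ')
  rw [← hPP] at hI
  rw [hset, ← ENNReal.ofReal_toReal (measure_ne_top (L.PP x) _), ← measureReal_def, hI,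
    ENNReal.ofReal_prod_of_nonneg fun _ _ => measureReal_nonneg]
  refine Finset.prod_congr rfl fun m _ => ?_
  have hm : Measurable (fun ω : Conf q H => pres h ω m) :=
    (measurable_pi_apply m).comp (pres_meas h)
  rw [measureReal_def, ENNReal.ofReal_toReal (measure_ne_top _ _), ← e2 m,
    Measure.map_apply hm (ht m)]
  rfl

/-- `Survives` is measurable -/
theorem survives_meas (r : ℝ) (j K : ℕ) : MeasurableSet {F : Mark K → ℕ | Survives r j F} := by
  have hRS : ∀ k : Fin (K + 1), MEAS.RS (fun F : Mark K → ℕ => occAt F k) := by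
    intro k v
    have e : {F : Mark K → ℕ | v ∈ occAt F k}
        = ⋃ m : {m : Mark K // m.1 k = v}, (fun F : Mark K → ℕ => F m.1) ⁻¹' {n | n ≠ 0} := by
      ext F
      simp only [occAt, mem_ofPred_eq, mem_iUnion, mem_preimage, Subtype.exists, exists_prop]
      constructor
      · rintro ⟨m, h1, h2⟩; exact ⟨m, h2, h1⟩
      · rintro ⟨m, h1, h2⟩; exact ⟨m, h2, h1⟩
    rw [e]
    exact MeasurableSet.iUnion fun m => (measurable_pi_apply m.1) trivial
  have hSafe : ∀ (k : Fin K) (z : Site), MeasurableSet {F : Mark K → ℕ | Safe r j F k z} := by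
    intro k z
    have e : {F : Mark K → ℕ | Safe r j F k z}
        = ⋂ m : {m : Mark K // ¬ (mesh j * supN (m.1 k.castSucc - m.1 k.succ) + m.2 k + r
          + 5 * mesh j < mesh j * supN (m.1 k.castSucc - z))},
            (fun F : Mark K → ℕ => F m.1) ⁻¹' {0} := by
      ext F
      simp only [Safe, mem_ofPred_eq, mem_iInter, mem_preimage, mem_singleton_iff]
      constructor
      · intro h m
        by_contra hc
        exact m.2 (h m.1 hc)
      · intro h m hm
        by_contra hc
        exact hm (h ⟨m, hc⟩)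
    rw [e]
    exact MeasurableSet.iInter fun m => (measurable_pi_apply m.1) (measurableSet_singleton 0)
  have e : {F : Mark K → ℕ | Survives r j F}
      = ⋃ z : {z : Fin (K + 1) → Site // z 0 = 0}, ⋂ k : Fin K,
        ({F : Mark K → ℕ | Linked Adj4 (vacSites (range r j) (occAt F k.castSucc))
          (z.1 k.castSucc) (z.1 k.succ)} ∩ {F : Mark K → ℕ | Safe r j F k (z.1 k.succ)}) := by
    ext F
    simp only [Survives, mem_ofPred_eq, mem_iUnion, mem_iInter, mem_inter_iff, Subtype.exists,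
      exists_prop]
  rw [e]
  exact MeasurableSet.iUnion fun z => MeasurableSet.iInter fun k =>
    (MEAS.linked_meas Adj4 ((hRS k.castSucc).vac _) _ _).inter (hSafe k _)

theorem survives_bb (r : ℝ) (j K : ℕ) (F : Mark K → ℕ) :
    Survives r j (fun m => STATIC.bb (F m)) ↔ Survives r j F := by
  have h0 : ∀ n : ℕ, STATIC.bb n ≠ 0 ↔ n ≠ 0 := by
    intro n
    unfold STATIC.bb
    by_cases hn : n = 0 <;> simp [hn]
  unfold Survives occAt Safe
  simp only [h0]

end law

end BRIDGE

open BRIDGE in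
theorem stmt_BRIDGE : Stmt_BRIDGE := by
  intro r β s j H K δ Λ x _ L hr hβ hs hK hL
  have := hβ.1 1 one_pos
  have h1 : {ω | SurvT (range r j) ω 0 0 K} ⊆ pres hK ⁻¹' {F : Mark K → ℕ | Survives r j F} :=
    fun ω hω => survives hr hs hK ω hω
  have hE := survives_meas r j K
  have hb : Measurable (fun (F : Mark K → ℕ) (m : Mark K) => STATIC.bb (F m)) :=
    measurable_pi_iff.2 fun m => STATIC.bb_meas.comp (measurable_pi_apply m)
  refine (measure_mono h1).trans ?_
  rw [← Measure.map_apply (pres_meas hK) hE, law_pres one_pos (β 1) j hK L hL x,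
    Measure.map_apply hb hE]
  refine measure_mono fun F hF => ?_
  exact (survives_bb r j K F).1 hF
end MPdd5692
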