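import Mathlib
import Pool.Agent.Work.MP_dd5692_pr.InterfaceC

/-! # MP_dd5692_pr, block C1 (helper78): induction on the scale, from REC and LAM0 -/

open MeasureTheory ProbabilityTheory Set
open scoped ENNReal NNReal BigOperators

namespace MPdd5692

theorem C1.armDec_mono {c e I δ Λ : ℝ} {nmax : ℕ} {E : Env c e I δ Λ nmax} {κ0 : ℝ} {R a a' : ℕ}
    (h : E.ArmDec κ0 R a) (haa : a ≤ a') : E.ArmDec κ0 R a' := by
  intro m m' hm hm' hne z x y hx
  exact h m m' hm hm' hne z x y (haa.trans hx)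

theorem stmt_C1 (h1 : Stmt_REC) (h2 : Stmt_LAM0) : Stmt_C1 := by
  intro c e hc he he1
  obtain ⟨K, c1, κ0, hK2, hK10, hc1, hκ0, HREC⟩ := h1 c e hc he he1
  refine ⟨K, c1, κ0, hK2, hc1, hκ0, ?_⟩
  intro I Λ N R1
  obtain ⟨Ra, HA⟩ := HREC I Λ N
  obtain ⟨Rb, HB⟩ := h2 c e hc he he1 I Λ N
  obtain ⟨n0, hn0⟩ := exists_nat_gt (1 / c1)
  set l0 : ℕ := 10 * (Ra + Rb + R1 + n0 + 1) with hl0
  have hl0pos : 1 ≤ l0 := by omega
  have hl0R : (1 : ℝ) ≤ (l0 : ℝ) := by exact_mod_cast hl0pos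
  have hl0n : (n0 : ℝ) ≤ (l0 : ℝ) := by
    have : n0 ≤ l0 := by omega
    exact_mod_cast this
  have hl0c : 1 / (l0 : ℝ) ^ 9 ≤ c1 := by
    have h3 : (l0 : ℝ) ≤ (l0 : ℝ) ^ 9 := le_self_pow₀ hl0R (by norm_num)
    have h4 : 1 / c1 ≤ (l0 : ℝ) ^ 9 := (hn0.le.trans hl0n).trans h3
    rw [div_le_iff₀ (by positivity)]
    rw [div_le_iff₀ hc1] at h4
    linarith [mul_comm c1 ((l0 : ℝ) ^ 9)]
  obtain ⟨J, hJ⟩ := pow_unbounded_of_one_lt (c1 * (l0 : ℝ) ^ 9) (one_lt_two)
  have hKpos : 1 ≤ K := by omega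
  refine ⟨l0, K ^ J * l0, by omega, Nat.le_mul_of_pos_left _ (by positivity), ?_, ?_⟩
  · exact Dvd.dvd.mul_left ⟨_, hl0⟩ _
  intro δ nmax E hdec hnmax m m' hmm hH hN
  -- the recursion
  have key : ∀ j : ℕ, j ≤ J → min c1 (2 ^ j / (l0 : ℝ) ^ 9) ≤
      E.P.real {ω | LamE E.ρ ω m m' 0 (K ^ j * l0)} := by
    intro j
    induction j with
    | zero =>
      intro _
      have hl : 10 * l0 ≤ nmax := by
        refine le_trans ?_ hnmax
        calc 10 * l0 = 10 * 1 * (1 * l0) := by ring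
          _ ≤ 10 * K * (K ^ J * l0) := by
            refine Nat.mul_le_mul (Nat.mul_le_mul le_rfl hKpos) ?_
            exact Nat.mul_le_mul (Nat.one_le_pow _ _ hKpos) le_rfl
      have h5 := HB δ nmax E m m' l0 hmm hH hN (by omega) hl
      refine (min_le_right _ _).trans ?_
      simpa using h5
    | succ j ih =>
      intro hj
      have hj' : j ≤ J := by omega
      have ih' := ih hj'
      have hle : l0 ≤ K ^ j * l0 := Nat.le_mul_of_pos_left _ (by positivity)
      have hKj : K ^ j * l0 ≤ K ^ J * l0 :=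
        Nat.mul_le_mul (Nat.pow_le_pow_right hKpos hj') le_rfl
      have hnm : 10 * K * (K ^ j * l0) ≤ nmax := (Nat.mul_le_mul le_rfl hKj).trans hnmax
      have hstart : 1 / ((K ^ j * l0 : ℕ) : ℝ) ^ 9 ≤
          E.P.real {ω | LamE E.ρ ω m m' 0 (K ^ j * l0)} := by
        refine le_trans ?_ ih'
        have hbig : 1 / ((K ^ j * l0 : ℕ) : ℝ) ^ 9 ≤ 1 / (l0 : ℝ) ^ 9 := by
          apply one_div_le_one_div_of_le (by positivity)
          apply pow_le_pow_left₀ (by positivity)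
          exact_mod_cast hle
        refine le_min (hbig.trans hl0c) (hbig.trans ?_)
        apply div_le_div_of_nonneg_right _ (by positivity)
        exact one_le_pow₀ one_le_two
      have h6 := HA δ nmax E m m' (K ^ j * l0) (C1.armDec_mono hdec hle) hmm hH hN
        (by omega) hnm hstart
      have h7 : K ^ (j + 1) * l0 = K * (K ^ j * l0) := by ring
      rw [h7]
      refine le_trans ?_ h6
      refine le_min (min_le_left _ _) ?_
      rcases le_total c1 (2 ^ j / (l0 : ℝ) ^ 9) with h8 | h8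
      · rw [min_eq_left h8] at ih'
        refine (min_le_left _ _).trans ?_
        linarith
      · rw [min_eq_right h8] at ih'
        refine (min_le_right _ _).trans ?_
        calc (2 : ℝ) ^ (j + 1) / (l0 : ℝ) ^ 9 = 2 * (2 ^ j / (l0 : ℝ) ^ 9) := by ring
          _ ≤ _ := by linarith
  have h9 := key J le_rfl
  refine le_trans (le_min le_rfl ?_) h9
  rw [le_div_iff₀ (by positivity)]
  exact hJ.le

end MPdd5692
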