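import Mathlib
import Pool.Agent.Work.MP_dd5692_pr.InterfaceE
import Pool.Agent.Work.MP_dd5692_pr.Link98

/-!
# MP_dd5692_pr: block CHAIN (helper21): the network of links
-/

open Set

namespace MPdd5692
namespace CHAIN

lemma seg {S : Set Site} (f : ℤ → Site) (hf : ∀ r, Adj4 (f r) (f (r + 1))) (s t : ℤ)
    (h : ∀ r, min s t ≤ r → r ≤ max s t → f r ∈ S) : Linked Adj4 S (f s) (f t) := by
  have key : ∀ (n : ℕ) (s : ℤ), (∀ r, s ≤ r → r ≤ s + n → f r ∈ S) →
      Linked Adj4 S (f s) (f (s + n)) := by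
    intro n
    induction n with
    | zero => intro s h; have h0 : f s ∈ S := h s le_rfl (by simp); simpa using (Linked.refl h0 : Linked Adj4 S (f s) (f s))
    | succ n ih =>
      intro s h
      have h1 := ih s (fun r h1 h2 => h r h1 (by push_cast; omega))
      have h2 := hf (s + n)
      have h3 : f (s + (n + 1 : ℕ)) ∈ S := h _ (by omega) le_rfl
      have h4 : s + ((n + 1 : ℕ) : ℤ) = s + n + 1 := by push_cast; ring
      rw [h4] at h3 ⊢
      exact h1.tail h3 h2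
  rcases le_total s t with hst | hst
  · have := key (t - s).toNat s (fun r h1 h2 => h r (by omega) (by omega))
    have h4 : s + ((t - s).toNat : ℤ) = t := by omega
    rwa [h4] at this
  · have := key (s - t).toNat t (fun r h1 h2 => h r (by omega) (by omega))
    have h4 : t + ((s - t).toNat : ℤ) = s := by omega
    rw [h4] at this
    exact this.symm (fun _ _ h => h.symm)

lemma vert {S : Set Site} (x s t : ℤ)
    (h : ∀ r, min s t ≤ r → r ≤ max s t → ((x, r) : Site) ∈ S) :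
    Linked Adj4 S (x, s) (x, t) :=
  seg (fun r => (x, r)) (fun r => by simp [Adj4]) s t h

lemma hor {S : Set Site} (y s t : ℤ)
    (h : ∀ r, min s t ≤ r → r ≤ max s t → ((r, y) : Site) ∈ S) :
    Linked Adj4 S (s, y) (t, y) :=
  seg (fun r => (r, y)) (fun r => by simp [Adj4]) s t h

/-- a box is connected -/
lemma box_conn (c0 : Site) (R : ℤ) (w w' : Site) (hw : nrm (w - c0) ≤ R)
    (hw' : nrm (w' - c0) ≤ R) : Linked Adj4 {w | nrm (w - c0) ≤ R} w w' := by
  obtain ⟨w1, w2⟩ := w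
  obtain ⟨v1, v2⟩ := w'
  obtain ⟨c1, c2⟩ := c0
  refine (hor (S := {w | nrm (w - (c1, c2)) ≤ R}) w2 w1 v1 ?_).trans (vert v1 w2 v2 ?_)
  · intro r h1 h2
    simp only [nrm, Int.abs_eq_natAbs, Set.mem_ofPred_eq, Prod.mk_sub_mk] at *
    omega
  · intro r h1 h2
    simp only [nrm, Int.abs_eq_natAbs, Set.mem_ofPred_eq, Prod.mk_sub_mk] at *
    omega

/-- a ring is connected -/
lemma ring_conn (c w : Site) (hw : nrm (w - c) = 7) :
    Linked Adj4 {w | nrm (w - c) = 7} (c + (7, 0)) w := by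
  obtain ⟨w1, w2⟩ := w
  obtain ⟨c1, c2⟩ := c
  have hR : ∀ t : ℤ, |t - c2| ≤ 7 →
      Linked Adj4 {w : Site | nrm (w - (c1, c2)) = 7} ((c1, c2) + (7, 0)) (c1 + 7, t) := by
    intro t ht
    have : ((c1, c2) + (7, 0) : Site) = (c1 + 7, c2) := by simp
    rw [this]
    refine vert _ _ _ fun r h1 h2 => ?_
    simp only [nrm, Int.abs_eq_natAbs, Set.mem_ofPred_eq, Prod.mk_sub_mk] at *
    omega
  have hT : ∀ e : ℤ, |e| = 7 → ∀ t : ℤ, |t - c1| ≤ 7 →
      Linked Adj4 {w : Site | nrm (w - (c1, c2)) = 7} ((c1, c2) + (7, 0)) (t, c2 + e) := by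
    intro e he t ht
    refine (hR (c2 + e) (by simp [he])).trans (hor _ _ _ fun r h1 h2 => ?_)
    simp only [nrm, Int.abs_eq_natAbs, Set.mem_ofPred_eq, Prod.mk_sub_mk] at *
    omega
  by_cases h1 : w2 - c2 = 7
  · have := hT 7 (by norm_num) w1
      (by simp only [nrm, Int.abs_eq_natAbs, Prod.mk_sub_mk] at *; omega)
    rwa [show c2 + 7 = w2 by omega] at this
  by_cases h2 : w2 - c2 = -7
  · have := hT (-7) (by norm_num) w1
      (by simp only [nrm, Int.abs_eq_natAbs, Prod.mk_sub_mk] at *; omega)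
    rwa [show c2 + -7 = w2 by omega] at this
  by_cases h3 : w1 - c1 = 7
  · have := hR w2 (by simp only [nrm, Int.abs_eq_natAbs, Prod.mk_sub_mk] at *; omega)
    rwa [show c1 + 7 = w1 by omega] at this
  · have h4 : w1 - c1 = -7 := by
      simp only [nrm, Int.abs_eq_natAbs, Prod.mk_sub_mk] at *; omega
    have h5 := hT 7 (by norm_num) (c1 - 7) (by norm_num)
    have h6 : Linked Adj4 {w : Site | nrm (w - (c1, c2)) = 7} (c1 - 7, c2 + 7) (c1 - 7, w2) := by
      refine vert _ _ _ fun r h1 h2 => ?_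
      simp only [nrm, Int.abs_eq_natAbs, Set.mem_ofPred_eq, Prod.mk_sub_mk] at *
      omega
    have h7 := h5.trans h6
    rwa [show c1 - 7 = w1 by omega] at h7

/-- points of the window outside the obstacles -/
def Free (Obs : Set Site) (c0 : Site) (R : ℤ) : Set Site :=
  {w | nrm (w - c0) ≤ R ∧ ∀ c ∈ Obs, 7 ≤ nrm (w - c)}

def Rep (Obs : Set Site) (c0 : Site) (R : ℤ) (w v : Site) : Prop :=
  (v = w ∧ w ∈ Free Obs c0 R) ∨ ∃ c ∈ Obs, nrm (w - c) ≤ 6 ∧ v = c + (7, 0)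

lemma net (Obs : Set Site) (c0 : Site) (R : ℤ)
    (hsep : ∀ c ∈ Obs, ∀ c' ∈ Obs, c ≠ c' → 50 ≤ nrm (c - c'))
    (hin : ∀ c ∈ Obs, nrm (c - c0) + 7 ≤ R) (c c' : Site) (hc : c ∈ Obs) (hc' : c' ∈ Obs) :
    Linked Adj4 (Free Obs c0 R) (c + (7, 0)) (c' + (7, 0)) := by
  have hring : ∀ c ∈ Obs, {w | nrm (w - c) = 7} ⊆ Free Obs c0 R := by
    intro c hc w hw
    refine ⟨?_, fun c2 hc2 => ?_⟩
    · have := hin c hc
      simp only [nrm, Int.abs_eq_natAbs, Set.mem_ofPred_eq, Prod.fst_sub, Prod.snd_sub] at *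
      omega
    · by_cases h : c = c2
      · subst h; exact le_of_eq hw.symm
      · have := hsep c hc c2 hc2 h
        simp only [nrm, Int.abs_eq_natAbs, Set.mem_ofPred_eq, Prod.fst_sub, Prod.snd_sub] at *
        omega
  have hr7 : ∀ c : Site, nrm (c + (7, 0) - c) = 7 := by
    intro c; simp [nrm]
  have hfree7 : ∀ c ∈ Obs, c + (7, 0) ∈ Free Obs c0 R := fun c hc => hring c hc (hr7 c)
  have hstep : ∀ a b : Site, nrm (a - c0) ≤ R → nrm (b - c0) ≤ R → Adj4 a b → ∀ va vb,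
      Rep Obs c0 R a va → Rep Obs c0 R b vb → Linked Adj4 (Free Obs c0 R) va vb := by
    have hfo : ∀ a b : Site, Adj4 a b → a ∈ Free Obs c0 R → ∀ c ∈ Obs, nrm (b - c) ≤ 6 →
        Linked Adj4 (Free Obs c0 R) (c + (7, 0)) a := by
      intro a b hab ha c hc hb
      have h7 : nrm (a - c) = 7 := by
        have := ha.2 c hc
        simp only [nrm, Adj4, Int.abs_eq_natAbs, Prod.fst_sub, Prod.snd_sub] at *
        omega
      exact (ring_conn c a h7).mono (hring c hc)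
    intro a b ha hb hab va vb hva hvb
    rcases hva with ⟨rfl, hfa⟩ | ⟨c, hc, hac, rfl⟩
    · rcases hvb with ⟨rfl, hfb⟩ | ⟨c, hc, hbc, rfl⟩
      · exact Linked.single hfa hfb hab
      · exact (hfo _ b hab hfa c hc hbc).symm (fun _ _ h => h.symm)
    · rcases hvb with ⟨rfl, hfb⟩ | ⟨c', hc', hbc, rfl⟩
      · exact hfo _ a hab.symm hfb c hc hac
      · have hcc : c = c' := by
          by_contra hne
          have := hsep c hc c' hc' hne
          simp only [nrm, Adj4, Int.abs_eq_natAbs, Prod.fst_sub, Prod.snd_sub] at *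
          omega
        subst hcc
        exact Linked.refl (hfree7 c hc)
  have hex : ∀ a : Site, nrm (a - c0) ≤ R → ∃ v, Rep Obs c0 R a v := by
    intro a ha
    by_cases h : ∃ c ∈ Obs, nrm (a - c) ≤ 6
    · obtain ⟨c, hc, h⟩ := h
      exact ⟨_, Or.inr ⟨c, hc, h, rfl⟩⟩
    · push Not at h
      exact ⟨a, Or.inl ⟨rfl, ha, fun c hc => h c hc⟩⟩
  have hbox := box_conn c0 R (c + (7, 0)) (c' + (7, 0)) (hfree7 c hc).1 (hfree7 c' hc').1
  have hfin : ∀ v', Rep Obs c0 R (c' + (7, 0)) v' →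
      Linked Adj4 (Free Obs c0 R) (c + (7, 0)) v' := by
    refine hbox.rec_on (p := fun x => ∀ v', Rep Obs c0 R x v' →
      Linked Adj4 (Free Obs c0 R) (c + (7, 0)) v') ?_ ?_
    · rintro v' (⟨rfl, h⟩ | ⟨c2, hc2, h, rfl⟩)
      · exact Linked.refl h
      · exact absurd ((hfree7 c hc).2 c2 hc2) (by omega)
    · intro a b ha hb hab hp v' hv'
      obtain ⟨va, hva⟩ := hex a ha
      exact (hp va hva).trans (hstep a b ha hb hab va v' hva hv')
  exact hfin _ (Or.inl ⟨rfl, hfree7 c' hc'⟩)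

lemma nrm_le_iff (x : Site) (r : ℤ) :
    nrm x ≤ r ↔ (-r ≤ x.1 ∧ x.1 ≤ r) ∧ (-r ≤ x.2 ∧ x.2 ≤ r) := by
  rw [nrm, max_le_iff, abs_le, abs_le]

lemma le_nrm_iff (x : Site) (r : ℤ) :
    r ≤ nrm x ↔ (r ≤ x.1 ∨ r ≤ -x.1) ∨ (r ≤ x.2 ∨ r ≤ -x.2) := by
  rw [nrm, le_max_iff, le_abs, le_abs]

lemma nrm_sm (u : ℕ) (x : Site) : nrm (sm u x) = u * nrm x := by
  simp only [nrm, sm, abs_mul, Nat.abs_cast]
  rw [← mul_max_of_nonneg _ _ (Int.natCast_nonneg u)]

/-- the circuits are joined by vacant sites -/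
def Jn (ρ : ℝ) (q : ℕ) (S : Set Site) (z : Site) (a b : ℕ) (y : Site) (p r : ℕ) : Prop :=
  ∃ g ∈ GamS ρ q S z a b, ∃ g' ∈ GamS ρ q S y p r, Linked Adj4 (vacSites ρ S) g g'

variable {ρ : ℝ} {q : ℕ} {S : Set Site}

lemma Jn.symm {z y : Site} {a b p r : ℕ} (h : Jn ρ q S z a b y p r) : Jn ρ q S y p r z a b := by
  obtain ⟨g, hg, g', hg', h⟩ := h
  exact ⟨g', hg', g, hg, h.symm (fun _ _ h => h.symm)⟩

lemma gam_conn (h1 : Stmt_CIRC) (hq : 0 < q) {z : Site} {a b : ℕ} (hab : a < b)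
    (hU : UU ρ q S z a b) {x y : Site} (hx : x ∈ GamS ρ q S z a b) (hy : y ∈ GamS ρ q S z a b) :
    Linked Adj4 (vacSites ρ S) x y := by
  obtain ⟨hsub, hconn, -⟩ := h1 ρ q S z a b hq hab hU
  exact (hconn x hx y hy).mono fun w hw => (hsub hw).1

lemma Jn.trans (h1 : Stmt_CIRC) (hq : 0 < q) {z y x : Site} {a b p r c d : ℕ} (hpr : p < r)
    (hU : UU ρ q S y p r) (h : Jn ρ q S z a b y p r) (h' : Jn ρ q S y p r x c d) :
    Jn ρ q S z a b x c d := by
  obtain ⟨g, hg, g1, hg1, hl⟩ := h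
  obtain ⟨g2, hg2, g', hg', hl'⟩ := h'
  exact ⟨g, hg, g', hg', (hl.trans (gam_conn h1 hq hpr hU hg1 hg2)).trans hl'⟩

end CHAIN

open CHAIN

theorem stmt_CHAIN (h1 : Stmt_CIRC) (h2 : Stmt_LINK) : Stmt_CHAIN := by
  intro ρ q S p X y y' hq hu hG hW hy hy' hV hV' hUy hUy' g hg g' hg'
  set u := p.u with hudef
  have hu' : (0 : ℤ) < u := by exact_mod_cast hu
  obtain ⟨B, hB⟩ := hG.div
  have hB500 : 500 ≤ B := by have := hG.big; omega
  have hAB : ((p.A : ℕ) : ℤ) = u * (8 * B) := by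
    rw [Par.A, hB]; push_cast; ring
  -- grid coordinates
  let Obs : Set Site := {c | sm u (8 * c.1 + 1, 8 * c.2) ∈ p.sub2 X}
  let c0 : Site := ((B : ℤ) * X.1, (B : ℤ) * X.2)
  let R : ℤ := 3 * B - 2
  have hinj : ∀ c c' : Site, sm u (8 * c.1 + 1, 8 * c.2) = sm u (8 * c'.1 + 1, 8 * c'.2) → c = c' := by
    intro c c' h
    simp only [sm, Prod.mk.injEq] at h
    have e1 := mul_left_cancel₀ hu'.ne' h.1
    have e2 := mul_left_cancel₀ hu'.ne' h.2
    ext <;> omega
  -- description of `sub2`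
  have hsub : ∀ y ∈ p.sub2 X, ∃ c ∈ Obs, y = sm u (8 * c.1 + 1, 8 * c.2) ∧
      ∃ y0 ∈ p.Y, ∃ M i : ℤ, |M| ≤ 1 ∧ |i| ≤ 1 ∧
        8 * c.1 + 1 = y0.1 + 8 * (B * X.1 + B * M) ∧ 8 * c.2 = y0.2 + 8 * (B * X.2 + B * i) := by
    intro y hy
    have key : ∀ M i : ℤ, |M - X.1| ≤ 1 → |i - X.2| ≤ 1 → y ∈ p.sub M i →
        ∃ c : Site, y = sm u (8 * c.1 + 1, 8 * c.2) ∧
      ∃ y0 ∈ p.Y, ∃ M i : ℤ, |M| ≤ 1 ∧ |i| ≤ 1 ∧
        8 * c.1 + 1 = y0.1 + 8 * (B * X.1 + B * M) ∧ 8 * c.2 = y0.2 + 8 * (B * X.2 + B * i) := by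
      rintro M i hM hi ⟨y0, hy0, rfl⟩
      obtain ⟨⟨k, hk⟩, ⟨l, hl⟩⟩ := hG.mod y0 hy0
      refine ⟨(k + B * M, l + B * i), ?_, y0, hy0, M - X.1, i - X.2, hM, hi, ?_, ?_⟩
      · have e1 : y0.1 = 8 * k + 1 := by omega
        simp only [sm, e1, hl, hAB, Prod.mk_add_mk]
        ext <;> simp only [] <;> ring
      · have e1 : y0.1 = 8 * k + 1 := by omega
        rw [e1]; ring
      · rw [hl]; ring
    have h3 : ∃ M i : ℤ, |M - X.1| ≤ 1 ∧ |i - X.2| ≤ 1 ∧ y ∈ p.sub M i := by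
      rcases hy with ((h | h) | h) | h
      · exact ⟨_, _, by simp, by simp, h⟩
      · exact ⟨_, _, by simp, by simp, h⟩
      · exact ⟨_, _, by simp, by simp, h⟩
      · exact ⟨_, _, by simp, by simp, h⟩
    obtain ⟨M, i, hM, hi, h3⟩ := h3
    obtain ⟨c, hc, h4⟩ := key M i hM hi h3
    exact ⟨c, by show sm u (8 * c.1 + 1, 8 * c.2) ∈ p.sub2 X; rw [← hc]; exact hy, hc, h4⟩
  have hobs : ∀ c ∈ Obs, ∃ y0 ∈ p.Y, ∃ M i : ℤ, |M| ≤ 1 ∧ |i| ≤ 1 ∧
        8 * c.1 + 1 = y0.1 + 8 * (B * X.1 + B * M) ∧ 8 * c.2 = y0.2 + 8 * (B * X.2 + B * i) := by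
    intro c hc
    obtain ⟨c', -, he, h⟩ := hsub _ hc
    rw [hinj c c' he]
    exact h
  have hB' : (0 : ℤ) ≤ B := Int.natCast_nonneg B
  have hBM : ∀ M : ℤ, |M| ≤ 1 → -(B : ℤ) ≤ B * M ∧ B * M ≤ B := by
    intro M hM
    rw [abs_le] at hM
    constructor <;> nlinarith
  have hBne : ∀ M M' : ℤ, M ≠ M' → (B : ℤ) * M + B ≤ B * M' ∨ (B : ℤ) * M' + B ≤ B * M := by
    intro M M' h
    rcases lt_or_gt_of_ne h with h | h
    · left; nlinarith
    · right; nlinarith
  have hsm : ∀ y0 ∈ p.Y, nrm y0 ≤ B := by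
    intro y0 hy0
    have h1 := hG.small y0 hy0
    rw [hB] at h1
    push_cast at h1
    omega
  have hsep : ∀ c ∈ Obs, ∀ c' ∈ Obs, c ≠ c' → 50 ≤ nrm (c - c') := by
    intro c hc c' hc' hne
    obtain ⟨y0, hy0, M, i, hM, hi, e1, e2⟩ := hobs c hc
    obtain ⟨y1, hy1, M', i', hM', hi', e1', e2'⟩ := hobs c' hc'
    have n0 := hsm y0 hy0
    have n1 := hsm y1 hy1
    by_cases hMM : M = M'
    · by_cases hii : i = i'
      · subst hMM hii
        have hyy : y0 ≠ y1 := by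
          rintro rfl
          apply hne
          ext <;> omega
        have := hG.sep y0 hy0 y1 hy1 hyy
        rw [le_nrm_iff] at this ⊢
        simp only [Prod.fst_sub, Prod.snd_sub] at this ⊢
        clear n0 n1 hsm hBne hBM hobs hsub hinj
        rcases this with (h | h) | h | h
        · left; left; omega
        · left; right; omega
        · right; left; omega
        · right; right; omega
      · have := hBne i i' hii
        rw [nrm_le_iff] at n0 n1
        rw [le_nrm_iff]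
        simp only [Prod.fst_sub, Prod.snd_sub]
        obtain ⟨-, n0⟩ := n0
        obtain ⟨-, n1⟩ := n1
        clear hsm hBne hBM hobs hsub hinj
        right
        rcases this with h | h
        · right; omega
        · left; omega
    · have := hBne M M' hMM
      rw [nrm_le_iff] at n0 n1
      rw [le_nrm_iff]
      simp only [Prod.fst_sub, Prod.snd_sub]
      obtain ⟨n0, -⟩ := n0
      obtain ⟨n1, -⟩ := n1
      clear hsm hBne hBM hobs hsub hinj
      left
      rcases this with h | h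
      · right; omega
      · left; omega
  have hin : ∀ c ∈ Obs, nrm (c - c0) + 7 ≤ R := by
    intro c hc
    obtain ⟨y0, hy0, M, i, hM, hi, e1, e2⟩ := hobs c hc
    have n0 := hsm y0 hy0
    have b1 := hBM M hM
    have b2 := hBM i hi
    rw [nrm_le_iff] at n0
    have h : nrm (c - c0) ≤ R - 7 := by
      rw [nrm_le_iff]
      simp only [Prod.fst_sub, Prod.snd_sub, c0, R]
      clear hsm hBne hBM hobs hsub hinj
      omega
    omega
  have h8 : ((8 * u : ℕ) : ℤ) = 8 * u := by push_cast; ring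
  -- the links at the free points
  have hUU : ∀ w ∈ Free Obs c0 R, UU ρ q S (sm (8 * u) w) (6 * u) (12 * u) := by
    intro w hw
    refine hW _ (Dvd.intro _ rfl) (Dvd.intro _ rfl) ?_ ?_
    · have e : sm (8 * u) w - xX p.A X = sm (8 * u) (w - c0) := by
        simp only [sm, xX, c0, hAB, h8]
        ext <;> simp only [Prod.fst_sub, Prod.snd_sub] <;> ring
      rw [e, nrm_sm, h8, hAB]
      have := hw.1
      simp only [R] at this
      nlinarith
    · intro y hy
      obtain ⟨c, hc, rfl, -⟩ := hsub y hy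
      have e : sm (8 * u) w - sm u (8 * c.1 + 1, 8 * c.2) =
          sm u (8 * (w.1 - c.1) - 1, 8 * (w.2 - c.2)) := by
        simp only [sm, h8]
        ext <;> simp only [Prod.fst_sub, Prod.snd_sub] <;> ring
      rw [e, nrm_sm]
      have h7 := hw.2 c hc
      have h55 : 55 ≤ nrm ((8 * (w.1 - c.1) - 1, 8 * (w.2 - c.2)) : Site) := by
        simp only [nrm, Int.abs_eq_natAbs, Prod.fst_sub, Prod.snd_sub] at *
        omega
      nlinarith
  have hlink : ∀ (z y : Site) (a b p r : ℕ) (n : ℤ), a < b → p < r → UU ρ q S z a b →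
      UU ρ q S y p r → nrm (z - y) = n → n ≤ a + p → (r : ℤ) < n + a → (b : ℤ) < n + p →
      Jn ρ q S z a b y p r := by
    intro z y a b p r n hab hpr hz hy hn h3 h4 h5
    subst hn
    exact h2 ρ q S z y a b p r hq hab hpr hz hy h3 h4 h5
  have h612 : 6 * u < 12 * u := by omega
  have hnet : ∀ a b : Site, a ∈ Free Obs c0 R → b ∈ Free Obs c0 R → Adj4 a b →
      Jn ρ q S (sm (8 * u) a) (6 * u) (12 * u) (sm (8 * u) b) (6 * u) (12 * u) := by
    intro a b ha hb hab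
    refine hlink _ _ _ _ _ _ (8 * u) h612 h612 (hUU a ha) (hUU b hb) ?_ ?_ ?_ ?_
    · have e : sm (8 * u) a - sm (8 * u) b = sm (8 * u) (a - b) := by
        simp only [sm]
        ext <;> simp only [Prod.fst_sub, Prod.snd_sub] <;> ring
      have e1 : nrm (a - b) = 1 := by
        simp only [nrm, Adj4, Int.abs_eq_natAbs, Prod.fst_sub, Prod.snd_sub] at *
        omega
      rw [e, nrm_sm, e1, h8, mul_one]
    all_goals push_cast; omega
  -- the ends
  have hend : ∀ y ∈ p.sub2 X, VE ρ q S y u → UU ρ q S y (10 * u) (20 * u) → ∃ c ∈ Obs,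
      Jn ρ q S y (10 * u) (20 * u) (sm (8 * u) (c + (7, 0))) (6 * u) (12 * u) := by
    intro y hy hV hU
    obtain ⟨c, hc, he, -⟩ := hsub y hy
    refine ⟨c, hc, ?_⟩
    have hi : ∀ i : ℕ, i < 6 → Jn ρ q S y (10 * u) (20 * u)
        (y.1 + 15 * u + 8 * u * i, y.2) (6 * u) (12 * u) := by
      intro i
      induction i with
      | zero =>
        intro h
        refine hlink _ _ _ _ _ _ (15 * u) (by omega) h612 hU (hV.1 0 h) ?_ ?_ ?_ ?_
        · have e : y - ((y.1 + 15 * u + 8 * u * ((0 : ℕ) : ℤ), y.2) : Site) =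
              (-(15 * (u : ℤ)), 0) := by
            ext <;> simp only [Prod.fst_sub, Prod.snd_sub] <;> push_cast <;> ring
          rw [e]
          simp only [nrm, Int.abs_eq_natAbs]
          omega
        all_goals push_cast; omega
      | succ i ih =>
        intro h
        refine Jn.trans h1 hq h612 (hV.1 i (by omega)) (ih (by omega)) ?_
        refine hlink _ _ _ _ _ _ (8 * u) h612 h612 (hV.1 i (by omega)) (hV.1 (i + 1) h) ?_ ?_ ?_ ?_
        · have e : ((y.1 + 15 * u + 8 * u * i, y.2) : Site) -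
              (y.1 + 15 * u + 8 * u * ((i + 1 : ℕ) : ℤ), y.2) = (-(8 * (u : ℤ)), 0) := by
            ext <;> simp only [Prod.fst_sub, Prod.snd_sub] <;> push_cast <;> ring
          rw [e]
          simp only [nrm, Int.abs_eq_natAbs]
          omega
        all_goals push_cast; omega
    have h5 := hi 5 (by norm_num)
    have e : ((y.1 + 15 * u + 8 * u * ((5 : ℕ) : ℤ), y.2) : Site) = sm (8 * u) (c + (7, 0)) := by
      rw [he]
      simp only [sm, h8, Prod.fst_add, Prod.snd_add]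
      ext <;> simp only [] <;> push_cast <;> ring
    rwa [e] at h5
  obtain ⟨c, hc, hJ⟩ := hend y hy hV hUy
  obtain ⟨c', hc', hJ'⟩ := hend y' hy' hV' hUy'
  have hN := net Obs c0 R hsep hin c c' hc hc'
  have hJ2 : Jn ρ q S y (10 * u) (20 * u) (sm (8 * u) (c' + (7, 0))) (6 * u) (12 * u) := by
    refine hN.rec_on (p := fun w => Jn ρ q S y (10 * u) (20 * u) (sm (8 * u) w) (6 * u) (12 * u))
      hJ ?_
    intro a b ha hb hab h
    exact Jn.trans h1 hq h612 (hUU a ha) h (hnet a b ha hb hab)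
  have hmem : c' + (7, 0) ∈ Free Obs c0 R := hN.right_mem
  obtain ⟨g1, hg1, g2, hg2, hl⟩ := Jn.trans h1 hq h612 (hUU _ hmem) hJ2 hJ'.symm
  have h1020 : 10 * u < 20 * u := by omega
  exact ((gam_conn h1 hq h1020 hUy hg hg1).trans hl).trans (gam_conn h1 hq h1020 hUy' hg2 hg')

end MPdd5692
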