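import Pool.Agent.Work.MP_dd5692_pr.InterfaceP

/-! CHERN: exponential moments of a Poisson family. helper12 -/

open MeasureTheory ProbabilityTheory Set
open scoped ENNReal NNReal BigOperators Nat

namespace MPdd5692

namespace CHERN

lemma key_sum (r : ℝ≥0) (w : ℝ) :
    HasSum (fun n : ℕ => Real.exp (-r) * (r : ℝ) ^ n / (n ! : ℝ) * Real.exp (n * w))
      (Real.exp ((r : ℝ) * (Real.exp w - 1))) := by
  have h1 := (NormedSpace.expSeries_div_hasSum_exp ((r : ℝ) * Real.exp w)).mul_left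
    (Real.exp (-(r : ℝ)))
  have h2 : Real.exp (-(r : ℝ)) * NormedSpace.exp ((r : ℝ) * Real.exp w) =
      Real.exp ((r : ℝ) * (Real.exp w - 1)) := by
    rw [← Real.exp_eq_exp_ℝ, ← Real.exp_add]
    congr 1; ring
  rw [h2] at h1
  have h3 : (fun n : ℕ => Real.exp (-r) * (r : ℝ) ^ n / (n ! : ℝ) * Real.exp (n * w)) =
      fun n : ℕ => Real.exp (-(r : ℝ)) * (((r : ℝ) * Real.exp w) ^ n / (n ! : ℝ)) := by
    funext n
    rw [mul_pow, Real.exp_nat_mul]
    ring
  rw [h3]; exact h1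

lemma integrable_exp (r : ℝ≥0) (w : ℝ) :
    Integrable (fun n : ℕ => Real.exp ((n : ℝ) * w)) (poissonMeasure r) := by
  rw [integrable_poissonMeasure_iff]
  have h := (key_sum r w).summable
  refine h.congr fun n => ?_
  rw [Real.norm_of_nonneg (Real.exp_pos _).le]

lemma integral_exp (r : ℝ≥0) (w : ℝ) :
    ∫ n : ℕ, Real.exp ((n : ℝ) * w) ∂(poissonMeasure r) =
      Real.exp ((r : ℝ) * (Real.exp w - 1)) := by
  rw [integral_poissonMeasure]
  simp only [smul_eq_mul]
  exact (key_sum r w).tsum_eq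

variable {ι : Type} (μ : ι → ℝ≥0) (w : ι → ℝ)

lemma mp (i : ι) : MeasurePreserving (Function.eval i) (pois μ) (poissonMeasure (μ i)) :=
  measurePreserving_eval_infinitePi (fun i => poissonMeasure (μ i)) i

lemma integrable_coord (i : ι) :
    Integrable (fun ω : ι → ℕ => Real.exp (1 * ((ω i : ℝ) * w i))) (pois μ) := by
  have := (mp μ i).integrable_comp_of_integrable (g := fun n : ℕ => Real.exp ((n : ℝ) * w i))
    (integrable_exp (μ i) (w i))
  simpa [Function.comp_def] using this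

lemma mgf_coord (i : ι) :
    mgf (fun ω : ι → ℕ => (ω i : ℝ) * w i) (pois μ) 1 =
      Real.exp ((μ i : ℝ) * (Real.exp (w i) - 1)) := by
  unfold mgf
  simp only [one_mul]
  rw [← integral_exp, ← (mp μ i).map_eq, integral_map (mp μ i).measurable.aemeasurable
    (by exact Measurable.aestronglyMeasurable (by fun_prop))]

lemma indep : iIndepFun (fun (i : ι) (ω : ι → ℕ) => (ω i : ℝ) * w i) (pois μ) := by
  unfold pois
  exact iIndepFun_infinitePi (P := fun i => poissonMeasure (μ i))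
    (X := fun (i : ι) (n : ℕ) => (n : ℝ) * w i) (fun i => by fun_prop)

lemma finite_bound (F : Finset ι) (x : ℝ) :
    (pois μ).real {ω | x ≤ ∑ i ∈ F, (ω i : ℝ) * w i} ≤
      Real.exp (-x + ∑ i ∈ F, (μ i : ℝ) * (Real.exp (w i) - 1)) := by
  have hm : ∀ i : ι, Measurable (fun ω : ι → ℕ => (ω i : ℝ) * w i) := fun i => by fun_prop
  have hint := (indep μ w).integrable_exp_mul_sum (t := 1) hm (s := F)
    (fun i _ => integrable_coord μ w i)
  have h := measure_ge_le_exp_mul_mgf (μ := pois μ)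
    (X := ∑ i ∈ F, (fun ω : ι → ℕ => (ω i : ℝ) * w i)) x (zero_le_one) hint
  rw [(indep μ w).mgf_sum hm F] at h
  have h2 : ∏ i ∈ F, mgf (fun ω : ι → ℕ => (ω i : ℝ) * w i) (pois μ) 1 =
      Real.exp (∑ i ∈ F, (μ i : ℝ) * (Real.exp (w i) - 1)) := by
    rw [Real.exp_sum]
    exact Finset.prod_congr rfl fun i _ => mgf_coord μ w i
  rw [h2, ← Real.exp_add] at h
  simp only [Finset.sum_apply] at h
  calc _ ≤ _ := h
    _ = _ := by congr 1; ring

end CHERN

open CHERN in
theorem stmt_CHERN : Stmt_CHERN := by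
  intro ι _ μ w hw hs x
  have hset : {ω : ι → ℕ | ∃ F : Finset ι, x ≤ ∑ i ∈ F, (ω i : ℝ) * w i} =
      ⋃ F : Finset ι, {ω : ι → ℕ | x ≤ ∑ i ∈ F, (ω i : ℝ) * w i} := by
    ext ω; simp
  have hdir : Directed (· ⊆ ·)
      (fun F : Finset ι => {ω : ι → ℕ | x ≤ ∑ i ∈ F, (ω i : ℝ) * w i}) := by
    classical
    have hmono : Monotone (fun F : Finset ι => {ω : ι → ℕ | x ≤ ∑ i ∈ F, (ω i : ℝ) * w i}) := by
      intro F G hFG ω hω
      simp only [Set.mem_ofPred_eq] at hω ⊢
      exact hω.trans (Finset.sum_le_sum_of_subset_of_nonneg hFG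
        fun i _ _ => mul_nonneg (Nat.cast_nonneg _) (hw i))
    exact hmono.directed_le
  rw [measureReal_def, hset, hdir.measure_iUnion]
  refine ENNReal.toReal_le_of_le_ofReal (Real.exp_pos _).le (iSup_le fun F => ?_)
  rw [← ENNReal.ofReal_toReal (measure_ne_top (pois μ) _)]
  refine ENNReal.ofReal_le_ofReal ?_
  refine (finite_bound μ w F x).trans ?_
  rw [Real.exp_le_exp]
  have hnn : ∀ i, 0 ≤ (μ i : ℝ) * (Real.exp (w i) - 1) := fun i =>
    mul_nonneg (NNReal.coe_nonneg _) (by linarith [Real.one_le_exp (hw i)])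
  have := hs.sum_le_tsum F (fun i _ => hnn i)
  linarith

end MPdd5692
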