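import Pool.Agent.Work.MP_dd5692_pr.InterfaceF
import Pool.Agent.Work.MP_dd5692_pr.MEAS
import Pool.Agent.Work.MP_dd5692_pr.Link98

/-! Block START (helper94): from some start to a start at time `0` in the s-cell `0`. -/

open MeasureTheory ProbabilityTheory Set
open scoped ENNReal NNReal BigOperators

namespace MPdd5692

set_option linter.unusedSectionVars false

namespace START

variable {q H : ℕ} [NeZero q]

/-- the condition on a trajectory -/
def TrajP (ρ : ℝ) (ω : Conf q H) (m0 : ℕ) (z0 : Site) (N : ℕ) (z : ℕ → Site) : Prop :=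
  z m0 = z0 ∧ (∀ k : Fin H, m0 ≤ (k : ℕ) → (k : ℕ) < N → SafeC ω k (z k)) ∧
    ∀ k : ℕ, m0 < k → k < N → (z (k - 1) = z k ∨
      LinkedS Adj4 (vacSites ρ (et ω k)) (cbox q (z (k - 1)) 0) (cbox q (z k) 0))

lemma traj_meas (ρ : ℝ) (m0 : ℕ) (z0 : Site) (N : ℕ) (z : ℕ → Site) :
    MeasurableSet {ω : Conf q H | TrajP ρ ω m0 z0 N z} := by
  have : {ω : Conf q H | TrajP ρ ω m0 z0 N z} =
      {ω | z m0 = z0} ∩ ((⋂ k : Fin H,
        {ω : Conf q H | m0 ≤ (k : ℕ) → (k : ℕ) < N → SafeC ω k (z k)}) ∩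
      ⋂ k : ℕ, {ω : Conf q H | m0 < k → k < N → (z (k - 1) = z k ∨
        LinkedS Adj4 (vacSites ρ (et ω k)) (cbox q (z (k - 1)) 0) (cbox q (z k) 0))}) := by
    ext ω
    simp only [TrajP, mem_ofPred_eq, mem_iInter, mem_inter_iff]
  rw [this]
  refine (MeasurableSet.const _).inter ((MeasurableSet.iInter fun k => ?_).inter
    (MeasurableSet.iInter fun k => ?_))
  · exact (MeasurableSet.const _).imp ((MeasurableSet.const _).imp (MEAS.safe_meas q H k _))
  · refine (MeasurableSet.const _).imp ((MeasurableSet.const _).imp ?_)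
    exact (MeasurableSet.const _).union
      (MEAS.linkedS_meas Adj4 ((MEAS.et_rs q H k).vac ρ) (MEAS.RS.const _) (MEAS.RS.const _))

/-- extension of a finite trajectory -/
def ext' (M : ℕ) (w : Fin (M + 1) → Site) : ℕ → Site :=
  fun k => if h : k < M + 1 then w ⟨k, h⟩ else 0

lemma surv_iff (ρ : ℝ) (ω : Conf q H) (m0 : ℕ) (z0 : Site) (N : ℕ) :
    SurvT ρ ω m0 z0 N ↔ ∃ w : Fin (m0 + N + 1) → Site, TrajP ρ ω m0 z0 N (ext' (m0 + N) w) := by
  constructor
  · rintro ⟨z, h1, h2, h3⟩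
    refine ⟨fun k => z k, ?_⟩
    have he : ∀ k, k < m0 + N + 1 → ext' (m0 + N) (fun k => z k) k = z k := by
      intro k hk
      unfold ext'
      rw [dif_pos hk]
    refine ⟨?_, ?_, ?_⟩
    · rw [he _ (by omega)]; exact h1
    · intro k hk1 hk2
      rw [he _ (by omega)]; exact h2 k hk1 hk2
    · intro k hk1 hk2
      rw [he _ (by omega), he _ (by omega)]
      exact h3 k hk1 hk2
  · rintro ⟨w, hw⟩
    exact ⟨_, hw⟩

lemma surv_meas (ρ : ℝ) (m0 : ℕ) (z0 : Site) (N : ℕ) :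
    MeasurableSet {ω : Conf q H | SurvT ρ ω m0 z0 N} := by
  have : {ω : Conf q H | SurvT ρ ω m0 z0 N} =
      ⋃ w : Fin (m0 + N + 1) → Site, {ω : Conf q H | TrajP ρ ω m0 z0 N (ext' (m0 + N) w)} := by
    ext ω
    simp only [surv_iff, mem_ofPred_eq, mem_iUnion]
  rw [this]
  exact MeasurableSet.iUnion fun w => traj_meas ρ m0 z0 N _

lemma linkedS_mono {adj : Site → Site → Prop} {S S' A B : Set Site} (h : S ⊆ S')
    (hl : LinkedS adj S A B) : LinkedS adj S' A B := by
  obtain ⟨a, ha, b, hb, hab⟩ := hl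
  exact ⟨a, ha, b, hb, MEAS.linked_mono h hab⟩

lemma surv_decr (ρ : ℝ) (m0 : ℕ) (z0 : Site) (N : ℕ) :
    DecrS {ω : Conf q H | SurvT ρ ω m0 z0 N} := by
  intro ω ω' hle hE
  obtain ⟨z, h1, h2, h3⟩ := hE
  refine ⟨z, h1, fun k hk1 hk2 => MEAS.safe_anti hle (h2 k hk1 hk2), fun k hk1 hk2 => ?_⟩
  rcases h3 k hk1 hk2 with h | h
  · exact Or.inl h
  · exact Or.inr (linkedS_mono (MEAS.vac_anti ρ (MEAS.et_mono hle k)) h)

/-- a hole before the start -/
lemma surv_of_hole {ρ : ℝ} {ω : Conf q H} {m0 : ℕ} {z0 : Site} {N : ℕ} (hh : HoleC ω 0 m0 z0)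
    (hs : SurvT ρ ω m0 z0 N) : SurvT ρ ω 0 z0 N := by
  obtain ⟨z, h1, h2, h3⟩ := hs
  refine ⟨fun k => if k < m0 then z0 else z k, ?_, ?_, ?_⟩
  · by_cases h : 0 < m0
    · simp [h]
    · have h0 : m0 = 0 := by omega
      subst h0
      simp [h1]
  · intro k _ hk
    by_cases h : (k : ℕ) < m0
    · simp only [h, if_true]
      exact hh k (Nat.zero_le _) h
    · simp only [h, if_false]
      exact h2 k (by omega) hk
  · intro k hk0 hk
    by_cases h : k < m0
    · left
      have h' : k - 1 < m0 := by omega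
      simp only [h, h', if_true]
    · by_cases h' : k = m0
      · left
        subst h'
        have h4 : k - 1 < k := by omega
        simp only [h4, if_true, lt_irrefl, if_false, h1]
      · have h5 : ¬ (k - 1 < m0) := by omega
        simp only [h, h5, if_false]
        exact h3 k (by omega) hk

/-- translation by `q t` -/
def tr (q : ℕ) (t : Site) (x : Site) : Site := (x.1 - q * t.1, x.2 - q * t.2)

lemma cidx_tr (t x : Site) : cidx q (tr q t x) = cidx q x - t := by
  have hq : (q : ℤ) ≠ 0 := by exact_mod_cast NeZero.ne q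
  unfold cidx tr
  refine Prod.ext ?_ ?_
  · simp only [Prod.fst_sub]
    rw [sub_eq_add_neg, ← mul_neg, Int.add_mul_ediv_left _ _ hq]
    ring
  · simp only [Prod.snd_sub]
    rw [sub_eq_add_neg, ← mul_neg, Int.add_mul_ediv_left _ _ hq]
    ring

lemma surv_shift {ρ : ℝ} {ω : Conf q H} {t : Site} {N : ℕ}
    (het : ∀ k : ℕ, et (shiftC t ω) k = {x | (x.1 + q * t.1, x.2 + q * t.2) ∈ et ω k})
    (hs : SurvT ρ ω 0 t N) : SurvT ρ (shiftC t ω) 0 0 N := by
  obtain ⟨z, h1, h2, h3⟩ := hs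
  refine ⟨fun k => z k - t, by simp [h1], ?_, ?_⟩
  · intro k hk1 hk2 θ hθ
    have h4 := h2 k hk1 hk2 ({ θ.1 with c := fun k => θ.1.c k + t }, θ.2) hθ
    have h5 : θ.1.c k.castSucc + t - z k = θ.1.c k.castSucc - (z k - t) := by abel
    have h6 : CMark.D ({ θ.1 with c := fun k => θ.1.c k + t } : CMark q H) k = θ.1.D k := by
      unfold CMark.D
      simp only [add_sub_add_right_eq_sub]
    simp only at h4
    rw [h6, h5] at h4
    exact h4
  · intro k hk1 hk2
    rcases h3 k hk1 hk2 with h | ⟨a, ha, b, hb, hab⟩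
    · left
      simp only [h]
    · right
      refine ⟨tr q t a, ?_, tr q t b, ?_, ?_⟩
      · show cidx q (tr q t a) ∈ box (z (k - 1) - t) 0
        rw [cidx_tr]
        show nrm (cidx q a - t - (z (k - 1) - t)) ≤ _
        rw [sub_sub_sub_cancel_right]
        exact ha
      · show cidx q (tr q t b) ∈ box (z k - t) 0
        rw [cidx_tr]
        show nrm (cidx q b - t - (z k - t)) ≤ _
        rw [sub_sub_sub_cancel_right]
        exact hb
      · refine Linked.mapE (S := vacSites ρ (et ω k)) ?_ ?_ hab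
        · intro x y hxy
          unfold Adj4 tr at *
          simp only
          rw [← hxy]
          congr 2 <;> ring
        · intro x hx v hv
          rw [het] at hv
          have h6 := hx _ hv
          intro h7
          apply h6
          have h8 : ((v.1 + q * t.1, v.2 + q * t.2) : Site) - x = v - tr q t x := by
            unfold tr
            refine Prod.ext ?_ ?_
            · simp only [Prod.fst_sub]; ring
            · simp only [Prod.snd_sub]; ring
          rw [h8]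
          exact h7

lemma shift_meas (t : Site) : Measurable (shiftC t : Conf q H → Conf q H) := by
  refine measurable_pi_lambda _ fun θ => ?_
  exact measurable_pi_apply _

end START

open START in
theorem stmt_START (h1 : Stmt_HARRIS) (h2 : Stmt_HOLEP) (h3 : Stmt_TRANS) : Stmt_START := by
  intro J B I δ Λ
  obtain ⟨g0, hg0, hhole⟩ := h2 I Λ J
  set T : Finset (ℕ × Site) := Finset.range J ×ˢ
    (Finset.Icc (-(B : ℤ)) B ×ˢ Finset.Icc (-(B : ℤ)) B) with hT
  have hn : (0 : ℝ) < 2 * ((T.card : ℝ) + 1) := by positivity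
  refine ⟨1 / (2 * ((T.card : ℝ) + 1)) * g0, by positivity, ?_⟩
  intro q H _ a ρ lam L N hI hJN hNH hhalf
  have : IsProbabilityMeasure (L.PP lam) := by
    unfold MarkLaw.PP; infer_instance
  -- pigeonhole
  have hex : ∃ x ∈ T, 1 / (2 * ((T.card : ℝ) + 1)) ≤
      (L.PP lam).real {ω | SurvT ρ ω x.1 x.2 N} := by
    by_contra hcon
    push Not at hcon
    have hsub : {ω : Conf q H | ∃ m0 < J, ∃ z0 : Site, nrm z0 ≤ B ∧ SurvT ρ ω m0 z0 N} ⊆
        ⋃ x ∈ T, {ω : Conf q H | SurvT ρ ω x.1 x.2 N} := by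
      rintro ω ⟨m0, hm0, z0, hz0, hs⟩
      rw [mem_iUnion₂]
      refine ⟨(m0, z0), ?_, hs⟩
      rw [hT, Finset.mem_product, Finset.mem_range, Finset.mem_product, Finset.mem_Icc,
        Finset.mem_Icc]
      have h4 : |z0.1| ≤ (B : ℤ) := (le_max_left _ _).trans hz0
      have h5 : |z0.2| ≤ (B : ℤ) := (le_max_right _ _).trans hz0
      rw [abs_le] at h4 h5
      exact ⟨hm0, h4, h5⟩
    have h6 : (L.PP lam).real {ω : Conf q H | ∃ m0 < J, ∃ z0 : Site, nrm z0 ≤ B ∧
        SurvT ρ ω m0 z0 N} ≤ ∑ x ∈ T, (L.PP lam).real {ω : Conf q H | SurvT ρ ω x.1 x.2 N} :=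
      (measureReal_mono hsub (measure_ne_top _ _)).trans (measureReal_biUnion_finset_le _ _)
    have h7 : ∑ x ∈ T, (L.PP lam).real {ω : Conf q H | SurvT ρ ω x.1 x.2 N} ≤
        ∑ x ∈ T, 1 / (2 * ((T.card : ℝ) + 1)) :=
      Finset.sum_le_sum fun x hx => (hcon x hx).le
    rw [Finset.sum_const, nsmul_eq_mul, mul_one_div] at h7
    have h8 : (T.card : ℝ) / (2 * ((T.card : ℝ) + 1)) < 1 / 2 := by
      rw [div_lt_div_iff₀ hn two_pos]
      linarith
    linarith
  obtain ⟨⟨m0, z0⟩, hx, hp⟩ := hex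
  rw [hT, Finset.mem_product, Finset.mem_range] at hx
  have hm0 : m0 < J := hx.1
  simp only at hp
  -- Harris with the hole
  have hh := hhole q H a δ L lam hI 0 m0 z0 (by omega) (by omega)
  have hH := (h1 (FMark q H) (fun θ => lam * L.fine θ) {ω | SurvT ρ ω m0 z0 N}
    {ω | HoleC ω 0 m0 z0} (surv_meas ρ m0 z0 N) (MEAS.hole_meas q H 0 m0 z0)
    (surv_decr ρ m0 z0 N) (fun ω ω' hle hE => MEAS.hole_anti hle hE)).1
  have hPP : pois (fun θ => lam * L.fine θ) = L.PP lam := rfl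
  rw [hPP] at hH
  have hsub2 : {ω : Conf q H | SurvT ρ ω m0 z0 N} ∩ {ω | HoleC ω 0 m0 z0} ⊆
      {ω : Conf q H | SurvT ρ ω 0 z0 N} := fun ω hω => surv_of_hole hω.2 hω.1
  -- translation
  obtain ⟨hmap, het, -, -⟩ := h3 q H a δ Λ L lam z0
  have hsub3 : {ω : Conf q H | SurvT ρ ω 0 z0 N} ⊆
      shiftC z0 ⁻¹' {ω : Conf q H | SurvT ρ ω 0 0 N} :=
    fun ω hω => surv_shift (het ω) hω
  have h9 : (L.PP lam).real (shiftC z0 ⁻¹' {ω : Conf q H | SurvT ρ ω 0 0 N}) =
      (L.PP lam).real {ω : Conf q H | SurvT ρ ω 0 0 N} := by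
    unfold Measure.real
    rw [← Measure.map_apply (shift_meas z0) (surv_meas ρ 0 0 N), hmap]
  calc 1 / (2 * ((T.card : ℝ) + 1)) * g0
      ≤ (L.PP lam).real {ω | SurvT ρ ω m0 z0 N} * (L.PP lam).real {ω | HoleC ω 0 m0 z0} :=
        mul_le_mul hp hh hg0.le measureReal_nonneg
    _ ≤ _ := hH
    _ ≤ (L.PP lam).real {ω : Conf q H | SurvT ρ ω 0 z0 N} := measureReal_mono hsub2
    _ ≤ _ := measureReal_mono hsub3
    _ = _ := h9

end MPdd5692
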