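import Mathlib
import Pool.Agent.Work.MP_dd5692_pr.InterfaceF
import Pool.Agent.Work.MP_dd5692_pr.START

/-!
# MP_dd5692_pr, block CORE (helper79): `Core` from (A), MARKREF, SURVD, START, BRIDGE, MONO.

Order of the constants: `c, e, s0` from (A); `s ≥ s0`, `s ≥ 20 (r + 5)`; `δ, Λ` from MARKREF;
`nmax, J, B, ε` from SURVD with `I = (l + 1) s²`; `j` from (A); `l' = l + ε`; `g` from START with
`I = (l + ε) s²`. For `K` given: `N = K + 1`, `H = (N + 4) J + 1`.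
-/

open MeasureTheory ProbabilityTheory Set
open scoped ENNReal NNReal BigOperators

namespace MPdd5692

namespace CORE

/-- the intensity of an s-cell does not depend on the mesh -/
lemma mesh_sq (s j : ℕ) : (1 / 4 : ℝ) ^ j * ((s * 2 ^ j : ℕ) : ℝ) ^ 2 = (s : ℝ) ^ 2 := by
  push_cast
  rw [mul_pow, ← pow_mul, mul_comm j 2, pow_mul]
  have h : (1 / 4 : ℝ) ^ j * ((2 : ℝ) ^ 2) ^ j = 1 := by
    rw [← mul_pow]
    norm_num
  calc (1 / 4 : ℝ) ^ j * ((s : ℝ) ^ 2 * ((2 : ℝ) ^ 2) ^ j)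
      = (s : ℝ) ^ 2 * ((1 / 4 : ℝ) ^ j * ((2 : ℝ) ^ 2) ^ j) := by ring
    _ = (s : ℝ) ^ 2 := by rw [h, mul_one]

/-- a trajectory undetected up to time `N` is undetected up to `N' ≤ N` -/
lemma surv_le {q H : ℕ} [NeZero q] {ρ : ℝ} {ω : Conf q H} {m0 : ℕ} {z0 : Site} {N N' : ℕ}
    (h : N' ≤ N) (hs : SurvT ρ ω m0 z0 N) : SurvT ρ ω m0 z0 N' := by
  obtain ⟨z, h1, h2, h3⟩ := hs
  exact ⟨z, h1, fun k hk1 hk2 => h2 k hk1 (by omega), fun k hk1 hk2 => h3 k hk1 (by omega)⟩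

end CORE

theorem stmt_CORE (h1 : Stmt_A) (h2 : Stmt_MARKREF) (h3 : Stmt_SURVD) (h4 : Stmt_START)
    (h5 : Stmt_BRIDGE) (h6 : Stmt_MONO) : Stmt_CORE := by
  intro r l β hr hl hprob htail hV hO
  obtain ⟨c, e, hc, he, he1, s0, hs0⟩ := h1 r l hr hl hV hO
  obtain ⟨n1, hn1⟩ := exists_nat_ge (20 * (r + 5))
  obtain ⟨s, hs⟩ : ∃ s : ℕ, s = max s0 n1 + 1 := ⟨_, rfl⟩
  have hs1 : 1 ≤ s := by omega
  have hss0 : s0 ≤ s := by omega
  have hsn1 : n1 ≤ s := by omega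
  have hsr : 20 * (r + 5) ≤ (s : ℝ) := hn1.trans (by exact_mod_cast hsn1)
  have hl0 : (0 : ℝ) ≤ (l : ℝ) := l.2
  have hβ : TailOK β := ⟨hprob, htail⟩
  obtain ⟨δ, Λ, hδ, hΛ, hL⟩ := h2 β hβ s hs1
  obtain ⟨nmax, J, B, ε, hε, hJ, hS⟩ := h3 c e hc he he1 (((l : ℝ) + 1) * (s : ℝ) ^ 2) δ Λ hδ hΛ
  obtain ⟨g, hg, hG⟩ := h4 J B (((l : ℝ) + ε) * (s : ℝ) ^ 2) δ Λ
  obtain ⟨j, hj⟩ := hs0 s hss0 nmax
  have hok := hj j le_rfl
  have : NeZero (s * 2 ^ j) := ⟨by positivity⟩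
  have hsq : (0 : ℝ) ≤ (s : ℝ) ^ 2 := by positivity
  obtain ⟨l', hl'⟩ : ∃ l' : ℝ≥0, (l' : ℝ) = (l : ℝ) + ε := ⟨⟨(l : ℝ) + ε, by positivity⟩, rfl⟩
  have hll' : l < l' := by
    rw [← NNReal.coe_lt_coe, hl']
    linarith
  refine ⟨1, j, l', one_pos, hll', fun x _ hxl => ⟨ENNReal.ofReal g, ENNReal.ofReal_pos.2 hg,
    fun K => ?_⟩⟩
  -- horizon
  have hKJ : K ≤ (K + 1) * J := by nlinarith
  have hJN : J ≤ (K + 1) * J := by nlinarith
  have hNH : (K + 1) * J ≤ ((K + 1) + 4) * J + 1 := by nlinarith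
  obtain ⟨L, hLm⟩ := hL j (((K + 1) + 4) * J + 1)
  -- survival with probability `≥ 1/2` from some start
  have hhalf := hS (s * 2 ^ j) j (range r j) l hok
    (by rw [CORE.mesh_sq]; nlinarith) (by rw [CORE.mesh_sq]; nlinarith) l' hll'.le hl'.le
    (K + 1) (((K + 1) + 4) * J + 1) L le_rfl hJN
  -- start at time `0` in the s-cell `0`
  have hstart := hG (s * 2 ^ j) (((K + 1) + 4) * J + 1) ((1 / 4) ^ j) (range r j) l' L
    ((K + 1) * J) (by rw [CORE.mesh_sq, hl']) hJN hNH hhalf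
  -- up to time `K`
  have hprobL : ∀ y : ℝ≥0, IsProbabilityMeasure (L.PP y) := fun y => by
    unfold MarkLaw.PP; infer_instance
  have hK : g ≤ (L.PP l').real {ω | SurvT (range r j) ω 0 0 K} :=
    hstart.trans (measureReal_mono (fun ω hω => CORE.surv_le hKJ hω))
  -- monotonicity in the intensity
  have hmono := h6 (FMark (s * 2 ^ j) (((K + 1) + 4) * J + 1)) (fun θ => L.fine θ)
    {ω | SurvT (range r j) ω 0 0 K} (START.surv_meas _ _ _ _) (START.surv_decr _ _ _ _) x l' hxl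
  have hPP : ∀ y : ℝ≥0, pois (fun θ => y * L.fine θ) = L.PP y := fun y => rfl
  rw [hPP, hPP] at hmono
  have hx : ENNReal.ofReal g ≤ (L.PP x) {ω | SurvT (range r j) ω 0 0 K} := by
    rw [ENNReal.ofReal_le_iff_le_toReal (measure_ne_top _ _)]
    exact hK.trans hmono
  exact hx.trans (h5 r β s j (((K + 1) + 4) * J + 1) K δ Λ x L hr hβ hsr (hKJ.trans hNH) hLm)

end MPdd5692
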