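import Pool.Agent.Work.MP_dd5692_pr.SS

/-!
# MP_dd5692_pr, part (B'): abstract core of Theorem B'  (helper35)
-/

set_option autoImplicit false
set_option linter.unusedSectionVars false

open MeasureTheory Function Finset

namespace MPdd5692.B35

variable {κ : Type*} [Fintype κ] [DecidableEq κ] {Ω : κ → Type*} [∀ i, MeasurableSpace (Ω i)]
variable {μ : ∀ i, Measure (Ω i)} [∀ i, IsProbabilityMeasure (μ i)]
variable {ι : Type*} [Fintype ι] [DecidableEq ι] {π : κ → ι}

/-- `E[.|Y]` commutes with the ANOVA decomposition -/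
theorem ac_EE {f : (∀ i, Ω i) → ℝ} (hf : BM f) (YY : Finset κ) (S : Finset ι) :
    ac π μ (EE μ YY f) S = EE μ YY (ac π μ f S) := by
  funext ω
  have h1 := congrFun (EE_sum (μ := μ) S.powerset
    (F := fun T ω => (-1 : ℝ) ^ (S.card + T.card) * EE μ (pre π T) f ω)
    (fun T _ => (hf.EE (pre π T)).cmul _) YY) ω
  have h2 : EE μ YY (ac π μ f S) ω = ∑ T ∈ S.powerset,
      EE μ YY (fun ω => (-1 : ℝ) ^ (S.card + T.card) * EE μ (pre π T) f ω) ω := h1
  rw [h2]
  unfold ac
  refine sum_congr rfl fun T _ => ?_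
  rw [EE_cmul, EE_EE hf, EE_EE hf, Finset.inter_comm]

/-- Bessel: the hidden randomness of the different cells is independent given `Y` -/
theorem bessel {f : (∀ i, Ω i) → ℝ} (hf : BM f) (hf1 : ∀ ω, |f ω| ≤ 1) (YY : Finset κ) :
    ∑ c : ι, ∫ ω, (EE μ (YY ∪ pre π {c}) f ω - EE μ YY f ω) ^ 2 ∂(Measure.pi μ) ≤ 1 := by
  set u : ι → (∀ i, Ω i) → ℝ := fun c ω => EE μ (YY ∪ pre π {c}) f ω - EE μ YY f ω with hu
  have hub : ∀ c, BM (u c) := fun c => (hf.EE _).sub (hf.EE _)
  have hdep : ∀ c, Dep (YY ∪ pre π {c}) (u c) := fun c ω ω' h => by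
    simp only [hu]
    rw [EE_dep (YY ∪ pre π {c}) f ω ω' h,
      (EE_dep YY f).mono subset_union_left ω ω' h]
  have hself : ∀ c, ∫ ω, u c ω * f ω ∂(Measure.pi μ) = ∫ ω, u c ω ^ 2 ∂(Measure.pi μ) := by
    intro c
    rw [← integral_EE_mul hf (hub c) (hdep c)]
    have h0 : ∫ ω, u c ω * EE μ YY f ω ∂(Measure.pi μ) = 0 := by
      have h1 : ∀ ω, u c ω * EE μ YY f ω = EE μ YY f ω * u c ω := fun ω => mul_comm _ _
      rw [integral_congr_ae (Filter.Eventually.of_forall h1),
        ← integral_EE_mul (hub c) (hf.EE YY) (EE_dep YY f)]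
      have h2 : EE μ YY (u c) = fun _ => 0 := by
        simp only [hu]
        rw [EE_sub (hf.EE _) (hf.EE _), EE_EE hf, EE_EE hf]
        funext ω
        rw [Finset.inter_eq_left.2 subset_union_left, Finset.inter_self]
        ring
      rw [h2]
      simp
    have h3 : ∀ ω, u c ω ^ 2 = u c ω * EE μ (YY ∪ pre π {c}) f ω - u c ω * EE μ YY f ω :=
      fun ω => by simp only [hu]; ring
    rw [integral_congr_ae (Filter.Eventually.of_forall h3), integral_sub
      (((hub c).mul (hf.EE _)).integrable _) (((hub c).mul (hf.EE _)).integrable _), h0, sub_zero]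
  have horth : ∀ c d, c ≠ d → ∫ ω, u c ω * u d ω ∂(Measure.pi μ) = 0 := by
    intro c d hcd
    rw [← integral_EE_mul (hub d) (hub c) (hdep c)]
    have h2 : EE μ (YY ∪ pre π {c}) (u d) = fun _ => 0 := by
      simp only [hu]
      rw [EE_sub (hf.EE _) (hf.EE _), EE_EE hf, EE_EE hf]
      funext ω
      have h3 : (YY ∪ pre π {c}) ∩ (YY ∪ pre π {d}) = YY := by
        ext k
        simp only [mem_inter, mem_union, pre, mem_filter, mem_univ, true_and, mem_singleton]
        constructor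
        · rintro ⟨h1 | h1, h2 | h2⟩
          · exact h1
          · exact h1
          · exact h2
          · exact absurd (h1.symm.trans h2) hcd
        · intro h
          exact ⟨Or.inl h, Or.inl h⟩
      rw [h3, Finset.inter_eq_right.2 subset_union_left]
      ring
    rw [h2]
    simp
  have hsum : ∫ ω, (∑ c : ι, u c ω) ^ 2 ∂(Measure.pi μ) =
      ∑ c : ι, ∫ ω, u c ω ^ 2 ∂(Measure.pi μ) := by
    have h1 : ∀ ω, (∑ c : ι, u c ω) ^ 2 = (∑ c : ι, u c ω) * ∑ c : ι, u c ω := fun ω => pow_two _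
    rw [integral_congr_ae (Filter.Eventually.of_forall h1),
      int_mul_sum _ (BM.sum _ fun c _ => hub c) fun c _ => hub c]
    refine sum_congr rfl fun c _ => ?_
    have h2 : ∀ ω, (∑ d : ι, u d ω) * u c ω = u c ω * ∑ d : ι, u d ω := fun ω => mul_comm _ _
    rw [integral_congr_ae (Filter.Eventually.of_forall h2), int_mul_sum _ (hub c) fun c _ => hub c,
      sum_eq_single_of_mem c (mem_univ c)]
    · exact integral_congr_ae (Filter.Eventually.of_forall fun ω => (pow_two _).symm)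
    · intro d _ hd
      exact horth c d (Ne.symm hd)
  have hcross : ∫ ω, f ω * ∑ c : ι, u c ω ∂(Measure.pi μ) =
      ∑ c : ι, ∫ ω, u c ω ^ 2 ∂(Measure.pi μ) := by
    rw [int_mul_sum _ hf fun c _ => hub c]
    refine sum_congr rfl fun c _ => ?_
    rw [← hself c]
    exact integral_congr_ae (Filter.Eventually.of_forall fun ω => mul_comm _ _)
  have hU : BM (fun ω => ∑ c : ι, u c ω) := BM.sum _ fun c _ => hub c
  have h0 : 0 ≤ ∫ ω, (f ω - ∑ c : ι, u c ω) ^ 2 ∂(Measure.pi μ) :=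
    integral_nonneg fun _ => sq_nonneg _
  have h1 : ∫ ω, (f ω - ∑ c : ι, u c ω) ^ 2 ∂(Measure.pi μ) =
      ∫ ω, f ω ^ 2 ∂(Measure.pi μ) - 2 * ∫ ω, f ω * ∑ c : ι, u c ω ∂(Measure.pi μ) +
        ∫ ω, (∑ c : ι, u c ω) ^ 2 ∂(Measure.pi μ) := by
    rw [← integral_const_mul,
      ← integral_sub (hf.sq.integrable _) (((hf.mul hU).cmul _).integrable _),
      ← integral_add ((hf.sq.sub ((hf.mul hU).cmul _)).integrable _) (hU.sq.integrable _)]
    refine integral_congr_ae (Filter.Eventually.of_forall fun ω => ?_)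
    simp only
    ring
  have h3 : ∫ ω, f ω ^ 2 ∂(Measure.pi μ) ≤ 1 := by
    calc ∫ ω, f ω ^ 2 ∂(Measure.pi μ) ≤ ∫ _ω : (∀ i, Ω i), (1 : ℝ) ∂(Measure.pi μ) := by
          refine integral_mono (hf.sq.integrable _) ((BM.const 1).integrable _) fun ω => ?_
          have := hf1 ω
          simp only
          rw [← sq_abs]
          exact pow_le_one₀ (abs_nonneg _) this
      _ = 1 := by simp
  rw [h1, hcross, hsum] at h0
  linarith

/-- low degree part, from Schramm-Steif with inside sets and layers -/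
theorem low_degree {f : (∀ i, Ω i) → ℝ} (hf : BM f) (hf1 : ∀ ω, |f ω| ≤ 1) (W : Finset ι)
    (m : ℕ) {ρ τ : Type*} (P : Finset ρ) (hP : P.Nonempty) (R Lay : ρ → Finset ι)
    (hRW : ∀ p ∈ P, Disjoint (R p) W)
    (hLay : ∀ i : ι, 2 * m * (P.filter (fun p => i ∈ Lay p)).card ≤ P.card)
    (s : Finset τ) (w : τ → ℝ) (hw : ∀ t ∈ s, 0 ≤ w t) (hw1 : ∑ t ∈ s, w t = 1)
    (J : ρ → τ → (∀ i, Ω i) → Finset ι) (hJ : ∀ p ∈ P, ∀ t ∈ s, Stop π f (R p) (J p t))
    {δ : ℝ} (hδ0 : 0 ≤ δ)
    (hδ : ∀ p ∈ P, ∀ c : ι, c ∉ R p → c ∉ Lay p → ∀ ω,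
      ∑ t ∈ s, w t * EE μ (pre π (R p)) (ind (fun ω => c ∈ J p t ω)) ω ≤ δ) :
    ∑ S ∈ (Finset.univ : Finset (Finset ι)).filter (fun S => (S ∩ W).Nonempty ∧ S.card ≤ m),
        ∫ ω, ac π μ f S ω ^ 2 ∂(Measure.pi μ) ≤ 2 * (m : ℝ) ^ 2 * δ := by
  set 𝒮 := (Finset.univ : Finset (Finset ι)).filter (fun S => (S ∩ W).Nonempty ∧ S.card ≤ m)
    with h𝒮
  set a : Finset ι → ℝ := fun S => ∫ ω, ac π μ f S ω ^ 2 ∂(Measure.pi μ) with ha
  have ha0 : ∀ S, 0 ≤ a S := fun S => integral_nonneg fun _ => sq_nonneg _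
  have hmeas : ∀ p ∈ P, ∀ t ∈ s, ∀ c : ι, BM (ind (fun ω => c ∈ J p t ω)) := by
    intro p hp t ht c
    refine BM.ind' ?_
    have : {ω | c ∈ J p t ω} =
        ⋃ A ∈ (Finset.univ : Finset (Finset ι)).filter (fun A => c ∈ A), {ω | J p t ω = A} := by
      ext ω
      simp
    rw [this]
    exact Finset.measurableSet_biUnion _ fun A _ => (hJ p hp t ht).meas A
  have hmeas' : ∀ p ∈ P, ∀ t ∈ s, ∀ U : Finset ι, BM (ind (fun ω => ¬ Disjoint U (J p t ω))) := by
    intro p hp t ht U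
    refine BM.ind' ?_
    have : {ω | ¬ Disjoint U (J p t ω)} =
        ⋃ A ∈ (Finset.univ : Finset (Finset ι)).filter (fun A => ¬ Disjoint U A),
          {ω | J p t ω = A} := by
      ext ω
      simp
    rw [this]
    exact Finset.measurableSet_biUnion _ fun A _ => (hJ p hp t ht).meas A
  -- for one `p`
  have hone : ∀ p ∈ P, ∑ S ∈ 𝒮.filter (fun S => Disjoint S (Lay p)), a S ≤ (m : ℝ) ^ 2 * δ := by
    intro p hp
    have hcard : ∀ S ∈ 𝒮.filter (fun S => Disjoint S (Lay p)),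
        (S \ R p).card ∈ Finset.Icc 1 m := by
      intro S hS
      rw [mem_filter, h𝒮, mem_filter] at hS
      obtain ⟨⟨_, ⟨x, hx⟩, hc⟩, _⟩ := hS
      rw [mem_inter] at hx
      rw [Finset.mem_Icc]
      refine ⟨Finset.card_pos.2 ⟨x, mem_sdiff.2 ⟨hx.1, fun h => ?_⟩⟩,
        (card_le_card sdiff_subset).trans hc⟩
      exact Finset.disjoint_left.1 (hRW p hp) h hx.2
    rw [← Finset.sum_fiberwise_of_maps_to hcard]
    calc ∑ k ∈ Finset.Icc 1 m, ∑ S ∈ (𝒮.filter (fun S => Disjoint S (Lay p))).filter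
            (fun S => (S \ R p).card = k), a S
        ≤ ∑ k ∈ Finset.Icc 1 m, (m : ℝ) * δ := by
          refine sum_le_sum fun k hk => ?_
          rw [Finset.mem_Icc] at hk
          have hkm : (k : ℝ) ≤ m := by exact_mod_cast hk.2
          refine (schramm_steif hf hf1 s w hw hw1 (J p) (hJ p hp) (k := k) (by omega)
            (fun S hS => (mem_filter.1 hS).2) (δ := m * δ) (by positivity) ?_)
          intro S hS ω
          rw [mem_filter, mem_filter] at hS
          obtain ⟨⟨_, hSL⟩, hSk⟩ := hS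
          calc ∑ t ∈ s, w t * EE μ (pre π (R p))
                  (ind (fun ω => ¬ Disjoint (S \ R p) (J p t ω))) ω
              ≤ ∑ t ∈ s, w t * ∑ c ∈ S \ R p,
                  EE μ (pre π (R p)) (ind (fun ω => c ∈ J p t ω)) ω := by
                refine sum_le_sum fun t ht => mul_le_mul_of_nonneg_left ?_ (hw t ht)
                have h1 := congrFun (EE_sum (μ := μ) (S \ R p)
                  (F := fun c => ind (fun ω => c ∈ J p t ω))
                  (fun c _ => hmeas p hp t ht c) (pre π (R p))) ω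
                rw [← h1]
                refine EE_mono (hmeas' p hp t ht _)
                  (BM.sum _ fun c _ => hmeas p hp t ht c) (fun ω' => ?_) _ _
                by_cases h : Disjoint (S \ R p) (J p t ω')
                · rw [ind_not (p := fun ω => ¬ Disjoint (S \ R p) (J p t ω)) (not_not.2 h)]
                  exact sum_nonneg fun c _ => ind_nonneg _ _
                · rw [ind_of (p := fun ω => ¬ Disjoint (S \ R p) (J p t ω)) h]
                  obtain ⟨c, hc1, hc2⟩ := Finset.not_disjoint_iff.1 h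
                  calc (1 : ℝ) = ind (fun ω => c ∈ J p t ω) ω' := (ind_of hc2).symm
                    _ ≤ _ := Finset.single_le_sum (f := fun c => ind (fun ω => c ∈ J p t ω) ω')
                        (fun c _ => ind_nonneg _ _) hc1
            _ = ∑ c ∈ S \ R p, ∑ t ∈ s, w t *
                  EE μ (pre π (R p)) (ind (fun ω => c ∈ J p t ω)) ω := by
                simp only [mul_sum]
                exact sum_comm
            _ ≤ ∑ c ∈ S \ R p, δ := by
                refine sum_le_sum fun c hc => ?_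
                rw [mem_sdiff] at hc
                exact hδ p hp c hc.2 (Finset.disjoint_left.1 hSL hc.1) ω
            _ = k * δ := by rw [sum_const, nsmul_eq_mul, hSk]
            _ ≤ m * δ := mul_le_mul_of_nonneg_right hkm hδ0
      _ = (m : ℝ) ^ 2 * δ := by
          rw [sum_const, nsmul_eq_mul, Nat.card_Icc, Nat.add_sub_cancel]
          ring
  -- average over `p`
  have hgood : ∀ S ∈ 𝒮, (P.card : ℝ) ≤ 2 * (P.filter (fun p => Disjoint S (Lay p))).card := by
    intro S hS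
    rw [h𝒮, mem_filter] at hS
    have h1 : (P.filter (fun p => ¬ Disjoint S (Lay p))).card * 2 ≤ P.card := by
      have h2 : (P.filter (fun p => ¬ Disjoint S (Lay p))).card ≤
          ∑ i ∈ S, (P.filter (fun p => i ∈ Lay p)).card := by
        classical
        refine le_trans (card_le_card ?_) card_biUnion_le
        intro p hp
        rw [mem_filter] at hp
        obtain ⟨i, hi1, hi2⟩ := Finset.not_disjoint_iff.1 hp.2
        rw [mem_biUnion]
        exact ⟨i, hi1, mem_filter.2 ⟨hp.1, hi2⟩⟩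
      by_cases hm : m = 0
      · have h3 : S = ∅ := by
          rw [← card_eq_zero]
          have := hS.2.2
          omega
        rw [h3] at h2
        simp only [sum_empty, Nat.le_zero] at h2
        rw [h3] 
        rw [h2]
        omega
      · have h3 : m * (2 * (P.filter (fun p => ¬ Disjoint S (Lay p))).card) ≤ m * P.card := by
          calc m * (2 * (P.filter (fun p => ¬ Disjoint S (Lay p))).card)
              ≤ m * (2 * ∑ i ∈ S, (P.filter (fun p => i ∈ Lay p)).card) := by gcongr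
            _ = ∑ i ∈ S, 2 * m * (P.filter (fun p => i ∈ Lay p)).card := by
                rw [← mul_sum]; ring
            _ ≤ ∑ i ∈ S, P.card := sum_le_sum fun i _ => hLay i
            _ = S.card * P.card := by rw [sum_const, smul_eq_mul]
            _ ≤ m * P.card := Nat.mul_le_mul_right _ hS.2.2
        have := Nat.le_of_mul_le_mul_left h3 (Nat.pos_of_ne_zero hm)
        omega
    have h2 := Finset.card_filter_add_card_filter_not (s := P) (fun p => Disjoint S (Lay p))
    have h3 : P.card ≤ 2 * (P.filter (fun p => Disjoint S (Lay p))).card := by omega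
    exact_mod_cast h3
  have hPc : (0 : ℝ) < P.card := by exact_mod_cast hP.card_pos
  have hfin : (P.card : ℝ) * ∑ S ∈ 𝒮, a S ≤ P.card * (2 * (m : ℝ) ^ 2 * δ) := by
    calc (P.card : ℝ) * ∑ S ∈ 𝒮, a S = ∑ S ∈ 𝒮, (P.card : ℝ) * a S := mul_sum _ _ _
      _ ≤ ∑ S ∈ 𝒮, (2 * ((P.filter (fun p => Disjoint S (Lay p))).card : ℝ)) * a S :=
          sum_le_sum fun S hS => mul_le_mul_of_nonneg_right (hgood S hS) (ha0 S)
      _ = 2 * ∑ p ∈ P, ∑ S ∈ 𝒮.filter (fun S => Disjoint S (Lay p)), a S := by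
          rw [mul_sum]
          simp only [Finset.sum_filter]
          simp only [mul_sum]
          rw [sum_comm]
          refine sum_congr rfl fun S _ => ?_
          rw [← mul_sum, ← Finset.sum_filter, sum_const, nsmul_eq_mul]
          ring
      _ ≤ 2 * ∑ p ∈ P, (m : ℝ) ^ 2 * δ := by
          gcongr with p hp
          exact hone p hp
      _ = P.card * (2 * (m : ℝ) ^ 2 * δ) := by
          rw [sum_const, nsmul_eq_mul]
          ring
  exact le_of_mul_le_mul_left hfin hPc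

/-- **Theorem B', abstract form.** -/
theorem coreB {f : (∀ i, Ω i) → ℝ} (hf : BM f) (hf1 : ∀ ω, |f ω| ≤ 1) (YY : Finset κ)
    (W : Finset ι) (m : ℕ) (hm : 0 < m) {ρ τ : Type*} (P : Finset ρ) (hP : P.Nonempty)
    (R Lay : ρ → Finset ι) (hRW : ∀ p ∈ P, Disjoint (R p) W)
    (hLay : ∀ i : ι, 2 * m * (P.filter (fun p => i ∈ Lay p)).card ≤ P.card)
    (s : Finset τ) (w : τ → ℝ) (hw : ∀ t ∈ s, 0 ≤ w t) (hw1 : ∑ t ∈ s, w t = 1)
    (J : ρ → τ → (∀ i, Ω i) → Finset ι) (hJ : ∀ p ∈ P, ∀ t ∈ s, Stop π f (R p) (J p t))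
    {δ : ℝ} (hδ0 : 0 ≤ δ)
    (hδ : ∀ p ∈ P, ∀ c : ι, c ∉ R p → c ∉ Lay p → ∀ ω,
      ∑ t ∈ s, w t * EE μ (pre π (R p)) (ind (fun ω => c ∈ J p t ω)) ω ≤ δ)
    {K ε : ℝ} (hK : 0 ≤ K)
    (hcell : ∀ c : ι,
      ∫ ω, (EE μ YY f ω - EE μ (pre π {c}ᶜ) (EE μ YY f) ω) ^ 2 ∂(Measure.pi μ) ≤
        K * ∫ ω, (EE μ (YY ∪ pre π {c}) f ω - EE μ YY f ω) ^ 2 ∂(Measure.pi μ) + ε) :
    ∫ ω, (EE μ YY f ω - EE μ (pre π Wᶜ) (EE μ YY f) ω) ^ 2 ∂(Measure.pi μ) ≤
      2 * (m : ℝ) ^ 2 * δ + (1 / m) * (K + Fintype.card ι * ε) := by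
  refine (var_le (π := π) (hf.EE YY) W m hm).trans (add_le_add ?_ ?_)
  · refine le_trans (sum_le_sum fun S _ => ?_)
      (low_degree (π := π) (μ := μ) hf hf1 W m P hP R Lay hRW hLay s w hw hw1 J hJ hδ0 hδ)
    rw [ac_EE hf]
    exact integral_EE_sq_le (hf.ac S) YY
  · refine mul_le_mul_of_nonneg_left ?_ (by positivity)
    calc ∑ c : ι, ∫ ω, (EE μ YY f ω - EE μ (pre π {c}ᶜ) (EE μ YY f) ω) ^ 2 ∂(Measure.pi μ)
        ≤ ∑ c : ι, (K * ∫ ω, (EE μ (YY ∪ pre π {c}) f ω - EE μ YY f ω) ^ 2 ∂(Measure.pi μ) + ε) :=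
          sum_le_sum fun c _ => hcell c
      _ = K * ∑ c : ι, ∫ ω, (EE μ (YY ∪ pre π {c}) f ω - EE μ YY f ω) ^ 2 ∂(Measure.pi μ) +
            Fintype.card ι * ε := by
          rw [sum_add_distrib, ← mul_sum, sum_const, nsmul_eq_mul, card_univ]
      _ ≤ K * 1 + Fintype.card ι * ε :=
          add_le_add (mul_le_mul_of_nonneg_left (bessel hf hf1 YY) hK) le_rfl
      _ = _ := by ring

end MPdd5692.B35
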