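import Pool.Agent.Work.MP_dd5692_pr.InterfaceE

/-!
# MP_dd5692_pr: block MEASE (helper96)
-/

open MeasureTheory ProbabilityTheory Set
open scoped ENNReal NNReal BigOperators

namespace MPdd5692

namespace MEASE

variable {q H : ℕ} [NeZero q]

/-! ### the maps -/

omit [NeZero q] in
theorem inn_meas (k : ℕ) (y : Site) (R : ℕ) :
    Measurable (fun ω : Conf q H => inn k y R ω) := by
  classical
  refine measurable_pi_lambda _ fun θ => ?_
  unfold inn
  by_cases h : ∃ h : k < H + 1, nrm (θ.1.c ⟨k, h⟩ - y) ≤ R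
  · simp only [if_pos h]; exact measurable_pi_apply θ
  · simp only [if_neg h]; exact measurable_const

omit [NeZero q] in
theorem inn_mono (k : ℕ) (y : Site) (R : ℕ) {ω ω' : Conf q H} (h : ω ≤ ω') :
    inn k y R ω ≤ inn k y R ω' := by
  classical
  intro θ
  unfold inn
  by_cases hc : ∃ h : k < H + 1, nrm (θ.1.c ⟨k, h⟩ - y) ≤ R
  · simp only [if_pos hc]; exact h θ
  · simp only [if_neg hc]; exact le_rfl

omit [NeZero q] in
theorem mix_meas (k : ℕ) (y : Site) (R : ℕ) :
    Measurable (fun p : Conf q H × Conf q H => mixC k y R p.1 p.2) := by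
  classical
  refine measurable_pi_lambda _ fun θ => ?_
  unfold mixC
  by_cases h : ∃ h : k < H + 1, nrm (θ.1.c ⟨k, h⟩ - y) ≤ R
  · simp only [if_pos h]; exact (measurable_pi_apply θ).comp measurable_fst
  · simp only [if_neg h]; exact (measurable_pi_apply θ).comp measurable_snd

omit [NeZero q] in
theorem mix_mono (k : ℕ) (y : Site) (R : ℕ) {M M' : Conf q H} (N : Conf q H) (h : M ≤ M') :
    mixC k y R M N ≤ mixC k y R M' N := by
  classical
  intro θ
  unfold mixC
  by_cases hc : ∃ h : k < H + 1, nrm (θ.1.c ⟨k, h⟩ - y) ≤ R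
  · simp only [if_pos hc]; exact h θ
  · simp only [if_neg hc]; exact le_rfl

theorem proj_meas (e : Fin (H + 1) → Bool) :
    Measurable (fun ω : Conf q H => projE e ω) := by
  refine measurable_pi_lambda _ fun θ => ?_
  unfold projE
  by_cases h : mask e θ.2 = θ.2
  · simp only [if_pos h]
    exact Finset.measurable_sum _ fun u _ => measurable_pi_apply _
  · simp only [if_neg h]; exact measurable_const

theorem proj_mono (e : Fin (H + 1) → Bool) {ω ω' : Conf q H} (h : ω ≤ ω') :
    projE e ω ≤ projE e ω' := by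
  intro θ
  unfold projE
  by_cases hc : mask e θ.2 = θ.2
  · simp only [if_pos hc]
    exact Finset.sum_le_sum fun u _ => h _
  · simp only [if_neg hc]; exact le_rfl

theorem asm_mono (e : Fin (H + 1) → Bool) {M M' : Conf q H} (U : HV q H) (h : M ≤ M') :
    asmE e M U ≤ asmE e M' U := by
  intro θ
  unfold asmE
  apply Finset.card_le_card
  apply Finset.filter_subset_filter
  intro i hi
  rw [Finset.mem_range] at hi ⊢
  exact lt_of_lt_of_le hi (h _)

theorem asm_meas (e : Fin (H + 1) → Bool) :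
    Measurable (fun p : Conf q H × HV q H => asmE e p.1 p.2) := by
  refine measurable_pi_lambda _ fun θ => ?_
  -- the function of the number of the particles and of the hidden positions
  have h1 : Measurable (fun p : HV q H × ℕ =>
      ((Finset.range p.2).filter fun i =>
        ∀ k, e k = false → p.1 k ((θ.1, mask e θ.2), i) = θ.2 k).card) := by
    refine measurable_from_prod_countable_left fun n => ?_
    have h2 : (fun U : HV q H => ((Finset.range n).filter fun i =>
        ∀ k, e k = false → U k ((θ.1, mask e θ.2), i) = θ.2 k).card) =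
        fun U : HV q H => ∑ i ∈ Finset.range n,
          ({U : HV q H | ∀ k, e k = false → U k ((θ.1, mask e θ.2), i) = θ.2 k}.indicator
            (fun _ => (1 : ℕ)) U) := by
      funext U
      rw [Finset.card_filter]
      refine Finset.sum_congr rfl fun i _ => ?_
      simp only [indicator, mem_ofPred_eq]
    rw [h2]
    refine Finset.measurable_sum _ fun i _ => ?_
    refine measurable_const.indicator ?_
    have h3 : {U : HV q H | ∀ k, e k = false → U k ((θ.1, mask e θ.2), i) = θ.2 k} =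
        ⋂ k : Fin (H + 1), {U : HV q H | e k = false → U k ((θ.1, mask e θ.2), i) = θ.2 k} := by
      ext U; simp
    rw [h3]
    refine MeasurableSet.iInter fun k => ?_
    by_cases hk : e k = false
    · have h4 : {U : HV q H | e k = false → U k ((θ.1, mask e θ.2), i) = θ.2 k} =
          (fun U : HV q H => U k ((θ.1, mask e θ.2), i)) ⁻¹' {θ.2 k} := by
        ext U; simp [hk]
      rw [h4]
      exact ((measurable_pi_apply ((θ.1, mask e θ.2), i)).comp (measurable_pi_apply k))
        (measurableSet_singleton _)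
    · have h4 : {U : HV q H | e k = false → U k ((θ.1, mask e θ.2), i) = θ.2 k} = univ := by
        ext U; simp [hk]
      rw [h4]; exact MeasurableSet.univ
  exact h1.comp (measurable_snd.prodMk ((measurable_pi_apply (θ.1, mask e θ.2)).comp
    measurable_fst))

/-! ### the events -/

instance unif_prob : IsProbabilityMeasure (unif q) := by
  unfold unif; infer_instance

instance hm_prob : IsProbabilityMeasure (hm q H) := by
  unfold hm; infer_instance

omit [NeZero q] in
theorem decr_and {P Q : Conf q H → Prop} (hP : Decr {ω | P ω}) (hQ : Decr {ω | Q ω}) :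
    Decr {ω | P ω ∧ Q ω} :=
  fun ω ω' h h' => ⟨hP ω ω' h h'.1, hQ ω ω' h h'.2⟩

/-- the events `VE` -/
theorem ve (h1 : Stmt_MEAS) (ρ : ℝ) (m : ℕ) (y : Site) (u : ℕ) :
    MeasurableSet {ω : Conf q H | VE ρ q (et ω m) y u} ∧
      Decr {ω : Conf q H | VE ρ q (et ω m) y u} := by
  have hU : ∀ (z : Site) (a b : ℕ), MeasurableSet {ω : Conf q H | UU ρ q (et ω m) z a b} ∧
      Decr {ω : Conf q H | UU ρ q (et ω m) z a b} :=
    fun z a b => (h1 q H ρ m m z z a b).2.1
  constructor
  · have e1 : {ω : Conf q H | VE ρ q (et ω m) y u} =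
        (⋂ i : ℕ, {ω : Conf q H | i < 6 →
          UU ρ q (et ω m) (y.1 + 15 * u + 8 * u * i, y.2) (6 * u) (12 * u)}) ∩
        {ω : Conf q H | UU ρ q (et ω m) y (50 * u) (60 * u)} := by
      ext ω; simp [VE]
    rw [e1]
    refine MeasurableSet.inter (MeasurableSet.iInter fun i => ?_) (hU _ _ _).1
    by_cases hi : i < 6
    · simp only [hi, forall_const]; exact (hU _ _ _).1
    · simp only [hi, false_imp_iff, ofPred_true]; exact MeasurableSet.univ
  · intro ω ω' h h'
    exact ⟨fun i hi => (hU _ _ _).2 ω ω' h (h'.1 i hi), (hU _ _ _).2 ω ω' h h'.2⟩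

/-- the event `HatE` -/
theorem hat (h1 : Stmt_MEAS) (ρ : ℝ) (m m' : ℕ) (y : Site) (u : ℕ) :
    MeasurableSet {ω : Conf q H | HatE ρ ω m m' y u} ∧
      Decr {ω : Conf q H | HatE ρ ω m m' y u} := by
  have hL := (h1 q H ρ m m' y y (10 * u) (10 * u)).2.2.2.1
  constructor
  · exact MeasurableSet.inter ((inn_meas (q := q) (H := H) m' y (25 * u)) hL.1) (ve h1 ρ m' y u).1
  · intro ω ω' h h'
    have h2 := (ve (q := q) (H := H) h1 ρ m' y u).2 ω ω' h
    exact ⟨hL.2 _ _ (inn_mono m' y (25 * u) h) h'.1, h2 h'.2⟩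

/-- the conditional probability -/
theorem hcp_meas (h1 : Stmt_MEAS) {a δ Λ : ℝ} (L : MarkLaw q H a δ Λ) (lam : ℝ≥0) (ρ : ℝ)
    (u m m' : ℕ) (y : Site) : Measurable (hcp L lam ρ u m m' y) := by
  have hS : MeasurableSet {x : Conf q H × (Conf q H × HV q H) |
      HatE ρ (asmE (expo H m) (mixC m' y (27 * u) x.1 x.2.1) x.2.2) m m' y u} := by
    have hf : Measurable (fun x : Conf q H × (Conf q H × HV q H) =>
        asmE (expo H m) (mixC m' y (27 * u) x.1 x.2.1) x.2.2) := by
      have h2 : Measurable (fun x : Conf q H × (Conf q H × HV q H) =>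
          (mixC m' y (27 * u) x.1 x.2.1, x.2.2)) := by
        refine Measurable.prodMk ?_ (measurable_snd.comp measurable_snd)
        exact (mix_meas m' y (27 * u)).comp
          (measurable_fst.prodMk (measurable_fst.comp measurable_snd))
      exact (asm_meas (q := q) (expo H m)).comp h2
    exact hf (hat h1 ρ m m' y u).1
  exact (measurable_measure_prodMk_left
    (ν := (pois (muE L lam (expo H m))).prod (hm q H)) hS).ennreal_toReal

theorem hcp_anti (h1 : Stmt_MEAS) {a δ Λ : ℝ} (L : MarkLaw q H a δ Λ) (lam : ℝ≥0) (ρ : ℝ)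
    (u m m' : ℕ) (y : Site) : Antitone (hcp L lam ρ u m m' y) := by
  intro M M' h
  unfold hcp
  refine measureReal_mono ?_ (measure_ne_top _ _)
  intro p hp
  exact (hat h1 ρ m m' y u).2 _ _ (asm_mono _ _ (mix_mono _ _ _ _ h)) hp

/-- the event `niceE` -/
theorem nice (h1 : Stmt_MEAS) {a δ Λ : ℝ} (L : MarkLaw q H a δ Λ) (lam : ℝ≥0) (ρ : ℝ)
    (u J : ℕ) (uh : ℝ) (m : ℕ) (y : Site) :
    MeasurableSet {ω : Conf q H | niceE L lam ρ u J uh ω m y} ∧
      Decr {ω : Conf q H | niceE L lam ρ u J uh ω m y} := by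
  constructor
  · refine measurableSet_le measurable_const ?_
    exact Finset.measurable_sum _ fun m' _ =>
      (hcp_meas h1 L lam ρ u m m' y).comp (proj_meas (expo H m))
  · intro ω ω' h h'
    refine le_trans (show uh / 2 * J ≤ _ from h') ?_
    exact Finset.sum_le_sum fun m' _ => hcp_anti h1 L lam ρ u m m' y (proj_mono (expo H m) h)

end MEASE

open MEASE in
theorem stmt_MEASE (h1 : Stmt_MEAS) : Stmt_MEASE := by
  intro q H _ a δ Λ L lam ρ p uh m m' y X
  have hU : ∀ (z : Site) (a b : ℕ), MeasurableSet {ω : Conf q H | UU ρ q (et ω m) z a b} ∧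
      Decr {ω : Conf q H | UU ρ q (et ω m) z a b} :=
    fun z a b => (h1 q H ρ m m z z a b).2.1
  refine ⟨hat h1 ρ m m' y p.u, nice h1 L lam ρ p.u p.J uh m y, ⟨?_, ?_⟩, ⟨?_, ?_⟩,
    hcp_meas h1 L lam ρ p.u m m' y, hcp_anti h1 L lam ρ p.u m m' y⟩
  · have e1 : {ω : Conf q H | WWE ρ q (et ω m) p X} =
        ⋂ z : Site, {ω : Conf q H | (((8 * p.u : ℕ) : ℤ) ∣ z.1 ∧ ((8 * p.u : ℕ) : ℤ) ∣ z.2 ∧
          nrm (z - xX p.A X) + 12 * p.u ≤ 3 * p.A ∧
          (∀ y ∈ p.sub2 X, 52 * (p.u : ℤ) < nrm (z - y))) →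
            UU ρ q (et ω m) z (6 * p.u) (12 * p.u)} := by
      ext ω
      simp only [WWE, mem_ofPred_eq, mem_iInter, and_imp]
    rw [e1]
    refine MeasurableSet.iInter fun z => ?_
    generalize (((8 * p.u : ℕ) : ℤ) ∣ z.1 ∧ ((8 * p.u : ℕ) : ℤ) ∣ z.2 ∧
          nrm (z - xX p.A X) + 12 * p.u ≤ 3 * p.A ∧
          (∀ y ∈ p.sub2 X, 52 * (p.u : ℤ) < nrm (z - y))) = c
    by_cases hz : c
    · simp only [hz, forall_const]; exact (hU _ _ _).1
    · simp only [hz, false_imp_iff, ofPred_true]; exact MeasurableSet.univ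
  · intro ω ω' h h' z z1 z2 z3 z4
    exact (hU _ _ _).2 ω ω' h (h' z z1 z2 z3 z4)
  · have e1 : {ω : Conf q H | NNE L lam ρ p uh ω m X} =
        ⋃ y : Site, {ω : Conf q H | y ∈ p.sub X.1 X.2 ∧ (niceE L lam ρ p.u p.J uh ω m y ∧
          UU ρ q (et ω m) y (10 * p.u) (20 * p.u) ∧ VE ρ q (et ω m) y p.u)} := by
      ext ω
      simp only [NNE, mem_ofPred_eq, mem_iUnion]
    rw [e1]
    refine MeasurableSet.iUnion fun z => ?_
    by_cases hz : z ∈ p.sub X.1 X.2
    · simp only [hz, true_and]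
      exact (nice h1 L lam ρ p.u p.J uh m z).1.inter ((hU _ _ _).1.inter (ve h1 ρ m z p.u).1)
    · simp only [hz, false_and, ofPred_false]; exact MeasurableSet.empty
  · rintro ω ω' h ⟨z, hz, z1, z2, z3⟩
    exact ⟨z, hz, (nice h1 L lam ρ p.u p.J uh m z).2 ω ω' h z1, (hU _ _ _).2 ω ω' h z2,
      (ve h1 ρ m z p.u).2 ω ω' h z3⟩

end MPdd5692
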