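import Mathlib
import Pool.Agent.Work.MP_dd5692_pr.InterfaceB
import Pool.Agent.Work.MP_dd5692_pr.Dec63
import Pool.Agent.Work.MP_dd5692_pr.MEASE

/-!
# MP_dd5692_pr: block DEC (helper63)
-/

open MeasureTheory ProbabilityTheory Set
open scoped ENNReal NNReal BigOperators

namespace MPdd5692

namespace Dec63

variable {q H : ℕ} [NeZero q]

/-! ### mixing -/

section mixing

variable {k : ℕ} {y : Site} {r0 r1 : ℕ}

omit [NeZero q] in
lemma mixC_self (M : Conf q H) : mixC k y r0 M M = M := by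
  funext θ
  unfold mixC
  split <;> rfl

omit [NeZero q] in
/-- the second mixture does not matter inside -/
lemma mixC_left {M M' X : Conf q H}
    (h : ∀ θ : FMark q H, (∃ h : k < H + 1, nrm (θ.1.c ⟨k, h⟩ - y) ≤ r0) → M θ = M' θ) :
    mixC k y r0 M X = mixC k y r0 M' X := by
  funext θ
  unfold mixC
  by_cases hθ : ∃ h : k < H + 1, nrm (θ.1.c ⟨k, h⟩ - y) ≤ r0
  · simp only [hθ, if_true]; exact h θ hθ
  · simp only [hθ, if_false]

omit [NeZero q] in
lemma mixC_right {M M' X : Conf q H}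
    (h : ∀ θ : FMark q H, ¬ (∃ h : k < H + 1, nrm (θ.1.c ⟨k, h⟩ - y) ≤ r0) → M θ = M' θ) :
    mixC k y r0 X M = mixC k y r0 X M' := by
  funext θ
  unfold mixC
  by_cases hθ : ∃ h : k < H + 1, nrm (θ.1.c ⟨k, h⟩ - y) ≤ r0
  · simp only [hθ, if_true]
  · simp only [hθ, if_false]; exact h θ hθ

/-- assembling is local in the marks -/
lemma asm_congr (e : Fin (H + 1) → Bool) {M M' : Conf q H} (U : HV q H) {P : CMark q H → Prop}
    (h : ∀ θ : FMark q H, P θ.1 → M θ = M' θ) :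
    ∀ θ : FMark q H, P θ.1 → asmE e M U θ = asmE e M' U θ := by
  intro θ hθ
  unfold asmE
  rw [h (θ.1, mask e θ.2) hθ]

omit [NeZero q] in
lemma inn_congr {M M' : Conf q H}
    (h : ∀ θ : FMark q H, (∃ h : k < H + 1, nrm (θ.1.c ⟨k, h⟩ - y) ≤ r0) → M θ = M' θ) :
    inn k y r0 M = inn k y r0 M' := by
  funext θ
  unfold inn
  by_cases hθ : ∃ h : k < H + 1, nrm (θ.1.c ⟨k, h⟩ - y) ≤ r0
  · simp only [hθ, if_true]; exact h θ hθ
  · simp only [hθ, if_false]

/-- the occupied set of a mixture -/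
lemma et_mix (ω ω' : Conf q H) :
    et (mixC k y r0 ω ω') k = B35.mixS q (box y r0) (et ω k) (et ω' k) := by
  ext x
  unfold B35.mixS et
  simp only [Set.mem_ofPred_eq]
  constructor
  · rintro ⟨θ, hθ, h, hx⟩
    have hc : cidx q x = θ.1.c ⟨k, h⟩ := by rw [← hx, PSI.cidx_site]
    by_cases hn : nrm (θ.1.c ⟨k, h⟩ - y) ≤ r0
    · left
      rw [PSI.mixC_pos h _ _ hn] at hθ
      exact ⟨by rw [hc]; exact hn, θ, hθ, h, hx⟩
    · right
      rw [PSI.mixC_neg h _ _ hn] at hθ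
      exact ⟨by rw [hc]; exact hn, θ, hθ, h, hx⟩
  · rintro (⟨hb, θ, hθ, h, hx⟩ | ⟨hb, θ, hθ, h, hx⟩)
    · have hc : cidx q x = θ.1.c ⟨k, h⟩ := by rw [← hx, PSI.cidx_site]
      rw [hc] at hb
      exact ⟨θ, by rw [PSI.mixC_pos h _ _ hb]; exact hθ, h, hx⟩
    · have hc : cidx q x = θ.1.c ⟨k, h⟩ := by rw [← hx, PSI.cidx_site]
      rw [hc] at hb
      exact ⟨θ, by rw [PSI.mixC_neg h _ _ hb]; exact hθ, h, hx⟩

end mixing

/-! ### the functions -/

/-- conditional probability of `D`, the inner part being `ω` -/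
noncomputable def be (e : Fin (H + 1) → Bool) (k : ℕ) (y : Site) (r0 : ℕ) (D : Set (Conf q H))
    (ω M : Conf q H) : ℝ :=
  (hm q H).real {U | mixC k y r0 ω (asmE e M U) ∈ D}

/-- the same, the outer marks being resampled -/
noncomputable def be2 (μ : Measure (Conf q H)) (e : Fin (H + 1) → Bool) (k : ℕ) (y : Site)
    (r0 r1 : ℕ) (D : Set (Conf q H)) (ω M : Conf q H) : ℝ :=
  (μ.prod (hm q H)).real {r | mixC k y r0 ω (asmE e (mixC k y r1 M r.1) r.2) ∈ D}

section main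

variable {a δ Λ : ℝ} (L : MarkLaw q H a δ Λ) (lam : ℝ≥0) (e : Fin (H + 1) → Bool) (k : ℕ)
  (hk : k < H + 1) (y : Site) (r0 r1 : ℕ) (Lm D : Set (Conf q H))

include L lam hk in
/-- `phi` in terms of two independent copies of the hidden positions -/
lemma phi_eq (hS : Stmt_SPLIT) (mL : MeasurableSet Lm) (mD : MeasurableSet D)
    (hL : ∀ ω ω' : Conf q H, mixC k y r0 ω ω' ∈ Lm ↔ ω ∈ Lm) (M : Conf q H) :
    (hm q H).real {U | asmE e M U ∈ Lm ∩ D} =
      ∫ U, {U : HV q H | asmE e M U ∈ Lm}.indicator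
        (fun U => be e k y r0 D (asmE e M U) M) U ∂(hm q H) := by
  classical
  have hasm := (hS q H a δ Λ L lam e).1
  have hsec : Measurable (fun U : HV q H => asmE e M U) :=
    hasm.comp (measurable_const.prodMk measurable_id)
  have mS : MeasurableSet {U : HV q H | asmE e M U ∈ Lm ∩ D} := hsec (mL.inter mD)
  have h1 := (PSI.mixU_mp (q := q) (H := H) (PSI.inA k hk y r0)).measureReal_preimage
    mS.nullMeasurableSet
  have mT : MeasurableSet {r : HV q H × HV q H | asmE e M r.1 ∈ Lm ∧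
      mixC k y r0 (asmE e M r.1) (asmE e M r.2) ∈ D} := by
    have m1 : Measurable (fun r : HV q H × HV q H => asmE e M r.1) := hsec.comp measurable_fst
    have m2 : Measurable (fun r : HV q H × HV q H =>
        mixC k y r0 (asmE e M r.1) (asmE e M r.2)) :=
      (PSI.mixC_meas k y r0).comp (m1.prodMk (hsec.comp measurable_snd))
    exact (m1 mL).inter (m2 mD)
  have h2 : PSI.mixU (PSI.inA k hk y r0) ⁻¹' {U : HV q H | asmE e M U ∈ Lm ∩ D} =
      {r : HV q H × HV q H | asmE e M r.1 ∈ Lm ∧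
        mixC k y r0 (asmE e M r.1) (asmE e M r.2) ∈ D} := by
    ext r
    simp only [Set.mem_preimage, Set.mem_ofPred_eq]
    have h3 := PSI.asm_mix e k hk y r0 M M r.1 r.2
    rw [mixC_self] at h3
    rw [h3, Set.mem_inter_iff, hL]
  rw [← h1, h2, FFP.real_sec _ _ mT]
  congr 1
  funext U
  by_cases hU : asmE e M U ∈ Lm
  · rw [Set.indicator_of_mem (by exact hU)]
    unfold be
    congr 1
    ext U'
    simp only [Set.mem_ofPred_eq, hU, true_and]
  · rw [Set.indicator_of_notMem (by exact hU)]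
    have : {U' : HV q H | (U, U') ∈ {r : HV q H × HV q H | asmE e M r.1 ∈ Lm ∧
        mixC k y r0 (asmE e M r.1) (asmE e M r.2) ∈ D}} = ∅ := by
      ext U'
      simp [hU]
    rw [this, measureReal_empty]

include hk in
/-- the same for `psi` -/
lemma psi_eq (hS : Stmt_SPLIT) (mL : MeasurableSet Lm) (mD : MeasurableSet D)
    (hL : ∀ ω ω' : Conf q H, mixC k y r0 ω ω' ∈ Lm ↔ ω ∈ Lm) (h01 : r0 ≤ r1) (M : Conf q H) :
    ((pois (muE L lam e)).prod (hm q H)).real
      {r | asmE e (mixC k y r1 M r.1) r.2 ∈ Lm ∩ D} =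
      ∫ U, {U : HV q H | asmE e M U ∈ Lm}.indicator
        (fun U => be2 (pois (muE L lam e)) e k y r0 r1 D (asmE e M U) M) U ∂(hm q H) := by
  classical
  have hasm := (hS q H a δ Λ L lam e).1
  have mA1 : Measurable fun p : Conf q H × HV q H => asmE e (mixC k y r1 M p.1) p.2 :=
    hasm.comp (((PSI.mixC_meas k y r1).comp (measurable_const.prodMk measurable_fst)).prodMk
      measurable_snd)
  have mS : MeasurableSet {p : Conf q H × HV q H | asmE e (mixC k y r1 M p.1) p.2 ∈ Lm ∩ D} :=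
    mA1 (mL.inter mD)
  set A : Set (FMark q H × ℕ) := PSI.inA k hk y r0 with hA
  have mp1 : MeasurePreserving
      (fun r : HV q H × (Conf q H × HV q H) => (r.2.1, PSI.mixU A (r.1, r.2.2)))
      ((hm q H).prod ((pois (muE L lam e)).prod (hm q H)))
      ((pois (muE L lam e)).prod (hm q H)) := by
    have f1 := (measurePreserving_prodAssoc (hm q H) (pois (muE L lam e)) (hm q H)).symm
    have f2 := (Measure.measurePreserving_swap (μ := hm q H) (ν := pois (muE L lam e))).prod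
      (MeasurePreserving.id (hm q H))
    have f3 := measurePreserving_prodAssoc (pois (muE L lam e)) (hm q H) (hm q H)
    have f4 := (MeasurePreserving.id (pois (muE L lam e))).prod (PSI.mixU_mp (q := q) (H := H) A)
    exact f4.comp (f3.comp (f2.comp f1))
  have h1 := mp1.measureReal_preimage mS.nullMeasurableSet
  have hsec : Measurable (fun U : HV q H => asmE e M U) :=
    hasm.comp (measurable_const.prodMk measurable_id)
  have mT : MeasurableSet {r : HV q H × (Conf q H × HV q H) | asmE e M r.1 ∈ Lm ∧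
      mixC k y r0 (asmE e M r.1) (asmE e (mixC k y r1 M r.2.1) r.2.2) ∈ D} := by
    have m1 : Measurable (fun r : HV q H × (Conf q H × HV q H) => asmE e M r.1) :=
      hsec.comp measurable_fst
    have m2 : Measurable (fun r : HV q H × (Conf q H × HV q H) =>
        mixC k y r0 (asmE e M r.1) (asmE e (mixC k y r1 M r.2.1) r.2.2)) :=
      (PSI.mixC_meas k y r0).comp (m1.prodMk (mA1.comp measurable_snd))
    exact (m1 mL).inter (m2 mD)
  have h2 : (fun r : HV q H × (Conf q H × HV q H) => (r.2.1, PSI.mixU A (r.1, r.2.2))) ⁻¹'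
      {p : Conf q H × HV q H | asmE e (mixC k y r1 M p.1) p.2 ∈ Lm ∩ D} =
      {r : HV q H × (Conf q H × HV q H) | asmE e M r.1 ∈ Lm ∧
        mixC k y r0 (asmE e M r.1) (asmE e (mixC k y r1 M r.2.1) r.2.2) ∈ D} := by
    ext r
    simp only [Set.mem_preimage, Set.mem_ofPred_eq]
    have h3 := PSI.asm_mix e k hk y r0 (mixC k y r1 M r.2.1) (mixC k y r1 M r.2.1) r.1 r.2.2
    rw [mixC_self] at h3
    have h4 : ∀ θ : FMark q H, (∃ h : k < H + 1, nrm (θ.1.c ⟨k, h⟩ - y) ≤ r0) →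
        asmE e (mixC k y r1 M r.2.1) r.1 θ = asmE e M r.1 θ := by
      refine asm_congr e r.1 (P := fun ξ => ∃ h : k < H + 1, nrm (ξ.c ⟨k, h⟩ - y) ≤ r0) ?_
      rintro θ ⟨h, hθ⟩
      exact PSI.mixC_pos h _ _ (hθ.trans (by exact_mod_cast h01))
    rw [hA, h3, mixC_left h4, Set.mem_inter_iff, hL]
  rw [← h1, h2, FFP.real_sec _ _ mT]
  congr 1
  funext U
  by_cases hU : asmE e M U ∈ Lm
  · rw [Set.indicator_of_mem (by exact hU)]
    unfold be2
    congr 1
    ext U'
    simp only [Set.mem_ofPred_eq, hU, true_and]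
  · rw [Set.indicator_of_notMem (by exact hU)]
    have : {U' : Conf q H × HV q H | (U, U') ∈ {r : HV q H × (Conf q H × HV q H) |
        asmE e M r.1 ∈ Lm ∧
        mixC k y r0 (asmE e M r.1) (asmE e (mixC k y r1 M r.2.1) r.2.2) ∈ D}} = ∅ := by
      ext U'
      simp [hU]
    rw [this, measureReal_empty]

end main

/-- the difference -/
noncomputable def GG (μ : Measure (Conf q H)) (e : Fin (H + 1) → Bool) (k : ℕ) (y : Site)
    (r0 r1 : ℕ) (D : Set (Conf q H)) (ω M : Conf q H) : ℝ :=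
  be e k y r0 D ω M - be2 μ e k y r0 r1 D ω M

lemma GG_def (μ : Measure (Conf q H)) (e : Fin (H + 1) → Bool) (k : ℕ) (y : Site)
    (r0 r1 : ℕ) (D : Set (Conf q H)) (ω M : Conf q H) :
    GG μ e k y r0 r1 D ω M = be e k y r0 D ω M - be2 μ e k y r0 r1 D ω M := rfl

section GG

variable {a δ Λ : ℝ} (L : MarkLaw q H a δ Λ) (lam : ℝ≥0) (μ : Measure (Conf q H))
  [IsProbabilityMeasure μ] (e : Fin (H + 1) → Bool) (k : ℕ)
  (hk : k < H + 1) (y : Site) (r0 r1 : ℕ) (Lm D : Set (Conf q H))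

lemma be_mem (ω M : Conf q H) : 0 ≤ be e k y r0 D ω M ∧ be e k y r0 D ω M ≤ 1 :=
  ⟨measureReal_nonneg, measureReal_le_one⟩

lemma be2_mem (ω M : Conf q H) :
    0 ≤ be2 μ e k y r0 r1 D ω M ∧ be2 μ e k y r0 r1 D ω M ≤ 1 :=
  ⟨measureReal_nonneg, measureReal_le_one⟩

lemma GG_abs (ω M : Conf q H) : |GG μ e k y r0 r1 D ω M| ≤ 1 := by
  have h1 := be_mem e k y r0 D ω M
  have h2 := be2_mem μ e k y r0 r1 D ω M
  unfold GG
  rw [abs_le]
  constructor <;> linarith [h1.1, h1.2, h2.1, h2.2]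

lemma be_meas (hasm : Measurable (fun p : Conf q H × HV q H => asmE e p.1 p.2))
    (mD : MeasurableSet D) :
    Measurable (fun p : Conf q H × Conf q H => be e k y r0 D p.1 p.2) := by
  have m1 : Measurable (fun r : (Conf q H × Conf q H) × HV q H =>
      mixC k y r0 r.1.1 (asmE e r.1.2 r.2)) :=
    (PSI.mixC_meas k y r0).comp ((measurable_fst.comp measurable_fst).prodMk
      (hasm.comp ((measurable_snd.comp measurable_fst).prodMk measurable_snd)))
  exact FFP.measurable_sec (hm q H) (m1 mD)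

lemma be2_meas (hasm : Measurable (fun p : Conf q H × HV q H => asmE e p.1 p.2))
    (mD : MeasurableSet D) :
    Measurable (fun p : Conf q H × Conf q H => be2 μ e k y r0 r1 D p.1 p.2) := by
  have m0 : Measurable (fun r : (Conf q H × Conf q H) × (Conf q H × HV q H) =>
      mixC k y r1 r.1.2 r.2.1) :=
    (PSI.mixC_meas k y r1).comp ((measurable_snd.comp measurable_fst).prodMk
      (measurable_fst.comp measurable_snd))
  have m1 : Measurable (fun r : (Conf q H × Conf q H) × (Conf q H × HV q H) =>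
      mixC k y r0 r.1.1 (asmE e (mixC k y r1 r.1.2 r.2.1) r.2.2)) :=
    (PSI.mixC_meas k y r0).comp ((measurable_fst.comp measurable_fst).prodMk
      (hasm.comp (m0.prodMk (measurable_snd.comp measurable_snd))))
  exact FFP.measurable_sec (μ.prod (hm q H)) (m1 mD)

lemma GG_meas (hasm : Measurable (fun p : Conf q H × HV q H => asmE e p.1 p.2))
    (mD : MeasurableSet D) :
    Measurable (fun p : Conf q H × Conf q H => GG μ e k y r0 r1 D p.1 p.2) :=
  (be_meas e k y r0 D hasm mD).sub (be2_meas μ e k y r0 r1 D hasm mD)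

lemma be2_eq (hasm : Measurable (fun p : Conf q H × HV q H => asmE e p.1 p.2))
    (mD : MeasurableSet D) (ω M : Conf q H) :
    be2 μ e k y r0 r1 D ω M = ∫ M', be e k y r0 D ω (mixC k y r1 M M') ∂μ := by
  have m0 : Measurable (fun r : Conf q H × HV q H => mixC k y r1 M r.1) :=
    (PSI.mixC_meas k y r1).comp (measurable_const.prodMk measurable_fst)
  have m1 : Measurable (fun r : Conf q H × HV q H =>
      mixC k y r0 ω (asmE e (mixC k y r1 M r.1) r.2)) :=
    (PSI.mixC_meas k y r0).comp (measurable_const.prodMk (hasm.comp (m0.prodMk measurable_snd)))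
  exact FFP.real_sec μ (hm q H) (m1 mD)

omit [IsProbabilityMeasure μ] in
lemma GG_left {ω ω' : Conf q H} (M : Conf q H)
    (h : ∀ θ : FMark q H, (∃ h : k < H + 1, nrm (θ.1.c ⟨k, h⟩ - y) ≤ r0) → ω θ = ω' θ) :
    GG μ e k y r0 r1 D ω M = GG μ e k y r0 r1 D ω' M := by
  unfold GG be be2
  simp only [mixC_left h]

omit [IsProbabilityMeasure μ] in
lemma GG_right (ω : Conf q H) {M M' : Conf q H}
    (h : ∀ θ : FMark q H, ¬ (∃ h : k < H + 1, nrm (θ.1.c ⟨k, h⟩ - y) ≤ r0) → M θ = M' θ) :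
    GG μ e k y r0 r1 D ω M = GG μ e k y r0 r1 D ω M' := by
  have h1 : ∀ U : HV q H, mixC k y r0 ω (asmE e M U) = mixC k y r0 ω (asmE e M' U) := by
    intro U
    exact mixC_right (asm_congr e U
      (P := fun ξ => ¬ ∃ h : k < H + 1, nrm (ξ.c ⟨k, h⟩ - y) ≤ r0) h)
  have h2 : ∀ (N : Conf q H) (U : HV q H), mixC k y r0 ω (asmE e (mixC k y r1 M N) U) =
      mixC k y r0 ω (asmE e (mixC k y r1 M' N) U) := by
    intro N U
    refine mixC_right (asm_congr e U
      (P := fun ξ => ¬ ∃ h : k < H + 1, nrm (ξ.c ⟨k, h⟩ - y) ≤ r0) fun θ hθ => ?_)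
    unfold mixC
    by_cases h3 : ∃ h : k < H + 1, nrm (θ.1.c ⟨k, h⟩ - y) ≤ r1
    · simp only [h3, if_true]; exact h θ hθ
    · simp only [h3, if_false]
  unfold GG be be2
  simp only [h1, h2]

lemma sq_le_one' {x : ℝ} (hx : |x| ≤ 1) : |x ^ 2| ≤ 1 := by
  rw [abs_pow]; exact pow_le_one₀ (abs_nonneg _) hx

attribute [local irreducible] GG be be2

/-- mean square, given `M` -/
noncomputable def FF : Conf q H → ℝ :=
  fun M => ∫ U, GG μ e k y r0 r1 D (asmE e M U) M ^ 2 ∂(hm q H)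

lemma FF_meas (hasm : Measurable (fun p : Conf q H × HV q H => asmE e p.1 p.2))
    (mD : MeasurableSet D) : Measurable (FF μ e k y r0 r1 D) := by
  have mGU : Measurable (fun p : Conf q H × HV q H =>
      GG μ e k y r0 r1 D (asmE e p.1 p.2) p.1) := by
    have h := (GG_meas μ e k y r0 r1 D hasm mD).comp (hasm.prodMk measurable_fst)
    exact h
  exact ((mGU.pow_const 2).stronglyMeasurable.integral_prod_right' (ν := hm q H)).measurable

lemma FF_abs (M : Conf q H) : |FF μ e k y r0 r1 D M| ≤ 1 := by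
  unfold FF
  have h1 : 0 ≤ ∫ U, GG μ e k y r0 r1 D (asmE e M U) M ^ 2 ∂(hm q H) :=
    integral_nonneg fun U => sq_nonneg _
  rw [abs_of_nonneg h1]
  have h2 : ∫ U, GG μ e k y r0 r1 D (asmE e M U) M ^ 2 ∂(hm q H) ≤
      ∫ _U, (1 : ℝ) ∂(hm q H) := by
    refine integral_mono_of_nonneg (Filter.Eventually.of_forall fun U => sq_nonneg _)
      (integrable_const _) (Filter.Eventually.of_forall fun U => ?_)
    exact (abs_le.1 (sq_le_one' (GG_abs μ e k y r0 r1 D (asmE e M U) M))).2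
  rw [integral_const] at h2
  simpa only [probReal_univ, one_smul] using h2

/-- the two conditional probabilities, Jensen -/
lemma stepA0 {S : Set (HV q H)} (mS : MeasurableSet S) {f g : HV q H → ℝ} (mf : Measurable f)
    (mg : Measurable g) (hf : ∀ U, 0 ≤ f U ∧ f U ≤ 1) (hg : ∀ U, 0 ≤ g U ∧ g U ≤ 1) :
    ((∫ U, S.indicator f U ∂(hm q H)) - ∫ U, S.indicator g U ∂(hm q H)) ^ 2 ≤
      ∫ U, (f U - g U) ^ 2 ∂(hm q H) := by
  have ib : Integrable (S.indicator f) (hm q H) := by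
    refine (int_bdd (hm q H) mf fun U => ?_).indicator mS
    rw [abs_of_nonneg (hf U).1]; exact (hf U).2
  have ib2 : Integrable (S.indicator g) (hm q H) := by
    refine (int_bdd (hm q H) mg fun U => ?_).indicator mS
    rw [abs_of_nonneg (hg U).1]; exact (hg U).2
  have hfg : ∀ U, |f U - g U| ≤ 1 := fun U => by
    rw [abs_le]
    constructor <;> linarith [(hf U).1, (hf U).2, (hg U).1, (hg U).2]
  rw [← integral_sub ib ib2]
  have hG : (fun U : HV q H => S.indicator f U - S.indicator g U) =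
      S.indicator (fun U => f U - g U) := by
    funext U
    by_cases hU : U ∈ S
    · rw [Set.indicator_of_mem hU, Set.indicator_of_mem hU, Set.indicator_of_mem hU]
    · rw [Set.indicator_of_notMem hU, Set.indicator_of_notMem hU, Set.indicator_of_notMem hU,
        sub_zero]
  rw [hG]
  refine (jensen (hm q H) ((mf.sub mg).indicator mS) fun U => ?_).trans ?_
  · by_cases hU : U ∈ S
    · rw [Set.indicator_of_mem hU]
      exact hfg U
    · rw [Set.indicator_of_notMem hU, abs_zero]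
      exact zero_le_one
  · refine integral_mono_of_nonneg (Filter.Eventually.of_forall fun U => sq_nonneg _)
      (int_bdd (hm q H) ((mf.sub mg).pow_const 2) fun U => sq_le_one' (hfg U))
      (Filter.Eventually.of_forall fun U => ?_)
    by_cases hU : U ∈ S
    · simp only [Set.indicator_of_mem hU]
      exact le_rfl
    · simp only [Set.indicator_of_notMem hU]
      rw [zero_pow two_ne_zero]
      exact sq_nonneg _

include hk in
lemma stepA (hS : Stmt_SPLIT) (mL : MeasurableSet Lm) (mD : MeasurableSet D)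
    (hL : ∀ ω ω' : Conf q H, mixC k y r0 ω ω' ∈ Lm ↔ ω ∈ Lm) (h01 : r0 ≤ r1) (M : Conf q H) :
    ((hm q H).real {U | asmE e M U ∈ Lm ∩ D} -
      ((pois (muE L lam e)).prod (hm q H)).real
        {r | asmE e (mixC k y r1 M r.1) r.2 ∈ Lm ∩ D}) ^ 2 ≤
      FF (pois (muE L lam e)) e k y r0 r1 D M := by
  have hasm := (hS q H a δ Λ L lam e).1
  have hsec : Measurable (fun U : HV q H => asmE e M U) :=
    hasm.comp (measurable_const.prodMk measurable_id)
  have mU : MeasurableSet {U : HV q H | asmE e M U ∈ Lm} := hsec mL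
  have mb : Measurable (fun U : HV q H => be e k y r0 D (asmE e M U) M) :=
    (be_meas e k y r0 D hasm mD).comp (hsec.prodMk measurable_const)
  have mb2 : Measurable (fun U : HV q H =>
      be2 (pois (muE L lam e)) e k y r0 r1 D (asmE e M U) M) :=
    (be2_meas (pois (muE L lam e)) e k y r0 r1 D hasm mD).comp (hsec.prodMk measurable_const)
  have h := stepA0 (q := q) (H := H) mU mb mb2 (fun U => be_mem e k y r0 D (asmE e M U) M)
    (fun U => be2_mem (pois (muE L lam e)) e k y r0 r1 D (asmE e M U) M)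
  rw [← phi_eq L lam e k hk y r0 Lm D hS mL mD hL M,
    ← psi_eq L lam e k hk y r0 r1 Lm D hS mL mD hL h01 M] at h
  have hG : ∀ U : HV q H, GG (pois (muE L lam e)) e k y r0 r1 D (asmE e M U) M =
      be e k y r0 D (asmE e M U) M - be2 (pois (muE L lam e)) e k y r0 r1 D (asmE e M U) M :=
    fun U => GG_def _ e k y r0 r1 D _ _
  unfold FF
  simp only [hG]
  exact h

omit [IsProbabilityMeasure μ] in
/-- separation of the inner and the outer marks -/
lemma FF_mix (M1 M2 : Conf q H) :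
    FF μ e k y r0 r1 D (mixC k y r0 M1 M2) =
      ∫ U, GG μ e k y r0 r1 D (asmE e M1 U) M2 ^ 2 ∂(hm q H) := by
  unfold FF
  congr 1
  funext U
  congr 1
  have h1 : ∀ θ : FMark q H, ¬ (∃ h : k < H + 1, nrm (θ.1.c ⟨k, h⟩ - y) ≤ r0) →
      mixC k y r0 M1 M2 θ = M2 θ := by
    intro θ hθ
    unfold mixC
    exact if_neg hθ
  have h2 : ∀ θ : FMark q H, (∃ h : k < H + 1, nrm (θ.1.c ⟨k, h⟩ - y) ≤ r0) →
      asmE e (mixC k y r0 M1 M2) U θ = asmE e M1 U θ := by
    refine asm_congr e U (P := fun ξ => ∃ h : k < H + 1, nrm (ξ.c ⟨k, h⟩ - y) ≤ r0) ?_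
    intro θ hθ
    unfold mixC
    exact if_pos hθ
  rw [GG_left μ e k y r0 r1 D _ h2, GG_right μ e k y r0 r1 D _ h1]

lemma stepB0 (hasm : Measurable (fun p : Conf q H × HV q H => asmE e p.1 p.2))
    (mD : MeasurableSet D) {ε : ℝ} (hV : ∀ ω : Conf q H, ∫ M, GG μ e k y r0 r1 D ω M ^ 2 ∂μ ≤ ε)
    (M1 : Conf q H) :
    ∫ M2, ∫ U, GG μ e k y r0 r1 D (asmE e M1 U) M2 ^ 2 ∂(hm q H) ∂μ ≤ ε := by
  have hsec : Measurable (fun U : HV q H => asmE e M1 U) :=
    hasm.comp (measurable_const.prodMk measurable_id)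
  have mm : Measurable (fun p : Conf q H × HV q H =>
      GG μ e k y r0 r1 D (asmE e M1 p.2) p.1 ^ 2) :=
    ((GG_meas μ e k y r0 r1 D hasm mD).comp
      ((hsec.comp measurable_snd).prodMk measurable_fst)).pow_const 2
  have hi : Integrable (Function.uncurry fun (M2 : Conf q H) (U : HV q H) =>
      GG μ e k y r0 r1 D (asmE e M1 U) M2 ^ 2) (μ.prod (hm q H)) :=
    int_bdd _ mm fun p => sq_le_one' (GG_abs μ e k y r0 r1 D _ _)
  rw [integral_integral_swap hi]
  have h5 : ∫ U, ∫ M2, GG μ e k y r0 r1 D (asmE e M1 U) M2 ^ 2 ∂μ ∂(hm q H) ≤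
      ∫ _U, ε ∂(hm q H) :=
    integral_mono_of_nonneg (Filter.Eventually.of_forall fun U =>
      integral_nonneg fun _ => sq_nonneg _) (integrable_const _)
      (Filter.Eventually.of_forall fun U => hV _)
  simpa using h5

lemma stepB (hS : Stmt_SPLIT) (mD : MeasurableSet D) {ε : ℝ}
    (hV : ∀ ω : Conf q H, ∫ M, GG (pois (muE L lam e)) e k y r0 r1 D ω M ^ 2
      ∂(pois (muE L lam e)) ≤ ε) :
    ∫ M, FF (pois (muE L lam e)) e k y r0 r1 D M ∂(pois (muE L lam e)) ≤ ε := by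
  classical
  have hasm := (hS q H a δ Λ L lam e).1
  have h2 := stmt_MIX (FMark q H) (muE L lam e)
    {θ : FMark q H | ∃ h : k < H + 1, nrm (θ.1.c ⟨k, h⟩ - y) ≤ r0}
    (FF (pois (muE L lam e)) e k y r0 r1 D) (FF_meas _ e k y r0 r1 D hasm mD)
    (FF_abs _ e k y r0 r1 D)
  have h3 : ∀ M1 M2 : Conf q H, (fun i => if i ∈ {θ : FMark q H | ∃ h : k < H + 1,
      nrm (θ.1.c ⟨k, h⟩ - y) ≤ r0} then M1 i else M2 i) = mixC k y r0 M1 M2 := by
    intro M1 M2
    funext θ
    unfold mixC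
    by_cases h : ∃ h : k < H + 1, nrm (θ.1.c ⟨k, h⟩ - y) ≤ r0
    · rw [if_pos (by exact h), if_pos h]
    · rw [if_neg (by exact h), if_neg h]
  simp only [h3, FF_mix] at h2
  rw [h2]
  have h6 : ∫ M1, ∫ M2, ∫ U, GG (pois (muE L lam e)) e k y r0 r1 D (asmE e M1 U) M2 ^ 2
      ∂(hm q H) ∂(pois (muE L lam e)) ∂(pois (muE L lam e)) ≤ ∫ _M1, ε ∂(pois (muE L lam e)) :=
    integral_mono_of_nonneg (Filter.Eventually.of_forall fun M1 =>
      integral_nonneg fun _ => integral_nonneg fun _ => sq_nonneg _) (integrable_const _)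
      (Filter.Eventually.of_forall fun M1 => stepB0 _ e k y r0 r1 D hasm mD hV M1)
  simpa using h6

include hk in
/-- the main estimate -/
lemma main_bound (hS : Stmt_SPLIT) (mL : MeasurableSet Lm) (mD : MeasurableSet D)
    (hL : ∀ ω ω' : Conf q H, mixC k y r0 ω ω' ∈ Lm ↔ ω ∈ Lm) (h01 : r0 ≤ r1) {ε : ℝ}
    (hV : ∀ ω : Conf q H, ∫ M, GG (pois (muE L lam e)) e k y r0 r1 D ω M ^ 2
      ∂(pois (muE L lam e)) ≤ ε) :
    ∫ M, ((hm q H).real {U | asmE e M U ∈ Lm ∩ D} -
      ((pois (muE L lam e)).prod (hm q H)).real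
        {r | asmE e (mixC k y r1 M r.1) r.2 ∈ Lm ∩ D}) ^ 2 ∂(pois (muE L lam e)) ≤ ε := by
  have hasm := (hS q H a δ Λ L lam e).1
  refine le_trans ?_ (stepB L lam e k y r0 r1 D hS mD hV)
  exact integral_mono_of_nonneg (Filter.Eventually.of_forall fun M => sq_nonneg _)
    (int_bdd _ (FF_meas _ e k y r0 r1 D hasm mD) (FF_abs _ e k y r0 r1 D))
    (Filter.Eventually.of_forall fun M => stepA L lam e k hk y r0 r1 Lm D hS mL mD hL h01 M)

end GG

/-! ### the rings -/

omit [NeZero q] in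
lemma rings_union (ρ : ℝ) (q : ℕ) (R R' : Finset (Site × ℕ × ℕ)) (S : Set Site) :
    B35.Rings ρ q (R ∪ R') S ↔ B35.Rings ρ q R S ∧ B35.Rings ρ q R' S := by
  unfold B35.Rings
  constructor
  · intro h
    exact ⟨fun r hr => h r (Finset.mem_union_left _ hr),
      fun r hr => h r (Finset.mem_union_right _ hr)⟩
  · rintro ⟨h1, h2⟩ r hr
    rcases Finset.mem_union.1 hr with h | h
    · exact h1 r h
    · exact h2 r h

/-- the rings of `VE` -/
lemma ringsV (y : Site) (u : ℕ) : ∃ R : Finset (Site × ℕ × ℕ), R.card ≤ 7 ∧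
    (∀ r ∈ R, r.2 = (6 * u, 12 * u) ∨ r.2 = (50 * u, 60 * u)) ∧
    ∀ (ρ : ℝ) (q : ℕ) (S : Set Site), VE ρ q S y u ↔ B35.Rings ρ q R S := by
  classical
  set R1 : Finset (Site × ℕ × ℕ) := (Finset.range 6).image
    (fun i : ℕ => (((y.1 + 15 * u + 8 * u * i, y.2) : Site), 6 * u, 12 * u)) with hR1
  refine ⟨R1 ∪ {(y, 50 * u, 60 * u)}, ?_, ?_, ?_⟩
  · have h1 : R1.card ≤ 6 := by
      refine Finset.card_image_le.trans ?_
      simp
    have h2 := Finset.card_union_le R1 {(y, 50 * u, 60 * u)}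
    rw [Finset.card_singleton] at h2
    omega
  · intro r hr
    rcases Finset.mem_union.1 hr with h | h
    · obtain ⟨i, -, rfl⟩ := Finset.mem_image.1 h
      left; rfl
    · rw [Finset.mem_singleton] at h
      right; rw [h]
  · intro ρ q S
    rw [rings_union]
    unfold VE B35.Rings
    constructor
    · rintro ⟨h1, h2⟩
      refine ⟨fun r hr => ?_, fun r hr => ?_⟩
      · obtain ⟨i, hi, rfl⟩ := Finset.mem_image.1 hr
        exact h1 i (Finset.mem_range.1 hi)
      · rw [Finset.mem_singleton] at hr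
        rw [hr]; exact h2
    · rintro ⟨h1, h2⟩
      have h4 := h2 (y, 50 * u, 60 * u) (Finset.mem_singleton_self _)
      refine ⟨fun i hi => ?_, h4⟩
      have h3 := h1 (((y.1 + 15 * u + 8 * u * i, y.2) : Site), 6 * u, 12 * u)
        (Finset.mem_image.2 ⟨i, Finset.mem_range.2 hi, rfl⟩)
      exact h3

/-- the rings of `WWE` -/
lemma ringsW (p : Par) (hu : 1 ≤ p.u) (h8 : 8 ∣ p.A1) (X : ℕ × ℤ) :
    ∃ R : Finset (Site × ℕ × ℕ), R.card ≤ (p.A1 + 1) ^ 2 ∧
    (∀ r ∈ R, r.2 = (6 * p.u, 12 * p.u)) ∧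
    ∀ (ρ : ℝ) (q : ℕ) (S : Set Site), WWE ρ q S p X ↔ B35.Rings ρ q R S := by
  classical
  set k : ℤ := ((3 * p.A1 / 8 : ℕ) : ℤ) with hk
  set P : Site → Prop := fun z => ((8 * p.u : ℕ) : ℤ) ∣ z.1 ∧ ((8 * p.u : ℕ) : ℤ) ∣ z.2 ∧
    nrm (z - xX p.A X) + 12 * p.u ≤ 3 * p.A ∧
    (∀ y ∈ p.sub2 X, 52 * (p.u : ℤ) < nrm (z - y)) with hP
  set f : Site → Site := fun i => ((xX p.A X).1 + ((8 * p.u : ℕ) : ℤ) * i.1,
    (xX p.A X).2 + ((8 * p.u : ℕ) : ℤ) * i.2) with hf
  set s : Finset Site := ((Finset.Icc (-k) k ×ˢ Finset.Icc (-k) k).image f).filter P with hs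
  have hd : ((8 * p.u : ℕ) : ℤ) ∣ (p.A : ℤ) := by
    obtain ⟨k, hk⟩ := h8
    refine ⟨k, ?_⟩
    unfold Par.A
    rw [hk]; push_cast; ring
  have hd1 : ((8 * p.u : ℕ) : ℤ) ∣ (xX p.A X).1 := Dvd.dvd.mul_right hd _
  have hd2 : ((8 * p.u : ℕ) : ℤ) ∣ (xX p.A X).2 := Dvd.dvd.mul_right hd _
  have hmem : ∀ z, P z → z ∈ s := by
    intro z hz
    rw [hs, Finset.mem_filter]
    refine ⟨?_, hz⟩
    obtain ⟨hz1, hz2, hnz, -⟩ := hz
    obtain ⟨i1, hi1⟩ := Int.dvd_sub hz1 hd1
    obtain ⟨i2, hi2⟩ := Int.dvd_sub hz2 hd2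
    have hnz' : nrm (z - xX p.A X) + 12 * p.u ≤ 3 * ((p.A1 : ℤ) * p.u) := by
      have : (p.A : ℤ) = (p.A1 : ℤ) * p.u := by unfold Par.A; push_cast; ring
      rw [← this]; exact hnz
    have hz1' : |z.1 - (xX p.A X).1| ≤ nrm (z - xX p.A X) := le_max_left _ _
    have hz2' : |z.2 - (xX p.A X).2| ≤ nrm (z - xX p.A X) := le_max_right _ _
    have hup : (0 : ℤ) < p.u := by exact_mod_cast hu
    have bound : ∀ i z' : ℤ, z' = ((8 * p.u : ℕ) : ℤ) * i → |z'| ≤ nrm (z - xX p.A X) →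
        i ∈ Finset.Icc (-k) k := by
      intro i z' hz' hle'
      have h3 : 8 * (p.u : ℤ) * |i| ≤ 3 * ((p.A1 : ℤ) * p.u) := by
        have : |z'| = 8 * (p.u : ℤ) * |i| := by
          rw [hz', abs_mul]; push_cast
          rw [abs_of_nonneg (by positivity : (0 : ℤ) ≤ 8 * p.u)]
        linarith
      have h4 : 8 * |i| ≤ 3 * (p.A1 : ℤ) := by
        by_contra hcon
        push Not at hcon
        nlinarith
      rw [Finset.mem_Icc]
      have h5 : |i| ≤ k := by omega
      exact abs_le.mp h5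
    refine Finset.mem_image.mpr ⟨(i1, i2), ?_, ?_⟩
    · rw [Finset.mem_product]
      exact ⟨bound i1 _ hi1 hz1', bound i2 _ hi2 hz2'⟩
    · rw [hf]
      ext
      · show (xX p.A X).1 + ((8 * p.u : ℕ) : ℤ) * i1 = z.1
        rw [← hi1]; ring
      · show (xX p.A X).2 + ((8 * p.u : ℕ) : ℤ) * i2 = z.2
        rw [← hi2]; ring
  refine ⟨s.image fun z => (z, 6 * p.u, 12 * p.u), ?_, ?_, ?_⟩
  · have c1 : (s.image fun z => (z, 6 * p.u, 12 * p.u)).card ≤ s.card := Finset.card_image_le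
    have c2 : s.card ≤ ((Finset.Icc (-k) k ×ˢ Finset.Icc (-k) k).image f).card :=
      Finset.card_filter_le _ _
    have c3 : ((Finset.Icc (-k) k ×ˢ Finset.Icc (-k) k).image f).card ≤
        (Finset.Icc (-k) k ×ˢ Finset.Icc (-k) k).card := Finset.card_image_le
    have c4 : (Finset.Icc (-k) k ×ˢ Finset.Icc (-k) k).card ≤ (p.A1 + 1) ^ 2 := by
      rw [Finset.card_product, Int.card_Icc]
      have : (k + 1 - -k).toNat ≤ p.A1 + 1 := by omega
      rw [sq]
      exact Nat.mul_le_mul this this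
    exact c1.trans (c2.trans (c3.trans c4))
  · intro r hr
    obtain ⟨z, -, rfl⟩ := Finset.mem_image.1 hr
    rfl
  · intro ρ q S
    unfold WWE B35.Rings
    constructor
    · intro h r hr
      obtain ⟨z, hz, rfl⟩ := Finset.mem_image.1 hr
      obtain ⟨h1, h2, h3, h4⟩ := (Finset.mem_filter.1 hz).2
      exact h z h1 h2 h3 h4
    · intro h z h1 h2 h3 h4
      exact h (z, 6 * p.u, 12 * p.u) (Finset.mem_image.2 ⟨z, hmem z ⟨h1, h2, h3, h4⟩, rfl⟩)

/-- ring events are measurable -/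
lemma rings_meas (hM : Stmt_MEAS) (q H : ℕ) [NeZero q] (ρ : ℝ) (R : Finset (Site × ℕ × ℕ))
    (k : ℕ) : MeasurableSet {ω : Conf q H | B35.Rings ρ q R (et ω k)} := by
  have : {ω : Conf q H | B35.Rings ρ q R (et ω k)} =
      ⋂ r ∈ R, {ω : Conf q H | UU ρ q (et ω k) r.1 r.2.1 r.2.2} := by
    ext ω
    simp only [B35.Rings, Set.mem_ofPred_eq, Set.mem_iInter]
  rw [this]
  exact Finset.measurableSet_biInter R fun r _ =>
    (hM q H ρ k k r.1 r.1 r.2.1 r.2.2).2.1.1

end Dec63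

open Dec63 in
/-- DEC, from Theorem B' for rings -/
theorem stmt_DEC (h1 : B35.Stmt_VRING) (h2 : Stmt_SPLIT) (h3 : Stmt_MEAS) (h4 : Stmt_WLOW) :
    Stmt_DEC := by
  intro c e I δ Λ ε J A1 Y hc hc1 hδ hε hG
  obtain ⟨T0, hT0⟩ := h1 c e I δ Λ (37 + (A1 + 1) ^ 2) ε hc hc1 hδ hε
  refine ⟨T0 + 1, ?_⟩
  intro u hu nmax E hn
  have hu1 : 1 ≤ u := by omega
  set p : Par := ⟨u, J, A1, Y⟩ with hp
  -- conditions on the rings
  have hcond : ∀ r : Site × ℕ × ℕ, r.2 = (6 * u, 12 * u) ∨ r.2 = (50 * u, 60 * u) →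
      r.2.1 + 2 * u ≤ r.2.2 ∧ r.2.2 ≤ (37 + (A1 + 1) ^ 2) * (2 * u) ∧ r.2.2 ≤ nmax := by
    intro r hr
    have h5 : 60 * u ≤ (37 + (A1 + 1) ^ 2) * (2 * u) := by nlinarith [Nat.zero_le ((A1 + 1) ^ 2 * u)]
    rcases hr with h | h
    · rw [h]
      refine ⟨by show 6 * u + 2 * u ≤ 12 * u; omega, ?_, by show 12 * u ≤ nmax; omega⟩
      show 12 * u ≤ (37 + (A1 + 1) ^ 2) * (2 * u)
      omega
    · rw [h]
      refine ⟨by show 50 * u + 2 * u ≤ 60 * u; omega, ?_, by show 60 * u ≤ nmax; omega⟩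
      show 60 * u ≤ (37 + (A1 + 1) ^ 2) * (2 * u)
      omega
  constructor
  · -- phi
    intro m m' y X' hmm hmH hy
    have hk : m' < E.H + 1 := Nat.lt_succ_of_le hmH
    obtain ⟨RV, cV, kV, eV⟩ := ringsV y u
    obtain ⟨RW, cW, kW, eW⟩ := ringsW p hu1 hG.div X'
    have hex : expo E.H m ⟨m', hk⟩ = false := by
      unfold expo
      simp only [decide_eq_false_iff_not]
      omega
    classical
    set R := RV ∪ RW with hR
    have hRc : R.card ≤ 37 + (A1 + 1) ^ 2 := by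
      have h5 : R.card ≤ RV.card + RW.card := by rw [hR]; exact Finset.card_union_le RV RW
      have h6 : RW.card ≤ (A1 + 1) ^ 2 := cW
      omega
    have hRk : ∀ r ∈ R, r.2.1 + 2 * u ≤ r.2.2 ∧ r.2.2 ≤ (37 + (A1 + 1) ^ 2) * (2 * u) ∧
        r.2.2 ≤ nmax := by
      intro r hr
      rcases Finset.mem_union.1 hr with h | h
      · exact hcond r (kV r h)
      · exact hcond r (Or.inl (kW r h))
    have hasm := (h2 E.q E.H _ δ Λ E.L E.lam (expo E.H m)).1
    set D : Set (Conf E.q E.H) := {ω | B35.Rings E.ρ E.q R (et ω m')} with hD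
    have mD : MeasurableSet D := rings_meas h3 E.q E.H E.ρ R m'
    set Lm : Set (Conf E.q E.H) := {ω | LamE E.ρ (inn m' y (25 * u) ω) m m' y (10 * u)} with hLm
    have mL : MeasurableSet Lm :=
      (MEASE.inn_meas m' y (25 * u)) (h3 E.q E.H E.ρ m m' y y (10 * u) 0).2.2.2.1.1
    have hL : ∀ ω ω' : Conf E.q E.H, mixC m' y (25 * u) ω ω' ∈ Lm ↔ ω ∈ Lm := by
      intro ω ω'
      have h5 : inn m' y (25 * u) (mixC m' y (25 * u) ω ω') = inn m' y (25 * u) ω :=
        inn_congr fun θ hθ => by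
          obtain ⟨h, hθ⟩ := hθ
          exact PSI.mixC_pos h _ _ hθ
      show LamE E.ρ (inn m' y (25 * u) (mixC m' y (25 * u) ω ω')) m m' y (10 * u) ↔ _
      rw [h5]
      exact Iff.rfl
    have hHW : ∀ ω : Conf E.q E.H, (HatE E.ρ ω m m' y p.u ∧ WWE E.ρ E.q (et ω m') p X') ↔
        ω ∈ Lm ∩ D := by
      intro ω
      rw [Set.mem_inter_iff]
      show ((LamE E.ρ (inn m' y (25 * u) ω) m m' y (10 * u) ∧ VE E.ρ E.q (et ω m') y u) ∧ _) ↔
        (LamE E.ρ (inn m' y (25 * u) ω) m m' y (10 * u) ∧ B35.Rings E.ρ E.q R (et ω m'))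
      rw [hR, rings_union, ← eV, ← eW, and_assoc]
    have hV : ∀ ω : Conf E.q E.H, ∫ M, GG (pois (muE E.L E.lam (expo E.H m))) (expo E.H m) m' y
        (25 * u) (27 * u) D ω M ^ 2 ∂(pois (muE E.L E.lam (expo E.H m))) ≤ ε := by
      intro ω
      have h5 := (hT0 (2 * u) (by omega) nmax E (expo E.H m) m' hk hex R hRc hRk y (25 * u)
        (27 * u) (et ω m') (by omega)).1
      have h6 : ∀ M : Conf E.q E.H, (hm E.q E.H).real {U | B35.Rings E.ρ E.q R
          (B35.mixS E.q (box y (25 * u)) (et ω m') (et (asmE (expo E.H m) M U) m'))} =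
          be (expo E.H m) m' y (25 * u) D ω M := by
        intro M
        unfold be
        congr 1
        ext U
        show _ ↔ B35.Rings E.ρ E.q R (et (mixC m' y (25 * u) ω (asmE (expo E.H m) M U)) m')
        rw [et_mix]
        exact Iff.rfl
      simp only [h6] at h5
      simp only [GG_def]
      simp only [be2_eq _ _ _ _ _ _ _ hasm mD]
      exact h5
    have h7 := main_bound E.L E.lam (expo E.H m) m' hk y (25 * u) (27 * u) Lm D h2 mL mD hL
      (by omega) hV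
    have h8 : ∀ M : Conf E.q E.H, E.phi p m m' y X' M =
        (hm E.q E.H).real {U | asmE (expo E.H m) M U ∈ Lm ∩ D} := by
      intro M
      unfold Env.phi
      congr 1
      ext U
      exact hHW _
    have h9 : ∀ M : Conf E.q E.H, E.psi p m m' y X' M =
        ((pois (muE E.L E.lam (expo E.H m))).prod (hm E.q E.H)).real
          {r | asmE (expo E.H m) (mixC m' y (27 * u) M r.1) r.2 ∈ Lm ∩ D} := by
      intro M
      unfold Env.psi
      congr 1
      ext r
      exact hHW _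
    simp only [h8, h9]
    exact h7
  · -- w
    intro m m' X X' hmH hmH' hne
    obtain ⟨R, cR, kR, eR⟩ := ringsW p hu1 hG.div X
    obtain ⟨R', cR', kR', eR'⟩ := ringsW p hu1 hG.div X'
    have hW := (h4 c e I δ Λ nmax E p hu1 hG (by show 12 * u ≤ nmax; omega)).2
    set ex : Fin (E.H + 1) → Bool := fun _ => false with hex
    have key : ∀ (k : ℕ) (hk : k < E.H + 1) (R : Finset (Site × ℕ × ℕ)),
        R.card ≤ (A1 + 1) ^ 2 → (∀ r ∈ R, r.2 = (6 * u, 12 * u)) →
        ∫ M, ((hm E.q E.H).real {U | B35.Rings E.ρ E.q R (et (asmE ex M U) k)} -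
          ∫ M', (hm E.q E.H).real {U | B35.Rings E.ρ E.q R (et (asmE ex M' U) k)}
            ∂(pois (muE E.L E.lam ex))) ^ 2 ∂(pois (muE E.L E.lam ex)) ≤ ε := by
      intro k hk R cR kR
      exact (hT0 (2 * u) (by omega) nmax E ex k hk rfl R (by omega)
        (fun r hr => hcond r (Or.inl (kR r hr))) 0 0 (2 * u) ∅ (by omega)).2
    have h5 := dec_two h2 E.L E.lam ex (Nat.lt_succ_of_le hmH) (Nat.lt_succ_of_le hmH') hne
      (fun S => B35.Rings E.ρ E.q R S) (fun S => B35.Rings E.ρ E.q R' S)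
      (rings_meas h3 E.q E.H E.ρ R m) (rings_meas h3 E.q E.H E.ρ R' m') (w := E.w p) (ε := ε)
      (by simp only [← eR]; exact hW m X hmH) (by simp only [← eR']; exact hW m' X' hmH')
      (key m (Nat.lt_succ_of_le hmH) R cR kR) (key m' (Nat.lt_succ_of_le hmH') R' cR' kR')
    simp only [← eR, ← eR'] at h5
    exact h5

end MPdd5692
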