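import Mathlib
import Pool.Agent.Work.MP_dd5692_pr.InterfaceD

/-!
# MP_dd5692_pr: sums over coarse marks in `ℝ≥0∞` (helper88)
-/

open MeasureTheory ProbabilityTheory Set
open scoped ENNReal NNReal BigOperators

namespace MPdd5692

variable {q H : ℕ}

/-- exponential as an extended nonnegative real -/
noncomputable def eexp (x : ℝ) : ℝ≥0∞ := ENNReal.ofReal (Real.exp x)

theorem eexp_add (x y : ℝ) : eexp (x + y) = eexp x * eexp y := by
  rw [eexp, eexp, eexp, Real.exp_add, ENNReal.ofReal_mul (Real.exp_pos x).le]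

theorem eexp_mono {x y : ℝ} (h : x ≤ y) : eexp x ≤ eexp y :=
  ENNReal.ofReal_le_ofReal (Real.exp_le_exp.2 h)

theorem eexp_ne_top (x : ℝ) : eexp x ≠ ∞ := ENNReal.ofReal_ne_top

theorem eexp_zero : eexp 0 = 1 := by simp [eexp]

theorem one_le_eexp {x : ℝ} (h : 0 ≤ x) : 1 ≤ eexp x := by
  rw [← eexp_zero]; exact eexp_mono h

/-- the constant `Σ_c exp(-θ |c|)` -/
noncomputable def Cth (θ : ℝ) : ℝ≥0∞ := ∑' c : Site, eexp (-θ * (nrm c : ℝ))

theorem summable_exp_int {θ : ℝ} (h : 0 < θ) :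
    Summable (fun n : ℤ => Real.exp (-θ * |(n : ℝ)|)) := by
  have hnat : Summable (fun n : ℕ => Real.exp (-θ * (n : ℝ))) := by
    have : (fun n : ℕ => Real.exp (-θ * (n : ℝ))) = fun n : ℕ => (Real.exp (-θ)) ^ n := by
      ext n
      rw [← Real.exp_nat_mul]
      ring_nf
    rw [this]
    exact summable_geometric_of_lt_one (Real.exp_pos _).le (by
      rw [Real.exp_lt_one_iff]; linarith)
  refine Summable.of_nat_of_neg ?_ ?_
  · simpa using hnat
  · simpa using hnat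

theorem Cth_ne_top {θ : ℝ} (h : 0 < θ) : Cth θ ≠ ∞ := by
  have h2 : 0 < θ / 2 := by linarith
  have hs := summable_exp_int h2
  have hprod : Summable (fun c : ℤ × ℤ => Real.exp (-(θ / 2) * |(c.1 : ℝ)|) *
      Real.exp (-(θ / 2) * |(c.2 : ℝ)|)) :=
    hs.mul_of_nonneg hs (fun _ => (Real.exp_pos _).le) (fun _ => (Real.exp_pos _).le)
  have hle : Cth θ ≤ ∑' c : ℤ × ℤ, ENNReal.ofReal (Real.exp (-(θ / 2) * |(c.1 : ℝ)|) *
      Real.exp (-(θ / 2) * |(c.2 : ℝ)|)) := by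
    refine ENNReal.tsum_le_tsum fun c => ?_
    refine ENNReal.ofReal_le_ofReal ?_
    rw [← Real.exp_add]
    refine Real.exp_le_exp.2 ?_
    have h1 : |(c.1 : ℝ)| ≤ (nrm c : ℝ) := by
      have : |c.1| ≤ nrm c := le_max_left _ _
      exact_mod_cast this
    have h3 : |(c.2 : ℝ)| ≤ (nrm c : ℝ) := by
      have : |c.2| ≤ nrm c := le_max_right _ _
      exact_mod_cast this
    nlinarith
  refine ne_top_of_le_ne_top ?_ hle
  rw [← ENNReal.ofReal_tsum_of_nonneg (fun _ => by positivity) hprod]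
  exact ENNReal.ofReal_ne_top

theorem tsum_shift (θ : ℝ) (x : Site) : ∑' c : Site, eexp (-θ * (nrm (c - x) : ℝ)) = Cth θ :=
  (Equiv.subRight x).tsum_eq (fun c : Site => eexp (-θ * (nrm c : ℝ)))

/-- the basic exponential moment bound in `ℝ≥0∞` -/
theorem MarkLaw.kb {a δ Λ : ℝ} (L : MarkLaw q H a δ Λ) (i : Fin (H + 1)) (c : Site) (k1 k2 : ℕ)
    (h12 : k1 ≤ k2) (h2 : k2 ≤ H) :
    ∑' ξ : CMark q H, (if ξ.c i = c then (L.m ξ : ℝ≥0∞) * eexp (ξ.tot k1 k2) else 0)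
      ≤ ENNReal.ofReal (a * q ^ 2 * Λ ^ (k2 - k1)) := by
  obtain ⟨hs, hb⟩ := L.expm i c k1 k2 h12 h2
  have h1 : ∑' ξ : CMark q H, (if ξ.c i = c then (L.m ξ : ℝ≥0∞) * eexp (ξ.tot k1 k2) else 0) =
      ∑' ξ : {ξ : CMark q H // ξ.c i = c}, (L.m ξ.1 : ℝ≥0∞) * eexp (ξ.1.tot k1 k2) := by
    refine Eq.trans ?_ (tsum_subtype {ξ : CMark q H | ξ.c i = c}
      (fun ξ : CMark q H => (L.m ξ : ℝ≥0∞) * eexp (ξ.tot k1 k2))).symm
    refine tsum_congr fun ξ => ?_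
    by_cases h : ξ.c i = c
    · simp [h]
    · simp [h]
  rw [h1]
  have h3 : ∑' ξ : {ξ : CMark q H // ξ.c i = c}, (L.m ξ.1 : ℝ≥0∞) * eexp (ξ.1.tot k1 k2) =
      ∑' ξ : {ξ : CMark q H // ξ.c i = c},
        ENNReal.ofReal ((L.m ξ.1 : ℝ) * Real.exp (ξ.1.tot k1 k2)) := by
    refine tsum_congr fun ξ => ?_
    rw [ENNReal.ofReal_mul (NNReal.coe_nonneg _), ENNReal.ofReal_coe_nnreal]
    rfl
  rw [h3, ← ENNReal.ofReal_tsum_of_nonneg (fun _ => by positivity) hs]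
  exact ENNReal.ofReal_le_ofReal hb

/-- the basic bound with a monotone constant -/
theorem MarkLaw.kb' {a δ Λ : ℝ} (L : MarkLaw q H a δ Λ) (ha : 0 ≤ a) (i : Fin (H + 1)) (c : Site)
    (k1 k2 n : ℕ) (h12 : k1 ≤ k2) (h2 : k2 ≤ H) (hn : k2 - k1 ≤ n) :
    ∑' ξ : CMark q H, (if ξ.c i = c then (L.m ξ : ℝ≥0∞) * eexp (ξ.tot k1 k2) else 0)
      ≤ ENNReal.ofReal (a * q ^ 2) * ENNReal.ofReal (max 1 |Λ|) ^ n := by
  refine (L.kb i c k1 k2 h12 h2).trans ?_
  rw [← ENNReal.ofReal_pow (by positivity), ← ENNReal.ofReal_mul (by positivity)]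
  refine ENNReal.ofReal_le_ofReal ?_
  refine mul_le_mul_of_nonneg_left ?_ (by positivity)
  calc Λ ^ (k2 - k1) ≤ |Λ| ^ (k2 - k1) := by
        rw [← abs_pow]; exact le_abs_self _
    _ ≤ (max 1 |Λ|) ^ (k2 - k1) := by
        exact pow_le_pow_left₀ (abs_nonneg _) (le_max_right _ _) _
    _ ≤ (max 1 |Λ|) ^ n := pow_le_pow_right₀ (le_max_left _ _) hn

theorem MarkLaw.a_nonneg [NeZero q] {a δ Λ : ℝ} (L : MarkLaw q H a δ Λ) : 0 ≤ a := by
  have h := L.static 0 (0, 0)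
  exact h.nonneg fun _ => NNReal.coe_nonneg _

/-- one step is part of the total -/
theorem CMark.D_le_tot (ξ : CMark q H) (k : Fin H) (k1 k2 : ℕ) (h1 : k1 ≤ (k : ℕ))
    (h2 : (k : ℕ) < k2) : ξ.D k ≤ ξ.tot k1 k2 := by
  unfold CMark.tot
  have := Finset.single_le_sum (f := fun k : Fin H =>
    if k1 ≤ (k : ℕ) ∧ (k : ℕ) < k2 then ξ.D k else 0) (fun _ _ => Nat.zero_le _)
    (Finset.mem_univ k)
  simpa [h1, h2] using this

theorem nrm_nonneg (x : Site) : 0 ≤ nrm x := le_max_of_le_left (abs_nonneg _)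

theorem nrm_add_le (x y : Site) : nrm (x + y) ≤ nrm x + nrm y := by
  unfold nrm
  have h1 := abs_add_le x.1 y.1
  have h2 := abs_add_le x.2 y.2
  have h3 := le_max_left |x.1| |x.2|
  have h4 := le_max_right |x.1| |x.2|
  have h5 := le_max_left |y.1| |y.2|
  have h6 := le_max_right |y.1| |y.2|
  refine max_le ?_ ?_
  · show |x.1 + y.1| ≤ _
    linarith
  · show |x.2 + y.2| ≤ _
    linarith

theorem nrm_neg (x : Site) : nrm (-x) = nrm x := by
  unfold nrm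
  simp

theorem nrm_sub_comm (x y : Site) : nrm (x - y) = nrm (y - x) := by
  rw [← nrm_neg, neg_sub]

theorem nrm_sub_le (x y z : Site) : nrm (x - z) ≤ nrm (x - y) + nrm (y - z) := by
  have := nrm_add_le (x - y) (y - z)
  simpa using this

/-- displacement between two times -/
theorem CMark.disp_le_tot (ξ : CMark q H) (i j : ℕ) (hi : i ≤ j) (hj : j < H + 1) :
    nrm (ξ.c ⟨i, by omega⟩ - ξ.c ⟨j, hj⟩) ≤ ξ.tot i j := by
  obtain ⟨d, rfl⟩ := Nat.exists_eq_add_of_le hi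
  induction d with
  | zero => simp [nrm]
  | succ d ih =>
    have ih := ih (by omega) (by omega)
    have hstep : nrm (ξ.c ⟨i + d, by omega⟩ - ξ.c ⟨i + (d + 1), hj⟩) ≤
        (ξ.D ⟨i + d, by omega⟩ : ℤ) := by
      unfold CMark.D
      have : nrm (ξ.c ⟨i + d, by omega⟩ - ξ.c ⟨i + (d + 1), hj⟩) =
          nrm (ξ.c (Fin.succ ⟨i + d, by omega⟩) - ξ.c (Fin.castSucc ⟨i + d, by omega⟩)) := by
        rw [nrm_sub_comm]
        rfl
      rw [this]
      have h0 := nrm_nonneg (ξ.c (Fin.succ (⟨i + d, by omega⟩ : Fin H)) -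
        ξ.c (Fin.castSucc (⟨i + d, by omega⟩ : Fin H)))
      push_cast
      omega
    have hsum : (ξ.tot i (i + (d + 1)) : ℤ) = ξ.tot i (i + d) + ξ.D ⟨i + d, by omega⟩ := by
      unfold CMark.tot
      rw [← Nat.cast_add]
      congr 1
      have : ξ.D ⟨i + d, by omega⟩ = ∑ k : Fin H, if k = ⟨i + d, by omega⟩ then ξ.D k else 0 := by
        simp
      rw [this, ← Finset.sum_add_distrib]
      refine Finset.sum_congr rfl fun k _ => ?_
      by_cases hk : k = ⟨i + d, by omega⟩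
      · subst hk
        simp
      · have hk' : (k : ℕ) ≠ i + d := fun h => hk (Fin.ext h)
        rw [if_neg hk, add_zero]
        by_cases h : i ≤ (k : ℕ) ∧ (k : ℕ) < i + d
        · rw [if_pos h, if_pos ⟨h.1, by omega⟩]
        · rw [if_neg h, if_neg]
          rintro ⟨h1, h2⟩
          exact h ⟨h1, by omega⟩
    have htri := nrm_sub_le (ξ.c ⟨i, by omega⟩) (ξ.c ⟨i + d, by omega⟩) (ξ.c ⟨i + (d + 1), hj⟩)
    rw [hsum]
    linarith

theorem CMark.tot_mono (ξ : CMark q H) {i j k1 k2 : ℕ} (h1 : k1 ≤ i) (h2 : j ≤ k2) :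
    ξ.tot i j ≤ ξ.tot k1 k2 := by
  unfold CMark.tot
  refine Finset.sum_le_sum fun k _ => ?_
  by_cases h : i ≤ (k : ℕ) ∧ (k : ℕ) < j
  · rw [if_pos h, if_pos ⟨by omega, by omega⟩]
  · rw [if_neg h]
    exact Nat.zero_le _

end MPdd5692
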