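import Mathlib
import Pool.Agent.Work.MP_dd5692_pr.InterfaceD
import Pool.Agent.Work.MP_dd5692_pr.MassTools

/-!
# MP_dd5692_pr: block NOFOLLOW (helper88)
-/

open MeasureTheory ProbabilityTheory Set
open scoped ENNReal NNReal BigOperators

namespace MPdd5692

variable {q H : ℕ}

theorem MarkLaw.sum_bound {a δ Λ : ℝ} (L : MarkLaw q H a δ Λ) (ha : 0 ≤ a) (i : Fin (H + 1))
    (k1 k2 n : ℕ) (h12 : k1 ≤ k2) (h2 : k2 ≤ H) (hn : k2 - k1 ≤ n) (w : Site → ℝ≥0∞) :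
    ∑' ξ : CMark q H, (L.m ξ : ℝ≥0∞) * (w (ξ.c i) * eexp (ξ.tot k1 k2))
      ≤ (∑' c, w c) * (ENNReal.ofReal (a * q ^ 2) * ENNReal.ofReal (max 1 |Λ|) ^ n) := by
  have h1 : ∀ ξ : CMark q H, (L.m ξ : ℝ≥0∞) * (w (ξ.c i) * eexp (ξ.tot k1 k2)) =
      ∑' c : Site, w c * (if ξ.c i = c then (L.m ξ : ℝ≥0∞) * eexp (ξ.tot k1 k2) else 0) := by
    intro ξ
    rw [tsum_eq_single (ξ.c i)]
    · rw [if_pos rfl]
      ring
    · intro c hc
      rw [if_neg (Ne.symm hc), mul_zero]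
  simp_rw [h1]
  rw [ENNReal.tsum_comm]
  simp_rw [ENNReal.tsum_mul_left]
  rw [← ENNReal.tsum_mul_right]
  refine ENNReal.tsum_le_tsum fun c => ?_
  exact mul_le_mul' le_rfl (L.kb' ha i c k1 k2 n h12 h2 hn)

namespace NOFOLLOW

theorem tot_add (ξ : CMark q H) (i j k : ℕ) (h1 : i ≤ j) (h2 : j ≤ k) :
    ξ.tot i k = ξ.tot i j + ξ.tot j k := by
  unfold CMark.tot
  rw [← Finset.sum_add_distrib]
  refine Finset.sum_congr rfl fun l _ => ?_
  by_cases ha : i ≤ (l : ℕ) ∧ (l : ℕ) < j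
  · rw [if_pos ha, if_pos ⟨by omega, by omega⟩, if_neg (by omega), add_zero]
  · rw [if_neg ha, zero_add]
    by_cases hb : j ≤ (l : ℕ) ∧ (l : ℕ) < k
    · rw [if_pos hb, if_pos ⟨by omega, by omega⟩]
    · rw [if_neg hb, if_neg (by omega)]

/-- number of integers `i` with `|A i - c| ≤ R` -/
theorem card_int (A R : ℕ) (hA : 0 < A) (c : ℤ) (s : Finset ℤ)
    (hs : ∀ i ∈ s, |(A : ℤ) * i - c| ≤ R) : A * s.card ≤ 2 * R + A := by
  have h1 : s.card ≤ (2 * R) / A + 1 := by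
    have : s.card ≤ (Finset.range ((2 * R) / A + 1)).card := by
      refine Finset.card_le_card_of_injOn (fun i => (((A : ℤ) * i - c + R) / A).toNat) ?_ ?_
      · intro i hi
        have h := abs_le.1 (hs i hi)
        simp only [Finset.coe_range, mem_Iio]
        have h0 : 0 ≤ (A : ℤ) * i - c + R := by linarith
        have h2 : ((A : ℤ) * i - c + R) / A ≤ ((2 * R : ℕ) : ℤ) / A := by
          apply Int.ediv_le_ediv (by exact_mod_cast hA)
          push_cast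
          linarith
        have h3 : 0 ≤ ((A : ℤ) * i - c + R) / A := Int.ediv_nonneg h0 (by positivity)
        have h4 : (((2 * R : ℕ) : ℤ) / A).toNat = (2 * R) / A := by
          rw [← Int.natCast_div, Int.toNat_natCast]
        have h5 := Int.toNat_le_toNat h2
        omega
      · intro i hi j hj hij
        have h := abs_le.1 (hs i hi)
        have h' := abs_le.1 (hs j hj)
        have hA' : (0 : ℤ) < A := by exact_mod_cast hA
        simp only at hij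
        have e1 : ((A : ℤ) * i - c + R) / A = i + (-c + R) / A := by
          rw [show (A : ℤ) * i - c + R = (-c + R) + A * i by ring, Int.add_mul_ediv_left _ _ hA'.ne']
          ring
        have e2 : ((A : ℤ) * j - c + R) / A = j + (-c + R) / A := by
          rw [show (A : ℤ) * j - c + R = (-c + R) + A * j by ring, Int.add_mul_ediv_left _ _ hA'.ne']
          ring
        have p1 : 0 ≤ ((A : ℤ) * i - c + R) / A := Int.ediv_nonneg (by linarith) hA'.le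
        have p2 : 0 ≤ ((A : ℤ) * j - c + R) / A := Int.ediv_nonneg (by linarith) hA'.le
        have := congrArg (fun n : ℕ => (n : ℤ)) hij
        simp only [Int.toNat_of_nonneg p1, Int.toNat_of_nonneg p2] at this
        rw [e1, e2] at this
        linarith
    simpa using this
  calc A * s.card ≤ A * ((2 * R) / A + 1) := Nat.mul_le_mul_left _ h1
    _ = A * ((2 * R) / A) + A := by ring
    _ ≤ 2 * R + A := by
        have := Nat.mul_div_le (2 * R) A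
        omega

theorem xX_dist (A : ℕ) (X Y : ℕ × ℤ) :
    nrm (xX A X - xX A Y) = A * max |(X.1 : ℤ) - Y.1| |X.2 - Y.2| := by
  unfold nrm xX
  simp only [Prod.fst_sub, Prod.snd_sub]
  rw [← mul_sub, ← mul_sub, abs_mul, abs_mul, Nat.abs_cast, mul_max_of_nonneg _ _ (by positivity)]

/-- the combinatorial core of the block -/
theorem point (A J : ℕ) (hA : 0 < A) (hJ : 1 ≤ J) (S : Finset (ℕ × ℤ))
    (hsep : ∀ X ∈ S, ∀ Y ∈ S, X ≠ Y → 40 ≤ max |(X.1 : ℤ) - Y.1| |X.2 - Y.2|)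
    (hH : ∀ X ∈ S, (X.1 + 3) * J + 1 ≤ H) (ξ : CMark q H) (X : ℕ × ℤ) (hXS : X ∈ S)
    (hX : ξ ∈ Infl q H A J X) (h2 : 2 ≤ sig A J S ξ) :
    ∃ (M1 M2 : ℕ) (k : Fin H), M1 ≤ X.1 ∧ X.1 ≤ M2 ∧ (M2 + 3) * J + 1 ≤ H ∧
      (X.1 * J ≤ (k : ℕ) + 1 ∧ (k : ℕ) ≤ (X.1 + 3) * J) ∧
      nrm (ξ.c k.castSucc - xX A X) ≤ 6 * A + ξ.D k ∧
      ξ.D k ≤ ξ.tot (M1 * J - 1) ((M2 + 3) * J + 1) ∧
      A * sig A J S ξ ≤ A + 16 * ξ.tot (M1 * J - 1) ((M2 + 3) * J + 1) ∧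
      A * (1 + M2 - M1) ≤ 6 * ξ.tot (M1 * J - 1) ((M2 + 3) * J + 1) := by
  classical
  set σ : Finset (ℕ × ℤ) := S.filter fun X => ξ ∈ Infl q H A J X with hσ
  have hsig : sig A J S ξ = σ.card := by
    unfold sig
    rw [hσ]
  rw [hsig] at h2 ⊢
  have hXσ : X ∈ σ := Finset.mem_filter.2 ⟨hXS, hX⟩
  have hex : ∀ Y : ℕ × ℤ, ∃ k : ℕ, Y ∈ σ → ∃ hk : k < H, Y.1 * J ≤ k + 1 ∧ k ≤ (Y.1 + 3) * J ∧
      nrm (ξ.c (Fin.castSucc ⟨k, hk⟩) - xX A Y) ≤ 6 * A + ξ.D ⟨k, hk⟩ := by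
    intro Y
    by_cases hY : Y ∈ σ
    · obtain ⟨k, h1, h2, h3⟩ := (Finset.mem_filter.1 hY).2
      exact ⟨k, fun _ => ⟨k.2, h1, h2, h3⟩⟩
    · exact ⟨0, fun h => absurd h hY⟩
  choose kf hkf using hex
  obtain ⟨Y1, hY1, hmin⟩ := Finset.exists_min_image σ (fun Y => Y.1) ⟨X, hXσ⟩
  obtain ⟨Y2, hY2, hmax⟩ := Finset.exists_max_image σ (fun Y => Y.1) ⟨X, hXσ⟩
  set k1 := Y1.1 * J - 1 with hk1
  set k2 := (Y2.1 + 3) * J + 1 with hk2
  set TV := ξ.tot k1 k2 with hTV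
  have hk2H : k2 ≤ H := hH Y2 (Finset.mem_filter.1 hY2).1
  -- the window contains all chosen steps
  have hwin : ∀ Y ∈ σ, k1 ≤ kf Y ∧ kf Y < k2 := by
    intro Y hY
    obtain ⟨hk, h1, h2, -⟩ := hkf Y hY
    have hm := hmin Y hY
    have hM := hmax Y hY
    have e1 : Y1.1 * J ≤ Y.1 * J := Nat.mul_le_mul_right _ hm
    have e2 : (Y.1 + 3) * J ≤ (Y2.1 + 3) * J := Nat.mul_le_mul_right _ (by omega)
    constructor
    · omega
    · omega
  have hDTV : ∀ Y (hY : Y ∈ σ), ξ.D ⟨kf Y, (hkf Y hY).1⟩ ≤ TV := by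
    intro Y hY
    exact ξ.D_le_tot _ k1 k2 (hwin Y hY).1 (hwin Y hY).2
  -- distance between two windows in terms of the displacement
  have hdist : ∀ Y (hY : Y ∈ σ) Z (hZ : Z ∈ σ), kf Y ≤ kf Z →
      (A : ℤ) * max |(Y.1 : ℤ) - Z.1| |Y.2 - Z.2| ≤ 12 * A + ξ.D ⟨kf Y, (hkf Y hY).1⟩ +
        ξ.D ⟨kf Z, (hkf Z hZ).1⟩ + ξ.tot (kf Y) (kf Z) := by
    intro Y hY Z hZ hle
    obtain ⟨hkY, _, _, hY3⟩ := hkf Y hY
    obtain ⟨hkZ, _, _, hZ3⟩ := hkf Z hZ
    have hd := ξ.disp_le_tot (kf Y) (kf Z) hle (by omega)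
    rw [← xX_dist]
    have t1 := nrm_sub_le (xX A Y) (ξ.c (Fin.castSucc ⟨kf Y, hkY⟩)) (xX A Z)
    have t2 := nrm_sub_le (ξ.c (Fin.castSucc ⟨kf Y, hkY⟩)) (ξ.c (Fin.castSucc ⟨kf Z, hkZ⟩)) (xX A Z)
    have t3 := nrm_sub_comm (xX A Y) (ξ.c (Fin.castSucc ⟨kf Y, hkY⟩))
    have hd' : nrm (ξ.c (Fin.castSucc ⟨kf Y, hkY⟩) - ξ.c (Fin.castSucc ⟨kf Z, hkZ⟩)) ≤
        ξ.tot (kf Y) (kf Z) := hd
    linarith
  have htotle : ∀ Y ∈ σ, ∀ Z ∈ σ, ξ.tot (kf Y) (kf Z) ≤ TV := by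
    intro Y hY Z hZ
    exact ξ.tot_mono (hwin Y hY).1 (hwin Z hZ).2.le
  have hdist' : ∀ Y ∈ σ, ∀ Z ∈ σ,
      (A : ℤ) * max |(Y.1 : ℤ) - Z.1| |Y.2 - Z.2| ≤ 12 * A + 3 * TV := by
    intro Y hY Z hZ
    rcases le_total (kf Y) (kf Z) with h | h
    · have h1 := hdist Y hY Z hZ h
      have h2 := hDTV Y hY
      have h3 := hDTV Z hZ
      have h4 := htotle Y hY Z hZ
      zify at h2 h3 h4
      linarith
    · have h1 := hdist Z hZ Y hY h
      have h2 := hDTV Y hY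
      have h3 := hDTV Z hZ
      have h4 := htotle Z hZ Y hY
      rw [abs_sub_comm (Z.1 : ℤ) Y.1, abs_sub_comm Z.2 Y.2] at h1
      zify at h2 h3 h4
      linarith
  -- small and big
  let sm : Finset (ℕ × ℤ) := σ.filter fun Y => ∀ hY : Y ∈ σ, ξ.D ⟨kf Y, (hkf Y hY).1⟩ ≤ A
  let bg : Finset (ℕ × ℤ) := σ.filter fun Y => ¬ ∀ hY : Y ∈ σ, ξ.D ⟨kf Y, (hkf Y hY).1⟩ ≤ A
  have hcard : σ.card = sm.card + bg.card := (Finset.card_filter_add_card_filter_not _).symm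
  have hsm : A * sm.card ≤ A + TV := by
    have hsep2 : ∀ Y ∈ sm, ∀ Z ∈ sm, Y ≠ Z → kf Y ≤ kf Z →
        ξ.tot k1 (kf Y) + 26 * A ≤ ξ.tot k1 (kf Z) := by
      intro Y hY Z hZ hne hle
      have hYσ := (Finset.mem_filter.1 hY).1
      have hZσ := (Finset.mem_filter.1 hZ).1
      have h1 := hdist Y hYσ Z hZσ hle
      have h2 := (Finset.mem_filter.1 hY).2 hYσ
      have h3 := (Finset.mem_filter.1 hZ).2 hZσ
      have h4 := hsep Y (Finset.mem_filter.1 hYσ).1 Z (Finset.mem_filter.1 hZσ).1 hne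
      have h5 : (A : ℤ) * 40 ≤ A * max |(Y.1 : ℤ) - Z.1| |Y.2 - Z.2| :=
        mul_le_mul_of_nonneg_left h4 (by positivity)
      have h6 := tot_add ξ k1 (kf Y) (kf Z) (hwin Y hYσ).1 hle
      zify at h2 h3 h6 ⊢
      rw [h6]
      linarith
    have hA26 : 0 < 26 * A := by omega
    have h1 : sm.card ≤ (Finset.range (TV / (26 * A) + 1)).card := by
      refine Finset.card_le_card_of_injOn (fun Y => ξ.tot k1 (kf Y) / (26 * A)) ?_ ?_
      · intro Y hY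
        have hYσ := (Finset.mem_filter.1 hY).1
        simp only [Finset.coe_range, mem_Iio]
        have : ξ.tot k1 (kf Y) ≤ TV := ξ.tot_mono le_rfl (hwin Y hYσ).2.le
        have := Nat.div_le_div_right (c := 26 * A) this
        omega
      · intro Y hY Z hZ hYZ
        by_contra hne
        simp only at hYZ
        rcases le_total (kf Y) (kf Z) with h | h
        · have h1 := hsep2 Y hY Z hZ hne h
          have h2 : (ξ.tot k1 (kf Y) + 26 * A) / (26 * A) ≤ ξ.tot k1 (kf Z) / (26 * A) :=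
            Nat.div_le_div_right h1
          rw [Nat.add_div_right _ hA26] at h2
          omega
        · have h1 := hsep2 Z hZ Y hY (Ne.symm hne) h
          have h2 : (ξ.tot k1 (kf Z) + 26 * A) / (26 * A) ≤ ξ.tot k1 (kf Y) / (26 * A) :=
            Nat.div_le_div_right h1
          rw [Nat.add_div_right _ hA26] at h2
          omega
    rw [Finset.card_range] at h1
    have h3 := Nat.mul_div_le TV (26 * A)
    have h4 : A * sm.card ≤ A * (TV / (26 * A) + 1) := Nat.mul_le_mul_left _ h1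
    nlinarith
  have hbg : A * bg.card ≤ 15 * TV := by
    -- split according to the step
    have hfib : bg.card = ∑ k : Fin H, (bg.filter fun Y => kf Y = (k : ℕ)).card := by
      have : ∀ Y ∈ bg, kf Y < H := fun Y hY => (hkf Y (Finset.mem_filter.1 hY).1).1
      rw [← Finset.card_biUnion]
      · congr 1
        ext Y
        simp only [Finset.mem_biUnion, Finset.mem_univ, true_and, Finset.mem_filter]
        constructor
        · intro hY
          exact ⟨⟨kf Y, this Y hY⟩, hY, rfl⟩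
        · rintro ⟨_, hY, _⟩
          exact hY
      · intro k _ l _ hkl
        rw [Function.onFun, Finset.disjoint_left]
        intro Y hY hY'
        exact hkl (Fin.ext ((Finset.mem_filter.1 hY).2.symm.trans (Finset.mem_filter.1 hY').2))
    rw [hfib, Finset.mul_sum, hTV]
    unfold CMark.tot
    rw [Finset.mul_sum]
    refine Finset.sum_le_sum fun k _ => ?_
    rcases (bg.filter fun Y => kf Y = (k : ℕ)).eq_empty_or_nonempty with he | ⟨Y0, hY0⟩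
    · rw [he]; simp
    have hY0b := (Finset.mem_filter.1 hY0).1
    have hY0k := (Finset.mem_filter.1 hY0).2
    have hY0σ := (Finset.mem_filter.1 hY0b).1
    rw [if_pos (by rw [← hY0k]; exact hwin Y0 hY0σ)]
    have hDk : A < ξ.D k := by
      have h := (Finset.mem_filter.1 hY0b).2
      push Not at h
      obtain ⟨hY, h⟩ := h
      have : (⟨kf Y0, (hkf Y0 hY).1⟩ : Fin H) = k := Fin.ext hY0k
      rwa [this] at h
    -- all members have different second coordinates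
    have hinj : Set.InjOn (fun Y : ℕ × ℤ => Y.2) (bg.filter fun Y => kf Y = (k : ℕ) : Finset _) := by
      intro Y hY Z hZ hYZ
      by_contra hne
      have hYb := (Finset.mem_filter.1 hY).1
      have hZb := (Finset.mem_filter.1 hZ).1
      have hYk := (Finset.mem_filter.1 hY).2
      have hZk := (Finset.mem_filter.1 hZ).2
      have hYσ := (Finset.mem_filter.1 hYb).1
      have hZσ := (Finset.mem_filter.1 hZb).1
      have h4 := hsep Y (Finset.mem_filter.1 hYσ).1 Z (Finset.mem_filter.1 hZσ).1 hne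
      simp only at hYZ
      rw [hYZ, sub_self, abs_zero, max_eq_left (abs_nonneg _)] at h4
      obtain ⟨_, a1, a2, _⟩ := hkf Y hYσ
      obtain ⟨_, b1, b2, _⟩ := hkf Z hZσ
      rw [hYk] at a1 a2
      rw [hZk] at b1 b2
      rcases le_abs.1 h4 with h | h
      · have : Z.1 + 40 ≤ Y.1 := by omega
        have : (Z.1 + 40) * J ≤ Y.1 * J := Nat.mul_le_mul_right _ this
        nlinarith
      · have : Y.1 + 40 ≤ Z.1 := by omega
        have : (Y.1 + 40) * J ≤ Z.1 * J := Nat.mul_le_mul_right _ this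
        nlinarith
    have hc := card_int A (6 * A + ξ.D k) hA (ξ.c k.castSucc).2
      ((bg.filter fun Y => kf Y = (k : ℕ)).image fun Y => Y.2) (by
        intro i hi
        obtain ⟨Y, hY, rfl⟩ := Finset.mem_image.1 hi
        have hYb := (Finset.mem_filter.1 hY).1
        have hYk := (Finset.mem_filter.1 hY).2
        have hYσ := (Finset.mem_filter.1 hYb).1
        obtain ⟨hk, _, _, h3⟩ := hkf Y hYσ
        have hkk : (⟨kf Y, hk⟩ : Fin H) = k := Fin.ext hYk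
        rw [hkk] at h3
        have : |(ξ.c k.castSucc - xX A Y).2| ≤ nrm (ξ.c k.castSucc - xX A Y) := le_max_right _ _
        have h5 : (ξ.c k.castSucc - xX A Y).2 = (ξ.c k.castSucc).2 - A * Y.2 := rfl
        rw [h5] at this
        rw [abs_sub_comm]
        push_cast
        linarith)
    rw [Finset.card_image_of_injOn hinj] at hc
    omega
  have hsum : A * σ.card ≤ A + 16 * TV := by
    rw [hcard, Nat.mul_add]
    omega
  have hG : A * (1 + Y2.1 - Y1.1) ≤ 6 * TV := by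
    obtain ⟨Y, hY, Z, hZ, hne⟩ := Finset.one_lt_card.1 (show 1 < σ.card by omega)
    have h1 := hdist' Y hY Z hZ
    have h4 := hsep Y (Finset.mem_filter.1 hY).1 Z (Finset.mem_filter.1 hZ).1 hne
    have h5 : (A : ℤ) * 40 ≤ A * max |(Y.1 : ℤ) - Z.1| |Y.2 - Z.2| :=
      mul_le_mul_of_nonneg_left h4 (by positivity)
    have h6 := hdist' Y2 hY2 Y1 hY1
    have h7 : (A : ℤ) * ((Y2.1 : ℤ) - Y1.1) ≤ A * max |(Y2.1 : ℤ) - Y1.1| |Y2.2 - Y1.2| :=
      mul_le_mul_of_nonneg_left ((le_abs_self _).trans (le_max_left _ _)) (by positivity)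
    have hle : Y1.1 ≤ Y2.1 := hmin Y2 hY2
    have h8 : ((1 + Y2.1 - Y1.1 : ℕ) : ℤ) = 1 + Y2.1 - Y1.1 := by
      push_cast [Nat.cast_sub (show Y1.1 ≤ 1 + Y2.1 by omega)]
      ring
    have hA' : (0 : ℤ) < A := by exact_mod_cast hA
    zify
    rw [h8]
    have h9 : (A : ℤ) * (1 + Y2.1 - Y1.1) = A + A * ((Y2.1 : ℤ) - Y1.1) := by ring
    rw [h9]
    linarith
  obtain ⟨hkX, x1, x2, x3⟩ := hkf X hXσ
  exact ⟨Y1.1, Y2.1, ⟨kf X, hkX⟩, hmin X hXσ, hmax X hXσ, hk2H, ⟨x1, x2⟩, x3, hDTV X hXσ,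
    hsum, hG⟩

theorem real_of_ennreal {α : Type*} (f : α → ℝ) (hf : ∀ a, 0 ≤ f a) (ε : ℝ) (hε : 0 ≤ ε)
    (h : ∑' a, ENNReal.ofReal (f a) ≤ ENNReal.ofReal ε) : Summable f ∧ ∑' a, f a ≤ ε := by
  have hne : ∑' a, ENNReal.ofReal (f a) ≠ ∞ := ne_top_of_le_ne_top ENNReal.ofReal_ne_top h
  have hs := ENNReal.summable_toReal hne
  have he : (fun a => (ENNReal.ofReal (f a)).toReal) = f := by
    ext a
    exact ENNReal.toReal_ofReal (hf a)
  rw [he] at hs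
  refine ⟨hs, ?_⟩
  rw [← ENNReal.ofReal_tsum_of_nonneg hf hs] at h
  exact (ENNReal.ofReal_le_ofReal_iff hε).1 h

/-- number of steps that can influence a window -/
theorem card_steps (H J M : ℕ) :
    (Finset.univ.filter fun k : Fin H => M * J ≤ (k : ℕ) + 1 ∧ (k : ℕ) ≤ (M + 3) * J).card
      ≤ 3 * J + 2 := by
  have : (Finset.univ.filter fun k : Fin H => M * J ≤ (k : ℕ) + 1 ∧ (k : ℕ) ≤ (M + 3) * J).card ≤
      (Finset.Icc (M * J - 1) ((M + 3) * J)).card := by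
    refine Finset.card_le_card_of_injOn (fun k => (k : ℕ)) ?_ ?_
    · intro k hk
      have hk := (Finset.mem_filter.1 hk).2
      simp only [Finset.coe_Icc, mem_Icc]
      omega
    · intro k _ l _ h
      exact Fin.ext h
  refine this.trans ?_
  rw [Nat.card_Icc]
  have : (M + 3) * J = M * J + 3 * J := by ring
  omega

/-- weight of one `(j1, j2)` -/
noncomputable def F (t : ℝ) (A j1 j2 : ℕ) : ℝ≥0∞ :=
  eexp t * eexp (-(A * (1 + (j1 : ℝ) + j2)) / 24) * eexp (A / 48)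

theorem pointwise (t : ℝ) (A J : ℕ) (hA : 0 < A) (ht : 0 < t) (htA : 64 * t ≤ A) (hJ : 1 ≤ J)
    (S : Finset (ℕ × ℤ))
    (hsep : ∀ X ∈ S, ∀ Y ∈ S, X ≠ Y → 40 ≤ max |(X.1 : ℤ) - Y.1| |X.2 - Y.2|)
    (hH : ∀ X ∈ S, (X.1 + 3) * J + 1 ≤ H) (ξ : CMark q H) (X : ℕ × ℤ) (hXS : X ∈ S)
    (hX : ξ ∈ Infl q H A J X) (h2 : 2 ≤ sig A J S ξ) :
    eexp (t * sig A J S ξ) ≤ ∑' j1 : ℕ, ∑' j2 : ℕ, ∑' k : Fin H,
        if (X.1 * J ≤ (k : ℕ) + 1 ∧ (k : ℕ) ≤ (X.1 + 3) * J) ∧ (X.1 + j2 + 3) * J + 1 ≤ H then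
          F t A j1 j2 * (eexp (-(1 / 288) * (nrm (ξ.c k.castSucc - xX A X) : ℝ)) *
            eexp (ξ.tot ((X.1 - j1) * J - 1) ((X.1 + j2 + 3) * J + 1))) else 0 := by
  obtain ⟨M1, M2, k, hM1, hM2, hH2, hk, hD, hDT, hs, hG⟩ := point A J hA hJ S hsep hH ξ X hXS hX h2
  obtain ⟨j1, rfl⟩ : ∃ j1, M1 = X.1 - j1 := ⟨X.1 - M1, by omega⟩
  obtain ⟨j2, rfl⟩ : ∃ j2, M2 = X.1 + j2 := ⟨M2 - X.1, by omega⟩
  wlog hj1 : j1 ≤ X.1 generalizing j1
  · have hh := this X.1 (by omega)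
    have e : X.1 - j1 = X.1 - X.1 := by omega
    rw [e] at hDT hs hG
    exact hh hDT hs hG le_rfl
  refine le_trans ?_ (ENNReal.le_tsum j1)
  refine le_trans ?_ (ENNReal.le_tsum j2)
  refine le_trans ?_ (ENNReal.le_tsum k)
  rw [if_pos ⟨hk, hH2⟩, F, ← eexp_add, ← eexp_add, ← eexp_add, ← eexp_add]
  apply eexp_mono
  set TV := ξ.tot ((X.1 - j1) * J - 1) ((X.1 + j2 + 3) * J + 1) with hTV
  have e1 : (A : ℝ) * sig A J S ξ ≤ A + 16 * TV := by exact_mod_cast hs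
  have e2 : (A : ℝ) * (1 + j1 + j2) ≤ 6 * TV := by
    have : 1 + (X.1 + j2) - (X.1 - j1) = 1 + j1 + j2 := by omega
    rw [this] at hG
    exact_mod_cast hG
  have e3 : (nrm (ξ.c k.castSucc - xX A X) : ℝ) ≤ 6 * A + ξ.D k := by exact_mod_cast hD
  have e4 : (ξ.D k : ℝ) ≤ TV := by exact_mod_cast hDT
  have hA' : (0 : ℝ) < A := by exact_mod_cast hA
  have e5 : t * sig A J S ξ ≤ t + TV / 4 := by
    have h1 : t * (A * (sig A J S ξ : ℝ)) ≤ t * (A + 16 * TV) :=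
      mul_le_mul_of_nonneg_left e1 ht.le
    have h0 : (0 : ℝ) ≤ TV := Nat.cast_nonneg _
    have h3 : 64 * t * TV ≤ A * TV := mul_le_mul_of_nonneg_right htA h0
    have h4 : A * (t * (sig A J S ξ : ℝ)) ≤ A * (t + TV / 4) := by nlinarith
    exact le_of_mul_le_mul_left h4 hA'
  have h0 : (0 : ℝ) ≤ TV := Nat.cast_nonneg _
  nlinarith

end NOFOLLOW

open NOFOLLOW in
theorem stmt_NOFOLLOW : Stmt_NOFOLLOW := by
  intro I Λ t ε J hε ht hJ
  -- constants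
  set Lp : ℝ := max 1 |Λ| with hLp
  have hLp1 : 1 ≤ Lp := le_max_left _ _
  set K0 : ℝ≥0∞ := ENNReal.ofReal I * eexp t * Cth (1 / 288) * ENNReal.ofReal Lp ^ (3 * J + 2) *
    (3 * J + 2 : ℕ) * 4 with hK0
  have hK0t : K0 ≠ ∞ := by
    rw [hK0]
    refine ENNReal.mul_ne_top (ENNReal.mul_ne_top (ENNReal.mul_ne_top (ENNReal.mul_ne_top
      (ENNReal.mul_ne_top ENNReal.ofReal_ne_top (eexp_ne_top _)) (Cth_ne_top (by norm_num)))
      (ENNReal.pow_ne_top ENNReal.ofReal_ne_top)) (ENNReal.natCast_ne_top _)) (by norm_num)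
  set κ : ℝ := K0.toReal with hκ
  have hκ0 : 0 ≤ κ := ENNReal.toReal_nonneg
  refine ⟨⌈64 * t⌉₊ + ⌈48 * κ / ε⌉₊ + ⌈48 * Lp ^ J⌉₊ + 1, ?_⟩
  intro A hA q H _ a δ L lam hI S hsep hH X hXS
  have ha : 0 ≤ a := L.a_nonneg
  have hAr : (A : ℝ) ≥ (⌈64 * t⌉₊ : ℝ) + (⌈48 * κ / ε⌉₊ : ℝ) + (⌈48 * Lp ^ J⌉₊ : ℝ) + 1 := by
    exact_mod_cast hA
  have c1 := Nat.le_ceil (64 * t)
  have c2 := Nat.le_ceil (48 * κ / ε)
  have c3 := Nat.le_ceil (48 * Lp ^ J)
  have n1 : (0 : ℝ) ≤ (⌈64 * t⌉₊ : ℝ) := Nat.cast_nonneg _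
  have n2 : (0 : ℝ) ≤ (⌈48 * κ / ε⌉₊ : ℝ) := Nat.cast_nonneg _
  have n3 : (0 : ℝ) ≤ (⌈48 * Lp ^ J⌉₊ : ℝ) := Nat.cast_nonneg _
  have hAt : 64 * t ≤ A := by linarith
  have hAκ : 48 * κ / ε ≤ A := by linarith
  have hAL : 48 * Lp ^ J ≤ A := by linarith
  have hA0 : 0 < A := by omega
  have hApos : (0 : ℝ) < A := by exact_mod_cast hA0
  apply real_of_ennreal _ (fun _ => by positivity) ε hε.le
  set w : Site → ℝ≥0∞ := fun c => eexp (-(1 / 288) * (nrm (c - xX A X) : ℝ)) with hw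
  have hwsum : ∑' c, w c = Cth (1 / 288) := tsum_shift (1 / 288) (xX A X)
  set b : ℝ≥0∞ := ENNReal.ofReal Lp ^ J * eexp (-A / 24) with hb
  set B1 : ℝ≥0∞ := eexp t * eexp (-A / 24) * eexp (A / 48) * (Cth (1 / 288) *
    (ENNReal.ofReal (a * q ^ 2) * ENNReal.ofReal Lp ^ (3 * J + 2))) with hB1
  -- the sum for one `(j1, j2, k)`
  have hone : ∀ (j1 j2 : ℕ) (k : Fin H), ∑' ξ : CMark q H, (L.m ξ : ℝ≥0∞) *
      (if (X.1 * J ≤ (k : ℕ) + 1 ∧ (k : ℕ) ≤ (X.1 + 3) * J) ∧ (X.1 + j2 + 3) * J + 1 ≤ H then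
          F t A j1 j2 * (w (ξ.c k.castSucc) *
            eexp (ξ.tot ((X.1 - j1) * J - 1) ((X.1 + j2 + 3) * J + 1))) else 0) ≤
      if (X.1 * J ≤ (k : ℕ) + 1 ∧ (k : ℕ) ≤ (X.1 + 3) * J) then B1 * (b ^ j1 * b ^ j2) else 0 := by
    intro j1 j2 k
    by_cases hc : (X.1 * J ≤ (k : ℕ) + 1 ∧ (k : ℕ) ≤ (X.1 + 3) * J) ∧ (X.1 + j2 + 3) * J + 1 ≤ H
    · rw [if_pos hc.1]
      simp only [if_pos hc]
      have h1 : ∀ ξ : CMark q H, (L.m ξ : ℝ≥0∞) * (F t A j1 j2 * (w (ξ.c k.castSucc) *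
            eexp (ξ.tot ((X.1 - j1) * J - 1) ((X.1 + j2 + 3) * J + 1)))) =
          F t A j1 j2 * ((L.m ξ : ℝ≥0∞) * (w (ξ.c k.castSucc) *
            eexp (ξ.tot ((X.1 - j1) * J - 1) ((X.1 + j2 + 3) * J + 1)))) := fun ξ => by ring
      simp_rw [h1]
      rw [ENNReal.tsum_mul_left]
      have e1 : (X.1 - j1) * J ≤ (X.1 + j2 + 3) * J := Nat.mul_le_mul_right _ (by omega)
      have e2 : (X.1 + j2 + 3) * J ≤ (X.1 - j1) * J + (j1 + j2 + 3) * J := by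
        rw [← add_mul]
        exact Nat.mul_le_mul_right _ (by omega)
      have h2 := L.sum_bound ha k.castSucc ((X.1 - j1) * J - 1) ((X.1 + j2 + 3) * J + 1)
        ((j1 + j2 + 3) * J + 2) (by omega) hc.2 (by omega) w
      rw [hwsum] at h2
      refine (mul_le_mul' le_rfl h2).trans (le_of_eq ?_)
      have e3 : F t A j1 j2 = eexp t * eexp (-A / 24) * eexp (A / 48) *
          (eexp (-A / 24) ^ j1 * eexp (-A / 24) ^ j2) := by
        have p : ∀ n : ℕ, eexp (-(A : ℝ) / 24) ^ n = eexp (n * (-(A : ℝ) / 24)) := by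
          intro n
          rw [eexp, eexp, ← ENNReal.ofReal_pow (Real.exp_pos _).le, Real.exp_nat_mul]
        rw [F, p, p]
        simp only [← eexp_add]
        congr 1
        ring
      rw [e3, hB1, hb, mul_pow, mul_pow, ← pow_mul, ← pow_mul, ← hLp]
      have e4 : (j1 + j2 + 3) * J + 2 = (3 * J + 2) + J * j1 + J * j2 := by ring
      rw [e4, pow_add, pow_add]
      ring
    · simp only [if_neg hc, mul_zero, tsum_zero]
      exact zero_le
  -- the sum over the steps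
  have hk : ∀ j1 j2 : ℕ, ∑' k : Fin H, (if (X.1 * J ≤ (k : ℕ) + 1 ∧ (k : ℕ) ≤ (X.1 + 3) * J) then
      B1 * (b ^ j1 * b ^ j2) else 0) ≤ (3 * J + 2 : ℕ) * (B1 * (b ^ j1 * b ^ j2)) := by
    intro j1 j2
    rw [tsum_fintype, ← Finset.sum_filter, Finset.sum_const, nsmul_eq_mul]
    refine mul_le_mul' ?_ le_rfl
    exact_mod_cast card_steps H J X.1
  have hbhalf : b ≤ 1 / 2 := by
    rw [hb, eexp, ← ENNReal.ofReal_pow (by linarith), ← ENNReal.ofReal_mul (by positivity),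
      show (1 / 2 : ℝ≥0∞) = ENNReal.ofReal (1 / 2) by
        rw [ENNReal.ofReal_div_of_pos (by norm_num)]; simp]
    refine ENNReal.ofReal_le_ofReal ?_
    have h1 : (A : ℝ) / 24 ≤ Real.exp (A / 24) := by
      have := Real.add_one_le_exp ((A : ℝ) / 24)
      linarith
    have h2 : Real.exp (-(A : ℝ) / 24) * Real.exp (A / 24) = 1 := by
      rw [← Real.exp_add]
      rw [show -(A : ℝ) / 24 + A / 24 = 0 by ring, Real.exp_zero]
    have h3 : Real.exp (-(A : ℝ) / 24) * (A / 24) ≤ 1 := by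
      rw [← h2]
      exact mul_le_mul_of_nonneg_left h1 (Real.exp_pos _).le
    have h4 : 2 * Lp ^ J ≤ (A : ℝ) / 24 := by linarith
    have h5 := mul_le_mul_of_nonneg_left h4 (Real.exp_pos (-(A : ℝ) / 24)).le
    linarith
  have hgeo : ∑' j : ℕ, b ^ j ≤ 2 := by
    rw [ENNReal.tsum_geometric, ENNReal.inv_le_iff_inv_le]
    calc (2 : ℝ≥0∞)⁻¹ = 1 - 1 / 2 := by rw [one_div, ENNReal.one_sub_inv_two]
      _ ≤ 1 - b := tsub_le_tsub_left hbhalf 1
  -- total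
  have htot : ∑' ξ : CMark q H, (L.m ξ : ℝ≥0∞) * (∑' j1 : ℕ, ∑' j2 : ℕ, ∑' k : Fin H,
        if (X.1 * J ≤ (k : ℕ) + 1 ∧ (k : ℕ) ≤ (X.1 + 3) * J) ∧ (X.1 + j2 + 3) * J + 1 ≤ H then
          F t A j1 j2 * (w (ξ.c k.castSucc) *
            eexp (ξ.tot ((X.1 - j1) * J - 1) ((X.1 + j2 + 3) * J + 1))) else 0) ≤
      (3 * J + 2 : ℕ) * B1 * 4 := by
    calc _ = ∑' j1 : ℕ, ∑' j2 : ℕ, ∑' k : Fin H, ∑' ξ : CMark q H, (L.m ξ : ℝ≥0∞) *
          (if (X.1 * J ≤ (k : ℕ) + 1 ∧ (k : ℕ) ≤ (X.1 + 3) * J) ∧ (X.1 + j2 + 3) * J + 1 ≤ H then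
          F t A j1 j2 * (w (ξ.c k.castSucc) *
            eexp (ξ.tot ((X.1 - j1) * J - 1) ((X.1 + j2 + 3) * J + 1))) else 0) := by
          simp_rw [← ENNReal.tsum_mul_left]
          rw [ENNReal.tsum_comm]
          refine tsum_congr fun j1 => ?_
          rw [ENNReal.tsum_comm]
          refine tsum_congr fun j2 => ?_
          rw [ENNReal.tsum_comm]
      _ ≤ ∑' j1 : ℕ, ∑' j2 : ℕ, ∑' k : Fin H,
          (if (X.1 * J ≤ (k : ℕ) + 1 ∧ (k : ℕ) ≤ (X.1 + 3) * J) then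
            B1 * (b ^ j1 * b ^ j2) else 0) :=
          ENNReal.tsum_le_tsum fun j1 => ENNReal.tsum_le_tsum fun j2 =>
            ENNReal.tsum_le_tsum fun k => hone j1 j2 k
      _ ≤ ∑' j1 : ℕ, ∑' j2 : ℕ, (3 * J + 2 : ℕ) * (B1 * (b ^ j1 * b ^ j2)) :=
          ENNReal.tsum_le_tsum fun j1 => ENNReal.tsum_le_tsum fun j2 => hk j1 j2
      _ = (3 * J + 2 : ℕ) * B1 * ((∑' j : ℕ, b ^ j) * (∑' j : ℕ, b ^ j)) := by
          simp_rw [ENNReal.tsum_mul_left, ENNReal.tsum_mul_right]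
          ring
      _ ≤ (3 * J + 2 : ℕ) * B1 * (2 * 2) := by gcongr
      _ = (3 * J + 2 : ℕ) * B1 * 4 := by norm_num
  calc ∑' ξ : {ξ : CMark q H // ξ ∈ Infl q H A J X ∧ 2 ≤ sig A J S ξ},
        ENNReal.ofReal ((lam : ℝ) * L.m ξ.1 * Real.exp (t * sig A J S ξ.1))
      ≤ ∑' ξ : {ξ : CMark q H // ξ ∈ Infl q H A J X ∧ 2 ≤ sig A J S ξ},
        (lam : ℝ≥0∞) * ((L.m ξ.1 : ℝ≥0∞) * (∑' j1 : ℕ, ∑' j2 : ℕ, ∑' k : Fin H,
        if (X.1 * J ≤ (k : ℕ) + 1 ∧ (k : ℕ) ≤ (X.1 + 3) * J) ∧ (X.1 + j2 + 3) * J + 1 ≤ H then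
          F t A j1 j2 * (w (ξ.1.c k.castSucc) *
            eexp (ξ.1.tot ((X.1 - j1) * J - 1) ((X.1 + j2 + 3) * J + 1))) else 0)) := by
        refine ENNReal.tsum_le_tsum fun ξ => ?_
        rw [ENNReal.ofReal_mul (by positivity), ENNReal.ofReal_mul (by positivity),
          ENNReal.ofReal_coe_nnreal, ENNReal.ofReal_coe_nnreal, mul_assoc]
        refine mul_le_mul' le_rfl (mul_le_mul' le_rfl ?_)
        exact pointwise t A J hA0 ht hAt hJ S hsep hH ξ.1 X hXS ξ.2.1 ξ.2.2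
    _ ≤ ∑' ξ : CMark q H,
        (lam : ℝ≥0∞) * ((L.m ξ : ℝ≥0∞) * (∑' j1 : ℕ, ∑' j2 : ℕ, ∑' k : Fin H,
        if (X.1 * J ≤ (k : ℕ) + 1 ∧ (k : ℕ) ≤ (X.1 + 3) * J) ∧ (X.1 + j2 + 3) * J + 1 ≤ H then
          F t A j1 j2 * (w (ξ.c k.castSucc) *
            eexp (ξ.tot ((X.1 - j1) * J - 1) ((X.1 + j2 + 3) * J + 1))) else 0)) :=
        ENNReal.tsum_comp_le_tsum_of_injective Subtype.val_injective _
    _ ≤ (lam : ℝ≥0∞) * ((3 * J + 2 : ℕ) * B1 * 4) := by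
        rw [ENNReal.tsum_mul_left]
        exact mul_le_mul' le_rfl htot
    _ = (ENNReal.ofReal ((lam : ℝ) * (a * q ^ 2)) * eexp t * Cth (1 / 288) *
          ENNReal.ofReal Lp ^ (3 * J + 2) * (3 * J + 2 : ℕ) * 4) * eexp (-A / 48) := by
        rw [ENNReal.ofReal_mul (NNReal.coe_nonneg _), ENNReal.ofReal_coe_nnreal, hB1]
        have : eexp (-(A : ℝ) / 48) = eexp (-A / 24) * eexp (A / 48) := by
          rw [← eexp_add]
          congr 1
          ring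
        rw [this]
        ring
    _ ≤ K0 * eexp (-A / 48) := by
        rw [hK0]
        have := ENNReal.ofReal_le_ofReal hI
        gcongr
    _ ≤ ENNReal.ofReal ε := by
        rw [← ENNReal.ofReal_toReal hK0t, ← hκ, eexp, ← ENNReal.ofReal_mul hκ0]
        refine ENNReal.ofReal_le_ofReal ?_
        have h1 : (A : ℝ) / 48 ≤ Real.exp (A / 48) := by
          have := Real.add_one_le_exp ((A : ℝ) / 48)
          linarith
        have h2 : Real.exp (-(A : ℝ) / 48) * Real.exp (A / 48) = 1 := by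
          rw [← Real.exp_add]
          rw [show -(A : ℝ) / 48 + A / 48 = 0 by ring, Real.exp_zero]
        have h3 : Real.exp (-(A : ℝ) / 48) * (A / 48) ≤ 1 := by
          rw [← h2]
          exact mul_le_mul_of_nonneg_left h1 (Real.exp_pos _).le
        have h4 : κ ≤ ε * ((A : ℝ) / 48) := by
          rw [div_le_iff₀ hε] at hAκ
          linarith
        have h5 := mul_le_mul_of_nonneg_right h4 (Real.exp_pos (-(A : ℝ) / 48)).le
        have h6 := mul_le_mul_of_nonneg_left h3 hε.le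
        linarith

end MPdd5692
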