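import Mathlib
import Pool.Agent.Work.MP_dd5692_pr.InterfaceD
import Pool.Agent.Work.MP_dd5692_pr.MassTools
import Pool.Agent.Work.MP_dd5692_pr.NOFOLLOW

/-!
# MP_dd5692_pr: masses of sets of fine marks and void probabilities (helper88)
-/

open MeasureTheory ProbabilityTheory Set
open scoped ENNReal NNReal BigOperators

namespace MPdd5692

namespace MT

variable {q H : ℕ}

theorem cntC (q H : ℕ) : Countable (CMark q H) := by
  have : Function.Injective (fun ξ : CMark q H => (ξ.c, ξ.g, ξ.b, ξ.r)) := by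
    intro ξ ξ' h
    cases ξ; cases ξ'
    simp only [Prod.mk.injEq] at h
    obtain ⟨h1, h2, h3, h4⟩ := h
    subst h1 h2 h3 h4
    rfl
  exact this.countable

theorem cntF (q H : ℕ) : Countable (FMark q H) := by
  haveI := cntC q H
  infer_instance

/-- masses of fine and coarse marks -/
theorem fine_sum [NeZero q] {a δ Λ : ℝ} (L : MarkLaw q H a δ Λ) (f : CMark q H → ℝ≥0∞) :
    ∑' θ : FMark q H, (L.fine θ : ℝ≥0∞) * f θ.1 = ∑' ξ : CMark q H, (L.m ξ : ℝ≥0∞) * f ξ := by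
  have h1 : ∑' θ : FMark q H, (L.fine θ : ℝ≥0∞) * f θ.1 =
      ∑' (ξ : CMark q H) (u : Fin (H + 1) → Fin q × Fin q), (L.fine (ξ, u) : ℝ≥0∞) * f ξ :=
    ENNReal.tsum_prod (f := fun ξ u => (L.fine (ξ, u) : ℝ≥0∞) * f ξ)
  rw [h1]
  refine tsum_congr fun ξ => ?_
  have h2 : ∀ u : Fin (H + 1) → Fin q × Fin q, (L.fine (ξ, u) : ℝ≥0∞) * f ξ =
      (L.fine (ξ, fun _ => (0, 0)) : ℝ≥0∞) * f ξ := fun u => rfl
  simp_rw [h2]
  rw [tsum_fintype, Finset.sum_const, nsmul_eq_mul, ← mul_assoc]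
  congr 1
  have h3 : (Finset.univ : Finset (Fin (H + 1) → Fin q × Fin q)).card = (q ^ 2) ^ (H + 1) := by
    rw [Finset.card_univ]
    simp [sq]
  rw [h3]
  unfold MarkLaw.fine fineOf
  have hq : ((q : ℝ≥0) ^ 2) ^ (H + 1) ≠ 0 := by
    have : (q : ℝ≥0) ≠ 0 := by exact_mod_cast NeZero.ne q
    positivity
  have h4 : (((q ^ 2) ^ (H + 1) : ℕ) : ℝ≥0∞) = ((((q : ℝ≥0) ^ 2) ^ (H + 1) : ℝ≥0) : ℝ≥0∞) := by
    push_cast
    rfl
  rw [h4, ← ENNReal.coe_mul, mul_div_cancel₀ _ hq]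

theorem void_le [NeZero q] (h1 : Stmt_VOID) {a δ Λ : ℝ} (L : MarkLaw q H a δ Λ) (lam : ℝ≥0)
    (Ac : Set (CMark q H)) (B : ℝ) (hB : 0 ≤ B)
    (h : (lam : ℝ≥0∞) * ∑' ξ : CMark q H, (L.m ξ : ℝ≥0∞) * Ac.indicator 1 ξ ≤ ENNReal.ofReal B) :
    MeasurableSet {ω : Conf q H | ∀ θ, θ.1 ∈ Ac → ω θ = 0} ∧
    (L.PP lam).real {ω | ∃ θ, ω θ ≠ 0 ∧ θ.1 ∈ Ac} ≤ B ∧
    Real.exp (-B) ≤ (L.PP lam).real {ω | ∀ θ, θ.1 ∈ Ac → ω θ = 0} := by
  haveI := cntF q H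
  set A : Set (FMark q H) := {θ | θ.1 ∈ Ac} with hA
  set μ : FMark q H → ℝ≥0 := fun θ => lam * L.fine θ with hμ
  have hsum : ∑' θ : A, ENNReal.ofReal ((μ θ : ℝ)) ≤ ENNReal.ofReal B := by
    have e1 : ∑' θ : A, ENNReal.ofReal ((μ θ : ℝ)) =
        ∑' θ : FMark q H, A.indicator (fun θ => ENNReal.ofReal ((μ θ : ℝ))) θ :=
      tsum_subtype A (fun θ => ENNReal.ofReal ((μ θ : ℝ)))
    rw [e1]
    have e2 : ∀ θ : FMark q H, A.indicator (fun θ => ENNReal.ofReal ((μ θ : ℝ))) θ =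
        (lam : ℝ≥0∞) * ((L.fine θ : ℝ≥0∞) * Ac.indicator 1 θ.1) := by
      intro θ
      by_cases hθ : θ.1 ∈ Ac
      · rw [indicator_of_mem (show θ ∈ A from hθ), indicator_of_mem hθ, ENNReal.ofReal_coe_nnreal,
          hμ]
        simp
      · rw [indicator_of_notMem (show θ ∉ A from hθ), indicator_of_notMem hθ]
        simp
    simp_rw [e2]
    rw [ENNReal.tsum_mul_left, fine_sum L (Ac.indicator 1)]
    exact h
  obtain ⟨hs, hle⟩ := NOFOLLOW.real_of_ennreal (fun θ : A => (μ θ : ℝ))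
    (fun _ => NNReal.coe_nonneg _) B hB hsum
  obtain ⟨hm, hP⟩ := h1 (FMark q H) μ A hs
  have hset : {ω : Conf q H | ∀ θ, θ.1 ∈ Ac → ω θ = 0} = {ω | ∀ i ∈ A, ω i = 0} := rfl
  have hPP : L.PP lam = pois μ := rfl
  rw [← hPP] at hP
  rw [hset]
  refine ⟨hm, ?_, ?_⟩
  · have hc : {ω : Conf q H | ∃ θ, ω θ ≠ 0 ∧ θ.1 ∈ Ac} = {ω | ∀ i ∈ A, ω i = 0}ᶜ := by
      ext ω
      simp only [hA, mem_ofPred_eq, mem_compl_iff]
      push Not
      exact ⟨fun ⟨θ, h1, h2⟩ => ⟨θ, h2, h1⟩, fun ⟨θ, h1, h2⟩ => ⟨θ, h2, h1⟩⟩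
    haveI : IsProbabilityMeasure (L.PP lam) := by rw [hPP]; infer_instance
    rw [hc, probReal_compl_eq_one_sub hm, hP]
    have := Real.add_one_le_exp (-∑' i : A, (μ i : ℝ))
    linarith
  · rw [hP]
    exact Real.exp_le_exp.2 (by linarith)

end MT

end MPdd5692
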