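import Mathlib
import Pool.Agent.Work.MP_dd5692_pr.InterfaceD
import Pool.Agent.Work.MP_dd5692_pr.MassTools2

/-!
# MP_dd5692_pr: block DECOUP (helper88)
-/

open MeasureTheory ProbabilityTheory Set
open scoped ENNReal NNReal BigOperators

namespace MPdd5692

namespace DECOUP

variable {q H : ℕ}

theorem sep_subset (S : Finset (ℕ × ℤ)) : ∃ S' ⊆ S, S.card ≤ 1600 * S'.card ∧
    ∀ X ∈ S', ∀ Y ∈ S', X ≠ Y → 40 ≤ max |(X.1 : ℤ) - Y.1| |X.2 - Y.2| := by
  classical
  let f : ℕ × ℤ → ℕ × ℤ := fun X => (X.1 % 40, X.2 % 40)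
  let T : Finset (ℕ × ℤ) := Finset.range 40 ×ˢ Finset.Ico 0 40
  have hT : T.card = 1600 := by simp [T]
  have hmaps : ∀ X ∈ S, f X ∈ T := by
    intro X _
    simp only [f, T, Finset.mem_product, Finset.mem_range, Finset.mem_Ico]
    have h1 : X.2 % 40 < 40 := Int.emod_lt_of_pos _ (by norm_num)
    have h2 : 0 ≤ X.2 % 40 := Int.emod_nonneg _ (by norm_num)
    exact ⟨Nat.mod_lt _ (by norm_num), h2, h1⟩
  have hne : T.Nonempty := by
    rw [← Finset.card_pos, hT]; norm_num
  obtain ⟨y, _, hy⟩ : ∃ y ∈ T, S.card ≤ 1600 * (S.filter fun X => f X = y).card := by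
    by_contra hc
    push Not at hc
    have h1 := Finset.card_eq_sum_card_fiberwise hmaps
    have h2 : 1600 * ∑ y ∈ T, (S.filter fun X => f X = y).card < 1600 * S.card := by
      rw [Finset.mul_sum]
      calc ∑ y ∈ T, 1600 * (S.filter fun X => f X = y).card < ∑ _y ∈ T, S.card :=
            Finset.sum_lt_sum_of_nonempty hne hc
        _ = 1600 * S.card := by rw [Finset.sum_const, hT, smul_eq_mul]
    rw [← h1] at h2
    exact lt_irrefl _ h2
  refine ⟨_, Finset.filter_subset _ _, hy, ?_⟩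
  intro X hX Y hY hne
  have h1 := (Finset.mem_filter.1 hX).2
  have h2 := (Finset.mem_filter.1 hY).2
  rw [← h2] at h1
  simp only [f, Prod.mk.injEq] at h1
  obtain ⟨ha, hb⟩ := h1
  by_cases hx : X.1 = Y.1
  · have hy2 : X.2 ≠ Y.2 := fun h => hne (Prod.ext hx h)
    refine le_max_of_le_right ?_
    rcases lt_or_gt_of_ne hy2 with h | h
    · rw [abs_sub_comm, abs_of_pos (by omega)]
      omega
    · rw [abs_of_pos (by omega)]
      omega
  · refine le_max_of_le_left ?_
    rcases lt_or_gt_of_ne hx with h | h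
    · rw [abs_sub_comm, abs_of_pos (by omega)]
      omega
    · rw [abs_of_pos (by omega)]
      omega

open Classical in
/-- weights for Chernoff -/
noncomputable def wt (A J : ℕ) (S : Finset (ℕ × ℤ)) (t : ℝ) (T : Finset (ℕ × ℤ))
    (θ : FMark q H) : ℝ :=
  if 2 ≤ sig A J S θ.1 ∧ ∃ X ∈ T, θ.1 ∈ Infl q H A J X then t * sig A J S θ.1 else 0

theorem wt_nonneg (A J : ℕ) (S : Finset (ℕ × ℤ)) (t : ℝ) (ht : 0 < t) (T : Finset (ℕ × ℤ))
    (θ : FMark q H) : 0 ≤ wt A J S t T θ := by
  unfold wt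
  split_ifs
  · positivity
  · exact le_rfl

theorem chern_apply [NeZero q] (h2 : Stmt_CHERN) {a δ Λ : ℝ} (L : MarkLaw q H a δ Λ) (lam : ℝ≥0)
    (A J : ℕ) (S : Finset (ℕ × ℤ)) (t η : ℝ) (ht : 0 < t) (hη : 0 ≤ η)
    (hN : ∀ X ∈ S, Summable (fun ξ : {ξ : CMark q H // ξ ∈ Infl q H A J X ∧ 2 ≤ sig A J S ξ} =>
      (lam : ℝ) * L.m ξ.1 * Real.exp (t * sig A J S ξ.1)) ∧
      ∑' ξ : {ξ : CMark q H // ξ ∈ Infl q H A J X ∧ 2 ≤ sig A J S ξ},
      (lam : ℝ) * L.m ξ.1 * Real.exp (t * sig A J S ξ.1) ≤ η)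
    (T : Finset (ℕ × ℤ)) (hT : T ⊆ S) (x : ℝ) :
    (L.PP lam).real {ω | ∃ F : Finset (FMark q H), x ≤ ∑ θ ∈ F, (ω θ : ℝ) * wt A J S t T θ} ≤
      Real.exp (-x + T.card * η) := by
  classical
  haveI := MT.cntF q H
  set μ : FMark q H → ℝ≥0 := fun θ => lam * L.fine θ with hμ
  have hPP : L.PP lam = pois μ := rfl
  have hsum : ∑' θ : FMark q H, ENNReal.ofReal ((μ θ : ℝ) * (Real.exp (wt A J S t T θ) - 1)) ≤
      ENNReal.ofReal (T.card * η) := by
    have hX : ∀ X ∈ S, ∑' θ : FMark q H, (μ θ : ℝ≥0∞) *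
        (if θ.1 ∈ Infl q H A J X ∧ 2 ≤ sig A J S θ.1 then eexp (t * sig A J S θ.1) else 0) ≤
        ENNReal.ofReal η := by
      intro X hX
      obtain ⟨hs, hle⟩ := hN X hX
      have e1 : ∑' θ : FMark q H, (μ θ : ℝ≥0∞) *
          (if θ.1 ∈ Infl q H A J X ∧ 2 ≤ sig A J S θ.1 then eexp (t * sig A J S θ.1) else 0) =
          (lam : ℝ≥0∞) * ∑' ξ : CMark q H, (L.m ξ : ℝ≥0∞) *
          (if ξ ∈ Infl q H A J X ∧ 2 ≤ sig A J S ξ then eexp (t * sig A J S ξ) else 0) := by
        rw [← MT.fine_sum L (fun ξ => if ξ ∈ Infl q H A J X ∧ 2 ≤ sig A J S ξ then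
          eexp (t * sig A J S ξ) else 0), ← ENNReal.tsum_mul_left]
        refine tsum_congr fun θ => ?_
        rw [hμ]
        simp only [ENNReal.coe_mul]
        ring
      rw [e1, ← ENNReal.tsum_mul_left]
      have e2 : ∑' ξ : CMark q H, (lam : ℝ≥0∞) * ((L.m ξ : ℝ≥0∞) *
          (if ξ ∈ Infl q H A J X ∧ 2 ≤ sig A J S ξ then eexp (t * sig A J S ξ) else 0)) =
          ∑' ξ : {ξ : CMark q H // ξ ∈ Infl q H A J X ∧ 2 ≤ sig A J S ξ},
            ENNReal.ofReal ((lam : ℝ) * L.m ξ.1 * Real.exp (t * sig A J S ξ.1)) := by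
        refine Eq.trans ?_ (tsum_subtype {ξ : CMark q H | ξ ∈ Infl q H A J X ∧ 2 ≤ sig A J S ξ}
          (fun ξ => ENNReal.ofReal ((lam : ℝ) * L.m ξ * Real.exp (t * sig A J S ξ)))).symm
        refine tsum_congr fun ξ => ?_
        by_cases hc : ξ ∈ Infl q H A J X ∧ 2 ≤ sig A J S ξ
        · rw [if_pos hc, indicator_of_mem (show ξ ∈ {ξ : CMark q H | ξ ∈ Infl q H A J X ∧
            2 ≤ sig A J S ξ} from hc), ENNReal.ofReal_mul (by positivity),
            ENNReal.ofReal_mul (by positivity), ENNReal.ofReal_coe_nnreal,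
            ENNReal.ofReal_coe_nnreal, mul_assoc]
          rfl
        · rw [if_neg hc, indicator_of_notMem (show ξ ∉ {ξ : CMark q H | ξ ∈ Infl q H A J X ∧
            2 ≤ sig A J S ξ} from hc)]
          simp
      rw [e2, ← ENNReal.ofReal_tsum_of_nonneg (fun _ => by positivity) hs]
      exact ENNReal.ofReal_le_ofReal hle
    calc ∑' θ : FMark q H, ENNReal.ofReal ((μ θ : ℝ) * (Real.exp (wt A J S t T θ) - 1))
        ≤ ∑' θ : FMark q H, ∑ X ∈ T, (μ θ : ℝ≥0∞) *
        (if θ.1 ∈ Infl q H A J X ∧ 2 ≤ sig A J S θ.1 then eexp (t * sig A J S θ.1) else 0) := by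
          refine ENNReal.tsum_le_tsum fun θ => ?_
          by_cases hc : 2 ≤ sig A J S θ.1 ∧ ∃ X ∈ T, θ.1 ∈ Infl q H A J X
          · obtain ⟨hc1, X, hXT, hX2⟩ := hc
            refine le_trans ?_ (Finset.single_le_sum (fun _ _ => zero_le) hXT)
            rw [if_pos ⟨hX2, hc1⟩, ENNReal.ofReal_mul (by positivity), ENNReal.ofReal_coe_nnreal]
            refine mul_le_mul' le_rfl ?_
            unfold wt eexp
            rw [if_pos ⟨hc1, X, hXT, hX2⟩]
            exact ENNReal.ofReal_le_ofReal (by linarith)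
          · have : wt A J S t T θ = 0 := by unfold wt; rw [if_neg hc]
            rw [this, Real.exp_zero, sub_self, mul_zero, ENNReal.ofReal_zero]
            exact zero_le
      _ = ∑ X ∈ T, ∑' θ : FMark q H, (μ θ : ℝ≥0∞) *
        (if θ.1 ∈ Infl q H A J X ∧ 2 ≤ sig A J S θ.1 then eexp (t * sig A J S θ.1) else 0) := by
          rw [Summable.tsum_finsetSum (fun _ _ => ENNReal.summable)]
      _ ≤ ∑ X ∈ T, ENNReal.ofReal η := Finset.sum_le_sum fun X hX' => hX X (hT hX')
      _ = ENNReal.ofReal (T.card * η) := by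
          rw [Finset.sum_const, nsmul_eq_mul, ENNReal.ofReal_mul (by positivity),
            ENNReal.ofReal_natCast]
  obtain ⟨hs, hle⟩ := NOFOLLOW.real_of_ennreal _ (fun θ => by
    have := Real.add_one_le_exp (wt A J S t T θ)
    have h0 := wt_nonneg A J S t ht T θ
    have : 0 ≤ Real.exp (wt A J S t T θ) - 1 := by linarith
    positivity) _ (by positivity) hsum
  have := h2 (FMark q H) μ (wt A J S t T) (wt_nonneg A J S t ht T) hs x
  rw [hPP]
  exact this.trans (Real.exp_le_exp.2 (by linarith))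

open Classical in
/-- restriction to a set of marks -/
noncomputable def rs (B : Set (FMark q H)) (ω : Conf q H) : Conf q H :=
  fun θ => if θ ∈ B then ω θ else 0

theorem measurable_rs (B : Set (FMark q H)) : Measurable (rs B) := by
  classical
  refine measurable_pi_lambda _ fun θ => ?_
  unfold rs
  by_cases h : θ ∈ B
  · simp only [h, if_true]
    exact measurable_pi_apply θ
  · simp only [h, if_false]
    exact measurable_const

end DECOUP

open DECOUP in
theorem stmt_DECOUP (h1 : Stmt_INDEP) (h2 : Stmt_CHERN) (h3 : Stmt_NOFOLLOW) : Stmt_DECOUP := by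
  classical
  intro p1 hp1
  set p : ℝ := min p1 1 with hp
  have hp0 : 0 < p := lt_min hp1 one_pos
  have hple : p ≤ 1 := min_le_right _ _
  set η : ℝ := p ^ 1600 / 8 with hη
  have hη0 : 0 < η := by positivity
  have hη8 : η ≤ 1 / 8 := by
    have : p ^ 1600 ≤ 1 := pow_le_one₀ hp0.le hple
    rw [hη]; linarith
  set t : ℝ := -Real.log η with ht
  have ht0 : 0 < t := by
    rw [ht]
    have := Real.log_neg hη0 (by linarith)
    linarith
  have hexpt : Real.exp (-t) = η := by
    rw [ht, neg_neg, Real.exp_log hη0]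
  have hexpη : Real.exp η ≤ 2 := by
    calc Real.exp η ≤ Real.exp (1 / 8) := Real.exp_le_exp.2 hη8
      _ ≤ 2 := by
        have h := Real.exp_one_lt_d9
        have h' : Real.exp (1 / 8) ≤ Real.exp (Real.log 2) := by
          apply Real.exp_le_exp.2
          have := Real.log_two_gt_d9
          linarith
        rwa [Real.exp_log (by norm_num)] at h'
  refine ⟨η, hη0, ?_⟩
  intro I Λ J hJ
  obtain ⟨A0, hA0⟩ := h3 I Λ t η J hη0 ht0 hJ
  refine ⟨A0, ?_⟩
  intro A hA q H _ a δ L lam hI Bad hBm hBdep hBp S hS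
  obtain ⟨S', hS'S, hcard, hsep⟩ := sep_subset S
  have hS'H : ∀ X ∈ S', (X.1 + 3) * J + 1 ≤ H := fun X hX => hS X (hS'S hX)
  have hN := hA0 A hA q H a δ L lam hI S' hsep hS'H
  haveI := MT.cntF q H
  haveI : IsProbabilityMeasure (L.PP lam) := by
    change IsProbabilityMeasure (pois _)
    infer_instance
  set P := L.PP lam with hP
  -- the private marks of `X`
  let Ao : ℕ × ℤ → Set (FMark q H) := fun X =>
    {θ | θ.1 ∈ Infl q H A J X ∧ ∀ Y ∈ S', Y ≠ X → θ.1 ∉ Infl q H A J Y}
  let bo : ℕ × ℤ → Set (Conf q H) := fun X => {ω | rs (Ao X) ω ∈ Bad X}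
  let Sh : ℕ × ℤ → Set (Conf q H) := fun X =>
    {ω | ∃ θ : FMark q H, (θ.1 ∈ Infl q H A J X ∧ 2 ≤ sig A J S' θ.1) ∧ ω θ ≠ 0}
  have hsig2 : ∀ X ∈ S', ∀ Y ∈ S', Y ≠ X → ∀ ξ : CMark q H, ξ ∈ Infl q H A J X →
      ξ ∈ Infl q H A J Y → 2 ≤ sig A J S' ξ := by
    intro X hX Y hY hne ξ h1 h2
    unfold sig
    have : ({X, Y} : Finset (ℕ × ℤ)) ⊆ S'.filter fun X => ξ ∈ Infl q H A J X := by
      intro Z hZ
      rw [Finset.mem_insert, Finset.mem_singleton] at hZ
      rcases hZ with rfl | rfl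
      · exact Finset.mem_filter.2 ⟨hX, h1⟩
      · exact Finset.mem_filter.2 ⟨hY, h2⟩
    have h3 := Finset.card_le_card this
    rw [Finset.card_pair (Ne.symm hne)] at h3
    exact h3
  have hagree : ∀ X ∈ S', ∀ ω, ω ∉ Sh X → (ω ∈ Bad X ↔ rs (Ao X) ω ∈ Bad X) := by
    intro X hX ω hω
    apply hBdep X
    intro θ hθ
    unfold rs
    by_cases h : θ ∈ Ao X
    · rw [if_pos h]
    · rw [if_neg h]
      by_contra hne
      apply hω
      have : ∃ Y ∈ S', Y ≠ X ∧ θ.1 ∈ Infl q H A J Y := by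
        by_contra hc
        push Not at hc
        exact h ⟨hθ, hc⟩
      obtain ⟨Y, hY, hYX, hθY⟩ := this
      exact ⟨θ, ⟨hθ, hsig2 X hX Y hY hYX θ.1 hθ hθY⟩, hne⟩
  have hbom : ∀ X, MeasurableSet (bo X) := fun X => measurable_rs (Ao X) (hBm X)
  have hShm : ∀ X, MeasurableSet (Sh X) := by
    intro X
    have : Sh X = ⋃ θ : {θ : FMark q H // θ.1 ∈ Infl q H A J X ∧ 2 ≤ sig A J S' θ.1},
        {ω : Conf q H | ω θ.1 ≠ 0} := by
      ext ω
      simp only [Sh, mem_ofPred_eq, mem_iUnion, Subtype.exists, exists_prop]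
    rw [this]
    refine MeasurableSet.iUnion fun θ => ?_
    have hm : Measurable (fun ω : Conf q H => ω θ.1) := measurable_pi_apply θ.1
    exact hm (measurableSet_singleton (0 : ℕ)).compl
  -- Chernoff for the shared particles
  have hShP : ∀ T : Finset (ℕ × ℤ), T ⊆ S' →
      P.real (⋂ X ∈ T, Sh X) ≤ (η * Real.exp η) ^ T.card := by
    intro T hT
    have hc := chern_apply h2 L lam A J S' t η ht0 hη0.le hN T hT (t * T.card)
    refine le_trans (measureReal_mono ?_ (measure_ne_top P _)) (hc.trans (le_of_eq ?_))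
    · intro ω hω
      simp only [mem_iInter] at hω
      have hex : ∀ X : ℕ × ℤ, ∃ θ : FMark q H, X ∈ T →
          (θ.1 ∈ Infl q H A J X ∧ 2 ≤ sig A J S' θ.1) ∧ ω θ ≠ 0 := by
        intro X
        by_cases hX : X ∈ T
        · obtain ⟨θ, hθ⟩ := hω X hX
          exact ⟨θ, fun _ => hθ⟩
        · exact ⟨⟨⟨fun _ => 0, fun _ => true, fun _ => 0, fun _ => (0, 0)⟩, fun _ => (0, 0)⟩,
            fun h => absurd h hX⟩
      choose g hg using hex
      refine ⟨T.image g, ?_⟩
      have hfib : ∀ θ ∈ T.image g, t * ((T.filter fun X => g X = θ).card : ℝ) ≤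
          (ω θ : ℝ) * wt A J S' t T θ := by
        intro θ hθ
        obtain ⟨X, hX, rfl⟩ := Finset.mem_image.1 hθ
        obtain ⟨⟨hX1, hX2⟩, hX3⟩ := hg X hX
        unfold wt
        rw [if_pos ⟨hX2, X, hX, hX1⟩]
        have hω1 : (1 : ℝ) ≤ ω (g X) := by
          have : 1 ≤ ω (g X) := Nat.one_le_iff_ne_zero.2 hX3
          exact_mod_cast this
        have hcd : ((T.filter fun Y => g Y = g X).card : ℝ) ≤ sig A J S' (g X).1 := by
          have : (T.filter fun Y => g Y = g X).card ≤ sig A J S' (g X).1 := by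
            unfold sig
            refine Finset.card_le_card ?_
            intro Y hY
            obtain ⟨hY1, hY2⟩ := Finset.mem_filter.1 hY
            refine Finset.mem_filter.2 ⟨hT hY1, ?_⟩
            rw [← hY2]
            exact (hg Y hY1).1.1
          exact_mod_cast this
        calc t * ((T.filter fun Y => g Y = g X).card : ℝ) ≤ t * sig A J S' (g X).1 :=
              mul_le_mul_of_nonneg_left hcd ht0.le
          _ = 1 * (t * sig A J S' (g X).1) := (one_mul _).symm
          _ ≤ _ := mul_le_mul_of_nonneg_right hω1 (by positivity)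
      calc t * (T.card : ℝ) = t * ((∑ θ ∈ T.image g, (T.filter fun X => g X = θ).card : ℕ) : ℝ) := by
            rw [← Finset.card_eq_sum_card_image]
        _ = ∑ θ ∈ T.image g, t * ((T.filter fun X => g X = θ).card : ℝ) := by
            push_cast
            rw [Finset.mul_sum]
        _ ≤ _ := Finset.sum_le_sum hfib
    · rw [show -(t * (T.card : ℝ)) + T.card * η = T.card * (-t + η) by ring, Real.exp_nat_mul,
        Real.exp_add, hexpt]
  have hSh1 : ∀ X ∈ S', P.real (Sh X) ≤ η := by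
    intro X hX
    have hc := chern_apply h2 L lam A J S' t η ht0 hη0.le hN {X} (by simpa using hX) (2 * t)
    have hle : P.real (Sh X) ≤ Real.exp (-(2 * t) + (({X} : Finset (ℕ × ℤ)).card : ℝ) * η) := by
      refine le_trans (measureReal_mono ?_ (measure_ne_top P _)) hc
      rintro ω ⟨θ, ⟨hθ1, hθ2⟩, hθ3⟩
      refine ⟨{θ}, ?_⟩
      rw [Finset.sum_singleton]
      unfold wt
      rw [if_pos ⟨hθ2, X, Finset.mem_singleton_self X, hθ1⟩]
      have hω1 : (1 : ℝ) ≤ ω θ := by
        have : 1 ≤ ω θ := Nat.one_le_iff_ne_zero.2 hθ3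
        exact_mod_cast this
      have hs2 : (2 : ℝ) ≤ sig A J S' θ.1 := by exact_mod_cast hθ2
      have h0 : 2 * t ≤ t * sig A J S' θ.1 := by nlinarith
      calc 2 * t ≤ t * sig A J S' θ.1 := h0
        _ = 1 * (t * sig A J S' θ.1) := (one_mul _).symm
        _ ≤ _ := mul_le_mul_of_nonneg_right hω1 (by positivity)
    refine hle.trans ?_
    rw [Finset.card_singleton, Nat.cast_one, one_mul, Real.exp_add, show -(2 * t) = -t + -t by ring,
      Real.exp_add, hexpt]
    have : η * η * Real.exp η ≤ η * η * 2 := mul_le_mul_of_nonneg_left hexpη (by positivity)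
    nlinarith
  have hboP : ∀ X ∈ S', P.real (bo X) ≤ 2 * η := by
    intro X hX
    have hsub : bo X ⊆ Bad X ∪ Sh X := by
      intro ω hω
      by_cases h : ω ∈ Sh X
      · exact Or.inr h
      · exact Or.inl ((hagree X hX ω h).2 hω)
    calc P.real (bo X) ≤ P.real (Bad X ∪ Sh X) := measureReal_mono hsub (measure_ne_top P _)
      _ ≤ P.real (Bad X) + P.real (Sh X) := measureReal_union_le _ _
      _ ≤ η + η := add_le_add (hBp X (hS'H X hX)) (hSh1 X hX)
      _ = 2 * η := by ring
  -- independence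
  have hind : ∀ T : Finset (ℕ × ℤ), T ⊆ S' →
      P.real ((⋂ X ∈ S' \ T, bo X) ∩ ⋂ X ∈ T, Sh X) ≤
        (η * Real.exp η) ^ T.card * (2 * η) ^ (S'.card - T.card) := by
    intro T hT
    let E : Option (ℕ × ℤ) → Set (Conf q H) := fun o =>
      match o with
      | none => ⋂ X ∈ T, Sh X
      | some X => bo X
    let As : Option (ℕ × ℤ) → Set (FMark q H) := fun o =>
      match o with
      | none => {θ | 2 ≤ sig A J S' θ.1}
      | some X => Ao X
    have h := h1 (FMark q H) (fun θ => lam * L.fine θ) (Option (ℕ × ℤ))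
      (Finset.insertNone (S' \ T)) As E ?_ ?_ ?_
    · have hset : (⋂ X ∈ S' \ T, bo X) ∩ ⋂ X ∈ T, Sh X =
          ⋂ k ∈ Finset.insertNone (S' \ T), E k := by
        ext ω
        simp only [mem_inter_iff, mem_iInter]
        constructor
        · rintro ⟨ha, hb⟩ k hk
          cases k with
          | none => simpa [E] using hb
          | some X => exact ha X (Finset.some_mem_insertNone.1 hk)
        · intro hh
          refine ⟨fun X hX => hh (some X) (Finset.some_mem_insertNone.2 hX), ?_⟩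
          have := hh none (Finset.none_mem_insertNone)
          simpa [E] using this
      rw [hset]
      have hPe : P.real (⋂ k ∈ Finset.insertNone (S' \ T), E k) =
          ∏ k ∈ Finset.insertNone (S' \ T), P.real (E k) := h
      rw [hPe, Finset.prod_insertNone]
      refine mul_le_mul (hShP T hT) ?_ (Finset.prod_nonneg fun _ _ => measureReal_nonneg)
        (by positivity)
      calc ∏ X ∈ S' \ T, P.real (E (some X)) ≤ ∏ _X ∈ S' \ T, (2 * η) :=
            Finset.prod_le_prod (fun _ _ => measureReal_nonneg)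
              fun X hX => hboP X (Finset.mem_sdiff.1 hX).1
        _ = (2 * η) ^ (S'.card - T.card) := by
            rw [Finset.prod_const, Finset.card_sdiff_of_subset hT]
    · intro k hk
      cases k with
      | none => exact Finset.measurableSet_biInter _ fun X _ => hShm X
      | some X => exact hbom X
    · intro k hk
      cases k with
      | none =>
        intro ω ω' hωω'
        simp only [E, mem_iInter, Sh, mem_ofPred_eq]
        refine forall_congr' fun X => forall_congr' fun hX => ?_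
        constructor
        · rintro ⟨θ, hθ, hne⟩
          exact ⟨θ, hθ, by rw [← hωω' θ hθ.2]; exact hne⟩
        · rintro ⟨θ, hθ, hne⟩
          exact ⟨θ, hθ, by rw [hωω' θ hθ.2]; exact hne⟩
      | some X =>
        intro ω ω' hωω'
        have : rs (Ao X) ω = rs (Ao X) ω' := by
          funext θ
          unfold rs
          by_cases hθ : θ ∈ Ao X
          · rw [if_pos hθ, if_pos hθ]
            exact hωω' θ hθ
          · rw [if_neg hθ, if_neg hθ]
        show rs (Ao X) ω ∈ Bad X ↔ rs (Ao X) ω' ∈ Bad X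
        rw [this]
    · have hAoS : ∀ X ∈ S' \ T, Disjoint (Ao X) {θ : FMark q H | 2 ≤ sig A J S' θ.1} := by
        intro X hX
        rw [Set.disjoint_left]
        rintro θ ⟨ha, hb⟩ hc
        have hc : 2 ≤ sig A J S' θ.1 := hc
        unfold sig at hc
        have hle : (S'.filter fun X => θ.1 ∈ Infl q H A J X) ⊆ {X} := by
          intro Y hY
          obtain ⟨hY1, hY2⟩ := Finset.mem_filter.1 hY
          rw [Finset.mem_singleton]
          by_contra hne
          exact hb Y hY1 hne hY2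
        have := Finset.card_le_card hle
        rw [Finset.card_singleton] at this
        omega
      intro k hk l hl hkl
      cases k with
      | none =>
        cases l with
        | none => exact absurd rfl hkl
        | some Y => exact (hAoS Y (Finset.some_mem_insertNone.1 hl)).symm
      | some X =>
        cases l with
        | none => exact hAoS X (Finset.some_mem_insertNone.1 hk)
        | some Y =>
          rw [Set.disjoint_left]
          rintro θ ⟨ha, hb⟩ ⟨hc, hd⟩
          have hXY : X ≠ Y := fun h => hkl (by rw [h])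
          exact hb Y (Finset.mem_sdiff.1 (Finset.some_mem_insertNone.1 hl)).1 (Ne.symm hXY) hc
  -- union over the sets of shared windows
  have hmain : P.real (⋂ X ∈ S', Bad X) ≤ (p ^ 1600) ^ S'.card := by
    have hcov : (⋂ X ∈ S', Bad X) ⊆ ⋃ T ∈ S'.powerset, ((⋂ X ∈ S' \ T, bo X) ∩ ⋂ X ∈ T, Sh X) := by
      intro ω hω
      simp only [mem_iInter] at hω
      simp only [mem_iUnion, Finset.mem_powerset]
      refine ⟨S'.filter fun X => ω ∈ Sh X, Finset.filter_subset _ _, ?_⟩
      simp only [mem_inter_iff, mem_iInter]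
      refine ⟨fun X hX => ?_, fun X hX => (Finset.mem_filter.1 hX).2⟩
      obtain ⟨hX1, hX2⟩ := Finset.mem_sdiff.1 hX
      have hn : ω ∉ Sh X := fun h => hX2 (Finset.mem_filter.2 ⟨hX1, h⟩)
      exact (hagree X hX1 ω hn).1 (hω X hX1)
    calc P.real (⋂ X ∈ S', Bad X)
        ≤ P.real (⋃ T ∈ S'.powerset, ((⋂ X ∈ S' \ T, bo X) ∩ ⋂ X ∈ T, Sh X)) :=
          measureReal_mono hcov (measure_ne_top P _)
      _ ≤ ∑ T ∈ S'.powerset, P.real ((⋂ X ∈ S' \ T, bo X) ∩ ⋂ X ∈ T, Sh X) :=
          measureReal_biUnion_finset_le _ _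
      _ ≤ ∑ T ∈ S'.powerset, (η * Real.exp η) ^ T.card * (2 * η) ^ (S'.card - T.card) :=
          Finset.sum_le_sum fun T hT => hind T (Finset.mem_powerset.1 hT)
      _ = (η * Real.exp η + 2 * η) ^ S'.card := by
          rw [Finset.sum_pow_mul_eq_add_pow]
      _ ≤ (p ^ 1600) ^ S'.card := by
          refine pow_le_pow_left₀ (by positivity) ?_ _
          have : η * Real.exp η ≤ η * 2 := mul_le_mul_of_nonneg_left hexpη hη0.le
          rw [hη] at this ⊢
          have hpp : 0 < p ^ 1600 := by positivity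
          linarith
  calc P.real (⋂ X ∈ S, Bad X) ≤ P.real (⋂ X ∈ S', Bad X) := by
        refine measureReal_mono ?_ (measure_ne_top P _)
        exact biInter_subset_biInter_left hS'S
    _ ≤ (p ^ 1600) ^ S'.card := hmain
    _ = p ^ (1600 * S'.card) := by rw [← pow_mul]
    _ ≤ p ^ S.card := pow_le_pow_of_le_one hp0.le hple hcard
    _ ≤ p1 ^ S.card := pow_le_pow_left₀ hp0.le (min_le_left _ _) _

end MPdd5692
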