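import Pool.Agent.Work.MP_dd5692_pr.InterfaceE

/-!
# MP_dd5692_pr: block DEPG (helper67)
-/

open MeasureTheory ProbabilityTheory Set
open scoped ENNReal NNReal BigOperators

namespace MPdd5692
namespace DEPG

/-! ### the norm -/

theorem nrm_le {x : Site} {r : ℤ} : nrm x ≤ r ↔ |x.1| ≤ r ∧ |x.2| ≤ r := by
  unfold nrm
  exact max_le_iff

theorem nrm_tri (x y z : Site) : nrm (x - z) ≤ nrm (x - y) + nrm (y - z) := by
  have h1 : |x.1 - y.1| ≤ nrm (x - y) := le_max_left _ _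
  have h2 : |x.2 - y.2| ≤ nrm (x - y) := le_max_right _ _
  have h3 : |y.1 - z.1| ≤ nrm (y - z) := le_max_left _ _
  have h4 : |y.2 - z.2| ≤ nrm (y - z) := le_max_right _ _
  rw [nrm_le]
  constructor
  · calc |(x - z).1| = |(x.1 - y.1) + (y.1 - z.1)| := by simp
      _ ≤ |x.1 - y.1| + |y.1 - z.1| := abs_add_le _ _
      _ ≤ _ := by linarith
  · calc |(x - z).2| = |(x.2 - y.2) + (y.2 - z.2)| := by simp
      _ ≤ |x.2 - y.2| + |y.2 - z.2| := abs_add_le _ _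
      _ ≤ _ := by linarith

theorem box_sub {y x : Site} {r R : ℕ} (h : nrm (y - x) + r ≤ R) : box y r ⊆ box x R := by
  intro w hw
  have h1 : nrm (w - y) ≤ r := hw
  have h2 := nrm_tri w y x
  show nrm (w - x) ≤ R
  linarith

/-! ### the vacant set -/

theorem offs_near {q : ℕ} {ρ : ℝ} (hq : 20 * (ρ + 2) ≤ q) (hρ : 0 ≤ ρ) {v x : Site}
    (h : v - x ∈ offs ρ) : nrm (cidx q v - cidx q x) ≤ 1 := by
  have hq0 : (0 : ℝ) < q := by linarith
  have hqz : (0 : ℤ) < q := by exact_mod_cast hq0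
  have key : ∀ a : ℤ, offd a ^ 2 ≤ ρ ^ 2 → |a| ≤ q := by
    intro a ha
    have h1 : offd a ≤ ρ := by
      have h0 : 0 ≤ offd a := le_max_right _ _
      nlinarith
    have h2 : |(a : ℝ)| - 1 / 2 ≤ offd a := le_max_left _ _
    have h3 : |(a : ℝ)| ≤ q := by linarith
    have h4 : ((|a| : ℤ) : ℝ) ≤ ((q : ℤ) : ℝ) := by
      push_cast
      exact h3
    exact_mod_cast h4
  have h' : offd (v - x).1 ^ 2 + offd (v - x).2 ^ 2 ≤ ρ ^ 2 := h
  have h1 := key (v - x).1 (by nlinarith [sq_nonneg (offd (v - x).2)])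
  have h2 := key (v - x).2 (by nlinarith [sq_nonneg (offd (v - x).1)])
  have hd : ∀ s t : ℤ, |s - t| ≤ q → |s / (q : ℤ) - t / (q : ℤ)| ≤ 1 := by
    intro s t hst
    rw [abs_le] at hst ⊢
    have a1 : s / (q : ℤ) ≤ (t + 1 * q) / (q : ℤ) := Int.ediv_le_ediv hqz (by linarith)
    have a2 : t / (q : ℤ) ≤ (s + 1 * q) / (q : ℤ) := Int.ediv_le_ediv hqz (by linarith)
    rw [Int.add_mul_ediv_right _ _ hqz.ne'] at a1 a2
    constructor <;> linarith
  rw [nrm_le]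
  exact ⟨hd _ _ h1, hd _ _ h2⟩

theorem vac_congr {q : ℕ} {ρ : ℝ} (hq : 20 * (ρ + 2) ≤ q) (hρ : 0 ≤ ρ) {S S' : Set Site}
    {z : Site} {b : ℕ} (h : ∀ v, cidx q v ∈ box z (b + 1) → (v ∈ S ↔ v ∈ S')) {x : Site}
    (hx : x ∈ cbox q z b) : x ∈ vacSites ρ S ↔ x ∈ vacSites ρ S' := by
  have hb : ∀ v, v - x ∈ offs ρ → (v ∈ S ↔ v ∈ S') := by
    intro v hv
    apply h
    have h1 := offs_near hq hρ hv
    have h2 : nrm (cidx q x - z) ≤ b := hx
    have h3 := nrm_tri (cidx q v) (cidx q x) z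
    show nrm (cidx q v - z) ≤ ((b + 1 : ℕ) : ℤ)
    push_cast
    linarith
  constructor
  · intro hv v hvS hvo
    exact hv v ((hb v hvo).2 hvS) hvo
  · intro hv v hvS hvo
    exact hv v ((hb v hvo).1 hvS) hvo

theorem UU_congr {q : ℕ} {ρ : ℝ} (hq : 20 * (ρ + 2) ≤ q) (hρ : 0 ≤ ρ) {S S' : Set Site}
    {z : Site} {a b : ℕ} (h : ∀ v, cidx q v ∈ box z (b + 1) → (v ∈ S ↔ v ∈ S')) :
    UU ρ q S z a b ↔ UU ρ q S' z a b := by
  have e : (vacSites ρ S)ᶜ ∪ cbox q z a ∪ (cbox q z b)ᶜ =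
      (vacSites ρ S')ᶜ ∪ cbox q z a ∪ (cbox q z b)ᶜ := by
    ext x
    by_cases hx : x ∈ cbox q z b
    · have := vac_congr hq hρ h hx
      simp only [mem_union, mem_compl_iff, this]
    · have hx' : x ∈ (cbox q z b)ᶜ := hx
      simp only [mem_union, hx', or_true]
  unfold UU Wired
  rw [e]

theorem VE_congr {q : ℕ} {ρ : ℝ} (hq : 20 * (ρ + 2) ≤ q) (hρ : 0 ≤ ρ) {S S' : Set Site}
    {y : Site} {u : ℕ} (hu : 1 ≤ u) (h : ∀ v, cidx q v ∈ box y (70 * u) → (v ∈ S ↔ v ∈ S')) :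
    VE ρ q S y u ↔ VE ρ q S' y u := by
  have hbox : ∀ (i : ℕ), i < 6 →
      box ((y.1 + 15 * u + 8 * u * i, y.2) : Site) (12 * u + 1) ⊆ box y (70 * u) := by
    intro i hi
    apply box_sub
    have h1 : nrm (((y.1 + 15 * u + 8 * u * i, y.2) : Site) - y) ≤ 55 * u := by
      rw [nrm_le]
      have hi' : (i : ℤ) ≤ 5 := by exact_mod_cast (by omega : i ≤ 5)
      have hi0 : (0 : ℤ) ≤ i := by positivity
      have hu0 : (0 : ℤ) ≤ u := by positivity
      constructor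
      · show |y.1 + 15 * (u : ℤ) + 8 * u * i - y.1| ≤ 55 * u
        rw [show y.1 + 15 * (u : ℤ) + 8 * u * i - y.1 = 15 * (u : ℤ) + 8 * u * i by ring]
        rw [abs_of_nonneg (by positivity)]
        nlinarith
      · show |y.2 - y.2| ≤ 55 * (u : ℤ)
        simp
    push_cast
    have hu' : (1 : ℤ) ≤ u := by exact_mod_cast hu
    linarith
  unfold VE
  refine and_congr ?_ ?_
  · refine forall_congr' fun i => forall_congr' fun hi => ?_
    exact UU_congr hq hρ fun v hv => h v (hbox i hi hv)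
  · refine UU_congr hq hρ fun v hv => h v (box_sub ?_ hv)
    have : nrm (y - y) = 0 := by simp [nrm]
    rw [this]
    push_cast
    have hu' : (1 : ℤ) ≤ u := by exact_mod_cast hu
    linarith

/-! ### agreement of configurations -/

variable {q H : ℕ}

theorem cidx_site (hq : 0 < q) (θ : FMark q H) (k : Fin (H + 1)) :
    cidx q (FMark.site θ k) = θ.1.c k := by
  have key : ∀ (c : ℤ) (l : Fin q), ((q : ℤ) * c + ((l : ℕ) : ℤ)) / (q : ℤ) = c := by
    intro c l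
    have hqz : (q : ℤ) ≠ 0 := by exact_mod_cast hq.ne'
    rw [add_comm, Int.add_mul_ediv_left _ _ hqz,
      Int.ediv_eq_zero_of_lt (by positivity) (by exact_mod_cast l.2), zero_add]
  unfold cidx FMark.site
  simp only [key]

/-- agreement on the marks which at time `k` are in `R` -/
def Ag (ω ω' : Conf q H) (k : ℕ) (R : Set Site) : Prop :=
  ∀ θ : FMark q H, (∃ h : k < H + 1, θ.1.c ⟨k, h⟩ ∈ R) → ω θ = ω' θ

theorem Ag.mono {ω ω' : Conf q H} {k : ℕ} {R R' : Set Site} (h : Ag ω ω' k R) (hR : R' ⊆ R) :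
    Ag ω ω' k R' := fun θ ⟨hk, hc⟩ => h θ ⟨hk, hR hc⟩

theorem et_congr (hq : 0 < q) {ω ω' : Conf q H} {k : ℕ} {R : Set Site} (h : Ag ω ω' k R) (v : Site)
    (hv : cidx q v ∈ R) : v ∈ et ω k ↔ v ∈ et ω' k := by
  unfold et
  simp only [mem_ofPred_eq]
  refine exists_congr fun θ => ?_
  constructor
  · rintro ⟨h0, hk, hs⟩
    have e := h θ ⟨hk, by rw [← cidx_site hq θ ⟨k, hk⟩, hs]; exact hv⟩
    exact ⟨by rwa [← e], hk, hs⟩
  · rintro ⟨h0, hk, hs⟩
    have e := h θ ⟨hk, by rw [← cidx_site hq θ ⟨k, hk⟩, hs]; exact hv⟩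
    exact ⟨by rwa [e], hk, hs⟩

theorem inn_congr {ω ω' : Conf q H} {k : ℕ} {y : Site} {R : ℕ} (h : Ag ω ω' k (box y R)) :
    inn k y R ω = inn k y R ω' := by
  funext θ
  unfold inn
  split_ifs with h1
  · exact h θ h1
  · rfl

theorem mixC_congr {M M1 M' : Conf q H} {k : ℕ} {y : Site} {R : ℕ} (h : Ag M M1 k (box y R)) :
    mixC k y R M M' = mixC k y R M1 M' := by
  funext θ
  unfold mixC
  split_ifs with h1
  · exact h θ h1
  · rfl

variable [NeZero q]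

theorem projE_congr (e : Fin (H + 1) → Bool) {ω ω' : Conf q H} {k : ℕ} {R : Set Site}
    (h : Ag ω ω' k R) : Ag (projE e ω) (projE e ω') k R := by
  intro θ hθ
  unfold projE
  split_ifs with h1
  · exact Finset.sum_congr rfl fun u _ => h (θ.1, u) hθ
  · rfl

theorem hcp_congr {a δ Λ : ℝ} (L : MarkLaw q H a δ Λ) (lam : ℝ≥0) (ρ : ℝ) (u m m' : ℕ)
    (y : Site) {M M' : Conf q H} (h : Ag M M' m' (box y (27 * u))) :
    hcp L lam ρ u m m' y M = hcp L lam ρ u m m' y M' := by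
  unfold hcp
  simp only [mixC_congr h]

theorem niceE_congr {a δ Λ : ℝ} (L : MarkLaw q H a δ Λ) (lam : ℝ≥0) (ρ : ℝ) (u J : ℕ) (uh : ℝ)
    {ω ω' : Conf q H} (m : ℕ) (y : Site)
    (h : ∀ m' ∈ nxt J m, Ag ω ω' m' (box y (27 * u))) :
    niceE L lam ρ u J uh ω m y ↔ niceE L lam ρ u J uh ω' m y := by
  unfold niceE
  rw [Finset.sum_congr rfl fun m' hm' =>
    hcp_congr L lam ρ u m m' y (projE_congr (expo H m) (h m' hm'))]

theorem HatE_congr {ρ : ℝ} (hq : 20 * (ρ + 2) ≤ q) (hρ : 0 ≤ ρ) {ω ω' : Conf q H} (m m' : ℕ)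
    {y : Site} {u : ℕ} (hu : 1 ≤ u) (h : Ag ω ω' m' (box y (70 * u))) :
    HatE ρ ω m m' y u ↔ HatE ρ ω' m m' y u := by
  unfold HatE
  have h1 : Ag ω ω' m' (box y (25 * u)) := h.mono (box_sub (by
    have : nrm (y - y) = 0 := by simp [nrm]
    rw [this]; push_cast
    have hu' : (1 : ℤ) ≤ u := by exact_mod_cast hu
    linarith))
  rw [inn_congr h1]
  exact and_congr Iff.rfl (VE_congr hq hρ hu (et_congr (NeZero.pos q) h))

/-! ### the geometry of the large blocks -/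

theorem sub_near {p : Par} (hG : Geo p.A1 p.Y) {M i : ℤ} {y : Site} (hy : y ∈ p.sub M i) :
    8 * nrm (y - ((p.A : ℤ) * M, (p.A : ℤ) * i)) ≤ p.A := by
  obtain ⟨y0, hy0, rfl⟩ := hy
  have h1 := hG.small y0 hy0
  rw [add_sub_cancel_right]
  have h2 : nrm (sm p.u y0) = p.u * nrm y0 := by
    unfold nrm sm
    simp only [abs_mul, Nat.abs_cast]
    rw [mul_max_of_nonneg _ _ (by positivity)]
  rw [h2]
  unfold Par.A
  push_cast
  have hu : (0 : ℤ) ≤ p.u := by positivity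
  nlinarith

theorem xX_near (A : ℕ) (X X' : ℕ × ℤ) (h1 : X'.1 ≤ X.1 + 1) (h1' : X.1 ≤ X'.1 + 1)
    (h2 : |X'.2 - X.2| ≤ 1) : nrm (xX A X' - xX A X) ≤ A := by
  have hA : (0 : ℤ) ≤ A := by positivity
  have e1 : |((X'.1 : ℤ)) - X.1| ≤ 1 := by
    rw [abs_le]; constructor <;> omega
  rw [nrm_le]
  constructor
  · show |(A : ℤ) * X'.1 - A * X.1| ≤ A
    rw [← mul_sub, abs_mul, Nat.abs_cast]
    nlinarith
  · show |(A : ℤ) * X'.2 - A * X.2| ≤ A
    rw [← mul_sub, abs_mul, Nat.abs_cast]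
    nlinarith

/-- the standing assumption on two configurations -/
def AgX (p : Par) (X : ℕ × ℤ) (ω ω' : Conf q H) : Prop :=
  ∀ k : ℕ, X.1 * p.J ≤ k + 1 → k ≤ (X.1 + 3) * p.J → k < H →
    Ag ω ω' k (box (xX p.A X) (6 * p.A))

omit [NeZero q] in
theorem AgX_of {p : Par} {X : ℕ × ℤ} {ω ω' : Conf q H}
    (h : ∀ θ ∈ {θ : FMark q H | θ.1 ∈ Infl q H p.A p.J X}, ω θ = ω' θ) : AgX p X ω ω' := by
  intro k h1 h2 h3 θ hθ
  obtain ⟨hk, hc⟩ := hθ
  apply h
  refine ⟨⟨k, h3⟩, h1, h2, ?_⟩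
  have : (⟨k, h3⟩ : Fin H).castSucc = ⟨k, hk⟩ := rfl
  rw [this]
  have hc' : nrm (θ.1.c ⟨k, hk⟩ - xX p.A X) ≤ ((6 * p.A : ℕ) : ℤ) := hc
  push_cast at hc'
  have : (0 : ℤ) ≤ θ.1.D ⟨k, h3⟩ := by positivity
  linarith

theorem WWE_congr {ρ : ℝ} (hq : 20 * (ρ + 2) ≤ q) (hρ : 0 ≤ ρ) {p : Par} (hA : 1 ≤ p.A)
    {X X' : ℕ × ℤ} (hX : nrm (xX p.A X' - xX p.A X) ≤ p.A) {ω ω' : Conf q H} {k : ℕ}
    (h : Ag ω ω' k (box (xX p.A X) (6 * p.A))) :
    WWE ρ q (et ω k) p X' ↔ WWE ρ q (et ω' k) p X' := by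
  unfold WWE
  refine forall_congr' fun z => forall_congr' fun _ => forall_congr' fun _ =>
    forall_congr' fun hz => forall_congr' fun _ => ?_
  refine UU_congr hq hρ (et_congr (NeZero.pos q) (h.mono (box_sub ?_)))
  have h1 := nrm_tri z (xX p.A X') (xX p.A X)
  have hA' : (1 : ℤ) ≤ p.A := by exact_mod_cast hA
  push_cast
  linarith

theorem ring_congr {ρ : ℝ} (hq : 20 * (ρ + 2) ≤ q) (hρ : 0 ≤ ρ) {u : ℕ} (hu : 1 ≤ u) {y : Site}
    {ω ω' : Conf q H} {k : ℕ} (h : Ag ω ω' k (box y (70 * u))) :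
    UU ρ q (et ω k) y (10 * u) (20 * u) ↔ UU ρ q (et ω' k) y (10 * u) (20 * u) := by
  refine UU_congr hq hρ (et_congr (NeZero.pos q) (h.mono (box_sub ?_)))
  have : nrm (y - y) = 0 := by simp [nrm]
  rw [this]; push_cast
  have hu' : (1 : ℤ) ≤ u := by exact_mod_cast hu
  linarith

/-- the box around a sub-block of a large block near `X` -/
theorem sub_box {p : Par} (hG : Geo p.A1 p.Y) {X X' : ℕ × ℤ}
    (hX : nrm (xX p.A X' - xX p.A X) ≤ p.A) {y : Site} (hy : y ∈ p.sub X'.1 X'.2) :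
    box y (70 * p.u) ⊆ box (xX p.A X) (6 * p.A) := by
  apply box_sub
  have h1 := sub_near hG hy
  have h2 := nrm_tri y (xX p.A X') (xX p.A X)
  have h3 : 8 * nrm (y - xX p.A X') ≤ p.A := h1
  have h4 : (4000 : ℤ) * p.u ≤ p.A := by
    unfold Par.A
    push_cast
    have : (4000 : ℤ) ≤ p.A1 := by exact_mod_cast hG.big
    have : (0 : ℤ) ≤ p.u := by positivity
    nlinarith
  have h5 : (0 : ℤ) ≤ p.u := by positivity
  push_cast
  linarith

theorem mem_nxt {J m m' : ℕ} : m' ∈ nxt J m ↔ (m / J + 1) * J ≤ m' ∧ m' < (m / J + 2) * J := by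
  unfold nxt
  exact Finset.mem_Ico

theorem div_of {J m a : ℕ} (h1 : a * J ≤ m) (h2 : m < (a + 1) * J) :
    m / J = a := by
  apply Nat.div_eq_of_lt_le h1
  exact h2

theorem nice_X {a δ Λ : ℝ} (L : MarkLaw q H a δ Λ) (lam : ℝ≥0) (ρ : ℝ) {p : Par}
    (hG : Geo p.A1 p.Y) (hu : 1 ≤ p.u) (uh : ℝ) {X X' : ℕ × ℤ}
    (hX : nrm (xX p.A X' - xX p.A X) ≤ p.A) {ω ω' : Conf q H}
    (hA : AgX p X ω ω') (hH : (X.1 + 3) * p.J + 1 ≤ H) {m b : ℕ} (hb : X.1 ≤ b) (hb' : b ≤ X.1 + 1)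
    (h1 : b * p.J ≤ m) (h2 : m < (b + 1) * p.J) {y : Site} (hy : y ∈ p.sub X'.1 X'.2) :
    niceE L lam ρ p.u p.J uh ω m y ↔ niceE L lam ρ p.u p.J uh ω' m y := by
  apply niceE_congr
  intro m' hm'
  rw [mem_nxt, div_of h1 h2] at hm'
  have a1 : X.1 * p.J ≤ (b + 1) * p.J := Nat.mul_le_mul_right _ (by omega)
  have a2 : (b + 2) * p.J ≤ (X.1 + 3) * p.J := Nat.mul_le_mul_right _ (by omega)
  have h3 := hA m' (by omega) (by omega) (by omega)
  refine h3.mono ((box_sub ?_).trans (sub_box hG hX hy))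
  have : nrm (y - y) = 0 := by simp [nrm]
  rw [this]; push_cast
  have hu' : (1 : ℤ) ≤ p.u := by exact_mod_cast hu
  linarith

theorem NNE_X {a δ Λ : ℝ} (L : MarkLaw q H a δ Λ) (lam : ℝ≥0) {ρ : ℝ} (hq : 20 * (ρ + 2) ≤ q)
    (hρ : 0 ≤ ρ) {p : Par} (hG : Geo p.A1 p.Y) (hu : 1 ≤ p.u) (uh : ℝ) {X X' : ℕ × ℤ}
    (hX : nrm (xX p.A X' - xX p.A X) ≤ p.A) {ω ω' : Conf q H}
    (hA : AgX p X ω ω') (hH : (X.1 + 3) * p.J + 1 ≤ H) {m b : ℕ} (hb : X.1 ≤ b) (hb' : b ≤ X.1 + 1)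
    (h1 : b * p.J ≤ m) (h2 : m < (b + 1) * p.J) :
    NNE L lam ρ p uh ω m X' ↔ NNE L lam ρ p uh ω' m X' := by
  unfold NNE
  refine exists_congr fun y => and_congr_right fun hy => ?_
  have a1 : X.1 * p.J ≤ b * p.J := Nat.mul_le_mul_right _ hb
  have a2 : (b + 1) * p.J ≤ (X.1 + 3) * p.J := Nat.mul_le_mul_right _ (by omega)
  have h3 := (hA m (by omega) (by omega) (by omega)).mono (sub_box hG hX hy)
  refine and_congr (nice_X L lam ρ hG hu uh hX hA hH hb hb' h1 h2 hy)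
    (and_congr (ring_congr hq hρ hu h3) ?_)
  exact VE_congr hq hρ hu (et_congr (NeZero.pos q) h3)

theorem SuccE_X {a δ Λ : ℝ} (L : MarkLaw q H a δ Λ) (lam : ℝ≥0) {ρ : ℝ} (hq : 20 * (ρ + 2) ≤ q)
    (hρ : 0 ≤ ρ) {p : Par} (hG : Geo p.A1 p.Y) (hu : 1 ≤ p.u) (uh : ℝ) {X : ℕ × ℤ}
    {ω ω' : Conf q H} (hA : AgX p X ω ω') (hH : (X.1 + 3) * p.J + 1 ≤ H) {m m' : ℕ}
    (h1 : (X.1 + 1) * p.J ≤ m') (h2 : m' < (X.1 + 1 + 1) * p.J) {y : Site}
    (hy : y ∈ p.sub X.1 X.2) {d : ℤ} (hd : |d| ≤ 1) :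
    SuccE L lam ρ p uh ω m m' y (X.1 + 1, X.2 + d) ↔
      SuccE L lam ρ p uh ω' m m' y (X.1 + 1, X.2 + d) := by
  have hX : nrm (xX p.A (X.1 + 1, X.2 + d) - xX p.A X) ≤ p.A := by
    apply xX_near
    · simp
    · show X.1 ≤ X.1 + 1 + 1
      omega
    · simpa using hd
  have hX0 : nrm (xX p.A X - xX p.A X) ≤ p.A := by
    have : nrm (xX p.A X - xX p.A X) = 0 := by simp [nrm]
    rw [this]; positivity
  have hA1 : 1 ≤ p.A := by
    unfold Par.A
    have := hG.big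
    exact Nat.mul_pos (by omega) hu
  have a1 : X.1 * p.J ≤ (X.1 + 1) * p.J := Nat.mul_le_mul_right _ (by omega)
  have a2 : (X.1 + 1 + 1) * p.J ≤ (X.1 + 3) * p.J := Nat.mul_le_mul_right _ (by omega)
  have h3 := hA m' (by omega) (by omega) (by omega)
  unfold SuccE
  refine and_congr (HatE_congr hq hρ m m' hu (h3.mono (sub_box hG hX0 hy)))
    (and_congr (WWE_congr hq hρ hA1 hX h3) ?_)
  exact NNE_X L lam hq hρ hG hu uh hX hA hH (by omega) le_rfl h1 h2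

open Classical in
theorem FFE_X {a δ Λ : ℝ} (L : MarkLaw q H a δ Λ) (lam : ℝ≥0) {ρ : ℝ} (hq : 20 * (ρ + 2) ≤ q)
    (hρ : 0 ≤ ρ) {p : Par} (hG : Geo p.A1 p.Y) (hu : 1 ≤ p.u) (uh τ : ℝ) {X : ℕ × ℤ}
    {ω ω' : Conf q H} (hA : AgX p X ω ω') (hH : (X.1 + 3) * p.J + 1 ≤ H) {m : ℕ}
    (h1 : X.1 * p.J ≤ m) (h2 : m < (X.1 + 1) * p.J) :
    FFE L lam ρ p uh τ ω m X ↔ FFE L lam ρ p uh τ ω' m X := by
  have hX0 : nrm (xX p.A X - xX p.A X) ≤ p.A := by
    have : nrm (xX p.A X - xX p.A X) = 0 := by simp [nrm]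
    rw [this]; positivity
  unfold FFE
  refine forall_congr' fun d => forall_congr' fun hd => forall_congr' fun y =>
    forall_congr' fun hy => ?_
  refine imp_congr (nice_X L lam ρ hG hu uh hX0 hA hH le_rfl (by omega) h1 h2 hy) ?_
  have e : (nxt p.J m).filter (fun m' => SuccE L lam ρ p uh ω m m' y (X.1 + 1, X.2 + d)) =
      (nxt p.J m).filter (fun m' => SuccE L lam ρ p uh ω' m m' y (X.1 + 1, X.2 + d)) := by
    apply Finset.filter_congr
    intro m' hm'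
    rw [mem_nxt, div_of h1 h2] at hm'
    exact SuccE_X L lam hq hρ hG hu uh hA hH hm'.1 hm'.2 hy hd
  rw [e]

omit [NeZero q] in
theorem NWE_X {p : Par} {X : ℕ × ℤ} {ω ω' : Conf q H}
    (h : ∀ θ ∈ {θ : FMark q H | θ.1 ∈ Infl q H p.A p.J X}, ω θ = ω' θ) :
    NWE ω p X ↔ NWE ω' p X := by
  unfold NWE
  refine forall_congr' fun θ => ?_
  constructor
  · intro hh h0 hI
    exact hh (by rw [h θ hI]; exact h0) hI
  · intro hh h0 hI
    exact hh (by rw [← h θ hI]; exact h0) hI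

open Classical in
theorem dep_good {a δ Λ : ℝ} (L : MarkLaw q H a δ Λ) (lam : ℝ≥0) {ρ : ℝ} (hq : 20 * (ρ + 2) ≤ q)
    (hρ : 0 ≤ ρ) {p : Par} (hG : Geo p.A1 p.Y) (hu : 1 ≤ p.u) (uh τ : ℝ) {X : ℕ × ℤ}
    (hH : (X.1 + 3) * p.J + 1 ≤ H) :
    DepOn {θ : FMark q H | θ.1 ∈ Infl q H p.A p.J X} {ω : Conf q H | GOODE L lam ρ p uh τ ω X} := by
  intro ω ω' h
  have hA := AgX_of h
  have hX0 : nrm (xX p.A X - xX p.A X) ≤ p.A := by
    have : nrm (xX p.A X - xX p.A X) = 0 := by simp [nrm]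
    rw [this]; positivity
  have hA1 : 1 ≤ p.A := by
    unfold Par.A
    have := hG.big
    exact Nat.mul_pos (by omega) hu
  show GOODE L lam ρ p uh τ ω X ↔ GOODE L lam ρ p uh τ ω' X
  unfold GOODE
  refine and_congr (NWE_X h) ?_
  have e : (Finset.Ico (X.1 * p.J) ((X.1 + 1) * p.J)).filter (fun m =>
      WWE ρ q (et ω m) p X ∧ ¬ FFE L lam ρ p uh τ ω m X) =
      (Finset.Ico (X.1 * p.J) ((X.1 + 1) * p.J)).filter (fun m =>
      WWE ρ q (et ω' m) p X ∧ ¬ FFE L lam ρ p uh τ ω' m X) := by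
    apply Finset.filter_congr
    intro m hm
    rw [Finset.mem_Ico] at hm
    have a2 : (X.1 + 1) * p.J ≤ (X.1 + 3) * p.J := Nat.mul_le_mul_right _ (by omega)
    have h3 := hA m (by omega) (by omega) (by omega)
    exact and_congr (WWE_congr hq hρ hA1 hX0 h3)
      (not_congr (FFE_X L lam hq hρ hG hu uh τ hA hH hm.1 hm.2))
  rw [e]

open Classical in
theorem dep_occ {a δ Λ : ℝ} (L : MarkLaw q H a δ Λ) (lam : ℝ≥0) {ρ : ℝ} (hq : 20 * (ρ + 2) ≤ q)
    (hρ : 0 ≤ ρ) {p : Par} (hG : Geo p.A1 p.Y) (hu : 1 ≤ p.u) (uh τ : ℝ) {X : ℕ × ℤ}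
    (hH : (X.1 + 3) * p.J + 1 ≤ H) (hX : X.1 = 0) :
    DepOn {θ : FMark q H | θ.1 ∈ Infl q H p.A p.J X} {ω : Conf q H | OCC0 L lam ρ p uh τ ω X} := by
  intro ω ω' h
  have hA := AgX_of h
  have hX0 : nrm (xX p.A X - xX p.A X) ≤ p.A := by
    have : nrm (xX p.A X - xX p.A X) = 0 := by simp [nrm]
    rw [this]; positivity
  have hA1 : 1 ≤ p.A := by
    unfold Par.A
    have := hG.big
    exact Nat.mul_pos (by omega) hu
  show OCC0 L lam ρ p uh τ ω X ↔ OCC0 L lam ρ p uh τ ω' X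
  unfold OCC0
  have e : (Finset.Ico 0 p.J).filter (fun m =>
      WWE ρ q (et ω m) p X ∧ NNE L lam ρ p uh ω m X) =
      (Finset.Ico 0 p.J).filter (fun m =>
      WWE ρ q (et ω' m) p X ∧ NNE L lam ρ p uh ω' m X) := by
    apply Finset.filter_congr
    intro m hm
    rw [Finset.mem_Ico] at hm
    have h2 : m < (X.1 + 1) * p.J := by rw [hX]; omega
    have h1 : X.1 * p.J ≤ m := by rw [hX]; omega
    have a2 : (X.1 + 1) * p.J ≤ (X.1 + 3) * p.J := Nat.mul_le_mul_right _ (by omega)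
    have h3 := hA m (by omega) (by omega) (by omega)
    exact and_congr (WWE_congr hq hρ hA1 hX0 h3)
      (NNE_X L lam hq hρ hG hu uh hX0 hA hH le_rfl (by omega) h1 h2)
  rw [e]

/-! ### measurability -/

instance : Countable (CMark q H) := by
  have hinj : Function.Injective
      (fun ξ : CMark q H => ((ξ.c, ξ.g, ξ.b, ξ.r) :
        (Fin (H + 1) → Site) × (Fin H → Bool) × (Fin H → ℕ) × (Fin (H + 1) → Fin q × Fin q))) := by
    rintro ⟨c, g, b, r⟩ ⟨c', g', b', r'⟩ h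
    simp only [Prod.mk.injEq] at h
    obtain ⟨rfl, rfl, rfl, rfl⟩ := h
    rfl
  exact hinj.countable

theorem meas_card {Ω : Type} [MeasurableSpace Ω] (s : Finset ℕ) (P : ℕ → Ω → Prop)
    [∀ ω, DecidablePred fun m => P m ω] (h : ∀ m, MeasurableSet {ω | P m ω}) :
    Measurable fun ω => ((s.filter fun m => P m ω).card : ℝ) := by
  have e : (fun ω => ((s.filter fun m => P m ω).card : ℝ)) =
      fun ω => ∑ m ∈ s, ({ω | P m ω}.indicator (fun _ => (1 : ℝ)) ω) := by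
    funext ω
    rw [Finset.card_filter]
    push_cast
    refine Finset.sum_congr rfl fun m _ => ?_
    simp only [indicator, mem_ofPred_eq]
  rw [e]
  exact Finset.measurable_sum s fun m _ => measurable_const.indicator (h m)

end DEPG

open DEPG in
theorem stmt_DEPG (hM : Stmt_MEASE) : Stmt_DEPG := by
  intro q H _ a δ Λ L lam ρ p uh τ X hρ hq hJ hu hG hH
  have hu1 : 1 ≤ p.u := by omega
  have mW : ∀ (m : ℕ) (X' : ℕ × ℤ), MeasurableSet {ω : Conf q H | WWE ρ q (et ω m) p X'} :=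
    fun m X' => (hM q H a δ Λ L lam ρ p uh m m 0 X').2.2.1.1
  have mN : ∀ (m : ℕ) (X' : ℕ × ℤ), MeasurableSet {ω : Conf q H | NNE L lam ρ p uh ω m X'} :=
    fun m X' => (hM q H a δ Λ L lam ρ p uh m m 0 X').2.2.2.1.1
  have mH : ∀ (m m' : ℕ) (y : Site), MeasurableSet {ω : Conf q H | HatE ρ ω m m' y p.u} :=
    fun m m' y => (hM q H a δ Λ L lam ρ p uh m m' y X).1.1
  have mI : ∀ (m : ℕ) (y : Site),
      MeasurableSet {ω : Conf q H | niceE L lam ρ p.u p.J uh ω m y} :=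
    fun m y => (hM q H a δ Λ L lam ρ p uh m m y X).2.1.1
  have mS : ∀ (m m' : ℕ) (y : Site) (X' : ℕ × ℤ),
      MeasurableSet {ω : Conf q H | SuccE L lam ρ p uh ω m m' y X'} := by
    intro m m' y X'
    have : {ω : Conf q H | SuccE L lam ρ p uh ω m m' y X'} =
        {ω : Conf q H | HatE ρ ω m m' y p.u} ∩ ({ω : Conf q H | WWE ρ q (et ω m') p X'} ∩
          {ω : Conf q H | NNE L lam ρ p uh ω m' X'}) := by
      ext ω
      rfl
    rw [this]
    exact (mH m m' y).inter ((mW m' X').inter (mN m' X'))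
  have mF : ∀ (m : ℕ), MeasurableSet {ω : Conf q H | FFE L lam ρ p uh τ ω m X} := by
    intro m
    classical
    rw [measurableSet_setOf]
    unfold FFE
    refine Measurable.forall fun d => Measurable.imp measurable_const ?_
    refine Measurable.forall fun y => Measurable.imp measurable_const ?_
    refine Measurable.imp (measurableSet_setOf.1 (mI m y)) ?_
    refine measurableSet_setOf.1 ?_
    exact measurableSet_le measurable_const
      (meas_card (nxt p.J m) (fun m' ω => SuccE L lam ρ p uh ω m m' y (X.1 + 1, X.2 + d))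
        fun m' => mS m m' y _)
  have mNW : MeasurableSet {ω : Conf q H | NWE ω p X} := by
    rw [measurableSet_setOf]
    unfold NWE
    refine Measurable.forall fun θ => ?_
    refine Measurable.imp ?_ measurable_const
    refine measurableSet_setOf.1 ?_
    have : {ω : Conf q H | ω θ ≠ 0} = (fun ω : Conf q H => ω θ) ⁻¹' {0}ᶜ := rfl
    rw [this]
    exact (measurable_pi_apply θ) (MeasurableSet.singleton _).compl
  refine ⟨?_, dep_good L lam hq hρ hG hu1 uh τ hH, fun hX => ⟨?_, dep_occ L lam hq hρ hG hu1 uh τ hH hX⟩⟩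
  · classical
    have : {ω : Conf q H | GOODE L lam ρ p uh τ ω X} = {ω : Conf q H | NWE ω p X} ∩
        {ω : Conf q H | (((Finset.Ico (X.1 * p.J) ((X.1 + 1) * p.J)).filter fun m =>
          WWE ρ q (et ω m) p X ∧ ¬ FFE L lam ρ p uh τ ω m X).card : ℝ) ≤ τ * p.J / 2} := by
      ext ω
      exact Iff.rfl
    rw [this]
    refine mNW.inter (measurableSet_le ?_ measurable_const)
    exact meas_card _ (fun m ω => WWE ρ q (et ω m) p X ∧ ¬ FFE L lam ρ p uh τ ω m X)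
      fun m => (mW m X).inter (mF m).compl
  · classical
    have := meas_card (Finset.Ico 0 p.J) (fun m (ω : Conf q H) =>
      WWE ρ q (et ω m) p X ∧ NNE L lam ρ p uh ω m X) fun m => (mW m X).inter (mN m X)
    exact measurableSet_le measurable_const this

end MPdd5692
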