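import Pool.Agent.Work.MP_dd5692_pr.Planar

/-!
# MP_dd5692_pr, d = 2, part (A): the static model (definitions)
-/

set_option autoImplicit false

namespace Pool.Det5

open MeasureTheory MPdd5692
open scoped ENNReal

/-- a configuration of closed cells: `true` = the cell contains a particle -/
abbrev Cfg := Site → Bool

/-! ### the random field -/

/-- `true` with probability `q` -/
noncomputable def bern (q : unitInterval) : Measure Bool :=
  ENNReal.ofReal (q : ℝ) • Measure.dirac true + ENNReal.ofReal (1 - (q : ℝ)) • Measure.dirac false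

instance (q : unitInterval) : IsProbabilityMeasure (bern q) := by
  constructor
  unfold bern
  simp only [Measure.coe_add, Measure.coe_smul, Pi.add_apply, Pi.smul_apply, measure_univ,
    smul_eq_mul, mul_one]
  rw [← ENNReal.ofReal_add q.2.1 (by linarith [q.2.2])]
  simp

/-- independent cells, closed with probability `q` -/
noncomputable def mu (q : unitInterval) : Measure Cfg :=
  Measure.infinitePi (fun _ : Site => bern q)

instance (q : unitInterval) : IsProbabilityMeasure (mu q) := by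
  unfold mu
  infer_instance

/-- the shape of the set of cells which have to be open for a site to be vacant -/
structure Shape where
  /-- the finite set of cells (relative to the site) -/
  K : Finset Site
  /-- outer radius -/
  ρ : ℕ
  /-- inner radius -/
  ρ0 : ℕ
  pos : 1 ≤ ρ0
  le : ρ ≤ 2 * ρ0
  inner : ∀ z : Site, |z.1| ≤ (ρ0 : ℤ) → |z.2| ≤ (ρ0 : ℤ) → z ∈ K
  outer : ∀ z ∈ K, |z.1| ≤ (ρ : ℤ) ∧ |z.2| ≤ (ρ : ℤ)
  solid : ∀ z ∈ K, ∀ w : Site, |w.1| ≤ |z.1| → |w.2| ≤ |z.2| → w ∈ K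
  swap : ∀ z ∈ K, ((z.2, z.1) : Site) ∈ K

/-- the set of vacant sites -/
def vac (S : Shape) (ω : Cfg) : Set Site := {z | ∀ k ∈ S.K, ω (z + k) = false}

/-- probability of a property of the vacant set -/
noncomputable def pr (S : Shape) (q : unitInterval) (P : Set Site → Prop) : ℝ :=
  (mu q).real {ω | P (vac S ω)}

/-- probability of a vacant crossing of distance `d` in width `w` -/
noncomputable def f (S : Shape) (q : unitInterval) (d w : ℤ) : ℝ :=
  pr S q (fun W => HC Adj4 W 0 d 0 w)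

/-! ### kinds of events -/

/-- the event depends only on the cells of `D` -/
def Dep (D : Set Site) (E : Set Cfg) : Prop :=
  ∀ ω ω' : Cfg, (∀ z ∈ D, ω z = ω' z) → (ω ∈ E ↔ ω' ∈ E)

/-- the event is increasing in vacancy (decreasing in the set of closed cells) -/
def VInc (E : Set Cfg) : Prop :=
  ∀ ω ω' : Cfg, (∀ z, ω' z = true → ω z = true) → ω ∈ E → ω' ∈ E

/-- increasing property of the vacant set -/
def Mono (P : Set Site → Prop) : Prop := ∀ W W' : Set Site, W ⊆ W' → P W → P W'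

/-- decreasing property of the vacant set -/
def Anti (P : Set Site → Prop) : Prop := ∀ W W' : Set Site, W ⊆ W' → P W' → P W

/-- the property depends only on the vacant sites in `B` -/
def Loc (B : Set Site) (P : Set Site → Prop) : Prop :=
  ∀ W W' : Set Site, W ∩ B = W' ∩ B → (P W ↔ P W')

/-- the property depends only on the vacant sites in some finite set -/
def LocF (P : Set Site → Prop) : Prop := ∃ B : Set Site, B.Finite ∧ Loc B P

open Classical in
/-- the configuration equal to `ω` on `D` and to `ω'` off `D` -/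
noncomputable def mix (D : Set Site) (ω ω' : Cfg) : Cfg := fun z => if z ∈ D then ω z else ω' z

/-- symmetries of the mesh: bijections which are coordinatewise isometries up to an exchange of the
coordinates (translations, reflections, `swp`, ...) -/
def IsSym (g : Site ≃ Site) : Prop := ∀ z w : Site,
  (|(g z).1 - (g w).1| = |z.1 - w.1| ∧ |(g z).2 - (g w).2| = |z.2 - w.2|) ∨
  (|(g z).1 - (g w).1| = |z.2 - w.2| ∧ |(g z).2 - (g w).2| = |z.1 - w.1|)

/-! ### criticality -/

/-- **What part (A) assumes**: `c1` = lower bound for easy crossings of both colours at the scales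
`n` which are multiples of the unit `g`, from `n1` to `N` (mesh units).
`cb` = lower bound for the probability that about `30 ρ²` cells are open, `cr` = lower bound for
the probability that each of 8 blocks of side `ρ0 + 1` contains a closed cell. -/
structure Good (S : Shape) (q : unitInterval) (c1 cb cr : ℝ) (g n1 N : ℤ) : Prop where
  c1pos : 0 < c1
  cbpos : 0 < cb
  crpos : 0 < cr
  c1le : c1 ≤ 1
  hcb : cb ≤ (1 - (q : ℝ)) ^ (30 * S.ρ ^ 2)
  hcr : cr ≤ (1 - (1 - (q : ℝ)) ^ ((S.ρ0 + 1) ^ 2)) ^ 8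
  gpos : 1 ≤ g
  hg : 100 * g ≤ n1
  hn1 : 100 * (2 * (S.ρ : ℤ) + 1) ≤ n1
  Ev : ∀ k : ℤ, n1 ≤ g * k → g * k ≤ N → c1 ≤ f S q (g * k) (3 * (g * k))
  Eo : ∀ k : ℤ, n1 ≤ g * k → g * k ≤ N → f S q (3 * (g * k)) (g * k) ≤ 1 - c1

/-! ### the bridge construction (see PARTA80.md, section BR) -/

section Bridge

/-- height of the large box: `H = 2h + b`, `b = 2ρ + 1` -/
def HH (ρ : ℕ) (h : ℤ) : ℤ := 2 * h + 2 * ρ + 1

/-- reflection in the horizontal line of height `H/2` -/
def flp (ρ : ℕ) (h : ℤ) (z : Site) : Site := (z.1, HH ρ h - z.2)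

/-- `u` explored set of the small box `[0,w] × [0,h]`, `P` a 4-connected set of sites of its left
boundary from row `0` to row `h` which has only the site `(e,h)` in row `h` -/
structure IsPi (w h : ℤ) (u P : Set Site) (e : ℤ) : Prop where
  sub : P ⊆ bdL u 0 w 0 h
  foot : ∃ x : ℤ, ((x, 0) : Site) ∈ P
  top : ((e, h) : Site) ∈ P
  uniq : ∀ z ∈ P, z.2 = h → z.1 = e
  conn : ∀ z ∈ P, Linked Adj4 P (e, h) z

/-- the curve `P ∪ bridge ∪ mirror image of P` -/
def curve (ρ : ℕ) (h : ℤ) (P : Set Site) (e : ℤ) : Set Site :=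
  {z | z ∈ P ∨ (z.1 = e ∧ h < z.2 ∧ z.2 < h + 2 * ρ + 1) ∨ flp ρ h z ∈ P}

/-- the box to the right of the bridge (bridge included) -/
def ZZ (ρ : ℕ) (h e : ℤ) : Set Site := Box e (e + ρ) (h + 1) (h + 2 * ρ)

/-- sites of `X` in `R ∖ (curve ∪ Z)` joined there to the right column `m` of `R = [0,m] × [0,H]` -/
def Fr (ρ : ℕ) (h m : ℤ) (P : Set Site) (e : ℤ) (X : Set Site) : Set Site :=
  {z | ∃ y : ℤ,
    Linked Adj4 (X ∩ (Box 0 m 0 (HH ρ h) \ (curve ρ h P e ∪ ZZ ρ h e))) (m, y) z}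

/-- ... reaching a neighbour of `P` -/
def F1 (ρ : ℕ) (h m : ℤ) (P : Set Site) (e : ℤ) (X : Set Site) : Prop :=
  ∃ z ∈ Fr ρ h m P e X, ∃ p ∈ P, Adj4 z p

/-- ... reaching a neighbour of `Z` -/
def F2 (ρ : ℕ) (h m : ℤ) (P : Set Site) (e : ℤ) (X : Set Site) : Prop :=
  ∃ z ∈ Fr ρ h m P e X, ∃ p ∈ ZZ ρ h e, Adj4 z p

/-- ... reaching a neighbour of the mirror image of `P` -/
def F3 (ρ : ℕ) (h m : ℤ) (P : Set Site) (e : ℤ) (X : Set Site) : Prop :=
  ∃ z ∈ Fr ρ h m P e X, ∃ p : Site, flp ρ h p ∈ P ∧ Adj4 z p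

/-- the cells around the bridge are open -/
def CLR (ρ : ℕ) (h e : ℤ) : Set Cfg :=
  {ω | ∀ z ∈ Box (e - ρ) (e + 2 * ρ + 1) (h - ρ) (h + 3 * ρ + 1), ω z = false}

/-- the sites next to `Z` above, below and to the right are not vacant -/
def OO (ρ : ℕ) (h e : ℤ) (X : Set Site) : Prop :=
  ∀ z : Site, (((z.2 = h ∨ z.2 = h + 2 * ρ + 1) ∧ e ≤ z.1 ∧ z.1 ≤ e + ρ) ∨
    (z.1 = e + ρ + 1 ∧ h + 1 ≤ z.2 ∧ z.2 ≤ h + 2 * ρ)) → z ∉ X

/-- the event `Y`: a bottom-top crossing of `[0,w] × [0,h]` whose foot is joined in `[0,m] × [0,H]`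
to the right column -/
def YY (w h m H : ℤ) (W : Set Site) : Prop := ∃ x x' y : ℤ,
  Linked Adj4 (W ∩ Box 0 w 0 h) (x, 0) (x', h) ∧ Linked Adj4 (W ∩ Box 0 m 0 H) (x, 0) (m, y)

/-- the mirror image of `Y` in `[x0, x0 + w] × [0,h]`, `[x0 + w - m, x0 + w] × [0,H]` -/
def YS (w h m H x0 : ℤ) (W : Set Site) : Prop := ∃ x x' y : ℤ,
  Linked Adj4 (W ∩ Box x0 (x0 + w) 0 h) (x, 0) (x', h) ∧
  Linked Adj4 (W ∩ Box (x0 + w - m) (x0 + w) 0 H) (x, 0) (x0 + w - m, y)

/-- the explored set of the box `[0,w] × [0,h]`: non-vacant sites joined to the left column -/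
def expl (S : Shape) (w h : ℤ) (ω : Cfg) : Set Site :=
  {z | ∃ y : ℤ, Linked Adj8 ((vac S ω)ᶜ ∩ Box 0 w 0 h) (0, y) z}

/-- the cells which decide whether `expl = u` -/
def DD (S : Shape) (w h : ℤ) (u : Set Site) : Set Site :=
  {y | ∃ z ∈ u ∪ bdL u 0 w 0 h, ∃ k ∈ S.K, y = z + k}

/-- every site of `u` is joined in `u` to the left column -/
def Rooted (u : Set Site) : Prop := ∀ s ∈ u, ∃ y : ℤ, Linked Adj8 u (0, y) s

end Bridge

/-! ### annuli, arms -/

/-- the four rectangles between `[a,b] × [c,d]` and its `t`-neighbourhood have long vacant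
crossings -/
def Circ (a b c d t : ℤ) (W : Set Site) : Prop :=
  HC Adj4 W (a - t) (b + t) (c - t) c ∧ HC Adj4 W (a - t) (b + t) d (d + t) ∧
  VC Adj4 W (a - t) a (c - t) (d + t) ∧ VC Adj4 W b (b + t) (c - t) (d + t)

/-- the four rectangles have no short vacant crossings -/
def NoX (a b c d t : ℤ) (W : Set Site) : Prop :=
  ¬ VC Adj4 W (a - t) (b + t) (c - t) c ∧ ¬ VC Adj4 W (a - t) (b + t) d (d + t) ∧
  ¬ HC Adj4 W (a - t) a (c - t) (d + t) ∧ ¬ HC Adj4 W b (b + t) (c - t) (d + t)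

/-- the ring covered by the four rectangles -/
def Ring (a b c d t : ℤ) : Set Site :=
  {z | z ∈ Box (a - t) (b + t) (c - t) (d + t) ∧ (z.1 ≤ a ∨ b ≤ z.1 ∨ z.2 ≤ c ∨ d ≤ z.2)}

/-- vacant arm from the box of half side `a` around `0` to the outside of the box of half side `b` -/
def arm (a b : ℤ) (W : Set Site) : Prop :=
  ∃ u ∈ Bx 0 a, ∃ v, v ∉ Bx 0 b ∧ Linked Adj4 W u v

/-- one-arm probability -/
noncomputable def al (S : Shape) (q : unitInterval) (a b : ℤ) : ℝ := pr S q (arm a b)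

/-- half circuit above row `0` around `(x,0)`: the three rectangles of the half ring between
`[x-a,x+a] × [0,a]` and `[x-2a,x+2a] × [0,2a]` have long vacant crossings -/
def Half (x a : ℤ) (W : Set Site) : Prop :=
  VC Adj4 W (x - 2 * a) (x - a) 0 (2 * a) ∧ VC Adj4 W (x + a) (x + 2 * a) 0 (2 * a) ∧
  HC Adj4 W (x - 2 * a) (x + 2 * a) a (2 * a)

end Pool.Det5
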