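import Pool.Agent.Work.MP_dd5692_pr.POT

/-! # MP_dd5692_pr: EB4 (the outer boundary of an 8-connected set is 4-connected) -/

set_option autoImplicit false

namespace MPdd5692

theorem blk_EB4 : Stmt_PEB4 := by
  intro A x0 hA t ht t' ht'
  by_contra hno
  set E1 : Set Site := {z | Linked Adj4 (extB4 A x0) t z} with hE1
  have hE1A : ∀ z ∈ E1, z ∉ A := fun z hz => hz.right.1.right
  -- a neighbour of `E1` which is 8-adjacent to `A` is in `A` or in `E1`
  have step : ∀ z w s : Site, z ∈ E1 → Adj4 z w → s ∈ A → (Adj8 s w ∨ s = w) → w ∈ A ∨ w ∈ E1 := by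
    intro z w s hz hzw hs hsw
    by_cases hwA : w ∈ A
    · exact Or.inl hwA
    · right
      rcases hsw with hsw | rfl
      · exact Linked.step hz hzw ⟨hz.right.1.step hzw hwA, s, hs, hsw⟩
      · exact absurd hs hwA
  obtain ⟨n, hn⟩ := exists_pot (cutf A E1) (cutf_symm A E1) (by
    intro x y
    apply cut_sq4 hE1A
    intro hs
    have a01 : Adj4 (x, y) (x + 1, y) := by rw [adj4_iff]; simp
    have a12 : Adj4 (x + 1, y) (x + 1, y + 1) := by rw [adj4_iff]; simp
    have a32 : Adj4 (x, y + 1) (x + 1, y + 1) := by rw [adj4_iff]; simp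
    have a03 : Adj4 (x, y) (x, y + 1) := by rw [adj4_iff]; simp
    have main : ∀ p q : Site, (x ≤ q.1 ∧ q.1 ≤ x + 1 ∧ y ≤ q.2 ∧ q.2 ≤ y + 1) → Adj4 p q → p ∈ E1 →
          q ∈ A ∨ q ∈ E1 := by
      intro p q hq hpq hp
      rcases hs with hs | hs | hs | hs
      · exact step p q _ hp hpq hs (sq_adj (by simp) hq)
      · exact step p q _ hp hpq hs (sq_adj (by simp) hq)
      · exact step p q _ hp hpq hs (sq_adj (by simp) hq)
      · exact step p q _ hp hpq hs (sq_adj (by simp) hq)
    exact ⟨fun h => ⟨main _ _ (by simp) a01 h, main _ _ (by simp) a03 h⟩,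
      fun h => ⟨main _ _ (by simp) a01.symm h, main _ _ (by simp) a12 h⟩,
      fun h => ⟨main _ _ (by simp) a12.symm h, main _ _ (by simp) a32.symm h⟩,
      fun h => ⟨main _ _ (by simp) a03.symm h, main _ _ (by simp) a32 h⟩⟩)
  have hzero : ∀ a b : ZMod 2, a + b = 0 → a = b := fun a b h => CharTwo.add_eq_zero.1 h
  -- constant off `A` along 4-paths
  have nC : ∀ z w : Site, z ∈ Aᶜ → w ∈ Aᶜ → Adj4 z w → n z = n w := by
    intro z w hz hw hzw
    apply hzero
    rw [hn z w hzw]
    exact cutf_zero (fun h => hz h.1) (fun h => hw h.1)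
  -- constant on `A`
  have nA4 : ∀ z w : Site, z ∈ A → w ∈ A → Adj4 z w → n z = n w := by
    intro z w hz hw hzw
    apply hzero
    rw [hn z w hzw]
    exact cutf_zero (fun h => hE1A _ h.2 hw) (fun h => hE1A _ h.2 hz)
  have nA : ∀ z w : Site, z ∈ A → w ∈ A → Adj8 z w → n z = n w := by
    intro z w hz hw hzw
    rcases adj8_cases hzw with h4 | ⟨h1, h2, -, -, -⟩
    · exact nA4 z w hz hw h4
    · by_cases hm : (z.1, w.2) ∈ A
      · exact (nA4 _ _ hz hm h1).trans (nA4 _ _ hm hw h2)
      · by_cases hme : ((z.1, w.2) : Site) ∈ E1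
        · have e1 := hn _ _ h1
          have e2 := hn _ _ h2
          rw [cutf_one hz hme] at e1
          rw [cutf_symm, cutf_one hw hme] at e2
          have : n z + n w = 0 := by
            calc n z + n w = (n z + n (z.1, w.2)) + (n (z.1, w.2) + n w) := by
                  rw [show (n z + n (z.1, w.2)) + (n (z.1, w.2) + n w) =
                    n z + n w + (n (z.1, w.2) + n (z.1, w.2)) by ring, zmod2_add_self, add_zero]
              _ = 0 := by rw [e1, e2]; decide
          exact hzero _ _ this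
        · have e1 := hn _ _ h1
          have e2 := hn _ _ h2
          rw [cutf_zero (fun h => hme h.2) (fun h => hm h.1)] at e1
          rw [cutf_zero (fun h => hm h.1) (fun h => hme h.2)] at e2
          exact (hzero _ _ e1).trans (hzero _ _ e2)
  -- a site of the boundary 4-adjacent to `A`, in the same 4-component of the boundary
  have near : ∀ z : Site, z ∈ extB4 A x0 → ∃ s w : Site, s ∈ A ∧ Adj4 s w ∧ Linked Adj4 (extB4 A x0) z w := by
    rintro z ⟨hz, s, hs, hsz⟩
    rcases adj8_cases hsz with h4 | ⟨h1, h2, -, -, -⟩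
    · exact ⟨s, z, hs, h4, Linked.refl ⟨hz, s, hs, hsz⟩⟩
    · by_cases hm : ((s.1, z.2) : Site) ∈ A
      · exact ⟨_, z, hm, h2, Linked.refl ⟨hz, s, hs, hsz⟩⟩
      · exact ⟨s, (s.1, z.2), hs, h1, Linked.single ⟨hz, s, hs, hsz⟩
          ⟨hz.step h2.symm hm, s, hs, h1.adj8⟩ h2.symm⟩
  obtain ⟨s, w, hs, hsw, hw⟩ := near t ht
  obtain ⟨s', w', hs', hsw', hw'⟩ := near t' ht'
  have e1 := hn s w hsw
  have e2 := hn s' w' hsw'
  rw [cutf_one hs hw] at e1
  rw [cutf_zero (fun h => hno (Linked.trans h.2 hw'.symm4)) (fun h => hw'.right.1.right h.1)] at e2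
  have c1 : n s = n s' := (hA s hs s' hs').const n nA
  have c2 : n w = n w' := ((hw.right.1.symm4).trans hw'.right.1).const n nC
  rw [c1, c2, e2] at e1
  exact absurd e1 (by decide)

end MPdd5692
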