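import Pool.Agent.Work.MP_dd5692_pr.POT

/-! # MP_dd5692_pr: EB8 (the outer boundary of a 4-connected set is 8-connected) -/

set_option autoImplicit false

namespace MPdd5692

theorem blk_EB8 : Stmt_PEB8 := by
  intro A x0 hA t ht t' ht'
  by_contra hno
  set E1 : Set Site := {z | Linked Adj8 (extB8 A x0) t z} with hE1
  have hE1A : ∀ z ∈ E1, z ∉ A := fun z hz => hz.right.1.right
  -- a 4-neighbour of `A` which is 8-adjacent to `E1` is in `A` or in `E1`
  have step : ∀ a q p : Site, a ∈ A → Adj4 a q → p ∈ E1 → (Adj8 p q ∨ p = q) → q ∈ A ∨ q ∈ E1 := by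
    intro a q p ha haq hp hpq
    by_cases hqA : q ∈ A
    · exact Or.inl hqA
    · right
      rcases hpq with hpq | rfl
      · exact Linked.step hp hpq ⟨hp.right.1.step hpq hqA, a, ha, haq⟩
      · exact hp
  obtain ⟨n, hn⟩ := exists_pot (cutf A E1) (cutf_symm A E1) (by
    intro x y
    apply cut_sq8 hE1A
    intro hs
    have a01 : Adj4 (x, y) (x + 1, y) := by rw [adj4_iff]; simp
    have a12 : Adj4 (x + 1, y) (x + 1, y + 1) := by rw [adj4_iff]; simp
    have a32 : Adj4 (x, y + 1) (x + 1, y + 1) := by rw [adj4_iff]; simp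
    have a03 : Adj4 (x, y) (x, y + 1) := by rw [adj4_iff]; simp
    have main : ∀ p q : Site, (x ≤ q.1 ∧ q.1 ≤ x + 1 ∧ y ≤ q.2 ∧ q.2 ≤ y + 1) → Adj4 p q → p ∈ A →
          q ∈ A ∨ q ∈ E1 := by
      intro p q hq hpq hp
      rcases hs with hs | hs | hs | hs
      · exact step p q _ hp hpq hs (sq_adj (by simp) hq)
      · exact step p q _ hp hpq hs (sq_adj (by simp) hq)
      · exact step p q _ hp hpq hs (sq_adj (by simp) hq)
      · exact step p q _ hp hpq hs (sq_adj (by simp) hq)
    exact ⟨fun h => ⟨main _ _ (by simp) a01 h, main _ _ (by simp) a03 h⟩,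
      fun h => ⟨main _ _ (by simp) a01.symm h, main _ _ (by simp) a12 h⟩,
      fun h => ⟨main _ _ (by simp) a12.symm h, main _ _ (by simp) a32.symm h⟩,
      fun h => ⟨main _ _ (by simp) a03.symm h, main _ _ (by simp) a32 h⟩⟩)
  have hzero : ∀ a b : ZMod 2, a + b = 0 → a = b := fun a b h => CharTwo.add_eq_zero.1 h
  -- constant on `A` along 4-paths
  have nA : ∀ z w : Site, z ∈ A → w ∈ A → Adj4 z w → n z = n w := by
    intro z w hz hw hzw
    apply hzero
    rw [hn z w hzw]
    exact cutf_zero (fun h => hE1A _ h.2 hw) (fun h => hE1A _ h.2 hz)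
  have n4 : ∀ z w : Site, z ∉ A → w ∉ A → Adj4 z w → n z = n w := by
    intro z w hz hw hzw
    apply hzero
    rw [hn z w hzw]
    exact cutf_zero (fun h => hz h.1) (fun h => hw h.1)
  -- constant on the 8-component of `x0` off `A`
  have nC : ∀ z w : Site, z ∈ cl Adj8 Aᶜ x0 → w ∈ cl Adj8 Aᶜ x0 → Adj8 z w → n z = n w := by
    intro z w hz hw hzw
    have hzA : z ∉ A := Linked.right hz
    have hwA : w ∉ A := Linked.right hw
    rcases adj8_cases hzw with h4 | ⟨h1, h2, -, -, -⟩
    · exact n4 z w hzA hwA h4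
    · by_cases hm : ((z.1, w.2) : Site) ∈ A
      · have ez : z ∈ extB8 A x0 := ⟨hz, _, hm, h1.symm⟩
        have ew : w ∈ extB8 A x0 := ⟨hw, _, hm, h2⟩
        have e1 := hn _ _ h1
        have e2 := hn _ _ h2
        by_cases hz1 : z ∈ E1
        · have hw1 : w ∈ E1 := Linked.step hz1 hzw ew
          rw [cutf_symm, cutf_one hm hz1] at e1
          rw [cutf_one hm hw1] at e2
          apply hzero
          calc n z + n w = (n z + n (z.1, w.2)) + (n (z.1, w.2) + n w) := by
                rw [show (n z + n (z.1, w.2)) + (n (z.1, w.2) + n w) =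
                  n z + n w + (n (z.1, w.2) + n (z.1, w.2)) by ring, zmod2_add_self, add_zero]
            _ = 0 := by rw [e1, e2]; decide
        · have hw1 : w ∉ E1 := fun h => hz1 (Linked.step h hzw.symm ez)
          rw [cutf_zero (fun h => hzA h.1) (fun h => hz1 h.2)] at e1
          rw [cutf_zero (fun h => hw1 h.2) (fun h => hwA h.1)] at e2
          exact (hzero _ _ e1).trans (hzero _ _ e2)
      · exact (n4 _ _ hzA hm h1).trans (n4 _ _ hm hwA h2)
  obtain ⟨s, hs, hst⟩ := ht.2
  obtain ⟨s', hs', hst'⟩ := ht'.2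
  have e1 := hn s t hst
  have e2 := hn s' t' hst'
  rw [cutf_one hs (show t ∈ E1 from Linked.refl ht)] at e1
  rw [cutf_zero (fun h => hno h.2) (fun h => ht'.1.right h.1)] at e2
  have c1 : n s = n s' := (hA s hs s' hs').const n nA
  have c2 : n t = n t' := by
    have h1 : n x0 = n t := (ht.1.in_cl).const n nC
    have h2 : n x0 = n t' := (ht'.1.in_cl).const n nC
    exact h1.symm.trans h2
  rw [c1, c2, e2] at e1
  exact absurd e1 (by decide)

end MPdd5692
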