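import Mathlib
import Pool.Agent.Work.MP_dd5692_pr.InterfaceD
import Pool.Agent.Work.MP_dd5692_pr.EB4
import Pool.Agent.Work.MP_dd5692_pr.EB8

/-!
# MP_dd5692_pr: EB4, EB8 in the form of InterfaceD (adapter, helper14)
-/

open MeasureTheory ProbabilityTheory Set

namespace MPdd5692

theorem stmt_EB4 : Stmt_EB4 := by
  intro A hA x0 x y hx hy
  have hset : {z | Linked Adj4 Aᶜ x0 z ∧ ∃ w ∈ A, Adj8 z w} = extB4 A x0 := by
    ext z
    constructor
    · rintro ⟨h1, w, hw, h2⟩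
      exact ⟨h1, w, hw, h2.symm⟩
    · rintro ⟨h1, w, hw, h2⟩
      exact ⟨h1, w, hw, h2.symm⟩
  have hx' : x ∈ extB4 A x0 := by rw [← hset]; exact hx
  have hy' : y ∈ extB4 A x0 := by rw [← hset]; exact hy
  rw [hset]
  exact blk_EB4 A x0 hA x hx' y hy'

theorem stmt_EB8 : Stmt_EB8 := by
  intro A hA x0 x y hx hy
  have hset : {z | Linked Adj8 Aᶜ x0 z ∧ ∃ w ∈ A, Adj4 z w} = extB8 A x0 := by
    ext z
    constructor
    · rintro ⟨h1, w, hw, h2⟩
      exact ⟨h1, w, hw, h2.symm⟩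
    · rintro ⟨h1, w, hw, h2⟩
      exact ⟨h1, w, hw, h2.symm⟩
  have hx' : x ∈ extB8 A x0 := by rw [← hset]; exact hx
  have hy' : y ∈ extB8 A x0 := by rw [← hset]; exact hy
  rw [hset]
  exact blk_EB8 A x0 hA x hx' y hy'

end MPdd5692
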