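import Pool.Agent.Work.MP_dd5692_pr.InterfaceE
import Pool.Agent.Work.MP_dd5692_pr.FFP_gen44

/-! block FFP (helper44): probability of `W_m(X)` and not `F_m(X)` -/

open MeasureTheory ProbabilityTheory Set
open scoped ENNReal NNReal BigOperators

namespace MPdd5692.FFP

section more

variable {α β : Type} [MeasurableSpace α] [MeasurableSpace β]

lemma real_fst (μ : Measure α) (ν : Measure β) [IsProbabilityMeasure μ] [IsProbabilityMeasure ν]
    (A : Set α) : (μ.prod ν).real {r | r.1 ∈ A} = μ.real A := by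
  have h : {r : α × β | r.1 ∈ A} = A ×ˢ (Set.univ : Set β) := by ext r; simp
  rw [Measure.real, h, Measure.prod_prod, measure_univ, mul_one]
  rfl

end more

variable {c e I δ Λ : ℝ} {nmax : ℕ}

/-- conditional probability of `W_{m'}(X')` and not `N_{m'}(X')` -/
noncomputable def Dd (E : Env c e I δ Λ nmax) (p : Par) (uh : ℝ) (m m' : ℕ) (X' : ℕ × ℤ)
    (M : Conf E.q E.H) : ℝ :=
  (hm E.q E.H).real {U | WWE E.ρ E.q (et (asmE (expo E.H m) M U) m') p X' ∧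
    ¬ NNE E.L E.lam E.ρ p uh (asmE (expo E.H m) M U) m' X'}

/-- conditional probability of success -/
noncomputable def Ss (E : Env c e I δ Λ nmax) (p : Par) (uh : ℝ) (m m' : ℕ) (y : Site)
    (X' : ℕ × ℤ) (M : Conf E.q E.H) : ℝ :=
  (hm E.q E.H).real {U | SuccE E.L E.lam E.ρ p uh (asmE (expo E.H m) M U) m m' y X'}

lemma Ss_ge (E : Env c e I δ Λ nmax) (p : Par) (uh : ℝ) (m m' : ℕ) (y : Site) (X' : ℕ × ℤ)
    (M : Conf E.q E.H) :
    E.phi p m m' y X' M - Dd E p uh m m' X' M ≤ Ss E p uh m m' y X' M := by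
  have h : E.phi p m m' y X' M ≤ Ss E p uh m m' y X' M + Dd E p uh m m' X' M := by
    unfold Env.phi Ss Dd
    refine (measureReal_mono ?_).trans (measureReal_union_le _ _)
    intro U hU
    by_cases hN : NNE E.L E.lam E.ρ p uh (asmE (expo E.H m) M U) m' X'
    · exact Or.inl ⟨hU.1, hU.2, hN⟩
    · exact Or.inr ⟨hU.2, hN⟩
  linarith

lemma asm_meas (h2 : Stmt_SPLIT) (E : Env c e I δ Λ nmax) (m : ℕ) :
    Measurable fun r : Conf E.q E.H × HV E.q E.H => asmE (expo E.H m) r.1 r.2 :=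
  (h2 E.q E.H _ _ _ E.L E.lam (expo E.H m)).1

lemma succ_meas (h5 : Stmt_MEASE) (E : Env c e I δ Λ nmax) (p : Par) (uh : ℝ) (m m' : ℕ)
    (y : Site) (X' : ℕ × ℤ) :
    MeasurableSet {ω : Conf E.q E.H | SuccE E.L E.lam E.ρ p uh ω m m' y X'} := by
  have k1 := (h5 E.q E.H _ _ _ E.L E.lam E.ρ p uh m m' y X').1.1
  have k2 := (h5 E.q E.H _ _ _ E.L E.lam E.ρ p uh m' m' y X').2.2.1.1
  have k3 := (h5 E.q E.H _ _ _ E.L E.lam E.ρ p uh m' m' y X').2.2.2.1.1
  exact k1.inter (k2.inter k3)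

lemma Dd_meas (h2 : Stmt_SPLIT) (h5 : Stmt_MEASE) (E : Env c e I δ Λ nmax) (p : Par) (uh : ℝ)
    (m m' : ℕ) (X' : ℕ × ℤ) : Measurable (Dd E p uh m m' X') := by
  have k2 := (h5 E.q E.H _ _ _ E.L E.lam E.ρ p uh m' m' (0, 0) X').2.2.1.1
  have k3 := (h5 E.q E.H _ _ _ E.L E.lam E.ρ p uh m' m' (0, 0) X').2.2.2.1.1
  exact measurable_sec (hm E.q E.H) ((asm_meas h2 E m) (k2.inter k3.compl))

lemma Ss_meas (h2 : Stmt_SPLIT) (h5 : Stmt_MEASE) (E : Env c e I δ Λ nmax) (p : Par) (uh : ℝ)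
    (m m' : ℕ) (y : Site) (X' : ℕ × ℤ) : Measurable (Ss E p uh m m' y X') :=
  measurable_sec (hm E.q E.H) ((asm_meas h2 E m) (succ_meas h5 E p uh m m' y X'))

lemma hw_meas (h5 : Stmt_MEASE) (E : Env c e I δ Λ nmax) (p : Par) (m m' : ℕ) (y : Site)
    (X' : ℕ × ℤ) : MeasurableSet {ω : Conf E.q E.H | HatE E.ρ ω m m' y p.u ∧
      WWE E.ρ E.q (et ω m') p X'} := by
  have k1 := (h5 E.q E.H _ _ _ E.L E.lam E.ρ p 0 m m' y X').1.1
  have k2 := (h5 E.q E.H _ _ _ E.L E.lam E.ρ p 0 m' m' y X').2.2.1.1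
  exact k1.inter k2

lemma phi_meas (h2 : Stmt_SPLIT) (h5 : Stmt_MEASE) (E : Env c e I δ Λ nmax) (p : Par)
    (m m' : ℕ) (y : Site) (X' : ℕ × ℤ) : Measurable (E.phi p m m' y X') :=
  measurable_sec (hm E.q E.H) ((asm_meas h2 E m) (hw_meas h5 E p m m' y X'))

lemma psi_meas (h2 : Stmt_SPLIT) (h5 : Stmt_MEASE) (E : Env c e I δ Λ nmax) (p : Par)
    (m m' : ℕ) (y : Site) (X' : ℕ × ℤ) : Measurable (E.psi p m m' y X') := by
  have hmix : Measurable fun r : Conf E.q E.H × (Conf E.q E.H × HV E.q E.H) =>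
      asmE (expo E.H m) (mixC m' y (27 * p.u) r.1 r.2.1) r.2.2 := by
    have g1 : Measurable fun r : Conf E.q E.H × (Conf E.q E.H × HV E.q E.H) =>
        mixC m' y (27 * p.u) r.1 r.2.1 :=
      (meas_mix m' y (27 * p.u)).comp (measurable_fst.prodMk (measurable_fst.comp measurable_snd))
    exact (asm_meas h2 E m).comp (g1.prodMk (measurable_snd.comp measurable_snd))
  exact measurable_sec ((pois (muE E.L E.lam (expo E.H m))).prod (hm E.q E.H))
    (hmix (hw_meas h5 E p m m' y X'))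

/-- the mean of `1_{W_m(X)} D_{m'}` -/
lemma T1_term (h2 : Stmt_SPLIT) (h5 : Stmt_MEASE) (E : Env c e I δ Λ nmax) (p : Par) (uh : ℝ)
    (m m' : ℕ) (X X' : ℕ × ℤ) (hmH : m ≤ E.H) :
    ∫ M, ({M : Conf E.q E.H | WWE E.ρ E.q (et M m) p X}.indicator
        (fun M => Dd E p uh m m' X' M) M) ∂(pois (muE E.L E.lam (expo E.H m))) =
      E.P.real ({ω | WWE E.ρ E.q (et ω m) p X ∧ WWE E.ρ E.q (et ω m') p X'} ∩
        {ω | NNE E.L E.lam E.ρ p uh ω m' X'}ᶜ) := by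
  have k1 := (h5 E.q E.H _ _ _ E.L E.lam E.ρ p uh m m' (0, 0) X).2.2.1.1
  have k2 := (h5 E.q E.H _ _ _ E.L E.lam E.ρ p uh m' m' (0, 0) X').2.2.1.1
  have k3 := (h5 E.q E.H _ _ _ E.L E.lam E.ρ p uh m' m' (0, 0) X').2.2.2.1.1
  have hS : MeasurableSet ({ω : Conf E.q E.H | WWE E.ρ E.q (et ω m) p X ∧
      WWE E.ρ E.q (et ω m') p X'} ∩ {ω | NNE E.L E.lam E.ρ p uh ω m' X'}ᶜ) :=
    (k1.inter k2).inter k3.compl
  have hA := asm_meas h2 E m
  unfold Env.P
  rw [real_eq h2 E.L E.lam (expo E.H m) hS]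
  set ν := (pois (muE E.L E.lam (expo E.H m))).prod (hm E.q E.H) with hν
  set T : Set (Conf E.q E.H × HV E.q E.H) := {r | WWE E.ρ E.q (et r.1 m) p X ∧
      (WWE E.ρ E.q (et (asmE (expo E.H m) r.1 r.2) m') p X' ∧
      ¬ NNE E.L E.lam E.ρ p uh (asmE (expo E.H m) r.1 r.2) m' X')} with hT
  have hTm : MeasurableSet T :=
    (measurable_fst k1).inter (hA (k2.inter k3.compl))
  have hae : ν.real {r | asmE (expo E.H m) r.1 r.2 ∈
      ({ω : Conf E.q E.H | WWE E.ρ E.q (et ω m) p X ∧ WWE E.ρ E.q (et ω m') p X'} ∩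
        {ω | NNE E.L E.lam E.ρ p uh ω m' X'}ᶜ)} = ν.real T := by
    apply measureReal_congr
    filter_upwards [ae_sup2 h2 E.L E.lam (expo E.H m)] with r hr
    have het : et (asmE (expo E.H m) r.1 r.2) m = et r.1 m :=
      et_asm (expo E.H m) hr r.2 (Nat.lt_succ_of_le hmH) (by simp [expo])
    apply propext
    show ((WWE E.ρ E.q (et (asmE (expo E.H m) r.1 r.2) m) p X ∧
      WWE E.ρ E.q (et (asmE (expo E.H m) r.1 r.2) m') p X') ∧
      ¬ NNE E.L E.lam E.ρ p uh (asmE (expo E.H m) r.1 r.2) m' X') ↔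
      (WWE E.ρ E.q (et r.1 m) p X ∧
      (WWE E.ρ E.q (et (asmE (expo E.H m) r.1 r.2) m') p X' ∧
      ¬ NNE E.L E.lam E.ρ p uh (asmE (expo E.H m) r.1 r.2) m' X'))
    rw [het, and_assoc]
  rw [hae, hν, real_sec _ _ hTm]
  refine integral_congr_ae (Filter.Eventually.of_forall fun M => ?_)
  by_cases hW : WWE E.ρ E.q (et M m) p X
  · have hM : M ∈ {M : Conf E.q E.H | WWE E.ρ E.q (et M m) p X} := hW
    show ({M : Conf E.q E.H | WWE E.ρ E.q (et M m) p X}.indicator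
        (fun M => Dd E p uh m m' X' M) M) = (hm E.q E.H).real {U | (M, U) ∈ T}
    rw [Set.indicator_of_mem hM]
    unfold Dd
    congr 1
    ext U
    constructor
    · intro hU; exact ⟨hW, hU⟩
    · intro hU; exact hU.2
  · have hM : M ∉ {M : Conf E.q E.H | WWE E.ρ E.q (et M m) p X} := hW
    show ({M : Conf E.q E.H | WWE E.ρ E.q (et M m) p X}.indicator
        (fun M => Dd E p uh m m' X' M) M) = (hm E.q E.H).real {U | (M, U) ∈ T}
    rw [Set.indicator_of_notMem hM]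
    have : {U : HV E.q E.H | (M, U) ∈ T} = ∅ := by
      ext U
      constructor
      · intro hU; exact absurd hU.1 hW
      · intro hU; exact absurd hU (Set.notMem_empty _)
    rw [this, measureReal_empty]

lemma T1_bound (h1 : Stmt_HARRIS) (h2 : Stmt_SPLIT) (h5 : Stmt_MEASE) (E : Env c e I δ Λ nmax)
    (p : Par) (uh ε ε1 : ℝ) (m m' : ℕ) (X X' : ℕ × ℤ) (hmm : m < m') (hm' : m' ≤ E.H)
    (hDec : E.Dec p ε) (hεw : ε ≤ (E.w p) ^ 2)
    (hN : E.P.real {ω | ¬ NNE E.L E.lam E.ρ p uh ω m' X'} ≤ ε1) :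
    ∫ M, ({M : Conf E.q E.H | WWE E.ρ E.q (et M m) p X}.indicator
        (fun M => Dd E p uh m m' X' M) M) ∂(pois (muE E.L E.lam (expo E.H m))) ≤
      2 * (E.w p) ^ 2 * ε1 := by
  rw [T1_term h2 h5 E p uh m m' X X' (by omega)]
  have k1 := (h5 E.q E.H _ _ _ E.L E.lam E.ρ p uh m m' (0, 0) X).2.2.1
  have k2 := (h5 E.q E.H _ _ _ E.L E.lam E.ρ p uh m' m' (0, 0) X').2.2.1
  have k3 := (h5 E.q E.H _ _ _ E.L E.lam E.ρ p uh m' m' (0, 0) X').2.2.2.1
  have hH := (h1 (FMark E.q E.H) (fun θ => E.lam * E.L.fine θ)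
    {ω | WWE E.ρ E.q (et ω m) p X ∧ WWE E.ρ E.q (et ω m') p X'}
    {ω | NNE E.L E.lam E.ρ p uh ω m' X'} (k1.1.inter k2.1) k3.1
    (fun ω ω' hle h => ⟨k1.2 ω ω' hle h.1, k2.2 ω ω' hle h.2⟩) k3.2).2
  have hH' : E.P.real ({ω | WWE E.ρ E.q (et ω m) p X ∧ WWE E.ρ E.q (et ω m') p X'} ∩
        {ω | NNE E.L E.lam E.ρ p uh ω m' X'}ᶜ) ≤
      E.P.real {ω | WWE E.ρ E.q (et ω m) p X ∧ WWE E.ρ E.q (et ω m') p X'} *
        E.P.real {ω | NNE E.L E.lam E.ρ p uh ω m' X'}ᶜ := hH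
  refine hH'.trans ?_
  have hw2 := hDec.w m m' X X' (by omega) hm' (by omega)
  have hc : E.P.real {ω | NNE E.L E.lam E.ρ p uh ω m' X'}ᶜ ≤ ε1 := hN
  have : E.P.real {ω | WWE E.ρ E.q (et ω m) p X ∧ WWE E.ρ E.q (et ω m') p X'} ≤
      2 * (E.w p) ^ 2 := by linarith
  exact mul_le_mul this hc measureReal_nonneg (by positivity)

lemma ind01 (E : Env c e I δ Λ nmax) (p : Par) (uh : ℝ) (m m' : ℕ) (X X' : ℕ × ℤ)
    (M : Conf E.q E.H) :
    0 ≤ ({M : Conf E.q E.H | WWE E.ρ E.q (et M m) p X}.indicator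
        (fun M => Dd E p uh m m' X' M) M) ∧
    ({M : Conf E.q E.H | WWE E.ρ E.q (et M m) p X}.indicator
        (fun M => Dd E p uh m m' X' M) M) ≤ 1 := by
  by_cases hM : M ∈ {M : Conf E.q E.H | WWE E.ρ E.q (et M m) p X}
  · rw [Set.indicator_of_mem hM]
    exact ⟨measureReal_nonneg, measureReal_le_one⟩
  · rw [Set.indicator_of_notMem hM]
    exact ⟨le_refl 0, zero_le_one⟩

lemma T1_event (h1 : Stmt_HARRIS) (h2 : Stmt_SPLIT) (h5 : Stmt_MEASE) (E : Env c e I δ Λ nmax)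
    (p : Par) (uh ε ε1 a : ℝ) (m : ℕ) (X X' : ℕ × ℤ) (s : Finset ℕ) (ha : 0 < a)
    (hs : ∀ m' ∈ s, m < m' ∧ m' ≤ E.H)
    (hDec : E.Dec p ε) (hεw : ε ≤ (E.w p) ^ 2)
    (hN : ∀ m' ∈ s, E.P.real {ω | ¬ NNE E.L E.lam E.ρ p uh ω m' X'} ≤ ε1) :
    ((pois (muE E.L E.lam (expo E.H m))).prod (hm E.q E.H)).real
      {r | r.1 ∈ {M : Conf E.q E.H | WWE E.ρ E.q (et M m) p X ∧
        a ≤ ∑ m' ∈ s, Dd E p uh m m' X' M}} ≤ s.card * (2 * (E.w p) ^ 2 * ε1) / a := by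
  rw [real_fst]
  set μ := pois (muE E.L E.lam (expo E.H m)) with hμ
  have k1 := (h5 E.q E.H _ _ _ E.L E.lam E.ρ p uh m m (0, 0) X).2.2.1.1
  have hI : ∀ m' ∈ s, Integrable (fun M => ({M : Conf E.q E.H | WWE E.ρ E.q (et M m) p X}.indicator
        (fun M => Dd E p uh m m' X' M) M)) μ := by
    intro m' _
    refine Integrable.of_bound ((Dd_meas h2 h5 E p uh m m' X').indicator k1).aestronglyMeasurable 1
      (Filter.Eventually.of_forall fun M => ?_)
    rw [Real.norm_eq_abs, abs_of_nonneg (ind01 E p uh m m' X X' M).1]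
    exact (ind01 E p uh m m' X X' M).2
  have hsub : {M : Conf E.q E.H | WWE E.ρ E.q (et M m) p X ∧
        a ≤ ∑ m' ∈ s, Dd E p uh m m' X' M} ⊆
      {M | a ≤ ∑ m' ∈ s, ({M : Conf E.q E.H | WWE E.ρ E.q (et M m) p X}.indicator
        (fun M => Dd E p uh m m' X' M) M)} := by
    intro M hM
    obtain ⟨hW, hMa⟩ := hM
    show a ≤ ∑ m' ∈ s, ({M : Conf E.q E.H | WWE E.ρ E.q (et M m) p X}.indicator
        (fun M => Dd E p uh m m' X' M) M)
    have hmem : M ∈ {M : Conf E.q E.H | WWE E.ρ E.q (et M m) p X} := hW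
    have : ∑ m' ∈ s, ({M : Conf E.q E.H | WWE E.ρ E.q (et M m) p X}.indicator
        (fun M => Dd E p uh m m' X' M) M) = ∑ m' ∈ s, Dd E p uh m m' X' M :=
      Finset.sum_congr rfl fun m' _ => Set.indicator_of_mem hmem _
    rw [this]
    exact hMa
  refine (measureReal_mono hsub).trans ?_
  refine (markov μ (integrable_finsetSum s hI)
    (fun M => Finset.sum_nonneg fun m' _ => (ind01 E p uh m m' X X' M).1) ha).trans ?_
  rw [integral_finsetSum s hI]
  have : ∑ m' ∈ s, ∫ M, ({M : Conf E.q E.H | WWE E.ρ E.q (et M m) p X}.indicator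
        (fun M => Dd E p uh m m' X' M) M) ∂μ ≤ s.card * (2 * (E.w p) ^ 2 * ε1) := by
    rw [← nsmul_eq_mul]
    exact Finset.sum_le_card_nsmul s _ _ fun m' hm' =>
      T1_bound h1 h2 h5 E p uh ε ε1 m m' X X' (hs m' hm').1 (hs m' hm').2 hDec hεw (hN m' hm')
  gcongr

lemma T2_event (h2 : Stmt_SPLIT) (h5 : Stmt_MEASE) (E : Env c e I δ Λ nmax)
    (p : Par) (ε a : ℝ) (m : ℕ) (y : Site) (X' : ℕ × ℤ) (s : Finset ℕ) (ha : 0 < a)
    (hs : ∀ m' ∈ s, m < m' ∧ m' ≤ E.H) (hDec : E.Dec p ε) (hy : y ∈ p.sub2 X') :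
    ((pois (muE E.L E.lam (expo E.H m))).prod (hm E.q E.H)).real
      {r | r.1 ∈ {M : Conf E.q E.H | a ≤ ∑ m' ∈ s, |E.phi p m m' y X' M - E.psi p m m' y X' M|}} ≤
      (s.card : ℝ) ^ 2 * ε / a ^ 2 := by
  rw [real_fst]
  refine markov2 (pois (muE E.L E.lam (expo E.H m))) s
    (fun m' M => E.phi p m m' y X' M - E.psi p m m' y X' M)
    (fun m' _ => (phi_meas h2 h5 E p m m' y X').sub (psi_meas h2 h5 E p m m' y X'))
    (fun m' M => ?_) (fun m' hm' => hDec.phi m m' y X' (hs m' hm').1 (hs m' hm').2 hy) ha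
  have a1 : 0 ≤ E.phi p m m' y X' M := measureReal_nonneg
  have a2 : E.phi p m m' y X' M ≤ 1 := measureReal_le_one
  have a3 : 0 ≤ E.psi p m m' y X' M := measureReal_nonneg
  have a4 : E.psi p m m' y X' M ≤ 1 := measureReal_le_one
  rw [abs_le]
  constructor <;> linarith

open Classical in
lemma T3_event (h2 : Stmt_SPLIT) (h3 : Stmt_CIND) (h5 : Stmt_MEASE) (E : Env c e I δ Λ nmax)
    (p : Par) (uh a : ℝ) (m : ℕ) (y : Site) (X' : ℕ × ℤ) (s : Finset ℕ) (ha : 0 < a)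
    (hs : ∀ m' ∈ s, m < m' ∧ m' ≤ E.H) :
    ((pois (muE E.L E.lam (expo E.H m))).prod (hm E.q E.H)).real
      {r | 2 * a ≤ ∑ m' ∈ s, Ss E p uh m m' y X' r.1 ∧
        ((s.filter fun m' => SuccE E.L E.lam E.ρ p uh (asmE (expo E.H m) r.1 r.2) m m' y X').card : ℝ)
          < a} ≤ 2 / a := by
  set μ := pois (muE E.L E.lam (expo E.H m)) with hμ
  have hA := asm_meas h2 E m
  have hTm : MeasurableSet {r : Conf E.q E.H × HV E.q E.H |
      2 * a ≤ ∑ m' ∈ s, Ss E p uh m m' y X' r.1 ∧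
        ((s.filter fun m' => SuccE E.L E.lam E.ρ p uh (asmE (expo E.H m) r.1 r.2) m m' y X').card : ℝ)
          < a} := by
    have c1 : Measurable fun r : Conf E.q E.H × HV E.q E.H =>
        ∑ m' ∈ s, Ss E p uh m m' y X' r.1 :=
      Finset.measurable_fun_sum s fun m' _ => (Ss_meas h2 h5 E p uh m m' y X').comp measurable_fst
    have c2 := meas_card s
      (fun m' (r : Conf E.q E.H × HV E.q E.H) =>
        SuccE E.L E.lam E.ρ p uh (asmE (expo E.H m) r.1 r.2) m m' y X')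
      (fun m' _ => hA (succ_meas h5 E p uh m m' y X'))
    exact (measurableSet_le measurable_const c1).inter (measurableSet_lt c2 measurable_const)
  rw [real_sec _ _ hTm]
  have hbd : ∀ᵐ M ∂μ, (hm E.q E.H).real {U | (M, U) ∈ {r : Conf E.q E.H × HV E.q E.H |
      2 * a ≤ ∑ m' ∈ s, Ss E p uh m m' y X' r.1 ∧
        ((s.filter fun m' => SuccE E.L E.lam E.ρ p uh (asmE (expo E.H m) r.1 r.2) m m' y X').card : ℝ)
          < a}} ≤ 2 / a := by
    filter_upwards [ae_sup h2 E.L E.lam (expo E.H m)] with M hM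
    by_cases hS : 2 * a ≤ ∑ m' ∈ s, Ss E p uh m m' y X' M
    · set g : ℕ → Fin (E.H + 1) := fun m' => if h : m' < E.H + 1 then ⟨m', h⟩ else 0 with hg
      have hgi : Set.InjOn g s := by
        intro i hi j hj hij
        have hi' : i < E.H + 1 := Nat.lt_succ_of_le (hs i hi).2
        have hj' : j < E.H + 1 := Nat.lt_succ_of_le (hs j hj).2
        simp only [hg, dif_pos hi', dif_pos hj', Fin.mk.injEq] at hij
        exact hij
      have hsec : Measurable fun U : HV E.q E.H => asmE (expo E.H m) M U :=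
        hA.comp measurable_prodMk_left
      have hch := cheb (fun _ : Fin (E.H + 1) => Measure.infinitePi fun _ : FMark E.q E.H × ℕ => unif E.q)
        s g hgi (fun m' => {U : HV E.q E.H |
          SuccE E.L E.lam E.ρ p uh (asmE (expo E.H m) M U) m m' y X'})
        (fun m' _ => hsec (succ_meas h5 E p uh m m' y X')) ?_ a ha hS
      · refine le_trans (measureReal_mono ?_) hch
        intro U hU
        obtain ⟨_, hU2⟩ := hU
        show ((s.filter fun m' => U ∈ {U : HV E.q E.H |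
          SuccE E.L E.lam E.ρ p uh (asmE (expo E.H m) M U) m m' y X'}).card : ℝ) < a
        exact hU2
      · intro m' hm' U U' hUU
        have hm'' : m' < E.H + 1 := Nat.lt_succ_of_le (hs m' hm').2
        simp only [hg, dif_pos hm''] at hUU
        exact h3 E.q E.H _ _ _ E.L E.lam E.ρ p uh M U U' m m' hm'' y X'
          (by have := (hs m' hm').1; omega) hM hUU
    · have hempty : {U : HV E.q E.H | 2 * a ≤ ∑ m' ∈ s, Ss E p uh m m' y X' M ∧
          ((s.filter fun m' => SuccE E.L E.lam E.ρ p uh (asmE (expo E.H m) M U) m m' y X').card : ℝ)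
          < a} = ∅ := by
        ext U
        constructor
        · intro hU; exact absurd hU.1 hS
        · intro hU; exact absurd hU (Set.notMem_empty _)
      rw [hempty, measureReal_empty]
      positivity
  calc ∫ M, (hm E.q E.H).real {U | (M, U) ∈ {r : Conf E.q E.H × HV E.q E.H |
      2 * a ≤ ∑ m' ∈ s, Ss E p uh m m' y X' r.1 ∧
        ((s.filter fun m' => SuccE E.L E.lam E.ρ p uh (asmE (expo E.H m) r.1 r.2) m m' y X').card : ℝ)
          < a}} ∂μ ≤ ∫ _, 2 / a ∂μ := by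
        refine integral_mono_ae ?_ (integrable_const _) hbd
        refine Integrable.of_bound (measurable_sec (hm E.q E.H) hTm).aestronglyMeasurable 1
          (Filter.Eventually.of_forall fun M => ?_)
        rw [Real.norm_eq_abs, abs_of_nonneg measureReal_nonneg]
        exact measureReal_le_one
    _ = 2 / a := by rw [integral_const]; simp

end MPdd5692.FFP

namespace MPdd5692

open FFP in
theorem stmt_FFP (h1 : Stmt_HARRIS) (h2 : Stmt_SPLIT) (h3 : Stmt_CIND) (h4 : Stmt_PSI)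
    (h5 : Stmt_MEASE) (h6 : Stmt_WLOW) : Stmt_FFP := by
  classical
  intro c e I δ Λ nmax E p uh ε ε1 X m huh huh1 hε hu hJ hG hH hmX hmX' hnm hDec hεw hN
  have hwpos : 0 < E.w p :=
    lt_of_lt_of_le (pow_pos E.ok.c_pos _) (h6 c e I δ Λ nmax E p (by omega) hG hnm).1
  have hw1 : E.w p ≤ 1 := by
    have : IsProbabilityMeasure (stat E.lam E.j) := by unfold stat; infer_instance
    unfold Env.w SP; exact measureReal_le_one
  set w := E.w p with hw
  have hJ' : (1 : ℝ) ≤ (p.J : ℝ) := by exact_mod_cast hJ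
  have hJ0 : (0 : ℝ) < (p.J : ℝ) := by linarith
  set a : ℝ := uh * w / 8 * p.J with ha
  have hapos : 0 < a := by rw [ha]; positivity
  set s := nxt p.J m with hs
  have hdiv : m / p.J = X.1 := Nat.div_eq_of_lt_le (by linarith) (by linarith)
  have hcard : s.card = p.J := by
    rw [hs, nxt, hdiv, Nat.card_Ico]
    have : (X.1 + 2) * p.J = (X.1 + 1) * p.J + p.J := by ring
    omega
  have hsm : ∀ m' ∈ s, (X.1 + 1) * p.J ≤ m' ∧ m' < (X.1 + 2) * p.J := by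
    intro m' hm'
    rw [hs, nxt, hdiv, Finset.mem_Ico] at hm'
    exact hm'
  have hJJ : (X.1 + 3) * p.J = (X.1 + 2) * p.J + p.J := by ring
  have hsm2 : ∀ m' ∈ s, m < m' ∧ m' ≤ E.H := by
    intro m' hm'
    have := hsm m' hm'
    constructor
    · omega
    · omega
  have hmH : m ≤ E.H := by
    have : (X.1 + 2) * p.J = (X.1 + 1) * p.J + p.J := by ring
    omega
  set μ := pois (muE E.L E.lam (expo E.H m)) with hμ
  set ν := μ.prod (hm E.q E.H) with hν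
  -- the neighbours
  set Xd : ℤ → ℕ × ℤ := fun d => (X.1 + 1, X.2 + d) with hXd
  set Ys : Finset Site := p.Y.image fun y0 => sm p.u y0 + ((p.A : ℤ) * X.1, (p.A : ℤ) * X.2) with hYs
  have hYmem : ∀ y : Site, y ∈ p.sub X.1 X.2 → y ∈ Ys := by
    rintro y ⟨y0, hy0, rfl⟩
    exact Finset.mem_image.2 ⟨y0, hy0, rfl⟩
  have hYmem' : ∀ y : Site, y ∈ Ys → y ∈ p.sub X.1 X.2 := by
    intro y hy
    obtain ⟨y0, hy0, rfl⟩ := Finset.mem_image.1 hy
    exact ⟨y0, hy0, rfl⟩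
  have hYcard : (Ys.card : ℝ) ≤ p.Y.card := by exact_mod_cast Finset.card_image_le
  have hsub2 : ∀ d : ℤ, |d| ≤ 1 → ∀ y ∈ Ys, y ∈ p.sub2 (Xd d) := by
    intro d hd y hy
    have hy' := hYmem' y hy
    have e1 : (((Xd d).1 : ℕ) : ℤ) - 1 = (X.1 : ℤ) := by rw [hXd]; push_cast; ring
    have hd' : d = -1 ∨ d = 0 ∨ d = 1 := by
      rw [abs_le] at hd; omega
    unfold Par.sub2
    rw [e1]
    rcases hd' with rfl | rfl | rfl
    · refine Or.inr ?_
      have : (Xd (-1)).2 + 1 = X.2 := by rw [hXd]; ring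
      rw [this]; exact hy'
    · refine Or.inl (Or.inr ?_)
      have : (Xd 0).2 = X.2 := by rw [hXd]; ring
      rw [this]; exact hy'
    · refine Or.inl (Or.inl (Or.inr ?_))
      have : (Xd 1).2 - 1 = X.2 := by rw [hXd]; ring
      rw [this]; exact hy'
  set Ds : Finset ℤ := {-1, 0, 1} with hDs
  have hDmem : ∀ d : ℤ, |d| ≤ 1 ↔ d ∈ Ds := by
    intro d
    rw [hDs, abs_le]
    simp only [Finset.mem_insert, Finset.mem_singleton]
    omega
  -- events
  set T1 : ℤ → Set (Conf E.q E.H × HV E.q E.H) := fun d => {r | r.1 ∈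
    {M : Conf E.q E.H | WWE E.ρ E.q (et M m) p X ∧ a ≤ ∑ m' ∈ s, Dd E p uh m m' (Xd d) M}} with hT1
  set T2 : ℤ → Site → Set (Conf E.q E.H × HV E.q E.H) := fun d y => {r | r.1 ∈
    {M : Conf E.q E.H | a ≤ ∑ m' ∈ s, |E.phi p m m' y (Xd d) M - E.psi p m m' y (Xd d) M|}} with hT2
  set T3 : ℤ → Site → Set (Conf E.q E.H × HV E.q E.H) := fun d y =>
    {r | 2 * a ≤ ∑ m' ∈ s, Ss E p uh m m' y (Xd d) r.1 ∧
      ((s.filter fun m' => SuccE E.L E.lam E.ρ p uh (asmE (expo E.H m) r.1 r.2) m m' y (Xd d)).card : ℝ)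
        < a} with hT3
  set B : ℤ → Site → Set (Conf E.q E.H) := fun d y =>
    {ω | WWE E.ρ E.q (et ω m) p X ∧ niceE E.L E.lam E.ρ p.u p.J uh ω m y ∧
      ((s.filter fun m' => SuccE E.L E.lam E.ρ p uh ω m m' y (Xd d)).card : ℝ) < a} with hB
  have hBm : ∀ d y, MeasurableSet (B d y) := by
    intro d y
    have k1 := (h5 E.q E.H _ _ _ E.L E.lam E.ρ p uh m m y X).2.2.1.1
    have k2 := (h5 E.q E.H _ _ _ E.L E.lam E.ρ p uh m m y X).2.1.1
    have c2 := meas_card s (fun m' (ω : Conf E.q E.H) =>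
        SuccE E.L E.lam E.ρ p uh ω m m' y (Xd d))
      (fun m' _ => succ_meas h5 E p uh m m' y (Xd d))
    exact k1.inter (k2.inter (measurableSet_lt c2 measurable_const))
  have hBU : MeasurableSet (⋃ d ∈ Ds, ⋃ y ∈ Ys, B d y) :=
    Finset.measurableSet_biUnion _ fun d _ => Finset.measurableSet_biUnion _ fun y _ => hBm d y
  -- (1) reduction to `B`
  have hred : {ω : Conf E.q E.H | WWE E.ρ E.q (et ω m) p X ∧
      ¬ FFE E.L E.lam E.ρ p uh (uh * w / 8) ω m X} ⊆ ⋃ d ∈ Ds, ⋃ y ∈ Ys, B d y := by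
    intro ω hω
    obtain ⟨hW, hF⟩ := hω
    unfold FFE at hF
    push Not at hF
    obtain ⟨d, hd, y, hy, hn, hlt⟩ := hF
    simp only [Set.mem_iUnion]
    exact ⟨d, (hDmem d).1 hd, y, hYmem y hy, hW, hn, hlt⟩
  -- (2) deterministic inclusion on the level of the two-stage representation
  have hincl : ∀ᵐ r ∂ν, asmE (expo E.H m) r.1 r.2 ∈ (⋃ d ∈ Ds, ⋃ y ∈ Ys, B d y) →
      r ∈ ⋃ d ∈ Ds, (T1 d ∪ ⋃ y ∈ Ys, (T2 d y ∪ T3 d y)) := by
    filter_upwards [ae_sup2 h2 E.L E.lam (expo E.H m)] with r hr hrB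
    simp only [Set.mem_iUnion] at hrB
    obtain ⟨d, hd, y, hy, hW, hn, hlt⟩ := hrB
    have het : et (asmE (expo E.H m) r.1 r.2) m = et r.1 m :=
      et_asm (expo E.H m) hr r.2 (Nat.lt_succ_of_le hmH) (by simp [expo])
    have hpr : projE (expo E.H m) (asmE (expo E.H m) r.1 r.2) = r.1 :=
      (h2 E.q E.H _ _ _ E.L E.lam (expo E.H m)).2.2.1 r.1 hr r.2
    simp only [Set.mem_iUnion]
    refine ⟨d, hd, ?_⟩
    by_cases hSD : a ≤ ∑ m' ∈ s, Dd E p uh m m' (Xd d) r.1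
    · left
      rw [het] at hW
      exact ⟨hW, hSD⟩
    right
    simp only [Set.mem_iUnion]
    refine ⟨y, hy, ?_⟩
    by_cases hDV : a ≤ ∑ m' ∈ s, |E.phi p m m' y (Xd d) r.1 - E.psi p m m' y (Xd d) r.1|
    · left; exact hDV
    right
    refine ⟨?_, hlt⟩
    push Not at hSD hDV
    unfold niceE at hn
    rw [hpr] at hn
    have hpsi : w * (uh / 2 * p.J) ≤ ∑ m' ∈ s, E.psi p m m' y (Xd d) r.1 := by
      calc w * (uh / 2 * p.J) ≤ w * ∑ m' ∈ s, hcp E.L E.lam E.ρ p.u m m' y r.1 :=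
            mul_le_mul_of_nonneg_left hn hwpos.le
        _ = ∑ m' ∈ s, w * hcp E.L E.lam E.ρ p.u m m' y r.1 := Finset.mul_sum _ _ _
        _ ≤ ∑ m' ∈ s, E.psi p m m' y (Xd d) r.1 := by
            refine Finset.sum_le_sum fun m' hm' => ?_
            exact h4 c e I δ Λ nmax E p m m' y (Xd d) r.1 hu hG (hsm2 m' hm').1 (hsm2 m' hm').2
              (hsub2 d ((hDmem d).2 hd) y hy)
    have hphi : ∑ m' ∈ s, E.psi p m m' y (Xd d) r.1 -
        ∑ m' ∈ s, |E.phi p m m' y (Xd d) r.1 - E.psi p m m' y (Xd d) r.1| ≤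
        ∑ m' ∈ s, E.phi p m m' y (Xd d) r.1 := by
      rw [← Finset.sum_sub_distrib]
      refine Finset.sum_le_sum fun m' _ => ?_
      have := neg_abs_le (E.phi p m m' y (Xd d) r.1 - E.psi p m m' y (Xd d) r.1)
      linarith
    have hS : ∑ m' ∈ s, E.phi p m m' y (Xd d) r.1 - ∑ m' ∈ s, Dd E p uh m m' (Xd d) r.1 ≤
        ∑ m' ∈ s, Ss E p uh m m' y (Xd d) r.1 := by
      rw [← Finset.sum_sub_distrib]
      exact Finset.sum_le_sum fun m' _ => Ss_ge E p uh m m' y (Xd d) r.1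
    have ha4 : w * (uh / 2 * p.J) = 4 * a := by rw [ha]; ring
    linarith
  -- (3) probabilities
  have hP : E.P.real {ω : Conf E.q E.H | WWE E.ρ E.q (et ω m) p X ∧
      ¬ FFE E.L E.lam E.ρ p uh (uh * w / 8) ω m X} ≤
      ν.real (⋃ d ∈ Ds, (T1 d ∪ ⋃ y ∈ Ys, (T2 d y ∪ T3 d y))) := by
    have : IsProbabilityMeasure E.P := by
      unfold Env.P MarkLaw.PP; infer_instance
    refine (measureReal_mono (μ := E.P) hred (measure_ne_top _ _)).trans ?_
    have h7 : E.P.real (⋃ d ∈ Ds, ⋃ y ∈ Ys, B d y) = ν.real {r | asmE (expo E.H m) r.1 r.2 ∈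
        (⋃ d ∈ Ds, ⋃ y ∈ Ys, B d y)} := real_eq h2 E.L E.lam (expo E.H m) hBU
    rw [h7]
    refine ENNReal.toReal_mono (measure_ne_top _ _) (measure_mono_ae ?_)
    filter_upwards [hincl] with r hr
    exact hr
  have b1 : ∀ d ∈ Ds, ν.real (T1 d) ≤ 16 * ε1 * w / uh := by
    intro d hd
    refine (T1_event h1 h2 h5 E p uh ε ε1 a m X (Xd d) s hapos hsm2 hDec hεw ?_).trans ?_
    · intro m' hm'
      exact hN m' (hsm m' hm').2 (Xd d)
    · rw [hcard, ha]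
      apply le_of_eq
      field_simp
      ring
  have b2 : ∀ d ∈ Ds, ∀ y ∈ Ys, ν.real (T2 d y) ≤ 64 * ε / (uh * w) ^ 2 := by
    intro d hd y hy
    refine (T2_event h2 h5 E p ε a m y (Xd d) s hapos hsm2 hDec
      (hsub2 d ((hDmem d).2 hd) y hy)).trans ?_
    rw [hcard, ha]
    apply le_of_eq
    field_simp
    ring
  have b3 : ∀ d ∈ Ds, ∀ y ∈ Ys, ν.real (T3 d y) ≤ 16 / (uh * w * p.J) := by
    intro d hd y hy
    refine (T3_event h2 h3 h5 E p uh a m y (Xd d) s hapos hsm2).trans ?_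
    rw [ha]
    apply le_of_eq
    field_simp
    ring
  have hY0 : (0 : ℝ) ≤ p.Y.card := by positivity
  set z : ℝ := 10 ^ 6 * ε / (uh * w) ^ 3 + 100 / (uh * w * p.J) with hz
  have huw : 0 < uh * w := by positivity
  have huw1 : uh * w ≤ 1 := by nlinarith
  have hz23 : 64 * ε / (uh * w) ^ 2 + 16 / (uh * w * p.J) ≤ z := by
    rw [hz]
    have i1 : 64 * ε / (uh * w) ^ 2 ≤ 10 ^ 6 * ε / (uh * w) ^ 3 := by
      have hcube : (uh * w) ^ 3 ≤ (uh * w) ^ 2 := pow_le_pow_of_le_one huw.le huw1 (by norm_num)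
      calc 64 * ε / (uh * w) ^ 2 ≤ 10 ^ 6 * ε / (uh * w) ^ 2 := by gcongr; norm_num
        _ ≤ 10 ^ 6 * ε / (uh * w) ^ 3 := by gcongr
    have i2 : 16 / (uh * w * p.J) ≤ 100 / (uh * w * p.J) := by
      gcongr; norm_num
    linarith
  have hz0 : 0 ≤ z := by rw [hz]; positivity
  have hT : ∀ d ∈ Ds, ν.real (T1 d ∪ ⋃ y ∈ Ys, (T2 d y ∪ T3 d y)) ≤
      16 * ε1 * w / uh + p.Y.card * z := by
    intro d hd
    refine (measureReal_union_le _ _).trans ?_
    have h8 : ν.real (⋃ y ∈ Ys, (T2 d y ∪ T3 d y)) ≤ p.Y.card * z := by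
      refine (measureReal_biUnion_finset_le Ys _).trans ?_
      have h9 : ∀ y ∈ Ys, ν.real (T2 d y ∪ T3 d y) ≤ z := fun y hy =>
        (measureReal_union_le _ _).trans ((add_le_add (b2 d hd y hy) (b3 d hd y hy)).trans hz23)
      calc ∑ y ∈ Ys, ν.real (T2 d y ∪ T3 d y) ≤ Ys.card • z := Finset.sum_le_card_nsmul _ _ _ h9
        _ = Ys.card * z := nsmul_eq_mul _ _
        _ ≤ p.Y.card * z := mul_le_mul_of_nonneg_right hYcard hz0
    exact add_le_add (b1 d hd) h8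
  have hfin : ν.real (⋃ d ∈ Ds, (T1 d ∪ ⋃ y ∈ Ys, (T2 d y ∪ T3 d y))) ≤
      3 * (16 * ε1 * w / uh + p.Y.card * z) := by
    refine (measureReal_biUnion_finset_le Ds _).trans ?_
    calc ∑ d ∈ Ds, ν.real (T1 d ∪ ⋃ y ∈ Ys, (T2 d y ∪ T3 d y))
        ≤ Ds.card • (16 * ε1 * w / uh + p.Y.card * z) := Finset.sum_le_card_nsmul _ _ _ hT
      _ = 3 * (16 * ε1 * w / uh + p.Y.card * z) := by
          have : Ds.card = 3 := by rw [hDs]; rfl
          rw [this, nsmul_eq_mul]; norm_num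
  refine hP.trans (hfin.trans (le_of_eq ?_))
  ring

end MPdd5692
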