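import Pool.Agent.Work.MP_dd5692_pr.InterfaceG

/-! Block GBETA (helper9): exponential moment of the size of the bridge. -/

open MeasureTheory ProbabilityTheory Set
open scoped ENNReal NNReal BigOperators

namespace MPdd5692

theorem stmt_GBETA : Stmt_GBETA := by
  intro β hβ
  obtain ⟨hP, hT⟩ := hβ
  have := hP 1 one_pos
  have htot : ∑' b : ℕ, β 1 {b} = 1 := by
    rw [← measure_iUnion (fun i j hij => by
        rw [Function.onFun, Set.disjoint_singleton]; exact hij)
      (fun b => MeasurableSet.singleton b), Set.iUnion_of_singleton, measure_univ]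
  -- pointwise bound
  have hb : ∀ b : ℕ, β 1 {b} ≤ ENNReal.ofReal (8 * Real.exp (-((b : ℝ) - 1) ^ 2 / 16)) := by
    intro b
    rcases Nat.eq_zero_or_pos b with rfl | hb
    · have h1 : β 1 {0} ≤ 1 := prob_le_one
      refine h1.trans ?_
      rw [← ENNReal.ofReal_one]
      refine ENNReal.ofReal_le_ofReal ?_
      have h2 : (1 : ℝ) + (-1 / 16) ≤ Real.exp (-1 / 16) := by
        have := Real.add_one_le_exp (-1 / 16 : ℝ)
        linarith
      have h3 : (-(((0 : ℕ) : ℝ) - 1) ^ 2 / 16) = -1 / 16 := by norm_num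
      rw [h3]
      linarith
    · refine (measure_mono (t := {b' | b ≤ b'}) ?_).trans ?_
      · intro x hx
        rw [Set.mem_singleton_iff] at hx
        rw [hx]; exact le_refl b
      · have := hT 1 one_pos b hb
        rw [mul_one] at this
        exact this
  set c : ℕ → ℝ := fun b => 8 * Real.exp 19 * (Real.exp (-1)) ^ b with hc
  have hc0 : ∀ b, 0 ≤ c b := fun b => by positivity
  have hcs : Summable c := by
    refine Summable.mul_left _ (summable_geometric_of_lt_one (Real.exp_pos _).le ?_)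
    rw [Real.exp_lt_one_iff]
    norm_num
  have hbc : ∀ b : ℕ, β 1 {b} * ENNReal.ofReal (Real.exp b) ≤ ENNReal.ofReal (c b) := by
    intro b
    calc β 1 {b} * ENNReal.ofReal (Real.exp b)
        ≤ ENNReal.ofReal (8 * Real.exp (-((b : ℝ) - 1) ^ 2 / 16)) *
          ENNReal.ofReal (Real.exp b) := mul_le_mul_left (hb b) _
      _ = ENNReal.ofReal (8 * Real.exp (-((b : ℝ) - 1) ^ 2 / 16) * Real.exp b) :=
          (ENNReal.ofReal_mul (by positivity)).symm
      _ ≤ ENNReal.ofReal (c b) := by
          refine ENNReal.ofReal_le_ofReal ?_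
          simp only [hc]
          rw [← Real.exp_nat_mul, mul_assoc, mul_assoc, ← Real.exp_add, ← Real.exp_add]
          refine mul_le_mul_of_nonneg_left ?_ (by norm_num)
          refine Real.exp_le_exp.mpr ?_
          nlinarith [sq_nonneg ((b : ℝ) - 17)]
  refine ⟨max 1 (∑' b, c b), le_max_left _ _, ?_, htot⟩
  calc ∑' b : ℕ, β 1 {b} * ENNReal.ofReal (Real.exp b)
      ≤ ∑' b : ℕ, ENNReal.ofReal (c b) := ENNReal.tsum_le_tsum hbc
    _ = ENNReal.ofReal (∑' b, c b) := (ENNReal.ofReal_tsum_of_nonneg hc0 hcs).symm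
    _ ≤ ENNReal.ofReal (max 1 (∑' b, c b)) := ENNReal.ofReal_le_ofReal (le_max_right _ _)

end MPdd5692
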