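import Mathlib
import Pool.Agent.Work.MP_dd5692_pr.InterfaceF
import Pool.Agent.Work.MP_dd5692_pr.W2
import Pool.Agent.Work.MP_dd5692_pr.W6

/-!
# MP_dd5692_pr: InterfaceG (helper14): the refinement MARKREF of the marks by the flags
`T = 1`, s-cell = block of `q x q` mesh cells, `q = s 2^j`, side `s`.
-/

open MeasureTheory ProbabilityTheory Set
open scoped ENNReal NNReal BigOperators

namespace MPdd5692

/-- s-cell of a point -/
noncomputable def sidx (s j : ℕ) (x : Plane) : Site := cidx (s * 2 ^ j) (cellIdx j x)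

/-- explicit lower bound of the heat kernel (T = 1) between two s-cells with difference `d` -/
noncomputable def lowK (s : ℕ) (d : Site) : ℝ :=
  (2 * Real.pi)⁻¹ * Real.exp (-((s : ℝ) ^ 2 * ((|(d.1 : ℝ)| + 1) ^ 2 + (|(d.2 : ℝ)| + 1) ^ 2)) / 2)

/-- the two parts of the heat kernel: flag `true` = constant on s-cells -/
noncomputable def stepK (s j : ℕ) (g : Bool) (x y : Plane) : ℝ≥0∞ :=
  if g then ENNReal.ofReal (lowK s (sidx s j y - sidx s j x))
  else ENNReal.ofReal (heat 1 (y - x) - lowK s (sidx s j y - sidx s j x))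

/-- mesh cell `q c + r` of a coarse mark (also at hidden times: there `r` is a free label) -/
def CMark.siteR {q H : ℕ} (ξ : CMark q H) (k : Fin (H + 1)) : Site :=
  ((q : ℤ) * (ξ.c k).1 + ((ξ.r k).1 : ℕ), (q : ℤ) * (ξ.c k).2 + ((ξ.r k).2 : ℕ))

/-- mass of a coarse mark -/
noncomputable def massM (s j : ℕ) (β : Measure ℕ) {H : ℕ} (ξ : CMark (s * 2 ^ j) H) : ℝ≥0∞ :=
  (∫⁻ x in {x : Fin (H + 1) → Plane | ∀ k, x k ∈ cell j (ξ.siteR k)},
    ∏ k : Fin H, stepK s j (ξ.g k) (x k.castSucc) (x k.succ)) * ∏ k : Fin H, β {ξ.b k}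

/-- translation of the plane by `t` s-cells -/
noncomputable def ptS (s : ℕ) (t : Site) : Plane := !₂[(s : ℝ) * t.1, (s : ℝ) * t.2]

/-- GSIDX: elementary facts about s-cells. (lowK <= heat: in s-cells with difference `d` the
coordinates differ by at most `s (|d_i| + 1)`.) -/
def Stmt_GSIDX : Prop :=
  ∀ (s j : ℕ), 1 ≤ s →
    (∀ (x : Plane) (v : Site), x ∈ cell j v → sidx s j x = cidx (s * 2 ^ j) v) ∧
    Measurable (sidx s j) ∧
    (∀ c : Site, volume {x : Plane | sidx s j x = c} = ENNReal.ofReal ((s : ℝ) ^ 2)) ∧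
    (∀ x y : Plane, lowK s (sidx s j y - sidx s j x) ≤ heat 1 (y - x)) ∧
    (∀ x y : Plane, (nrm (sidx s j y - sidx s j x) : ℝ) ≤ ‖y - x‖ + 1) ∧
    (∀ (x : Plane) (t : Site), sidx s j (x + ptS s t) = sidx s j x + t) ∧
    (∀ g : Bool, Measurable (fun p : Plane × Plane => stepK s j g p.1 p.2)) ∧
    (∀ (g : Bool) (x y : Plane), stepK s j g x y = stepK s j g y x) ∧
    (∀ x y : Plane, stepK s j true x y + stepK s j false x y = ENNReal.ofReal (heat 1 (y - x)))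

/-- GKER: integrals of the kernels. First: `heat 1` is a probability density; second:
`∫ stepK true = s² Σ_d lowK s d =: δ`, it does not depend on `j` and `x`; third: exponential
moment, `nrm ≤ ‖y - x‖ + 1`. -/
def Stmt_GKER : Prop :=
  (∀ x : Plane, ∫⁻ y, ENNReal.ofReal (heat 1 (y - x)) = 1) ∧
  (∀ s : ℕ, 1 ≤ s → ∃ δ : ℝ, 0 < δ ∧ δ ≤ 1 ∧ ∀ (j : ℕ) (x : Plane),
    ∫⁻ y, stepK s j true x y = ENNReal.ofReal δ) ∧
  (∃ Λ : ℝ, 1 ≤ Λ ∧ ∀ (s j : ℕ), 1 ≤ s → ∀ x : Plane,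
    ∫⁻ y, ENNReal.ofReal (heat 1 (y - x) *
      Real.exp ((nrm (sidx s j y - sidx s j x) : ℝ) + 12)) ≤ ENNReal.ofReal Λ)

/-- GBETA: exponential moment of the size of the bridge. -/
def Stmt_GBETA : Prop :=
  ∀ (β : ℝ → Measure ℕ), TailOK β → ∃ Λ : ℝ, 1 ≤ Λ ∧
    ∑' b : ℕ, β 1 {b} * ENNReal.ofReal (Real.exp b) ≤ ENNReal.ofReal Λ ∧ ∑' b : ℕ, β 1 {b} = 1

/-- GCH: chain integral with one coordinate restricted to `C` (peel off the last coordinate if
`i` is not the last one, otherwise the first one). -/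
def Stmt_GCH : Prop :=
  ∀ (H : ℕ) (i : Fin (H + 1)) (C : Set Plane) (A : Fin H → Plane → Plane → ℝ≥0∞)
    (a : Fin H → ℝ≥0∞), MeasurableSet C →
    (∀ k, Measurable (fun p : Plane × Plane => A k p.1 p.2)) →
    ((∀ k x, ∫⁻ y, A k x y = a k) → (∀ k y, ∫⁻ x, A k x y = a k) →
      ∫⁻ x in {x : Fin (H + 1) → Plane | x i ∈ C}, ∏ k : Fin H, A k (x k.castSucc) (x k.succ)
        = volume C * ∏ k, a k) ∧
    ((∀ k x, ∫⁻ y, A k x y ≤ a k) → (∀ k y, ∫⁻ x, A k x y ≤ a k) →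
      ∫⁻ x in {x : Fin (H + 1) → Plane | x i ∈ C}, ∏ k : Fin H, A k (x k.castSucc) (x k.succ)
        ≤ volume C * ∏ k, a k)

/-- GSUM: sum over the coarse marks = integral. ((c, r) <-> site; the cells are a partition.) -/
def Stmt_GSUM : Prop :=
  ∀ (s j H : ℕ) [NeZero (s * 2 ^ j)] (β : Measure ℕ)
    (φ : Fin H → Bool → Site → Site → ℕ → ℝ≥0∞) (i : Fin (H + 1)) (c : Site), 1 ≤ s →
    ∑' ξ : {ξ : CMark (s * 2 ^ j) H // ξ.c i = c}, massM s j β ξ.1 *
        ∏ k : Fin H, φ k (ξ.1.g k) (ξ.1.c k.castSucc) (ξ.1.c k.succ) (ξ.1.b k)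
      = ∫⁻ x in {x : Fin (H + 1) → Plane | sidx s j (x i) = c}, ∏ k : Fin H,
          ∑ g : Bool, stepK s j g (x k.castSucc) (x k.succ) *
            ∑' b : ℕ, β {b} * φ k g (sidx s j (x k.castSucc)) (sidx s j (x k.succ)) b

/-- GHID: at a hidden time the mass does not depend on the label `r k` (translate `x k`). -/
def Stmt_GHID : Prop :=
  ∀ (s j H : ℕ) (β : Measure ℕ) (ξ ξ' : CMark (s * 2 ^ j) H), 1 ≤ s → ξ.c = ξ'.c → ξ.g = ξ'.g →
    ξ.b = ξ'.b → (∀ k, ¬ ξ.hid k → ξ.r k = ξ'.r k) → massM s j β ξ = massM s j β ξ'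

/-- GPROJ: the fine marks over a mark of `Iface98`. (For each flag vector the fibre has
`(q²)^(H+1)` elements of equal mass by GHID; the sum over the flags gives the heat kernels.) -/
def Stmt_GPROJ : Prop :=
  ∀ (s j H : ℕ) [NeZero (s * 2 ^ j)] (β : Measure ℕ), 1 ≤ s →
    ∀ (v : Fin (H + 1) → Site) (b : Fin H → ℕ),
    ∑' θ : {θ : FMark (s * 2 ^ j) H // FMark.site θ = v ∧ θ.1.b = b},
      massM s j β θ.1.1 / (((s * 2 ^ j : ℕ) : ℝ≥0∞) ^ 2) ^ (H + 1) = markMass 1 β j H (v, b)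

/-- GSTAT: static intensity of the marks of `Iface98`, and finiteness. -/
def Stmt_GSTAT : Prop :=
  ∀ (j H : ℕ) (β : Measure ℕ), (∑' b : ℕ, β {b} = 1) → ∀ (k : Fin (H + 1)) (x : Site),
    ∑' m : {m : Mark H // m.1 k = x}, markMass 1 β j H m.1 = ENNReal.ofReal ((1 / 4) ^ j)

/-- GTR: invariance of the masses under translation by s-cells. -/
def Stmt_GTR : Prop :=
  ∀ (s j H : ℕ) (β : Measure ℕ) (ξ : CMark (s * 2 ^ j) H) (t : Site), 1 ≤ s →
    massM s j β { ξ with c := fun k => ξ.c k + t } = massM s j β ξ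

end MPdd5692
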