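import Mathlib
import Pool.Agent.Work.MP_dd5692_pr.InterfaceG

/-!
# MP_dd5692_pr: GCH, the chain integral with one coordinate restricted (helper94)
-/

open MeasureTheory ProbabilityTheory Set
open scoped ENNReal NNReal BigOperators

namespace MPdd5692

namespace GCHL

/-- one coordinate split off -/
theorem split_int {n : ℕ} (i : Fin (n + 1)) (F : (Fin (n + 1) → Plane) → ℝ≥0∞)
    (hF : Measurable F) :
    ∫⁻ x, F x = ∫⁻ z : Fin n → Plane, ∫⁻ y : Plane, F (i.insertNth (α := fun _ => Plane) y z) := by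
  have h := (volume_preserving_piFinSuccAbove (fun _ : Fin (n + 1) => Plane) i).symm
  rw [← h.lintegral_comp hF]
  have hm : Measurable (fun p : Plane × (Fin n → Plane) =>
      F ((MeasurableEquiv.piFinSuccAbove (fun _ : Fin (n + 1) => Plane) i).symm p)) :=
    hF.comp (MeasurableEquiv.measurable _)
  exact lintegral_prod_symm' (μ := (volume : Measure Plane))
    (ν := (volume : Measure (Fin n → Plane))) _ hm

theorem meas_chain {n : ℕ} (i : Fin (n + 1)) (f : Plane → ℝ≥0∞) (hf : Measurable f)
    (A : Fin n → Plane → Plane → ℝ≥0∞)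
    (hA : ∀ k, Measurable (fun p : Plane × Plane => A k p.1 p.2)) :
    Measurable (fun x : Fin (n + 1) → Plane =>
      f (x i) * ∏ k : Fin n, A k (x k.castSucc) (x k.succ)) := by
  refine (hf.comp (measurable_pi_apply i)).mul (Finset.measurable_prod _ fun k _ => ?_)
  have h2 : Measurable (fun x : Fin (n + 1) → Plane => (x k.castSucc, x k.succ)) :=
    (measurable_pi_apply k.castSucc).prodMk (measurable_pi_apply k.succ)
  exact (hA k).comp h2

theorem peel_last {n : ℕ} (i : Fin (n + 1)) (f : Plane → ℝ≥0∞) (hf : Measurable f)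
    (A : Fin (n + 1) → Plane → Plane → ℝ≥0∞)
    (hA : ∀ k, Measurable (fun p : Plane × Plane => A k p.1 p.2)) :
    ∫⁻ x : Fin (n + 2) → Plane, f (x i.castSucc) * ∏ k : Fin (n + 1),
        A k (x k.castSucc) (x k.succ) =
      ∫⁻ z : Fin (n + 1) → Plane, (f (z i) * ∏ k : Fin n,
        A k.castSucc (z k.castSucc) (z k.succ)) * ∫⁻ y, A (Fin.last n) (z (Fin.last n)) y := by
  rw [split_int (Fin.last (n + 1)) _ (meas_chain i.castSucc f hf A hA)]
  refine lintegral_congr fun z => ?_
  have hs : Measurable (fun y : Plane => A (Fin.last n) (z (Fin.last n)) y) :=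
    (hA (Fin.last n)).comp (measurable_const.prodMk measurable_id)
  rw [← lintegral_const_mul _ hs]
  refine lintegral_congr fun y => ?_
  rw [Fin.insertNth_last', Fin.snoc_castSucc, Fin.prod_univ_castSucc, mul_assoc, Fin.snoc_castSucc,
    Fin.succ_last, Fin.snoc_last]
  congr 2
  refine Finset.prod_congr rfl fun k _ => ?_
  rw [Fin.snoc_castSucc, ← Fin.castSucc_succ, Fin.snoc_castSucc]

theorem peel_first {n : ℕ} (i : Fin (n + 1)) (f : Plane → ℝ≥0∞) (hf : Measurable f)
    (A : Fin (n + 1) → Plane → Plane → ℝ≥0∞)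
    (hA : ∀ k, Measurable (fun p : Plane × Plane => A k p.1 p.2)) :
    ∫⁻ x : Fin (n + 2) → Plane, f (x i.succ) * ∏ k : Fin (n + 1),
        A k (x k.castSucc) (x k.succ) =
      ∫⁻ z : Fin (n + 1) → Plane, (f (z i) * ∏ k : Fin n,
        A k.succ (z k.castSucc) (z k.succ)) * ∫⁻ y, A 0 y (z 0) := by
  rw [split_int 0 _ (meas_chain i.succ f hf A hA)]
  refine lintegral_congr fun z => ?_
  have hs : Measurable (fun y : Plane => A 0 y (z 0)) :=
    (hA 0).comp (measurable_id.prodMk measurable_const)
  rw [← lintegral_const_mul _ hs]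
  refine lintegral_congr fun y => ?_
  rw [Fin.insertNth_zero', Fin.cons_succ, Fin.prod_univ_succ, mul_assoc, mul_comm (∏ k : Fin n, _)]
  congr 2

theorem base (f : Plane → ℝ≥0∞) (i : Fin 1) :
    ∫⁻ x : Fin 1 → Plane, f (x i) = ∫⁻ y, f y := by
  have h := volume_preserving_funUnique (Fin 1) Plane
  rw [← h.lintegral_comp_emb (MeasurableEquiv.measurableEmbedding _)]
  refine lintegral_congr fun x => ?_
  rw [Subsingleton.elim i 0]
  rfl

theorem chain_eq : ∀ (H : ℕ) (i : Fin (H + 1)) (f : Plane → ℝ≥0∞)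
    (A : Fin H → Plane → Plane → ℝ≥0∞) (a : Fin H → ℝ≥0∞), Measurable f →
    (∀ k, Measurable (fun p : Plane × Plane => A k p.1 p.2)) →
    (∀ k x, ∫⁻ y, A k x y = a k) → (∀ k y, ∫⁻ x, A k x y = a k) →
      ∫⁻ x : Fin (H + 1) → Plane, f (x i) * ∏ k : Fin H, A k (x k.castSucc) (x k.succ)
        = (∫⁻ y, f y) * ∏ k, a k := by
  intro H
  induction H with
  | zero =>
    intro i f A a _ _ _ _
    simp only [Finset.univ_eq_empty, Finset.prod_empty, mul_one]
    exact base f i
  | succ n ih =>
    intro i f A a hf hA h1 h2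
    induction i using Fin.lastCases with
    | last =>
      rw [← Fin.succ_last, peel_first _ f hf A hA]
      simp_rw [h2]
      rw [lintegral_mul_const _ (meas_chain _ f hf _ fun k => hA k.succ),
        ih _ f (fun k => A k.succ) (fun k => a k.succ) hf (fun k => hA k.succ)
          (fun k => h1 k.succ) (fun k => h2 k.succ), Fin.prod_univ_succ, mul_assoc,
        mul_comm (∏ k : Fin n, _)]
    | cast i =>
      rw [peel_last _ f hf A hA]
      simp_rw [h1]
      rw [lintegral_mul_const _ (meas_chain _ f hf _ fun k => hA k.castSucc),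
        ih _ f (fun k => A k.castSucc) (fun k => a k.castSucc) hf (fun k => hA k.castSucc)
          (fun k => h1 k.castSucc) (fun k => h2 k.castSucc), Fin.prod_univ_castSucc, mul_assoc]

theorem chain_le : ∀ (H : ℕ) (i : Fin (H + 1)) (f : Plane → ℝ≥0∞)
    (A : Fin H → Plane → Plane → ℝ≥0∞) (a : Fin H → ℝ≥0∞), Measurable f →
    (∀ k, Measurable (fun p : Plane × Plane => A k p.1 p.2)) →
    (∀ k x, ∫⁻ y, A k x y ≤ a k) → (∀ k y, ∫⁻ x, A k x y ≤ a k) →
      ∫⁻ x : Fin (H + 1) → Plane, f (x i) * ∏ k : Fin H, A k (x k.castSucc) (x k.succ)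
        ≤ (∫⁻ y, f y) * ∏ k, a k := by
  intro H
  induction H with
  | zero =>
    intro i f A a _ _ _ _
    simp only [Finset.univ_eq_empty, Finset.prod_empty, mul_one]
    exact (base f i).le
  | succ n ih =>
    intro i f A a hf hA h1 h2
    induction i using Fin.lastCases with
    | last =>
      rw [← Fin.succ_last, peel_first _ f hf A hA]
      refine (lintegral_mono fun z : Fin (n + 1) → Plane => mul_le_mul_right (h2 0 (z 0)) _).trans ?_
      rw [lintegral_mul_const _ (meas_chain _ f hf _ fun k => hA k.succ), Fin.prod_univ_succ,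
        mul_comm (a 0), ← mul_assoc]
      exact mul_le_mul_left (ih _ f (fun k => A k.succ) (fun k => a k.succ) hf
        (fun k => hA k.succ) (fun k => h1 k.succ) (fun k => h2 k.succ)) _
    | cast i =>
      rw [peel_last _ f hf A hA]
      refine (lintegral_mono fun z : Fin (n + 1) → Plane =>
        mul_le_mul_right (h1 (Fin.last n) (z (Fin.last n))) _).trans ?_
      rw [lintegral_mul_const _ (meas_chain _ f hf _ fun k => hA k.castSucc),
        Fin.prod_univ_castSucc, ← mul_assoc]
      exact mul_le_mul_left (ih _ f (fun k => A k.castSucc) (fun k => a k.castSucc) hf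
        (fun k => hA k.castSucc) (fun k => h1 k.castSucc) (fun k => h2 k.castSucc)) _

theorem restrict_eq (H : ℕ) (i : Fin (H + 1)) (C : Set Plane) (hC : MeasurableSet C)
    (G : (Fin (H + 1) → Plane) → ℝ≥0∞) :
    ∫⁻ x in {x : Fin (H + 1) → Plane | x i ∈ C}, G x =
      ∫⁻ x : Fin (H + 1) → Plane, C.indicator 1 (x i) * G x := by
  have hs : MeasurableSet {x : Fin (H + 1) → Plane | x i ∈ C} := measurable_pi_apply i hC
  rw [← lintegral_indicator hs]
  refine lintegral_congr fun x => ?_
  by_cases h : x i ∈ C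
  · rw [indicator_of_mem (show x ∈ {x : Fin (H + 1) → Plane | x i ∈ C} from h),
      indicator_of_mem h]
    simp
  · rw [indicator_of_notMem (show x ∉ {x : Fin (H + 1) → Plane | x i ∈ C} from h),
      indicator_of_notMem h]
    simp

end GCHL

theorem stmt_GCH : Stmt_GCH := by
  intro H i C A a hC hA
  have hf : Measurable (C.indicator (1 : Plane → ℝ≥0∞)) := measurable_one.indicator hC
  rw [GCHL.restrict_eq H i C hC, ← lintegral_indicator_one hC]
  exact ⟨fun h1 h2 => GCHL.chain_eq H i _ A a hf hA h1 h2,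
    fun h1 h2 => GCHL.chain_le H i _ A a hf hA h1 h2⟩

end MPdd5692
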