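import Mathlib
import Pool.Agent.Work.MP_dd5692_pr.InterfaceG

/-!
# MP_dd5692_pr: GHID (helper42)
-/

open MeasureTheory ProbabilityTheory Set
open scoped ENNReal NNReal BigOperators

namespace MPdd5692
namespace GHID

theorem cell_shift (j : ℕ) (v v' : Site) (x : Plane) :
    x + (pt j v' - pt j v) ∈ cell j v' ↔ x ∈ cell j v := by
  unfold cell
  simp only [Set.mem_ofPred_eq, PiLp.add_apply, PiLp.sub_apply, pt_zero', pt_one']
  constructor
  · rintro ⟨h1, h2, h3, h4⟩
    exact ⟨by linarith, by linarith, by linarith, by linarith⟩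
  · rintro ⟨h1, h2, h3, h4⟩
    exact ⟨by linarith, by linarith, by linarith, by linarith⟩

theorem cidx_siteR {q H : ℕ} (hq : 0 < q) (ξ : CMark q H) (k : Fin (H + 1)) :
    cidx q (ξ.siteR k) = ξ.c k := by
  have hq' : (0 : ℤ) < q := by exact_mod_cast hq
  have key : ∀ (c : ℤ) (i : Fin q), ((q : ℤ) * c + ((i : ℕ) : ℤ)) / (q : ℤ) = c := by
    intro c i
    rw [Int.add_comm, Int.add_mul_ediv_left _ _ hq'.ne']
    have : (((i : ℕ) : ℤ)) / (q : ℤ) = 0 :=
      Int.ediv_eq_zero_of_lt (by positivity) (by exact_mod_cast i.2)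
    rw [this, zero_add]
  unfold cidx CMark.siteR
  ext
  · exact key _ _
  · exact key _ _

end GHID

open GHID in
theorem stmt_GHID (h1 : Stmt_GSIDX) : Stmt_GHID := by
  intro s j H β ξ ξ' hs hc hg hb hr
  have hq : 0 < s * 2 ^ j := by positivity
  have hS := (h1 s j hs).1
  -- translation vector
  let v : Fin (H + 1) → Plane := fun k => pt j (ξ'.siteR k) - pt j (ξ.siteR k)
  let F : (Fin (H + 1) → Plane) → ℝ≥0∞ := fun x =>
    ∏ k : Fin H, stepK s j (ξ.g k) (x k.castSucc) (x k.succ)
  let A : Set (Fin (H + 1) → Plane) := {x | ∀ k, x k ∈ cell j (ξ.siteR k)}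
  let A' : Set (Fin (H + 1) → Plane) := {x | ∀ k, x k ∈ cell j (ξ'.siteR k)}
  have hmeas : ∀ w : Fin (H + 1) → Site,
      MeasurableSet {x : Fin (H + 1) → Plane | ∀ k, x k ∈ cell j (w k)} := by
    intro w
    rw [show {x : Fin (H + 1) → Plane | ∀ k, x k ∈ cell j (w k)} =
      ⋂ k, {x : Fin (H + 1) → Plane | x k ∈ cell j (w k)} by ext x; simp]
    exact MeasurableSet.iInter fun k => (measurable_pi_apply k) (measurableSet_cell j (w k))
  have hA : MeasurableSet A := hmeas _
  have hA' : MeasurableSet A' := hmeas _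
  have hAA : ∀ x, x + v ∈ A' ↔ x ∈ A := by
    intro x
    show (∀ k, (x + v) k ∈ cell j (ξ'.siteR k)) ↔ (∀ k, x k ∈ cell j (ξ.siteR k))
    refine forall_congr' fun k => ?_
    exact cell_shift j (ξ.siteR k) (ξ'.siteR k) (x k)
  have hvis : ∀ k, ¬ ξ.hid k → v k = 0 := by
    intro k hk
    have : ξ'.siteR k = ξ.siteR k := by
      unfold CMark.siteR
      rw [hr k hk, hc]
    show pt j (ξ'.siteR k) - pt j (ξ.siteR k) = 0
    rw [this, sub_self]
  have hFF : ∀ x ∈ A, F (x + v) = F x := by
    intro x hx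
    have hx' := (hAA x).2 hx
    refine Finset.prod_congr rfl fun k _ => ?_
    by_cases hgk : ξ.g k = true
    · have e1 : ∀ i, sidx s j ((x + v) i) = sidx s j (x i) := by
        intro i
        rw [hS _ _ (hx' i), hS _ _ (hx i), cidx_siteR hq, cidx_siteR hq, hc]
      unfold stepK
      rw [hgk]
      simp only [if_true]
      rw [e1, e1]
    · have h2 : v k.castSucc = 0 := by
        apply hvis
        intro hh
        exact hgk (hh k (Or.inl rfl))
      have h3 : v k.succ = 0 := by
        apply hvis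
        intro hh
        exact hgk (hh k (Or.inr rfl))
      rw [Pi.add_apply, Pi.add_apply, h2, h3, add_zero, add_zero]
  have key : ∫⁻ x in A', F x = ∫⁻ x in A, F x := by
    rw [← lintegral_indicator hA', ← lintegral_indicator hA,
      ← lintegral_add_right_eq_self (A'.indicator F) v]
    refine lintegral_congr fun x => ?_
    by_cases hx : x ∈ A
    · rw [indicator_of_mem hx, indicator_of_mem ((hAA x).2 hx), hFF x hx]
    · rw [indicator_of_notMem hx, indicator_of_notMem (fun h => hx ((hAA x).1 h))]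
  have e1 : massM s j β ξ = (∫⁻ x in A, F x) * ∏ k : Fin H, β {ξ.b k} := rfl
  have e2 : massM s j β ξ' = (∫⁻ x in A', F x) * ∏ k : Fin H, β {ξ.b k} := by
    unfold massM
    rw [← hg, ← hb]
  rw [e1, e2, key]

end MPdd5692
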