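import Pool.Agent.Work.MP_dd5692_pr.InterfaceG

/-! Block GKER (helper9): integrals of the kernels. -/

open MeasureTheory ProbabilityTheory Set
open scoped ENNReal NNReal BigOperators

namespace MPdd5692

namespace GKER_

/-- the Gaussian integral of the plane -/
theorem gauss {b : ℝ} (hb : 0 < b) :
    ∫⁻ z : Plane, ENNReal.ofReal (Real.exp (-b * ‖z‖ ^ 2)) = ENNReal.ofReal (Real.pi / b) := by
  have h1 := GaussianFourier.integral_rexp_neg_mul_sq_norm (V := Plane) hb
  have h2 : ((Module.finrank ℝ Plane : ℝ) / 2) = 1 := by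
    simp
  rw [h2, Real.rpow_one] at h1
  have h3 : Integrable (fun z : Plane => Real.exp (-b * ‖z‖ ^ 2)) := by
    by_contra hcon
    rw [integral_undef hcon] at h1
    have : 0 < Real.pi / b := div_pos Real.pi_pos hb
    linarith
  rw [← ofReal_integral_eq_lintegral_ofReal h3
    (Filter.Eventually.of_forall fun z => (Real.exp_pos _).le), h1]

theorem heat_nonneg (z : Plane) : 0 ≤ heat 1 z := by
  unfold heat; positivity

theorem heat_int (x : Plane) : ∫⁻ y, ENNReal.ofReal (heat 1 (y - x)) = 1 := by
  rw [lintegral_sub_right_eq_self (fun z => ENNReal.ofReal (heat 1 z)) x]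
  have h1 : ∀ z : Plane, ENNReal.ofReal (heat 1 z) =
      ENNReal.ofReal ((2 * Real.pi)⁻¹) * ENNReal.ofReal (Real.exp (-(1 / 2) * ‖z‖ ^ 2)) := by
    intro z
    rw [← ENNReal.ofReal_mul (by positivity)]
    unfold heat
    congr 2
    · rw [mul_one]
    · congr 1
      ring
  rw [lintegral_congr h1, lintegral_const_mul' _ _ ENNReal.ofReal_ne_top,
    gauss (by norm_num), ← ENNReal.ofReal_mul (by positivity)]
  have h2 : (2 * Real.pi)⁻¹ * (Real.pi / (1 / 2)) = 1 := by
    have := Real.pi_ne_zero
    field_simp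
  rw [h2, ENNReal.ofReal_one]

end GKER_

theorem stmt_GKER (h1 : Stmt_GSIDX) : Stmt_GKER := by
  refine ⟨GKER_.heat_int, ?_, ?_⟩
  · intro s hs
    set v : ℝ≥0∞ := ENNReal.ofReal ((s : ℝ) ^ 2) with hv
    set D : ℝ≥0∞ := ∑' d : Site, ENNReal.ofReal (lowK s d) * v with hD
    have key : ∀ (j : ℕ) (x : Plane), ∫⁻ y, stepK s j true x y = D := by
      intro j x
      obtain ⟨-, hm, hvol, -, -, -, -, -, -⟩ := h1 s j hs
      have e1 : ∀ y : Plane, stepK s j true x y =
          (fun c : Site => ENNReal.ofReal (lowK s (c - sidx s j x))) (sidx s j y) := by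
        intro y; simp [stepK]
      rw [lintegral_congr e1]
      rw [← lintegral_map (μ := volume)
        (f := fun c : Site => ENNReal.ofReal (lowK s (c - sidx s j x)))
        (Measurable.of_discrete) hm, lintegral_countable']
      have e2 : ∀ c : Site, (Measure.map (sidx s j) volume) {c} = v := by
        intro c
        rw [Measure.map_apply hm (MeasurableSet.singleton c)]
        exact hvol c
      rw [tsum_congr fun c => by rw [e2 c]]
      exact (Equiv.subRight (sidx s j x)).tsum_eq (fun d => ENNReal.ofReal (lowK s d) * v)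
    have hle : D ≤ 1 := by
      rw [← key 0 0, ← GKER_.heat_int 0]
      obtain ⟨-, -, -, hlow, -, -, -, -, -⟩ := h1 s 0 hs
      refine lintegral_mono fun y => ?_
      have : stepK s 0 true 0 y = ENNReal.ofReal (lowK s (sidx s 0 y - sidx s 0 0)) := by
        simp [stepK]
      rw [this]
      exact ENNReal.ofReal_le_ofReal (hlow 0 y)
    have hpos : 0 < D := by
      have h2 : 0 < ENNReal.ofReal (lowK s 0) * v := by
        have h3 : 0 < ENNReal.ofReal (lowK s 0) := by
          rw [ENNReal.ofReal_pos]
          unfold lowK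
          positivity
        have h4 : 0 < v := by
          rw [hv, ENNReal.ofReal_pos]
          have : (0 : ℝ) < s := by exact_mod_cast hs
          positivity
        exact ENNReal.mul_pos h3.ne' h4.ne'
      exact h2.trans_le (ENNReal.le_tsum (0 : Site))
    have hfin : D ≠ ⊤ := (hle.trans_lt ENNReal.one_lt_top).ne
    refine ⟨D.toReal, ENNReal.toReal_pos hpos.ne' hfin, ?_, ?_⟩
    · have := ENNReal.toReal_mono ENNReal.one_ne_top hle
      simpa using this
    · intro j x
      rw [key j x, ENNReal.ofReal_toReal hfin]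
  · refine ⟨2 * Real.exp 14, ?_, ?_⟩
    · have := Real.add_one_le_exp (14 : ℝ)
      linarith
    · intro s j hs x
      obtain ⟨-, -, -, -, hn, -, -, -, -⟩ := h1 s j hs
      have hpt : ∀ y : Plane, ENNReal.ofReal (heat 1 (y - x) *
          Real.exp ((nrm (sidx s j y - sidx s j x) : ℝ) + 12)) ≤
          (fun z : Plane => ENNReal.ofReal ((2 * Real.pi)⁻¹ * Real.exp 14) *
            ENNReal.ofReal (Real.exp (-(1 / 4) * ‖z‖ ^ 2))) (y - x) := by
        intro y
        have hn' := hn x y
        show _ ≤ ENNReal.ofReal ((2 * Real.pi)⁻¹ * Real.exp 14) *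
            ENNReal.ofReal (Real.exp (-(1 / 4) * ‖y - x‖ ^ 2))
        rw [← ENNReal.ofReal_mul (by positivity)]
        refine ENNReal.ofReal_le_ofReal ?_
        unfold heat
        rw [mul_one, mul_assoc, mul_assoc, ← Real.exp_add, ← Real.exp_add]
        refine mul_le_mul_of_nonneg_left ?_ (by positivity)
        refine Real.exp_le_exp.mpr ?_
        nlinarith [sq_nonneg (‖y - x‖ - 2)]
      refine (lintegral_mono hpt).trans ?_
      rw [lintegral_sub_right_eq_self (fun z : Plane =>
          ENNReal.ofReal ((2 * Real.pi)⁻¹ * Real.exp 14) *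
            ENNReal.ofReal (Real.exp (-(1 / 4) * ‖z‖ ^ 2))) x,
        lintegral_const_mul' _ _ ENNReal.ofReal_ne_top, GKER_.gauss (by norm_num),
        ← ENNReal.ofReal_mul (by positivity)]
      refine ENNReal.ofReal_le_ofReal (le_of_eq ?_)
      have := Real.pi_ne_zero
      field_simp
      norm_num

end MPdd5692
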