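import Mathlib
import Pool.Agent.Work.MP_dd5692_pr.InterfaceG

/-!
# MP_dd5692_pr, block GPROJ (helper75)
-/

open MeasureTheory ProbabilityTheory Set
open scoped ENNReal NNReal BigOperators

namespace MPdd5692

namespace GPROJ

variable {q H : ℕ}

/-- hidden times in terms of the flags -/
def hidG (g : Fin H → Bool) (k : Fin (H + 1)) : Prop :=
  ∀ i : Fin H, (i.castSucc = k ∨ i.succ = k) → g i = true

lemma emod_lt (q : ℕ) [NeZero q] (a : ℤ) : (a % (q:ℤ)).toNat < q := by
  have hq : (0:ℤ) < q := by exact_mod_cast NeZero.pos q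
  have h1 := Int.emod_lt_of_pos a hq
  have h2 := Int.emod_nonneg a hq.ne'
  omega

/-- position of a site inside its block -/
def lv (q : ℕ) [NeZero q] (z : Site) : Fin q × Fin q :=
  (⟨(z.1 % (q:ℤ)).toNat, emod_lt q z.1⟩, ⟨(z.2 % (q:ℤ)).toNat, emod_lt q z.2⟩)

/-- assemble a site -/
def asm (q : ℕ) (c : Site) (p : Fin q × Fin q) : Site :=
  ((q : ℤ) * c.1 + ((p.1 : ℕ) : ℤ), (q : ℤ) * c.2 + ((p.2 : ℕ) : ℤ))

lemma divmod {q : ℤ} (hq : 0 < q) (c r : ℤ) (h0 : 0 ≤ r) (h1 : r < q) :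
    (q * c + r) / q = c ∧ (q * c + r) % q = r := by
  constructor
  · rw [add_comm, Int.add_mul_ediv_left _ _ hq.ne', Int.ediv_eq_zero_of_lt h0 h1, zero_add]
  · rw [add_comm, Int.add_mul_emod_self_left, Int.emod_eq_of_lt h0 h1]

lemma asm_eq [NeZero q] (c : Site) (p : Fin q × Fin q) :
    cidx q (asm q c p) = c ∧ lv q (asm q c p) = p := by
  have hq : (0:ℤ) < q := by exact_mod_cast NeZero.pos q
  have h1 := divmod hq c.1 ((p.1 : ℕ) : ℤ) (by positivity) (by exact_mod_cast p.1.2)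
  have h2 := divmod hq c.2 ((p.2 : ℕ) : ℤ) (by positivity) (by exact_mod_cast p.2.2)
  constructor
  · exact Prod.ext h1.1 h2.1
  · refine Prod.ext (Fin.ext ?_) (Fin.ext ?_)
    · show (((q : ℤ) * c.1 + ((p.1 : ℕ) : ℤ)) % (q:ℤ)).toNat = p.1
      rw [h1.2]; exact Int.toNat_natCast _
    · show (((q : ℤ) * c.2 + ((p.2 : ℕ) : ℤ)) % (q:ℤ)).toNat = p.2
      rw [h2.2]; exact Int.toNat_natCast _

lemma asm_cidx [NeZero q] (z : Site) : asm q (cidx q z) (lv q z) = z := by
  have hq : (0:ℤ) < q := by exact_mod_cast NeZero.pos q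
  refine Prod.ext ?_ ?_
  · show (q:ℤ) * (z.1 / (q:ℤ)) + (((z.1 % (q:ℤ)).toNat : ℕ) : ℤ) = z.1
    rw [Int.toNat_of_nonneg (Int.emod_nonneg _ hq.ne')]
    exact Int.mul_ediv_add_emod z.1 q
  · show (q:ℤ) * (z.2 / (q:ℤ)) + (((z.2 % (q:ℤ)).toNat : ℕ) : ℤ) = z.2
    rw [Int.toNat_of_nonneg (Int.emod_nonneg _ hq.ne')]
    exact Int.mul_ediv_add_emod z.2 q

lemma loc_hid (θ : FMark q H) (k : Fin (H + 1)) (h : hidG θ.1.g k) : FMark.loc θ k = θ.2 k := by
  unfold FMark.loc
  exact if_pos h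

lemma loc_not (θ : FMark q H) (k : Fin (H + 1)) (h : ¬ hidG θ.1.g k) :
    FMark.loc θ k = θ.1.r k := by
  unfold FMark.loc
  exact if_neg h

lemma site_eq (θ : FMark q H) (k : Fin (H + 1)) :
    FMark.site θ k = asm q (θ.1.c k) (FMark.loc θ k) := rfl

open Classical in
/-- the fine mark with given flags and free labels -/
noncomputable def mk [NeZero q] (v : Fin (H + 1) → Site) (b : Fin H → ℕ)
    (p : (Fin H → Bool) × (Fin (H + 1) → Fin q × Fin q)) : FMark q H :=
  (⟨fun k => cidx q (v k), p.1, b, fun k => if hidG p.1 k then p.2 k else lv q (v k)⟩,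
    fun k => if hidG p.1 k then lv q (v k) else p.2 k)

lemma mk_loc [NeZero q] (v : Fin (H + 1) → Site) (b : Fin H → ℕ)
    (p : (Fin H → Bool) × (Fin (H + 1) → Fin q × Fin q)) (k : Fin (H + 1)) :
    FMark.loc (mk v b p) k = lv q (v k) := by
  classical
  by_cases h : hidG p.1 k
  · rw [loc_hid _ _ h]
    exact if_pos h
  · rw [loc_not _ _ h]
    exact if_neg h

lemma mk_site [NeZero q] (v : Fin (H + 1) → Site) (b : Fin H → ℕ)
    (p : (Fin H → Bool) × (Fin (H + 1) → Fin q × Fin q)) : FMark.site (mk v b p) = v := by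
  funext k
  rw [site_eq, mk_loc]
  exact asm_cidx (v k)

open Classical in
/-- the fibre of the projection -/
noncomputable def fib [NeZero q] (v : Fin (H + 1) → Site) (b : Fin H → ℕ) :
    (Fin H → Bool) × (Fin (H + 1) → Fin q × Fin q) ≃
      {θ : FMark q H // FMark.site θ = v ∧ θ.1.b = b} where
  toFun p := ⟨mk v b p, mk_site v b p, rfl⟩
  invFun θ := (θ.1.1.g, fun k => if hidG θ.1.1.g k then θ.1.1.r k else θ.1.2 k)
  left_inv p := by
    refine Prod.ext rfl ?_
    funext k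
    show (if hidG p.1 k then (if hidG p.1 k then p.2 k else lv q (v k)) else
      (if hidG p.1 k then lv q (v k) else p.2 k)) = p.2 k
    by_cases h : hidG p.1 k
    · rw [if_pos h, if_pos h]
    · rw [if_neg h, if_neg h]
  right_inv θ := by
    obtain ⟨⟨⟨c, g, b', r⟩, u⟩, hs, hb⟩ := θ
    have hb' : b' = b := hb
    subst hb'
    have hk : ∀ k, asm q (c k) (FMark.loc ((⟨c, g, b', r⟩, u) : FMark q H) k) = v k := fun k =>
      congrFun hs k
    have hc : (fun k => cidx q (v k)) = c := by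
      funext k
      rw [← hk k]
      exact (asm_eq _ _).1
    have hl : ∀ k, lv q (v k) = FMark.loc ((⟨c, g, b', r⟩, u) : FMark q H) k := by
      intro k
      rw [← hk k]
      exact (asm_eq _ _).2
    refine Subtype.ext ?_
    refine Prod.ext ?_ ?_
    · show (⟨fun k => cidx q (v k), g, b', fun k => if hidG g k then
        (if hidG g k then r k else u k) else lv q (v k)⟩ : CMark q H) = ⟨c, g, b', r⟩
      have hr : (fun k => if hidG g k then (if hidG g k then r k else u k) else lv q (v k)) = r := by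
        funext k
        by_cases h : hidG g k
        · rw [if_pos h, if_pos h]
        · rw [if_neg h, hl k]
          exact loc_not ((⟨c, g, b', r⟩, u) : FMark q H) k h
      rw [hc, hr]
    · show (fun k => if hidG g k then lv q (v k) else (if hidG g k then r k else u k)) = u
      funext k
      by_cases h : hidG g k
      · rw [if_pos h, hl k]
        exact loc_hid ((⟨c, g, b', r⟩, u) : FMark q H) k h
      · rw [if_neg h, if_neg h]

end GPROJ

open GPROJ in
theorem stmt_GPROJ (h1 : Stmt_GSIDX) (h2 : Stmt_GHID) : Stmt_GPROJ := by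
  intro s j H _ β hs v b
  obtain ⟨-, -, -, -, -, -, hmeas, -, hsum⟩ := h1 s j hs
  rw [← (fib (q := s * 2 ^ j) v b).tsum_eq, tsum_fintype, Fintype.sum_prod_type]
  -- the common mass
  obtain ⟨ξ, hξ⟩ : ∃ ξ : (Fin H → Bool) → CMark (s * 2 ^ j) H,
      ξ = fun g => ⟨fun k => cidx (s * 2 ^ j) (v k), g, b, fun k => lv (s * 2 ^ j) (v k)⟩ :=
    ⟨_, rfl⟩
  have hmass : ∀ (g : Fin H → Bool) (f : Fin (H + 1) → Fin (s * 2 ^ j) × Fin (s * 2 ^ j)),
      massM s j β ((fib v b) (g, f)).1.1 = massM s j β (ξ g) := by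
    intro g f
    classical
    refine h2 s j H β _ _ hs ?_ ?_ ?_ ?_
    · rw [hξ]; rfl
    · rw [hξ]; rfl
    · rw [hξ]; rfl
    · intro k hk
      rw [hξ]
      exact if_neg hk
  have hD : (((s * 2 ^ j : ℕ) : ℝ≥0∞) ^ 2) ^ (H + 1) ≠ 0 := by
    have : ((s * 2 ^ j : ℕ) : ℝ≥0∞) ≠ 0 := by
      exact_mod_cast NeZero.ne (s * 2 ^ j)
    exact pow_ne_zero _ (pow_ne_zero _ this)
  have hD' : (((s * 2 ^ j : ℕ) : ℝ≥0∞) ^ 2) ^ (H + 1) ≠ ⊤ :=
    ENNReal.pow_ne_top (ENNReal.pow_ne_top (ENNReal.natCast_ne_top _))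
  have hstep : ∀ g : Fin H → Bool,
      ∑ f : Fin (H + 1) → Fin (s * 2 ^ j) × Fin (s * 2 ^ j),
        massM s j β ((fib v b) (g, f)).1.1 / (((s * 2 ^ j : ℕ) : ℝ≥0∞) ^ 2) ^ (H + 1)
        = massM s j β (ξ g) := by
    intro g
    rw [Finset.sum_congr rfl (fun f _ => by rw [hmass g f])]
    rw [Finset.sum_const, Finset.card_univ, nsmul_eq_mul]
    have hcard : ((Fintype.card (Fin (H + 1) → Fin (s * 2 ^ j) × Fin (s * 2 ^ j)) : ℕ) : ℝ≥0∞) =
        (((s * 2 ^ j : ℕ) : ℝ≥0∞) ^ 2) ^ (H + 1) := by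
      rw [Fintype.card_fun, Fintype.card_prod, Fintype.card_fin, Fintype.card_fin, Nat.cast_pow,
        Nat.cast_mul, ← sq]
    rw [hcard]
    exact ENNReal.mul_div_cancel hD hD'
  rw [Finset.sum_congr rfl (fun g _ => hstep g)]
  -- the integrals
  have hM : ∀ g : Fin H → Bool, massM s j β (ξ g) =
      (∫⁻ x in {x : Fin (H + 1) → Plane | ∀ k, x k ∈ cell j (v k)},
        ∏ k : Fin H, stepK s j (g k) (x k.castSucc) (x k.succ)) * ∏ k : Fin H, β {b k} := by
    intro g
    have hsite : ∀ k, (ξ g).siteR k = v k := by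
      intro k
      rw [hξ]
      exact asm_cidx (v k)
    unfold massM
    simp only [hsite]
    rw [hξ]
  have hpt : ∀ x : Fin (H + 1) → Plane,
      ∏ k : Fin H, ENNReal.ofReal (heat 1 (x k.succ - x k.castSucc)) =
      ∑ g : Fin H → Bool, ∏ k : Fin H, stepK s j (g k) (x k.castSucc) (x k.succ) := by
    intro x
    have h3 : ∀ k : Fin H, ENNReal.ofReal (heat 1 (x k.succ - x k.castSucc)) =
        ∑ g : Bool, stepK s j g (x k.castSucc) (x k.succ) := by
      intro k
      rw [Fintype.sum_bool]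
      exact (hsum _ _).symm
    rw [Finset.prod_congr rfl (fun k _ => h3 k), Finset.prod_univ_sum, Fintype.piFinset_univ]
  have hint : ∫⁻ x in {x : Fin (H + 1) → Plane | ∀ k, x k ∈ cell j (v k)},
      ∏ k : Fin H, ENNReal.ofReal (heat 1 (x k.succ - x k.castSucc)) =
      ∑ g : Fin H → Bool, ∫⁻ x in {x : Fin (H + 1) → Plane | ∀ k, x k ∈ cell j (v k)},
        ∏ k : Fin H, stepK s j (g k) (x k.castSucc) (x k.succ) := by
    rw [← lintegral_finsetSum]
    · exact lintegral_congr fun x => hpt x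
    · intro g _
      refine Finset.measurable_prod _ fun k _ => ?_
      have hm1 : Measurable (fun x : Fin (H + 1) → Plane => (x k.castSucc, x k.succ)) :=
        (measurable_pi_apply k.castSucc).prodMk (measurable_pi_apply k.succ)
      have hm2 := (hmeas (g k)).comp hm1
      have hfun : (fun p : Plane × Plane => stepK s j (g k) p.1 p.2) ∘
          (fun x : Fin (H + 1) → Plane => (x k.castSucc, x k.succ)) =
          fun x : Fin (H + 1) → Plane => stepK s j (g k) (x k.castSucc) (x k.succ) := by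
        funext x
        rfl
      rw [hfun] at hm2
      exact hm2
  have hmm : markMass 1 β j H (v, b) =
      (∫⁻ x in {x : Fin (H + 1) → Plane | ∀ k, x k ∈ cell j (v k)},
        ∏ k : Fin H, ENNReal.ofReal (heat 1 (x k.succ - x k.castSucc))) *
        ∏ k : Fin H, β {b k} := rfl
  rw [hmm, hint, Finset.sum_mul]
  exact Finset.sum_congr rfl (fun g _ => hM g)

end MPdd5692
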