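import Pool.Agent.Work.MP_dd5692_pr.InterfaceG

/-!
# MP_dd5692_pr: block GSIDX (helper76): elementary facts about s-cells
-/

open MeasureTheory ProbabilityTheory Set
open scoped ENNReal NNReal BigOperators

namespace MPdd5692

namespace Gs76

theorem q_mesh (s j : ℕ) : ((s * 2 ^ j : ℕ) : ℝ) * mesh j = s := by
  unfold mesh
  push_cast
  rw [mul_assoc, ← mul_pow]
  norm_num

/-- one coordinate -/
theorem coord (s j : ℕ) (hs : 1 ≤ s) (u : ℝ) (c : ℤ) :
    round (u / mesh j) / ((s * 2 ^ j : ℕ) : ℤ) = c ↔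
      (s : ℝ) * c ≤ u + mesh j / 2 ∧ u + mesh j / 2 < s * (c + 1) := by
  have hk := mesh_pos j
  have hq : 0 < ((s * 2 ^ j : ℕ) : ℤ) := by positivity
  have h0 : round (u / mesh j) / ((s * 2 ^ j : ℕ) : ℤ) = c ↔
      c ≤ round (u / mesh j) / ((s * 2 ^ j : ℕ) : ℤ) ∧
        round (u / mesh j) / ((s * 2 ^ j : ℕ) : ℤ) < c + 1 := by omega
  rw [h0, Int.le_ediv_iff_mul_le hq, Int.ediv_lt_iff_lt_mul hq, round_eq, Int.le_floor, Int.floor_lt]
  have h1 : u / mesh j + 1 / 2 = (u + mesh j / 2) / mesh j := by field_simp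
  rw [h1, le_div_iff₀ hk, div_lt_iff₀ hk]
  have h2 := q_mesh s j
  have h3 : (((c * ((s * 2 ^ j : ℕ) : ℤ) : ℤ)) : ℝ) * mesh j = s * c := by
    rw [← h2]; push_cast; ring
  have h4 : ((((c + 1) * ((s * 2 ^ j : ℕ) : ℤ) : ℤ)) : ℝ) * mesh j = s * (c + 1) := by
    rw [← h2]; push_cast; ring
  rw [h3, h4]

theorem sidx_iff (s j : ℕ) (hs : 1 ≤ s) (x : Plane) (c : Site) :
    sidx s j x = c ↔ ((s : ℝ) * c.1 ≤ x 0 + mesh j / 2 ∧ x 0 + mesh j / 2 < s * (c.1 + 1)) ∧
      ((s : ℝ) * c.2 ≤ x 1 + mesh j / 2 ∧ x 1 + mesh j / 2 < s * (c.2 + 1)) := by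
  rw [← coord s j hs, ← coord s j hs]
  unfold sidx cidx cellIdx
  rw [Prod.ext_iff]

theorem meas0 : Measurable (fun x : Plane => x 0) :=
  (by fun_prop : Continuous fun x : Plane => x 0).measurable

theorem meas1 : Measurable (fun x : Plane => x 1) :=
  (by fun_prop : Continuous fun x : Plane => x 1).measurable

theorem meas_round (k : ℝ) (f : Plane → ℝ) (hf : Measurable f) :
    Measurable (fun x : Plane => round (f x / k)) := by
  simp only [round_eq]
  exact Int.measurable_floor.comp ((hf.div_const _).add_const (1 / 2))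

theorem meas_sidx (s j : ℕ) : Measurable (sidx s j) := by
  have h1 : Measurable (cellIdx j) := by
    unfold cellIdx
    exact Measurable.prodMk (meas_round _ _ meas0) (meas_round _ _ meas1)
  have h2 : Measurable (cidx (s * 2 ^ j)) := Measurable.of_discrete
  exact h2.comp h1

theorem vol (s j : ℕ) (hs : 1 ≤ s) (c : Site) :
    volume {x : Plane | sidx s j x = c} = ENNReal.ofReal ((s : ℝ) ^ 2) := by
  have e : {x : Plane | sidx s j x = c} = (MeasurableEquiv.toLp 2 (Fin 2 → ℝ)).symm ⁻¹'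
      (Set.pi Set.univ (fun i : Fin 2 => Set.Ico
        ((s : ℝ) * ((![c.1, c.2] i : ℤ) : ℝ) - mesh j / 2)
        ((s : ℝ) * ((![c.1, c.2] i : ℤ) : ℝ) + s - mesh j / 2))) := by
    ext x
    simp only [Set.mem_ofPred_eq, Set.mem_preimage, Set.mem_pi, Set.mem_univ, forall_true_left,
      Fin.forall_fin_two, Set.mem_Ico, sidx_iff s j hs]
    simp only [MeasurableEquiv.toLp_symm_apply]
    simp only [Matrix.cons_val_zero, Matrix.cons_val_one]
    have a1 : (s : ℝ) * (c.1 + 1) = s * c.1 + s := by ring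
    have a2 : (s : ℝ) * (c.2 + 1) = s * c.2 + s := by ring
    rw [a1, a2, sub_le_iff_le_add, sub_le_iff_le_add, lt_sub_iff_add_lt, lt_sub_iff_add_lt]
  have hmp : MeasurePreserving (MeasurableEquiv.toLp 2 (Fin 2 → ℝ)).symm :=
    (EuclideanSpace.volume_preserving_symm_measurableEquiv_toLp (Fin 2))
  rw [e, hmp.measure_preimage (MeasurableSet.univ_pi fun i => measurableSet_Ico).nullMeasurableSet,
    Real.volume_pi_Ico]
  simp only [Fin.prod_univ_two]
  have e2 : ∀ i : Fin 2, ((s : ℝ) * ((![c.1, c.2] i : ℤ) : ℝ) + s - mesh j / 2) -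
      ((s : ℝ) * ((![c.1, c.2] i : ℤ) : ℝ) - mesh j / 2) = s := by intro i; ring
  rw [e2, e2, ← ENNReal.ofReal_mul (by positivity), pow_two]

/-- position of the difference -/
theorem diff (s j : ℕ) (hs : 1 ≤ s) (x y : Plane) :
    |y 0 - x 0| ≤ s * (|(((sidx s j y - sidx s j x).1 : ℤ) : ℝ)| + 1) ∧
    |y 1 - x 1| ≤ s * (|(((sidx s j y - sidx s j x).2 : ℤ) : ℝ)| + 1) ∧
    |(((sidx s j y - sidx s j x).1 : ℤ) : ℝ)| ≤ |y 0 - x 0| + 1 ∧
    |(((sidx s j y - sidx s j x).2 : ℤ) : ℝ)| ≤ |y 1 - x 1| + 1 := by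
  obtain ⟨⟨hx1, hx2⟩, hx3, hx4⟩ := (sidx_iff s j hs x (sidx s j x)).1 rfl
  obtain ⟨⟨hy1, hy2⟩, hy3, hy4⟩ := (sidx_iff s j hs y (sidx s j y)).1 rfl
  have hs' : (1 : ℝ) ≤ s := by exact_mod_cast hs
  have key : ∀ (a b u v : ℝ), (s : ℝ) * a ≤ u + mesh j / 2 → u + mesh j / 2 < s * (a + 1) →
      (s : ℝ) * b ≤ v + mesh j / 2 → v + mesh j / 2 < s * (b + 1) →
      |v - u| ≤ s * (|b - a| + 1) ∧ |b - a| ≤ |v - u| + 1 := by
    intro a b u v h1 h2 h3 h4
    have g1 : v - u < s * (b - a + 1) := by nlinarith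
    have g2 : s * (b - a - 1) < v - u := by nlinarith
    constructor
    · rw [abs_le]
      constructor
      · have := neg_abs_le (b - a)
        nlinarith
      · have := le_abs_self (b - a)
        nlinarith
    · rw [abs_le]
      have p1 := le_abs_self (v - u)
      have p2 := neg_abs_le (v - u)
      have p3 := abs_nonneg (v - u)
      constructor
      · by_contra hc
        push Not at hc
        nlinarith
      · by_contra hc
        push Not at hc
        nlinarith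
  have r1 := key _ _ _ _ hx1 hx2 hy1 hy2
  have r2 := key _ _ _ _ hx3 hx4 hy3 hy4
  simp only [Prod.fst_sub, Prod.snd_sub]
  push_cast
  exact ⟨r1.1, r2.1, r1.2, r2.2⟩

theorem norm_sq (z : Plane) : ‖z‖ ^ 2 = |z 0| ^ 2 + |z 1| ^ 2 := by
  rw [EuclideanSpace.norm_sq_eq]
  simp [Fin.sum_univ_two]

theorem low_le (s j : ℕ) (hs : 1 ≤ s) (x y : Plane) :
    lowK s (sidx s j y - sidx s j x) ≤ heat 1 (y - x) := by
  obtain ⟨h1, h2, -, -⟩ := diff s j hs x y
  unfold lowK heat
  have e1 : (2 * Real.pi * 1)⁻¹ = (2 * Real.pi)⁻¹ := by ring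
  rw [e1]
  apply mul_le_mul_of_nonneg_left _ (by positivity)
  apply Real.exp_le_exp.2
  have g1 := pow_le_pow_left₀ (abs_nonneg _) h1 2
  have g2 := pow_le_pow_left₀ (abs_nonneg _) h2 2
  have e2 : ‖y - x‖ ^ 2 = |y 0 - x 0| ^ 2 + |y 1 - x 1| ^ 2 := by
    rw [norm_sq]; simp
  rw [e2]
  rw [mul_pow] at g1 g2
  linarith

theorem low_pos (s : ℕ) (d : Site) : 0 < lowK s d := by
  unfold lowK; positivity

theorem sidx_add (s j : ℕ) (hs : 1 ≤ s) (x : Plane) (t : Site) :
    sidx s j (x + ptS s t) = sidx s j x + t := by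
  rw [sidx_iff s j hs]
  obtain ⟨⟨hx1, hx2⟩, hx3, hx4⟩ := (sidx_iff s j hs x (sidx s j x)).1 rfl
  have e0 : (x + ptS s t) 0 = x 0 + s * t.1 := by simp [ptS]
  have e1 : (x + ptS s t) 1 = x 1 + s * t.2 := by simp [ptS]
  rw [e0, e1]
  simp only [Prod.fst_add, Prod.snd_add]
  push_cast
  refine ⟨⟨?_, ?_⟩, ?_, ?_⟩ <;> nlinarith

theorem meas_diff (s j : ℕ) :
    Measurable (fun p : Plane × Plane => lowK s (sidx s j p.2 - sidx s j p.1)) := by
  have h1 : Measurable (lowK s) := Measurable.of_discrete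
  exact h1.comp (((meas_sidx s j).comp measurable_snd).sub ((meas_sidx s j).comp measurable_fst))

theorem meas_heat : Measurable (fun p : Plane × Plane => heat 1 (p.2 - p.1)) := by
  unfold heat
  fun_prop

end Gs76

theorem stmt_GSIDX : Stmt_GSIDX := by
  intro s j hs
  have hsym : ∀ x y : Plane, lowK s (sidx s j y - sidx s j x) = lowK s (sidx s j x - sidx s j y) := by
    intro x y
    unfold lowK
    have e1 : |(((sidx s j y - sidx s j x).1 : ℤ) : ℝ)| = |(((sidx s j x - sidx s j y).1 : ℤ) : ℝ)| := by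
      simp only [Prod.fst_sub]; push_cast; rw [abs_sub_comm]
    have e2 : |(((sidx s j y - sidx s j x).2 : ℤ) : ℝ)| = |(((sidx s j x - sidx s j y).2 : ℤ) : ℝ)| := by
      simp only [Prod.snd_sub]; push_cast; rw [abs_sub_comm]
    rw [e1, e2]
  have hheat : ∀ x y : Plane, heat 1 (y - x) = heat 1 (x - y) := by
    intro x y
    unfold heat
    rw [norm_sub_rev]
  refine ⟨?_, Gs76.meas_sidx s j, Gs76.vol s j hs, Gs76.low_le s j hs, ?_, Gs76.sidx_add s j hs,
    ?_, ?_, ?_⟩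
  · intro x v hx
    rw [mem_cell_iff] at hx
    unfold sidx
    rw [hx]
  · intro x y
    obtain ⟨-, -, h3, h4⟩ := Gs76.diff s j hs x y
    have n0 : |y 0 - x 0| ≤ ‖y - x‖ := by
      have := PiLp.norm_apply_le (y - x) 0
      simpa using this
    have n1 : |y 1 - x 1| ≤ ‖y - x‖ := by
      have := PiLp.norm_apply_le (y - x) 1
      simpa using this
    unfold nrm
    push_cast
    apply max_le
    · linarith
    · linarith
  · intro g
    cases g
    · simp only [stepK, Bool.false_eq_true, if_false]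
      exact (Gs76.meas_heat.sub (Gs76.meas_diff s j)).ennreal_ofReal
    · simp only [stepK, if_true]
      exact (Gs76.meas_diff s j).ennreal_ofReal
  · intro g x y
    unfold stepK
    rw [hsym x y, hheat x y]
  · intro x y
    simp only [stepK, Bool.false_eq_true, if_false, if_true]
    rw [← ENNReal.ofReal_add (Gs76.low_pos s _).le (sub_nonneg.2 (Gs76.low_le s j hs x y))]
    congr 1
    ring

end MPdd5692
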