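import Mathlib
import Pool.Agent.Work.MP_dd5692_pr.InterfaceG

/-!
# MP_dd5692_pr: GSTAT (helper42)
-/

open MeasureTheory ProbabilityTheory Set
open scoped ENNReal NNReal BigOperators

namespace MPdd5692
namespace GSTAT

theorem tsum_prod_beta (H : ℕ) (β : Measure ℕ) (hβ : (∑' b : ℕ, β {b} = 1)) :
    ∑' b : Fin H → ℕ, ∏ k, β {b k} = 1 := by
  have h1 : β univ = 1 := by
    rw [← hβ]
    have := lintegral_countable' (μ := β) (fun _ => (1 : ℝ≥0∞))
    simpa using this
  have : IsProbabilityMeasure β := ⟨h1⟩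
  have h2 := lintegral_countable' (μ := Measure.pi fun _ : Fin H => β) (fun _ => (1 : ℝ≥0∞))
  simp only [lintegral_const, measure_univ, mul_one, one_mul, Measure.pi_singleton] at h2
  exact h2.symm

theorem cells_partition (j H : ℕ) (k : Fin (H + 1)) (x : Site)
    (F : (Fin (H + 1) → Plane) → ℝ≥0∞) :
    ∑' v : {v : Fin (H + 1) → Site // v k = x},
      ∫⁻ y in {y : Fin (H + 1) → Plane | ∀ i, y i ∈ cell j (v.1 i)}, F y =
    ∫⁻ y in {y : Fin (H + 1) → Plane | y k ∈ cell j x}, F y := by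
  have hmeas : ∀ w : Fin (H + 1) → Site,
      MeasurableSet {x : Fin (H + 1) → Plane | ∀ k, x k ∈ cell j (w k)} := by
    intro w
    rw [show {x : Fin (H + 1) → Plane | ∀ k, x k ∈ cell j (w k)} =
      ⋂ k, {x : Fin (H + 1) → Plane | x k ∈ cell j (w k)} by ext x; simp]
    exact MeasurableSet.iInter fun k => (measurable_pi_apply k) (measurableSet_cell j (w k))
  have e : {y : Fin (H + 1) → Plane | y k ∈ cell j x} =
      ⋃ v : {v : Fin (H + 1) → Site // v k = x},
        {y : Fin (H + 1) → Plane | ∀ i, y i ∈ cell j (v.1 i)} := by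
    ext y
    simp only [mem_ofPred_eq, mem_iUnion]
    constructor
    · intro h
      exact ⟨⟨fun i => cellIdx j (y i), (mem_cell_iff j x (y k)).1 h⟩,
        fun i => mem_cell_cellIdx j (y i)⟩
    · rintro ⟨⟨v, hv⟩, h⟩
      have := h k
      simp only at this
      rwa [hv] at this
  rw [e]
  refine (lintegral_iUnion (μ := volume)
    (s := fun v : {v : Fin (H + 1) → Site // v k = x} =>
      {y : Fin (H + 1) → Plane | ∀ i, y i ∈ cell j (v.1 i)}) (fun v => hmeas v.1) ?_ F).symm
  intro v w hvw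
  rw [Function.onFun, Set.disjoint_left]
  intro y hy hy'
  apply hvw
  apply Subtype.ext
  funext i
  rw [← (mem_cell_iff j _ _).1 (hy i), ← (mem_cell_iff j _ _).1 (hy' i)]

end GSTAT

open GSTAT in
theorem stmt_GSTAT (h1 : Stmt_GKER) (h2 : Stmt_GCH) : Stmt_GSTAT := by
  intro j H β hβ k x
  let F : (Fin (H + 1) → Plane) → ℝ≥0∞ := fun y =>
    ∏ i : Fin H, ENNReal.ofReal (heat 1 (y i.succ - y i.castSucc))
  -- split the sum
  have e1 : ∑' m : {m : Mark H // m.1 k = x}, markMass 1 β j H m.1 =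
      ∑' p : {v : Fin (H + 1) → Site // v k = x} × (Fin H → ℕ),
        (∫⁻ y in {y : Fin (H + 1) → Plane | ∀ i, y i ∈ cell j (p.1.1 i)}, F y) *
          ∏ i, β {p.2 i} := by
    rw [← (Equiv.prodSubtypeFstEquivSubtypeProd
      (p := fun v : Fin (H + 1) → Site => v k = x) (β := Fin H → ℕ)).symm.tsum_eq]
    rfl
  rw [e1, ENNReal.tsum_prod']
  simp only
  simp_rw [ENNReal.tsum_mul_left, tsum_prod_beta H β hβ, mul_one]
  rw [cells_partition j H k x F]
  have hheat : ∀ y z : Plane, heat 1 (y - z) = heat 1 (z - y) := by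
    intro y z
    unfold heat
    rw [← norm_neg, neg_sub]
  have hmeas : Measurable (fun p : Plane × Plane => ENNReal.ofReal (heat 1 (p.2 - p.1))) := by
    unfold heat
    fun_prop
  have h3 := (h2 H k (cell j x) (fun _ y z => ENNReal.ofReal (heat 1 (z - y))) (fun _ => 1)
    (measurableSet_cell j x) (fun _ => hmeas)).1 (fun _ y => h1.1 y) (fun _ z => by
      simp_rw [hheat z]; exact h1.1 z)
  have h4 : ∫⁻ y in {y : Fin (H + 1) → Plane | y k ∈ cell j x}, F y =
      volume (cell j x) * ∏ _i : Fin H, (1 : ℝ≥0∞) := h3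
  rw [h4, volume_cell]
  simp only [Finset.prod_const_one, mul_one]
  rw [← ENNReal.ofReal_coe_nnreal]
  push_cast
  rfl

end MPdd5692
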