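import Mathlib
import Pool.Agent.Work.MP_dd5692_pr.InterfaceG
import Pool.Agent.Work.MP_dd5692_pr.GPROJ

/-!
# MP_dd5692_pr, block GSUM (helper40)
-/

open MeasureTheory ProbabilityTheory Set
open scoped ENNReal NNReal BigOperators

namespace MPdd5692

namespace GSUM

open GPROJ

theorem prod_tsum : ∀ (H : ℕ) (f : Fin H → ℕ → ℝ≥0∞),
    ∑' b : Fin H → ℕ, ∏ k, f k (b k) = ∏ k, ∑' b, f k b := by
  intro H
  induction H with
  | zero =>
    intro f
    simp only [Finset.univ_eq_empty, Finset.prod_empty]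
    rw [tsum_fintype]
    simp
  | succ H ih =>
    intro f
    rw [Fin.prod_univ_succ, ← ih (fun k => f k.succ)]
    rw [← (Fin.consEquiv (fun _ : Fin (H + 1) => ℕ)).tsum_eq, ENNReal.tsum_prod']
    rw [← ENNReal.tsum_mul_right]
    refine tsum_congr fun a => ?_
    rw [← ENNReal.tsum_mul_left]
    refine tsum_congr fun b => ?_
    rw [Fin.prod_univ_succ]
    simp [Fin.consEquiv]

theorem meas_cells (j : ℕ) {H : ℕ} (w : Fin (H + 1) → Site) :
    MeasurableSet {x : Fin (H + 1) → Plane | ∀ k, x k ∈ cell j (w k)} := by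
  rw [show {x : Fin (H + 1) → Plane | ∀ k, x k ∈ cell j (w k)} =
    ⋂ k, {x : Fin (H + 1) → Plane | x k ∈ cell j (w k)} by ext x; simp]
  exact MeasurableSet.iInter fun k => (measurable_pi_apply k) (measurableSet_cell j (w k))

theorem cells_partition (q j H : ℕ) (i : Fin (H + 1)) (c : Site) (E : Set (Fin (H + 1) → Plane))
    (hE : ∀ y : Fin (H + 1) → Plane, y ∈ E ↔ cidx q (cellIdx j (y i)) = c)
    (F : (Fin (H + 1) → Plane) → ℝ≥0∞) :
    ∑' v : {v : Fin (H + 1) → Site // cidx q (v i) = c},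
      ∫⁻ y in {y : Fin (H + 1) → Plane | ∀ k, y k ∈ cell j (v.1 k)}, F y =
    ∫⁻ y in E, F y := by
  have e : E = ⋃ v : {v : Fin (H + 1) → Site // cidx q (v i) = c},
        {y : Fin (H + 1) → Plane | ∀ k, y k ∈ cell j (v.1 k)} := by
    ext y
    rw [hE]
    simp only [mem_iUnion, mem_ofPred_eq]
    constructor
    · intro h
      exact ⟨⟨fun k => cellIdx j (y k), h⟩, fun k => mem_cell_cellIdx j (y k)⟩
    · rintro ⟨⟨v, hv⟩, h⟩
      rw [(mem_cell_iff j _ _).1 (h i)]
      exact hv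
  rw [e]
  refine (lintegral_iUnion (μ := volume)
    (s := fun v : {v : Fin (H + 1) → Site // cidx q (v i) = c} =>
      {y : Fin (H + 1) → Plane | ∀ k, y k ∈ cell j (v.1 k)}) (fun v => meas_cells j v.1) ?_ F).symm
  intro v w hvw
  rw [Function.onFun, Set.disjoint_left]
  intro y hy hy'
  apply hvw
  apply Subtype.ext
  funext k
  rw [← (mem_cell_iff j _ _).1 (hy k), ← (mem_cell_iff j _ _).1 (hy' k)]

/-- marks as sites, flags, bridges -/
def eqv (q H : ℕ) [NeZero q] (i : Fin (H + 1)) (c : Site) :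
    {v : Fin (H + 1) → Site // cidx q (v i) = c} × ((Fin H → Bool) × (Fin H → ℕ)) ≃
      {ξ : CMark q H // ξ.c i = c} where
  toFun p := ⟨⟨fun k => cidx q (p.1.1 k), p.2.1, p.2.2, fun k => lv q (p.1.1 k)⟩, p.1.2⟩
  invFun ξ := (⟨fun k => asm q (ξ.1.c k) (ξ.1.r k), by
    rw [(asm_eq _ _).1]; exact ξ.2⟩, (ξ.1.g, ξ.1.b))
  left_inv p := by
    refine Prod.ext (Subtype.ext ?_) rfl
    funext k
    exact asm_cidx (p.1.1 k)
  right_inv ξ := by
    obtain ⟨⟨c', g, b, r⟩, hc⟩ := ξ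
    refine Subtype.ext ?_
    have h1 : (fun k => cidx q (asm q (c' k) (r k))) = c' := by
      funext k
      exact (asm_eq _ _).1
    have h2 : (fun k => lv q (asm q (c' k) (r k))) = r := by
      funext k
      exact (asm_eq _ _).2
    show (⟨fun k => cidx q (asm q (c' k) (r k)), g, b, fun k => lv q (asm q (c' k) (r k))⟩ :
      CMark q H) = ⟨c', g, b, r⟩
    rw [h1, h2]

theorem eqv_site (q H : ℕ) [NeZero q] (i : Fin (H + 1)) (c : Site)
    (p : {v : Fin (H + 1) → Site // cidx q (v i) = c} × ((Fin H → Bool) × (Fin H → ℕ)))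
    (k : Fin (H + 1)) : (eqv q H i c p).1.siteR k = p.1.1 k :=
  asm_cidx (p.1.1 k)

end GSUM

open GSUM GPROJ in
theorem stmt_GSUM (h1 : Stmt_GSIDX) : Stmt_GSUM := by
  intro s j H _ β φ i c hs
  obtain ⟨hidx, -, -, -, -, -, hmeas, -, -⟩ := h1 s j hs
  have hsx : ∀ x : Plane, sidx s j x = cidx (s * 2 ^ j) (cellIdx j x) := fun x => rfl
  rw [← (eqv (s * 2 ^ j) H i c).tsum_eq, ENNReal.tsum_prod']
  rw [← cells_partition (s * 2 ^ j) j H i c {x : Fin (H + 1) → Plane | sidx s j (x i) = c}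
    (fun y => Iff.rfl)]
  refine tsum_congr fun v => ?_
  -- constants
  obtain ⟨S, hS⟩ : ∃ S : Fin H → Bool → ℝ≥0∞, ∀ k g, S k g = ∑' b : ℕ, β {b} *
      φ k g (cidx (s * 2 ^ j) (v.1 k.castSucc)) (cidx (s * 2 ^ j) (v.1 k.succ)) b :=
    ⟨_, fun _ _ => rfl⟩
  obtain ⟨I, hI⟩ : ∃ I : (Fin H → Bool) → ℝ≥0∞, ∀ g, I g =
      ∫⁻ x in {x : Fin (H + 1) → Plane | ∀ k, x k ∈ cell j (v.1 k)},
        ∏ k : Fin H, stepK s j (g k) (x k.castSucc) (x k.succ) := ⟨_, fun _ => rfl⟩
  have hmS : ∀ (g : Fin H → Bool), Measurable fun x : Fin (H + 1) → Plane =>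
      ∏ k : Fin H, stepK s j (g k) (x k.castSucc) (x k.succ) := by
    intro g
    refine Finset.measurable_prod _ fun k _ => ?_
    have hm1 : Measurable (fun x : Fin (H + 1) → Plane => (x k.castSucc, x k.succ)) :=
      (measurable_pi_apply k.castSucc).prodMk (measurable_pi_apply k.succ)
    have hm2 := (hmeas (g k)).comp hm1
    have hfun : (fun p : Plane × Plane => stepK s j (g k) p.1 p.2) ∘
        (fun x : Fin (H + 1) → Plane => (x k.castSucc, x k.succ)) =
        fun x : Fin (H + 1) → Plane => stepK s j (g k) (x k.castSucc) (x k.succ) := by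
      funext x
      rfl
    rw [hfun] at hm2
    exact hm2
  -- left side
  have hL : ∑' p : (Fin H → Bool) × (Fin H → ℕ),
      massM s j β (eqv (s * 2 ^ j) H i c (v, p)).1 *
        ∏ k : Fin H, φ k ((eqv (s * 2 ^ j) H i c (v, p)).1.g k)
          ((eqv (s * 2 ^ j) H i c (v, p)).1.c k.castSucc)
          ((eqv (s * 2 ^ j) H i c (v, p)).1.c k.succ) ((eqv (s * 2 ^ j) H i c (v, p)).1.b k)
      = ∑ g : Fin H → Bool, I g * ∏ k, S k (g k) := by
    rw [ENNReal.tsum_prod', tsum_fintype]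
    refine Finset.sum_congr rfl fun g _ => ?_
    have h2 : ∀ b : Fin H → ℕ,
        massM s j β (eqv (s * 2 ^ j) H i c (v, (g, b))).1 *
        ∏ k : Fin H, φ k ((eqv (s * 2 ^ j) H i c (v, (g, b))).1.g k)
          ((eqv (s * 2 ^ j) H i c (v, (g, b))).1.c k.castSucc)
          ((eqv (s * 2 ^ j) H i c (v, (g, b))).1.c k.succ)
          ((eqv (s * 2 ^ j) H i c (v, (g, b))).1.b k)
        = I g * ∏ k : Fin H, (β {b k} * φ k (g k) (cidx (s * 2 ^ j) (v.1 k.castSucc))
            (cidx (s * 2 ^ j) (v.1 k.succ)) (b k)) := by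
      intro b
      have h3 : massM s j β (eqv (s * 2 ^ j) H i c (v, (g, b))).1 = I g * ∏ k, β {b k} := by
        rw [hI]
        unfold massM
        simp only [eqv_site]
        rfl
      rw [h3, Finset.prod_mul_distrib, mul_assoc]
      rfl
    rw [tsum_congr h2, ENNReal.tsum_mul_left, prod_tsum H (fun k b => β {b} *
      φ k (g k) (cidx (s * 2 ^ j) (v.1 k.castSucc)) (cidx (s * 2 ^ j) (v.1 k.succ)) b)]
    congr 1
    exact Finset.prod_congr rfl fun k _ => (hS k (g k)).symm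
  rw [hL]
  -- right side
  have hR : ∫⁻ x in {x : Fin (H + 1) → Plane | ∀ k, x k ∈ cell j (v.1 k)}, ∏ k : Fin H,
          ∑ g : Bool, stepK s j g (x k.castSucc) (x k.succ) *
            ∑' b : ℕ, β {b} * φ k g (sidx s j (x k.castSucc)) (sidx s j (x k.succ)) b
      = ∫⁻ x in {x : Fin (H + 1) → Plane | ∀ k, x k ∈ cell j (v.1 k)},
        ∑ g : Fin H → Bool, (∏ k : Fin H, stepK s j (g k) (x k.castSucc) (x k.succ)) *
          ∏ k, S k (g k) := by
    refine setLIntegral_congr_fun (meas_cells j v.1) fun x hx => ?_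
    have hx' : ∀ k, sidx s j (x k) = cidx (s * 2 ^ j) (v.1 k) := fun k =>
      hidx (x k) (v.1 k) (hx k)
    simp only [hx', ← hS]
    rw [Finset.prod_univ_sum, Fintype.piFinset_univ]
    refine Finset.sum_congr rfl fun g _ => ?_
    rw [Finset.prod_mul_distrib]
  rw [hR, lintegral_finsetSum]
  · refine Finset.sum_congr rfl fun g _ => ?_
    rw [lintegral_mul_const _ (hmS g), hI]
  · exact fun g _ => (hmS g).mul_const _

end MPdd5692
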