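import Pool.Agent.Work.MP_dd5692_pr.InterfaceG

/-! Block GTR: invariance of the masses under translation by s-cells. helper89 -/

open MeasureTheory ProbabilityTheory Set
open scoped ENNReal NNReal BigOperators

namespace MPdd5692

namespace GTR

lemma cell_shift (s j : ℕ) (v : Site) (t : Site) (x : Plane) :
    x + ptS s t ∈ cell j (v.1 + ((s * 2 ^ j : ℕ) : ℤ) * t.1, v.2 + ((s * 2 ^ j : ℕ) : ℤ) * t.2) ↔
      x ∈ cell j v := by
  have hm : mesh j * 2 ^ j = 1 := by
    unfold mesh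
    simp
  have e : ∀ a : ℤ, ((((s * 2 ^ j : ℕ) : ℤ) * a : ℤ) : ℝ) * mesh j = s * a := by
    intro a
    push_cast
    calc (s : ℝ) * 2 ^ j * a * mesh j = s * a * (mesh j * 2 ^ j) := by ring
      _ = s * a := by rw [hm, mul_one]
  have e1 := e t.1
  have e2 := e t.2
  unfold cell ptS
  simp only [Set.mem_ofPred_eq, PiLp.add_apply, Matrix.cons_val_zero,
    Matrix.cons_val_one]
  push_cast at e1 e2 ⊢
  constructor
  · rintro ⟨h1, h2, h3, h4⟩
    refine ⟨?_, ?_, ?_, ?_⟩ <;> nlinarith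
  · rintro ⟨h1, h2, h3, h4⟩
    refine ⟨?_, ?_, ?_, ?_⟩ <;> nlinarith

lemma step_shift (h1 : Stmt_GSIDX) (s j : ℕ) (hs : 1 ≤ s) (g : Bool) (t : Site) (x y : Plane) :
    stepK s j g (x + ptS s t) (y + ptS s t) = stepK s j g x y := by
  obtain ⟨-, -, -, -, -, hsh, -⟩ := h1 s j hs
  unfold stepK
  rw [hsh x t, hsh y t, add_sub_add_right_eq_sub, add_sub_add_right_eq_sub]

end GTR

theorem stmt_GTR (h1 : Stmt_GSIDX) : Stmt_GTR := by
  intro s j H β ξ t hs
  unfold massM
  congr 1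
  set ξ' : CMark (s * 2 ^ j) H := { ξ with c := fun k => ξ.c k + t } with hξ'
  have hmA : ∀ ζ : CMark (s * 2 ^ j) H,
      MeasurableSet {x : Fin (H + 1) → Plane | ∀ k, x k ∈ cell j (ζ.siteR k)} := by
    intro ζ
    have : {x : Fin (H + 1) → Plane | ∀ k, x k ∈ cell j (ζ.siteR k)} =
        Set.univ.pi (fun k => cell j (ζ.siteR k)) := by
      ext x; simp
    rw [this]
    exact MeasurableSet.univ_pi fun k => measurableSet_cell j _
  rw [← lintegral_indicator (hmA ξ'), ← lintegral_indicator (hmA ξ)]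
  rw [← lintegral_add_right_eq_self _ (fun _ : Fin (H + 1) => ptS s t)]
  refine lintegral_congr fun x => ?_
  have hmem : (x + fun _ : Fin (H + 1) => ptS s t) ∈
      {x : Fin (H + 1) → Plane | ∀ k, x k ∈ cell j (ξ'.siteR k)} ↔
      x ∈ {x : Fin (H + 1) → Plane | ∀ k, x k ∈ cell j (ξ.siteR k)} := by
    have hk : ∀ k, ((x + fun _ : Fin (H + 1) => ptS s t) k ∈ cell j (ξ'.siteR k) ↔
        x k ∈ cell j (ξ.siteR k)) := by
      intro k
      rw [← GTR.cell_shift s j (ξ.siteR k) t (x k)]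
      have e : ξ'.siteR k = ((ξ.siteR k).1 + ((s * 2 ^ j : ℕ) : ℤ) * t.1,
          (ξ.siteR k).2 + ((s * 2 ^ j : ℕ) : ℤ) * t.2) := by
        unfold CMark.siteR
        simp only [hξ', Prod.fst_add, Prod.snd_add]
        refine Prod.ext ?_ ?_
        · simp only; ring
        · simp only; ring
      rw [e]
      rfl
    exact forall_congr' hk
  by_cases hx : x ∈ {x : Fin (H + 1) → Plane | ∀ k, x k ∈ cell j (ξ.siteR k)}
  · rw [Set.indicator_of_mem hx, Set.indicator_of_mem (hmem.mpr hx)]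
    refine Finset.prod_congr rfl fun k _ => ?_
    exact GTR.step_shift h1 s j hs (ξ.g k) t (x k.castSucc) (x k.succ)
  · rw [Set.indicator_of_notMem hx, Set.indicator_of_notMem (fun h => hx (hmem.mp h))]

end MPdd5692
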