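import Pool.Agent.Work.MP_dd5692_pr.InterfaceP

/-!
# MP_dd5692_pr, block HARRIS: the inequality of Harris for decreasing events of an independent
Poisson family.  Two copies indexed by `Bool × ι`; replace the coordinates one at a time.
-/

open MeasureTheory ProbabilityTheory Set
open scoped ENNReal NNReal BigOperators

namespace MPdd5692

namespace HARRIS

variable {ι : Type}

/-- two independent copies -/
noncomputable def P2 (μ : ι → ℝ≥0) : Measure (Bool × ι → ℕ) := pois fun p => μ p.2

instance (μ : ι → ℝ≥0) : IsProbabilityMeasure (P2 μ) := by unfold P2; infer_instance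

/-- reading off coordinates along an injection -/
theorem map_inj {α β : Type} (ν : β → ℝ≥0) {e : α → β} (he : Function.Injective e) :
    (pois ν).map (fun ω a => ω (e a)) = pois (fun a => ν (e a)) := by
  unfold pois
  exact Measure.map_infinitePi_infinitePi_of_inj (P := fun i => poissonMeasure (ν i)) he

/-- the first copy -/
def X (w : Bool × ι → ℕ) : ι → ℕ := fun i => w (true, i)

open Classical in
/-- the coordinates in `s` from the first copy, the others from the second one -/
noncomputable def M (s : Finset ι) (w : Bool × ι → ℕ) : ι → ℕ := fun i => w (decide (i ∈ s), i)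

theorem meas_X : Measurable (X : (Bool × ι → ℕ) → ι → ℕ) := by unfold X; fun_prop

theorem meas_M (s : Finset ι) : Measurable (M s : (Bool × ι → ℕ) → ι → ℕ) := by
  unfold M; fun_prop

theorem map_X (μ : ι → ℝ≥0) : (P2 μ).map X = pois μ :=
  map_inj (fun p : Bool × ι => μ p.2) (e := fun i => (true, i)) (fun _ _ h => (Prod.mk.inj h).2)

theorem map_M (μ : ι → ℝ≥0) (s : Finset ι) : (P2 μ).map (M s) = pois μ := by
  classical
  exact map_inj (fun p : Bool × ι => μ p.2) (e := fun i => (decide (i ∈ s), i))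
    (fun _ _ h => (Prod.mk.inj h).2)

theorem real_X (μ : ι → ℝ≥0) {E : Set (ι → ℕ)} (hE : MeasurableSet E) :
    (P2 μ).real {w | X w ∈ E} = (pois μ).real E := by
  rw [← map_X μ, map_measureReal_apply meas_X hE]
  rfl

theorem real_M (μ : ι → ℝ≥0) (s : Finset ι) {E : Set (ι → ℕ)} (hE : MeasurableSet E) :
    (P2 μ).real {w | M s w ∈ E} = (pois μ).real E := by
  rw [← map_M μ s, map_measureReal_apply (meas_M s) hE]
  rfl

/-- independence of the two copies -/
theorem indep (μ : ι → ℝ≥0) {E F : Set (ι → ℕ)} (hE : MeasurableSet E) (hF : MeasurableSet F) :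
    (P2 μ).real {w | X w ∈ E ∧ M ∅ w ∈ F} = (pois μ).real E * (pois μ).real F := by
  have h1 : (P2 μ).map (fun w => (X w, M ∅ w)) = (pois μ).prod (pois μ) := by
    have h2 : (P2 μ).map (MeasurableEquiv.curry Bool ι ℕ) =
        Measure.infinitePi fun _ : Bool => pois μ := by
      unfold P2 pois
      exact Measure.infinitePi_map_curry (fun (_ : Bool) (i : ι) => poissonMeasure (μ i))
    have h3 := Measure.infinitePi_map_eval_prod (P := fun _ : Bool => pois μ)
      (i := true) (j := false) (by decide)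
    rw [← h2, Measure.map_map (by fun_prop) (by fun_prop)] at h3
    rw [← h3]
    rfl
  have h4 : (P2 μ).real {w | X w ∈ E ∧ M ∅ w ∈ F} = ((pois μ).prod (pois μ)).real (E ×ˢ F) := by
    rw [← h1, map_measureReal_apply (meas_X.prodMk (meas_M ∅)) (hE.prod hF)]
    rfl
  rw [h4, measureReal_prod_prod]

/-- swap the coordinate `i` of the two copies -/
def sw [DecidableEq ι] (i : ι) (p : Bool × ι) : Bool × ι := if p.2 = i then (!p.1, p.2) else p

theorem sw_snd [DecidableEq ι] (i : ι) (p : Bool × ι) : (sw i p).2 = p.2 := by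
  unfold sw; split <;> rfl

theorem sw_sw [DecidableEq ι] (i : ι) (p : Bool × ι) : sw i (sw i p) = p := by
  unfold sw
  by_cases h : p.2 = i
  · simp [h]
    rw [← h]
  · simp [h]

/-- one step -/
theorem step (μ : ι → ℝ≥0) {E F : Set (ι → ℕ)} (hE : MeasurableSet E) (hF : MeasurableSet F)
    (dE : DecrS E) (dF : DecrS F) [DecidableEq ι] (s : Finset ι) (i : ι) (hi : i ∉ s) :
    (P2 μ).real {w | X w ∈ E ∧ M s w ∈ F} ≤ (P2 μ).real {w | X w ∈ E ∧ M (insert i s) w ∈ F} := by
  set T : (Bool × ι → ℕ) → (Bool × ι → ℕ) := fun w p => w (sw i p) with hT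
  have mT : Measurable T := by rw [hT]; fun_prop
  have hinj : Function.Injective (sw i) := fun p p' h => by
    have := congrArg (sw i) h
    rwa [sw_sw, sw_sw] at this
  have pT : (P2 μ).map T = P2 μ := by
    have h1 := map_inj (fun p : Bool × ι => μ p.2) hinj
    rw [show (fun a : Bool × ι => μ (sw i a).2) = fun p : Bool × ι => μ p.2 from
      funext fun p => by rw [sw_snd]] at h1
    exact h1
  have TT : ∀ w, T (T w) = w := fun w => funext fun p => by
    show w (sw i (sw i p)) = w p
    rw [sw_sw]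
  set A : Set (Bool × ι → ℕ) := {w | X w ∈ E} with hA
  set B : Set (Bool × ι → ℕ) := {w | M (insert i s) w ∈ F} with hB
  have mA : MeasurableSet A := meas_X hE
  have mB : MeasurableSet B := meas_M _ hF
  have hMT : ∀ w, M (insert i s) (T w) = M s w := by
    intro w
    funext j
    simp only [M, hT, sw]
    by_cases hj : j = i
    · subst hj
      simp [hi]
    · simp only [hj, if_false]
      refine congrArg w (Prod.ext ?_ rfl)
      rw [decide_eq_decide, Finset.mem_insert]
      exact ⟨fun h => h.resolve_left hj, Or.inr⟩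
  have hTM : ∀ w, M s (T w) = M (insert i s) w := fun w => by rw [← hMT (T w), TT]
  have inv : ∀ C : Set (Bool × ι → ℕ), MeasurableSet C → (P2 μ).real (T ⁻¹' C) = (P2 μ).real C := by
    intro C hC
    conv_rhs => rw [← pT]
    rw [map_measureReal_apply mT hC]
  -- pointwise comparison
  have cmp : ∀ w, (w ∈ A → w ∉ T ⁻¹' A → (w ∈ T ⁻¹' B → w ∈ B)) ∧
      (w ∈ T ⁻¹' A → w ∉ A → (w ∈ B → w ∈ T ⁻¹' B)) := by
    intro w
    rcases le_total (w (true, i)) (w (false, i)) with h | h
    · have h1 : X w ≤ X (T w) := fun j => by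
        simp only [X, hT, sw]
        by_cases hj : j = i
        · subst hj; simpa using h
        · simp [hj]
      have h2 : M (insert i s) w ≤ M (insert i s) (T w) := fun j => by
        simp only [M, hT, sw]
        by_cases hj : j = i
        · subst hj; simpa using h
        · simp [hj]
      exact ⟨fun _ _ h3 => dF _ _ h2 h3, fun h3 h4 => absurd (dE _ _ h1 h3) h4⟩
    · have h1 : X (T w) ≤ X w := fun j => by
        simp only [X, hT, sw]
        by_cases hj : j = i
        · subst hj; simpa using h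
        · simp [hj]
      have h2 : M (insert i s) (T w) ≤ M (insert i s) w := fun j => by
        simp only [M, hT, sw]
        by_cases hj : j = i
        · subst hj; simpa using h
        · simp [hj]
      exact ⟨fun h3 h4 => absurd (dE _ _ h1 h3) h4, fun _ _ h3 => dF _ _ h2 h3⟩
  have e1 : (P2 μ).real {w | X w ∈ E ∧ M s w ∈ F} = (P2 μ).real (A ∩ T ⁻¹' B) := by
    congr 1
    ext w
    simp only [hA, hB, Set.mem_ofPred_eq, Set.mem_inter_iff, Set.mem_preimage, hMT]
  have e2 : (P2 μ).real {w | X w ∈ E ∧ M (insert i s) w ∈ F} = (P2 μ).real (A ∩ B) := rfl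
  have e3 : (P2 μ).real (T ⁻¹' A ∩ B) = (P2 μ).real (A ∩ T ⁻¹' B) := by
    rw [← inv (A ∩ T ⁻¹' B) (mA.inter (mT mB))]
    congr 1
    ext w
    simp only [Set.mem_inter_iff, Set.mem_preimage, TT]
  have e4 : (P2 μ).real (T ⁻¹' A ∩ T ⁻¹' B) = (P2 μ).real (A ∩ B) := by
    rw [← inv (A ∩ B) (mA.inter mB)]
    rfl
  rw [e1, e2]
  have mTA : MeasurableSet (T ⁻¹' A) := mT mA
  have mTB : MeasurableSet (T ⁻¹' B) := mT mB
  have key : (P2 μ).real (A ∩ T ⁻¹' B) + (P2 μ).real (T ⁻¹' A ∩ B) ≤
      (P2 μ).real (A ∩ B) + (P2 μ).real (T ⁻¹' A ∩ T ⁻¹' B) := by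
    rw [← measureReal_union_add_inter (mTA.inter mB), ← measureReal_union_add_inter (mTA.inter mTB)]
    refine add_le_add (measureReal_mono ?_) (measureReal_mono ?_)
    · rintro w (⟨h1, h2⟩ | ⟨h1, h2⟩)
      · by_cases h3 : w ∈ T ⁻¹' A
        · exact Or.inr ⟨h3, h2⟩
        · exact Or.inl ⟨h1, (cmp w).1 h1 h3 h2⟩
      · by_cases h3 : w ∈ A
        · exact Or.inl ⟨h3, h2⟩
        · exact Or.inr ⟨h1, (cmp w).2 h1 h3 h2⟩
    · rintro w ⟨⟨h1, h2⟩, ⟨h3, h4⟩⟩
      exact ⟨⟨h1, h4⟩, ⟨h3, h2⟩⟩
  rw [e3, e4] at key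
  linarith

theorem chain (μ : ι → ℝ≥0) {E F : Set (ι → ℕ)} (hE : MeasurableSet E) (hF : MeasurableSet F)
    (dE : DecrS E) (dF : DecrS F) (s : Finset ι) :
    (pois μ).real E * (pois μ).real F ≤ (P2 μ).real {w | X w ∈ E ∧ M s w ∈ F} := by
  classical
  induction s using Finset.induction_on with
  | empty => exact (indep μ hE hF).ge
  | insert i s hi ih => exact ih.trans (step μ hE hF dE dF s i hi)

theorem main (μ : ι → ℝ≥0) {E F : Set (ι → ℕ)} (hE : MeasurableSet E) (hF : MeasurableSet F)
    (dE : DecrS E) (dF : DecrS F) :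
    (pois μ).real E * (pois μ).real F ≤ (pois μ).real (E ∩ F) := by
  classical
  refine le_of_forall_pos_le_add fun ε hε => ?_
  have hd := Measure.MeasureDense.of_generateFrom_isSetAlgebra_finite (μ := pois μ)
    (𝒜 := measurableCylinders fun _ : ι => ℕ) isSetAlgebra_measurableCylinders
    generateFrom_measurableCylinders.symm
  obtain ⟨G, hG, h1⟩ := hd.approx F hF (measure_ne_top _ _) (ε / 2) (by positivity)
  have mG := hd.measurable G hG
  have h1' : (pois μ).real (symmDiff F G) ≤ ε / 2 := by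
    have := h1.le
    rw [← ofReal_measureReal] at this
    exact (ENNReal.ofReal_le_ofReal_iff (by positivity)).1 this
  rw [mem_measurableCylinders] at hG
  obtain ⟨S, T, hT, rfl⟩ := hG
  refine (chain μ hE hF dE dF S).trans ?_
  have hM : ∀ w, M S w ∈ cylinder S T ↔ X w ∈ cylinder S T := by
    intro w
    rw [mem_cylinder, mem_cylinder]
    have : S.restrict (M S w) = S.restrict (X w) := by
      funext i
      simp [M, X]
    rw [this]
  have hsub : {w : Bool × ι → ℕ | X w ∈ E ∧ M S w ∈ F} ⊆
      ({w | X w ∈ E ∩ F} ∪ {w | M S w ∈ symmDiff F (cylinder S T)}) ∪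
        {w | X w ∈ symmDiff F (cylinder S T)} := by
    rintro w ⟨h2, h3⟩
    by_cases h4 : X w ∈ F
    · exact Or.inl (Or.inl ⟨h2, h4⟩)
    · by_cases h5 : X w ∈ cylinder S T
      · exact Or.inr (Or.inr ⟨h5, h4⟩)
      · exact Or.inl (Or.inr (Or.inl ⟨h3, fun h6 => h5 ((hM w).1 h6)⟩))
  have mD : MeasurableSet (symmDiff F (cylinder S T)) := hF.symmDiff mG
  refine (measureReal_mono hsub).trans ((measureReal_union_le _ _).trans ?_)
  refine (add_le_add_left (measureReal_union_le _ _) _).trans ?_
  rw [real_X μ (hE.inter hF), real_M μ S mD, real_X μ mD]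
  linarith

end HARRIS

theorem stmt_HARRIS : Stmt_HARRIS := by
  intro ι _ μ E F hE hF dE dF
  have h := HARRIS.main μ hE hF dE dF
  refine ⟨h, ?_⟩
  have h1 : (pois μ).real (E ∩ Fᶜ) = (pois μ).real E - (pois μ).real (E ∩ F) := by
    have := measureReal_inter_add_sdiff (μ := pois μ) (s := E) hF
    rw [Set.sdiff_eq] at this
    linarith
  have h2 : (pois μ).real Fᶜ = 1 - (pois μ).real F := by
    rw [measureReal_compl hF, probReal_univ]
  rw [h1, h2]
  linarith

end MPdd5692
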