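import Pool.Agent.Work.MP_dd5692_pr.HARRIS

/-!
# MP_dd5692_pr, block HARRISN: Harris for a finite family of decreasing events.
-/

open MeasureTheory ProbabilityTheory Set
open scoped ENNReal NNReal BigOperators

namespace MPdd5692

theorem stmt_HARRISN : Stmt_HARRISN := by
  classical
  intro ι _ μ κ s E hE dE
  have hm : ∀ s : Finset κ, MeasurableSet (⋂ k ∈ s, E k) := fun s =>
    Finset.measurableSet_biInter s fun k _ => hE k
  have hd : ∀ s : Finset κ, DecrS (⋂ k ∈ s, E k) := fun s ω ω' h h' => by
    simp only [Set.mem_iInter] at h' ⊢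
    exact fun k hk => dE k ω ω' h (h' k hk)
  induction s using Finset.induction_on with
  | empty => simp
  | insert k s hk ih =>
    rw [Finset.prod_insert hk, Finset.set_biInter_insert]
    exact (mul_le_mul_of_nonneg_left ih measureReal_nonneg).trans
      (HARRIS.main μ (hE k) (hm s) (dE k) (hd s))

end MPdd5692
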