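import Pool.Agent.Work.MP_dd5692_pr.InterfaceE

/-! HATP: the lower bound for `P(HatE)`. helper12 -/

open MeasureTheory ProbabilityTheory Set
open scoped ENNReal NNReal BigOperators

namespace MPdd5692

namespace HATP

instance cm (q H : ℕ) : Countable (CMark q H) := by
  let f : CMark q H → (Fin (H + 1) → Site) × (Fin H → Bool) × (Fin H → ℕ) ×
      (Fin (H + 1) → Fin q × Fin q) := fun ξ => (ξ.c, ξ.g, ξ.b, ξ.r)
  have hf : Function.Injective f := by
    intro ξ ξ' h
    simp only [f, Prod.mk.injEq] at h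
    cases ξ; cases ξ'
    simp only [CMark.mk.injEq]
    exact h
  exact hf.countable

variable {q H : ℕ}

lemma meas_shift (t : Site) : Measurable (shiftC (q := q) (H := H) t) := by
  unfold shiftC
  exact measurable_pi_lambda _ fun θ => measurable_pi_apply _

lemma shift_real [NeZero q] {a δ Λ : ℝ} (L : MarkLaw q H a δ Λ) (lam : ℝ≥0) (t : Site)
    (h : (L.PP lam).map (shiftC t) = L.PP lam) (A B : Set (Conf q H)) (hA : MeasurableSet A)
    (hAB : ∀ ω, shiftC t ω ∈ A ↔ ω ∈ B) : (L.PP lam).real B = (L.PP lam).real A := by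
  have hB : B = shiftC t ⁻¹' A := by
    ext ω; exact (hAB ω).symm
  rw [hB]
  conv_rhs => rw [← h]
  rw [map_measureReal_apply (meas_shift t) hA]

lemma inn_le (k : ℕ) (y : Site) (R : ℕ) (ω : Conf q H) : inn k y R ω ≤ ω := by
  intro θ
  unfold inn
  dsimp only
  split_ifs
  · exact le_rfl
  · exact Nat.zero_le _

end HATP

open HATP in
theorem stmt_HATP (h1 : Stmt_HARRISN) (h2 : Stmt_MEAS) (h3 : Stmt_STATIC) (h4 : Stmt_TRANS)
    (_h5 : Stmt_MEASE) : Stmt_HATP := by
  intro c e I δ Λ nmax E u m m' y c1 hc1 hu hun hmm hmH hc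
  have hc0 := E.ok.c_pos
  have hZ : E.P = pois (fun θ => E.lam * E.L.fine θ) := rfl
  -- the events
  let z : ℕ → Site := fun i => (y.1 + 15 * u + 8 * u * i, y.2)
  let A : ℕ → Set (Conf E.q E.H) := fun i =>
    if i = 0 then {ω | LamE E.ρ ω m m' y (10 * u)}
    else if i = 7 then {ω | UU E.ρ E.q (et ω m') y (50 * u) (60 * u)}
    else {ω | UU E.ρ E.q (et ω m') (z (i - 1)) (6 * u) (12 * u)}
  have hUmeas : ∀ (w : Site) (a b : ℕ), MeasurableSet {ω : Conf E.q E.H | UU E.ρ E.q (et ω m') w a b} ∧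
      Decr {ω : Conf E.q E.H | UU E.ρ E.q (et ω m') w a b} := fun w a b =>
    (h2 E.q E.H E.ρ m' m' w w a b).2.1
  have hLmeas : ∀ (w : Site) (a : ℕ), MeasurableSet {ω : Conf E.q E.H | LamE E.ρ ω m m' w a} ∧
      Decr {ω : Conf E.q E.H | LamE E.ρ ω m m' w a} := fun w a =>
    (h2 E.q E.H E.ρ m m' w w a a).2.2.2.1
  have hA1 : ∀ k, MeasurableSet (A k) ∧ Decr (A k) := by
    intro k
    simp only [A]
    split_ifs
    · exact hLmeas _ _
    · exact hUmeas _ _ _
    · exact hUmeas _ _ _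
  have hH := h1 (FMark E.q E.H) (fun θ => E.lam * E.L.fine θ) ℕ (Finset.range 8) A
    (fun k => (hA1 k).1) (fun k ω ω' h h' => (hA1 k).2 ω ω' h h')
  rw [← hZ] at hH
  -- circuits
  have hUU : ∀ (w : Site) (a b : ℕ), 11 * (2 * a + 1) ≤ 10 * (2 * b + 1) → b ≤ nmax →
      c ≤ E.P.real {ω | UU E.ρ E.q (et ω m') w a b} := by
    intro w a b hab hb
    have hT := h4 E.q E.H _ δ Λ E.L E.lam w
    have e1 : E.P.real {ω | UU E.ρ E.q (et ω m') w a b} =
        E.P.real {ω | UU E.ρ E.q (et ω m') 0 a b} := by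
      refine shift_real E.L E.lam w hT.1 _ _ (hUmeas 0 a b).1 fun ω => ?_
      have := (hT.2.2.2 E.ρ ω m' 0 0 a b).2
      rw [zero_add] at this
      exact this
    have e2 := (h3 E.q E.H E.j δ Λ E.L E.lam m' hmH (fun S => UU E.ρ E.q S 0 a b)
      ((h2 E.q E.H E.ρ m' m' 0 0 a b).2.2.2.2.2.1)).2
    have e3 : E.P.real {ω | UU E.ρ E.q (et ω m') 0 a b} =
        SP E.lam E.j (fun S => UU E.ρ E.q S 0 a b) := e2
    rw [e1, e3]
    exact E.ok.U_ge a b hab hb
  have hA0 : c1 ≤ E.P.real (A 0) := by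
    have hT := h4 E.q E.H _ δ Λ E.L E.lam y
    have e1 : E.P.real {ω | LamE E.ρ ω m m' y (10 * u)} =
        E.P.real {ω | LamE E.ρ ω m m' 0 (10 * u)} := by
      refine shift_real E.L E.lam y hT.1 _ _ (hLmeas 0 (10 * u)).1 fun ω => ?_
      have := hT.2.2.1 E.ρ ω m m' 0 (10 * u)
      rw [zero_add] at this
      exact this
    simp only [A, if_true]
    rw [e1]; exact hc
  have hAk : ∀ k ∈ (Finset.range 8).erase 0, c ≤ E.P.real (A k) := by
    intro k hk
    rw [Finset.mem_erase, Finset.mem_range] at hk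
    simp only [A]
    rw [if_neg hk.1]
    split_ifs
    · exact hUU _ _ _ (by omega) (by omega)
    · exact hUU _ _ _ (by omega) (by omega)
  have hprod : c1 * c ^ 7 ≤ ∏ k ∈ Finset.range 8, E.P.real (A k) := by
    rw [← Finset.mul_prod_erase (Finset.range 8) _ (Finset.mem_range.2 (by norm_num : 0 < 8))]
    refine mul_le_mul hA0 ?_ (by positivity) (hc1.le.trans hA0)
    calc c ^ 7 = ∏ _k ∈ (Finset.range 8).erase 0, c := by
          rw [Finset.prod_const]; rfl
      _ ≤ _ := Finset.prod_le_prod (fun _ _ => hc0.le) hAk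
  refine (hprod.trans hH).trans ?_
  have : IsProbabilityMeasure E.P := by rw [hZ]; infer_instance
  refine measureReal_mono ?_ 
  intro ω hω
  simp only [Set.mem_iInter] at hω
  have hmem : ∀ k, k < 8 → ω ∈ A k := fun k hk => hω k (Finset.mem_range.2 hk)
  refine ⟨?_, ?_, ?_⟩
  · have h0 := hmem 0 (by norm_num)
    simp only [A, if_true] at h0
    exact (hLmeas y (10 * u)).2 _ _ (inn_le m' y (25 * u) ω) h0
  · intro i hi
    have h0 := hmem (i + 1) (by omega)
    simp only [A] at h0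
    rw [if_neg (by omega), if_neg (by omega)] at h0
    simpa using h0
  · have h0 := hmem 7 (by norm_num)
    simpa [A] using h0

end MPdd5692
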