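import Mathlib
import Pool.Agent.Work.MP_dd5692_pr.InterfaceC
import Pool.Agent.Work.MP_dd5692_pr.MassTools2

/-!
# MP_dd5692_pr: block HOLEP (helper88)
-/

open MeasureTheory ProbabilityTheory Set
open scoped ENNReal NNReal BigOperators

namespace MPdd5692

theorem stmt_HOLEP (h1 : Stmt_VOID) : Stmt_HOLEP := by
  intro I Λ N
  set Lp : ℝ := max 1 |Λ| with hLp
  set K0 : ℝ≥0∞ := ENNReal.ofReal I * ((N : ℕ) * (Cth 1 * ENNReal.ofReal Lp ^ 1)) with hK0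
  have hK0t : K0 ≠ ∞ := by
    rw [hK0]
    exact ENNReal.mul_ne_top ENNReal.ofReal_ne_top (ENNReal.mul_ne_top (ENNReal.natCast_ne_top _)
      (ENNReal.mul_ne_top (Cth_ne_top (by norm_num)) (ENNReal.pow_ne_top ENNReal.ofReal_ne_top)))
  refine ⟨Real.exp (-K0.toReal), Real.exp_pos _, ?_⟩
  intro q H _ a δ L lam hI m m' z hm hH
  have ha : 0 ≤ a := L.a_nonneg
  set Ac : Set (CMark q H) := {ξ | ∃ k : Fin H, (m ≤ (k : ℕ) ∧ (k : ℕ) < m') ∧
    nrm (ξ.c k.castSucc - z) ≤ ξ.D k} with hAc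
  have hset : {ω : Conf q H | HoleC ω m m' z} = {ω | ∀ θ, θ.1 ∈ Ac → ω θ = 0} := by
    ext ω
    simp only [mem_ofPred_eq, hAc, HoleC, SafeC]
    constructor
    · rintro h θ ⟨k, ⟨hk1, hk2⟩, hk3⟩
      by_contra hne
      have := h k hk1 hk2 θ hne
      omega
    · intro h k hk1 hk2 θ hne
      by_contra hc
      push Not at hc
      exact hne (h θ ⟨k, ⟨hk1, hk2⟩, hc⟩)
  rw [hset]
  refine (MT.void_le h1 L lam Ac K0.toReal ENNReal.toReal_nonneg ?_).2.2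
  rw [ENNReal.ofReal_toReal hK0t]
  set w : Site → ℝ≥0∞ := fun c => eexp (-1 * (nrm (c - z) : ℝ)) with hw
  have hwsum : ∑' c, w c = Cth 1 := tsum_shift 1 z
  have hpt : ∀ ξ : CMark q H, Ac.indicator 1 ξ ≤ ∑' k : Fin H,
      (if (m ≤ (k : ℕ) ∧ (k : ℕ) < m') then
        w (ξ.c k.castSucc) * eexp (ξ.tot k (k + 1)) else 0) := by
    intro ξ
    by_cases hξ : ξ ∈ Ac
    · rw [indicator_of_mem hξ, Pi.one_apply]
      obtain ⟨k, hk, h3⟩ := hξ
      refine le_trans ?_ (ENNReal.le_tsum k)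
      rw [if_pos hk]
      simp only [hw]
      rw [← eexp_add]
      apply one_le_eexp
      have h4 : ξ.D k ≤ ξ.tot k (k + 1) := ξ.D_le_tot k _ _ le_rfl (Nat.lt_succ_self _)
      have h5 : (nrm (ξ.c k.castSucc - z) : ℝ) ≤ ξ.D k := by exact_mod_cast h3
      have h6 : (ξ.D k : ℝ) ≤ ξ.tot k (k + 1) := by exact_mod_cast h4
      linarith
    · rw [indicator_of_notMem hξ]
      exact zero_le
  have hone : ∀ k : Fin H, ∑' ξ : CMark q H, (L.m ξ : ℝ≥0∞) *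
      (if (m ≤ (k : ℕ) ∧ (k : ℕ) < m') then
        w (ξ.c k.castSucc) * eexp (ξ.tot k (k + 1)) else 0) ≤
      if (m ≤ (k : ℕ) ∧ (k : ℕ) < m') then
        Cth 1 * (ENNReal.ofReal (a * q ^ 2) * ENNReal.ofReal Lp ^ 1) else 0 := by
    intro k
    by_cases hc : (m ≤ (k : ℕ) ∧ (k : ℕ) < m')
    · simp only [if_pos hc]
      have h2 := L.sum_bound ha k.castSucc k (k + 1) 1 (by omega) (by omega) (by omega) w
      rw [hwsum] at h2
      exact h2
    · simp only [if_neg hc, mul_zero, tsum_zero]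
      exact le_rfl
  have hcard : (Finset.univ.filter fun k : Fin H => m ≤ (k : ℕ) ∧ (k : ℕ) < m').card ≤ N := by
    have : (Finset.univ.filter fun k : Fin H => m ≤ (k : ℕ) ∧ (k : ℕ) < m').card ≤
        (Finset.Ico m m').card := by
      refine Finset.card_le_card_of_injOn (fun k => (k : ℕ)) ?_ ?_
      · intro k hk
        have hk := (Finset.mem_filter.1 hk).2
        simp only [Finset.coe_Ico, mem_Ico]
        omega
      · intro k _ l _ h
        exact Fin.ext h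
    refine this.trans ?_
    rw [Nat.card_Ico]
    omega
  calc (lam : ℝ≥0∞) * ∑' ξ : CMark q H, (L.m ξ : ℝ≥0∞) * Ac.indicator 1 ξ
      ≤ (lam : ℝ≥0∞) * ∑' ξ : CMark q H, (L.m ξ : ℝ≥0∞) * ∑' k : Fin H,
      (if (m ≤ (k : ℕ) ∧ (k : ℕ) < m') then
        w (ξ.c k.castSucc) * eexp (ξ.tot k (k + 1)) else 0) :=
        mul_le_mul' le_rfl (ENNReal.tsum_le_tsum fun ξ => mul_le_mul' le_rfl (hpt ξ))
    _ = (lam : ℝ≥0∞) * ∑' k : Fin H, ∑' ξ : CMark q H, (L.m ξ : ℝ≥0∞) *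
      (if (m ≤ (k : ℕ) ∧ (k : ℕ) < m') then
        w (ξ.c k.castSucc) * eexp (ξ.tot k (k + 1)) else 0) := by
        simp_rw [← ENNReal.tsum_mul_left]
        rw [ENNReal.tsum_comm]
    _ ≤ (lam : ℝ≥0∞) * ∑' k : Fin H, (if (m ≤ (k : ℕ) ∧ (k : ℕ) < m') then
        Cth 1 * (ENNReal.ofReal (a * q ^ 2) * ENNReal.ofReal Lp ^ 1) else 0) :=
        mul_le_mul' le_rfl (ENNReal.tsum_le_tsum hone)
    _ ≤ (lam : ℝ≥0∞) * ((N : ℕ) * (Cth 1 * (ENNReal.ofReal (a * q ^ 2) *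
        ENNReal.ofReal Lp ^ 1))) := by
        rw [tsum_fintype, ← Finset.sum_filter, Finset.sum_const, nsmul_eq_mul]
        refine mul_le_mul' le_rfl (mul_le_mul' ?_ le_rfl)
        exact_mod_cast hcard
    _ = ENNReal.ofReal ((lam : ℝ) * (a * q ^ 2)) * ((N : ℕ) * (Cth 1 * ENNReal.ofReal Lp ^ 1)) := by
        rw [ENNReal.ofReal_mul (NNReal.coe_nonneg _), ENNReal.ofReal_coe_nnreal]
        ring
    _ ≤ K0 := by
        rw [hK0]
        exact mul_le_mul' (ENNReal.ofReal_le_ofReal hI) le_rfl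

end MPdd5692
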