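import Mathlib
import Pool.Agent.Work.MP_dd5692_pr.InterfaceD
import Pool.Agent.Work.MP_dd5692_pr.MassTools
import Pool.Agent.Work.MP_dd5692_pr.NOFOLLOW

/-!
# MP_dd5692_pr: block INFLMASS (helper88)
-/

open MeasureTheory ProbabilityTheory Set
open scoped ENNReal NNReal BigOperators

namespace MPdd5692

theorem stmt_INFLMASS : Stmt_INFLMASS := by
  intro Λ J A
  set Lp : ℝ := max 1 |Λ| with hLp
  set K0 : ℝ≥0∞ := (3 * J + 2 : ℕ) * (eexp (6 * A) * Cth 1 * ENNReal.ofReal Lp ^ 1) with hK0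
  have hK0t : K0 ≠ ∞ := by
    rw [hK0]
    exact ENNReal.mul_ne_top (ENNReal.natCast_ne_top _) (ENNReal.mul_ne_top
      (ENNReal.mul_ne_top (eexp_ne_top _) (Cth_ne_top (by norm_num)))
      (ENNReal.pow_ne_top ENNReal.ofReal_ne_top))
  refine ⟨K0.toReal, ?_⟩
  intro q H _ a δ L X
  have ha : 0 ≤ a := L.a_nonneg
  have hK : ENNReal.ofReal (K0.toReal * (a * q ^ 2)) = K0 * ENNReal.ofReal (a * q ^ 2) := by
    rw [ENNReal.ofReal_mul ENNReal.toReal_nonneg, ENNReal.ofReal_toReal hK0t]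
  apply NOFOLLOW.real_of_ennreal _ (fun _ => NNReal.coe_nonneg _) _ (by positivity)
  rw [hK]
  set w : Site → ℝ≥0∞ := fun c => eexp (6 * A) * eexp (-1 * (nrm (c - xX A X) : ℝ)) with hw
  have hwsum : ∑' c, w c = eexp (6 * A) * Cth 1 := by
    rw [hw, ENNReal.tsum_mul_left, tsum_shift]
  have hpt : ∀ ξ : CMark q H, ξ ∈ Infl q H A J X → (1 : ℝ≥0∞) ≤ ∑' k : Fin H,
      (if (X.1 * J ≤ (k : ℕ) + 1 ∧ (k : ℕ) ≤ (X.1 + 3) * J) then
        w (ξ.c k.castSucc) * eexp (ξ.tot k (k + 1)) else 0) := by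
    rintro ξ ⟨k, h1, h2, h3⟩
    refine le_trans ?_ (ENNReal.le_tsum k)
    rw [if_pos ⟨h1, h2⟩]
    simp only [hw]
    rw [← eexp_add, ← eexp_add]
    apply one_le_eexp
    have h4 : ξ.D k ≤ ξ.tot k (k + 1) := ξ.D_le_tot k _ _ le_rfl (Nat.lt_succ_self _)
    have h5 : (nrm (ξ.c k.castSucc - xX A X) : ℝ) ≤ 6 * A + ξ.D k := by exact_mod_cast h3
    have h6 : (ξ.D k : ℝ) ≤ ξ.tot k (k + 1) := by exact_mod_cast h4
    linarith
  have hone : ∀ k : Fin H, ∑' ξ : CMark q H, (L.m ξ : ℝ≥0∞) *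
      (if (X.1 * J ≤ (k : ℕ) + 1 ∧ (k : ℕ) ≤ (X.1 + 3) * J) then
        w (ξ.c k.castSucc) * eexp (ξ.tot k (k + 1)) else 0) ≤
      if (X.1 * J ≤ (k : ℕ) + 1 ∧ (k : ℕ) ≤ (X.1 + 3) * J) then
        (eexp (6 * A) * Cth 1) * (ENNReal.ofReal (a * q ^ 2) * ENNReal.ofReal Lp ^ 1) else 0 := by
    intro k
    by_cases hc : (X.1 * J ≤ (k : ℕ) + 1 ∧ (k : ℕ) ≤ (X.1 + 3) * J)
    · simp only [if_pos hc]
      have h2 := L.sum_bound ha k.castSucc k (k + 1) 1 (by omega) (by omega) (by omega) w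
      rw [hwsum] at h2
      exact h2
    · simp only [if_neg hc, mul_zero, tsum_zero]
      exact le_rfl
  calc ∑' ξ : {ξ : CMark q H // ξ ∈ Infl q H A J X}, ENNReal.ofReal (L.m ξ.1 : ℝ)
      ≤ ∑' ξ : {ξ : CMark q H // ξ ∈ Infl q H A J X}, (L.m ξ.1 : ℝ≥0∞) * ∑' k : Fin H,
      (if (X.1 * J ≤ (k : ℕ) + 1 ∧ (k : ℕ) ≤ (X.1 + 3) * J) then
        w (ξ.1.c k.castSucc) * eexp (ξ.1.tot k (k + 1)) else 0) := by
        refine ENNReal.tsum_le_tsum fun ξ => ?_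
        rw [ENNReal.ofReal_coe_nnreal]
        calc (L.m ξ.1 : ℝ≥0∞) = (L.m ξ.1 : ℝ≥0∞) * 1 := (mul_one _).symm
          _ ≤ _ := mul_le_mul' le_rfl (hpt ξ.1 ξ.2)
    _ ≤ ∑' ξ : CMark q H, (L.m ξ : ℝ≥0∞) * ∑' k : Fin H,
      (if (X.1 * J ≤ (k : ℕ) + 1 ∧ (k : ℕ) ≤ (X.1 + 3) * J) then
        w (ξ.c k.castSucc) * eexp (ξ.tot k (k + 1)) else 0) :=
        ENNReal.tsum_comp_le_tsum_of_injective Subtype.val_injective _
    _ = ∑' k : Fin H, ∑' ξ : CMark q H, (L.m ξ : ℝ≥0∞) *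
      (if (X.1 * J ≤ (k : ℕ) + 1 ∧ (k : ℕ) ≤ (X.1 + 3) * J) then
        w (ξ.c k.castSucc) * eexp (ξ.tot k (k + 1)) else 0) := by
        simp_rw [← ENNReal.tsum_mul_left]
        rw [ENNReal.tsum_comm]
    _ ≤ ∑' k : Fin H, (if (X.1 * J ≤ (k : ℕ) + 1 ∧ (k : ℕ) ≤ (X.1 + 3) * J) then
        (eexp (6 * A) * Cth 1) * (ENNReal.ofReal (a * q ^ 2) * ENNReal.ofReal Lp ^ 1) else 0) :=
        ENNReal.tsum_le_tsum hone
    _ ≤ (3 * J + 2 : ℕ) *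
        ((eexp (6 * A) * Cth 1) * (ENNReal.ofReal (a * q ^ 2) * ENNReal.ofReal Lp ^ 1)) := by
        rw [tsum_fintype, ← Finset.sum_filter, Finset.sum_const, nsmul_eq_mul]
        refine mul_le_mul' ?_ le_rfl
        exact_mod_cast NOFOLLOW.card_steps H J X.1
    _ = K0 * ENNReal.ofReal (a * q ^ 2) := by
        rw [hK0]
        ring

end MPdd5692
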