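import Pool.Agent.Work.MP_dd5692_pr.InterfaceC

/-!
# MP_dd5692_pr, block LAM0: polynomial lower bound at the first scale.  helper17
-/

open MeasureTheory ProbabilityTheory Set
open scoped ENNReal NNReal BigOperators

namespace MPdd5692

namespace LAM0

lemma countable_CMark (q H : ℕ) : Countable (CMark q H) := by
  refine Function.Injective.countable (f := fun ξ : CMark q H => (ξ.c, ξ.g, ξ.b, ξ.r)) ?_
  rintro ⟨a1, a2, a3, a4⟩ ⟨b1, b2, b3, b4⟩ h
  simp only [Prod.mk.injEq] at h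
  obtain ⟨h1, h2, h3, h4⟩ := h
  subst h1; subst h2; subst h3; subst h4
  rfl

lemma countable_FMark (q H : ℕ) : Countable (FMark q H) := by
  have := countable_CMark q H
  infer_instance

end LAM0

open LAM0 in
theorem stmt_LAM0 (h1 : Stmt_HARRISN) (h2 : Stmt_MEAS) (h3 : Stmt_STATIC) (h4 : Stmt_HOLEP)
    (_h5 : Stmt_TRANS) : Stmt_LAM0 := by
  intro c e hc he he1 I Λ N
  obtain ⟨g, hg, hole⟩ := h4 I Λ N
  refine ⟨max 1 ⌈25 / (c ^ 4 * g)⌉₊, ?_⟩
  intro δ nmax E m m' l hm hm' hN hl hnm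
  have := E.nz
  have := countable_FMark E.q E.H
  have hl1 : 1 ≤ l := le_trans (le_max_left _ _) hl
  have hl2 : 25 / (c ^ 4 * g) ≤ (l : ℝ) :=
    le_trans (Nat.le_ceil _) (by exact_mod_cast le_trans (le_max_right _ _) hl)
  have hl0 : (1 : ℝ) ≤ (l : ℝ) := by exact_mod_cast hl1
  -- the five events
  obtain ⟨⟨mA, dA⟩, ⟨mU, dU⟩, ⟨mH, dH⟩, -, -⟩ := h2 E.q E.H E.ρ m m' 0 0 0 (2 * l)
  obtain ⟨⟨mA', dA'⟩, -, -, -, mAs, -, -⟩ := h2 E.q E.H E.ρ m' m 0 0 0 (2 * l)
  obtain ⟨-, ⟨mU1, dU1⟩, -, -, -, mUs, -⟩ := h2 E.q E.H E.ρ m m' 0 0 l (2 * l)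
  obtain ⟨-, ⟨mU2, dU2⟩, -, -, -, -, -⟩ := h2 E.q E.H E.ρ m' m 0 0 l (2 * l)
  have hP : E.P = pois (fun θ => E.lam * E.L.fine θ) := rfl
  -- probabilities
  have pU1 : c ≤ E.P.real {ω | UU E.ρ E.q (et ω m) 0 l (2 * l)} := by
    have := (h3 E.q E.H E.j δ Λ E.L E.lam m (by omega)
      (fun S => UU E.ρ E.q S 0 l (2 * l)) mUs).2
    unfold Env.P
    rw [this]
    exact E.ok.U_ge l (2 * l) (by omega) (by omega)
  have pU2 : c ≤ E.P.real {ω | UU E.ρ E.q (et ω m') 0 l (2 * l)} := by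
    have := (h3 E.q E.H E.j δ Λ E.L E.lam m' (by omega)
      (fun S => UU E.ρ E.q S 0 l (2 * l)) mUs).2
    unfold Env.P
    rw [this]
    exact E.ok.U_ge l (2 * l) (by omega) (by omega)
  have pH : g ≤ E.P.real {ω | HoleC ω m m' 0} :=
    hole E.q E.H _ δ E.L E.lam E.inten m m' 0 hN hm'
  have harm : c / (5 * l) ≤ alpha E.ρ E.q E.lam E.j 0 (2 * l) := by
    refine le_trans ?_ (E.ok.arm_ge 0 (2 * l) (by omega) (by omega))
    have e1 : (2 * ((0 : ℕ) : ℝ) + 1) / (2 * ((2 * l : ℕ) : ℝ) + 1) = (4 * (l : ℝ) + 1)⁻¹ := by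
      push_cast; rw [mul_zero, zero_add, one_div]; ring_nf
    rw [e1, div_eq_mul_inv]
    refine mul_le_mul_of_nonneg_left ?_ hc.le
    have e2 : ((4 * (l : ℝ) + 1)⁻¹) ^ (1 : ℝ) ≤ ((4 * (l : ℝ) + 1)⁻¹) ^ (1 - e) :=
      Real.rpow_le_rpow_of_exponent_ge (by positivity) (inv_le_one_of_one_le₀ (by linarith))
        (by linarith)
    rw [Real.rpow_one] at e2
    refine le_trans ?_ e2
    exact inv_anti₀ (by positivity) (by linarith)
  have pA1 : c / (5 * l) ≤ E.P.real {ω | Arm E.ρ E.q (et ω m) 0 0 0 (2 * l)} := by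
    have := (h3 E.q E.H E.j δ Λ E.L E.lam m (by omega)
      (fun S => Arm E.ρ E.q S 0 0 0 (2 * l)) mAs).2
    unfold Env.P
    rw [this]
    exact harm
  have pA2 : c / (5 * l) ≤ E.P.real {ω | Arm E.ρ E.q (et ω m') 0 0 0 (2 * l)} := by
    have := (h3 E.q E.H E.j δ Λ E.L E.lam m' (by omega)
      (fun S => Arm E.ρ E.q S 0 0 0 (2 * l)) mAs).2
    unfold Env.P
    rw [this]
    exact harm
  -- Harris
  let F : Fin 5 → Set (Conf E.q E.H) := fun k =>
    if k = 0 then {ω | UU E.ρ E.q (et ω m) 0 l (2 * l)}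
    else if k = 1 then {ω | UU E.ρ E.q (et ω m') 0 l (2 * l)}
    else if k = 2 then {ω | HoleC ω m m' 0}
    else if k = 3 then {ω | Arm E.ρ E.q (et ω m) 0 0 0 (2 * l)}
    else {ω | Arm E.ρ E.q (et ω m') 0 0 0 (2 * l)}
  have hF := h1 (FMark E.q E.H) (fun θ => E.lam * E.L.fine θ) (Fin 5) Finset.univ F
    (by
      intro k
      fin_cases k
      · exact mU1
      · exact mU2
      · exact mH
      · exact mA
      · exact mA')
    (by
      intro k
      fin_cases k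
      · exact dU1
      · exact dU2
      · exact dH
      · exact dA
      · exact dA')
  rw [Fin.prod_univ_five, ← hP] at hF
  have hF2 : E.P.real {ω | UU E.ρ E.q (et ω m) 0 l (2 * l)}
      * E.P.real {ω | UU E.ρ E.q (et ω m') 0 l (2 * l)}
      * E.P.real {ω | HoleC ω m m' 0}
      * E.P.real {ω | Arm E.ρ E.q (et ω m) 0 0 0 (2 * l)}
      * E.P.real {ω | Arm E.ρ E.q (et ω m') 0 0 0 (2 * l)}
      ≤ E.P.real (⋂ k ∈ Finset.univ, F k) := hF
  have : IsProbabilityMeasure E.P := by rw [hP]; infer_instance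
  have hsub : (⋂ k ∈ Finset.univ, F k) ⊆ {ω | LamE E.ρ ω m m' 0 l} := by
    intro ω hω
    simp only [Finset.mem_univ, Set.iInter_true, Set.mem_iInter] at hω
    have w0 : UU E.ρ E.q (et ω m) 0 l (2 * l) := hω 0
    have w1 : UU E.ρ E.q (et ω m') 0 l (2 * l) := hω 1
    have w2 : HoleC ω m m' 0 := hω 2
    have w3 : Arm E.ρ E.q (et ω m) 0 0 0 (2 * l) := hω 3
    have w4 : Arm E.ρ E.q (et ω m') 0 0 0 (2 * l) := hω 4
    refine ⟨w0, w1, 0, ?_, w2, w3, w4⟩
    simp [box, nrm]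
  have hmono : E.P.real (⋂ k ∈ Finset.univ, F k) ≤ E.P.real {ω | LamE E.ρ ω m m' 0 l} :=
    measureReal_mono hsub (measure_ne_top _ _)
  refine le_trans ?_ (le_trans hF2 hmono)
  have hcl : 0 < c / (5 * (l : ℝ)) := by positivity
  calc 1 / (l : ℝ) ^ 9 ≤ c * c * g * (c / (5 * l)) * (c / (5 * l)) := by
        have e3 : c * c * g * (c / (5 * l)) * (c / (5 * l)) = c ^ 4 * g / (25 * (l : ℝ) ^ 2) := by
          field_simp; ring
        rw [e3, div_le_div_iff₀ (by positivity) (by positivity)]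
        rw [div_le_iff₀ (by positivity)] at hl2
        have e4 : (l : ℝ) ^ 3 ≤ (l : ℝ) ^ 9 := pow_le_pow_right₀ hl0 (by norm_num)
        calc 1 * (25 * (l : ℝ) ^ 2) = 25 * (l : ℝ) ^ 2 := one_mul _
          _ ≤ ((l : ℝ) * (c ^ 4 * g)) * (l : ℝ) ^ 2 :=
              mul_le_mul_of_nonneg_right hl2 (by positivity)
          _ = c ^ 4 * g * (l : ℝ) ^ 3 := by ring
          _ ≤ c ^ 4 * g * (l : ℝ) ^ 9 := mul_le_mul_of_nonneg_left e4 (by positivity)
    _ ≤ _ := by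
        refine mul_le_mul ?_ pA2 hcl.le ?_
        · refine mul_le_mul ?_ pA1 hcl.le ?_
          · refine mul_le_mul ?_ pH hg.le ?_
            · exact mul_le_mul pU1 pU2 hc.le (le_trans hc.le pU1)
            · exact mul_nonneg measureReal_nonneg measureReal_nonneg
          · exact mul_nonneg (mul_nonneg measureReal_nonneg measureReal_nonneg) measureReal_nonneg
        · exact mul_nonneg (mul_nonneg (mul_nonneg measureReal_nonneg measureReal_nonneg)
            measureReal_nonneg) measureReal_nonneg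

end MPdd5692
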