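import Pool.Agent.Work.MP_dd5692_pr.Superp

/-!
# MP_dd5692_pr, block LIP: Lipschitz dependence on the intensity.
-/

open MeasureTheory ProbabilityTheory Set
open scoped ENNReal NNReal BigOperators

namespace MPdd5692

namespace LIP

variable {ι : Type}

theorem aux [Countable ι] (μ : ι → ℝ≥0) (A : Set ι) {E : Set (ι → ℕ)} (hE : MeasurableSet E)
    (dE : DepOn A E) (hs : Summable (fun i : A => (μ i : ℝ))) {l l' : ℝ≥0} (hl : l ≤ l') :
    |(pois fun i => l * μ i).real E - (pois fun i => l' * μ i).real E|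
      ≤ ((l' : ℝ) - l) * ∑' i : A, (μ i : ℝ) := by
  set ν : ι → ℝ≥0 := fun i => l * μ i with hν
  set ν' : ι → ℝ≥0 := fun i => (l' - l) * μ i with hν'
  have h := Superp.mp_add ν ν'
  have e : (fun i => ν i + ν' i) = fun i => l' * μ i := by
    funext i
    simp only [hν, hν']
    rw [← add_mul, add_tsub_cancel_of_le hl]
  rw [e] at h
  set Q := (pois ν).prod (pois ν') with hQ
  set E1 : Set ((ι → ℕ) × (ι → ℕ)) := Prod.fst ⁻¹' E with hE1
  set E2 : Set ((ι → ℕ) × (ι → ℕ)) := (fun p : (ι → ℕ) × (ι → ℕ) => p.1 + p.2) ⁻¹' E with hE2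
  set Z : Set ((ι → ℕ) × (ι → ℕ)) := Prod.snd ⁻¹' (⋃ i : A, {ω : ι → ℕ | ω i ≠ 0}) with hZ
  have p1 : (pois ν).real E = Q.real E1 :=
    ((Superp.mp_fst ν ν').measureReal_preimage hE.nullMeasurableSet).symm
  have p2 : (pois fun i => l' * μ i).real E = Q.real E2 :=
    (h.measureReal_preimage hE.nullMeasurableSet).symm
  have hagree : ∀ p : (ι → ℕ) × (ι → ℕ), p ∉ Z → (p ∈ E1 ↔ p ∈ E2) := by
    intro p hp
    refine dE p.1 (p.1 + p.2) fun i hi => ?_
    have : p.2 i = 0 := by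
      by_contra h0
      exact hp (Set.mem_iUnion.2 ⟨⟨i, hi⟩, h0⟩)
    rw [Pi.add_apply, this, add_zero]
  have mU : MeasurableSet (⋃ i : A, {ω : ι → ℕ | ω i ≠ 0}) :=
    MeasurableSet.iUnion fun i => by
      have : Measurable fun ω : ι → ℕ => ω (i : ι) := by fun_prop
      exact (this (measurableSet_singleton 0)).compl
  have pz : Q Z ≤ ENNReal.ofReal (((l' : ℝ) - l) * ∑' i : A, (μ i : ℝ)) := by
    rw [hZ, hQ, (Superp.mp_snd ν ν').measure_preimage mU.nullMeasurableSet]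
    refine (measure_iUnion_le _).trans ?_
    refine (ENNReal.tsum_le_tsum fun i : A => Superp.ne_zero_le ν' i).trans ?_
    have e2 : ∀ i : A, ((ν' i : ℝ≥0) : ℝ≥0∞) = ENNReal.ofReal (((l' : ℝ) - l) * (μ i : ℝ)) := by
      intro i
      rw [← NNReal.coe_sub hl, ← NNReal.coe_mul, ENNReal.ofReal_coe_nnreal]
    simp only [e2]
    rw [← ENNReal.ofReal_tsum_of_nonneg, tsum_mul_left]
    · intro i
      have : (0 : ℝ) ≤ (l' : ℝ) - l := sub_nonneg.2 (by exact_mod_cast hl)
      positivity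
    · exact hs.mul_left _
  have pz' : Q.real Z ≤ ((l' : ℝ) - l) * ∑' i : A, (μ i : ℝ) := by
    have h0 : 0 ≤ ((l' : ℝ) - l) * ∑' i : A, (μ i : ℝ) := by
      have : (0 : ℝ) ≤ (l' : ℝ) - l := sub_nonneg.2 (by exact_mod_cast hl)
      have h2 : 0 ≤ ∑' i : A, (μ i : ℝ) := tsum_nonneg fun i => (μ i).2
      positivity
    exact ENNReal.toReal_le_of_le_ofReal h0 pz
  rw [p1, p2]
  have s1 : Q.real E1 ≤ Q.real E2 + Q.real Z :=
    (measureReal_mono fun p hp => by
      by_cases h0 : p ∈ Z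
      · exact Or.inr h0
      · exact Or.inl ((hagree p h0).1 hp)).trans (measureReal_union_le _ _)
  have s2 : Q.real E2 ≤ Q.real E1 + Q.real Z :=
    (measureReal_mono fun p hp => by
      by_cases h0 : p ∈ Z
      · exact Or.inr h0
      · exact Or.inl ((hagree p h0).2 hp)).trans (measureReal_union_le _ _)
  rw [abs_le]
  constructor <;> linarith

end LIP

theorem stmt_LIP : Stmt_LIP := by
  intro ι _ μ A E hE dE hs l l'
  rcases le_total l l' with h | h
  · have := LIP.aux μ A hE dE hs h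
    rwa [abs_sub_comm (l : ℝ), abs_of_nonneg (sub_nonneg.2 (NNReal.coe_le_coe.2 h))]
  · have := LIP.aux μ A hE dE hs h
    rw [abs_sub_comm]
    rwa [abs_of_nonneg (sub_nonneg.2 (NNReal.coe_le_coe.2 h))]

end MPdd5692
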