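import Mathlib

/-!
# Lipschitz percolation (PLAN.md, 4.5)

`lipschitz`: if the bad sites of `ℕ × ℤ` satisfy `P(all sites of S are bad) ≤ p ^ |S|`, then with
probability at least `1 - 8 p` there is a Lipschitz function `F` with `F 0 = 1` whose graph over
`[0, N]` consists of sites which are not bad.
-/

open MeasureTheory Set
open scoped ENNReal

namespace Pool.DD.Lip

/-- one step of a lambda path, `B` = closed sites -/
def Step (B : Set (ℕ × ℤ)) (u v : ℕ × ℤ) : Prop :=
  (v.1 = u.1 ∧ v.2 = u.2 + 1 ∧ v ∈ B) ∨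
    (v.2 = u.2 - 1 ∧ (v.1 = u.1 ∨ v.1 = u.1 + 1 ∨ v.1 + 1 = u.1))

/-- reachable from height `0` -/
def Reach (B : Set (ℕ × ℤ)) (v : ℕ × ℤ) : Prop :=
  ∃ u : ℕ × ℤ, u.2 = 0 ∧ Relation.ReflTransGen (Step B) u v

theorem Reach.step {B : Set (ℕ × ℤ)} {u v : ℕ × ℤ} (h : Reach B u) (hs : Step B u v) :
    Reach B v := by
  obtain ⟨a, ha, h⟩ := h
  exact ⟨a, ha, h.tail hs⟩

theorem Reach.zero (B : Set (ℕ × ℤ)) (x : ℕ) : Reach B (x, 0) := ⟨(x, 0), rfl, .refl⟩

theorem Reach.le {B : Set (ℕ × ℤ)} {N : ℕ} (hB : ∀ v ∈ B, v.2 ≤ N) {v : ℕ × ℤ}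
    (h : Reach B v) : v.2 ≤ N := by
  obtain ⟨u, hu, h⟩ := h
  induction h with
  | refl => omega
  | tail _ hs ih =>
    rcases hs with ⟨_, _, h⟩ | ⟨h, _⟩
    · exact hB _ h
    · omega

/-- The deterministic part: lowest unreachable height. -/
theorem exists_lip {B : Set (ℕ × ℤ)} {N : ℕ} (hB : ∀ v ∈ B, v.2 ≤ N)
    (h1 : ¬ Reach B (0, 1)) :
    ∃ F : ℕ → ℤ, F 0 = 1 ∧ (∀ x, |F (x + 1) - F x| ≤ 1) ∧ ∀ x, (x, F x) ∉ B := by
  classical
  have hex : ∀ x : ℕ, ∃ k : ℕ, ¬ Reach B (x, (k : ℤ) + 1) := by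
    intro x
    refine ⟨N, fun h => ?_⟩
    have := Reach.le hB h
    simp only at this
    omega
  let f : ℕ → ℕ := fun x => Nat.find (hex x)
  have hf : ∀ x, ¬ Reach B (x, (f x : ℤ) + 1) := fun x => Nat.find_spec (hex x)
  have hmin : ∀ x k, k < f x → Reach B (x, (k : ℤ) + 1) := by
    intro x k hk
    have := Nat.find_min (hex x) hk
    exact not_not.1 this
  have key : ∀ x x' : ℕ, (x = x' ∨ x = x' + 1 ∨ x + 1 = x') → f x' ≤ f x + 1 := by
    intro x x' hx
    by_contra hc
    have hr := hmin x' (f x + 1) (by omega)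
    apply hf x
    refine hr.step (Or.inr ⟨?_, hx⟩)
    push_cast
    ring
  refine ⟨fun x => (f x : ℤ) + 1, ?_, ?_, ?_⟩
  · have : f 0 = 0 := by
      have : ¬ Reach B (0, ((0 : ℕ) : ℤ) + 1) := by simpa using h1
      exact Nat.le_zero.1 (Nat.find_min' (hex 0) this)
    simp [this]
  · intro x
    have h2 := key x (x + 1) (by omega)
    have h3 := key (x + 1) x (by omega)
    rw [abs_le]
    constructor <;> push_cast <;> omega
  · intro x hx
    apply hf x
    rcases Nat.eq_zero_or_pos (f x) with h0 | h0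
    · refine (Reach.zero B x).step (Or.inl ⟨rfl, ?_, hx⟩)
      simp [h0]
    · have hr := hmin x (f x - 1) (by omega)
      refine hr.step (Or.inl ⟨rfl, ?_, hx⟩)
      simp only
      omega

/-! ### paths read backwards -/

/-- the tail of the step with code `s` whose head is `v` -/
def pr (s : Fin 4) (v : ℕ × ℤ) : ℕ × ℤ :=
  if s = 0 then (v.1, v.2 - 1) else if s = 1 then (v.1, v.2 + 1)
    else if s = 2 then (v.1 - 1, v.2 + 1) else (v.1 + 1, v.2 + 1)

def tr : List (Fin 4) → ℕ × ℤ → List (ℕ × ℤ)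
  | [], v => [v]
  | s :: w, v => v :: tr w (pr s v)

def en : List (Fin 4) → ℕ × ℤ → ℕ × ℤ
  | [], v => v
  | s :: w, v => en w (pr s v)

def up : List (Fin 4) → ℕ × ℤ → List (ℕ × ℤ)
  | [], _ => []
  | s :: w, v => if s = 0 then v :: up w (pr s v) else up w (pr s v)

theorem up_sublist : ∀ (w : List (Fin 4)) (v : ℕ × ℤ), (up w v).Sublist (tr w v)
  | [], v => by simp [up]
  | s :: w, v => by
    unfold up tr
    split
    · exact (up_sublist w _).cons_cons _
    · exact (up_sublist w _).cons _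

theorem height : ∀ (w : List (Fin 4)) (v : ℕ × ℤ),
    (en w v).2 = v.2 + w.length - 2 * (up w v).length
  | [], v => by simp [en, up]
  | s :: w, v => by
    unfold en up
    rw [height w]
    by_cases hs : s = 0
    · simp only [hs, if_true, List.length_cons, pr]
      push_cast
      ring
    · simp only [hs, if_false, List.length_cons, pr]
      have : (if s = 1 then ((v.1, v.2 + 1) : ℕ × ℤ) else
        if s = 2 then (v.1 - 1, v.2 + 1) else (v.1 + 1, v.2 + 1)).2 = v.2 + 1 := by
        split_ifs <;> rfl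
      rw [this]
      push_cast
      ring

theorem suffix : ∀ (w : List (Fin 4)) (v x : ℕ × ℤ), x ∈ tr w v →
    ∃ w' : List (Fin 4), w'.length ≤ w.length ∧ en w' x = en w v ∧ up w' x ⊆ up w v
  | [], v, x, hx => by
    simp only [tr, List.mem_singleton] at hx
    exact ⟨[], le_refl _, by rw [hx], by simp [up]⟩
  | s :: w, v, x, hx => by
    simp only [tr, List.mem_cons] at hx
    rcases hx with rfl | hx
    · exact ⟨s :: w, le_refl _, rfl, fun _ h => h⟩
    · obtain ⟨w', h1, h2, h3⟩ := suffix w _ x hx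
      refine ⟨w', by simp; omega, by rw [h2]; rfl, ?_⟩
      intro y hy
      have hy := h3 hy
      unfold up
      split
      · exact List.mem_cons_of_mem _ hy
      · exact hy

/-- a valid backwards path -/
def Valid (B : Set (ℕ × ℤ)) (w : List (Fin 4)) (v : ℕ × ℤ) : Prop :=
  (en w v).2 = 0 ∧ ∀ x ∈ up w v, x ∈ B

theorem exists_valid {B : Set (ℕ × ℤ)} {v : ℕ × ℤ} (h : Reach B v) :
    ∃ w, Valid B w v := by
  obtain ⟨u, hu, h⟩ := h
  induction h with
  | refl => exact ⟨[], by simpa [en] using hu, by simp [up]⟩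
  | @tail b c _ hs ih =>
    obtain ⟨w, hw1, hw2⟩ := ih
    rcases hs with ⟨h1, h2, h3⟩ | ⟨h1, h2⟩
    · have hb : pr 0 c = b := by
        simp only [pr, if_true]
        ext <;> simp <;> omega
      refine ⟨0 :: w, by simpa [en, hb] using hw1, ?_⟩
      simp only [up, if_true, hb, List.mem_cons]
      rintro x (rfl | hx)
      · exact h3
      · exact hw2 x hx
    · obtain ⟨s, hs0, hs⟩ : ∃ s : Fin 4, s ≠ 0 ∧ pr s c = b := by
        rcases h2 with h2 | h2 | h2
        · refine ⟨1, by decide, ?_⟩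
          simp only [pr]
          ext <;> simp <;> omega
        · refine ⟨2, by decide, ?_⟩
          simp only [pr]
          ext <;> simp <;> omega
        · refine ⟨3, by decide, ?_⟩
          simp only [pr]
          ext <;> simp <;> omega
      refine ⟨s :: w, by simpa [en, hs] using hw1, ?_⟩
      simpa [up, hs0, hs] using hw2

theorem nodup_of_min {B : Set (ℕ × ℤ)} : ∀ (w : List (Fin 4)) (v : ℕ × ℤ), Valid B w v →
    (∀ w', Valid B w' v → w.length ≤ w'.length) → (tr w v).Nodup
  | [], v, _, _ => by simp [tr]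
  | s :: w, v, hv, hm => by
    have hv' : Valid B w (pr s v) := by
      refine ⟨hv.1, fun x hx => hv.2 x ?_⟩
      unfold up
      split
      · exact List.mem_cons_of_mem _ hx
      · exact hx
    have hnd : (tr w (pr s v)).Nodup := by
      refine nodup_of_min w _ hv' ?_
      intro w' hw'
      have : Valid B (s :: w') v := by
        refine ⟨hw'.1, ?_⟩
        intro x hx
        by_cases hs : s = 0
        · subst hs
          simp only [up, if_true, List.mem_cons] at hx
          rcases hx with rfl | hx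
          · exact hv.2 _ (by simp [up])
          · exact hw'.2 x hx
        · simp only [up, hs, if_false] at hx
          exact hw'.2 x hx
      have := hm _ this
      simpa using this
    unfold tr
    rw [List.nodup_cons]
    refine ⟨fun hmem => ?_, hnd⟩
    obtain ⟨w', h1, h2, h3⟩ := suffix w _ v hmem
    have : Valid B w' v := ⟨by rw [h2]; exact hv.1, fun x hx => hv'.2 x (h3 hx)⟩
    have := hm _ this
    simp at this
    omega

/-- If `(0,1)` is reachable there is a backwards path of odd length `2 k + 1` with `k + 1`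
distinct closed heads. -/
theorem exists_word {B : Set (ℕ × ℤ)} (h : Reach B (0, 1)) :
    ∃ k : ℕ, ∃ w : List (Fin 4), w.length = 2 * k + 1 ∧ (up w (0, 1)).Nodup ∧
      (up w (0, 1)).length = k + 1 ∧ ∀ x ∈ up w (0, 1), x ∈ B := by
  classical
  have hex : ∃ n : ℕ, ∃ w : List (Fin 4), w.length = n ∧ Valid B w (0, 1) := by
    obtain ⟨w, hw⟩ := exists_valid h
    exact ⟨_, w, rfl, hw⟩
  obtain ⟨w, hw1, hw2⟩ := Nat.find_spec hex
  have hnd : (tr w (0, 1)).Nodup := by
    refine nodup_of_min w _ hw2 ?_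
    intro w' hw'
    rw [hw1]
    exact Nat.find_min' hex ⟨w', rfl, hw'⟩
  have hh := height w (0, 1)
  rw [hw2.1] at hh
  simp only at hh
  refine ⟨(up w (0, 1)).length - 1, w, by omega, hnd.sublist (up_sublist _ _), by omega, hw2.2⟩

theorem lipschitz {Ω : Type*} [MeasurableSpace Ω] (P : Measure Ω) [IsProbabilityMeasure P]
    (bad : ℕ × ℤ → Set Ω) (p : ℝ) (hp0 : 0 ≤ p) (hp : 32 * p ≤ 1)
    (hS : ∀ S : Finset (ℕ × ℤ), P.real {ω | ∀ s ∈ S, ω ∈ bad s} ≤ p ^ S.card) (N : ℕ) :
    1 - 8 * p ≤ P.real {ω | ∃ F : ℕ → ℤ, F 0 = 1 ∧ (∀ x, |F (x + 1) - F x| ≤ 1) ∧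
      (∀ x, |F x| ≤ x + 1) ∧ ∀ x ≤ N, ω ∉ bad (x, F x)} := by
  classical
  set G : Set Ω := {ω | ∃ F : ℕ → ℤ, F 0 = 1 ∧ (∀ x, |F (x + 1) - F x| ≤ 1) ∧
      (∀ x, |F x| ≤ x + 1) ∧ ∀ x ≤ N, ω ∉ bad (x, F x)} with hG
  let B : Ω → Set (ℕ × ℤ) := fun ω => {v | ω ∈ bad v ∧ v.2 ≤ ((N + 1 : ℕ) : ℤ)}
  let Rch : Set Ω := {ω | Reach (B ω) (0, 1)}
  have hcov : (univ : Set Ω) ⊆ G ∪ Rch := by
    intro ω _
    by_cases hr : Reach (B ω) (0, 1)
    · exact Or.inr hr
    · left
      obtain ⟨F, hF0, hF1, hF2⟩ := exists_lip (N := N + 1) (fun v hv => hv.2) hr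
      have hb : ∀ x : ℕ, |F x| ≤ x + 1 := by
        intro x
        induction x with
        | zero => rw [hF0]; simp
        | succ x ih =>
          have := hF1 x
          rw [abs_le] at this ih ⊢
          constructor <;> push_cast <;> omega
      refine ⟨F, hF0, hF1, hb, ?_⟩
      intro x hx hbad
      apply hF2 x
      refine ⟨hbad, ?_⟩
      have := (abs_le.1 (hb x)).2
      simp only
      push_cast
      omega
  set q : ℝ≥0∞ := ENNReal.ofReal p with hq
  have hSq : ∀ S : Finset (ℕ × ℤ), P {ω | ∀ s ∈ S, ω ∈ bad s} ≤ q ^ S.card := by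
    intro S
    have h := hS S
    rw [hq, ← ENNReal.ofReal_pow hp0]
    rw [← ofReal_measureReal (measure_ne_top P _)]
    exact ENNReal.ofReal_le_ofReal h
  have hq16 : 32 * q ≤ 1 := by
    rw [hq, show (32 : ℝ≥0∞) = ENNReal.ofReal 32 by norm_num, ← ENNReal.ofReal_mul (by norm_num)]
    exact ENNReal.ofReal_le_one.2 hp
  have hR : P Rch ≤ 8 * q := by
    let E : (k : ℕ) → (Fin (2 * k + 1) → Fin 4) → Set Ω := fun k w =>
      {ω | (up (List.ofFn w) (0, 1)).Nodup ∧ (up (List.ofFn w) (0, 1)).length = k + 1 ∧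
        ∀ x ∈ up (List.ofFn w) (0, 1), x ∈ B ω}
    have hsub : Rch ⊆ ⋃ k, ⋃ w, E k w := by
      intro ω hω
      obtain ⟨k, w, hw, h1, h2, h3⟩ := exists_word (B := B ω) hω
      simp only [mem_iUnion]
      refine ⟨k, fun i => w.get (i.cast hw.symm), ?_⟩
      have : List.ofFn (fun i : Fin (2 * k + 1) => w.get (i.cast hw.symm)) = w := by
        apply List.ext_getElem
        · simp [hw]
        · intro n h1 h2
          rw [List.getElem_ofFn]
          rfl
      simp only [E, mem_ofPred_eq, this]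
      exact ⟨h1, h2, h3⟩
    have hE : ∀ k w, P (E k w) ≤ q ^ (k + 1) := by
      intro k w
      by_cases hok : (up (List.ofFn w) (0, 1)).Nodup ∧ (up (List.ofFn w) (0, 1)).length = k + 1
      · have h := hSq (up (List.ofFn w) (0, 1)).toFinset
        rw [List.toFinset_card_of_nodup hok.1, hok.2] at h
        refine le_trans (measure_mono ?_) h
        intro ω hω s hs
        rw [List.mem_toFinset] at hs
        exact (hω.2.2 s hs).1
      · have : E k w = ∅ := by
          ext ω
          simp only [E, mem_ofPred_eq, mem_empty_iff_false, iff_false]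
          exact fun h => hok ⟨h.1, h.2.1⟩
        rw [this]
        simp
    have h16 : (16 * q) ≤ 1 / 2 := by
      have : 16 * q * 2 ≤ 1 := by
        calc 16 * q * 2 = 32 * q := by ring
          _ ≤ 1 := hq16
      rw [ENNReal.le_div_iff_mul_le (by simp) (by simp)]
      exact this
    calc P Rch ≤ P (⋃ k, ⋃ w, E k w) := measure_mono hsub
      _ ≤ ∑' k, P (⋃ w, E k w) := measure_iUnion_le _
      _ ≤ ∑' k : ℕ, (4 * q) * (16 * q) ^ k := by
          refine ENNReal.tsum_le_tsum fun k => ?_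
          calc P (⋃ w, E k w) ≤ ∑' w, P (E k w) := measure_iUnion_le _
            _ = ∑ w, P (E k w) := tsum_fintype _
            _ ≤ ∑ _w : Fin (2 * k + 1) → Fin 4, q ^ (k + 1) :=
                Finset.sum_le_sum fun w _ => hE k w
            _ = (4 * q) * (16 * q) ^ k := by
                simp only [Finset.sum_const, Finset.card_univ, Fintype.card_pi, Fintype.card_fin,
                  Finset.prod_const, nsmul_eq_mul]
                push_cast
                rw [pow_succ, pow_mul, mul_pow, pow_succ]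
                norm_num
                ring
      _ = (4 * q) * ∑' k : ℕ, (16 * q) ^ k := ENNReal.tsum_mul_left
      _ = (4 * q) * (1 - 16 * q)⁻¹ := by rw [ENNReal.tsum_geometric]
      _ ≤ (4 * q) * 2 := by
          gcongr
          rw [ENNReal.inv_le_iff_inv_le]
          calc (2 : ℝ≥0∞)⁻¹ = 1 - 1 / 2 := by
                rw [one_div, ENNReal.one_sub_inv_two]
            _ ≤ 1 - 16 * q := tsub_le_tsub_left h16 1
      _ = 8 * q := by ring
  have hfin : (1 : ℝ≥0∞) ≤ P G + 8 * q := by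
    calc (1 : ℝ≥0∞) = P univ := (measure_univ).symm
      _ ≤ P (G ∪ Rch) := measure_mono hcov
      _ ≤ P G + P Rch := measure_union_le _ _
      _ ≤ P G + 8 * q := by gcongr
  have hq8 : (8 * q) = ENNReal.ofReal (8 * p) := by
    rw [hq, show (8 : ℝ≥0∞) = ENNReal.ofReal 8 by norm_num, ← ENNReal.ofReal_mul (by norm_num)]
  rw [hq8, ← ofReal_measureReal (measure_ne_top P G), ← ENNReal.ofReal_add measureReal_nonneg
    (by positivity), ← ENNReal.ofReal_one, ENNReal.ofReal_le_ofReal_iff (by positivity)] at hfin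
  linarith

end Pool.DD.Lip
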