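import Mathlib
import Pool.Agent.Work.MP_dd5692_pr.InterfaceD
import Pool.Agent.Work.MP_dd5692_pr.Lip

/-!
# MP_dd5692_pr: block LIPPERC (helper88)
-/

open MeasureTheory Set

namespace MPdd5692

theorem stmt_LIPPERC : Stmt_LIPPERC := by
  refine ⟨1 / 32, by norm_num, ?_⟩
  intro Ω _ P _ bad _ N hS
  have h := Pool.DD.Lip.lipschitz P (fun x => {ω | x ∈ bad ω ∧ x.1 ≤ N}) (1 / 32) (by norm_num)
    (by norm_num) ?_ N
  · have h2 : (1 : ℝ) - 8 * (1 / 32) = 3 / 4 := by norm_num
    rw [h2] at h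
    refine h.trans (measureReal_mono ?_ (measure_ne_top P _))
    rintro ω ⟨F, h0, h1, -, h3⟩
    exact ⟨F, h0, fun M _ => h1 M, fun M hM hb => h3 M hM ⟨hb, hM⟩⟩
  · intro S
    by_cases hN : ∀ X ∈ S, X.1 ≤ N
    · refine le_trans (measureReal_mono ?_ (measure_ne_top P _)) (hS S hN)
      intro ω hω x hx
      exact (hω x hx).1
    · push Not at hN
      obtain ⟨X, hX, hXN⟩ := hN
      have : {ω | ∀ s ∈ S, ω ∈ {ω | s ∈ bad ω ∧ s.1 ≤ N}} = ∅ := by
        ext ω
        simp only [mem_ofPred_eq, mem_empty_iff_false, iff_false]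
        intro h
        have := (h X hX).2
        omega
      rw [this]
      simp

end MPdd5692
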