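import Mathlib
import Pool.Agent.Work.MP_dd5692_pr.InterfaceE
import Pool.Agent.Work.MP_dd5692_pr.N13

/-!
# MP_dd5692_pr: block LOC (helper13)
-/

open MeasureTheory ProbabilityTheory Set
open scoped ENNReal NNReal BigOperators

namespace MPdd5692.LOC

open MPdd5692 MPdd5692.CIRC MPdd5692.N13

variable {q H : ℕ}

/-- the occupied crossing only depends on the vacant sites in the outer box -/
lemma UU_of {ρ : ℝ} {S S' : Set Site} {y : Site} {a b : ℕ}
    (h : ∀ x ∈ cbox q y b, x ∈ vacSites ρ S' → x ∈ vacSites ρ S)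
    (hU : UU ρ q S' y a b) : UU ρ q S y a b := by
  rintro ⟨s, hs, t, ht, hst⟩
  apply hU
  refine ⟨s, hs, t, ht, mono' ?_ hst⟩
  rintro x ((hx | hx) | hx)
  · by_cases hxb : x ∈ cbox q y b
    · exact Or.inl (Or.inl fun h' => hx (h x hxb h'))
    · exact Or.inr hxb
  · exact Or.inl (Or.inr hx)
  · exact Or.inr hx

/-- the same for an arm -/
lemma Arm_of {ρ : ℝ} {S S' : Set Site} {z y : Site} {a b : ℕ}
    (h : ∀ x ∈ cbox q y b, x ∈ vacSites ρ S' → x ∈ vacSites ρ S)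
    (hA : Arm ρ q S' z a y b) : Arm ρ q S z a y b := by
  obtain ⟨s, hs, t, ht, hst⟩ := hA
  refine ⟨s, hs, t, ht, mono' ?_ hst⟩
  rintro x ((hx | hx) | hx)
  · by_cases hxb : x ∈ cbox q y b
    · exact Or.inl (Or.inl (h x hxb hx))
    · exact Or.inr hxb
  · exact Or.inl (Or.inr hx)
  · exact Or.inr hx

end MPdd5692.LOC

namespace MPdd5692

open MPdd5692.CIRC MPdd5692.N13 MPdd5692.LOC

theorem stmt_LOC : Stmt_LOC := by
  intro q H _ ρ p ω X m m' y hρ hq hJ hu hG hNW hXm hmm' hm'X hm'H hy hLam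
  have hq0 : 0 < q := Nat.pos_of_ne_zero (NeZero.ne q)
  have huZ : (100 : ℤ) ≤ p.u := by exact_mod_cast hu
  -- `y` is close to the centre of the macro-block
  have hyX : 8 * nrm (xX p.A X - y) ≤ p.A := by
    obtain ⟨y0, hy0, hyy⟩ := hy
    have h8 := hG.small y0 hy0
    have e : xX p.A X - y = - sm p.u y0 := by
      rw [hyy]
      unfold xX
      ext <;> simp
    have e2 : nrm (xX p.A X - y) = p.u * nrm y0 := by
      rw [e]
      unfold nrm sm
      simp only [Prod.fst_neg, Prod.snd_neg, abs_neg, abs_mul]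
      have : |((p.u : ℕ) : ℤ)| = p.u := abs_of_nonneg (by positivity)
      rw [this, mul_max_of_nonneg _ _ (by positivity)]
    rw [e2]
    have : ((p.A : ℕ) : ℤ) = p.A1 * p.u := by unfold Par.A; push_cast; ring
    rw [this]
    nlinarith
  have hAbig : (4000 : ℤ) * p.u ≤ p.A := by
    have h4 : (4000 : ℤ) ≤ p.A1 := by exact_mod_cast hG.big
    have : ((p.A : ℕ) : ℤ) = p.A1 * p.u := by unfold Par.A; push_cast; ring
    rw [this]
    nlinarith
  -- bounds of the window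
  have hw1 : X.1 * p.J - 1 ≤ m := by omega
  have hw2 : m' ≤ (X.1 + 3) * p.J + 1 := by nlinarith
  have hw3 : m' ≤ (X.1 + 3) * p.J := by nlinarith
  -- a particle outside the ball at time `m'` stays far
  have hfar : ∀ θ : FMark q H, ω θ ≠ 0 → (∀ h : m' < H + 1, 25 * (p.u : ℤ) < nrm (θ.1.c ⟨m', h⟩ - y)) →
      (∀ t, m ≤ t → t ≤ m' → ∀ ht : t < H + 1, 24 * (p.u : ℤ) ≤ nrm (θ.1.c ⟨t, ht⟩ - y)) ∧
      (∀ k : Fin H, m ≤ (k : ℕ) → (k : ℕ) < m' →
        ((θ.1.D k : ℕ) : ℤ) + 10 * p.u < nrm (θ.1.c k.castSucc - y)) := by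
    intro θ hθ hout
    by_cases hinf : θ.1 ∈ Infl q H p.A p.J X
    · have htot := hNW θ hθ hinf
      have h24 : ∀ t, m ≤ t → t ≤ m' → ∀ ht : t < H + 1,
          24 * (p.u : ℤ) ≤ nrm (θ.1.c ⟨t, ht⟩ - y) := by
        intro t h1 h2 ht
        have hd := disp' θ.1 ht (by omega : m' < H + 1) h2
        have hm : ((θ.1.tot t m' : ℕ) : ℤ) ≤ p.u := by
          have := (tot_mono θ.1 (k1 := t) (k2 := m') (hw1.trans h1) hw2).trans htot
          exact_mod_cast this
        have ho := hout (by omega)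
        have ht' := nrm_tri (θ.1.c ⟨m', by omega⟩) (θ.1.c ⟨t, ht⟩) y
        linarith
      refine ⟨h24, ?_⟩
      intro k hk1 hk2
      have h1 : ((θ.1.D k : ℕ) : ℤ) ≤ p.u := by
        have := (D_le_tot θ.1 (k1 := X.1 * p.J - 1) (k2 := (X.1 + 3) * p.J + 1) k (by omega)
          (by omega)).trans htot
        exact_mod_cast this
      have h2 := h24 k hk1 hk2.le (by omega)
      have h3 : 24 * (p.u : ℤ) ≤ nrm (θ.1.c k.castSucc - y) := h2
      linarith
    · -- particles that do not influence the window at all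
      have hno : ∀ k : Fin H, m ≤ (k : ℕ) → (k : ℕ) < m' →
          6 * (p.A : ℤ) + θ.1.D k < nrm (θ.1.c k.castSucc - xX p.A X) := by
        intro k hk1 hk2
        by_contra hc
        push Not at hc
        exact hinf ⟨k, by omega, by omega, hc⟩
      have hnoy : ∀ k : Fin H, m ≤ (k : ℕ) → (k : ℕ) < m' →
          5 * (p.A : ℤ) + θ.1.D k < nrm (θ.1.c k.castSucc - y) := by
        intro k hk1 hk2
        have h1 := hno k hk1 hk2
        have h2 := nrm_tri (θ.1.c k.castSucc) y (xX p.A X)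
        have h3 := nrm_symm y (xX p.A X)
        rw [h3] at h2
        have h4 : (0 : ℤ) ≤ p.A := by positivity
        linarith
      refine ⟨?_, ?_⟩
      · intro t h1 h2 ht
        rcases Nat.lt_or_ge t m' with h | h
        · have h3 : 5 * (p.A : ℤ) + θ.1.D ⟨t, by omega⟩ < nrm (θ.1.c ⟨t, ht⟩ - y) :=
            hnoy ⟨t, by omega⟩ h1 h
          have h4 : (0 : ℤ) ≤ θ.1.D ⟨t, by omega⟩ := by positivity
          linarith
        · have htt : t = m' := le_antisymm h2 h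
          subst htt
          obtain ⟨s, rfl⟩ : ∃ s, t = s + 1 := ⟨t - 1, by omega⟩
          have h3 : 5 * (p.A : ℤ) + θ.1.D ⟨s, by omega⟩ < nrm (θ.1.c ⟨s, by omega⟩ - y) :=
            hnoy ⟨s, by omega⟩ (by simp only; omega) (by simp only; omega)
          have h6 : nrm (θ.1.c ⟨s + 1, ht⟩ - θ.1.c ⟨s, by omega⟩) + 12 ≤
              ((θ.1.D ⟨s, by omega⟩ : ℕ) : ℤ) := D_ge θ.1 ⟨s, by omega⟩
          have h7 := nrm_tri (θ.1.c ⟨s, by omega⟩) (θ.1.c ⟨s + 1, ht⟩) y
          rw [nrm_symm (θ.1.c ⟨s, by omega⟩) (θ.1.c ⟨s + 1, ht⟩)] at h7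
          linarith
      · intro k hk1 hk2
        have h1 := hnoy k hk1 hk2
        linarith
  -- vacant sites of the outer box at time t
  have hvac : ∀ t, m ≤ t → t ≤ m' → ∀ x ∈ cbox q y (2 * (10 * p.u)),
      x ∈ vacSites ρ (et (inn m' y (25 * p.u) ω) t) → x ∈ vacSites ρ (et ω t) := by
    intro t h1 h2 x hx hv
    rintro v ⟨θ, hθ, ht, rfl⟩ hvx
    by_cases hin : ∃ h : m' < H + 1, nrm (θ.1.c ⟨m', h⟩ - y) ≤ ((25 * p.u : ℕ) : ℤ)
    · apply hv _ ⟨θ, ?_, ht, rfl⟩ hvx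
      unfold inn
      rw [if_pos hin]
      exact hθ
    · have hout : ∀ h : m' < H + 1, 25 * (p.u : ℤ) < nrm (θ.1.c ⟨m', h⟩ - y) := by
        intro h
        by_contra hc
        push Not at hc
        exact hin ⟨h, by push_cast; exact hc⟩
      have h3 := (hfar θ hθ hout).1 t h1 h2 ht
      have h4 := near hρ hq hvx
      rw [cidx_site hq0] at h4
      have h5 : nrm (cidx q x - y) ≤ ((2 * (10 * p.u) : ℕ) : ℤ) := hx
      have h6 := nrm_tri (θ.1.c ⟨t, ht⟩) (cidx q x) y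
      push_cast at h5
      linarith
  obtain ⟨hU, hU', b, hb, hole, hA, hA'⟩ := hLam
  refine ⟨UU_of (hvac m le_rfl hmm'.le) hU, UU_of (hvac m' hmm'.le le_rfl) hU', b, hb, ?_,
    Arm_of (hvac m le_rfl hmm'.le) hA, Arm_of (hvac m' hmm'.le le_rfl) hA'⟩
  intro k hk1 hk2 θ hθ
  by_cases hin : ∃ h : m' < H + 1, nrm (θ.1.c ⟨m', h⟩ - y) ≤ ((25 * p.u : ℕ) : ℤ)
  · apply hole k hk1 hk2 θ
    unfold inn
    rw [if_pos hin]
    exact hθ
  · have hout : ∀ h : m' < H + 1, 25 * (p.u : ℤ) < nrm (θ.1.c ⟨m', h⟩ - y) := by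
      intro h
      by_contra hc
      push Not at hc
      exact hin ⟨h, by push_cast; exact hc⟩
    have h3 := (hfar θ hθ hout).2 k hk1 hk2
    have h5 : nrm (b - y) ≤ ((10 * p.u : ℕ) : ℤ) := hb
    have h6 := nrm_tri (θ.1.c k.castSucc) b y
    push_cast at h5
    linarith

end MPdd5692
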