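import Mathlib
import Pool.Agent.Work.MP_dd5692_pr.InterfaceG

/-!
# MP_dd5692_pr, block MARKREF (helper40): assembly of the refinement of the marks
-/

open MeasureTheory ProbabilityTheory Set
open scoped ENNReal NNReal BigOperators

namespace MPdd5692

namespace MARKREF

theorem hasSum_real {α : Type*} (f : α → ℝ≥0) (A : ℝ≥0∞) (hA : A ≠ ⊤)
    (h : ∑' x, (f x : ℝ≥0∞) = A) : HasSum (fun x => (f x : ℝ)) A.toReal := by
  lift A to ℝ≥0 using hA
  have h1 : HasSum (fun x => (f x : ℝ≥0∞)) (A : ℝ≥0∞) := by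
    rw [← h]; exact ENNReal.summable.hasSum
  have h2 := ENNReal.hasSum_coe.1 h1
  exact NNReal.hasSum_coe.2 h2

theorem summable_le {α : Type*} (f : α → ℝ) (hf : ∀ x, 0 ≤ f x) (G : α → ℝ≥0∞)
    (hG : ∀ x, ENNReal.ofReal (f x) = G x) (B : ℝ) (hB : 0 ≤ B)
    (h : ∑' x, G x ≤ ENNReal.ofReal B) : Summable f ∧ ∑' x, f x ≤ B := by
  have hne : ∑' x, G x ≠ ⊤ := ne_top_of_le_ne_top ENNReal.ofReal_ne_top h
  have hfG : ∀ x, f x = (G x).toReal := fun x => by
    rw [← hG x, ENNReal.toReal_ofReal (hf x)]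
  have hGt : ∀ x, G x ≠ ⊤ := fun x => by rw [← hG x]; exact ENNReal.ofReal_ne_top
  have e : f = fun x => (G x).toReal := funext hfG
  constructor
  · rw [e]; exact ENNReal.summable_toReal hne
  · rw [e, ← ENNReal.tsum_toReal_eq hGt]
    exact ENNReal.toReal_le_of_le_ofReal hB h

/-- the kernel of one step -/
noncomputable def AA (s j : ℕ) (β : Measure ℕ) (φ : Bool → Site → Site → ℕ → ℝ≥0∞)
    (x y : Plane) : ℝ≥0∞ :=
  ∑ g : Bool, stepK s j g x y * ∑' b : ℕ, β {b} * φ g (sidx s j x) (sidx s j y) b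

theorem AA_meas (s j : ℕ) (hm : Measurable (sidx s j))
    (hk : ∀ g : Bool, Measurable (fun p : Plane × Plane => stepK s j g p.1 p.2))
    (β : Measure ℕ) (φ : Bool → Site → Site → ℕ → ℝ≥0∞) :
    Measurable (fun p : Plane × Plane => AA s j β φ p.1 p.2) := by
  unfold AA
  refine Finset.measurable_sum _ fun g _ => (hk g).mul ?_
  have h1 : Measurable (fun c : Site × Site => ∑' b : ℕ, β {b} * φ g c.1 c.2 b) :=
    measurable_of_countable _
  have h2 : Measurable (fun p : Plane × Plane => (sidx s j p.1, sidx s j p.2)) :=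
    (hm.comp measurable_fst).prodMk (hm.comp measurable_snd)
  exact h1.comp h2

theorem nrm_neg (a b : Site) : nrm (a - b) = nrm (b - a) := by
  unfold nrm
  rw [Prod.fst_sub, Prod.snd_sub, Prod.fst_sub, Prod.snd_sub, abs_sub_comm, abs_sub_comm b.2]

theorem heat_symm (y z : Plane) : heat 1 (y - z) = heat 1 (z - y) := by
  unfold heat
  rw [← norm_neg, neg_sub]

theorem nrm_nonneg (a : Site) : 0 ≤ nrm a := by
  unfold nrm
  exact le_max_of_le_left (abs_nonneg _)

/-- the marks with a given site at time `k` -/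
noncomputable def eqS (q H : ℕ) (k : Fin (H + 1)) (x : Site) :
    (Σ m : {m : Mark H // m.1 k = x},
      {θ : FMark q H // FMark.site θ = m.1.1 ∧ θ.1.b = m.1.2}) ≃
      {θ : FMark q H // FMark.site θ k = x} where
  toFun p := ⟨p.2.1, by rw [p.2.2.1]; exact p.1.2⟩
  invFun θ := ⟨⟨(FMark.site θ.1, θ.1.1.b), θ.2⟩, ⟨θ.1, rfl, rfl⟩⟩
  left_inv := by
    rintro ⟨⟨⟨v, b⟩, h⟩, ⟨θ, h1, h2⟩⟩
    dsimp only at h1 h2
    subst h1
    subst h2
    rfl
  right_inv θ := rfl

theorem window_card (H k1 k2 : ℕ) (h2 : k2 ≤ H) (a : ℝ≥0∞) :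
    ∏ k : Fin H, (if k1 ≤ (k : ℕ) ∧ (k : ℕ) < k2 then a else 1) = a ^ (k2 - k1) := by
  rw [Finset.prod_ite, Finset.prod_const_one, mul_one, Finset.prod_const]
  congr 1
  have h3 : (Finset.univ.filter fun k : Fin H => k1 ≤ (k : ℕ) ∧ (k : ℕ) < k2).card =
      (Finset.Ico k1 k2).card := by
    refine Finset.card_bij (fun k _ => (k : ℕ)) ?_ ?_ ?_
    · intro k hk
      rw [Finset.mem_filter] at hk
      rw [Finset.mem_Ico]
      exact hk.2
    · intro a _ b _ hab
      exact Fin.ext hab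
    · intro b hb
      rw [Finset.mem_Ico] at hb
      exact ⟨⟨b, by omega⟩, by simp [hb.1, hb.2], rfl⟩
  rw [h3, Nat.card_Ico]

open Classical in
theorem adj_card (H : ℕ) (k : Fin (H + 1)) (a : ℝ≥0∞) (ha : a ≤ 1) :
    a ^ 2 ≤ ∏ i : Fin H, (if (i.castSucc = k ∨ i.succ = k) then a else 1) := by
  rw [Finset.prod_ite, Finset.prod_const_one, mul_one, Finset.prod_const]
  refine pow_le_pow_right_of_le_one' ha ?_
  have h1 : (Finset.univ.filter fun i : Fin H => i.castSucc = k ∨ i.succ = k) =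
      (Finset.univ.filter fun i : Fin H => i.castSucc = k) ∪
      (Finset.univ.filter fun i : Fin H => i.succ = k) := by
    ext i
    simp only [Finset.mem_filter, Finset.mem_univ, true_and, Finset.mem_union]
  rw [h1]
  refine (Finset.card_union_le _ _).trans ?_
  have h2 : (Finset.univ.filter fun i : Fin H => i.castSucc = k).card ≤ 1 := by
    rw [Finset.card_le_one]
    intro a ha b hb
    rw [Finset.mem_filter] at ha hb
    exact Fin.castSucc_injective _ (ha.2.trans hb.2.symm)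
  have h3 : (Finset.univ.filter fun i : Fin H => i.succ = k).card ≤ 1 := by
    rw [Finset.card_le_one]
    intro a ha b hb
    rw [Finset.mem_filter] at ha hb
    exact Fin.succ_injective _ (ha.2.trans hb.2.symm)
  omega

end MARKREF

open MARKREF in
open Classical in
theorem stmt_MARKREF (h1 : Stmt_GSIDX) (h2 : Stmt_GKER) (h3 : Stmt_GBETA) (h4 : Stmt_GCH)
    (h5 : Stmt_GSUM) (_h6 : Stmt_GHID) (h7 : Stmt_GPROJ) (h8 : Stmt_GSTAT) (h9 : Stmt_GTR) :
    Stmt_MARKREF := by
  intro β' hβ' s hs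
  obtain ⟨Λ2, hΛ2, hb1, hb2⟩ := h3 β' hβ'
  obtain ⟨hheat, hk2, Λ1, hΛ1, hk3⟩ := h2
  obtain ⟨δ, hδ0, hδ1, hδ⟩ := hk2 s hs
  obtain ⟨β, hβ⟩ : ∃ β, β = β' 1 := ⟨_, rfl⟩
  rw [← hβ] at hb1 hb2
  refine ⟨δ ^ 2, Λ1 * Λ2, by positivity, by nlinarith, fun j H => ?_⟩
  obtain ⟨-, hmsx, hvol, -, -, -, hmk, hsym, hsumk⟩ := h1 s j hs
  obtain ⟨q, hq⟩ : ∃ q, q = s * 2 ^ j := ⟨_, rfl⟩
  have : NeZero (s * 2 ^ j) := ⟨by positivity⟩
  have hs0 : (0 : ℝ) < (s : ℝ) ^ 2 := by
    have : (0 : ℝ) < s := by exact_mod_cast hs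
    positivity
  -- GSUM and GCH together
  have key : ∀ (φ : Fin H → Bool → Site → Site → ℕ → ℝ≥0∞) (i : Fin (H + 1)) (c : Site),
      ∑' ξ : {ξ : CMark (s * 2 ^ j) H // ξ.c i = c}, massM s j β ξ.1 *
        ∏ k : Fin H, φ k (ξ.1.g k) (ξ.1.c k.castSucc) (ξ.1.c k.succ) (ξ.1.b k)
      = ∫⁻ x in {x : Fin (H + 1) → Plane | x i ∈ {y : Plane | sidx s j y = c}},
          ∏ k : Fin H, AA s j β (φ k) (x k.castSucc) (x k.succ) := fun φ i c =>
    h5 s j H β φ i c hs
  have hmC : ∀ c : Site, MeasurableSet {y : Plane | sidx s j y = c} := fun c =>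
    hmsx (measurableSet_singleton c)
  -- kernels with `φ = 1`
  have hAA1 : ∀ (φ : Bool → Site → Site → ℕ → ℝ≥0∞), (∀ g c c' b, φ g c c' b = 1) →
      ∀ x y : Plane, AA s j β φ x y = ENNReal.ofReal (heat 1 (y - x)) := by
    intro φ hφ x y
    unfold AA
    simp only [hφ, mul_one, hb2]
    rw [Fintype.sum_bool]
    exact hsumk x y
  have hheat' : ∀ y : Plane, ∫⁻ x : Plane, ENNReal.ofReal (heat 1 (y - x)) = 1 := by
    intro y
    rw [← hheat y]
    refine lintegral_congr fun x => ?_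
    rw [heat_symm]
  -- the total mass
  have htot : ∀ (i : Fin (H + 1)) (c : Site),
      ∑' ξ : {ξ : CMark (s * 2 ^ j) H // ξ.c i = c}, massM s j β ξ.1
        = ENNReal.ofReal ((s : ℝ) ^ 2) := by
    intro i c
    have h10 := key (fun _ _ _ _ _ => 1) i c
    simp only [Finset.prod_const_one, mul_one] at h10
    rw [h10]
    have h11 := (h4 H i {y : Plane | sidx s j y = c}
      (fun k => AA s j β (fun _ _ _ _ => 1)) (fun _ => 1) (hmC c)
      (fun k => AA_meas s j hmsx hmk β _)).1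
      (fun k x => (lintegral_congr fun y => hAA1 _ (fun _ _ _ _ => rfl) x y).trans (hheat x))
      (fun k y => (lintegral_congr fun x => hAA1 _ (fun _ _ _ _ => rfl) x y).trans (hheat' y))
    rw [h11, hvol, Finset.prod_const_one, mul_one]
  have hfin : ∀ ξ : CMark (s * 2 ^ j) H, massM s j β ξ ≠ ⊤ := by
    intro ξ
    have h10 : massM s j β ξ ≤ ∑' ξ' : {ξ' : CMark (s * 2 ^ j) H // ξ'.c 0 = ξ.c 0},
        massM s j β ξ'.1 :=
      ENNReal.le_tsum (f := fun ξ' : {ξ' : CMark (s * 2 ^ j) H // ξ'.c 0 = ξ.c 0} =>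
        massM s j β ξ'.1) ⟨ξ, rfl⟩
    rw [htot] at h10
    exact ne_top_of_le_ne_top ENNReal.ofReal_ne_top h10
  obtain ⟨m, hm⟩ : ∃ m : CMark (s * 2 ^ j) H → ℝ≥0, ∀ ξ, (m ξ : ℝ≥0∞) = massM s j β ξ :=
    ⟨fun ξ => (massM s j β ξ).toNNReal, fun ξ => ENNReal.coe_toNNReal (hfin ξ)⟩
  have hD : (((s * 2 ^ j : ℕ) : ℝ≥0) ^ 2) ^ (H + 1) ≠ 0 := by
    have h10 : ((s * 2 ^ j : ℕ) : ℝ≥0) ≠ 0 := by
      exact_mod_cast NeZero.ne (s * 2 ^ j)
    exact pow_ne_zero _ (pow_ne_zero _ h10)
  have hfine : ∀ θ : FMark (s * 2 ^ j) H, ((fineOf m θ : ℝ≥0) : ℝ≥0∞) =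
      massM s j β θ.1 / (((s * 2 ^ j : ℕ) : ℝ≥0∞) ^ 2) ^ (H + 1) := by
    intro θ
    unfold fineOf
    rw [ENNReal.coe_div hD, hm]
    push_cast
    rfl
  have hproj : ∀ (v : Fin (H + 1) → Site) (b : Fin H → ℕ),
      ∑' θ : {θ : FMark (s * 2 ^ j) H // FMark.site θ = v ∧ θ.1.b = b},
        ((fineOf m θ.1 : ℝ≥0) : ℝ≥0∞) = markMass 1 β j H (v, b) := by
    intro v b
    rw [← h7 s j H β hs v b]
    exact tsum_congr fun θ => hfine θ.1
  have hstat : ∀ (k : Fin (H + 1)) (x : Site),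
      ∑' θ : {θ : FMark (s * 2 ^ j) H // FMark.site θ k = x}, ((fineOf m θ.1 : ℝ≥0) : ℝ≥0∞)
        = ENNReal.ofReal ((1 / 4) ^ j) := by
    intro k x
    rw [← h8 j H β hb2 k x, ← (eqS (s * 2 ^ j) H k x).tsum_eq, ENNReal.tsum_sigma']
    exact tsum_congr fun p => hproj p.1.1 p.1.2
  have hmm : ∀ (v : Fin (H + 1) → Site) (b : Fin H → ℕ), markMass 1 β j H (v, b) ≠ ⊤ := by
    intro v b
    have h10 : markMass 1 β j H (v, b) ≤
        ∑' p : {p : Mark H // p.1 0 = v 0}, markMass 1 β j H p.1 :=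
      ENNReal.le_tsum (f := fun p : {p : Mark H // p.1 0 = v 0} => markMass 1 β j H p.1)
        ⟨(v, b), rfl⟩
    rw [h8 j H β hb2] at h10
    exact ne_top_of_le_ne_top ENNReal.ofReal_ne_top h10
  have haq : ((1 : ℝ) / 4) ^ j * ((s * 2 ^ j : ℕ) : ℝ) ^ 2 = (s : ℝ) ^ 2 := by
    push_cast
    have h10 : (((1 : ℝ) / 4) ^ j) * ((2 : ℝ) ^ j) ^ 2 = 1 := by
      rw [← pow_mul, mul_comm j 2, pow_mul, ← mul_pow]
      norm_num
    calc ((1 : ℝ) / 4) ^ j * ((s : ℝ) * 2 ^ j) ^ 2
        = (s : ℝ) ^ 2 * ((((1 : ℝ) / 4) ^ j) * ((2 : ℝ) ^ j) ^ 2) := by ring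
      _ = (s : ℝ) ^ 2 := by rw [h10, mul_one]
  refine ⟨⟨m, ?_, ?_, ?_, ?_⟩, ?_⟩
  · -- static
    intro k x
    have h10 := hasSum_real (fun θ : {θ : FMark (s * 2 ^ j) H // FMark.site θ k = x} =>
      fineOf m θ.1) _ ENNReal.ofReal_ne_top (hstat k x)
    rw [ENNReal.toReal_ofReal (by positivity)] at h10
    exact h10
  · -- many
    intro k c
    rw [haq]
    obtain ⟨φ, hφ⟩ : ∃ φ : Fin H → Bool → Site → Site → ℕ → ℝ≥0∞, ∀ i g a b n, φ i g a b n =
        if (i.castSucc = k ∨ i.succ = k) ∧ g = false then 0 else 1 := ⟨_, fun _ _ _ _ _ => rfl⟩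
    have h10 := key φ k c
    have h11 : ∀ ξ : CMark (s * 2 ^ j) H,
        ∏ i : Fin H, φ i (ξ.g i) (ξ.c i.castSucc) (ξ.c i.succ) (ξ.b i) =
        if ξ.hid k then 1 else 0 := by
      intro ξ
      by_cases hh : ξ.hid k
      · rw [if_pos hh]
        refine Finset.prod_eq_one fun i _ => ?_
        rw [hφ, if_neg]
        rintro ⟨ha, hb⟩
        rw [hh i ha] at hb
        exact absurd hb (by decide)
      · rw [if_neg hh]
        have h12 : ∃ i : Fin H, (i.castSucc = k ∨ i.succ = k) ∧ ξ.g i = false := by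
          by_contra hcon
          apply hh
          intro i hi
          by_contra hg
          exact hcon ⟨i, hi, by simpa using hg⟩
        obtain ⟨i, hi⟩ := h12
        refine Finset.prod_eq_zero (Finset.mem_univ i) ?_
        rw [hφ, if_pos hi]
    simp only [h11] at h10
    -- the sum over the hidden marks
    have h12 : ∑' ξ : {ξ : CMark (s * 2 ^ j) H // ξ.c k = c ∧ ξ.hid k}, massM s j β ξ.1 =
        ∑' ξ : {ξ : CMark (s * 2 ^ j) H // ξ.c k = c},
          massM s j β ξ.1 * (if ξ.1.hid k then 1 else 0) := by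
      rw [← (Equiv.subtypeSubtypeEquivSubtypeInter (fun ξ : CMark (s * 2 ^ j) H => ξ.c k = c)
        (fun ξ => ξ.hid k)).tsum_eq]
      have h13 := tsum_subtype {ξ : {ξ : CMark (s * 2 ^ j) H // ξ.c k = c} | ξ.1.hid k}
        (fun ξ => massM s j β ξ.1)
      refine Eq.trans (Eq.trans ?_ h13) ?_
      · rfl
      · refine tsum_congr fun ξ => ?_
        rw [Set.indicator_apply]
        by_cases hh : ξ.1.hid k
        · rw [if_pos hh, mul_one, if_pos]
          exact hh
        · rw [if_neg hh, mul_zero, if_neg]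
          exact hh
    obtain ⟨a, ha⟩ : ∃ a : Fin H → ℝ≥0∞, ∀ i, a i =
        if (i.castSucc = k ∨ i.succ = k) then ENNReal.ofReal δ else 1 := ⟨_, fun _ => rfl⟩
    have hAA : ∀ (i : Fin H) (x y : Plane), AA s j β (φ i) x y =
        if (i.castSucc = k ∨ i.succ = k) then stepK s j true x y
        else ENNReal.ofReal (heat 1 (y - x)) := by
      intro i x y
      by_cases hi : (i.castSucc = k ∨ i.succ = k)
      · rw [if_pos hi]
        unfold AA
        rw [Fintype.sum_bool]
        simp [hφ, hi, hb2]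
      · rw [if_neg hi]
        refine hAA1 _ (fun g c c' b => ?_) x y
        rw [hφ, if_neg]
        exact fun h => hi h.1
    have h13 := (h4 H k {y : Plane | sidx s j y = c} (fun i => AA s j β (φ i)) a (hmC c)
      (fun i => AA_meas s j hmsx hmk β _)).1
      (fun i x => by
        simp only [hAA, ha]
        by_cases hi : (i.castSucc = k ∨ i.succ = k)
        · simp only [hi, if_true]
          exact hδ j x
        · simp only [hi, if_false]
          exact hheat x)
      (fun i y => by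
        simp only [hAA, ha]
        by_cases hi : (i.castSucc = k ∨ i.succ = k)
        · simp only [hi, if_true]
          rw [← hδ j y]
          exact lintegral_congr fun x => hsym true x y
        · simp only [hi, if_false]
          exact hheat' y)
    have h14 : ENNReal.ofReal (δ ^ 2 * (s : ℝ) ^ 2) ≤
        ∑' ξ : {ξ : CMark (s * 2 ^ j) H // ξ.c k = c ∧ ξ.hid k}, massM s j β ξ.1 := by
      rw [h12, h10, h13, hvol, mul_comm, ENNReal.ofReal_mul (by positivity),
        ENNReal.ofReal_pow hδ0.le]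
      refine mul_le_mul' le_rfl ?_
      simp only [ha]
      exact adj_card H k _ (by rw [← ENNReal.ofReal_one]; exact ENNReal.ofReal_le_ofReal hδ1)
    have h15 : ∑' ξ : {ξ : CMark (s * 2 ^ j) H // ξ.c k = c ∧ ξ.hid k}, massM s j β ξ.1 ≠ ⊤ := by
      rw [h12]
      refine ne_top_of_le_ne_top (b := ∑' ξ : {ξ : CMark (s * 2 ^ j) H // ξ.c k = c},
        massM s j β ξ.1) ?_ (ENNReal.tsum_le_tsum fun ξ => ?_)
      · rw [htot]; exact ENNReal.ofReal_ne_top
      · by_cases hh : ξ.1.hid k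
        · rw [if_pos hh, mul_one]
        · rw [if_neg hh, mul_zero]; exact zero_le
    have h16 := hasSum_real (fun ξ : {ξ : CMark (s * 2 ^ j) H // ξ.c k = c ∧ ξ.hid k} => m ξ.1)
      _ h15 (tsum_congr fun ξ => hm ξ.1)
    rw [h16.tsum_eq]
    exact (ENNReal.ofReal_le_iff_le_toReal h15).1 h14
  · -- expm
    intro i c k1 k2 h12 hk2H
    rw [haq]
    obtain ⟨φ, hφ⟩ : ∃ φ : Fin H → Bool → Site → Site → ℕ → ℝ≥0∞, ∀ k g a b n, φ k g a b n =
        if k1 ≤ (k : ℕ) ∧ (k : ℕ) < k2 then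
          ENNReal.ofReal (Real.exp ((nrm (b - a) : ℝ) + n + 12)) else 1 :=
      ⟨_, fun _ _ _ _ _ => rfl⟩
    refine summable_le _ (fun ξ => mul_nonneg (NNReal.coe_nonneg _) (Real.exp_pos _).le)
      (fun ξ : {ξ : CMark (s * 2 ^ j) H // ξ.c i = c} => massM s j β ξ.1 *
        ∏ k : Fin H, φ k (ξ.1.g k) (ξ.1.c k.castSucc) (ξ.1.c k.succ) (ξ.1.b k)) ?_ _
      (by positivity) ?_
    · intro ξ
      rw [ENNReal.ofReal_mul (NNReal.coe_nonneg _), ENNReal.ofReal_coe_nnreal, hm]
      congr 1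
      unfold CMark.tot
      push_cast
      rw [Real.exp_sum, ENNReal.ofReal_prod_of_nonneg (fun _ _ => (Real.exp_pos _).le)]
      refine Finset.prod_congr rfl fun k _ => ?_
      rw [hφ]
      by_cases hw : k1 ≤ (k : ℕ) ∧ (k : ℕ) < k2
      · rw [if_pos hw, if_pos hw]
        congr 2
        unfold CMark.D
        push_cast
        have h20 : (((nrm (ξ.1.c k.succ - ξ.1.c k.castSucc)).toNat : ℕ) : ℝ) =
            (nrm (ξ.1.c k.succ - ξ.1.c k.castSucc) : ℝ) := by
          exact_mod_cast Int.toNat_of_nonneg (nrm_nonneg _)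
        rw [h20]
      · rw [if_neg hw, if_neg hw, Real.exp_zero, ENNReal.ofReal_one]
    · rw [key]
      obtain ⟨a, ha⟩ : ∃ a : Fin H → ℝ≥0∞, ∀ k, a k =
          if k1 ≤ (k : ℕ) ∧ (k : ℕ) < k2 then ENNReal.ofReal (Λ1 * Λ2) else 1 :=
        ⟨_, fun _ => rfl⟩
      have hle : ∀ (k : Fin H) (x y : Plane), AA s j β (φ k) x y ≤
          if k1 ≤ (k : ℕ) ∧ (k : ℕ) < k2 then
            ENNReal.ofReal (heat 1 (y - x) *
              Real.exp ((nrm (sidx s j y - sidx s j x) : ℝ) + 12)) * ENNReal.ofReal Λ2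
          else ENNReal.ofReal (heat 1 (y - x)) := by
        intro k x y
        by_cases hw : k1 ≤ (k : ℕ) ∧ (k : ℕ) < k2
        · rw [if_pos hw]
          have h21 : ∀ g : Bool, ∑' b : ℕ, β {b} * φ k g (sidx s j x) (sidx s j y) b ≤
              ENNReal.ofReal (Real.exp ((nrm (sidx s j y - sidx s j x) : ℝ) + 12)) *
                ENNReal.ofReal Λ2 := by
            intro g
            have h22 : ∀ b : ℕ, β {b} * φ k g (sidx s j x) (sidx s j y) b =
                ENNReal.ofReal (Real.exp ((nrm (sidx s j y - sidx s j x) : ℝ) + 12)) *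
                  (β {b} * ENNReal.ofReal (Real.exp b)) := by
              intro b
              rw [hφ, if_pos hw]
              have h23 : Real.exp ((nrm (sidx s j y - sidx s j x) : ℝ) + b + 12) =
                  Real.exp ((nrm (sidx s j y - sidx s j x) : ℝ) + 12) * Real.exp b := by
                rw [← Real.exp_add]
                congr 1
                ring
              rw [h23, ENNReal.ofReal_mul (Real.exp_pos _).le]
              ring
            rw [tsum_congr h22, ENNReal.tsum_mul_left]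
            exact mul_le_mul' le_rfl hb1
          unfold AA
          calc ∑ g : Bool, stepK s j g x y *
                ∑' b : ℕ, β {b} * φ k g (sidx s j x) (sidx s j y) b
              ≤ ∑ g : Bool, stepK s j g x y *
                (ENNReal.ofReal (Real.exp ((nrm (sidx s j y - sidx s j x) : ℝ) + 12)) *
                ENNReal.ofReal Λ2) := Finset.sum_le_sum fun g _ => mul_le_mul' le_rfl (h21 g)
            _ = ENNReal.ofReal (heat 1 (y - x)) *
                (ENNReal.ofReal (Real.exp ((nrm (sidx s j y - sidx s j x) : ℝ) + 12)) *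
                ENNReal.ofReal Λ2) := by
                rw [← Finset.sum_mul, Fintype.sum_bool, hsumk x y]
            _ = _ := by
                rw [← mul_assoc, ← ENNReal.ofReal_mul']
                exact (Real.exp_pos _).le
        · rw [if_neg hw]
          refine (hAA1 _ (fun g c c' b => ?_) x y).le
          rw [hφ, if_neg hw]
      have hΛ2' : (0 : ℝ) ≤ Λ2 := by linarith
      have hΛ1' : (0 : ℝ) ≤ Λ1 := by linarith
      have h13 := (h4 H i {y : Plane | sidx s j y = c} (fun k => AA s j β (φ k)) a (hmC c)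
        (fun i => AA_meas s j hmsx hmk β _)).2
        (fun k x => by
          refine (lintegral_mono fun y => hle k x y).trans ?_
          rw [ha]
          by_cases hw : k1 ≤ (k : ℕ) ∧ (k : ℕ) < k2
          · simp only [hw, and_self, if_true]
            rw [lintegral_mul_const' _ _ ENNReal.ofReal_ne_top, ENNReal.ofReal_mul hΛ1']
            exact mul_le_mul' (hk3 s j hs x) le_rfl
          · simp only [hw, if_false]
            exact (hheat x).le)
        (fun k y => by
          refine (lintegral_mono fun x => hle k x y).trans ?_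
          rw [ha]
          by_cases hw : k1 ≤ (k : ℕ) ∧ (k : ℕ) < k2
          · simp only [hw, and_self, if_true]
            rw [lintegral_mul_const' _ _ ENNReal.ofReal_ne_top, ENNReal.ofReal_mul hΛ1']
            refine mul_le_mul' ?_ le_rfl
            refine le_trans (lintegral_mono fun x => ?_) (hk3 s j hs y)
            rw [heat_symm y x, nrm_neg (sidx s j y)]
          · simp only [hw, if_false]
            exact (hheat' y).le)
      refine h13.trans ?_
      rw [hvol, ENNReal.ofReal_mul hs0.le, ENNReal.ofReal_pow (p := Λ1 * Λ2) (by positivity)]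
      refine mul_le_mul' le_rfl ?_
      simp only [ha]
      exact (window_card H k1 k2 hk2H _).le
  · -- trans
    intro t ξ
    have h10 := h9 s j H β ξ t hs
    rw [← hm, ← hm] at h10
    exact_mod_cast h10
  · -- projection
    intro v b
    have h10 := hasSum_real (fun θ : {θ : FMark (s * 2 ^ j) H // FMark.site θ = v ∧ θ.1.b = b} =>
      fineOf m θ.1) _ (hmm v b) (hproj v b)
    rw [← hβ]
    exact h10

end MPdd5692
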