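import Pool.Agent.Work.MP_dd5692_pr.Superp

/-!
# MP_dd5692_pr, block MONO: monotonicity in the intensity.
-/

open MeasureTheory ProbabilityTheory Set
open scoped ENNReal NNReal BigOperators

namespace MPdd5692

theorem stmt_MONO : Stmt_MONO := by
  intro ι _ μ E hE dE l l' hl
  have h := Superp.mp_add (fun i => l * μ i) (fun i => (l' - l) * μ i)
  have e : (fun i => l * μ i + (l' - l) * μ i) = fun i => l' * μ i := by
    funext i
    rw [← add_mul, add_tsub_cancel_of_le hl]
  rw [e] at h
  rw [← h.measureReal_preimage hE.nullMeasurableSet,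
    ← (Superp.mp_fst (fun i => l * μ i) (fun i => (l' - l) * μ i)).measureReal_preimage
      hE.nullMeasurableSet]
  exact measureReal_mono fun p hp => dE p.1 (p.1 + p.2) (le_self_add) hp

end MPdd5692
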