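import Mathlib
import Pool.Agent.Work.MP_dd5692_pr.InterfaceE

/-!
# MP_dd5692_pr: block NICEP (helper63)
-/

open MeasureTheory ProbabilityTheory Set
open scoped ENNReal NNReal BigOperators

namespace MPdd5692

namespace NICEP

instance countable_CMark (q H : ℕ) : Countable (CMark q H) := by
  have hinj : Function.Injective (fun ξ : CMark q H => (ξ.c, ξ.g, ξ.b, ξ.r)) := by
    rintro ⟨c, g, b, r⟩ ⟨c', g', b', r'⟩ h
    simp only [Prod.mk.injEq] at h
    obtain ⟨rfl, rfl, rfl, rfl⟩ := h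
    rfl
  exact hinj.countable

instance prob_hm (q H : ℕ) [NeZero q] : IsProbabilityMeasure (hm q H) := by
  unfold hm unif
  infer_instance

variable {q H : ℕ} [NeZero q]

lemma PP_eq {a δ Λ : ℝ} (L : MarkLaw q H a δ Λ) (lam : ℝ≥0) :
    L.PP lam = pois (fun θ => lam * L.fine θ) := rfl

instance prob_PP {a δ Λ : ℝ} (L : MarkLaw q H a δ Λ) (lam : ℝ≥0) :
    IsProbabilityMeasure (L.PP lam) := by
  rw [PP_eq]; infer_instance

lemma measurable_mixC (k : ℕ) (y : Site) (R : ℕ) :
    Measurable (fun p : Conf q H × Conf q H => mixC k y R p.1 p.2) := by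
  classical
  refine measurable_pi_iff.2 fun θ => ?_
  unfold mixC
  by_cases h : ∃ h : k < H + 1, nrm (θ.1.c ⟨k, h⟩ - y) ≤ R
  · simp only [h, if_true]
    exact (measurable_pi_apply θ).comp measurable_fst
  · simp only [h, if_false]
    exact (measurable_pi_apply θ).comp measurable_snd

lemma measurable_shiftC (t : Site) : Measurable (shiftC (q := q) (H := H) t) := by
  refine measurable_pi_iff.2 fun θ => ?_
  unfold shiftC
  exact measurable_pi_apply _

/-- probability of a circuit, any centre -/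
lemma UU_ge (hMEAS : Stmt_MEAS) (hSTATIC : Stmt_STATIC) (hTRANS : Stmt_TRANS)
    {c e I δ Λ : ℝ} {nmax : ℕ} (E : Env c e I δ Λ nmax) (m : ℕ) (hm : m ≤ E.H) (z : Site)
    (a b : ℕ) (hab : 11 * (2 * a + 1) ≤ 10 * (2 * b + 1)) (hb : b ≤ nmax) :
    c ≤ E.P.real {ω | UU E.ρ E.q (et ω m) z a b} := by
  obtain ⟨hT1, -, -, hT4⟩ := hTRANS E.q E.H _ δ Λ E.L E.lam z
  obtain ⟨-, ⟨hMU, -⟩, -, -, -, hMo, -⟩ := hMEAS E.q E.H E.ρ m m 0 0 a b
  obtain ⟨-, hS⟩ := hSTATIC E.q E.H E.j δ Λ E.L E.lam m hm (fun S => UU E.ρ E.q S 0 a b) hMo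
  have h1 := E.ok.U_ge a b hab hb
  rw [← hS] at h1
  have h2 : {ω : Conf E.q E.H | UU E.ρ E.q (et ω m) z a b} =
      shiftC z ⁻¹' {ω | UU E.ρ E.q (et ω m) 0 a b} := by
    ext ω
    have h3 := (hT4 E.ρ ω m 0 0 a b).2
    rw [zero_add] at h3
    exact h3.symm
  have h3 : E.P.real {ω | UU E.ρ E.q (et ω m) z a b} =
      (E.L.PP E.lam).real {ω | UU E.ρ E.q (et ω m) 0 a b} := by
    rw [h2]
    unfold Env.P
    conv_rhs => rw [← hT1]
    rw [measureReal_def, measureReal_def, Measure.map_apply (measurable_shiftC z) hMU]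
  rw [h3]
  exact h1

lemma measurable_projE (e : Fin (H + 1) → Bool) : Measurable (projE (q := q) (H := H) e) := by
  refine measurable_pi_iff.2 fun θ => ?_
  unfold projE
  by_cases h : mask e θ.2 = θ.2
  · simp only [h, if_true]
    exact Finset.measurable_sum _ fun u _ => measurable_pi_apply _
  · simp only [h, if_false]
    exact measurable_const

lemma real_prod {α β : Type} [MeasurableSpace α] [MeasurableSpace β] (μ : Measure α)
    (ν : Measure β) [IsProbabilityMeasure μ] [IsProbabilityMeasure ν] (T : Set (α × β))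
    (hT : MeasurableSet T) : (μ.prod ν).real T = ∫ x, ν.real (Prod.mk x ⁻¹' T) ∂μ := by
  rw [measureReal_def, Measure.prod_apply hT]
  have h := integral_toReal (μ := μ) (f := fun x => ν (Prod.mk x ⁻¹' T))
    (measurable_measure_prodMk_left hT).aemeasurable
    (Filter.Eventually.of_forall fun x => measure_lt_top ν _)
  rw [← h]
  rfl

/-- the mean of the conditional probability -/
lemma int_hcp (hSPLIT : Stmt_SPLIT) (hMIX : Stmt_MIX) (hMEASE : Stmt_MEASE) {a δ Λ : ℝ}
    (L : MarkLaw q H a δ Λ) (lam : ℝ≥0) (ρ : ℝ) (u m m' : ℕ) (y : Site) :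
    Measurable (hcp L lam ρ u m m' y) ∧ (∀ M, 0 ≤ hcp L lam ρ u m m' y M) ∧
    (∀ M, hcp L lam ρ u m m' y M ≤ 1) ∧
    ∫ ω, hcp L lam ρ u m m' y (projE (expo H m) ω) ∂(L.PP lam) =
      (L.PP lam).real {ω | HatE ρ ω m m' y u} := by
  classical
  obtain ⟨⟨hS, -⟩, -, -, -, ⟨hmeas, -⟩⟩ := hMEASE q H a δ Λ L lam ρ ⟨u, 1, 0, ∅⟩ 0 m m' y (0, 0)
  have hle : ∀ M, hcp L lam ρ u m m' y M ≤ 1 := fun M => measureReal_le_one
  refine ⟨hmeas, fun M => measureReal_nonneg, hle, ?_⟩
  obtain ⟨hasm, hmap, -, -, hproj⟩ := hSPLIT q H a δ Λ L lam (expo H m)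
  set S : Set (Conf q H) := {ω | HatE ρ ω m m' y u} with hSdef
  have hS' : MeasurableSet S := hS
  set μE : Measure (Conf q H) := pois (muE L lam (expo H m)) with hμE
  set g : Conf q H → ℝ := fun M => (hm q H).real {U | asmE (expo H m) M U ∈ S} with hg
  have hS2 : MeasurableSet {p : Conf q H × HV q H | asmE (expo H m) p.1 p.2 ∈ S} := hasm hS'
  have hgm : Measurable g := (measurable_measure_prodMk_left (ν := hm q H) hS2).ennreal_toReal
  have hg1 : ∀ M, |g M| ≤ 1 := by
    intro M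
    rw [abs_of_nonneg measureReal_nonneg]
    exact measureReal_le_one
  have hcpe : ∀ M, hcp L lam ρ u m m' y M = ∫ M', g (mixC m' y (27 * u) M M') ∂μE := by
    intro M
    have hT : MeasurableSet {p : Conf q H × HV q H |
        asmE (expo H m) (mixC m' y (27 * u) M p.1) p.2 ∈ S} := by
      have h1 : Measurable (fun p : Conf q H × HV q H =>
          ((mixC m' y (27 * u) M p.1 : Conf q H), p.2)) :=
        ((measurable_mixC m' y (27 * u)).comp (measurable_const.prodMk measurable_fst)).prodMk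
          measurable_snd
      exact h1 hS2
    have h2 := real_prod μE (hm q H) _ hT
    exact h2
  have hstep1 : ∫ ω, hcp L lam ρ u m m' y (projE (expo H m) ω) ∂(L.PP lam) =
      ∫ M, hcp L lam ρ u m m' y M ∂μE := by
    rw [← hproj]
    rw [integral_map (measurable_projE _).aemeasurable hmeas.aestronglyMeasurable]
  rw [hstep1]
  simp_rw [hcpe]
  have hmix := hMIX (FMark q H) (muE L lam (expo H m))
    {θ | ∃ h : m' < H + 1, nrm (θ.1.c ⟨m', h⟩ - y) ≤ ((27 * u : ℕ) : ℤ)} g hgm hg1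
  have hmixC : ∀ M M' : Conf q H, mixC m' y (27 * u) M M' = fun i => if i ∈
      {θ : FMark q H | ∃ h : m' < H + 1, nrm (θ.1.c ⟨m', h⟩ - y) ≤ ((27 * u : ℕ) : ℤ)}
      then M i else M' i := by
    intro M M'
    funext θ
    unfold mixC
    by_cases h : θ ∈ {θ : FMark q H | ∃ h : m' < H + 1, nrm (θ.1.c ⟨m', h⟩ - y) ≤ ((27 * u : ℕ) : ℤ)}
    · have h' : ∃ h : m' < H + 1, nrm (θ.1.c ⟨m', h⟩ - y) ≤ ((27 * u : ℕ) : ℤ) := h
      rw [if_pos h, if_pos h']
    · have h' : ¬ ∃ h : m' < H + 1, nrm (θ.1.c ⟨m', h⟩ - y) ≤ ((27 * u : ℕ) : ℤ) := h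
      rw [if_neg h, if_neg h']
  simp_rw [hmixC]
  rw [← hmix]
  have h3 := real_prod μE (hm q H) _ hS2
  have h4 : (L.PP lam).real S = (μE.prod (hm q H)).real
      {p : Conf q H × HV q H | asmE (expo H m) p.1 p.2 ∈ S} := by
    rw [← hmap, measureReal_def, measureReal_def, Measure.map_apply hasm hS']
    rfl
  rw [h4, h3]
  rfl

end NICEP

open NICEP in
theorem stmt_NICEP (h1 : Stmt_HARRISN) (h2 : Stmt_MEAS) (h3 : Stmt_STATIC) (h4 : Stmt_SPLIT)
    (h5 : Stmt_MIX) (h6 : Stmt_MEASE) (h7 : Stmt_TRANS) : Stmt_NICEP := by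
  classical
  intro c e I δ Λ nmax E u J m y uh huh hu hJ hnmax hH hHat
  have hc := E.ok.c_pos
  have hJ0 : (0 : ℝ) < J := by exact_mod_cast hJ
  have : IsProbabilityMeasure E.P := by unfold Env.P; infer_instance
  have hmlt : m < (m / J + 1) * J := by
    have h8 := Nat.div_add_mod m J
    have h9 := Nat.mod_lt m (show 0 < J from hJ)
    have h10 : (m / J + 1) * J = J * (m / J) + J := by ring
    omega
  have hmH : m ≤ E.H := by
    have h8 : (m / J + 1) * J ≤ (m / J + 2) * J := Nat.mul_le_mul_right _ (by omega)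
    omega
  -- the average of the conditional probabilities
  set f : Conf E.q E.H → ℝ := fun ω =>
    ∑ m' ∈ nxt J m, hcp E.L E.lam E.ρ u m m' y (projE (expo E.H m) ω) with hf
  have hcard : (nxt J m).card = J := by
    unfold nxt
    rw [Nat.card_Ico]
    have h8 : (m / J + 2) * J = (m / J + 1) * J + J := by ring
    omega
  have hcomp : ∀ m', Measurable (fun ω => hcp E.L E.lam E.ρ u m m' y (projE (expo E.H m) ω)) :=
    fun m' => (int_hcp h4 h5 h6 E.L E.lam E.ρ u m m' y).1.comp (measurable_projE _)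
  have hint : ∀ m', Integrable (fun ω => hcp E.L E.lam E.ρ u m m' y (projE (expo E.H m) ω)) E.P := by
    intro m'
    refine Integrable.of_bound (hcomp m').aestronglyMeasurable 1 ?_
    refine Filter.Eventually.of_forall fun ω => ?_
    rw [Real.norm_eq_abs, abs_of_nonneg ((int_hcp h4 h5 h6 E.L E.lam E.ρ u m m' y).2.1 _)]
    exact (int_hcp h4 h5 h6 E.L E.lam E.ρ u m m' y).2.2.1 _
  have hfm : Measurable f := Finset.measurable_sum _ fun m' _ => hcomp m'
  have hfint : Integrable f E.P := integrable_finsetSum _ fun m' _ => hint m'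
  have hf0 : ∀ ω, 0 ≤ f ω := fun ω =>
    Finset.sum_nonneg fun m' _ => (int_hcp h4 h5 h6 E.L E.lam E.ρ u m m' y).2.1 _
  have hfJ : ∀ ω, f ω ≤ J := by
    intro ω
    have h8 : f ω ≤ ∑ _m' ∈ nxt J m, (1 : ℝ) :=
      Finset.sum_le_sum fun m' _ => (int_hcp h4 h5 h6 E.L E.lam E.ρ u m m' y).2.2.1 _
    rw [Finset.sum_const, hcard, nsmul_eq_mul, mul_one] at h8
    exact h8
  have hmean : uh * J ≤ ∫ ω, f ω ∂E.P := by
    rw [hf, integral_finsetSum _ fun m' _ => hint m']
    have h8 : ∀ m' ∈ nxt J m, uh ≤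
        ∫ ω, hcp E.L E.lam E.ρ u m m' y (projE (expo E.H m) ω) ∂E.P := by
      intro m' hm'
      have h9 := (int_hcp h4 h5 h6 E.L E.lam E.ρ u m m' y).2.2.2
      exact (hHat m' hm').trans_eq h9.symm
    have h10 := Finset.card_nsmul_le_sum _ _ _ h8
    rw [hcard, nsmul_eq_mul] at h10
    linarith
  -- the nice event
  set N : Set (Conf E.q E.H) := {ω | niceE E.L E.lam E.ρ u J uh ω m y} with hN
  obtain ⟨-, ⟨hNm, hNd⟩, -, -, -⟩ := h6 E.q E.H _ δ Λ E.L E.lam E.ρ ⟨u, J, 0, ∅⟩ uh m m y (0, 0)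
  have hNm' : MeasurableSet N := hNm
  have hNd' : Decr N := hNd
  have hPN : uh / 2 ≤ E.P.real N := by
    have h8 : ∫ ω, f ω ∂E.P ≤ ∫ ω, (J * N.indicator (fun _ => (1 : ℝ)) ω + uh / 2 * J) ∂E.P := by
      refine integral_mono hfint ?_ fun ω => ?_
      · exact ((integrable_const (1 : ℝ)).indicator hNm').const_mul _ |>.add (integrable_const _)
      · by_cases hω : ω ∈ N
        · have h9 := hfJ ω
          simp only [Set.indicator_of_mem hω]
          have h10 : 0 ≤ uh / 2 * J := by positivity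
          linarith
        · simp only [Set.indicator_of_notMem hω]
          have h9 : f ω < uh / 2 * J := not_le.1 hω
          linarith
    rw [integral_add (((integrable_const (1 : ℝ)).indicator hNm').const_mul _) (integrable_const _),
      integral_const_mul, integral_indicator_const _ hNm', integral_const] at h8
    simp only [smul_eq_mul, mul_one, probReal_univ, one_mul] at h8
    have h9 : uh / 2 * J ≤ J * E.P.real N := by linarith
    have h10 : J * (uh / 2) ≤ J * E.P.real N := by linarith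
    exact le_of_mul_le_mul_left h10 hJ0
  -- Harris
  set zc : ℕ → Site := fun k => if k < 6 then (y.1 + 15 * u + 8 * u * k, y.2) else y with hzc
  set ra : ℕ → ℕ := fun k => if k < 6 then 6 * u else if k = 6 then 50 * u else 10 * u with hra
  set rb : ℕ → ℕ := fun k => if k < 6 then 12 * u else if k = 6 then 60 * u else 20 * u with hrb
  set F : ℕ → Set (Conf E.q E.H) := fun k => if k = 0 then N else
    {ω | UU E.ρ E.q (et ω m) (zc (k - 1)) (ra (k - 1)) (rb (k - 1))} with hF
  have hFm : ∀ k, MeasurableSet (F k) := by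
    intro k
    by_cases hk : k = 0
    · simp only [hF, hk, if_true]; exact hNm'
    · simp only [hF, hk, if_false]
      exact (h2 E.q E.H E.ρ m m (zc (k - 1)) 0 (ra (k - 1)) (rb (k - 1))).2.1.1
  have hFd : ∀ k, DecrS (F k) := by
    intro k
    by_cases hk : k = 0
    · simp only [hF, hk, if_true]; exact hNd'
    · simp only [hF, hk, if_false]
      exact (h2 E.q E.H E.ρ m m (zc (k - 1)) 0 (ra (k - 1)) (rb (k - 1))).2.1.2
  have hharris := h1 (FMark E.q E.H) (fun θ => E.lam * E.L.fine θ) ℕ (Finset.range 9) F hFm hFd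
  rw [Finset.prod_range_succ'] at hharris
  have hprod : c ^ 8 ≤ ∏ k ∈ Finset.range 8, E.P.real (F (k + 1)) := by
    have h8 : ∏ _k ∈ Finset.range 8, c ≤ ∏ k ∈ Finset.range 8, E.P.real (F (k + 1)) := by
      refine Finset.prod_le_prod (fun _ _ => hc.le) fun k hk => ?_
      simp only [hF, Nat.add_eq_zero_iff, one_ne_zero, and_false, if_false, Nat.add_sub_cancel]
      refine UU_ge h2 h3 h7 E m hmH _ _ _ ?_ ?_
      · simp only [hra, hrb]
        split_ifs <;> omega
      · simp only [hrb]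
        split_ifs <;> omega
    rwa [Finset.prod_const, Finset.card_range] at h8
  have hF0 : F 0 = N := by simp [hF]
  have hsub : (⋂ k ∈ Finset.range 9, F k) ⊆ {ω | niceE E.L E.lam E.ρ u J uh ω m y ∧
      UU E.ρ E.q (et ω m) y (10 * u) (20 * u) ∧ VE E.ρ E.q (et ω m) y u} := by
    intro ω hω
    simp only [Set.mem_iInter, Finset.mem_range] at hω
    refine ⟨?_, ?_, ?_, ?_⟩
    · have h8 := hω 0 (by norm_num)
      rw [hF0] at h8
      exact h8
    · have h8 := hω 8 (by norm_num)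
      simpa [hF, hzc, hra, hrb] using h8
    · intro i hi
      have h8 := hω (i + 1) (by omega)
      simpa [hF, hzc, hra, hrb, hi] using h8
    · have h8 := hω 7 (by norm_num)
      simpa [hF, hzc, hra, hrb] using h8
  have hfin : (pois fun θ => E.lam * E.L.fine θ).real (⋂ k ∈ Finset.range 9, F k) ≤
      E.P.real {ω | niceE E.L E.lam E.ρ u J uh ω m y ∧
      UU E.ρ E.q (et ω m) y (10 * u) (20 * u) ∧ VE E.ρ E.q (et ω m) y u} :=
    measureReal_mono (μ := E.P) hsub (measure_ne_top _ _)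
  refine le_trans ?_ (hharris.trans hfin)
  have h8 : (pois fun θ => E.lam * E.L.fine θ) = E.P := rfl
  rw [h8, hF0]
  calc uh / 2 * c ^ 8 ≤ E.P.real N * ∏ k ∈ Finset.range 8, E.P.real (F (k + 1)) :=
        mul_le_mul hPN hprod (by positivity) measureReal_nonneg
    _ = (∏ k ∈ Finset.range 8, E.P.real (F (k + 1))) * E.P.real N := mul_comm _ _

end MPdd5692
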