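import Mathlib
import Pool.Agent.Work.MP_dd5692_pr.InterfaceC

/-!
# MP_dd5692_pr: block TAMEI (helper64): tame independence
-/

open MeasureTheory ProbabilityTheory Set
open scoped ENNReal NNReal BigOperators

namespace MPdd5692

namespace TAMEI

variable {q H : ℕ}

instance countable_cmark : Countable (CMark q H) := by
  have h : Function.Injective (fun ξ : CMark q H => (ξ.c, ξ.g, ξ.b, ξ.r)) := by
    rintro ⟨c, g, b, r⟩ ⟨c', g', b', r'⟩ h
    simp only [Prod.mk.injEq] at h
    obtain ⟨rfl, rfl, rfl, rfl⟩ := h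
    rfl
  exact h.countable

open Classical in
/-- the tame part of a configuration -/
noncomputable def rst (T : Set (FMark q H)) (ω : Conf q H) : Conf q H :=
  fun θ => if θ ∈ T then ω θ else 0

theorem rst_le (T : Set (FMark q H)) (ω : Conf q H) : rst T ω ≤ ω := by
  intro θ
  unfold rst
  split_ifs
  · exact le_rfl
  · exact Nat.zero_le _

theorem rst_off (T : Set (FMark q H)) (ω : Conf q H) (θ : FMark q H) (h : θ ∉ T) :
    rst T ω θ = 0 := by
  unfold rst
  rw [if_neg h]

theorem measurable_rst (T : Set (FMark q H)) : Measurable (rst T) := by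
  refine measurable_pi_lambda _ fun θ => ?_
  unfold rst
  by_cases h : θ ∈ T
  · simp only [h, if_true]
    exact measurable_pi_apply θ
  · simp only [h, if_false]
    exact measurable_const

end TAMEI

open TAMEI in
theorem stmt_TAMEI (h1 : Stmt_INDEP) : Stmt_TAMEI := by
  intro q H _ a δ Λ L lam T κ s A F w hM hD hT hdis hw
  set μ : FMark q H → ℝ≥0 := fun θ => lam * L.fine θ with hμ
  have hPP : L.PP lam = pois μ := rfl
  rw [hPP] at hw ⊢
  set F' : κ → Set (Conf q H) := fun k => {ω | rst T ω ∈ F k} with hF'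
  have hsub : ∀ k ∈ s, F k ⊆ F' k := fun k hk ω hω => hD k hk (rst T ω) ω (rst_le T ω) hω
  have hM' : ∀ k ∈ s, MeasurableSet (F' k) := fun k hk => measurable_rst T (hM k hk)
  have hdep : ∀ k ∈ s, DepOn (A k) (F' k) := by
    intro k hk ω ω' hω
    refine hT k hk (rst T ω) (rst T ω') (rst_off T ω) (rst_off T ω') ?_
    intro θ hθ
    unfold rst
    rw [hω θ hθ]
  have hI := h1 (FMark q H) μ κ s A F' hM' hdep hdis
  calc (pois μ).real (⋂ k ∈ s, F k) ≤ (pois μ).real (⋂ k ∈ s, F' k) := by
        apply measureReal_mono _ (measure_ne_top _ _)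
        exact iInter₂_mono hsub
    _ = ∏ k ∈ s, (pois μ).real (F' k) := hI
    _ ≤ ∏ k ∈ s, ((pois μ).real (F k) + w k) := by
        refine Finset.prod_le_prod (fun k _ => measureReal_nonneg) fun k hk => ?_
        obtain ⟨B, hB, hBw⟩ := hw k hk
        have hincl : F' k ⊆ F k ∪ {ω | ∃ θ ∈ B, θ ∉ T ∧ ω θ ≠ 0} := by
          intro ω hω
          by_cases hex : ∃ θ ∈ B, θ ∉ T ∧ ω θ ≠ 0
          · exact Or.inr hex
          · left
            push Not at hex
            refine (hB ω (rst T ω) ?_).2 hω
            intro θ hθ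
            unfold rst
            split_ifs with hθT
            · rfl
            · exact hex θ hθ hθT
        calc (pois μ).real (F' k)
            ≤ (pois μ).real (F k ∪ {ω | ∃ θ ∈ B, θ ∉ T ∧ ω θ ≠ 0}) :=
              measureReal_mono hincl (measure_ne_top _ _)
          _ ≤ (pois μ).real (F k) + (pois μ).real {ω | ∃ θ ∈ B, θ ∉ T ∧ ω θ ≠ 0} :=
              measureReal_union_le _ _
          _ ≤ (pois μ).real (F k) + w k := by linarith

end MPdd5692
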