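import Mathlib
import Pool.Agent.Work.MP_dd5692_pr.InterfaceE
import Pool.Agent.Work.MP_dd5692_pr.TAMEI
import Pool.Agent.Work.MP_dd5692_pr.INDEP
import Pool.Agent.Work.MP_dd5692_pr.MEAS
import Pool.Agent.Work.MP_dd5692_pr.MassTools

/-!
# MP_dd5692_pr: block NNP (helper41): many sub-blocks, tame independence for increasing events
-/

open MeasureTheory ProbabilityTheory Set
open scoped ENNReal NNReal BigOperators

namespace MPdd5692

namespace NNP

/-! ### locality -/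

lemma offs_bound {ρ : ℝ} (hρ : 0 ≤ ρ) {v : Site} (h : v ∈ offs ρ) :
    |(v.1 : ℝ)| ≤ ρ + 1 / 2 ∧ |(v.2 : ℝ)| ≤ ρ + 1 / 2 := by
  unfold offs offd at h
  simp only [Set.mem_ofPred_eq] at h
  have h1 := le_max_left (|(v.1 : ℝ)| - 1 / 2) 0
  have h2 := le_max_left (|(v.2 : ℝ)| - 1 / 2) 0
  have h3 := le_max_right (|(v.1 : ℝ)| - 1 / 2) 0
  have h4 := le_max_right (|(v.2 : ℝ)| - 1 / 2) 0
  constructor
  · have : max (|(v.1 : ℝ)| - 1 / 2) 0 ≤ ρ := by
      exact (sq_le_sq₀ h3 hρ).1 (by nlinarith)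
    linarith
  · have : max (|(v.2 : ℝ)| - 1 / 2) 0 ≤ ρ := by
      exact (sq_le_sq₀ h4 hρ).1 (by nlinarith)
    linarith

lemma ediv_near {q : ℕ} (hq : 0 < q) {a b : ℤ} (h : |a - b| < q) :
    |a / (q : ℤ) - b / (q : ℤ)| ≤ 1 := by
  have hq' : (0 : ℤ) < q := by exact_mod_cast hq
  have ha := Int.emod_add_mul_ediv a q
  have hb := Int.emod_add_mul_ediv b q
  have ha0 := Int.emod_nonneg a hq'.ne'
  have hb0 := Int.emod_nonneg b hq'.ne'
  have ha1 := Int.emod_lt_of_pos a hq'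
  have hb1 := Int.emod_lt_of_pos b hq'
  rw [abs_lt] at h
  rw [abs_le]
  constructor
  · by_contra hc
    push Not at hc
    have : a / (q : ℤ) - b / (q : ℤ) ≤ -2 := by omega
    nlinarith
  · by_contra hc
    push Not at hc
    have : 2 ≤ a / (q : ℤ) - b / (q : ℤ) := by omega
    nlinarith

lemma cidx_near {ρ : ℝ} {q : ℕ} (hρ : 0 ≤ ρ) (hq : 20 * (ρ + 2) ≤ q) {v x : Site}
    (h : v - x ∈ offs ρ) : nrm (cidx q v - cidx q x) ≤ 1 := by
  obtain ⟨h1, h2⟩ := offs_bound hρ h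
  have hq0 : 0 < q := by
    have : (0 : ℝ) < q := by linarith
    exact_mod_cast this
  have e1 : |v.1 - x.1| < (q : ℤ) := by
    have : (|v.1 - x.1| : ℝ) < q := by
      have : |((v - x).1 : ℝ)| = |(v.1 : ℝ) - x.1| := by
        rw [Prod.fst_sub]; push_cast; rfl
      rw [this] at h1
      linarith
    exact_mod_cast this
  have e2 : |v.2 - x.2| < (q : ℤ) := by
    have : (|v.2 - x.2| : ℝ) < q := by
      have : |((v - x).2 : ℝ)| = |(v.2 : ℝ) - x.2| := by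
        rw [Prod.snd_sub]; push_cast; rfl
      rw [this] at h2
      linarith
    exact_mod_cast this
  unfold nrm cidx
  exact max_le (ediv_near hq0 e1) (ediv_near hq0 e2)

/-- `S` and `S'` coincide on `cbox q z R` -/
def Agr (q : ℕ) (S S' : Set Site) (z : Site) (R : ℕ) : Prop :=
  ∀ v : Site, nrm (cidx q v - z) ≤ R → (v ∈ S ↔ v ∈ S')

lemma vac_loc {ρ : ℝ} {q : ℕ} (hρ : 0 ≤ ρ) (hq : 20 * (ρ + 2) ≤ q) {S S' : Set Site} {z : Site}
    {b : ℕ} (h : Agr q S S' z (b + 1)) {x : Site} (hx : x ∈ cbox q z b) :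
    x ∈ vacSites ρ S ↔ x ∈ vacSites ρ S' := by
  have hx' : nrm (cidx q x - z) ≤ b := hx
  have key : ∀ v : Site, v - x ∈ offs ρ → nrm (cidx q v - z) ≤ ((b + 1 : ℕ) : ℤ) := by
    intro v hv
    have h1 := cidx_near hρ hq hv
    have h2 := nrm_sub_le (cidx q v) (cidx q x) z
    push_cast
    linarith
  unfold vacSites
  simp only [Set.mem_ofPred_eq]
  constructor
  · intro hS v hv hof
    exact hS v ((h v (key v hof)).2 hv) hof
  · intro hS v hv hof
    exact hS v ((h v (key v hof)).1 hv) hof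

lemma uu_loc {ρ : ℝ} {q : ℕ} (hρ : 0 ≤ ρ) (hq : 20 * (ρ + 2) ≤ q) {S S' : Set Site} {z : Site}
    {a b : ℕ} (h : Agr q S S' z (b + 1)) : UU ρ q S z a b ↔ UU ρ q S' z a b := by
  unfold UU Wired
  have : (vacSites ρ S)ᶜ ∪ cbox q z a ∪ (cbox q z b)ᶜ =
      (vacSites ρ S')ᶜ ∪ cbox q z a ∪ (cbox q z b)ᶜ := by
    ext x
    by_cases hx : x ∈ cbox q z b
    · simp only [Set.mem_union, Set.mem_compl_iff, vac_loc hρ hq h hx]
    · simp only [Set.mem_union, Set.mem_compl_iff, hx, not_false_eq_true, or_true]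
  rw [this]

lemma Agr.mono {q : ℕ} {S S' : Set Site} {z z' : Site} {R R' : ℕ} (h : Agr q S S' z R)
    (h' : nrm (z' - z) + R' ≤ R) : Agr q S S' z' R' := by
  intro v hv
  refine h v ?_
  have := nrm_sub_le (cidx q v) z' z
  linarith

variable {q H : ℕ}

lemma cidx_site [NeZero q] (θ : FMark q H) (k : Fin (H + 1)) : cidx q (FMark.site θ k) = θ.1.c k := by
  have hq : (0 : ℤ) < q := by exact_mod_cast NeZero.pos q
  have h1 : (((FMark.loc θ k).1 : ℕ) : ℤ) < q := by exact_mod_cast (FMark.loc θ k).1.2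
  have h2 : (((FMark.loc θ k).2 : ℕ) : ℤ) < q := by exact_mod_cast (FMark.loc θ k).2.2
  unfold cidx FMark.site
  refine Prod.ext ?_ ?_
  · show ((q : ℤ) * (θ.1.c k).1 + ((FMark.loc θ k).1 : ℕ)) / (q : ℤ) = _
    rw [add_comm, Int.add_mul_ediv_left _ _ hq.ne', Int.ediv_eq_zero_of_lt (by positivity) h1,
      zero_add]
  · show ((q : ℤ) * (θ.1.c k).2 + ((FMark.loc θ k).2 : ℕ)) / (q : ℤ) = _
    rw [add_comm, Int.add_mul_ediv_left _ _ hq.ne', Int.ediv_eq_zero_of_lt (by positivity) h2,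
      zero_add]

/-- marks which in the window `[k1,k2]` are at some time in `box y R` -/
def AA (q H k1 k2 : ℕ) (y : Site) (R : ℕ) : Set (FMark q H) :=
  {θ | ∃ k : ℕ, k1 ≤ k ∧ k ≤ k2 ∧ ∃ h : k < H + 1, nrm (θ.1.c ⟨k, h⟩ - y) ≤ R}

lemma et_agr [NeZero q] {k1 k2 m : ℕ} (hm1 : k1 ≤ m) (hm2 : m ≤ k2) {y : Site} {R : ℕ}
    {ω ω' : Conf q H} (h : ∀ θ ∈ AA q H k1 k2 y R, ω θ = ω' θ) :
    Agr q (et ω m) (et ω' m) y R := by
  intro v hv
  unfold et
  simp only [Set.mem_ofPred_eq]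
  constructor
  · rintro ⟨θ, hθ, hk, hs⟩
    refine ⟨θ, ?_, hk, hs⟩
    rw [← h θ]
    · exact hθ
    · refine ⟨m, hm1, hm2, hk, ?_⟩
      rw [← cidx_site, hs]; exact hv
  · rintro ⟨θ, hθ, hk, hs⟩
    refine ⟨θ, ?_, hk, hs⟩
    rw [h θ]
    · exact hθ
    · refine ⟨m, hm1, hm2, hk, ?_⟩
      rw [← cidx_site, hs]; exact hv

lemma projE_agr {k1 k2 : ℕ} {y : Site} {R : ℕ} (e : Fin (H + 1) → Bool)
    {ω ω' : Conf q H} (h : ∀ θ ∈ AA q H k1 k2 y R, ω θ = ω' θ) [NeZero q] :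
    ∀ θ ∈ AA q H k1 k2 y R, projE e ω θ = projE e ω' θ := by
  intro θ hθ
  unfold projE
  split_ifs
  · exact Finset.sum_congr rfl fun u _ => h (θ.1, u) hθ
  · rfl

lemma hcp_agr [NeZero q] {a δ Λ : ℝ} (L : MarkLaw q H a δ Λ) (lam : ℝ≥0) (ρ : ℝ) (u m m' : ℕ)
    (y : Site) {k1 k2 R : ℕ} (hk1 : k1 ≤ m') (hk2 : m' ≤ k2) (hR : 27 * u ≤ R) {M M' : Conf q H}
    (h : ∀ θ ∈ AA q H k1 k2 y R, M θ = M' θ) :
    hcp L lam ρ u m m' y M = hcp L lam ρ u m m' y M' := by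
  have : ∀ N : Conf q H, mixC m' y (27 * u) M N = mixC m' y (27 * u) M' N := by
    intro N
    funext θ
    unfold mixC
    split_ifs with hc
    · obtain ⟨hk, hn⟩ := hc
      refine h θ ⟨m', hk1, hk2, hk, hn.trans ?_⟩
      exact_mod_cast hR
    · rfl
  unfold hcp
  simp only [this]

/-- the good event of a sub-block -/
def GE [NeZero q] {a δ Λ : ℝ} (L : MarkLaw q H a δ Λ) (lam : ℝ≥0) (ρ : ℝ) (u J : ℕ) (uh : ℝ)
    (m : ℕ) (y : Site) : Set (Conf q H) :=
  {ω | niceE L lam ρ u J uh ω m y ∧ UU ρ q (et ω m) y (10 * u) (20 * u) ∧ VE ρ q (et ω m) y u}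

lemma GE_dep [NeZero q] {a δ Λ : ℝ} (L : MarkLaw q H a δ Λ) (lam : ℝ≥0) {ρ : ℝ} (hρ : 0 ≤ ρ)
    (hq : 20 * (ρ + 2) ≤ q) {u J : ℕ} (hu : 1 ≤ u) (hJ : 1 ≤ J) (uh : ℝ) (m : ℕ) (y : Site)
    {ω ω' : Conf q H}
    (h : ∀ θ ∈ AA q H m ((m / J + 2) * J) y (70 * u), ω θ = ω' θ) :
    ω ∈ GE L lam ρ u J uh m y ↔ ω' ∈ GE L lam ρ u J uh m y := by
  have hm : m < (m / J + 1) * J := by
    have := Nat.lt_mul_div_succ m (by omega : 0 < J)
    rw [mul_comm] at this
    exact this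
  have hm2 : m ≤ (m / J + 2) * J := by nlinarith
  have hA := et_agr (le_refl m) hm2 h
  have h1 : niceE L lam ρ u J uh ω m y ↔ niceE L lam ρ u J uh ω' m y := by
    unfold niceE
    have : ∑ m' ∈ nxt J m, hcp L lam ρ u m m' y (projE (expo H m) ω) =
        ∑ m' ∈ nxt J m, hcp L lam ρ u m m' y (projE (expo H m) ω') := by
      refine Finset.sum_congr rfl fun m' hm' => ?_
      unfold nxt at hm'
      rw [Finset.mem_Ico] at hm'
      refine hcp_agr L lam ρ u m m' y (k1 := m) (k2 := (m / J + 2) * J) (R := 70 * u)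
        (by omega) (by omega) (by omega) ?_
      exact projE_agr _ h
    rw [this]
  have h2 : UU ρ q (et ω m) y (10 * u) (20 * u) ↔ UU ρ q (et ω' m) y (10 * u) (20 * u) := by
    refine uu_loc hρ hq (hA.mono ?_)
    simp only [sub_self]
    have : nrm (0 : Site) = 0 := by simp [nrm]
    rw [this]
    push_cast
    have : (1 : ℤ) ≤ u := by exact_mod_cast hu
    linarith
  have h3 : VE ρ q (et ω m) y u ↔ VE ρ q (et ω' m) y u := by
    unfold VE
    refine and_congr ?_ ?_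
    · refine forall_congr' fun i => forall_congr' fun hi => ?_
      refine uu_loc hρ hq (hA.mono ?_)
      have h1 : nrm (((y.1 + 15 * u + 8 * u * i, y.2) : Site) - y) ≤ 55 * u := by
        unfold nrm
        have hi' : (i : ℤ) ≤ 5 := by exact_mod_cast (by omega : i ≤ 5)
        have hi0 : (0 : ℤ) ≤ i := by positivity
        have hu0 : (0 : ℤ) ≤ u := by positivity
        refine max_le ?_ ?_
        · show |y.1 + 15 * u + 8 * u * i - y.1| ≤ _
          rw [abs_le]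
          constructor <;> nlinarith
        · show |y.2 - y.2| ≤ _
          simp
      have : (1 : ℤ) ≤ u := by exact_mod_cast hu
      push_cast
      linarith
    · refine uu_loc hρ hq (hA.mono ?_)
      simp only [sub_self]
      have : nrm (0 : Site) = 0 := by simp [nrm]
      rw [this]
      push_cast
      have : (1 : ℤ) ≤ u := by exact_mod_cast hu
      linarith
  unfold GE
  simp only [Set.mem_ofPred_eq]
  rw [h1, h2, h3]

lemma GE_meas (h3 : Stmt_MEASE) [NeZero q] {a δ Λ : ℝ} (L : MarkLaw q H a δ Λ) (lam : ℝ≥0) (ρ : ℝ)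
    (p : Par) (uh : ℝ) (m : ℕ) (y : Site) :
    MeasurableSet (GE L lam ρ p.u p.J uh m y) ∧ Decr (GE L lam ρ p.u p.J uh m y) := by
  obtain ⟨-, ⟨n1, n2⟩, -⟩ := h3 q H a δ Λ L lam ρ p uh m 0 y (0, 0)
  have hM := stmt_MEAS
  have hU : ∀ (z : Site) (a b : ℕ), MeasurableSet {ω : Conf q H | UU ρ q (et ω m) z a b} ∧
      Decr {ω : Conf q H | UU ρ q (et ω m) z a b} := fun z a b =>
    (hM q H ρ m 0 z z a b).2.1
  constructor
  · refine n1.inter ((hU _ _ _).1.inter ?_)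
    refine MeasurableSet.inter ?_ (hU _ _ _).1
    have : {ω : Conf q H | ∀ i : ℕ, i < 6 →
        UU ρ q (et ω m) (y.1 + 15 * p.u + 8 * p.u * i, y.2) (6 * p.u) (12 * p.u)} =
        ⋂ i : ℕ, ⋂ _ : i < 6, {ω : Conf q H |
          UU ρ q (et ω m) (y.1 + 15 * p.u + 8 * p.u * i, y.2) (6 * p.u) (12 * p.u)} := by
      ext ω; simp
    show MeasurableSet {ω : Conf q H | ∀ i : ℕ, i < 6 →
        UU ρ q (et ω m) (y.1 + 15 * p.u + 8 * p.u * i, y.2) (6 * p.u) (12 * p.u)}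
    rw [this]
    exact MeasurableSet.iInter fun i => MeasurableSet.iInter fun _ => (hU _ _ _).1
  · rintro ω ω' hle ⟨g1, g2, g3, g4⟩
    exact ⟨n2 ω ω' hle g1, (hU _ _ _).2 ω ω' hle g2,
      fun i hi => (hU _ _ _).2 ω ω' hle (g3 i hi), (hU _ _ _).2 ω ω' hle g4⟩

end NNP

open NNP TAMEI in
theorem stmt_NNP (h1 : Stmt_WILD) (_h2 : Stmt_TAMEI) (h3 : Stmt_MEASE) : Stmt_NNP := by
  classical
  intro I Λ ε J A1 Y hε hJ hG
  have hYc : (0 : ℝ) < (Y.card : ℝ) + 1 := by positivity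
  obtain ⟨R0, hR0⟩ := h1 I Λ (2 * J) 1 (ε / (Y.card + 1)) (by positivity)
  refine ⟨R0 + 1, fun u hu c e δ nmax E m X uh v hv hH hnm hvP => ?_⟩
  have hu1 : 1 ≤ u := by omega
  set k2 : ℕ := (m / J + 2) * J with hk2
  have hmk : m ≤ k2 := by
    have := Nat.lt_mul_div_succ m (by omega : 0 < J)
    rw [mul_comm] at this
    have h' : (m / J + 1) * J ≤ k2 := by rw [hk2]; exact Nat.mul_le_mul_right _ (by omega)
    have : m < (m / J + 1) * J := this
    omega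
  have hk2m : k2 ≤ m + 2 * J := by
    have := Nat.div_mul_le_self m J
    rw [hk2, add_mul]; omega
  set p : Par := ⟨u, J, A1, Y⟩ with hp
  set pos : Site → Site := fun y0 => sm u y0 + ((p.A : ℤ) * (X.1 : ℤ), (p.A : ℤ) * X.2) with hpos
  have hρ : 0 ≤ E.ρ := by linarith [E.ok.ρ_pos]
  have hq := E.ok.short
  set T : Set (FMark E.q E.H) := {θ | θ.1.tot m k2 ≤ u} with hT
  set A : Site → Set (FMark E.q E.H) := fun y0 => AA E.q E.H m k2 (pos y0) (70 * u) with hA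
  set G : Site → Set (Conf E.q E.H) := fun y0 => GE E.L E.lam E.ρ u J uh m (pos y0) with hGdef
  have hGm : ∀ y0, MeasurableSet (G y0) ∧ Decr (G y0) := fun y0 =>
    GE_meas h3 E.L E.lam E.ρ p uh m (pos y0)
  -- the complement of `NNE`
  have hN : {ω | ¬ NNE E.L E.lam E.ρ p uh ω m X} = ⋂ y0 ∈ Y, (G y0)ᶜ := by
    ext ω
    simp only [Set.mem_ofPred_eq, Set.mem_iInter, Set.mem_compl_iff]
    unfold NNE
    constructor
    · intro h y0 hy0 hg
      exact h ⟨pos y0, ⟨y0, hy0, rfl⟩, hg⟩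
    · rintro h ⟨y, ⟨y0, hy0, rfl⟩, hg⟩
      exact h y0 hy0 hg
  set F' : Site → Set (Conf E.q E.H) := fun y0 => {ω | rst T ω ∈ (G y0)ᶜ} with hF'
  set W : Site → Set (Conf E.q E.H) := fun y0 => {ω | ∃ θ ∈ A y0, θ ∉ T ∧ ω θ ≠ 0} with hW
  have hPP : E.P = pois (fun θ => E.lam * E.L.fine θ) := rfl
  have : Countable (FMark E.q E.H) := by
    have := countable_cmark (q := E.q) (H := E.H)
    infer_instance
  have hprob : IsProbabilityMeasure E.P := by rw [hPP]; infer_instance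
  -- inclusion
  have hincl : (⋂ y0 ∈ Y, (G y0)ᶜ) ⊆ (⋂ y0 ∈ Y, F' y0) ∪ ⋃ y0 ∈ Y, W y0 := by
    intro ω hω
    by_cases hw : ω ∈ ⋃ y0 ∈ Y, W y0
    · exact Or.inr hw
    · left
      simp only [Set.mem_iInter] at hω ⊢
      intro y0 hy0
      show rst T ω ∈ (G y0)ᶜ
      intro hr
      refine hω y0 hy0 ?_
      refine (GE_dep E.L E.lam hρ hq hu1 hJ uh m (pos y0) ?_).1 hr
      intro θ hθ
      unfold rst
      by_cases hθT : θ ∈ T
      · rw [if_pos hθT]
      · rw [if_neg hθT]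
        by_contra hne
        refine hw ?_
        simp only [Set.mem_iUnion]
        exact ⟨y0, hy0, θ, hθ, hθT, fun h => hne h.symm⟩
  -- independence
  have hind : E.P.real (⋂ y0 ∈ Y, F' y0) = ∏ y0 ∈ Y, E.P.real (F' y0) := by
    rw [hPP]
    refine stmt_INDEP (FMark E.q E.H) _ Site Y (fun y0 => A y0 ∩ T) F' ?_ ?_ ?_
    · intro y0 _
      exact measurable_rst T (hGm y0).1.compl
    · intro y0 _ ω ω' hω
      have : rst T ω ∈ G y0 ↔ rst T ω' ∈ G y0 := by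
        refine GE_dep E.L E.lam hρ hq hu1 hJ uh m (pos y0) ?_
        intro θ hθ
        unfold rst
        by_cases hθT : θ ∈ T
        · rw [if_pos hθT, if_pos hθT]
          exact hω θ ⟨hθ, hθT⟩
        · rw [if_neg hθT, if_neg hθT]
      exact not_congr this
    · intro y0 hy0 y1 hy1 hne
      rw [Set.disjoint_left]
      rintro θ ⟨⟨k, hk1, hk2', hkH, hn⟩, hθT⟩ ⟨⟨k', hk1', hk2'', hkH', hn'⟩, -⟩
      have hd : nrm (θ.1.c ⟨k, hkH⟩ - θ.1.c ⟨k', hkH'⟩) ≤ u := by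
        have hT' : ((θ.1.tot m k2 : ℕ) : ℤ) ≤ u := by exact_mod_cast hθT
        rcases le_total k k' with hkk | hkk
        · have := θ.1.disp_le_tot k k' hkk hkH'
          have h' := θ.1.tot_mono hk1 hk2'' (i := k) (j := k')
          have h'' : ((θ.1.tot k k' : ℕ) : ℤ) ≤ ((θ.1.tot m k2 : ℕ) : ℤ) := by exact_mod_cast h'
          linarith
        · have := θ.1.disp_le_tot k' k hkk hkH
          have h' := θ.1.tot_mono hk1' hk2' (i := k') (j := k)
          have h'' : ((θ.1.tot k' k : ℕ) : ℤ) ≤ ((θ.1.tot m k2 : ℕ) : ℤ) := by exact_mod_cast h'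
          rw [nrm_sub_comm]
          linarith
      have hsep := hG.sep y0 hy0 y1 hy1 hne
      have hsm : nrm (pos y0 - pos y1) = u * nrm (y0 - y1) := by
        have : pos y0 - pos y1 = ((u : ℤ) * (y0.1 - y1.1), (u : ℤ) * (y0.2 - y1.2)) := by
          simp only [hpos, sm]
          refine Prod.ext ?_ ?_
          · show (u : ℤ) * y0.1 + _ - ((u : ℤ) * y1.1 + _) = _
            ring
          · show (u : ℤ) * y0.2 + _ - ((u : ℤ) * y1.2 + _) = _
            ring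
        rw [this]
        unfold nrm
        simp only [Prod.fst_sub, Prod.snd_sub]
        rw [abs_mul, abs_mul, abs_of_nonneg (by positivity : (0 : ℤ) ≤ u)]
        exact (mul_max_of_nonneg _ _ (by positivity)).symm
      have e1 := nrm_sub_le (pos y0) (θ.1.c ⟨k, hkH⟩) (pos y1)
      have e2 := nrm_sub_le (θ.1.c ⟨k, hkH⟩) (θ.1.c ⟨k', hkH'⟩) (pos y1)
      rw [nrm_sub_comm (pos y0) (θ.1.c ⟨k, hkH⟩)] at e1
      rw [hsm] at e1
      push_cast at hn hn'
      have hu1' : (1 : ℤ) ≤ u := by exact_mod_cast hu1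
      nlinarith
  -- each factor
  have hfac : ∀ y0 ∈ Y, E.P.real (F' y0) ≤ 1 - v := by
    intro y0 _
    have hsub : F' y0 ⊆ (G y0)ᶜ := fun ω hω hg => hω ((hGm y0).2 (rst T ω) ω (rst_le T ω) hg)
    calc E.P.real (F' y0) ≤ E.P.real (G y0)ᶜ := measureReal_mono hsub (measure_ne_top _ _)
      _ = 1 - E.P.real (G y0) := by
        rw [measureReal_compl (hGm y0).1]; simp
      _ ≤ 1 - v := by
        have := hvP (pos y0)
        have h' : E.P.real {ω | niceE E.L E.lam E.ρ u J uh ω m (pos y0) ∧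
          UU E.ρ E.q (et ω m) (pos y0) (10 * u) (20 * u) ∧ VE E.ρ E.q (et ω m) (pos y0) u} =
            E.P.real (G y0) := rfl
        rw [h'] at this
        linarith
  -- wild particles
  have hwild : ∀ y0 ∈ Y, E.P.real (W y0) ≤ ε / (Y.card + 1) := by
    intro y0 _
    have hb := hR0 (100 * u) (by omega) E.q E.H ((1 / 4) ^ E.j) δ E.L E.lam E.inten m k2 (pos y0)
      hmk (by rw [hk2]; exact hH) hk2m
    have hsub : W y0 ⊆ {ω : Conf E.q E.H | ∃ θ : FMark E.q E.H, ω θ ≠ 0 ∧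
        100 * u < 100 * θ.1.tot m k2 ∧ ∃ k : ℕ, m ≤ k ∧ k ≤ k2 ∧ ∃ h : k < E.H + 1,
        nrm (θ.1.c ⟨k, h⟩ - pos y0) ≤ ((1 : ℕ) : ℤ) * ((100 * u : ℕ) : ℤ) + θ.1.tot m k2} := by
      rintro ω ⟨θ, ⟨k, hk1, hk2', hkH, hn⟩, hθT, hω⟩
      have hθT' : u < θ.1.tot m k2 := not_le.1 hθT
      refine ⟨θ, hω, by omega, k, hk1, hk2', hkH, ?_⟩
      push_cast at hn ⊢
      have : (0 : ℤ) ≤ u := by positivity
      have h2 : (0 : ℤ) ≤ θ.1.tot m k2 := by positivity
      linarith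
    have hle : E.P.real (W y0) ≤ ε / (Y.card + 1) / ((100 * u : ℕ) : ℝ) ^ 10 := by
      refine (measureReal_mono hsub (measure_ne_top _ _)).trans ?_
      exact hb
    refine hle.trans (div_le_self (by positivity) ?_)
    refine one_le_pow₀ ?_
    have : (1 : ℝ) ≤ u := by exact_mod_cast hu1
    push_cast
    linarith
  calc E.P.real {ω | ¬ NNE E.L E.lam E.ρ ⟨u, J, A1, Y⟩ uh ω m X}
      = E.P.real (⋂ y0 ∈ Y, (G y0)ᶜ) := by rw [← hN]
    _ ≤ E.P.real ((⋂ y0 ∈ Y, F' y0) ∪ ⋃ y0 ∈ Y, W y0) :=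
        measureReal_mono hincl (measure_ne_top _ _)
    _ ≤ E.P.real (⋂ y0 ∈ Y, F' y0) + E.P.real (⋃ y0 ∈ Y, W y0) := measureReal_union_le _ _
    _ ≤ (1 - v) ^ Y.card + ε := by
        refine add_le_add ?_ ?_
        · rw [hind]
          refine (Finset.prod_le_prod (fun _ _ => measureReal_nonneg) hfac).trans ?_
          rw [Finset.prod_const]
        · refine (measureReal_biUnion_finset_le Y W).trans ?_
          refine (Finset.sum_le_sum hwild).trans ?_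
          rw [Finset.sum_const, nsmul_eq_mul]
          rw [mul_div_assoc', div_le_iff₀ hYc]
          nlinarith

end MPdd5692
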