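import Pool.Agent.Work.MP_dd5692_pr.InterfaceE

/-!
# MP_dd5692_pr, block OCC0P: the start (4.6), Chebyshev.  helper17
-/

open MeasureTheory ProbabilityTheory Set
open scoped ENNReal NNReal BigOperators

namespace MPdd5692

namespace OCC0P

lemma countable_CMark (q H : ℕ) : Countable (CMark q H) := by
  refine Function.Injective.countable (f := fun ξ : CMark q H => (ξ.c, ξ.g, ξ.b, ξ.r)) ?_
  rintro ⟨a1, a2, a3, a4⟩ ⟨b1, b2, b3, b4⟩ h
  simp only [Prod.mk.injEq] at h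
  obtain ⟨h1, h2, h3, h4⟩ := h
  subst h1; subst h2; subst h3; subst h4
  rfl

lemma countable_FMark (q H : ℕ) : Countable (FMark q H) := by
  have := countable_CMark q H
  infer_instance

open Classical in
/-- the counting lemma: Markov and Chebyshev -/
lemma count {Ω : Type*} [MeasurableSpace Ω] (P : Measure Ω) [IsProbabilityMeasure P] (J : ℕ)
    (W N : ℕ → Set Ω) (w ε ε1 τ : ℝ) (hJ : 1 ≤ J) (hw : 0 < w) (hε : 0 ≤ ε) (hτ : τ ≤ w / 8)
    (hW : ∀ m < J, MeasurableSet (W m)) (hN : ∀ m < J, MeasurableSet (N m))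
    (h1 : ∀ m < J, P.real (W m) = w)
    (h2 : ∀ m < J, ∀ m' < J, m ≠ m' → P.real (W m ∩ W m') ≤ w ^ 2 + ε)
    (h3 : ∀ m < J, P.real (W m ∩ (N m)ᶜ) ≤ w * ε1) :
    P.real {ω | ¬ (τ * J ≤ (((Finset.Ico 0 J).filter fun m => ω ∈ W m ∧ ω ∈ N m).card : ℝ))}
      ≤ 4 * ε1 + 4 / (w * J) + 4 * ε / w ^ 2 := by
  have hJ0 : (0 : ℝ) < J := by exact_mod_cast hJ
  set s := Finset.range J with hs
  have hms : ∀ m ∈ s, m < J := fun m hm => Finset.mem_range.1 hm
  -- indicator functions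
  let f : ℕ → Ω → ℝ := fun m => (W m).indicator (fun _ => (1 : ℝ))
  let b : ℕ → Ω → ℝ := fun m => (W m ∩ (N m)ᶜ).indicator (fun _ => (1 : ℝ))
  have hWN : ∀ m < J, MeasurableSet (W m ∩ (N m)ᶜ) := fun m hm => (hW m hm).inter (hN m hm).compl
  have intf : ∀ m ∈ s, Integrable (f m) P := fun m hm =>
    (integrable_const (1 : ℝ)).indicator (hW m (hms m hm))
  have intb : ∀ m ∈ s, Integrable (b m) P := fun m hm =>
    (integrable_const (1 : ℝ)).indicator (hWN m (hms m hm))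
  have If : ∀ m ∈ s, ∫ ω, f m ω ∂P = w := fun m hm => by
    rw [← h1 m (hms m hm)]
    exact integral_indicator_one (hW m (hms m hm))
  have Ib : ∀ m ∈ s, ∫ ω, b m ω ∂P ≤ w * ε1 := fun m hm => by
    rw [show ∫ ω, b m ω ∂P = P.real (W m ∩ (N m)ᶜ) from
      integral_indicator_one (hWN m (hms m hm))]
    exact h3 m (hms m hm)
  have ff : ∀ m ∈ s, ∀ m' ∈ s, (fun ω => f m ω * f m' ω)
      = (W m ∩ W m').indicator (fun _ => (1 : ℝ)) := by
    intro m _ m' _
    funext ω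
    by_cases h : ω ∈ W m <;> by_cases h' : ω ∈ W m' <;>
      simp [f, h, h']
  have intff : ∀ m ∈ s, ∀ m' ∈ s, Integrable (fun ω => f m ω * f m' ω) P := by
    intro m hm m' hm'
    rw [ff m hm m' hm']
    exact (integrable_const (1 : ℝ)).indicator ((hW m (hms m hm)).inter (hW m' (hms m' hm')))
  have Iff : ∀ m ∈ s, ∀ m' ∈ s, ∫ ω, f m ω * f m' ω ∂P
      ≤ w ^ 2 + ε + (if m = m' then w else 0) := by
    intro m hm m' hm'
    rw [ff m hm m' hm']
    rw [show ∫ ω, (W m ∩ W m').indicator (fun _ => (1 : ℝ)) ω ∂P = P.real (W m ∩ W m') from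
      integral_indicator_one ((hW m (hms m hm)).inter (hW m' (hms m' hm')))]
    by_cases h : m = m'
    · subst h
      rw [Set.inter_self, h1 m (hms m hm), if_pos rfl]
      nlinarith [sq_nonneg w]
    · rw [if_neg h, add_zero]
      exact h2 m (hms m hm) m' (hms m' hm') h
  -- the two random sums
  let A : Ω → ℝ := fun ω => ∑ m ∈ s, f m ω
  let B : Ω → ℝ := fun ω => ∑ m ∈ s, b m ω
  have intA : Integrable A P := integrable_finsetSum _ intf
  have intB : Integrable B P := integrable_finsetSum _ intb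
  have IA : ∫ ω, A ω ∂P = w * J := by
    show ∫ ω, ∑ m ∈ s, f m ω ∂P = _
    rw [integral_finsetSum _ intf, Finset.sum_congr rfl If, Finset.sum_const, Finset.card_range,
      nsmul_eq_mul]
    ring
  have IB : ∫ ω, B ω ∂P ≤ w * ε1 * J := by
    show ∫ ω, ∑ m ∈ s, b m ω ∂P ≤ _
    rw [integral_finsetSum _ intb]
    refine le_trans (Finset.sum_le_sum Ib) ?_
    rw [Finset.sum_const, Finset.card_range, nsmul_eq_mul]
    linarith [mul_comm (J : ℝ) (w * ε1)]
  have hAA : (fun ω => A ω ^ 2) = fun ω => ∑ m ∈ s, ∑ m' ∈ s, f m ω * f m' ω := by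
    funext ω
    show (∑ m ∈ s, f m ω) ^ 2 = _
    rw [sq, Finset.sum_mul_sum]
  have intAA : Integrable (fun ω => A ω ^ 2) P := by
    rw [hAA]
    exact integrable_finsetSum _ fun m hm => integrable_finsetSum _ fun m' hm' => intff m hm m' hm'
  have IAA : ∫ ω, A ω ^ 2 ∂P ≤ (J : ℝ) ^ 2 * (w ^ 2 + ε) + w * J := by
    rw [hAA, integral_finsetSum _ (fun m hm => integrable_finsetSum _ fun m' hm' =>
      intff m hm m' hm')]
    calc ∑ m ∈ s, ∫ ω, ∑ m' ∈ s, f m ω * f m' ω ∂P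
        = ∑ m ∈ s, ∑ m' ∈ s, ∫ ω, f m ω * f m' ω ∂P :=
          Finset.sum_congr rfl fun m hm => integral_finsetSum _ fun m' hm' => intff m hm m' hm'
      _ ≤ ∑ m ∈ s, ∑ m' ∈ s, (w ^ 2 + ε + (if m = m' then w else 0)) :=
          Finset.sum_le_sum fun m hm => Finset.sum_le_sum fun m' hm' => Iff m hm m' hm'
      _ = (J : ℝ) ^ 2 * (w ^ 2 + ε) + w * J := by
          simp only [Finset.sum_add_distrib, Finset.sum_const, hs, Finset.card_range,
            nsmul_eq_mul, Finset.sum_ite_eq, Finset.mem_range]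
          rw [Finset.sum_congr rfl (g := fun _ => w) (fun m hm => if_pos (Finset.mem_range.1 hm))]
          simp only [Finset.sum_const, Finset.card_range, nsmul_eq_mul]
          ring
  -- variance
  let V : Ω → ℝ := fun ω => A ω ^ 2 - 2 * (w * J) * A ω + (w * J) ^ 2
  have hVsq : ∀ ω, V ω = (A ω - w * J) ^ 2 := fun ω => by show _ - _ + _ = _; ring
  have intV : Integrable V P := (intAA.sub (intA.const_mul _)).add (integrable_const _)
  have IV : ∫ ω, V ω ∂P ≤ (J : ℝ) ^ 2 * ε + w * J := by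
    have e1 : ∫ ω, V ω ∂P = ∫ ω, A ω ^ 2 ∂P - 2 * (w * J) * (w * J) + (w * J) ^ 2 := by
      show ∫ ω, (A ω ^ 2 - 2 * (w * J) * A ω + (w * J) ^ 2) ∂P = _
      have i1 : Integrable (fun ω => 2 * (w * J) * A ω) P := intA.const_mul _
      have i2 : Integrable (fun ω => A ω ^ 2 - 2 * (w * J) * A ω) P := intAA.sub i1
      have a1 : ∫ ω, (A ω ^ 2 - 2 * (w * J) * A ω + (w * J) ^ 2) ∂P
          = ∫ ω, (A ω ^ 2 - 2 * (w * J) * A ω) ∂P + ∫ _ω, (w * (J : ℝ)) ^ 2 ∂P :=
        integral_add i2 (integrable_const _)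
      have a2 : ∫ ω, (A ω ^ 2 - 2 * (w * J) * A ω) ∂P
          = ∫ ω, A ω ^ 2 ∂P - ∫ ω, 2 * (w * J) * A ω ∂P := integral_sub intAA i1
      rw [a1, a2, integral_const_mul, IA]
      simp
    rw [e1]
    nlinarith [IAA]
  have hb0 : ∀ m ω, 0 ≤ b m ω := fun m ω => Set.indicator_nonneg (fun _ _ => zero_le_one) _
  -- Markov
  have M1 : P.real {ω | (w * J / 2) ^ 2 ≤ V ω} ≤ 4 / (w * J) + 4 * ε / w ^ 2 := by
    have h := mul_meas_ge_le_integral_of_nonneg
      (Filter.Eventually.of_forall fun ω => by rw [hVsq]; exact sq_nonneg _) intV ((w * J / 2) ^ 2)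
    have h' : (w * J / 2) ^ 2 * P.real {ω | (w * J / 2) ^ 2 ≤ V ω} ≤ (J : ℝ) ^ 2 * ε + w * J :=
      le_trans h IV
    have e2 : 4 / (w * J) + 4 * ε / w ^ 2 = ((J : ℝ) ^ 2 * ε + w * J) / (w * J / 2) ^ 2 := by
      field_simp; ring
    rw [e2, le_div_iff₀ (by positivity)]
    linarith
  have M2 : P.real {ω | w * J / 4 ≤ B ω} ≤ 4 * ε1 := by
    have h := mul_meas_ge_le_integral_of_nonneg
      (Filter.Eventually.of_forall fun ω => Finset.sum_nonneg fun m _ => hb0 m ω) intB (w * J / 4)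
    have h' : (w * J / 4) * P.real {ω | w * J / 4 ≤ B ω} ≤ w * ε1 * J := le_trans h IB
    have h'' : (w * J) * P.real {ω | w * J / 4 ≤ B ω} ≤ (w * J) * (4 * ε1) := by linarith
    exact le_of_mul_le_mul_left h'' (by positivity)
  -- inclusion
  have hsub : {ω | ¬ (τ * J ≤ (((Finset.Ico 0 J).filter fun m => ω ∈ W m ∧ ω ∈ N m).card : ℝ))}
      ⊆ {ω | (w * J / 2) ^ 2 ≤ V ω} ∪ {ω | w * J / 4 ≤ B ω} := by
    intro ω hω
    rw [Set.mem_ofPred_eq, not_le] at hω
    by_contra hcon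
    simp only [Set.mem_union, Set.mem_ofPred_eq, not_or, not_le] at hcon
    obtain ⟨hV, hB⟩ := hcon
    have hA : w * J / 2 < A ω := by
      rw [hVsq] at hV
      by_contra hA
      rw [not_lt] at hA
      have : (w * J / 2) ^ 2 ≤ (A ω - w * J) ^ 2 := by
        rw [show (A ω - w * J) ^ 2 = (w * J - A ω) ^ 2 by ring]
        exact pow_le_pow_left₀ (by positivity) (by linarith) 2
      linarith
    have hcard : (((Finset.Ico 0 J).filter fun m => ω ∈ W m ∧ ω ∈ N m).card : ℝ) = A ω - B ω := by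
      have e3 : Finset.Ico 0 J = s := by rw [hs, Finset.range_eq_Ico]
      rw [e3, Finset.card_filter]
      push_cast
      show _ = ∑ m ∈ s, f m ω - ∑ m ∈ s, b m ω
      rw [← Finset.sum_sub_distrib]
      refine Finset.sum_congr rfl fun m _ => ?_
      by_cases h : ω ∈ W m <;> by_cases h' : ω ∈ N m <;> simp [f, b, h, h']
    rw [hcard] at hω
    have hτ' : τ * J ≤ w / 8 * J := mul_le_mul_of_nonneg_right hτ hJ0.le
    have : 0 < w * J := by positivity
    linarith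
  calc P.real _ ≤ P.real ({ω | (w * J / 2) ^ 2 ≤ V ω} ∪ {ω | w * J / 4 ≤ B ω}) :=
        measureReal_mono hsub (measure_ne_top _ _)
    _ ≤ P.real {ω | (w * J / 2) ^ 2 ≤ V ω} + P.real {ω | w * J / 4 ≤ B ω} :=
        measureReal_union_le _ _
    _ ≤ 4 * ε1 + 4 / (w * J) + 4 * ε / w ^ 2 := by linarith

end OCC0P

open OCC0P in
theorem stmt_OCC0P (h1 : Stmt_HARRIS) (h2 : Stmt_MEASE) (h3 : Stmt_WLOW) : Stmt_OCC0P := by
  intro c e I δ Λ nmax E p uh ε ε1 X huh huh1 hε hX hu hJ hgeo hJH hn hdec hNN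
  have := E.nz
  have := countable_FMark E.q E.H
  have hP : E.P = pois (fun θ => E.lam * E.L.fine θ) := rfl
  have : IsProbabilityMeasure E.P := by rw [hP]; infer_instance
  obtain ⟨hwlow, hWp⟩ := h3 c e I δ Λ nmax E p (by omega) hgeo hn
  have hw : 0 < E.w p := lt_of_lt_of_le (pow_pos E.ok.c_pos _) hwlow
  have hmeas := fun m => h2 E.q E.H _ δ Λ E.L E.lam E.ρ p uh m m 0 X
  have key := count E.P p.J (fun m => {ω | WWE E.ρ E.q (et ω m) p X})
    (fun m => {ω | NNE E.L E.lam E.ρ p uh ω m X}) (E.w p) ε ε1 (uh * E.w p / 8) hJ hw hε.le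
    (by nlinarith) (fun m _ => (hmeas m).2.2.1.1) (fun m _ => (hmeas m).2.2.2.1.1)
    (fun m hm => hWp m X (by omega))
    (fun m hm m' hm' hne => hdec.w m m' X X (by omega) (by omega) hne)
    (by
      intro m hm
      have h := (h1 (FMark E.q E.H) (fun θ => E.lam * E.L.fine θ) _ _ (hmeas m).2.2.1.1
        (hmeas m).2.2.2.1.1 (hmeas m).2.2.1.2 (hmeas m).2.2.2.1.2).2
      rw [← hP] at h
      refine le_trans h ?_
      rw [hWp m X (by omega)]
      exact mul_le_mul_of_nonneg_left (hNN m hm) hw.le)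
  exact key

end MPdd5692
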