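import Mathlib
import Pool.Agent.Work.MP_dd5692_pr.InterfaceC
import Pool.Agent.Work.MP_dd5692_pr.Link98

/-!
# MP_dd5692_pr, block QM (helper75): quasi-multiplicativity of the one-arm probabilities
-/

open MeasureTheory ProbabilityTheory Set
open scoped ENNReal NNReal BigOperators

namespace MPdd5692

namespace QM

/-- link with `n` steps -/
def LN (adj : Site → Site → Prop) (S : Set Site) (x : Site) : ℕ → Site → Prop
  | 0, y => x ∈ S ∧ x = y
  | n + 1, y => ∃ u, LN adj S x n u ∧ (adj u y ∧ y ∈ S)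

lemma linked_iff (adj : Site → Site → Prop) (S : Set Site) (x y : Site) :
    Linked adj S x y ↔ ∃ n, LN adj S x n y := by
  constructor
  · rintro ⟨hx, h⟩
    induction h with
    | refl => exact ⟨0, hx, rfl⟩
    | tail _ hbc ih =>
      obtain ⟨n, hn⟩ := ih
      exact ⟨n + 1, _, hn, hbc⟩
  · rintro ⟨n, hn⟩
    induction n generalizing y with
    | zero =>
      obtain ⟨hx, rfl⟩ := hn
      exact ⟨hx, Relation.ReflTransGen.refl⟩
    | succ n ih =>
      obtain ⟨u, hu, h⟩ := hn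
      have h1 := ih u hu
      exact ⟨h1.1, h1.2.tail h⟩

lemma meas_linked {α : Type*} [MeasurableSpace α] (adj : Site → Site → Prop) (S : α → Set Site)
    (hS : ∀ z, MeasurableSet {η | z ∈ S η}) (x y : Site) :
    MeasurableSet {η | Linked adj (S η) x y} := by
  have h1 : ∀ n y, MeasurableSet {η | LN adj (S η) x n y} := by
    intro n
    induction n with
    | zero =>
      intro y
      exact (hS x).inter (MeasurableSet.const _)
    | succ n ih =>
      intro y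
      have h : {η | LN adj (S η) x (n+1) y} =
          ⋃ u, ({η | LN adj (S η) x n u} ∩ ({_η : α | adj u y} ∩ {η | y ∈ S η})) := by
        ext η
        simp only [LN, mem_ofPred_eq, mem_iUnion, mem_inter_iff]
      rw [h]
      exact MeasurableSet.iUnion fun u => (ih u).inter ((MeasurableSet.const _).inter (hS y))
  have h2 : {η | Linked adj (S η) x y} = ⋃ n, {η | LN adj (S η) x n y} := by
    ext η
    simp only [mem_ofPred_eq, mem_iUnion, linked_iff]
  rw [h2]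
  exact MeasurableSet.iUnion fun n => h1 n y

lemma meas_wired {α : Type*} [MeasurableSpace α] (adj : Site → Site → Prop) (S : α → Set Site)
    (hS : ∀ z, MeasurableSet {η | z ∈ S η}) (A B : Set Site) :
    MeasurableSet {η | Wired adj (S η) A B} := by
  have h : {η | Wired adj (S η) A B} =
      ⋃ a ∈ A, ⋃ b ∈ B, {η | Linked adj (S η ∪ A ∪ B) a b} := by
    ext η
    simp only [Wired, LinkedS, mem_ofPred_eq, mem_iUnion, exists_prop]
  rw [h]
  refine MeasurableSet.biUnion A.to_countable fun a _ =>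
    MeasurableSet.biUnion B.to_countable fun b _ => meas_linked adj _ (fun z => ?_) a b
  exact ((hS z).union (MeasurableSet.const _)).union (MeasurableSet.const _)

lemma meas_vac (ρ : ℝ) (z : Site) : MeasurableSet {η : Site → ℕ | z ∈ vacSites ρ (occ η)} := by
  have h : {η : Site → ℕ | z ∈ vacSites ρ (occ η)} =
      ⋂ v : Site, (fun η : Site → ℕ => η v) ⁻¹' {n : ℕ | n ≠ 0 → v - z ∉ offs ρ} := by
    ext η
    simp only [vacSites, occ, mem_ofPred_eq, mem_iInter, mem_preimage]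
  rw [h]
  exact MeasurableSet.iInter fun v => (measurable_pi_apply v) (Set.to_countable _).measurableSet

lemma meas_arm (ρ : ℝ) (q : ℕ) (z : Site) (a : ℕ) (z' : Site) (b : ℕ) :
    MeasurableSet {η : Site → ℕ | Arm ρ q (occ η) z a z' b} :=
  meas_wired Adj4 (fun η => vacSites ρ (occ η)) (fun z => meas_vac ρ z) _ _

lemma meas_UU (ρ : ℝ) (q : ℕ) (z : Site) (a b : ℕ) :
    MeasurableSet {η : Site → ℕ | UU ρ q (occ η) z a b} :=
  (meas_wired Adj8 (fun η => (vacSites ρ (occ η))ᶜ) (fun z => (meas_vac ρ z).compl) _ _).compl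

lemma wired_mono {adj : Site → Site → Prop} {S S' A B : Set Site} (h : S ⊆ S')
    (hw : Wired adj S A B) : Wired adj S' A B := by
  obtain ⟨a, ha, b, hb, hl⟩ := hw
  exact ⟨a, ha, b, hb, hl.mono (union_subset_union_left _ (union_subset_union_left _ h))⟩

lemma vac_anti {ρ : ℝ} {η η' : Site → ℕ} (h : η ≤ η') :
    vacSites ρ (occ η') ⊆ vacSites ρ (occ η) := by
  intro z hz v hv
  refine hz v ?_
  have h1 : η v ≠ 0 := hv
  have h2 : η v ≤ η' v := h v
  have h3 : η' v ≠ 0 := by omega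
  exact h3

lemma decr_arm (ρ : ℝ) (q : ℕ) (z : Site) (a : ℕ) (z' : Site) (b : ℕ) :
    DecrS {η : Site → ℕ | Arm ρ q (occ η) z a z' b} :=
  fun _ _ h h' => wired_mono (vac_anti h) h'

lemma decr_UU (ρ : ℝ) (q : ℕ) (z : Site) (a b : ℕ) :
    DecrS {η : Site → ℕ | UU ρ q (occ η) z a b} :=
  fun _ _ h h' h'' => h' (wired_mono (compl_subset_compl.mpr (vac_anti h)) h'')

lemma cbox_mono (q : ℕ) (z : Site) {a b : ℕ} (h : a ≤ b) : cbox q z a ⊆ cbox q z b := by
  intro x hx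
  have h1 : nrm (cidx q x - z) ≤ a := hx
  show nrm (cidx q x - z) ≤ b
  exact h1.trans (by exact_mod_cast h)

/-- gluing of two arms at a circuit -/
lemma glue (h2 : Stmt_CIRC) {ρ : ℝ} {q : ℕ} {S : Set Site} {a x b d : ℕ} (hq : 0 < q)
    (hax : a ≤ x) (hxb : x < b) (hbd : b ≤ d) (A1 : Arm ρ q S 0 a 0 b) (U1 : UU ρ q S 0 x b)
    (A2 : Arm ρ q S 0 x 0 d) : Arm ρ q S 0 a 0 d := by
  obtain ⟨hG, hconn, hcross⟩ := h2 ρ q S 0 x b hq hxb U1
  obtain ⟨p, hp, p', hp', hl⟩ := A1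
  obtain ⟨r, hr, r', hr', hl'⟩ := A2
  obtain ⟨⟨g, hg, hpg⟩, -⟩ := hcross _ p p' (cbox_mono q 0 hax hp) hp' hl
  obtain ⟨-, g', hg', hgr⟩ := hcross _ r r' hr (fun h => hr' (cbox_mono q 0 hbd h)) hl'
  refine ⟨p, hp, r', hr', ?_⟩
  have e1 : Linked Adj4 (vacSites ρ S ∪ cbox q 0 a ∪ (cbox q 0 d)ᶜ) p g := by
    refine hpg.mono ?_
    rintro u ⟨(hu | hu) | hu, hu'⟩
    · exact Or.inl (Or.inl hu)
    · exact Or.inl (Or.inr hu)
    · exact absurd hu' hu
  have e2 : Linked Adj4 (vacSites ρ S ∪ cbox q 0 a ∪ (cbox q 0 d)ᶜ) g g' :=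
    (hconn g hg g' hg').mono fun u hu => Or.inl (Or.inl (hG hu).1)
  have e3 : Linked Adj4 (vacSites ρ S ∪ cbox q 0 a ∪ (cbox q 0 d)ᶜ) g' r' := by
    refine hgr.mono ?_
    rintro u ⟨(hu | hu) | hu, hu'⟩
    · exact Or.inl (Or.inl hu)
    · exact absurd hu hu'
    · exact Or.inr hu
  exact (e1.trans e2).trans e3

instance (l : ℝ≥0) (j : ℕ) : IsProbabilityMeasure (stat l j) := by
  unfold stat; infer_instance

lemma alpha_nonneg (ρ : ℝ) (q : ℕ) (l : ℝ≥0) (j a b : ℕ) : 0 ≤ alpha ρ q l j a b :=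
  measureReal_nonneg

lemma alpha_le_one (ρ : ℝ) (q : ℕ) (l : ℝ≥0) (j a b : ℕ) : alpha ρ q l j a b ≤ 1 :=
  measureReal_le_one

lemma step (h1 : Stmt_HARRISN) (h2 : Stmt_CIRC) {c e : ℝ} {nmax : ℕ} {ρ : ℝ} {q : ℕ} {l : ℝ≥0}
    {j : ℕ} (h : StaticOK c e nmax ρ q l j) {a x b d : ℕ} (hax : a ≤ x) (hxb : x < b)
    (hbd : b ≤ d) (hr : 11 * (2 * x + 1) ≤ 10 * (2 * b + 1)) (hb : b ≤ nmax) :
    alpha ρ q l j a b * c * alpha ρ q l j x d ≤ alpha ρ q l j a d := by
  have hq : 0 < q := by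
    have h3 := h.short
    have h4 := h.ρ_pos
    have : (0:ℝ) < q := by linarith
    exact_mod_cast this
  obtain ⟨E, hE⟩ : ∃ E : Fin 3 → Set (Site → ℕ), E = ![{η | Arm ρ q (occ η) 0 a 0 b},
    {η | UU ρ q (occ η) 0 x b}, {η | Arm ρ q (occ η) 0 x 0 d}] := ⟨_, rfl⟩
  have hH := h1 Site (fun _ => l * (1 / 4) ^ j) (Fin 3) Finset.univ E
    (by
      intro k
      rw [hE]
      fin_cases k
      · exact meas_arm ρ q 0 a 0 b
      · exact meas_UU ρ q 0 x b
      · exact meas_arm ρ q 0 x 0 d)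
    (by
      intro k
      rw [hE]
      fin_cases k
      · exact decr_arm ρ q 0 a 0 b
      · exact decr_UU ρ q 0 x b
      · exact decr_arm ρ q 0 x 0 d)
  have hst : pois (fun _ : Site => l * (1 / 4) ^ j) = stat l j := rfl
  rw [hst, Fin.prod_univ_three] at hH
  have hsub : (⋂ k ∈ (Finset.univ : Finset (Fin 3)), E k) ⊆ {η | Arm ρ q (occ η) 0 a 0 d} := by
    intro η hη
    have hη' : ∀ k, η ∈ E k := by
      intro k
      have := mem_iInter₂.mp hη k (Finset.mem_univ k)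
      exact this
    have g0 := hη' 0
    have g1 := hη' 1
    have g2 := hη' 2
    rw [hE] at g0 g1 g2
    exact glue h2 hq hax hxb hbd g0 g1 g2
  have hle : (stat l j).real (⋂ k ∈ (Finset.univ : Finset (Fin 3)), E k) ≤ alpha ρ q l j a d :=
    measureReal_mono hsub
  have e0 : (stat l j).real (E 0) = alpha ρ q l j a b := by rw [hE]; rfl
  have e1 : c ≤ (stat l j).real (E 1) := by
    rw [hE]
    exact h.U_ge x b hr hb
  have e2 : (stat l j).real (E 2) = alpha ρ q l j x d := by rw [hE]; rfl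
  rw [e0, e2] at hH
  refine le_trans ?_ (hH.trans hle)
  refine mul_le_mul_of_nonneg_right ?_ (alpha_nonneg _ _ _ _ _ _)
  exact mul_le_mul_of_nonneg_left e1 (alpha_nonneg _ _ _ _ _ _)

lemma arm_const {c e : ℝ} {nmax : ℕ} {ρ : ℝ} {q : ℕ} {l : ℝ≥0}
    {j : ℕ} (h : StaticOK c e nmax ρ q l j) {x y : ℕ} (hxy : x ≤ y) (hy : y ≤ nmax)
    (hr : 2 * y + 1 ≤ 50 * (2 * x + 1)) : c / 50 ≤ alpha ρ q l j x y := by
  have h1 := h.arm_ge x y hxy hy
  have hc := h.c_pos
  have he := h.e_pos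
  have hx0 : (0:ℝ) < 2 * (x:ℝ) + 1 := by positivity
  have hy0 : (0:ℝ) < 2 * (y:ℝ) + 1 := by positivity
  have hr' : 2 * (y:ℝ) + 1 ≤ 50 * (2 * (x:ℝ) + 1) := by exact_mod_cast hr
  have hxy' : (x:ℝ) ≤ y := by exact_mod_cast hxy
  have t0 : 0 < (2 * (x:ℝ) + 1) / (2 * y + 1) := div_pos hx0 hy0
  have t1 : (2 * (x:ℝ) + 1) / (2 * y + 1) ≤ 1 := by
    rw [div_le_one hy0]; linarith
  have t2 : 1 / 50 ≤ (2 * (x:ℝ) + 1) / (2 * y + 1) := by
    rw [div_le_div_iff₀ (by norm_num) hy0]; linarith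
  have t3 := Real.rpow_le_rpow_of_exponent_ge t0 t1 (show 1 - e ≤ 1 by linarith)
  rw [Real.rpow_one] at t3
  have t4 : 1 / 50 ≤ ((2 * (x:ℝ) + 1) / (2 * y + 1)) ^ (1 - e) := t2.trans t3
  have t5 : c * (1 / 50) ≤ c * ((2 * (x:ℝ) + 1) / (2 * y + 1)) ^ (1 - e) :=
    mul_le_mul_of_nonneg_left t4 hc.le
  calc c / 50 = c * (1 / 50) := by ring
    _ ≤ _ := t5.trans h1

lemma c_le_one {c e : ℝ} {nmax : ℕ} {ρ : ℝ} {q : ℕ} {l : ℝ≥0}
    {j : ℕ} (h : StaticOK c e nmax ρ q l j) : c ≤ 1 := by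
  have h1 := h.arm_ge 0 0 le_rfl (Nat.zero_le _)
  have h2 : (2 * ((0:ℕ) : ℝ) + 1) / (2 * ((0:ℕ) : ℝ) + 1) = 1 := by norm_num
  rw [h2, Real.one_rpow, mul_one] at h1
  exact h1.trans (alpha_le_one _ _ _ _ _ _)

end QM

open QM in
theorem stmt_QM (h1 : Stmt_HARRISN) (h2 : Stmt_CIRC) : Stmt_QM := by
  intro c e hc
  refine ⟨50 / c ^ 3, by positivity, ?_⟩
  intro nmax ρ q l j h a b b' d ha hab hbb hb20 hbd hd
  have hc1 := c_le_one h
  obtain ⟨y, hy1, hy2, hy3, hy4⟩ : ∃ y : ℕ, b' < y ∧ y ≤ d ∧ 20 * y ≤ 22 * b' + 20 ∧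
      (y = d ∨ 11 * (2 * b' + 1) ≤ 10 * (2 * y + 1)) := by
    rcases Nat.lt_or_ge (20 * d) (22 * b' + 1) with h3 | h3
    · exact ⟨d, hbd, le_rfl, by omega, Or.inl rfl⟩
    · exact ⟨(22 * b' + 20) / 20, by omega, by omega, by omega, Or.inr (by omega)⟩
  -- first part
  have c1 : c ^ 2 / 50 * alpha ρ q l j a b ≤ alpha ρ q l j a y := by
    have n1 := alpha_nonneg ρ q l j a b
    have n2 := alpha_le_one ρ q l j a b
    rcases Nat.lt_or_ge (20 * b) (22 * a + 1) with h3 | h3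
    · have h4 : c / 50 ≤ alpha ρ q l j a y := arm_const h (by omega) (by omega) (by omega)
      refine le_trans ?_ h4
      have h5 : c ^ 2 ≤ c := by nlinarith
      calc c ^ 2 / 50 * alpha ρ q l j a b ≤ c ^ 2 / 50 * 1 :=
            mul_le_mul_of_nonneg_left n2 (by positivity)
        _ ≤ c / 50 := by linarith
    · obtain ⟨x, hx⟩ : ∃ x : ℕ, x = (20 * b - 1) / 22 := ⟨_, rfl⟩
      have h4 : c / 50 ≤ alpha ρ q l j x y := arm_const h (by omega) (by omega) (by omega)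
      have h5 := step h1 h2 h (a := a) (x := x) (b := b) (d := y) (by omega) (by omega) (by omega)
        (by omega) (by omega)
      refine le_trans ?_ h5
      calc c ^ 2 / 50 * alpha ρ q l j a b = alpha ρ q l j a b * c * (c / 50) := by ring
        _ ≤ alpha ρ q l j a b * c * alpha ρ q l j x y :=
            mul_le_mul_of_nonneg_left h4 (mul_nonneg n1 hc.le)
  have c2 : alpha ρ q l j a y * c * alpha ρ q l j b' d ≤ alpha ρ q l j a d := by
    rcases hy4 with rfl | h3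
    · have n1 := alpha_nonneg ρ q l j a y
      have n2 := alpha_le_one ρ q l j b' y
      have n3 := alpha_nonneg ρ q l j b' y
      calc alpha ρ q l j a y * c * alpha ρ q l j b' y ≤ alpha ρ q l j a y * c * 1 :=
            mul_le_mul_of_nonneg_left n2 (mul_nonneg n1 hc.le)
        _ = alpha ρ q l j a y * c := by ring
        _ ≤ alpha ρ q l j a y * 1 := mul_le_mul_of_nonneg_left hc1 n1
        _ = _ := mul_one _
    · exact step h1 h2 h (a := a) (x := b') (b := y) (d := d) (by omega) (by omega) hy2 h3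
        (by omega)
  have n3 := alpha_nonneg ρ q l j b' d
  have c3 : c ^ 3 / 50 * (alpha ρ q l j a b * alpha ρ q l j b' d) ≤ alpha ρ q l j a d := by
    calc c ^ 3 / 50 * (alpha ρ q l j a b * alpha ρ q l j b' d)
        = (c ^ 2 / 50 * alpha ρ q l j a b) * (c * alpha ρ q l j b' d) := by ring
      _ ≤ alpha ρ q l j a y * (c * alpha ρ q l j b' d) :=
          mul_le_mul_of_nonneg_right c1 (mul_nonneg hc.le n3)
      _ = alpha ρ q l j a y * c * alpha ρ q l j b' d := by ring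
      _ ≤ _ := c2
  have hpos : 0 < c ^ 3 / 50 := by positivity
  have e1 : 50 / c ^ 3 * alpha ρ q l j a d = alpha ρ q l j a d / (c ^ 3 / 50) := by
    field_simp
  rw [e1, le_div_iff₀ hpos, mul_comm]
  exact c3

end MPdd5692
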