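import Pool.Agent.Work.MP_dd5692_pr.InterfaceC
import Pool.Agent.Work.MP_dd5692_pr.Link98

/-!
# MP_dd5692_pr: block RDET (helper96)
-/

open MeasureTheory ProbabilityTheory Set
open scoped ENNReal NNReal BigOperators

namespace MPdd5692

namespace RDET

/-- the combination of the two arms through the circuit -/
theorem arm (h1 : Stmt_CIRC) {ρ : ℝ} {q : ℕ} {S : Set Site} {z b : Site} {l n : ℕ} (hq : 0 < q)
    (hl : 1 ≤ l) (hb : b ∈ box z l) (hn : cbox q z (2 * l) ⊆ cbox q 0 n)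
    (hU : UU ρ q S z l (2 * l)) (hA : Arm ρ q S b 0 z (2 * l)) (hB : Arm ρ q S z l 0 n) :
    Arm ρ q S b 0 0 n := by
  obtain ⟨c1, c2, c3⟩ := h1 ρ q S z l (2 * l) hq (by omega) hU
  have hb' : cbox q b 0 ⊆ cbox q z l := by
    intro x hx
    have h2 : nrm (cidx q x - b) ≤ 0 := hx
    have h3 : cidx q x = b := by
      unfold nrm at h2
      have h4 := le_trans (le_max_left _ _) h2
      have h5 := le_trans (le_max_right _ _) h2
      rw [abs_nonpos_iff] at h4 h5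
      have h6 : cidx q x - b = 0 := Prod.ext h4 h5
      exact sub_eq_zero.1 h6
    show cidx q x ∈ box z l
    rw [h3]; exact hb
  have hzl : cbox q z l ⊆ cbox q z (2 * l) := by
    intro x hx
    have h2 : nrm (cidx q x - z) ≤ l := hx
    show nrm (cidx q x - z) ≤ ((2 * l : ℕ) : ℤ)
    push_cast; omega
  -- the first arm
  obtain ⟨x, hx, y, hy, hxy⟩ := hA
  obtain ⟨⟨g, hg, hxg⟩, -⟩ := c3 _ x y (hb' hx) hy hxy
  have hg2 : Linked Adj4 (vacSites ρ S ∪ cbox q b 0 ∪ (cbox q 0 n)ᶜ) x g := by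
    refine hxg.mono ?_
    rintro w ⟨(hw | hw), hw2⟩
    · exact Or.inl hw
    · exact absurd hw2 hw
  -- the second arm
  obtain ⟨x2, hx2, y2, hy2, hxy2⟩ := hB
  have hy2z : y2 ∉ cbox q z (2 * l) := fun h => hy2 (hn h)
  obtain ⟨-, ⟨g', hg', hgy⟩⟩ := c3 _ x2 y2 hx2 hy2z hxy2
  have hg2' : Linked Adj4 (vacSites ρ S ∪ cbox q b 0 ∪ (cbox q 0 n)ᶜ) g' y2 := by
    refine hgy.mono ?_
    rintro w ⟨((hw | hw) | hw), hw2⟩
    · exact Or.inl (Or.inl hw)
    · exact absurd hw hw2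
    · exact Or.inr hw
  -- the circuit
  have hc : Linked Adj4 (vacSites ρ S ∪ cbox q b 0 ∪ (cbox q 0 n)ᶜ) g g' :=
    (c2 g hg g' hg').mono (fun w hw => Or.inl (Or.inl (c1 hw).1))
  exact ⟨x, hx, y2, hy2, (hg2.trans hc).trans hg2'⟩

end RDET

open RDET in
theorem stmt_RDET (h1 : Stmt_CIRC) : Stmt_RDET := by
  intro q H _ ρ K ω m m' l z hK hl hz hT hU hU'
  obtain ⟨⟨u1, u2, b, hb, hhole, a1, a2⟩, b1, b2⟩ := hT
  have hq : 0 < q := Nat.pos_of_ne_zero (NeZero.ne q)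
  have e1 : 2 * K * l = 2 * (K * l) := by ring
  rw [e1] at b1 b2
  have hKl : ((K * l : ℕ) : ℤ) = (K : ℤ) * l := by push_cast; ring
  have hKl8 : 8 * (l : ℤ) ≤ (K : ℤ) * l := by
    have : (8 : ℤ) ≤ K := by exact_mod_cast hK
    have h0 : (0 : ℤ) ≤ l := by positivity
    nlinarith
  have htri : ∀ x : Site, nrm x ≤ nrm (x - z) + nrm z := by
    intro x
    unfold nrm
    have h1 : |x.1| ≤ |(x - z).1| + |z.1| := by
      have : x.1 = (x - z).1 + z.1 := by simp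
      calc |x.1| = |(x - z).1 + z.1| := by rw [← this]
        _ ≤ _ := abs_add_le _ _
    have h2 : |x.2| ≤ |(x - z).2| + |z.2| := by
      have : x.2 = (x - z).2 + z.2 := by simp
      calc |x.2| = |(x - z).2 + z.2| := by rw [← this]
        _ ≤ _ := abs_add_le _ _
    apply max_le
    · exact h1.trans (add_le_add (le_max_left _ _) (le_max_left _ _))
    · exact h2.trans (add_le_add (le_max_right _ _) (le_max_right _ _))
  have hn : cbox q z (2 * l) ⊆ cbox q 0 (2 * (K * l)) := by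
    intro x hx
    have h2 : nrm (cidx q x - z) ≤ ((2 * l : ℕ) : ℤ) := hx
    show nrm (cidx q x - 0) ≤ ((2 * (K * l) : ℕ) : ℤ)
    rw [sub_zero]
    have h3 := htri (cidx q x)
    push_cast at h2 ⊢
    have : 2 * nrm (cidx q x) ≤ 4 * ((K : ℤ) * l) := by nlinarith
    omega
  refine ⟨hU, hU', b, ?_, hhole, arm h1 hq hl hb hn u1 a1 b1, arm h1 hq hl hb hn u2 a2 b2⟩
  have h2 : nrm (b - z) ≤ (l : ℤ) := hb
  show nrm (b - 0) ≤ ((K * l : ℕ) : ℤ)
  rw [sub_zero, hKl]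
  have h3 := htri b
  have : 2 * nrm b ≤ 2 * ((K : ℤ) * l) := by nlinarith
  omega

end MPdd5692
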