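import Pool.Agent.Work.MP_dd5692_pr.InterfaceC
import Pool.Agent.Work.MP_dd5692_pr.MEAS

/-!
# MP_dd5692_pr: block REC (helper61): one step of the recursion of 3A, second moment method
-/

open MeasureTheory ProbabilityTheory Set
open scoped ENNReal NNReal BigOperators

namespace MPdd5692
namespace REC

/-- second moment inequality (Cauchy-Schwarz with a free parameter) -/
lemma second_moment {Ω : Type*} [MeasurableSpace Ω] (P : Measure Ω) [IsProbabilityMeasure P]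
    {ι : Type*} (s : Finset ι) (E : ι → Set Ω) (hE : ∀ i, MeasurableSet (E i)) (t : ℝ) :
    2 * t * ∑ i ∈ s, P.real (E i) - ∑ i ∈ s, ∑ j ∈ s, P.real (E i ∩ E j)
      ≤ t ^ 2 * P.real (⋃ i ∈ s, E i) := by
  classical
  have hG : MeasurableSet (⋃ i ∈ s, E i) := Finset.measurableSet_biUnion s fun i _ => hE i
  have h1 : ∀ i, P.real (E i) = ∫ ω, (E i).indicator (fun _ => (1 : ℝ)) ω ∂P := by
    intro i
    rw [integral_indicator (hE i)]
    simp
  have h2 : ∀ i j, P.real (E i ∩ E j) = ∫ ω, (E i).indicator (fun _ => (1 : ℝ)) ω *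
      (E j).indicator (fun _ => (1 : ℝ)) ω ∂P := by
    intro i j
    have : (fun ω => (E i).indicator (fun _ => (1 : ℝ)) ω * (E j).indicator (fun _ => (1 : ℝ)) ω)
        = (E i ∩ E j).indicator (fun _ => (1 : ℝ)) := by
      funext ω
      by_cases hi : ω ∈ E i <;> by_cases hj : ω ∈ E j <;> simp [hi, hj]
    rw [this, integral_indicator ((hE i).inter (hE j))]
    simp
  have h3 : P.real (⋃ i ∈ s, E i) =
      ∫ ω, (⋃ i ∈ s, E i).indicator (fun _ => (1 : ℝ)) ω ∂P := by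
    rw [integral_indicator hG]
    simp
  have i1 : ∀ i, Integrable (fun ω => (E i).indicator (fun _ => (1 : ℝ)) ω) P := fun i =>
    (integrable_const (1 : ℝ)).indicator (hE i)
  have i2 : ∀ i j, Integrable (fun ω => (E i).indicator (fun _ => (1 : ℝ)) ω *
      (E j).indicator (fun _ => (1 : ℝ)) ω) P := by
    intro i j
    have : (fun ω => (E i).indicator (fun _ => (1 : ℝ)) ω * (E j).indicator (fun _ => (1 : ℝ)) ω)
        = (E i ∩ E j).indicator (fun _ => (1 : ℝ)) := by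
      funext ω
      by_cases hi : ω ∈ E i <;> by_cases hj : ω ∈ E j <;> simp [hi, hj]
    rw [this]
    exact (integrable_const (1 : ℝ)).indicator ((hE i).inter (hE j))
  have i3 : Integrable (fun ω => (⋃ i ∈ s, E i).indicator (fun _ => (1 : ℝ)) ω) P :=
    (integrable_const (1 : ℝ)).indicator hG
  have e1 : 2 * t * ∑ i ∈ s, P.real (E i) =
      ∫ ω, 2 * t * ∑ i ∈ s, (E i).indicator (fun _ => (1 : ℝ)) ω ∂P := by
    rw [integral_const_mul, integral_finsetSum s (fun i _ => i1 i)]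
    congr 1
    exact Finset.sum_congr rfl fun i _ => h1 i
  have e2 : ∑ i ∈ s, ∑ j ∈ s, P.real (E i ∩ E j) =
      ∫ ω, ∑ i ∈ s, ∑ j ∈ s, (E i).indicator (fun _ => (1 : ℝ)) ω *
        (E j).indicator (fun _ => (1 : ℝ)) ω ∂P := by
    rw [integral_finsetSum s (fun i _ => integrable_finsetSum s fun j _ => i2 i j)]
    refine Finset.sum_congr rfl fun i _ => ?_
    rw [integral_finsetSum s (fun j _ => i2 i j)]
    exact Finset.sum_congr rfl fun j _ => h2 i j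
  have e3 : t ^ 2 * P.real (⋃ i ∈ s, E i) =
      ∫ ω, t ^ 2 * (⋃ i ∈ s, E i).indicator (fun _ => (1 : ℝ)) ω ∂P := by
    rw [integral_const_mul, h3]
  have j1 : Integrable (fun ω => 2 * t * ∑ i ∈ s, (E i).indicator (fun _ => (1 : ℝ)) ω) P :=
    (integrable_finsetSum s fun i _ => i1 i).const_mul _
  have j2 : Integrable (fun ω => ∑ i ∈ s, ∑ j ∈ s, (E i).indicator (fun _ => (1 : ℝ)) ω *
        (E j).indicator (fun _ => (1 : ℝ)) ω) P :=
    integrable_finsetSum s fun i _ => integrable_finsetSum s fun j _ => i2 i j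
  rw [e1, e2, e3, ← integral_sub j1 j2]
  refine integral_mono (j1.sub j2) (i3.const_mul _) ?_
  intro ω
  have hs : ∑ i ∈ s, ∑ j ∈ s, (E i).indicator (fun _ => (1 : ℝ)) ω *
        (E j).indicator (fun _ => (1 : ℝ)) ω =
      (∑ i ∈ s, (E i).indicator (fun _ => (1 : ℝ)) ω) ^ 2 := by
    rw [sq, Finset.sum_mul_sum]
  show 2 * t * ∑ i ∈ s, (E i).indicator (fun _ => (1 : ℝ)) ω -
      ∑ i ∈ s, ∑ j ∈ s, (E i).indicator (fun _ => (1 : ℝ)) ω *
        (E j).indicator (fun _ => (1 : ℝ)) ω ≤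
      t ^ 2 * (⋃ i ∈ s, E i).indicator (fun _ => (1 : ℝ)) ω
  rw [hs]
  by_cases hω : ω ∈ ⋃ i ∈ s, E i
  · rw [indicator_of_mem hω]
    nlinarith [sq_nonneg (t - ∑ i ∈ s, (E i).indicator (fun _ => (1 : ℝ)) ω)]
  · have h0 : ∑ i ∈ s, (E i).indicator (fun _ => (1 : ℝ)) ω = 0 := by
      refine Finset.sum_eq_zero fun i hi => ?_
      refine indicator_of_notMem ?_ _
      intro hh
      exact hω (mem_biUnion (Finset.mem_coe.2 hi) hh)
    rw [indicator_of_notMem hω, h0]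
    simp

/-- the second moment method -/
lemma second_moment' {Ω : Type*} [MeasurableSpace Ω] (P : Measure Ω) [IsProbabilityMeasure P]
    {ι : Type*} (s : Finset ι) (E : ι → Set Ω) (hE : ∀ i, MeasurableSet (E i)) (X B : ℝ)
    (hX : 0 < X) (hB : 0 < B) (h1 : X ≤ ∑ i ∈ s, P.real (E i))
    (h2 : ∑ i ∈ s, ∑ j ∈ s, P.real (E i ∩ E j) ≤ B) :
    X ^ 2 / B ≤ P.real (⋃ i ∈ s, E i) := by
  have h := second_moment P s E hE (B / X)
  have ht : 0 < B / X := div_pos hB hX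
  have h3 : 2 * (B / X) * X ≤ 2 * (B / X) * ∑ i ∈ s, P.real (E i) :=
    mul_le_mul_of_nonneg_left h1 (by positivity)
  have h4 : 2 * (B / X) * X = 2 * B := by
    field_simp
  have h5 : B ≤ (B / X) ^ 2 * P.real (⋃ i ∈ s, E i) := by linarith
  rw [div_le_iff₀ hB]
  have h6 : (B / X) ^ 2 * (X ^ 2 / B) = B := by
    field_simp
  have h7 : X ^ 2 / B * B ≤ X ^ 2 / B * ((B / X) ^ 2 * P.real (⋃ i ∈ s, E i)) :=
    mul_le_mul_of_nonneg_left h5 (by positivity)
  have h8 : X ^ 2 / B * ((B / X) ^ 2 * P.real (⋃ i ∈ s, E i)) =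
      B * P.real (⋃ i ∈ s, E i) := by
    field_simp
  have h9 : X ^ 2 / B * B = X ^ 2 := by
    field_simp
  linarith

/-- grid points -/
def gz (l : ℕ) (x : Site) : Site := (10 * (l : ℤ) * x.1, 10 * (l : ℤ) * x.2)

lemma nrm_gz (l : ℕ) (x : Site) : nrm (gz l x) = 10 * (l : ℤ) * nrm x := by
  have h : (0 : ℤ) ≤ 10 * (l : ℤ) := by positivity
  simp only [nrm, gz, abs_mul, mul_max_of_nonneg _ _ h]
  simp

lemma gz_sub (l : ℕ) (x y : Site) : gz l x - gz l y = gz l (x - y) := by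
  ext <;> simp [gz] <;> ring

lemma nrm_nonneg (x : Site) : 0 ≤ nrm x := le_max_of_le_left (abs_nonneg _)

lemma nrm_pos {x : Site} (h : x ≠ 0) : 1 ≤ nrm x := by
  by_contra hn
  have h0 : nrm x ≤ 0 := by omega
  have h1 : |x.1| ≤ 0 := (le_max_left _ _).trans h0
  have h2 : |x.2| ≤ 0 := (le_max_right _ _).trans h0
  apply h
  ext
  · simpa using abs_nonpos_iff.1 h1
  · simpa using abs_nonpos_iff.1 h2

/-- the box of grid indices -/
noncomputable def bx (k : ℕ) : Finset Site := Finset.Icc (-(k : ℤ)) k ×ˢ Finset.Icc (-(k : ℤ)) k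

lemma mem_bx {k : ℕ} {x : Site} : x ∈ bx k ↔ nrm x ≤ k := by
  simp only [bx, Finset.mem_product, Finset.mem_Icc, nrm, max_le_iff, abs_le]

lemma card_bx (k : ℕ) : (bx k).card = (2 * k + 1) ^ 2 := by
  rw [bx, Finset.card_product, Int.card_Icc, sq]
  congr 1 <;> omega

/-- the sum over the second grid point -/
lemma sum_pairs {e C : ℝ} (he : e < 1) (hC : ∀ K : ℕ, 40 ≤ K → 20 ∣ K →
    ∑ x ∈ Finset.Icc (-(K / 10 : ℤ)) (K / 10) ×ˢ Finset.Icc (-(K / 10 : ℤ)) (K / 10),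
      (if x = 0 then 0 else ((K : ℝ) / (10 * (nrm x : ℝ))) ^ (2 - 2 * e)) ≤ C * (K : ℝ) ^ 2)
    (k : ℕ) (hk : 2 ≤ k) (x : Site) (hx : x ∈ bx k) :
    ∑ y ∈ bx k, (if x = y then 0 else
      (((20 * k : ℕ) : ℝ) / (10 * (nrm (x - y) : ℝ))) ^ (2 - 2 * e)) ≤
      4 * C * ((20 * k : ℕ) : ℝ) ^ 2 := by
  classical
  have h := hC (20 * (2 * k)) (by omega) (Dvd.intro _ rfl)
  have hb : Finset.Icc (-(((20 * (2 * k) : ℕ) : ℤ) / 10 : ℤ)) (((20 * (2 * k) : ℕ) : ℤ) / 10) ×ˢ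
      Finset.Icc (-(((20 * (2 * k) : ℕ) : ℤ) / 10 : ℤ)) (((20 * (2 * k) : ℕ) : ℤ) / 10) =
      bx (4 * k) := by
    have h1 : (((20 * (2 * k) : ℕ) : ℤ) / 10 : ℤ) = ((4 * k : ℕ) : ℤ) := by
      push_cast
      omega
    rw [h1, bx]
  rw [hb] at h
  set g : Site → ℝ := fun d => if d = 0 then 0 else
    (((20 * (2 * k) : ℕ) : ℝ) / (10 * (nrm d : ℝ))) ^ (2 - 2 * e) with hg
  have hg0 : ∀ d, 0 ≤ g d := by
    intro d
    simp only [hg]
    split_ifs
    · exact le_refl _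
    · refine Real.rpow_nonneg ?_ _
      have : (0 : ℝ) ≤ (nrm d : ℝ) := by exact_mod_cast nrm_nonneg d
      positivity
  have h1 : ∑ y ∈ bx k, (if x = y then 0 else
      (((20 * k : ℕ) : ℝ) / (10 * (nrm (x - y) : ℝ))) ^ (2 - 2 * e)) ≤
      ∑ y ∈ bx k, g (x - y) := by
    refine Finset.sum_le_sum fun y _ => ?_
    by_cases hxy : x = y
    · rw [if_pos hxy]
      exact hg0 _
    · rw [if_neg hxy]
      simp only [hg]
      rw [if_neg (sub_ne_zero.2 hxy)]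
      have hn : (1 : ℝ) ≤ (nrm (x - y) : ℝ) := by
        exact_mod_cast nrm_pos (sub_ne_zero.2 hxy)
      refine Real.rpow_le_rpow (by positivity) ?_ (by linarith)
      refine div_le_div_of_nonneg_right ?_ (by positivity)
      push_cast
      have : (0 : ℝ) ≤ (k : ℝ) := Nat.cast_nonneg k
      linarith
  have h2 : ∑ y ∈ bx k, g (x - y) = ∑ d ∈ (bx k).image (fun y => x - y), g d := by
    rw [Finset.sum_image]
    intro a _ b _ hab
    exact sub_right_injective hab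
  have h3 : ∑ d ∈ (bx k).image (fun y => x - y), g d ≤ ∑ d ∈ bx (4 * k), g d := by
    refine Finset.sum_le_sum_of_subset_of_nonneg ?_ fun d _ _ => hg0 d
    intro d hd
    obtain ⟨y, hy, rfl⟩ := Finset.mem_image.1 hd
    simp only [bx, Finset.mem_product, Finset.mem_Icc] at hx hy ⊢
    simp only [Prod.fst_sub, Prod.snd_sub]
    push_cast
    refine ⟨⟨?_, ?_⟩, ⟨?_, ?_⟩⟩ <;> omega
  refine h1.trans (h2.le.trans (h3.trans (h.trans (le_of_eq ?_))))
  push_cast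
  ring

/-- the arm probability between the scales `l` and `3 K l` -/
lemma al_ge {c e I δ Λ : ℝ} {nmax : ℕ} (E : Env c e I δ Λ nmax) (hc : 0 < c) (he : 0 < e)
    (he1 : e < 1) (K l : ℕ) (hK : 1 ≤ K) (hl : 1 ≤ l) (hn : 3 * K * l ≤ nmax) :
    c ^ 2 * (K : ℝ) ^ (2 * e) / (9 * (K : ℝ) ^ 2) ≤ (E.al l (3 * K * l)) ^ 2 ∧
      0 < E.al l (3 * K * l) := by
  have hK' : (1 : ℝ) ≤ (K : ℝ) := by exact_mod_cast hK
  have hl' : (1 : ℝ) ≤ (l : ℝ) := by exact_mod_cast hl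
  have hle : l ≤ 3 * K * l := by nlinarith
  have h := E.ok.arm_ge l (3 * K * l) hle hn
  have hr : 1 / (3 * (K : ℝ)) ≤ (2 * (l : ℝ) + 1) / (2 * ((3 * K * l : ℕ) : ℝ) + 1) := by
    rw [div_le_div_iff₀ (by positivity) (by positivity)]
    push_cast
    nlinarith
  have h1 : (1 / (3 * (K : ℝ))) ^ (1 - e) ≤
      ((2 * (l : ℝ) + 1) / (2 * ((3 * K * l : ℕ) : ℝ) + 1)) ^ (1 - e) :=
    Real.rpow_le_rpow (by positivity) hr (by linarith)
  have h2 : c * (1 / (3 * (K : ℝ))) ^ (1 - e) ≤ E.al l (3 * K * l) :=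
    (mul_le_mul_of_nonneg_left h1 hc.le).trans h
  have hp : 0 < c * (1 / (3 * (K : ℝ))) ^ (1 - e) :=
    mul_pos hc (Real.rpow_pos_of_pos (by positivity) _)
  refine ⟨?_, hp.trans_le h2⟩
  have h3 : (c * (1 / (3 * (K : ℝ))) ^ (1 - e)) ^ 2 ≤ (E.al l (3 * K * l)) ^ 2 :=
    pow_le_pow_left₀ hp.le h2 2
  refine le_trans ?_ h3
  have h4 : (1 / (3 * (K : ℝ))) ^ (1 - e) * (1 / (3 * (K : ℝ))) ^ (1 - e) =
      (3 * (K : ℝ)) ^ (2 * e) / (3 * (K : ℝ)) ^ 2 := by
    have hpos : (0 : ℝ) < 3 * (K : ℝ) := by positivity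
    rw [one_div, Real.inv_rpow hpos.le, ← Real.rpow_neg hpos.le, ← Real.rpow_add hpos,
      ← Real.rpow_natCast (3 * (K : ℝ)) 2, ← Real.rpow_sub hpos]
    congr 1
    push_cast
    ring
  have h5 : (K : ℝ) ^ (2 * e) ≤ (3 * (K : ℝ)) ^ (2 * e) :=
    Real.rpow_le_rpow (by positivity) (by linarith) (by linarith)
  calc c ^ 2 * (K : ℝ) ^ (2 * e) / (9 * (K : ℝ) ^ 2)
      ≤ c ^ 2 * (3 * (K : ℝ)) ^ (2 * e) / (9 * (K : ℝ) ^ 2) := by
        refine div_le_div_of_nonneg_right ?_ (by positivity)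
        exact mul_le_mul_of_nonneg_left h5 (by positivity)
    _ = c ^ 2 * ((3 * (K : ℝ)) ^ (2 * e) / (3 * (K : ℝ)) ^ 2) := by
        rw [mul_div_assoc]
        congr 2
        ring
    _ = (c * (1 / (3 * (K : ℝ))) ^ (1 - e)) ^ 2 := by
        rw [← h4]
        ring

/-- choice of `K` -/
lemma exists_K {e : ℝ} (he : 0 < e) (B : ℝ) (hB : 0 < B) :
    ∃ k : ℕ, 2 ≤ k ∧ B ≤ ((20 * k : ℕ) : ℝ) ^ (2 * e) := by
  obtain ⟨n, hn⟩ := exists_nat_ge (B ^ (1 / (2 * e)))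
  refine ⟨n + 2, by omega, ?_⟩
  have h1 : B ^ (1 / (2 * e)) ≤ ((20 * (n + 2) : ℕ) : ℝ) := by
    refine hn.trans ?_
    push_cast
    have : (0 : ℝ) ≤ (n : ℝ) := Nat.cast_nonneg n
    linarith
  have h2 : (B ^ (1 / (2 * e))) ^ (2 * e) ≤ ((20 * (n + 2) : ℕ) : ℝ) ^ (2 * e) :=
    Real.rpow_le_rpow (Real.rpow_nonneg hB.le _) h1 (by linarith)
  rwa [← Real.rpow_mul hB.le, one_div, inv_mul_cancel₀ (by positivity), Real.rpow_one] at h2

instance {c e I δ Λ : ℝ} {nmax : ℕ} (E : Env c e I δ Λ nmax) : IsProbabilityMeasure E.P := by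
  unfold Env.P MarkLaw.PP
  infer_instance

lemma armDec_mono {c e I δ Λ : ℝ} {nmax : ℕ} (E : Env c e I δ Λ nmax) {κ κ' : ℝ} (h : κ ≤ κ')
    {R a0 : ℕ} (hE : E.ArmDec κ R a0) : E.ArmDec κ' R a0 := by
  intro m m' h1 h2 h3 z a b h4 h5 h6 h7
  exact (hE m m' h1 h2 h3 z a b h4 h5 h6 h7).trans (by linarith)

lemma two_meas (h2 : Stmt_MEAS) (q H : ℕ) [NeZero q] (ρ : ℝ) (K m m' : ℕ) (z : Site) (l : ℕ) :
    MeasurableSet {ω : Conf q H | TwoE ρ K ω m m' z l} ∧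
      Decr {ω : Conf q H | TwoE ρ K ω m m' z l} := by
  have hL := (h2 q H ρ m m' z 0 l 0).2.2.2.1
  have hA := (h2 q H ρ m m' z 0 l (2 * K * l)).1
  have hA' := (h2 q H ρ m' m z 0 l (2 * K * l)).1
  refine ⟨hL.1.inter (hA.1.inter hA'.1), ?_⟩
  intro ω ω' h hE
  exact ⟨hL.2 ω ω' h hE.1, hA.2 ω ω' h hE.2.1, hA'.2 ω ω' h hE.2.2⟩

/-- the final arithmetic -/
lemma final_arith {c q X C1 C4 D PG PL Kp : ℝ} (hc : 0 < c) (hq : 0 < q) (hX : 0 < X)
    (hC1 : 0 < C1) (hC4 : 0 < C4) (hD : D = C1 + C4) (hPG : X ^ 2 / (C1 * X + C4 * X ^ 2) ≤ PG)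
    (hPL : c ^ 2 * PG ≤ PL) (hXq : q * (c ^ 2 * Kp / 900) ≤ X) (hK : 1800 * D / c ^ 4 ≤ Kp) :
    min (c ^ 2 / D) (2 * q) ≤ PL := by
  have hDp : 0 < D := by rw [hD]; positivity
  rcases le_total X 1 with h1 | h1
  · refine (min_le_right _ _).trans ?_
    have e1 : X / D ≤ PG := by
      refine le_trans ?_ hPG
      rw [div_le_div_iff₀ hDp (by positivity), hD]
      have : X * (C1 * X + C4 * X ^ 2) = X ^ 2 * (C1 + C4 * X) := by ring
      rw [this]
      refine mul_le_mul_of_nonneg_left ?_ (by positivity)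
      nlinarith
    have e2 : c ^ 2 * (X / D) ≤ PL := (mul_le_mul_of_nonneg_left e1 (by positivity)).trans hPL
    refine le_trans ?_ e2
    have e3 : 1800 * D ≤ Kp * c ^ 4 := by
      rwa [div_le_iff₀ (by positivity)] at hK
    have e4 : q * (c ^ 2 * Kp / 900) / D ≤ X / D := div_le_div_of_nonneg_right hXq hDp.le
    have e5 : 2 * q ≤ c ^ 2 * (q * (c ^ 2 * Kp / 900) / D) := by
      have : c ^ 2 * (q * (c ^ 2 * Kp / 900) / D) = q * (Kp * c ^ 4) / (900 * D) := by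
        field_simp
      rw [this, le_div_iff₀ (by positivity)]
      nlinarith
    exact e5.trans (mul_le_mul_of_nonneg_left e4 (by positivity))
  · refine (min_le_left _ _).trans ?_
    have e1 : 1 / D ≤ PG := by
      refine le_trans ?_ hPG
      rw [div_le_div_iff₀ hDp (by positivity), hD]
      nlinarith [mul_nonneg (mul_pos hC1 hX).le (sub_nonneg.2 h1)]
    have e2 : c ^ 2 * (1 / D) ≤ PL := (mul_le_mul_of_nonneg_left e1 (by positivity)).trans hPL
    refine le_trans (le_of_eq ?_) e2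
    ring

end REC

theorem stmt_REC (h1 : Stmt_HARRISN) (h2 : Stmt_MEAS) (h3 : Stmt_STATIC) (h4 : Stmt_RDET)
    (h5 : Stmt_RLOW) (h6 : Stmt_RUP1) (h7 : Stmt_RUP2) (h8 : Stmt_RSUM) : Stmt_REC := by
  classical
  intro c e hc he he1
  obtain ⟨C1, hC1, H1⟩ := h6 c e hc he he1
  obtain ⟨C2, hC2, H2⟩ := h7 c e hc he he1
  obtain ⟨C3, hC3, H3⟩ := h8 e he he1
  have hDpos : 0 < C1 + 400 * C2 * C3 := by positivity
  obtain ⟨k, hk, hKB⟩ := REC.exists_K he (1800 * (C1 + 400 * C2 * C3) / c ^ 4) (by positivity)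
  obtain ⟨κ1, hκ1, H1⟩ := H1 (20 * k) (by omega)
  obtain ⟨κ2, hκ2, H2⟩ := H2 (20 * k) (by omega)
  refine ⟨20 * k, c ^ 2 / (C1 + 400 * C2 * C3), min κ1 κ2, by omega, ⟨2 * k, by ring⟩,
    by positivity, lt_min hκ1 hκ2, ?_⟩
  intro I Λ N
  obtain ⟨R1, H1⟩ := H1 I Λ N
  obtain ⟨R2, H2⟩ := H2 I Λ N
  refine ⟨max (max R1 R2) 1, ?_⟩
  intro δ nmax E m m' l hA hmm hmH hmN hl hn hq
  have hl1 : 1 ≤ l := (le_max_right _ _).trans hl
  have hlR1 : R1 ≤ l := ((le_max_left _ _).trans (le_max_left _ _)).trans hl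
  have hlR2 : R2 ≤ l := ((le_max_right _ _).trans (le_max_left _ _)).trans hl
  have hA1 := REC.armDec_mono E (min_le_left κ1 κ2) hA
  have hA2 := REC.armDec_mono E (min_le_right κ1 κ2) hA
  set q : ℝ := E.P.real {ω | LamE E.ρ ω m m' 0 l} with hqdef
  set A : ℝ := E.al l (3 * (20 * k) * l) with hAdef
  have hqpos : 0 < q := by
    have : (0 : ℝ) < 1 / (l : ℝ) ^ 9 := by
      have : (0 : ℝ) < (l : ℝ) := by exact_mod_cast hl1
      positivity
    exact this.trans_le hq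
  have hn3 : 3 * (20 * k) * l ≤ nmax := by
    refine le_trans ?_ hn
    nlinarith
  obtain ⟨hAge, hApos⟩ := REC.al_ge E hc he he1 (20 * k) l (by omega) hl1 hn3
  rw [← hAdef] at hAge hApos
  -- the events
  let Ev : Site → Set (Conf E.q E.H) := fun x => {ω | TwoE E.ρ (20 * k) ω m m' (REC.gz l x) l}
  have hEv : ∀ x, MeasurableSet (Ev x) := fun x =>
    (REC.two_meas h2 E.q E.H E.ρ (20 * k) m m' (REC.gz l x) l).1
  have hEvD : ∀ x, Decr (Ev x) := fun x =>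
    (REC.two_meas h2 E.q E.H E.ρ (20 * k) m m' (REC.gz l x) l).2
  have hgz : ∀ x ∈ REC.bx k, 2 * nrm (REC.gz l x) ≤ ((20 * k : ℕ) : ℤ) * l := by
    intro x hx
    rw [REC.mem_bx] at hx
    rw [REC.nrm_gz]
    push_cast
    nlinarith [hx, (Nat.cast_nonneg l : (0 : ℤ) ≤ (l : ℤ))]
  have hlow : ∀ x ∈ REC.bx k, q * A ^ 2 ≤ E.P.real (Ev x) := fun x hx =>
    h5 c e I δ Λ nmax E (20 * k) m m' l (REC.gz l x) (by omega) hl1 hmm hmH (hgz x hx)
  have hup : ∀ x ∈ REC.bx k, E.P.real (Ev x) ≤ C1 * q * A ^ 2 := fun x hx =>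
    H1 δ nmax E m m' l (REC.gz l x) hA1 hmm hmH hmN hlR1 hn (hgz x hx) hq
  have hup2 : ∀ x ∈ REC.bx k, ∀ y ∈ REC.bx k, x ≠ y → E.P.real (Ev x ∩ Ev y) ≤
      C2 * q ^ 2 * A ^ 4 *
        (((20 * k : ℕ) : ℝ) / (10 * (nrm (x - y) : ℝ))) ^ (2 - 2 * e) := by
    intro x hx y hy hxy
    have hn1 := REC.nrm_pos (sub_ne_zero.2 hxy)
    have hd : 10 * (l : ℤ) ≤ nrm (REC.gz l x - REC.gz l y) := by
      rw [REC.gz_sub, REC.nrm_gz]
      nlinarith [(Nat.cast_nonneg l : (0 : ℤ) ≤ (l : ℤ))]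
    have h := H2 δ nmax E m m' l (REC.gz l x) (REC.gz l y) hA2 hmm hmH hmN hlR2 hn (hgz x hx)
      (hgz y hy) hd hq
    refine h.trans (le_of_eq ?_)
    congr 2
    rw [REC.gz_sub, REC.nrm_gz]
    have hlr : (0 : ℝ) < (l : ℝ) := by exact_mod_cast hl1
    have hnr : (0 : ℝ) < (nrm (x - y) : ℝ) := by
      have : (1 : ℝ) ≤ (nrm (x - y) : ℝ) := by exact_mod_cast hn1
      linarith
    push_cast
    field_simp
  -- first and second moment
  set M : ℝ := ((REC.bx k).card : ℝ) with hM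
  have hMv : M = (2 * (k : ℝ) + 1) ^ 2 := by
    rw [hM, REC.card_bx]
    push_cast
    ring
  have hMpos : 0 < M := by rw [hMv]; positivity
  set X : ℝ := M * (q * A ^ 2) with hX
  have hXpos : 0 < X := by positivity
  have hs1 : X ≤ ∑ x ∈ REC.bx k, E.P.real (Ev x) := by
    have := Finset.card_nsmul_le_sum (REC.bx k) (fun x => E.P.real (Ev x)) (q * A ^ 2) hlow
    rwa [nsmul_eq_mul] at this
  have hs2 : ∑ x ∈ REC.bx k, ∑ y ∈ REC.bx k, E.P.real (Ev x ∩ Ev y) ≤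
      C1 * X + 400 * C2 * C3 * X ^ 2 := by
    have hrow : ∀ x ∈ REC.bx k, ∑ y ∈ REC.bx k, E.P.real (Ev x ∩ Ev y) ≤
        C1 * q * A ^ 2 + C2 * q ^ 2 * A ^ 4 * (4 * C3 * ((20 * k : ℕ) : ℝ) ^ 2) := by
      intro x hx
      have hb : ∀ y ∈ REC.bx k, E.P.real (Ev x ∩ Ev y) ≤
          (if x = y then C1 * q * A ^ 2 else 0) + C2 * q ^ 2 * A ^ 4 * (if x = y then 0 else
            (((20 * k : ℕ) : ℝ) / (10 * (nrm (x - y) : ℝ))) ^ (2 - 2 * e)) := by
        intro y hy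
        by_cases hxy : x = y
        · subst hxy
          rw [if_pos rfl, if_pos rfl, inter_self]
          have := hup x hx
          linarith
        · rw [if_neg hxy, if_neg hxy, zero_add]
          exact hup2 x hx y hy hxy
      refine (Finset.sum_le_sum hb).trans ?_
      rw [Finset.sum_add_distrib, ← Finset.mul_sum, Finset.sum_ite_eq, if_pos hx]
      have hsp := REC.sum_pairs he1 H3 k hk x hx
      have hco : 0 ≤ C2 * q ^ 2 * A ^ 4 := by positivity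
      linarith [mul_le_mul_of_nonneg_left hsp hco]
    refine (Finset.sum_le_sum hrow).trans ?_
    rw [Finset.sum_const, nsmul_eq_mul, ← hM]
    have hK2 : ((20 * k : ℕ) : ℝ) ^ 2 ≤ 100 * M := by
      rw [hMv]
      push_cast
      nlinarith [(Nat.cast_nonneg k : (0 : ℝ) ≤ (k : ℝ))]
    have hco : 0 ≤ M * (C2 * q ^ 2 * A ^ 4 * (4 * C3)) := by positivity
    have := mul_le_mul_of_nonneg_left hK2 hco
    rw [hX]
    nlinarith [this]
  have hB : 0 < C1 * X + 400 * C2 * C3 * X ^ 2 := by positivity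
  have hPG := REC.second_moment' E.P (REC.bx k) Ev hEv X _ hXpos hB hs1 hs2
  -- Harris
  set G : Set (Conf E.q E.H) := ⋃ x ∈ REC.bx k, Ev x with hG
  have hGm : MeasurableSet G := Finset.measurableSet_biUnion _ fun x _ => hEv x
  have hGD : Decr G := by
    intro ω ω' h hE
    simp only [hG, mem_iUnion] at hE ⊢
    obtain ⟨x, hx, hE⟩ := hE
    exact ⟨x, hx, hEvD x ω ω' h hE⟩
  let U : ℕ → Set (Conf E.q E.H) := fun t =>
    {ω | UU E.ρ E.q (et ω t) 0 (20 * k * l) (2 * (20 * k * l))}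
  have hUm : ∀ t, MeasurableSet (U t) ∧ Decr (U t) := fun t =>
    (h2 E.q E.H E.ρ t t 0 0 (20 * k * l) (2 * (20 * k * l))).2.1
  have hUc : ∀ t, t ≤ E.H → c ≤ E.P.real (U t) := by
    intro t ht
    have hs := (h3 E.q E.H E.j δ Λ E.L E.lam t ht
      (fun S => UU E.ρ E.q S 0 (20 * k * l) (2 * (20 * k * l)))
      (h2 E.q E.H E.ρ t t 0 0 (20 * k * l) (2 * (20 * k * l))).2.2.2.2.2.1).2
    have hu := E.ok.U_ge (20 * k * l) (2 * (20 * k * l)) (by nlinarith)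
      (by refine le_trans ?_ hn; nlinarith)
    calc c ≤ _ := hu
      _ = E.P.real (U t) := hs.symm
  have hH := h1 (FMark E.q E.H) (fun θ => E.lam * E.L.fine θ) (Fin 3) Finset.univ
    (fun i => if i = 0 then G else if i = 1 then U m else U m')
    (by
      intro i
      split_ifs
      · exact hGm
      · exact (hUm m).1
      · exact (hUm m').1)
    (by
      intro i
      split_ifs
      · exact hGD
      · exact (hUm m).2
      · exact (hUm m').2)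
  have hH' : E.P.real G * E.P.real (U m) * E.P.real (U m') ≤
      E.P.real {ω | LamE E.ρ ω m m' 0 (20 * k * l)} := by
    have e1 : ∏ i ∈ (Finset.univ : Finset (Fin 3)),
        (pois (fun θ => E.lam * E.L.fine θ)).real
          ((fun i : Fin 3 => if i = 0 then G else if i = 1 then U m else U m') i) =
        E.P.real G * E.P.real (U m) * E.P.real (U m') := by
      rw [Fin.prod_univ_three]
      rfl
    rw [← e1]
    refine hH.trans ?_
    show E.P.real _ ≤ _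
    refine measureReal_mono ?_ (measure_ne_top _ _)
    intro ω hω
    simp only [Finset.mem_univ, iInter_true, mem_iInter] at hω
    have w0 : ω ∈ G := by simpa using hω 0
    have w1 : ω ∈ U m := by simpa using hω 1
    have w2 : ω ∈ U m' := by simpa using hω 2
    simp only [hG, mem_iUnion] at w0
    obtain ⟨x, hx, hE⟩ := w0
    exact h4 E.q E.H E.ρ (20 * k) ω m m' l (REC.gz l x) (by omega) hl1 (hgz x hx) hE w1 w2
  have hPL : c ^ 2 * E.P.real G ≤ E.P.real {ω | LamE E.ρ ω m m' 0 (20 * k * l)} := by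
    refine le_trans ?_ hH'
    have u1 := hUc m (by omega)
    have u2 := hUc m' hmH
    have g0 : 0 ≤ E.P.real G := measureReal_nonneg
    have : c * c ≤ E.P.real (U m) * E.P.real (U m') := mul_le_mul u1 u2 hc.le (hc.le.trans u1)
    nlinarith [mul_le_mul_of_nonneg_left this g0]
  refine REC.final_arith hc hqpos hXpos hC1 (by positivity : 0 < 400 * C2 * C3) rfl hPG hPL ?_ hKB
  -- lower bound for `X`
  have hKpos : (0 : ℝ) < ((20 * k : ℕ) : ℝ) := by
    have : 0 < 20 * k := by omega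
    exact_mod_cast this
  have hK2 : ((20 * k : ℕ) : ℝ) ^ 2 ≤ 100 * M := by
    rw [hMv]
    push_cast
    nlinarith [(Nat.cast_nonneg k : (0 : ℝ) ≤ (k : ℝ))]
  have hfin : c ^ 2 * ((20 * k : ℕ) : ℝ) ^ (2 * e) / 900 ≤ M * A ^ 2 := by
    have e1 : c ^ 2 * ((20 * k : ℕ) : ℝ) ^ (2 * e) / 900 =
        (((20 * k : ℕ) : ℝ) ^ 2 / 100) *
          (c ^ 2 * ((20 * k : ℕ) : ℝ) ^ (2 * e) / (9 * ((20 * k : ℕ) : ℝ) ^ 2)) := by
      field_simp
      norm_num
    rw [e1]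
    refine mul_le_mul ?_ hAge ?_ hMpos.le
    · linarith
    · have : 0 ≤ ((20 * k : ℕ) : ℝ) ^ (2 * e) := Real.rpow_nonneg hKpos.le _
      positivity
  rw [hX]
  nlinarith [mul_le_mul_of_nonneg_left hfin hqpos.le]

end MPdd5692
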