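import Pool.Agent.Work.MP_dd5692_pr.InterfaceC

/-!
# MP_dd5692_pr, block RLOW (helper29): first moment of 3A (Harris).
-/

open MeasureTheory ProbabilityTheory Set
open scoped ENNReal NNReal BigOperators

namespace MPdd5692

namespace RLOW

lemma countable_cmark (q H : ℕ) : Countable (CMark q H) := by
  let f : CMark q H → (Fin (H + 1) → Site) × (Fin H → Bool) × (Fin H → ℕ) ×
      (Fin (H + 1) → Fin q × Fin q) := fun ξ => (ξ.c, ξ.g, ξ.b, ξ.r)
  have hf : Function.Injective f := by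
    rintro ⟨c, g, b, r⟩ ⟨c', g', b', r'⟩ h
    simp only [f, Prod.mk.injEq] at h
    obtain ⟨rfl, rfl, rfl, rfl⟩ := h
    rfl
  exact hf.countable

lemma countable_fmark (q H : ℕ) : Countable (FMark q H) := by
  have := countable_cmark q H
  infer_instance

lemma wired_mono {adj : Site → Site → Prop} {S A B B' : Set Site} (hB : B ⊆ B')
    (h : Wired adj S A B) : Wired adj S A B' := by
  obtain ⟨a, ha, b, hb, hab⟩ := h
  refine ⟨a, ha, b, hB hb, ?_⟩
  have hS : S ∪ A ∪ B ⊆ S ∪ A ∪ B' := Set.union_subset_union_right _ hB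
  exact ⟨hS hab.1, Relation.ReflTransGen.mono (fun _ _ h => ⟨h.1, hS h.2⟩) _ _ hab.2⟩

lemma nrm_add (x y : Site) : nrm (x + y) ≤ nrm x + nrm y := by
  unfold nrm
  have h1 := abs_add_le x.1 y.1
  have h2 := abs_add_le x.2 y.2
  have a1 := le_max_left |x.1| |x.2|
  have a2 := le_max_right |x.1| |x.2|
  have b1 := le_max_left |y.1| |y.2|
  have b2 := le_max_right |y.1| |y.2|
  refine max_le ?_ ?_
  · show |x.1 + y.1| ≤ _; omega
  · show |x.2 + y.2| ≤ _; omega

lemma nrm_neg (x : Site) : nrm (-x) = nrm x := by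
  unfold nrm
  show max |-x.1| |-x.2| = _
  rw [abs_neg, abs_neg]

lemma arm_incl {ρ : ℝ} {q : ℕ} {S : Set Site} {z : Site} {K l : ℕ} (hz : 2 * nrm z ≤ K * l)
    (h : Arm ρ q S z l z (3 * K * l)) : Arm ρ q S z l 0 (2 * K * l) := by
  refine wired_mono ?_ h
  refine Set.compl_subset_compl.2 ?_
  intro x hx
  have hx' : nrm (cidx q x - 0) ≤ ((2 * K * l : ℕ) : ℤ) := hx
  show nrm (cidx q x - z) ≤ ((3 * K * l : ℕ) : ℤ)
  have h1 := nrm_add (cidx q x) (-z)
  rw [nrm_neg] at h1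
  rw [sub_zero] at hx'
  rw [sub_eq_add_neg]
  push_cast at hx' ⊢
  nlinarith

end RLOW

open RLOW in
theorem stmt_RLOW (h1 : Stmt_HARRISN) (h2 : Stmt_MEAS) (h3 : Stmt_STATIC) (h4 : Stmt_TRANS) :
    Stmt_RLOW := by
  intro c e I δ Λ nmax E K m m' l z hK hl hmm hm' hz
  have := countable_fmark E.q E.H
  obtain ⟨ht1, -, ht3, ht4⟩ := h4 E.q E.H _ δ Λ E.L E.lam z
  let P := E.P
  have hP : P = pois (fun θ => E.lam * E.L.fine θ) := rfl
  have hprob : IsProbabilityMeasure E.P := by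
    show IsProbabilityMeasure P
    rw [hP]; infer_instance
  -- probability of one arm
  have harm : ∀ k : ℕ, k ≤ E.H →
      E.al l (3 * K * l) ≤ E.P.real {ω | Arm E.ρ E.q (et ω k) z l 0 (2 * K * l)} := by
    intro k hk
    obtain ⟨-, hst⟩ := h3 E.q E.H E.j δ Λ E.L E.lam k hk
      (fun S => Arm E.ρ E.q S 0 l 0 (3 * K * l)) (h2 E.q E.H E.ρ k k 0 0 l (3 * K * l)).2.2.2.2.1
    have e1 : E.al l (3 * K * l) = E.P.real {ω | Arm E.ρ E.q (et ω k) 0 l 0 (3 * K * l)} := hst.symm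
    have hms : MeasurableSet {ω : Conf E.q E.H | Arm E.ρ E.q (et ω k) 0 l 0 (3 * K * l)} :=
      (h2 E.q E.H E.ρ k k 0 0 l (3 * K * l)).1.1
    have hsh : Measurable (shiftC (q := E.q) (H := E.H) z) :=
      measurable_pi_lambda _ fun _ => measurable_pi_apply _
    have e2 : E.P.real {ω | Arm E.ρ E.q (et ω k) 0 l 0 (3 * K * l)}
        = E.P.real {ω | Arm E.ρ E.q (et ω k) z l z (3 * K * l)} := by
      have ht : E.P.map (shiftC z) = E.P := ht1
      conv_lhs => rw [← ht]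
      rw [map_measureReal_apply hsh hms]
      congr 1
      ext ω
      have := (ht4 E.ρ ω k 0 0 l (3 * K * l)).1
      rw [zero_add] at this
      exact this
    rw [e1, e2]
    exact measureReal_mono (fun ω hω => arm_incl hz hω)
  have hlam : E.P.real {ω | LamE E.ρ ω m m' 0 l} = E.P.real {ω | LamE E.ρ ω m m' z l} := by
    have hms : MeasurableSet {ω : Conf E.q E.H | LamE E.ρ ω m m' 0 l} :=
      (h2 E.q E.H E.ρ m m' 0 0 l l).2.2.2.1.1
    have hsh : Measurable (shiftC (q := E.q) (H := E.H) z) :=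
      measurable_pi_lambda _ fun _ => measurable_pi_apply _
    have ht : E.P.map (shiftC z) = E.P := ht1
    conv_lhs => rw [← ht]
    rw [map_measureReal_apply hsh hms]
    congr 1
    ext ω
    have := ht3 E.ρ ω m m' 0 l
    rw [zero_add] at this
    exact this
  -- the three events
  let F : Fin 3 → Set (Conf E.q E.H) := ![{ω | LamE E.ρ ω m m' z l},
    {ω | Arm E.ρ E.q (et ω m) z l 0 (2 * K * l)}, {ω | Arm E.ρ E.q (et ω m') z l 0 (2 * K * l)}]
  have hF : ∀ k, MeasurableSet (F k) ∧ DecrS (F k) := by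
    intro k
    fin_cases k
    · exact (h2 E.q E.H E.ρ m m' z 0 l l).2.2.2.1
    · exact (h2 E.q E.H E.ρ m m' z 0 l (2 * K * l)).1
    · exact (h2 E.q E.H E.ρ m' m' z 0 l (2 * K * l)).1
  have hH := h1 (FMark E.q E.H) (fun θ => E.lam * E.L.fine θ) (Fin 3) Finset.univ F
    (fun k => (hF k).1) (fun k => (hF k).2)
  rw [← hP] at hH
  have hprod : ∏ k ∈ (Finset.univ : Finset (Fin 3)), P.real (F k)
      = P.real {ω | LamE E.ρ ω m m' z l} * P.real {ω | Arm E.ρ E.q (et ω m) z l 0 (2 * K * l)}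
        * P.real {ω | Arm E.ρ E.q (et ω m') z l 0 (2 * K * l)} := by
    rw [Fin.prod_univ_three]; rfl
  have hint : (⋂ k ∈ (Finset.univ : Finset (Fin 3)), F k) = {ω | TwoE E.ρ K ω m m' z l} := by
    ext ω
    simp only [Finset.mem_univ, Set.iInter_true, Set.mem_iInter]
    constructor
    · intro h
      exact ⟨h 0, h 1, h 2⟩
    · rintro ⟨a, b, c⟩ k
      fin_cases k
      · exact a
      · exact b
      · exact c
  rw [hprod, hint] at hH
  have a1 := harm m (hmm.le.trans hm')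
  have a2 := harm m' hm'
  have a0 : 0 ≤ E.al l (3 * K * l) := measureReal_nonneg
  have b0 : 0 ≤ P.real {ω | LamE E.ρ ω m m' z l} := measureReal_nonneg
  have hfin : E.P.real {ω | LamE E.ρ ω m m' 0 l} * (E.al l (3 * K * l)) ^ 2
      ≤ P.real {ω | LamE E.ρ ω m m' z l} * P.real {ω | Arm E.ρ E.q (et ω m) z l 0 (2 * K * l)}
        * P.real {ω | Arm E.ρ E.q (et ω m') z l 0 (2 * K * l)} := by
    rw [hlam, pow_two, mul_assoc (P.real {ω | LamE E.ρ ω m m' z l})]
    refine mul_le_mul_of_nonneg_left ?_ b0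
    exact mul_le_mul a1 a2 a0 measureReal_nonneg
  exact hfin.trans hH

end MPdd5692
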