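import Mathlib
import Pool.Agent.Work.MP_dd5692_pr.InterfaceC

/-!
# MP_dd5692_pr: block RSUM (helper64)
-/

open MeasureTheory ProbabilityTheory Set
open scoped ENNReal NNReal BigOperators

namespace MPdd5692

namespace RSUM

/-- `(n+1)^(e-1) ≤ ((n+1)^e - n^e)/e` -/
theorem tele (e : ℝ) (he0 : 0 < e) (he1 : e < 1) (n : ℕ) :
    ((n : ℝ) + 1) ^ (e - 1) ≤ (((n : ℝ) + 1) ^ e - (n : ℝ) ^ e) / e := by
  have hn : (0:ℝ) < (n : ℝ) + 1 := by positivity
  have h1 : (1 + -(1 / ((n : ℝ) + 1))) ^ e ≤ 1 + e * -(1 / ((n : ℝ) + 1)) := by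
    refine rpow_one_add_le_one_add_mul_self ?_ he0.le he1.le
    have : 1 / ((n : ℝ) + 1) ≤ 1 := by
      rw [div_le_one hn]
      have : (0:ℝ) ≤ n := n.cast_nonneg
      linarith
    linarith
  have h2 : (n : ℝ) ^ e = ((n : ℝ) + 1) ^ e * (1 + -(1 / ((n : ℝ) + 1))) ^ e := by
    rw [← Real.mul_rpow hn.le]
    · congr 1
      field_simp
      ring
    · have : (1 + -(1 / ((n : ℝ) + 1))) = (n : ℝ) / ((n : ℝ) + 1) := by
        field_simp
        ring
      rw [this]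
      positivity
  have h3 : ((n : ℝ) + 1) ^ (e - 1) = ((n : ℝ) + 1) ^ e * (1 / ((n : ℝ) + 1)) := by
    rw [Real.rpow_sub_one hn.ne']
    ring
  rw [le_div_iff₀ he0, h2, h3]
  have h4 : 0 ≤ ((n : ℝ) + 1) ^ e := Real.rpow_nonneg hn.le _
  nlinarith [mul_le_mul_of_nonneg_left h1 h4]

theorem sum_line (e : ℝ) (he0 : 0 < e) (he1 : e < 1) (n : ℕ) :
    ∑ t ∈ Finset.Icc (-(n : ℤ)) n, ((max |t| 1 : ℤ) : ℝ) ^ (e - 1) ≤ 1 + 2 * ((n : ℝ) ^ e / e) := by
  induction n with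
  | zero =>
    have h0 : Finset.Icc (-((0:ℕ) : ℤ)) ((0:ℕ) : ℤ) = {0} := by simp
    rw [h0, Finset.sum_singleton]
    have h1 : ((max |(0:ℤ)| 1 : ℤ) : ℝ) = 1 := by norm_num
    rw [h1, Real.one_rpow]
    have : 0 ≤ (((0:ℕ) : ℝ)) ^ e / e := div_nonneg (Real.rpow_nonneg (Nat.cast_nonneg _) _) he0.le
    linarith
  | succ n ih =>
    have hset : Finset.Icc (-((n + 1 : ℕ) : ℤ)) ((n + 1 : ℕ) : ℤ) =
        insert ((n : ℤ) + 1) (insert (-((n : ℤ) + 1)) (Finset.Icc (-(n : ℤ)) n)) := by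
      ext t
      simp only [Finset.mem_Icc, Finset.mem_insert, Nat.cast_add, Nat.cast_one]
      omega
    rw [hset, Finset.sum_insert, Finset.sum_insert]
    · have h1 : ((max |(n : ℤ) + 1| 1 : ℤ) : ℝ) = (n : ℝ) + 1 := by
        have : (max |(n : ℤ) + 1| 1 : ℤ) = (n : ℤ) + 1 := by
          rw [abs_of_nonneg (by omega)]
          exact max_eq_left (by omega)
        rw [this]
        push_cast
        ring
      have h2 : ((max |-((n : ℤ) + 1)| 1 : ℤ) : ℝ) = (n : ℝ) + 1 := by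
        rw [abs_neg]
        exact h1
      rw [h1, h2]
      have h3 := tele e he0 he1 n
      have h4 : (((n + 1 : ℕ) : ℝ)) ^ e / e = (n : ℝ) ^ e / e +
          (((n : ℝ) + 1) ^ e - (n : ℝ) ^ e) / e := by
        push_cast
        ring
      rw [h4]
      linarith
    · simp only [Finset.mem_Icc]
      omega
    · simp only [Finset.mem_Icc, Finset.mem_insert]
      omega

theorem term (e : ℝ) (he0 : 0 < e) (he1 : e < 1) (K : ℕ) (x : Site) (hx : x ≠ 0) :
    ((K : ℝ) / (10 * (nrm x : ℝ))) ^ (2 - 2 * e) ≤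
      (K : ℝ) ^ (2 - 2 * e) *
        (((max |x.1| 1 : ℤ) : ℝ) ^ (e - 1) * ((max |x.2| 1 : ℤ) : ℝ) ^ (e - 1)) := by
  set u : ℝ := ((max |x.1| 1 : ℤ) : ℝ) with hu
  set v : ℝ := ((max |x.2| 1 : ℤ) : ℝ) with hv
  set N : ℝ := (nrm x : ℝ) with hN
  have hx' : x.1 ≠ 0 ∨ x.2 ≠ 0 := by
    by_contra h
    push Not at h
    exact hx (Prod.ext h.1 h.2)
  have h1N : (1:ℤ) ≤ nrm x := by
    unfold nrm
    rcases hx' with h | h
    · exact le_max_of_le_left (Int.one_le_abs h)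
    · exact le_max_of_le_right (Int.one_le_abs h)
  have huN : u ≤ N := by
    rw [hu, hN]
    exact_mod_cast max_le (le_max_left _ _) h1N
  have hvN : v ≤ N := by
    rw [hv, hN]
    exact_mod_cast max_le (le_max_right _ _) h1N
  have hu1 : 1 ≤ u := by
    rw [hu]
    exact_mod_cast le_max_right _ _
  have hv1 : 1 ≤ v := by
    rw [hv]
    exact_mod_cast le_max_right _ _
  have hN1 : 1 ≤ N := hu1.trans huN
  have hN0 : 0 < N := by linarith
  have hK : (0:ℝ) ≤ K := K.cast_nonneg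
  have h2e : 0 ≤ 2 - 2 * e := by linarith
  calc ((K : ℝ) / (10 * N)) ^ (2 - 2 * e) ≤ ((K : ℝ) / N) ^ (2 - 2 * e) := by
        apply Real.rpow_le_rpow (by positivity) _ h2e
        apply div_le_div_of_nonneg_left hK hN0
        linarith
    _ = (K : ℝ) ^ (2 - 2 * e) * (N ^ (e - 1) * N ^ (e - 1)) := by
        rw [Real.div_rpow hK hN0.le, ← Real.rpow_add hN0, div_eq_mul_inv, ← Real.rpow_neg hN0.le]
        congr 2
        ring
    _ ≤ (K : ℝ) ^ (2 - 2 * e) * (u ^ (e - 1) * v ^ (e - 1)) := by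
        apply mul_le_mul_of_nonneg_left _ (Real.rpow_nonneg hK _)
        apply mul_le_mul
        · exact Real.rpow_le_rpow_of_nonpos (by linarith) huN (by linarith)
        · exact Real.rpow_le_rpow_of_nonpos (by linarith) hvN (by linarith)
        · exact Real.rpow_nonneg hN0.le _
        · exact Real.rpow_nonneg (by linarith) _

end RSUM

theorem stmt_RSUM : Stmt_RSUM := by
  intro e he0 he1
  refine ⟨9 / e ^ 2, by positivity, ?_⟩
  intro K hK hdvd
  set n : ℕ := K / 10 with hn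
  have hKn : ((K : ℤ) / 10) = (n : ℤ) := by
    rw [hn]
    exact_mod_cast rfl
  rw [hKn]
  have hn2 : 1 ≤ n := by omega
  have hnK : n ≤ K := by omega
  have hKR : (0:ℝ) < K := by
    have : 0 < K := by omega
    exact_mod_cast this
  have hnR : (1:ℝ) ≤ n := by exact_mod_cast hn2
  have hnKR : (n : ℝ) ≤ K := by exact_mod_cast hnK
  set S : ℝ := ∑ t ∈ Finset.Icc (-(n : ℤ)) n, ((max |t| 1 : ℤ) : ℝ) ^ (e - 1) with hS
  have hS0 : 0 ≤ S := by
    rw [hS]
    refine Finset.sum_nonneg fun t _ => Real.rpow_nonneg ?_ _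
    have : (0:ℤ) ≤ max |t| 1 := le_max_of_le_right zero_le_one
    exact_mod_cast this
  have hS1 : S ≤ 3 * ((n : ℝ) ^ e / e) := by
    have h1 := RSUM.sum_line e he0 he1 n
    have h2 : 1 ≤ (n : ℝ) ^ e / e := by
      rw [le_div_iff₀ he0]
      have h3 : 1 ≤ (n : ℝ) ^ e := Real.one_le_rpow hnR he0.le
      linarith
    linarith
  calc ∑ x ∈ Finset.Icc (-(n : ℤ)) n ×ˢ Finset.Icc (-(n : ℤ)) n,
        (if x = 0 then 0 else ((K : ℝ) / (10 * (nrm x : ℝ))) ^ (2 - 2 * e))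
      ≤ ∑ x ∈ Finset.Icc (-(n : ℤ)) n ×ˢ Finset.Icc (-(n : ℤ)) n, (K : ℝ) ^ (2 - 2 * e) *
        (((max |x.1| 1 : ℤ) : ℝ) ^ (e - 1) * ((max |x.2| 1 : ℤ) : ℝ) ^ (e - 1)) := by
        refine Finset.sum_le_sum fun x _ => ?_
        split_ifs with hx
        · have h1 : (0:ℝ) ≤ ((max |x.1| 1 : ℤ) : ℝ) := by
            have : (0:ℤ) ≤ max |x.1| 1 := le_max_of_le_right zero_le_one
            exact_mod_cast this
          have h2 : (0:ℝ) ≤ ((max |x.2| 1 : ℤ) : ℝ) := by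
            have : (0:ℤ) ≤ max |x.2| 1 := le_max_of_le_right zero_le_one
            exact_mod_cast this
          have h3 := Real.rpow_nonneg h1 (e - 1)
          have h4 := Real.rpow_nonneg h2 (e - 1)
          have h5 := Real.rpow_nonneg hKR.le (2 - 2 * e)
          exact mul_nonneg h5 (mul_nonneg h3 h4)
        · exact RSUM.term e he0 he1 K x hx
    _ = (K : ℝ) ^ (2 - 2 * e) * (S * S) := by
        rw [← Finset.mul_sum, Finset.sum_product, hS, Finset.sum_mul_sum]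
    _ ≤ (K : ℝ) ^ (2 - 2 * e) * ((3 * ((n : ℝ) ^ e / e)) * (3 * ((n : ℝ) ^ e / e))) := by
        apply mul_le_mul_of_nonneg_left _ (Real.rpow_nonneg hKR.le _)
        exact mul_self_le_mul_self hS0 hS1
    _ ≤ (K : ℝ) ^ (2 - 2 * e) * ((3 * ((K : ℝ) ^ e / e)) * (3 * ((K : ℝ) ^ e / e))) := by
        apply mul_le_mul_of_nonneg_left _ (Real.rpow_nonneg hKR.le _)
        apply mul_self_le_mul_self (by positivity)
        apply mul_le_mul_of_nonneg_left _ (by norm_num)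
        exact div_le_div_of_nonneg_right
          (Real.rpow_le_rpow (by positivity) hnKR he0.le) he0.le
    _ = 9 / e ^ 2 * ((K : ℝ) ^ (2 - 2 * e) * ((K : ℝ) ^ e * (K : ℝ) ^ e)) := by
        field_simp
        ring
    _ = 9 / e ^ 2 * (K : ℝ) ^ 2 := by
        congr 1
        rw [← Real.rpow_add hKR, ← Real.rpow_add hKR]
        have : 2 - 2 * e + (e + e) = ((2:ℕ) : ℝ) := by push_cast; ring
        rw [this, Real.rpow_natCast]

end MPdd5692
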