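import Mathlib
import Pool.Agent.Work.MP_dd5692_pr.LocLib42

/-!
# MP_dd5692_pr: RUP1 (helper42): the diagonal terms of the second moment
-/

open MeasureTheory ProbabilityTheory Set
open scoped ENNReal NNReal BigOperators

namespace MPdd5692
namespace RUP1
open LocLib

variable {q H : ℕ}

theorem isProb_PP {a δ Λ : ℝ} (L : MarkLaw q H a δ Λ) (lam : ℝ≥0) :
    IsProbabilityMeasure (L.PP lam) := by
  unfold MarkLaw.PP; infer_instance

/-- arms at two times, from `cbox z a` to the outside of `cbox z b` -/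
def Arms2 (ρ : ℝ) (ω : Conf q H) (m m' : ℕ) (z : Site) (a b : ℕ) : Prop :=
  Arm ρ q (et ω m) z a z b ∧ Arm ρ q (et ω m') z a z b

theorem TwoE_sub {ρ : ℝ} {K : ℕ} {ω : Conf q H} {m m' : ℕ} {z : Site} {l : ℕ}
    (hz : 2 * nrm z ≤ K * l) (h : TwoE ρ K ω m m' z l) :
    LamE ρ ω m m' z l ∧ Arms2 ρ ω m m' z (3 * l) (K * l) := by
  obtain ⟨h1, h2, h3⟩ := h
  have e1 : nrm (z - z) + (l : ℤ) ≤ ((3 * l : ℕ) : ℤ) := by
    rw [sub_self, nrm_zero]; push_cast; omega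
  have e2 : nrm (z - 0) + ((K * l : ℕ) : ℤ) ≤ ((2 * K * l : ℕ) : ℤ) := by
    rw [sub_zero]; push_cast
    have : (2 : ℤ) * K * l = 2 * (K * l) := by ring
    have h0 := nrm_nonneg z
    rw [this]; omega
  exact ⟨h1, Arm_mono e1 e2 h2, Arm_mono e1 e2 h3⟩

theorem Arms2_congr [NeZero q] {ρ : ℝ} (hρ : 0 ≤ ρ) (hq : 20 * (ρ + 2) ≤ q) {ω ω' : Conf q H}
    {m m' : ℕ} (hm : m < H + 1) (hm' : m' < H + 1) {z : Site} {a b : ℕ}
    (h : ∀ θ : FMark q H,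
      ((nrm (θ.1.c ⟨m, hm⟩ - z) ≤ b + 1 ∧ (a : ℤ) ≤ nrm (θ.1.c ⟨m, hm⟩ - z)) ∨
       (nrm (θ.1.c ⟨m', hm'⟩ - z) ≤ b + 1 ∧ (a : ℤ) ≤ nrm (θ.1.c ⟨m', hm'⟩ - z))) → ω θ = ω' θ) :
    Arms2 ρ ω m m' z a b ↔ Arms2 ρ ω' m m' z a b := by
  unfold Arms2
  rw [Arm_et_congr hρ hq (k := m) (ω := ω) (ω' := ω') (fun θ hk h1 h2 => h θ (Or.inl ⟨h1, h2⟩)),
    Arm_et_congr hρ hq (k := m') (ω := ω) (ω' := ω') (fun θ hk h1 h2 => h θ (Or.inr ⟨h1, h2⟩))]

theorem tame_LInf {m m' : ℕ} (hmm : m ≤ m') (hm : m < H + 1) (hm' : m' < H + 1) {z : Site} {l : ℕ}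
    (hl : 3 ≤ l) {θ : FMark q H} (ht : 100 * θ.1.tot m m' ≤ l) (h : LInf m m' z l θ) :
    2 * nrm (θ.1.c ⟨m, hm⟩ - z) ≤ 5 * l := by
  rcases h with ⟨_, h⟩ | ⟨_, h⟩ | ⟨k, h1, h2, h⟩
  · omega
  · have e1 := move_le_tot θ.1 hmm hm'
    have e2 := nrm_tri (θ.1.c ⟨m, hm⟩) (θ.1.c ⟨m', hm'⟩) z
    rw [nrm_sub_comm (θ.1.c ⟨m, hm⟩) (θ.1.c ⟨m', hm'⟩)] at e2
    have e3 : nrm (θ.1.c ⟨m', hm'⟩ - θ.1.c ⟨m, hm⟩) ≤ θ.1.tot m m' := e1
    omega
  · have hk : (k : ℕ) < H + 1 := by omega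
    have e1 := move_le_tot θ.1 h1 hk
    have e2 := nrm_tri (θ.1.c ⟨m, hm⟩) (θ.1.c ⟨k, hk⟩) z
    rw [nrm_sub_comm (θ.1.c ⟨m, hm⟩) (θ.1.c ⟨k, hk⟩)] at e2
    have e3 : nrm (θ.1.c ⟨k, hk⟩ - θ.1.c ⟨m, hm⟩) ≤ θ.1.tot m k := e1
    have e4 : θ.1.tot m k ≤ θ.1.tot m m' := tot_mono θ.1 (le_refl _) h2.le
    have e5 : θ.1.D k ≤ θ.1.tot m m' := D_le_tot θ.1 k h1 h2
    have e6 : nrm (θ.1.c ⟨k, hk⟩ - z) ≤ l + θ.1.D k := h
    omega

theorem tame_far {m m' : ℕ} (hmm : m ≤ m') (hm : m < H + 1) (hm' : m' < H + 1) {z : Site} {l : ℕ}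
    (hl : 3 ≤ l) {θ : FMark q H} (ht : 100 * θ.1.tot m m' ≤ l)
    (h : ((3 * l : ℕ) : ℤ) ≤ nrm (θ.1.c ⟨m, hm⟩ - z) ∨
      ((3 * l : ℕ) : ℤ) ≤ nrm (θ.1.c ⟨m', hm'⟩ - z)) :
    5 * (l : ℤ) < 2 * nrm (θ.1.c ⟨m, hm⟩ - z) := by
  rcases h with h | h
  · push_cast at h; omega
  · have e1 := move_le_tot θ.1 hmm hm'
    have e2 := nrm_tri (θ.1.c ⟨m', hm'⟩) (θ.1.c ⟨m, hm⟩) z
    have e3 : nrm (θ.1.c ⟨m', hm'⟩ - θ.1.c ⟨m, hm⟩) ≤ θ.1.tot m m' := e1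
    push_cast at h
    omega

/-- two-event tame independence -/
theorem tame2 (h2 : Stmt_WILD) (h3 : Stmt_TAMEI) (h6 : Stmt_MEAS)
    (I Λ : ℝ) (N K : ℕ) (hK : 8 ≤ K) (ε : ℝ) (hε : 0 < ε) :
    ∃ R0 : ℕ, ∀ l : ℕ, R0 ≤ l → ∀ (q H : ℕ) [NeZero q] (a δ ρ : ℝ) (L : MarkLaw q H a δ Λ)
      (lam : ℝ≥0), (lam : ℝ) * (a * q ^ 2) ≤ I → 0 ≤ ρ → 20 * (ρ + 2) ≤ q →
      ∀ (m m' : ℕ) (z : Site), m ≤ m' → m' ≤ H → m' ≤ m + N →
      (L.PP lam).real {ω | LamE ρ ω m m' z l ∧ Arms2 ρ ω m m' z (3 * l) (K * l)} ≤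
        ((L.PP lam).real {ω | LamE ρ ω m m' z l} + ε / (l : ℝ) ^ 10) *
        ((L.PP lam).real {ω | Arms2 ρ ω m m' z (3 * l) (K * l)} + ε / (l : ℝ) ^ 10) := by
  obtain ⟨R0, hR0⟩ := h2 I Λ N (K + 3) ε hε
  refine ⟨max R0 3, ?_⟩
  intro l hl q H _ a δ ρ L lam hI hρ hq m m' z hmm hmH hmN
  have hl3 : 3 ≤ l := le_trans (le_max_right _ _) hl
  have hm : m < H + 1 := by omega
  have hm' : m' < H + 1 := by omega
  have hw := hR0 l (le_trans (le_max_left _ _) hl) q H a δ L lam hI m m' z hmm hmH hmN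
  have := isProb_PP L lam
  -- the data
  let T : Set (FMark q H) := {θ | 100 * θ.1.tot m m' ≤ l}
  let A : Bool → Set (FMark q H) := fun b => if b then
    {θ | 2 * nrm (θ.1.c ⟨m, hm⟩ - z) ≤ 5 * l} else {θ | 2 * nrm (θ.1.c ⟨m, hm⟩ - z) ≤ 5 * l}ᶜ
  let F : Bool → Set (Conf q H) := fun b => if b then {ω | LamE ρ ω m m' z l} else
    {ω | Arms2 ρ ω m m' z (3 * l) (K * l)}
  have hMt := h6 q H ρ m m' z z l 0
  have hMa := h6 q H ρ m m' z z (3 * l) (K * l)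
  have hMa' := h6 q H ρ m' m' z z (3 * l) (K * l)
  suffices key : (L.PP lam).real (⋂ k ∈ (Finset.univ : Finset Bool), F k) ≤
      ∏ k ∈ (Finset.univ : Finset Bool), ((L.PP lam).real (F k) + ε / (l : ℝ) ^ 10) by
    have e1 : (⋂ k ∈ (Finset.univ : Finset Bool), F k) =
        {ω | LamE ρ ω m m' z l ∧ Arms2 ρ ω m m' z (3 * l) (K * l)} := by
      ext ω
      simp only [Finset.mem_univ, iInter_true, mem_iInter, Bool.forall_bool, mem_ofPred_eq]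
      exact and_comm
    rw [e1] at key
    refine key.trans (le_of_eq ?_)
    rw [Fintype.prod_bool]
    rfl
  refine h3 q H a δ Λ L lam T Bool Finset.univ A F (fun _ => ε / (l : ℝ) ^ 10) ?_ ?_ ?_ ?_ ?_
  · intro b _
    cases b
    · exact hMa.1.1.inter hMa'.1.1
    · exact hMt.2.2.2.1.1
  · intro b _
    cases b
    · intro ω ω' hωω h
      exact ⟨hMa.1.2 ω ω' hωω h.1, hMa'.1.2 ω ω' hωω h.2⟩
    · exact hMt.2.2.2.1.2
  · intro b _ ω ω' hω hω' hA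
    cases b
    · apply Arms2_congr hρ hq hm hm'
      intro θ hθ
      by_cases hT : θ ∈ T
      · apply hA
        have hfar := tame_far hmm hm hm' hl3 (θ := θ) (z := z) hT (by
          rcases hθ with h | h
          · exact Or.inl h.2
          · exact Or.inr h.2)
        exact not_le.mpr hfar
      · rw [hω θ hT, hω' θ hT]
    · apply LamE_congr hρ hq
      intro θ hθ
      by_cases hT : θ ∈ T
      · exact hA θ (tame_LInf hmm hm hm' hl3 hT hθ)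
      · rw [hω θ hT, hω' θ hT]
  · intro b _ b' _ hbb
    cases b <;> cases b'
    · exact absurd rfl hbb
    · exact disjoint_compl_left
    · exact disjoint_compl_right
    · exact absurd rfl hbb
  · intro b _
    cases b
    · refine ⟨{θ : FMark q H |
        ((nrm (θ.1.c ⟨m, hm⟩ - z) ≤ ((K * l : ℕ) : ℤ) + 1 ∧
          (((3 * l : ℕ)) : ℤ) ≤ nrm (θ.1.c ⟨m, hm⟩ - z)) ∨
        (nrm (θ.1.c ⟨m', hm'⟩ - z) ≤ ((K * l : ℕ) : ℤ) + 1 ∧
          (((3 * l : ℕ)) : ℤ) ≤ nrm (θ.1.c ⟨m', hm'⟩ - z)))}, ?_, ?_⟩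
      · intro ω ω' h
        exact Arms2_congr hρ hq hm hm' h
      · refine le_trans (measureReal_mono ?_ (by finiteness)) hw
        rintro ω ⟨θ, hθ, hT, h0⟩
        refine ⟨θ, h0, not_le.mp hT, ?_⟩
        have hKl : ((K : ℤ) * l + 1) ≤ ((K + 3 : ℕ) : ℤ) * l := by push_cast; nlinarith
        rcases hθ with h | h
        · refine ⟨m, le_refl _, hmm, hm, ?_⟩
          have h1 := h.1
          push_cast at h1 hKl ⊢
          have := Int.natCast_nonneg (θ.1.tot m m')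
          linarith
        · refine ⟨m', hmm, le_refl _, hm', ?_⟩
          have h1 := h.1
          push_cast at h1 hKl ⊢
          have := Int.natCast_nonneg (θ.1.tot m m')
          linarith
    · refine ⟨{θ : FMark q H | LInf m m' z l θ}, ?_, ?_⟩
      · intro ω ω' h
        exact LamE_congr hρ hq h
      · refine le_trans (measureReal_mono ?_ (by finiteness)) hw
        rintro ω ⟨θ, hθ, hT, h0⟩
        refine ⟨θ, h0, not_le.mp hT, ?_⟩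
        have hKl : (2 * (l : ℤ) + 1) ≤ ((K + 3 : ℕ) : ℤ) * l := by push_cast; nlinarith
        have hKl' : (l : ℤ) ≤ ((K + 3 : ℕ) : ℤ) * l := by push_cast; nlinarith
        have ht := Int.natCast_nonneg (θ.1.tot m m')
        rcases hθ with ⟨_, h⟩ | ⟨_, h⟩ | ⟨k, h1, h2, h⟩
        · exact ⟨m, le_refl _, hmm, hm, by linarith⟩
        · exact ⟨m', hmm, le_refl _, hm', by linarith⟩
        · refine ⟨k, h1, h2.le, by omega, ?_⟩
          have h' : nrm (θ.1.c ⟨(k : ℕ), by omega⟩ - z) ≤ l + θ.1.D k := h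
          have e5 : ((θ.1.D k : ℕ) : ℤ) ≤ θ.1.tot m m' := by exact_mod_cast D_le_tot θ.1 k h1 h2
          linarith

theorem measurable_shiftC (t : Site) : Measurable (shiftC (q := q) (H := H) t) := by
  unfold shiftC
  exact measurable_pi_lambda _ fun θ => measurable_pi_apply _

/-- translation invariance of `LamE` -/
theorem LamE_trans [NeZero q] (h5 : Stmt_TRANS) (h6 : Stmt_MEAS) {a δ Λ : ℝ}
    (L : MarkLaw q H a δ Λ) (lam : ℝ≥0) (ρ : ℝ) (m m' : ℕ) (z : Site) (l : ℕ) :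
    (L.PP lam).real {ω | LamE ρ ω m m' z l} = (L.PP lam).real {ω | LamE ρ ω m m' 0 l} := by
  have h := h5 q H a δ Λ L lam z
  have hM := (h6 q H ρ m m' 0 0 l 0).2.2.2.1.1
  have e : {ω : Conf q H | LamE ρ ω m m' z l} = shiftC z ⁻¹' {ω | LamE ρ ω m m' 0 l} := by
    ext ω
    have := h.2.2.1 ρ ω m m' 0 l
    rw [zero_add] at this
    exact this.symm
  rw [e, ← map_measureReal_apply (measurable_shiftC z) hM, h.1]

theorem rpow_ge_self {x e : ℝ} (h0 : 0 < x) (h1 : x ≤ 1) (he : 0 < e) (he1 : e < 1) :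
    x ≤ x ^ (1 - e) := by
  nth_rewrite 1 [← Real.rpow_one x]
  exact Real.rpow_le_rpow_of_exponent_ge h0 h1 (by linarith)

/-- lower bound for the one-arm probability -/
theorem alpha_ge {c e : ℝ} {nmax : ℕ} {ρ : ℝ} {q : ℕ} {l : ℝ≥0} {j : ℕ}
    (ok : StaticOK c e nmax ρ q l j) {a b : ℕ} (hab : a ≤ b) (hb : b ≤ nmax) {t : ℝ}
    (ht : t * (2 * b + 1) ≤ 2 * a + 1) : c * t ≤ alpha ρ q l j a b := by
  refine le_trans ?_ (ok.arm_ge a b hab hb)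
  have hb0 : (0 : ℝ) < 2 * b + 1 := by positivity
  have hx0 : (0 : ℝ) < (2 * (a : ℝ) + 1) / (2 * b + 1) := by positivity
  have hx1 : (2 * (a : ℝ) + 1) / (2 * b + 1) ≤ 1 := by
    rw [div_le_one hb0]
    have : (a : ℝ) ≤ b := by exact_mod_cast hab
    linarith
  have h1 : t ≤ (2 * (a : ℝ) + 1) / (2 * b + 1) := by rw [le_div_iff₀ hb0]; exact ht
  exact mul_le_mul_of_nonneg_left (h1.trans (rpow_ge_self hx0 hx1 ok.e_pos ok.e_lt)) ok.c_pos.le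

theorem alpha_nonneg {ρ : ℝ} {q : ℕ} {l : ℝ≥0} {j a b : ℕ} : 0 ≤ alpha ρ q l j a b :=
  measureReal_nonneg

/-- the arm from `3l` to `Kl` against the arm from `l` to `3Kl` -/
theorem alpha_ext {c e C1 : ℝ} {nmax : ℕ} {ρ : ℝ} {q : ℕ} {lam : ℝ≥0} {j : ℕ} (hC1 : 0 < C1)
    (ok : StaticOK c e nmax ρ q lam j)
    (hQ : ∀ a b b' d : ℕ, 1 ≤ a → a < b → b ≤ b' → b' ≤ 20 * b → b' < d →
      2 * d ≤ nmax → alpha ρ q lam j a b * alpha ρ q lam j b' d ≤ C1 * alpha ρ q lam j a d)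
    {K l : ℕ} (hK : 8 ≤ K) (hl : 1 ≤ l) (hn : 10 * K * l ≤ nmax) :
    alpha ρ q lam j (3 * l) (K * l) ≤ (6 * C1 ^ 2 / c ^ 2) * alpha ρ q lam j l (3 * K * l) := by
  have hc := ok.c_pos
  have hKl : 8 * l ≤ K * l := Nat.mul_le_mul_right _ hK
  have hn' : 10 * (K * l) ≤ nmax := by rw [← mul_assoc]; exact hn
  have e3 : 3 * K * l = 3 * (K * l) := by ring
  rw [e3]
  set M := K * l with hM
  have q1 := hQ (3 * l) M M (3 * M) (by omega) (by omega) (le_refl _) (by omega) (by omega)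
    (by omega)
  have q2 := hQ l (2 * l) (3 * l) (3 * M) (by omega) (by omega) (by omega) (by omega) (by omega)
    (by omega)
  have a1 : c * (1 / 3) ≤ alpha ρ q lam j M (3 * M) :=
    alpha_ge ok (by omega) (by omega) (by push_cast; linarith)
  have a2 : c * (1 / 2) ≤ alpha ρ q lam j l (2 * l) :=
    alpha_ge ok (by omega) (by omega) (by push_cast; linarith)
  have n1 : 0 ≤ alpha ρ q lam j (3 * l) M := alpha_nonneg
  have n2 : 0 ≤ alpha ρ q lam j (3 * l) (3 * M) := alpha_nonneg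
  have b1 : alpha ρ q lam j (3 * l) M * (c * (1 / 3)) ≤ C1 * alpha ρ q lam j (3 * l) (3 * M) :=
    (mul_le_mul_of_nonneg_left a1 n1).trans q1
  have b2 : (c * (1 / 2)) * alpha ρ q lam j (3 * l) (3 * M) ≤ C1 * alpha ρ q lam j l (3 * M) :=
    (mul_le_mul_of_nonneg_right a2 n2).trans q2
  have b3 : alpha ρ q lam j (3 * l) M * (c * (1 / 3)) * (c * (1 / 2)) ≤
      C1 * (C1 * alpha ρ q lam j l (3 * M)) := by
    calc alpha ρ q lam j (3 * l) M * (c * (1 / 3)) * (c * (1 / 2))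
        ≤ C1 * alpha ρ q lam j (3 * l) (3 * M) * (c * (1 / 2)) :=
          mul_le_mul_of_nonneg_right b1 (by positivity)
      _ = C1 * ((c * (1 / 2)) * alpha ρ q lam j (3 * l) (3 * M)) := by ring
      _ ≤ _ := mul_le_mul_of_nonneg_left b2 hC1.le
  rw [div_mul_eq_mul_div, le_div_iff₀ (by positivity)]
  nlinarith [b3]

end RUP1

open RUP1 LocLib in
theorem stmt_RUP1 (h1 : Stmt_QM) (h2 : Stmt_WILD) (h3 : Stmt_TAMEI) (h4 : Stmt_STATIC)
    (h5 : Stmt_TRANS) (h6 : Stmt_MEAS) : Stmt_RUP1 := by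
  intro c e hc he he1
  obtain ⟨C1, hC1, hQM⟩ := h1 c e hc
  refine ⟨6 * (6 * C1 ^ 2 / c ^ 2) ^ 2, by positivity, ?_⟩
  intro K hK
  have hKr : (0 : ℝ) < K := by
    have : 0 < K := by omega
    exact_mod_cast this
  have hκ : 0 < (c / K) ^ 2 := by positivity
  refine ⟨(c / K) ^ 2, hκ, ?_⟩
  intro I Λ N
  have hε : 0 < min 1 ((c / K) ^ 2) := lt_min one_pos hκ
  obtain ⟨R0, hR0⟩ := tame2 h2 h3 h6 I Λ N K hK (min 1 ((c / K) ^ 2)) hε
  refine ⟨max R0 1, ?_⟩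
  intro δ nmax E m m' l z hAD hmm hmH hmN hl hn hz hlow
  have hl1 : 1 ≤ l := le_trans (le_max_right _ _) hl
  have hlr : (1 : ℝ) ≤ l := by exact_mod_cast hl1
  have hρ : (0 : ℝ) ≤ E.ρ := by linarith [E.ok.ρ_pos]
  have ht := hR0 l (le_trans (le_max_left _ _) hl) E.q E.H _ δ E.ρ E.L E.lam E.inten hρ E.ok.short
    m m' z hmm.le hmH hmN
  have := isProb_PP E.L E.lam
  have hKl : 8 * l ≤ K * l := Nat.mul_le_mul_right _ hK
  have hn' : 10 * (K * l) ≤ nmax := by rw [← mul_assoc]; exact hn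
  -- step 1
  have s1 : E.P.real {ω | TwoE E.ρ K ω m m' z l} ≤
      E.P.real {ω | LamE E.ρ ω m m' z l ∧ Arms2 E.ρ ω m m' z (3 * l) (K * l)} := by
    unfold Env.P
    exact measureReal_mono (fun ω h => TwoE_sub hz h) (by finiteness)
  have s2 : E.P.real {ω | Arms2 E.ρ ω m m' z (3 * l) (K * l)} ≤
      (E.al (3 * l) (K * l)) ^ 2 + (c / K) ^ 2 := by
    have := hAD m m' (by omega) hmH (by omega) z (3 * l) (K * l) (by omega)
      (by omega) (by nlinarith) (by omega)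
    exact this
  have s3 : E.P.real {ω | LamE E.ρ ω m m' z l} = E.P.real {ω | LamE E.ρ ω m m' 0 l} :=
    LamE_trans h5 h6 E.L E.lam E.ρ m m' z l
  set p := E.P.real {ω | LamE E.ρ ω m m' 0 l} with hp
  set w := min 1 ((c / K) ^ 2) / (l : ℝ) ^ 10 with hw
  have hw0 : 0 ≤ w := by positivity
  have hl10 : (1 : ℝ) ≤ (l : ℝ) ^ 10 := one_le_pow₀ hlr
  have hw1 : w ≤ (c / K) ^ 2 := by
    rw [hw, div_le_iff₀ (by positivity)]
    calc min 1 ((c / K) ^ 2) ≤ (c / K) ^ 2 := min_le_right _ _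
      _ ≤ _ := le_mul_of_one_le_right hκ.le hl10
  have hw2 : w ≤ p := by
    refine le_trans ?_ hlow
    rw [hw, div_le_div_iff₀ (by positivity) (by positivity), one_mul]
    calc min 1 ((c / K) ^ 2) * (l : ℝ) ^ 9 ≤ 1 * (l : ℝ) ^ 9 :=
          mul_le_mul_of_nonneg_right (min_le_left _ _) (by positivity)
      _ ≤ (l : ℝ) ^ 10 := by
          rw [one_mul]
          exact pow_le_pow_right₀ hlr (by norm_num)
  have hp0 : 0 ≤ p := measureReal_nonneg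
  -- lower bound for the arm
  have a0 : c / K ≤ E.al (3 * l) (K * l) := by
    have := alpha_ge E.ok (a := 3 * l) (b := K * l) (by omega) (by omega) (t := 1 / K) (by
      push_cast
      rw [div_mul_eq_mul_div, div_le_iff₀ hKr]
      have hK1 : (8 : ℝ) ≤ K := by exact_mod_cast hK
      nlinarith)
    calc c / K = c * (1 / K) := by ring
      _ ≤ _ := this
  have a1 : (c / K) ^ 2 ≤ (E.al (3 * l) (K * l)) ^ 2 :=
    pow_le_pow_left₀ (by positivity) a0 2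
  have a2 : E.al (3 * l) (K * l) ≤ (6 * C1 ^ 2 / c ^ 2) * E.al l (3 * K * l) :=
    alpha_ext hC1 E.ok (hQM nmax E.ρ E.q E.lam E.j E.ok) hK hl1 hn
  have a3 : (E.al (3 * l) (K * l)) ^ 2 ≤ (6 * C1 ^ 2 / c ^ 2) ^ 2 * (E.al l (3 * K * l)) ^ 2 := by
    rw [← mul_pow]
    exact pow_le_pow_left₀ (le_trans (by positivity) a0) a2 2
  have ht' : E.P.real {ω | LamE E.ρ ω m m' z l ∧ Arms2 E.ρ ω m m' z (3 * l) (K * l)} ≤
      (p + w) * (E.P.real {ω | Arms2 E.ρ ω m m' z (3 * l) (K * l)} + w) := by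
    rw [← s3]; exact ht
  have f1 : p + w ≤ 2 * p := by linarith
  have f2 : E.P.real {ω | Arms2 E.ρ ω m m' z (3 * l) (K * l)} + w ≤
      3 * (E.al (3 * l) (K * l)) ^ 2 := by linarith
  calc E.P.real {ω | TwoE E.ρ K ω m m' z l}
      ≤ (p + w) * (E.P.real {ω | Arms2 E.ρ ω m m' z (3 * l) (K * l)} + w) := s1.trans ht'
    _ ≤ (2 * p) * (3 * (E.al (3 * l) (K * l)) ^ 2) :=
        mul_le_mul f1 f2 (add_nonneg measureReal_nonneg hw0) (by positivity)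
    _ = (6 * p) * (E.al (3 * l) (K * l)) ^ 2 := by ring
    _ ≤ (6 * p) * ((6 * C1 ^ 2 / c ^ 2) ^ 2 * (E.al l (3 * K * l)) ^ 2) :=
        mul_le_mul_of_nonneg_left a3 (by positivity)
    _ = _ := by ring

end MPdd5692
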