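import Mathlib
import Pool.Agent.Work.MP_dd5692_pr.InterfaceC

/-!
# MP_dd5692_pr: RUPA (helper31): locality of the events `Arm`, `UU`, `LamE` in terms of the marks,
used in RUP1 and RUP2
-/

open MeasureTheory ProbabilityTheory Set
open scoped ENNReal NNReal BigOperators

namespace MPdd5692.RUPA

instance isProb_P {I δ Λ c e : ℝ} {nmax : ℕ} (E : Env c e I δ Λ nmax) :
    IsProbabilityMeasure E.P := by
  unfold Env.P MarkLaw.PP; infer_instance

/-! ### the sup norm -/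

lemma nrm_nonneg (x : Site) : 0 ≤ nrm x := le_max_of_le_left (abs_nonneg _)

lemma nrm_neg (x : Site) : nrm (-x) = nrm x := by
  unfold nrm; simp only [Prod.fst_neg, Prod.snd_neg, abs_neg]

lemma nrm_sub_comm (x y : Site) : nrm (x - y) = nrm (y - x) := by
  rw [← nrm_neg (x - y), neg_sub]

lemma nrm_add_le (x y : Site) : nrm (x + y) ≤ nrm x + nrm y := by
  unfold nrm
  simp only [Prod.fst_add, Prod.snd_add]
  have h1 := abs_add_le x.1 y.1
  have h2 := abs_add_le x.2 y.2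
  have h3 := le_max_left |x.1| |x.2|
  have h4 := le_max_right |x.1| |x.2|
  have h5 := le_max_left |y.1| |y.2|
  have h6 := le_max_right |y.1| |y.2|
  apply max_le <;> linarith

/-- triangle inequality -/
lemma nrm_tri (x y z : Site) : nrm (x - z) ≤ nrm (x - y) + nrm (y - z) := by
  have := nrm_add_le (x - y) (y - z)
  rwa [sub_add_sub_cancel] at this

variable {q H : ℕ} [NeZero q]

/-! ### vacancy is local -/

omit [NeZero q] in
lemma near_of_offs {ρ : ℝ} (hq : 20 * (ρ + 2) ≤ q) {v x : Site} (h : v - x ∈ offs ρ) (hρ : 1 ≤ ρ) :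
    nrm (cidx q v - cidx q x) ≤ 1 := by
  have hqpos : 0 < (q : ℤ) := by
    have : 0 < (q : ℝ) := by linarith
    exact_mod_cast this
  have key : ∀ a : ℤ, offd a ^ 2 ≤ ρ ^ 2 → |a| ≤ (q : ℤ) := by
    intro a ha
    have h0 : 0 ≤ offd a := le_max_right _ _
    have h1 : offd a ≤ ρ := by
      by_contra hc
      push Not at hc
      have : ρ ^ 2 < offd a ^ 2 := by nlinarith
      linarith
    have h2 : |(a : ℝ)| - 1 / 2 ≤ ρ := (le_max_left _ _).trans h1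
    have h3 : |(a : ℝ)| ≤ q := by linarith
    rw [← Int.cast_abs] at h3
    exact_mod_cast h3
  have h' : offd (v - x).1 ^ 2 + offd (v - x).2 ^ 2 ≤ ρ ^ 2 := h
  have hs1 : 0 ≤ offd (v - x).1 ^ 2 := sq_nonneg _
  have hs2 : 0 ≤ offd (v - x).2 ^ 2 := sq_nonneg _
  have k1 := key (v - x).1 (by linarith)
  have k2 := key (v - x).2 (by linarith)
  have hdiv : ∀ a b : ℤ, |a - b| ≤ q → |a / (q : ℤ) - b / (q : ℤ)| ≤ 1 := by
    intro a b hab
    rw [abs_le] at hab ⊢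
    constructor
    · have : b / (q : ℤ) ≤ (a + q) / (q : ℤ) := Int.ediv_le_ediv hqpos (by linarith)
      rw [Int.add_ediv_of_dvd_right (dvd_refl _), Int.ediv_self hqpos.ne'] at this
      linarith
    · have : a / (q : ℤ) ≤ (b + q) / (q : ℤ) := Int.ediv_le_ediv hqpos (by linarith)
      rw [Int.add_ediv_of_dvd_right (dvd_refl _), Int.ediv_self hqpos.ne'] at this
      linarith
  unfold nrm cidx
  simp only [Prod.fst_sub, Prod.snd_sub]
  exact max_le (hdiv _ _ k1) (hdiv _ _ k2)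

lemma vac_congr {ρ : ℝ} (hq : 20 * (ρ + 2) ≤ q) (hρ : 1 ≤ ρ) {S S' : Set Site} {x : Site}
    (h : ∀ v, nrm (cidx q v - cidx q x) ≤ 1 → (v ∈ S ↔ v ∈ S')) :
    x ∈ vacSites ρ S ↔ x ∈ vacSites ρ S' := by
  constructor
  · intro hx v hv ho
    exact hx v ((h v (near_of_offs hq ho hρ)).2 hv) ho
  · intro hx v hv ho
    exact hx v ((h v (near_of_offs hq ho hρ)).1 hv) ho

omit [NeZero q] in
lemma wired_congr {adj : Site → Site → Prop} {V V' A B : Set Site}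
    (h : ∀ x, x ∉ A → x ∉ B → (x ∈ V ↔ x ∈ V')) : Wired adj V A B ↔ Wired adj V' A B := by
  have : V ∪ A ∪ B = V' ∪ A ∪ B := by
    ext x
    simp only [mem_union]
    by_cases hA : x ∈ A
    · simp [hA]
    · by_cases hB : x ∈ B
      · simp [hB]
      · rw [h x hA hB]
  unfold Wired
  rw [this]

/-- a wired connection stays one if the terminals are enlarged -/
lemma wired_mono {adj : Site → Site → Prop} {V A B A' B' : Set Site} (hA : A ⊆ A') (hB : B ⊆ B')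
    (h : Wired adj V A B) : Wired adj V A' B' := by
  obtain ⟨a, ha, b, hb, hl⟩ := h
  refine ⟨a, hA ha, b, hB hb, ?_⟩
  exact ⟨(union_subset_union (union_subset_union_right _ hA) hB) hl.1,
    Relation.ReflTransGen.mono (fun _ _ h =>
      ⟨h.1, (union_subset_union (union_subset_union_right _ hA) hB) h.2⟩) _ _ hl.2⟩

omit [NeZero q] in
lemma cbox_subset {z z' : Site} {a a' : ℕ} (h : nrm (z - z') + a ≤ a') :
    cbox q z a ⊆ cbox q z' a' := by
  intro x hx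
  have hx' : nrm (cidx q x - z) ≤ a := hx
  have := nrm_tri (cidx q x) z z'
  show nrm (cidx q x - z') ≤ a'
  linarith

omit [NeZero q] in
/-- arms are monotone in the terminals -/
lemma arm_mono {ρ : ℝ} {S : Set Site} {z z' y y' : Site} {a b c d : ℕ}
    (h1 : nrm (z - y) + a ≤ c) (h2 : nrm (y' - z') + d ≤ b) (h : Arm ρ q S z a z' b) :
    Arm ρ q S y c y' d :=
  wired_mono (cbox_subset h1) (compl_subset_compl.2 (cbox_subset h2)) h

lemma arm_congr {ρ : ℝ} (hq : 20 * (ρ + 2) ≤ q) (hρ : 1 ≤ ρ) {S S' : Set Site} {z z' : Site}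
    {a b : ℕ}
    (h : ∀ v, (∃ c : Site, c ∉ box z a ∧ c ∈ box z' b ∧ nrm (cidx q v - c) ≤ 1) → (v ∈ S ↔ v ∈ S')) :
    Arm ρ q S z a z' b ↔ Arm ρ q S' z a z' b := by
  unfold Arm
  apply wired_congr
  intro x hxA hxB
  apply vac_congr hq hρ
  intro v hv
  exact h v ⟨cidx q x, hxA, not_not.1 hxB, hv⟩

lemma uu_congr {ρ : ℝ} (hq : 20 * (ρ + 2) ≤ q) (hρ : 1 ≤ ρ) {S S' : Set Site} {z : Site}
    {a b : ℕ}
    (h : ∀ v, (∃ c : Site, c ∉ box z a ∧ c ∈ box z b ∧ nrm (cidx q v - c) ≤ 1) → (v ∈ S ↔ v ∈ S')) :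
    UU ρ q S z a b ↔ UU ρ q S' z a b := by
  unfold UU
  rw [not_iff_not]
  apply wired_congr
  intro x hxA hxB
  rw [mem_compl_iff, mem_compl_iff, not_iff_not]
  apply vac_congr hq hρ
  intro v hv
  exact h v ⟨cidx q x, hxA, not_not.1 hxB, hv⟩

/-- annulus version -/
lemma arm_congr' {ρ : ℝ} (hq : 20 * (ρ + 2) ≤ q) (hρ : 1 ≤ ρ) {S S' : Set Site} {z : Site}
    {a b : ℕ}
    (h : ∀ v, (a : ℤ) ≤ nrm (cidx q v - z) → nrm (cidx q v - z) ≤ b + 1 → (v ∈ S ↔ v ∈ S')) :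
    Arm ρ q S z a z b ↔ Arm ρ q S' z a z b := by
  apply arm_congr hq hρ
  rintro v ⟨c, h1, h2, h3⟩
  have h1' : (a : ℤ) < nrm (c - z) := not_le.1 h1
  have h2' : nrm (c - z) ≤ b := h2
  have t1 := nrm_tri (cidx q v) c z
  have t2 := nrm_tri c (cidx q v) z
  have t3 := nrm_sub_comm c (cidx q v)
  exact h v (by linarith) (by linarith)

/-! ### positions of the particles -/

lemma cidx_site (θ : FMark q H) (k : Fin (H + 1)) : cidx q (FMark.site θ k) = θ.1.c k := by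
  have hq : (q : ℤ) ≠ 0 := by exact_mod_cast NeZero.ne q
  have key : ∀ (a : ℤ) (i : Fin q), ((q : ℤ) * a + ((i : ℕ) : ℤ)) / (q : ℤ) = a := by
    intro a i
    rw [Int.mul_add_ediv_left _ _ hq, Int.ediv_eq_zero_of_lt (by positivity)
      (by exact_mod_cast i.2), add_zero]
  unfold cidx FMark.site
  simp only [key]

lemma et_congr {ω ω' : Conf q H} {k : ℕ} {v : Site}
    (h : ∀ θ : FMark q H, ∀ hk : k < H + 1, θ.1.c ⟨k, hk⟩ = cidx q v → (ω θ ≠ 0 ↔ ω' θ ≠ 0)) :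
    v ∈ et ω k ↔ v ∈ et ω' k := by
  constructor
  · rintro ⟨θ, h1, hk, h2⟩
    refine ⟨θ, (h θ hk ?_).1 h1, hk, h2⟩
    rw [← h2, cidx_site]
  · rintro ⟨θ, h1, hk, h2⟩
    refine ⟨θ, (h θ hk ?_).2 h1, hk, h2⟩
    rw [← h2, cidx_site]

omit [NeZero q] in
lemma tot_mono (ξ : CMark q H) {k1 k2 k2' : ℕ} (h : k2 ≤ k2') : ξ.tot k1 k2 ≤ ξ.tot k1 k2' := by
  unfold CMark.tot
  apply Finset.sum_le_sum
  intro k _
  by_cases h1 : k1 ≤ (k : ℕ) ∧ (k : ℕ) < k2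
  · rw [if_pos h1, if_pos ⟨h1.1, h1.2.trans_le h⟩]
  · rw [if_neg h1]; exact Nat.zero_le _

omit [NeZero q] in
lemma tot_succ (ξ : CMark q H) {k1 : ℕ} (k : Fin H) (h : k1 ≤ (k : ℕ)) :
    ξ.tot k1 ((k : ℕ) + 1) = ξ.tot k1 k + ξ.D k := by
  unfold CMark.tot
  have : ξ.D k = ∑ i : Fin H, if i = k then ξ.D i else 0 := by
    rw [Finset.sum_ite_eq' Finset.univ k (fun i => ξ.D i), if_pos (Finset.mem_univ _)]
  rw [this, ← Finset.sum_add_distrib]
  apply Finset.sum_congr rfl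
  intro i _
  by_cases hi : i = k
  · subst hi
    simp [h]
  · have hi' : (i : ℕ) ≠ (k : ℕ) := fun hc => hi (Fin.ext hc)
    rw [if_neg hi, add_zero]
    apply if_congr _ rfl rfl
    constructor
    · rintro ⟨a, b⟩; exact ⟨a, by omega⟩
    · rintro ⟨a, b⟩; exact ⟨a, by omega⟩

omit [NeZero q] in
lemma step_le (ξ : CMark q H) (k : Fin H) : nrm (ξ.c k.succ - ξ.c k.castSucc) ≤ ξ.D k := by
  unfold CMark.D
  push_cast
  have := Int.self_le_toNat (nrm (ξ.c k.succ - ξ.c k.castSucc))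
  linarith

omit [NeZero q] in
/-- displacement between two times -/
lemma disp_le (ξ : CMark q H) {m : ℕ} (hm : m < H + 1) : ∀ (n : ℕ) (hn : m + n < H + 1),
    nrm (ξ.c ⟨m + n, hn⟩ - ξ.c ⟨m, hm⟩) ≤ ξ.tot m (m + n) := by
  intro n
  induction n with
  | zero =>
    intro hn
    simp only [add_zero, sub_self]
    have : nrm (0 : Site) = 0 := by simp [nrm]
    rw [this]; positivity
  | succ n ih =>
    intro hn
    have h1 := ih (by omega)
    have h2 := step_le ξ ⟨m + n, by omega⟩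
    have h3 := tot_succ ξ (k1 := m) ⟨m + n, by omega⟩ (by simp)
    simp only at h3
    have e1 : (⟨m + n, by omega⟩ : Fin H).succ = ⟨m + (n + 1), hn⟩ := by
      apply Fin.ext; simp; omega
    have e2 : (⟨m + n, by omega⟩ : Fin H).castSucc = ⟨m + n, by omega⟩ := by
      apply Fin.ext; simp
    rw [e1, e2] at h2
    have h4 := nrm_tri (ξ.c ⟨m + (n + 1), hn⟩) (ξ.c ⟨m + n, by omega⟩) (ξ.c ⟨m, hm⟩)
    have h5 : (ξ.tot m (m + (n + 1)) : ℤ) = ξ.tot m (m + n) + ξ.D ⟨m + n, by omega⟩ := by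
      have : m + (n + 1) = m + n + 1 := by ring
      rw [this, h3]; push_cast; ring
    linarith

omit [NeZero q] in
lemma disp_le' (ξ : CMark q H) {m k m' : ℕ} (hmk : m ≤ k) (hkm : k ≤ m') (hm : m < H + 1)
    (hk : k < H + 1) : nrm (ξ.c ⟨k, hk⟩ - ξ.c ⟨m, hm⟩) ≤ ξ.tot m m' := by
  obtain ⟨n, rfl⟩ := Nat.exists_eq_add_of_le hmk
  have h1 := disp_le ξ hm n hk
  have h2 := tot_mono ξ (k1 := m) hkm
  have h3 : (ξ.tot m (m + n) : ℤ) ≤ ξ.tot m m' := by exact_mod_cast h2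
  linarith

omit [NeZero q] in
/-- displacement plus the reach of a step -/
lemma disp_D_le (ξ : CMark q H) {m m' : ℕ} (k : Fin H) (hmk : m ≤ (k : ℕ)) (hkm : (k : ℕ) < m')
    (hm : m < H + 1) : nrm (ξ.c k.castSucc - ξ.c ⟨m, hm⟩) + ξ.D k ≤ ξ.tot m m' := by
  have h1 := disp_le' ξ hmk le_rfl hm (by omega : (k : ℕ) < H + 1)
  have h2 := tot_succ ξ k hmk
  have h3 := tot_mono ξ (k1 := m) (Nat.succ_le_of_lt hkm)
  have h4 : (ξ.tot m ((k : ℕ) + 1) : ℤ) ≤ ξ.tot m m' := by exact_mod_cast h3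
  have e : k.castSucc = ⟨(k : ℕ), by omega⟩ := by apply Fin.ext; simp
  rw [e]
  rw [h2] at h4
  push_cast at h4
  linarith

omit [NeZero q] in
lemma D_le_tot (ξ : CMark q H) {m m' : ℕ} (k : Fin H) (hmk : m ≤ (k : ℕ)) (hkm : (k : ℕ) < m') :
    ξ.D k ≤ ξ.tot m m' := by
  have h2 := tot_succ ξ k hmk
  have h3 : ξ.tot m ((k : ℕ) + 1) ≤ ξ.tot m m' := tot_mono ξ (k1 := m) (Nat.succ_le_of_lt hkm)
  omega

omit [NeZero q] in
lemma hole_congr {ω ω' : Conf q H} {m m' : ℕ} {z : Site}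
    (h : ∀ θ : FMark q H, ∀ k : Fin H, m ≤ (k : ℕ) → (k : ℕ) < m' →
      nrm (θ.1.c k.castSucc - z) ≤ θ.1.D k → (ω θ ≠ 0 ↔ ω' θ ≠ 0)) :
    HoleC ω m m' z ↔ HoleC ω' m m' z := by
  constructor
  · intro hh k h1 h2 θ hθ
    by_contra hc
    push Not at hc
    exact absurd (hh k h1 h2 θ ((h θ k h1 h2 hc).2 hθ)) (not_lt.2 hc)
  · intro hh k h1 h2 θ hθ
    by_contra hc
    push Not at hc
    exact absurd (hh k h1 h2 θ ((h θ k h1 h2 hc).1 hθ)) (not_lt.2 hc)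

lemma lamE_congr {ρ : ℝ} (hq : 20 * (ρ + 2) ≤ q) (hρ : 1 ≤ ρ) {ω ω' : Conf q H} {m m' : ℕ}
    {z : Site} {l : ℕ}
    (h1 : ∀ v, nrm (cidx q v - z) ≤ 2 * l + 1 → (v ∈ et ω m ↔ v ∈ et ω' m))
    (h2 : ∀ v, nrm (cidx q v - z) ≤ 2 * l + 1 → (v ∈ et ω m' ↔ v ∈ et ω' m'))
    (h3 : ∀ b ∈ box z l, (HoleC ω m m' b ↔ HoleC ω' m m' b)) :
    LamE ρ ω m m' z l ↔ LamE ρ ω' m m' z l := by
  have key : ∀ (v : Site) (S : Set Site), (∃ c : Site, c ∉ S ∧ c ∈ box z (2 * l) ∧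
      nrm (cidx q v - c) ≤ 1) → nrm (cidx q v - z) ≤ 2 * l + 1 := by
    rintro v S ⟨c, -, h2, h3⟩
    have h2' : nrm (c - z) ≤ ((2 * l : ℕ) : ℤ) := h2
    push_cast at h2'
    have := nrm_tri (cidx q v) c z
    linarith
  have a1 : UU ρ q (et ω m) z l (2 * l) ↔ UU ρ q (et ω' m) z l (2 * l) :=
    uu_congr hq hρ fun v hv => h1 v (key v _ hv)
  have a2 : UU ρ q (et ω m') z l (2 * l) ↔ UU ρ q (et ω' m') z l (2 * l) :=
    uu_congr hq hρ fun v hv => h2 v (key v _ hv)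
  have a3 : ∀ b, (Arm ρ q (et ω m) b 0 z (2 * l) ↔ Arm ρ q (et ω' m) b 0 z (2 * l)) := fun b =>
    arm_congr hq hρ fun v hv => h1 v (key v _ hv)
  have a4 : ∀ b, (Arm ρ q (et ω m') b 0 z (2 * l) ↔ Arm ρ q (et ω' m') b 0 z (2 * l)) := fun b =>
    arm_congr hq hρ fun v hv => h2 v (key v _ hv)
  unfold LamE
  rw [a1, a2]
  refine and_congr_right fun _ => and_congr_right fun _ => ?_
  refine exists_congr fun b => ?_
  rw [a3 b, a4 b]
  exact and_congr_right fun hb => and_congr_left' (h3 b hb)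

/-! ### local events -/

/-- tame marks of the window `[m,m']` at scale `l` -/
def tame (q H m m' l : ℕ) : Set (FMark q H) := {θ | 100 * θ.1.tot m m' ≤ l}

/-- marks which at time `m` are in the set `R` of s-cells -/
def inR (q H m : ℕ) (R : Set Site) : Set (FMark q H) :=
  {θ | ∃ h : m < H + 1, θ.1.c ⟨m, h⟩ ∈ R}

/-- marks which may influence the ball of radius `C l` around `0` during the window -/
def infl (q H m m' l C : ℕ) : Set (FMark q H) :=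
  {θ | ∃ k : ℕ, m ≤ k ∧ k ≤ m' ∧ ∃ h : k < H + 1,
    nrm (θ.1.c ⟨k, h⟩) ≤ C * l + θ.1.tot m m'}

/-- an event of the kind used in 3A: it depends only on the particles influencing `box 0 (C l)`,
and for tame particles only on those which at time `m` are in `R`. -/
structure Loc (m m' l C : ℕ) (R : Set Site) (F : Set (Conf q H)) : Prop where
  meas : MeasurableSet F
  decr : Decr F
  tame : ∀ ω ω' : Conf q H, (∀ θ, θ ∉ tame q H m m' l → ω θ = 0) →
    (∀ θ, θ ∉ tame q H m m' l → ω' θ = 0) → (∀ θ ∈ inR q H m R, ω θ = ω' θ) → (ω ∈ F ↔ ω' ∈ F)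
  dep : DepOn (infl q H m m' l C) F

omit [NeZero q] in
/-- upper bound for the probability of an intersection of local events -/
theorem prod_le {I δ Λ c e : ℝ} {nmax : ℕ} (hT : Stmt_TAMEI) (E : Env c e I δ Λ nmax)
    {m m' l C : ℕ} {w : ℝ}
    (hw : E.P.real {ω | ∃ θ : FMark E.q E.H, ω θ ≠ 0 ∧ l < 100 * θ.1.tot m m' ∧
      ∃ k : ℕ, m ≤ k ∧ k ≤ m' ∧ ∃ h : k < E.H + 1,
        nrm (θ.1.c ⟨k, h⟩ - 0) ≤ C * l + θ.1.tot m m'} ≤ w)
    {κ : Type} (s : Finset κ) (F : κ → Set (Conf E.q E.H)) (R : κ → Set Site)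
    (hF : ∀ k ∈ s, Loc m m' l C (R k) (F k))
    (hR : ∀ k ∈ s, ∀ k' ∈ s, k ≠ k' → ∀ x ∈ R k, x ∉ R k') :
    E.P.real (⋂ k ∈ s, F k) ≤ ∏ k ∈ s, (E.P.real (F k) + w) := by
  apply hT E.q E.H _ δ Λ E.L E.lam (tame E.q E.H m m' l) κ s (fun k => inR E.q E.H m (R k)) F
    (fun _ => w) (fun k hk => (hF k hk).meas) (fun k hk => (hF k hk).decr)
    (fun k hk => (hF k hk).tame)
  · intro k hk k' hk' hne
    rw [Set.disjoint_left]
    rintro θ ⟨h, h1⟩ ⟨h', h2⟩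
    exact hR k hk k' hk' hne _ h1 h2
  · intro k hk
    refine ⟨infl E.q E.H m m' l C, (hF k hk).dep, ?_⟩
    refine le_trans (measureReal_mono ?_ (measure_ne_top E.P _)) hw
    rintro ω ⟨θ, ⟨k, h1, h2, h, h3⟩, h4, h5⟩
    refine ⟨θ, h5, ?_, k, h1, h2, h, ?_⟩
    · exact not_le.1 h4
    · rwa [sub_zero]

/-- `et` at the times `m ≤ k ≤ m'`, tame particles -/
lemma et_tame {m m' l k : ℕ} (hmk : m ≤ k) (hkm : k ≤ m') {R R' : Set Site}
    (hR : ∀ c c' : Site, c ∈ R' → 100 * nrm (c - c') ≤ l → c' ∈ R) {ω ω' : Conf q H}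
    (h1 : ∀ θ, θ ∉ tame q H m m' l → ω θ = 0) (h2 : ∀ θ, θ ∉ tame q H m m' l → ω' θ = 0)
    (h3 : ∀ θ ∈ inR q H m R, ω θ = ω' θ) {v : Site} (hv : cidx q v ∈ R') :
    v ∈ et ω k ↔ v ∈ et ω' k := by
  apply et_congr
  intro θ hk hc
  by_cases hθ : θ ∈ tame q H m m' l
  · rw [h3 θ]
    refine ⟨by omega, ?_⟩
    apply hR _ _ hv
    rw [← hc]
    have := disp_le' θ.1 hmk hkm (by omega) hk
    have hθ' : 100 * θ.1.tot m m' ≤ l := hθ
    have : (100 * θ.1.tot m m' : ℤ) ≤ l := by exact_mod_cast hθ'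
    linarith
  · rw [h1 θ hθ, h2 θ hθ]

lemma et_infl {m m' l C k : ℕ} (hmk : m ≤ k) (hkm : k ≤ m') {ω ω' : Conf q H}
    (h3 : ∀ θ ∈ infl q H m m' l C, ω θ = ω' θ) {v : Site} (hv : nrm (cidx q v) ≤ C * l) :
    v ∈ et ω k ↔ v ∈ et ω' k := by
  apply et_congr
  intro θ hk hc
  rw [h3 θ]
  refine ⟨k, hmk, hkm, hk, ?_⟩
  rw [hc]
  have : (0 : ℤ) ≤ θ.1.tot m m' := by positivity
  linarith

/-- the event `LamE` is local -/
theorem loc_lamE {ρ : ℝ} (hM : Stmt_MEAS) (hq : 20 * (ρ + 2) ≤ q) (hρ : 1 ≤ ρ) {m m' l C : ℕ}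
    (hmm : m < m') (hmH : m' ≤ H) {z : Site} (hz : nrm z + 2 * l + 1 ≤ C * l) {R : Set Site}
    (hR : ∀ c : Site, 100 * nrm (c - z) ≤ 201 * l + 100 → c ∈ R) :
    Loc m m' l C R {ω : Conf q H | LamE ρ ω m m' z l} := by
  have hmeas := (hM q H ρ m m' z z l l).2.2.2.1
  refine ⟨hmeas.1, hmeas.2, ?_, ?_⟩
  · intro ω ω' h1 h2 h3
    have key : ∀ k, m ≤ k → k ≤ m' → ∀ v, nrm (cidx q v - z) ≤ 2 * l + 1 →
        (v ∈ et ω k ↔ v ∈ et ω' k) := by
      intro k hmk hkm v hv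
      refine et_tame hmk hkm (R' := {c | nrm (c - z) ≤ 2 * l + 1}) (R := R) ?_ h1 h2 h3 hv
      intro c c' hc hcc
      apply hR
      have hc' : nrm (c - z) ≤ 2 * l + 1 := hc
      have := nrm_tri c' c z
      have := nrm_sub_comm c c'
      linarith
    apply lamE_congr hq hρ (key m le_rfl hmm.le) (key m' hmm.le le_rfl)
    intro b hb
    apply hole_congr
    intro θ k hk1 hk2 hk3
    by_cases hθ : θ ∈ tame q H m m' l
    · rw [h3 θ]
      refine ⟨by omega, hR _ ?_⟩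
      have hb' : nrm (b - z) ≤ l := hb
      have d1 := disp_D_le θ.1 k hk1 hk2 (by omega)
      have hθ' : 100 * θ.1.tot m m' ≤ l := hθ
      have hθ2 : (100 * θ.1.tot m m' : ℤ) ≤ l := by exact_mod_cast hθ'
      have t1 := nrm_tri (θ.1.c ⟨m, by omega⟩) (θ.1.c k.castSucc) z
      have t2 := nrm_tri (θ.1.c k.castSucc) b z
      have t3 := nrm_sub_comm (θ.1.c ⟨m, by omega⟩) (θ.1.c k.castSucc)
      have : (0 : ℤ) ≤ l := by positivity
      linarith
    · rw [h1 θ hθ, h2 θ hθ]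
  · intro ω ω' h3
    have key : ∀ k, m ≤ k → k ≤ m' → ∀ v, nrm (cidx q v - z) ≤ 2 * l + 1 →
        (v ∈ et ω k ↔ v ∈ et ω' k) := by
      intro k hmk hkm v hv
      apply et_infl hmk hkm h3
      have := nrm_tri (cidx q v) z 0
      rw [sub_zero, sub_zero] at this
      linarith
    apply lamE_congr hq hρ (key m le_rfl hmm.le) (key m' hmm.le le_rfl)
    intro b hb
    apply hole_congr
    intro θ k hk1 hk2 hk3
    rw [h3 θ]
    refine ⟨k, hk1, hk2.le, by omega, ?_⟩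
    have e : (⟨(k : ℕ), by omega⟩ : Fin (H + 1)) = k.castSucc := by apply Fin.ext; simp
    rw [e]
    have hb' : nrm (b - z) ≤ l := hb
    have d1 := D_le_tot θ.1 k hk1 hk2
    have d2 : (θ.1.D k : ℤ) ≤ θ.1.tot m m' := by exact_mod_cast d1
    have t1 := nrm_tri (θ.1.c k.castSucc) b 0
    have t2 := nrm_tri b z 0
    rw [sub_zero, sub_zero] at t1 t2
    have : (0 : ℤ) ≤ l := by positivity
    linarith

/-- double arms are local -/
theorem loc_arm {ρ : ℝ} (hM : Stmt_MEAS) (hq : 20 * (ρ + 2) ≤ q) (hρ : 1 ≤ ρ) {m m' l C : ℕ}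
    (hmm : m < m') {z : Site} {a b : ℕ} (hz : nrm z + b + 1 ≤ C * l) {R : Set Site}
    (hR : ∀ c : Site, 100 * (a : ℤ) ≤ 100 * nrm (c - z) + l →
      100 * nrm (c - z) ≤ 100 * b + 100 + l → c ∈ R) :
    Loc m m' l C R {ω : Conf q H | Arm ρ q (et ω m) z a z b ∧ Arm ρ q (et ω m') z a z b} := by
  have hmeas := (hM q H ρ m m z z a b).1
  have hmeas' := (hM q H ρ m' m' z z a b).1
  refine ⟨hmeas.1.inter hmeas'.1, ?_, ?_, ?_⟩
  · intro ω ω' hle h
    exact ⟨hmeas.2 ω ω' hle h.1, hmeas'.2 ω ω' hle h.2⟩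
  · intro ω ω' h1 h2 h3
    have key : ∀ k, m ≤ k → k ≤ m' → (Arm ρ q (et ω k) z a z b ↔ Arm ρ q (et ω' k) z a z b) := by
      intro k hmk hkm
      apply arm_congr' hq hρ
      intro v hv1 hv2
      refine et_tame hmk hkm (R' := {c | (a : ℤ) ≤ nrm (c - z) ∧ nrm (c - z) ≤ b + 1}) (R := R)
        ?_ h1 h2 h3 ⟨hv1, hv2⟩
      rintro c c' ⟨hc1, hc2⟩ hcc
      have t1 := nrm_tri c' c z
      have t2 := nrm_tri c c' z
      have t3 := nrm_sub_comm c c'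
      apply hR <;> linarith
    exact and_congr (key m le_rfl hmm.le) (key m' hmm.le le_rfl)
  · intro ω ω' h3
    have key : ∀ k, m ≤ k → k ≤ m' → (Arm ρ q (et ω k) z a z b ↔ Arm ρ q (et ω' k) z a z b) := by
      intro k hmk hkm
      apply arm_congr' hq hρ
      intro v hv1 hv2
      apply et_infl hmk hkm h3
      have := nrm_tri (cidx q v) z 0
      rw [sub_zero, sub_zero] at this
      linarith
    exact and_congr (key m le_rfl hmm.le) (key m' hmm.le le_rfl)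

end MPdd5692.RUPA
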