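import Mathlib
import Pool.Agent.Work.MP_dd5692_pr.InterfaceC
import Pool.Agent.Work.MP_dd5692_pr.RUPA

/-!
# MP_dd5692_pr: RUP2 (helper31): second moment, the pairs
-/

open MeasureTheory ProbabilityTheory Set
open scoped ENNReal NNReal BigOperators

namespace MPdd5692.RUP2

open MPdd5692.RUPA

variable {c e I δ Λ : ℝ} {nmax : ℕ}

/-! ### numerical facts -/

lemma al_nonneg (E : Env c e I δ Λ nmax) (a b : ℕ) : 0 ≤ E.al a b := by
  unfold Env.al alpha SP; exact measureReal_nonneg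

lemma al_ge (E : Env c e I δ Λ nmax) {a b : ℕ} (hab : a ≤ b) (hb : b ≤ nmax) {x : ℝ} (hx0 : 0 ≤ x)
    (hx : x * (2 * (b : ℝ) + 1) ≤ 2 * a + 1) : c * x ^ (1 - e) ≤ E.al a b := by
  have h := E.ok.arm_ge a b hab hb
  have he := E.ok.e_lt
  refine le_trans ?_ h
  apply mul_le_mul_of_nonneg_left _ E.ok.c_pos.le
  apply Real.rpow_le_rpow hx0 _ (by linarith)
  rw [le_div_iff₀ (by positivity)]
  exact hx

lemma al_ge' (E : Env c e I δ Λ nmax) {a b : ℕ} (hab : a ≤ b) (hb : b ≤ nmax) {x : ℝ} (hx0 : 0 < x)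
    (hx1 : x ≤ 1) (hx : x * (2 * (b : ℝ) + 1) ≤ 2 * a + 1) : c * x ≤ E.al a b := by
  refine le_trans ?_ (al_ge E hab hb hx0.le hx)
  apply mul_le_mul_of_nonneg_left _ E.ok.c_pos.le
  have he := E.ok.e_lt
  have he' := E.ok.e_pos
  calc x = x ^ (1 : ℝ) := (Real.rpow_one x).symm
    _ ≤ x ^ (1 - e) := Real.rpow_le_rpow_of_exponent_ge hx0 hx1 (by linarith)

/-- from QM: `al (3l) D ≤ (2 C / c) al l D` -/
lemma al_shrink {C : ℝ} (hQ : ∀ (nmax : ℕ) (ρ : ℝ) (q : ℕ) (l : ℝ≥0) (j : ℕ),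
    StaticOK c e nmax ρ q l j → ∀ a b b' d : ℕ, 1 ≤ a → a < b → b ≤ b' → b' ≤ 20 * b → b' < d →
    2 * d ≤ nmax → alpha ρ q l j a b * alpha ρ q l j b' d ≤ C * alpha ρ q l j a d)
    (E : Env c e I δ Λ nmax) {l D : ℕ} (hl : 1 ≤ l) (hD : 3 * l < D) (hn : 2 * D ≤ nmax) :
    E.al (3 * l) D ≤ 2 * C / c * E.al l D := by
  have hc := E.ok.c_pos
  have h1 := hQ nmax E.ρ E.q E.lam E.j E.ok l (2 * l) (3 * l) D hl (by omega) (by omega) (by omega)
    hD hn
  have h2 : c * (1 / 2) ≤ E.al l (2 * l) := by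
    apply al_ge' E (by omega) (by omega) (by norm_num) (by norm_num)
    push_cast; linarith
  have h3 : c * (1 / 2) * E.al (3 * l) D ≤ C * E.al l D :=
    (mul_le_mul_of_nonneg_right h2 (al_nonneg E _ _)).trans h1
  rw [div_mul_eq_mul_div, le_div_iff₀ hc]
  linarith

/-- from QM: `al a D ≤ (3 C / c) al a (3 D)`, with a gap in the middle -/
lemma al_extend {C : ℝ} (hQ : ∀ (nmax : ℕ) (ρ : ℝ) (q : ℕ) (l : ℝ≥0) (j : ℕ),
    StaticOK c e nmax ρ q l j → ∀ a b b' d : ℕ, 1 ≤ a → a < b → b ≤ b' → b' ≤ 20 * b → b' < d →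
    2 * d ≤ nmax → alpha ρ q l j a b * alpha ρ q l j b' d ≤ C * alpha ρ q l j a d)
    (E : Env c e I δ Λ nmax) {a b D : ℕ} (ha : 1 ≤ a) (hab : a < b) (hbD : b ≤ D)
    (hD : D ≤ 20 * b) (hn : 6 * D ≤ nmax) :
    E.al a b ≤ 3 * C / c * E.al a (3 * D) := by
  have hc := E.ok.c_pos
  have h1 := hQ nmax E.ρ E.q E.lam E.j E.ok a b D (3 * D) ha hab hbD hD (by omega) (by omega)
  have h2 : c * (1 / 3) ≤ E.al D (3 * D) := by
    apply al_ge' E (by omega) (by omega) (by norm_num) (by norm_num)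
    push_cast; linarith
  have h3 : E.al a b * (c * (1 / 3)) ≤ C * E.al a (3 * D) :=
    (mul_le_mul_of_nonneg_left h2 (al_nonneg E _ _)).trans h1
  rw [div_mul_eq_mul_div, le_div_iff₀ hc]
  linarith

/-! ### translation invariance -/

lemma lam_trans (hT : Stmt_TRANS) (hM : Stmt_MEAS) (E : Env c e I δ Λ nmax) (m m' l : ℕ)
    (z : Site) : E.P.real {ω | LamE E.ρ ω m m' z l} = E.P.real {ω | LamE E.ρ ω m m' 0 l} := by
  obtain ⟨h1, -, h3, -⟩ := hT E.q E.H _ δ Λ E.L E.lam z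
  have hmeas : Measurable (shiftC (q := E.q) (H := E.H) z) := by
    unfold shiftC
    exact measurable_pi_lambda _ fun θ => measurable_pi_apply _
  have hset := (hM E.q E.H E.ρ m m' 0 0 l l).2.2.2.1.1
  have e1 : E.P {ω | LamE E.ρ ω m m' 0 l} = E.P {ω | LamE E.ρ ω m m' z l} := by
    have : E.P = E.P.map (shiftC z) := h1.symm
    conv_lhs => rw [this]
    rw [Measure.map_apply hmeas hset]
    congr 1
    ext ω
    simp only [mem_preimage, mem_ofPred_eq]
    rw [h3 E.ρ ω m m' 0 l, zero_add]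
  unfold Measure.real
  rw [e1]

/-! ### the five events -/

/-- core inequality; the fifth event `F4` (region `R4`) is arbitrary -/
lemma core (hT : Stmt_TAMEI) (hM : Stmt_MEAS) (E : Env c e I δ Λ nmax) {m m' l K : ℕ} {w : ℝ}
    {z z' : Site} (hw : E.P.real {ω | ∃ θ : FMark E.q E.H, ω θ ≠ 0 ∧ l < 100 * θ.1.tot m m' ∧
      ∃ k : ℕ, m ≤ k ∧ k ≤ m' ∧ ∃ h : k < E.H + 1,
        nrm (θ.1.c ⟨k, h⟩ - 0) ≤ (4 * K : ℕ) * l + θ.1.tot m m'} ≤ w)
    (hmm : m < m') (hmH : m' ≤ E.H) (hK : 8 ≤ K) (hl : 100 ≤ l)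
    (hz : 2 * nrm z ≤ K * l) (hz' : 2 * nrm z' ≤ K * l) {r : ℕ} (hr : nrm (z - z') = r)
    (hrl : 10 * l ≤ r)
    (F4 : Set (Conf E.q E.H)) (R4 : Set Site) (hL4 : Loc m m' l (4 * K) R4 F4)
    (hR4 : ∀ x ∈ R4, 200 * (r : ℤ) ≤ 100 * nrm (x - z) + l)
    (hsub : ∀ ω, TwoE E.ρ K ω m m' z l → ω ∈ F4) :
    E.P.real {ω | TwoE E.ρ K ω m m' z l ∧ TwoE E.ρ K ω m m' z' l} ≤
      (E.P.real {ω | LamE E.ρ ω m m' z l} + w) * (E.P.real {ω | LamE E.ρ ω m m' z' l} + w) *
      (E.P.real {ω | Arm E.ρ E.q (et ω m) z (3 * l) z (r / 3) ∧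
        Arm E.ρ E.q (et ω m') z (3 * l) z (r / 3)} + w) *
      (E.P.real {ω | Arm E.ρ E.q (et ω m) z' (3 * l) z' (r / 3) ∧
        Arm E.ρ E.q (et ω m') z' (3 * l) z' (r / 3)} + w) * (E.P.real F4 + w) := by
  have hq := E.ok.short
  have hρ := E.ok.ρ_pos
  have hl' : (100 : ℤ) ≤ l := by exact_mod_cast hl
  have hKl : 8 * (l : ℤ) ≤ K * l := by
    have : (8 : ℤ) ≤ K := by exact_mod_cast hK
    have : (0 : ℤ) ≤ l := by positivity
    nlinarith
  have hrK : (r : ℤ) ≤ K * l := by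
    have := nrm_tri z 0 z'
    rw [sub_zero, zero_sub, nrm_neg, hr] at this
    linarith
  have hr3 : 3 * ((r / 3 : ℕ) : ℤ) ≤ r ∧ (r : ℤ) ≤ 3 * ((r / 3 : ℕ) : ℤ) + 2 := by omega
  have hr3c : 3 * ((r : ℤ) / 3) ≤ r := by omega
  have hcomm : nrm (z' - z) = r := by rw [nrm_sub_comm, hr]
  let F : Fin 5 → Set (Conf E.q E.H) := ![{ω | LamE E.ρ ω m m' z l}, {ω | LamE E.ρ ω m m' z' l},
    {ω | Arm E.ρ E.q (et ω m) z (3 * l) z (r / 3) ∧ Arm E.ρ E.q (et ω m') z (3 * l) z (r / 3)},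
    {ω | Arm E.ρ E.q (et ω m) z' (3 * l) z' (r / 3) ∧ Arm E.ρ E.q (et ω m') z' (3 * l) z' (r / 3)},
    F4]
  let R : Fin 5 → Set Site := ![{x | 100 * nrm (x - z) ≤ 201 * l + 100},
    {x | 100 * nrm (x - z') ≤ 201 * l + 100},
    {x | 100 * ((3 * l : ℕ) : ℤ) ≤ 100 * nrm (x - z) + l ∧
      100 * nrm (x - z) ≤ 100 * ((r / 3 : ℕ) : ℤ) + 100 + l},
    {x | 100 * ((3 * l : ℕ) : ℤ) ≤ 100 * nrm (x - z') + l ∧
      100 * nrm (x - z') ≤ 100 * ((r / 3 : ℕ) : ℤ) + 100 + l}, R4]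
  have hF : ∀ k ∈ (Finset.univ : Finset (Fin 5)), Loc m m' l (4 * K) (R k) (F k) := by
    intro k _
    fin_cases k
    · exact loc_lamE hM hq hρ hmm hmH (by push_cast; linarith) (fun x hx => hx)
    · exact loc_lamE hM hq hρ hmm hmH (by push_cast; linarith) (fun x hx => hx)
    · exact loc_arm hM hq hρ hmm (by push_cast; linarith) (fun x h1 h2 => ⟨h1, h2⟩)
    · exact loc_arm hM hq hρ hmm (by push_cast; linarith) (fun x h1 h2 => ⟨h1, h2⟩)
    · exact hL4
  have hR : ∀ k ∈ (Finset.univ : Finset (Fin 5)), ∀ k' ∈ (Finset.univ : Finset (Fin 5)), k ≠ k' →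
      ∀ x ∈ R k, x ∉ R k' := by
    have key : ∀ x : Site, (r : ℤ) ≤ nrm (x - z) + nrm (x - z') ∧
        nrm (x - z) ≤ nrm (x - z') + r ∧ nrm (x - z') ≤ nrm (x - z) + r := by
      intro x
      have t1 := nrm_tri z x z'
      have t2 := nrm_tri x z' z
      have t3 := nrm_tri x z z'
      rw [nrm_sub_comm z x, hr] at t1
      rw [hcomm] at t2
      rw [hr] at t3
      exact ⟨t1, t2, t3⟩
    -- unordered pairs
    have m0 : ∀ x, x ∈ R 0 → 100 * nrm (x - z) ≤ 201 * l + 100 := fun x hx => hx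
    have m1 : ∀ x, x ∈ R 1 → 100 * nrm (x - z') ≤ 201 * l + 100 := fun x hx => hx
    have m2 : ∀ x, x ∈ R 2 → 100 * (3 * (l : ℤ)) ≤ 100 * nrm (x - z) + l ∧
      100 * nrm (x - z) ≤ 100 * ((r / 3 : ℕ) : ℤ) + 100 + l := fun x hx => by
        have := hx.1; push_cast at this; exact ⟨this, hx.2⟩
    have m3 : ∀ x, x ∈ R 3 → 100 * (3 * (l : ℤ)) ≤ 100 * nrm (x - z') + l ∧
      100 * nrm (x - z') ≤ 100 * ((r / 3 : ℕ) : ℤ) + 100 + l := fun x hx => by
        have := hx.1; push_cast at this; exact ⟨this, hx.2⟩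
    have m4 : ∀ x, x ∈ R 4 → 200 * (r : ℤ) ≤ 100 * nrm (x - z) + l := fun x hx => hR4 x hx
    have p01 : ∀ x, x ∈ R 0 → x ∈ R 1 → False := fun x h h' => by
      have := m0 x h; have := m1 x h'; have := key x; omega
    have p02 : ∀ x, x ∈ R 0 → x ∈ R 2 → False := fun x h h' => by
      have := m0 x h; have := m2 x h'; have := key x; omega
    have p03 : ∀ x, x ∈ R 0 → x ∈ R 3 → False := fun x h h' => by
      have := m0 x h; have := m3 x h'; have := key x; omega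
    have p04 : ∀ x, x ∈ R 0 → x ∈ R 4 → False := fun x h h' => by
      have := m0 x h; have := m4 x h'; have := key x; omega
    have p12 : ∀ x, x ∈ R 1 → x ∈ R 2 → False := fun x h h' => by
      have := m1 x h; have := m2 x h'; have := key x; omega
    have p13 : ∀ x, x ∈ R 1 → x ∈ R 3 → False := fun x h h' => by
      have := m1 x h; have := m3 x h'; have := key x; omega
    have p14 : ∀ x, x ∈ R 1 → x ∈ R 4 → False := fun x h h' => by
      have := m1 x h; have := m4 x h'; have := key x; omega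
    have p23 : ∀ x, x ∈ R 2 → x ∈ R 3 → False := fun x h h' => by
      have := m2 x h; have := m3 x h'; have := key x; omega
    have p24 : ∀ x, x ∈ R 2 → x ∈ R 4 → False := fun x h h' => by
      have := m2 x h; have := m4 x h'; have := key x; omega
    have p34 : ∀ x, x ∈ R 3 → x ∈ R 4 → False := fun x h h' => by
      have := m3 x h; have := m4 x h'; have := key x; omega
    intro k _ k' _ hne x hx hx'
    fin_cases k <;> fin_cases k' <;> first
      | exact absurd rfl hne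
      | exact p01 x hx hx' | exact p01 x hx' hx | exact p02 x hx hx' | exact p02 x hx' hx
      | exact p03 x hx hx' | exact p03 x hx' hx | exact p04 x hx hx' | exact p04 x hx' hx
      | exact p12 x hx hx' | exact p12 x hx' hx | exact p13 x hx hx' | exact p13 x hx' hx
      | exact p14 x hx hx' | exact p14 x hx' hx | exact p23 x hx hx' | exact p23 x hx' hx
      | exact p24 x hx hx' | exact p24 x hx' hx | exact p34 x hx hx' | exact p34 x hx' hx
  have hw' : E.P.real {ω | ∃ θ : FMark E.q E.H, ω θ ≠ 0 ∧ l < 100 * θ.1.tot m m' ∧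
      ∃ k : ℕ, m ≤ k ∧ k ≤ m' ∧ ∃ h : k < E.H + 1,
        nrm (θ.1.c ⟨k, h⟩ - 0) ≤ ((4 * K : ℕ) : ℤ) * l + θ.1.tot m m'} ≤ w := hw
  have hprod := prod_le hT E hw' (Finset.univ : Finset (Fin 5)) F R hF hR
  rw [Fin.prod_univ_five] at hprod
  refine le_trans (measureReal_mono ?_ (measure_ne_top E.P _)) hprod
  rintro ω ⟨h, h'⟩
  have a2 : ∀ {y : Site} {S : Set Site}, 2 * nrm y ≤ K * l → Arm E.ρ E.q S y l 0 (2 * K * l) →
      Arm E.ρ E.q S y (3 * l) y (r / 3) := by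
    intro y S hy ha
    apply arm_mono _ _ ha
    · rw [sub_self]
      have : nrm (0 : Site) = 0 := by simp [nrm]
      rw [this]; push_cast; linarith
    · rw [sub_zero]; push_cast; linarith
  simp only [mem_iInter]
  intro k _
  fin_cases k
  · exact h.1
  · exact h'.1
  · exact ⟨a2 hz h.2.1, a2 hz h.2.2⟩
  · exact ⟨a2 hz' h'.2.1, a2 hz' h'.2.2⟩
  · exact hsub ω h

/-- the whole space is a local event -/
lemma loc_univ {q H m m' l C : ℕ} [NeZero q] : Loc (q := q) (H := H) m m' l C ∅ univ :=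
  ⟨MeasurableSet.univ, fun _ _ _ _ => mem_univ _, fun _ _ _ _ _ => Iff.rfl,
    fun _ _ _ => Iff.rfl⟩

/-- numerical end of the proof, factor by factor -/
lemma five_le {a b x y u q X Y w : ℝ} (ha : a ≤ q) (hb : b ≤ q) (hwq : w ≤ q) (hw : 0 ≤ w)
    (_ha0 : 0 ≤ a) (hb0 : 0 ≤ b) (hx0 : 0 ≤ x) (hy0 : 0 ≤ y) (hu0 : 0 ≤ u)
    (hx : x + w ≤ 2 * X ^ 2) (hy : y + w ≤ 2 * X ^ 2) (hu : u + w ≤ 2 * Y ^ 2) :
    (a + w) * (b + w) * (x + w) * (y + w) * (u + w) ≤ 32 * q ^ 2 * (X ^ 4 * Y ^ 2) := by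
  have hq0 : 0 ≤ q := hw.trans hwq
  have h1 : (a + w) * (b + w) ≤ (2 * q) * (2 * q) :=
    mul_le_mul (by linarith) (by linarith) (by linarith) (by linarith)
  have h2 : (a + w) * (b + w) * (x + w) ≤ (2 * q) * (2 * q) * (2 * X ^ 2) :=
    mul_le_mul h1 hx (by linarith) (by nlinarith)
  have h3 : (a + w) * (b + w) * (x + w) * (y + w) ≤ (2 * q) * (2 * q) * (2 * X ^ 2) * (2 * X ^ 2) :=
    mul_le_mul h2 hy (by linarith) (by positivity)
  have h4 : (a + w) * (b + w) * (x + w) * (y + w) * (u + w) ≤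
      (2 * q) * (2 * q) * (2 * X ^ 2) * (2 * X ^ 2) * (2 * Y ^ 2) :=
    mul_le_mul h3 hu (by linarith) (by positivity)
  calc _ ≤ _ := h4
    _ = _ := by ring

end MPdd5692.RUP2

namespace MPdd5692

open RUPA RUP2

/-- RUP2 -/
theorem stmt_RUP2 (h1 : Stmt_QM) (h2 : Stmt_WILD) (h3 : Stmt_TAMEI) (_h4 : Stmt_STATIC)
    (h5 : Stmt_TRANS) (h6 : Stmt_MEAS) : Stmt_RUP2 := by
  intro c e hc he0 he1
  obtain ⟨C, hC, hQ⟩ := h1 c e hc
  -- the constants
  set C1 : ℝ := (2 * C / c) * (3 * C / c) with hC1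
  have hC1pos : 0 < C1 := by positivity
  refine ⟨32 * ((C * C1) ^ 4 / c ^ 2 + C1 ^ 4), by positivity, ?_⟩
  intro K hK
  have hK0 : (0 : ℝ) < K := by
    have : (8 : ℝ) ≤ K := by exact_mod_cast hK
    linarith
  set κ0 : ℝ := c ^ 2 / (2 * K ^ 2) with hκ0
  have hκpos : 0 < κ0 := by positivity
  refine ⟨κ0, hκpos, ?_⟩
  intro I Λ N
  obtain ⟨R0, hR0⟩ := h2 I Λ N (4 * K) (min 1 κ0) (by positivity)
  refine ⟨max R0 100, ?_⟩
  intro δ nmax E m m' l z z' hAD hmm hmH hmN hRl hKn hz hz' hzz hq9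
  have hl0 : R0 ≤ l := (le_max_left _ _).trans hRl
  have hl100 : 100 ≤ l := (le_max_right _ _).trans hRl
  obtain ⟨r, hr⟩ : ∃ r : ℕ, nrm (z - z') = r := ⟨(nrm (z - z')).toNat, by
    rw [Int.toNat_of_nonneg (nrm_nonneg _)]⟩
  have hr10 : 10 * l ≤ r := by
    have : (10 * l : ℤ) ≤ r := by rw [← hr]; exact hzz
    exact_mod_cast this
  have hlR : (100 : ℝ) ≤ l := by exact_mod_cast hl100
  have hlpos : (0 : ℝ) < l := by linarith
  set q0 : ℝ := E.P.real {ω | LamE E.ρ ω m m' 0 l} with hq0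
  -- wild particles
  set w : ℝ := min 1 κ0 / (l : ℝ) ^ 10 with hwdef
  have hw := hR0 l hl0 E.q E.H _ δ E.L E.lam E.inten m m' 0 hmm.le hmH hmN
  have hw0 : 0 ≤ w := by positivity
  have hl9 : (1 : ℝ) ≤ (l : ℝ) ^ 9 := one_le_pow₀ (by linarith)
  have hl10 : (l : ℝ) ^ 9 ≤ (l : ℝ) ^ 10 := pow_le_pow_right₀ (by linarith) (by norm_num)
  have hwq : w ≤ q0 := by
    refine le_trans ?_ hq9
    rw [hwdef]
    calc min 1 κ0 / (l : ℝ) ^ 10 ≤ 1 / (l : ℝ) ^ 10 := by
          apply div_le_div_of_nonneg_right (min_le_left _ _) (by positivity)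
      _ ≤ 1 / (l : ℝ) ^ 9 := one_div_le_one_div_of_le (by positivity) hl10
  have hwκ : w ≤ κ0 := by
    rw [hwdef]
    calc min 1 κ0 / (l : ℝ) ^ 10 ≤ κ0 / (l : ℝ) ^ 10 := by
          apply div_le_div_of_nonneg_right (min_le_right _ _) (by positivity)
      _ ≤ κ0 / 1 := by
          apply div_le_div_of_nonneg_left hκpos.le one_pos (hl9.trans hl10)
      _ = κ0 := div_one _
  have hw1 : w ≤ 1 := by
    rw [hwdef]
    calc min 1 κ0 / (l : ℝ) ^ 10 ≤ 1 / (l : ℝ) ^ 10 := by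
          apply div_le_div_of_nonneg_right (min_le_left _ _) (by positivity)
      _ ≤ 1 / 1 := one_div_le_one_div_of_le one_pos (hl9.trans hl10)
      _ = 1 := div_one _
  -- geometry
  have hrK : r ≤ K * l := by
    have := nrm_tri z 0 z'
    rw [sub_zero, zero_sub, nrm_neg, hr] at this
    have h : (r : ℤ) ≤ K * l := by linarith
    exact_mod_cast h
  have hKl8 : 8 * l ≤ K * l := Nat.mul_le_mul_right _ hK
  have hKn' : 10 * (K * l) ≤ nmax := by rw [← mul_assoc]; exact hKn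
  -- any arm factor
  have harm : ∀ (y : Site) (a b : ℕ), l ≤ a → 11 * a ≤ 10 * b → b ≤ K * l →
      E.P.real {ω | Arm E.ρ E.q (et ω m) y a y b ∧ Arm E.ρ E.q (et ω m') y a y b} + w ≤
        2 * (E.al a b) ^ 2 := by
    intro y a b hla hab' hbK
    have hab : a ≤ b := by omega
    have hb100 : b ≤ 100 * K * a := by
      calc b ≤ K * l := hbK
        _ ≤ K * a := Nat.mul_le_mul_left _ hla
        _ ≤ 100 * K * a := by nlinarith
    have hAD1 := hAD m m' (by omega) hmH hmm.ne y a b hla hab' hb100 (by omega)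
    have hlow : c * (1 / K) ≤ E.al a b := by
      apply al_ge' E hab (by omega) (by positivity)
      · rw [div_le_one hK0]
        have : (8 : ℝ) ≤ K := by exact_mod_cast hK
        linarith
      · rw [div_mul_eq_mul_div, one_mul, div_le_iff₀ hK0]
        have hbK' : (b : ℝ) ≤ K * l := by exact_mod_cast hbK
        have hla' : (l : ℝ) ≤ a := by exact_mod_cast hla
        have : (1 : ℝ) ≤ K := by
          have : (8 : ℝ) ≤ K := by exact_mod_cast hK
          linarith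
        nlinarith
    have hsq : 2 * κ0 ≤ (E.al a b) ^ 2 := by
      calc 2 * κ0 = (c * (1 / K)) ^ 2 := by rw [hκ0]; field_simp
        _ ≤ _ := pow_le_pow_left₀ (by positivity) hlow 2
    linarith
  have hF0 : E.P.real {ω | LamE E.ρ ω m m' z l} ≤ q0 := (lam_trans h5 h6 E m m' l z).le
  have hF1 : E.P.real {ω | LamE E.ρ ω m m' z' l} ≤ q0 := (lam_trans h5 h6 E m m' l z').le
  have hX0 := al_nonneg E (3 * l) (r / 3)
  have hAnn := al_nonneg E l (3 * K * l)
  have hF2 := harm z (3 * l) (r / 3) (by omega) (by omega) (by omega)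
  have hF3 := harm z' (3 * l) (r / 3) (by omega) (by omega) (by omega)
  have hrpos : (0 : ℝ) < r := by
    have : (10 * l : ℝ) ≤ r := by exact_mod_cast hr10
    linarith
  have hrKR : (r : ℝ) ≤ K * l := by exact_mod_cast hrK
  have hratio : (1 : ℝ) ≤ (K : ℝ) * l / (r : ℝ) := by rw [le_div_iff₀ hrpos, one_mul]; exact hrKR
  have hcastr : ((nrm (z - z') : ℤ) : ℝ) = r := by rw [hr]; simp
  rw [hcastr]
  have hpow1 : (1 : ℝ) ≤ ((K : ℝ) * l / r) ^ (2 - 2 * e) :=
    Real.one_le_rpow hratio (by linarith)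
  have hshr : E.al (3 * l) (K * l) ≤ C1 * E.al l (3 * K * l) := by
    have s1 := al_shrink hQ E (l := l) (D := K * l) (by omega) (by omega) (by omega)
    have s2 := al_extend hQ E (a := l) (b := K * l) (D := K * l) (by omega) (by omega) le_rfl
      (by omega) (by omega)
    have e3 : 3 * (K * l) = 3 * K * l := by ring
    rw [e3] at s2
    calc _ ≤ 2 * C / c * E.al l (K * l) := s1
      _ ≤ 2 * C / c * (3 * C / c * E.al l (3 * K * l)) :=
        mul_le_mul_of_nonneg_left s2 (by positivity)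
      _ = _ := by rw [hC1]; ring
  by_cases hcase : 11 * (2 * r) ≤ 10 * (K * l)
  · -- the case of an outer arm
    have hL4 : Loc m m' l (4 * K) {x | 100 * ((2 * r : ℕ) : ℤ) ≤ 100 * nrm (x - z) + l ∧
        100 * nrm (x - z) ≤ 100 * ((K * l : ℕ) : ℤ) + 100 + l}
        {ω : Conf E.q E.H | Arm E.ρ E.q (et ω m) z (2 * r) z (K * l) ∧
          Arm E.ρ E.q (et ω m') z (2 * r) z (K * l)} := by
      refine loc_arm h6 E.ok.short E.ok.ρ_pos hmm ?_ (fun x h1 h2 => ⟨h1, h2⟩)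
      push_cast
      have : (8 * l : ℤ) ≤ K * l := by exact_mod_cast hKl8
      have : (100 : ℤ) ≤ l := by exact_mod_cast hl100
      linarith
    have hcore := core h3 h6 E (K := K) hw hmm hmH hK hl100 hz hz' hr hr10 _ _ hL4
      (fun x hx => by have := hx.1; push_cast at this; linarith)
      (fun ω hω => by
        have key : ∀ S : Set Site, Arm E.ρ E.q S z l 0 (2 * K * l) →
            Arm E.ρ E.q S z (2 * r) z (K * l) := by
          intro S hS
          apply arm_mono _ _ hS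
          · rw [sub_self]
            have : nrm (0 : Site) = 0 := by simp [nrm]
            rw [this]; push_cast; omega
          · rw [sub_zero]; push_cast; linarith
        exact ⟨key _ hω.2.1, key _ hω.2.2⟩)
    have hF4 := harm z (2 * r) (K * l) (by omega) (by omega) le_rfl
    have hY0 := al_nonneg E (2 * r) (K * l)
    have h5 := five_le hF0 hF1 hwq hw0 measureReal_nonneg measureReal_nonneg measureReal_nonneg
      measureReal_nonneg measureReal_nonneg hF2 hF3 hF4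
    refine (hcore.trans h5).trans ?_
    -- QM
    have hXY := hQ nmax E.ρ E.q E.lam E.j E.ok (3 * l) (r / 3) (2 * r) (K * l) (by omega)
      (by omega) (by omega) (by omega) (by omega) (by omega)
    have hXY' : E.al (3 * l) (r / 3) * E.al (2 * r) (K * l) ≤ C * C1 * E.al l (3 * K * l) := by
      calc _ ≤ C * E.al (3 * l) (K * l) := hXY
        _ ≤ C * (C1 * E.al l (3 * K * l)) := mul_le_mul_of_nonneg_left hshr hC.le
        _ = _ := by ring
    -- lower bound for the outer arm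
    set t : ℝ := (r : ℝ) / (K * l) with ht
    have htpos : 0 < t := by positivity
    have hYlow : c * t ^ (1 - e) ≤ E.al (2 * r) (K * l) := by
      apply al_ge E (by omega) (by omega) htpos.le
      rw [ht, div_mul_eq_mul_div, div_le_iff₀ (by positivity)]
      push_cast
      have : (0 : ℝ) ≤ (r : ℝ) * (K * l) := by positivity
      nlinarith
    have hYpos : 0 < E.al (2 * r) (K * l) := lt_of_lt_of_le (by positivity) hYlow
    set X := E.al (3 * l) (r / 3)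
    set Y := E.al (2 * r) (K * l)
    set A := E.al l (3 * K * l)
    have e4 : X ^ 4 * Y ^ 2 = (X * Y) ^ 4 / Y ^ 2 := by
      field_simp
    have e5 : (X * Y) ^ 4 ≤ (C * C1 * A) ^ 4 := pow_le_pow_left₀ (by positivity) hXY' 4
    have e6 : (c * t ^ (1 - e)) ^ 2 ≤ Y ^ 2 := pow_le_pow_left₀ (by positivity) hYlow 2
    have e7 : X ^ 4 * Y ^ 2 ≤ (C * C1 * A) ^ 4 / (c * t ^ (1 - e)) ^ 2 := by
      rw [e4]
      exact div_le_div₀ (by positivity) e5 (by positivity) e6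
    have e8 : (c * t ^ (1 - e)) ^ 2 = c ^ 2 / ((K : ℝ) * l / r) ^ (2 - 2 * e) := by
      have ht' : t = ((K : ℝ) * l / r)⁻¹ := by rw [ht, inv_div]
      have hB : (((K : ℝ) * l / r) ^ (1 - e)) ^ 2 = ((K : ℝ) * l / r) ^ (2 - 2 * e) := by
        rw [← Real.rpow_natCast (((K : ℝ) * l / r) ^ (1 - e)) 2, ← Real.rpow_mul (by positivity)]
        congr 1
        push_cast; ring
      rw [mul_pow, ht', Real.inv_rpow (by positivity), inv_pow, hB]
      exact (div_eq_mul_inv _ _).symm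
    rw [e8] at e7
    have e9 : (C * C1 * A) ^ 4 / (c ^ 2 / ((K : ℝ) * l / r) ^ (2 - 2 * e)) =
        (C * C1) ^ 4 / c ^ 2 * A ^ 4 * ((K : ℝ) * l / r) ^ (2 - 2 * e) := by
      field_simp
    rw [e9] at e7
    have e10 : 0 ≤ q0 ^ 2 * A ^ 4 * ((K : ℝ) * l / r) ^ (2 - 2 * e) * C1 ^ 4 := by positivity
    calc 32 * q0 ^ 2 * (X ^ 4 * Y ^ 2)
        ≤ 32 * q0 ^ 2 * ((C * C1) ^ 4 / c ^ 2 * A ^ 4 * ((K : ℝ) * l / r) ^ (2 - 2 * e)) :=
          mul_le_mul_of_nonneg_left e7 (by positivity)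
      _ ≤ 32 * q0 ^ 2 * ((C * C1) ^ 4 / c ^ 2 * A ^ 4 * ((K : ℝ) * l / r) ^ (2 - 2 * e)) +
          32 * (q0 ^ 2 * A ^ 4 * ((K : ℝ) * l / r) ^ (2 - 2 * e) * C1 ^ 4) := by linarith
      _ = _ := by ring
  · -- no outer arm
    have hcore := core h3 h6 E (K := K) hw hmm hmH hK hl100 hz hz' hr hr10 univ ∅ loc_univ
      (fun x hx => absurd hx (notMem_empty x)) (fun ω _ => mem_univ ω)
    have hF4 : E.P.real (univ : Set (Conf E.q E.H)) + w ≤ 2 * (1 : ℝ) ^ 2 := by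
      have : E.P.real (univ : Set (Conf E.q E.H)) = 1 := probReal_univ
      rw [this]; linarith
    have h5 := five_le hF0 hF1 hwq hw0 measureReal_nonneg measureReal_nonneg measureReal_nonneg
      measureReal_nonneg measureReal_nonneg hF2 hF3 hF4
    refine (hcore.trans h5).trans ?_
    have s1 := al_extend hQ E (a := 3 * l) (b := r / 3) (D := K * l) (by omega) (by omega)
      (by omega) (by omega) (by omega)
    have s2 := al_shrink hQ E (l := l) (D := 3 * (K * l)) (by omega) (by omega) (by omega)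
    have e3 : 3 * (K * l) = 3 * K * l := by ring
    rw [e3] at s1 s2
    set X := E.al (3 * l) (r / 3)
    set A := E.al l (3 * K * l)
    have hX : X ≤ C1 * A := by
      calc X ≤ 3 * C / c * E.al (3 * l) (3 * K * l) := s1
        _ ≤ 3 * C / c * (2 * C / c * A) := mul_le_mul_of_nonneg_left s2 (by positivity)
        _ = _ := by rw [hC1]; ring
    have hX4 : X ^ 4 ≤ (C1 * A) ^ 4 := pow_le_pow_left₀ hX0 hX 4
    have hA4 : 0 ≤ A ^ 4 := by positivity
    calc 32 * q0 ^ 2 * (X ^ 4 * 1 ^ 2) ≤ 32 * q0 ^ 2 * ((C1 * A) ^ 4) := by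
          rw [one_pow, mul_one]; exact mul_le_mul_of_nonneg_left hX4 (by positivity)
      _ = 32 * C1 ^ 4 * q0 ^ 2 * A ^ 4 * 1 := by ring
      _ ≤ 32 * C1 ^ 4 * q0 ^ 2 * A ^ 4 * ((K : ℝ) * l / r) ^ (2 - 2 * e) :=
          mul_le_mul_of_nonneg_left hpow1 (by positivity)
      _ ≤ 32 * C1 ^ 4 * q0 ^ 2 * A ^ 4 * ((K : ℝ) * l / r) ^ (2 - 2 * e) +
          32 * ((C * C1) ^ 4 / c ^ 2) * q0 ^ 2 * A ^ 4 * ((K : ℝ) * l / r) ^ (2 - 2 * e) := by
            have : 0 ≤ 32 * ((C * C1) ^ 4 / c ^ 2) * q0 ^ 2 * A ^ 4 *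
              ((K : ℝ) * l / r) ^ (2 - 2 * e) := by positivity
            linarith
      _ = _ := by ring

end MPdd5692
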