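import Pool.Agent.Work.MP_dd5692_pr.InterfaceP

/-!
# MP_dd5692_pr: block SPLIT (helper76): thinning and the two-stage representation
-/

open MeasureTheory ProbabilityTheory Set
open scoped ENNReal NNReal BigOperators

namespace MPdd5692

namespace Split76

section zip

variable {K : Type*} {A B : K → Type*} [∀ i, MeasurableSpace (A i)] [∀ i, MeasurableSpace (B i)]

theorem zip_map (μ : ∀ i, Measure (A i)) (ν : ∀ i, Measure (B i))
    [∀ i, IsProbabilityMeasure (μ i)] [∀ i, IsProbabilityMeasure (ν i)] :
    ((Measure.infinitePi μ).prod (Measure.infinitePi ν)).map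
      (fun (p : (∀ i, A i) × (∀ i, B i)) i => ((p.1 i, p.2 i) : A i × B i)) =
      Measure.infinitePi (fun i => (μ i).prod (ν i)) := by
  apply Measure.eq_infinitePi
  intro s t ht
  have hm : Measurable (fun (p : (∀ i, A i) × (∀ i, B i)) i => ((p.1 i, p.2 i) : A i × B i)) := by
    fun_prop
  have hmt : MeasurableSet (Set.pi (s : Set K) t) :=
    MeasurableSet.pi s.countable_toSet fun i _ => ht i
  rw [Measure.map_apply hm hmt, Measure.prod_apply (hm hmt)]
  have h1 : ∀ x : ∀ i, A i, Measure.infinitePi ν (Prod.mk x ⁻¹'
      ((fun (p : (∀ i, A i) × (∀ i, B i)) i => ((p.1 i, p.2 i) : A i × B i)) ⁻¹'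
        (Set.pi (s : Set K) t))) = ∏ i ∈ s, ν i (Prod.mk (x i) ⁻¹' (t i)) := by
    intro x
    rw [← Measure.infinitePi_pi (μ := ν) (t := fun i => Prod.mk (x i) ⁻¹' (t i))
      (fun i _ => measurable_prodMk_left (ht i))]
    rfl
  simp_rw [h1]
  rw [lintegral_prod_eq_prod_lintegral_of_indepFun s
    (fun i (x : ∀ i, A i) => ν i (Prod.mk (x i) ⁻¹' (t i)))]
  · apply Finset.prod_congr rfl
    intro i _
    rw [Measure.prod_apply (ht i)]
    have h2 := Measure.infinitePi_map_eval μ i
    rw [← h2, lintegral_map (measurable_measure_prodMk_left (ht i)) (by fun_prop)]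
  · exact iIndepFun_infinitePi (P := μ) (X := fun i (x : A i) => ν i (Prod.mk x ⁻¹' (t i)))
      (fun i => measurable_measure_prodMk_left (ht i))
  · intro i
    exact (measurable_measure_prodMk_left (ht i)).comp (measurable_pi_apply i)

end zip

section thin

variable {C : Type} [Fintype C] [DecidableEq C] [MeasurableSpace C] [MeasurableSingletonClass C]

/-- numbers of the first `N` entries with the different values -/
def cnt (N : ℕ) (V : ℕ → C) (v : C) : ℕ := ((Finset.range N).filter fun i => V i = v).card

omit [Fintype C] [MeasurableSpace C] [MeasurableSingletonClass C] in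
theorem cnt_succ (N : ℕ) (V : ℕ → C) (v : C) :
    cnt (N + 1) V v = cnt N V v + if V N = v then 1 else 0 := by
  unfold cnt
  rw [Finset.range_add_one, Finset.filter_insert]
  by_cases h : V N = v
  · rw [if_pos h, if_pos h, Finset.card_insert_of_notMem]
    simp
  · rw [if_neg h, if_neg h, add_zero]

omit [MeasurableSpace C] [MeasurableSingletonClass C] in
theorem cnt_sum (N : ℕ) (V : ℕ → C) : ∑ v, cnt N V v = N := by
  induction N with
  | zero => simp [cnt]
  | succ N ih => simp [cnt_succ, Finset.sum_add_distrib, ih]

omit [Fintype C] in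
theorem cnt_meas (N : ℕ) (v : C) : Measurable (fun V : ℕ → C => cnt N V v) := by
  induction N with
  | zero => simp [cnt]
  | succ N ih =>
    simp only [cnt_succ]
    refine ih.add ?_
    refine Measurable.ite ?_ measurable_const measurable_const
    exact (measurable_pi_apply (X := fun _ : ℕ => C) N) (measurableSet_singleton v)

omit [Fintype C] in
theorem cnt_meas2 (v : C) : Measurable (fun p : ℕ × (ℕ → C) => cnt p.1 p.2 v) := by
  apply measurable_from_prod_countable_right
  intro N
  exact cnt_meas N v

/-- the event that the counts are `n` -/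
def Ev (N : ℕ) (n : C → ℕ) : Set (ℕ → C) := {V | ∀ v, cnt N V v = n v}

theorem Ev_meas (N : ℕ) (n : C → ℕ) : MeasurableSet (Ev N n) := by
  have : Ev N n = ⋂ v, (fun V : ℕ → C => cnt N V v) ⁻¹' {n v} := by
    ext V; simp [Ev]
  rw [this]
  exact MeasurableSet.iInter fun v => cnt_meas N v (measurableSet_singleton _)

variable (ν : Measure C) [IsProbabilityMeasure ν]

/-- the last value is independent of the counts before -/
theorem indep_last (N : ℕ) (n : C → ℕ) (v : C) :
    (Measure.infinitePi fun _ : ℕ => ν) ({V | V N = v} ∩ Ev N n) =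
      ν {v} * (Measure.infinitePi fun _ : ℕ => ν) (Ev N n) := by
  have h := iIndepFun_infinitePi (P := fun _ : ℕ => ν) (X := fun (_ : ℕ) (x : C) => x)
    (fun _ => measurable_id)
  have h2 := h.indepFun_finset {N} (Finset.range N) (by simp) (fun i => by fun_prop)
  have h3 := h2.measure_inter_preimage_eq_mul
    (s := (fun w : (({N} : Finset ℕ) → C) => w ⟨N, by simp⟩) ⁻¹' {v})
    (t := {w : (Finset.range N → C) | ∀ v, (Finset.univ.filter fun i => w i = v).card = n v})
    ((measurable_pi_apply _) (measurableSet_singleton v)) ?_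
  · have e1 : ((fun (a : ℕ → C) (i : ({N} : Finset ℕ)) => a i) ⁻¹'
        ((fun w : (({N} : Finset ℕ) → C) => w ⟨N, by simp⟩) ⁻¹' {v})) = {V | V N = v} := by
      ext V; simp
    have e2 : ((fun (a : ℕ → C) (i : Finset.range N) => a i) ⁻¹'
        {w : (Finset.range N → C) | ∀ v, (Finset.univ.filter fun i => w i = v).card = n v}) =
        Ev N n := by
      ext V
      simp only [Set.mem_preimage, Set.mem_ofPred_eq, Ev, cnt]
      have : ∀ v, (Finset.univ.filter fun i : Finset.range N => V i = v).card =
          ((Finset.range N).filter fun i => V i = v).card := by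
        intro v
        rw [Finset.card_filter, Finset.card_filter]
        exact Finset.sum_coe_sort (Finset.range N) (fun i => if V i = v then 1 else 0)
      simp only [this]
    rw [e1, e2] at h3
    rw [h3]
    congr 1
    have h4 := Measure.infinitePi_map_eval (fun _ : ℕ => ν) N
    have h5 : (Measure.infinitePi fun _ : ℕ => ν).map (fun x : ℕ → C => x N) {v} = ν {v} := by
      rw [h4]
    rw [← h5, Measure.map_apply (by fun_prop) (measurableSet_singleton v)]
    rfl
  · exact (Set.toFinite _).measurableSet

omit [Fintype C] [MeasurableSpace C] [MeasurableSingletonClass C] in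
theorem Ev_succ (N : ℕ) (n : C → ℕ) (v : C) (hv : n v ≠ 0) :
    {V : ℕ → C | V N = v} ∩ Ev (N + 1) n =
      {V : ℕ → C | V N = v} ∩ Ev N (Function.update n v (n v - 1)) := by
  ext V
  simp only [Set.mem_inter_iff, Set.mem_ofPred_eq, Ev, cnt_succ]
  constructor
  · rintro ⟨h1, h2⟩
    refine ⟨h1, fun w => ?_⟩
    have := h2 w
    rw [h1] at this
    by_cases hw : v = w
    · subst hw
      simp at this ⊢
      omega
    · rw [if_neg hw] at this
      rw [Function.update_of_ne (fun h => hw h.symm)]
      omega
  · rintro ⟨h1, h2⟩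
    refine ⟨h1, fun w => ?_⟩
    have := h2 w
    rw [h1]
    by_cases hw : v = w
    · subst hw
      simp at this ⊢
      omega
    · rw [if_neg hw]
      rw [Function.update_of_ne (fun h => hw h.symm)] at this
      omega

omit [Fintype C] [MeasurableSpace C] [MeasurableSingletonClass C] in
theorem Ev_succ0 (N : ℕ) (n : C → ℕ) (v : C) (hv : n v = 0) :
    {V : ℕ → C | V N = v} ∩ Ev (N + 1) n = ∅ := by
  ext V
  simp only [Set.mem_inter_iff, Set.mem_ofPred_eq, Ev, cnt_succ, Set.mem_empty_iff_false, iff_false]
  rintro ⟨h1, h2⟩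
  have := h2 v
  rw [h1, if_pos rfl] at this
  omega

theorem Ev_prob [Nonempty C] (hν : ∀ v, ν.real {v} = (Fintype.card C : ℝ)⁻¹) (N : ℕ) :
    ∀ n : C → ℕ, ∑ v, n v = N →
    (Measure.infinitePi fun _ : ℕ => ν).real (Ev N n) * (∏ v, ((n v).factorial : ℝ)) *
      (Fintype.card C : ℝ) ^ N = (N.factorial : ℝ) := by
  have hc : (Fintype.card C : ℝ) ≠ 0 := by
    have := Fintype.card_pos (α := C)
    positivity
  induction N with
  | zero =>
    intro n hn
    have h0 : ∀ v, n v = 0 := by
      intro v
      have := Finset.single_le_sum (f := n) (fun w _ => Nat.zero_le _) (Finset.mem_univ v)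
      omega
    have : Ev 0 n = Set.univ := by
      ext V; simp [Ev, cnt, h0]
    rw [this]
    simp [h0]
  | succ N ih =>
    intro n hn
    have h1 : Ev (N + 1) n = ⋃ v ∈ (Finset.univ : Finset C), ({V : ℕ → C | V N = v} ∩ Ev (N + 1) n) := by
      ext V; simp
    rw [h1, measureReal_biUnion_finset]
    · rw [Finset.sum_mul, Finset.sum_mul]
      have h2 : ∀ v ∈ (Finset.univ : Finset C),
          (Measure.infinitePi fun _ : ℕ => ν).real ({V : ℕ → C | V N = v} ∩ Ev (N + 1) n) *
            (∏ v, ((n v).factorial : ℝ)) * (Fintype.card C : ℝ) ^ (N + 1) =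
          (n v : ℝ) * (N.factorial : ℝ) := by
        intro v _
        by_cases hv : n v = 0
        · rw [Ev_succ0 N n v hv]; simp [hv]
        · rw [Ev_succ N n v hv]
          have h3 : (Measure.infinitePi fun _ : ℕ => ν).real
              ({V : ℕ → C | V N = v} ∩ Ev N (Function.update n v (n v - 1))) =
              ν.real {v} * (Measure.infinitePi fun _ : ℕ => ν).real
                (Ev N (Function.update n v (n v - 1))) := by
            simp only [measureReal_def]
            rw [indep_last, ENNReal.toReal_mul]
          have h4 : ∑ w, Function.update n v (n v - 1) w = N := by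
            rw [Finset.sum_update_of_mem (Finset.mem_univ v)]
            rw [← Finset.add_sum_erase _ _ (Finset.mem_univ v)] at hn
            rw [Finset.sdiff_singleton_eq_erase]
            omega
          have h5 := ih _ h4
          have h6 : ∏ w, ((n w).factorial : ℝ) =
              n v * ∏ w, ((Function.update n v (n v - 1) w).factorial : ℝ) := by
            rw [← Finset.mul_prod_erase Finset.univ _ (Finset.mem_univ v),
              ← Finset.mul_prod_erase Finset.univ
                (fun w => ((Function.update n v (n v - 1) w).factorial : ℝ)) (Finset.mem_univ v)]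
            have h7 : ∏ w ∈ Finset.univ.erase v, ((Function.update n v (n v - 1) w).factorial : ℝ) =
                ∏ w ∈ Finset.univ.erase v, ((n w).factorial : ℝ) := by
              apply Finset.prod_congr rfl
              intro w hw
              rw [Function.update_of_ne (Finset.ne_of_mem_erase hw)]
            rw [h7]
            obtain ⟨m, hm⟩ := Nat.exists_eq_succ_of_ne_zero hv
            simp only [Function.update_self, hm, Nat.succ_eq_add_one, Nat.add_sub_cancel,
              Nat.factorial_succ]
            push_cast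
            ring
          rw [h3, hν, h6, ← h5, pow_succ]
          field_simp
      rw [Finset.sum_congr rfl h2, ← Finset.sum_mul, ← Nat.cast_sum, hn, Nat.factorial_succ]
      push_cast
      ring
    · intro v _ w _ hvw
      apply Set.disjoint_left.2
      rintro V ⟨h2, -⟩ ⟨h3, -⟩
      exact hvw (h2.symm.trans h3)
    · intro v _
      refine MeasurableSet.inter ?_ (Ev_meas _ _)
      exact (measurable_pi_apply (X := fun _ : ℕ => C) N) (measurableSet_singleton v)

/-- the counting map -/
def cm (p : ℕ × (ℕ → C)) : C → ℕ := fun v => cnt p.1 p.2 v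

theorem thin [Nonempty C] (hν : ∀ v, ν.real {v} = (Fintype.card C : ℝ)⁻¹) (μ : ℝ≥0) :
    ((poissonMeasure μ).prod (Measure.infinitePi fun _ : ℕ => ν)).map cm =
      Measure.infinitePi fun _ : C => poissonMeasure (μ / (Fintype.card C : ℝ≥0)) := by
  have hcm : Measurable (cm (C := C)) := measurable_pi_iff.2 fun v => cnt_meas2 v
  have hc : (Fintype.card C : ℝ) ≠ 0 := by
    have := Fintype.card_pos (α := C)
    positivity
  apply Measure.ext_of_singleton
  intro n
  rw [Measure.map_apply hcm (measurableSet_singleton n), Measure.infinitePi_singleton_of_fintype]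
  have h1 : cm ⁻¹' {n} = {∑ v, n v} ×ˢ Ev (∑ v, n v) n := by
    ext ⟨N, V⟩
    simp only [Set.mem_preimage, Set.mem_singleton_iff, Set.mem_prod, Ev, Set.mem_ofPred_eq]
    constructor
    · intro h
      have h2 : N = ∑ v, n v := by
        rw [← cnt_sum N V, ← h]
        rfl
      refine ⟨h2, fun v => ?_⟩
      rw [← h2, ← h]
      rfl
    · rintro ⟨h2, h3⟩
      funext v
      rw [← h3 v]
      simp only [cm, h2]
  rw [h1, Measure.prod_prod]
  rw [← ENNReal.toReal_eq_toReal_iff' (by finiteness)
    (ENNReal.prod_ne_top fun i _ => measure_ne_top _ _)]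
  rw [ENNReal.toReal_mul, ENNReal.toReal_prod]
  have h2 := Ev_prob ν hν (∑ v, n v) n rfl
  have h3 : ∏ v, ((n v).factorial : ℝ) ≠ 0 := by positivity
  have h4 : (Measure.infinitePi fun _ : ℕ => ν).real (Ev (∑ v, n v) n) =
      ((∑ v, n v).factorial : ℝ) / ((∏ v, ((n v).factorial : ℝ)) *
        (Fintype.card C : ℝ) ^ (∑ v, n v)) := by
    rw [← h2]; field_simp
  simp only [← measureReal_def]
  rw [h4]
  simp only [poissonMeasure_real_singleton]
  rw [Finset.prod_div_distrib, Finset.prod_mul_distrib, Finset.prod_pow_eq_pow_sum,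
    Finset.prod_const, ← Real.exp_nat_mul]
  have h5 : ((μ / (Fintype.card C : ℝ≥0) : ℝ≥0) : ℝ) = (μ : ℝ) / (Fintype.card C : ℝ) := by
    push_cast; rfl
  rw [h5, Finset.card_univ]
  have h6 : (Fintype.card C : ℝ) * -((μ : ℝ) / (Fintype.card C : ℝ)) = -(μ : ℝ) := by
    field_simp
  rw [h6, div_pow]
  field_simp

end thin

section assembly

variable {q H : ℕ} [NeZero q]

/-- the non exposed times -/
abbrev Ne (e : Fin (H + 1) → Bool) := {k : Fin (H + 1) // e k = false}

/-- the blocks: for each exposed mark the number of particles and their hidden positions -/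
def blk (e : Fin (H + 1) → Bool) (p : Conf q H × HV q H) :
    FMark q H → ℕ × (ℕ → (Ne e → Pos q)) :=
  fun θ => (p.1 θ, fun i k => p.2 k.1 (θ, i))

instance : IsProbabilityMeasure (unif q) := by unfold unif; infer_instance

instance : IsProbabilityMeasure (hm q H) := by unfold hm; infer_instance

/-- regrouping of the hidden positions -/
theorem hm_map (e : Fin (H + 1) → Bool) :
    (hm q H).map (fun (U : HV q H) (θ : FMark q H) (i : ℕ) (k : Ne e) => U k.1 (θ, i)) =
      Measure.infinitePi fun _ : FMark q H => Measure.infinitePi fun _ : ℕ =>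
        Measure.infinitePi fun _ : Ne e => unif q := by
  have h0 : hm q H = Measure.infinitePi fun _ : Fin (H + 1) =>
      Measure.infinitePi fun _ : FMark q H × ℕ => unif q := by
    exact (Measure.infinitePi_eq_pi (μ := fun _ : Fin (H + 1) =>
      Measure.infinitePi fun _ : FMark q H × ℕ => unif q)).symm
  have h1 := Measure.infinitePi_map_curry_symm (ι := Fin (H + 1)) (κ := FMark q H × ℕ)
    (fun _ _ => unif q)
  rw [← h0] at h1
  have hinj : Function.Injective (fun p : FMark q H × (ℕ × Ne e) =>
      ((p.2.2.1, (p.1, p.2.1)) : Fin (H + 1) × (FMark q H × ℕ))) := by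
    rintro ⟨a, b, c⟩ ⟨a', b', c'⟩ h
    simp only [Prod.mk.injEq] at h
    obtain ⟨h2, h3, h4⟩ := h
    rw [h3, h4, Subtype.ext h2]
  have h2 := Measure.map_infinitePi_infinitePi_of_inj
    (P := fun _ : Fin (H + 1) × (FMark q H × ℕ) => unif q) hinj
  have h3 := Measure.infinitePi_map_curry (ι := FMark q H) (κ := ℕ × Ne e)
    (fun _ _ => unif q)
  have h4 := Measure.infinitePi_map_pi
    (fun _ : FMark q H => Measure.infinitePi fun _ : ℕ × Ne e => unif q)
    (f := fun _ => MeasurableEquiv.curry ℕ (Ne e) (Pos q)) (fun _ => by fun_prop)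
  have h5 := Measure.infinitePi_map_curry (ι := ℕ) (κ := Ne e)
    (fun _ _ => unif q)
  simp only [h5] at h4
  rw [← h4, ← h3, ← h2, ← h1]
  rw [Measure.map_map (by fun_prop) (by fun_prop), Measure.map_map (by fun_prop) (by fun_prop),
    Measure.map_map (by fun_prop) (by fun_prop)]
  rfl

theorem blk_map (μ : FMark q H → ℝ≥0) (e : Fin (H + 1) → Bool) :
    ((pois μ).prod (hm q H)).map (blk e) =
      Measure.infinitePi fun θ : FMark q H => (poissonMeasure (μ θ)).prod
        (Measure.infinitePi fun _ : ℕ => Measure.infinitePi fun _ : Ne e => unif q) := by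
  have h1 := zip_map (fun θ : FMark q H => poissonMeasure (μ θ))
    (fun _ : FMark q H => Measure.infinitePi fun _ : ℕ => Measure.infinitePi fun _ : Ne e => unif q)
  have h2 : (Measure.infinitePi fun θ : FMark q H => poissonMeasure (μ θ)) = pois μ := rfl
  rw [h2, ← hm_map e] at h1
  have h3 : ((pois μ).map id).prod ((hm q H).map
      (fun (U : HV q H) (θ : FMark q H) (i : ℕ) (k : Ne e) => U k.1 (θ, i))) =
      ((pois μ).prod (hm q H)).map (Prod.map id
        (fun (U : HV q H) (θ : FMark q H) (i : ℕ) (k : Ne e) => U k.1 (θ, i))) :=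
    Measure.map_prod_map _ _ measurable_id (by fun_prop)
  rw [Measure.map_id] at h3
  rw [h3, Measure.map_map (by fun_prop) (by fun_prop)] at h1
  exact h1

theorem asm_eq (e : Fin (H + 1) → Bool) (p : Conf q H × HV q H) (θ : FMark q H) :
    asmE e p.1 p.2 θ = cm (blk e p (θ.1, mask e θ.2)) (fun k : Ne e => θ.2 k.1) := by
  unfold asmE cm blk cnt
  congr 1
  apply Finset.filter_congr
  intro i _
  constructor
  · intro h
    funext k
    exact h k.1 k.2
  · intro h k hk
    exact congrFun h ⟨k, hk⟩

theorem blk_meas (e : Fin (H + 1) → Bool) : Measurable (blk (q := q) (H := H) e) := by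
  unfold blk
  fun_prop

theorem cm_meas {C : Type} [DecidableEq C] [MeasurableSpace C]
    [MeasurableSingletonClass C] : Measurable (cm (C := C)) :=
  measurable_pi_iff.2 fun v => cnt_meas2 v

/-- positions of a fine mark in the double family -/
def emb (e : Fin (H + 1) → Bool) (θ : FMark q H) : FMark q H × (Ne e → Pos q) :=
  ((θ.1, mask e θ.2), fun k => θ.2 k.1)

theorem emb_inj (e : Fin (H + 1) → Bool) : Function.Injective (emb (q := q) (H := H) e) := by
  rintro ⟨c, u⟩ ⟨c', u'⟩ h
  simp only [emb, Prod.mk.injEq] at h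
  obtain ⟨⟨h1, h2⟩, h3⟩ := h
  refine Prod.ext h1 (funext fun k => ?_)
  by_cases hk : e k = true
  · have := congrFun h2 k
    simpa [mask, hk] using this
  · have hk' : e k = false := by simpa using hk
    exact congrFun h3 ⟨k, hk'⟩

theorem unif_real (e : Fin (H + 1) → Bool) (v : Ne e → Pos q) :
    (Measure.infinitePi fun _ : Ne e => unif q).real {v} =
      (Fintype.card (Ne e → Pos q) : ℝ)⁻¹ := by
  rw [measureReal_def, Measure.infinitePi_singleton_of_fintype, ENNReal.toReal_prod]
  have h : ∀ x : Pos q, (unif q {x}).toReal = ((q : ℝ) * q)⁻¹ := by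
    intro x
    unfold unif
    rw [PMF.toMeasure_apply_singleton _ _ (measurableSet_singleton x),
      PMF.uniformOfFintype_apply]
    simp
  simp only [h]
  rw [Finset.prod_const, Fintype.card_fun, inv_pow]
  simp [Finset.card_univ]

theorem main_map (e : Fin (H + 1) → Bool) (μ : FMark q H → ℝ≥0) :
    ((pois μ).prod (hm q H)).map (fun p => asmE e p.1 p.2) =
      pois (fun θ => μ (θ.1, mask e θ.2) / (Fintype.card (Ne e → Pos q) : ℝ≥0)) := by
  have h1 := blk_map μ e
  have h2 := Measure.infinitePi_map_pi
    (fun θ : FMark q H => (poissonMeasure (μ θ)).prod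
        (Measure.infinitePi fun _ : ℕ => Measure.infinitePi fun _ : Ne e => unif q))
    (f := fun _ => cm (C := Ne e → Pos q)) (fun _ => cm_meas)
  have h3 : ∀ θ : FMark q H, ((poissonMeasure (μ θ)).prod
        (Measure.infinitePi fun _ : ℕ => Measure.infinitePi fun _ : Ne e => unif q)).map
        (cm (C := Ne e → Pos q)) = Measure.infinitePi fun _ : (Ne e → Pos q) =>
          poissonMeasure (μ θ / (Fintype.card (Ne e → Pos q) : ℝ≥0)) := by
    intro θ
    exact thin _ (unif_real e) (μ θ)
  simp only [h3] at h2
  have h4 := Measure.infinitePi_map_curry_symm (ι := FMark q H) (κ := (Ne e → Pos q))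
    (fun θ _ => poissonMeasure (μ θ / (Fintype.card (Ne e → Pos q) : ℝ≥0)))
  have h5 := Measure.map_infinitePi_infinitePi_of_inj
    (P := fun p : FMark q H × (Ne e → Pos q) =>
      poissonMeasure (μ p.1 / (Fintype.card (Ne e → Pos q) : ℝ≥0))) (emb_inj (q := q) (H := H) e)
  have hF : Measurable (fun (x : FMark q H → ℕ × (ℕ → (Ne e → Pos q))) i => cm (x i)) :=
    measurable_pi_iff.2 fun i => cm_meas.comp (measurable_pi_apply i)
  have hG : Measurable ((fun (ω : FMark q H × (Ne e → Pos q) → ℕ) (i : FMark q H) =>
      ω (emb e i)) ∘ ⇑(MeasurableEquiv.curry (FMark q H) (Ne e → Pos q) ℕ).symm) := by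
    fun_prop
  rw [← h4, ← h2, ← h1, Measure.map_map, Measure.map_map, Measure.map_map] at h5
  · have h6 : (fun p : Conf q H × HV q H => asmE e p.1 p.2) =
      ((((fun (ω : FMark q H × (Ne e → Pos q) → ℕ) (i : FMark q H) => ω (emb e i)) ∘
        ⇑(MeasurableEquiv.curry (FMark q H) (Ne e → Pos q) ℕ).symm) ∘
          fun (x : FMark q H → ℕ × (ℕ → (Ne e → Pos q))) i => cm (x i)) ∘ blk e) := by
      funext p
      funext θ
      rw [asm_eq]
      rfl
    rw [h6]
    exact h5
  all_goals first
    | exact blk_meas e
    | exact hF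
    | exact hG
    | exact hG.comp hF
    | fun_prop

theorem card_Ne (e : Fin (H + 1) → Bool) :
    (Finset.univ.filter fun k => e k = true).card + Fintype.card (Ne e) = H + 1 := by
  rw [Fintype.card_subtype]
  have := Finset.card_filter_add_card_filter_not (s := (Finset.univ : Finset (Fin (H + 1))))
    (fun k => e k = true)
  simp only [Finset.card_univ, Fintype.card_fin, Bool.not_eq_true] at this
  exact this

theorem asm_meas (e : Fin (H + 1) → Bool) :
    Measurable (fun p : Conf q H × HV q H => asmE e p.1 p.2) := by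
  apply measurable_pi_iff.2
  intro θ
  simp only [asm_eq]
  exact (measurable_pi_apply _).comp (cm_meas.comp ((measurable_pi_apply _).comp (blk_meas e)))

theorem proj_asm (e : Fin (H + 1) → Bool) (M : Conf q H)
    (hM : ∀ θ, mask e θ.2 ≠ θ.2 → M θ = 0) (U : HV q H) : projE e (asmE e M U) = M := by
  funext θ
  unfold projE
  by_cases hθ : mask e θ.2 = θ.2
  · rw [if_pos hθ]
    have h1 := Finset.card_eq_sum_card_fiberwise (s := Finset.range (M θ))
      (t := Finset.univ.filter (fun u : Fin (H + 1) → Pos q => mask e u = θ.2))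
      (f := fun i k => if e k = true then θ.2 k else U k (θ, i)) ?_
    · rw [Finset.card_range] at h1
      rw [h1]
      apply Finset.sum_congr rfl
      intro u hu
      rw [Finset.mem_filter] at hu
      unfold asmE
      have h2 : ((θ.1, mask e ((θ.1, u) : FMark q H).2) : FMark q H) = θ := by
        rw [show mask e ((θ.1, u) : FMark q H).2 = θ.2 from hu.2]
      rw [h2]
      congr 1
      apply Finset.filter_congr
      intro i _
      constructor
      · intro h
        funext k
        by_cases hk : e k = true
        · have := congrFun hu.2 k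
          simp only [mask, hk, if_true] at this ⊢
          exact this.symm
        · simp only [hk]
          exact h k (by simpa using hk)
      · intro h k hk
        have := congrFun h k
        simpa [hk] using this
    · intro i _
      simp only [Finset.coe_filter, Finset.mem_univ, true_and, Set.mem_ofPred_eq]
      funext k
      have := congrFun hθ k
      by_cases hk : e k = true
      · simp [mask, hk]
      · simp only [mask, hk] at this ⊢
        exact this
  · rw [if_neg hθ, hM θ hθ]

theorem cntF : Countable (FMark q H) := by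
  have hC : Countable (CMark q H) := by
    have : Function.Injective (fun x : CMark q H => (x.c, x.g, x.b, x.r)) := by
      rintro ⟨c, g, b, r⟩ ⟨c', g', b', r'⟩ h
      simp only [Prod.mk.injEq] at h
      obtain ⟨h1, h2, h3, h4⟩ := h
      subst h1; subst h2; subst h3; subst h4; rfl
    exact this.countable
  infer_instance

theorem ae_mask {a δ Λ : ℝ} (L : MarkLaw q H a δ Λ) (lam : ℝ≥0) (e : Fin (H + 1) → Bool) :
    ∀ᵐ M ∂(pois (muE L lam e)), ∀ θ, mask e θ.2 ≠ θ.2 → M θ = 0 := by
  have := cntF (q := q) (H := H)
  rw [ae_all_iff]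
  intro θ
  by_cases hθ : mask e θ.2 = θ.2
  · exact Filter.Eventually.of_forall fun M h => absurd hθ h
  · have h1 : (pois (muE L lam e)).map (Function.eval θ) = poissonMeasure (muE L lam e θ) :=
      Measure.infinitePi_map_eval (fun θ => poissonMeasure (muE L lam e θ)) θ
    have h2 : muE L lam e θ = 0 := by unfold muE; rw [if_neg hθ]
    rw [h2] at h1
    have h3 : ∀ᵐ n ∂(poissonMeasure 0), n = 0 := by
      rw [ae_iff]
      have h4 : {n : ℕ | ¬ n = 0} = {0}ᶜ := by ext n; simp
      rw [h4, prob_compl_eq_one_sub (measurableSet_singleton 0), poissonMeasure_singleton]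
      simp
    rw [← h1] at h3
    have h5 := ae_of_ae_map (measurable_pi_apply θ).aemeasurable h3
    filter_upwards [h5] with M hM _
    exact hM

theorem proj_meas (e : Fin (H + 1) → Bool) : Measurable (projE (q := q) (H := H) e) := by
  apply measurable_pi_iff.2
  intro θ
  unfold projE
  by_cases hθ : mask e θ.2 = θ.2
  · simp only [if_pos hθ]
    exact Finset.measurable_sum _ fun u _ => measurable_pi_apply _
  · simp only [if_neg hθ]
    exact measurable_const

end assembly

end Split76

theorem stmt_SPLIT : Stmt_SPLIT := by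
  intro q H _ a δ Λ L lam e
  have h2 : ((pois (muE L lam e)).prod (hm q H)).map (fun p => asmE e p.1 p.2) = L.PP lam := by
    rw [Split76.main_map]
    unfold MarkLaw.PP pois
    congr 1
    funext θ
    congr 1
    unfold muE MarkLaw.fine fineOf
    beta_reduce
    have h1 : mask e (mask e θ.2) = mask e θ.2 := by
      funext k
      unfold mask
      by_cases h : e k = true
      · simp [h]
      · simp [h]
    have h1' : mask e ((θ.1, mask e θ.2) : FMark q H).2 = ((θ.1, mask e θ.2) : FMark q H).2 := h1
    rw [if_pos h1']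
    have h3 := Split76.card_Ne e
    have h4 : ((Fintype.card (Split76.Ne e → Pos q) : ℕ) : ℝ≥0) =
        ((q : ℝ≥0) ^ 2) ^ Fintype.card (Split76.Ne e) := by
      rw [Fintype.card_fun]
      simp [pow_two]
    rw [h4, div_div, ← pow_add, h3, mul_div_assoc]
  refine ⟨Split76.asm_meas e, h2, fun M hM U => Split76.proj_asm e M hM U,
    Split76.ae_mask L lam e, ?_⟩
  rw [← h2, Measure.map_map (Split76.proj_meas e) (Split76.asm_meas e)]
  have h5 : ((pois (muE L lam e)).prod (hm q H)).map (projE e ∘ fun p => asmE e p.1 p.2) =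
      ((pois (muE L lam e)).prod (hm q H)).map Prod.fst := by
    apply Measure.map_congr
    have h6 := (Measure.quasiMeasurePreserving_fst (μ := pois (muE L lam e))
      (ν := hm q H)).ae (Split76.ae_mask L lam e)
    filter_upwards [h6] with p hp
    exact Split76.proj_asm e p.1 hp p.2
  rw [h5, Measure.map_fst_prod]
  simp

end MPdd5692
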