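import Mathlib
import Pool.Agent.Work.MP_dd5692_pr.InterfaceF

/-!
# MP_dd5692_pr: block SURVD (helper64): survival with probability one half
-/

open MeasureTheory ProbabilityTheory Set
open scoped ENNReal NNReal BigOperators

namespace MPdd5692

namespace SURVD

variable {q H : ℕ}

theorem countable_cmark' (q H : ℕ) : Countable (CMark q H) := by
  have h : Function.Injective (fun ξ : CMark q H => (ξ.c, ξ.g, ξ.b, ξ.r)) := by
    rintro ⟨c, g, b, r⟩ ⟨c', g', b', r'⟩ h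
    simp only [Prod.mk.injEq] at h
    obtain ⟨rfl, rfl, rfl, rfl⟩ := h
    rfl
  exact h.countable

theorem linked_line (x : Site) (n : ℕ) : Linked Adj4 univ x (x.1 + n, x.2) := by
  induction n with
  | zero =>
    have : ((x.1 + ((0:ℕ) : ℤ), x.2) : Site) = x := by simp
    rw [this]
    exact ⟨mem_univ _, Relation.ReflTransGen.refl⟩
  | succ n ih =>
    refine ⟨mem_univ _, ih.2.tail ⟨?_, mem_univ _⟩⟩
    unfold Adj4
    simp

theorem cidx_mul (q : ℕ) (hq : 0 < q) (y : Site) : cidx q ((q : ℤ) * y.1, (q : ℤ) * y.2) = y := by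
  have hq' : (q : ℤ) ≠ 0 := by exact_mod_cast hq.ne'
  unfold cidx
  simp only [Int.mul_ediv_cancel_left _ hq']

theorem exists_line (q : ℕ) (hq : 0 < q) (y : Site) (a b : ℕ) :
    ∃ x w : Site, x ∈ cbox q y a ∧ w ∉ cbox q y b ∧ Linked Adj4 univ x w := by
  refine ⟨((q : ℤ) * y.1, (q : ℤ) * y.2), ((q : ℤ) * (y.1 + (b + 1)), (q : ℤ) * y.2), ?_, ?_, ?_⟩
  · show nrm (cidx q ((q : ℤ) * y.1, (q : ℤ) * y.2) - y) ≤ a
    rw [cidx_mul q hq y]
    unfold nrm
    simp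
  · intro h
    have h' : nrm (cidx q ((q : ℤ) * (y.1 + (b + 1)), (q : ℤ) * y.2) - y) ≤ b := h
    have h1 := cidx_mul q hq ((y.1 + (b + 1), y.2) : Site)
    rw [h1] at h'
    unfold nrm at h'
    simp only [Prod.fst_sub, Prod.snd_sub] at h'
    have h2 := (le_max_left _ _).trans h'
    have h3 : y.1 + ((b : ℤ) + 1) - y.1 = (b : ℤ) + 1 := by ring
    rw [h3] at h2
    have h4 := (le_abs_self _).trans h2
    omega
  · have h := linked_line ((q : ℤ) * y.1, (q : ℤ) * y.2) (q * (b + 1))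
    have h1 : (((q : ℤ) * y.1 + ((q * (b + 1) : ℕ) : ℤ), (q : ℤ) * y.2) : Site) =
        ((q : ℤ) * (y.1 + (b + 1)), (q : ℤ) * y.2) := by
      push_cast
      ext <;> ring
    rw [← h1]
    exact h

theorem gam_nonempty (hC : Stmt_CIRC) (ρ : ℝ) (q : ℕ) (S : Set Site) (z : Site) (a b : ℕ)
    (hq : 0 < q) (hab : a < b) (hU : UU ρ q S z a b) : ∃ g, g ∈ GamS ρ q S z a b := by
  obtain ⟨-, -, h3⟩ := hC ρ q S z a b hq hab hU
  obtain ⟨x, w, hx, hw, hl⟩ := exists_line q hq z a b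
  obtain ⟨⟨g, hg, -⟩, -⟩ := h3 univ x w hx hw hl
  exact ⟨g, hg⟩

/-- the mass of the fine marks over a set of coarse marks -/
theorem fine_mass [NeZero q] {a δ Λ : ℝ} (L : MarkLaw q H a δ Λ) (S : Set (CMark q H)) (C : ℝ)
    (h1 : Summable (fun ξ : {ξ : CMark q H // ξ ∈ S} => (L.m ξ.1 : ℝ)))
    (h2 : ∑' ξ : {ξ : CMark q H // ξ ∈ S}, (L.m ξ.1 : ℝ) ≤ C) :
    Summable (fun θ : {θ : FMark q H | θ.1 ∈ S} => (L.fine θ.1 : ℝ)) ∧
    ∑' θ : {θ : FMark q H | θ.1 ∈ S}, (L.fine θ.1 : ℝ) ≤ C := by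
  have hq : (0:ℝ) < q := by exact_mod_cast Nat.pos_of_ne_zero (NeZero.ne q)
  set Q : ℝ := ((q : ℝ) ^ 2) ^ (H + 1) with hQ
  have hQ0 : 0 < Q := by positivity
  let eqv : ({ξ : CMark q H // ξ ∈ S} × (Fin (H + 1) → Fin q × Fin q)) ≃
      {θ : FMark q H | θ.1 ∈ S} :=
    { toFun := fun x => ⟨(x.1.1, x.2), x.1.2⟩
      invFun := fun θ => (⟨θ.1.1, θ.2⟩, θ.1.2)
      left_inv := fun _ => rfl
      right_inv := fun _ => rfl }
  have hfun : (fun θ : {θ : FMark q H | θ.1 ∈ S} => (L.fine θ.1 : ℝ)) ∘ eqv =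
      fun x : {ξ : CMark q H // ξ ∈ S} × (Fin (H + 1) → Fin q × Fin q) =>
        (L.m x.1.1 : ℝ) * Q⁻¹ := by
    funext x
    show ((fineOf L.m (x.1.1, x.2) : ℝ≥0) : ℝ) = _
    unfold fineOf
    push_cast
    rw [div_eq_mul_inv]
  have hg : Summable (fun _ : Fin (H + 1) → Fin q × Fin q => Q⁻¹) := by
    exact (hasSum_fintype _).summable
  have hgs : ∑' _ : Fin (H + 1) → Fin q × Fin q, Q⁻¹ = 1 := by
    rw [tsum_fintype, Finset.sum_const, Finset.card_univ, nsmul_eq_mul]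
    have hc : ((Fintype.card (Fin (H + 1) → Fin q × Fin q) : ℕ) : ℝ) = Q := by
      rw [Fintype.card_fun, Fintype.card_prod, Fintype.card_fin, Fintype.card_fin]
      push_cast
      rw [hQ, sq]
    rw [hc, mul_inv_cancel₀ hQ0.ne']
  have hs : Summable (fun x : {ξ : CMark q H // ξ ∈ S} × (Fin (H + 1) → Fin q × Fin q) =>
      (L.m x.1.1 : ℝ) * Q⁻¹) :=
    h1.mul_of_nonneg hg (fun ξ => (L.m ξ.1).2) (fun _ => inv_nonneg.2 hQ0.le)
  have hsum : Summable (fun θ : {θ : FMark q H | θ.1 ∈ S} => (L.fine θ.1 : ℝ)) := by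
    rw [← eqv.summable_iff, hfun]
    exact hs
  refine ⟨hsum, ?_⟩
  rw [← eqv.tsum_eq]
  have : (fun x => ((L.fine (eqv x).1 : ℝ≥0) : ℝ)) =
      fun x : {ξ : CMark q H // ξ ∈ S} × (Fin (H + 1) → Fin q × Fin q) =>
        (L.m x.1.1 : ℝ) * Q⁻¹ := hfun
  rw [this, ← h1.tsum_mul_tsum hg hs, hgs, mul_one]
  exact h2

end SURVD

open SURVD in
theorem stmt_SURVD (h1 : Stmt_BLOCK) (h2 : Stmt_DECOUP) (h3 : Stmt_LIPPERC) (h4 : Stmt_REACH)
    (h5 : Stmt_DEPG) (h6 : Stmt_LIP) (h7 : Stmt_INFLMASS) (h8 : Stmt_CIRC) : Stmt_SURVD := by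
  classical
  intro c e hc he0 he1 I δ Λ hδ hΛ
  obtain ⟨p1, hp1, hLP⟩ := h3
  obtain ⟨p0', hp0', hDec⟩ := h2 p1 hp1
  set p0 : ℝ := min (p0' / 2) (1 / 8) with hp0
  have hp0pos : 0 < p0 := lt_min (by positivity) (by norm_num)
  obtain ⟨uh, huh0, huh1, hB⟩ := h1 c e p0 hc he0 he1 hp0pos
  obtain ⟨J, A1, Y, hJ, hGeo, hB⟩ := hB I δ Λ hδ hΛ
  obtain ⟨A0, hDec⟩ := hDec (2 * I) Λ J hJ
  obtain ⟨u, hu1, hu100, nmax, hB⟩ := hB A0
  set p : Par := ⟨u, J, A1, Y⟩ with hp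
  have hpA : p.A = A1 * u := rfl
  have hA0 : A0 ≤ p.A := by
    rw [hpA]
    have := hGeo.big
    nlinarith
  obtain ⟨C, hC⟩ := h7 Λ J p.A
  set Cp : ℝ := max C 0 with hCp
  set Ip : ℝ := max I 0 with hIp
  have hCp0 : 0 ≤ Cp := le_max_right _ _
  have hIp0 : 0 ≤ Ip := le_max_right _ _
  refine ⟨nmax, J, 2 * p.A, min 1 (p0 / (Cp * Ip + 1)), lt_min one_pos (by positivity), hJ, ?_⟩
  intro q j _ ρ lam hOK hI1 hI2 lam' hl1 hl2 N H
  set a : ℝ := (1 / 4 : ℝ) ^ j with ha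
  intro L hNH hNJ
  set E : Env c e I δ Λ nmax := { q := q, H := H, j := j, ρ := ρ, lam := lam, L := L, ok := hOK,
                                  inten := hI1 } with hE
  set τ : ℝ := uh * E.w p / 8 with hτ
  have hN1 : 1 ≤ N := by
    by_contra h
    have : N = 0 := by omega
    subst this
    simp at hNJ
    omega
  have hq0 : 0 < q := Nat.pos_of_ne_zero (NeZero.ne q)
  have hqR : (0:ℝ) < q := by exact_mod_cast hq0
  have ha0 : 0 < a := by positivity
  have haq0 : 0 ≤ a * (q : ℝ) ^ 2 := by positivity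
  have hρ : 0 ≤ ρ := by linarith [hOK.ρ_pos]
  have hcount : Countable (CMark q H) := countable_cmark' q H
  -- the block facts
  have hB' : ∀ X : ℕ × ℤ, (X.1 + 3) * J + 1 ≤ H → 0 < E.w p ∧
      (L.PP lam).real {ω | ¬ GOODE L lam ρ p uh τ ω X} ≤ p0 ∧
      (X.1 = 0 → (L.PP lam).real {ω | ¬ OCC0 L lam ρ p uh τ ω X} ≤ p0) := by
    intro X hX
    exact hB E X hX
  have hw : 0 < E.w p := by
    refine (hB' (0, 1) ?_).1
    have : (0 + 3) * J + 1 ≤ (N + 4) * J + 1 := by nlinarith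
    exact this.trans hNH
  have hτ0 : 0 < τ := by positivity
  -- the change of the intensity
  have hmass : ∀ X : ℕ × ℤ,
      Summable (fun θ : {θ : FMark q H | θ.1 ∈ Infl q H p.A J X} => (L.fine θ.1 : ℝ)) ∧
      ∑' θ : {θ : FMark q H | θ.1 ∈ Infl q H p.A J X}, (L.fine θ.1 : ℝ) ≤ Cp * Ip := by
    intro X
    obtain ⟨s1, s2⟩ := hC q H a δ L X
    refine fine_mass L _ _ s1 (s2.trans ?_)
    calc C * (a * (q : ℝ) ^ 2) ≤ Cp * (a * (q : ℝ) ^ 2) :=
          mul_le_mul_of_nonneg_right (le_max_left _ _) haq0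
      _ ≤ Cp * Ip := mul_le_mul_of_nonneg_left (hI2.trans (le_max_left _ _)) hCp0
  have hchange : ∀ (X : ℕ × ℤ) (F : Set (Conf q H)), MeasurableSet F →
      DepOn {θ : FMark q H | θ.1 ∈ Infl q H p.A J X} F →
      (L.PP lam').real F ≤ (L.PP lam).real F + p0 := by
    intro X F hF hDF
    obtain ⟨s1, s2⟩ := hmass X
    have h := h6 (FMark q H) L.fine {θ : FMark q H | θ.1 ∈ Infl q H p.A J X} F hF hDF s1 lam' lam
    have hd : |(lam' : ℝ) - lam| * ∑' θ : {θ : FMark q H | θ.1 ∈ Infl q H p.A J X},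
        (L.fine θ.1 : ℝ) ≤ p0 := by
      have hll : (lam : ℝ) ≤ lam' := by exact_mod_cast hl1
      have h10 : |(lam' : ℝ) - lam| ≤ p0 / (Cp * Ip + 1) := by
        rw [abs_of_nonneg (by linarith)]
        have := hl2.trans (add_le_add_right (min_le_right 1 (p0 / (Cp * Ip + 1))) (lam : ℝ))
        linarith
      have hCI : 0 ≤ Cp * Ip := mul_nonneg hCp0 hIp0
      calc |(lam' : ℝ) - lam| * ∑' θ : {θ : FMark q H | θ.1 ∈ Infl q H p.A J X}, (L.fine θ.1 : ℝ)
          ≤ (p0 / (Cp * Ip + 1)) * (Cp * Ip) := by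
            apply mul_le_mul h10 s2
            · exact tsum_nonneg fun θ => (L.fine θ.1).2
            · positivity
        _ ≤ p0 := by
            rw [div_mul_eq_mul_div, div_le_iff₀ (by positivity)]
            nlinarith
    have h11 : (L.PP lam').real F - (L.PP lam).real F ≤ p0 := by
      refine le_trans (le_abs_self _) (le_trans ?_ hd)
      exact h
    linarith
  have hinten : (lam' : ℝ) * (a * (q : ℝ) ^ 2) ≤ 2 * I := by
    have h12 : (lam' : ℝ) ≤ lam + 1 := hl2.trans (add_le_add_right (min_le_left _ _) _)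
    have h13 : (lam' : ℝ) * (a * (q : ℝ) ^ 2) ≤ (lam + 1) * (a * (q : ℝ) ^ 2) :=
      mul_le_mul_of_nonneg_right h12 haq0
    have h14 : ((lam : ℝ) + 1) * (a * (q : ℝ) ^ 2) = lam * (a * q ^ 2) + a * q ^ 2 := by ring
    linarith
  -- the bad events
  set Bad : ℕ × ℤ → Set (Conf q H) := fun X =>
    if (X.1 + 3) * J + 1 ≤ H then {ω | ¬ GOODE L lam ρ p uh τ ω X} else ∅ with hBad
  have hBadM : ∀ X, MeasurableSet (Bad X) := by
    intro X
    rw [hBad]
    by_cases hX : (X.1 + 3) * J + 1 ≤ H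
    · simp only [hX, if_true]
      exact (h5 q H a δ Λ L lam ρ p uh τ X hρ hOK.short hJ hu100 hGeo hX).1.compl
    · simp only [hX, if_false]
      exact MeasurableSet.empty
  have hBadD : ∀ X, DepOn {θ : FMark q H | θ.1 ∈ Infl q H p.A J X} (Bad X) := by
    intro X
    rw [hBad]
    by_cases hX : (X.1 + 3) * J + 1 ≤ H
    · simp only [hX, if_true]
      intro ω ω' hω
      exact not_congr ((h5 q H a δ Λ L lam ρ p uh τ X hρ hOK.short hJ hu100 hGeo hX).2.1 ω ω' hω)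
    · simp only [hX, if_false]
      intro ω ω' hω
      exact Iff.rfl
  have hBadP : ∀ X : ℕ × ℤ, (X.1 + 3) * J + 1 ≤ H → (L.PP lam').real (Bad X) ≤ p0' := by
    intro X hX
    have h15 := hchange X (Bad X) (hBadM X) (hBadD X)
    have h16 : (L.PP lam).real (Bad X) ≤ p0 := by
      have : Bad X = {ω | ¬ GOODE L lam ρ p uh τ ω X} := by rw [hBad]; simp only [hX, if_true]
      rw [this]
      exact (hB' X hX).2.1
    have h17 : p0 ≤ p0' / 2 := min_le_left _ _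
    linarith
  have hprod := hDec p.A hA0 q H a δ L lam' hinten Bad hBadM hBadD hBadP
  have hNcond : ∀ M : ℕ, M ≤ N → (M + 3) * J + 1 ≤ H := by
    intro M hM
    have : (M + 3) * J + 1 ≤ (N + 4) * J + 1 := by nlinarith
    exact this.trans hNH
  have hprob : IsProbabilityMeasure (L.PP lam') := by
    show IsProbabilityMeasure (pois (fun θ => lam' * L.fine θ))
    infer_instance
  have hE1 := hLP (Conf q H) (L.PP lam') (fun ω => {X | ω ∈ Bad X}) (fun x => hBadM x) N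
    (by
      intro S hS
      have h18 := hprod S (fun X hX => hNcond X.1 (hS X hX))
      have h19 : {ω : Conf q H | ∀ x ∈ S, x ∈ {X | ω ∈ Bad X}} = ⋂ X ∈ S, Bad X := by
        ext ω
        simp
      rw [h19]
      exact h18)
  -- the start
  have h01 : ((0, 1) : ℕ × ℤ).1 = 0 := rfl
  have hst := h5 q H a δ Λ L lam ρ p uh τ (0, 1) hρ hOK.short hJ hu100 hGeo (hNcond 0 (by omega))
  have hOccP : (L.PP lam').real {ω | ¬ OCC0 L lam ρ p uh τ ω (0, 1)} ≤ 1 / 4 := by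
    have hm := (hst.2.2 h01).1
    have hd := (hst.2.2 h01).2
    have h20 := hchange (0, 1) {ω | ¬ OCC0 L lam ρ p uh τ ω (0, 1)} hm.compl
      (fun ω ω' hω => not_congr (hd ω ω' hω))
    have h21 := (hB' (0, 1) (hNcond 0 (by omega))).2.2 h01
    have h22 : p0 ≤ 1 / 8 := min_le_right _ _
    linarith
  -- the deterministic part
  have hincl : {ω : Conf q H | ∃ F : ℕ → ℤ, F 0 = 1 ∧ (∀ M < N, |F (M + 1) - F M| ≤ 1) ∧
      ∀ M ≤ N, (M, F M) ∉ {X | ω ∈ Bad X}} ⊆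
      {ω | ∃ m0 < J, ∃ z0 : Site, nrm z0 ≤ (2 * p.A : ℕ) ∧ SurvT ρ ω m0 z0 (N * J)} ∪
      {ω | ¬ OCC0 L lam ρ p uh τ ω (0, 1)} := by
    intro ω hω
    obtain ⟨F, hF0, hF1, hF2⟩ := hω
    by_cases hocc : OCC0 L lam ρ p uh τ ω (0, 1)
    swap
    · exact Or.inr hocc
    left
    have hgood : ∀ M ≤ N, GOODE L lam ρ p uh τ ω (M, F M) := by
      intro M hM
      have h23 := hF2 M hM
      have h24 : (((M, F M) : ℕ × ℤ).1 + 3) * J + 1 ≤ H := hNcond M hM
      by_contra hcon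
      apply h23
      show ω ∈ Bad (M, F M)
      rw [hBad]
      simp only [h24, if_true]
      exact hcon
    have hocc0 : OCCE L lam ρ p uh τ ω (0, F 0) := by
      rw [hF0]
      unfold OCCE
      unfold OCC0 at hocc
      refine hocc.trans ?_
      have hIco : Finset.Ico (((0, 1) : ℕ × ℤ).1 * p.J) ((((0, 1) : ℕ × ℤ).1 + 1) * p.J) =
          Finset.Ico 0 p.J := by
        simp
      rw [hIco]
      have hsub : (Finset.Ico 0 p.J).filter (fun m =>
          WWE ρ q (et ω m) p (0, 1) ∧ NNE L lam ρ p uh ω m (0, 1)) ⊆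
          (Finset.Ico 0 p.J).filter (fun m => WWE ρ q (et ω m) p (0, 1) ∧
            ∃ y ∈ p.sub ((0, 1) : ℕ × ℤ).1 ((0, 1) : ℕ × ℤ).2, niceE L lam ρ p.u p.J uh ω m y ∧
            UU ρ q (et ω m) y (10 * p.u) (20 * p.u) ∧ VE ρ q (et ω m) y p.u ∧
            ∃ x ∈ Rch ρ ω p.J (2 * p.A) m, ∃ g ∈ GamS ρ q (et ω m) y (10 * p.u) (20 * p.u),
              Linked Adj4 (vacSites ρ (et ω m)) x g) := by
        intro m hm
        rw [Finset.mem_filter] at hm ⊢
        obtain ⟨hm1, hm2, hm3⟩ := hm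
        refine ⟨hm1, hm2, ?_⟩
        obtain ⟨y, hy, hny, hUU, hVE⟩ := hm3
        refine ⟨y, hy, hny, hUU, hVE, ?_⟩
        have hab : 10 * p.u < 20 * p.u := by
          have : 100 ≤ p.u := hu100
          omega
        obtain ⟨g, hg⟩ := gam_nonempty h8 ρ q (et ω m) y (10 * p.u) (20 * p.u) hq0 hab hUU
        refine ⟨g, Or.inl (Finset.mem_Ico.1 hm1).2, g, hg, ?_, Relation.ReflTransGen.refl⟩
        exact ((h8 ρ q (et ω m) y _ _ hq0 hab hUU).1 hg).1
      exact_mod_cast Finset.card_le_card hsub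
    have hall : ∀ M ≤ N, OCCE L lam ρ p uh τ ω (M, F M) := by
      intro M
      induction M with
      | zero => intro _; exact hocc0
      | succ M ih =>
        intro hM
        have hM' : M ≤ N := by omega
        have h25 := h4 q H a δ Λ L lam ρ p uh τ ω (M, F M) (F (M + 1) - F M) hρ hOK.short hJ hu100
          hGeo hτ0 huh0 (hF1 M (by omega)) (hNcond M hM') (by
            intro h0
            have h0' : M = 0 := h0
            subst h0'
            exact hF0) (hgood M hM') (ih hM')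
        have h26 : (((M, F M) : ℕ × ℤ).1 + 1, ((M, F M) : ℕ × ℤ).2 + (F (M + 1) - F M)) =
            (M + 1, F (M + 1)) := by
          simp
        rw [h26] at h25
        exact h25
    have hlast := hall N le_rfl
    unfold OCCE at hlast
    have hpos : (0:ℝ) < τ * p.J := by
      have : (0:ℝ) < (p.J : ℝ) := by
        have : 0 < J := hJ
        exact_mod_cast this
      positivity
    have hcard := hpos.trans_le hlast
    have hcard' : 0 < ((Finset.Ico (((N, F N) : ℕ × ℤ).1 * p.J)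
        ((((N, F N) : ℕ × ℤ).1 + 1) * p.J)).filter fun m =>
      WWE ρ q (et ω m) p (N, F N) ∧ ∃ y ∈ p.sub ((N, F N) : ℕ × ℤ).1 ((N, F N) : ℕ × ℤ).2,
        niceE L lam ρ p.u p.J uh ω m y ∧
        UU ρ q (et ω m) y (10 * p.u) (20 * p.u) ∧ VE ρ q (et ω m) y p.u ∧
        ∃ x ∈ Rch ρ ω p.J (2 * p.A) m, ∃ g ∈ GamS ρ q (et ω m) y (10 * p.u) (20 * p.u),
          Linked Adj4 (vacSites ρ (et ω m)) x g).card := by
      exact_mod_cast hcard
    obtain ⟨m, hm⟩ := Finset.card_pos.1 hcard'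
    rw [Finset.mem_filter, Finset.mem_Ico] at hm
    obtain ⟨⟨hm1, hm2⟩, -, y, -, -, -, -, x, hx, -⟩ := hm
    have hm1' : N * J ≤ m := hm1
    rcases hx with hx | ⟨m0, z, hm0, hz, hsafe, hmove, -⟩
    · exfalso
      have : m < J := hx
      have : J ≤ N * J := hNJ
      omega
    · refine ⟨m0, hm0, z m0, hz, z, rfl, ?_, ?_⟩
      · intro k hk1 hk2
        exact hsafe k hk1 (hk2.trans_le hm1')
      · intro k hk1 hk2
        exact hmove k hk1 (hk2.trans_le hm1')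
  have hfin := measureReal_mono (μ := L.PP lam') hincl (measure_ne_top _ _)
  have hun := measureReal_union_le (μ := L.PP lam')
    {ω | ∃ m0 < J, ∃ z0 : Site, nrm z0 ≤ (2 * p.A : ℕ) ∧ SurvT ρ ω m0 z0 (N * J)}
    {ω | ¬ OCC0 L lam ρ p uh τ ω (0, 1)}
  have hgoal : (1:ℝ) / 2 ≤ (L.PP lam').real
      {ω | ∃ m0 < J, ∃ z0 : Site, nrm z0 ≤ (2 * p.A : ℕ) ∧ SurvT ρ ω m0 z0 (N * J)} := by
    linarith
  exact hgoal

end MPdd5692
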