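import Mathlib

set_option autoImplicit false

/-!
# MP_dd5692_pr, Theorem B', step (2): one cell (helper93)

* `poissonization`: the numbers of points of a Poisson number of uniform points are independent Poisson.
* `perCell`: variance of the conditional mean given the number of hidden particles and the revealed
  particles, for a function that does not see particles in the blob.
-/

open MeasureTheory ProbabilityTheory Set
open scoped ENNReal NNReal BigOperators Nat

namespace MPdd5692.PerCell

section comb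

variable {Q : Type} [Fintype Q] [DecidableEq Q]

/-- numbers of points -/
def cntF {k : ℕ} (f : Fin k → Q) (v : Q) : ℕ := (Finset.univ.filter fun j => f j = v).card

theorem cntF_cons {k : ℕ} (a : Q) (f : Fin k → Q) (v : Q) :
    cntF (Fin.cons a f : Fin (k + 1) → Q) v = (if a = v then 1 else 0) + cntF f v := by
  unfold cntF
  rw [Fin.card_filter_univ_succ']
  simp only [Fin.cons_zero, Fin.cons_succ]

/-- number of maps with given counts -/
def num (k : ℕ) (c : Q → ℕ) : ℕ := ∑ f : Fin k → Q, if (∀ v, cntF f v = c v) then 1 else 0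

theorem num_succ (k : ℕ) (c : Q → ℕ) :
    num (k + 1) c = ∑ a : Q, if 1 ≤ c a then num k (Function.update c a (c a - 1)) else 0 := by
  unfold num
  rw [← (Fin.consEquiv fun _ : Fin (k + 1) => Q).sum_comp, Fintype.sum_prod_type]
  refine Finset.sum_congr rfl fun a _ => ?_
  by_cases ha : 1 ≤ c a
  · rw [if_pos ha]
    refine Finset.sum_congr rfl fun f _ => ?_
    have e : (∀ v, cntF ((Fin.consEquiv fun _ : Fin (k + 1) => Q) (a, f)) v = c v) ↔
        ∀ v, cntF f v = Function.update c a (c a - 1) v := by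
      refine forall_congr' fun v => ?_
      change cntF (Fin.cons a f : Fin (k + 1) → Q) v = c v ↔ _
      rw [cntF_cons]
      rcases eq_or_ne v a with h | h
      · subst h
        rw [if_pos rfl, Function.update_self]
        omega
      · rw [if_neg (Ne.symm h), Function.update_of_ne h, zero_add]
    simp only [e]
  · rw [if_neg ha]
    refine Finset.sum_eq_zero fun f _ => ?_
    rw [if_neg]
    intro h
    have h1 := h a
    change cntF (Fin.cons a f : Fin (k + 1) → Q) a = c a at h1
    rw [cntF_cons, if_pos rfl] at h1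
    omega

theorem prod_update (c : Q → ℕ) (a : Q) (ha : 1 ≤ c a) :
    ∏ v, (c v)! = c a * ∏ v, (Function.update c a (c a - 1) v)! := by
  rw [← Finset.mul_prod_erase _ _ (Finset.mem_univ a),
    ← Finset.mul_prod_erase _ (fun v => (Function.update c a (c a - 1) v)!) (Finset.mem_univ a)]
  rw [Function.update_self, ← mul_assoc, Nat.mul_factorial_pred (by omega)]
  congr 1
  refine Finset.prod_congr rfl fun v hv => ?_
  rw [Function.update_of_ne (Finset.ne_of_mem_erase hv)]

theorem sum_update (c : Q → ℕ) (a : Q) (ha : 1 ≤ c a) :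
    ∑ v, c v = 1 + ∑ v, Function.update c a (c a - 1) v := by
  rw [← Finset.add_sum_erase _ _ (Finset.mem_univ a),
    ← Finset.add_sum_erase _ (fun v => Function.update c a (c a - 1) v) (Finset.mem_univ a)]
  rw [Function.update_self]
  have : ∑ v ∈ Finset.univ.erase a, Function.update c a (c a - 1) v =
      ∑ v ∈ Finset.univ.erase a, c v :=
    Finset.sum_congr rfl fun v hv => Function.update_of_ne (Finset.ne_of_mem_erase hv) _ _
  rw [this]
  omega

theorem num_mul (k : ℕ) : ∀ c : Q → ℕ, ∑ v, c v = k → num k c * ∏ v, (c v)! = k ! := by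
  induction k with
  | zero =>
    intro c hc
    have h0 : ∀ v, c v = 0 := fun v => by
      have := Finset.single_le_sum (f := c) (fun _ _ => Nat.zero_le _) (Finset.mem_univ v)
      omega
    unfold num
    have h1 : ∀ f : Fin 0 → Q, ∀ v, cntF f v = c v := by
      intro f v
      rw [h0 v]
      unfold cntF
      simp
    simp [h1, h0]
  | succ k ih =>
    intro c hc
    rw [num_succ, Finset.sum_mul]
    have h1 : ∀ a ∈ (Finset.univ : Finset Q),
        (if 1 ≤ c a then num k (Function.update c a (c a - 1)) else 0) * ∏ v, (c v)! =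
          c a * k ! := by
      intro a _
      by_cases ha : 1 ≤ c a
      · rw [if_pos ha, prod_update c a ha]
        have h2 := sum_update c a ha
        rw [mul_left_comm, ih _ (by omega)]
      · rw [if_neg ha]
        have : c a = 0 := by omega
        rw [this]; simp
    rw [Finset.sum_congr rfl h1, ← Finset.sum_mul, hc, Nat.factorial_succ]

end comb

section prob

variable (Q : Type) [Fintype Q] [Nonempty Q] [MeasurableSpace Q]

/-- uniform measure on a finite set -/
noncomputable def unif : Measure Q := (PMF.uniformOfFintype Q).toMeasure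

instance : IsProbabilityMeasure (unif Q) := by unfold unif; infer_instance

/-- independent uniform points -/
noncomputable def iid : Measure (ℕ → Q) := Measure.infinitePi fun _ => unif Q

instance : IsProbabilityMeasure (iid Q) := by unfold iid; infer_instance

variable {Q} [DecidableEq Q] [MeasurableSingletonClass Q]

/-- number of the first `k` points in `v` -/
def cnt (k : ℕ) (V : ℕ → Q) (v : Q) : ℕ := ((Finset.range k).filter fun j => V j = v).card

omit [Nonempty Q] [MeasurableSpace Q] [MeasurableSingletonClass Q] in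
theorem cnt_eq (k : ℕ) (V : ℕ → Q) (v : Q) : cnt k V v = cntF (fun j : Fin k => V j) v := by
  unfold cnt cntF
  rw [Finset.card_filter, Finset.card_filter]
  exact (Fin.sum_univ_eq_sum_range (fun j => if V j = v then 1 else 0) k).symm

omit [Nonempty Q] [MeasurableSpace Q] [MeasurableSingletonClass Q] in
theorem sum_cnt (k : ℕ) (V : ℕ → Q) : ∑ v, cnt k V v = k := by
  unfold cnt
  rw [← Finset.card_eq_sum_card_fiberwise (f := V) (s := Finset.range k) (t := Finset.univ)
    (fun _ _ => Finset.mem_coe.2 (Finset.mem_univ _)), Finset.card_range]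

omit [Nonempty Q] in
theorem measurable_cnt (k : ℕ) (v : Q) : Measurable fun V : ℕ → Q => cnt k V v := by
  unfold cnt
  simp only [Finset.card_filter]
  refine Finset.measurable_fun_sum _ fun j _ => ?_
  have h1 : MeasurableSet {V : ℕ → Q | V j = v} := by
    have : {V : ℕ → Q | V j = v} = (fun V : ℕ → Q => V j) ⁻¹' {v} := rfl
    rw [this]
    exact (measurable_pi_apply j) (measurableSet_singleton v)
  exact Measurable.ite h1 measurable_const measurable_const

omit [DecidableEq Q] in
theorem unif_singleton (v : Q) : unif Q {v} = (Fintype.card Q : ℝ≥0∞)⁻¹ := by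
  unfold unif
  rw [PMF.toMeasure_apply_singleton _ _ (measurableSet_singleton v), PMF.uniformOfFintype_apply]

omit [DecidableEq Q] in
theorem unif_finset (B : Finset Q) : unif Q B = (B.card : ℝ≥0∞) * (Fintype.card Q : ℝ≥0∞)⁻¹ := by
  rw [← sum_measure_singleton]
  rw [Finset.sum_congr rfl fun v _ => unif_singleton v]
  simp

omit [DecidableEq Q] in
theorem iid_cyl (k : ℕ) (t : ℕ → Set Q) (ht : ∀ j, MeasurableSet (t j)) :
    iid Q {V | ∀ j < k, V j ∈ t j} = ∏ j ∈ Finset.range k, unif Q (t j) := by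
  unfold iid
  rw [← Measure.infinitePi_pi (fun _ : ℕ => unif Q) (s := Finset.range k) (t := t)
    (fun j _ => ht j)]
  congr 1
  ext V
  simp [Set.mem_pi]

omit [DecidableEq Q] in
theorem iid_map_singleton (k : ℕ) (f : Fin k → Q) :
    (iid Q).map (fun V (j : Fin k) => V j) {f} = ((Fintype.card Q : ℝ≥0∞)⁻¹) ^ k := by
  have hm : Measurable fun (V : ℕ → Q) (j : Fin k) => V j :=
    measurable_pi_lambda _ fun j => measurable_pi_apply _
  rw [Measure.map_apply hm (measurableSet_singleton f)]
  have h1 : (fun (V : ℕ → Q) (j : Fin k) => V j) ⁻¹' {f} =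
      {V | ∀ j < k, V j ∈ (fun j => if h : j < k then {f ⟨j, h⟩} else Set.univ : ℕ → Set Q) j} := by
    ext V
    simp only [Set.mem_preimage, Set.mem_singleton_iff, Set.mem_setOf_eq, funext_iff]
    constructor
    · intro h j hj
      rw [dif_pos hj]
      exact h ⟨j, hj⟩
    · intro h j
      have := h j j.2
      rw [dif_pos j.2] at this
      exact this
  rw [h1, iid_cyl]
  · rw [Finset.prod_congr rfl (g := fun _ => (Fintype.card Q : ℝ≥0∞)⁻¹), Finset.prod_const,
      Finset.card_range]
    intro j hj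
    rw [dif_pos (Finset.mem_range.1 hj), unif_singleton]
  · intro j
    exact (Set.toFinite _).measurableSet

theorem iid_cnt (k : ℕ) (c : Q → ℕ) :
    iid Q {V | (fun v => cnt k V v) = c} = (num k c : ℝ≥0∞) * ((Fintype.card Q : ℝ≥0∞)⁻¹) ^ k := by
  have hm : Measurable fun (V : ℕ → Q) (j : Fin k) => V j :=
    measurable_pi_lambda _ fun j => measurable_pi_apply _
  have h1 : {V : ℕ → Q | (fun v => cnt k V v) = c} = (fun (V : ℕ → Q) (j : Fin k) => V j) ⁻¹'
      ((Finset.univ.filter fun f : Fin k → Q => ∀ v, cntF f v = c v : Finset (Fin k → Q)) :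
        Set (Fin k → Q)) := by
    ext V
    simp only [Set.mem_setOf_eq, Set.mem_preimage, Finset.coe_filter, Finset.mem_univ, true_and,
      funext_iff, cnt_eq]
  rw [h1, ← Measure.map_apply hm (Finset.measurableSet _), ← sum_measure_singleton,
    Finset.sum_congr rfl fun f _ => iid_map_singleton k f, Finset.sum_const, nsmul_eq_mul]
  congr 2
  unfold num
  rw [Finset.card_filter]

/-- the counts of a Poisson number of uniform points are independent Poisson -/
theorem poissonization (b : ℝ≥0) :
    ((poissonMeasure (Fintype.card Q * b)).prod (iid Q)).map (fun p v => cnt p.1 p.2 v) =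
      Measure.pi fun _ : Q => poissonMeasure b := by
  have hF : Measurable fun (p : ℕ × (ℕ → Q)) v => cnt p.1 p.2 v := by
    refine measurable_pi_lambda _ fun v => ?_
    exact measurable_from_prod_countable_right fun k => measurable_cnt k v
  refine Measure.ext_of_singleton fun c => ?_
  rw [Measure.map_apply hF (measurableSet_singleton c)]
  have h1 : (fun (p : ℕ × (ℕ → Q)) v => cnt p.1 p.2 v) ⁻¹' {c} =
      {∑ v, c v} ×ˢ {V | (fun v => cnt (∑ v, c v) V v) = c} := by
    ext ⟨k, V⟩
    simp only [Set.mem_preimage, Set.mem_singleton_iff, Set.mem_prod, Set.mem_setOf_eq]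
    constructor
    · intro h
      have hk : k = ∑ v, c v := by
        rw [← h, sum_cnt]
      subst hk
      exact ⟨rfl, h⟩
    · rintro ⟨rfl, h⟩
      exact h
  rw [h1, Measure.prod_prod, iid_cnt]
  have h2 : ({c} : Set (Q → ℕ)) = Set.pi Set.univ fun v => {c v} := by
    ext d; simp [Set.mem_pi, funext_iff]
  rw [h2, Measure.pi_pi, poissonMeasure_singleton]
  simp only [poissonMeasure_singleton]
  set K := ∑ v, c v with hK
  have hn : (0 : ℝ) < Fintype.card Q := by exact_mod_cast Fintype.card_pos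
  have h3 : ((Fintype.card Q : ℝ≥0∞)⁻¹) ^ K = ENNReal.ofReal (((Fintype.card Q : ℝ)⁻¹) ^ K) := by
    rw [ENNReal.ofReal_pow (by positivity), ENNReal.ofReal_inv_of_pos hn, ENNReal.ofReal_natCast]
  rw [h3, ← ENNReal.ofReal_natCast (num K c), ← ENNReal.ofReal_mul (by positivity),
    ← ENNReal.ofReal_mul (by positivity), ← ENNReal.ofReal_prod_of_nonneg (fun v _ => by positivity)]
  congr 1
  rw [Finset.prod_div_distrib, Finset.prod_mul_distrib, Finset.prod_const, Finset.card_univ,
    Finset.prod_pow_eq_pow_sum, ← hK]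
  have h4 := num_mul K c hK.symm
  have h5 : (num K c : ℝ) * ∏ v, ((c v)! : ℝ) = (K ! : ℝ) := by exact_mod_cast h4
  have h6 : (0 : ℝ) < ∏ v, ((c v)! : ℝ) := Finset.prod_pos fun v _ => by positivity
  have h7 : (0 : ℝ) < (K ! : ℝ) := by positivity
  have h8 : (0 : ℝ) < (num K c : ℝ) := by
    rcases (Nat.cast_nonneg (α := ℝ) (num K c)).lt_or_eq with h | h
    · exact h
    · rw [← h, zero_mul] at h5
      exact absurd h5 h7.ne
  have h9 : Real.exp (-(Fintype.card Q * b : ℝ)) = Real.exp (-(b : ℝ)) ^ Fintype.card Q := by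
    rw [← Real.exp_nat_mul]
    congr 1
    ring
  push_cast
  rw [h9, ← h5, mul_pow, inv_pow]
  field_simp

omit [Nonempty Q] [MeasurableSpace Q] [MeasurableSingletonClass Q] [DecidableEq Q] in
theorem pi_add (a b : ℝ≥0) :
    ((Measure.pi fun _ : Q => poissonMeasure a).prod (Measure.pi fun _ : Q => poissonMeasure b)).map
      (fun p v => p.1 v + p.2 v) = Measure.pi fun _ : Q => poissonMeasure (a + b) := by
  have h0 := (measurePreserving_arrowProdEquivProdArrow ℕ ℕ Q (fun _ => poissonMeasure a)
    (fun _ => poissonMeasure b)).map_eq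
  rw [← h0, Measure.map_map (Measurable.of_discrete) (MeasurableEquiv.measurable _)]
  have h1 : ((fun (p : (Q → ℕ) × (Q → ℕ)) (v : Q) => p.1 v + p.2 v) ∘
      (MeasurableEquiv.arrowProdEquivProdArrow ℕ ℕ Q)) =
      fun (x : Q → ℕ × ℕ) (v : Q) => (fun q : ℕ × ℕ => q.1 + q.2) (x v) := rfl
  rw [h1]
  have h2 : ∀ v : Q, SigmaFinite (Measure.map (fun q : ℕ × ℕ => q.1 + q.2)
      ((poissonMeasure a).prod (poissonMeasure b))) := by
    intro v
    have : IsProbabilityMeasure (Measure.map (fun q : ℕ × ℕ => q.1 + q.2)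
      ((poissonMeasure a).prod (poissonMeasure b))) :=
      Measure.isProbabilityMeasure_map (Measurable.of_discrete).aemeasurable
    infer_instance
  rw [Measure.pi_map_pi (hμ := h2) (fun v => (Measurable.of_discrete).aemeasurable)]
  have h3 := poissonMeasure_conv_poissonMeasure a b
  unfold Measure.conv at h3
  rw [h3]

/-- measure of the hidden number and the revealed counts -/
noncomputable def muY (Q : Type) [Fintype Q] (ah ar : ℝ≥0) : Measure (ℕ × (Q → ℕ)) :=
  (poissonMeasure (Fintype.card Q * ah)).prod (Measure.pi fun _ : Q => poissonMeasure ar)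

instance (Q : Type) [Fintype Q] (ah ar : ℝ≥0) : IsProbabilityMeasure (muY Q ah ar) := by
  unfold muY; infer_instance

/-- the counts of all particles -/
def tot (Y : ℕ × (Q → ℕ)) (V : ℕ → Q) (v : Q) : ℕ := cnt Y.1 V v + Y.2 v

omit [Nonempty Q] in
theorem measurable_cntP : Measurable fun (p : ℕ × (ℕ → Q)) v => cnt p.1 p.2 v := by
  refine measurable_pi_lambda _ fun v => ?_
  exact measurable_from_prod_countable_right fun k => measurable_cnt k v

omit [Nonempty Q] in
theorem measurable_tot : Measurable fun (p : (ℕ × (Q → ℕ)) × (ℕ → Q)) => tot p.1 p.2 := by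
  refine measurable_from_prod_countable_right fun Y => ?_
  refine measurable_pi_lambda _ fun v => ?_
  exact (measurable_cnt Y.1 v).add (measurable_const (a := Y.2 v))

theorem law_tot (ah ar : ℝ≥0) :
    ((muY Q ah ar).prod (iid Q)).map (fun p => tot p.1 p.2) =
      Measure.pi fun _ : Q => poissonMeasure (ah + ar) := by
  unfold muY
  have e1 := measurePreserving_prodAssoc (poissonMeasure (Fintype.card Q * ah))
    (Measure.pi fun _ : Q => poissonMeasure ar) (iid Q)
  have e2 := (MeasurePreserving.id (poissonMeasure (Fintype.card Q * ah))).prod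
    (Measure.measurePreserving_swap (μ := Measure.pi fun _ : Q => poissonMeasure ar) (ν := iid Q))
  have e3 := (measurePreserving_prodAssoc (poissonMeasure (Fintype.card Q * ah)) (iid Q)
    (Measure.pi fun _ : Q => poissonMeasure ar)).symm
  have e4 : MeasurePreserving (fun (p : ℕ × (ℕ → Q)) v => cnt p.1 p.2 v)
      ((poissonMeasure (Fintype.card Q * ah)).prod (iid Q))
      (Measure.pi fun _ : Q => poissonMeasure ah) := ⟨measurable_cntP, poissonization ah⟩
  have e5 := e4.prod (MeasurePreserving.id (Measure.pi fun _ : Q => poissonMeasure ar))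
  have e6 : MeasurePreserving (fun (p : (Q → ℕ) × (Q → ℕ)) (v : Q) => p.1 v + p.2 v)
      ((Measure.pi fun _ : Q => poissonMeasure ah).prod (Measure.pi fun _ : Q => poissonMeasure ar))
      (Measure.pi fun _ : Q => poissonMeasure (ah + ar)) := ⟨Measurable.of_discrete, pi_add ah ar⟩
  have e7 := e6.comp (e5.comp (e3.comp (e2.comp e1)))
  exact e7.map_eq

theorem law_tot' (ah ar : ℝ≥0) :
    ((muY Q ah ar).prod (iid Q)).map (fun p => tot p.1 p.2) =
      ((poissonMeasure (Fintype.card Q * (ah + ar))).prod (iid Q)).map (fun p v => cnt p.1 p.2 v) := by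
  rw [law_tot, poissonization]

theorem intb {α : Type*} [MeasurableSpace α] {μ : Measure α} [IsProbabilityMeasure μ] {f : α → ℝ}
    (hf : Measurable f) {C : ℝ} (hC : ∀ x, |f x| ≤ C) : Integrable f μ :=
  Integrable.of_bound hf.aestronglyMeasurable C (ae_of_all _ hC)

theorem int_sub_sq {α : Type*} [MeasurableSpace α] {μ : Measure α} [IsProbabilityMeasure μ]
    {w : α → ℝ} (hw : Measurable w) {C : ℝ} (hC : ∀ x, |w x| ≤ C) (c : ℝ) :
    ∫ x, (w x - c) ^ 2 ∂μ = ∫ x, w x ^ 2 ∂μ - 2 * c * ∫ x, w x ∂μ + c ^ 2 := by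
  have i1 : Integrable w μ := intb hw hC
  have i2 : Integrable (fun x => w x ^ 2) μ := by
    refine intb (hw.pow_const 2) (C := C ^ 2) fun x => ?_
    rw [abs_pow]
    exact pow_le_pow_left₀ (abs_nonneg _) (hC x) 2
  have e : ∀ x, (w x - c) ^ 2 = w x ^ 2 - 2 * c * w x + c ^ 2 := fun x => by ring
  simp only [e]
  have i3 : Integrable (fun x => 2 * c * w x) μ := i1.const_mul _
  have i4 : Integrable (fun x => w x ^ 2 - 2 * c * w x) μ := i2.sub i3
  rw [integral_add i4 (integrable_const _), integral_sub i2 i3, integral_const_mul, integral_const]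
  simp

theorem sq_int_le {α : Type*} [MeasurableSpace α] {μ : Measure α} [IsProbabilityMeasure μ]
    {w : α → ℝ} (hw : Measurable w) {C : ℝ} (hC : ∀ x, |w x| ≤ C) :
    (∫ x, w x ∂μ) ^ 2 ≤ ∫ x, w x ^ 2 ∂μ := by
  have h1 := int_sub_sq (μ := μ) hw hC (∫ x, w x ∂μ)
  have h2 : 0 ≤ ∫ x, (w x - ∫ x, w x ∂μ) ^ 2 ∂μ := integral_nonneg fun x => sq_nonneg _
  nlinarith

/-- variance of a function which is constant on a set of probability at least `q` -/
theorem var_ge {α : Type*} [MeasurableSpace α] {μ : Measure α} [IsProbabilityMeasure μ]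
    {g : α → ℝ} (hg : Measurable g) {C : ℝ} (hC : ∀ x, |g x| ≤ C) (c q : ℝ) (A : Set α)
    (hA : MeasurableSet A) (hgA : ∀ x ∈ A, g x = c) (hq : q ≤ μ.real A) :
    q * ∫ x, (g x - c) ^ 2 ∂μ ≤ ∫ x, (g x - ∫ y, g y ∂μ) ^ 2 ∂μ := by
  set w : α → ℝ := fun x => g x - c with hw
  have hwm : Measurable w := hg.sub_const c
  have hwC : ∀ x, |w x| ≤ C + |c| := fun x => (abs_sub _ _).trans (by linarith [hC x])
  have e1 : ∫ y, g y ∂μ = ∫ x, w x ∂μ + c := by
    rw [hw, integral_sub (intb hg hC) (integrable_const _), integral_const]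
    simp
  have e2 : ∀ x, g x - ∫ y, g y ∂μ = w x - ∫ x, w x ∂μ := fun x => by
    rw [e1, hw]; ring
  simp only [e2]
  rw [int_sub_sq hwm hwC]
  set m := ∫ x, w x ∂μ with hm
  set v := ∫ x, w x ^ 2 ∂μ with hv
  have hv0 : 0 ≤ v := integral_nonneg fun x => sq_nonneg _
  -- Cauchy-Schwarz
  have hcs : m ^ 2 ≤ μ.real Aᶜ * v := by
    have h1 : ∀ t : ℝ, 0 ≤ μ.real Aᶜ * (t * t) + (-2 * m) * t + v := by
      intro t
      have h2 : ∀ x, (w x - t * Aᶜ.indicator (fun _ => (1 : ℝ)) x) ^ 2 =
          w x ^ 2 - 2 * t * w x + t ^ 2 * Aᶜ.indicator (fun _ => (1 : ℝ)) x := by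
        intro x
        by_cases hx : x ∈ A
        · rw [Set.indicator_of_notMem (by simpa using hx)]
          have : w x = 0 := by rw [hw]; simp [hgA x hx]
          rw [this]; ring
        · rw [Set.indicator_of_mem (by simpa using hx)]
          ring
      have h3 : 0 ≤ ∫ x, (w x - t * Aᶜ.indicator (fun _ => (1 : ℝ)) x) ^ 2 ∂μ :=
        integral_nonneg fun x => sq_nonneg _
      simp only [h2] at h3
      have i1 : Integrable w μ := intb hwm hwC
      have i2 : Integrable (fun x => w x ^ 2) μ := by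
        refine intb (hwm.pow_const 2) (C := (C + |c|) ^ 2) fun x => ?_
        rw [abs_pow]
        exact pow_le_pow_left₀ (abs_nonneg _) (hwC x) 2
      have i3 : Integrable (Aᶜ.indicator (fun _ => (1 : ℝ))) μ :=
        (integrable_const _).indicator hA.compl
      have i4 : Integrable (fun x => 2 * t * w x) μ := i1.const_mul _
      have i5 : Integrable (fun x => w x ^ 2 - 2 * t * w x) μ := i2.sub i4
      rw [integral_add i5 (i3.const_mul _), integral_sub i2 i4, integral_const_mul,
        integral_const_mul, integral_indicator_const _ hA.compl] at h3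
      simp only [smul_eq_mul, mul_one] at h3
      linarith
    have h4 := discrim_le_zero h1
    unfold discrim at h4
    nlinarith
  have h5 : μ.real Aᶜ = 1 - μ.real A := probReal_compl_eq_one_sub hA
  rw [h5] at hcs
  nlinarith

/-- places where there is a particle -/
def supp (c : Q → ℕ) : Finset Q := Finset.univ.filter fun v => c v ≠ 0

/-- places of the hidden and the revealed particles -/
def obs (Y : ℕ × (Q → ℕ)) (V : ℕ → Q) : Finset Q :=
  (Finset.range Y.1).image V ∪ Finset.univ.filter fun v => Y.2 v ≠ 0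

omit [Nonempty Q] [MeasurableSpace Q] [MeasurableSingletonClass Q] in
theorem image_eq (k : ℕ) (V : ℕ → Q) : (Finset.range k).image V = supp fun v => cnt k V v := by
  ext v
  unfold supp cnt
  simp only [Finset.mem_image, Finset.mem_filter, Finset.mem_univ, true_and, ne_eq,
    Finset.card_eq_zero, Finset.filter_eq_empty_iff, not_forall, not_not, exists_prop]

omit [Nonempty Q] [MeasurableSpace Q] [MeasurableSingletonClass Q] in
theorem obs_eq (Y : ℕ × (Q → ℕ)) (V : ℕ → Q) : obs Y V = supp (tot Y V) := by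
  unfold obs
  rw [image_eq]
  ext v
  unfold supp tot
  simp only [Finset.mem_union, Finset.mem_filter, Finset.mem_univ, true_and]
  omega

theorem pois_tail (a : ℝ≥0) (N : ℕ) {v : ℕ → ℝ} (hv0 : ∀ k, 0 ≤ v k) (hv1 : ∀ k, v k ≤ 1) :
    ∫ k, v k ∂poissonMeasure a ≤
      ∑ k ∈ Finset.range (N + 1), (poissonMeasure a).real {k} * v k +
        (poissonMeasure a).real {k | N < k} := by
  have i0 : Integrable v (poissonMeasure a) :=
    intb Measurable.of_discrete (C := 1) fun k => by rw [abs_of_nonneg (hv0 k)]; exact hv1 k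
  rw [← integral_add_compl (s := (↑(Finset.range (N + 1)) : Set ℕ)) (Finset.measurableSet _) i0,
    setIntegral_finset _ i0.integrableOn]
  have e : ((↑(Finset.range (N + 1)) : Set ℕ))ᶜ = {k | N < k} := by
    ext k
    simp
  rw [e]
  refine add_le_add (le_of_eq rfl) ?_
  calc ∫ k in {k | N < k}, v k ∂poissonMeasure a
      ≤ ∫ k in {k | N < k}, (1 : ℝ) ∂poissonMeasure a :=
        setIntegral_mono i0.integrableOn (integrable_const _).integrableOn hv1
    _ = _ := by simp

theorem muY_ge (ah ar : ℝ≥0) (N : ℕ) {f : ℕ × (Q → ℕ) → ℝ} (hf0 : ∀ Y, 0 ≤ f Y)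
    {C : ℝ} (hf1 : ∀ Y, f Y ≤ C) :
    ∑ k ∈ Finset.range (N + 1), (muY Q ah ar).real {(k, 0)} * f (k, 0) ≤ ∫ Y, f Y ∂muY Q ah ar := by
  have i0 : Integrable f (muY Q ah ar) :=
    intb Measurable.of_discrete (C := C) fun k => by rw [abs_of_nonneg (hf0 k)]; exact hf1 k
  have h1 := setIntegral_finset (μ := muY Q ah ar) (f := f)
    ((Finset.range (N + 1)).image fun k => ((k, 0) : ℕ × (Q → ℕ))) i0.integrableOn
  rw [Finset.sum_image (fun a _ b _ h => (Prod.mk.inj h).1)] at h1
  simp only [smul_eq_mul] at h1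
  rw [← h1]
  exact setIntegral_le_integral i0 (ae_of_all _ hf0)

theorem muY_singleton (ah ar : ℝ≥0) (h : 0 < ah) (k : ℕ) :
    (muY Q ah ar).real {(k, 0)} =
      (poissonMeasure (Fintype.card Q * (ah + ar))).real {k} * (ah / (ah + ar)) ^ k := by
  have e : ({(k, 0)} : Set (ℕ × (Q → ℕ))) = {k} ×ˢ {0} := by simp
  have e2 : ({0} : Set (Q → ℕ)) = Set.pi Set.univ fun _ => {0} := by
    ext d; simp [Set.mem_pi, funext_iff]
  rw [e]
  unfold muY
  rw [measureReal_prod_prod, e2, measureReal_def (Measure.pi _), Measure.pi_pi]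
  rw [ENNReal.toReal_prod]
  simp only [← measureReal_def, poissonMeasure_real_singleton]
  have h1 : (0 : ℝ) < ah := h
  have h2 : (0 : ℝ) < ah + ar := by positivity
  have h9 : ∀ b : ℝ, Real.exp (-(b : ℝ)) ^ Fintype.card Q = Real.exp (-(Fintype.card Q * b : ℝ)) := by
    intro b
    rw [← Real.exp_nat_mul]
    congr 1
    ring
  rw [Finset.prod_const, Finset.card_univ]
  push_cast
  simp only [pow_zero, Nat.factorial_zero, Nat.cast_one, mul_one, div_one]
  rw [h9]
  have h10 : Real.exp (-(Fintype.card Q * (ah + ar : ℝ))) =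
      Real.exp (-(Fintype.card Q * ah : ℝ)) * Real.exp (-(Fintype.card Q * ar : ℝ)) := by
    rw [← Real.exp_add]
    congr 1
    ring
  rw [h10, mul_pow, mul_pow, div_pow]
  field_simp

/-- **one cell** -/
theorem perCell (h : Finset Q → ℝ) (h0 : ∀ S, 0 ≤ h S) (h1 : ∀ S, h S ≤ 1) (B : Finset Q)
    (hB : ∀ S, S ⊆ B → h S = h ∅) {β : ℝ} (hβ : 0 < β) (hβB : β * Fintype.card Q ≤ B.card)
    {ah ar : ℝ≥0} (hah : 0 < ah) (N : ℕ) :
    ∫ Y, (∫ V, h (obs Y V) ∂iid Q) ^ 2 ∂muY Q ah ar -
        (∫ Y, ∫ V, h (obs Y V) ∂iid Q ∂muY Q ah ar) ^ 2 ≤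
      (((ah : ℝ) + ar) / (ah * β)) ^ N *
          ∫ Y, ∫ V, (h (obs Y V) - ∫ V', h (obs Y V') ∂iid Q) ^ 2 ∂iid Q ∂muY Q ah ar +
        (poissonMeasure (Fintype.card Q * (ah + ar))).real {k | N < k} := by
  set c0 := h ∅ with hc0
  set ph : ℕ × (Q → ℕ) → ℝ := fun Y => ∫ V, h (obs Y V) ∂iid Q with hph
  set g : ℕ → (ℕ → Q) → ℝ := fun k V => h ((Finset.range k).image V) with hg
  set v : ℕ → ℝ := fun k => ∫ V, (g k V - c0) ^ 2 ∂iid Q with hv
  have habs : ∀ S, |h S| ≤ 1 := fun S => by rw [abs_of_nonneg (h0 S)]; exact h1 S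
  have hd : ∀ S, |h S - c0| ≤ 1 := fun S => by
    rw [abs_le]; constructor <;> linarith [h0 S, h1 S, h0 ∅, h1 ∅]
  -- measurability
  have mJ : Measurable fun (p : (ℕ × (Q → ℕ)) × (ℕ → Q)) => h (obs p.1 p.2) := by
    simp only [obs_eq]
    exact (Measurable.of_discrete (f := fun c : Q → ℕ => h (supp c))).comp measurable_tot
  have mF : ∀ Y, Measurable fun V => h (obs Y V) := fun Y => mJ.comp measurable_prodMk_left
  have mG : Measurable fun (p : ℕ × (ℕ → Q)) => g p.1 p.2 := by
    simp only [hg, image_eq]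
    exact (Measurable.of_discrete (f := fun c : Q → ℕ => h (supp c))).comp measurable_cntP
  have mg : ∀ k, Measurable (g k) := fun k => mG.comp measurable_prodMk_left
  have ph0 : ∀ Y, 0 ≤ ph Y := fun Y => integral_nonneg fun V => h0 _
  have ph1 : ∀ Y, ph Y ≤ 1 := fun Y => by
    have := integral_mono (μ := iid Q) (intb (mF Y) fun V => habs _) (integrable_const (1 : ℝ))
      (fun V => h1 (obs Y V))
    simpa using this
  have pha : ∀ Y, |ph Y| ≤ 1 := fun Y => by rw [abs_of_nonneg (ph0 Y)]; exact ph1 Y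
  have v0 : ∀ k, 0 ≤ v k := fun k => integral_nonneg fun V => sq_nonneg _
  have sq1 : ∀ x : ℝ, |x| ≤ 1 → |x ^ 2| ≤ 1 := fun x hx => by
    rw [abs_pow]; exact pow_le_one₀ (abs_nonneg _) hx
  have v1 : ∀ k, v k ≤ 1 := fun k => by
    have := integral_mono (μ := iid Q) (intb (((mg k).sub_const c0).pow_const 2)
      fun V => sq1 _ (hd _)) (integrable_const (1 : ℝ)) (fun V => (le_abs_self _).trans
        (sq1 _ (hd ((Finset.range k).image V))))
    simpa using this
  -- (I)
  have I1 : ∫ Y, ph Y ^ 2 ∂muY Q ah ar - (∫ Y, ph Y ∂muY Q ah ar) ^ 2 ≤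
      ∫ Y, (ph Y - c0) ^ 2 ∂muY Q ah ar := by
    rw [int_sub_sq Measurable.of_discrete pha]
    nlinarith [sq_nonneg (∫ Y, ph Y ∂muY Q ah ar - c0)]
  have I2 : ∫ Y, (ph Y - c0) ^ 2 ∂muY Q ah ar ≤
      ∫ Y, ∫ V, (h (obs Y V) - c0) ^ 2 ∂iid Q ∂muY Q ah ar := by
    refine integral_mono (intb Measurable.of_discrete (C := 4) fun Y => ?_)
      (intb Measurable.of_discrete (C := 1) fun Y => ?_) fun Y => ?_
    · have := pha Y
      have h3 : |c0| ≤ 1 := habs ∅
      rw [abs_of_nonneg (sq_nonneg _)]
      rw [abs_le] at this h3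
      nlinarith
    · rw [abs_of_nonneg (integral_nonneg fun V => sq_nonneg _)]
      have := integral_mono (μ := iid Q) (intb (((mF Y).sub_const c0).pow_const 2)
        fun V => sq1 _ (hd _)) (integrable_const (1 : ℝ)) (fun V => (le_abs_self _).trans
          (sq1 _ (hd (obs Y V))))
      simpa using this
    · have e : ph Y - c0 = ∫ V, (h (obs Y V) - c0) ∂iid Q := by
        rw [integral_sub (intb (mF Y) fun V => habs _) (integrable_const _), integral_const]
        simp [hph]
      change (ph Y - c0) ^ 2 ≤ _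
      rw [e]
      exact sq_int_le ((mF Y).sub_const c0) fun V => hd _
  have I3 : ∫ Y, ∫ V, (h (obs Y V) - c0) ^ 2 ∂iid Q ∂muY Q ah ar =
      ∫ k, v k ∂poissonMeasure (Fintype.card Q * (ah + ar)) := by
    rw [← integral_prod (f := fun p : (ℕ × (Q → ℕ)) × (ℕ → Q) => (h (obs p.1 p.2) - c0) ^ 2)
      (intb ((mJ.sub_const c0).pow_const 2) fun p => sq1 _ (hd _))]
    simp only [hv]
    rw [← integral_prod (f := fun p : ℕ × (ℕ → Q) => (g p.1 p.2 - c0) ^ 2)
      (intb ((mG.sub_const c0).pow_const 2) fun p => sq1 _ (hd _))]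
    simp only [obs_eq, hg, image_eq]
    have e1 := integral_map (μ := (muY Q ah ar).prod (iid Q)) measurable_tot.aemeasurable
      (f := fun c : Q → ℕ => (h (supp c) - c0) ^ 2) (Measurable.of_discrete).aestronglyMeasurable
    have e2 := integral_map (μ := (poissonMeasure (Fintype.card Q * (ah + ar))).prod (iid Q))
      measurable_cntP.aemeasurable
      (f := fun c : Q → ℕ => (h (supp c) - c0) ^ 2) (Measurable.of_discrete).aestronglyMeasurable
    rw [law_tot', e2] at e1
    exact e1.symm
  have I4 := pois_tail (Fintype.card Q * (ah + ar)) N v0 v1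
  -- (II)
  set f : ℕ × (Q → ℕ) → ℝ := fun Y => ∫ V, (h (obs Y V) - ph Y) ^ 2 ∂iid Q with hf
  have f0 : ∀ Y, 0 ≤ f Y := fun Y => integral_nonneg fun V => sq_nonneg _
  have f1 : ∀ Y, f Y ≤ 1 := fun Y => by
    have hd2 : ∀ V, |h (obs Y V) - ph Y| ≤ 1 := fun V => by
      rw [abs_le]; constructor <;> linarith [h0 (obs Y V), h1 (obs Y V), ph0 Y, ph1 Y]
    have := integral_mono (μ := iid Q) (intb (((mF Y).sub_const (ph Y)).pow_const 2)
      fun V => sq1 _ (hd2 V)) (integrable_const (1 : ℝ)) (fun V => (le_abs_self _).trans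
        (sq1 _ (hd2 V)))
    simpa using this
  have II1 := muY_ge (Q := Q) ah ar N f0 f1
  have hn : (0 : ℝ) < Fintype.card Q := by exact_mod_cast Fintype.card_pos
  have II2 : ∀ k, β ^ k * v k ≤ f (k, 0) := by
    intro k
    have e : ∀ V : ℕ → Q, obs (k, 0) V = (Finset.range k).image V := by
      intro V
      unfold obs
      simp
    simp only [hf, hph, e]
    refine var_ge (mg k) (fun V => habs _) c0 (β ^ k) {V | ∀ j < k, V j ∈ (B : Set Q)} ?_ ?_ ?_
    · have : {V : ℕ → Q | ∀ j < k, V j ∈ (B : Set Q)} =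
          ⋂ j ∈ Finset.range k, (fun V : ℕ → Q => V j) ⁻¹' (B : Set Q) := by
        ext V; simp
      rw [this]
      exact Finset.measurableSet_biInter _ fun j _ =>
        (measurable_pi_apply j) (Finset.measurableSet B)
    · intro V hV
      refine hB _ ?_
      intro x hx
      obtain ⟨j, hj, rfl⟩ := Finset.mem_image.1 hx
      exact hV j (Finset.mem_range.1 hj)
    · rw [measureReal_def, iid_cyl k (fun _ => (B : Set Q)) (fun _ => Finset.measurableSet B),
        Finset.prod_const, Finset.card_range, unif_finset, ENNReal.toReal_pow, ENNReal.toReal_mul,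
        ENNReal.toReal_inv, ENNReal.toReal_natCast, ENNReal.toReal_natCast]
      refine pow_le_pow_left₀ hβ.le ?_ k
      rw [← div_eq_mul_inv, le_div_iff₀ hn]
      exact hβB
  have hah' : (0 : ℝ) < ah := hah
  have har' : (0 : ℝ) ≤ ar := ar.2
  have hβ1 : β ≤ 1 := by
    have : (B.card : ℝ) ≤ Fintype.card Q := by exact_mod_cast Finset.card_le_univ B
    by_contra hcon
    push Not at hcon
    nlinarith
  set K : ℝ := ((ah : ℝ) + ar) / (ah * β) with hK
  have hK0 : 0 < K := by positivity
  have hK1 : 1 ≤ K := by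
    rw [hK, le_div_iff₀ (by positivity)]
    nlinarith
  have II3 : ∑ k ∈ Finset.range (N + 1),
      (poissonMeasure (Fintype.card Q * (ah + ar))).real {k} * v k ≤
      K ^ N * ∑ k ∈ Finset.range (N + 1), (muY Q ah ar).real {(k, 0)} * f (k, 0) := by
    rw [Finset.mul_sum]
    refine Finset.sum_le_sum fun k hk => ?_
    have hkN : k ≤ N := by have := Finset.mem_range.1 hk; omega
    rw [muY_singleton ah ar hah]
    have hp : 0 ≤ (poissonMeasure (Fintype.card Q * (ah + ar))).real {k} := measureReal_nonneg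
    set P := (poissonMeasure (Fintype.card Q * (ah + ar))).real {k}
    have hKN : 1 ≤ K ^ N * ((ah : ℝ) / (ah + ar)) ^ k * β ^ k := by
      have e1 : ((ah : ℝ) / (ah + ar)) ^ k * β ^ k = (K ^ k)⁻¹ := by
        rw [← mul_pow, ← inv_pow, hK]
        congr 1
        rw [inv_div]
        ring
      rw [mul_assoc, e1, ← div_eq_mul_inv, one_le_div (by positivity)]
      exact pow_le_pow_right₀ hK1 hkN
    have hr : 0 ≤ ((ah : ℝ) / (ah + ar)) ^ k := by positivity
    calc P * v k = 1 * (P * v k) := by ring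
      _ ≤ (K ^ N * ((ah : ℝ) / (ah + ar)) ^ k * β ^ k) * (P * v k) :=
          mul_le_mul_of_nonneg_right hKN (mul_nonneg hp (v0 k))
      _ = K ^ N * (P * (ah / (ah + ar)) ^ k * (β ^ k * v k)) := by ring
      _ ≤ K ^ N * (P * (ah / (ah + ar)) ^ k * f (k, 0)) :=
          mul_le_mul_of_nonneg_left (mul_le_mul_of_nonneg_left (II2 k) (mul_nonneg hp hr))
            (by positivity)
  have II4 : K ^ N * ∑ k ∈ Finset.range (N + 1), (muY Q ah ar).real {(k, 0)} * f (k, 0) ≤
      K ^ N * ∫ Y, f Y ∂muY Q ah ar := mul_le_mul_of_nonneg_left II1 (by positivity)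
  linarith

end prob

end MPdd5692.PerCell
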