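import Mathlib
import Pool.Agent.Work.MP_dd5692_pr.InterfaceB
import Pool.Agent.Work.MP_dd5692_pr.PerCell

set_option autoImplicit false

open MeasureTheory ProbabilityTheory Set
open scoped ENNReal NNReal BigOperators

namespace MPdd5692.B35

theorem stmt_PCELL : Stmt_PCELL := by
  intro Q _ _ _ _ _ h B β ah ar N h01 hB hβ hβB hah U φ
  have key := MPdd5692.PerCell.perCell (Q := Q) h (fun S => (h01 S).1) (fun S => (h01 S).2) B hB hβ
    hβB (ah := ah) (ar := ar) hah N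
  have e1 : MPdd5692.PerCell.muY Q ah ar = muY Q ah ar := rfl
  have e2 : MPdd5692.PerCell.iid Q = U := rfl
  have e3 : ∀ (Y : ℕ × (Q → ℕ)) (V : ℕ → Q), MPdd5692.PerCell.obs Y V = OO Y V := fun _ _ => rfl
  have hp : IsProbabilityMeasure (muY Q ah ar) := by rw [← e1]; infer_instance
  have hU : IsProbabilityMeasure U := by rw [← e2]; infer_instance
  have hφ0 : ∀ Y, 0 ≤ φ Y := fun Y => integral_nonneg fun V => (h01 _).1
  have hφ1 : ∀ Y, φ Y ≤ 1 := fun Y => by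
    have hi : ∫ V, h (OO Y V) ∂U ≤ ∫ V, (1 : ℝ) ∂U :=
      integral_mono_of_nonneg (ae_of_all _ fun V => (h01 _).1) (integrable_const _)
        (ae_of_all _ fun V => (h01 _).2)
    simpa using hi
  have e4 : ∫ Y, (φ Y - ∫ Y', φ Y' ∂(muY Q ah ar)) ^ 2 ∂(muY Q ah ar) =
      ∫ Y, φ Y ^ 2 ∂(muY Q ah ar) - (∫ Y, φ Y ∂(muY Q ah ar)) ^ 2 := by
    rw [MPdd5692.PerCell.int_sub_sq (μ := muY Q ah ar) (w := φ) Measurable.of_discrete (C := 1)
      (fun Y => by rw [abs_of_nonneg (hφ0 Y)]; exact hφ1 Y)]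
    ring
  rw [e4]
  exact_mod_cast key

end MPdd5692.B35
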