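import Mathlib
import Pool.Agent.Work.MP_dd5692_pr.InterfaceB
import Pool.Agent.Work.MP_dd5692_pr.CHERN

/-!
# MP_dd5692_pr: block PTAIL (helper88)
-/

open MeasureTheory ProbabilityTheory Set
open scoped ENNReal NNReal BigOperators

namespace MPdd5692

namespace B35

theorem stmt_PTAIL : Stmt_PTAIL := by
  intro I K η hη hK
  have hK0 : 0 < K := by linarith
  have hlogK : 0 ≤ Real.log K := Real.log_nonneg hK
  set s : ℝ := η / (Real.log K + 1) with hs
  have hs0 : 0 < s := by rw [hs]; positivity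
  set w : ℝ := 4 / s with hw
  have hw0 : 0 < w := by rw [hw]; positivity
  refine ⟨⌈Real.exp (I * (Real.exp w - 1))⌉₊ + 1, ?_⟩
  intro T hT
  have hT1 : (1 : ℝ) ≤ T := by
    have : 1 ≤ T := by omega
    exact_mod_cast this
  have hT0 : (0 : ℝ) < T := by linarith
  have hTI : Real.exp (I * (Real.exp w - 1)) ≤ T := by
    have h1 := Nat.le_ceil (Real.exp (I * (Real.exp w - 1)))
    have h2 : (⌈Real.exp (I * (Real.exp w - 1))⌉₊ : ℝ) + 1 ≤ T := by exact_mod_cast hT
    linarith
  have hlogT : 0 ≤ Real.log T := Real.log_nonneg hT1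
  refine ⟨⌊s * Real.log T⌋₊, ?_, ?_⟩
  · have h1 : (⌊s * Real.log T⌋₊ : ℝ) ≤ s * Real.log T := Nat.floor_le (by positivity)
    rw [← Real.exp_log (show 0 < K ^ ⌊s * Real.log T⌋₊ by positivity), Real.log_pow,
      Real.rpow_def_of_pos hT0]
    apply Real.exp_le_exp.2
    have h2 : (⌊s * Real.log T⌋₊ : ℝ) * Real.log K ≤ s * Real.log T * Real.log K :=
      mul_le_mul_of_nonneg_right h1 hlogK
    have h3 : s * (Real.log K + 1) = η := by
      rw [hs]
      field_simp
    have h4 : s * Real.log T * Real.log K ≤ s * Real.log T * (Real.log K + 1) :=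
      mul_le_mul_of_nonneg_left (by linarith) (by positivity)
    calc (⌊s * Real.log T⌋₊ : ℝ) * Real.log K ≤ s * Real.log T * (Real.log K + 1) := h2.trans h4
      _ = Real.log T * η := by rw [← h3]; ring
  · intro x hx
    have hset : {k : ℕ | ⌊s * Real.log T⌋₊ < k} =
        {k : ℕ | ((⌊s * Real.log T⌋₊ : ℝ) + 1) ≤ (fun k : ℕ => (k : ℝ)) k} := by
      ext k
      simp only [mem_ofPred_eq]
      constructor
      · intro h
        have : ⌊s * Real.log T⌋₊ + 1 ≤ k := h
        exact_mod_cast this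
      · intro h
        have : ⌊s * Real.log T⌋₊ + 1 ≤ k := by exact_mod_cast h
        exact this
    rw [hset]
    have hint : Integrable (fun k : ℕ => Real.exp (w * (k : ℝ))) (poissonMeasure x) := by
      have := CHERN.integrable_exp x w
      simpa only [mul_comm] using this
    have h1 := measure_ge_le_exp_mul_mgf (μ := poissonMeasure x) (X := fun k : ℕ => (k : ℝ))
      (t := w) ((⌊s * Real.log T⌋₊ : ℝ) + 1) hw0.le hint
    refine h1.trans ?_
    have h2 : mgf (fun k : ℕ => (k : ℝ)) (poissonMeasure x) w =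
        Real.exp ((x : ℝ) * (Real.exp w - 1)) := by
      unfold mgf
      have := CHERN.integral_exp x w
      simpa only [mul_comm] using this
    rw [h2]
    have h3 : Real.exp ((x : ℝ) * (Real.exp w - 1)) ≤ T := by
      refine le_trans (Real.exp_le_exp.2 ?_) hTI
      have : 0 ≤ Real.exp w - 1 := by
        have := Real.add_one_le_exp w
        linarith
      exact mul_le_mul_of_nonneg_right hx this
    have h4 : Real.exp (-w * ((⌊s * Real.log T⌋₊ : ℝ) + 1)) ≤ 1 / (T : ℝ) ^ 4 := by
      have h5 : s * Real.log T ≤ (⌊s * Real.log T⌋₊ : ℝ) + 1 := (Nat.lt_floor_add_one _).le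
      have h6 : w * (s * Real.log T) = 4 * Real.log T := by
        rw [hw]
        field_simp
      have h7 : -w * ((⌊s * Real.log T⌋₊ : ℝ) + 1) ≤ -(4 * Real.log T) := by
        have := mul_le_mul_of_nonneg_left h5 hw0.le
        linarith
      refine (Real.exp_le_exp.2 h7).trans (le_of_eq ?_)
      rw [Real.exp_neg, one_div, show (4 : ℝ) * Real.log T = ((4 : ℕ) : ℝ) * Real.log T by norm_num,
        Real.exp_nat_mul, Real.exp_log hT0]
    calc Real.exp (-w * ((⌊s * Real.log T⌋₊ : ℝ) + 1)) * Real.exp ((x : ℝ) * (Real.exp w - 1))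
        ≤ 1 / (T : ℝ) ^ 4 * T := mul_le_mul h4 h3 (Real.exp_pos _).le (by positivity)
      _ = 1 / (T : ℝ) ^ 3 := by field_simp

end B35

end MPdd5692
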