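import Mathlib
import Pool.Agent.Work.MP_dd5692_pr.InterfaceB
import Pool.Agent.Work.MP_dd5692_pr.LocLib42
import Pool.Agent.Work.MP_dd5692_pr.MEAS
import Pool.Agent.Work.MP_dd5692_pr.INDEP
import Pool.Agent.Work.MP_dd5692_pr.TRANS
import Pool.Agent.Work.MP_dd5692_pr.Stat98

/-!
# MP_dd5692_pr: REV8 (helper42): revealment bounds for the two explorations (REV4.lean = the second)
-/

open MeasureTheory ProbabilityTheory Set
open scoped ENNReal NNReal BigOperators

namespace MPdd5692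
namespace B35
namespace REV

open LocLib

theorem SP_tau (l : ℝ≥0) (j q : ℕ) (t : Site) (E E' : Set Site → Prop)
    (hE : MeasurableSet {η : Site → ℕ | E (occ η)}) (h : ∀ S, E (TRANS.tau q t ⁻¹' S) ↔ E' S) :
    SP l j E' = SP l j E := by
  let e : Site ≃ Site := ⟨TRANS.tau q t, TRANS.tau q (-t), fun x => TRANS.tau_neg q t x,
    fun x => TRANS.tau_neg' q t x⟩
  have := iid_reindex (poissonMeasure (l * (1 / 4) ^ j)) e hE
  unfold SP
  have h2 : {η : Site → ℕ | (fun i => η (e i)) ∈ {η : Site → ℕ | E (occ η)}} =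
      {η : Site → ℕ | E' (occ η)} := by
    ext η
    simp only [Set.mem_ofPred_eq]
    rw [← h (occ η)]
    rfl
  rw [h2] at this
  unfold Measure.real stat
  rw [this]

theorem NV_congr {ρ : ℝ} {q : ℕ} (hρ : 0 ≤ ρ) (hq : 20 * (ρ + 2) ≤ q) {S S' : Set Site} {z : Site}
    {a b : ℕ} (h : ∀ v, nrm (cidx q v - z) ≤ b + 1 → (a : ℤ) ≤ nrm (cidx q v - z) →
      (v ∈ S ↔ v ∈ S')) :
    NV ρ q S z a b ↔ NV ρ q S' z a b := not_congr (Arm_congr hρ hq h)

/-- events depending on disjoint rings around `x` -/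
theorem rings_le (U : Set Site → ℕ → ℕ → Prop) (c : ℝ) (q : ℕ) (l : ℝ≥0) (j : ℕ) (x : Site) (n : ℕ)
    (hloc : ∀ (S S' : Set Site) (a b : ℕ), (∀ v, nrm (cidx q v - x) ≤ b + 1 →
      (a : ℤ) ≤ nrm (cidx q v - x) → (v ∈ S ↔ v ∈ S')) → (U S a b ↔ U S' a b))
    (hmeas : ∀ a b, MeasurableSet {η : Site → ℕ | U (occ η) a b})
    (hge : ∀ i < n, c ≤ SP l j (fun S => U S (4 ^ i) (2 * 4 ^ i))) :
    SP l j (fun S => ∀ i < n, ¬ U S (4 ^ i) (2 * 4 ^ i)) ≤ (1 - c) ^ n := by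
  have hpow : ∀ i i' : ℕ, i < i' → 2 * (4 : ℤ) ^ i + 1 < 4 ^ i' := by
    intro i i' h
    have h1 : (4 : ℤ) ^ (i + 1) ≤ 4 ^ i' := pow_le_pow_right₀ (by norm_num) h
    have h2 : (1 : ℤ) ≤ 4 ^ i := one_le_pow₀ (by norm_num)
    rw [pow_succ] at h1
    linarith
  have hst : stat l j = pois (fun _ : Site => l * (1 / 4) ^ j) := rfl
  have hind := stmt_INDEP Site (fun _ : Site => l * (1 / 4) ^ j) ℕ (Finset.range n)
    (fun i => {v | (4 : ℤ) ^ i ≤ nrm (cidx q v - x) ∧ nrm (cidx q v - x) ≤ 2 * 4 ^ i + 1})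
    (fun i => {η | ¬ U (occ η) (4 ^ i) (2 * 4 ^ i)})
    (fun i _ => (hmeas _ _).compl)
    (by
      intro i _ η η' hη
      refine not_congr (hloc _ _ _ _ ?_)
      intro v h1 h2
      push_cast at h1 h2
      have := hη v ⟨h2, h1⟩
      show η v ≠ 0 ↔ η' v ≠ 0
      rw [this])
    (by
      intro i _ i' _ hii
      rw [Set.disjoint_left]
      rintro v ⟨h1, h2⟩ ⟨h3, h4⟩
      rcases lt_or_gt_of_ne hii with h | h
      · have := hpow i i' h
        linarith
      · have := hpow i' i h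
        linarith)
  have e1 : {η : Site → ℕ | ∀ i < n, ¬ U (occ η) (4 ^ i) (2 * 4 ^ i)} =
      ⋂ k ∈ Finset.range n, {η : Site → ℕ | ¬ U (occ η) (4 ^ k) (2 * 4 ^ k)} := by
    ext η
    simp
  unfold SP at hge ⊢
  rw [e1, hst, hind]
  have : IsProbabilityMeasure (stat l j) := by unfold stat; infer_instance
  calc ∏ k ∈ Finset.range n, (pois fun _ : Site => l * (1 / 4) ^ j).real
        {η | ¬ U (occ η) (4 ^ k) (2 * 4 ^ k)}
      ≤ ∏ _k ∈ Finset.range n, (1 - c) := by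
        refine Finset.prod_le_prod (fun _ _ => measureReal_nonneg) ?_
        intro i hi
        have h1 := hge i (Finset.mem_range.1 hi)
        have h2 := probReal_compl_eq_one_sub (μ := stat l j)
          (hmeas (4 ^ i) (2 * 4 ^ i))
        rw [← hst]
        have h3 : {η : Site → ℕ | ¬ U (occ η) (4 ^ i) (2 * 4 ^ i)} =
          {η : Site → ℕ | U (occ η) (4 ^ i) (2 * 4 ^ i)}ᶜ := rfl
        rw [h3, h2]
        linarith
    _ = (1 - c) ^ n := by simp

theorem linked_symm {adj : Site → Site → Prop} (hadj : ∀ u v, adj u v → adj v u) {S : Set Site}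
    {u v : Site} (h : Linked adj S u v) : Linked adj S v u := by
  obtain ⟨hu, h⟩ := h
  induction h with
  | refl => exact ⟨hu, Relation.ReflTransGen.refl⟩
  | tail _ hbc ih => exact ⟨hbc.2, Relation.ReflTransGen.head ⟨hadj _ _ hbc.1, ih.1⟩ ih.2⟩

theorem linked_mono {adj : Site → Site → Prop} {S S' : Set Site} (hS : S ⊆ S') {u v : Site}
    (h : Linked adj S u v) : Linked adj S' u v :=
  ⟨hS h.1, Relation.ReflTransGen.mono (fun _ _ huv => ⟨huv.1, hS huv.2⟩) _ _ h.2⟩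

theorem adj4_symm (u v : Site) (h : Adj4 u v) : Adj4 v u := by
  unfold Adj4 at *
  rw [abs_sub_comm v.1, abs_sub_comm v.2]; exact h

theorem adj8_symm (u v : Site) (h : Adj8 u v) : Adj8 v u := by
  unfold Adj8 at *
  rw [abs_sub_comm v.1, abs_sub_comm v.2]; exact h

/-- the explored cluster crosses the rings around `x` -/
theorem expl_cross {adj : Site → Site → Prop} (hadj : ∀ u v, adj u v → adj v u) {C : Set Site}
    {q : ℕ} {z x y : Site} {a b t d n : ℕ} (hx : nrm (cidx q y - x) ≤ 1)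
    (hy : y ∈ Expl adj C q z a b t)
    (hd : (d : ℤ) + 3 ≤ |nrm (x - z) - t|) (hn : 4 ^ n ≤ d) :
    ∀ i < n, Wired adj C (cbox q x (4 ^ i)) (cbox q x (2 * 4 ^ i))ᶜ := by
  intro i hi
  have hd0 : (0 : ℤ) ≤ d := by positivity
  have h1 : (1 : ℤ) ≤ 4 ^ i := one_le_pow₀ (by norm_num)
  have h2 : 2 * (4 : ℤ) ^ i ≤ d := by
    have h3 : (4 : ℤ) ^ (i + 1) ≤ 4 ^ n := pow_le_pow_right₀ (by norm_num) hi
    have h4 : (4 : ℤ) ^ n ≤ d := by exact_mod_cast hn
    rw [pow_succ] at h3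
    linarith
  have t1 := nrm_tri (cidx q y) x z
  have t2 := nrm_tri x (cidx q y) z
  rw [nrm_sub_comm x (cidx q y)] at t2
  rcases hy with hy | ⟨s, hs, hl⟩
  · exfalso
    have h3 : nrm (cidx q y - z) = t := hy
    rcases abs_cases (nrm (x - z) - (t : ℤ)) with ⟨h4, _⟩ | ⟨h4, _⟩ <;> rw [h4] at hd <;> omega
  · have h3 : nrm (cidx q s - z) = t := hs
    have t3 := nrm_tri (cidx q s) x z
    have t4 := nrm_tri x (cidx q s) z
    rw [nrm_sub_comm x (cidx q s)] at t4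
    have h5 : (d : ℤ) + 3 ≤ nrm (cidx q s - x) := by
      rcases abs_cases (nrm (x - z) - (t : ℤ)) with ⟨h4, _⟩ | ⟨h4, _⟩ <;> rw [h4] at hd <;> omega
    have hl' : Linked adj (C ∩ ringS q z a b) y s := linked_symm hadj hl
    refine ⟨y, ?_, s, ?_, linked_mono ?_ hl'⟩
    · show nrm (cidx q y - x) ≤ ((4 ^ i : ℕ) : ℤ)
      push_cast; linarith
    · intro hc
      have : nrm (cidx q s - x) ≤ ((2 * 4 ^ i : ℕ) : ℤ) := hc
      push_cast at this
      linarith
    · intro u hu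
      exact Or.inl (Or.inl hu.1)

/-- general form: `U` = ring event of one colour -/
theorem rev_gen (U : Set Site → ℕ → ℕ → Prop) (J : Set Site → Set Site) (c : ℝ) (nmax : ℕ) (q : ℕ)
    (l : ℝ≥0) (j : ℕ) (B S0 : Set Site) (x : Site) (d n : ℕ)
    (hB : ∀ c' ∈ B, (d : ℤ) < nrm (c' - x)) (hn : 4 ^ n ≤ d) (hd : d ≤ nmax)
    (hloc : ∀ (S S' : Set Site) (a b : ℕ), (∀ v, nrm (cidx q v - x) ≤ b + 1 →
      (a : ℤ) ≤ nrm (cidx q v - x) → (v ∈ S ↔ v ∈ S')) → (U S a b ↔ U S' a b))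
    (hmeas : ∀ a b, MeasurableSet {η : Site → ℕ | U (occ η) a b})
    (hge : ∀ a b : ℕ, 11 * (2 * a + 1) ≤ 10 * (2 * b + 1) → b ≤ nmax →
      c ≤ SP l j (fun S => U S a b))
    (hJ : ∀ S, x ∈ J S → ∀ i < n, ¬ U S (4 ^ i) (2 * 4 ^ i)) :
    SP l j (fun S => x ∈ J (mixS q B S0 S)) ≤ (1 - c) ^ n := by
  have hpow : ∀ i < n, 2 * (4 : ℤ) ^ i + 1 ≤ d := by
    intro i hi
    have h3 : (4 : ℤ) ^ (i + 1) ≤ 4 ^ n := pow_le_pow_right₀ (by norm_num) hi
    have h4 : (4 : ℤ) ^ n ≤ d := by exact_mod_cast hn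
    have h2 : (1 : ℤ) ≤ 4 ^ i := one_le_pow₀ (by norm_num)
    rw [pow_succ] at h3
    linarith
  refine le_trans ?_ (rings_le U c q l j x n hloc hmeas ?_)
  · unfold SP
    have : IsProbabilityMeasure (stat l j) := by unfold stat; infer_instance
    refine measureReal_mono ?_ (by finiteness)
    intro η hη i hi
    have h1 := hJ _ hη i hi
    rwa [hloc (mixS q B S0 (occ η)) (occ η) (4 ^ i) (2 * 4 ^ i)] at h1
    intro v hv _
    have hvB : cidx q v ∉ B := by
      intro hc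
      have h2 := hB _ hc
      have h3 := hpow i hi
      push_cast at hv
      linarith
    unfold mixS
    simp only [mem_ofPred_eq]
    constructor
    · rintro (h | h)
      · exact absurd h.1 hvB
      · exact h.2
    · intro h
      exact Or.inr ⟨hvB, h⟩
  · intro i hi
    apply hge
    · have : 1 ≤ 4 ^ i := Nat.one_le_pow _ _ (by norm_num)
      omega
    · have h1 := hpow i hi
      have h2 : 2 * 4 ^ i + 1 ≤ d := by exact_mod_cast h1
      omega

end REV

open REV LocLib in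
theorem stmt_REV8 : Stmt_REV8 := by
  intro c e nmax ρ q l j ok B S0 x z a b t d n hB hd hn hnm
  have hρ : 0 ≤ ρ := by linarith [ok.ρ_pos]
  have hq0 : 0 < q := by
    have h1 := ok.short
    have : (0 : ℝ) < q := by linarith
    exact_mod_cast this
  have : NeZero q := ⟨hq0.ne'⟩
  refine rev_gen (fun S a b => UU ρ q S x a b) (fun S => JJ8 ρ q S z a b t) c nmax q l j B S0 x d n
    hB hn hnm (fun S S' a b h => UU_congr hρ ok.short h) (fun a b => MEAS.uu_meas MEAS.occ_rs ρ q x a b)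
    ?_ ?_
  · intro a b hab hb
    rw [SP_tau l j q x (fun S => UU ρ q S 0 a b) (fun S => UU ρ q S x a b)
      (MEAS.uu_meas MEAS.occ_rs ρ q 0 a b) (fun S => by
        have := TRANS.uu_tau (q := q) ρ x S 0 a b
        rwa [zero_add] at this)]
    exact ok.U_ge a b hab hb
  · rintro S ⟨y, hy, hyx⟩ i hi hU
    exact hU (expl_cross adj8_symm hyx hy hd hn i hi)

end B35
end MPdd5692
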