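import Mathlib
import Pool.Agent.Work.MP_dd5692_pr.REV8

/-!
# MP_dd5692_pr: REV4 (helper42): revealment bound for the vacant exploration
-/

open MeasureTheory ProbabilityTheory Set
open scoped ENNReal NNReal BigOperators

namespace MPdd5692
namespace B35

open REV LocLib in
theorem stmt_REV4 : Stmt_REV4 := by
  intro c e nmax ρ q l j ok B S0 x z a b t d n hB hd hn hnm
  have hρ : 0 ≤ ρ := by linarith [ok.ρ_pos]
  have hq0 : 0 < q := by
    have h1 := ok.short
    have : (0 : ℝ) < q := by linarith
    exact_mod_cast this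
  have : NeZero q := ⟨hq0.ne'⟩
  refine rev_gen (fun S a b => NV ρ q S x a b) (fun S => JJ4 ρ q S z a b t) c nmax q l j B S0 x d n
    hB hn hnm (fun S S' a b h => NV_congr hρ ok.short h) (fun a b => MEAS.nv_meas MEAS.occ_rs ρ q x a b)
    ?_ ?_
  · intro a b hab hb
    rw [SP_tau l j q x (fun S => NV ρ q S 0 a b) (fun S => NV ρ q S x a b)
      (MEAS.nv_meas MEAS.occ_rs ρ q 0 a b) (fun S => by
        have := TRANS.arm_tau (q := q) ρ x S 0 0 a b
        rw [zero_add] at this
        exact not_congr this)]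
    exact ok.NV_ge a b hab hb
  · rintro S ⟨y, hy, hyx⟩ i hi hU
    exact hU (expl_cross adj4_symm hyx hy hd hn i hi)

end B35
end MPdd5692
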