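import Mathlib
import Pool.Agent.Work.MP_dd5692_pr.InterfaceB
import Pool.Agent.Work.MP_dd5692_pr.Basic80

/-!
# MP_dd5692_pr: blocks STOP8, STOP4 (helper84)
-/

set_option autoImplicit false

open Set

namespace MPdd5692

namespace B35

namespace Stp

/-- neighbouring mesh sites are in neighbouring s-cells -/
theorem div_near {q : ℤ} (hq : 0 < q) {x y : ℤ} (h : |x - y| < q) : |x / q - y / q| ≤ 1 := by
  have h1 := Int.emod_add_mul_ediv x q
  have h2 := Int.emod_add_mul_ediv y q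
  have h3 := Int.emod_nonneg x hq.ne'
  have h4 := Int.emod_nonneg y hq.ne'
  have h5 := Int.emod_lt_of_pos x hq
  have h6 := Int.emod_lt_of_pos y hq
  rw [abs_lt] at h
  rw [abs_le]
  constructor
  · by_contra hc
    push Not at hc
    have : q * (x / q - y / q) ≤ q * (-2) := mul_le_mul_of_nonneg_left (by omega) hq.le
    nlinarith
  · by_contra hc
    push Not at hc
    have : q * 2 ≤ q * (x / q - y / q) := mul_le_mul_of_nonneg_left (by omega) hq.le
    nlinarith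

theorem nrm_le_iff {x : Site} {r : ℤ} : nrm x ≤ r ↔ |x.1| ≤ r ∧ |x.2| ≤ r := by
  unfold nrm; exact max_le_iff

theorem nrm_add_le (x y : Site) : nrm (x + y) ≤ nrm x + nrm y := by
  rw [nrm_le_iff]
  unfold nrm
  constructor
  · calc |(x + y).1| = |x.1 + y.1| := rfl
      _ ≤ |x.1| + |y.1| := abs_add_le _ _
      _ ≤ _ := add_le_add (le_max_left _ _) (le_max_left _ _)
  · calc |(x + y).2| = |x.2 + y.2| := rfl
      _ ≤ |x.2| + |y.2| := abs_add_le _ _
      _ ≤ _ := add_le_add (le_max_right _ _) (le_max_right _ _)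

theorem cidx_near {q : ℕ} (hq : 0 < q) {x y : Site} (h1 : |x.1 - y.1| < q) (h2 : |x.2 - y.2| < q) :
    nrm (cidx q x - cidx q y) ≤ 1 := by
  rw [nrm_le_iff]
  exact ⟨div_near (by exact_mod_cast hq) h1, div_near (by exact_mod_cast hq) h2⟩

theorem cidx_step {q : ℕ} (hq : 2 ≤ q) {x y : Site} (h : Adj8 x y) :
    nrm (cidx q x - cidx q y) ≤ 1 := by
  have h1 := h.fst
  have h2 := h.snd
  exact cidx_near (by omega) (by omega) (by omega)

theorem offs_le {ρ : ℝ} (hρ : 0 ≤ ρ) {v : Site} (hv : v ∈ offs ρ) :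
    |(v.1 : ℝ)| ≤ ρ + 1 / 2 ∧ |(v.2 : ℝ)| ≤ ρ + 1 / 2 := by
  unfold offs at hv
  have hv' : offd v.1 ^ 2 + offd v.2 ^ 2 ≤ ρ ^ 2 := hv
  have h0 : ∀ a : ℤ, 0 ≤ offd a := fun a => le_max_right _ _
  have h1 : ∀ a : ℤ, |(a : ℝ)| ≤ offd a + 1 / 2 := by
    intro a
    have := le_max_left (|(a : ℝ)| - 1 / 2) 0
    unfold offd
    linarith
  have a1 : offd v.1 ≤ ρ := by
    have := sq_nonneg (offd v.2)
    exact le_of_sq_le_sq (by linarith) hρ
  have a2 : offd v.2 ≤ ρ := by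
    have := sq_nonneg (offd v.1)
    exact le_of_sq_le_sq (by linarith) hρ
  exact ⟨by linarith [h1 v.1], by linarith [h1 v.2]⟩

/-- the status of a site near `x` depends only on the s-cells within 1 of the cell of `x` -/
theorem status {ρ : ℝ} {q : ℕ} (hρ : 0 ≤ ρ) (hq : 20 * (ρ + 2) ≤ q) {J S S' : Set Site} {x y : Site}
    (hJ : ∀ c, nrm (cidx q x - c) ≤ 1 → c ∈ J) (h : AgreeC q J S S')
    (h1 : |x.1 - y.1| ≤ 1) (h2 : |x.2 - y.2| ≤ 1) :
    y ∈ vacSites ρ S ↔ y ∈ vacSites ρ S' := by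
  have hq0 : 0 < q := by
    have : (0 : ℝ) < q := by linarith
    exact_mod_cast this
  have key : ∀ v : Site, v - y ∈ offs ρ → (v ∈ S ↔ v ∈ S') := by
    intro v hv
    apply h
    apply hJ
    obtain ⟨a1, a2⟩ := offs_le hρ hv
    have b1 : |x.1 - v.1| < q := by
      have : |((x.1 - v.1 : ℤ) : ℝ)| < q := by
        have e1 : ((x.1 - v.1 : ℤ) : ℝ) = ((x.1 - y.1 : ℤ) : ℝ) - (((v - y).1 : ℤ) : ℝ) := by
          simp
        rw [e1]
        have c1 : |((x.1 - y.1 : ℤ) : ℝ)| ≤ 1 := by exact_mod_cast h1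
        have c2 := abs_sub (((x.1 - y.1 : ℤ) : ℝ)) (((v - y).1 : ℤ) : ℝ)
        linarith
      exact_mod_cast this
    have b2 : |x.2 - v.2| < q := by
      have : |((x.2 - v.2 : ℤ) : ℝ)| < q := by
        have e1 : ((x.2 - v.2 : ℤ) : ℝ) = ((x.2 - y.2 : ℤ) : ℝ) - (((v - y).2 : ℤ) : ℝ) := by
          simp
        rw [e1]
        have c1 : |((x.2 - y.2 : ℤ) : ℝ)| ≤ 1 := by exact_mod_cast h2
        have c2 := abs_sub (((x.2 - y.2 : ℤ) : ℝ)) (((v - y).2 : ℤ) : ℝ)
        linarith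
      exact_mod_cast this
    exact cidx_near hq0 b1 b2
  unfold vacSites
  constructor
  · intro hy v hv ho
    exact hy v ((key v ho).2 hv) ho
  · intro hy v hv ho
    exact hy v ((key v ho).1 hv) ho

variable {adj : Site → Site → Prop} {C C' : Set Site} {q : ℕ} {z : Site} {a b t : ℕ}

/-- the explored set does not change -/
theorem expl_eq (hst : ∀ x ∈ Expl adj C q z a b t, ∀ y, (y = x ∨ adj x y) → (y ∈ C ↔ y ∈ C')) :
    Expl adj C' q z a b t = Expl adj C q z a b t := by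
  ext x
  constructor
  · rintro (hx | ⟨s, hs, hl⟩)
    · exact Or.inl hx
    · right
      refine ⟨s, hs, ?_⟩
      have hsE : s ∈ Expl adj C q z a b t := Or.inl hs
      refine hl.ind (P := fun w => Linked adj (C ∩ ringS q z a b) s w)
        (Linked.refl ⟨(hst s hsE s (Or.inl rfl)).2 hl.left.1, hl.left.2⟩) ?_
      intro u w _ hu huw hw
      exact hu.step huw ⟨(hst u (Or.inr ⟨s, hs, hu⟩) w (Or.inr huw)).2 hw.1, hw.2⟩
  · rintro (hx | ⟨s, hs, hl⟩)
    · exact Or.inl hx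
    · right
      refine ⟨s, hs, ?_⟩
      have hsE : s ∈ Expl adj C q z a b t := Or.inl hs
      refine hl.ind (P := fun w => Linked adj (C' ∩ ringS q z a b) s w)
        (Linked.refl ⟨(hst s hsE s (Or.inl rfl)).1 hl.left.1, hl.left.2⟩) ?_
      intro u w hu0 hu huw hw
      exact hu.step huw ⟨(hst u (Or.inr ⟨s, hs, hu0⟩) w (Or.inr huw)).1 hw.1, hw.2⟩

theorem mem_cbox_iff {x : Site} {r : ℕ} : x ∈ cbox q z r ↔ nrm (cidx q x - z) ≤ r := Iff.rfl

theorem nrm_step (hA : Small adj) (hq : 2 ≤ q) {x y : Site} (h : adj x y) :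
    nrm (cidx q y - z) ≤ nrm (cidx q x - z) + 1 := by
  have h1 := cidx_step hq (hA.adj8 _ _ (hA.symm _ _ h))
  have h2 := nrm_add_le (cidx q y - cidx q x) (cidx q x - z)
  rw [sub_add_sub_cancel] at h2
  omega

/-- determination of the crossing event -/
theorem wired_of (hA : Small adj) (hq : 2 ≤ q) (hat : a < t) (htb : t ≤ b)
    (hst : ∀ x ∈ Expl adj C q z a b t, ∀ y, (y = x ∨ adj x y) → (y ∈ C ↔ y ∈ C'))
    (h : Wired adj C (cbox q z a) (cbox q z b)ᶜ) : Wired adj C' (cbox q z a) (cbox q z b)ᶜ := by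
  obtain ⟨p, hp, r, hr, hl⟩ := h
  -- last visit of `cbox q z a`
  have hpr : p ∉ (cbox q z b)ᶜ := by
    intro hc
    apply hc
    rw [mem_cbox_iff] at hp ⊢
    have : (a : ℤ) ≤ b := by exact_mod_cast (hat.le.trans htb)
    omega
  have hrp : r ∈ (cbox q z a)ᶜ := by
    intro hc
    apply hr
    rw [mem_cbox_iff] at hc ⊢
    have : (a : ℤ) ≤ b := by exact_mod_cast (hat.le.trans htb)
    omega
  obtain ⟨x, y, hx, hxy, hyW, hy, -⟩ := (hl.symm hA.symm).exit (C := (cbox q z a)ᶜ) hrp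
    (by simpa using hp)
  have hy' : y ∈ cbox q z a := by simpa using hy
  have hxa : x ∈ (cbox q z a)ᶜ := hx.right.2
  have hny : nrm (cidx q y - z) ≤ a := hy'
  have hnx := nrm_step (z := z) hA hq (hA.symm _ _ hxy)
  have hxb : x ∈ cbox q z b := by
    rw [mem_cbox_iff]
    have : (a : ℤ) < t := by exact_mod_cast hat
    have : (t : ℤ) ≤ b := by exact_mod_cast htb
    omega
  -- first visit of the outside
  obtain ⟨x2, y2, hx2, hxy2, hyW2, hy2, -⟩ := (hx.symm hA.symm).exit (C := cbox q z b) hxb hr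
  have hny2 : (b : ℤ) < nrm (cidx q y2 - z) := by
    by_contra hc
    exact hy2 (not_lt.1 hc)
  have hnx2 := nrm_step (z := z) hA hq hxy2
  -- the piece in the ring
  have hsub : ((C ∪ cbox q z a ∪ (cbox q z b)ᶜ) ∩ (cbox q z a)ᶜ) ∩ cbox q z b ⊆
      C ∩ ringS q z a b := by
    rintro w ⟨⟨hw1, hw2⟩, hw3⟩
    refine ⟨?_, ?_, hw3⟩
    · rcases hw1 with (h1 | h1) | h1
      · exact h1
      · exact absurd h1 hw2
      · exact absurd hw3 h1
    · by_contra hc
      exact hw2 (not_lt.1 hc)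
  have hring : Linked adj (C ∩ ringS q z a b) x x2 := hx2.mono hsub
  -- it meets the circle
  have hcirc : ∃ s ∈ circS q z t, Linked adj (C ∩ ringS q z a b) x s := by
    by_cases hxt : nrm (cidx q x - z) = t
    · exact ⟨x, hxt, Linked.refl hring.left⟩
    · have hlt : nrm (cidx q x - z) < t := by
        have : (a : ℤ) < t := by exact_mod_cast hat
        omega
      have hge : ¬ nrm (cidx q x2 - z) < t := by
        have : (t : ℤ) ≤ b := by exact_mod_cast htb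
        omega
      obtain ⟨x3, y3, hx3, hxy3, hy3W, hy3, hl3⟩ := hring.exit
        (C := {w | nrm (cidx q w - z) < t}) hlt hge
      refine ⟨y3, ?_, hl3⟩
      have h3 : nrm (cidx q x3 - z) < t := hx3.right.2
      have h4 := nrm_step (z := z) hA hq hxy3
      have h5 : ¬ nrm (cidx q y3 - z) < t := hy3
      show nrm (cidx q y3 - z) = t
      omega
  obtain ⟨s, hs, hsl⟩ := hcirc
  have hexp : ∀ w, Linked adj (C ∩ ringS q z a b) x w → w ∈ Expl adj C q z a b t :=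
    fun w hw => Or.inr ⟨s, hs, (hsl.symm hA.symm).trans hw⟩
  have hnew : Linked adj (C' ∩ ringS q z a b) x x2 := by
    refine hring.ind (P := fun w => Linked adj (C' ∩ ringS q z a b) x w)
      (Linked.refl ⟨(hst x (hexp x (Linked.refl hring.left)) x (Or.inl rfl)).1 hring.left.1,
        hring.left.2⟩) ?_
    intro u w hu0 hu huw hw
    have hw0 := hu0.step huw hw
    exact hu.step huw ⟨(hst w (hexp w hw0) w (Or.inl rfl)).1 hw.1, hw.2⟩
  refine ⟨y, hy', y2, hy2, ?_⟩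
  have hsub2 : C' ∩ ringS q z a b ⊆ C' ∪ cbox q z a ∪ (cbox q z b)ᶜ :=
    fun w hw => Or.inl (Or.inl hw.1)
  have h1 : Linked adj (C' ∪ cbox q z a ∪ (cbox q z b)ᶜ) x x2 := hnew.mono hsub2
  exact ((Linked.single (Or.inl (Or.inr hy')) h1.left (hA.symm _ _ hxy)).trans h1).step hxy2
    (Or.inr hy2)

end Stp

theorem stmt_STOP8 : Stmt_STOP8 := by
  intro ρ q z a b t S S' hρ hq hat htb hag
  have hq2 : 2 ≤ q := by
    have : (2 : ℝ) ≤ q := by linarith
    exact_mod_cast this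
  have hst : ∀ x ∈ Expl Adj8 (vacSites ρ S)ᶜ q z a b t, ∀ y, (y = x ∨ Adj8 x y) →
      (y ∈ (vacSites ρ S)ᶜ ↔ y ∈ (vacSites ρ S')ᶜ) := by
    intro x hx y hy
    have hxy : |x.1 - y.1| ≤ 1 ∧ |x.2 - y.2| ≤ 1 := by
      rcases hy with rfl | hy
      · simp
      · exact ⟨hy.fst, hy.snd⟩
    exact not_congr (Stp.status (J := JJ8 ρ q S z a b t) hρ hq (fun c hc => ⟨x, hx, hc⟩) hag
      hxy.1 hxy.2)
  have hE := Stp.expl_eq hst
  have hJ : JJ8 ρ q S' z a b t = JJ8 ρ q S z a b t := by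
    unfold JJ8; rw [hE]
  refine ⟨hJ, not_congr ⟨Stp.wired_of small8 hq2 hat htb hst,
    Stp.wired_of small8 hq2 hat htb ?_⟩⟩
  intro x hx y hy
  rw [hE] at hx
  exact (hst x hx y hy).symm

theorem stmt_STOP4 : Stmt_STOP4 := by
  intro ρ q z a b t S S' hρ hq hat htb hag
  have hq2 : 2 ≤ q := by
    have : (2 : ℝ) ≤ q := by linarith
    exact_mod_cast this
  have hst : ∀ x ∈ Expl Adj4 (vacSites ρ S) q z a b t, ∀ y, (y = x ∨ Adj4 x y) →
      (y ∈ vacSites ρ S ↔ y ∈ vacSites ρ S') := by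
    intro x hx y hy
    have hxy : |x.1 - y.1| ≤ 1 ∧ |x.2 - y.2| ≤ 1 := by
      rcases hy with rfl | hy
      · simp
      · exact ⟨hy.adj8.fst, hy.adj8.snd⟩
    exact Stp.status (J := JJ4 ρ q S z a b t) hρ hq (fun c hc => ⟨x, hx, hc⟩) hag hxy.1 hxy.2
  have hE := Stp.expl_eq hst
  have hJ : JJ4 ρ q S' z a b t = JJ4 ρ q S z a b t := by
    unfold JJ4; rw [hE]
  refine ⟨hJ, ⟨Stp.wired_of small4 hq2 hat htb hst,
    Stp.wired_of small4 hq2 hat htb ?_⟩⟩
  intro x hx y hy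
  rw [hE] at hx
  exact (hst x hx y hy).symm

end B35

end MPdd5692
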