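import Mathlib
import Pool.Agent.Work.MP_dd5692_pr.InterfaceB

set_option autoImplicit false

/-!
# MP_dd5692_pr, TRF1 (helper93): countable Poisson superposition, numbers of hidden and revealed
particles in the cells
-/

open MeasureTheory ProbabilityTheory Set Filter
open scoped ENNReal NNReal BigOperators Topology

namespace MPdd5692

namespace TRF1x

section K

variable {ι : Type}

theorem fin_sum (ν : ι → ℝ≥0) (F : Finset ι) :
    (pois ν).map (fun M => ∑ i ∈ F, M i) = poissonMeasure (∑ i ∈ F, ν i) := by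
  classical
  have hind : iIndepFun (fun (i : ι) (M : ι → ℕ) => M i) (pois ν) := by
    unfold pois
    exact iIndepFun_infinitePi (P := fun i => poissonMeasure (ν i)) (X := fun _ x => x)
      (fun _ => measurable_id)
  induction F using Finset.induction_on with
  | empty =>
    simp only [Finset.sum_empty]
    refine Measure.ext_of_singleton fun c => ?_
    rw [Measure.map_apply measurable_const (measurableSet_singleton c), poissonMeasure_singleton]
    by_cases hc : c = 0
    · subst hc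
      simp
    · have e : (fun _ : ι → ℕ => 0) ⁻¹' ({c} : Set ℕ) = ∅ := by
        ext x; simp [Ne.symm hc]
      rw [e, measure_empty]
      simp [zero_pow hc]
  | insert i F hi ih =>
    have h1 := hind.indepFun_finsetSum_of_notMem (fun i => measurable_pi_apply i) hi
    have e1 : (∑ j ∈ F, fun M : ι → ℕ => M j) = fun M => ∑ j ∈ F, M j := by
      ext M; simp
    rw [e1] at h1
    have h2 := IndepFun.map_add_eq_map_conv_map (f := fun M : ι → ℕ => ∑ j ∈ F, M j)
      (Finset.measurable_fun_sum F fun i _ => measurable_pi_apply i) (measurable_pi_apply i) h1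
    rw [ih] at h2
    have e2 : (pois ν).map (fun M => M i) = poissonMeasure (ν i) :=
      Measure.infinitePi_map_eval (fun i => poissonMeasure (ν i)) i
    rw [e2, poissonMeasure_conv_poissonMeasure] at h2
    rw [Finset.sum_insert hi, add_comm, ← h2]
    congr 1
    ext M
    rw [Finset.sum_insert hi, add_comm]
    rfl

theorem cts (c : ℕ) : Continuous fun r : ℝ≥0 => (poissonMeasure r).real {c} := by
  simp only [poissonMeasure_real_singleton]
  fun_prop

theorem ae_fin [Countable ι] (ν : ι → ℝ≥0) {m : ℝ≥0} (hm : HasSum ν m) :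
    ∀ᵐ M ∂(pois ν), {i | M i ≠ 0}.Finite := by
  have h1 : ∀ i, pois ν {M | M i ≠ 0} ≤ ν i := by
    intro i
    have h1 : pois ν {ω | ω i ≠ 0} = poissonMeasure (ν i) {0}ᶜ := by
      have h2 : (pois ν).map (fun M => M i) = poissonMeasure (ν i) :=
        Measure.infinitePi_map_eval (fun i => poissonMeasure (ν i)) i
      rw [← h2, Measure.map_apply (by fun_prop) (measurableSet_singleton 0).compl]
      rfl
    rw [h1, prob_compl_eq_one_sub (measurableSet_singleton 0), poissonMeasure_singleton]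
    have h3 : (1 : ℝ≥0∞) - ENNReal.ofReal
        (Real.exp (-(ν i : ℝ)) * (ν i : ℝ) ^ 0 / (Nat.factorial 0 : ℝ)) =
        ENNReal.ofReal (1 - Real.exp (-(ν i : ℝ))) := by
      rw [ENNReal.ofReal_sub _ (Real.exp_pos _).le, ENNReal.ofReal_one]
      simp
    rw [h3, ← ENNReal.ofReal_coe_nnreal]
    apply ENNReal.ofReal_le_ofReal
    have := Real.add_one_le_exp (-(ν i : ℝ))
    linarith
  refine ae_finite_setOfPred_mem (μ := pois ν) (s := fun i => {M : ι → ℕ | M i ≠ 0}) ?_
  refine ne_top_of_le_ne_top ?_ (ENNReal.tsum_le_tsum h1)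
  rw [← ENNReal.coe_tsum hm.summable]
  exact ENNReal.coe_ne_top

/-- the sum of a summable countable family of independent Poisson variables -/
theorem tsum_law [Countable ι] (ν : ι → ℝ≥0) {m : ℝ≥0} (hm : HasSum ν m) :
    (pois ν).map (fun M => ∑' i, M i) = poissonMeasure m := by
  have hmeas : Measurable (fun M : ι → ℕ => ∑' i, M i) :=
    Measurable.tsum fun i => measurable_pi_apply i
  refine Measure.ext_of_singleton fun c => ?_
  have : IsProbabilityMeasure ((pois ν).map (fun M => ∑' i, M i)) :=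
    Measure.isProbabilityMeasure_map hmeas.aemeasurable
  have key : ((pois ν).map (fun M => ∑' i, M i)).real {c} = (poissonMeasure m).real {c} := by
    have t1 : Tendsto (fun F : Finset ι => (poissonMeasure (∑ i ∈ F, ν i)).real {c}) atTop
        (𝓝 ((poissonMeasure m).real {c})) := ((cts c).tendsto m).comp hm
    have t2 : Tendsto (fun F : Finset ι => ∫ M, (if ∑ i ∈ F, M i = c then (1 : ℝ) else 0) ∂(pois ν))
        atTop (𝓝 (∫ M, (if ∑' i, M i = c then (1 : ℝ) else 0) ∂(pois ν))) := by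
      refine tendsto_integral_filter_of_dominated_convergence (fun _ => 1) ?_ ?_
        (integrable_const _) ?_
      · refine Eventually.of_forall fun F => Measurable.aestronglyMeasurable ?_
        refine Measurable.ite ?_ measurable_const measurable_const
        exact (Finset.measurable_fun_sum F fun i _ => measurable_pi_apply i)
          (measurableSet_singleton c)
      · refine Eventually.of_forall fun F => ae_of_all _ fun M => ?_
        split_ifs <;> simp
      · filter_upwards [ae_fin ν hm] with M hM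
        refine tendsto_const_nhds.congr' ?_
        filter_upwards [eventually_ge_atTop hM.toFinset] with F hF
        have : ∑' i, M i = ∑ i ∈ F, M i := by
          refine tsum_eq_sum fun i hi => ?_
          by_contra hne
          exact hi (hF (hM.mem_toFinset.2 hne))
        rw [this]
    have e1 : ∀ F : Finset ι, ∫ M, (if ∑ i ∈ F, M i = c then (1 : ℝ) else 0) ∂(pois ν) =
        (poissonMeasure (∑ i ∈ F, ν i)).real {c} := by
      intro F
      rw [← fin_sum, map_measureReal_apply (Finset.measurable_fun_sum F fun i _ =>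
        measurable_pi_apply i) (measurableSet_singleton c)]
      rw [← integral_indicator_one ((Finset.measurable_fun_sum F fun i _ =>
        measurable_pi_apply i) (measurableSet_singleton c))]
      congr 1
      funext M
      simp only [Set.indicator, Set.mem_preimage, Set.mem_singleton_iff, Pi.one_apply]
    have e2 : ∫ M, (if ∑' i, M i = c then (1 : ℝ) else 0) ∂(pois ν) =
        ((pois ν).map (fun M => ∑' i, M i)).real {c} := by
      rw [map_measureReal_apply hmeas (measurableSet_singleton c),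
        ← integral_indicator_one (hmeas (measurableSet_singleton c))]
      congr 1
      funext M
      simp only [Set.indicator, Set.mem_preimage, Set.mem_singleton_iff, Pi.one_apply]
    simp only [e1] at t2
    rw [e2] at t2
    exact tendsto_nhds_unique t2 t1
  rw [← ofReal_measureReal, ← ofReal_measureReal (μ := poissonMeasure m), key]

end K

/-- SUPERPOSITION for a finite number of disjoint summable families -/
theorem groups {ι J : Type} [Countable ι] [Fintype J] (ν : ι → ℝ≥0) (A : J → Set ι) (m : J → ℝ≥0)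
    (hA : ∀ j j' i, i ∈ A j → i ∈ A j' → j = j') (hm : ∀ j, HasSum (fun i : A j => ν i) (m j)) :
    (pois ν).map (fun M j => ∑' i : A j, M i) = Measure.pi fun j => poissonMeasure (m j) := by
  have hinj : Function.Injective fun p : (Σ j, A j) => (p.2 : ι) := by
    rintro ⟨j, i, hi⟩ ⟨j', i', hi'⟩ h
    simp only at h
    subst h
    obtain rfl := hA j j' i hi hi'
    rfl
  have h1 : (pois ν).map (fun ω (p : (Σ j, A j)) => ω (p.2 : ι)) =
      pois fun p : (Σ j, A j) => ν p.2 := by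
    unfold pois
    exact Measure.map_infinitePi_infinitePi_of_inj (P := fun i => poissonMeasure (ν i)) hinj
  have h2 := Measure.infinitePi_map_piCurry (X := fun (j : J) (_ : A j) => ℕ)
    (fun (j : J) (i : A j) => poissonMeasure (ν i))
  have h3 : (fun (M : ι → ℕ) (j : J) => ∑' i : A j, M i) =
      (fun (W : (j : J) → A j → ℕ) (j : J) => ∑' i : A j, W j i) ∘
      (MeasurableEquiv.piCurry (fun (j : J) (_ : A j) => ℕ)) ∘
        (fun (M : ι → ℕ) (p : (Σ j, A j)) => M (p.2 : ι)) := rfl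
  have m1 : ∀ j, Measurable (fun (W : A j → ℕ) => ∑' i : A j, W i) := fun j =>
    Measurable.tsum fun i => measurable_pi_apply i
  have m2 : Measurable (fun (W : (j : J) → A j → ℕ) (j : J) => ∑' i : A j, W j i) :=
    measurable_pi_lambda _ fun j => (m1 j).comp (measurable_pi_apply j)
  rw [h3, ← Measure.map_map m2 ((MeasurableEquiv.measurable _).comp (by fun_prop)),
    ← Measure.map_map (MeasurableEquiv.measurable _) (by fun_prop), h1]
  change Measure.map _ (Measure.map _ (Measure.infinitePi fun p : (Σ j, A j) =>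
    poissonMeasure (ν p.2))) = _
  rw [h2, Measure.infinitePi_eq_pi]
  have h4 := Measure.pi_map_pi (X := fun j : J => A j → ℕ) (Y := fun _ : J => ℕ)
    (μ := fun j : J => Measure.infinitePi fun i : A j => poissonMeasure (ν i))
    (f := fun j (W : A j → ℕ) => ∑' i : A j, W i)
    (hμ := fun j => by
      have : IsProbabilityMeasure (Measure.map (fun (W : A j → ℕ) => ∑' i : A j, W i)
        (Measure.infinitePi fun i : A j => poissonMeasure (ν i))) :=
        Measure.isProbabilityMeasure_map (m1 j).aemeasurable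
      infer_instance) (fun j => (m1 j).aemeasurable)
  rw [h4]
  congr 1
  funext j
  exact tsum_law (fun i : A j => ν i) (hm j)

section mass

variable {q H : ℕ}

theorem card_mask [NeZero q] (e : Fin (H + 1) → Bool) :
    (Finset.univ.filter fun u : Fin (H + 1) → Pos q => mask e u = u).card =
      (q ^ 2) ^ (Finset.univ.filter fun k => e k).card := by
  have h1 : (Finset.univ.filter fun u : Fin (H + 1) → Pos q => mask e u = u) =
      Fintype.piFinset fun k => if e k = true then Finset.univ else {((0, 0) : Pos q)} := by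
    ext u
    simp only [Finset.mem_filter, Finset.mem_univ, true_and, Fintype.mem_piFinset, mask, funext_iff]
    refine forall_congr' fun k => ?_
    by_cases h : e k = true
    · simp [h]
    · simp only [h, Bool.false_eq_true, if_false, Finset.mem_singleton]
      exact eq_comm
  rw [h1, Fintype.card_piFinset]
  have h2 : ∀ k : Fin (H + 1), (if e k = true then Finset.univ else {((0, 0) : Pos q)}).card =
      if e k = true then q ^ 2 else 1 := by
    intro k
    split_ifs
    · simp [sq]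
    · simp
  rw [Finset.prod_congr rfl fun k _ => h2 k, Finset.prod_ite, Finset.prod_const, Finset.prod_const_one,
    mul_one]

theorem card_fix [NeZero q] (k : Fin (H + 1)) (v : Pos q) :
    (Finset.univ.filter fun u : Fin (H + 1) → Pos q => u k = v).card = (q ^ 2) ^ H := by
  have h1 : (Finset.univ.filter fun u : Fin (H + 1) → Pos q => u k = v) =
      Fintype.piFinset fun j => if j = k then {v} else Finset.univ := by
    ext u
    simp only [Finset.mem_filter, Finset.mem_univ, true_and, Fintype.mem_piFinset]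
    constructor
    · intro h j
      by_cases hj : j = k
      · subst hj; simp [h]
      · simp [hj]
    · intro h
      simpa using h k
  rw [h1, Fintype.card_piFinset, Fin.prod_univ_succAbove _ k]
  simp [Fin.succAbove_ne, sq]

theorem muE_sum [NeZero q] {a δ Λ : ℝ} (L : MarkLaw q H a δ Λ) (lam : ℝ≥0)
    (e : Fin (H + 1) → Bool) (P : CMark q H → Prop) :
    ∑' θ : {θ : FMark q H // P θ.1}, (muE L lam e θ.1 : ℝ≥0∞) =
      ∑' ξ : {ξ : CMark q H // P ξ}, ((lam * L.m ξ.1 : ℝ≥0) : ℝ≥0∞) := by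
  classical
  have h1 := tsum_subtype {θ : FMark q H | P θ.1} fun θ => (muE L lam e θ : ℝ≥0∞)
  have h2 := tsum_subtype {ξ : CMark q H | P ξ} fun ξ => ((lam * L.m ξ : ℝ≥0) : ℝ≥0∞)
  change ∑' θ : {θ : FMark q H | P θ.1}, (muE L lam e θ : ℝ≥0∞) =
    ∑' ξ : {ξ : CMark q H | P ξ}, ((lam * L.m ξ : ℝ≥0) : ℝ≥0∞)
  rw [h1, h2]
  have h3 := ENNReal.tsum_prod (f := fun (ξ : CMark q H) (u : Fin (H + 1) → Pos q) =>
    ({θ : FMark q H | P θ.1}.indicator (fun θ => (muE L lam e θ : ℝ≥0∞)) (ξ, u)))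
  refine h3.trans (tsum_congr fun ξ => ?_)
  rw [tsum_fintype]
  by_cases hP : P ξ
  · have h4 : ∀ u : Fin (H + 1) → Pos q,
        {θ : FMark q H | P θ.1}.indicator (fun θ => (muE L lam e θ : ℝ≥0∞)) (ξ, u) =
        if mask e u = u then
          ((lam * L.m ξ / ((q : ℝ≥0) ^ 2) ^ (Finset.univ.filter fun k => e k).card : ℝ≥0) : ℝ≥0∞)
        else 0 := by
      intro u
      rw [Set.indicator_of_mem (show (ξ, u) ∈ {θ : FMark q H | P θ.1} from hP)]
      unfold muE
      split_ifs <;> rfl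
    rw [Finset.sum_congr rfl fun u _ => h4 u, ← Finset.sum_filter, Finset.sum_const, card_mask,
      Set.indicator_of_mem (show ξ ∈ {ξ : CMark q H | P ξ} from hP), nsmul_eq_mul]
    have hq : ((q : ℝ≥0) ^ 2) ^ (Finset.univ.filter fun k => e k).card ≠ 0 := by
      have : (q : ℝ≥0) ≠ 0 := by exact_mod_cast NeZero.ne q
      positivity
    rw [show (((q ^ 2) ^ (Finset.univ.filter fun k => e k).card : ℕ) : ℝ≥0∞) =
      ((((q : ℝ≥0) ^ 2) ^ (Finset.univ.filter fun k => e k).card : ℝ≥0) : ℝ≥0∞) by push_cast; rfl,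
      ← ENNReal.coe_mul, mul_div_cancel₀ _ hq]
  · rw [Set.indicator_of_notMem (show ξ ∉ {ξ : CMark q H | P ξ} from hP)]
    refine Finset.sum_eq_zero fun u _ => ?_
    rw [Set.indicator_of_notMem (show (ξ, u) ∉ {θ : FMark q H | P θ.1} from hP)]

theorem div_uniq {q : ℕ} {c c' : ℤ} {v v' : Fin q}
    (h : (q : ℤ) * c + ((v : ℕ) : ℤ) = q * c' + ((v' : ℕ) : ℤ)) : c = c' ∧ v = v' := by
  have h1 : ((v : ℕ) : ℤ) < q := by exact_mod_cast v.2
  have h2 : ((v' : ℕ) : ℤ) < q := by exact_mod_cast v'.2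
  have h3 : (0 : ℤ) ≤ ((v : ℕ) : ℤ) := by positivity
  have h4 : (0 : ℤ) ≤ ((v' : ℕ) : ℤ) := by positivity
  have hc : c = c' := by
    rcases lt_trichotomy c c' with h5 | h5 | h5
    · nlinarith
    · exact h5
    · nlinarith
  subst hc
  refine ⟨rfl, Fin.ext ?_⟩
  have : ((v : ℕ) : ℤ) = ((v' : ℕ) : ℤ) := by linarith
  exact_mod_cast this

/-- total mass of the hidden marks in a cell -/
noncomputable def hmass {a δ Λ : ℝ} (L : MarkLaw q H a δ Λ) (k : Fin (H + 1)) (c : Site) : ℝ≥0∞ :=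
  ∑' ξ : {ξ : CMark q H // ξ.c k = c ∧ ξ.hid k}, (L.m ξ.1 : ℝ≥0∞)

/-- total mass of the revealed marks in a mesh cell -/
noncomputable def rmass {a δ Λ : ℝ} (L : MarkLaw q H a δ Λ) (k : Fin (H + 1)) (c : Site)
    (v : Pos q) : ℝ≥0∞ :=
  ∑' ξ : {ξ : CMark q H // ξ.c k = c ∧ ¬ ξ.hid k ∧ ξ.r k = v}, (L.m ξ.1 : ℝ≥0∞)

theorem site_iff [NeZero q] (k : Fin (H + 1)) (c : Site) (v : Pos q) (θ : FMark q H) :
    FMark.site θ k = ((q : ℤ) * c.1 + ((v.1 : ℕ) : ℤ), (q : ℤ) * c.2 + ((v.2 : ℕ) : ℤ)) ↔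
      θ.1.c k = c ∧ FMark.loc θ k = v := by
  unfold FMark.site
  constructor
  · intro h
    have h1 := div_uniq (Prod.mk.inj h).1
    have h2 := div_uniq (Prod.mk.inj h).2
    exact ⟨Prod.ext h1.1 h2.1, Prod.ext h1.2 h2.2⟩
  · rintro ⟨h1, h2⟩
    rw [h1, h2]

theorem mass_eq [NeZero q] {a δ Λ : ℝ} (L : MarkLaw q H a δ Λ) (k : Fin (H + 1)) (c : Site)
    (v : Pos q) :
    hmass L k c / ((q : ℝ≥0∞) ^ 2) + rmass L k c v = ENNReal.ofReal a := by
  classical
  have hq0 : (q : ℝ≥0) ≠ 0 := by exact_mod_cast NeZero.ne q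
  set x : Site := ((q : ℤ) * c.1 + ((v.1 : ℕ) : ℤ), (q : ℤ) * c.2 + ((v.2 : ℕ) : ℤ)) with hx
  have ha : 0 ≤ a := (L.static k x).nonneg fun θ => NNReal.coe_nonneg _
  have h0 : ∑' θ : {θ : FMark q H // FMark.site θ k = x}, (fineOf L.m θ.1 : ℝ≥0∞) =
      ENNReal.ofReal a := by
    have h1 := L.static k x
    lift a to ℝ≥0 using ha
    rw [NNReal.hasSum_coe] at h1
    rw [ENNReal.ofReal_coe_nnreal]
    exact (ENNReal.hasSum_coe.2 h1).tsum_eq
  rw [← h0]
  have h1 := tsum_subtype {θ : FMark q H | FMark.site θ k = x} fun θ => (fineOf L.m θ : ℝ≥0∞)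
  have h2 := tsum_subtype {ξ : CMark q H | ξ.c k = c ∧ ξ.hid k} fun ξ => (L.m ξ : ℝ≥0∞)
  have h3 := tsum_subtype {ξ : CMark q H | ξ.c k = c ∧ ¬ ξ.hid k ∧ ξ.r k = v}
    fun ξ => (L.m ξ : ℝ≥0∞)
  have e1 : hmass L k c = ∑' ξ, {ξ : CMark q H | ξ.c k = c ∧ ξ.hid k}.indicator
    (fun ξ => (L.m ξ : ℝ≥0∞)) ξ := h2
  have e2 : rmass L k c v = ∑' ξ, {ξ : CMark q H | ξ.c k = c ∧ ¬ ξ.hid k ∧ ξ.r k = v}.indicator
    (fun ξ => (L.m ξ : ℝ≥0∞)) ξ := h3
  refine Eq.trans ?_ h1.symm
  rw [e1, e2, ENNReal.div_eq_inv_mul, ← ENNReal.tsum_mul_left, ← ENNReal.tsum_add]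
  have h4 := ENNReal.tsum_prod (f := fun (ξ : CMark q H) (u : Fin (H + 1) → Pos q) =>
    ({θ : FMark q H | FMark.site θ k = x}.indicator (fun θ => (fineOf L.m θ : ℝ≥0∞)) (ξ, u)))
  refine Eq.trans ?_ h4.symm
  refine tsum_congr fun ξ => ?_
  rw [tsum_fintype]
  have h5 : ∀ u : Fin (H + 1) → Pos q,
      {θ : FMark q H | FMark.site θ k = x}.indicator (fun θ => (fineOf L.m θ : ℝ≥0∞)) (ξ, u) =
      if ξ.c k = c ∧ (if ξ.hid k then u k = v else ξ.r k = v) then
        ((L.m ξ / ((q : ℝ≥0) ^ 2) ^ (H + 1) : ℝ≥0) : ℝ≥0∞) else 0 := by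
    intro u
    have h6 : ((ξ, u) : FMark q H) ∈ {θ : FMark q H | FMark.site θ k = x} ↔
        ξ.c k = c ∧ (if ξ.hid k then u k = v else ξ.r k = v) := by
      rw [Set.mem_ofPred_eq, hx, site_iff]
      unfold FMark.loc
      by_cases hh : ξ.hid k
      · simp [hh]
      · simp [hh]
    by_cases h7 : ξ.c k = c ∧ (if ξ.hid k then u k = v else ξ.r k = v)
    · rw [if_pos h7, Set.indicator_of_mem (h6.2 h7)]
      rfl
    · rw [if_neg h7, Set.indicator_of_notMem fun h => h7 (h6.1 h)]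
  rw [Finset.sum_congr rfl fun u _ => h5 u]
  by_cases hc : ξ.c k = c
  · by_cases hh : ξ.hid k
    · rw [Set.indicator_of_mem (show ξ ∈ {ξ : CMark q H | ξ.c k = c ∧ ξ.hid k} from ⟨hc, hh⟩),
        Set.indicator_of_notMem (show ξ ∉ {ξ : CMark q H | ξ.c k = c ∧ ¬ ξ.hid k ∧ ξ.r k = v} from
          fun h => h.2.1 hh), add_zero]
      simp only [hc, hh, if_true, true_and]
      rw [← Finset.sum_filter, Finset.sum_const, card_fix, nsmul_eq_mul]
      have e3 : (((q ^ 2) ^ H : ℕ) : ℝ≥0∞) = ((((q : ℝ≥0) ^ 2) ^ H : ℝ≥0) : ℝ≥0∞) := by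
        push_cast; rfl
      have e4 : ((q : ℝ≥0∞) ^ 2)⁻¹ = ((((q : ℝ≥0) ^ 2)⁻¹ : ℝ≥0) : ℝ≥0∞) := by
        rw [ENNReal.coe_inv (by positivity)]
        push_cast
        rfl
      rw [e3, e4, ← ENNReal.coe_mul, ← ENNReal.coe_mul]
      congr 1
      field_simp
      ring
    · rw [Set.indicator_of_notMem (show ξ ∉ {ξ : CMark q H | ξ.c k = c ∧ ξ.hid k} from
        fun h => hh h.2), mul_zero, zero_add]
      by_cases hr : ξ.r k = v
      · rw [Set.indicator_of_mem (show ξ ∈ {ξ : CMark q H | ξ.c k = c ∧ ¬ ξ.hid k ∧ ξ.r k = v} from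
          ⟨hc, hh, hr⟩)]
        simp only [hc, hh, if_false, true_and, hr, if_true]
        rw [Finset.sum_const, Finset.card_univ, nsmul_eq_mul]
        have e3 : ((Fintype.card (Fin (H + 1) → Pos q) : ℕ) : ℝ≥0∞) =
            ((((q : ℝ≥0) ^ 2) ^ (H + 1) : ℝ≥0) : ℝ≥0∞) := by
          simp [sq]
        rw [e3, ← ENNReal.coe_mul]
        congr 1
        field_simp
      · rw [Set.indicator_of_notMem (show ξ ∉ {ξ : CMark q H | ξ.c k = c ∧ ¬ ξ.hid k ∧ ξ.r k = v}
          from fun h => hr h.2.2)]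
        refine (Finset.sum_eq_zero fun u _ => ?_).symm
        rw [if_neg]
        rintro ⟨_, h⟩
        rw [if_neg hh] at h
        exact hr h
  · rw [Set.indicator_of_notMem (show ξ ∉ {ξ : CMark q H | ξ.c k = c ∧ ξ.hid k} from
        fun h => hc h.1), Set.indicator_of_notMem
        (show ξ ∉ {ξ : CMark q H | ξ.c k = c ∧ ¬ ξ.hid k ∧ ξ.r k = v} from fun h => hc h.1),
      mul_zero, zero_add]
    refine (Finset.sum_eq_zero fun u _ => ?_).symm
    rw [if_neg fun h => hc h.1]

theorem hmass_trans {a δ Λ : ℝ} (L : MarkLaw q H a δ Λ) (k : Fin (H + 1)) (c : Site) :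
    hmass L k c = hmass L k 0 := by
  classical
  have h2 := fun c => tsum_subtype {ξ : CMark q H | ξ.c k = c ∧ ξ.hid k}
    fun ξ => (L.m ξ : ℝ≥0∞)
  have e1 : ∀ c, hmass L k c = ∑' ξ, {ξ : CMark q H | ξ.c k = c ∧ ξ.hid k}.indicator
    (fun ξ => (L.m ξ : ℝ≥0∞)) ξ := h2
  let E : CMark q H ≃ CMark q H :=
    { toFun := fun ξ => { ξ with c := fun k => ξ.c k + c }
      invFun := fun ξ => { ξ with c := fun k => ξ.c k - c }
      left_inv := fun ξ => by simp
      right_inv := fun ξ => by simp }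
  rw [e1 c, e1 0, ← E.tsum_eq]
  refine tsum_congr fun ξ => ?_
  have h3 : (E ξ ∈ {ξ : CMark q H | ξ.c k = c ∧ ξ.hid k}) ↔
      (ξ ∈ {ξ : CMark q H | ξ.c k = 0 ∧ ξ.hid k}) := by
    have : (ξ.c k + c = c) ↔ ξ.c k = 0 := by simp
    exact and_congr this Iff.rfl
  by_cases h : ξ ∈ {ξ : CMark q H | ξ.c k = 0 ∧ ξ.hid k}
  · rw [Set.indicator_of_mem h, Set.indicator_of_mem (h3.2 h)]
    have : L.m (E ξ) = L.m ξ := L.trans c ξ
    rw [this]
  · rw [Set.indicator_of_notMem h, Set.indicator_of_notMem fun h' => h (h3.1 h')]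

theorem cntC (q H : ℕ) : Countable (CMark q H) := by
  have : Function.Injective (fun ξ : CMark q H => (ξ.c, ξ.g, ξ.b, ξ.r)) := by
    intro ξ ξ' h
    cases ξ; cases ξ'
    simp only [Prod.mk.injEq] at h
    obtain ⟨h1, h2, h3, h4⟩ := h
    subst h1 h2 h3 h4
    rfl
  exact this.countable

/-- the groups of marks -/
def GA (k : Fin (H + 1)) (Λ0 : Finset Site) (j : Λ0 × Option (Pos q)) : Set (FMark q H) :=
  match j.2 with
  | none => {θ | θ.1.c k = j.1 ∧ θ.1.hid k}
  | some v => {θ | θ.1.c k = j.1 ∧ ¬ θ.1.hid k ∧ θ.1.r k = v}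

theorem GA_disj (k : Fin (H + 1)) (Λ0 : Finset Site) (j j' : Λ0 × Option (Pos q))
    (θ : FMark q H) (h : θ ∈ GA k Λ0 j) (h' : θ ∈ GA k Λ0 j') : j = j' := by
  obtain ⟨c, o⟩ := j
  obtain ⟨c', o'⟩ := j'
  rcases o with _ | v <;> rcases o' with _ | v'
  · exact Prod.ext (Subtype.ext (h.1.symm.trans h'.1)) rfl
  · exact absurd h.2 h'.2.1
  · exact absurd h'.2 h.2.1
  · refine Prod.ext (Subtype.ext (h.1.symm.trans h'.1)) ?_
    exact congrArg some (h.2.2.symm.trans h'.2.2)

end mass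

end TRF1x

open TRF1x in
theorem B35.stmt_TRF1 : B35.Stmt_TRF1 := by
  intro q H _ a δ Λ L lam e k hek hδ
  classical
  have := cntC q H
  have hq0 : (q : ℝ≥0) ≠ 0 := by exact_mod_cast NeZero.ne q
  have ha : 0 ≤ a := (L.static k 0).nonneg fun θ => NNReal.coe_nonneg _
  have hqE : ((q : ℝ≥0∞) ^ 2) = (((q : ℝ≥0) ^ 2 : ℝ≥0) : ℝ≥0∞) := by push_cast; rfl
  -- masses
  have hE := fun c v => mass_eq L k c v
  have hfin : hmass L k 0 ≠ ∞ := by
    intro h
    have h1 := hE 0 (0, 0)
    rw [h, hqE, ENNReal.top_div_coe, top_add] at h1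
    exact ENNReal.ofReal_ne_top h1.symm
  have hr0 : ∀ c v, rmass L k c v = rmass L k 0 (0, 0) := by
    intro c v
    have h1 := hE c v
    rw [hmass_trans, ← hE 0 (0, 0)] at h1
    refine (ENNReal.add_right_inj ?_).1 h1
    rw [hqE]
    exact ENNReal.div_ne_top hfin (by exact_mod_cast (by positivity : ((q : ℝ≥0) ^ 2) ≠ 0))
  have hrfin : rmass L k 0 (0, 0) ≠ ∞ := by
    intro h
    have h1 := hE 0 (0, 0)
    rw [h, add_top] at h1
    exact ENNReal.ofReal_ne_top h1.symm
  obtain ⟨hm, hhm⟩ : ∃ x : ℝ≥0, (x : ℝ≥0∞) = hmass L k 0 := ⟨_, ENNReal.coe_toNNReal hfin⟩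
  obtain ⟨rm, hrm⟩ : ∃ x : ℝ≥0, (x : ℝ≥0∞) = rmass L k 0 (0, 0) :=
    ⟨_, ENNReal.coe_toNNReal hrfin⟩
  have hsum : hm / ((q : ℝ≥0) ^ 2) + rm = a.toNNReal := by
    have h1 := hE 0 (0, 0)
    rw [← hhm, ← hrm, hqE, ← ENNReal.coe_div (by positivity), ← ENNReal.coe_add] at h1
    exact ENNReal.coe_inj.1 h1
  have hsumR : (hm : ℝ) / ((q : ℝ) ^ 2) + rm = a := by
    have := congrArg (fun x : ℝ≥0 => (x : ℝ)) hsum
    simp only [Real.coe_toNNReal a ha] at this
    push_cast at this
    exact this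
  have hcard : (Fintype.card (Pos q) : ℝ≥0) = (q : ℝ≥0) ^ 2 := by simp [sq]
  refine ⟨lam * (hm / ((q : ℝ≥0) ^ 2)), lam * rm, ?_, ?_, ?_⟩
  · push_cast
    rw [← hsumR]
    ring
  · have h1 := L.many k 0
    have h2 : ∑' ξ : {ξ : CMark q H // ξ.c k = 0 ∧ ξ.hid k}, (L.m ξ.1 : ℝ) = hm := by
      have h3 : HasSum (fun ξ : {ξ : CMark q H // ξ.c k = 0 ∧ ξ.hid k} => L.m ξ.1) hm := by
        rw [← ENNReal.hasSum_coe, hhm]
        exact ENNReal.summable.hasSum
      exact (NNReal.hasSum_coe.2 h3).tsum_eq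
    rw [h2] at h1
    have hqR : (0 : ℝ) < (q : ℝ) ^ 2 := by
      have : (0 : ℝ) < q := by exact_mod_cast Nat.pos_of_ne_zero (NeZero.ne q)
      positivity
    push_cast
    have h3 : δ * a ≤ hm / (q : ℝ) ^ 2 := by
      rw [le_div_iff₀ hqR]
      linarith
    calc δ * (lam * a) = lam * (δ * a) := by ring
      _ ≤ lam * (hm / (q : ℝ) ^ 2) := mul_le_mul_of_nonneg_left h3 (NNReal.coe_nonneg _)
  intro Λ0
  set m : Λ0 × Option (Pos q) → ℝ≥0 := fun j =>
    match j.2 with
    | none => Fintype.card (Pos q) * (lam * (hm / ((q : ℝ≥0) ^ 2)))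
    | some _ => lam * rm with hmdef
  have hmsum : ∀ j : Λ0 × Option (Pos q),
      HasSum (fun θ : GA k Λ0 j => muE L lam e θ) (m j) := by
    rintro ⟨c, o⟩
    rcases o with _ | v
    · rw [← ENNReal.hasSum_coe]
      have h1 : ∑' θ : {θ : FMark q H // θ.1.c k = c ∧ θ.1.hid k}, (muE L lam e θ.1 : ℝ≥0∞) =
          ((m (c, none) : ℝ≥0) : ℝ≥0∞) := by
        rw [muE_sum L lam e fun ξ => ξ.c k = c ∧ ξ.hid k]
        simp only [ENNReal.coe_mul]
        rw [ENNReal.tsum_mul_left]
        have h2 : ∑' ξ : {ξ : CMark q H // ξ.c k = c ∧ ξ.hid k}, (L.m ξ.1 : ℝ≥0∞) = hm := by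
          rw [hhm, ← hmass_trans L k c]
          rfl
        rw [h2, ← ENNReal.coe_mul, hmdef]
        congr 1
        simp only [hcard]
        field_simp
      rw [← h1]
      exact ENNReal.summable.hasSum
    · rw [← ENNReal.hasSum_coe]
      have h1 : ∑' θ : {θ : FMark q H // θ.1.c k = c ∧ ¬ θ.1.hid k ∧ θ.1.r k = v},
          (muE L lam e θ.1 : ℝ≥0∞) = ((m (c, some v) : ℝ≥0) : ℝ≥0∞) := by
        rw [muE_sum L lam e fun ξ => ξ.c k = c ∧ ¬ ξ.hid k ∧ ξ.r k = v]
        simp only [ENNReal.coe_mul]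
        rw [ENNReal.tsum_mul_left]
        have h2 : ∑' ξ : {ξ : CMark q H // ξ.c k = c ∧ ¬ ξ.hid k ∧ ξ.r k = v}, (L.m ξ.1 : ℝ≥0∞) =
            rm := by
          rw [hrm, ← hr0 c v]
          rfl
        rw [h2, ← ENNReal.coe_mul, hmdef]
      rw [← h1]
      exact ENNReal.summable.hasSum
  have hg := groups (muE L lam e) (GA k Λ0) m (GA_disj k Λ0) hmsum
  have mts : ∀ (P : FMark q H → Prop), Measurable fun M : Conf q H => ∑' θ : {θ // P θ}, M θ.1 :=
    fun P => Measurable.tsum fun θ => measurable_pi_apply _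
  have hmeas : Measurable (fun (M : Conf q H) (c : Λ0) =>
      (B35.nH k M c.1, fun v => B35.nR k M c.1 v)) := by
    refine measurable_pi_lambda _ fun c => Measurable.prodMk ?_ (measurable_pi_lambda _ fun v => ?_)
    · exact mts _
    · exact mts _
  refine ⟨hmeas, ?_⟩
  have hgm : Measurable (fun (M : Conf q H) (j : Λ0 × Option (Pos q)) => ∑' θ : GA k Λ0 j, M θ) :=
    measurable_pi_lambda _ fun j => mts fun θ => θ ∈ GA k Λ0 j
  refine Measure.ext_of_singleton fun d => ?_
  rw [Measure.map_apply hmeas (measurableSet_singleton d)]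
  set d' : Λ0 × Option (Pos q) → ℕ := fun j =>
    match j.2 with
    | none => (d j.1).1
    | some v => (d j.1).2 v with hd'
  have h1 : (fun (M : Conf q H) (c : Λ0) => (B35.nH k M c.1, fun v => B35.nR k M c.1 v)) ⁻¹' {d} =
      (fun (M : Conf q H) (j : Λ0 × Option (Pos q)) => ∑' θ : GA k Λ0 j, M θ) ⁻¹' {d'} := by
    ext M
    simp only [Set.mem_preimage, Set.mem_singleton_iff, funext_iff]
    constructor
    · rintro h ⟨c, o⟩
      rcases o with _ | v
      · exact congrArg Prod.fst (h c)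
      · exact congrFun (congrArg Prod.snd (h c)) v
    · intro h c
      exact Prod.ext (h (c, none)) (funext fun v => h (c, some v))
  rw [h1, ← Measure.map_apply hgm (measurableSet_singleton d'), hg]
  have h2 : ({d'} : Set (Λ0 × Option (Pos q) → ℕ)) = Set.pi Set.univ fun j => {d' j} := by
    ext x; simp [Set.mem_pi, funext_iff]
  have h3 : ({d} : Set (Λ0 → ℕ × (Pos q → ℕ))) = Set.pi Set.univ fun j => {d j} := by
    ext x; simp [Set.mem_pi, funext_iff]
  have hprob : ∀ ah ar : ℝ≥0, IsProbabilityMeasure (B35.muY (Pos q) ah ar) := fun ah ar => by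
    unfold B35.muY; infer_instance
  rw [h2, h3, Measure.pi_pi, Measure.pi_pi, Fintype.prod_prod_type]
  refine Finset.prod_congr rfl fun c _ => ?_
  rw [Fintype.prod_option]
  have h4 : ({d c} : Set (ℕ × (Pos q → ℕ))) = {(d c).1} ×ˢ (Set.pi Set.univ fun v => {(d c).2 v}) := by
    ext x; simp [Set.mem_pi, Prod.ext_iff, funext_iff]
  rw [h4]
  unfold B35.muY
  rw [Measure.prod_prod, Measure.pi_pi]

end MPdd5692
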