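import Pool.Agent.Work.MP_dd5692_pr.HARRIS

/-!
# MP_dd5692_pr: superposition of independent Poisson families (helper24)
-/

open MeasureTheory ProbabilityTheory Set
open scoped ENNReal NNReal BigOperators

namespace MPdd5692

namespace Superp

variable {ι : Type}

/-- intensities of the two families -/
def nn (ν ν' : ι → ℝ≥0) (p : ι × Bool) : ℝ≥0 := if p.2 then ν p.1 else ν' p.1

/-- the two families as one family -/
theorem map_pair (ν ν' : ι → ℝ≥0) :
    (pois (nn ν ν')).map (fun w => (fun i => w (i, true), fun i => w (i, false))) =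
      (pois ν).prod (pois ν') := by
  have h1 := HARRIS.map_inj (nn ν ν') (e := fun p : Bool × ι => (p.2, p.1))
    (fun p p' h => Prod.ext (Prod.mk.inj h).2 (Prod.mk.inj h).1)
  have h2 : (pois fun p : Bool × ι => nn ν ν' (p.2, p.1)).map (MeasurableEquiv.curry Bool ι ℕ) =
      Measure.infinitePi fun b : Bool => pois fun i => nn ν ν' (i, b) := by
    unfold pois
    exact Measure.infinitePi_map_curry (fun (b : Bool) (i : ι) => poissonMeasure (nn ν ν' (i, b)))
  have h3 := Measure.infinitePi_map_eval_prod (P := fun b : Bool => pois fun i => nn ν ν' (i, b))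
    (i := true) (j := false) (by decide)
  rw [← h2, ← h1, Measure.map_map (by fun_prop) (by fun_prop),
    Measure.map_map (by fun_prop) (by fun_prop)] at h3
  have e1 : (pois fun i => nn ν ν' (i, true)) = pois ν := by simp [nn]
  have e2 : (pois fun i => nn ν ν' (i, false)) = pois ν' := by simp [nn]
  rw [e1, e2] at h3
  rw [← h3]
  rfl

/-- SUPERPOSITION: the sum of two independent Poisson families -/
theorem map_add (ν ν' : ι → ℝ≥0) :
    ((pois ν).prod (pois ν')).map (fun p => p.1 + p.2) = pois (fun i => ν i + ν' i) := by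
  rw [← map_pair ν ν', Measure.map_map (by fun_prop) (by fun_prop)]
  have h2 : (pois (nn ν ν')).map (MeasurableEquiv.curry ι Bool ℕ) =
      Measure.infinitePi fun i : ι => Measure.infinitePi fun b : Bool =>
        poissonMeasure (nn ν ν' (i, b)) := by
    unfold pois
    exact Measure.infinitePi_map_curry (fun (i : ι) (b : Bool) => poissonMeasure (nn ν ν' (i, b)))
  have h3 := Measure.infinitePi_map_pi (fun i : ι => Measure.infinitePi fun b : Bool =>
        poissonMeasure (nn ν ν' (i, b))) (f := fun (_ : ι) (u : Bool → ℕ) => u true + u false)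
        (fun _ => by fun_prop)
  rw [← h2, Measure.map_map (by fun_prop) (by fun_prop)] at h3
  have h4 : ∀ i : ι, (Measure.infinitePi fun b : Bool => poissonMeasure (nn ν ν' (i, b))).map
      (fun u : Bool → ℕ => u true + u false) = poissonMeasure (ν i + ν' i) := by
    intro i
    have h5 := Measure.infinitePi_map_eval_prod
      (P := fun b : Bool => poissonMeasure (nn ν ν' (i, b))) (i := true) (j := false) (by decide)
    have h6 := poissonMeasure_conv_poissonMeasure (ν i) (ν' i)
    unfold Measure.conv at h6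
    have e1 : nn ν ν' (i, true) = ν i := by simp [nn]
    have e2 : nn ν ν' (i, false) = ν' i := by simp [nn]
    rw [e1, e2] at h5
    rw [← h6, ← h5, Measure.map_map (by fun_prop) (by fun_prop)]
    rfl
  simp only [h4] at h3
  exact h3

theorem mp_add (ν ν' : ι → ℝ≥0) :
    MeasurePreserving (fun p : (ι → ℕ) × (ι → ℕ) => p.1 + p.2) ((pois ν).prod (pois ν'))
      (pois (fun i => ν i + ν' i)) := ⟨by fun_prop, map_add ν ν'⟩

theorem mp_fst (ν ν' : ι → ℝ≥0) :
    MeasurePreserving (Prod.fst : (ι → ℕ) × (ι → ℕ) → (ι → ℕ)) ((pois ν).prod (pois ν'))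
      (pois ν) := measurePreserving_fst

theorem mp_snd (ν ν' : ι → ℝ≥0) :
    MeasurePreserving (Prod.snd : (ι → ℕ) × (ι → ℕ) → (ι → ℕ)) ((pois ν).prod (pois ν'))
      (pois ν') := measurePreserving_snd

/-- a Poisson variable is nonzero with probability at most its mean -/
theorem ne_zero_le (ν : ι → ℝ≥0) (i : ι) : pois ν {ω | ω i ≠ 0} ≤ ν i := by
  have h1 : pois ν {ω | ω i ≠ 0} = poissonMeasure (ν i) {0}ᶜ := by
    have h2 : (pois ν).map (Function.eval i) = poissonMeasure (ν i) :=
      Measure.infinitePi_map_eval (fun i => poissonMeasure (ν i)) i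
    rw [← h2, Measure.map_apply (by fun_prop) (measurableSet_singleton 0).compl]
    rfl
  rw [h1, prob_compl_eq_one_sub (measurableSet_singleton 0), poissonMeasure_singleton]
  have h3 : (1 : ℝ≥0∞) - ENNReal.ofReal (Real.exp (-(ν i : ℝ)) * (ν i : ℝ) ^ 0 / (Nat.factorial 0 : ℝ)) =
      ENNReal.ofReal (1 - Real.exp (-(ν i : ℝ))) := by
    rw [ENNReal.ofReal_sub _ (Real.exp_pos _).le, ENNReal.ofReal_one]
    simp
  rw [h3, ← ENNReal.ofReal_coe_nnreal]
  apply ENNReal.ofReal_le_ofReal
  have := Real.add_one_le_exp (-(ν i : ℝ))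
  linarith

end Superp

end MPdd5692
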