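import Mathlib
import Pool.Agent.Work.MP_dd5692_pr.InterfaceB
import Pool.Agent.Work.MP_dd5692_pr.Superp

/-!
# MP_dd5692_pr: TRFLib (helper63): finiteness of the exposed configuration in a cell, sums over
finite supports, position of the particles.
-/

open MeasureTheory ProbabilityTheory Set
open scoped ENNReal NNReal BigOperators

namespace MPdd5692

namespace TRF

open B35

instance countable_CMark (q H : ℕ) : Countable (CMark q H) := by
  have hinj : Function.Injective (fun ξ : CMark q H => (ξ.c, ξ.g, ξ.b, ξ.r)) := by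
    rintro ⟨c, g, b, r⟩ ⟨c', g', b', r'⟩ h
    simp only [Prod.mk.injEq] at h
    obtain ⟨rfl, rfl, rfl, rfl⟩ := h
    rfl
  exact hinj.countable

variable {q H : ℕ} [NeZero q]

instance prob_unif : IsProbabilityMeasure (unif q) := by
  unfold unif
  infer_instance

instance prob_hm : IsProbabilityMeasure (hm q H) := by
  unfold hm
  infer_instance

/-- the number of exposed positions is finite: `muE ≤ lam m` -/
lemma muE_le {a δ Λ : ℝ} (L : MarkLaw q H a δ Λ) (lam : ℝ≥0) (e : Fin (H + 1) → Bool)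
    (θ : FMark q H) : muE L lam e θ ≤ lam * L.m θ.1 := by
  unfold muE
  split_ifs
  · have hq : (1 : ℝ≥0) ≤ ((q : ℝ≥0) ^ 2) ^ (Finset.univ.filter fun k => e k).card := by
      apply one_le_pow₀
      apply one_le_pow₀
      have : 1 ≤ q := Nat.one_le_iff_ne_zero.2 (NeZero.ne q)
      exact_mod_cast this
    exact div_le_of_le_mul₀ (by positivity) (by positivity) (le_mul_of_one_le_right (by positivity) hq)
  · positivity

lemma summable_m {a δ Λ : ℝ} (L : MarkLaw q H a δ Λ) (k : Fin (H + 1)) (c : Site) :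
    Summable (fun ξ : {ξ : CMark q H // ξ.c k = c} => L.m ξ.1) := by
  obtain ⟨h1, -⟩ := L.expm k c 0 0 le_rfl (Nat.zero_le _)
  have h2 : ∀ ξ : CMark q H, ξ.tot 0 0 = 0 := by
    intro ξ
    unfold CMark.tot
    exact Finset.sum_eq_zero fun i _ => by simp
  rw [← NNReal.summable_coe]
  refine h1.congr fun ξ => ?_
  rw [h2]; simp

/-- the marks whose particle is at time `k` in the cell `c` -/
def fmEquiv (k : Fin (H + 1)) (c : Site) :
    {θ : FMark q H // θ.1.c k = c} ≃ {ξ : CMark q H // ξ.c k = c} × (Fin (H + 1) → Pos q) where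
  toFun θ := (⟨θ.1.1, θ.2⟩, θ.1.2)
  invFun p := ⟨(p.1.1, p.2), p.1.2⟩
  left_inv _ := rfl
  right_inv _ := rfl

lemma summable_muE {a δ Λ : ℝ} (L : MarkLaw q H a δ Λ) (lam : ℝ≥0) (e : Fin (H + 1) → Bool)
    (k : Fin (H + 1)) (c : Site) :
    Summable (fun θ : {θ : FMark q H // θ.1.c k = c} => muE L lam e θ.1) := by
  have h1 : Summable (fun p : {ξ : CMark q H // ξ.c k = c} × (Fin (H + 1) → Pos q) =>
      lam * L.m p.1.1) := by
    have h2 := (summable_m L k c).mul_left lam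
    have h3 : Summable (fun _ : Fin (H + 1) → Pos q => (1 : ℝ≥0)) :=
      (hasSum_fintype _).summable
    have h4 := NNReal.summable_coe.2 h2
    have h5 := NNReal.summable_coe.2 h3
    have h6 := h4.mul_of_nonneg h5 (fun _ => NNReal.coe_nonneg _) (fun _ => NNReal.coe_nonneg _)
    rw [← NNReal.summable_coe]
    refine h6.congr fun p => ?_
    simp
  have h7 := (fmEquiv (q := q) k c).summable_iff.2 h1
  exact NNReal.summable_of_le (fun θ => muE_le L lam e θ.1) h7

/-- almost surely finitely many particles in a cell, and only exposed marks -/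
lemma ae_good {a δ Λ : ℝ} (L : MarkLaw q H a δ Λ) (lam : ℝ≥0) (e : Fin (H + 1) → Bool)
    (k : Fin (H + 1)) :
    ∀ᵐ M ∂(pois (muE L lam e)), (∀ θ, mask e θ.2 ≠ θ.2 → M θ = 0) ∧
      ∀ c : Site, {θ : FMark q H | θ.1.c k = c ∧ M θ ≠ 0}.Finite := by
  have h1 : ∀ᵐ M ∂(pois (muE L lam e)), ∀ θ, mask e θ.2 ≠ θ.2 → M θ = 0 := by
    rw [ae_all_iff]
    intro θ
    by_cases h : mask e θ.2 = θ.2
    · exact Filter.Eventually.of_forall fun M hne => absurd h hne
    · have h2 := Superp.ne_zero_le (muE L lam e) θ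
      have h3 : muE L lam e θ = 0 := by unfold muE; rw [if_neg h]
      rw [h3, ENNReal.coe_zero, nonpos_iff_eq_zero] at h2
      rw [ae_iff]
      refine measure_mono_null ?_ h2
      intro M hM
      by_contra hM'
      apply hM
      intro _
      by_contra hne
      exact hM' hne
  have h2 : ∀ᵐ M ∂(pois (muE L lam e)), ∀ c : Site,
      {θ : FMark q H | θ.1.c k = c ∧ M θ ≠ 0}.Finite := by
    rw [ae_all_iff]
    intro c
    have h3 : ∑' θ : {θ : FMark q H // θ.1.c k = c},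
        (pois (muE L lam e)) {M : Conf q H | M θ.1 ≠ 0} ≠ ⊤ := by
      refine ne_top_of_le_ne_top (ENNReal.tsum_coe_ne_top_iff_summable.2 (summable_muE L lam e k c)) ?_
      exact ENNReal.tsum_le_tsum fun θ => Superp.ne_zero_le _ _
    filter_upwards [ae_finite_setOfPred_mem h3] with M hM
    have h4 : {θ : FMark q H | θ.1.c k = c ∧ M θ ≠ 0} ⊆
        Subtype.val '' {θ : {θ : FMark q H // θ.1.c k = c} | M ∈ {M : Conf q H | M θ.1 ≠ 0}} := by
      intro θ hθ
      exact ⟨⟨θ, hθ.1⟩, hθ.2, rfl⟩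
    exact (hM.image _).subset h4
  filter_upwards [h1, h2] with M hM1 hM2
  exact ⟨hM1, hM2⟩

/-- sums with finite support -/
lemma tsum_eq {α : Type} (p : α → Prop) (M : α → ℕ) (s : Finset α)
    (hs : ∀ θ, θ ∈ s ↔ p θ ∧ M θ ≠ 0) : ∑' θ : {θ : α // p θ}, M θ.1 = ∑ θ ∈ s, M θ := by
  classical
  rw [tsum_eq_sum (s := s.subtype p)]
  · exact Finset.sum_subtype_of_mem (p := p) M (fun θ hθ => ((hs θ).1 hθ).1)
  · intro θ hθ
    by_contra hne
    apply hθ
    rw [Finset.mem_subtype]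
    exact (hs θ.1).2 ⟨θ.2, hne⟩

/-- position of a particle -/
lemma site_eq_iff (θ : FMark q H) (k : Fin (H + 1)) (c : Site) (u : Pos q) :
    FMark.site θ k = ((q : ℤ) * c.1 + ((u.1 : ℕ) : ℤ), (q : ℤ) * c.2 + ((u.2 : ℕ) : ℤ)) ↔
      θ.1.c k = c ∧ FMark.loc θ k = u := by
  have hq : (0 : ℤ) < q := by
    have : 0 < q := Nat.pos_of_ne_zero (NeZero.ne q)
    exact_mod_cast this
  have key : ∀ (x y : ℤ) (i j : Fin q), (q : ℤ) * x + ((i : ℕ) : ℤ) = q * y + ((j : ℕ) : ℤ) →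
      x = y ∧ i = j := by
    intro x y i j h
    have h1 := (Int.ediv_emod_unique hq (a := (q : ℤ) * x + ((i : ℕ) : ℤ)) (q := x)
      (r := ((i : ℕ) : ℤ))).2 ⟨by ring, by positivity, by exact_mod_cast i.2⟩
    have h2 := (Int.ediv_emod_unique hq (a := (q : ℤ) * x + ((i : ℕ) : ℤ)) (q := y)
      (r := ((j : ℕ) : ℤ))).2 ⟨by rw [h]; ring, by positivity, by exact_mod_cast j.2⟩
    refine ⟨h1.1.symm.trans h2.1, ?_⟩
    have h3 : ((i : ℕ) : ℤ) = ((j : ℕ) : ℤ) := h1.2.symm.trans h2.2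
    exact Fin.ext (by exact_mod_cast h3)
  unfold FMark.site
  constructor
  · intro h
    have h1 := congrArg Prod.fst h
    have h2 := congrArg Prod.snd h
    obtain ⟨h3, h4⟩ := key _ _ _ _ h1
    obtain ⟨h5, h6⟩ := key _ _ _ _ h2
    exact ⟨Prod.ext h3 h5, Prod.ext h4 h6⟩
  · rintro ⟨h1, h2⟩
    rw [h1, h2]

lemma asmE_ne_zero (e : Fin (H + 1) → Bool) (M : Conf q H) (U : HV q H) (θ : FMark q H) :
    asmE e M U θ ≠ 0 ↔ ∃ i < M (θ.1, mask e θ.2), ∀ k', e k' = false →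
      U k' ((θ.1, mask e θ.2), i) = θ.2 k' := by
  unfold asmE
  rw [Finset.card_ne_zero]
  constructor
  · rintro ⟨i, hi⟩
    rw [Finset.mem_filter, Finset.mem_range] at hi
    exact ⟨i, hi.1, hi.2⟩
  · rintro ⟨i, hi, hi'⟩
    exact ⟨i, by rw [Finset.mem_filter, Finset.mem_range]; exact ⟨hi, hi'⟩⟩

/-- the fine mark of the particle number `i` of the exposed mark `θ0` -/
def full (e : Fin (H + 1) → Bool) (U : HV q H) (θ0 : FMark q H) (i : ℕ) : FMark q H :=
  (θ0.1, fun k' => if e k' then θ0.2 k' else U k' (θ0, i))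

lemma mask_full (e : Fin (H + 1) → Bool) (U : HV q H) (θ0 : FMark q H) (i : ℕ)
    (h : mask e θ0.2 = θ0.2) : ((full e U θ0 i).1, mask e (full e U θ0 i).2) = θ0 := by
  refine Prod.ext rfl ?_
  conv_rhs => rw [← h]
  funext k'
  unfold mask full
  by_cases hk : e k' = true
  · simp [hk]
  · simp [hk]

lemma asmE_full (e : Fin (H + 1) → Bool) (M : Conf q H) (U : HV q H) (θ0 : FMark q H) (i : ℕ)
    (h : mask e θ0.2 = θ0.2) (hi : i < M θ0) : asmE e M U (full e U θ0 i) ≠ 0 := by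
  rw [asmE_ne_zero, mask_full e U θ0 i h]
  refine ⟨i, hi, fun k' hk => ?_⟩
  unfold full
  simp [hk]

/-- occupied positions of the assembled configuration at a non-exposed time -/
lemma mem_posIn (e : Fin (H + 1) → Bool) (k : Fin (H + 1)) (hk : e k = false) (M : Conf q H)
    (hM : ∀ θ, mask e θ.2 ≠ θ.2 → M θ = 0) (U : HV q H) (c : Site) (u : Pos q) :
    u ∈ posIn q (et (asmE e M U) k) c ↔
      (∃ (θ0 : FMark q H) (i : ℕ), i < M θ0 ∧ θ0.1.c k = c ∧ θ0.1.hid k ∧ U k (θ0, i) = u) ∨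
      (∃ θ0 : FMark q H, M θ0 ≠ 0 ∧ θ0.1.c k = c ∧ ¬ θ0.1.hid k ∧ θ0.1.r k = u) := by
  classical
  have h0 : u ∈ posIn q (et (asmE e M U) k) c ↔
      ((q : ℤ) * c.1 + ((u.1 : ℕ) : ℤ), (q : ℤ) * c.2 + ((u.2 : ℕ) : ℤ)) ∈ et (asmE e M U) k := by
    unfold posIn
    rw [Finset.mem_filter]
    exact ⟨fun h => h.2, fun h => ⟨Finset.mem_univ _, h⟩⟩
  rw [h0]
  constructor
  · rintro ⟨θ, hθ, hkH, hs⟩
    rw [asmE_ne_zero] at hθ
    obtain ⟨i, hi, hU⟩ := hθ
    obtain ⟨hc, hl⟩ := (site_eq_iff θ ⟨k, hkH⟩ c u).1 hs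
    have hkk : (⟨(k : ℕ), hkH⟩ : Fin (H + 1)) = k := rfl
    rw [hkk] at hc hl
    unfold FMark.loc at hl
    by_cases hh : θ.1.hid k
    · left
      rw [if_pos hh] at hl
      exact ⟨(θ.1, mask e θ.2), i, hi, hc, hh, (hU k hk).trans hl⟩
    · right
      rw [if_neg hh] at hl
      exact ⟨(θ.1, mask e θ.2), by omega, hc, hh, hl⟩
  · rintro (⟨θ0, i, hi, hc, hh, hU⟩ | ⟨θ0, h0, hc, hh, hr⟩)
    · have hmask : mask e θ0.2 = θ0.2 := by
        by_contra hne
        have := hM θ0 hne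
        omega
      refine ⟨full e U θ0 i, asmE_full e M U θ0 i hmask hi, k.2, ?_⟩
      refine (site_eq_iff _ k c u).2 ⟨hc, ?_⟩
      unfold FMark.loc
      have hh' : (full e U θ0 i).1.hid k := hh
      rw [if_pos hh']
      unfold full
      simp only [hk]
      exact hU
    · have hmask : mask e θ0.2 = θ0.2 := by
        by_contra hne
        exact h0 (hM θ0 hne)
      refine ⟨full e U θ0 0, asmE_full e M U θ0 0 hmask (Nat.pos_of_ne_zero h0), k.2, ?_⟩
      refine (site_eq_iff _ k c u).2 ⟨hc, ?_⟩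
      unfold FMark.loc
      have hh' : ¬ (full e U θ0 0).1.hid k := hh
      rw [if_neg hh']
      exact hr

end TRF

end MPdd5692
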