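import Mathlib
import Pool.Agent.Work.MP_dd5692_pr.TRFLib

/-!
# MP_dd5692_pr: block TRF2 (helper63): relabelling of the hidden particles
-/

open MeasureTheory ProbabilityTheory Set
open scoped ENNReal NNReal BigOperators

namespace MPdd5692

namespace TRF2

open B35 TRF

variable {q H : ℕ} [NeZero q]

/-- law of the hidden positions of finitely many particles -/
lemma law_left {T : Type} [Fintype T] (k : Fin (H + 1)) (J : T → FMark q H × ℕ)
    (hJ : Function.Injective J) :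
    (hm q H).map (fun U (t : T) => U k (J t)) = Measure.pi (fun _ : T => unif q) := by
  have h1 : (hm q H).map (fun U : HV q H => U k) =
      Measure.infinitePi (fun _ : FMark q H × ℕ => unif q) := by
    unfold hm
    exact (measurePreserving_eval
      (fun _ : Fin (H + 1) => Measure.infinitePi (fun _ : FMark q H × ℕ => unif q)) k).map_eq
  have h2 := Measure.map_infinitePi_infinitePi_of_inj (P := fun _ : FMark q H × ℕ => unif q) hJ
  rw [← Measure.infinitePi_eq_pi, ← h2, ← h1, Measure.map_map (by fun_prop) (by fun_prop)]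
  rfl

/-- the same for the numbered particles of the cells -/
lemma law_right (Λ0 : Finset Site) (n : Λ0 → ℕ) :
    (Measure.pi fun _ : Λ0 => Measure.infinitePi fun _ : ℕ => unif q).map
      (fun V (t : Σ c : Λ0, Fin (n c)) => V t.1 (t.2 : ℕ)) =
      Measure.pi (fun _ : (Σ c : Λ0, Fin (n c)) => unif q) := by
  have hinj : Function.Injective (fun t : (Σ c : Λ0, Fin (n c)) => ((t.1, (t.2 : ℕ)) : Λ0 × ℕ)) := by
    rintro ⟨c, i⟩ ⟨c', i'⟩ h
    simp only [Prod.mk.injEq] at h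
    obtain ⟨rfl, h⟩ := h
    rw [Fin.ext h]
  have h2 := Measure.map_infinitePi_infinitePi_of_inj (P := fun _ : Λ0 × ℕ => unif q) hinj
  have h3 : (Measure.infinitePi fun _ : Λ0 × ℕ => unif q).map (MeasurableEquiv.curry Λ0 ℕ (Pos q)) =
      Measure.infinitePi fun _ : Λ0 => Measure.infinitePi fun _ : ℕ => unif q :=
    Measure.infinitePi_map_curry (fun (_ : Λ0) (_ : ℕ) => unif q)
  rw [← Measure.infinitePi_eq_pi, ← Measure.infinitePi_eq_pi, ← h2, ← h3,
    Measure.map_map (by fun_prop) (by fun_prop)]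
  rfl

/-- numbering of the hidden particles of a cell -/
lemma exists_numbering (k : Fin (H + 1)) (M : Conf q H)
    (hfin : ∀ c : Site, {θ : FMark q H | θ.1.c k = c ∧ M θ ≠ 0}.Finite) (c : Site) :
    ∃ J : Fin (nH k M c) → FMark q H × ℕ, Function.Injective J ∧
      ∀ p : FMark q H × ℕ, (∃ n, J n = p) ↔ (p.1.1.c k = c ∧ p.1.1.hid k ∧ p.2 < M p.1) := by
  classical
  set s : Finset (FMark q H) := (hfin c).toFinset.filter (fun θ => θ.1.hid k) with hs
  have hmem : ∀ θ, θ ∈ s ↔ (θ.1.c k = c ∧ θ.1.hid k) ∧ M θ ≠ 0 := by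
    intro θ
    rw [hs, Finset.mem_filter, Set.Finite.mem_toFinset]
    constructor
    · rintro ⟨⟨h1, h2⟩, h3⟩
      exact ⟨⟨h1, h3⟩, h2⟩
    · rintro ⟨⟨h1, h3⟩, h2⟩
      exact ⟨⟨h1, h2⟩, h3⟩
  have hcard : (s.sigma fun θ => Finset.range (M θ)).card = nH k M c := by
    rw [Finset.card_sigma]
    unfold nH
    rw [tsum_eq _ M s hmem]
    simp
  set E := (s.sigma fun θ => Finset.range (M θ)).equivFinOfCardEq hcard with hE
  refine ⟨fun n => ((E.symm n).1.1, (E.symm n).1.2), ?_, ?_⟩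
  · intro n n' h
    simp only [Prod.mk.injEq] at h
    apply E.symm.injective
    apply Subtype.ext
    exact Sigma.ext h.1 (heq_of_eq h.2)
  · intro p
    constructor
    · rintro ⟨n, rfl⟩
      have h1 := (E.symm n).2
      rw [Finset.mem_sigma, hmem, Finset.mem_range] at h1
      exact ⟨h1.1.1.1, h1.1.1.2, h1.2⟩
    · rintro ⟨h1, h2, h3⟩
      have h4 : (⟨p.1, p.2⟩ : Σ _ : FMark q H, ℕ) ∈ s.sigma fun θ => Finset.range (M θ) := by
        rw [Finset.mem_sigma, hmem, Finset.mem_range]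
        exact ⟨⟨⟨h1, h2⟩, by show M p.1 ≠ 0; omega⟩, h3⟩
      refine ⟨E ⟨_, h4⟩, ?_⟩
      simp

lemma nR_ne_zero (k : Fin (H + 1)) (M : Conf q H)
    (hfin : ∀ c : Site, {θ : FMark q H | θ.1.c k = c ∧ M θ ≠ 0}.Finite) (c : Site) (v : Pos q) :
    nR k M c v ≠ 0 ↔ ∃ θ0 : FMark q H, M θ0 ≠ 0 ∧ θ0.1.c k = c ∧ ¬ θ0.1.hid k ∧ θ0.1.r k = v := by
  classical
  set s : Finset (FMark q H) := (hfin c).toFinset.filter (fun θ => ¬ θ.1.hid k ∧ θ.1.r k = v) with hs
  have hmem : ∀ θ, θ ∈ s ↔ (θ.1.c k = c ∧ ¬ θ.1.hid k ∧ θ.1.r k = v) ∧ M θ ≠ 0 := by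
    intro θ
    rw [hs, Finset.mem_filter, Set.Finite.mem_toFinset]
    constructor
    · rintro ⟨⟨h1, h2⟩, h3⟩
      exact ⟨⟨h1, h3⟩, h2⟩
    · rintro ⟨⟨h1, h3⟩, h2⟩
      exact ⟨⟨h1, h2⟩, h3⟩
  unfold nR
  rw [tsum_eq _ M s hmem]
  constructor
  · intro h
    obtain ⟨θ, hθ, hne⟩ := Finset.exists_ne_zero_of_sum_ne_zero h
    have h1 := (hmem θ).1 hθ
    exact ⟨θ, h1.2, h1.1.1, h1.1.2.1, h1.1.2.2⟩
  · rintro ⟨θ, h1, h2, h3, h4⟩ h0
    have h5 := Finset.sum_eq_zero_iff.1 h0 θ ((hmem θ).2 ⟨⟨h2, h3, h4⟩, h1⟩)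
    exact h1 h5

end TRF2

open B35 TRF TRF2 in
theorem stmt_TRF2 : B35.Stmt_TRF2 := by
  classical
  intro q H _ a δ Λ L lam e k hk Λ0
  filter_upwards [ae_good L lam e k] with M hM F _
  obtain ⟨hM1, hM2⟩ := hM
  choose J hJinj hJ using exists_numbering k M hM2
  set n : Λ0 → ℕ := fun c => nH k M c.1 with hn
  set JJ : (Σ c : Λ0, Fin (n c)) → FMark q H × ℕ := fun t => J t.1.1 t.2 with hJJ
  have hJJinj : Function.Injective JJ := by
    rintro ⟨c, i⟩ ⟨c', i'⟩ h
    have h1 : (J c.1 i).1.1.c k = c.1 := ((hJ c.1 (J c.1 i)).1 ⟨i, rfl⟩).1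
    have h2 : (J c'.1 i').1.1.c k = c'.1 := ((hJ c'.1 (J c'.1 i')).1 ⟨i', rfl⟩).1
    have h3 : J c.1 i = J c'.1 i' := h
    have hcc : c = c' := by
      apply Subtype.ext
      rw [← h1, h3, h2]
    subst hcc
    rw [hJinj c.1 h3]
  set G : ((Σ c : Λ0, Fin (n c)) → Pos q) → Λ0 → Finset (Pos q) := fun x c =>
    (Finset.univ.image fun i : Fin (n c) => x ⟨c, i⟩) ∪
      Finset.univ.filter fun v => nR k M c.1 v ≠ 0 with hG
  have hL : ∀ U : HV q H, (fun c : Λ0 => posIn q (et (asmE e M U) k) c.1) =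
      G (fun t => U k (JJ t)) := by
    intro U
    funext c
    ext u
    rw [mem_posIn e k hk M hM1 U c.1 u]
    simp only [hG, Finset.mem_union, Finset.mem_image, Finset.mem_univ, true_and,
      Finset.mem_filter]
    rw [nR_ne_zero k M hM2 c.1 u]
    refine or_congr ?_ Iff.rfl
    constructor
    · rintro ⟨θ0, i, hi, hc, hh, hU⟩
      obtain ⟨i', hi'⟩ := (hJ c.1 (θ0, i)).2 ⟨hc, hh, hi⟩
      refine ⟨i', ?_⟩
      show U k (J c.1 i') = u
      rw [hi', hU]
    · rintro ⟨i', hi'⟩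
      have h1 := (hJ c.1 (J c.1 i')).1 ⟨i', rfl⟩
      exact ⟨(J c.1 i').1, (J c.1 i').2, h1.2.2, h1.1, h1.2.1, hi'⟩
  have hR : ∀ V : Λ0 → ℕ → Pos q,
      (fun c : Λ0 => OO (nH k M c.1, fun v => nR k M c.1 v) (V c)) =
      G (fun t => V t.1 (t.2 : ℕ)) := by
    intro V
    funext c
    ext u
    simp only [hG, OO, Finset.mem_union, Finset.mem_image, Finset.mem_univ, true_and,
      Finset.mem_filter, Finset.mem_range]
    refine or_congr ?_ Iff.rfl
    constructor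
    · rintro ⟨i, hi, hu⟩
      exact ⟨⟨i, hi⟩, hu⟩
    · rintro ⟨i, hu⟩
      exact ⟨i, i.2, hu⟩
  have hmeasF : Measurable (fun x : (Σ c : Λ0, Fin (n c)) → Pos q => F (G x)) :=
    measurable_of_finite _
  have hm1 : Measurable (fun (U : HV q H) (t : Σ c : Λ0, Fin (n c)) => U k (JJ t)) :=
    measurable_pi_iff.2 fun t => (measurable_pi_apply (JJ t)).comp (measurable_pi_apply k)
  have hm2 : Measurable (fun (V : Λ0 → ℕ → Pos q) (t : Σ c : Λ0, Fin (n c)) => V t.1 (t.2 : ℕ)) :=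
    measurable_pi_iff.2 fun t => (measurable_pi_apply (t.2 : ℕ)).comp (measurable_pi_apply t.1)
  calc ∫ U, F (fun c => posIn q (et (asmE e M U) k) c.1) ∂(hm q H)
      = ∫ U, (fun x => F (G x)) (fun t => U k (JJ t)) ∂(hm q H) := by
        refine integral_congr_ae (Filter.Eventually.of_forall fun U => ?_)
        simp only [hL U]
    _ = ∫ x, F (G x) ∂(Measure.pi (fun _ : (Σ c : Λ0, Fin (n c)) => unif q)) := by
        rw [← law_left k JJ hJJinj, integral_map hm1.aemeasurable hmeasF.aestronglyMeasurable]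
    _ = ∫ V : Λ0 → ℕ → Pos q, (fun x => F (G x)) (fun t => V t.1 (t.2 : ℕ))
          ∂(Measure.pi fun _ => Measure.infinitePi fun _ => unif q) := by
        rw [← law_right Λ0 n, integral_map hm2.aemeasurable hmeasF.aestronglyMeasurable]
    _ = ∫ V : Λ0 → ℕ → Pos q, F (fun c => OO (nH k M c.1, fun v => nR k M c.1 v) (V c))
        ∂(Measure.pi fun _ => Measure.infinitePi fun _ => unif q) := by
        refine integral_congr_ae (Filter.Eventually.of_forall fun V => ?_)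
        simp only [hR V]

end MPdd5692
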