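import Pool.Agent.Work.MP_dd5692_pr.VFin
import Pool.Agent.Work.MP_dd5692_pr.STOP8
import Pool.Agent.Work.MP_dd5692_pr.BLOB8
import Pool.Agent.Work.MP_dd5692_pr.BLOBC
import Pool.Agent.Work.MP_dd5692_pr.REV8
import Pool.Agent.Work.MP_dd5692_pr.REV4
import Pool.Agent.Work.MP_dd5692_pr.TRF1
import Pool.Agent.Work.MP_dd5692_pr.TRF2
import Pool.Agent.Work.MP_dd5692_pr.PTAIL
import Pool.Agent.Work.MP_dd5692_pr.PCELL
import Pool.Agent.Work.MP_dd5692_pr.SPLIT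
import Pool.Agent.Work.MP_dd5692_pr.STATIC
import Pool.Agent.Work.MP_dd5692_pr.VOID
import Pool.Agent.Work.MP_dd5692_pr.MIX
import Pool.Agent.Work.MP_dd5692_pr.MassTools2

/-!
# MP_dd5692_pr, part (B'): VRING and VARM without hypotheses (helper35)
-/

namespace MPdd5692.B35

theorem stmt_VRING : Stmt_VRING :=
  vring_of stmt_PTAIL stmt_STOP8 stmt_BLOB8 stmt_REV8 stmt_TRF1 stmt_TRF2 stmt_SPLIT
    (stmt_STATIC stmt_VOID) stmt_MIX stmt_PCELL stmt_BLOBC (fun q H => MT.cntF q H)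

theorem stmt_VARM : Stmt_VARM :=
  varm_of stmt_PTAIL stmt_STOP4 stmt_BLOB4 stmt_REV4 stmt_TRF1 stmt_TRF2 stmt_SPLIT
    (stmt_STATIC stmt_VOID) stmt_PCELL stmt_BLOBC

end MPdd5692.B35
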