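import Mathlib
import Pool.Agent.Work.MP_dd5692_pr.InterfaceC
import Pool.Agent.Work.MP_dd5692_pr.MassTools2

/-!
# MP_dd5692_pr: block WILD (helper88)
-/

open MeasureTheory ProbabilityTheory Set
open scoped ENNReal NNReal BigOperators

namespace MPdd5692

theorem stmt_WILD (h1 : Stmt_VOID) : Stmt_WILD := by
  intro I Λ N C ε hε
  set Lp : ℝ := max 1 |Λ| with hLp
  set θ : ℝ := 1 / (400 * (C + 1)) with hθ
  have hθ0 : 0 < θ := by rw [hθ]; positivity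
  set K0 : ℝ≥0∞ := ENNReal.ofReal I * ((N + 1 : ℕ) * (Cth θ * ENNReal.ofReal Lp ^ N)) with hK0
  have hK0t : K0 ≠ ∞ := by
    rw [hK0]
    exact ENNReal.mul_ne_top ENNReal.ofReal_ne_top (ENNReal.mul_ne_top (ENNReal.natCast_ne_top _)
      (ENNReal.mul_ne_top (Cth_ne_top hθ0) (ENNReal.pow_ne_top ENNReal.ofReal_ne_top)))
  set κ : ℝ := K0.toReal with hκ
  have hκ0 : 0 ≤ κ := ENNReal.toReal_nonneg
  set Q : ℝ := (Nat.factorial 11 : ℝ) * 400 ^ 11 with hQ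
  have hQ0 : 0 < Q := by rw [hQ]; positivity
  refine ⟨⌈κ * Q / ε⌉₊ + 1, ?_⟩
  intro R hR q H _ a δ L lam hI k1 k2 z h12 h2H hN
  have ha : 0 ≤ a := L.a_nonneg
  have hR1 : (1 : ℝ) ≤ R := by
    have : 1 ≤ R := by omega
    exact_mod_cast this
  have hRp : (0 : ℝ) < R := by linarith
  have hRQ : κ * Q / ε ≤ R := by
    have h := Nat.le_ceil (κ * Q / ε)
    have h' : (⌈κ * Q / ε⌉₊ : ℝ) + 1 ≤ R := by exact_mod_cast hR
    linarith
  set Ac : Set (CMark q H) := {ξ | R < 100 * ξ.tot k1 k2 ∧ ∃ k : ℕ, k1 ≤ k ∧ k ≤ k2 ∧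
    ∃ h : k < H + 1, nrm (ξ.c ⟨k, h⟩ - z) ≤ C * R + ξ.tot k1 k2} with hAc
  have hset : {ω : Conf q H | ∃ θ : FMark q H, ω θ ≠ 0 ∧ R < 100 * θ.1.tot k1 k2 ∧
      ∃ k : ℕ, k1 ≤ k ∧ k ≤ k2 ∧ ∃ h : k < H + 1,
        nrm (θ.1.c ⟨k, h⟩ - z) ≤ C * R + θ.1.tot k1 k2} = {ω | ∃ θ, ω θ ≠ 0 ∧ θ.1 ∈ Ac} := rfl
  rw [hset]
  have hB : κ * Real.exp (-R / 400) ≤ ε / (R : ℝ) ^ 10 := by
    have e1 : ((R : ℝ) / 400) ^ 11 / (Nat.factorial 11 : ℝ) ≤ Real.exp (R / 400) :=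
      Real.pow_div_factorial_le_exp _ (by positivity) 11
    have e2 : Real.exp (-(R : ℝ) / 400) * Real.exp (R / 400) = 1 := by
      rw [← Real.exp_add, show -(R : ℝ) / 400 + R / 400 = 0 by ring, Real.exp_zero]
    have e3 : Real.exp (-(R : ℝ) / 400) * (((R : ℝ) / 400) ^ 11 / (Nat.factorial 11 : ℝ)) ≤ 1 := by
      rw [← e2]
      exact mul_le_mul_of_nonneg_left e1 (Real.exp_pos _).le
    have e4 : ((R : ℝ) / 400) ^ 11 / (Nat.factorial 11 : ℝ) = R ^ 11 / Q := by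
      rw [hQ, div_pow, div_div, mul_comm (400 ^ 11 : ℝ)]
    rw [e4] at e3
    have e5 : Real.exp (-(R : ℝ) / 400) ≤ Q / R ^ 11 := by
      rw [le_div_iff₀ (by positivity)]
      rw [mul_div_assoc', div_le_iff₀ hQ0, one_mul] at e3
      exact e3
    have e6 : κ * Q ≤ ε * R := by
      rw [div_le_iff₀ hε] at hRQ
      linarith
    calc κ * Real.exp (-R / 400) ≤ κ * (Q / R ^ 11) := mul_le_mul_of_nonneg_left e5 hκ0
      _ = κ * Q / R ^ 11 := by ring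
      _ ≤ ε * R / R ^ 11 := by gcongr
      _ = ε / (R : ℝ) ^ 10 := by
          field_simp
  refine le_trans ?_ hB
  refine (MT.void_le h1 L lam Ac _ (by positivity) ?_).2.1
  rw [ENNReal.ofReal_mul hκ0, hκ, ENNReal.ofReal_toReal hK0t]
  set w : Site → ℝ≥0∞ := fun c => eexp (-R / 400) * eexp (-θ * (nrm (c - z) : ℝ)) with hw
  have hwsum : ∑' c, w c = eexp (-R / 400) * Cth θ := by
    rw [hw, ENNReal.tsum_mul_left, tsum_shift]
  have hθC : θ * (C * R) ≤ R / 400 := by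
    rw [hθ, div_mul_eq_mul_div, one_mul, div_le_div_iff₀ (by positivity) (by norm_num)]
    nlinarith [Nat.cast_nonneg (α := ℝ) C]
  have hθ1 : θ ≤ 1 / 400 := by
    rw [hθ]
    apply one_div_le_one_div_of_le (by norm_num)
    nlinarith [Nat.cast_nonneg (α := ℝ) C]
  have hpt : ∀ ξ : CMark q H, Ac.indicator 1 ξ ≤ ∑' k : Fin (H + 1),
      (if (k1 ≤ (k : ℕ) ∧ (k : ℕ) ≤ k2) then
        w (ξ.c k) * eexp (ξ.tot k1 k2) else 0) := by
    intro ξ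
    by_cases hξ : ξ ∈ Ac
    · rw [indicator_of_mem hξ, Pi.one_apply]
      obtain ⟨hw1, k, hk1, hk2, hkH, h3⟩ := hξ
      refine le_trans ?_ (ENNReal.le_tsum ⟨k, hkH⟩)
      rw [if_pos ⟨hk1, hk2⟩]
      simp only [hw]
      rw [← eexp_add, ← eexp_add]
      apply one_le_eexp
      have h5 : (nrm (ξ.c ⟨k, hkH⟩ - z) : ℝ) ≤ C * R + ξ.tot k1 k2 := by exact_mod_cast h3
      have h6 : (R : ℝ) ≤ 100 * ξ.tot k1 k2 := by exact_mod_cast hw1.le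
      have h7 : θ * (nrm (ξ.c ⟨k, hkH⟩ - z) : ℝ) ≤ θ * (C * R + ξ.tot k1 k2) :=
        mul_le_mul_of_nonneg_left h5 hθ0.le
      have h8 : (0 : ℝ) ≤ ξ.tot k1 k2 := Nat.cast_nonneg _
      have h9 : θ * (ξ.tot k1 k2 : ℝ) ≤ 1 / 400 * ξ.tot k1 k2 := mul_le_mul_of_nonneg_right hθ1 h8
      have h10 : -θ * (nrm (ξ.c ⟨k, hkH⟩ - z) : ℝ) = -(θ * (nrm (ξ.c ⟨k, hkH⟩ - z) : ℝ)) := by ring
      rw [h10]
      linarith
    · rw [indicator_of_notMem hξ]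
      exact zero_le
  have hone : ∀ k : Fin (H + 1), ∑' ξ : CMark q H, (L.m ξ : ℝ≥0∞) *
      (if (k1 ≤ (k : ℕ) ∧ (k : ℕ) ≤ k2) then
        w (ξ.c k) * eexp (ξ.tot k1 k2) else 0) ≤
      if (k1 ≤ (k : ℕ) ∧ (k : ℕ) ≤ k2) then
        (eexp (-R / 400) * Cth θ) * (ENNReal.ofReal (a * q ^ 2) * ENNReal.ofReal Lp ^ N) else 0 := by
    intro k
    by_cases hc : (k1 ≤ (k : ℕ) ∧ (k : ℕ) ≤ k2)
    · simp only [if_pos hc]
      have h2 := L.sum_bound ha k k1 k2 N h12 h2H (by omega) w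
      rw [hwsum] at h2
      exact h2
    · simp only [if_neg hc, mul_zero, tsum_zero]
      exact le_rfl
  have hcard : (Finset.univ.filter fun k : Fin (H + 1) => k1 ≤ (k : ℕ) ∧ (k : ℕ) ≤ k2).card
      ≤ N + 1 := by
    have : (Finset.univ.filter fun k : Fin (H + 1) => k1 ≤ (k : ℕ) ∧ (k : ℕ) ≤ k2).card ≤
        (Finset.Icc k1 k2).card := by
      refine Finset.card_le_card_of_injOn (fun k => (k : ℕ)) ?_ ?_
      · intro k hk
        have hk := (Finset.mem_filter.1 hk).2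
        simp only [Finset.coe_Icc, mem_Icc]
        omega
      · intro k _ l _ h
        exact Fin.ext h
    refine this.trans ?_
    rw [Nat.card_Icc]
    omega
  calc (lam : ℝ≥0∞) * ∑' ξ : CMark q H, (L.m ξ : ℝ≥0∞) * Ac.indicator 1 ξ
      ≤ (lam : ℝ≥0∞) * ∑' ξ : CMark q H, (L.m ξ : ℝ≥0∞) * ∑' k : Fin (H + 1),
      (if (k1 ≤ (k : ℕ) ∧ (k : ℕ) ≤ k2) then
        w (ξ.c k) * eexp (ξ.tot k1 k2) else 0) :=
        mul_le_mul' le_rfl (ENNReal.tsum_le_tsum fun ξ => mul_le_mul' le_rfl (hpt ξ))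
    _ = (lam : ℝ≥0∞) * ∑' k : Fin (H + 1), ∑' ξ : CMark q H, (L.m ξ : ℝ≥0∞) *
      (if (k1 ≤ (k : ℕ) ∧ (k : ℕ) ≤ k2) then
        w (ξ.c k) * eexp (ξ.tot k1 k2) else 0) := by
        simp_rw [← ENNReal.tsum_mul_left]
        rw [ENNReal.tsum_comm]
    _ ≤ (lam : ℝ≥0∞) * ∑' k : Fin (H + 1), (if (k1 ≤ (k : ℕ) ∧ (k : ℕ) ≤ k2) then
        (eexp (-R / 400) * Cth θ) * (ENNReal.ofReal (a * q ^ 2) * ENNReal.ofReal Lp ^ N) else 0) :=
        mul_le_mul' le_rfl (ENNReal.tsum_le_tsum hone)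
    _ ≤ (lam : ℝ≥0∞) * ((N + 1 : ℕ) * ((eexp (-R / 400) * Cth θ) * (ENNReal.ofReal (a * q ^ 2) *
        ENNReal.ofReal Lp ^ N))) := by
        rw [tsum_fintype, ← Finset.sum_filter, Finset.sum_const, nsmul_eq_mul]
        refine mul_le_mul' le_rfl (mul_le_mul' ?_ le_rfl)
        exact_mod_cast hcard
    _ = ENNReal.ofReal ((lam : ℝ) * (a * q ^ 2)) * ((N + 1 : ℕ) * (Cth θ * ENNReal.ofReal Lp ^ N)) *
        eexp (-R / 400) := by
        rw [ENNReal.ofReal_mul (NNReal.coe_nonneg _), ENNReal.ofReal_coe_nnreal]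
        ring
    _ ≤ K0 * ENNReal.ofReal (Real.exp (-R / 400)) := by
        rw [hK0]
        exact mul_le_mul' (mul_le_mul' (ENNReal.ofReal_le_ofReal hI) le_rfl) le_rfl

end MPdd5692
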