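import Mathlib
import Pool.Agent.Work.MP_dd5692_pr.A.All
import Pool.Agent.Work.MP_dd5692_pr.ARMDEC
import Pool.Agent.Work.MP_dd5692_pr.BLOCK
import Pool.Agent.Work.MP_dd5692_pr.BRIDGE
import Pool.Agent.Work.MP_dd5692_pr.C1
import Pool.Agent.Work.MP_dd5692_pr.CHAIN
import Pool.Agent.Work.MP_dd5692_pr.CHERN
import Pool.Agent.Work.MP_dd5692_pr.CIND
import Pool.Agent.Work.MP_dd5692_pr.CIRC
import Pool.Agent.Work.MP_dd5692_pr.CORE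
import Pool.Agent.Work.MP_dd5692_pr.DEC
import Pool.Agent.Work.MP_dd5692_pr.DECOUP
import Pool.Agent.Work.MP_dd5692_pr.DEPG
import Pool.Agent.Work.MP_dd5692_pr.EBad
import Pool.Agent.Work.MP_dd5692_pr.FFP
import Pool.Agent.Work.MP_dd5692_pr.GBETA
import Pool.Agent.Work.MP_dd5692_pr.GCH
import Pool.Agent.Work.MP_dd5692_pr.GHID
import Pool.Agent.Work.MP_dd5692_pr.GKER
import Pool.Agent.Work.MP_dd5692_pr.GOODP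
import Pool.Agent.Work.MP_dd5692_pr.GPROJ
import Pool.Agent.Work.MP_dd5692_pr.GSIDX
import Pool.Agent.Work.MP_dd5692_pr.GSTAT
import Pool.Agent.Work.MP_dd5692_pr.GSUM
import Pool.Agent.Work.MP_dd5692_pr.GTR
import Pool.Agent.Work.MP_dd5692_pr.HARRIS
import Pool.Agent.Work.MP_dd5692_pr.HARRISN
import Pool.Agent.Work.MP_dd5692_pr.HATP
import Pool.Agent.Work.MP_dd5692_pr.HOLEP
import Pool.Agent.Work.MP_dd5692_pr.HOP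
import Pool.Agent.Work.MP_dd5692_pr.INDEP
import Pool.Agent.Work.MP_dd5692_pr.INFLMASS
import Pool.Agent.Work.MP_dd5692_pr.LAM0
import Pool.Agent.Work.MP_dd5692_pr.LINK
import Pool.Agent.Work.MP_dd5692_pr.LIP
import Pool.Agent.Work.MP_dd5692_pr.LIPPERC
import Pool.Agent.Work.MP_dd5692_pr.LOC
import Pool.Agent.Work.MP_dd5692_pr.MARKREF
import Pool.Agent.Work.MP_dd5692_pr.MEAS
import Pool.Agent.Work.MP_dd5692_pr.MEASE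
import Pool.Agent.Work.MP_dd5692_pr.MIX
import Pool.Agent.Work.MP_dd5692_pr.MONO
import Pool.Agent.Work.MP_dd5692_pr.NICEP
import Pool.Agent.Work.MP_dd5692_pr.NNP
import Pool.Agent.Work.MP_dd5692_pr.NOFOLLOW
import Pool.Agent.Work.MP_dd5692_pr.OCC0P
import Pool.Agent.Work.MP_dd5692_pr.PSI
import Pool.Agent.Work.MP_dd5692_pr.QM
import Pool.Agent.Work.MP_dd5692_pr.RDET
import Pool.Agent.Work.MP_dd5692_pr.REACH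
import Pool.Agent.Work.MP_dd5692_pr.REC
import Pool.Agent.Work.MP_dd5692_pr.RLOW
import Pool.Agent.Work.MP_dd5692_pr.RSUM
import Pool.Agent.Work.MP_dd5692_pr.RUP1
import Pool.Agent.Work.MP_dd5692_pr.RUP2
import Pool.Agent.Work.MP_dd5692_pr.SPLIT
import Pool.Agent.Work.MP_dd5692_pr.START
import Pool.Agent.Work.MP_dd5692_pr.STATIC
import Pool.Agent.Work.MP_dd5692_pr.SURVD
import Pool.Agent.Work.MP_dd5692_pr.TAMEI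
import Pool.Agent.Work.MP_dd5692_pr.TRANS
import Pool.Agent.Work.MP_dd5692_pr.VDone
import Pool.Agent.Work.MP_dd5692_pr.VOID
import Pool.Agent.Work.MP_dd5692_pr.WILD
import Pool.Agent.Work.MP_dd5692_pr.WLOW

/-!
# MP_dd5692_pr, d = 2: composition of all the blocks (helper14)
-/

namespace MPdd5692

/-- Parts (A), (B), (C), (D) together: the discrete core of the theorem. -/
theorem core_all : Core := by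
  have f_MPdd5692_Stmt_A : MPdd5692.Stmt_A := MPdd5692.stmt_A 
  have f_MPdd5692_Stmt_GSIDX : MPdd5692.Stmt_GSIDX := MPdd5692.stmt_GSIDX 
  have f_MPdd5692_Stmt_GKER : MPdd5692.Stmt_GKER := MPdd5692.stmt_GKER f_MPdd5692_Stmt_GSIDX
  have f_MPdd5692_Stmt_GBETA : MPdd5692.Stmt_GBETA := MPdd5692.stmt_GBETA 
  have f_MPdd5692_Stmt_GCH : MPdd5692.Stmt_GCH := MPdd5692.stmt_GCH 
  have f_MPdd5692_Stmt_GSUM : MPdd5692.Stmt_GSUM := MPdd5692.stmt_GSUM f_MPdd5692_Stmt_GSIDX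
  have f_MPdd5692_Stmt_GHID : MPdd5692.Stmt_GHID := MPdd5692.stmt_GHID f_MPdd5692_Stmt_GSIDX
  have f_MPdd5692_Stmt_GPROJ : MPdd5692.Stmt_GPROJ := MPdd5692.stmt_GPROJ f_MPdd5692_Stmt_GSIDX f_MPdd5692_Stmt_GHID
  have f_MPdd5692_Stmt_GSTAT : MPdd5692.Stmt_GSTAT := MPdd5692.stmt_GSTAT f_MPdd5692_Stmt_GKER f_MPdd5692_Stmt_GCH
  have f_MPdd5692_Stmt_GTR : MPdd5692.Stmt_GTR := MPdd5692.stmt_GTR f_MPdd5692_Stmt_GSIDX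
  have f_MPdd5692_Stmt_MARKREF : MPdd5692.Stmt_MARKREF := MPdd5692.stmt_MARKREF f_MPdd5692_Stmt_GSIDX f_MPdd5692_Stmt_GKER f_MPdd5692_Stmt_GBETA f_MPdd5692_Stmt_GCH f_MPdd5692_Stmt_GSUM f_MPdd5692_Stmt_GHID f_MPdd5692_Stmt_GPROJ f_MPdd5692_Stmt_GSTAT f_MPdd5692_Stmt_GTR
  have f_MPdd5692_Stmt_HARRISN : MPdd5692.Stmt_HARRISN := MPdd5692.stmt_HARRISN 
  have f_MPdd5692_Stmt_MEAS : MPdd5692.Stmt_MEAS := MPdd5692.stmt_MEAS 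
  have f_MPdd5692_Stmt_VOID : MPdd5692.Stmt_VOID := MPdd5692.stmt_VOID 
  have f_MPdd5692_Stmt_STATIC : MPdd5692.Stmt_STATIC := MPdd5692.stmt_STATIC f_MPdd5692_Stmt_VOID
  have f_MPdd5692_Stmt_EB4 : MPdd5692.Stmt_EB4 := MPdd5692.stmt_EB4 
  have f_MPdd5692_Stmt_CIRC : MPdd5692.Stmt_CIRC := MPdd5692.stmt_CIRC f_MPdd5692_Stmt_EB4
  have f_MPdd5692_Stmt_RDET : MPdd5692.Stmt_RDET := MPdd5692.stmt_RDET f_MPdd5692_Stmt_CIRC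
  have f_MPdd5692_Stmt_TRANS : MPdd5692.Stmt_TRANS := MPdd5692.stmt_TRANS 
  have f_MPdd5692_Stmt_RLOW : MPdd5692.Stmt_RLOW := MPdd5692.stmt_RLOW f_MPdd5692_Stmt_HARRISN f_MPdd5692_Stmt_MEAS f_MPdd5692_Stmt_STATIC f_MPdd5692_Stmt_TRANS
  have f_MPdd5692_Stmt_QM : MPdd5692.Stmt_QM := MPdd5692.stmt_QM f_MPdd5692_Stmt_HARRISN f_MPdd5692_Stmt_CIRC
  have f_MPdd5692_Stmt_WILD : MPdd5692.Stmt_WILD := MPdd5692.stmt_WILD f_MPdd5692_Stmt_VOID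
  have f_MPdd5692_Stmt_INDEP : MPdd5692.Stmt_INDEP := MPdd5692.stmt_INDEP 
  have f_MPdd5692_Stmt_TAMEI : MPdd5692.Stmt_TAMEI := MPdd5692.stmt_TAMEI f_MPdd5692_Stmt_INDEP
  have f_MPdd5692_Stmt_RUP1 : MPdd5692.Stmt_RUP1 := MPdd5692.stmt_RUP1 f_MPdd5692_Stmt_QM f_MPdd5692_Stmt_WILD f_MPdd5692_Stmt_TAMEI f_MPdd5692_Stmt_STATIC f_MPdd5692_Stmt_TRANS f_MPdd5692_Stmt_MEAS
  have f_MPdd5692_Stmt_RUP2 : MPdd5692.Stmt_RUP2 := MPdd5692.stmt_RUP2 f_MPdd5692_Stmt_QM f_MPdd5692_Stmt_WILD f_MPdd5692_Stmt_TAMEI f_MPdd5692_Stmt_STATIC f_MPdd5692_Stmt_TRANS f_MPdd5692_Stmt_MEAS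
  have f_MPdd5692_Stmt_RSUM : MPdd5692.Stmt_RSUM := MPdd5692.stmt_RSUM 
  have f_MPdd5692_Stmt_REC : MPdd5692.Stmt_REC := MPdd5692.stmt_REC f_MPdd5692_Stmt_HARRISN f_MPdd5692_Stmt_MEAS f_MPdd5692_Stmt_STATIC f_MPdd5692_Stmt_RDET f_MPdd5692_Stmt_RLOW f_MPdd5692_Stmt_RUP1 f_MPdd5692_Stmt_RUP2 f_MPdd5692_Stmt_RSUM
  have f_MPdd5692_Stmt_HOLEP : MPdd5692.Stmt_HOLEP := MPdd5692.stmt_HOLEP f_MPdd5692_Stmt_VOID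
  have f_MPdd5692_Stmt_LAM0 : MPdd5692.Stmt_LAM0 := MPdd5692.stmt_LAM0 f_MPdd5692_Stmt_HARRISN f_MPdd5692_Stmt_MEAS f_MPdd5692_Stmt_STATIC f_MPdd5692_Stmt_HOLEP f_MPdd5692_Stmt_TRANS
  have f_MPdd5692_Stmt_C1 : MPdd5692.Stmt_C1 := MPdd5692.stmt_C1 f_MPdd5692_Stmt_REC f_MPdd5692_Stmt_LAM0
  have f_MPdd5692_Stmt_MEASE : MPdd5692.Stmt_MEASE := MPdd5692.stmt_MEASE f_MPdd5692_Stmt_MEAS
  have f_MPdd5692_Stmt_HATP : MPdd5692.Stmt_HATP := MPdd5692.stmt_HATP f_MPdd5692_Stmt_HARRISN f_MPdd5692_Stmt_MEAS f_MPdd5692_Stmt_STATIC f_MPdd5692_Stmt_TRANS f_MPdd5692_Stmt_MEASE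
  have f_MPdd5692_Stmt_SPLIT : MPdd5692.Stmt_SPLIT := MPdd5692.stmt_SPLIT 
  have f_MPdd5692_Stmt_MIX : MPdd5692.Stmt_MIX := MPdd5692.stmt_MIX 
  have f_MPdd5692_Stmt_NICEP : MPdd5692.Stmt_NICEP := MPdd5692.stmt_NICEP f_MPdd5692_Stmt_HARRISN f_MPdd5692_Stmt_MEAS f_MPdd5692_Stmt_STATIC f_MPdd5692_Stmt_SPLIT f_MPdd5692_Stmt_MIX f_MPdd5692_Stmt_MEASE f_MPdd5692_Stmt_TRANS
  have f_MPdd5692_Stmt_NNP : MPdd5692.Stmt_NNP := MPdd5692.stmt_NNP f_MPdd5692_Stmt_WILD f_MPdd5692_Stmt_TAMEI f_MPdd5692_Stmt_MEASE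
  have f_MPdd5692_Stmt_WLOW : MPdd5692.Stmt_WLOW := MPdd5692.stmt_WLOW f_MPdd5692_Stmt_HARRISN f_MPdd5692_Stmt_STATIC f_MPdd5692_Stmt_MEAS
  have f_MPdd5692_Stmt_HARRIS : MPdd5692.Stmt_HARRIS := MPdd5692.stmt_HARRIS 
  have f_MPdd5692_Stmt_CIND : MPdd5692.Stmt_CIND := MPdd5692.stmt_CIND 
  have f_MPdd5692_Stmt_PSI : MPdd5692.Stmt_PSI := MPdd5692.stmt_PSI f_MPdd5692_Stmt_HARRIS f_MPdd5692_Stmt_MIX f_MPdd5692_Stmt_SPLIT f_MPdd5692_Stmt_STATIC f_MPdd5692_Stmt_MEASE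
  have f_MPdd5692_Stmt_FFP : MPdd5692.Stmt_FFP := MPdd5692.stmt_FFP f_MPdd5692_Stmt_HARRIS f_MPdd5692_Stmt_SPLIT f_MPdd5692_Stmt_CIND f_MPdd5692_Stmt_PSI f_MPdd5692_Stmt_MEASE f_MPdd5692_Stmt_WLOW
  have f_MPdd5692_Stmt_GOODP : MPdd5692.Stmt_GOODP := MPdd5692.stmt_GOODP f_MPdd5692_Stmt_WILD f_MPdd5692_Stmt_MEASE f_MPdd5692_Stmt_FFP
  have f_MPdd5692_Stmt_OCC0P : MPdd5692.Stmt_OCC0P := MPdd5692.stmt_OCC0P f_MPdd5692_Stmt_HARRIS f_MPdd5692_Stmt_MEASE f_MPdd5692_Stmt_WLOW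
  have f_MPdd5692_B35_Stmt_VARM : MPdd5692.B35.Stmt_VARM := MPdd5692.B35.stmt_VARM 
  have f_MPdd5692_Stmt_ARMDEC : MPdd5692.Stmt_ARMDEC := MPdd5692.stmt_ARMDEC f_MPdd5692_B35_Stmt_VARM f_MPdd5692_Stmt_SPLIT f_MPdd5692_Stmt_STATIC f_MPdd5692_Stmt_MEAS
  have f_MPdd5692_B35_Stmt_VRING : MPdd5692.B35.Stmt_VRING := MPdd5692.B35.stmt_VRING 
  have f_MPdd5692_Stmt_DEC : MPdd5692.Stmt_DEC := MPdd5692.stmt_DEC f_MPdd5692_B35_Stmt_VRING f_MPdd5692_Stmt_SPLIT f_MPdd5692_Stmt_MEAS f_MPdd5692_Stmt_WLOW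
  have f_MPdd5692_Stmt_BLOCK : MPdd5692.Stmt_BLOCK := MPdd5692.stmt_BLOCK f_MPdd5692_Stmt_C1 f_MPdd5692_Stmt_HATP f_MPdd5692_Stmt_NICEP f_MPdd5692_Stmt_NNP f_MPdd5692_Stmt_WLOW f_MPdd5692_Stmt_GOODP f_MPdd5692_Stmt_OCC0P f_MPdd5692_Stmt_ARMDEC f_MPdd5692_Stmt_DEC
  have f_MPdd5692_Stmt_CHERN : MPdd5692.Stmt_CHERN := MPdd5692.stmt_CHERN 
  have f_MPdd5692_Stmt_NOFOLLOW : MPdd5692.Stmt_NOFOLLOW := MPdd5692.stmt_NOFOLLOW 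
  have f_MPdd5692_Stmt_DECOUP : MPdd5692.Stmt_DECOUP := MPdd5692.stmt_DECOUP f_MPdd5692_Stmt_INDEP f_MPdd5692_Stmt_CHERN f_MPdd5692_Stmt_NOFOLLOW
  have f_MPdd5692_Stmt_LIPPERC : MPdd5692.Stmt_LIPPERC := MPdd5692.stmt_LIPPERC 
  have f_MPdd5692_Stmt_LOC : MPdd5692.Stmt_LOC := MPdd5692.stmt_LOC 
  have f_MPdd5692_Stmt_LINK : MPdd5692.Stmt_LINK := MPdd5692.stmt_LINK f_MPdd5692_Stmt_CIRC f_MPdd5692_Stmt_EB4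
  have f_MPdd5692_Stmt_CHAIN : MPdd5692.Stmt_CHAIN := MPdd5692.stmt_CHAIN f_MPdd5692_Stmt_CIRC f_MPdd5692_Stmt_LINK
  have f_MPdd5692_Stmt_HOP : MPdd5692.Stmt_HOP := MPdd5692.stmt_HOP f_MPdd5692_Stmt_CIRC
  have f_MPdd5692_Stmt_REACH : MPdd5692.Stmt_REACH := MPdd5692.stmt_REACH f_MPdd5692_Stmt_CIRC f_MPdd5692_Stmt_LOC f_MPdd5692_Stmt_CHAIN f_MPdd5692_Stmt_HOP
  have f_MPdd5692_Stmt_DEPG : MPdd5692.Stmt_DEPG := MPdd5692.stmt_DEPG f_MPdd5692_Stmt_MEASE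
  have f_MPdd5692_Stmt_LIP : MPdd5692.Stmt_LIP := MPdd5692.stmt_LIP 
  have f_MPdd5692_Stmt_INFLMASS : MPdd5692.Stmt_INFLMASS := MPdd5692.stmt_INFLMASS 
  have f_MPdd5692_Stmt_SURVD : MPdd5692.Stmt_SURVD := MPdd5692.stmt_SURVD f_MPdd5692_Stmt_BLOCK f_MPdd5692_Stmt_DECOUP f_MPdd5692_Stmt_LIPPERC f_MPdd5692_Stmt_REACH f_MPdd5692_Stmt_DEPG f_MPdd5692_Stmt_LIP f_MPdd5692_Stmt_INFLMASS f_MPdd5692_Stmt_CIRC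
  have f_MPdd5692_Stmt_START : MPdd5692.Stmt_START := MPdd5692.stmt_START f_MPdd5692_Stmt_HARRIS f_MPdd5692_Stmt_HOLEP f_MPdd5692_Stmt_TRANS
  have f_MPdd5692_Stmt_BRIDGE : MPdd5692.Stmt_BRIDGE := MPdd5692.stmt_BRIDGE 
  have f_MPdd5692_Stmt_MONO : MPdd5692.Stmt_MONO := MPdd5692.stmt_MONO 
  have f_MPdd5692_Stmt_CORE : MPdd5692.Stmt_CORE := MPdd5692.stmt_CORE f_MPdd5692_Stmt_A f_MPdd5692_Stmt_MARKREF f_MPdd5692_Stmt_SURVD f_MPdd5692_Stmt_START f_MPdd5692_Stmt_BRIDGE f_MPdd5692_Stmt_MONO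
  exact f_MPdd5692_Stmt_CORE

end MPdd5692
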