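import Pool.Agent.Work.MP_dd5692_pr.InterfaceE

/-!
# MP_dd5692_pr, block GOODP: probability of the block event (FFP, Markov, WILD). helper66
-/

open MeasureTheory ProbabilityTheory Set
open scoped ENNReal NNReal BigOperators

namespace MPdd5692

namespace GOODP

open Classical in
/-- number of the events that occur -/
noncomputable def cnt {Ω : Type*} (s : Finset ℕ) (A : ℕ → Set Ω) (ω : Ω) : ℝ :=
  ((s.filter (fun m => ω ∈ A m)).card : ℝ)

open Classical in
/-- Markov's inequality for the number of events that occur (no measurability needed) -/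
theorem markov {Ω : Type*} [MeasurableSpace Ω] (P : Measure Ω) [IsFiniteMeasure P]
    (s : Finset ℕ) (A : ℕ → Set Ω) (t : ℝ) (ht : 0 < t) :
    P.real {ω | t < cnt s A ω} * t ≤ ∑ m ∈ s, P.real (A m) := by
  set B : ℕ → Set Ω := fun m => toMeasurable P (A m) with hB
  have hBm : ∀ m, MeasurableSet (B m) := fun m => measurableSet_toMeasurable _ _
  set f : Ω → ℝ≥0∞ := fun ω => ∑ m ∈ s, (B m).indicator 1 ω with hf
  have hsub : {ω | t < cnt s A ω} ⊆ {ω | ENNReal.ofReal t ≤ f ω} := by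
    intro ω hω
    simp only [mem_setOf_eq, cnt] at hω ⊢
    have h1 : ((s.filter (fun m => ω ∈ A m)).card : ℝ≥0∞) ≤ f ω := by
      rw [Finset.card_filter, Nat.cast_sum]
      refine Finset.sum_le_sum fun m _ => ?_
      by_cases hm : ω ∈ A m
      · have hm' : ω ∈ B m := subset_toMeasurable P (A m) hm
        simp [hm, hm']
      · simp [hm]
    refine le_trans ?_ h1
    rw [← ENNReal.ofReal_natCast]
    exact ENNReal.ofReal_le_ofReal hω.le
  have hfm : AEMeasurable f P := by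
    refine Measurable.aemeasurable ?_
    exact Finset.measurable_sum _ fun m _ => measurable_one.indicator (hBm m)
  have h2 := mul_meas_ge_le_lintegral₀ hfm (ENNReal.ofReal t)
  have h3 : ∫⁻ ω, f ω ∂P = ∑ m ∈ s, P (A m) := by
    rw [hf, lintegral_finsetSum _ fun m _ => measurable_one.indicator (hBm m)]
    refine Finset.sum_congr rfl fun m _ => ?_
    rw [lintegral_indicator_one (hBm m), hB, measure_toMeasurable]
  rw [h3] at h2
  have h4 : ENNReal.ofReal t * P {ω | t < cnt s A ω}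
      ≤ ∑ m ∈ s, P (A m) := le_trans (by gcongr) h2
  have h5 := ENNReal.toReal_mono (by simp [ENNReal.sum_eq_top]) h4
  rw [ENNReal.toReal_mul, ENNReal.toReal_ofReal ht.le,
    ENNReal.toReal_sum fun m _ => measure_ne_top _ _] at h5
  rw [mul_comm]
  exact h5

end GOODP

open GOODP

theorem stmt_GOODP (h1 : Stmt_WILD) (_h2 : Stmt_MEASE) (h3 : Stmt_FFP) : Stmt_GOODP := by
  classical
  intro I Λ η J A1 Y hη hJ hG
  obtain ⟨R0, hR0⟩ := h1 I Λ (3 * J + 2) A1 η hη
  refine ⟨max R0 100, fun u hu c e δ nmax E uh ε ε1 X huh huh1 hε hc hH hn hDec hw hN => ?_⟩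
  have hu1 : R0 ≤ u := le_trans (le_max_left _ _) hu
  have hu2 : 100 ≤ u := le_trans (le_max_right _ _) hu
  set p : Par := ⟨u, J, A1, Y⟩ with hp
  have hPprob : IsProbabilityMeasure E.P :=
    (inferInstance : IsProbabilityMeasure (pois fun θ => E.lam * E.L.fine θ))
  have hw0 : 0 ≤ E.w p := measureReal_nonneg
  have hwpos : 0 < E.w p := by
    rcases hw0.lt_or_eq with h | h
    · exact h
    · rw [← h] at hw
      norm_num at hw
      linarith
  set w := E.w p with hwdef
  have hJ0 : (0:ℝ) < J := by exact_mod_cast hJ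
  -- wild particles
  have hwild : E.P.real {ω : Conf E.q E.H | ¬ NWE ω p X} ≤ η := by
    have hk12 : X.1 * J - 1 ≤ (X.1 + 3) * J + 1 := by nlinarith [Nat.sub_le (X.1 * J) 1]
    have hk2 : (X.1 + 3) * J + 1 ≤ X.1 * J - 1 + (3 * J + 2) := by
      have h5 : (X.1 + 3) * J = X.1 * J + 3 * J := by ring
      omega
    have h := hR0 (100 * u) (by omega) E.q E.H _ δ E.L E.lam E.inten (X.1 * J - 1)
      ((X.1 + 3) * J + 1) (xX p.A X) hk12 hH hk2
    refine le_trans (measureReal_mono ?_ (measure_ne_top _ _)) (le_trans h ?_)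
    · intro ω hω
      simp only [mem_setOf_eq, NWE, not_forall] at hω ⊢
      obtain ⟨θ, hθ, hI, htot⟩ := hω
      obtain ⟨k, hka, hkb, hkn⟩ := hI
      refine ⟨θ, hθ, ?_, (k : ℕ), by simp only [hp] at hka; omega,
        by simp only [hp] at hkb; omega, by omega, ?_⟩
      · have : u < θ.1.tot (X.1 * J - 1) ((X.1 + 3) * J + 1) := not_le.1 htot
        omega
      · have hD : θ.1.D k ≤ θ.1.tot (X.1 * J - 1) ((X.1 + 3) * J + 1) := by
          unfold CMark.tot
          have hmem : (X.1 * J - 1 ≤ (k : ℕ) ∧ (k : ℕ) < (X.1 + 3) * J + 1) := by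
            simp only [hp] at hka hkb
            constructor <;> omega
          calc θ.1.D k = (if X.1 * J - 1 ≤ (k : ℕ) ∧ (k : ℕ) < (X.1 + 3) * J + 1
                then θ.1.D k else 0) := by rw [if_pos hmem]
            _ ≤ _ := Finset.single_le_sum (f := fun k : Fin E.H =>
                if X.1 * J - 1 ≤ (k : ℕ) ∧ (k : ℕ) < (X.1 + 3) * J + 1 then θ.1.D k else 0)
                (fun _ _ => Nat.zero_le _) (Finset.mem_univ k)
        have hA : (p.A : ℤ) = A1 * u := by simp [Par.A, hp]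
        have hk' : nrm (θ.1.c ⟨(k : ℕ), by omega⟩ - xX p.A X) ≤ 6 * (p.A : ℤ) + θ.1.D k := hkn
        refine le_trans hk' ?_
        rw [hA]
        have hD' : ((θ.1.D k : ℕ) : ℤ) ≤ (θ.1.tot (X.1 * J - 1) ((X.1 + 3) * J + 1) : ℕ) := by
          exact_mod_cast hD
        have hnn : (0:ℤ) ≤ (A1 : ℤ) * u := by positivity
        push_cast
        nlinarith
    · have : (1:ℝ) ≤ ((100 * u : ℕ) : ℝ) ^ 10 := by
        refine one_le_pow₀ ?_
        have : (1:ℕ) ≤ 100 * u := by omega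
        exact_mod_cast this
      exact div_le_self hη.le this
  -- the number of bad times
  set τ : ℝ := uh * w / 8 with hτ
  have hτ0 : 0 < τ := by positivity
  set Bd : ℝ := 48 * ε1 * w / uh + 3 * Y.card * (10 ^ 6 * ε / (uh * w) ^ 3 + 100 / (uh * w * J))
    with hBd
  have hFF : ∀ m ∈ Finset.Ico (X.1 * J) ((X.1 + 1) * J),
      E.P.real {ω | WWE E.ρ E.q (et ω m) p X ∧ ¬ FFE E.L E.lam E.ρ p uh τ ω m X} ≤ Bd := by
    intro m hm
    rw [Finset.mem_Ico] at hm
    exact h3 c e I δ Λ nmax E p uh ε ε1 X m huh huh1 hε hu2 hJ hG hH hm.1 hm.2 hn hDec hw hN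
  have hmk := markov E.P (Finset.Ico (X.1 * J) ((X.1 + 1) * J))
    (fun m => {ω | WWE E.ρ E.q (et ω m) p X ∧ ¬ FFE E.L E.lam E.ρ p uh τ ω m X})
    (τ * J / 2) (by positivity)
  have hsum : ∑ m ∈ Finset.Ico (X.1 * J) ((X.1 + 1) * J),
      E.P.real {ω | WWE E.ρ E.q (et ω m) p X ∧ ¬ FFE E.L E.lam E.ρ p uh τ ω m X} ≤ J * Bd := by
    refine le_trans (Finset.sum_le_sum hFF) ?_
    rw [Finset.sum_const, Nat.card_Ico, nsmul_eq_mul]
    have : (X.1 + 1) * J - X.1 * J = J := by
      rw [add_mul, one_mul]; omega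
    rw [this]
  have hcnt : E.P.real {ω | τ * J / 2 < cnt (Finset.Ico (X.1 * J) ((X.1 + 1) * J))
      (fun m => {ω | WWE E.ρ E.q (et ω m) p X ∧ ¬ FFE E.L E.lam E.ρ p uh τ ω m X}) ω}
      ≤ 16 * Bd / (uh * w) := by
    rw [le_div_iff₀ (by positivity)]
    have h6 := le_trans hmk hsum
    have h7 : ∀ z : ℝ, z * (τ * J / 2) ≤ J * Bd → z * (uh * w) ≤ 16 * Bd := by
      intro z hz
      have : J * (z * (uh * w)) ≤ J * (16 * Bd) := by
        rw [hτ] at hz
        nlinarith
      exact le_of_mul_le_mul_left this hJ0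
    exact h7 _ h6
  have hsub : {ω : Conf E.q E.H | ¬ GOODE E.L E.lam E.ρ p uh τ ω X}
      ⊆ {ω | ¬ NWE ω p X} ∪ {ω | τ * J / 2 < cnt (Finset.Ico (X.1 * J) ((X.1 + 1) * J))
      (fun m => {ω | WWE E.ρ E.q (et ω m) p X ∧ ¬ FFE E.L E.lam E.ρ p uh τ ω m X}) ω} := by
    intro ω hω
    by_cases hnw : NWE ω p X
    · right
      simp only [mem_setOf_eq, GOODE, not_and, not_le] at hω ⊢
      refine lt_of_lt_of_eq (hω hnw) ?_
      unfold cnt
      refine congrArg (fun n : ℕ => (n : ℝ)) (congrArg Finset.card ?_)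
      ext m
      simp only [Finset.mem_filter, mem_setOf_eq, hp]
    · left; exact hnw
  calc E.P.real {ω : Conf E.q E.H | ¬ GOODE E.L E.lam E.ρ p uh τ ω X}
      ≤ E.P.real ({ω | ¬ NWE ω p X} ∪ {ω | τ * J / 2 <
        cnt (Finset.Ico (X.1 * J) ((X.1 + 1) * J))
      (fun m => {ω | WWE E.ρ E.q (et ω m) p X ∧ ¬ FFE E.L E.lam E.ρ p uh τ ω m X}) ω}) :=
        measureReal_mono hsub (measure_ne_top _ _)
    _ ≤ η + 16 * Bd / (uh * w) := le_trans (measureReal_union_le _ _) (add_le_add hwild hcnt)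
    _ = 768 * ε1 / uh ^ 2 + 16 * (3 * Y.card * (10 ^ 6 * ε / (uh * w) ^ 3 +
        100 / (uh * w * J))) / (uh * w) + η := by
      have : 16 * Bd / (uh * w) = 768 * ε1 / uh ^ 2 + 16 * (3 * Y.card * (10 ^ 6 * ε / (uh * w) ^ 3 +
          100 / (uh * w * J))) / (uh * w) := by
        rw [hBd, mul_add, add_div]
        congr 1
        field_simp
        ring
      rw [this]; ring

end MPdd5692
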