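import Mathlib
import Pool.Agent.Work.MP_dd5692_pr.InterfaceE
import Pool.Agent.Work.MP_dd5692_pr.N13

/-!
# MP_dd5692_pr: block HOP (helper13)
-/

open MeasureTheory ProbabilityTheory Set
open scoped ENNReal NNReal BigOperators

namespace MPdd5692.HOP

open MPdd5692 MPdd5692.CIRC MPdd5692.N13

variable {q H : ℕ}

lemma cbox_sub {q : ℕ} {b y : Site} {l : ℕ} (hb : b ∈ box y l) : cbox q b 0 ⊆ cbox q y l := by
  intro x hx
  have h1 : nrm (cidx q x - b) ≤ ((0 : ℕ) : ℤ) := hx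
  have h2 : nrm (b - y) ≤ (l : ℤ) := hb
  show nrm (cidx q x - y) ≤ (l : ℤ)
  have := nrm_tri (cidx q x) b y
  simp only [Nat.cast_zero] at h1
  linarith

/-- the arm of a vacant s-cell `b` meets the circuit: the piece before is vacant -/
lemma arm_to_Gam (h1 : Stmt_CIRC) {ρ : ℝ} {S : Set Site} {b y : Site} {l : ℕ} (hq : 0 < q)
    (hl : 1 ≤ l) (hU : UU ρ q S y l (2 * l)) (hb : b ∈ box y l) (hA : Arm ρ q S b 0 y (2 * l))
    (hv : cbox q b 0 ⊆ vacSites ρ S) :
    ∃ x0 ∈ cbox q b 0, ∃ g ∈ GamS ρ q S y l (2 * l), Linked Adj4 (vacSites ρ S) x0 g := by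
  obtain ⟨hC1, -, hC3⟩ := h1 ρ q S y l (2 * l) hq (by omega) hU
  obtain ⟨x0, hx0, w, hw, hlink⟩ := hA
  obtain ⟨⟨g, hg, hxg⟩, -⟩ := hC3 _ x0 w (cbox_sub hb hx0) hw hlink
  refine ⟨x0, hx0, g, hg, mono' ?_ hxg⟩
  rintro t ⟨(ht | ht) | ht, ht'⟩
  · exact ht
  · exact hv ht
  · exact absurd ht' ht

end MPdd5692.HOP

namespace MPdd5692

open MPdd5692.CIRC MPdd5692.N13 MPdd5692.HOP

theorem stmt_HOP (h1 : Stmt_CIRC) : Stmt_HOP := by
  intro q H _ ρ ω J B m m' l y hρ hq hmm' hm'H hJm' hl hB hLam hx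
  have hq0 : 0 < q := Nat.pos_of_ne_zero (NeZero.ne q)
  obtain ⟨hU, hU', b, hb, hole, hA, hA'⟩ := hLam
  have hvm : cbox q b 0 ⊆ vacSites ρ (et ω m) := fun x hx =>
    hole_vac hρ hq hmm' hm'H hole le_rfl hmm'.le hx
  have hvm' : cbox q b 0 ⊆ vacSites ρ (et ω m') := fun x hx =>
    hole_vac hρ hq hmm' hm'H hole hmm'.le le_rfl hx
  obtain ⟨x1, hx1, g1, hg1, hl1⟩ := arm_to_Gam h1 hq0 hl hU hb hA hvm
  obtain ⟨x2, hx2, g2, hg2, hl2⟩ := arm_to_Gam h1 hq0 hl hU' hb hA' hvm'
  obtain ⟨hC1, hC2, -⟩ := h1 ρ q (et ω m) y l (2 * l) hq0 (by omega) hU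
  have hGv : GamS ρ q (et ω m) y l (2 * l) ⊆ vacSites ρ (et ω m) := fun t ht => (hC1 ht).1
  refine ⟨g2, ?_, g2, hg2, rfl' (right_mem hl2)⟩
  right
  obtain ⟨x, hxR, g, hg, hxg⟩ := hx
  -- from `x` to the s-cell `b` at time `m`
  have hxb : Linked Adj4 (vacSites ρ (et ω m)) x x1 :=
    trans' hxg (trans' (mono' hGv (hC2 g hg g1 hg1)) (symm' (fun _ _ => a4symm) hl1))
  by_cases hmJ : m < J
  · have hbB : nrm b ≤ (B : ℤ) := by
      have e1 : nrm (b - y) ≤ (l : ℤ) := hb
      have e2 := nrm_add_le (b - y) y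
      rw [sub_add_cancel] at e2
      have e3 := hB hmJ
      linarith
    refine ⟨m, fun _ => b, hmJ, hbB, fun k h2 h3 => hole k h2 h3, fun k _ _ => Or.inl rfl, ?_⟩
    exact ⟨x2, hx2, g2, rfl, hl2⟩
  · rcases hxR with h | ⟨m0, z, hm0, hzB, hz1, hz2, hz3⟩
    · exact absurd h hmJ
    · push Not at hmJ
      have hm0m : m0 < m := by omega
      refine ⟨m0, fun k => if k < m then z k else b, hm0, ?_, ?_, ?_, ?_⟩
      · simp only [hm0m, if_true]
        exact hzB
      · intro k h2 h3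
        by_cases hk : (k : ℕ) < m
        · simp only [hk, if_true]
          exact hz1 k h2 hk
        · simp only [hk, if_false]
          exact hole k (not_lt.1 hk) h3
      · intro k h2 h3
        rcases lt_trichotomy k m with hk | hk | hk
        · have hk' : k - 1 < m := by omega
          simp only [hk, hk', if_true]
          exact hz2 k h2 hk
        · subst hk
          have hk' : k - 1 < k := by omega
          simp only [hk', if_true, lt_irrefl, if_false]
          right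
          obtain ⟨s, hs, t, ht, hst⟩ := hz3
          have htx : t = x := ht
          subst htx
          exact ⟨s, hs, x1, hx1, trans' hst hxb⟩
        · have hk1 : ¬ (k - 1 < m) := by omega
          have hk2 : ¬ (k < m) := by omega
          simp only [hk1, hk2, if_false]
          exact Or.inl trivial
      · have hk1 : ¬ (m' - 1 < m) := by omega
        simp only [hk1, if_false]
        exact ⟨x2, hx2, g2, rfl, hl2⟩

end MPdd5692
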