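import Mathlib
import Pool.Agent.Work.MP_dd5692_pr.InterfaceE
import Pool.Agent.Work.MP_dd5692_pr.Link98

/-!
# MP_dd5692_pr: block REACH (helper63): Lemma 3.3, `OCC(X)` and `GOOD(X)` imply `OCC(X')`.
-/

open MeasureTheory ProbabilityTheory Set
open scoped ENNReal NNReal BigOperators

namespace MPdd5692

namespace REACH

/-- horizontal link in the whole plane -/
lemma linked_univ_horiz (a b : ℤ) (n : ℕ) : Linked Adj4 (Set.univ : Set Site) (a, b) (a + n, b) := by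
  have h := linked_of_chain (S := (Set.univ : Set Site)) n (fun i => (a + (i : ℤ), b))
    (fun _ _ => Set.mem_univ _) (fun _ _ => Set.mem_univ _) (fun i _ => by
      constructor
      · simp only [Nat.cast_add, Nat.cast_one]
        rw [show a + (i : ℤ) - (a + ((i : ℤ) + 1)) = -1 by ring]
        simp
      · simp)
  simpa using h

/-- a vacant circuit is not empty -/
lemma GamS_nonempty (h1 : Stmt_CIRC) (ρ : ℝ) (q : ℕ) (S : Set Site) (z : Site) (a b : ℕ)
    (hq : 0 < q) (hab : a < b) (hU : UU ρ q S z a b) : ∃ g, g ∈ GamS ρ q S z a b := by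
  obtain ⟨-, -, h3⟩ := h1 ρ q S z a b hq hab hU
  have hq' : (0 : ℤ) < q := by exact_mod_cast hq
  have hx : (((q : ℤ) * z.1, (q : ℤ) * z.2) : Site) ∈ cbox q z a := by
    unfold cbox box cidx nrm
    simp only [Set.mem_ofPred_eq, Prod.fst_sub, Prod.snd_sub]
    rw [Int.mul_ediv_cancel_left _ hq'.ne', Int.mul_ediv_cancel_left _ hq'.ne']
    simp
  have hy : (((q : ℤ) * z.1 + ((q * (b + 1) : ℕ) : ℤ), (q : ℤ) * z.2) : Site) ∉ cbox q z b := by
    unfold cbox box cidx nrm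
    simp only [Set.mem_ofPred_eq, Prod.fst_sub, Prod.snd_sub, not_le]
    push_cast
    rw [← mul_add, Int.mul_ediv_cancel_left _ hq'.ne', Int.mul_ediv_cancel_left _ hq'.ne']
    refine lt_of_lt_of_le ?_ (le_max_left _ _)
    rw [show z.1 + ((b : ℤ) + 1) - z.1 = (b : ℤ) + 1 by ring, abs_of_nonneg (by positivity)]
    omega
  obtain ⟨⟨g, hg, -⟩, -⟩ := h3 Set.univ _ _ hx hy (linked_univ_horiz _ _ _)
  exact ⟨g, hg⟩

end REACH

theorem stmt_REACH (h1 : Stmt_CIRC) (h2 : Stmt_LOC) (h3 : Stmt_CHAIN) (h4 : Stmt_HOP) :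
    Stmt_REACH := by
  classical
  intro q H _ a δ Λ L lam ρ p uh τ ω X d hρ hρq hJ hu hGeo hτ huh hd hH hX1 hGood hOcc
  have hq0 : 0 < q := Nat.pos_of_ne_zero (NeZero.ne q)
  have hJ0 : (0 : ℝ) < p.J := by exact_mod_cast hJ
  obtain ⟨hNW, hGood⟩ := hGood
  unfold OCCE at hOcc ⊢
  -- a good time `m`
  have hex : ∃ m ∈ Finset.Ico (X.1 * p.J) ((X.1 + 1) * p.J),
      FFE L lam ρ p uh τ ω m X ∧ ∃ y ∈ p.sub X.1 X.2, niceE L lam ρ p.u p.J uh ω m y ∧
        UU ρ q (et ω m) y (10 * p.u) (20 * p.u) ∧ VE ρ q (et ω m) y p.u ∧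
        ∃ x ∈ Rch ρ ω p.J (2 * p.A) m, ∃ g ∈ GamS ρ q (et ω m) y (10 * p.u) (20 * p.u),
          Linked Adj4 (vacSites ρ (et ω m)) x g := by
    by_contra hno
    push Not at hno
    have hsub : ((Finset.Ico (X.1 * p.J) ((X.1 + 1) * p.J)).filter fun m =>
        WWE ρ q (et ω m) p X ∧ ∃ y ∈ p.sub X.1 X.2, niceE L lam ρ p.u p.J uh ω m y ∧
          UU ρ q (et ω m) y (10 * p.u) (20 * p.u) ∧ VE ρ q (et ω m) y p.u ∧
          ∃ x ∈ Rch ρ ω p.J (2 * p.A) m, ∃ g ∈ GamS ρ q (et ω m) y (10 * p.u) (20 * p.u),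
            Linked Adj4 (vacSites ρ (et ω m)) x g) ⊆
        ((Finset.Ico (X.1 * p.J) ((X.1 + 1) * p.J)).filter fun m =>
          WWE ρ q (et ω m) p X ∧ ¬ FFE L lam ρ p uh τ ω m X) := by
      intro m hm
      rw [Finset.mem_filter] at hm ⊢
      obtain ⟨hm1, hm2, y, hy, hn, hUU, hVE, x, hx, g, hg, hl⟩ := hm
      refine ⟨hm1, hm2, fun hF => ?_⟩
      exact hno m hm1 hF y hy hn hUU hVE x hx g hg hl
    have hcard := Finset.card_le_card hsub
    have hcard' : (((Finset.Ico (X.1 * p.J) ((X.1 + 1) * p.J)).filter fun m =>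
        WWE ρ q (et ω m) p X ∧ ∃ y ∈ p.sub X.1 X.2, niceE L lam ρ p.u p.J uh ω m y ∧
          UU ρ q (et ω m) y (10 * p.u) (20 * p.u) ∧ VE ρ q (et ω m) y p.u ∧
          ∃ x ∈ Rch ρ ω p.J (2 * p.A) m, ∃ g ∈ GamS ρ q (et ω m) y (10 * p.u) (20 * p.u),
            Linked Adj4 (vacSites ρ (et ω m)) x g).card : ℝ) ≤
        (((Finset.Ico (X.1 * p.J) ((X.1 + 1) * p.J)).filter fun m =>
          WWE ρ q (et ω m) p X ∧ ¬ FFE L lam ρ p uh τ ω m X).card : ℝ) := by
      exact_mod_cast hcard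
    have hpos : 0 < τ * p.J := mul_pos hτ hJ0
    linarith
  obtain ⟨m, hm, hF, y, hy, hnice, hUU, hVE, hreach⟩ := hex
  rw [Finset.mem_Ico] at hm
  have hmJ : m / p.J = X.1 := by
    have hJ' : 0 < p.J := hJ
    apply Nat.div_eq_of_lt_le
    · exact hm.1
    · exact hm.2
  have hcount := hF d hd y hy hnice
  refine hcount.trans ?_
  have hsub : ((nxt p.J m).filter fun m' =>
      SuccE L lam ρ p uh ω m m' y (X.1 + 1, X.2 + d)) ⊆
      ((Finset.Ico ((X.1 + 1) * p.J) ((X.1 + 1 + 1) * p.J)).filter fun m' =>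
        WWE ρ q (et ω m') p (X.1 + 1, X.2 + d) ∧
          ∃ y ∈ p.sub ((X.1 + 1 : ℕ) : ℤ) (X.2 + d), niceE L lam ρ p.u p.J uh ω m' y ∧
          UU ρ q (et ω m') y (10 * p.u) (20 * p.u) ∧ VE ρ q (et ω m') y p.u ∧
          ∃ x ∈ Rch ρ ω p.J (2 * p.A) m', ∃ g ∈ GamS ρ q (et ω m') y (10 * p.u) (20 * p.u),
            Linked Adj4 (vacSites ρ (et ω m')) x g) := by
    intro m' hm'
    rw [Finset.mem_filter] at hm' ⊢
    obtain ⟨hm'1, hHat, hWW, hNN⟩ := hm'
    unfold nxt at hm'1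
    rw [hmJ] at hm'1
    refine ⟨hm'1, hWW, ?_⟩
    rw [Finset.mem_Ico] at hm'1
    obtain ⟨y', hy', hnice', hUU', hVE'⟩ := hNN
    obtain ⟨hLam, hVEy⟩ := hHat
    have hmm' : m < m' := lt_of_lt_of_le hm.2 hm'1.1
    have hm'H : m' ≤ H := by
      have h5 : (X.1 + 2) * p.J ≤ (X.1 + 3) * p.J := Nat.mul_le_mul_right _ (by omega)
      omega
    have hLam' : LamE ρ ω m m' y (10 * p.u) :=
      h2 q H ρ p ω X m m' y hρ hρq hJ hu hGeo hNW hm.1 hmm' hm'1.2 hm'H hy hLam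
    have hJm' : p.J ≤ m' := by
      have h5 : p.J ≤ (X.1 + 1) * p.J := Nat.le_mul_of_pos_left _ (by omega)
      omega
    have h20 : 2 * (10 * p.u) = 20 * p.u := by ring
    have hB : m < p.J → nrm y + (10 * p.u : ℕ) ≤ (2 * p.A : ℕ) := by
      intro hmJ0
      have hX0 : X.1 = 0 := by
        by_contra hne
        have h6 : 1 * p.J ≤ X.1 * p.J := Nat.mul_le_mul_right _ (by omega)
        omega
      have hX2 := hX1 hX0
      obtain ⟨y0, hy0, rfl⟩ := hy
      have hs := hGeo.small y0 hy0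
      have hbig := hGeo.big
      rw [hX0, hX2]
      unfold nrm at hs ⊢
      unfold Par.A sm
      simp only [Prod.fst_add, Prod.snd_add, Nat.cast_zero, mul_zero, add_zero, mul_one]
      have ha1 : 8 * |y0.1| ≤ p.A1 := le_trans (by have := le_max_left |y0.1| |y0.2|; omega) hs
      have ha2 : 8 * |y0.2| ≤ p.A1 := le_trans (by have := le_max_right |y0.1| |y0.2|; omega) hs
      have hu0 : (0 : ℤ) ≤ p.u := Int.natCast_nonneg _
      have hb1 : (p.u : ℤ) * (8 * |y0.1|) ≤ p.u * p.A1 := mul_le_mul_of_nonneg_left ha1 hu0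
      have hb2 : (p.u : ℤ) * (8 * |y0.2|) ≤ p.u * p.A1 := mul_le_mul_of_nonneg_left ha2 hu0
      have hb3 : (p.u : ℤ) * 4000 ≤ p.u * p.A1 :=
        mul_le_mul_of_nonneg_left (by exact_mod_cast hbig) hu0
      have hc1 : |(p.u : ℤ) * y0.1| = p.u * |y0.1| := by rw [abs_mul, abs_of_nonneg hu0]
      have hc2 : |(p.u : ℤ) * y0.2 + ((p.A1 * p.u : ℕ) : ℤ)| ≤ p.u * |y0.2| + p.u * p.A1 := by
        refine (abs_add_le _ _).trans ?_
        have h7 : |((p.A1 * p.u : ℕ) : ℤ)| = (p.u : ℤ) * p.A1 := by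
          rw [abs_of_nonneg (Int.natCast_nonneg _)]
          push_cast; ring
        rw [h7, abs_mul, abs_of_nonneg hu0]
      rw [← sub_nonneg]
      have hmax : max |(p.u : ℤ) * y0.1| |(p.u : ℤ) * y0.2 + ((p.A1 * p.u : ℕ) : ℤ)| ≤
          2 * (p.u * p.A1) - 10 * p.u := by
        refine max_le ?_ ?_
        · rw [hc1]; nlinarith
        · refine hc2.trans ?_
          nlinarith
      push_cast at hmax ⊢
      linarith [mul_comm (p.A1 : ℤ) (p.u : ℤ)]
    have hhop := h4 q H ρ ω p.J (2 * p.A) m m' (10 * p.u) y hρ hρq hmm' hm'H hJm' (by omega) hB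
      hLam' (by rw [h20]; exact hreach)
    rw [h20] at hhop
    obtain ⟨x', hx', g', hg', hl'⟩ := hhop
    have hUUy : UU ρ q (et ω m') y (10 * p.u) (20 * p.u) := by
      have h5 := hLam'.2.1
      rwa [h20] at h5
    obtain ⟨g'', hg''⟩ := REACH.GamS_nonempty h1 ρ q (et ω m') y' (10 * p.u) (20 * p.u) hq0
      (by omega) hUU'
    have hy2 : y ∈ p.sub2 (X.1 + 1, X.2 + d) := by
      unfold Par.sub2
      have hc : (((X.1 + 1 : ℕ) : ℤ) - 1) = (X.1 : ℤ) := by push_cast; ring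
      simp only [Set.mem_union]
      rw [hc]
      rw [abs_le] at hd
      have hd' : d = -1 ∨ d = 0 ∨ d = 1 := by omega
      rcases hd' with rfl | rfl | rfl
      · right
        rw [show X.2 + -1 + 1 = X.2 by ring]; exact hy
      · left; right
        rw [add_zero]; exact hy
      · left; left; right
        rw [show X.2 + 1 - 1 = X.2 by ring]; exact hy
    have hy'2 : y' ∈ p.sub2 (X.1 + 1, X.2 + d) := by
      unfold Par.sub2
      left; left; left
      exact hy'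
    have hch := h3 ρ q (et ω m') p (X.1 + 1, X.2 + d) y y' hq0 (by omega) hGeo hWW hy2 hy'2
      hVEy hVE' hUUy hUU' g' hg' g'' hg''
    exact ⟨y', hy', hnice', hUU', hVE', x', hx', g'', hg'', hl'.trans hch⟩
  exact_mod_cast Finset.card_le_card hsub

end MPdd5692
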