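import Pool.Agent.Work.MP_dd5692_pr.A.All
import Pool.Agent.Work.MP_dd5692_pr.ARMDEC
import Pool.Agent.Work.MP_dd5692_pr.BLOCK
import Pool.Agent.Work.MP_dd5692_pr.BRIDGE
import Pool.Agent.Work.MP_dd5692_pr.C1
import Pool.Agent.Work.MP_dd5692_pr.CHAIN
import Pool.Agent.Work.MP_dd5692_pr.CHERN
import Pool.Agent.Work.MP_dd5692_pr.CIND
import Pool.Agent.Work.MP_dd5692_pr.CIRC
import Pool.Agent.Work.MP_dd5692_pr.CORE
import Pool.Agent.Work.MP_dd5692_pr.DEC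
import Pool.Agent.Work.MP_dd5692_pr.DECOUP
import Pool.Agent.Work.MP_dd5692_pr.DEPG
import Pool.Agent.Work.MP_dd5692_pr.EBad
import Pool.Agent.Work.MP_dd5692_pr.FFP
import Pool.Agent.Work.MP_dd5692_pr.GBETA
import Pool.Agent.Work.MP_dd5692_pr.GCH
import Pool.Agent.Work.MP_dd5692_pr.GHID
import Pool.Agent.Work.MP_dd5692_pr.GKER
import Pool.Agent.Work.MP_dd5692_pr.GOODP
import Pool.Agent.Work.MP_dd5692_pr.GPROJ
import Pool.Agent.Work.MP_dd5692_pr.GSIDX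
import Pool.Agent.Work.MP_dd5692_pr.GSTAT
import Pool.Agent.Work.MP_dd5692_pr.GSUM
import Pool.Agent.Work.MP_dd5692_pr.GTR
import Pool.Agent.Work.MP_dd5692_pr.HARRIS
import Pool.Agent.Work.MP_dd5692_pr.HARRISN
import Pool.Agent.Work.MP_dd5692_pr.HATP
import Pool.Agent.Work.MP_dd5692_pr.HOLEP
import Pool.Agent.Work.MP_dd5692_pr.HOP
import Pool.Agent.Work.MP_dd5692_pr.INDEP
import Pool.Agent.Work.MP_dd5692_pr.INFLMASS
import Pool.Agent.Work.MP_dd5692_pr.LAM0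
import Pool.Agent.Work.MP_dd5692_pr.LINK
import Pool.Agent.Work.MP_dd5692_pr.LIP
import Pool.Agent.Work.MP_dd5692_pr.LIPPERC
import Pool.Agent.Work.MP_dd5692_pr.LOC
import Pool.Agent.Work.MP_dd5692_pr.MARKREF
import Pool.Agent.Work.MP_dd5692_pr.MEAS
import Pool.Agent.Work.MP_dd5692_pr.MEASE
import Pool.Agent.Work.MP_dd5692_pr.MIX
import Pool.Agent.Work.MP_dd5692_pr.MONO
import Pool.Agent.Work.MP_dd5692_pr.NICEP
import Pool.Agent.Work.MP_dd5692_pr.NNP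
import Pool.Agent.Work.MP_dd5692_pr.NOFOLLOW
import Pool.Agent.Work.MP_dd5692_pr.OCC0P
import Pool.Agent.Work.MP_dd5692_pr.PSI
import Pool.Agent.Work.MP_dd5692_pr.QM
import Pool.Agent.Work.MP_dd5692_pr.RDET
import Pool.Agent.Work.MP_dd5692_pr.REACH
import Pool.Agent.Work.MP_dd5692_pr.REC
import Pool.Agent.Work.MP_dd5692_pr.RLOW
import Pool.Agent.Work.MP_dd5692_pr.RSUM
import Pool.Agent.Work.MP_dd5692_pr.RUP1
import Pool.Agent.Work.MP_dd5692_pr.RUP2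
import Pool.Agent.Work.MP_dd5692_pr.SPLIT
import Pool.Agent.Work.MP_dd5692_pr.START
import Pool.Agent.Work.MP_dd5692_pr.STATIC
import Pool.Agent.Work.MP_dd5692_pr.SURVD
import Pool.Agent.Work.MP_dd5692_pr.TAMEI
import Pool.Agent.Work.MP_dd5692_pr.TRANS
import Pool.Agent.Work.MP_dd5692_pr.VDone
import Pool.Agent.Work.MP_dd5692_pr.VOID
import Pool.Agent.Work.MP_dd5692_pr.WILD
import Pool.Agent.Work.MP_dd5692_pr.WLOW

/-!
# MP_dd5692_pr: assembly of the blocks: the discrete core (helper98)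
-/

namespace MPdd5692

open B35

theorem fin_A : Stmt_A :=
  MPdd5692.stmt_A 
theorem fin_GSIDX : Stmt_GSIDX :=
  MPdd5692.stmt_GSIDX 
theorem fin_GKER : Stmt_GKER :=
  MPdd5692.stmt_GKER fin_GSIDX
theorem fin_GBETA : Stmt_GBETA :=
  MPdd5692.stmt_GBETA 
theorem fin_GCH : Stmt_GCH :=
  MPdd5692.stmt_GCH 
theorem fin_GSUM : Stmt_GSUM :=
  MPdd5692.stmt_GSUM fin_GSIDX
theorem fin_GHID : Stmt_GHID :=
  MPdd5692.stmt_GHID fin_GSIDX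
theorem fin_GPROJ : Stmt_GPROJ :=
  MPdd5692.stmt_GPROJ fin_GSIDX fin_GHID
theorem fin_GSTAT : Stmt_GSTAT :=
  MPdd5692.stmt_GSTAT fin_GKER fin_GCH
theorem fin_GTR : Stmt_GTR :=
  MPdd5692.stmt_GTR fin_GSIDX
theorem fin_MARKREF : Stmt_MARKREF :=
  MPdd5692.stmt_MARKREF fin_GSIDX fin_GKER fin_GBETA fin_GCH fin_GSUM fin_GHID fin_GPROJ fin_GSTAT fin_GTR
theorem fin_HARRISN : Stmt_HARRISN :=
  MPdd5692.stmt_HARRISN 
theorem fin_MEAS : Stmt_MEAS :=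
  MPdd5692.stmt_MEAS 
theorem fin_VOID : Stmt_VOID :=
  MPdd5692.stmt_VOID 
theorem fin_STATIC : Stmt_STATIC :=
  MPdd5692.stmt_STATIC fin_VOID
theorem fin_EB4 : Stmt_EB4 :=
  MPdd5692.stmt_EB4 
theorem fin_CIRC : Stmt_CIRC :=
  MPdd5692.stmt_CIRC fin_EB4
theorem fin_RDET : Stmt_RDET :=
  MPdd5692.stmt_RDET fin_CIRC
theorem fin_TRANS : Stmt_TRANS :=
  MPdd5692.stmt_TRANS 
theorem fin_RLOW : Stmt_RLOW :=
  MPdd5692.stmt_RLOW fin_HARRISN fin_MEAS fin_STATIC fin_TRANS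
theorem fin_QM : Stmt_QM :=
  MPdd5692.stmt_QM fin_HARRISN fin_CIRC
theorem fin_WILD : Stmt_WILD :=
  MPdd5692.stmt_WILD fin_VOID
theorem fin_INDEP : Stmt_INDEP :=
  MPdd5692.stmt_INDEP 
theorem fin_TAMEI : Stmt_TAMEI :=
  MPdd5692.stmt_TAMEI fin_INDEP
theorem fin_RUP1 : Stmt_RUP1 :=
  MPdd5692.stmt_RUP1 fin_QM fin_WILD fin_TAMEI fin_STATIC fin_TRANS fin_MEAS
theorem fin_RUP2 : Stmt_RUP2 :=
  MPdd5692.stmt_RUP2 fin_QM fin_WILD fin_TAMEI fin_STATIC fin_TRANS fin_MEAS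
theorem fin_RSUM : Stmt_RSUM :=
  MPdd5692.stmt_RSUM 
theorem fin_REC : Stmt_REC :=
  MPdd5692.stmt_REC fin_HARRISN fin_MEAS fin_STATIC fin_RDET fin_RLOW fin_RUP1 fin_RUP2 fin_RSUM
theorem fin_HOLEP : Stmt_HOLEP :=
  MPdd5692.stmt_HOLEP fin_VOID
theorem fin_LAM0 : Stmt_LAM0 :=
  MPdd5692.stmt_LAM0 fin_HARRISN fin_MEAS fin_STATIC fin_HOLEP fin_TRANS
theorem fin_C1 : Stmt_C1 :=
  MPdd5692.stmt_C1 fin_REC fin_LAM0
theorem fin_MEASE : Stmt_MEASE :=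
  MPdd5692.stmt_MEASE fin_MEAS
theorem fin_HATP : Stmt_HATP :=
  MPdd5692.stmt_HATP fin_HARRISN fin_MEAS fin_STATIC fin_TRANS fin_MEASE
theorem fin_SPLIT : Stmt_SPLIT :=
  MPdd5692.stmt_SPLIT 
theorem fin_MIX : Stmt_MIX :=
  MPdd5692.stmt_MIX 
theorem fin_NICEP : Stmt_NICEP :=
  MPdd5692.stmt_NICEP fin_HARRISN fin_MEAS fin_STATIC fin_SPLIT fin_MIX fin_MEASE fin_TRANS
theorem fin_NNP : Stmt_NNP :=
  MPdd5692.stmt_NNP fin_WILD fin_TAMEI fin_MEASE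
theorem fin_WLOW : Stmt_WLOW :=
  MPdd5692.stmt_WLOW fin_HARRISN fin_STATIC fin_MEAS
theorem fin_HARRIS : Stmt_HARRIS :=
  MPdd5692.stmt_HARRIS 
theorem fin_CIND : Stmt_CIND :=
  MPdd5692.stmt_CIND 
theorem fin_PSI : Stmt_PSI :=
  MPdd5692.stmt_PSI fin_HARRIS fin_MIX fin_SPLIT fin_STATIC fin_MEASE
theorem fin_FFP : Stmt_FFP :=
  MPdd5692.stmt_FFP fin_HARRIS fin_SPLIT fin_CIND fin_PSI fin_MEASE fin_WLOW
theorem fin_GOODP : Stmt_GOODP :=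
  MPdd5692.stmt_GOODP fin_WILD fin_MEASE fin_FFP
theorem fin_OCC0P : Stmt_OCC0P :=
  MPdd5692.stmt_OCC0P fin_HARRIS fin_MEASE fin_WLOW
theorem fin_VARM : Stmt_VARM :=
  MPdd5692.B35.stmt_VARM 
theorem fin_ARMDEC : Stmt_ARMDEC :=
  MPdd5692.stmt_ARMDEC fin_VARM fin_SPLIT fin_STATIC fin_MEAS
theorem fin_VRING : Stmt_VRING :=
  MPdd5692.B35.stmt_VRING 
theorem fin_DEC : Stmt_DEC :=
  MPdd5692.stmt_DEC fin_VRING fin_SPLIT fin_MEAS fin_WLOW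
theorem fin_BLOCK : Stmt_BLOCK :=
  MPdd5692.stmt_BLOCK fin_C1 fin_HATP fin_NICEP fin_NNP fin_WLOW fin_GOODP fin_OCC0P fin_ARMDEC fin_DEC
theorem fin_CHERN : Stmt_CHERN :=
  MPdd5692.stmt_CHERN 
theorem fin_NOFOLLOW : Stmt_NOFOLLOW :=
  MPdd5692.stmt_NOFOLLOW 
theorem fin_DECOUP : Stmt_DECOUP :=
  MPdd5692.stmt_DECOUP fin_INDEP fin_CHERN fin_NOFOLLOW
theorem fin_LIPPERC : Stmt_LIPPERC :=
  MPdd5692.stmt_LIPPERC 
theorem fin_LOC : Stmt_LOC :=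
  MPdd5692.stmt_LOC 
theorem fin_LINK : Stmt_LINK :=
  MPdd5692.stmt_LINK fin_CIRC fin_EB4
theorem fin_CHAIN : Stmt_CHAIN :=
  MPdd5692.stmt_CHAIN fin_CIRC fin_LINK
theorem fin_HOP : Stmt_HOP :=
  MPdd5692.stmt_HOP fin_CIRC
theorem fin_REACH : Stmt_REACH :=
  MPdd5692.stmt_REACH fin_CIRC fin_LOC fin_CHAIN fin_HOP
theorem fin_DEPG : Stmt_DEPG :=
  MPdd5692.stmt_DEPG fin_MEASE
theorem fin_LIP : Stmt_LIP :=
  MPdd5692.stmt_LIP 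
theorem fin_INFLMASS : Stmt_INFLMASS :=
  MPdd5692.stmt_INFLMASS 
theorem fin_SURVD : Stmt_SURVD :=
  MPdd5692.stmt_SURVD fin_BLOCK fin_DECOUP fin_LIPPERC fin_REACH fin_DEPG fin_LIP fin_INFLMASS fin_CIRC
theorem fin_START : Stmt_START :=
  MPdd5692.stmt_START fin_HARRIS fin_HOLEP fin_TRANS
theorem fin_BRIDGE : Stmt_BRIDGE :=
  MPdd5692.stmt_BRIDGE 
theorem fin_MONO : Stmt_MONO :=
  MPdd5692.stmt_MONO 
theorem fin_CORE : Stmt_CORE :=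
  MPdd5692.stmt_CORE fin_A fin_MARKREF fin_SURVD fin_START fin_BRIDGE fin_MONO

end MPdd5692
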