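import Pool.Agent.Work.MP_dd5692_pr.HARRIS

/-!
# MP_dd5692_pr, block HARRISF: the inequality of Harris for antitone functions with values in
`[0, 1]` (approximation by step functions).
-/

open MeasureTheory ProbabilityTheory Set
open scoped ENNReal NNReal BigOperators

namespace MPdd5692

namespace HARRISF

variable {ι : Type}

/-- level sets -/
def A (k : ℕ) (f : (ι → ℕ) → ℝ) (j : ℕ) : Set (ι → ℕ) := {ω | (j : ℝ) + 1 ≤ k * f ω}

/-- step approximation from below -/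
noncomputable def fk (k : ℕ) (f : (ι → ℕ) → ℝ) (ω : ι → ℕ) : ℝ :=
  (∑ j ∈ Finset.range k, (A k f j).indicator (fun _ => (1 : ℝ)) ω) / k

theorem A_meas (k : ℕ) {f : (ι → ℕ) → ℝ} (hf : Measurable f) (j : ℕ) : MeasurableSet (A k f j) :=
  measurableSet_le measurable_const (measurable_const.mul hf)

theorem A_decr (k : ℕ) {f : (ι → ℕ) → ℝ} (hf : Antitone f) (j : ℕ) : DecrS (A k f j) :=
  fun _ _ h h' => le_trans (show (j : ℝ) + 1 ≤ _ from h')
    (mul_le_mul_of_nonneg_left (hf h) (Nat.cast_nonneg k))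

theorem fk_eq {k : ℕ} {f : (ι → ℕ) → ℝ} {ω : ι → ℕ} (h0 : 0 ≤ f ω) (h1 : f ω ≤ 1) :
    fk k f ω = (⌊(k : ℝ) * f ω⌋₊ : ℝ) / k := by
  unfold fk
  congr 1
  have hn : ⌊(k : ℝ) * f ω⌋₊ ≤ k := by
    have : (k : ℝ) * f ω ≤ k := by
      have hk : (0 : ℝ) ≤ k := Nat.cast_nonneg k
      nlinarith
    calc ⌊(k : ℝ) * f ω⌋₊ ≤ ⌊(k : ℝ)⌋₊ := Nat.floor_le_floor this
      _ = k := Nat.floor_natCast k
  have h2 : ∀ j ∈ Finset.range k, (A k f j).indicator (fun _ => (1 : ℝ)) ω =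
      if j < ⌊(k : ℝ) * f ω⌋₊ then 1 else 0 := by
    intro j _
    have : ω ∈ A k f j ↔ j < ⌊(k : ℝ) * f ω⌋₊ := by
      rw [← Nat.succ_le_iff, Nat.le_floor_iff (by positivity)]
      simp only [A, Set.mem_ofPred_eq]
      push_cast
      rfl
    by_cases h : j < ⌊(k : ℝ) * f ω⌋₊
    · rw [Set.indicator_of_mem (this.2 h), if_pos h]
    · rw [Set.indicator_of_notMem (fun h' => h (this.1 h')), if_neg h]
  rw [Finset.sum_congr rfl h2, ← Finset.sum_filter]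
  rw [Finset.sum_const, nsmul_eq_mul, mul_one]
  congr 1
  have : (Finset.range k).filter (fun j => j < ⌊(k : ℝ) * f ω⌋₊) =
      Finset.range ⌊(k : ℝ) * f ω⌋₊ := by
    ext j
    simp only [Finset.mem_filter, Finset.mem_range]
    exact ⟨fun h => h.2, fun h => ⟨h.trans_le hn, h⟩⟩
  rw [this, Finset.card_range]

theorem fk_le {k : ℕ} (hk : 0 < k) {f : (ι → ℕ) → ℝ} {ω : ι → ℕ} (h0 : 0 ≤ f ω) (h1 : f ω ≤ 1) :
    0 ≤ fk k f ω ∧ fk k f ω ≤ f ω ∧ f ω ≤ fk k f ω + 1 / k := by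
  have hk' : (0 : ℝ) < k := Nat.cast_pos.2 hk
  rw [fk_eq h0 h1]
  refine ⟨by positivity, ?_, ?_⟩
  · rw [div_le_iff₀ hk', mul_comm (f ω)]
    exact Nat.floor_le (by positivity)
  · rw [← add_div, le_div_iff₀ hk', mul_comm (f ω)]
    exact (Nat.lt_floor_add_one _).le

theorem fk_meas (k : ℕ) {f : (ι → ℕ) → ℝ} (hf : Measurable f) : Measurable (fk k f) := by
  unfold fk
  refine Measurable.div_const (Finset.measurable_sum _ fun j _ => ?_) _
  exact measurable_const.indicator (A_meas k hf j)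

theorem int_fk (μ : ι → ℝ≥0) (k : ℕ) {f : (ι → ℕ) → ℝ} (hf : Measurable f) :
    ∫ ω, fk k f ω ∂(pois μ) = (∑ j ∈ Finset.range k, (pois μ).real (A k f j)) / k := by
  unfold fk
  rw [integral_div]
  congr 1
  rw [integral_finsetSum _ fun j _ =>
    (integrable_const (1 : ℝ)).indicator (A_meas k hf j)]
  refine Finset.sum_congr rfl fun j _ => ?_
  rw [integral_indicator_const _ (A_meas k hf j), smul_eq_mul, mul_one]

theorem int_fkgk (μ : ι → ℝ≥0) (k : ℕ) {f g : (ι → ℕ) → ℝ} (hf : Measurable f)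
    (hg : Measurable g) :
    ∫ ω, fk k f ω * fk k g ω ∂(pois μ) =
      (∑ j ∈ Finset.range k, ∑ l ∈ Finset.range k, (pois μ).real (A k f j ∩ A k g l)) / k / k := by
  have h1 : ∀ ω, fk k f ω * fk k g ω = (∑ j ∈ Finset.range k, ∑ l ∈ Finset.range k,
      (A k f j ∩ A k g l).indicator (fun _ => (1 : ℝ)) ω) / k / k := by
    intro ω
    unfold fk
    rw [div_mul_div_comm, ← div_div, Finset.sum_mul_sum]
    congr 2
    refine Finset.sum_congr rfl fun j _ => Finset.sum_congr rfl fun l _ => ?_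
    by_cases h : ω ∈ A k f j <;> by_cases h' : ω ∈ A k g l <;>
      simp [Set.indicator, h, h']
  simp only [h1]
  rw [integral_div, integral_div]
  congr 2
  rw [integral_finsetSum _ fun j _ => integrable_finsetSum _ fun l _ =>
    (integrable_const (1 : ℝ)).indicator ((A_meas k hf j).inter (A_meas k hg l))]
  refine Finset.sum_congr rfl fun j _ => ?_
  rw [integral_finsetSum _ fun l _ =>
    (integrable_const (1 : ℝ)).indicator ((A_meas k hf j).inter (A_meas k hg l))]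
  refine Finset.sum_congr rfl fun l _ => ?_
  rw [integral_indicator_const _ ((A_meas k hf j).inter (A_meas k hg l)), smul_eq_mul, mul_one]

theorem int_of_bdd (μ : ι → ℝ≥0) {f : (ι → ℕ) → ℝ} (hf : Measurable f)
    (h : ∀ ω, 0 ≤ f ω ∧ f ω ≤ 1) : Integrable f (pois μ) :=
  Integrable.of_bound hf.aestronglyMeasurable 1 (Filter.Eventually.of_forall fun ω => by
    rw [Real.norm_of_nonneg (h ω).1]; exact (h ω).2)

theorem fk_harris (μ : ι → ℝ≥0) (k : ℕ) {f g : (ι → ℕ) → ℝ} (hf : Measurable f)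
    (hg : Measurable g) (af : Antitone f) (ag : Antitone g) :
    (∫ ω, fk k f ω ∂(pois μ)) * (∫ ω, fk k g ω ∂(pois μ)) ≤
      ∫ ω, fk k f ω * fk k g ω ∂(pois μ) := by
  rw [int_fk μ k hf, int_fk μ k hg, int_fkgk μ k hf hg, div_mul_div_comm, ← div_div,
    Finset.sum_mul_sum]
  refine div_le_div_of_nonneg_right (div_le_div_of_nonneg_right ?_ (Nat.cast_nonneg k))
    (Nat.cast_nonneg k)
  exact Finset.sum_le_sum fun j _ => Finset.sum_le_sum fun l _ =>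
    HARRIS.main μ (A_meas k hf j) (A_meas k hg l) (A_decr k af j) (A_decr k ag l)

theorem main (μ : ι → ℝ≥0) {f g : (ι → ℕ) → ℝ} (hf : Measurable f) (hg : Measurable g)
    (af : Antitone f) (ag : Antitone g) (bf : ∀ ω, 0 ≤ f ω ∧ f ω ≤ 1)
    (bg : ∀ ω, 0 ≤ g ω ∧ g ω ≤ 1) :
    (∫ ω, f ω ∂(pois μ)) * (∫ ω, g ω ∂(pois μ)) ≤ ∫ ω, f ω * g ω ∂(pois μ) := by
  refine le_of_forall_pos_le_add fun ε hε => ?_
  obtain ⟨k, hk⟩ := exists_nat_gt (3 / ε)
  have hk0 : (0 : ℝ) < k := (by positivity : (0 : ℝ) < 3 / ε).trans hk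
  have hkn : 0 < k := Nat.cast_pos.1 hk0
  have hk1 : (1 : ℝ) ≤ k := by exact_mod_cast hkn
  have h3 : 3 / (k : ℝ) < ε := by
    rw [div_lt_iff₀ hk0, mul_comm]
    rwa [div_lt_iff₀ hε] at hk
  have bfk : ∀ ω, 0 ≤ fk k f ω ∧ fk k f ω ≤ 1 := fun ω =>
    ⟨(fk_le hkn (bf ω).1 (bf ω).2).1, (fk_le hkn (bf ω).1 (bf ω).2).2.1.trans (bf ω).2⟩
  have bgk : ∀ ω, 0 ≤ fk k g ω ∧ fk k g ω ≤ 1 := fun ω =>
    ⟨(fk_le hkn (bg ω).1 (bg ω).2).1, (fk_le hkn (bg ω).1 (bg ω).2).2.1.trans (bg ω).2⟩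
  have i1 := int_of_bdd μ (fk_meas k hf) bfk
  have i2 := int_of_bdd μ (fk_meas k hg) bgk
  have u1 : ∫ ω, f ω ∂(pois μ) ≤ ∫ ω, fk k f ω ∂(pois μ) + 1 / k := by
    have : ∫ ω, f ω ∂(pois μ) ≤ ∫ ω, (fk k f ω + 1 / k) ∂(pois μ) :=
      integral_mono (int_of_bdd μ hf bf) (i1.add (integrable_const _))
        fun ω => (fk_le hkn (bf ω).1 (bf ω).2).2.2
    rwa [integral_add i1 (integrable_const _), integral_const, probReal_univ, one_smul] at this
  have u2 : ∫ ω, g ω ∂(pois μ) ≤ ∫ ω, fk k g ω ∂(pois μ) + 1 / k := by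
    have : ∫ ω, g ω ∂(pois μ) ≤ ∫ ω, (fk k g ω + 1 / k) ∂(pois μ) :=
      integral_mono (int_of_bdd μ hg bg) (i2.add (integrable_const _))
        fun ω => (fk_le hkn (bg ω).1 (bg ω).2).2.2
    rwa [integral_add i2 (integrable_const _), integral_const, probReal_univ, one_smul] at this
  have u3 : ∫ ω, fk k f ω * fk k g ω ∂(pois μ) ≤ ∫ ω, f ω * g ω ∂(pois μ) := by
    refine integral_mono (int_of_bdd μ ((fk_meas k hf).mul (fk_meas k hg)) fun ω =>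
      ⟨mul_nonneg (bfk ω).1 (bgk ω).1, mul_le_one₀ (bfk ω).2 (bgk ω).1 (bgk ω).2⟩)
      (int_of_bdd μ (hf.mul hg) fun ω =>
      ⟨mul_nonneg (bf ω).1 (bg ω).1, mul_le_one₀ (bf ω).2 (bg ω).1 (bg ω).2⟩) fun ω => ?_
    exact mul_le_mul (fk_le hkn (bf ω).1 (bf ω).2).2.1 (fk_le hkn (bg ω).1 (bg ω).2).2.1
      (bgk ω).1 (bf ω).1
  have u4 := fk_harris μ k hf hg af ag
  have a0 : 0 ≤ ∫ ω, f ω ∂(pois μ) := integral_nonneg fun ω => (bf ω).1
  have b0 : 0 ≤ ∫ ω, g ω ∂(pois μ) := integral_nonneg fun ω => (bg ω).1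
  have a1 : 0 ≤ ∫ ω, fk k f ω ∂(pois μ) := integral_nonneg fun ω => (bfk ω).1
  have b1 : 0 ≤ ∫ ω, fk k g ω ∂(pois μ) := integral_nonneg fun ω => (bgk ω).1
  have a2 : ∫ ω, fk k f ω ∂(pois μ) ≤ 1 := by
    have := integral_mono i1 (integrable_const (1 : ℝ)) fun ω => (bfk ω).2
    simpa using this
  have b2 : ∫ ω, fk k g ω ∂(pois μ) ≤ 1 := by
    have := integral_mono i2 (integrable_const (1 : ℝ)) fun ω => (bgk ω).2
    simpa using this
  have hkk : 0 < 1 / (k : ℝ) := by positivity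
  have hkk1 : 1 / (k : ℝ) ≤ 1 := by rw [div_le_one hk0]; exact hk1
  calc (∫ ω, f ω ∂(pois μ)) * (∫ ω, g ω ∂(pois μ))
      ≤ (∫ ω, fk k f ω ∂(pois μ) + 1 / k) * (∫ ω, fk k g ω ∂(pois μ) + 1 / k) :=
        mul_le_mul u1 u2 b0 (by positivity)
    _ ≤ (∫ ω, fk k f ω ∂(pois μ)) * (∫ ω, fk k g ω ∂(pois μ)) + 3 * (1 / k) := by nlinarith
    _ ≤ ∫ ω, f ω * g ω ∂(pois μ) + ε := by
        have : 3 * (1 / (k : ℝ)) = 3 / k := by ring
        linarith

end HARRISF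

theorem stmt_HARRISF : Stmt_HARRISF := fun _ _ μ _ _ hf hg af ag bf bg =>
  HARRISF.main μ hf hg af ag bf bg

end MPdd5692
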