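import Pool.Agent.Work.MP_dd5692_pr.DefsA

/-!
# MP_dd5692_pr, d = 2, part (A): block statements (helper80)

Every block `X` = prove `theorem stmt_X (h1 : Stmt_Y) ... : Stmt_X` from the listed dependencies, in the
file `Pool/Agent/Work/MP_dd5692_pr/A/X.lean` (own lemmas in namespace Pool.Det5.X_).  Proofs on paper: PARTA80.md.
-/

set_option autoImplicit false

namespace Pool.Det5

open MeasureTheory MPdd5692
open scoped ENNReal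

/-! ## PR: probability -/

/-- MEAS: events depending on finitely many cells are measurable -/
def Stmt_MEAS : Prop := ∀ (D : Set Site) (E : Set Cfg), D.Finite → Dep D E → MeasurableSet E

/-- INV: the law is invariant under all bijections of the sites -/
def Stmt_INV : Prop := ∀ (q : unitInterval) (σ : Site ≃ Site) (E : Set Cfg), MeasurableSet E →
  (mu q).real {ω | (fun z => ω (σ z)) ∈ E} = (mu q).real E

/-- HAR: Harris' inequality for events with finite support -/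
def Stmt_HAR : Prop := ∀ (q : unitInterval) (D : Set Site) (E F : Set Cfg), D.Finite → Dep D E →
  Dep D F → VInc E → VInc F → (mu q).real E * (mu q).real F ≤ (mu q).real (E ∩ F)

/-- IND: independence of events with disjoint finite supports -/
def Stmt_IND : Prop := ∀ (q : unitInterval) (D D' : Set Site) (E F : Set Cfg), D.Finite →
  D'.Finite → Disjoint D D' → Dep D E → Dep D' F →
  (mu q).real (E ∩ F) = (mu q).real E * (mu q).real F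

/-- RES: resampling off `D` -/
def Stmt_RES : Prop := ∀ (q : unitInterval) (D : Set Site) (A E Y : Set Cfg), D.Finite → Dep D A →
  MeasurableSet E → MeasurableSet Y → (∀ ω ω', ω ∈ A → ω' ∈ E → mix D ω ω' ∈ Y) →
  (mu q).real A * (mu q).real E ≤ (mu q).real (A ∩ Y)

/-- CYL: the cells of a finite set are all open with probability `(1-q)^card` -/
def Stmt_CYL : Prop := ∀ (q : unitInterval) (D : Finset Site),
  (mu q).real {ω | ∀ z ∈ D, ω z = false} = (1 - (q : ℝ)) ^ D.card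

/-! ## V: the same for properties of the vacant set -/

/-- VLOC: localisation, monotonicity, measurability (deps: MEAS) -/
def Stmt_VLOC : Prop := ∀ (S : Shape) (P : Set Site → Prop),
  (∀ B : Set Site, Loc B P → Dep {y | ∃ z ∈ B, ∃ k ∈ S.K, y = z + k} {ω | P (vac S ω)}) ∧
  (∀ B : Set Site, B.Finite → ({y | ∃ z ∈ B, ∃ k ∈ S.K, y = z + k} : Set Site).Finite) ∧
  (Mono P → VInc {ω | P (vac S ω)}) ∧ (LocF P → MeasurableSet {ω | P (vac S ω)})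

/-- VHAR: Harris for increasing / decreasing / mixed properties (deps: HAR, VLOC) -/
def Stmt_VHAR : Prop := ∀ (S : Shape) (q : unitInterval) (P Q : Set Site → Prop), LocF P → LocF Q →
  ((Mono P → Mono Q → pr S q P * pr S q Q ≤ pr S q (fun W => P W ∧ Q W)) ∧
  (Anti P → Anti Q → pr S q P * pr S q Q ≤ pr S q (fun W => P W ∧ Q W)) ∧
  (Mono P → Anti Q → pr S q (fun W => P W ∧ Q W) ≤ pr S q P * pr S q Q))

/-- VHARN: Harris for finite families and the square root trick (deps: VHAR, VLOC) -/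
def Stmt_VHARN : Prop := ∀ (S : Shape) (q : unitInterval) (ι : Type) (s : Finset ι)
  (P : ι → Set Site → Prop), (∀ i ∈ s, LocF (P i)) →
  ((∀ i ∈ s, Mono (P i)) → ∏ i ∈ s, pr S q (P i) ≤ pr S q (fun W => ∀ i ∈ s, P i W)) ∧
  ((∀ i ∈ s, Anti (P i)) → ∏ i ∈ s, pr S q (P i) ≤ pr S q (fun W => ∀ i ∈ s, P i W)) ∧
  ((∀ i ∈ s, Mono (P i)) → ∏ i ∈ s, (1 - pr S q (P i)) ≤ 1 - pr S q (fun W => ∃ i ∈ s, P i W))

/-- VIND: independence of properties of separated regions (deps: IND, VLOC) -/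
def Stmt_VIND : Prop := ∀ (S : Shape) (q : unitInterval) (B B' : Set Site) (P Q : Set Site → Prop),
  B.Finite → B'.Finite → Loc B P → Loc B' Q →
  (∀ z ∈ B, ∀ z' ∈ B', 2 * (S.ρ : ℤ) < |z.1 - z'.1| ∨ 2 * (S.ρ : ℤ) < |z.2 - z'.2|) →
  pr S q (fun W => P W ∧ Q W) = pr S q P * pr S q Q

/-- VINDN: the same for `n` regions (deps: VIND) -/
def Stmt_VINDN : Prop := ∀ (S : Shape) (q : unitInterval) (n : ℕ) (B : ℕ → Set Site)
  (P : ℕ → Set Site → Prop), (∀ i < n, (B i).Finite) → (∀ i < n, Loc (B i) (P i)) →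
  (∀ i < n, ∀ j < i, ∀ z ∈ B i, ∀ z' ∈ B j,
    2 * (S.ρ : ℤ) < |z.1 - z'.1| ∨ 2 * (S.ρ : ℤ) < |z.2 - z'.2|) →
  pr S q (fun W => ∀ i < n, P i W) = ∏ i ∈ Finset.range n, pr S q (P i)

/-- VSYM: invariance under the symmetries of the mesh (deps: INV, VLOC) -/
def Stmt_VSYM : Prop := ∀ (S : Shape) (q : unitInterval) (g : Site ≃ Site) (P : Set Site → Prop),
  IsSym g → LocF P → pr S q (fun W => P (g ⁻¹' W)) = pr S q P

/-- PHC: probabilities of crossings only depend on the side lengths (deps: VSYM) -/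
def Stmt_PHC : Prop := ∀ (S : Shape) (q : unitInterval) (a b c d : ℤ),
  pr S q (fun W => HC Adj4 W a b c d) = f S q (b - a) (d - c) ∧
  pr S q (fun W => VC Adj4 W a b c d) = f S q (d - c) (b - a)

/-- FMONO (no deps: uses `HC.shrink`, `HC.tall`) -/
def Stmt_FMONO : Prop := ∀ (S : Shape) (q : unitInterval) (d w d' w' : ℤ), 0 ≤ d' → d' ≤ d →
  w ≤ w' → f S q d w ≤ f S q d' w'

/-- LOCS: the properties used are increasing and local -/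
def Stmt_LOCS : Prop := ∀ (A : Site → Site → Prop) (a b c d t w h m H x0 : ℤ),
  Mono (fun W => HC A W a b c d) ∧ Loc (Box a b c d) (fun W => HC A W a b c d) ∧
  Mono (fun W => VC A W a b c d) ∧ Loc (Box a b c d) (fun W => VC A W a b c d) ∧
  Mono (YY w h m H) ∧ LocF (YY w h m H) ∧ Mono (YS w h m H x0) ∧ LocF (YS w h m H x0) ∧
  Mono (Circ a b c d t) ∧ LocF (Circ a b c d t) ∧ Anti (NoX a b c d t) ∧ LocF (NoX a b c d t) ∧
  (a ≤ b → c ≤ d → 0 ≤ t → Loc (Ring a b c d t) (NoX a b c d t)) ∧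
  (Box a b c d).Finite ∧ (Ring a b c d t).Finite

/-! ## EXT, GLUE -/

/-- EXTD: a crossing of distance `d` is contained in one of the windows of width `w` or crosses a
`d × d` square (deterministic; uses `subV`) -/
def Stmt_EXTD : Prop := ∀ (W : Set Site) (s d w H : ℤ), 1 ≤ s → 0 ≤ d → d + 2 * s ≤ w →
  HC Adj4 W 0 d 0 H → ∃ j : ℕ, (j : ℤ) * s ≤ H ∧
    (HC Adj4 W 0 d (j * s) (j * s + w) ∨ VC Adj4 W 0 d (j * s) (j * s + d))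

/-- EXT (deps: EXTD, PHC, FMONO, VHARN, VLOC, LOCS) -/
def Stmt_EXT : Prop := ∀ (S : Shape) (q : unitInterval) (s d w H : ℤ) (M : ℕ), 1 ≤ s → 0 ≤ d →
  d + 2 * s ≤ w → H < (M + 1) * s →
  f S q d H ≤ 2 * (M + 1) * f S q d w ∧ (1 - f S q d w) ^ (2 * (M + 1)) ≤ 1 - f S q d H

/-- DGLUE (deps: PL1) -/
def Stmt_DGLUE : Prop := ∀ (W : Set Site) (a a' b b' c d : ℤ), a ≤ a' → a' ≤ b → b ≤ b' →
  HC Adj4 W a b c d → HC Adj4 W a' b' c d → VC Adj4 W a' b c d → HC Adj4 W a b' c d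

/-- GLUE (deps: DGLUE, VHAR, PHC, FMONO, LOCS) -/
def Stmt_GLUE : Prop := ∀ (S : Shape) (q : unitInterval) (w t : ℤ), 0 ≤ w → 0 ≤ t → ∀ k : ℕ,
  1 ≤ k → f S q (w + t) w ^ (2 * k - 1) ≤ f S q (w + k * t) w

/-! ## BR: the bridge -/

/-- BRP: existence of the left-most crossing (deps: PL2) -/
def Stmt_BRP : Prop := ∀ (w h : ℤ) (u : Set Site), 0 ≤ w → 1 ≤ h → u ⊆ Box 0 w 0 h →
  (∀ z ∈ u, z.1 < w) → ∃ (P : Set Site) (e : ℤ), IsPi w h u P e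

/-- BRC: the curve crosses the large box (no deps) -/
def Stmt_BRC : Prop := ∀ (ρ : ℕ) (w h m : ℤ) (u P : Set Site) (e : ℤ), 1 ≤ h → w ≤ m →
  IsPi w h u P e → VC Adj4 (curve ρ h P e) 0 m 0 (HH ρ h)

/-- BRKEY: no closed explored cell influences a site on the right of the curve (deps: PL1, BRC) -/
def Stmt_BRKEY : Prop := ∀ (S : Shape) (w h m : ℤ) (u P : Set Site) (e : ℤ), 0 ≤ w → 1 ≤ h →
  w + S.ρ + 1 ≤ m → u ⊆ Box 0 w 0 h → Rooted u → IsPi w h u P e → ∀ y z : Site,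
  (∃ s ∈ u, ∃ k ∈ S.K, y = s + k) → (∀ t ∈ bdL u 0 w 0 h, ∀ k ∈ S.K, y ≠ t + k) →
  z ∈ Box 0 m 0 (HH S.ρ h) → z ∉ curve S.ρ h P e → z ∉ ZZ S.ρ h e →
  (∃ y' : ℤ, Linked Adj4 (Box 0 m 0 (HH S.ρ h) \ curve S.ρ h P e) (m, y') z) →
  ∀ k ∈ S.K, y ≠ z + k

/-- BRCOV: a crossing of the large box gives F1, F2 or F3 (deps: PL1, BRC) -/
def Stmt_BRCOV : Prop := ∀ (ρ : ℕ) (w h m : ℤ) (u P : Set Site) (e : ℤ) (X : Set Site), 0 ≤ w →
  1 ≤ h → w + ρ + 1 ≤ m → IsPi w h u P e → HC Adj4 X 0 m 0 (HH ρ h) →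
  F1 ρ h m P e X ∨ F2 ρ h m P e X ∨ F3 ρ h m P e X

/-- BRO: F2 is impossible if the sites next to `Z` are not vacant (deps: PL1, BRC) -/
def Stmt_BRO : Prop := ∀ (ρ : ℕ) (w h m : ℤ) (u P : Set Site) (e : ℤ) (X : Set Site), 0 ≤ w →
  1 ≤ h → w + ρ + 1 ≤ m → IsPi w h u P e → OO ρ h e X → ¬ F2 ρ h m P e X

/-- BRTR: vacancy in the resampled configuration (deps: BRKEY) -/
def Stmt_BRTR : Prop := ∀ (S : Shape) (w h m : ℤ) (u P : Set Site) (e : ℤ) (ω ω' : Cfg), 0 ≤ w →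
  1 ≤ h → w + S.ρ + 1 ≤ m → expl S w h ω = u → IsPi w h u P e →
  (∀ z ∈ bdL u 0 w 0 h, z ∈ vac S (mix (DD S w h u) ω ω')) ∧
  (∀ z ∈ Box 0 m 0 (HH S.ρ h), z ∉ curve S.ρ h P e → z ∉ ZZ S.ρ h e →
    (∃ y' : ℤ, Linked Adj4 (Box 0 m 0 (HH S.ρ h) \ curve S.ρ h P e) (m, y') z) →
    z ∈ vac S ω' → z ∈ vac S (mix (DD S w h u) ω ω'))

/-- BRY1: F1 gives Y (deps: BRTR) -/
def Stmt_BRY1 : Prop := ∀ (S : Shape) (w h m : ℤ) (u P : Set Site) (e : ℤ) (ω ω' : Cfg), 0 ≤ w →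
  1 ≤ h → w + S.ρ + 1 ≤ m → expl S w h ω = u → IsPi w h u P e → F1 S.ρ h m P e (vac S ω') →
  YY w h m (HH S.ρ h) (vac S (mix (DD S w h u) ω ω'))

/-- BRY2: F2 and open cells around the bridge give Y (deps: BRTR, PL1, BRC) -/
def Stmt_BRY2 : Prop := ∀ (S : Shape) (w h m : ℤ) (u P : Set Site) (e : ℤ) (ω ω' : Cfg), 0 ≤ w →
  1 ≤ h → w + S.ρ + 1 ≤ m → expl S w h ω = u → IsPi w h u P e → F2 S.ρ h m P e (vac S ω') →
  ω' ∈ CLR S.ρ h e → YY w h m (HH S.ρ h) (vac S (mix (DD S w h u) ω ω'))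

/-- BRF13: F1 and F3 are mirror images (deps: VSYM) -/
def Stmt_BRF13 : Prop := ∀ (S : Shape) (q : unitInterval) (h m : ℤ) (P : Set Site) (e : ℤ),
  pr S q (F1 S.ρ h m P e) = pr S q (F3 S.ρ h m P e)

/-- BRLOC: F1, F2, F3 increasing, OO decreasing, all local; CLR (no deps) -/
def Stmt_BRLOC : Prop := ∀ (ρ : ℕ) (h m : ℤ) (P : Set Site) (e : ℤ),
  (Mono (F1 ρ h m P e) ∧ LocF (F1 ρ h m P e)) ∧ (Mono (F2 ρ h m P e) ∧ LocF (F2 ρ h m P e)) ∧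
  (Mono (F3 ρ h m P e) ∧ LocF (F3 ρ h m P e)) ∧ (Anti (OO ρ h e) ∧ LocF (OO ρ h e)) ∧
  VInc (CLR ρ h e) ∧ (∃ D : Set Site, D.Finite ∧ Dep D (CLR ρ h e))

/-- BRCB: probability of CLR (deps: CYL) -/
def Stmt_BRCB : Prop := ∀ (S : Shape) (q : unitInterval) (h e : ℤ),
  (1 - (q : ℝ)) ^ (30 * S.ρ ^ 2) ≤ (mu q).real (CLR S.ρ h e)

/-- BRCR: probability of OO; 8 blocks of side `ρ0 + 1` cover the sites, a closed cell in a block
makes all its sites non-vacant (deps: CYL, VHARN or HAR, VLOC, BRLOC) -/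
def Stmt_BRCR : Prop := ∀ (S : Shape) (q : unitInterval) (h e : ℤ),
  (1 - (1 - (q : ℝ)) ^ ((S.ρ0 + 1) ^ 2)) ^ 8 ≤ pr S q (OO S.ρ h e)

/-- EXPL: properties of the explored set (deps: PL1, PL2) -/
def Stmt_EXPL : Prop := ∀ (S : Shape) (w h : ℤ), 0 ≤ w → 0 ≤ h →
  (∀ ω, expl S w h ω ⊆ Box 0 w 0 h ∧ Rooted (expl S w h ω) ∧
    (VC Adj4 (vac S ω) 0 w 0 h ↔ ∀ z ∈ expl S w h ω, z.1 < w)) ∧
  (∀ u : Set Site, u ⊆ Box 0 w 0 h → (DD S w h u).Finite ∧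
    Dep (DD S w h u) {ω | expl S w h ω = u})

/-- BRSUM: summation over the explored set (deps: EXPL, RES, MEAS, LOCS, VLOC, PHC) -/
def Stmt_BRSUM : Prop := ∀ (S : Shape) (q : unitInterval) (w h m H : ℤ) (x : ℝ), 0 ≤ w → 0 ≤ h →
  0 ≤ x →
  (∀ u : Set Site, u ⊆ Box 0 w 0 h → Rooted u → (∀ z ∈ u, z.1 < w) →
    ∃ E : Set Cfg, MeasurableSet E ∧ x ≤ (mu q).real E ∧ ∀ ω ω' : Cfg, expl S w h ω = u →
      ω' ∈ E → YY w h m H (vac S (mix (DD S w h u) ω ω'))) →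
  x * f S q h w ≤ pr S q (YY w h m H)

/-- BRLOW (deps: BRSUM, BRP, BRCOV, BRY1, BRY2, BRF13, BRLOC, BRCB, VLOC, HAR, PHC) -/
def Stmt_BRLOW : Prop := ∀ (S : Shape) (q : unitInterval) (cb : ℝ) (w h m : ℤ), 0 < cb →
  cb ≤ (1 - (q : ℝ)) ^ (30 * S.ρ ^ 2) → 0 ≤ w → 1 ≤ h → w + S.ρ + 1 ≤ m →
  cb / 4 * f S q m (HH S.ρ h) * f S q h w ≤ pr S q (YY w h m (HH S.ρ h))

/-- BRHIGH (deps: BRSUM, BRP, BRCOV, BRY1, BRO, BRF13, BRLOC, BRCR, VLOC, VHAR, PHC) -/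
def Stmt_BRHIGH : Prop := ∀ (S : Shape) (q : unitInterval) (cr : ℝ) (w h m : ℤ), 0 < cr →
  cr ≤ (1 - (1 - (q : ℝ)) ^ ((S.ρ0 + 1) ^ 2)) ^ 8 → 0 ≤ w → 1 ≤ h → w + S.ρ + 1 ≤ m →
  (1 - Real.sqrt ((1 - f S q m (HH S.ρ h)) / cr)) * f S q h w ≤ pr S q (YY w h m (HH S.ρ h))

/-! ## SHIFT -/

/-- SH1: if the clusters of the two feet are disjoint, the foot of the mirror image is on the left
(deps: PL1) -/
def Stmt_SH1 : Prop := ∀ (A B : Set Site) (w m H x0 x x' y y' : ℤ), 0 ≤ x0 → x0 + w ≤ m →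
  Disjoint A B → A ⊆ Box 0 m 0 H → B ⊆ Box (x0 + w - m) (x0 + w) 0 H →
  Linked Adj4 A (x, 0) (m, y) → Linked Adj4 B (x', 0) (x0 + w - m, y') → x' < x

/-- SH2: then the bottom-top crossing from the right foot stays on the right of column `x0`
(deps: PL1) -/
def Stmt_SH2 : Prop := ∀ (A B : Set Site) (w h x0 x x1 x' x2 : ℤ), 0 ≤ x0 → 0 ≤ h →
  Disjoint A B → A ⊆ Box 0 w 0 h → B ⊆ Box x0 (x0 + w) 0 h → x' < x →
  Linked Adj4 A (x, 0) (x1, h) → Linked Adj4 B (x', 0) (x2, h) →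
  VC Adj4 A x0 w 0 h

/-- SHIFT (deps: SH1, SH2) -/
def Stmt_SHIFT : Prop := ∀ (W : Set Site) (w h m H x0 : ℤ), 0 ≤ x0 → x0 + w ≤ m → 0 ≤ h → h ≤ H →
  YY w h m H W → YS w h m H x0 W → HC Adj4 W (x0 + w - m) m 0 H ∨ VC Adj4 W x0 w 0 h

/-! ## RSW -/

/-- YSYM (deps: VSYM, LOCS) -/
def Stmt_YSYM : Prop := ∀ (S : Shape) (q : unitInterval) (w h m H x0 : ℤ),
  pr S q (YS w h m H x0) = pr S q (YY w h m H)

/-- RSWL (deps: BRLOW, SHIFT, YSYM, EXT, VHAR, PHC, FMONO, LOCS) -/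
def Stmt_RSWL : Prop := ∀ (S : Shape) (q : unitInterval) (c1 cb cr : ℝ) (g n1 N k : ℤ),
  Good S q c1 cb cr g n1 N → 2 * (S.ρ : ℤ) + 1 ≤ g * k → n1 ≤ 20 * (g * k) →
  38 * (g * k) ≤ N →
  (cb * c1 ^ 2 / (4 * 122 * 230)) ^ 2 / 2 ≤
    max (f S q (20 * (g * k)) (18 * (g * k))) (f S q (50 * (g * k)) (41 * (g * k)))

/-- RSWH (deps: BRHIGH, SHIFT, YSYM, VHAR, PHC, FMONO, LOCS) -/
def Stmt_RSWH : Prop := ∀ (S : Shape) (q : unitInterval) (cr δ : ℝ) (s : ℤ), 0 < cr →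
  cr ≤ (1 - (1 - (q : ℝ)) ^ ((S.ρ0 + 1) ^ 2)) ^ 8 → 0 ≤ δ → 2 * (S.ρ : ℤ) + 1 ≤ s →
  1 - δ ≤ f S q (20 * s) (22 * s) → 1 - δ ≤ f S q (38 * s) (40 * s) →
  (1 - f S q (50 * s) (41 * s)) * (1 - f S q (20 * s) (18 * s)) ≤ 2 * (δ + Real.sqrt (δ / cr))

/-- A1: long vacant crossings (deps: RSWL, GLUE, FMONO) -/
def Stmt_A1 : Prop := ∀ c1 cb : ℝ, 0 < c1 → 0 < cb → ∃ c : ℕ → ℝ, (∀ L, 0 < c L) ∧
  ∀ (S : Shape) (q : unitInterval) (cr : ℝ) (g n1 N : ℤ), Good S q c1 cb cr g n1 N →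
  ∀ (L : ℕ) (n : ℤ), 4 * n1 ≤ n → n ≤ N → c L ≤ f S q (L * n) n

/-- A2: easy vacant crossings are not certain (deps: RSWH, GLUE, EXT, FMONO) -/
def Stmt_A2 : Prop := ∀ c1 cr : ℝ, 0 < c1 → 0 < cr → ∃ δ : ℕ → ℝ, (∀ L, 0 < δ L) ∧
  ∀ (S : Shape) (q : unitInterval) (cb : ℝ) (g n1 N : ℤ), Good S q c1 cb cr g n1 N →
  ∀ (L : ℕ) (n : ℤ), 4 * n1 ≤ n → 2 * n ≤ N → f S q n (L * n) ≤ 1 - δ L

/-! ## rings and arms -/

/-- CIRC: four long crossings form a circuit (deps: PL1) -/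
def Stmt_CIRC : Prop := ∀ (a b c d t : ℤ) (W : Set Site), a ≤ b → c ≤ d → 0 ≤ t →
  Circ a b c d t W → ∃ g ∈ W ∩ Ring a b c d t, ∀ (X : Set Site) (u v : Site), u ∈ Box a b c d →
    v ∉ Box (a - t) (b + t) (c - t) (d + t) → Linked Adj8 X u v →
    ∃ p, Linked Adj4 (W ∩ Ring a b c d t) g p ∧ Linked Adj8 X u p

/-- NOX: no short crossings, no vacant crossing of the ring (no deps: `subV`, `subH`) -/
def Stmt_NOX : Prop := ∀ (a b c d t : ℤ) (W : Set Site), a ≤ b → c ≤ d → 0 ≤ t →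
  NoX a b c d t W → ∀ u ∈ Box a b c d, ∀ v, v ∉ Box (a - t) (b + t) (c - t) (d + t) →
    ¬ Linked Adj4 W u v

/-- A1C (deps: A1, VHARN or VHAR, PHC, FMONO, LOCS) -/
def Stmt_A1C : Prop := ∀ c1 cb : ℝ, 0 < c1 → 0 < cb → ∃ c : ℕ → ℝ, (∀ L, 0 < c L) ∧
  ∀ (S : Shape) (q : unitInterval) (cr : ℝ) (g n1 N : ℤ), Good S q c1 cb cr g n1 N →
  ∀ (L : ℕ) (a b e d t : ℤ), a ≤ b → e ≤ d → b - a ≤ L * t → d - e ≤ L * t → 4 * n1 ≤ t →
  t ≤ N → c L ≤ pr S q (Circ a b e d t)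

/-- A2N (deps: A2, VHARN or VHAR, PHC, FMONO, LOCS) -/
def Stmt_A2N : Prop := ∀ c1 cr : ℝ, 0 < c1 → 0 < cr → ∃ δ : ℕ → ℝ, (∀ L, 0 < δ L) ∧
  ∀ (S : Shape) (q : unitInterval) (cb : ℝ) (g n1 N : ℤ), Good S q c1 cb cr g n1 N →
  ∀ (L : ℕ) (a b e d t : ℤ), a ≤ b → e ≤ d → b - a ≤ L * t → d - e ≤ L * t → 4 * n1 ≤ t →
  2 * t ≤ N → δ L ≤ pr S q (NoX a b e d t)

/-- ALUP: upper bound for the one-arm probability, powers of 4 (deps: A2N, NOX, VINDN, LOCS) -/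
def Stmt_ALUP : Prop := ∀ c1 cr : ℝ, 0 < c1 → 0 < cr → ∃ θ : ℝ, 0 < θ ∧ θ < 1 ∧
  ∀ (S : Shape) (q : unitInterval) (cb : ℝ) (g n1 N : ℤ), Good S q c1 cb cr g n1 N →
  ∀ (n : ℕ) (a : ℤ), 4 * n1 ≤ a → 4 ^ n * a ≤ N → al S q a (4 ^ n * a) ≤ θ ^ n

/-- HALF: a path from `[x-a,x+a] × {0}` to height `2a` in the upper half plane part `T` of the
vacant set meets the half circuit, so it is joined to the right foot (deps: PL1) -/
def Stmt_HALF : Prop := ∀ (x a R lo hi : ℤ) (W : Set Site) (u v : Site), 0 ≤ a → 2 * a ≤ R →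
  lo ≤ x - 2 * a → x + 2 * a ≤ hi → Half x a W → x - a ≤ u.1 → u.1 ≤ x + a → u.2 = 0 →
  2 * a ≤ v.2 → Linked Adj4 (W ∩ Box lo hi 0 R) u v →
  ∃ p : ℤ, x + a ≤ p ∧ p ≤ x + 2 * a ∧ Linked Adj4 (W ∩ Box lo hi 0 R) (p, 0) v

/-- ALLOW: lower bound for the one-arm probability with exponent < 1 at powers of 4
(deps: A1, HALF, VINDN, VHAR, VSYM, PHC, LOCS) -/
def Stmt_ALLOW : Prop := ∀ c1 cb : ℝ, 0 < c1 → 0 < cb → ∃ c θ : ℝ, 0 < c ∧ 1 / 4 < θ ∧ θ < 1 ∧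
  ∀ (S : Shape) (q : unitInterval) (cr : ℝ) (g n1 N : ℤ), Good S q c1 cb cr g n1 N →
  ∀ (n : ℕ) (a : ℤ), 4 * n1 ≤ a → 4 ^ n * a ≤ N → c * (4 * θ) ^ (-(n : ℤ)) ≤ al S q a (4 ^ n * a)

end Pool.Det5
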