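import Pool.Agent.Work.MP_dd5692_pr.InterfaceA
import Pool.Agent.Work.MP_dd5692_pr.Defs

/-!
# MP_dd5692_pr, d = 2, part (A): transfer from `EV`, `EO` to `Good` and from (A) to `StaticOK`
(helper80).  Blocks: files `Pool/Agent/Work/MP_dd5692_pr/A/X.lean`.
-/

set_option autoImplicit false

namespace Pool.Det5

open MeasureTheory MPdd5692 ProbabilityTheory
open scoped ENNReal NNReal

/-- probability that a mesh cell contains a particle -/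
noncomputable def qof (l : ℝ≥0) (j : ℕ) : unitInterval :=
  ⟨1 - Real.exp (-((l : ℝ) * (1 / 4) ^ j)), by
    constructor
    · have : Real.exp (-((l : ℝ) * (1 / 4) ^ j)) ≤ 1 := by
        rw [Real.exp_le_one_iff]
        have : 0 ≤ (l : ℝ) * (1 / 4) ^ j := by positivity
        linarith
      linarith
    · have := Real.exp_pos (-((l : ℝ) * (1 / 4) ^ j))
      linarith⟩

/-- the shape of the mesh model: `K = offs ρ` -/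
def IsShape (S : Shape) (ρ : ℝ) : Prop := ∀ v : Site, v ∈ S.K ↔ v ∈ offs ρ

/-- SHAPE: for `ρ ≥ 3` the set `offs ρ` is a shape, with outer radius `⌊ρ + 1/2⌋` and inner radius
`⌊ρ/2⌋ + 1` -/
def Stmt_SHAPE : Prop := ∀ ρ : ℝ, 3 ≤ ρ → ∃ S : Shape, IsShape S ρ ∧ (S.ρ : ℝ) ≤ ρ + 1 / 2 ∧
  ρ / 2 ≤ (S.ρ0 : ℝ)

/-- LAW: the occupied cells under `stat l j` are independent with probability `qof l j`
(deps: VLOC) -/
def Stmt_LAW : Prop := ∀ (l : ℝ≥0) (j : ℕ) (ρ : ℝ) (S : Shape), IsShape S ρ →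
  ∀ P : Set Site → Prop, LocF P →
    (stat l j).real {η | P (vacSites ρ (occ η))} = pr S (qof l j) P

/-- GOOD: `EV` and `EO` give `Good`, with constants which do not depend on the mesh, at the scales
`n 2^j`, `n1 ≤ n ≤ N` (deps: SHAPE, LAW, LOCS, PHC, PL1, PL2 through `stmt_DUAL`).
cb = exp(-30 l (r+4)^2), cr = (1 - exp(-l r^2/4))^8, c1 = 1/1024, n1 ≥ 100 (2r + 9). -/
def Stmt_GOOD : Prop := ∀ (r : ℝ) (l : ℝ≥0), 0 < r → 0 < l → EV r l → EO r l →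
  ∃ c1 cb cr : ℝ, 0 < c1 ∧ 0 < cb ∧ 0 < cr ∧ ∃ n1 : ℕ, 1 ≤ n1 ∧ ∀ N : ℕ, ∃ j0 : ℕ, ∀ j ≥ j0,
    ∃ S : Shape, IsShape S (range r j) ∧
      Good S (qof l j) c1 cb cr (2 ^ j) (n1 * 2 ^ j) (N * 2 ^ j)

/-- ARML: the arm event is increasing and local (no deps: `Linked.exit`) -/
def Stmt_ARML : Prop := ∀ a b : ℤ, Mono (arm a b) ∧ (a ≤ b → Loc (Bx 0 (b + 1)) (arm a b)) ∧
  (a ≤ b → LocF (arm a b))

/-- STU: vacant circuits in the rings of `StaticOK` (deps: A1C, CIRC, LAW, LOCS).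
Box `Q = [-aq-1, (a+1)q]^2`, `t = (b-a)q - 2`, `L = 21`. -/
def Stmt_STU : Prop := ∀ c1 cb : ℝ, 0 < c1 → 0 < cb → ∃ c : ℝ, 0 < c ∧
  ∀ (l : ℝ≥0) (j : ℕ) (ρ : ℝ) (S : Shape) (cr : ℝ) (g n1 N : ℤ), IsShape S ρ →
  Good S (qof l j) c1 cb cr g n1 N → ∀ (q a b : ℕ), 5 * n1 ≤ q →
  11 * (2 * a + 1) ≤ 10 * (2 * b + 1) → 2 * (b : ℤ) * q ≤ N →
  c ≤ SP l j (fun S => UU ρ q S 0 a b)

/-- STN: occupied circuits in the rings of `StaticOK` (deps: A2N, NOX, LAW, LOCS) -/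
def Stmt_STN : Prop := ∀ c1 cr : ℝ, 0 < c1 → 0 < cr → ∃ c : ℝ, 0 < c ∧
  ∀ (l : ℝ≥0) (j : ℕ) (ρ : ℝ) (S : Shape) (cb : ℝ) (g n1 N : ℤ), IsShape S ρ →
  Good S (qof l j) c1 cb cr g n1 N → ∀ (q a b : ℕ), 5 * n1 ≤ q →
  11 * (2 * a + 1) ≤ 10 * (2 * b + 1) → 2 * (b : ℤ) * q ≤ N →
  c ≤ SP l j (fun S => NV ρ q S 0 a b)

/-- STARM: one-arm lower bound (deps: ALLOW, ARML, VSYM, LAW).
Centre `z0 = (q/2, q/2)`, `r1 = a q + q/2 - 1` (integer divisions), `cbox q 0 a ⊇ Bx z0 r1`; `n` minimal with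
`4^n r1 ≥ (b+1) q`, so `cbox q 0 b ⊆ Bx z0 (4^n r1)` and `4^n ≤ 16 (2b+1)/(2a+1)`;
`4 θ = 4^(1-e)`, `c' = c/16`. -/
def Stmt_STARM : Prop := ∀ c1 cb : ℝ, 0 < c1 → 0 < cb → ∃ c e : ℝ, 0 < c ∧ 0 < e ∧ e < 1 ∧
  ∀ (l : ℝ≥0) (j : ℕ) (ρ : ℝ) (S : Shape) (cr : ℝ) (g n1 N : ℤ), IsShape S ρ →
  Good S (qof l j) c1 cb cr g n1 N → ∀ (q a b : ℕ), 20 * n1 ≤ q → a ≤ b →
  16 * ((b : ℤ) + 1) * q ≤ N →
  c * ((2 * (a : ℝ) + 1) / (2 * b + 1)) ^ (1 - e) ≤ alpha ρ q l j a b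

/-- STATA: = `MPdd5692.Stmt_A` of InterfaceF (deps: GOOD, STU, STN, STARM) -/
def Stmt_STATA : Prop :=
  ∀ (r : ℝ) (l : ℝ≥0), 0 < r → 0 < l → EV r l → EO r l →
    ∃ (c e : ℝ), 0 < c ∧ 0 < e ∧ e < 1 ∧ ∃ s0 : ℕ, ∀ s ≥ s0, ∀ nmax : ℕ, ∃ j0 : ℕ, ∀ j ≥ j0,
      StaticOK c e nmax (range r j) (s * 2 ^ j) l j

end Pool.Det5
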