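import Pool.Agent.Work.MP_dd5692_pr.CoreB
import Pool.Agent.Work.MP_dd5692_pr.InterfaceB

/-!
# MP_dd5692_pr, part (B'): Theorem B' for one layer of cells  (helper35)
-/

set_option autoImplicit false
set_option linter.unusedSectionVars false

open MeasureTheory ProbabilityTheory Function Finset
open scoped ENNReal NNReal BigOperators

namespace MPdd5692.B35

section

variable {Q : Type} [Fintype Q] [DecidableEq Q] [Nonempty Q] [MeasurableSpace Q]
  [MeasurableSingletonClass Q]

/-- uniform positions -/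
noncomputable def UV (Q : Type) [Fintype Q] [Nonempty Q] [MeasurableSpace Q] : Measure (ℕ → Q) :=
  Measure.infinitePi fun _ => (PMF.uniformOfFintype Q).toMeasure

instance : IsProbabilityMeasure (UV Q) := by unfold UV; infer_instance
instance (ah ar : ℝ≥0) : IsProbabilityMeasure (muY Q ah ar) := by unfold muY; infer_instance

/-- one coordinate -/
abbrev ZZ (Q : Type) : Type := (ℕ × (Q → ℕ)) × (ℕ → Q)

noncomputable def muZ (Q : Type) [Fintype Q] [DecidableEq Q] [Nonempty Q] [MeasurableSpace Q]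
    (ah ar : ℝ≥0) : Measure (ZZ Q) := (muY Q ah ar).prod (UV Q)

instance (ah ar : ℝ≥0) : IsProbabilityMeasure (muZ Q ah ar) := by unfold muZ; infer_instance

instance instMSFinset : MeasurableSpace (Finset Q) := ⊤

theorem measurable_OO : Measurable (fun z : ZZ Q => OO z.1 z.2) := by
  have : Measurable (fun z : (ℕ × (Q → ℕ)) × (ℕ → Q) => OO z.1 z.2) := by
    refine measurable_from_prod_countable_right fun Y => ?_
    have h : Measurable (fun V : ℕ → Q => fun j : Finset.range Y.1 => V j.1) :=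
      measurable_pi_lambda _ fun j => measurable_pi_apply _
    have h2 : (fun V : ℕ → Q => OO Y V) =
        (fun g : (Finset.range Y.1) → Q => (Finset.univ.image g) ∪
          Finset.univ.filter fun v => Y.2 v ≠ 0) ∘
        (fun V : ℕ → Q => fun j : Finset.range Y.1 => V j.1) := by
      funext V
      simp only [OO, Function.comp]
      congr 1
      ext v
      simp
    rw [h2]
    exact (measurable_of_countable _).comp h
  exact this

variable {ι : Type} [Fintype ι] [DecidableEq ι]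

/-- configuration of positions -/
noncomputable def xx (ω : ι ⊕ ι → ZZ Q) (c : ι) : Finset Q := OO (ω (Sum.inl c)).1 (ω (Sum.inr c)).2

theorem measurable_xx : Measurable (xx : (ι ⊕ ι → ZZ Q) → (ι → Finset Q)) := by
  refine measurable_pi_lambda _ fun c => ?_
  have h : Measurable (fun ω : ι ⊕ ι → ZZ Q =>
      (((ω (Sum.inl c)).1, (ω (Sum.inr c)).2) : ZZ Q)) :=
    (measurable_fst.comp (measurable_pi_apply _)).prodMk
      (measurable_snd.comp (measurable_pi_apply _))
  exact measurable_OO.comp h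

instance : MeasurableSingletonClass (Finset Q) := ⟨fun _ => trivial⟩

variable (ah ar : ℝ≥0)

/-- the measure on all coordinates -/
noncomputable abbrev mm (Q : Type) [Fintype Q] [DecidableEq Q] [Nonempty Q] [MeasurableSpace Q]
    (ι : Type) (ah ar : ℝ≥0) : ι ⊕ ι → Measure (ZZ Q) := fun _ => muZ Q ah ar

/-- block map -/
def pi0 (ι : Type) : ι ⊕ ι → ι := Sum.elim id id

/-- the `Y` coordinates -/
def YYc (ι : Type) [Fintype ι] : Finset (ι ⊕ ι) := Finset.univ.filter fun k => k.isLeft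

theorem mp_pair : MeasurePreserving
    (fun ω : ι ⊕ ι → ZZ Q => ((fun c => (ω (Sum.inl c)).1, fun c => (ω (Sum.inr c)).2) :
      (ι → ℕ × (Q → ℕ)) × (ι → ℕ → Q)))
    (Measure.pi (mm Q ι ah ar))
    ((Measure.pi fun _ => muY Q ah ar).prod (Measure.pi fun _ => UV Q)) := by
  have h1 := measurePreserving_sumPiEquivProdPi (mm Q ι ah ar)
  have h2 : MeasurePreserving (fun a : ι → ZZ Q => fun c => (a c).1)
      (Measure.pi fun _ => muZ Q ah ar) (Measure.pi fun _ => muY Q ah ar) :=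
    measurePreserving_pi _ _ fun _ => measurePreserving_fst
  have h3 : MeasurePreserving (fun a : ι → ZZ Q => fun c => (a c).2)
      (Measure.pi fun _ => muZ Q ah ar) (Measure.pi fun _ => UV Q) :=
    measurePreserving_pi _ _ fun _ => measurePreserving_snd
  exact (h2.prod h3).comp h1

theorem mp_Y : MeasurePreserving (fun ω : ι ⊕ ι → ZZ Q => fun c => (ω (Sum.inl c)).1)
    (Measure.pi (mm Q ι ah ar)) (Measure.pi fun _ => muY Q ah ar) :=
  measurePreserving_fst.comp (mp_pair ah ar)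

theorem mp_V : MeasurePreserving (fun ω : ι ⊕ ι → ZZ Q => fun c => (ω (Sum.inr c)).2)
    (Measure.pi (mm Q ι ah ar)) (Measure.pi fun _ => UV Q) :=
  measurePreserving_snd.comp (mp_pair ah ar)

theorem mp_c (c : ι) : MeasurePreserving
    (fun ω : ι ⊕ ι → ZZ Q => (((ω (Sum.inl c)).1, (ω (Sum.inr c)).2) : ZZ Q))
    (Measure.pi (mm Q ι ah ar)) ((muY Q ah ar).prod (UV Q)) := by
  have h1 : MeasurePreserving (fun p : (ι → ℕ × (Q → ℕ)) × (ι → ℕ → Q) => (p.1 c, p.2 c))
      ((Measure.pi fun _ => muY Q ah ar).prod (Measure.pi fun _ => UV Q))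
      ((muY Q ah ar).prod (UV Q)) :=
    (measurePreserving_eval (fun _ : ι => muY Q ah ar) c).prod
      (measurePreserving_eval (fun _ : ι => UV Q) c)
  exact h1.comp (mp_pair ah ar)

/-- change of variables for bounded measurable functions -/
theorem mp_int {α β : Type} [MeasurableSpace α] [MeasurableSpace β] {μ : Measure α}
    {ν : Measure β} {φ : α → β} (h : MeasurePreserving φ μ ν) {F : β → ℝ} (hF : Measurable F) :
    ∫ a, F (φ a) ∂μ = ∫ b, F b ∂ν := by
  rw [← h.map_eq, integral_map h.measurable.aemeasurable hF.aestronglyMeasurable]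

variable (G : (ι → Finset Q) → ℝ)

theorem measG : Measurable G := measurable_of_countable G

/-- conditional expectation given `Y` -/
noncomputable def gY (Y : ι → ℕ × (Q → ℕ)) : ℝ :=
  ∫ V : ι → ℕ → Q, G (fun c => OO (Y c) (V c)) ∂(Measure.pi fun _ => UV Q)

theorem BM_GOO {G : (ι → Finset Q) → ℝ} (hG : ∀ x, 0 ≤ G x ∧ G x ≤ 1) :
    BM (fun p : (ι → ℕ × (Q → ℕ)) × (ι → ℕ → Q) => G (fun c => OO (p.1 c) (p.2 c))) := by
  refine ⟨?_, 1, fun p => ?_⟩
  · refine (measG G).comp (measurable_pi_lambda _ fun c => ?_)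
    have h : Measurable (fun p : (ι → ℕ × (Q → ℕ)) × (ι → ℕ → Q) => ((p.1 c, p.2 c) : ZZ Q)) :=
      ((measurable_pi_apply c).comp measurable_fst).prodMk
        ((measurable_pi_apply c).comp measurable_snd)
    exact measurable_OO.comp h
  · rw [abs_of_nonneg (hG _).1]
    exact (hG _).2

theorem BM_gY {G : (ι → Finset Q) → ℝ} (hG : ∀ x, 0 ≤ G x ∧ G x ≤ 1) : BM (gY G) :=
  BM.integral_right (BM_GOO hG) _

theorem BM_f {G : (ι → Finset Q) → ℝ} (hG : ∀ x, 0 ≤ G x ∧ G x ≤ 1) :
    BM (fun ω : ι ⊕ ι → ZZ Q => G (xx ω)) :=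
  ⟨(measG G).comp measurable_xx, 1, fun ω => by
    rw [abs_of_nonneg (hG _).1]; exact (hG _).2⟩

theorem EE_YY {G : (ι → Finset Q) → ℝ} (hG : ∀ x, 0 ≤ G x ∧ G x ≤ 1) (ω : ι ⊕ ι → ZZ Q) :
    EE (mm Q ι ah ar) (YYc ι) (fun ω => G (xx ω)) ω = gY G (fun c => (ω (Sum.inl c)).1) := by
  unfold EE gY
  have h1 : Measurable (fun V : ι → ℕ → Q => G (fun c => OO (ω (Sum.inl c)).1 (V c))) :=
    (BM_GOO hG).meas.comp (measurable_const.prodMk measurable_id)
  rw [← mp_int (mp_V ah ar) h1]
  refine integral_congr_ae (Filter.Eventually.of_forall fun ω' => ?_)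
  simp only
  congr 1
  funext c
  simp [xx, Finset.piecewise, YYc]

/-- the function of one cell -/
noncomputable def hc (Y : ι → ℕ × (Q → ℕ)) (c : ι) (x : Finset Q) : ℝ :=
  ∫ V : ι → ℕ → Q, G (update (fun d => OO (Y d) (V d)) c x) ∂(Measure.pi fun _ => UV Q)

theorem BM_upd {G : (ι → Finset Q) → ℝ} (hG : ∀ x, 0 ≤ G x ∧ G x ≤ 1)
    (Y : ι → ℕ × (Q → ℕ)) (c : ι) :
    BM (fun p : Finset Q × (ι → ℕ → Q) =>
      G (update (fun d => OO (Y d) (p.2 d)) c p.1)) := by
  refine ⟨?_, 1, fun p => ?_⟩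
  · refine (measG G).comp (measurable_pi_lambda _ fun d => ?_)
    by_cases hd : d = c
    · subst hd
      simp only [update_self]
      exact measurable_fst
    · simp only [update_of_ne hd]
      have h : Measurable (fun p : Finset Q × (ι → ℕ → Q) => ((Y d, p.2 d) : ZZ Q)) :=
        measurable_const.prodMk ((measurable_pi_apply d).comp measurable_snd)
      exact measurable_OO.comp h
  · rw [abs_of_nonneg (hG _).1]
    exact (hG _).2

theorem hc_mem {G : (ι → Finset Q) → ℝ} (hG : ∀ x, 0 ≤ G x ∧ G x ≤ 1)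
    (Y : ι → ℕ × (Q → ℕ)) (c : ι) (x : Finset Q) : 0 ≤ hc G Y c x ∧ hc G Y c x ≤ 1 := by
  refine ⟨integral_nonneg fun V => (hG _).1, ?_⟩
  have h1 : BM (fun V : ι → ℕ → Q => G (update (fun d => OO (Y d) (V d)) c x)) :=
    (BM_upd hG Y c).comp (φ := fun V => (x, V)) (measurable_const.prodMk measurable_id)
  calc hc G Y c x ≤ ∫ _V : ι → ℕ → Q, (1 : ℝ) ∂(Measure.pi fun _ => UV Q) :=
        integral_mono (h1.integrable _) ((BM.const 1).integrable _) fun V => (hG _).2
    _ = 1 := by simp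

/-- `g` in terms of the cell function -/
theorem gY_hc {G : (ι → Finset Q) → ℝ} (hG : ∀ x, 0 ≤ G x ∧ G x ≤ 1)
    (Y : ι → ℕ × (Q → ℕ)) (c : ι) (y : ℕ × (Q → ℕ)) :
    gY G (update Y c y) = ∫ v, hc G Y c (OO y v) ∂(UV Q) := by
  have hm : Measurable (fun v : ℕ → Q => hc G Y c (OO y v)) := by
    have h1 : Measurable (fun v : ℕ → Q => OO y v) :=
      measurable_OO.comp (measurable_const.prodMk measurable_id)
    exact (measurable_of_countable (hc G Y c)).comp h1
  rw [← mp_int (measurePreserving_eval (fun _ : ι => UV Q) c) hm]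
  unfold gY
  have h1 : BM (fun V : ι → ℕ → Q => G (fun d => OO (update Y c y d) (V d))) :=
    (BM_GOO hG).comp (measurable_const.prodMk measurable_id)
  rw [← integral_pw (μ := fun _ : ι => UV Q) h1 {c}, integral_prod _
    ((h1.comp (measurable_pw {c})).integrable _)]
  refine integral_congr_ae (Filter.Eventually.of_forall fun V => ?_)
  simp only [hc, Function.eval]
  refine integral_congr_ae (Filter.Eventually.of_forall fun V' => ?_)
  simp only
  congr 1
  funext d
  by_cases hd : d = c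
  · subst hd
    simp [Finset.piecewise]
  · simp [Finset.piecewise, hd]

/-- the per-cell hypothesis of `coreB` -/
theorem cell_ineq (hPC : Stmt_PCELL) {G : (ι → Finset Q) → ℝ} (hG : ∀ x, 0 ≤ G x ∧ G x ≤ 1)
    (B : ι → Finset Q) (hB : ∀ (x : ι → Finset Q) (c : ι) (b : Finset Q), b ⊆ B c →
      G (update x c b) = G (update x c ∅)) {β : ℝ} (hβ : 0 < β)
    (hβB : ∀ c, β * Fintype.card Q ≤ (B c).card) (hah : 0 < ah) (N : ℕ) (c : ι) :
    ∫ ω, (EE (mm Q ι ah ar) (YYc ι) (fun ω => G (xx ω)) ω -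
        EE (mm Q ι ah ar) (pre (pi0 ι) {c}ᶜ)
          (EE (mm Q ι ah ar) (YYc ι) (fun ω => G (xx ω))) ω) ^ 2 ∂(Measure.pi (mm Q ι ah ar)) ≤
      (((ah + ar : ℝ≥0) : ℝ) / (ah * β)) ^ N *
        ∫ ω, (EE (mm Q ι ah ar) (YYc ι ∪ pre (pi0 ι) {c}) (fun ω => G (xx ω)) ω -
          EE (mm Q ι ah ar) (YYc ι) (fun ω => G (xx ω)) ω) ^ 2 ∂(Measure.pi (mm Q ι ah ar)) +
      (poissonMeasure (Fintype.card Q * (ah + ar))).real {k | N < k} := by
  set μ := mm Q ι ah ar with hμ
  set f : (ι ⊕ ι → ZZ Q) → ℝ := fun ω => G (xx ω) with hfdef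
  have hf : BM f := BM_f hG
  set g := EE μ (YYc ι) f with hgdef
  have hg : BM g := hf.EE _
  set A := pre (pi0 ι) ({c}ᶜ : Finset ι) with hA
  set u := EE μ (YYc ι ∪ pre (pi0 ι) {c}) f with hudef
  have hu : BM u := hf.EE _
  have hgA : BM (EE μ A g) := hg.EE A
  rw [← integral_EE (μ := μ) ((hg.sub hgA).sq) A, ← integral_EE (μ := μ) ((hu.sub hg).sq) A,
    ← integral_const_mul]
  have hconst : (poissonMeasure (Fintype.card Q * (ah + ar))).real {k | N < k} =
      ∫ _ω, (poissonMeasure (Fintype.card Q * (ah + ar))).real {k | N < k} ∂(Measure.pi μ) := by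
    simp
  rw [hconst, ← integral_add ((((hu.sub hg).sq.EE A).cmul _).integrable _)
    ((BM.const _).integrable _)]
  refine integral_mono (((hg.sub hgA).sq.EE A).integrable _)
    (((((hu.sub hg).sq.EE A).cmul _).add (BM.const _)).integrable _) fun ω => ?_
  simp only
  -- fix `ω`
  set Y : ι → ℕ × (Q → ℕ) := fun d => (ω (Sum.inl d)).1 with hY
  set h := hc G Y c with hh
  have hpc := hPC Q h (B c) β ah ar N (hc_mem hG Y c) ?_ hβ (hβB c) hah
  swap
  · intro x hx
    simp only [hh, hc]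
    refine integral_congr_ae (Filter.Eventually.of_forall fun V => ?_)
    exact hB _ c x hx
  simp only at hpc
  set φ : ℕ × (Q → ℕ) → ℝ := fun Y => ∫ V, h (OO Y V) ∂(UV Q) with hφ
  have hmh : Measurable h := measurable_of_countable h
  have hmφ : Measurable φ := measurable_of_countable φ
  -- values at `A.piecewise ω ω'`
  have e1 : ∀ ω' : ι ⊕ ι → ZZ Q, g (A.piecewise ω ω') = φ (ω' (Sum.inl c)).1 := by
    intro ω'
    rw [hgdef, hμ, hfdef, EE_YY ah ar hG]
    have h1 : (fun d => (A.piecewise ω ω' (Sum.inl d)).1) = update Y c (ω' (Sum.inl c)).1 := by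
      funext d
      by_cases hd : d = c
      · subst hd
        simp [Finset.piecewise, hA, pre, pi0]
      · simp [Finset.piecewise, hA, pre, pi0, hd, hY]
    rw [h1, gY_hc hG]
  have e2 : ∀ ω' : ι ⊕ ι → ZZ Q, u (A.piecewise ω ω') =
      h (OO (ω' (Sum.inl c)).1 (ω' (Sum.inr c)).2) := by
    intro ω'
    rw [hudef, hμ, hfdef, hh]
    unfold EE hc
    have h1 : Measurable (fun V : ι → ℕ → Q => G (update (fun d => OO (Y d) (V d)) c
        (OO (ω' (Sum.inl c)).1 (ω' (Sum.inr c)).2))) :=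
      ((BM_upd hG Y c).comp (φ := fun V => (OO (ω' (Sum.inl c)).1 (ω' (Sum.inr c)).2, V))
        (measurable_const.prodMk measurable_id)).meas
    rw [← mp_int (mp_V ah ar) h1]
    refine integral_congr_ae (Filter.Eventually.of_forall fun ω'' => ?_)
    simp only
    congr 1
    funext d
    by_cases hd : d = c
    · subst hd
      simp [xx, Finset.piecewise, hA, pre, pi0, YYc]
    · simp [xx, Finset.piecewise, hA, pre, pi0, YYc, hd, hY]
  have e3 : EE μ A g ω = ∫ y, φ y ∂(muY Q ah ar) := by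
    have h1 : EE μ A g ω = ∫ ω' : ι ⊕ ι → ZZ Q, φ (ω' (Sum.inl c)).1 ∂(Measure.pi μ) :=
      integral_congr_ae (Filter.Eventually.of_forall fun ω' => e1 ω')
    rw [h1]
    have h2 := mp_int (measurePreserving_fst.comp (mp_c (Q := Q) ah ar c)) hmφ
    exact h2
  have e4 : ∀ ω' : ι ⊕ ι → ZZ Q, EE μ A g (A.piecewise ω ω') = EE μ A g ω := by
    intro ω'
    refine EE_dep A g _ _ fun i hi => ?_
    simp [Finset.piecewise, hi]
  have l1 : EE μ A (fun x => (g x - EE μ A g x) ^ 2) ω =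
      ∫ y, (φ y - ∫ y', φ y' ∂(muY Q ah ar)) ^ 2 ∂(muY Q ah ar) := by
    have h1 : EE μ A (fun x => (g x - EE μ A g x) ^ 2) ω =
        ∫ ω' : ι ⊕ ι → ZZ Q, (φ (ω' (Sum.inl c)).1 - ∫ y', φ y' ∂(muY Q ah ar)) ^ 2
          ∂(Measure.pi μ) := by
      refine integral_congr_ae (Filter.Eventually.of_forall fun ω' => ?_)
      simp only
      rw [e4, e1, e3]
    rw [h1]
    exact mp_int (measurePreserving_fst.comp (mp_c (Q := Q) ah ar c))
      (F := fun y => (φ y - ∫ y', φ y' ∂(muY Q ah ar)) ^ 2) ((hmφ.sub_const _).pow_const 2)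
  have l2 : EE μ A (fun x => (u x - g x) ^ 2) ω =
      ∫ y, ∫ v, (h (OO y v) - φ y) ^ 2 ∂(UV Q) ∂(muY Q ah ar) := by
    have h1 : EE μ A (fun x => (u x - g x) ^ 2) ω =
        ∫ ω' : ι ⊕ ι → ZZ Q, (h (OO (ω' (Sum.inl c)).1 (ω' (Sum.inr c)).2) -
          φ (ω' (Sum.inl c)).1) ^ 2 ∂(Measure.pi μ) := by
      refine integral_congr_ae (Filter.Eventually.of_forall fun ω' => ?_)
      simp only
      rw [e1, e2]
    have hFm : BM (fun z : ZZ Q => (h (OO z.1 z.2) - φ z.1) ^ 2) := by
      have b1 : BM (fun z : ZZ Q => h (OO z.1 z.2)) :=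
        ⟨hmh.comp measurable_OO, 1, fun z => by
          rw [abs_of_nonneg (hc_mem hG Y c _).1]; exact (hc_mem hG Y c _).2⟩
      have b2 : BM (fun z : ZZ Q => φ z.1) := by
        have b3 : BM φ := BM.integral_right (F := fun p : (ℕ × (Q → ℕ)) × (ℕ → Q) => h (OO p.1 p.2))
          b1 (UV Q)
        exact b3.comp measurable_fst
      exact (b1.sub b2).sq
    rw [h1, ← integral_prod _ (hFm.integrable _)]
    exact mp_int (mp_c (Q := Q) ah ar c) hFm.meas
  rw [l1, l2]
  exact hpc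

end

end MPdd5692.B35
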