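import Pool.Agent.Work.MP_dd5692_pr.LayerA

/-!
# MP_dd5692_pr, part (B'): Theorem B' for one layer of cells, conclusion  (helper35)
-/

set_option autoImplicit false
set_option linter.unusedSectionVars false

open MeasureTheory ProbabilityTheory Function Finset
open scoped ENNReal NNReal BigOperators

namespace MPdd5692.B35

variable {Q : Type} [Fintype Q] [DecidableEq Q] [Nonempty Q] [MeasurableSpace Q]
  [MeasurableSingletonClass Q]
variable {ι : Type} [Fintype ι] [DecidableEq ι]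
variable (ah ar : ℝ≥0)

theorem ind_congr {α β : Type} {p : α → Prop} {p' : β → Prop} {a : α} {b : β}
    (h : p a ↔ p' b) : ind p a = ind p' b := by
  by_cases hp : p a
  · rw [ind_of hp, ind_of (h.1 hp)]
  · rw [ind_not hp, ind_not fun h' => hp (h.2 h')]

theorem mem_pre' (S : Finset ι) (k : ι ⊕ ι) : k ∈ pre (pi0 ι) S ↔ Sum.elim id id k ∈ S := by
  unfold pre pi0
  rw [mem_filter]
  exact ⟨fun h => h.2, fun h => ⟨mem_univ _, h⟩⟩

theorem layerA (hPC : Stmt_PCELL) {G : (ι → Finset Q) → ℝ} (hG : ∀ x, 0 ≤ G x ∧ G x ≤ 1)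
    (B : ι → Finset Q) (hB : ∀ (x : ι → Finset Q) (c : ι) (b : Finset Q), b ⊆ B c →
      G (update x c b) = G (update x c ∅)) {β : ℝ} (hβ : 0 < β)
    (hβB : ∀ c, β * Fintype.card Q ≤ (B c).card) (hah : 0 < ah) (N : ℕ)
    (W : Finset ι) (m : ℕ) (hm : 0 < m) {ρ τ : Type} (P : Finset ρ) (hP : P.Nonempty)
    (R Lay : ρ → Finset ι) (hRW : ∀ p ∈ P, Disjoint (R p) W)
    (hLay : ∀ i : ι, 2 * m * (P.filter (fun p => i ∈ Lay p)).card ≤ P.card)
    (s : Finset τ) (w : τ → ℝ) (hw : ∀ t ∈ s, 0 ≤ w t) (hw1 : ∑ t ∈ s, w t = 1)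
    (JG : ρ → τ → (ι → Finset Q) → Finset ι)
    (hJs : ∀ p ∈ P, ∀ t ∈ s, ∀ x x' : ι → Finset Q, (∀ c ∈ JG p t x, x c = x' c) →
      JG p t x' = JG p t x ∧ G x' = G x)
    (hJR : ∀ p ∈ P, ∀ t ∈ s, ∀ x, R p ⊆ JG p t x)
    {δ : ℝ} (hδ0 : 0 ≤ δ)
    (hδ : ∀ p ∈ P, ∀ c : ι, c ∉ R p → c ∉ Lay p → ∀ x0 : ι → Finset Q,
      ∑ t ∈ s, w t * ∫ ω, ind (fun x => c ∈ JG p t ((R p).piecewise x0 x)) (xx ω)
        ∂(Measure.pi (mm Q ι ah ar)) ≤ δ) :
    ∫ Y, (gY G Y - ∫ Y', gY G (fun c => if c ∈ W then Y' c else Y c)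
        ∂(Measure.pi fun _ : ι => muY Q ah ar)) ^ 2 ∂(Measure.pi fun _ : ι => muY Q ah ar) ≤
      2 * (m : ℝ) ^ 2 * δ + (1 / m) * ((((ah + ar : ℝ≥0) : ℝ) / (ah * β)) ^ N +
        Fintype.card ι * (poissonMeasure (Fintype.card Q * (ah + ar))).real {k | N < k}) := by
  have hf : BM (fun ω : ι ⊕ ι → ZZ Q => G (xx ω)) := BM_f hG
  have hf1 : ∀ ω : ι ⊕ ι → ZZ Q, |G (xx ω)| ≤ 1 := fun ω => by
    rw [abs_of_nonneg (hG _).1]; exact (hG _).2
  have hst : ∀ p ∈ P, ∀ t ∈ s, Stop (pi0 ι) (fun ω : ι ⊕ ι → ZZ Q => G (xx ω)) (R p)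
      (fun ω => JG p t (xx ω)) := by
    intro p hp t ht
    have key : ∀ ω ω' : ι ⊕ ι → ZZ Q, (∀ k ∈ pre (pi0 ι) (JG p t (xx ω)), ω k = ω' k) →
        ∀ c ∈ JG p t (xx ω), xx ω c = xx ω' c := by
      intro ω ω' h c hc
      have h1 : ω (Sum.inl c) = ω' (Sum.inl c) := h _ (by
        rw [pre, mem_filter]; exact ⟨mem_univ _, hc⟩)
      have h2 : ω (Sum.inr c) = ω' (Sum.inr c) := h _ (by
        rw [pre, mem_filter]; exact ⟨mem_univ _, hc⟩)
      simp only [xx, h1, h2]
    refine ⟨fun A => ?_, fun ω ω' h => (hJs p hp t ht _ _ (key ω ω' h)).1,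
      fun ω ω' h => (hJs p hp t ht _ _ (key ω ω' h)).2, fun ω => hJR p hp t ht _⟩
    have : {ω : ι ⊕ ι → ZZ Q | JG p t (xx ω) = A} = xx ⁻¹' {x | JG p t x = A} := rfl
    rw [this]
    exact measurable_xx (Set.to_countable _).measurableSet
  have hcore := coreB (μ := mm Q ι ah ar) (π := pi0 ι) hf hf1 (YYc ι) W m hm P hP R Lay hRW hLay s w
    hw hw1 (fun p t ω => JG p t (xx ω)) hst hδ0 ?_
    (K := (((ah + ar : ℝ≥0) : ℝ) / (ah * β)) ^ N)
    (ε := (poissonMeasure (Fintype.card Q * (ah + ar))).real {k | N < k}) (by positivity)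
    (fun c => cell_ineq ah ar hPC hG B hB hβ hβB hah N c)
  · refine le_trans (le_of_eq ?_) hcore
    have hgm : BM (gY G) := BM_gY (ι := ι) hG
    have hFm : Measurable (fun Y : ι → ℕ × (Q → ℕ) => (gY G Y -
        ∫ Y', gY G (fun c => if c ∈ W then Y' c else Y c)
        ∂(Measure.pi fun _ : ι => muY Q ah ar)) ^ 2) := by
      have h1 : BM (fun Y : ι → ℕ × (Q → ℕ) =>
          ∫ Y', gY G (fun c => if c ∈ W then Y' c else Y c)
          ∂(Measure.pi fun _ : ι => muY Q ah ar)) := by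
        refine BM.integral_right (F := fun p : (ι → ℕ × (Q → ℕ)) × (ι → ℕ × (Q → ℕ)) =>
          gY G (fun c => if c ∈ W then p.2 c else p.1 c)) (hgm.comp ?_) _
        refine measurable_pi_lambda _ fun c => ?_
        by_cases hc : c ∈ W
        · simp only [hc, if_true]
          exact (measurable_pi_apply c).comp measurable_snd
        · simp only [hc, if_false]
          exact (measurable_pi_apply c).comp measurable_fst
      exact (hgm.sub h1).sq.meas
    rw [← mp_int (mp_Y ah ar) hFm]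
    refine integral_congr_ae (Filter.Eventually.of_forall fun ω => ?_)
    simp only
    rw [EE_YY ah ar hG]
    congr 2
    unfold EE
    have hm2 : Measurable (fun Y' : ι → ℕ × (Q → ℕ) =>
        gY G (fun c => if c ∈ W then Y' c else (ω (Sum.inl c)).1)) := by
      refine hgm.meas.comp (measurable_pi_lambda _ fun c => ?_)
      by_cases hc : c ∈ W
      · simp only [hc, if_true]
        exact measurable_pi_apply c
      · simp only [hc, if_false]
        exact measurable_const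
    rw [← mp_int (mp_Y ah ar) hm2]
    refine integral_congr_ae (Filter.Eventually.of_forall fun ω' => ?_)
    simp only
    have h3 := EE_YY ah ar hG ((pre (pi0 ι) Wᶜ).piecewise ω ω')
    unfold EE at h3
    rw [h3]
    congr 1
    funext c
    by_cases hc : c ∈ W
    · simp [Finset.piecewise, pre, pi0, hc]
    · simp [Finset.piecewise, pre, pi0, hc]
  · intro p hp c hc1 hc2 ω
    refine le_trans (le_of_eq ?_) (hδ p hp c hc1 hc2 (xx ω))
    refine sum_congr rfl fun t _ => ?_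
    congr 1
    unfold EE
    refine integral_congr_ae (Filter.Eventually.of_forall fun ω' => ?_)
    have h1 : xx ((pre (pi0 ι) (R p)).piecewise ω ω') = (R p).piecewise (xx ω) (xx ω') := by
      funext d
      have m1 : Sum.inl d ∈ pre (pi0 ι) (R p) ↔ d ∈ R p := by simp [mem_pre']
      have m2 : Sum.inr d ∈ pre (pi0 ι) (R p) ↔ d ∈ R p := by simp [mem_pre']
      by_cases hd : d ∈ R p
      · simp only [xx, Finset.piecewise, m1, m2, hd, if_true]
      · simp only [xx, Finset.piecewise, m1, m2, hd, if_false]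
    refine ind_congr ?_
    simp only [h1]

end MPdd5692.B35
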