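import Pool.Agent.Work.MP_dd5692_pr.VMain

/-!
# MP_dd5692_pr, part (B'): choice of the parameters (helper35)
-/

set_option autoImplicit false

open MeasureTheory ProbabilityTheory Function Finset Filter
open scoped ENNReal NNReal BigOperators Topology

namespace MPdd5692.B35

theorem rpow_small {C a ε : ℝ} (ha : a < 0) (hε : 0 < ε) :
    ∀ᶠ x : ℝ in atTop, C * x ^ a ≤ ε := by
  have h1 : Tendsto (fun x : ℝ => C * x ^ a) atTop (𝓝 (C * 0)) := by
    have := (tendsto_rpow_neg_atTop (y := -a) (by linarith)).const_mul C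
    simpa using this
  rw [mul_zero] at h1
  filter_upwards [h1.eventually (gt_mem_nhds hε)] with x hx using hx.le

theorem numB (hPT : Stmt_PTAIL) (c δ I Cw Cr ε : ℝ) (hc : 0 < c) (hc1 : c ≤ 1) (hδ : 0 < δ)
    (hCw : 0 ≤ Cw) (hCr : 0 ≤ Cr) (hε : 0 < ε) :
    ∃ T0 : ℕ, ∀ T ≥ T0, ∃ m d n N : ℕ, 0 < m ∧ 0 < d ∧ 4 ^ n ≤ d ∧ d ≤ T ∧ 2 * m * d ≤ T ∧
      ∀ (x : ℝ≥0) (w : ℝ), (x : ℝ) ≤ I → w ≤ Cw * (T : ℝ) ^ 2 →
        2 * (m : ℝ) ^ 2 * (Cr * ((2 * d + 5) + T * (1 - c) ^ n) / T) +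
        (1 / m) * ((400 / δ) ^ N + w * (poissonMeasure x).real {k | N < k}) ≤ ε := by
  set K : ℝ := max 1 (400 / δ) with hK
  have hK1 : 1 ≤ K := le_max_left _ _
  set η : ℝ := c / 100 with hη
  have hη0 : 0 < η := by positivity
  have hη1 : η ≤ 1 / 100 := by rw [hη]; linarith
  obtain ⟨T1, hT1⟩ := hPT I K η hη0 hK1
  have ev1 : ∀ᶠ x : ℝ in atTop, (8 * Cr * 7) * x ^ (4 * η - 3 / 4) ≤ ε / 4 :=
    rpow_small (by linarith) (by positivity)
  have ev2 : ∀ᶠ x : ℝ in atTop, (8 * Cr * 3) * x ^ (4 * η - c / 6) ≤ ε / 4 :=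
    rpow_small (by rw [hη]; linarith) (by positivity)
  have ev3 : ∀ᶠ x : ℝ in atTop, (1 + Cw) * x ^ (-η) ≤ ε / 4 :=
    rpow_small (by linarith) (by positivity)
  have ev4 : ∀ᶠ x : ℝ in atTop, 4 * x ^ (2 * η + 1 / 4 - 1) ≤ 1 :=
    rpow_small (by linarith) (by positivity)
  obtain ⟨X, hX⟩ := eventually_atTop.1 (ev1.and (ev2.and (ev3.and ev4)))
  refine ⟨max T1 (max (⌈X⌉₊) 256), fun T hT => ?_⟩
  have hTT1 : T1 ≤ T := (le_max_left _ _).trans hT
  have hT256 : 256 ≤ T := (le_max_right _ _).trans ((le_max_right _ _).trans hT)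
  have hTX : X ≤ (T : ℝ) :=
    (Nat.le_ceil X).trans (by exact_mod_cast (le_max_left _ _).trans ((le_max_right _ _).trans hT))
  have hTr1 : (1 : ℝ) ≤ T := by exact_mod_cast (by omega : 1 ≤ T)
  have hTr : (0 : ℝ) < T := by linarith
  obtain ⟨e1, e2, e3, e4⟩ := hX T hTX
  obtain ⟨N, hN1, hN2⟩ := hT1 T hTT1
  set n := Nat.log 256 T with hn
  have hn1 : 256 ^ n ≤ T := Nat.pow_log_le_self 256 (by omega)
  have hn2 : T < 256 ^ (n + 1) := Nat.lt_pow_succ_log_self (by norm_num) T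
  set d := 4 ^ n with hd
  set m := ⌈(T : ℝ) ^ (2 * η)⌉₊ with hm
  have hpow1 : (1 : ℝ) ≤ (T : ℝ) ^ (2 * η) := Real.one_le_rpow hTr1 (by positivity)
  have hm1 : (T : ℝ) ^ (2 * η) ≤ m := Nat.le_ceil _
  have hm2 : (m : ℝ) ≤ 2 * (T : ℝ) ^ (2 * η) := by
    have := (Nat.ceil_lt_add_one (by positivity : (0 : ℝ) ≤ (T : ℝ) ^ (2 * η))).le
    linarith
  have hm0 : 0 < m := by
    have : (0 : ℝ) < m := by linarith
    exact_mod_cast this
  -- `d ≤ T^{1/4}`
  have hd4 : (d : ℝ) ^ (4 : ℕ) ≤ T := by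
    have : d ^ 4 ≤ T := by
      rw [hd, ← pow_mul, mul_comm, pow_mul]
      exact hn1
    exact_mod_cast this
  have hdr : (d : ℝ) ≤ (T : ℝ) ^ (1 / 4 : ℝ) := by
    have h1 : ((d : ℝ) ^ (4 : ℕ)) ^ (1 / 4 : ℝ) ≤ (T : ℝ) ^ (1 / 4 : ℝ) :=
      Real.rpow_le_rpow (by positivity) hd4 (by norm_num)
    rwa [← Real.rpow_natCast, ← Real.rpow_mul (by positivity), show ((4 : ℕ) : ℝ) * (1 / 4) = 1 by
      norm_num, Real.rpow_one] at h1
  have hd0 : 0 < d := by positivity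
  have h4 : (2 * m * d : ℝ) ≤ T := by
    calc (2 * m * d : ℝ) ≤ 2 * (2 * (T : ℝ) ^ (2 * η)) * (T : ℝ) ^ (1 / 4 : ℝ) := by gcongr
      _ = (4 * (T : ℝ) ^ (2 * η + 1 / 4 - 1)) * T := by
          rw [Real.rpow_sub_one hTr.ne', Real.rpow_add hTr]
          field_simp
          ring
      _ ≤ 1 * T := by gcongr
      _ = T := one_mul _
  have h4' : 2 * m * d ≤ T := by exact_mod_cast h4
  have hdT : d ≤ T := by
    have : d ≤ 2 * m * d := by nlinarith
    omega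
  refine ⟨m, d, n, N, hm0, hd0, le_rfl, hdT, h4', fun x w hx hw => ?_⟩
  -- first term
  have hcn : (1 - c) ^ n ≤ 3 * (T : ℝ) ^ (-(c / 6)) := by
    have h1 : (1 - c) ^ n ≤ Real.exp (-c * n) := by
      have h2 : 1 - c ≤ Real.exp (-c) := by
        have := Real.add_one_le_exp (-c)
        linarith
      calc (1 - c) ^ n ≤ (Real.exp (-c)) ^ n := pow_le_pow_left₀ (by linarith) h2 n
        _ = Real.exp (-c * n) := by rw [← Real.exp_nat_mul]; ring_nf
    have h2 : Real.log T ≤ (n + 1) * 6 := by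
      have h3 : (T : ℝ) ≤ 256 ^ (n + 1) := by exact_mod_cast hn2.le
      have h5 : Real.log T ≤ (n + 1) * Real.log 256 := by
        have := Real.log_le_log hTr h3
        rwa [Real.log_pow, Nat.cast_add, Nat.cast_one] at this
      have h6 : Real.log 256 ≤ 6 := by
        have h7 : Real.log 256 = 8 * Real.log 2 := by
          rw [show (256 : ℝ) = 2 ^ 8 by norm_num, Real.log_pow]; norm_num
        have := Real.log_two_lt_d9
        linarith
      calc Real.log T ≤ (n + 1) * Real.log 256 := h5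
        _ ≤ (n + 1) * 6 := by gcongr
    have h3 : Real.exp (-c * n) ≤ Real.exp 1 * (T : ℝ) ^ (-(c / 6)) := by
      rw [Real.rpow_def_of_pos hTr, ← Real.exp_add]
      apply Real.exp_le_exp.2
      have h5 : c * (Real.log T / 6 - 1) ≤ c * n := by
        refine mul_le_mul_of_nonneg_left ?_ hc.le
        linarith
      have h6 : c * (Real.log T / 6 - 1) = c * Real.log T / 6 - c := by ring
      have h7 : Real.log T * -(c / 6) = -(c * Real.log T / 6) := by ring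
      rw [h7]
      nlinarith
    have h5 : Real.exp 1 ≤ 3 := by
      have := Real.exp_one_lt_d9
      linarith
    calc (1 - c) ^ n ≤ Real.exp (-c * n) := h1
      _ ≤ Real.exp 1 * (T : ℝ) ^ (-(c / 6)) := h3
      _ ≤ 3 * (T : ℝ) ^ (-(c / 6)) := by gcongr
  have hm2' : (m : ℝ) ^ 2 ≤ 4 * (T : ℝ) ^ (4 * η) := by
    calc (m : ℝ) ^ 2 ≤ (2 * (T : ℝ) ^ (2 * η)) ^ 2 := pow_le_pow_left₀ (by positivity) hm2 2
      _ = 4 * (T : ℝ) ^ (4 * η) := by
          rw [mul_pow, ← Real.rpow_natCast ((T : ℝ) ^ (2 * η)), ← Real.rpow_mul hTr.le]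
          norm_num
          ring_nf
  have hone : (1 : ℝ) ≤ (T : ℝ) ^ (1 / 4 : ℝ) := Real.one_le_rpow hTr1 (by norm_num)
  have t1 : 2 * (m : ℝ) ^ 2 * (Cr * ((2 * d + 5) + T * (1 - c) ^ n) / T) ≤ ε / 2 := by
    have h1c : (0 : ℝ) ≤ (1 - c) ^ n := pow_nonneg (by linarith) n
    calc 2 * (m : ℝ) ^ 2 * (Cr * ((2 * d + 5) + T * (1 - c) ^ n) / T)
        ≤ 2 * (4 * (T : ℝ) ^ (4 * η)) * (Cr * ((2 * (T : ℝ) ^ (1 / 4 : ℝ) +
            5 * (T : ℝ) ^ (1 / 4 : ℝ)) + T * (3 * (T : ℝ) ^ (-(c / 6)))) / T) := by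
          gcongr
          linarith
      _ = (8 * Cr * 7) * (T : ℝ) ^ (4 * η - 3 / 4) + (8 * Cr * 3) * (T : ℝ) ^ (4 * η - c / 6) := by
          have f1 : (T : ℝ) ^ (4 * η - 3 / 4) = (T : ℝ) ^ (4 * η) * (T : ℝ) ^ (1 / 4 : ℝ) / T := by
            rw [← Real.rpow_add hTr, ← Real.rpow_sub_one hTr.ne']
            congr 1
            ring
          have f2 : (T : ℝ) ^ (4 * η - c / 6) = (T : ℝ) ^ (4 * η) * (T : ℝ) ^ (-(c / 6)) := by
            rw [← Real.rpow_add hTr]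
            congr 1
          rw [f1, f2]
          field_simp
          ring
      _ ≤ ε / 4 + ε / 4 := add_le_add e1 e2
      _ = ε / 2 := by ring
  have t2 : (1 / (m : ℝ)) * ((400 / δ) ^ N + w * (poissonMeasure x).real {k | N < k}) ≤ ε / 4 := by
    have hmr : (0 : ℝ) < m := by exact_mod_cast hm0
    have g1 : (400 / δ) ^ N ≤ (T : ℝ) ^ η :=
      (pow_le_pow_left₀ (by positivity) (le_max_right _ _) N).trans hN1
    have g2 : w * (poissonMeasure x).real {k | N < k} ≤ Cw := by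
      have g3 := hN2 x hx
      have g4 : 0 ≤ (poissonMeasure x).real {k | N < k} := measureReal_nonneg
      calc w * (poissonMeasure x).real {k | N < k}
          ≤ (Cw * (T : ℝ) ^ 2) * (poissonMeasure x).real {k | N < k} := by gcongr
        _ ≤ (Cw * (T : ℝ) ^ 2) * (1 / (T : ℝ) ^ 3) := by gcongr
        _ = Cw / T := by field_simp
        _ ≤ Cw / 1 := by gcongr
        _ = Cw := div_one _
    have hη2 : (1 : ℝ) ≤ (T : ℝ) ^ η := Real.one_le_rpow hTr1 hη0.le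
    calc (1 / (m : ℝ)) * ((400 / δ) ^ N + w * (poissonMeasure x).real {k | N < k})
        ≤ (1 / (T : ℝ) ^ (2 * η)) * ((T : ℝ) ^ η + Cw * (T : ℝ) ^ η) := by
          have h5 : (0 : ℝ) ≤ (T : ℝ) ^ η + Cw * (T : ℝ) ^ η := by positivity
          have h6 : (400 / δ) ^ N + w * (poissonMeasure x).real {k | N < k} ≤
              (T : ℝ) ^ η + Cw * (T : ℝ) ^ η := by
            refine add_le_add g1 (g2.trans ?_)
            nlinarith
          have h7 : (1 / (m : ℝ)) ≤ 1 / (T : ℝ) ^ (2 * η) :=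
            one_div_le_one_div_of_le (by positivity) hm1
          calc _ ≤ (1 / (m : ℝ)) * ((T : ℝ) ^ η + Cw * (T : ℝ) ^ η) :=
                mul_le_mul_of_nonneg_left h6 (by positivity)
            _ ≤ _ := mul_le_mul_of_nonneg_right h7 h5
      _ = (1 + Cw) * (T : ℝ) ^ (-η) := by
          have h8 : (T : ℝ) ^ (-η) = (T : ℝ) ^ η / (T : ℝ) ^ (2 * η) := by
            rw [← Real.rpow_sub hTr]
            congr 1
            ring
          rw [h8]
          ring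
      _ ≤ ε / 4 := e3
  linarith

end MPdd5692.B35
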