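import Pool.Agent.Work.MP_dd5692_pr.Planar

/-! # MP_dd5692_pr: POT (curl-free `ZMod 2` fields on `ℤ²` are gradients) -/

set_option autoImplicit false
set_option linter.unusedSimpArgs false
set_option linter.unreachableTactic false
set_option linter.unusedTactic false

namespace MPdd5692

theorem zmod2_add_self (a : ZMod 2) : a + a = 0 := CharTwo.add_self_eq_zero a

/-- primitive of a `ZMod 2` valued function on `ℤ` -/
theorem exists_prim (f : ℤ → ZMod 2) : ∃ F : ℤ → ZMod 2, F 0 = 0 ∧ ∀ x, F x + F (x + 1) = f x := by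
  let F : ℤ → ZMod 2 := fun x =>
    if 0 ≤ x then ∑ i ∈ Finset.range x.toNat, f i else ∑ i ∈ Finset.range (-x).toNat, f (-(i : ℤ) - 1)
  refine ⟨F, by simp [F], ?_⟩
  intro x
  by_cases hx : 0 ≤ x
  · have hx1 : 0 ≤ x + 1 := by omega
    obtain ⟨n, rfl⟩ : ∃ n : ℕ, x = n := ⟨x.toNat, by omega⟩
    have e1 : ((n : ℤ) + 1).toNat = n + 1 := by omega
    have e0 : (n : ℤ).toNat = n := by omega
    simp only [F, if_pos hx, if_pos hx1, e1, e0, Finset.sum_range_succ]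
    rw [← add_assoc, zmod2_add_self, zero_add]
  · obtain ⟨n, rfl⟩ : ∃ n : ℕ, x = -(n : ℤ) - 1 := ⟨(-x - 1).toNat, by omega⟩
    have e1 : (-(-(n : ℤ) - 1)).toNat = n + 1 := by omega
    by_cases hn : n = 0
    · subst hn
      simp [F]
    · have hx1 : ¬ (0 ≤ -(n : ℤ) - 1 + 1) := by omega
      have e0 : (-(-(n : ℤ) - 1 + 1)).toNat = n := by omega
      simp only [F, if_neg hx, if_neg hx1, e1, e0, Finset.sum_range_succ]
      rw [add_comm (∑ i ∈ Finset.range n, f (-(i : ℤ) - 1)) (f _), add_assoc, zmod2_add_self, add_zero]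

theorem const_of_step {g : ℤ → ZMod 2} (h : ∀ x, g x + g (x + 1) = 0) (h0 : g 0 = 0) : ∀ x, g x = 0 := by
  have hs : ∀ x, g (x + 1) = g x := by
    intro x
    have := h x
    exact (CharTwo.add_eq_zero.1 this).symm
  intro x
  induction x using Int.induction_on with
  | zero => exact h0
  | succ n ih => rw [hs]; exact ih
  | pred n ih =>
    have := hs (-(n : ℤ) - 1)
    rw [sub_add_cancel] at this
    rw [← this]; exact ih

theorem blk_POT : Stmt_POT := by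
  intro h v hcurl
  obtain ⟨H, hH0, hH⟩ := exists_prim (fun x => h x 0)
  choose V hV0 hV using fun x => exists_prim (fun y => v x y)
  refine ⟨fun x y => H x + V x y, ?_, ?_⟩
  · intro x y
    have key : ∀ y, (V x y + V (x + 1) y + h x 0) + h x y = 0 := by
      apply const_of_step
      · intro y
        have h1 := hV x y
        have h2 := hV (x + 1) y
        have h3 := hcurl x y
        calc (V x y + V (x + 1) y + h x 0) + h x y + (V x (y + 1) + V (x + 1) (y + 1) + h x 0 + h x (y + 1))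
            = (V x y + V x (y + 1)) + (V (x + 1) y + V (x + 1) (y + 1)) + (h x 0 + h x 0) + (h x y + h x (y + 1)) := by
              ring
          _ = v x y + v (x + 1) y + 0 + (h x y + h x (y + 1)) := by rw [h1, h2, zmod2_add_self]
          _ = h x y + v (x + 1) y + h x (y + 1) + v x y := by ring
          _ = 0 := h3
      · simp only [hV0, zero_add]
        exact zmod2_add_self _
    have k := key y
    have k2 : V x y + V (x + 1) y + h x 0 = h x y := CharTwo.add_eq_zero.1 k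
    have h1 := hH x
    show (H x + V x y) + (H (x + 1) + V (x + 1) y) = h x y
    calc (H x + V x y) + (H (x + 1) + V (x + 1) y) = V x y + V (x + 1) y + (H x + H (x + 1)) := by ring
      _ = V x y + V (x + 1) y + h x 0 := by rw [h1]
      _ = h x y := k2
  · intro x y
    have h1 := hV x y
    show (H x + V x y) + (H x + V x (y + 1)) = v x y
    calc (H x + V x y) + (H x + V x (y + 1)) = (H x + H x) + (V x y + V x (y + 1)) := by ring
      _ = v x y := by rw [zmod2_add_self, h1, zero_add]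

/-! ### site form, and the two square checks -/

/-- POT in the form used below -/
theorem exists_pot (f : Site → Site → ZMod 2) (hsym : ∀ u w, f u w = f w u)
    (hsq : ∀ x y : ℤ, f (x, y) (x + 1, y) + f (x + 1, y) (x + 1, y + 1) + f (x, y + 1) (x + 1, y + 1) +
      f (x, y) (x, y + 1) = 0) : ∃ n : Site → ZMod 2, ∀ u w, Adj4 u w → n u + n w = f u w := by
  obtain ⟨n, h1, h2⟩ := blk_POT (fun x y => f (x, y) (x + 1, y)) (fun x y => f (x, y) (x, y + 1)) hsq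
  refine ⟨fun z => n z.1 z.2, ?_⟩
  rintro ⟨a, b⟩ ⟨c, d⟩ h
  rw [adj4_iff] at h
  simp only at h
  rcases h with ⟨h, h' | h'⟩ | ⟨h, h' | h'⟩
  · subst h h'; exact h2 a b
  · subst h
    obtain rfl : b = d + 1 := by omega
    rw [hsym]
    show n a (d + 1) + n a d = _
    rw [add_comm]; exact h2 a d
  · subst h h'; exact h1 a b
  · subst h
    obtain rfl : a = c + 1 := by omega
    rw [hsym]
    show n (c + 1) b + n c b = _
    rw [add_comm]; exact h1 c b

/-- indicator of the pairs with one site in `A` and one in `E` -/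
noncomputable def cutf (A E : Set Site) (u w : Site) : ZMod 2 :=
  open Classical in if (u ∈ A ∧ w ∈ E) ∨ (w ∈ A ∧ u ∈ E) then 1 else 0

theorem cutf_symm (A E : Set Site) (u w : Site) : cutf A E u w = cutf A E w u := by
  classical
  unfold cutf
  congr 1
  exact propext or_comm

def cutb (a e a' e' : Bool) : ZMod 2 := if (a && e') || (a' && e) then 1 else 0

theorem cutf_eq (A E : Set Site) (u w : Site) [Decidable (u ∈ A)] [Decidable (u ∈ E)] [Decidable (w ∈ A)]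
    [Decidable (w ∈ E)] :
    cutf A E u w = cutb (decide (u ∈ A)) (decide (u ∈ E)) (decide (w ∈ A)) (decide (w ∈ E)) := by
  unfold cutf cutb
  by_cases h1 : u ∈ A <;> by_cases h2 : u ∈ E <;> by_cases h3 : w ∈ A <;> by_cases h4 : w ∈ E <;> simp [h1, h2, h3, h4]

/-- constraints of the square check of EB4 -/
def c4 (a0 a1 a2 a3 e0 e1 e2 e3 : Bool) : Bool :=
  !(a0 && e0) && !(a1 && e1) && !(a2 && e2) && !(a3 && e3) &&
    (!(a0 || a1 || a2 || a3) ||
      ((!e0 || ((a1 || e1) && (a3 || e3))) && (!e1 || ((a0 || e0) && (a2 || e2))) &&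
        (!e2 || ((a1 || e1) && (a3 || e3))) && (!e3 || ((a0 || e0) && (a2 || e2)))))

/-- constraints of the square check of EB8 -/
def c8 (a0 a1 a2 a3 e0 e1 e2 e3 : Bool) : Bool :=
  !(a0 && e0) && !(a1 && e1) && !(a2 && e2) && !(a3 && e3) &&
    (!(e0 || e1 || e2 || e3) ||
      ((!a0 || ((a1 || e1) && (a3 || e3))) && (!a1 || ((a0 || e0) && (a2 || e2))) &&
        (!a2 || ((a1 || e1) && (a3 || e3))) && (!a3 || ((a0 || e0) && (a2 || e2)))))

/-- square check of EB4: if there is a site of `A`, then every neighbour of a site of `E` is in `A` or `E` -/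
theorem sq4 (a0 a1 a2 a3 e0 e1 e2 e3 : Bool) (h : c4 a0 a1 a2 a3 e0 e1 e2 e3 = true) :
    cutb a0 e0 a1 e1 + cutb a1 e1 a2 e2 + cutb a3 e3 a2 e2 + cutb a0 e0 a3 e3 = 0 := by
  revert a0 a1 a2 a3
  revert e0 e1 e2 e3
  decide

/-- square check of EB8: if there is a site of `E`, then every neighbour of a site of `A` is in `A` or `E` -/
theorem sq8 (a0 a1 a2 a3 e0 e1 e2 e3 : Bool) (h : c8 a0 a1 a2 a3 e0 e1 e2 e3 = true) :
    cutb a0 e0 a1 e1 + cutb a1 e1 a2 e2 + cutb a3 e3 a2 e2 + cutb a0 e0 a3 e3 = 0 := by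
  revert a0 a1 a2 a3
  revert e0 e1 e2 e3
  decide

theorem tri_cases {A E : Set Site} (hd : ∀ z ∈ E, z ∉ A) (p : Site) :
    (p ∈ A ∧ p ∉ E) ∨ (p ∉ A ∧ p ∈ E) ∨ (p ∉ A ∧ p ∉ E) := by
  by_cases h1 : p ∈ A
  · exact Or.inl ⟨h1, fun h2 => hd p h2 h1⟩
  · by_cases h2 : p ∈ E
    · exact Or.inr (Or.inl ⟨h1, h2⟩)
    · exact Or.inr (Or.inr ⟨h1, h2⟩)

theorem cut_sq4 {A E : Set Site} (hd : ∀ z ∈ E, z ∉ A) (p0 p1 p2 p3 : Site)
    (h : (p0 ∈ A ∨ p1 ∈ A ∨ p2 ∈ A ∨ p3 ∈ A) →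
      (p0 ∈ E → (p1 ∈ A ∨ p1 ∈ E) ∧ (p3 ∈ A ∨ p3 ∈ E)) ∧ (p1 ∈ E → (p0 ∈ A ∨ p0 ∈ E) ∧ (p2 ∈ A ∨ p2 ∈ E)) ∧
      (p2 ∈ E → (p1 ∈ A ∨ p1 ∈ E) ∧ (p3 ∈ A ∨ p3 ∈ E)) ∧ (p3 ∈ E → (p0 ∈ A ∨ p0 ∈ E) ∧ (p2 ∈ A ∨ p2 ∈ E))) :
    cutf A E p0 p1 + cutf A E p1 p2 + cutf A E p3 p2 + cutf A E p0 p3 = 0 := by
  classical
  rw [cutf_eq, cutf_eq, cutf_eq, cutf_eq]
  apply sq4
  rcases tri_cases hd p0 with ⟨a0, e0⟩ | ⟨a0, e0⟩ | ⟨a0, e0⟩ <;>
  rcases tri_cases hd p1 with ⟨a1, e1⟩ | ⟨a1, e1⟩ | ⟨a1, e1⟩ <;>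
  rcases tri_cases hd p2 with ⟨a2, e2⟩ | ⟨a2, e2⟩ | ⟨a2, e2⟩ <;>
  rcases tri_cases hd p3 with ⟨a3, e3⟩ | ⟨a3, e3⟩ | ⟨a3, e3⟩ <;>
  simp only [a0, a1, a2, a3, e0, e1, e2, e3, or_true, true_or, or_false, false_or, true_imp_iff,
    false_imp_iff, and_true, true_and, and_false, false_and, decide_true, decide_false, or_self, and_self,
    imp_self, imp_false, not_true_eq_false] at h ⊢ <;> first | rfl | exact absurd trivial h | exact h.elim

theorem cut_sq8 {A E : Set Site} (hd : ∀ z ∈ E, z ∉ A) (p0 p1 p2 p3 : Site)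
    (h : (p0 ∈ E ∨ p1 ∈ E ∨ p2 ∈ E ∨ p3 ∈ E) →
      (p0 ∈ A → (p1 ∈ A ∨ p1 ∈ E) ∧ (p3 ∈ A ∨ p3 ∈ E)) ∧ (p1 ∈ A → (p0 ∈ A ∨ p0 ∈ E) ∧ (p2 ∈ A ∨ p2 ∈ E)) ∧
      (p2 ∈ A → (p1 ∈ A ∨ p1 ∈ E) ∧ (p3 ∈ A ∨ p3 ∈ E)) ∧ (p3 ∈ A → (p0 ∈ A ∨ p0 ∈ E) ∧ (p2 ∈ A ∨ p2 ∈ E))) :
    cutf A E p0 p1 + cutf A E p1 p2 + cutf A E p3 p2 + cutf A E p0 p3 = 0 := by
  classical
  rw [cutf_eq, cutf_eq, cutf_eq, cutf_eq]
  apply sq8
  rcases tri_cases hd p0 with ⟨a0, e0⟩ | ⟨a0, e0⟩ | ⟨a0, e0⟩ <;>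
  rcases tri_cases hd p1 with ⟨a1, e1⟩ | ⟨a1, e1⟩ | ⟨a1, e1⟩ <;>
  rcases tri_cases hd p2 with ⟨a2, e2⟩ | ⟨a2, e2⟩ | ⟨a2, e2⟩ <;>
  rcases tri_cases hd p3 with ⟨a3, e3⟩ | ⟨a3, e3⟩ | ⟨a3, e3⟩ <;>
  simp only [a0, a1, a2, a3, e0, e1, e2, e3, or_true, true_or, or_false, false_or, true_imp_iff,
    false_imp_iff, and_true, true_and, and_false, false_and, decide_true, decide_false, or_self, and_self,
    imp_self, imp_false, not_true_eq_false] at h ⊢ <;> first | rfl | exact absurd trivial h | exact h.elim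

/-- the two common 4-neighbours of a diagonal step -/
theorem adj8_cases {z w : Site} (h : Adj8 z w) : Adj4 z w ∨
    (Adj4 z (z.1, w.2) ∧ Adj4 (z.1, w.2) w ∧ Adj4 z (w.1, z.2) ∧ Adj4 (w.1, z.2) w ∧
      Adj8 (z.1, w.2) (w.1, z.2)) := by
  rw [adj8_iff] at h
  obtain ⟨h0, h1, h2⟩ := h
  rw [abs_le] at h1 h2
  by_cases h3 : z.1 = w.1
  · left
    rw [adj4_iff]
    left
    refine ⟨h3, ?_⟩
    by_contra hcon
    apply h0
    exact Prod.ext h3 (by omega)
  · by_cases h4 : z.2 = w.2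
    · left
      rw [adj4_iff]
      right
      exact ⟨h4, by omega⟩
    · right
      refine ⟨?_, ?_, ?_, ?_, ?_⟩
      · rw [adj4_iff]; left; exact ⟨rfl, by simp only; omega⟩
      · rw [adj4_iff]; right; exact ⟨rfl, by simp only; omega⟩
      · rw [adj4_iff]; right; exact ⟨rfl, by simp only; omega⟩
      · rw [adj4_iff]; left; exact ⟨rfl, by simp only; omega⟩
      · rw [adj8_iff]
        refine ⟨?_, ?_, ?_⟩
        · intro he
          have := congrArg Prod.fst he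
          simp only at this
          omega
        · simp only; rw [abs_le]; omega
        · simp only; rw [abs_le]; omega

/-- membership in the unit square with lower left corner `(x,y)` -/
theorem sq_adj {x y : ℤ} {p q : Site} (hp : x ≤ p.1 ∧ p.1 ≤ x + 1 ∧ y ≤ p.2 ∧ p.2 ≤ y + 1)
    (hq : x ≤ q.1 ∧ q.1 ≤ x + 1 ∧ y ≤ q.2 ∧ q.2 ≤ y + 1) : Adj8 p q ∨ p = q := by
  by_cases hpq : p = q
  · exact Or.inr hpq
  · left
    rw [adj8_iff]
    refine ⟨hpq, ?_, ?_⟩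
    · rw [abs_le]; omega
    · rw [abs_le]; omega

theorem cutf_one {A E : Set Site} {u w : Site} (hu : u ∈ A) (hw : w ∈ E) : cutf A E u w = 1 := by
  classical
  unfold cutf
  rw [if_pos (Or.inl ⟨hu, hw⟩)]

theorem cutf_zero {A E : Set Site} {u w : Site} (h : ¬ (u ∈ A ∧ w ∈ E)) (h' : ¬ (w ∈ A ∧ u ∈ E)) :
    cutf A E u w = 0 := by
  classical
  unfold cutf
  rw [if_neg (by tauto)]

/-- a function constant along the steps of a path -/
theorem Linked.const {β : Type*} {Adj : Site → Site → Prop} {W : Set Site} {u v : Site} (n : Site → β)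
    (h : Linked Adj W u v) (hs : ∀ z w, z ∈ W → w ∈ W → Adj z w → n z = n w) : n u = n v := by
  refine h.ind (P := fun z => n u = n z) rfl ?_
  intro z w hz ih hzw hw
  exact ih.trans (hs z w hz.right hw hzw)

end MPdd5692
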