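import Pool.Agent.Work.MP_dd5692_pr.InterfaceP

/-!
# MP_dd5692_pr: block SLICE (helper76)
-/

open MeasureTheory ProbabilityTheory Set
open scoped ENNReal NNReal BigOperators

namespace MPdd5692

variable {q H : ℕ} [NeZero q]

theorem mask_mask76 (e : Fin (H + 1) → Bool) (u : Fin (H + 1) → Pos q) :
    mask e (mask e u) = mask e u := by
  funext k
  unfold mask
  by_cases h : e k = true
  · simp [h]
  · simp [h]

/-- completion of `u` at the non exposed times -/
def compl76 (e : Fin (H + 1) → Bool) (u v : Fin (H + 1) → Pos q) : Fin (H + 1) → Pos q :=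
  fun k => if e k = true then u k else v k

theorem mask_compl76 (e : Fin (H + 1) → Bool) (u v : Fin (H + 1) → Pos q) :
    mask e (compl76 e u v) = mask e u := by
  funext k
  unfold mask compl76
  by_cases h : e k = true
  · simp [h]
  · simp [h]

theorem asm_ne76 (e : Fin (H + 1) → Bool) (M : Conf q H) (U : HV q H) (θ : FMark q H) :
    asmE e M U θ ≠ 0 ↔ ∃ i, i < M (θ.1, mask e θ.2) ∧
      ∀ k, e k = false → U k ((θ.1, mask e θ.2), i) = θ.2 k := by
  unfold asmE
  rw [Finset.card_ne_zero]
  constructor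
  · rintro ⟨i, hi⟩
    rw [Finset.mem_filter, Finset.mem_range] at hi
    exact ⟨i, hi.1, hi.2⟩
  · rintro ⟨i, h1, h2⟩
    exact ⟨i, by rw [Finset.mem_filter, Finset.mem_range]; exact ⟨h1, h2⟩⟩

theorem asm_compl76 (e : Fin (H + 1) → Bool) (M : Conf q H) (U : HV q H) (c : CMark q H)
    (u : Fin (H + 1) → Pos q) (i : ℕ) (hi : i < M (c, mask e u)) :
    asmE e M U (c, compl76 e u (fun k => U k ((c, mask e u), i))) ≠ 0 := by
  rw [asm_ne76]
  refine ⟨i, ?_, ?_⟩
  · rw [mask_compl76]; exact hi
  · intro k hk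
    rw [mask_compl76]
    simp [compl76, hk]

theorem site_congr76 (c : CMark q H) (u v : Fin (H + 1) → Pos q) (k : Fin (H + 1))
    (h : u k = v k) : FMark.site ((c, u) : FMark q H) k = FMark.site ((c, v) : FMark q H) k := by
  unfold FMark.site FMark.loc
  simp only [h]

theorem slice_sub76 (e : Fin (H + 1) → Bool) (M : Conf q H) (U U' : HV q H) (k : ℕ)
    (h : k < H + 1) (he : e ⟨k, h⟩ = false) (hU : U ⟨k, h⟩ = U' ⟨k, h⟩) :
    et (asmE e M U) k ⊆ et (asmE e M U') k := by
  rintro x ⟨⟨c, u⟩, hne, h', hx⟩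
  rw [asm_ne76] at hne
  obtain ⟨i, hi, hk⟩ := hne
  refine ⟨(c, compl76 e u (fun k => U' k ((c, mask e u), i))), ?_, h', ?_⟩
  · exact asm_compl76 e M U' c u i hi
  · rw [← hx]
    apply site_congr76
    have := hk ⟨k, h'⟩ he
    simp only [compl76, he]
    rw [← hU]
    exact this

theorem stmt_SLICE : Stmt_SLICE := by
  intro q H _ e M U U' k h
  refine ⟨?_, ?_, ?_⟩
  · intro he hU
    apply Set.Subset.antisymm
    · exact slice_sub76 e M U U' k h he hU
    · exact slice_sub76 e M U' U k h he hU.symm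
  · intro he hM
    apply Set.Subset.antisymm
    · rintro x ⟨⟨c, u⟩, hne, h', hx⟩
      rw [asm_ne76] at hne
      obtain ⟨i, hi, hk⟩ := hne
      refine ⟨(c, mask e u), ?_, h', ?_⟩
      · have hi' : i < M (c, mask e u) := hi
        omega
      · rw [← hx]
        apply site_congr76
        simp [mask, he]
    · rintro x ⟨⟨c, u⟩, hne, h', hx⟩
      have hmu : mask e u = u := by
        by_contra hc
        exact hne (hM (c, u) hc)
      refine ⟨(c, compl76 e u (fun k => U k ((c, mask e u), 0))), ?_, h', ?_⟩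
      · apply asm_compl76
        rw [hmu]
        exact Nat.pos_of_ne_zero hne
      · rw [← hx]
        apply site_congr76
        simp [compl76, he]
  · intro c
    constructor
    · rintro ⟨u, hu⟩
      rw [asm_ne76] at hu
      obtain ⟨i, hi, -⟩ := hu
      refine ⟨mask e u, mask_mask76 e u, ?_⟩
      have hi' : i < M (c, mask e u) := hi
      omega
    · rintro ⟨u, hu, hM⟩
      refine ⟨compl76 e u (fun k => U k ((c, mask e u), 0)), ?_⟩
      apply asm_compl76
      rw [hu]
      exact Nat.pos_of_ne_zero hM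

end MPdd5692
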