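import Pool.Agent.Work.MP_dd5692_pr.Anova

/-!
# MP_dd5692_pr, part (B'): the Schramm-Steif inequality with an inside set `R`  (helper35)
-/

set_option autoImplicit false
set_option linter.unusedSectionVars false

open MeasureTheory Function Finset

namespace MPdd5692.B35

variable {κ : Type*} [Fintype κ] [DecidableEq κ] {Ω : κ → Type*} [∀ i, MeasurableSpace (Ω i)]
variable {μ : ∀ i, Measure (Ω i)} [∀ i, IsProbabilityMeasure (μ i)]
variable {ι : Type*} [Fintype ι] [DecidableEq ι] {π : κ → ι}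

/-- stopping set (in terms of cells) for `f` -/
structure Stop (π : κ → ι) (f : (∀ i, Ω i) → ℝ) (R : Finset ι) (J : (∀ i, Ω i) → Finset ι) :
    Prop where
  meas : ∀ A, MeasurableSet {ω | J ω = A}
  stop : ∀ ω ω' : (∀ i, Ω i), (∀ k ∈ pre π (J ω), ω k = ω' k) → J ω' = J ω
  det : ∀ ω ω' : (∀ i, Ω i), (∀ k ∈ pre π (J ω), ω k = ω' k) → f ω' = f ω
  sub : ∀ ω, R ⊆ J ω

/-- indicator of a decidable event -/
noncomputable def ind {α : Type*} (p : α → Prop) (ω : α) : ℝ := by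
  classical exact if p ω then 1 else 0

theorem ind_of {α : Type*} {p : α → Prop} {ω : α} (h : p ω) : ind p ω = 1 := by simp [ind, h]
theorem ind_not {α : Type*} {p : α → Prop} {ω : α} (h : ¬ p ω) : ind p ω = 0 := by simp [ind, h]
theorem ind_nonneg {α : Type*} (p : α → Prop) (ω : α) : 0 ≤ ind p ω := by
  by_cases h : p ω
  · rw [ind_of h]; norm_num
  · rw [ind_not h]
theorem ind_le_one {α : Type*} (p : α → Prop) (ω : α) : ind p ω ≤ 1 := by
  by_cases h : p ω
  · rw [ind_of h]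
  · rw [ind_not h]; norm_num

theorem BM.ind' {α : Type*} [MeasurableSpace α] {p : α → Prop} (h : MeasurableSet {x | p x}) :
    BM (MPdd5692.B35.ind p) := by
  classical
  refine ⟨?_, 1, fun x => ?_⟩
  · have : MPdd5692.B35.ind p = ({x | p x}).indicator (fun _ => (1 : ℝ)) := by
      funext x
      by_cases hx : p x
      · rw [ind_of hx, Set.indicator_of_mem (show x ∈ {x | p x} from hx)]
      · rw [ind_not hx, Set.indicator_of_notMem (show x ∉ {x | p x} from hx)]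
    rw [this]
    exact measurable_const.indicator h
  · rw [abs_of_nonneg (ind_nonneg _ _)]
    exact ind_le_one _ _

section
variable {f : (∀ i, Ω i) → ℝ} {R : Finset ι} {J : (∀ i, Ω i) → Finset ι}

/-- indicator of `J = A` -/
noncomputable def jA (J : (∀ i, Ω i) → Finset ι) (A : Finset ι) : (∀ i, Ω i) → ℝ :=
  ind (fun ω => J ω = A)

theorem BM_jA (hJ : Stop π f R J) (A : Finset ι) : BM (jA J A) := BM.ind' (hJ.meas A)

theorem dep_jA (hJ : Stop π f R J) (A : Finset ι) : Dep (pre π A) (jA J A) := by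
  have key : ∀ ω ω' : (∀ i, Ω i), (∀ i ∈ pre π A, ω i = ω' i) → J ω = A → J ω' = A := by
    intro ω ω' h hA
    have := hJ.stop ω ω' (by rw [hA]; exact h)
    rw [this, hA]
  intro ω ω' h
  unfold jA
  by_cases hA : J ω = A
  · rw [ind_of (p := fun ω => J ω = A) hA, ind_of (p := fun ω => J ω = A) (key ω ω' h hA)]
  · have hA' : ¬ J ω' = A := fun h' => hA (key ω' ω (fun i hi => (h i hi).symm) h')
    rw [ind_not (p := fun ω => J ω = A) hA, ind_not (p := fun ω => J ω = A) hA']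

theorem dep_jA_f (hJ : Stop π f R J) (A : Finset ι) : Dep (pre π A) (fun ω => jA J A ω * f ω) := by
  intro ω ω' h
  have h1 := dep_jA hJ A ω ω' h
  simp only
  rw [h1]
  by_cases hA : J ω' = A
  · rw [hJ.det ω' ω (by rw [hA]; exact fun i hi => (h i hi).symm)]
  · unfold jA
    rw [ind_not (p := fun ω => J ω = A) hA]
    ring

theorem sum_jA (J : (∀ i, Ω i) → Finset ι) (ω : ∀ i, Ω i) : ∑ A : Finset ι, jA J A ω = 1 := by
  rw [sum_eq_single_of_mem (J ω) (mem_univ _)]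
  · exact ind_of (p := fun ω => J ω = J ω) rfl
  · intro A _ hne
    exact ind_not (p := fun ω => J ω = A) (fun h => hne h.symm)

theorem jA_mul (J : (∀ i, Ω i) → Finset ι) (F : Finset ι → ℝ) (ω : ∀ i, Ω i) :
    ∑ A : Finset ι, jA J A ω * F A = F (J ω) := by
  rw [sum_eq_single_of_mem (J ω) (mem_univ _)]
  · have : jA J (J ω) ω = 1 := ind_of (p := fun ω' => J ω' = J ω) rfl
    rw [this, one_mul]
  · intro A _ hne
    have : jA J A ω = 0 := ind_not (p := fun ω' => J ω' = A) (fun h => hne h.symm)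
    rw [this, zero_mul]

omit [Fintype ι] in
theorem Dep.mul {T : Finset κ} {f g : (∀ i, Ω i) → ℝ} (hf : Dep T f) (hg : Dep T g) :
    Dep T (fun ω => f ω * g ω) := fun ω ω' h => by
  simp only
  rw [hf ω ω' h, hg ω ω' h]

variable {𝒯 : Finset (Finset ι)} {k : ℕ}

/-- orthogonality on `J = A` -/
theorem ortho_jA (hf : BM f) (hJ : Stop π f R J) (A S S' : Finset ι) (h : ¬ S' ⊆ A ∪ S) :
    ∫ ω, jA J A ω * (ac π μ f S ω * ac π μ f S' ω) ∂(Measure.pi μ) = 0 := by
  have h1 : Dep (pre π (A ∪ S)) (fun ω => jA J A ω * ac π μ f S ω) :=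
    ((dep_jA hJ A).mono (pre_mono π subset_union_left)).mul
      ((ac_dep f S).mono (pre_mono π subset_union_right))
  have := ortho (π := π) (μ := μ) hf ((BM_jA hJ A).mul (hf.ac (π := π) (μ := μ) S)) h1 h
  rw [← this]
  refine integral_congr_ae (Filter.Eventually.of_forall fun ω => ?_)
  simp only
  ring

/-- expansions of products of sums -/
theorem int_jA_sum_mul_sum (hf : BM f) (hJ : Stop π f R J) (A : Finset ι)
    (s t : Finset (Finset ι)) :
    ∫ ω, jA J A ω * ((∑ S ∈ s, ac π μ f S ω) * ∑ S' ∈ t, ac π μ f S' ω) ∂(Measure.pi μ) =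
      ∑ S ∈ s, ∑ S' ∈ t,
        ∫ ω, jA J A ω * (ac π μ f S ω * ac π μ f S' ω) ∂(Measure.pi μ) := by
  have h : ∀ ω, jA J A ω * ((∑ S ∈ s, ac π μ f S ω) * ∑ S' ∈ t, ac π μ f S' ω) =
      ∑ S ∈ s, ∑ S' ∈ t, jA J A ω * (ac π μ f S ω * ac π μ f S' ω) := by
    intro ω
    rw [Finset.sum_mul_sum, mul_sum]
    refine sum_congr rfl fun S _ => ?_
    rw [mul_sum]
  simp only [h]
  rw [integral_finsetSum _ fun S _ => (BM.sum _ fun S' _ =>
    (BM_jA hJ A).mul ((hf.ac S).mul (hf.ac S'))).integrable _]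
  refine sum_congr rfl fun S _ => ?_
  exact integral_finsetSum _ fun S' _ =>
    ((BM_jA hJ A).mul ((hf.ac S).mul (hf.ac S'))).integrable _

/-- `D = E[G | revealed]` -/
noncomputable def DD (π : κ → ι) (μ : ∀ i, Measure (Ω i)) (f : (∀ i, Ω i) → ℝ)
    (J : (∀ i, Ω i) → Finset ι) (𝒯 : Finset (Finset ι)) (ω : ∀ i, Ω i) : ℝ :=
  ∑ A : Finset ι, jA J A ω * ∑ S ∈ 𝒯.filter (fun S => S ⊆ A), ac π μ f S ω

noncomputable def HH (π : κ → ι) (μ : ∀ i, Measure (Ω i)) (f : (∀ i, Ω i) → ℝ) (R : Finset ι)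
    (J : (∀ i, Ω i) → Finset ι) (𝒯 : Finset (Finset ι)) (ω : ∀ i, Ω i) : ℝ :=
  ∑ A : Finset ι, jA J A ω * ∑ S ∈ 𝒯.filter (fun S => Disjoint (S \ R) A), ac π μ f S ω

theorem BM_DD (hf : BM f) (hJ : Stop π f R J) : BM (DD π μ f J 𝒯) :=
  BM.sum _ fun A _ => (BM_jA hJ A).mul (BM.sum _ fun S _ => hf.ac S)

theorem BM_HH (hf : BM f) (hJ : Stop π f R J) : BM (HH π μ f R J 𝒯) :=
  BM.sum _ fun A _ => (BM_jA hJ A).mul (BM.sum _ fun S _ => hf.ac S)

/-- general: integral of a sum over `A` -/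
theorem int_sum_A (hf : BM f) (hJ : Stop π f R J) (F : Finset ι → (∀ i, Ω i) → ℝ)
    (hF : ∀ A, BM (F A)) :
    ∫ ω, ∑ A : Finset ι, jA J A ω * F A ω ∂(Measure.pi μ) =
      ∑ A : Finset ι, ∫ ω, jA J A ω * F A ω ∂(Measure.pi μ) :=
  integral_finsetSum _ fun A _ => ((BM_jA hJ A).mul (hF A)).integrable _

/-- main inequality for one stopping set -/
theorem ss_one (hf : BM f) (hf1 : ∀ ω, |f ω| ≤ 1) (hJ : Stop π f R J) (hk : 0 < k)
    (h𝒯 : ∀ S ∈ 𝒯, (S \ R).card = k) :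
    (∫ ω, (∑ S ∈ 𝒯, ac π μ f S ω) ^ 2 ∂(Measure.pi μ)) ^ 2 ≤
      ∫ ω, (∑ S ∈ 𝒯, ac π μ f S ω) ^ 2 ∂(Measure.pi μ) -
        ∫ ω, HH π μ f R J 𝒯 ω ^ 2 ∂(Measure.pi μ) := by
  set G : (∀ i, Ω i) → ℝ := fun ω => ∑ S ∈ 𝒯, ac π μ f S ω with hGdef
  have hG : BM G := BM.sum _ fun S _ => hf.ac S
  have hD : BM (DD π μ f J 𝒯) := BM_DD hf hJ
  have hH : BM (HH π μ f R J 𝒯) := BM_HH hf hJ
  -- pointwise values
  have hDp : ∀ ω, DD π μ f J 𝒯 ω = ∑ S ∈ 𝒯.filter (fun S => S ⊆ J ω), ac π μ f S ω :=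
    fun ω => jA_mul J (fun A => ∑ S ∈ 𝒯.filter (fun S => S ⊆ A), ac π μ f S ω) ω
  have hHp : ∀ ω, HH π μ f R J 𝒯 ω =
      ∑ S ∈ 𝒯.filter (fun S => Disjoint (S \ R) (J ω)), ac π μ f S ω :=
    fun ω => jA_mul J (fun A => ∑ S ∈ 𝒯.filter (fun S => Disjoint (S \ R) A), ac π μ f S ω) ω
  -- `∫ f G = ∫ G^2`
  have e1 : ∫ ω, f ω * G ω ∂(Measure.pi μ) = ∫ ω, G ω ^ 2 ∂(Measure.pi μ) := by
    rw [hGdef]
    rw [int_mul_sum 𝒯 hf fun S _ => hf.ac S, int_sum_sq hf]
    exact sum_congr rfl fun S _ => int_mul_ac hf S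
  -- `∫ f G = ∫ f D`
  have e2 : ∫ ω, f ω * G ω ∂(Measure.pi μ) = ∫ ω, f ω * DD π μ f J 𝒯 ω ∂(Measure.pi μ) := by
    have h1 : ∀ ω, f ω * G ω = ∑ A : Finset ι, jA J A ω * (f ω * G ω) := fun ω => by
      rw [← sum_mul, sum_jA, one_mul]
    have h2 : ∀ ω, f ω * DD π μ f J 𝒯 ω = ∑ A : Finset ι, jA J A ω *
        (f ω * ∑ S ∈ 𝒯.filter (fun S => S ⊆ A), ac π μ f S ω) := fun ω => by
      unfold DD
      rw [mul_sum]
      exact sum_congr rfl fun A _ => by ring
    rw [integral_congr_ae (Filter.Eventually.of_forall h1),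
      integral_congr_ae (Filter.Eventually.of_forall h2),
      int_sum_A hf hJ _ (fun A => hf.mul hG),
      int_sum_A hf hJ _ (fun A => hf.mul (BM.sum _ fun S _ => hf.ac S))]
    refine sum_congr rfl fun A _ => ?_
    have h3 : ∀ s : Finset (Finset ι), ∫ ω, jA J A ω * (f ω * ∑ S ∈ s, ac π μ f S ω)
        ∂(Measure.pi μ) = ∑ S ∈ s, ∫ ω, (jA J A ω * f ω) * ac π μ f S ω ∂(Measure.pi μ) := by
      intro s
      rw [← int_mul_sum s ((BM_jA hJ A).mul hf) fun S _ => hf.ac S]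
      refine integral_congr_ae (Filter.Eventually.of_forall fun ω => ?_)
      simp only
      ring
    rw [h3, h3, Finset.sum_filter]
    refine sum_congr rfl fun S _ => ?_
    split_ifs with hS
    · rfl
    · exact ortho hf ((BM_jA hJ A).mul hf) (dep_jA_f hJ A) hS
  -- `(∫ f D)^2 ≤ ∫ D^2`
  have e3 : (∫ ω, f ω * DD π μ f J 𝒯 ω ∂(Measure.pi μ)) ^ 2 ≤
      ∫ ω, DD π μ f J 𝒯 ω ^ 2 ∂(Measure.pi μ) := by
    have h0 : ∀ a : ℝ, ∫ ω, (DD π μ f J 𝒯 ω - a * f ω) ^ 2 ∂(Measure.pi μ) =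
        ∫ ω, DD π μ f J 𝒯 ω ^ 2 ∂(Measure.pi μ) -
          (2 * a) * ∫ ω, f ω * DD π μ f J 𝒯 ω ∂(Measure.pi μ) +
          a ^ 2 * ∫ ω, f ω ^ 2 ∂(Measure.pi μ) := by
      intro a
      rw [← integral_const_mul, ← integral_const_mul,
        ← integral_sub (hD.sq.integrable _) (((hf.mul hD).cmul _).integrable _),
        ← integral_add ((hD.sq.sub ((hf.mul hD).cmul _)).integrable _)
          ((hf.sq.cmul _).integrable _)]
      refine integral_congr_ae (Filter.Eventually.of_forall fun ω => ?_)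
      simp only
      ring
    have h1 : 0 ≤ ∫ ω, (DD π μ f J 𝒯 ω - (∫ ω, f ω * DD π μ f J 𝒯 ω ∂(Measure.pi μ)) * f ω) ^ 2
        ∂(Measure.pi μ) := integral_nonneg fun _ => sq_nonneg _
    rw [h0] at h1
    set a := ∫ ω, f ω * DD π μ f J 𝒯 ω ∂(Measure.pi μ) with ha
    have h3 : ∫ ω, f ω ^ 2 ∂(Measure.pi μ) ≤ 1 := by
      calc ∫ ω, f ω ^ 2 ∂(Measure.pi μ) ≤ ∫ _ω : (∀ i, Ω i), (1 : ℝ) ∂(Measure.pi μ) := by
            refine integral_mono (hf.sq.integrable _) ((BM.const 1).integrable _) fun ω => ?_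
            have := hf1 ω
            simp only
            rw [← sq_abs]
            exact pow_le_one₀ (abs_nonneg _) this
        _ = 1 := by simp
    nlinarith [sq_nonneg a]
  -- `∫ G D = ∫ D^2`
  have e4 : ∫ ω, G ω * DD π μ f J 𝒯 ω ∂(Measure.pi μ) =
      ∫ ω, DD π μ f J 𝒯 ω ^ 2 ∂(Measure.pi μ) := by
    have h1 : ∀ ω, G ω * DD π μ f J 𝒯 ω = ∑ A : Finset ι, jA J A ω *
        ((∑ S ∈ 𝒯.filter (fun S => S ⊆ A), ac π μ f S ω) * ∑ S' ∈ 𝒯, ac π μ f S' ω) := by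
      intro ω
      unfold DD
      rw [mul_sum]
      exact sum_congr rfl fun A _ => by ring
    have h2 : ∀ ω, DD π μ f J 𝒯 ω ^ 2 = ∑ A : Finset ι, jA J A ω *
        ((∑ S ∈ 𝒯.filter (fun S => S ⊆ A), ac π μ f S ω) *
          ∑ S' ∈ 𝒯.filter (fun S => S ⊆ A), ac π μ f S' ω) := by
      intro ω
      rw [jA_mul J (fun A => (∑ S ∈ 𝒯.filter (fun S => S ⊆ A), ac π μ f S ω) *
          ∑ S' ∈ 𝒯.filter (fun S => S ⊆ A), ac π μ f S' ω) ω, hDp ω]
      ring
    rw [integral_congr_ae (Filter.Eventually.of_forall h1),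
      integral_congr_ae (Filter.Eventually.of_forall h2),
      int_sum_A hf hJ _ (fun A => (BM.sum _ fun S _ => hf.ac S).mul (BM.sum _ fun S _ => hf.ac S)),
      int_sum_A hf hJ _ (fun A => (BM.sum _ fun S _ => hf.ac S).mul (BM.sum _ fun S _ => hf.ac S))]
    refine sum_congr rfl fun A _ => ?_
    rw [int_jA_sum_mul_sum hf hJ, int_jA_sum_mul_sum hf hJ]
    refine sum_congr rfl fun S hS => ?_
    rw [Finset.sum_filter]
    refine sum_congr rfl fun S' _ => ?_
    split_ifs with h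
    · rfl
    · refine ortho_jA hf hJ A S S' fun h' => h ?_
      rw [mem_filter] at hS
      exact h'.trans (union_subset (Subset.refl _) hS.2)
  -- `∫ G H = ∫ H^2`
  have e5 : ∫ ω, G ω * HH π μ f R J 𝒯 ω ∂(Measure.pi μ) =
      ∫ ω, HH π μ f R J 𝒯 ω ^ 2 ∂(Measure.pi μ) := by
    have h1 : ∀ ω, G ω * HH π μ f R J 𝒯 ω = ∑ A : Finset ι, jA J A ω *
        ((∑ S ∈ 𝒯, ac π μ f S ω) *
          ∑ S' ∈ 𝒯.filter (fun S => Disjoint (S \ R) A), ac π μ f S' ω) := by
      intro ω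
      unfold HH
      rw [mul_sum]
      exact sum_congr rfl fun A _ => by ring
    have h2 : ∀ ω, HH π μ f R J 𝒯 ω ^ 2 = ∑ A : Finset ι, jA J A ω *
        ((∑ S ∈ 𝒯.filter (fun S => Disjoint (S \ R) A), ac π μ f S ω) *
          ∑ S' ∈ 𝒯.filter (fun S => Disjoint (S \ R) A), ac π μ f S' ω) := by
      intro ω
      rw [jA_mul J (fun A => (∑ S ∈ 𝒯.filter (fun S => Disjoint (S \ R) A), ac π μ f S ω) *
          ∑ S' ∈ 𝒯.filter (fun S => Disjoint (S \ R) A), ac π μ f S' ω) ω, hHp ω]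
      ring
    rw [integral_congr_ae (Filter.Eventually.of_forall h1),
      integral_congr_ae (Filter.Eventually.of_forall h2),
      int_sum_A hf hJ _ (fun A => (BM.sum _ fun S _ => hf.ac S).mul (BM.sum _ fun S _ => hf.ac S)),
      int_sum_A hf hJ _ (fun A => (BM.sum _ fun S _ => hf.ac S).mul (BM.sum _ fun S _ => hf.ac S))]
    refine sum_congr rfl fun A _ => ?_
    rw [int_jA_sum_mul_sum hf hJ, int_jA_sum_mul_sum hf hJ, Finset.sum_filter]
    refine sum_congr rfl fun S hS => ?_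
    split_ifs with h
    · rfl
    · refine sum_eq_zero fun S' hS' => ?_
      rw [mem_filter] at hS'
      refine ortho_jA hf hJ A S S' fun h' => h ?_
      have h3 : S' \ R ⊆ S \ R := by
        intro x hx
        rw [mem_sdiff] at hx ⊢
        refine ⟨?_, hx.2⟩
        rcases mem_union.1 (h' hx.1) with h4 | h4
        · exact absurd h4 (Finset.disjoint_left.1 hS'.2 (mem_sdiff.2 hx))
        · exact h4
      have h4 : S' \ R = S \ R :=
        Finset.eq_of_subset_of_card_le h3 (by rw [h𝒯 S hS, h𝒯 S' hS'.1])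
      rw [← h4]
      exact hS'.2
  -- `∫ D H = 0`
  have e6 : ∫ ω, DD π μ f J 𝒯 ω * HH π μ f R J 𝒯 ω ∂(Measure.pi μ) = 0 := by
    have h1 : ∀ ω, DD π μ f J 𝒯 ω * HH π μ f R J 𝒯 ω = ∑ A : Finset ι, jA J A ω *
        ((∑ S ∈ 𝒯.filter (fun S => S ⊆ A), ac π μ f S ω) *
          ∑ S' ∈ 𝒯.filter (fun S => Disjoint (S \ R) A), ac π μ f S' ω) := by
      intro ω
      rw [jA_mul J (fun A => (∑ S ∈ 𝒯.filter (fun S => S ⊆ A), ac π μ f S ω) *
          ∑ S' ∈ 𝒯.filter (fun S => Disjoint (S \ R) A), ac π μ f S' ω) ω, hDp ω, hHp ω]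
    rw [integral_congr_ae (Filter.Eventually.of_forall h1),
      int_sum_A hf hJ _ (fun A => (BM.sum _ fun S _ => hf.ac S).mul (BM.sum _ fun S _ => hf.ac S))]
    refine sum_eq_zero fun A _ => ?_
    rw [int_jA_sum_mul_sum hf hJ]
    refine sum_eq_zero fun S hS => sum_eq_zero fun S' hS' => ?_
    rw [mem_filter] at hS hS'
    refine ortho_jA hf hJ A S S' fun h' => ?_
    have h3 : S' \ R = ∅ := by
      rw [Finset.eq_empty_iff_forall_notMem]
      intro x hx
      have h4 : x ∈ A := (union_subset (Subset.refl _) hS.2) (h' (mem_sdiff.1 hx).1)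
      exact Finset.disjoint_left.1 hS'.2 hx h4
    have := h𝒯 S' hS'.1
    rw [h3, card_empty] at this
    omega
  have e7 : 0 ≤ ∫ ω, (G ω - DD π μ f J 𝒯 ω - HH π μ f R J 𝒯 ω) ^ 2 ∂(Measure.pi μ) :=
    integral_nonneg fun _ => sq_nonneg _
  have e8 : ∫ ω, (G ω - DD π μ f J 𝒯 ω - HH π μ f R J 𝒯 ω) ^ 2 ∂(Measure.pi μ) =
      ∫ ω, G ω ^ 2 ∂(Measure.pi μ) + ∫ ω, DD π μ f J 𝒯 ω ^ 2 ∂(Measure.pi μ) +
      ∫ ω, HH π μ f R J 𝒯 ω ^ 2 ∂(Measure.pi μ) -
      2 * ∫ ω, G ω * DD π μ f J 𝒯 ω ∂(Measure.pi μ) -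
      2 * ∫ ω, G ω * HH π μ f R J 𝒯 ω ∂(Measure.pi μ) +
      2 * ∫ ω, DD π μ f J 𝒯 ω * HH π μ f R J 𝒯 ω ∂(Measure.pi μ) := by
    have b1 := hG.sq
    have b2 := hD.sq
    have b3 := hH.sq
    have b4 := (hG.mul hD).cmul 2
    have b5 := (hG.mul hH).cmul 2
    have b6 := (hD.mul hH).cmul 2
    rw [← integral_const_mul, ← integral_const_mul, ← integral_const_mul,
      ← integral_add (b1.integrable _) (b2.integrable _),
      ← integral_add ((b1.add b2).integrable _) (b3.integrable _),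
      ← integral_sub (((b1.add b2).add b3).integrable _) (b4.integrable _),
      ← integral_sub ((((b1.add b2).add b3).sub b4).integrable _) (b5.integrable _),
      ← integral_add (((((b1.add b2).add b3).sub b4).sub b5).integrable _) (b6.integrable _)]
    refine integral_congr_ae (Filter.Eventually.of_forall fun ω => ?_)
    simp only
    ring
  rw [e8, e4, e5, e6] at e7
  rw [← e2, e1] at e3
  linarith

/-- the block sum of the components with `S \ R = U` -/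
noncomputable def GU (π : κ → ι) (μ : ∀ i, Measure (Ω i)) (f : (∀ i, Ω i) → ℝ) (R : Finset ι)
    (𝒯 : Finset (Finset ι)) (U : Finset ι) (ω : ∀ i, Ω i) : ℝ :=
  ∑ S ∈ 𝒯.filter (fun S => S \ R = U), ac π μ f S ω

theorem BM_GU (hf : BM f) (U : Finset ι) : BM (GU π μ f R 𝒯 U) := BM.sum _ fun S _ => hf.ac S

theorem dep_GU (U : Finset ι) : Dep (pre π (R ∪ U)) (GU π μ f R 𝒯 U) := by
  intro ω ω' h
  unfold GU
  refine sum_congr rfl fun S hS => ?_
  rw [mem_filter] at hS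
  refine ((ac_dep f S).mono (pre_mono π ?_)) ω ω' h
  intro x hx
  by_cases hR : x ∈ R
  · exact mem_union_left _ hR
  · exact mem_union_right _ (hS.2 ▸ mem_sdiff.2 ⟨hx, hR⟩)

/-- the family of the outer parts -/
def OutF (R : Finset ι) (𝒯 : Finset (Finset ι)) : Finset (Finset ι) := 𝒯.image (fun S => S \ R)

theorem int_GU_sq (hf : BM f) (hJ : Stop π f R J) {A U : Finset ι} (hU : Disjoint U A) :
    ∫ ω, jA J A ω * GU π μ f R 𝒯 U ω ^ 2 ∂(Measure.pi μ) =
      ∫ ω, EE μ (pre π R) (jA J A) ω * EE μ (pre π R) (fun ω => GU π μ f R 𝒯 U ω ^ 2) ω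
        ∂(Measure.pi μ) := by
  have hG2 : BM (fun ω => GU π μ f R 𝒯 U ω ^ 2) := (BM_GU hf U).sq
  have hd : Dep (pre π (R ∪ U)) (fun ω => GU π μ f R 𝒯 U ω ^ 2) := fun ω ω' h => by
    simp only
    rw [dep_GU U ω ω' h]
  by_cases hRA : R ⊆ A
  · have h1 : A ∩ (R ∪ U) = R := by
      ext x
      simp only [mem_inter, mem_union]
      constructor
      · rintro ⟨h1, h2 | h2⟩
        · exact h2
        · exact absurd h1 (Finset.disjoint_left.1 hU h2)
      · intro h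
        exact ⟨hRA h, Or.inl h⟩
    have h2 : EE μ (pre π A) (fun ω => GU π μ f R 𝒯 U ω ^ 2) =
        EE μ (pre π R) (fun ω => GU π μ f R 𝒯 U ω ^ 2) := by
      conv_lhs => rw [← EE_of_dep (μ := μ) hd]
      rw [EE_EE hG2, ← pre_inter, h1]
    rw [← integral_EE_mul hG2 (BM_jA hJ A) (dep_jA hJ A), h2]
    have h3 := integral_EE_mul (μ := μ) (T := pre π R) (BM_jA hJ A)
      (BM.EE (μ := μ) hG2 (pre π R)) (EE_dep (pre π R) _)
    have h4 : ∀ ω, jA J A ω * EE μ (pre π R) (fun ω => GU π μ f R 𝒯 U ω ^ 2) ω =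
        EE μ (pre π R) (fun ω => GU π μ f R 𝒯 U ω ^ 2) ω * jA J A ω := fun ω => mul_comm _ _
    rw [integral_congr_ae (Filter.Eventually.of_forall h4), ← h3]
    exact integral_congr_ae (Filter.Eventually.of_forall fun ω => mul_comm _ _)
  · have h0 : jA J A = fun _ => 0 := by
      funext ω
      exact ind_not (p := fun ω => J ω = A) (fun h => hRA (h ▸ hJ.sub ω))
    rw [h0]
    have : EE μ (pre π R) (fun _ : (∀ i, Ω i) => (0 : ℝ)) = fun _ => 0 := by
      funext ω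
      simp [EE]
    rw [this]
    simp

/-- second form: the defect in terms of conditional revealments -/
theorem ss_two (hf : BM f) (hf1 : ∀ ω, |f ω| ≤ 1) (hJ : Stop π f R J) (hk : 0 < k)
    (h𝒯 : ∀ S ∈ 𝒯, (S \ R).card = k) :
    (∫ ω, (∑ S ∈ 𝒯, ac π μ f S ω) ^ 2 ∂(Measure.pi μ)) ^ 2 ≤
      ∑ U ∈ OutF R 𝒯, ∫ ω, EE μ (pre π R) (ind (fun ω => ¬ Disjoint U (J ω))) ω *
        EE μ (pre π R) (fun ω => GU π μ f R 𝒯 U ω ^ 2) ω ∂(Measure.pi μ) := by
  refine (ss_one hf hf1 hJ hk h𝒯).trans ?_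
  have hGU : ∀ U, BM (fun ω => GU π μ f R 𝒯 U ω ^ 2) := fun U => (BM_GU hf U).sq
  -- orthogonality of the blocks, on `J = A`
  have hH : ∫ ω, HH π μ f R J 𝒯 ω ^ 2 ∂(Measure.pi μ) =
      ∑ A : Finset ι, ∑ U ∈ (OutF R 𝒯).filter (fun U => Disjoint U A),
        ∫ ω, jA J A ω * GU π μ f R 𝒯 U ω ^ 2 ∂(Measure.pi μ) := by
    have h2 : ∀ ω, HH π μ f R J 𝒯 ω ^ 2 = ∑ A : Finset ι, jA J A ω *
        ((∑ S ∈ 𝒯.filter (fun S => Disjoint (S \ R) A), ac π μ f S ω) *
          ∑ S' ∈ 𝒯.filter (fun S => Disjoint (S \ R) A), ac π μ f S' ω) := by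
      intro ω
      rw [jA_mul J (fun A => (∑ S ∈ 𝒯.filter (fun S => Disjoint (S \ R) A), ac π μ f S ω) *
          ∑ S' ∈ 𝒯.filter (fun S => Disjoint (S \ R) A), ac π μ f S' ω) ω]
      unfold HH
      rw [jA_mul J (fun A => ∑ S ∈ 𝒯.filter (fun S => Disjoint (S \ R) A), ac π μ f S ω) ω]
      ring
    rw [integral_congr_ae (Filter.Eventually.of_forall h2),
      int_sum_A hf hJ _ (fun A => (BM.sum _ fun S _ => hf.ac S).mul (BM.sum _ fun S _ => hf.ac S))]
    refine sum_congr rfl fun A _ => ?_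
    rw [int_jA_sum_mul_sum hf hJ]
    have h3 : ∀ U ∈ (OutF R 𝒯).filter (fun U => Disjoint U A),
        ∫ ω, jA J A ω * GU π μ f R 𝒯 U ω ^ 2 ∂(Measure.pi μ) =
        ∑ S ∈ 𝒯.filter (fun S => S \ R = U), ∑ S' ∈ 𝒯.filter (fun S => Disjoint (S \ R) A),
          ∫ ω, jA J A ω * (ac π μ f S ω * ac π μ f S' ω) ∂(Measure.pi μ) := by
      intro U hU
      rw [mem_filter] at hU
      have h4 : ∀ ω, jA J A ω * GU π μ f R 𝒯 U ω ^ 2 = jA J A ω *
          ((∑ S ∈ 𝒯.filter (fun S => S \ R = U), ac π μ f S ω) *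
          ∑ S ∈ 𝒯.filter (fun S => S \ R = U), ac π μ f S ω) := fun ω => by
        unfold GU
        ring
      rw [integral_congr_ae (Filter.Eventually.of_forall h4), int_jA_sum_mul_sum hf hJ]
      refine sum_congr rfl fun S hS => ?_
      rw [mem_filter] at hS
      have hsub : 𝒯.filter (fun S => S \ R = U) ⊆ 𝒯.filter (fun S => Disjoint (S \ R) A) := by
        intro S' hS'
        rw [mem_filter] at hS' ⊢
        exact ⟨hS'.1, hS'.2 ▸ hU.2⟩
      refine sum_subset hsub fun S' hS' hnot => ?_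
      rw [mem_filter] at hS'
      refine ortho_jA hf hJ A S S' fun h' => hnot ?_
      rw [mem_filter]
      refine ⟨hS'.1, ?_⟩
      have h5 : S' \ R ⊆ S \ R := by
        intro x hx
        rw [mem_sdiff] at hx ⊢
        refine ⟨?_, hx.2⟩
        rcases mem_union.1 (h' hx.1) with h4 | h4
        · exact absurd h4 (Finset.disjoint_left.1 hS'.2 (mem_sdiff.2 hx))
        · exact h4
      rw [Finset.eq_of_subset_of_card_le h5 (by rw [h𝒯 S hS.1, h𝒯 S' hS'.1]), hS.2]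
    rw [sum_congr rfl h3]
    rw [← Finset.sum_biUnion]
    · refine sum_congr ?_ fun _ _ => rfl
      ext S
      simp only [mem_filter, mem_biUnion, OutF, mem_image]
      constructor
      · rintro ⟨hS, hd⟩
        exact ⟨S \ R, ⟨⟨S, hS, rfl⟩, hd⟩, hS, rfl⟩
      · rintro ⟨U, ⟨_, hd⟩, hS, rfl⟩
        exact ⟨hS, hd⟩
    · intro U _ U' _ hne
      rw [Function.onFun, Finset.disjoint_left]
      intro S hS hS'
      rw [mem_filter] at hS hS'
      exact hne (hS.2.symm.trans hS'.2)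
  -- `∫ G^2 = sum_U ∫ G_U^2`
  have hG : ∫ ω, (∑ S ∈ 𝒯, ac π μ f S ω) ^ 2 ∂(Measure.pi μ) =
      ∑ U ∈ OutF R 𝒯, ∫ ω, GU π μ f R 𝒯 U ω ^ 2 ∂(Measure.pi μ) := by
    rw [int_sum_sq hf]
    have h3 : ∀ U ∈ OutF R 𝒯, ∫ ω, GU π μ f R 𝒯 U ω ^ 2 ∂(Measure.pi μ) =
        ∑ S ∈ 𝒯.filter (fun S => S \ R = U), ∫ ω, ac π μ f S ω ^ 2 ∂(Measure.pi μ) :=
      fun U _ => int_sum_sq hf _
    rw [sum_congr rfl h3, ← Finset.sum_biUnion]
    · refine sum_congr ?_ fun _ _ => rfl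
      ext S
      simp only [mem_filter, mem_biUnion, OutF, mem_image]
      constructor
      · intro hS
        exact ⟨S \ R, ⟨S, hS, rfl⟩, hS, rfl⟩
      · rintro ⟨U, _, hS, rfl⟩
        exact hS
    · intro U _ U' _ hne
      rw [Function.onFun, Finset.disjoint_left]
      intro S hS hS'
      rw [mem_filter] at hS hS'
      exact hne (hS.2.symm.trans hS'.2)
  have hG' : ∀ U, ∫ ω, GU π μ f R 𝒯 U ω ^ 2 ∂(Measure.pi μ) =
      ∑ A : Finset ι, ∫ ω, EE μ (pre π R) (jA J A) ω *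
        EE μ (pre π R) (fun ω => GU π μ f R 𝒯 U ω ^ 2) ω ∂(Measure.pi μ) := by
    intro U
    rw [← integral_EE (hGU U) (pre π R)]
    have h1 : ∀ ω, EE μ (pre π R) (fun ω => GU π μ f R 𝒯 U ω ^ 2) ω = ∑ A : Finset ι,
        EE μ (pre π R) (jA J A) ω * EE μ (pre π R) (fun ω => GU π μ f R 𝒯 U ω ^ 2) ω := by
      intro ω
      rw [← sum_mul]
      have h2 : ∑ A : Finset ι, EE μ (pre π R) (jA J A) ω = 1 := by
        have h3 := congrFun (EE_sum (μ := μ) (Finset.univ : Finset (Finset ι))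
          (fun A _ => BM_jA hJ A) (pre π R)) ω
        rw [← h3]
        simp only [sum_jA]
        simp [EE]
      rw [h2, one_mul]
    conv_lhs => rw [integral_congr_ae (Filter.Eventually.of_forall h1)]
    exact integral_finsetSum _ fun A _ =>
      (((BM_jA hJ A).EE _).mul ((hGU U).EE _)).integrable _
  rw [hH, hG]
  have hH' : ∑ A : Finset ι, ∑ U ∈ (OutF R 𝒯).filter (fun U => Disjoint U A),
        ∫ ω, jA J A ω * GU π μ f R 𝒯 U ω ^ 2 ∂(Measure.pi μ) =
      ∑ U ∈ OutF R 𝒯, ∑ A ∈ (Finset.univ : Finset (Finset ι)).filter (fun A => Disjoint U A),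
        ∫ ω, EE μ (pre π R) (jA J A) ω *
        EE μ (pre π R) (fun ω => GU π μ f R 𝒯 U ω ^ 2) ω ∂(Measure.pi μ) := by
    have h1 : ∀ A : Finset ι, ∑ U ∈ (OutF R 𝒯).filter (fun U => Disjoint U A),
        ∫ ω, jA J A ω * GU π μ f R 𝒯 U ω ^ 2 ∂(Measure.pi μ) =
        ∑ U ∈ OutF R 𝒯, if Disjoint U A then ∫ ω, EE μ (pre π R) (jA J A) ω *
        EE μ (pre π R) (fun ω => GU π μ f R 𝒯 U ω ^ 2) ω ∂(Measure.pi μ) else 0 := by
      intro A
      rw [Finset.sum_filter]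
      refine sum_congr rfl fun U _ => ?_
      split_ifs with h
      · exact int_GU_sq hf hJ h
      · rfl
    rw [sum_congr rfl fun A _ => h1 A, sum_comm]
    exact sum_congr rfl fun U _ => (Finset.sum_filter _ _).symm
  rw [hH', ← Finset.sum_sub_distrib]
  refine sum_le_sum fun U _ => ?_
  rw [hG' U, ← Finset.sum_filter_add_sum_filter_not Finset.univ (fun A : Finset ι => Disjoint U A),
    add_sub_cancel_left]
  refine le_of_eq ?_
  rw [← integral_finsetSum _ fun A _ => (((BM_jA hJ A).EE _).mul ((hGU U).EE _)).integrable _]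
  refine integral_congr_ae (Filter.Eventually.of_forall fun ω => ?_)
  simp only
  rw [← sum_mul]
  congr 1
  have h3 := congrFun (EE_sum (μ := μ)
    ((Finset.univ : Finset (Finset ι)).filter (fun A => ¬ Disjoint U A))
          (fun A _ => BM_jA hJ A) (pre π R)) ω
  rw [← h3]
  congr 1
  funext ω'
  by_cases h : Disjoint U (J ω')
  · rw [ind_not (p := fun ω => ¬ Disjoint U (J ω)) (not_not.2 h)]
    refine sum_eq_zero fun A hA => ?_
    rw [mem_filter] at hA
    exact ind_not (p := fun ω => J ω = A) (fun h' => hA.2 (h' ▸ h))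
  · rw [ind_of (p := fun ω => ¬ Disjoint U (J ω)) h]
    rw [sum_eq_single_of_mem (J ω') (by simpa using h)]
    · exact ind_of (p := fun ω => J ω = J ω') rfl
    · intro A _ hne
      exact ind_not (p := fun ω => J ω = A) (fun h' => hne h'.symm)

end

/-- the Schramm-Steif inequality with a random (independent) choice of the stopping set and an
inside set `R` -/
theorem schramm_steif {f : (∀ i, Ω i) → ℝ} (hf : BM f) (hf1 : ∀ ω, |f ω| ≤ 1) {R : Finset ι}
    {τ : Type*} (s : Finset τ) (w : τ → ℝ) (hw : ∀ t ∈ s, 0 ≤ w t) (hw1 : ∑ t ∈ s, w t = 1)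
    (J : τ → (∀ i, Ω i) → Finset ι) (hJ : ∀ t ∈ s, Stop π f R (J t)) {k : ℕ} (hk : 0 < k)
    {𝒯 : Finset (Finset ι)} (h𝒯 : ∀ S ∈ 𝒯, (S \ R).card = k) {δ : ℝ} (hδ0 : 0 ≤ δ)
    (hδ : ∀ S ∈ 𝒯, ∀ ω, ∑ t ∈ s, w t * EE μ (pre π R) (ind (fun ω => ¬ Disjoint (S \ R) (J t ω))) ω
      ≤ δ) :
    ∑ S ∈ 𝒯, ∫ ω, ac π μ f S ω ^ 2 ∂(Measure.pi μ) ≤ δ := by
  rw [← int_sum_sq hf]
  set x := ∫ ω, (∑ S ∈ 𝒯, ac π μ f S ω) ^ 2 ∂(Measure.pi μ) with hx
  have hx0 : 0 ≤ x := integral_nonneg fun _ => sq_nonneg _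
  have hm : ∀ t ∈ s, ∀ U : Finset ι, BM (ind (fun ω => ¬ Disjoint U (J t ω))) := by
    intro t ht U
    refine BM.ind' ?_
    have : {ω | ¬ Disjoint U (J t ω)} =
        ⋃ A ∈ (Finset.univ : Finset (Finset ι)).filter (fun A => ¬ Disjoint U A),
          {ω | J t ω = A} := by
      ext ω
      simp
    rw [this]
    exact Finset.measurableSet_biUnion _ fun A _ => (hJ t ht).meas A
  have hGU : ∀ U, BM (fun ω => GU π μ f R 𝒯 U ω ^ 2) := fun U => (BM_GU hf U).sq
  have h1 : x ^ 2 ≤ δ * x := by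
    calc x ^ 2 = ∑ t ∈ s, w t * x ^ 2 := by rw [← sum_mul, hw1, one_mul]
      _ ≤ ∑ t ∈ s, w t * ∑ U ∈ OutF R 𝒯, ∫ ω,
            EE μ (pre π R) (ind (fun ω => ¬ Disjoint U (J t ω))) ω *
            EE μ (pre π R) (fun ω => GU π μ f R 𝒯 U ω ^ 2) ω ∂(Measure.pi μ) := by
          refine sum_le_sum fun t ht => mul_le_mul_of_nonneg_left ?_ (hw t ht)
          exact ss_two hf hf1 (hJ t ht) hk h𝒯
      _ = ∑ U ∈ OutF R 𝒯, ∫ ω, (∑ t ∈ s, w t *
            EE μ (pre π R) (ind (fun ω => ¬ Disjoint U (J t ω))) ω) *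
            EE μ (pre π R) (fun ω => GU π μ f R 𝒯 U ω ^ 2) ω ∂(Measure.pi μ) := by
          simp only [mul_sum]
          rw [sum_comm]
          refine sum_congr rfl fun U _ => ?_
          simp only [sum_mul]
          rw [integral_finsetSum _ fun t ht =>
            ((((hm t ht U).EE _).cmul (w t)).mul ((hGU U).EE _)).integrable _]
          refine sum_congr rfl fun t _ => ?_
          rw [← integral_const_mul]
          refine integral_congr_ae (Filter.Eventually.of_forall fun ω => ?_)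
          simp only
          ring
      _ ≤ ∑ U ∈ OutF R 𝒯, ∫ ω, δ *
            EE μ (pre π R) (fun ω => GU π μ f R 𝒯 U ω ^ 2) ω ∂(Measure.pi μ) := by
          refine sum_le_sum fun U hU => ?_
          refine integral_mono (((BM.sum _ fun t ht => ((hm t ht U).EE _).cmul (w t)).mul
            ((hGU U).EE _)).integrable _) ((((hGU U).EE _).cmul δ).integrable _) fun ω => ?_
          refine mul_le_mul_of_nonneg_right ?_ (EE_nonneg (fun _ => sq_nonneg _) _ _)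
          obtain ⟨S, hS, rfl⟩ := mem_image.1 hU
          exact hδ S hS ω
      _ = δ * x := by
          simp only [integral_const_mul, integral_EE (hGU _)]
          rw [← mul_sum]
          congr 1
          rw [hx, int_sum_sq hf]
          have h3 : ∀ U ∈ OutF R 𝒯, ∫ ω, GU π μ f R 𝒯 U ω ^ 2 ∂(Measure.pi μ) =
              ∑ S ∈ 𝒯.filter (fun S => S \ R = U), ∫ ω, ac π μ f S ω ^ 2 ∂(Measure.pi μ) :=
            fun U _ => int_sum_sq hf _
          rw [sum_congr rfl h3, ← Finset.sum_biUnion]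
          · refine sum_congr ?_ fun _ _ => rfl
            ext S
            simp only [mem_filter, mem_biUnion, OutF, mem_image]
            constructor
            · rintro ⟨U, _, hS, rfl⟩
              exact hS
            · intro hS
              exact ⟨S \ R, ⟨S, hS, rfl⟩, hS, rfl⟩
          · intro U _ U' _ hne
            rw [Function.onFun, Finset.disjoint_left]
            intro S hS hS'
            rw [mem_filter] at hS hS'
            exact hne (hS.2.symm.trans hS'.2)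
  rcases hx0.eq_or_lt with h | h
  · rw [← h]
    exact hδ0
  · exact le_of_mul_le_mul_right (by rw [← pow_two]; exact h1) h

end MPdd5692.B35
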