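import Pool.Agent.Work.MP_dd5692_pr.STOP8

/-! `MPdd5692.B35.stmt_STOP4` is proved in `STOP8.lean` (helper84). -/
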