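import Mathlib
import Pool.Agent.Work.MP_dd5692_pr.Superp

/-!
# MP_dd5692_pr: SupLib63 (helper63): Poisson superposition for countable sums
-/

open MeasureTheory ProbabilityTheory Set
open scoped ENNReal NNReal BigOperators

namespace MPdd5692

namespace Sup63

variable {κ : Type}

lemma poisson_zero : poissonMeasure 0 = Measure.dirac 0 := by
  refine Measure.ext_of_singleton fun n => ?_
  rw [poissonMeasure_singleton]
  by_cases hn : n = 0
  · subst hn; simp
  · simp [hn, zero_pow hn, Ne.symm hn]

lemma map_sum [DecidableEq κ] (ν : κ → ℝ≥0) (s : Finset κ) :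
    (pois ν).map (fun M : κ → ℕ => ∑ i ∈ s, M i) = poissonMeasure (∑ i ∈ s, ν i) := by
  induction s using Finset.induction_on with
  | empty => simp [poisson_zero, Measure.map_const]
  | insert a s ha ih =>
    have hind : iIndepFun (fun (i : κ) (M : κ → ℕ) => M i) (pois ν) := by
      unfold pois
      exact iIndepFun_infinitePi (X := fun x ω => ω) (by fun_prop)
    have h1 := hind.indepFun_finsetSum_of_notMem (fun i => measurable_pi_apply i) ha
    have h2 := h1.map_add_eq_map_conv_map (by fun_prop) (by fun_prop)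
    have h3 : (fun M : κ → ℕ => ∑ i ∈ insert a s, M i) =
        (∑ j ∈ s, fun M : κ → ℕ => M j) + fun M : κ → ℕ => M a := by
      funext M
      rw [Finset.sum_insert ha, Pi.add_apply, Finset.sum_apply, add_comm]
    have h4 : (∑ j ∈ s, fun M : κ → ℕ => M j) = fun M : κ → ℕ => ∑ j ∈ s, M j := by
      funext M
      rw [Finset.sum_apply]
    have h5 : (pois ν).map (fun M : κ → ℕ => M a) = poissonMeasure (ν a) :=
      Measure.infinitePi_map_eval (fun i => poissonMeasure (ν i)) a
    rw [h3, h2, h4, ih, h5, poissonMeasure_conv_poissonMeasure, Finset.sum_insert ha, add_comm]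

lemma tsum_fin (M : κ → ℕ) (s : Finset κ) (hs : ∀ i, M i ≠ 0 → i ∈ s) :
    ∑' i, M i = ∑ i ∈ s, M i := by
  refine tsum_eq_sum fun i hi => ?_
  by_contra hne
  exact hi (hs i hne)

/-- the sum in terms of the sum in `ℝ≥0∞` -/
lemma tsum_eq_floor (M : κ → ℕ) :
    ∑' i, M i = ⌊(∑' i, (M i : ℝ≥0∞)).toReal⌋₊ := by
  by_cases hfin : {i | M i ≠ 0}.Finite
  · have h1 := tsum_fin M hfin.toFinset (fun i hi => hfin.mem_toFinset.2 hi)
    have h2 : ∑' i, (M i : ℝ≥0∞) = ∑ i ∈ hfin.toFinset, (M i : ℝ≥0∞) := by
      refine tsum_eq_sum fun i hi => ?_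
      by_contra hne
      apply hi
      rw [Set.Finite.mem_toFinset]
      intro h0
      apply hne
      rw [h0]; simp
    rw [h1, h2, ← Nat.cast_sum, ENNReal.toReal_natCast, Nat.floor_natCast]
  · have h2 : ∑' i, (M i : ℝ≥0∞) = ⊤ := by
      by_contra hne
      have h3 := ENNReal.finite_const_le_of_tsum_ne_top hne one_ne_zero
      apply hfin
      refine h3.subset fun i hi => ?_
      have h4 : 1 ≤ M i := Nat.one_le_iff_ne_zero.2 hi
      show (1 : ℝ≥0∞) ≤ (M i : ℝ≥0∞)
      exact_mod_cast h4
    rw [h2, ENNReal.toReal_top, Nat.floor_zero]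
    refine tsum_eq_zero_of_not_summable fun hs => hfin ?_
    have h5 : Summable (fun i => (M i : ℝ)) :=
      hs.map (Nat.castAddMonoidHom ℝ) (continuous_of_discreteTopology)
    have h6 := h5.tendsto_cofinite_zero
    have h7 : ∀ᶠ i in Filter.cofinite, (M i : ℝ) < 1 :=
      h6.eventually (gt_mem_nhds one_pos)
    rw [Filter.eventually_cofinite] at h7
    refine h7.subset fun i hi => ?_
    have h8 : 1 ≤ M i := Nat.one_le_iff_ne_zero.2 hi
    show ¬ ((M i : ℝ) < 1)
    rw [not_lt]
    exact_mod_cast h8

lemma measurable_tsum [Countable κ] : Measurable (fun M : κ → ℕ => ∑' i, M i) := by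
  have h1 : (fun M : κ → ℕ => ∑' i, M i) = fun M => ⌊(∑' i, (M i : ℝ≥0∞)).toReal⌋₊ :=
    funext tsum_eq_floor
  rw [h1]
  refine Nat.measurable_floor.comp (ENNReal.measurable_toReal.comp ?_)
  refine Measurable.ennreal_tsum fun i => ?_
  exact (measurable_of_countable (fun n : ℕ => (n : ℝ≥0∞))).comp (measurable_pi_apply i)

/-- SUPERPOSITION, countable sums -/
theorem map_tsum [Countable κ] (ν : κ → ℝ≥0) (hν : Summable ν) :
    (pois ν).map (fun M : κ → ℕ => ∑' i, M i) = poissonMeasure (∑' i, ν i) := by
  classical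
  -- almost surely finite support
  have hae : ∀ᵐ M ∂(pois ν), {i | M i ≠ 0}.Finite := by
    have h3 : ∑' i, (pois ν) {M : κ → ℕ | M i ≠ 0} ≠ ⊤ := by
      refine ne_top_of_le_ne_top (ENNReal.tsum_coe_ne_top_iff_summable.2 hν) ?_
      exact ENNReal.tsum_le_tsum fun i => Superp.ne_zero_le _ _
    filter_upwards [ae_finite_setOfPred_mem h3] with M hM
    exact hM
  have : IsProbabilityMeasure ((pois ν).map (fun M : κ → ℕ => ∑' i, M i)) :=
    Measure.isProbabilityMeasure_map measurable_tsum.aemeasurable
  refine Measure.ext_of_singleton fun n => ?_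
  rw [Measure.map_apply measurable_tsum (measurableSet_singleton n)]
  have h1 : Filter.Tendsto (fun s : Finset κ => (pois ν) {M : κ → ℕ | ∑ i ∈ s, M i = n})
      Filter.atTop (nhds ((pois ν) ((fun M : κ → ℕ => ∑' i, M i) ⁻¹' {n}))) := by
    refine tendsto_measure_of_ae_tendsto_indicator_of_isFiniteMeasure _
      (measurable_tsum (measurableSet_singleton n)) (fun s => ?_) ?_
    · have hm : Measurable (fun M : κ → ℕ => ∑ i ∈ s, M i) := by fun_prop
      exact hm (measurableSet_singleton n)
    · filter_upwards [hae] with M hM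
      filter_upwards [Filter.eventually_ge_atTop hM.toFinset] with s hs
      have h2 := tsum_fin M s (fun i hi => hs (hM.mem_toFinset.2 hi))
      show (∑ i ∈ s, M i = n) ↔ (∑' i, M i = n)
      rw [h2]
  have h2 : Filter.Tendsto (fun s : Finset κ => (pois ν) {M : κ → ℕ | ∑ i ∈ s, M i = n})
      Filter.atTop (nhds (poissonMeasure (∑' i, ν i) {n})) := by
    have h3 : ∀ s : Finset κ, (pois ν) {M : κ → ℕ | ∑ i ∈ s, M i = n} =
        poissonMeasure (∑ i ∈ s, ν i) {n} := by
      intro s
      rw [← map_sum ν s, Measure.map_apply (by fun_prop) (measurableSet_singleton n)]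
      rfl
    simp_rw [h3, poissonMeasure_singleton]
    have hc : Continuous fun x : ℝ≥0 =>
        ENNReal.ofReal (Real.exp (-(x : ℝ)) * (x : ℝ) ^ n / (n.factorial : ℝ)) := by
      refine ENNReal.continuous_ofReal.comp ?_
      fun_prop
    exact (hc.tendsto _).comp hν.hasSum
  exact tendsto_nhds_unique h1 h2

/-- SUPERPOSITION, finitely many classes -/
theorem map_classes [Countable κ] {S : Type} [Fintype S] (cls : κ → Option S) (ν : κ → ℝ≥0)
    (hν : ∀ s, Summable (fun i : {i // cls i = some s} => ν i.1)) :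
    Measurable (fun (M : κ → ℕ) (s : S) => ∑' i : {i // cls i = some s}, M i.1) ∧
    (pois ν).map (fun (M : κ → ℕ) (s : S) => ∑' i : {i // cls i = some s}, M i.1) =
      Measure.pi fun s => poissonMeasure (∑' i : {i // cls i = some s}, ν i.1) := by
  have hms : ∀ s : S, Measurable (fun (M : {i // cls i = some s} → ℕ) => ∑' i, M i) :=
    fun s => measurable_tsum
  have hmeas : Measurable (fun (M : κ → ℕ) (s : S) => ∑' i : {i // cls i = some s}, M i.1) := by
    refine measurable_pi_iff.2 fun s => ?_
    have h1 : Measurable (fun (M : κ → ℕ) (i : {i // cls i = some s}) => M i.1) :=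
      measurable_pi_iff.2 fun i => measurable_pi_apply _
    exact (hms s).comp h1
  refine ⟨hmeas, ?_⟩
  have hinj : Function.Injective (fun p : (Σ s : S, {i // cls i = some s}) => p.2.1) := by
    rintro ⟨s, i, hi⟩ ⟨s', i', hi'⟩ h
    simp only at h
    subst h
    have hss : s = s' := Option.some_injective _ (hi.symm.trans hi')
    subst hss
    rfl
  have h1 := Measure.map_infinitePi_infinitePi_of_inj (P := fun i : κ => poissonMeasure (ν i)) hinj
  have h2 := Measure.infinitePi_map_piCurry
    (fun (s : S) (i : {i // cls i = some s}) => poissonMeasure (ν i.1))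
  have h3 := Measure.infinitePi_map_pi (fun s : S => Measure.infinitePi
    fun i : {i // cls i = some s} => poissonMeasure (ν i.1))
    (f := fun s (M : {i // cls i = some s} → ℕ) => ∑' i, M i) (fun s => hms s)
  have h4 : ∀ s : S, (Measure.infinitePi fun i : {i // cls i = some s} =>
      poissonMeasure (ν i.1)).map (fun M => ∑' i, M i) =
      poissonMeasure (∑' i : {i // cls i = some s}, ν i.1) := fun s => map_tsum _ (hν s)
  simp_rw [h4] at h3
  rw [← Measure.infinitePi_eq_pi, ← h3, ← h2]
  rw [← h1]
  have hm1 : Measurable (fun (ω : κ → ℕ) (p : (Σ s : S, {i // cls i = some s})) => ω p.2.1) :=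
    measurable_pi_iff.2 fun p => measurable_pi_apply _
  have hm3 : Measurable (fun (x : (s : S) → {i // cls i = some s} → ℕ) (s : S) => ∑' i, x s i) :=
    measurable_pi_iff.2 fun s => (hms s).comp (measurable_pi_apply s)
  rw [Measure.map_map (MeasurableEquiv.measurable _) hm1, Measure.map_map hm3
    ((MeasurableEquiv.measurable _).comp hm1)]
  rfl

end Sup63

end MPdd5692
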