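import Pool.Agent.Work.MP_dd5692_pr.NumB
import Pool.Agent.Work.MP_dd5692_pr.LocLib42
import Pool.Agent.Work.MP_dd5692_pr.Stat98

/-!
# MP_dd5692_pr, part (B'): VRING and VARM (helper35)
-/

set_option autoImplicit false
set_option linter.unusedSectionVars false

open MeasureTheory ProbabilityTheory Function Finset
open scoped ENNReal NNReal BigOperators

namespace MPdd5692.B35

open MPdd5692.LocLib

variable {c e I δ Λ : ℝ} {nmax : ℕ}

theorem lam_pos (E : Env c e I δ Λ nmax) (hn : 1 ≤ nmax) : 0 < E.lam := by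
  by_contra h
  have h0 : E.lam = 0 := by
    have : E.lam ≤ 0 := not_lt.1 h
    exact le_antisymm this bot_le
  have h1 := E.ok.NV_ge 0 1 (by norm_num) hn
  have hc := E.ok.c_pos
  have hq : 0 < E.q := NeZero.pos E.q
  have hsub : {η : Site → ℕ | NV E.ρ E.q (occ η) 0 0 1} ⊆ {η | ∃ i ∈ (Set.univ : Set Site), η i ≠ 0} := by
    intro η hη
    by_contra hcon
    have hocc : occ η = ∅ := by
      ext v
      simp only [occ, Set.mem_ofPred_eq, Set.mem_empty_iff_false, iff_false, not_not]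
      by_contra hv
      exact hcon ⟨v, Set.mem_univ _, hv⟩
    refine hη ?_
    rw [hocc]
    have hv : ∀ x : Site, x ∈ vacSites E.ρ (∅ : Set Site) := fun x v hv => absurd hv (Set.notMem_empty _)
    refine ⟨(0, 0), ?_, (2 * (E.q : ℤ), 0), ?_, ?_⟩
    · simp [cbox, box, cidx, nrm]
    · have hq' : (E.q : ℤ) ≠ 0 := by exact_mod_cast hq.ne'
      simp [cbox, box, cidx, nrm, Int.mul_ediv_cancel _ hq']
    · refine ⟨Or.inl (Or.inl (hv _)), ?_⟩
      have key : ∀ n : ℕ, Relation.ReflTransGen (fun u v => Adj4 u v ∧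
          v ∈ vacSites E.ρ (∅ : Set Site) ∪ cbox E.q 0 0 ∪ (cbox E.q 0 1)ᶜ) (0, 0)
          (((n : ℤ), (0 : ℤ)) : Site) := by
        intro n
        induction n with
        | zero => exact Relation.ReflTransGen.refl
        | succ n ih =>
            refine ih.tail ⟨?_, Or.inl (Or.inl (hv _))⟩
            simp [Adj4]
      have := key (2 * E.q)
      push_cast at this
      exact this
  have h2 : (stat 0 E.j) {η | ∃ i ∈ (Set.univ : Set Site), η i ≠ 0} = 0 := by
    have h3 := prodPoisson_exists_ne_zero_le (ι := Site) (fun _ => (0 : ℝ≥0)) Set.univ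
    have h4 : stat 0 E.j = prodPoisson (fun _ : Site => (0 : ℝ≥0)) := by
      unfold stat prodPoisson
      simp
    rw [h4]
    refine le_antisymm (h3.trans ?_) bot_le
    simp
  have h5 : SP E.lam E.j (fun S => NV E.ρ E.q S 0 0 1) = 0 := by
    unfold SP
    rw [h0, measureReal_def, measure_mono_null hsub h2]
    rfl
  rw [h5] at h1
  linarith

/-- box as a finset -/
noncomputable def boxF (z : Site) (b : ℕ) : Finset Site :=
  (Finset.Icc (z.1 - b) (z.1 + b)) ×ˢ (Finset.Icc (z.2 - b) (z.2 + b))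

theorem mem_boxF {z x : Site} {b : ℕ} : x ∈ boxF z b ↔ nrm (x - z) ≤ b := by
  rw [nrm_le, abs_le, abs_le]
  simp only [boxF, Finset.mem_product, Finset.mem_Icc, Prod.fst_sub, Prod.snd_sub]
  constructor
  · rintro ⟨⟨h1, h2⟩, h3, h4⟩
    refine ⟨⟨?_, ?_⟩, ?_, ?_⟩ <;> linarith
  · rintro ⟨⟨h1, h2⟩, h3, h4⟩
    refine ⟨⟨?_, ?_⟩, ?_, ?_⟩ <;> linarith

theorem card_boxF (z : Site) (b : ℕ) : (boxF z b).card = (2 * b + 1) ^ 2 := by
  unfold boxF
  rw [Finset.card_product, Int.card_Icc, Int.card_Icc]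
  have h1 : (z.1 + b + 1 - (z.1 - b)).toNat = 2 * b + 1 := by omega
  have h2 : (z.2 + b + 1 - (z.2 - b)).toNat = 2 * b + 1 := by omega
  rw [h1, h2, pow_two]

instance (l : ℝ≥0) (j : ℕ) : IsProbabilityMeasure (stat l j) := by unfold stat; infer_instance

theorem SP_le_one (l : ℝ≥0) (j : ℕ) (E : Set Site → Prop) : SP l j E ≤ 1 := measureReal_le_one

theorem SP_nonneg (l : ℝ≥0) (j : ℕ) (E : Set Site → Prop) : 0 ≤ SP l j E := measureReal_nonneg

theorem card_bad (X : ℤ) (a T d : ℕ) :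
    ((Finset.range T).filter fun t : ℕ => ¬ (d : ℤ) + 3 ≤ |X - ((a + 1 + t : ℕ) : ℤ)|).card
      ≤ 2 * d + 5 := by
  have h1 : ((Finset.range T).filter fun t : ℕ => ¬ (d : ℤ) + 3 ≤ |X - ((a + 1 + t : ℕ) : ℤ)|).card ≤
      (Finset.Icc (X - a - 1 - (d + 2)) (X - a - 1 + (d + 2))).card := by
    refine Finset.card_le_card_of_injOn (fun t : ℕ => (t : ℤ)) ?_ ?_
    · intro t ht
      simp only [Finset.coe_filter, Finset.mem_range, Set.mem_ofPred_eq, not_le] at ht
      have h2 := abs_lt.1 ht.2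
      push_cast at h2
      rw [Finset.mem_coe, Finset.mem_Icc]
      constructor <;> linarith [h2.1, h2.2]
    · intro t _ t' _ h
      have h' : (t : ℤ) = (t' : ℤ) := h
      exact_mod_cast h'
  rw [Int.card_Icc] at h1
  have h2 : (X - a - 1 + (d + 2) + 1 - (X - a - 1 - (d + 2))).toNat = 2 * d + 5 := by omega
  omega

/-- revealment of one family of circles -/
theorem rev_sum (l : ℝ≥0) (j : ℕ) (p : ℕ → Set Site → Prop) (X : ℤ) (a T d n : ℕ) {θ : ℝ}
    (hθ : 0 ≤ θ)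
    (h : ∀ t < T, (d : ℤ) + 3 ≤ |X - ((a + 1 + t : ℕ) : ℤ)| → SP l j (p t) ≤ θ ^ n) :
    ∑ t ∈ Finset.range T, SP l j (p t) ≤ (2 * d + 5) + T * θ ^ n := by
  rw [← Finset.sum_filter_add_sum_filter_not (Finset.range T)
    (fun t : ℕ => ¬ (d : ℤ) + 3 ≤ |X - ((a + 1 + t : ℕ) : ℤ)|)]
  refine add_le_add ?_ ?_
  · calc _ ≤ ∑ t ∈ (Finset.range T).filter
          (fun t : ℕ => ¬ (d : ℤ) + 3 ≤ |X - ((a + 1 + t : ℕ) : ℤ)|), (1 : ℝ) :=
        sum_le_sum fun t _ => SP_le_one _ _ _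
      _ = (((Finset.range T).filter
          (fun t : ℕ => ¬ (d : ℤ) + 3 ≤ |X - ((a + 1 + t : ℕ) : ℤ)|)).card : ℝ) := by simp
      _ ≤ ((2 * d + 5 : ℕ) : ℝ) := by exact_mod_cast card_bad X a T d
      _ = 2 * d + 5 := by push_cast; ring
  · calc _ ≤ ∑ t ∈ (Finset.range T).filter
          (fun t : ℕ => ¬ ¬ (d : ℤ) + 3 ≤ |X - ((a + 1 + t : ℕ) : ℤ)|), θ ^ n := by
          refine sum_le_sum fun t ht => ?_
          rw [Finset.mem_filter, not_not, Finset.mem_range] at ht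
          exact h t ht.1 ht.2
      _ ≤ ∑ t ∈ Finset.range T, θ ^ n :=
          Finset.sum_le_sum_of_subset_of_nonneg (Finset.filter_subset _ _) fun _ _ _ =>
            pow_nonneg hθ _
      _ = T * θ ^ n := by simp

/-- explored sites lie in the ring or on the circle -/
theorem expl_near {adj : Site → Site → Prop} {C : Set Site} {q : ℕ} {z : Site} {a b t : ℕ}
    (ht : t ≤ b) {x : Site} (hx : x ∈ Expl adj C q z a b t) : nrm (cidx q x - z) ≤ b := by
  rcases hx with hx | ⟨s, hs, hs1, hs2⟩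
  · have : nrm (cidx q x - z) = t := hx
    rw [this]
    exact_mod_cast ht
  · rcases Relation.ReflTransGen.cases_tail hs2 with h | ⟨w, _, _, h⟩
    · rw [h]
      exact hs1.2.2
    · exact h.2.2

/-- the union of the explorations -/
def JR (ρ : ℝ) (q : ℕ) (R : Finset (Site × ℕ × ℕ)) (t : ℕ) (S : Set Site) : Set Site :=
  {x | ∃ r ∈ R, x ∈ JJ8 ρ q S r.1 r.2.1 r.2.2 (r.2.1 + 1 + t)}

/-- window of the rings -/
noncomputable def winR (R : Finset (Site × ℕ × ℕ)) : Finset Site := R.biUnion fun r => boxF r.1 (r.2.2 + 1)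

theorem expo_rings (hS8 : Stmt_STOP8) (hB8 : Stmt_BLOB8) (hR8 : Stmt_REV8)
    (E : Env c e I δ Λ nmax) (hc1 : c ≤ 1) (R : Finset (Site × ℕ × ℕ)) (T : ℕ) (hT : 0 < T)
    (hTn : T ≤ nmax) (hR : ∀ r ∈ R, r.2.1 + T ≤ r.2.2) :
    Expo E (Rings E.ρ E.q R) (JR E.ρ E.q R) T (winR R) R.card where
  T_pos := hT
  Cr_nonneg := by positivity
  stop := by
    intro t ht S S' hag
    have hρ : 0 ≤ E.ρ := by linarith [E.ok.ρ_pos]
    have key : ∀ r ∈ R, JJ8 E.ρ E.q S' r.1 r.2.1 r.2.2 (r.2.1 + 1 + t) =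
        JJ8 E.ρ E.q S r.1 r.2.1 r.2.2 (r.2.1 + 1 + t) ∧
        (UU E.ρ E.q S r.1 r.2.1 r.2.2 ↔ UU E.ρ E.q S' r.1 r.2.1 r.2.2) := by
      intro r hr
      have h1 := hR r hr
      exact hS8 E.ρ E.q r.1 r.2.1 r.2.2 (r.2.1 + 1 + t) S S' hρ E.ok.short (by omega) (by omega)
        fun v hv => hag v ⟨r, hr, hv⟩
    constructor
    · ext x
      constructor
      · rintro ⟨r, hr, hx⟩
        exact ⟨r, hr, (key r hr).1 ▸ hx⟩
      · rintro ⟨r, hr, hx⟩
        exact ⟨r, hr, (key r hr).1.symm ▸ hx⟩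
    · exact ⟨fun h r hr => (key r hr).2.1 (h r hr), fun h r hr => (key r hr).2.2 (h r hr)⟩
  win := by
    rintro t ht S x ⟨r, hr, y, hy, hxy⟩
    have h1 := hR r hr
    have h2 := expl_near (by omega) hy
    rw [Finset.mem_coe, winR, Finset.mem_biUnion]
    refine ⟨r, hr, mem_boxF.2 ?_⟩
    have h3 := nrm_tri x (cidx E.q y) r.1
    have h4 := nrm_sub_comm x (cidx E.q y)
    push_cast
    linarith
  blob := by
    intro a S S' h1 h2 h3
    have hρ : 0 ≤ E.ρ := by linarith [E.ok.ρ_pos]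
    have key : ∀ r ∈ R, (UU E.ρ E.q S r.1 r.2.1 r.2.2 ↔ UU E.ρ E.q S' r.1 r.2.1 r.2.2) := by
      intro r hr
      have := hR r hr
      exact hB8 E.ρ E.q r.1 a r.2.1 r.2.2 S S' hρ E.ok.short (by omega) h1 h2 h3
    exact ⟨fun h r hr => (key r hr).1 (h r hr), fun h r hr => (key r hr).2 (h r hr)⟩
  rev := by
    intro B S0 x d n hB hnd hdT
    have h1c : (0 : ℝ) ≤ 1 - c := by linarith
    have step : ∀ t ∈ Finset.range T,
        SP E.lam E.j (fun S => x ∈ JR E.ρ E.q R t (mixS E.q B S0 S)) ≤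
        ∑ r ∈ R, SP E.lam E.j
          (fun S => x ∈ JJ8 E.ρ E.q (mixS E.q B S0 S) r.1 r.2.1 r.2.2 (r.2.1 + 1 + t)) := by
      intro t _
      unfold SP
      refine le_trans (le_of_eq ?_) (measureReal_biUnion_finset_le R _)
      congr 1
      ext η
      simp [JR]
    calc _ ≤ ∑ t ∈ Finset.range T, ∑ r ∈ R, SP E.lam E.j
          (fun S => x ∈ JJ8 E.ρ E.q (mixS E.q B S0 S) r.1 r.2.1 r.2.2 (r.2.1 + 1 + t)) :=
          sum_le_sum step
      _ = ∑ r ∈ R, ∑ t ∈ Finset.range T, SP E.lam E.j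
          (fun S => x ∈ JJ8 E.ρ E.q (mixS E.q B S0 S) r.1 r.2.1 r.2.2 (r.2.1 + 1 + t)) := sum_comm
      _ ≤ ∑ r ∈ R, ((2 * (d : ℝ) + 5) + T * (1 - c) ^ n) := by
          refine sum_le_sum fun r hr => ?_
          refine rev_sum E.lam E.j (fun t S => x ∈ JJ8 E.ρ E.q (mixS E.q B S0 S) r.1 r.2.1 r.2.2
            (r.2.1 + 1 + t)) (nrm (x - r.1)) r.2.1 T d n h1c fun t ht h => ?_
          exact hR8 c e nmax E.ρ E.q E.lam E.j E.ok B S0 x r.1 r.2.1 r.2.2 (r.2.1 + 1 + t) d n hB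
            h hnd (hdT.trans hTn)
      _ = R.card * ((2 * (d : ℝ) + 5) + T * (1 - c) ^ n) := by
          rw [sum_const, nsmul_eq_mul]

/-! ### the mixing map -/

theorem mix_ae (hMix : Stmt_MIX) {q H : ℕ} (ν : FMark q H → ℝ≥0) [Countable (FMark q H)] (k : ℕ)
    (y : Site) (r1 : ℕ) (N : Set (Conf q H)) (hN : (pois ν) N = 0) :
    ∀ᵐ M ∂(pois ν), ∀ᵐ M' ∂(pois ν), mixC k y r1 M M' ∉ N := by
  classical
  set N' := toMeasurable (pois ν) N with hN'
  have hm' : MeasurableSet N' := measurableSet_toMeasurable _ _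
  have h0 : (pois ν) N' = 0 := by rw [hN', measure_toMeasurable, hN]
  set A : Set (FMark q H) := {θ | ∃ h : k < H + 1, nrm (θ.1.c ⟨k, h⟩ - y) ≤ r1} with hA
  have h1 := hMix (FMark q H) ν A (N'.indicator fun _ => (1 : ℝ)) (measurable_const.indicator hm')
    (fun ω => by by_cases h : ω ∈ N' <;> simp [h])
  have h2 : ∫ ω, (N'.indicator fun _ => (1 : ℝ)) ω ∂(pois ν) = 0 := by
    rw [integral_indicator hm']
    simp [measureReal_def, h0]
  have hmixm : Measurable (fun p : Conf q H × Conf q H => mixC k y r1 p.1 p.2) := by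
    refine measurable_pi_lambda _ fun θ => ?_
    by_cases h : ∃ h : k < H + 1, nrm (θ.1.c ⟨k, h⟩ - y) ≤ r1
    · simp only [mixC, h, if_true]
      exact (measurable_pi_apply θ).comp measurable_fst
    · simp only [mixC, h, if_false]
      exact (measurable_pi_apply θ).comp measurable_snd
  have heq : ∀ M M' : Conf q H, (fun i => if i ∈ A then M i else M' i) = mixC k y r1 M M' := by
    intro M M'
    funext θ
    simp only [mixC, hA, Set.mem_ofPred_eq]
  rw [h2] at h1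
  simp only [heq] at h1
  have hbm : BM (fun p : Conf q H × Conf q H =>
      (N'.indicator fun _ => (1 : ℝ)) (mixC k y r1 p.1 p.2)) := (BM.ind hm').comp hmixm
  have hnn : ∀ M, 0 ≤ ∫ M', (N'.indicator fun _ => (1 : ℝ)) (mixC k y r1 M M') ∂(pois ν) :=
    fun M => integral_nonneg fun M' => Set.indicator_nonneg (fun _ _ => zero_le_one) _
  have h3 := (integral_eq_zero_iff_of_nonneg hnn
    ((BM.integral_right hbm (pois ν)).integrable _)).1 h1.symm
  filter_upwards [h3] with M hM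
  have h4 : BM (fun M' => (N'.indicator fun _ => (1 : ℝ)) (mixC k y r1 M M')) :=
    hbm.comp (φ := fun M' => (M, M')) (measurable_const.prodMk measurable_id)
  have h5 := (integral_eq_zero_iff_of_nonneg
    (fun M' => Set.indicator_nonneg (fun _ _ => zero_le_one) _) (h4.integrable _)).1 hM
  filter_upwards [h5] with M' hM' hin
  have h6 : mixC k y r1 M M' ∈ N' := subset_toMeasurable _ _ hin
  have h7 : (N'.indicator fun _ => (1 : ℝ)) (mixC k y r1 M M') = 1 := Set.indicator_of_mem h6 _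
  have h8 : (N'.indicator fun _ => (1 : ℝ)) (mixC k y r1 M M') = 0 := hM'
  rw [h7] at h8
  exact one_ne_zero h8

theorem YM_mix {q H : ℕ} [NeZero q] (k : ℕ) (hk : k < H + 1) (y : Site) (r1 : ℕ)
    (Λ0 : Finset Site) (M M' : Conf q H) (a : Λ0) :
    YM ⟨k, hk⟩ Λ0 (mixC k y r1 M M') a =
      if (r1 : ℤ) < nrm (a.1 - y) then YM ⟨k, hk⟩ Λ0 M' a else YM ⟨k, hk⟩ Λ0 M a := by
  by_cases h : (r1 : ℤ) < nrm (a.1 - y)
  · rw [if_pos h]
    have key : ∀ θ : FMark q H, θ.1.c ⟨k, hk⟩ = a.1 → mixC k y r1 M M' θ = M' θ := by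
      intro θ hθ
      unfold mixC
      rw [if_neg]
      rintro ⟨_, h'⟩
      rw [hθ] at h'
      linarith
    unfold YM nH nR
    refine Prod.ext ?_ ?_
    · exact tsum_congr fun θ => key θ.1 θ.2.1
    · funext v
      exact tsum_congr fun θ => key θ.1 θ.2.1
  · rw [if_neg h]
    have key : ∀ θ : FMark q H, θ.1.c ⟨k, hk⟩ = a.1 → mixC k y r1 M M' θ = M θ := by
      intro θ hθ
      unfold mixC
      rw [if_pos]
      exact ⟨hk, by rw [hθ]; exact not_lt.1 h⟩
    unfold YM nH nR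
    refine Prod.ext ?_ ?_
    · exact tsum_congr fun θ => key θ.1 θ.2.1
    · funext v
      exact tsum_congr fun θ => key θ.1 θ.2.1

theorem mixS_empty (q : ℕ) (S : Set Site) : mixS q ∅ ∅ S = S := by
  ext v
  simp [mem_mixS]

/-- Theorem B', everything resampled -/
theorem vall {E : Env c e I δ Λ nmax} {F : Set Site → Prop} {JF : ℕ → Set Site → Set Site}
    {T : ℕ} {Win : Finset Site} {Cr : ℝ} (hE : Expo E F JF T Win Cr) (h1 : Stmt_TRF1)
    (h2 : Stmt_TRF2) (hSp : Stmt_SPLIT) (hSt : Stmt_STATIC) (hPC : Stmt_PCELL)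
    (hBC : Stmt_BLOBC) (hδ : 0 < δ) (hc1 : c ≤ 1) (hn : 1 ≤ nmax)
    (ex : Fin (E.H + 1) → Bool) (k : ℕ) (hk : k < E.H + 1) (hex : ex ⟨k, hk⟩ = false)
    (m d n N : ℕ) (hm : 0 < m) (hnd : 4 ^ n ≤ d) (hdT : d ≤ T) :
    ∫ M, ((MPdd5692.hm E.q E.H).real {U | F (et (asmE ex M U) k)} -
        ∫ M', (MPdd5692.hm E.q E.H).real {U | F (et (asmE ex M' U) k)} ∂(pois (muE E.L E.lam ex))) ^ 2
        ∂(pois (muE E.L E.lam ex)) ≤ errB E T Win Cr m d n N := by
  have h := vmain hE h1 h2 hSp hSt hPC hBC hδ (lam_pos E hn) hc1 ∅ ∅ ex k hk hex Finset.univ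
    (fun _ M' => M') (fun N hN => Filter.Eventually.of_forall fun M => measure_eq_zero_iff_ae_notMem.1 hN)
    (fun M M' a => by simp) m d n N hm hnd hdT (P := {0}) (Finset.singleton_nonempty 0)
    (fun _ => ∅) (fun _ => ∅) (fun p _ => Finset.disjoint_empty_left _)
    (fun i => by simp) (fun p _ a _ _ => ⟨fun c' hc' => absurd hc' (Set.notMem_empty _),
      fun a' ha' => absurd ha' (Finset.notMem_empty _)⟩)
  unfold bb at h
  simp only [mixS_empty] at h
  exact h

/-- Theorem B', fixed region, resampled outside a bigger box -/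
theorem vmix {E : Env c e I δ Λ nmax} {F : Set Site → Prop} {JF : ℕ → Set Site → Set Site}
    {T : ℕ} {Win : Finset Site} {Cr : ℝ} (hE : Expo E F JF T Win Cr) (h1 : Stmt_TRF1)
    (h2 : Stmt_TRF2) (hSp : Stmt_SPLIT) (hSt : Stmt_STATIC) (hMix : Stmt_MIX) (hPC : Stmt_PCELL)
    (hBC : Stmt_BLOBC) (hδ : 0 < δ) (hc1 : c ≤ 1) (hn : 1 ≤ nmax)
    (ex : Fin (E.H + 1) → Bool) (k : ℕ) (hk : k < E.H + 1) (hex : ex ⟨k, hk⟩ = false)
    (m d n N : ℕ) (hm : 0 < m) (hd : 0 < d) (hnd : 4 ^ n ≤ d) (hmd : 2 * m * d ≤ T)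
    (y : Site) (r0 r1 : ℕ) (S0 : Set Site) (hr : r0 + T ≤ r1) [Countable (FMark E.q E.H)] :
    ∫ M, ((MPdd5692.hm E.q E.H).real {U | F (mixS E.q (box y r0) S0 (et (asmE ex M U) k))} -
        ∫ M', (MPdd5692.hm E.q E.H).real
          {U | F (mixS E.q (box y r0) S0 (et (asmE ex (mixC k y r1 M M') U) k))}
          ∂(pois (muE E.L E.lam ex))) ^ 2
        ∂(pois (muE E.L E.lam ex)) ≤ errB E T Win Cr m d n N := by
  classical
  have hdT : d ≤ T := by
    have : d ≤ 2 * m * d := by nlinarith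
    omega
  have hP : (Finset.range (T / d)).Nonempty := by
    rw [Finset.nonempty_range_iff]
    have : 0 < T / d := Nat.div_pos hdT hd
    omega
  set D : Set Site := box y r0 with hD
  have h := vmain hE h1 h2 hSp hSt hPC hBC hδ (lam_pos E hn) hc1 D S0 ex k hk hex
    (Finset.univ.filter fun a : frees Win D => (r1 : ℤ) < nrm (a.1 - y))
    (fun M M' => mixC k y r1 M M') (fun N hN => mix_ae hMix _ k y r1 N hN)
    (fun M M' a => by
      rw [YM_mix]
      simp only [Finset.mem_filter, Finset.mem_univ, true_and])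
    m d n N hm hnd hdT (P := Finset.range (T / d)) hP
    (fun p => Finset.univ.filter fun a : frees Win D => nrm (a.1 - y) ≤ ((r0 + p * d : ℕ) : ℤ))
    (fun p => Finset.univ.filter fun a : frees Win D => ((r0 + p * d : ℕ) : ℤ) < nrm (a.1 - y) ∧
      nrm (a.1 - y) ≤ ((r0 + (p + 1) * d : ℕ) : ℤ))
    ?_ ?_ ?_
  · exact h
  · intro p hp
    rw [Finset.mem_range] at hp
    rw [Finset.disjoint_left]
    intro a ha ha'
    rw [Finset.mem_filter] at ha ha'
    have h3 : p * d ≤ T := by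
      calc p * d ≤ (T / d) * d := Nat.mul_le_mul_right _ hp.le
        _ ≤ T := Nat.div_mul_le_self _ _
    have h4 : ((r0 + p * d : ℕ) : ℤ) ≤ r1 := by exact_mod_cast (by omega : r0 + p * d ≤ r1)
    linarith [ha.2, ha'.2]
  · intro a
    have h3 : ((Finset.range (T / d)).filter fun p => a ∈ Finset.univ.filter
        fun a : frees Win D => ((r0 + p * d : ℕ) : ℤ) < nrm (a.1 - y) ∧
          nrm (a.1 - y) ≤ ((r0 + (p + 1) * d : ℕ) : ℤ)).card ≤ 1 := by
      rw [Finset.card_le_one]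
      intro p hp p' hp'
      simp only [Finset.mem_filter, Finset.mem_univ, true_and] at hp hp'
      obtain ⟨_, a1, a2⟩ := hp
      obtain ⟨_, b1, b2⟩ := hp'
      have c1 : ((r0 + p * d : ℕ) : ℤ) < ((r0 + (p' + 1) * d : ℕ) : ℤ) := lt_of_lt_of_le a1 b2
      have c2 : ((r0 + p' * d : ℕ) : ℤ) < ((r0 + (p + 1) * d : ℕ) : ℤ) := lt_of_lt_of_le b1 a2
      have c1' : p * d < (p' + 1) * d := by
        have : r0 + p * d < r0 + (p' + 1) * d := by exact_mod_cast c1
        omega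
      have c2' : p' * d < (p + 1) * d := by
        have : r0 + p' * d < r0 + (p + 1) * d := by exact_mod_cast c2
        omega
      have d1 := Nat.lt_of_mul_lt_mul_right c1'
      have d2 := Nat.lt_of_mul_lt_mul_right c2'
      omega
    rw [Finset.card_range]
    calc 2 * m * _ ≤ 2 * m * 1 := Nat.mul_le_mul_left _ h3
      _ = 2 * m := mul_one _
      _ ≤ T / d := (Nat.le_div_iff_mul_le hd).2 hmd
  · intro p hp a ha1 ha2
    simp only [Finset.mem_filter, Finset.mem_univ, true_and, not_le, not_and] at ha1 ha2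
    have h3 := ha2 ha1
    push_cast at h3
    have hpd : (0 : ℤ) ≤ p * d := by positivity
    constructor
    · intro c' hc'
      have h4 : nrm (c' - y) ≤ r0 := hc'
      have h5 := nrm_tri a.1 c' y
      have h6 := nrm_sub_comm a.1 c'
      nlinarith
    · intro a' ha'
      simp only [Finset.mem_filter, Finset.mem_univ, true_and] at ha'
      push_cast at ha'
      have h5 := nrm_tri a.1 a'.1 y
      have h6 := nrm_sub_comm a.1 a'.1
      nlinarith

theorem vring_of (hPT : Stmt_PTAIL) (hS8 : Stmt_STOP8) (hB8 : Stmt_BLOB8) (hR8 : Stmt_REV8)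
    (h1 : Stmt_TRF1) (h2 : Stmt_TRF2) (hSp : Stmt_SPLIT) (hSt : Stmt_STATIC) (hMix : Stmt_MIX)
    (hPC : Stmt_PCELL) (hBC : Stmt_BLOBC) (hcnt : ∀ q H : ℕ, Countable (FMark q H)) :
    Stmt_VRING := by
  intro c e I δ Λ C ε hc hc1 hδ hε
  obtain ⟨T0, hT0⟩ := numB hPT c δ I (C * (2 * C + 3) ^ 2) C ε hc hc1 hδ (by positivity)
    (by positivity) hε
  refine ⟨max T0 1, fun T hT nmax E ex k hk hex R hRc hR y r0 r1 S0 hr => ?_⟩
  have hTT : T0 ≤ T := (le_max_left _ _).trans hT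
  have hT1 : 1 ≤ T := (le_max_right _ _).trans hT
  obtain ⟨m, d, n, N, hm, hd, hnd, hdT, hmd, hfin⟩ := hT0 T hTT
  rcases R.eq_empty_or_nonempty with hRe | ⟨rr, hrr⟩
  · -- no ring: everything is constant
    subst hRe
    have hp : IsProbabilityMeasure (MPdd5692.hm E.q E.H) := by
      unfold MPdd5692.hm unif; infer_instance
    have hone : ∀ S : Conf E.q E.H → Set Site → Set Site,
        ∀ M, (MPdd5692.hm E.q E.H).real {U | Rings E.ρ E.q ∅ (S M (et (asmE ex M U) k))} = 1 := by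
      intro S M
      have : {U | Rings E.ρ E.q ∅ (S M (et (asmE ex M U) k))} = Set.univ := by
        ext U
        simp [Rings]
      rw [this]
      simp
    refine ⟨?_, ?_⟩
    · have h3 := hone (fun _ S => mixS E.q (box y r0) S0 S)
      simp only at h3 ⊢
      simp only [h3]
      simpa using hε.le
    · have h3 := hone (fun _ S => S)
      simp only at h3 ⊢
      simp only [h3]
      simpa using hε.le
  · have hrr' := hR rr hrr
    have hTn : T ≤ nmax := by omega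
    have hE := expo_rings hS8 hB8 hR8 E hc1 R T (by omega) hTn fun r hr => (hR r hr).1
    have hle : errB E T (winR R) R.card m d n N ≤ ε := by
      unfold errB
      have hx : (((E.q : ℝ≥0) ^ 2 * (E.lam * (1 / 4) ^ E.j) : ℝ≥0) : ℝ) ≤ I := by
        have := E.inten
        push_cast
        calc (E.q : ℝ) ^ 2 * (E.lam * (1 / 4) ^ E.j) = E.lam * ((1 / 4) ^ E.j * E.q ^ 2) := by ring
          _ ≤ I := this
      have hw : ((winR R).card : ℝ) ≤ (C * (2 * C + 3) ^ 2) * (T : ℝ) ^ 2 := by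
        have h3 : (winR R).card ≤ C * ((2 * C + 3) * T) ^ 2 := by
          calc (winR R).card ≤ ∑ r ∈ R, (boxF r.1 (r.2.2 + 1)).card := Finset.card_biUnion_le
            _ = ∑ r ∈ R, (2 * (r.2.2 + 1) + 1) ^ 2 := sum_congr rfl fun r _ => card_boxF _ _
            _ ≤ ∑ r ∈ R, ((2 * C + 3) * T) ^ 2 := by
                refine sum_le_sum fun r hr => Nat.pow_le_pow_left ?_ 2
                have := (hR r hr).2.1
                nlinarith
            _ = R.card * ((2 * C + 3) * T) ^ 2 := by rw [sum_const, smul_eq_mul]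
            _ ≤ C * ((2 * C + 3) * T) ^ 2 := Nat.mul_le_mul_right _ hRc
        calc ((winR R).card : ℝ) ≤ ((C * ((2 * C + 3) * T) ^ 2 : ℕ) : ℝ) := by exact_mod_cast h3
          _ = (C * (2 * C + 3) ^ 2) * (T : ℝ) ^ 2 := by push_cast; ring
      refine le_trans ?_ (hfin _ _ hx hw)
      have h1c : (0 : ℝ) ≤ (1 - c) ^ n := pow_nonneg (by linarith) n
      have hRC : (R.card : ℝ) ≤ C := by exact_mod_cast hRc
      gcongr
    have hcn := hcnt E.q E.H
    refine ⟨?_, ?_⟩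
    · exact (vmix hE h1 h2 hSp hSt hMix hPC hBC hδ hc1 (by omega) ex k hk hex m d n N hm hd hnd hmd
        y r0 r1 S0 hr).trans hle
    · exact (vall hE h1 h2 hSp hSt hPC hBC hδ hc1 (by omega) ex k hk hex m d n N hm hnd hdT).trans
        hle

theorem expo_arm (hS4 : Stmt_STOP4) (hB4 : Stmt_BLOB4) (hR4 : Stmt_REV4)
    (E : Env c e I δ Λ nmax) (hc1 : c ≤ 1) (z : Site) (a b : ℕ) (hab : a < b) (hb : b ≤ nmax) :
    Expo E (fun S => Arm E.ρ E.q S z a z b) (fun t S => JJ4 E.ρ E.q S z a b (a + 1 + t)) (b - a)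
      (boxF z (b + 1)) 1 where
  T_pos := by omega
  Cr_nonneg := zero_le_one
  stop := by
    intro t ht S S' hag
    have hρ : 0 ≤ E.ρ := by linarith [E.ok.ρ_pos]
    exact hS4 E.ρ E.q z a b (a + 1 + t) S S' hρ E.ok.short (by omega) (by omega) hag
  win := by
    rintro t ht S x ⟨y, hy, hxy⟩
    have h2 := expl_near (by omega) hy
    rw [Finset.mem_coe]
    refine mem_boxF.2 ?_
    have h3 := nrm_tri x (cidx E.q y) z
    have h4 := nrm_sub_comm x (cidx E.q y)
    push_cast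
    linarith
  blob := by
    intro a' S S' h1 h2 h3
    have hρ : 0 ≤ E.ρ := by linarith [E.ok.ρ_pos]
    exact hB4 E.ρ E.q z a' a b S S' hρ E.ok.short hab h1 h2 h3
  rev := by
    intro B S0 x d n hB hnd hdT
    have h1c : (0 : ℝ) ≤ 1 - c := by linarith
    rw [one_mul]
    refine rev_sum E.lam E.j (fun t S => x ∈ JJ4 E.ρ E.q (mixS E.q B S0 S) z a b
            (a + 1 + t)) (nrm (x - z)) a (b - a) d n h1c fun t ht h => ?_
    exact hR4 c e nmax E.ρ E.q E.lam E.j E.ok B S0 x z a b (a + 1 + t) d n hB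
            h hnd (by omega)

theorem varm_of (hPT : Stmt_PTAIL) (hS4 : Stmt_STOP4) (hB4 : Stmt_BLOB4) (hR4 : Stmt_REV4)
    (h1 : Stmt_TRF1) (h2 : Stmt_TRF2) (hSp : Stmt_SPLIT) (hSt : Stmt_STATIC)
    (hPC : Stmt_PCELL) (hBC : Stmt_BLOBC) : Stmt_VARM := by
  intro c e I δ Λ R ε hc hc1 hδ hε
  obtain ⟨T0, hT0⟩ := numB hPT c δ I ((20 * R + 3) ^ 2) 1 ε hc hc1 hδ (by positivity)
    zero_le_one hε
  refine ⟨10 * max T0 1, fun a ha nmax E ex k hk hex z b h11 hbR hbn => ?_⟩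
  have hT : max T0 1 ≤ b - a := by omega
  have hTT : T0 ≤ b - a := (le_max_left _ _).trans hT
  have hT1 : 1 ≤ b - a := (le_max_right _ _).trans hT
  obtain ⟨m, d, n, N, hm, hd, hnd, hdT, hmd, hfin⟩ := hT0 (b - a) hTT
  have hE := expo_arm hS4 hB4 hR4 E hc1 z a b (by omega) hbn
  have hle : errB E (b - a) (boxF z (b + 1)) 1 m d n N ≤ ε := by
    unfold errB
    have hx : (((E.q : ℝ≥0) ^ 2 * (E.lam * (1 / 4) ^ E.j) : ℝ≥0) : ℝ) ≤ I := by
      have := E.inten
      push_cast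
      calc (E.q : ℝ) ^ 2 * (E.lam * (1 / 4) ^ E.j) = E.lam * ((1 / 4) ^ E.j * E.q ^ 2) := by ring
        _ ≤ I := this
    have hw : ((boxF z (b + 1)).card : ℝ) ≤ ((20 * R + 3) ^ 2) * ((b - a : ℕ) : ℝ) ^ 2 := by
      have h4 : 2 * (b + 1) + 1 ≤ (20 * R + 3) * (b - a) := by
        have h5 : a ≤ 10 * (b - a) := by omega
        have h6 : b ≤ 10 * R * (b - a) := by
          calc b ≤ R * a := hbR
            _ ≤ R * (10 * (b - a)) := Nat.mul_le_mul_left _ h5
            _ = 10 * R * (b - a) := by ring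
        calc 2 * (b + 1) + 1 = 2 * b + 3 * 1 := by ring
          _ ≤ 2 * (10 * R * (b - a)) + 3 * (b - a) := by gcongr
          _ = (20 * R + 3) * (b - a) := by ring
      have h3 : (boxF z (b + 1)).card ≤ ((20 * R + 3) * (b - a)) ^ 2 := by
        rw [card_boxF]
        exact Nat.pow_le_pow_left h4 2
      calc ((boxF z (b + 1)).card : ℝ) ≤ ((((20 * R + 3) * (b - a)) ^ 2 : ℕ) : ℝ) := by
            exact_mod_cast h3
        _ = ((20 * R + 3) ^ 2) * ((b - a : ℕ) : ℝ) ^ 2 := by push_cast; ring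
    exact hfin _ _ hx hw
  exact (vall hE h1 h2 hSp hSt hPC hBC hδ hc1 (by omega) ex k hk hex m d n N hm hnd hdT).trans hle

end MPdd5692.B35
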