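import Pool.Agent.Work.MP_dd5692_pr.LayerA2

/-!
# MP_dd5692_pr, part (B'): reduction of Theorem B' for the particle family to one layer (helper35)
-/

set_option autoImplicit false
set_option linter.unusedSectionVars false

open MeasureTheory ProbabilityTheory Function Finset
open scoped ENNReal NNReal BigOperators

namespace MPdd5692.B35

section geom

variable {q : ℕ} [NeZero q]

/-- site with given cell and position -/
def siteOf (q : ℕ) (c : Site) (u : Pos q) : Site :=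
  ((q : ℤ) * c.1 + ((u.1 : ℕ) : ℤ), (q : ℤ) * c.2 + ((u.2 : ℕ) : ℤ))

theorem cidx_siteOf (c : Site) (u : Pos q) : cidx q (siteOf q c u) = c := by
  have hq : (0 : ℤ) < q := by
    have := NeZero.pos q
    exact_mod_cast this
  have h1 : ((q : ℤ) * c.1 + ((u.1 : ℕ) : ℤ)) / (q : ℤ) = c.1 := by
    rw [Int.mul_add_ediv_left _ _ hq.ne', Int.ediv_eq_zero_of_lt (by positivity)
      (by exact_mod_cast u.1.2), add_zero]
  have h2 : ((q : ℤ) * c.2 + ((u.2 : ℕ) : ℤ)) / (q : ℤ) = c.2 := by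
    rw [Int.mul_add_ediv_left _ _ hq.ne', Int.ediv_eq_zero_of_lt (by positivity)
      (by exact_mod_cast u.2.2), add_zero]
  simp only [cidx, siteOf, h1, h2]

theorem exists_siteOf (v : Site) : ∃ u : Pos q, siteOf q (cidx q v) u = v := by
  have hq : (0 : ℤ) < q := by
    have := NeZero.pos q
    exact_mod_cast this
  have h1 : 0 ≤ v.1 % (q : ℤ) := Int.emod_nonneg _ hq.ne'
  have h1' : v.1 % (q : ℤ) < q := Int.emod_lt_of_pos _ hq
  have h2 : 0 ≤ v.2 % (q : ℤ) := Int.emod_nonneg _ hq.ne'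
  have h2' : v.2 % (q : ℤ) < q := Int.emod_lt_of_pos _ hq
  refine ⟨(⟨(v.1 % (q : ℤ)).toNat, by omega⟩, ⟨(v.2 % (q : ℤ)).toNat, by omega⟩), ?_⟩
  simp only [siteOf, cidx]
  rw [Int.toNat_of_nonneg h1, Int.toNat_of_nonneg h2, Int.mul_ediv_add_emod,
    Int.mul_ediv_add_emod]

theorem mem_posIn {S : Set Site} {c : Site} {u : Pos q} :
    u ∈ posIn q S c ↔ siteOf q c u ∈ S := by
  simp [posIn, siteOf]

/-- occupied set built from positions in the cells of `Λ0` -/
def asm (q : ℕ) {Λ0 : Finset Site} (x : Λ0 → Finset (Pos q)) : Set Site :=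
  {v | ∃ (c : Λ0) (u : Pos q), u ∈ x c ∧ siteOf q c.1 u = v}

theorem mem_asm {Λ0 : Finset Site} {x : Λ0 → Finset (Pos q)} (c : Λ0) (u : Pos q) :
    siteOf q c.1 u ∈ asm q x ↔ u ∈ x c := by
  constructor
  · rintro ⟨c', u', hu, he⟩
    have h1 : c' = c := by
      apply Subtype.ext
      rw [← cidx_siteOf (q := q) c'.1 u', he, cidx_siteOf]
    subst h1
    have h2 : u' = u := by
      simp only [siteOf, Prod.mk.injEq, add_right_inj, Nat.cast_inj] at he
      exact Prod.ext (Fin.ext he.1) (Fin.ext he.2)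
    exact h2 ▸ hu
  · intro h
    exact ⟨c, u, h, rfl⟩

theorem posIn_asm {Λ0 : Finset Site} (x : Λ0 → Finset (Pos q)) (c : Λ0) :
    posIn q (asm q x) c.1 = x c := by
  ext u
  rw [mem_posIn, mem_asm]

/-- the positions of `S` in the cells of `Λ0` reproduce `S` there -/
theorem asm_posIn {Λ0 : Finset Site} (S : Set Site) {v : Site} (hv : cidx q v ∈ Λ0) :
    v ∈ asm q (fun c : Λ0 => posIn q S c.1) ↔ v ∈ S := by
  obtain ⟨u, hu⟩ := exists_siteOf (q := q) v
  have h := mem_asm (x := fun c : Λ0 => posIn q S c.1) ⟨cidx q v, hv⟩ u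
  simp only [hu] at h
  rw [h, mem_posIn, hu]

end geom

section law

variable {c e I δ Λ : ℝ} {nmax : ℕ} (E : Env c e I δ Λ nmax)

/-- positions and counts -/
noncomputable def YM {q H : ℕ} [NeZero q] (k : Fin (H + 1)) (Λ0 : Finset Site) (M : Conf q H)
    (c : Λ0) : ℕ × (Pos q → ℕ) := (nH k M c.1, fun v => nR k M c.1 v)

theorem meas_occ {q : ℕ} [NeZero q] (Λ0 : Finset Site) (A : Set (Λ0 → Finset (Pos q))) :
    MeasurableSet {η : Site → ℕ | (fun c : Λ0 => posIn q (occ η) c.1) ∈ A} := by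
  have h : Measurable (fun η : Site → ℕ => fun c : Λ0 => posIn q (occ η) c.1) := by
    refine measurable_pi_lambda _ fun c => ?_
    have h1 : Measurable (fun η : Site → ℕ => fun u : Pos q => η (siteOf q c.1 u)) :=
      measurable_pi_lambda _ fun u => measurable_pi_apply _
    have h2 : (fun η : Site → ℕ => posIn q (occ η) c.1) =
        (fun g : Pos q → ℕ => Finset.univ.filter fun u => g u ≠ 0) ∘
          (fun η : Site → ℕ => fun u : Pos q => η (siteOf q c.1 u)) := by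
      funext η
      ext u
      rw [mem_posIn]
      simp [occ]
    rw [h2]
    exact (measurable_of_countable _).comp h1
  exact h (Set.to_countable A).measurableSet

theorem ind_eq_indicator {α : Type} (p : α → Prop) :
    ind p = ({x | p x}).indicator (fun _ => (1 : ℝ)) := by
  funext x
  by_cases hx : p x
  · rw [ind_of hx, Set.indicator_of_mem (show x ∈ {x | p x} from hx)]
  · rw [ind_not hx, Set.indicator_of_notMem (show x ∉ {x | p x} from hx)]

theorem int_ind {α : Type} [MeasurableSpace α] (μ : Measure α) {p : α → Prop}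
    (hp : MeasurableSet {x | p x}) : ∫ x, ind p x ∂μ = μ.real {x | p x} := by
  rw [ind_eq_indicator, integral_indicator hp]
  simp

/-- the conditional probability of an event of the positions, in two representations -/
theorem int_U_eq (h2 : Stmt_TRF2) (ex : Fin (E.H + 1) → Bool) (k : ℕ) (hk : k < E.H + 1)
    (hex : ex ⟨k, hk⟩ = false) (Λ0 : Finset Site) :
    ∀ᵐ M ∂(pois (muE E.L E.lam ex)), ∀ F : (Λ0 → Finset (Pos E.q)) → ℝ, (∀ x, |F x| ≤ 1) →
    ∫ U, F (fun c => posIn E.q (et (asmE ex M U) k) c.1) ∂(hm E.q E.H) =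
      gY F (YM ⟨k, hk⟩ Λ0 M) := by
  filter_upwards [h2 E.q E.H _ _ _ E.L E.lam ex ⟨k, hk⟩ hex Λ0] with M hM F hF
  exact hM F hF

/-- law of the positions of one layer = static law -/
theorem oclaw (h2 : Stmt_TRF2) (hSp : Stmt_SPLIT) (hSt : Stmt_STATIC)
    (ex : Fin (E.H + 1) → Bool) (k : ℕ) (hk : k < E.H + 1) (hex : ex ⟨k, hk⟩ = false)
    (Λ0 : Finset Site) {ah ar : ℝ≥0}
    (hlaw : Measurable (YM (q := E.q) ⟨k, hk⟩ Λ0) ∧
      (pois (muE E.L E.lam ex)).map (YM (q := E.q) ⟨k, hk⟩ Λ0) =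
      Measure.pi fun _ : Λ0 => muY (Pos E.q) ah ar)
    (A : Set (Λ0 → Finset (Pos E.q))) :
    ∫ ω, ind (fun x => x ∈ A) (xx ω) ∂(Measure.pi (mm (Pos E.q) Λ0 ah ar)) =
      SP E.lam E.j (fun S => (fun c : Λ0 => posIn E.q S c.1) ∈ A) := by
  set F : (Λ0 → Finset (Pos E.q)) → ℝ := ind (fun x => x ∈ A) with hF
  have hF01 : ∀ x, 0 ≤ F x ∧ F x ≤ 1 := fun x => ⟨ind_nonneg _ _, ind_le_one _ _⟩
  have hFabs : ∀ x, |F x| ≤ 1 := fun x => by
    rw [abs_of_nonneg (hF01 x).1]; exact (hF01 x).2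
  have hstat := hSt E.q E.H E.j _ _ E.L E.lam k (Nat.lt_succ_iff.1 hk)
    (fun S => (fun c : Λ0 => posIn E.q S c.1) ∈ A) (meas_occ Λ0 A)
  have hsp := hSp E.q E.H _ _ _ E.L E.lam ex
  have e1 : ∫ ω, F (xx ω) ∂(Measure.pi (mm (Pos E.q) Λ0 ah ar)) =
      ∫ Y, gY F Y ∂(Measure.pi fun _ : Λ0 => muY (Pos E.q) ah ar) := by
    rw [← integral_EE (μ := mm (Pos E.q) Λ0 ah ar) (BM_f hF01) (YYc Λ0),
      ← mp_int (mp_Y ah ar) (BM_gY (ι := Λ0) hF01).meas]
    exact integral_congr_ae (Filter.Eventually.of_forall fun ω => EE_YY ah ar hF01 ω)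
  have e2 : ∫ Y, gY F Y ∂(Measure.pi fun _ : Λ0 => muY (Pos E.q) ah ar) =
      ∫ M, gY F (YM (q := E.q) ⟨k, hk⟩ Λ0 M) ∂(pois (muE E.L E.lam ex)) := by
    rw [← hlaw.2, integral_map hlaw.1.aemeasurable
      (BM_gY (ι := Λ0) hF01).meas.aestronglyMeasurable]
  have e3 : ∫ M, gY F (YM (q := E.q) ⟨k, hk⟩ Λ0 M) ∂(pois (muE E.L E.lam ex)) =
      ∫ M, ∫ U, F (fun c => posIn E.q (et (asmE ex M U) k) c.1) ∂(hm E.q E.H)
        ∂(pois (muE E.L E.lam ex)) := by
    refine integral_congr_ae ?_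
    filter_upwards [int_U_eq E h2 ex k hk hex Λ0] with M hM
    exact (hM F hFabs).symm
  have : IsProbabilityMeasure (hm E.q E.H) := by
    unfold hm unif; infer_instance
  have e4 : ∫ M, ∫ U, F (fun c => posIn E.q (et (asmE ex M U) k) c.1) ∂(hm E.q E.H)
        ∂(pois (muE E.L E.lam ex)) =
      ∫ ω, F (fun c => posIn E.q (et ω k) c.1) ∂(E.L.PP E.lam) := by
    have hm1 : Measurable (fun ω : Conf E.q E.H => F (fun c => posIn E.q (et ω k) c.1)) := by
      have : (fun ω : Conf E.q E.H => F (fun c => posIn E.q (et ω k) c.1)) =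
          ind (fun ω : Conf E.q E.H => (fun c : Λ0 => posIn E.q (et ω k) c.1) ∈ A) := by
        funext ω
        exact ind_congr Iff.rfl
      rw [this]
      exact (BM.ind' hstat.1).meas
    rw [← hsp.2.1, integral_map hsp.1.aemeasurable hm1.aestronglyMeasurable]
    rw [integral_prod]
    refine BM.integrable ⟨hm1.comp hsp.1, 1, fun p => hFabs _⟩ _
  rw [show (∫ ω, ind (fun x => x ∈ A) (xx ω) ∂(Measure.pi (mm (Pos E.q) Λ0 ah ar))) =
    ∫ ω, F (xx ω) ∂(Measure.pi (mm (Pos E.q) Λ0 ah ar)) from rfl, e1, e2, e3, e4, ← hstat.2,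
    ← int_ind _ hstat.1]
  exact integral_congr_ae (Filter.Eventually.of_forall fun ω => ind_congr Iff.rfl)

end law

end MPdd5692.B35
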