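import Pool.Agent.Work.MP_dd5692_pr.VGen

/-!
# MP_dd5692_pr, part (B'): Theorem B' for the particle family, general event (helper35)
-/

set_option autoImplicit false
set_option linter.unusedSectionVars false

open MeasureTheory ProbabilityTheory Function Finset
open scoped ENNReal NNReal BigOperators

namespace MPdd5692.B35

variable {c e I δ Λ : ℝ} {nmax : ℕ}

/-- the data of an event which can be explored -/
structure Expo (E : Env c e I δ Λ nmax) (F : Set Site → Prop) (JF : ℕ → Set Site → Set Site)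
    (T : ℕ) (Win : Finset Site) (Cr : ℝ) : Prop where
  T_pos : 0 < T
  Cr_nonneg : 0 ≤ Cr
  stop : ∀ t < T, ∀ S S' : Set Site, AgreeC E.q (JF t S) S S' →
    JF t S' = JF t S ∧ (F S ↔ F S')
  win : ∀ t < T, ∀ S, JF t S ⊆ (Win : Set Site)
  blob : ∀ (a : Site) (S S' : Set Site), (∀ v ∈ S, cidx E.q v ≠ a) → S ⊆ S' →
    (∀ v ∈ S', v ∈ S ∨ v ∈ blobS E.q a) → (F S ↔ F S')
  rev : ∀ (B S0 : Set Site) (x : Site) (d n : ℕ), (∀ c' ∈ B, (d : ℤ) < nrm (c' - x)) →
    4 ^ n ≤ d → d ≤ T →
    ∑ t ∈ Finset.range T, SP E.lam E.j (fun S => x ∈ JF t (mixS E.q B S0 S)) ≤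
      Cr * ((2 * d + 5) + T * (1 - c) ^ n)

section

variable {E : Env c e I δ Λ nmax} {F : Set Site → Prop} {JF : ℕ → Set Site → Set Site} {T : ℕ}
  {Win : Finset Site} {Cr : ℝ}

/-- agreement on the window is enough -/
theorem Expo.congr (hE : Expo E F JF T Win Cr) {S S' : Set Site}
    (h : ∀ v, cidx E.q v ∈ Win → (v ∈ S ↔ v ∈ S')) :
    (F S ↔ F S') ∧ ∀ t < T, JF t S' = JF t S :=
  ⟨(hE.stop 0 hE.T_pos S S' fun v hv => h v (hE.win 0 hE.T_pos S hv)).2,
    fun t ht => (hE.stop t ht S S' fun v hv => h v (hE.win t ht S hv)).1⟩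

theorem mem_mixS {q : ℕ} {B S0 S : Set Site} {v : Site} :
    v ∈ mixS q B S0 S ↔ (cidx q v ∈ B ∧ v ∈ S0) ∨ (cidx q v ∉ B ∧ v ∈ S) := Iff.rfl

open Classical in
/-- free cells -/
noncomputable def frees (Win : Finset Site) (D : Set Site) : Finset Site :=
  Win.filter fun a => a ∉ D

theorem mem_frees {Win : Finset Site} {D : Set Site} {a : Site} :
    a ∈ frees Win D ↔ a ∈ Win ∧ a ∉ D := by
  simp [frees]

/-- the event as a function of the positions in the free cells -/
noncomputable def GG (E : Env c e I δ Λ nmax) (F : Set Site → Prop) (Win : Finset Site)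
    (D S0 : Set Site) : (frees Win D → Finset (Pos E.q)) → ℝ :=
  ind fun x => F (mixS E.q D S0 (asm E.q x))

theorem GG_mem (D S0 : Set Site) (x : frees Win D → Finset (Pos E.q)) :
    0 ≤ GG E F Win D S0 x ∧ GG E F Win D S0 x ≤ 1 := ⟨ind_nonneg _ _, ind_le_one _ _⟩

theorem agree1 {D S0 S : Set Site} {v : Site} (hv : cidx E.q v ∈ Win) :
    v ∈ mixS E.q D S0 S ↔
      v ∈ mixS E.q D S0 (asm E.q fun a : frees Win D => posIn E.q S a.1) := by
  rw [mem_mixS, mem_mixS]
  by_cases hD : cidx E.q v ∈ D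
  · simp [hD]
  · have h := asm_posIn (q := E.q) (Λ0 := frees Win D) S (v := v) (mem_frees.2 ⟨hv, hD⟩)
    simp only [hD, false_and, not_false_eq_true, true_and, false_or]
    exact h.symm

/-- the conditional probability -/
noncomputable def bb (E : Env c e I δ Λ nmax) (F : Set Site → Prop) (D S0 : Set Site)
    (ex : Fin (E.H + 1) → Bool) (k : ℕ) (M : Conf E.q E.H) : ℝ :=
  (hm E.q E.H).real {U | F (mixS E.q D S0 (et (asmE ex M U) k))}

theorem bb_eq (hE : Expo E F JF T Win Cr) (h2 : Stmt_TRF2) (hSp : Stmt_SPLIT)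
    (hSt : Stmt_STATIC) (D S0 : Set Site) (ex : Fin (E.H + 1) → Bool) (k : ℕ)
    (hk : k < E.H + 1) (hex : ex ⟨k, hk⟩ = false) :
    ∀ᵐ M ∂(pois (muE E.L E.lam ex)),
      bb E F D S0 ex k M = gY (GG E F Win D S0) (YM ⟨k, hk⟩ (frees Win D) M) := by
  have hstat := hSt E.q E.H E.j _ _ E.L E.lam k (Nat.lt_succ_iff.1 hk)
    (fun S => (fun a : frees Win D => posIn E.q S a.1) ∈
      {x | F (mixS E.q D S0 (asm E.q x))}) (meas_occ (frees Win D) _)
  have hsp := hSp E.q E.H _ _ _ E.L E.lam ex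
  filter_upwards [int_U_eq E h2 ex k hk hex (frees Win D)] with M hM
  have hGabs : ∀ x, |GG E F Win D S0 x| ≤ 1 := fun x => by
    rw [abs_of_nonneg (GG_mem D S0 x).1]; exact (GG_mem D S0 x).2
  rw [← hM _ hGabs]
  have h1 : {U | F (mixS E.q D S0 (et (asmE ex M U) k))} =
      {U | (fun a : frees Win D => posIn E.q (et (asmE ex M U) k) a.1) ∈
        {x | F (mixS E.q D S0 (asm E.q x))}} := by
    ext U
    exact (hE.congr fun v hv => agree1 hv).1
  unfold bb
  rw [h1, ← int_ind]
  · exact integral_congr_ae (Filter.Eventually.of_forall fun U => ind_congr Iff.rfl)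
  · exact (hsp.1.comp (measurable_const.prodMk measurable_id)) hstat.1

/-- reduction to the law of the counts -/
theorem vred (hE : Expo E F JF T Win Cr) (h2 : Stmt_TRF2) (hSp : Stmt_SPLIT)
    (hSt : Stmt_STATIC) (D S0 : Set Site) (ex : Fin (E.H + 1) → Bool) (k : ℕ)
    (hk : k < E.H + 1) (hex : ex ⟨k, hk⟩ = false) {ah ar : ℝ≥0}
    (hlaw : Measurable (YM (q := E.q) ⟨k, hk⟩ (frees Win D)) ∧
      (pois (muE E.L E.lam ex)).map (YM (q := E.q) ⟨k, hk⟩ (frees Win D)) =
      Measure.pi fun _ : frees Win D => muY (Pos E.q) ah ar)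
    (W : Finset (frees Win D)) (mix : Conf E.q E.H → Conf E.q E.H → Conf E.q E.H)
    (hmix : ∀ N : Set (Conf E.q E.H), (pois (muE E.L E.lam ex)) N = 0 →
      ∀ᵐ M ∂(pois (muE E.L E.lam ex)), ∀ᵐ M' ∂(pois (muE E.L E.lam ex)), mix M M' ∉ N)
    (hmixY : ∀ (M M' : Conf E.q E.H) (a : frees Win D), YM ⟨k, hk⟩ (frees Win D) (mix M M') a =
      if a ∈ W then YM ⟨k, hk⟩ (frees Win D) M' a else YM ⟨k, hk⟩ (frees Win D) M a) :
    ∫ M, (bb E F D S0 ex k M - ∫ M', bb E F D S0 ex k (mix M M') ∂(pois (muE E.L E.lam ex))) ^ 2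
        ∂(pois (muE E.L E.lam ex)) =
      ∫ Y, (gY (GG E F Win D S0) Y - ∫ Y', gY (GG E F Win D S0)
          (fun a => if a ∈ W then Y' a else Y a)
        ∂(Measure.pi fun _ : frees Win D => muY (Pos E.q) ah ar)) ^ 2
        ∂(Measure.pi fun _ : frees Win D => muY (Pos E.q) ah ar) := by
  set G := GG E F Win D S0 with hG
  have hG01 : ∀ x, 0 ≤ G x ∧ G x ≤ 1 := GG_mem D S0
  have hgm : BM (gY G) := BM_gY (ι := frees Win D) hG01
  have hb := bb_eq hE h2 hSp hSt D S0 ex k hk hex
  have hcomb : Measurable (fun p : (frees Win D → ℕ × (Pos E.q → ℕ)) ×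
      (frees Win D → ℕ × (Pos E.q → ℕ)) => fun a => if a ∈ W then p.2 a else p.1 a) := by
    refine measurable_pi_lambda _ fun a => ?_
    by_cases ha : a ∈ W
    · simp only [ha, if_true]
      exact (measurable_pi_apply a).comp measurable_snd
    · simp only [ha, if_false]
      exact (measurable_pi_apply a).comp measurable_fst
  have hFm : Measurable (fun Y : frees Win D → ℕ × (Pos E.q → ℕ) => (gY G Y -
        ∫ Y', gY G (fun a => if a ∈ W then Y' a else Y a)
        ∂(Measure.pi fun _ : frees Win D => muY (Pos E.q) ah ar)) ^ 2) := by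
    have h1 : BM (fun Y : frees Win D → ℕ × (Pos E.q → ℕ) =>
          ∫ Y', gY G (fun a => if a ∈ W then Y' a else Y a)
          ∂(Measure.pi fun _ : frees Win D => muY (Pos E.q) ah ar)) :=
      BM.integral_right (F := fun p : (frees Win D → ℕ × (Pos E.q → ℕ)) ×
        (frees Win D → ℕ × (Pos E.q → ℕ)) =>
          gY G (fun a => if a ∈ W then p.2 a else p.1 a)) (hgm.comp hcomb) _
    exact (hgm.sub h1).sq.meas
  rw [← hlaw.2, integral_map hlaw.1.aemeasurable (by rw [hlaw.2]; exact hFm.aestronglyMeasurable)]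
  rw [hlaw.2]
  refine integral_congr_ae ?_
  have hN := hmix {M | ¬ bb E F D S0 ex k M = gY G (YM ⟨k, hk⟩ (frees Win D) M)} hb
  filter_upwards [hb, hN] with M hM hM2
  rw [hM]
  congr 2
  rw [← hlaw.2, integral_map hlaw.1.aemeasurable]
  · refine integral_congr_ae ?_
    filter_upwards [hM2] with M' hM'
    simp only [not_not] at hM'
    rw [hM']
    congr 1
    funext a
    exact hmixY M M' a
  · exact (hgm.meas.comp (hcomb.comp (measurable_const.prodMk measurable_id))).aestronglyMeasurable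

/-- the error bound -/
noncomputable def errB (E : Env c e I δ Λ nmax) (T : ℕ) (Win : Finset Site) (Cr : ℝ)
    (m d n N : ℕ) : ℝ :=
  2 * (m : ℝ) ^ 2 * (Cr * ((2 * d + 5) + T * (1 - c) ^ n) / T) +
    (1 / m) * ((400 / δ) ^ N + Win.card *
      (poissonMeasure ((E.q : ℝ≥0) ^ 2 * (E.lam * (1 / 4) ^ E.j))).real {k | N < k})

/-- the revealed free cells -/
noncomputable def JG {q : ℕ} [NeZero q] {Win : Finset Site} {D : Set Site}
    (R : Finset (frees Win D)) (Jt : Set Site → Set Site) (S0 : Set Site)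
    (x : frees Win D → Finset (Pos q)) : Finset (frees Win D) := by
  classical
  exact Finset.univ.filter fun a => a ∈ R ∨ a.1 ∈ Jt (mixS q D S0 (asm q x))

theorem mem_JG {q : ℕ} [NeZero q] {Win : Finset Site} {D : Set Site}
    {R : Finset (frees Win D)} {Jt : Set Site → Set Site} {S0 : Set Site}
    {x : frees Win D → Finset (Pos q)} {a : frees Win D} :
    a ∈ JG R Jt S0 x ↔ a ∈ R ∨ a.1 ∈ Jt (mixS q D S0 (asm q x)) := by
  simp [JG]

/-- Theorem B', general mode -/
theorem vmain (hE : Expo E F JF T Win Cr) (h1 : Stmt_TRF1) (h2 : Stmt_TRF2) (hSp : Stmt_SPLIT)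
    (hSt : Stmt_STATIC) (hPC : Stmt_PCELL) (hBC : Stmt_BLOBC) (hδ : 0 < δ) (hlam : 0 < E.lam)
    (hc1 : c ≤ 1) (D S0 : Set Site) (ex : Fin (E.H + 1) → Bool) (k : ℕ)
    (hk : k < E.H + 1) (hex : ex ⟨k, hk⟩ = false) (W : Finset (frees Win D))
    (mix : Conf E.q E.H → Conf E.q E.H → Conf E.q E.H)
    (hmix : ∀ N : Set (Conf E.q E.H), (pois (muE E.L E.lam ex)) N = 0 →
      ∀ᵐ M ∂(pois (muE E.L E.lam ex)), ∀ᵐ M' ∂(pois (muE E.L E.lam ex)), mix M M' ∉ N)
    (hmixY : ∀ (M M' : Conf E.q E.H) (a : frees Win D), YM ⟨k, hk⟩ (frees Win D) (mix M M') a =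
      if a ∈ W then YM ⟨k, hk⟩ (frees Win D) M' a else YM ⟨k, hk⟩ (frees Win D) M a)
    (m d n N : ℕ) (hm : 0 < m) (hnd : 4 ^ n ≤ d) (hdT : d ≤ T)
    {P : Finset ℕ} (hP : P.Nonempty) (R Lay : ℕ → Finset (frees Win D))
    (hRW : ∀ p ∈ P, Disjoint (R p) W)
    (hLay : ∀ i : frees Win D, 2 * m * (P.filter (fun p => i ∈ Lay p)).card ≤ P.card)
    (hfar : ∀ p ∈ P, ∀ a : frees Win D, a ∉ R p → a ∉ Lay p →
      (∀ c' ∈ D, (d : ℤ) < nrm (c' - a.1)) ∧ ∀ a' ∈ R p, (d : ℤ) < nrm (a'.1 - a.1)) :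
    ∫ M, (bb E F D S0 ex k M - ∫ M', bb E F D S0 ex k (mix M M') ∂(pois (muE E.L E.lam ex))) ^ 2
        ∂(pois (muE E.L E.lam ex)) ≤ errB E T Win Cr m d n N := by
  obtain ⟨ah, ar, hsum, hge, hlaw0⟩ := h1 E.q E.H _ δ Λ E.L E.lam ex ⟨k, hk⟩ hex hδ.le
  have hlaw := hlaw0 (frees Win D)
  have hapos : (0 : ℝ) < E.lam * (1 / 4) ^ E.j := by
    have : (0 : ℝ) < E.lam := by exact_mod_cast hlam
    positivity
  have hah : 0 < ah := by
    have : (0 : ℝ) < ah := lt_of_lt_of_le (mul_pos hδ hapos) hge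
    exact_mod_cast this
  have hq40 : 40 ≤ E.q := by
    have h3 := E.ok.short
    have h4 := E.ok.ρ_pos
    have h5 : (40 : ℝ) ≤ E.q := by linarith
    exact_mod_cast h5
  have hT := hE.T_pos
  have hTr : (0 : ℝ) < T := by exact_mod_cast hT
  -- blobs
  choose Bf hBf1 hBf2 using fun a : Site => hBC E.q a hq40
  have hcardQ : (Fintype.card (Pos E.q) : ℝ) = (E.q : ℝ) ^ 2 := by
    simp [Pos]; ring
  rw [vred hE h2 hSp hSt D S0 ex k hk hex hlaw W mix hmix hmixY]
  have hmain := layerA (Q := Pos E.q) (ι := frees Win D) ah ar hPC (G := GG E F Win D S0)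
    (GG_mem D S0) (fun a => Bf a.1) ?_ (β := 1 / 400) (by norm_num) ?_ hah N W m hm P hP R Lay hRW
    hLay (Finset.range T) (fun _ => 1 / (T : ℝ)) (fun _ _ => by positivity) (by
      rw [sum_const, card_range, nsmul_eq_mul]; field_simp)
    (fun p t x => JG (R p) (JF t) S0 x)
    ?_ ?_ (δ := Cr * ((2 * d + 5) + T * (1 - c) ^ n) / T) ?_ ?_
  · refine hmain.trans ?_
    unfold errB
    have e1 : Fintype.card (Pos E.q) * (ah + ar) = (E.q : ℝ≥0) ^ 2 * (E.lam * (1 / 4) ^ E.j) := by
      have h6 : ah + ar = E.lam * (1 / 4) ^ E.j := by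
        apply NNReal.coe_injective
        rw [hsum]
        push_cast
        ring
      rw [h6]
      congr 1
      simp [Pos]; ring
    rw [e1]
    have e2 : (Fintype.card (frees Win D) : ℝ) ≤ Win.card := by
      rw [Fintype.card_coe]
      have : frees Win D ⊆ Win := fun z hz => (mem_frees.1 hz).1
      exact_mod_cast card_le_card this
    have e3 : ((ah + ar : ℝ≥0) : ℝ) / (ah * (1 / 400)) ≤ 400 / δ := by
      have h7 : (0 : ℝ) < ah := by exact_mod_cast hah
      rw [div_le_div_iff₀ (by positivity) hδ, hsum]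
      have h8 : (E.lam : ℝ) * (1 / 4) ^ E.j * δ ≤ ah := by
        rw [mul_comm _ δ]
        exact hge
      linarith
    have e4 : (0 : ℝ) ≤ ((ah + ar : ℝ≥0) : ℝ) / (ah * (1 / 400)) := by positivity
    have e5 : (0 : ℝ) ≤ (poissonMeasure ((E.q : ℝ≥0) ^ 2 * (E.lam * (1 / 4) ^ E.j))).real
      {k | N < k} := measureReal_nonneg
    gcongr
  · -- blob
    intro x a b hb
    unfold GG
    refine ind_congr ?_
    refine (hE.blob a.1 _ _ ?_ ?_ ?_).symm
    · intro v hv hva
      rcases mem_mixS.1 hv with ⟨h3, _⟩ | ⟨_, h4⟩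
      · exact (mem_frees.1 a.2).2 (hva ▸ h3)
      · obtain ⟨u, hu⟩ := exists_siteOf (q := E.q) v
        rw [← hu, hva] at h4
        have h5 := (mem_asm (x := update x a ∅) a u).1 h4
        simp at h5
    · intro v hv
      rcases mem_mixS.1 hv with h3 | ⟨h3, h4⟩
      · exact mem_mixS.2 (Or.inl h3)
      · refine mem_mixS.2 (Or.inr ⟨h3, ?_⟩)
        obtain ⟨a', u, hu, rfl⟩ := h4
        by_cases haa : a' = a
        · subst haa
          simp at hu
        · refine ⟨a', u, ?_, rfl⟩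
          rw [update_of_ne haa] at hu ⊢
          exact hu
    · intro v hv
      rcases mem_mixS.1 hv with h3 | ⟨h3, h4⟩
      · exact Or.inl (mem_mixS.2 (Or.inl h3))
      · obtain ⟨a', u, hu, rfl⟩ := h4
        by_cases haa : a' = a
        · subst haa
          rw [update_self] at hu
          exact Or.inr (hBf2 a'.1 u (hb hu))
        · refine Or.inl (mem_mixS.2 (Or.inr ⟨h3, a', u, ?_, rfl⟩))
          rw [update_of_ne haa] at hu ⊢
          exact hu
  · intro a
    rw [hcardQ]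
    have := hBf1 a.1
    linarith
  · -- stopping
    intro p hp t ht x x' hxx
    rw [Finset.mem_range] at ht
    have hag : AgreeC E.q (JF t (mixS E.q D S0 (asm E.q x))) (mixS E.q D S0 (asm E.q x))
        (mixS E.q D S0 (asm E.q x')) := by
      intro v hv
      have hw := hE.win t ht _ hv
      rw [mem_mixS, mem_mixS]
      by_cases hD : cidx E.q v ∈ D
      · simp [hD]
      · simp only [hD, false_and, not_false_eq_true, true_and, false_or]
        obtain ⟨u, hu⟩ := exists_siteOf (q := E.q) v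
        have hfr : cidx E.q v ∈ frees Win D := mem_frees.2 ⟨hw, hD⟩
        have h3 := mem_asm (x := x) ⟨cidx E.q v, hfr⟩ u
        have h4 := mem_asm (x := x') ⟨cidx E.q v, hfr⟩ u
        simp only [hu] at h3 h4
        rw [h3, h4, hxx ⟨cidx E.q v, hfr⟩ (mem_JG.2 (Or.inr hv))]
    obtain ⟨h3, h4⟩ := hE.stop t ht _ _ hag
    refine ⟨?_, ?_⟩
    · ext a
      rw [mem_JG, mem_JG, h3]
    · unfold GG
      exact ind_congr h4.symm
  · intro p hp t ht x a ha
    exact mem_JG.2 (Or.inl ha)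
  · have : (0 : ℝ) ≤ 1 - c := by linarith
    have := hE.Cr_nonneg
    positivity
  · -- revealment
    intro p hp a ha1 ha2 x0
    obtain ⟨hf1, hf2⟩ := hfar p hp a ha1 ha2
    set S1 : Set Site := mixS E.q D S0 (asm E.q x0) with hS1
    set B : Set Site := D ∪ {z | ∃ a' ∈ R p, a'.1 = z} with hB
    have key : ∀ t ∈ Finset.range T, ∫ ω, ind (fun x => a ∈ JG (R p) (JF t) S0
          ((R p).piecewise x0 x)) (xx ω) ∂(Measure.pi (mm (Pos E.q) (frees Win D) ah ar))
        = SP E.lam E.j (fun S => a.1 ∈ JF t (mixS E.q B S1 S)) := by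
      intro t ht
      rw [Finset.mem_range] at ht
      have h0 := oclaw E h2 hSp hSt ex k hk hex (frees Win D) hlaw
        {x | a ∈ JG (R p) (JF t) S0 ((R p).piecewise x0 x)}
      refine h0.trans ?_
      unfold SP
      congr 1
      ext η
      have h3 : (a ∈ JG (R p) (JF t) S0 ((R p).piecewise x0
            (fun c : frees Win D => posIn E.q (occ η) c.1))) ↔
          a.1 ∈ JF t (mixS E.q D S0 (asm E.q ((R p).piecewise x0
            (fun c : frees Win D => posIn E.q (occ η) c.1)))) := by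
        rw [mem_JG]
        exact ⟨fun h => h.resolve_left ha1, fun h => Or.inr h⟩
      refine h3.trans ?_
      have h4 : JF t (mixS E.q B S1 (occ η)) = JF t (mixS E.q D S0 (asm E.q ((R p).piecewise x0
            (fun c : frees Win D => posIn E.q (occ η) c.1)))) := by
        refine (hE.congr ?_).2 t ht
        intro v hv
        rw [mem_mixS, mem_mixS]
        by_cases hD : cidx E.q v ∈ D
        · have hB1 : cidx E.q v ∈ B := Or.inl hD
          simp only [hD, hB1, true_and, not_true_eq_false, false_and, or_false, hS1, mem_mixS]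
        · have hfr : cidx E.q v ∈ frees Win D := mem_frees.2 ⟨hv, hD⟩
          obtain ⟨u, hu⟩ := exists_siteOf (q := E.q) v
          have h5 := mem_asm (x := (R p).piecewise x0
            (fun c : frees Win D => posIn E.q (occ η) c.1)) ⟨cidx E.q v, hfr⟩ u
          have h6 := mem_asm (x := x0) ⟨cidx E.q v, hfr⟩ u
          simp only [hu] at h5 h6
          simp only [hD, false_and, not_false_eq_true, true_and, false_or]
          rw [h5]
          by_cases hR : (⟨cidx E.q v, hfr⟩ : frees Win D) ∈ R p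
          · have hB1 : cidx E.q v ∈ B := Or.inr ⟨_, hR, rfl⟩
            rw [Finset.piecewise_eq_of_mem _ _ _ hR]
            simp only [hB1, not_true_eq_false, false_and, or_false, hS1, mem_mixS,
              hD, not_false_eq_true, true_and, false_or]
            exact h6.symm
          · have hB1 : cidx E.q v ∉ B := by
              rintro (h7 | ⟨a', ha', h8⟩)
              · exact hD h7
              · refine hR ?_
                have : a' = ⟨cidx E.q v, hfr⟩ := Subtype.ext h8
                exact this ▸ ha'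
            rw [Finset.piecewise_eq_of_notMem _ _ _ hR, mem_posIn, hu]
            simp only [hB1, not_false_eq_true, true_and, false_and, false_or]
      rw [← h4]
      exact Iff.rfl
    rw [sum_congr rfl fun t ht => by rw [key t ht], ← mul_sum]
    have h9 := hE.rev B S1 a.1 d n ?_ hnd hdT
    · rw [one_div, inv_mul_eq_div]
      gcongr
    · rintro c' (h3 | ⟨a', ha', rfl⟩)
      · exact hf1 c' h3
      · exact hf2 a' ha'

end

end MPdd5692.B35
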